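import Pool.Agent.NQL.Defs

/-!
# PROJECT NQF (MP_6ea1bd_co): the number of n-queens configurations up to a factor `1 + o(1)`, definitions

THEOREM. `Q(n) = (1 + o(1)) exp (F_n(W) - n) √(4 π n) exp (-(3/2) ∑ W²) det (H + v vᵀ)^(-1/2)`, `W = W_n` the
maximiser of the functional `F_n`, `H` = the Hessian (covariance matrix of the lines), `v` = gauge vector; and
`log Q(n) - n log n + α n - (1/2) log n → c`.

Blocks: LS (line systems: one step of the second order value), P (permanents), R (induction on the board),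
F (regularity of the maximiser, value of the functional), L (limit of the determinant).
-/

set_option autoImplicit false

open Finset

namespace Pool.Agent.NQF

open Pool.Agent.NQ (board dsum F Ent Dg phi ln Q Qset QS NonAtt bern)
open Pool.Agent.NQR (Adm Opt Bd Rf hS hD hh InR)
open Pool.Agent.NQL

/-! ### Line systems

`I` = finite set of lines, `S` = finite set of squares, `L e` = the set of lines of the square `e` (`ν` lines),
`w` = weights of the squares, `c` = weights of the lines, `g` = gauge vector (`1` rows, `-1` columns, `0` other). -/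

section LS

variable {α β : Type} [DecidableEq α] [DecidableEq β]

/-- sum of a potential over the lines of a square -/
noncomputable def dS (L : β → Finset α) (z : α → ℝ) (e : β) : ℝ := ∑ l ∈ L e, z l

/-- the squares of `S` on the line `l` -/
def Sr (L : β → Finset α) (S : Finset β) (l : α) : Finset β := S.filter (fun e => l ∈ L e)

/-- the squares of `S` that have no line in common with `e0` -/
def Sd (L : β → Finset α) (S : Finset β) (e0 : β) : Finset β := S.filter (fun f => Disjoint (L f) (L e0))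

/-- the squares of `S` different from `e0` that have a line in common with `e0` -/
def Sm (L : β → Finset α) (S : Finset β) (e0 : β) : Finset β :=
  S.filter (fun f => ¬ Disjoint (L f) (L e0) ∧ f ≠ e0)

/-- off-diagonal part of the Hessian -/
noncomputable def MM (L : β → Finset α) (S : Finset β) (w : β → ℝ) (l l' : α) : ℝ :=
  if l = l' then 0 else ∑ e ∈ S.filter (fun e => l ∈ L e ∧ l' ∈ L e), w e

/-- Hessian with gauge term (all line masses are one) -/
noncomputable def AA (L : β → Finset α) (S : Finset β) (w : β → ℝ) (g : α → ℝ) (m : ℕ) (l l' : α) : ℝ :=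
  (if l = l' then 1 else 0) + MM L S w l l' + g l * g l' / (2 * m)

/-- logarithm of the determinant of `A` on the finite set `I` -/
noncomputable def LD (I : Finset α) (A : α → α → ℝ) : ℝ :=
  Real.log (Matrix.det (Matrix.of (fun i j : I => A i j)))

/-- a regular stationary line system -/
structure LSys (ν m : ℕ) (K lam : ℝ) (I : Finset α) (L : β → Finset α) (S : Finset β) (w : β → ℝ)
    (c g : α → ℝ) : Prop where
  sub : ∀ e ∈ S, L e ⊆ I
  card : ∀ e ∈ S, (L e).card = ν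
  lin : ∀ e ∈ S, ∀ f ∈ S, e ≠ f → (L e ∩ L f).card ≤ 1
  st : ∀ l ∈ I, ∑ e ∈ Sr L S l, w e + c l = 1
  wnn : ∀ e ∈ S, 0 ≤ w e
  up : ∀ e ∈ S, w e ≤ K / m
  cnn : ∀ l ∈ I, 0 ≤ c l
  gc : ∀ l ∈ I, g l ≠ 0 → c l = 0
  gv : ∀ l ∈ I, g l = 0 ∨ g l = 1 ∨ g l = -1
  g2 : ∑ l ∈ I, g l ^ 2 = 2 * m
  g1 : ∑ l ∈ I, g l = 0
  ge : ∀ e ∈ S, ∑ l ∈ L e, g l = 0
  ge2 : ∀ e ∈ S, ∑ l ∈ L e, g l ^ 2 = 2
  co : ∀ δ : α → ℝ, lam * ∑ l ∈ I, δ l ^ 2 ≤
    ∑ e ∈ S, w e * dS L δ e ^ 2 + ∑ l ∈ I, c l * δ l ^ 2 + (∑ l ∈ I, g l * δ l) ^ 2 / (2 * m)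

/-- `δ` is stationary for the system reduced by the square `e0` -/
def StR (I : Finset α) (L : β → Finset α) (S : Finset β) (w : β → ℝ) (c : α → ℝ) (e0 : β) (δ : α → ℝ) : Prop :=
  ∀ l ∈ I \ L e0, ∑ f ∈ Sr L (Sd L S e0) l, w f * Real.exp (dS L δ f) + c l * Real.exp (δ l) = 1

/-- coefficient of the sum of squares: `3/2` for `ν = 4`, `0` for `ν = 2` -/
noncomputable def kap (ν : ℕ) : ℝ := ((ν : ℝ) - 1) * (ν - 2) / 4

/-- value of the reduced functional minus the value of the functional, plus `ν` -/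
noncomputable def DV1 (ν : ℕ) (I : Finset α) (L : β → Finset α) (S : Finset β) (w : β → ℝ) (c : α → ℝ) (e0 : β)
    (δ : α → ℝ) : ℝ :=
  (∑ f ∈ Sd L S e0, w f * Real.exp (dS L δ f) + ∑ l ∈ I \ L e0, (c l * Real.exp (δ l) - δ l)) -
    (∑ f ∈ S, w f + ∑ l ∈ I, c l) + ν

/-- change of the second order value if the square `e0` is removed and the potentials change by `δ` -/
noncomputable def DV2 (ν m : ℕ) (I : Finset α) (L : β → Finset α) (S : Finset β) (w : β → ℝ) (c g : α → ℝ)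
    (e0 : β) (δ : α → ℝ) : ℝ :=
  DV1 ν I L S w c e0 δ + Real.log (((m : ℝ) - 1) / m) / 2 -
    (LD (I \ L e0) (AA L (Sd L S e0) (fun f => w f * Real.exp (dS L δ f)) g (m - 1)) -
      LD I (AA L S w g m)) / 2 -
    kap ν * (∑ f ∈ Sd L S e0, (w f * Real.exp (dS L δ f)) ^ 2 - ∑ f ∈ S, w f ^ 2)

end LS

/-! ### The board as a line system -/

/-- the four lines of a square -/
def L4 (e : ℤ × ℤ) : Finset Li := univ.image (fun k : Fin 4 => (k, ln k e))

/-- row and column of a square -/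
def L2 (e : ℤ × ℤ) : Finset Li := {((0, e.1) : Li), ((1, e.2) : Li)}

/-- second order value of an instance of size `m` with potentials `z` -/
noncomputable def V2 (N m : ℕ) (I : Finset Li) (z : Li → ℝ) : ℝ :=
  Vf N m I z + Real.log (4 * Real.pi * m) / 2 - LD I (AA L4 (Sq N I) (wt z) ga m) / 2 -
    3 / 2 * ∑ e ∈ Sq N I, wt z e ^ 2

/-! ### Permanents -/

/-- `s` is a perfect matching of the rows `R` with the columns `C` -/
def PM (s : Finset (ℤ × ℤ)) (R C : Finset ℤ) : Prop :=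
  (∀ x ∈ R, ∃! y, (x, y) ∈ s) ∧ (∀ y ∈ C, ∃! x, (x, y) ∈ s)

open Classical in
/-- the permanent of `X` with the rows `R` and the columns `C` -/
noncomputable def pe (X : ℤ × ℤ → ℝ) (R C : Finset ℤ) : ℝ :=
  ∑ s ∈ (R ×ˢ C).powerset.filter (fun s => PM s R C), ∏ e ∈ s, X e

/-- the rows `R` and the columns `C` as lines -/
def I2 (R C : Finset ℤ) : Finset Li := R.image (fun x => ((0, x) : Li)) ∪ C.image (fun y => ((1, y) : Li))

/-- doubly stochastic with entries at most `K/m` and codegrees at least `c/m` -/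
structure Ds (K c : ℝ) (m : ℕ) (w : ℤ × ℤ → ℝ) (R C : Finset ℤ) : Prop where
  cR : R.card = m
  cC : C.card = m
  nn : ∀ x ∈ R, ∀ y ∈ C, 0 ≤ w (x, y)
  up : ∀ x ∈ R, ∀ y ∈ C, w (x, y) ≤ K / m
  row : ∀ x ∈ R, ∑ y ∈ C, w (x, y) = 1
  col : ∀ y ∈ C, ∑ x ∈ R, w (x, y) = 1
  gr : ∀ x ∈ R, ∀ x' ∈ R, x ≠ x' → c / m ≤ ∑ y ∈ C, w (x, y) * w (x', y)
  gc : ∀ y ∈ C, ∀ y' ∈ C, y ≠ y' → c / m ≤ ∑ x ∈ R, w (x, y) * w (x, y')

/-- second order value of a doubly stochastic matrix -/
noncomputable def Vp (m : ℕ) (w : ℤ × ℤ → ℝ) (R C : Finset ℤ) : ℝ :=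
  -(m : ℝ) + Real.log (4 * Real.pi * m) / 2 - LD (I2 R C) (AA L2 (R ×ˢ C) w ga m) / 2

/-! ### The constant -/

/-- the constant of the board of size `n` -/
noncomputable def cn (n : ℕ) (W : ℤ × ℤ → ℝ) : ℝ :=
  Real.log (4 * Real.pi) / 2 - LD (full n) (AA L4 (board n) W ga n) / 2 - 3 / 2 * ∑ e ∈ board n, W e ^ 2

/-- Lipschitz regularity -/
structure Lp (C : ℝ) (N : ℕ) (W : ℤ × ℤ → ℝ) (A B : ℤ → ℝ) : Prop where
  A : ∀ x : ℤ, 0 ≤ x → x + 1 < N → |Real.log (A (x + 1)) - Real.log (A x)| ≤ C / N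
  B : ∀ x : ℤ, 0 ≤ x → x + 1 < N → |Real.log (B (x + 1)) - Real.log (B x)| ≤ C / N
  s : ∀ s : ℤ, |hS N W (s + 1) - hS N W s| ≤ C / N
  d : ∀ s : ℤ, |hD N W (s + 1) - hD N W s| ≤ C / N

end Pool.Agent.NQF
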