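import Pool.Agent.NQF.FDefs

/-!
# NQF-FW: the weights are Lipschitz

The four factors of the weights are Lipschitz.
-/

set_option autoImplicit false

open Finset

namespace Pool.Agent.NQF

open Pool.Agent.NQ (board dsum F Ent Dg phi ln Q Qset QS NonAtt bern)
open Pool.Agent.NQR (Adm Opt Bd Rf hS hD hh InR)
open Pool.Agent.NQL

private theorem fw_tele (f : ℤ → ℝ) (δ : ℝ) (a b : ℤ) (hab : a ≤ b)
    (h : ∀ x, a ≤ x → x < b → |f (x + 1) - f x| ≤ δ) : |f b - f a| ≤ ((b - a : ℤ) : ℝ) * δ := by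
  induction b, hab using Int.le_induction with
  | base => rw [sub_self, abs_zero, sub_self, Int.cast_zero, zero_mul]
  | succ b hab ih =>
    have h1 := ih (fun x hx hx' => h x hx (by omega))
    have h2 := h b hab (by omega)
    have h3 := abs_sub_le (f (b + 1)) (f b) (f a)
    have e : ((b + 1 - a : ℤ) : ℝ) * δ = ((b - a : ℤ) : ℝ) * δ + δ := by
      push_cast
      ring
    rw [e]
    linarith

private theorem fw_tele2 (f : ℤ → ℝ) (δ : ℝ) (lo hi : ℤ)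
    (h : ∀ x, lo ≤ x → x + 1 < hi → |f (x + 1) - f x| ≤ δ) (s t : ℤ) (hs : lo ≤ s) (hs' : s < hi) (ht : lo ≤ t)
    (ht' : t < hi) : |f s - f t| ≤ ((|s - t| : ℤ) : ℝ) * δ := by
  rcases le_total t s with hst | hst
  · have h1 := fw_tele f δ t s hst (fun x hx hx' => h x (by omega) (by omega))
    rw [abs_of_nonneg (by omega : (0 : ℤ) ≤ s - t)]
    exact h1
  · have h1 := fw_tele f δ s t hst (fun x hx hx' => h x (by omega) (by omega))
    rw [abs_sub_comm (f s) (f t), abs_sub_comm s t, abs_of_nonneg (by omega : (0 : ℤ) ≤ t - s)]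
    exact h1

private theorem fw_exp (u : ℝ) : |Real.exp u - 1| ≤ |u| * Real.exp |u| := by
  have h1 := Real.add_one_le_exp (-u)
  have h2 := Real.add_one_le_exp u
  have h3 : Real.exp u * (-u + 1) ≤ Real.exp u * Real.exp (-u) := mul_le_mul_of_nonneg_left h1 (Real.exp_pos u).le
  rw [← Real.exp_add, add_neg_cancel, Real.exp_zero] at h3
  have h4 : Real.exp u ≤ Real.exp |u| := Real.exp_le_exp.2 (le_abs_self u)
  have h5 : (1 : ℝ) ≤ Real.exp |u| := Real.one_le_exp (abs_nonneg u)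
  rw [abs_le]
  constructor
  · have h6 : |u| * 1 ≤ |u| * Real.exp |u| := mul_le_mul_of_nonneg_left h5 (abs_nonneg u)
    have h7 := neg_abs_le u
    linarith
  · have h6 : u * Real.exp u ≤ |u| * Real.exp |u| := by
      calc u * Real.exp u ≤ |u| * Real.exp u := mul_le_mul_of_nonneg_right (le_abs_self u) (Real.exp_pos u).le
        _ ≤ |u| * Real.exp |u| := mul_le_mul_of_nonneg_left h4 (abs_nonneg u)
    linarith

/-- a factor which depends on a row or a column -/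
private theorem fw_fac {L C : ℝ} (hC : 0 ≤ C) {N : ℕ} (hN : 1 ≤ N) {A : ℤ → ℝ} (hL : 1 ≤ L)
    (h1 : ∀ x : ℤ, 0 ≤ x → x < N → 1 / (L * Real.sqrt N) ≤ A x)
    (h2 : ∀ x : ℤ, 0 ≤ x → x < N → A x ≤ L / Real.sqrt N)
    (h3 : ∀ x : ℤ, 0 ≤ x → x + 1 < N → |Real.log (A (x + 1)) - Real.log (A x)| ≤ C / N) {D : ℝ} (s t : ℤ)
    (hs : 0 ≤ s) (hs' : s < N) (ht : 0 ≤ t) (ht' : t < N) (hD : ((|s - t| : ℤ) : ℝ) ≤ D) :
    |A s - A t| ≤ L / Real.sqrt N * (Real.exp C * (C * (D / N))) := by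
  have hN0 : (0 : ℝ) < N := by exact_mod_cast hN
  have hsq : 0 < Real.sqrt N := Real.sqrt_pos.2 hN0
  have hpos : ∀ x : ℤ, 0 ≤ x → x < N → 0 < A x := fun x hx hx' =>
    lt_of_lt_of_le (by positivity) (h1 x hx hx')
  have h4 := fw_tele2 (fun x => Real.log (A x)) (C / N) 0 N h3 s t hs hs' ht ht'
  have h5 : ((|s - t| : ℤ) : ℝ) * (C / N) ≤ C * (D / N) := by
    calc ((|s - t| : ℤ) : ℝ) * (C / N) ≤ D * (C / N) := mul_le_mul_of_nonneg_right hD (by positivity)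
      _ = C * (D / N) := by ring
  have h6 : ((|s - t| : ℤ) : ℝ) * (C / N) ≤ C := by
    have h7 : |s - t| ≤ (N : ℤ) := by
      rw [abs_le]
      constructor <;> omega
    have h8 : ((|s - t| : ℤ) : ℝ) ≤ N := by exact_mod_cast h7
    calc ((|s - t| : ℤ) : ℝ) * (C / N) ≤ N * (C / N) := mul_le_mul_of_nonneg_right h8 (by positivity)
      _ = C := by field_simp
  have h7 : A s - A t = A t * (Real.exp (Real.log (A s) - Real.log (A t)) - 1) := by
    rw [Real.exp_sub, Real.exp_log (hpos s hs hs'), Real.exp_log (hpos t ht ht')]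
    have := (hpos t ht ht').ne'
    field_simp
  rw [h7, abs_mul, abs_of_pos (hpos t ht ht')]
  apply mul_le_mul (h2 t ht ht') _ (abs_nonneg _) (by positivity)
  have h8 : |Real.log (A s) - Real.log (A t)| ≤ ((|s - t| : ℤ) : ℝ) * (C / N) := h4
  calc |Real.exp (Real.log (A s) - Real.log (A t)) - 1|
      ≤ |Real.log (A s) - Real.log (A t)| * Real.exp |Real.log (A s) - Real.log (A t)| := fw_exp _
    _ ≤ (C * (D / N)) * Real.exp C :=
        mul_le_mul (h8.trans h5) (Real.exp_le_exp.2 (h8.trans h6)) (Real.exp_pos _).le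
          ((abs_nonneg _).trans (h8.trans h5))
    _ = Real.exp C * (C * (D / N)) := mul_comm _ _

/-- a factor which depends on a diagonal -/
private theorem fw_dia {C : ℝ} (hC : 0 ≤ C) {N : ℕ} {H : ℤ → ℝ} (h : ∀ s : ℤ, |H (s + 1) - H s| ≤ C / N) {D : ℝ}
    (s t : ℤ) (hD : ((|s - t| : ℤ) : ℝ) ≤ D) : |H s - H t| ≤ C * (D / N) := by
  have h4 := fw_tele2 H (C / N) (min s t) (max s t + 1) (fun x _ _ => h x) s t (min_le_left _ _)
    (by have := le_max_left s t; omega) (min_le_right _ _) (by have := le_max_right s t; omega)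
  calc |H s - H t| ≤ ((|s - t| : ℤ) : ℝ) * (C / N) := h4
    _ ≤ D * (C / N) := mul_le_mul_of_nonneg_right hD (by positivity)
    _ = C * (D / N) := by ring

private theorem fw_prod {a a' b b' p p' q q' M α η : ℝ} (ha' : 0 ≤ a') (hb : 0 ≤ b) (hb' : 0 ≤ b')
    (hp : 0 ≤ p) (hp' : 0 ≤ p') (hq : 0 ≤ q) (haM' : a' ≤ M) (hbM : b ≤ M) (hbM' : b' ≤ M)
    (hp1 : p ≤ 1) (hp1' : p' ≤ 1) (hq1 : q ≤ 1) (hM : 0 ≤ M) (hα : 0 ≤ α) (hη : 0 ≤ η)
    (h1 : |a - a'| ≤ M * α) (h2 : |b - b'| ≤ M * α) (h3 : |p - p'| ≤ η) (h4 : |q - q'| ≤ η) :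
    |a * b * (p * q) - a' * b' * (p' * q')| ≤ M * M * (2 * α + 2 * η) := by
  have e : a * b * (p * q) - a' * b' * (p' * q') =
      (a - a') * (b * (p * q)) + (b - b') * (a' * (p * q)) + (p - p') * (a' * b' * q) + (q - q') * (a' * b' * p') := by
    ring
  have hpq : p * q ≤ 1 := by nlinarith
  have hpq0 : 0 ≤ p * q := mul_nonneg hp hq
  have t1 : |(a - a') * (b * (p * q))| ≤ M * α * (M * 1) := by
    rw [abs_mul, abs_of_nonneg (mul_nonneg hb hpq0)]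
    exact mul_le_mul h1 (mul_le_mul hbM hpq hpq0 hM) (mul_nonneg hb hpq0) (mul_nonneg hM hα)
  have t2 : |(b - b') * (a' * (p * q))| ≤ M * α * (M * 1) := by
    rw [abs_mul, abs_of_nonneg (mul_nonneg ha' hpq0)]
    exact mul_le_mul h2 (mul_le_mul haM' hpq hpq0 hM) (mul_nonneg ha' hpq0) (mul_nonneg hM hα)
  have hab : a' * b' ≤ M * M := mul_le_mul haM' hbM' hb' hM
  have hab0 : 0 ≤ a' * b' := mul_nonneg ha' hb'
  have t3 : |(p - p') * (a' * b' * q)| ≤ η * (M * M * 1) := by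
    rw [abs_mul, abs_of_nonneg (mul_nonneg hab0 hq)]
    exact mul_le_mul h3 (mul_le_mul hab hq1 hq (mul_nonneg hM hM)) (mul_nonneg hab0 hq) hη
  have t4 : |(q - q') * (a' * b' * p')| ≤ η * (M * M * 1) := by
    rw [abs_mul, abs_of_nonneg (mul_nonneg hab0 hp')]
    exact mul_le_mul h4 (mul_le_mul hab hp1' hp' (mul_nonneg hM hM)) (mul_nonneg hab0 hp') hη
  rw [e]
  have s1 := abs_add_le ((a - a') * (b * (p * q)) + (b - b') * (a' * (p * q)) + (p - p') * (a' * b' * q))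
    ((q - q') * (a' * b' * p'))
  have s2 := abs_add_le ((a - a') * (b * (p * q)) + (b - b') * (a' * (p * q))) ((p - p') * (a' * b' * q))
  have s3 := abs_add_le ((a - a') * (b * (p * q))) ((b - b') * (a' * (p * q)))
  nlinarith

theorem w_lip {L C : ℝ} (hL : 1 ≤ L) (hC : 0 ≤ C) : ∃ C1 : ℝ, 0 ≤ C1 ∧ ∀ (N : ℕ) (W : ℤ × ℤ → ℝ) (A B : ℤ → ℝ), 1 ≤ N →
    Rf L N W A B → Lp C N W A B → ∀ e ∈ board N, ∀ f ∈ board N,
      |W e - W f| ≤ C1 * ((|e.1 - f.1| + |e.2 - f.2| : ℤ) : ℝ) / (N : ℝ) ^ 2 := by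
  refine ⟨L ^ 2 * (2 * (Real.exp C * C) + 2 * C), by positivity, ?_⟩
  intro N W A B hN hR hP e he f hf
  have hN0 : (0 : ℝ) < N := by exact_mod_cast hN
  have hsq : 0 < Real.sqrt N := Real.sqrt_pos.2 hN0
  have hL0 : 0 < L := by linarith
  obtain ⟨he1, he2⟩ := Finset.mem_product.1 he
  obtain ⟨hf1, hf2⟩ := Finset.mem_product.1 hf
  rw [Finset.mem_Ico] at he1 he2 hf1 hf2
  have hd0 : ∀ k s, 0 ≤ dsum N W k s := fun k s => Finset.sum_nonneg fun x _ => hR.adm.nn x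
  have hS0 : ∀ s, 0 ≤ hS N W s := fun s => le_trans (by positivity) (hR.bd.sd s)
  have hD0 : ∀ s, 0 ≤ hD N W s := fun s => le_trans (by positivity) (hR.bd.dd s)
  have hS1 : ∀ s, hS N W s ≤ 1 := fun s => by
    have := hd0 2 s
    unfold hS
    linarith
  have hD1 : ∀ s, hD N W s ≤ 1 := fun s => by
    have := hd0 3 s
    unfold hD
    linarith
  have hA0 : ∀ x : ℤ, 0 ≤ x → x < N → 0 ≤ A x := fun x hx hx' => le_trans (by positivity) (hR.A1 x hx hx')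
  have hB0 : ∀ x : ℤ, 0 ≤ x → x < N → 0 ≤ B x := fun x hx hx' => le_trans (by positivity) (hR.B1 x hx hx')
  set D : ℝ := ((|e.1 - f.1| + |e.2 - f.2| : ℤ) : ℝ) with hDe
  have hDn : 0 ≤ D := by
    rw [hDe]
    have : (0 : ℤ) ≤ |e.1 - f.1| + |e.2 - f.2| := add_nonneg (abs_nonneg _) (abs_nonneg _)
    exact_mod_cast this
  have d1 : ((|e.1 - f.1| : ℤ) : ℝ) ≤ D := by
    rw [hDe]
    exact_mod_cast le_add_of_nonneg_right (abs_nonneg (e.2 - f.2))
  have d2 : ((|e.2 - f.2| : ℤ) : ℝ) ≤ D := by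
    rw [hDe]
    exact_mod_cast le_add_of_nonneg_left (abs_nonneg (e.1 - f.1))
  have d3 : ((|e.1 + e.2 - (f.1 + f.2)| : ℤ) : ℝ) ≤ D := by
    rw [hDe]
    have h1 : |e.1 + e.2 - (f.1 + f.2)| ≤ |e.1 - f.1| + |e.2 - f.2| := by
      have h2 := abs_add_le (e.1 - f.1) (e.2 - f.2)
      have h3 : e.1 + e.2 - (f.1 + f.2) = e.1 - f.1 + (e.2 - f.2) := by ring
      rw [h3]
      exact h2
    exact_mod_cast h1
  have d4 : ((|e.1 - e.2 - (f.1 - f.2)| : ℤ) : ℝ) ≤ D := by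
    rw [hDe]
    have h1 : |e.1 - e.2 - (f.1 - f.2)| ≤ |e.1 - f.1| + |e.2 - f.2| := by
      have h2 := abs_sub (e.1 - f.1) (e.2 - f.2)
      have h3 : e.1 - e.2 - (f.1 - f.2) = e.1 - f.1 - (e.2 - f.2) := by ring
      rw [h3]
      exact h2
    exact_mod_cast h1
  have a1 := fw_fac hC hN hL hR.A1 hR.A2 hP.A e.1 f.1 he1.1 he1.2 hf1.1 hf1.2 d1
  have a2 := fw_fac hC hN hL hR.B1 hR.B2 hP.B e.2 f.2 he2.1 he2.2 hf2.1 hf2.2 d2
  have a3 := fw_dia hC hP.s (e.1 + e.2) (f.1 + f.2) d3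
  have a4 := fw_dia hC hP.d (e.1 - e.2) (f.1 - f.2) d4
  have key := fw_prod (hA0 _ hf1.1 hf1.2) (hB0 _ he2.1 he2.2) (hB0 _ hf2.1 hf2.2)
    (hS0 (e.1 + e.2)) (hS0 (f.1 + f.2)) (hD0 (e.1 - e.2)) (hR.A2 _ hf1.1 hf1.2) (hR.B2 _ he2.1 he2.2)
    (hR.B2 _ hf2.1 hf2.2) (hS1 _) (hS1 _) (hD1 _) (by positivity) (by positivity) (by positivity) a1 a2 a3 a4
  have e1 : W e = A e.1 * B e.2 * (hS N W (e.1 + e.2) * hD N W (e.1 - e.2)) := hR.el e he
  have e2 : W f = A f.1 * B f.2 * (hS N W (f.1 + f.2) * hD N W (f.1 - f.2)) := hR.el f hf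
  rw [e1, e2]
  refine key.trans (le_of_eq ?_)
  have e3 : L / Real.sqrt N * (L / Real.sqrt N) = L ^ 2 / N := by
    rw [div_mul_div_comm, Real.mul_self_sqrt hN0.le, sq]
  rw [e3]
  field_simp

end Pool.Agent.NQF
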