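import Pool.Agent.NQF.FDefs
import Pool.Agent.NQF.FW
import Pool.Agent.NQL.ECoD

/-!
# NQF-FBlk: block averages

`cz n k W e = (1/k) ∑_{a, b < k} W (k e + (a,b))` for `e ∈ board n` (NQL/ECoD), `0` outside.

PLAN. `C1` from `w_lip`. (1) `cz n k W e / k` is the mean of the `k²` values `W (k e.1 + a', k e.2 + b')`, all squares of the block are in `board (n k)` and at
distance `≤ 2 k` from `(k e.1 + a, k e.2 + b)`: `≤ C1 2 k/(n k)²= 2 C1/(n² k)`. (2) `cz n k W e - cz n k W e' = (1/k) ∑_{a,b} (W (k e + (a,b)) - W (k e' + (a,b)))`,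
each difference `≤ C1 k D/(n k)²`, `k²` terms: `≤ C1 D/n²`. (3) `0 ≤ cz`: `W ≥ 0`; `cz ≤ (1/k) k² L/(n k) = L/n` (`hR.bd.hi`).
`hR`, `Lp` are for the board `n * k` (cast: `((n * k : ℕ) : ℝ) = n * k`). The constant of the theorem is `2 C1`.
-/

set_option autoImplicit false

open Finset

namespace Pool.Agent.NQF

open Pool.Agent.NQ (board dsum F Ent Dg phi ln Q Qset QS NonAtt bern)
open Pool.Agent.NQR (Adm Opt Bd Rf hS hD hh InR)
open Pool.Agent.NQL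

private theorem mem_blk {n k : ℕ} {e : ℤ × ℤ} (he : e ∈ board n) {a b : ℤ} (ha : 0 ≤ a) (ha' : a < k)
    (hb : 0 ≤ b) (hb' : b < k) : ((k : ℤ) * e.1 + a, (k : ℤ) * e.2 + b) ∈ board (n * k) := by
  unfold board at he ⊢
  rw [Finset.mem_product, Finset.mem_Ico, Finset.mem_Ico] at he ⊢
  obtain ⟨⟨h1, h2⟩, h3, h4⟩ := he
  have hk : (0 : ℤ) < k := by omega
  have e1 : (k : ℤ) * (e.1 + 1) ≤ k * n := mul_le_mul_of_nonneg_left (by linarith) hk.le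
  have e2 : (k : ℤ) * (e.2 + 1) ≤ k * n := mul_le_mul_of_nonneg_left (by linarith) hk.le
  have e3 := mul_nonneg hk.le h1
  have e4 := mul_nonneg hk.le h3
  push_cast
  refine ⟨⟨?_, ?_⟩, ?_, ?_⟩
  · show (0 : ℤ) ≤ k * e.1 + a
    linarith
  · show (k : ℤ) * e.1 + a < n * k
    linarith
  · show (0 : ℤ) ≤ k * e.2 + b
    linarith
  · show (k : ℤ) * e.2 + b < n * k
    linarith

private theorem sum_blk_const (k : ℕ) (M : ℝ) :
    ∑ _a ∈ Finset.Ico (0 : ℤ) k, ∑ _b ∈ Finset.Ico (0 : ℤ) k, M = (k : ℝ) * (k * M) := by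
  rw [Finset.sum_const, Finset.sum_const, Int.card_Ico, sub_zero, Int.toNat_natCast, nsmul_eq_mul, nsmul_eq_mul]

private theorem abs_blk (k : ℕ) (f : ℤ → ℤ → ℝ) (M : ℝ)
    (h : ∀ a ∈ Finset.Ico (0 : ℤ) k, ∀ b ∈ Finset.Ico (0 : ℤ) k, |f a b| ≤ M) :
    |∑ a ∈ Finset.Ico (0 : ℤ) k, ∑ b ∈ Finset.Ico (0 : ℤ) k, f a b| ≤ (k : ℝ) * (k * M) := by
  rw [← sum_blk_const]
  refine (Finset.abs_sum_le_sum_abs _ _).trans (Finset.sum_le_sum fun a ha => ?_)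
  exact (Finset.abs_sum_le_sum_abs _ _).trans (Finset.sum_le_sum fun b hb => h a ha b hb)

theorem f_blk {L C : ℝ} (hL : 1 ≤ L) (hC : 0 ≤ C) : ∃ C1 : ℝ, 0 ≤ C1 ∧ ∀ (n k : ℕ) (W : ℤ × ℤ → ℝ) (A B : ℤ → ℝ),
    1 ≤ n → 1 ≤ k → Rf L (n * k) W A B → Lp C (n * k) W A B →
      (∀ e ∈ board n, ∀ a b : ℤ, 0 ≤ a → a < k → 0 ≤ b → b < k →
        |W (k * e.1 + a, k * e.2 + b) - cz n k W e / k| ≤ C1 / ((n : ℝ) ^ 2 * k)) ∧
      (∀ e ∈ board n, ∀ e' ∈ board n,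
        |cz n k W e - cz n k W e'| ≤ C1 * ((|e.1 - e'.1| + |e.2 - e'.2| : ℤ) : ℝ) / (n : ℝ) ^ 2) := by
  obtain ⟨C1, hC1, hlip⟩ := w_lip hL hC
  refine ⟨2 * C1, by linarith, ?_⟩
  intro n k W A B hn hk hR hLp
  have hN : 1 ≤ n * k := Nat.mul_pos hn hk
  have hl := hlip (n * k) W A B hN hR hLp
  have hk0 : (0 : ℝ) < k := by exact_mod_cast hk
  have hn0 : (0 : ℝ) < n := by exact_mod_cast hn
  constructor
  · intro e he a b ha ha' hb hb'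
    have hM : ∀ a' ∈ Finset.Ico (0 : ℤ) k, ∀ b' ∈ Finset.Ico (0 : ℤ) k,
        |W (k * e.1 + a, k * e.2 + b) - W (k * e.1 + a', k * e.2 + b')| ≤ C1 * (2 * k) / ((n * k : ℕ) : ℝ) ^ 2 := by
      intro a1 ha1 b1 hb1
      rw [Finset.mem_Ico] at ha1 hb1
      refine (hl _ (mem_blk he ha ha' hb hb') _ (mem_blk he ha1.1 ha1.2 hb1.1 hb1.2)).trans ?_
      have h1 : (|((k : ℤ) * e.1 + a) - (k * e.1 + a1)| + |((k : ℤ) * e.2 + b) - (k * e.2 + b1)| : ℤ) ≤ 2 * k := by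
        have e1 : ((k : ℤ) * e.1 + a) - (k * e.1 + a1) = a - a1 := by ring
        have e2 : ((k : ℤ) * e.2 + b) - (k * e.2 + b1) = b - b1 := by ring
        rw [e1, e2]
        have e3 : |a - a1| ≤ (k : ℤ) := abs_le.2 ⟨by omega, by omega⟩
        have e4 : |b - b1| ≤ (k : ℤ) := abs_le.2 ⟨by omega, by omega⟩
        linarith
      have h2 : ((|((k : ℤ) * e.1 + a) - (k * e.1 + a1)| + |((k : ℤ) * e.2 + b) - (k * e.2 + b1)| : ℤ) : ℝ) ≤ 2 * k := by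
        exact_mod_cast h1
      gcongr
    have h3 := abs_blk k _ _ hM
    have h4 : ∑ a' ∈ Finset.Ico (0 : ℤ) k, ∑ b' ∈ Finset.Ico (0 : ℤ) k,
        (W (k * e.1 + a, k * e.2 + b) - W (k * e.1 + a', k * e.2 + b')) =
        (k : ℝ) * (k * W (k * e.1 + a, k * e.2 + b)) -
          ∑ a' ∈ Finset.Ico (0 : ℤ) k, ∑ b' ∈ Finset.Ico (0 : ℤ) k, W (k * e.1 + a', k * e.2 + b') := by
      simp only [Finset.sum_sub_distrib]
      rw [sum_blk_const]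
    rw [h4] at h3
    unfold cz
    rw [if_pos he]
    generalize ∑ a' ∈ Finset.Ico (0 : ℤ) k, ∑ b' ∈ Finset.Ico (0 : ℤ) k, W (k * e.1 + a', k * e.2 + b') = S at *
    generalize W (k * e.1 + a, k * e.2 + b) = w0 at *
    have h5 : w0 - S / k / k = ((k : ℝ) * (k * w0) - S) / (k * k) := by
      field_simp
    rw [h5, abs_div, abs_of_pos (mul_pos hk0 hk0), div_le_iff₀ (mul_pos hk0 hk0)]
    refine h3.trans (le_of_eq ?_)
    push_cast
    field_simp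
  · intro e he e' he'
    have hM : ∀ a ∈ Finset.Ico (0 : ℤ) k, ∀ b ∈ Finset.Ico (0 : ℤ) k,
        |W (k * e.1 + a, k * e.2 + b) - W (k * e'.1 + a, k * e'.2 + b)| ≤
          C1 * (k * ((|e.1 - e'.1| + |e.2 - e'.2| : ℤ) : ℝ)) / ((n * k : ℕ) : ℝ) ^ 2 := by
      intro a1 ha1 b1 hb1
      rw [Finset.mem_Ico] at ha1 hb1
      refine (hl _ (mem_blk he ha1.1 ha1.2 hb1.1 hb1.2) _ (mem_blk he' ha1.1 ha1.2 hb1.1 hb1.2)).trans (le_of_eq ?_)
      have hkz : (0 : ℤ) ≤ k := by omega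
      have h1 : (|((k : ℤ) * e.1 + a1) - (k * e'.1 + a1)| + |((k : ℤ) * e.2 + b1) - (k * e'.2 + b1)| : ℤ) =
          k * (|e.1 - e'.1| + |e.2 - e'.2|) := by
        have e1 : ((k : ℤ) * e.1 + a1) - (k * e'.1 + a1) = k * (e.1 - e'.1) := by ring
        have e2 : ((k : ℤ) * e.2 + b1) - (k * e'.2 + b1) = k * (e.2 - e'.2) := by ring
        rw [e1, e2, abs_mul, abs_mul, abs_of_nonneg hkz]
        ring
      have h2 : ((|((k : ℤ) * e.1 + a1) - (k * e'.1 + a1)| + |((k : ℤ) * e.2 + b1) - (k * e'.2 + b1)| : ℤ) : ℝ) =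
          k * ((|e.1 - e'.1| + |e.2 - e'.2| : ℤ) : ℝ) := by
        rw [h1]
        push_cast
        ring
      show C1 * ((|((k : ℤ) * e.1 + a1) - (k * e'.1 + a1)| + |((k : ℤ) * e.2 + b1) - (k * e'.2 + b1)| : ℤ) : ℝ) / _ = _
      rw [h2]
    have h3 := abs_blk k _ _ hM
    have h4 : ∑ a ∈ Finset.Ico (0 : ℤ) k, ∑ b ∈ Finset.Ico (0 : ℤ) k,
        (W (k * e.1 + a, k * e.2 + b) - W (k * e'.1 + a, k * e'.2 + b)) =
        ∑ a ∈ Finset.Ico (0 : ℤ) k, ∑ b ∈ Finset.Ico (0 : ℤ) k, W (k * e.1 + a, k * e.2 + b) -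
          ∑ a ∈ Finset.Ico (0 : ℤ) k, ∑ b ∈ Finset.Ico (0 : ℤ) k, W (k * e'.1 + a, k * e'.2 + b) := by
      simp only [Finset.sum_sub_distrib]
    rw [h4] at h3
    unfold cz
    rw [if_pos he, if_pos he']
    generalize ∑ a' ∈ Finset.Ico (0 : ℤ) k, ∑ b' ∈ Finset.Ico (0 : ℤ) k, W (k * e.1 + a', k * e.2 + b') = S at *
    generalize ∑ a' ∈ Finset.Ico (0 : ℤ) k, ∑ b' ∈ Finset.Ico (0 : ℤ) k, W (k * e'.1 + a', k * e'.2 + b') = T at *
    have hD : (0 : ℝ) ≤ ((|e.1 - e'.1| + |e.2 - e'.2| : ℤ) : ℝ) := by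
      have : (0 : ℤ) ≤ |e.1 - e'.1| + |e.2 - e'.2| := by positivity
      exact_mod_cast this
    generalize ((|e.1 - e'.1| + |e.2 - e'.2| : ℤ) : ℝ) = D at *
    rw [← sub_div, abs_div, abs_of_pos hk0, div_le_iff₀ hk0]
    refine h3.trans ?_
    have h5 : (k : ℝ) * (k * (C1 * (k * D) / ((n * k : ℕ) : ℝ) ^ 2)) = C1 * D / (n : ℝ) ^ 2 * k := by
      push_cast
      field_simp
    rw [h5]
    have h6 : C1 * D ≤ 2 * C1 * D := by nlinarith [mul_nonneg hC1 hD]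
    gcongr

theorem cz_hi {L : ℝ} (hL : 1 ≤ L) {n k : ℕ} (hn : 1 ≤ n) (hk : 1 ≤ k) {W : ℤ × ℤ → ℝ} {A B : ℤ → ℝ}
    (hR : Rf L (n * k) W A B) (e : ℤ × ℤ) : 0 ≤ cz n k W e ∧ cz n k W e ≤ L / n := by
  have hk0 : (0 : ℝ) < k := by exact_mod_cast hk
  have hn0 : (0 : ℝ) < n := by exact_mod_cast hn
  have hL0 : 0 < L := by linarith
  unfold cz
  by_cases he : e ∈ board n
  · rw [if_pos he]
    constructor
    · apply div_nonneg _ hk0.le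
      refine Finset.sum_nonneg fun a ha => Finset.sum_nonneg fun b hb => ?_
      rw [Finset.mem_Ico] at ha hb
      refine le_trans ?_ (hR.bd.lo _ (mem_blk he ha.1 ha.2 hb.1 hb.2))
      positivity
    · rw [div_le_iff₀ hk0]
      have h1 : ∑ a ∈ Finset.Ico (0 : ℤ) k, ∑ b ∈ Finset.Ico (0 : ℤ) k, W (k * e.1 + a, k * e.2 + b) ≤
          ∑ _a ∈ Finset.Ico (0 : ℤ) k, ∑ _b ∈ Finset.Ico (0 : ℤ) k, L / ((n * k : ℕ) : ℝ) := by
        refine Finset.sum_le_sum fun a ha => Finset.sum_le_sum fun b hb => ?_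
        rw [Finset.mem_Ico] at ha hb
        exact hR.bd.hi _ (mem_blk he ha.1 ha.2 hb.1 hb.2)
      refine h1.trans (le_of_eq ?_)
      rw [sum_blk_const]
      push_cast
      field_simp
  · rw [if_neg he]
    exact ⟨le_rfl, by positivity⟩

end Pool.Agent.NQF
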