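import Pool.Agent.NQF.FDefs
import Pool.Agent.NQF.FBlk
import Pool.Agent.NQL.ECoG

/-!
# NQF-FCgA: mass of the part with negative offset of the blocks of a coarse diagonal

`Mm n k W κ s = ∑_{e ∈ board n, ln κ e = s} ∑_{a, b < k, off κ k a b < 0} W (k e + (a,b))` (NQL/ECoG).

PLAN. The number of pairs `(a,b) ∈ [0,k)²` with `off κ k a b < 0` is `k (k-1)/2`, for `κ = 2`: `a + b < k - 1`, for `κ = 3`: `a < b`
(count: `∑_{a < k} (k - 1 - a)`; e.g. induction or `Finset.sum_range_id_mul_two` after converting to `ℕ`). By `f_blk` each of these values is `cz n k W e/k` up to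
`C1/(n² k)`: for every `e ∈ board n` the inner sum is `(k-1)/2 cz n k W e` up to `k² C1/(n² k) = C1 k/n²`. The diagonal `{e ∈ board n, ln κ e = s}` has at most `n`
squares (injective first coordinate), `dsum n (cz n k W) κ s = ∑ cz`. Total error `≤ C1 k/n`.
-/

set_option autoImplicit false

open Finset

namespace Pool.Agent.NQF

open Pool.Agent.NQ (board dsum F Ent Dg phi ln Q Qset QS NonAtt bern)
open Pool.Agent.NQR (Adm Opt Bd Rf hS hD hh InR)
open Pool.Agent.NQL

private theorem fa_board {n : ℕ} {e : ℤ × ℤ} :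
    e ∈ board n ↔ (0 ≤ e.1 ∧ e.1 < n) ∧ (0 ≤ e.2 ∧ e.2 < n) := Pool.Agent.NQ.mem_board

private theorem fa_sum (k : ℕ) (g : ℤ → ℤ → ℝ) :
    ∑ a ∈ Finset.Ico (0 : ℤ) k, ∑ b ∈ Finset.Ico (0 : ℤ) k, g a b =
      ∑ x ∈ board k, g x.1 x.2 := by
  unfold board
  rw [Finset.sum_product]

private theorem fa_dsum (n : ℕ) (W : ℤ × ℤ → ℝ) (κ : Fin 4) (s : ℤ) :
    dsum n W κ s = ∑ e ∈ board n, if ln κ e = s then W e else 0 := by
  unfold dsum
  rw [Finset.sum_filter]

private theorem fa_Mm (n k : ℕ) (W : ℤ × ℤ → ℝ) (κ : Fin 4) (s : ℤ) :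
    Mm n k W κ s = ∑ e ∈ board n, if ln κ e = s then
      (∑ x ∈ board k, if off κ k x.1 x.2 < 0 then W (k * e.1 + x.1, k * e.2 + x.2) else 0) else 0 := by
  unfold Mm
  rw [Finset.sum_filter]
  refine Finset.sum_congr rfl fun e _ => ?_
  rw [fa_sum k fun a b => if off κ k a b < 0 then W (k * e.1 + a, k * e.2 + b) else 0]

private theorem fa_kap {κ : Fin 4} (hκ : 2 ≤ (κ : ℕ)) : κ = 2 ∨ κ = 3 := by
  rcases κ with ⟨m, hm⟩
  have h1 : 2 ≤ m := hκ
  interval_cases m
  · exact Or.inl rfl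
  · exact Or.inr rfl

private theorem fa_card (k : ℕ) : ((board k).card : ℝ) = (k : ℝ) ^ 2 := by
  unfold board
  rw [Finset.card_product, Int.card_Ico, sub_zero, Int.toNat_natCast]
  push_cast
  ring

private theorem fa_gauss (k : ℕ) :
    ∑ a ∈ Finset.Ico (0 : ℤ) k, ((k : ℝ) - 1 - a) = (k : ℝ) * ((k : ℝ) - 1) / 2 := by
  have h1 : ∀ m : ℕ, ∑ a ∈ Finset.Ico (0 : ℤ) m, ((k : ℝ) - 1 - a) =
      m * ((k : ℝ) - 1) - m * ((m : ℝ) - 1) / 2 := by
    intro m
    induction m with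
    | zero => simp
    | succ m ih =>
      have h2 : Finset.Ico (0 : ℤ) ((m + 1 : ℕ) : ℤ) = insert (m : ℤ) (Finset.Ico (0 : ℤ) m) := by
        ext a
        rw [Finset.mem_insert, Finset.mem_Ico, Finset.mem_Ico]
        push_cast
        omega
      rw [h2, Finset.sum_insert (by simp), ih]
      push_cast
      ring
  rw [h1]
  ring

private theorem fa_cneg {κ : Fin 4} (hκ : 2 ≤ (κ : ℕ)) (k : ℕ) :
    (∑ x ∈ board k, if off κ k x.1 x.2 < 0 then (1 : ℝ) else 0) =
      (k : ℝ) * ((k : ℝ) - 1) / 2 := by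
  rw [← fa_sum k fun a b => if off κ k a b < 0 then (1 : ℝ) else 0, ← fa_gauss]
  refine Finset.sum_congr rfl fun a ha => ?_
  rw [Finset.mem_Ico] at ha
  obtain ⟨a0, a1⟩ := ha
  rw [← Finset.sum_filter, Finset.sum_const, nsmul_eq_mul, mul_one]
  rcases fa_kap hκ with rfl | rfl
  · have h1 : (Finset.Ico (0 : ℤ) k).filter (fun b => off 2 k a b < 0) =
        Finset.Ico (0 : ℤ) (k - 1 - a) := by
      ext b
      rw [Finset.mem_filter, Finset.mem_Ico, Finset.mem_Ico]
      unfold off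
      rw [if_pos rfl]
      constructor
      · rintro ⟨⟨h2, h3⟩, h4⟩
        constructor <;> omega
      · rintro ⟨h2, h3⟩
        refine ⟨⟨h2, by omega⟩, by omega⟩
    rw [h1, Int.card_Ico, sub_zero]
    have h2 : (((k - 1 - a : ℤ).toNat : ℕ) : ℤ) = k - 1 - a := Int.toNat_of_nonneg (by omega)
    have h3 : ((((k - 1 - a : ℤ).toNat : ℕ) : ℤ) : ℝ) = ((k - 1 - a : ℤ) : ℝ) := by rw [h2]
    push_cast at h3
    rw [← h3]
  · have h1 : (Finset.Ico (0 : ℤ) k).filter (fun b => off 3 k a b < 0) =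
        Finset.Ico (a + 1) (k : ℤ) := by
      ext b
      rw [Finset.mem_filter, Finset.mem_Ico, Finset.mem_Ico]
      unfold off
      rw [if_neg (by decide)]
      constructor
      · rintro ⟨⟨h2, h3⟩, h4⟩
        constructor <;> omega
      · rintro ⟨h2, h3⟩
        refine ⟨⟨by omega, by omega⟩, by omega⟩
    rw [h1, Int.card_Ico]
    have h2 : (((k - (a + 1) : ℤ).toNat : ℕ) : ℤ) = k - (a + 1) := Int.toNat_of_nonneg (by omega)
    have h3 : ((((k - (a + 1) : ℤ).toNat : ℕ) : ℤ) : ℝ) = ((k - (a + 1) : ℤ) : ℝ) := by rw [h2]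
    push_cast at h3
    have h4 : (((k - (a + 1) : ℤ).toNat : ℕ) : ℝ) = k - (a + 1) := by
      rw [← h3]
    rw [h4]
    ring

private theorem fa_few {κ : Fin 4} (hκ : 2 ≤ (κ : ℕ)) (n : ℕ) (s : ℤ) {g : ℤ × ℤ → ℝ} {η : ℝ}
    (hη : 0 ≤ η) (hg : ∀ e ∈ board n, ln κ e = s → g e ≤ η) :
    (∑ e ∈ board n, if ln κ e = s then g e else 0) ≤ n * η := by
  rw [← Finset.sum_filter]
  have h1 : ((board n).filter (fun e => ln κ e = s)).card ≤ n := by
    have h2 : ((board n).filter (fun e => ln κ e = s)).card ≤ (Finset.Ico (0 : ℤ) n).card := by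
      refine Finset.card_le_card_of_injOn (fun e => e.1) ?_ ?_
      · intro e he
        rw [Finset.mem_coe, Finset.mem_filter, fa_board] at he
        rw [Finset.mem_coe, Finset.mem_Ico]
        exact he.1.1
      · intro e he e' he' hee
        rw [Finset.mem_coe, Finset.mem_filter] at he he'
        have h3 := he.2
        have h4 := he'.2
        have h5 : e.1 = e'.1 := hee
        refine Prod.ext h5 ?_
        rcases fa_kap hκ with rfl | rfl
        · rw [Pool.Agent.NQ.ln_two] at h3 h4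
          omega
        · rw [Pool.Agent.NQ.ln_three] at h3 h4
          omega
    rwa [Int.card_Ico, sub_zero, Int.toNat_natCast] at h2
  calc ∑ e ∈ (board n).filter (fun e => ln κ e = s), g e
      ≤ ∑ e ∈ (board n).filter (fun e => ln κ e = s), η :=
        Finset.sum_le_sum fun e he => hg e (Finset.mem_filter.1 he).1 (Finset.mem_filter.1 he).2
    _ = ((board n).filter (fun e => ln κ e = s)).card * η := by
        rw [Finset.sum_const, nsmul_eq_mul]
    _ ≤ n * η := mul_le_mul_of_nonneg_right (by exact_mod_cast h1) hη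

theorem f_cga {L C : ℝ} (hL : 1 ≤ L) (hC : 0 ≤ C) : ∃ C1 : ℝ, 0 ≤ C1 ∧ ∀ (n k : ℕ) (W : ℤ × ℤ → ℝ) (A B : ℤ → ℝ),
    1 ≤ n → 1 ≤ k → Rf L (n * k) W A B → Lp C (n * k) W A B → ∀ κ : Fin 4, 2 ≤ (κ : ℕ) → ∀ s : ℤ,
      |Mm n k W κ s - ((k : ℝ) - 1) / 2 * dsum n (cz n k W) κ s| ≤ C1 * k / n := by
  obtain ⟨C1, hC1, hblk⟩ := f_blk hL hC
  refine ⟨C1, hC1, ?_⟩
  intro n k W A B hn hk h hLp κ hκ s
  obtain ⟨hb, _⟩ := hblk n k W A B hn hk h hLp
  have hn0 : (0 : ℝ) < n := by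
    have : 0 < n := hn
    positivity
  have hk0 : (0 : ℝ) < k := by
    have : 0 < k := hk
    positivity
  have hk1 : (1 : ℝ) ≤ k := by exact_mod_cast hk
  obtain ⟨η, hη⟩ : ∃ η, η = C1 / ((n : ℝ) ^ 2 * k) := ⟨_, rfl⟩
  have hη0 : 0 ≤ η := by rw [hη]; positivity
  have e0 : Mm n k W κ s - ((k : ℝ) - 1) / 2 * dsum n (cz n k W) κ s =
      ∑ e ∈ board n, if ln κ e = s then
        ((∑ x ∈ board k, if off κ k x.1 x.2 < 0 then W (k * e.1 + x.1, k * e.2 + x.2) else 0) -
          ((k : ℝ) - 1) / 2 * cz n k W e) else 0 := by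
    rw [fa_Mm, fa_dsum, Finset.mul_sum, ← Finset.sum_sub_distrib]
    refine Finset.sum_congr rfl fun e _ => ?_
    by_cases hs : ln κ e = s
    · rw [if_pos hs, if_pos hs, if_pos hs]
    · rw [if_neg hs, if_neg hs, if_neg hs, mul_zero, sub_zero]
  have e1 : ∀ e ∈ board n, |(∑ x ∈ board k, if off κ k x.1 x.2 < 0 then
      W (k * e.1 + x.1, k * e.2 + x.2) else 0) - ((k : ℝ) - 1) / 2 * cz n k W e| ≤
      (k : ℝ) ^ 2 * η := by
    intro e he
    have h1 : (∑ x ∈ board k, if off κ k x.1 x.2 < 0 then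
        W (k * e.1 + x.1, k * e.2 + x.2) else 0) - ((k : ℝ) - 1) / 2 * cz n k W e =
        ∑ x ∈ board k, if off κ k x.1 x.2 < 0 then
          (W (k * e.1 + x.1, k * e.2 + x.2) - cz n k W e / k) else 0 := by
      have h2 : ((k : ℝ) - 1) / 2 * cz n k W e =
          (∑ x ∈ board k, if off κ k x.1 x.2 < 0 then (1 : ℝ) else 0) * (cz n k W e / k) := by
        rw [fa_cneg hκ]
        field_simp
      rw [h2, Finset.sum_mul, ← Finset.sum_sub_distrib]
      refine Finset.sum_congr rfl fun x _ => ?_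
      by_cases hx : off κ k x.1 x.2 < 0
      · rw [if_pos hx, if_pos hx, if_pos hx, one_mul]
      · rw [if_neg hx, if_neg hx, if_neg hx, zero_mul, sub_zero]
    rw [h1]
    refine (Finset.abs_sum_le_sum_abs _ _).trans ?_
    have h3 : ∀ x ∈ board k, |if off κ k x.1 x.2 < 0 then
          (W (k * e.1 + x.1, k * e.2 + x.2) - cz n k W e / k) else 0| ≤ η := by
      intro x hx
      split_ifs
      · rw [fa_board] at hx
        rw [hη]
        exact hb e he x.1 x.2 hx.1.1 hx.1.2 hx.2.1 hx.2.2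
      · rw [abs_zero]
        exact hη0
    refine (Finset.sum_le_sum h3).trans (le_of_eq ?_)
    rw [Finset.sum_const, nsmul_eq_mul, fa_card]
  rw [e0]
  refine (Finset.abs_sum_le_sum_abs _ _).trans ?_
  have e2 : ∑ e ∈ board n, |if ln κ e = s then
        ((∑ x ∈ board k, if off κ k x.1 x.2 < 0 then W (k * e.1 + x.1, k * e.2 + x.2) else 0) -
          ((k : ℝ) - 1) / 2 * cz n k W e) else 0| =
      ∑ e ∈ board n, if ln κ e = s then
        |(∑ x ∈ board k, if off κ k x.1 x.2 < 0 then W (k * e.1 + x.1, k * e.2 + x.2) else 0) -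
          ((k : ℝ) - 1) / 2 * cz n k W e| else 0 := by
    refine Finset.sum_congr rfl fun e _ => ?_
    split_ifs
    · rfl
    · exact abs_zero
  rw [e2]
  refine (fa_few hκ n s (by positivity : 0 ≤ (k : ℝ) ^ 2 * η) fun e he _ => e1 e he).trans
    (le_of_eq ?_)
  rw [hη]
  field_simp

end Pool.Agent.NQF
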