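import Pool.Agent.NQF.FDefs
import Pool.Agent.NQF.FBlk

/-!
# NQF-FCgC: neighbouring coarse diagonals

Both diagonal sums are sums over the rows; the squares in a row are neighbours, and in at most two rows exactly one of them is on the board.
-/

set_option autoImplicit false

open Finset

namespace Pool.Agent.NQF

open Pool.Agent.NQ (board dsum F Ent Dg phi ln Q Qset QS NonAtt bern)
open Pool.Agent.NQR (Adm Opt Bd Rf hS hD hh InR)
open Pool.Agent.NQL

private theorem fcgc_one {n : ℕ} {M : ℝ} (hM : 0 ≤ M) {y : ℤ → ℤ} (hy : Function.Injective y) (c : ℤ) :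
    ∑ x ∈ Finset.Ico (0 : ℤ) n, (if y x = c then M else 0) ≤ M := by
  rw [← Finset.sum_filter, Finset.sum_const, nsmul_eq_mul]
  have h1 : ((Finset.Ico (0 : ℤ) n).filter (fun x => y x = c)).card ≤ 1 := by
    rw [Finset.card_le_one]
    intro a ha b hb
    exact hy (((Finset.mem_filter.1 ha).2).trans ((Finset.mem_filter.1 hb).2).symm)
  have h2 : (((Finset.Ico (0 : ℤ) n).filter (fun x => y x = c)).card : ℝ) ≤ 1 := by exact_mod_cast h1
  have h3 := mul_le_mul_of_nonneg_right h2 hM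
  rwa [one_mul] at h3

private theorem fcgc_core {n : ℕ} (hn : 1 ≤ n) {f : ℤ × ℤ → ℝ} {D M : ℝ} (hD : 0 ≤ D) (hM : 0 ≤ M)
    (h0 : ∀ e, e ∉ board n → f e = 0) (h1 : ∀ e, 0 ≤ f e ∧ f e ≤ M)
    (h2 : ∀ x y : ℤ, (x, y) ∈ board n → (x, y + 1) ∈ board n → |f (x, y) - f (x, y + 1)| ≤ D / (n : ℝ) ^ 2)
    {y : ℤ → ℤ} (hy : Function.Injective y) :
    |∑ x ∈ Finset.Ico (0 : ℤ) n, f (x, y x) - ∑ x ∈ Finset.Ico (0 : ℤ) n, f (x, y x + 1)| ≤ D / n + 2 * M := by
  have hn0 : (0 : ℝ) < n := by exact_mod_cast hn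
  have hD2 : 0 ≤ D / (n : ℝ) ^ 2 := by positivity
  have key : ∀ x ∈ Finset.Ico (0 : ℤ) n, |f (x, y x) - f (x, y x + 1)| ≤
      D / (n : ℝ) ^ 2 + (if y x = -1 then M else 0) + (if y x = (n : ℤ) - 1 then M else 0) := by
    intro x hx
    have hx' := Finset.mem_Ico.1 hx
    have i1 : (0 : ℝ) ≤ (if y x = -1 then M else 0) := by split_ifs <;> [exact hM; exact le_rfl]
    have i2 : (0 : ℝ) ≤ (if y x = (n : ℤ) - 1 then M else 0) := by split_ifs <;> [exact hM; exact le_rfl]
    have hb : ∀ z : ℤ, (x, z) ∈ board n ↔ 0 ≤ z ∧ z < n := by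
      intro z
      unfold board
      rw [Finset.mem_product, Finset.mem_Ico, Finset.mem_Ico]
      exact ⟨fun h => h.2, fun h => ⟨hx', h⟩⟩
    by_cases c1 : (x, y x) ∈ board n
    · by_cases c2 : (x, y x + 1) ∈ board n
      · have := h2 x (y x) c1 c2
        linarith
      · have e1 : y x = (n : ℤ) - 1 := by
          rw [hb] at c1 c2
          omega
        rw [h0 _ c2, sub_zero, abs_of_nonneg (h1 _).1, if_pos e1]
        have := (h1 (x, y x)).2
        linarith
    · by_cases c2 : (x, y x + 1) ∈ board n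
      · have e1 : y x = -1 := by
          rw [hb] at c1 c2
          omega
        rw [h0 _ c1, zero_sub, abs_neg, abs_of_nonneg (h1 _).1, if_pos e1]
        have := (h1 (x, y x + 1)).2
        linarith
      · rw [h0 _ c1, h0 _ c2, sub_zero, abs_zero]
        linarith
  rw [← Finset.sum_sub_distrib]
  refine (Finset.abs_sum_le_sum_abs _ _).trans ((Finset.sum_le_sum key).trans ?_)
  rw [Finset.sum_add_distrib, Finset.sum_add_distrib, Finset.sum_const, nsmul_eq_mul, Int.card_Ico]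
  have e1 : (((n : ℤ) - 0).toNat : ℝ) * (D / (n : ℝ) ^ 2) = D / n := by
    have : ((n : ℤ) - 0).toNat = n := by omega
    rw [this]
    field_simp
  rw [e1]
  have a1 := fcgc_one (n := n) hM hy (-1)
  have a2 := fcgc_one (n := n) hM hy ((n : ℤ) - 1)
  linarith

private theorem fcgc_ds {n : ℕ} {f : ℤ × ℤ → ℝ} (h0 : ∀ e, e ∉ board n → f e = 0) (κ : Fin 4) (s : ℤ)
    (y : ℤ → ℤ) (hy : ∀ x z : ℤ, ln κ (x, z) = s ↔ z = y x) :
    dsum n f κ s = ∑ x ∈ Finset.Ico (0 : ℤ) n, f (x, y x) := by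
  unfold dsum board
  rw [Finset.sum_filter, Finset.sum_product]
  apply Finset.sum_congr rfl
  intro x hx
  by_cases h1 : y x ∈ Finset.Ico (0 : ℤ) n
  · rw [Finset.sum_eq_single (y x)]
    · rw [if_pos ((hy x (y x)).2 rfl)]
    · intro z _ hz
      rw [if_neg (fun h2 => hz ((hy x z).1 h2))]
    · exact fun h2 => (h2 h1).elim
  · rw [h0 (x, y x) (fun h2 => h1 (by
      unfold board at h2
      exact (Finset.mem_product.1 h2).2)), Finset.sum_eq_zero]
    intro z hz
    rw [if_neg]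
    intro h2
    rw [(hy x z).1 h2] at hz
    exact h1 hz

theorem f_cgc {L C : ℝ} (hL : 1 ≤ L) (hC : 0 ≤ C) : ∃ C1 : ℝ, 0 ≤ C1 ∧ ∀ (n k : ℕ) (W : ℤ × ℤ → ℝ) (A B : ℤ → ℝ),
    1 ≤ n → 1 ≤ k → Rf L (n * k) W A B → Lp C (n * k) W A B → ∀ κ : Fin 4, 2 ≤ (κ : ℕ) → ∀ s : ℤ,
      |dsum n (cz n k W) κ s - dsum n (cz n k W) κ (s + 1)| ≤ C1 / n := by
  obtain ⟨D, hD, H⟩ := f_blk hL hC
  refine ⟨D + 2 * L, by linarith, ?_⟩
  intro n k W A B hn hk hR hLp κ hκ s
  have hn0 : (0 : ℝ) < n := by exact_mod_cast hn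
  have h0 : ∀ e, e ∉ board n → cz n k W e = 0 := by
    intro e he
    unfold cz
    rw [if_neg he]
  have h1 := cz_hi hL hn hk hR
  have h2 : ∀ x y : ℤ, (x, y) ∈ board n → (x, y + 1) ∈ board n →
      |cz n k W (x, y) - cz n k W (x, y + 1)| ≤ D / (n : ℝ) ^ 2 := by
    intro x y hx hy
    have h3 := (H n k W A B hn hk hR hLp).2 _ hx _ hy
    have h4 : ((|(x, y).1 - (x, y + 1).1| + |(x, y).2 - (x, y + 1).2| : ℤ) : ℝ) = 1 := by
      have : (|(x, y).1 - (x, y + 1).1| + |(x, y).2 - (x, y + 1).2| : ℤ) = 1 := by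
        show |x - x| + |y - (y + 1)| = 1
        rw [sub_self, abs_zero, zero_add]
        have : y - (y + 1) = -1 := by ring
        rw [this]
        norm_num
      rw [this]
      norm_num
    rw [h4, mul_one] at h3
    exact h3
  have hM : 0 ≤ L / n := by positivity
  have e1 : D / n + 2 * (L / n) = (D + 2 * L) / n := by ring
  rw [← e1]
  have hκ' : κ = 2 ∨ κ = 3 := by
    revert hκ
    revert κ
    decide
  rcases hκ' with rfl | rfl
  · rw [fcgc_ds h0 2 s (fun x => s - x) (by intro x z; rw [Pool.Agent.NQ.ln_two]; constructor <;> intro h <;> omega),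
      fcgc_ds h0 2 (s + 1) (fun x => s - x + 1) (by intro x z; rw [Pool.Agent.NQ.ln_two]; constructor <;> intro h <;> omega)]
    exact fcgc_core hn hD hM h0 h1 h2 (y := fun x => s - x) (by intro a b h; simp only at h; omega)
  · rw [fcgc_ds h0 3 s (fun x => x - s - 1 + 1) (by intro x z; rw [Pool.Agent.NQ.ln_three]; constructor <;> intro h <;> omega),
      fcgc_ds h0 3 (s + 1) (fun x => x - s - 1) (by intro x z; rw [Pool.Agent.NQ.ln_three]; constructor <;> intro h <;> omega),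
      abs_sub_comm]
    exact fcgc_core hn hD hM h0 h1 h2 (y := fun x => x - s - 1) (by intro a b h; simp only at h; omega)

end Pool.Agent.NQF
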