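import Pool.Agent.NQF.FDefs

/-!
# NQF-FPz: translated potentials and translated weights
-/

set_option autoImplicit false

open Finset

namespace Pool.Agent.NQF

open Pool.Agent.NQ (board dsum F Ent Dg phi ln Q Qset QS NonAtt bern)
open Pool.Agent.NQR (Adm Opt Bd Rf hS hD hh InR)
open Pool.Agent.NQL

private theorem fpz_board {N : ℕ} {e : ℤ × ℤ} :
    e ∈ board N ↔ (0 ≤ e.1 ∧ e.1 < N) ∧ 0 ≤ e.2 ∧ e.2 < N := by
  unfold board
  rw [mem_product, mem_Ico, mem_Ico]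

private theorem fpz_inv {L : ℝ} (hL : 1 ≤ L) : 0 < 1 / L := by positivity

private theorem fpz0 (N : ℕ) (W : ℤ × ℤ → ℝ) (A B : ℤ → ℝ) (u v s : ℤ) :
    pz N W A B u v ((0 : Fin 4), s) = Real.log (A (s + u)) := by
  unfold pz
  rw [if_pos rfl]

private theorem fpz1 (N : ℕ) (W : ℤ × ℤ → ℝ) (A B : ℤ → ℝ) (u v s : ℤ) :
    pz N W A B u v ((1 : Fin 4), s) = Real.log (B (s + v)) := by
  unfold pz
  rw [if_neg (show ¬ (1 : Fin 4) = 0 by decide), if_pos rfl]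

private theorem fpz2 (N : ℕ) (W : ℤ × ℤ → ℝ) (A B : ℤ → ℝ) (u v s : ℤ) :
    pz N W A B u v ((2 : Fin 4), s) = Real.log (hS N W (s + u + v)) := by
  unfold pz
  rw [if_neg (show ¬ (2 : Fin 4) = 0 by decide), if_neg (show ¬ (2 : Fin 4) = 1 by decide), if_pos rfl]

private theorem fpz3 (N : ℕ) (W : ℤ × ℤ → ℝ) (A B : ℤ → ℝ) (u v s : ℤ) :
    pz N W A B u v ((3 : Fin 4), s) = Real.log (hD N W (s + u - v)) := by
  unfold pz
  rw [if_neg (show ¬ (3 : Fin 4) = 0 by decide), if_neg (show ¬ (3 : Fin 4) = 1 by decide),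
    if_neg (show ¬ (3 : Fin 4) = 2 by decide)]

theorem pz_wt {L : ℝ} (hL : 1 ≤ L) {N : ℕ} {W : ℤ × ℤ → ℝ} {A B : ℤ → ℝ} (hR : Rf L N W A B) {u v : ℤ}
    {e : ℤ × ℤ} (he : (e.1 + u, e.2 + v) ∈ board N) : wt (pz N W A B u v) e = W (e.1 + u, e.2 + v) := by
  obtain ⟨⟨h1, h2⟩, h3, h4⟩ := fpz_board.1 he
  have hN : (0 : ℝ) < N := by
    have h5 : (0 : ℤ) < N := lt_of_le_of_lt h1 h2
    exact_mod_cast h5
  have hp : 0 < 1 / (L * Real.sqrt N) := by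
    have := Real.sqrt_pos.2 hN
    positivity
  have hA : 0 < A (e.1 + u) := lt_of_lt_of_le hp (hR.A1 _ h1 h2)
  have hB : 0 < B (e.2 + v) := lt_of_lt_of_le hp (hR.B1 _ h3 h4)
  have hS' : 0 < hS N W (e.1 + e.2 + u + v) := lt_of_lt_of_le (fpz_inv hL) (hR.bd.sd _)
  have hD' : 0 < hD N W (e.1 - e.2 + u - v) := lt_of_lt_of_le (fpz_inv hL) (hR.bd.dd _)
  unfold wt ds
  rw [Fin.sum_univ_four, Pool.Agent.NQ.ln_zero, Pool.Agent.NQ.ln_one, Pool.Agent.NQ.ln_two,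
    Pool.Agent.NQ.ln_three, fpz0, fpz1, fpz2, fpz3, Real.exp_add, Real.exp_add, Real.exp_add,
    Real.exp_log hA, Real.exp_log hB, Real.exp_log hS', Real.exp_log hD', hR.el _ he]
  unfold hh
  have e1 : e.1 + e.2 + u + v = e.1 + u + (e.2 + v) := by ring
  have e2 : e.1 - e.2 + u - v = e.1 + u - (e.2 + v) := by ring
  rw [e1, e2]
  ring

theorem pz_s {L : ℝ} (hL : 1 ≤ L) {N : ℕ} {W : ℤ × ℤ → ℝ} {A B : ℤ → ℝ} (hR : Rf L N W A B) (u v s : ℤ) :
    Real.exp (pz N W A B u v ((2 : Fin 4), s)) = hS N W (s + u + v) := by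
  rw [fpz2, Real.exp_log (lt_of_lt_of_le (fpz_inv hL) (hR.bd.sd _))]

theorem pz_d {L : ℝ} (hL : 1 ≤ L) {N : ℕ} {W : ℤ × ℤ → ℝ} {A B : ℤ → ℝ} (hR : Rf L N W A B) (u v s : ℤ) :
    Real.exp (pz N W A B u v ((3 : Fin 4), s)) = hD N W (s + u - v) := by
  rw [fpz3, Real.exp_log (lt_of_lt_of_le (fpz_inv hL) (hR.bd.dd _))]

private theorem fpz_log {L t : ℝ} (hL : 1 ≤ L) (h1 : 1 / L ≤ t) (h2 : t ≤ 1) :
    |Real.log t| ≤ L ∧ 1 / L ≤ Real.exp (Real.log t) ∧ Real.exp (Real.log t) ≤ 1 := by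
  have ht : 0 < t := lt_of_lt_of_le (fpz_inv hL) h1
  rw [Real.exp_log ht]
  refine ⟨?_, h1, h2⟩
  have h3 : Real.log t ≤ 0 := Real.log_nonpos ht.le h2
  have h4 : Real.log (1 / L) ≤ Real.log t := Real.log_le_log (fpz_inv hL) h1
  rw [one_div, Real.log_inv] at h4
  have h5 := Real.log_le_sub_one_of_pos (lt_of_lt_of_le one_pos hL)
  rw [abs_le]
  constructor <;> linarith

private theorem fpz_dsum {L : ℝ} {N : ℕ} {W : ℤ × ℤ → ℝ} {A B : ℤ → ℝ} (hR : Rf L N W A B) (k : Fin 4) (s : ℤ) :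
    0 ≤ dsum N W k s := by
  unfold dsum
  exact Finset.sum_nonneg fun e _ => hR.adm.nn e

theorem pz_dg {L : ℝ} (hL : 1 ≤ L) {N : ℕ} {W : ℤ × ℤ → ℝ} {A B : ℤ → ℝ} (hR : Rf L N W A B) (u v : ℤ)
    {l : Li} (hl : ¬ rc l) : |pz N W A B u v l| ≤ L ∧ 1 / L ≤ Real.exp (pz N W A B u v l) ∧
      Real.exp (pz N W A B u v l) ≤ 1 := by
  obtain ⟨k, s⟩ := l
  have hk : k = 2 ∨ k = 3 := by
    have h1 : ¬ (k : ℕ) < 2 := hl
    have h2 := k.2
    rcases Nat.lt_or_ge (k : ℕ) 3 with h | h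
    · left
      exact Fin.ext (by show (k : ℕ) = 2; omega)
    · right
      exact Fin.ext (by show (k : ℕ) = 3; omega)
  rcases hk with rfl | rfl
  · rw [fpz2]
    refine fpz_log hL (hR.bd.sd _) ?_
    have := fpz_dsum hR 2 (s + u + v)
    unfold hS
    linarith
  · rw [fpz3]
    refine fpz_log hL (hR.bd.dd _) ?_
    have := fpz_dsum hR 3 (s + u - v)
    unfold hD
    linarith

theorem pz_ds {L : ℝ} (hL : 1 ≤ L) {N : ℕ} (hN : 1 ≤ N) {W : ℤ × ℤ → ℝ} {A B : ℤ → ℝ} (hR : Rf L N W A B) {u v : ℤ}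
    {e : ℤ × ℤ} (he : e ∈ board N) (he' : (e.1 + u, e.2 + v) ∈ board N) :
    |ds (pz N W A B u v - pz N W A B 0 0) e| ≤ 2 * L := by
  have hN0 : (0 : ℝ) < N := by exact_mod_cast hN
  have hL0 : 0 < L := by linarith
  have e1 : ds (pz N W A B u v - pz N W A B 0 0) e =
      ds (pz N W A B u v) e - ds (pz N W A B 0 0) e := by
    unfold ds
    rw [← Finset.sum_sub_distrib]
    rfl
  have e0 : (e.1 + 0, e.2 + 0) = e := by rw [add_zero, add_zero]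
  have e2 : ds (pz N W A B u v) e = Real.log (W (e.1 + u, e.2 + v)) := by
    rw [← pz_wt hL hR he', wt, Real.log_exp]
  have e3 : ds (pz N W A B 0 0) e = Real.log (W e) := by
    have h1 := pz_wt hL hR (u := 0) (v := 0) (e := e) (by rw [e0]; exact he)
    rw [e0] at h1
    rw [← h1, wt, Real.log_exp]
  have hb : ∀ f ∈ board N, |Real.log (W f) + Real.log N| ≤ L := by
    intro f hf
    have h1 := hR.bd.lo f hf
    have h2 := hR.bd.hi f hf
    have h3 : 0 < 1 / (L * N) := by positivity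
    have h4 := Real.log_le_log h3 h1
    have h5 := Real.log_le_log (lt_of_lt_of_le h3 h1) h2
    rw [one_div, Real.log_inv, Real.log_mul hL0.ne' hN0.ne'] at h4
    rw [Real.log_div hL0.ne' hN0.ne'] at h5
    have h6 := Real.log_le_sub_one_of_pos hL0
    rw [abs_le]
    constructor <;> linarith
  have h1 := abs_le.1 (hb _ he')
  have h2 := abs_le.1 (hb _ he)
  rw [e1, e2, e3, abs_le]
  constructor <;> linarith [h1.1, h1.2, h2.1, h2.2]

end Pool.Agent.NQF
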