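import Pool.Agent.NQF.FDefs
import Pool.Agent.NQF.FPz
import Pool.Agent.NQL.ABas
import Pool.Agent.NQL.ACo

/-!
# NQF-FCo: coercivity of the Hessian on the boards of size `N` and `N - 1`

PLAN. `NQL.coer` with `I = full m`, `m` for `N` and for `m` (`vd_full`), `w = W`, `c l = dg l * exp (pz N W A B 0 0 l)`, `c0 = 1/L`,
`c1 = 1/(4 L²)`, `lam = c0 c1/200`. Hypotheses: `Sq m (full m) = board m ⊆ board N` (`Sq_full`). Line sums:
`∑ e ∈ Sl m (full m) l, W e ≤ dsum N W l.1 l.2 ≤ 1` (`hR.adm`), and for a row `x`: `∑_{y < m} W (x,y) ≥ 1 - L/N ≥ 1/2`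
(at most one square is missing, `m ≥ N - 1`, `hR.bd.hi`), same for columns. `c ≥ 0`; `c ≥ 1/L` on diagonals: `pz_dg`.
Codegrees: for `x ≠ x'`: `∑_{y < m} W (x,y) W (x',y) ≥ m/(L N)² ≥ 1/(4 L² m)` as `2 m ≥ N` (`hR.bd.lo`).
`lam ≤ 1` is clear.
-/

set_option autoImplicit false

open Finset

namespace Pool.Agent.NQF

open Pool.Agent.NQ (board dsum F Ent Dg phi ln Q Qset QS NonAtt bern)
open Pool.Agent.NQR (Adm Opt Bd Rf hS hD hh InR)
open Pool.Agent.NQL

private theorem fco_le {L : ℝ} {N m : ℕ} {W : ℤ × ℤ → ℝ} {A B : ℤ → ℝ} (hm2 : m ≤ N) (hR : Rf L N W A B) (l : Li) :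
    ∑ e ∈ Sl m (full m) l, W e ≤ dsum N W l.1 l.2 := by
  unfold dsum
  refine Finset.sum_le_sum_of_subset_of_nonneg ?_ fun e _ _ => hR.adm.nn e
  intro e he
  rw [mem_Sl, Sq_full, Pool.Agent.NQ.mem_board] at he
  rw [Finset.mem_filter, Pool.Agent.NQ.mem_board]
  have h1 : (m : ℤ) ≤ N := by exact_mod_cast hm2
  refine ⟨⟨⟨he.1.1.1, by omega⟩, ⟨he.1.2.1, by omega⟩⟩, he.2⟩

private theorem fco_ge {L : ℝ} {N m : ℕ} {W : ℤ × ℤ → ℝ} {A B : ℤ → ℝ} (hL0 : 0 < L) (hNL : 2 * L ≤ N)
    (hm1 : N ≤ m + 1) (hR : Rf L N W A B) (l : Li) (hl : l ∈ full m) (hrc : rc l) (h1 : dsum N W l.1 l.2 = 1) :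
    1 / 2 ≤ ∑ e ∈ Sl m (full m) l, W e := by
  classical
  have hN0 : (0 : ℝ) < N := by linarith
  -- the squares on the line which are not on the small board
  set D : Finset (ℤ × ℤ) := ((board N).filter fun e => ln l.1 e = l.2).filter fun e => e ∉ board m with hD
  have h2 : dsum N W l.1 l.2 ≤ ∑ e ∈ Sl m (full m) l, W e + ∑ e ∈ D, W e := by
    unfold dsum
    rw [← Finset.sum_filter_add_sum_filter_not ((board N).filter fun e => ln l.1 e = l.2) (fun e => e ∈ board m)]
    refine add_le_add ?_ le_rfl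
    refine Finset.sum_le_sum_of_subset_of_nonneg ?_ fun e _ _ => hR.adm.nn e
    intro e he
    rw [Finset.mem_filter, Finset.mem_filter] at he
    rw [mem_Sl, Sq_full]
    exact ⟨he.2, he.1.2⟩
  have h3 : D.card ≤ 1 := by
    rw [Finset.card_le_one]
    intro e he f hf
    rw [hD, Finset.mem_filter, Finset.mem_filter, Pool.Agent.NQ.mem_board, Pool.Agent.NQ.mem_board] at he hf
    obtain ⟨g, hg, hg2⟩ := mem_full.1 hl
    rw [Pool.Agent.NQ.mem_board] at hg
    have h4 : (N : ℤ) ≤ m + 1 := by exact_mod_cast hm1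
    obtain ⟨k, s⟩ := l
    have hk : k = 0 ∨ k = 1 := by
      have h5 : (k : ℕ) < 2 := hrc
      rcases k with ⟨k, hk⟩
      have h5' : k < 2 := h5
      rcases Nat.lt_succ_iff_lt_or_eq.mp h5' with h6 | h6
      · left
        apply Fin.ext
        show k = 0
        omega
      · right
        apply Fin.ext
        exact h6
    rcases hk with rfl | rfl
    · have e1 : e.1 = s := he.1.2
      have f1 : f.1 = s := hf.1.2
      have g1 : g.1 = s := hg2
      have e2 : e.2 = m := by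
        by_contra hne
        apply he.2
        refine ⟨⟨by omega, by omega⟩, ⟨by omega, by omega⟩⟩
      have f2 : f.2 = m := by
        by_contra hne
        apply hf.2
        refine ⟨⟨by omega, by omega⟩, ⟨by omega, by omega⟩⟩
      exact Prod.ext (by omega) (by omega)
    · have e1 : e.2 = s := he.1.2
      have f1 : f.2 = s := hf.1.2
      have g1 : g.2 = s := hg2
      have e2 : e.1 = m := by
        by_contra hne
        apply he.2
        refine ⟨⟨by omega, by omega⟩, ⟨by omega, by omega⟩⟩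
      have f2 : f.1 = m := by
        by_contra hne
        apply hf.2
        refine ⟨⟨by omega, by omega⟩, ⟨by omega, by omega⟩⟩
      exact Prod.ext (by omega) (by omega)
  have h4 : ∑ e ∈ D, W e ≤ L / N := by
    calc ∑ e ∈ D, W e ≤ D.card • (L / N) := by
          refine Finset.sum_le_card_nsmul _ _ _ fun e he => ?_
          rw [hD, Finset.mem_filter, Finset.mem_filter] at he
          exact hR.bd.hi e he.1.1
      _ ≤ 1 • (L / N) := by
          refine nsmul_le_nsmul_left (by positivity) h3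
      _ = L / N := one_nsmul _
  have h5 : L / N ≤ 1 / 2 := by
    rw [div_le_iff₀ hN0]
    linarith
  linarith

theorem f_co (L : ℝ) (hL : 1 ≤ L) : ∃ (lam : ℝ) (N0 : ℕ), 0 < lam ∧ lam ≤ 1 ∧ 2 ≤ N0 ∧
    ∀ (N m : ℕ) (W : ℤ × ℤ → ℝ) (A B : ℤ → ℝ), N0 ≤ N → N ≤ m + 1 → m ≤ N → Rf L N W A B →
      Co m m (full m) W (fun l => dg l * Real.exp (pz N W A B 0 0 l)) lam := by
  have hL0 : 0 < L := by linarith
  have hc0 : 1 / L ≤ 1 := by
    rw [div_le_one hL0]
    exact hL
  have hc1 : 1 / (4 * L ^ 2) ≤ 1 := by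
    rw [div_le_one (by positivity)]
    nlinarith
  refine ⟨1 / L * (1 / (4 * L ^ 2)) / 200, ⌈2 * L⌉₊ + 2, by positivity, ?_, by omega, ?_⟩
  · have := mul_le_one₀ hc0 (by positivity) hc1
    linarith
  intro N m W A B hN hm1 hm2 hR
  have hNL : 2 * L ≤ N := by
    have h1 : 2 * L ≤ (⌈2 * L⌉₊ : ℝ) := Nat.le_ceil _
    have h2 : (⌈2 * L⌉₊ : ℝ) ≤ N := by
      have : ⌈2 * L⌉₊ ≤ N := by omega
      exact_mod_cast this
    linarith
  have hm : 1 ≤ m := by omega
  have hm' : (1 : ℝ) ≤ m := by exact_mod_cast hm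
  have hNm : (N : ℝ) ≤ 2 * m := by
    have : N ≤ 2 * m := by omega
    exact_mod_cast this
  have hN0 : (0 : ℝ) < N := by linarith
  have hds : ∀ l ∈ full m, rc l → dsum N W l.1 l.2 = 1 := by
    intro l hl hrc
    obtain ⟨g, hg, hg2⟩ := mem_full.1 hl
    rw [Pool.Agent.NQ.mem_board] at hg
    have h1 : (m : ℤ) ≤ N := by exact_mod_cast hm2
    obtain ⟨k, s⟩ := l
    have hk : k = 0 ∨ k = 1 := by
      have h5 : (k : ℕ) < 2 := hrc
      rcases k with ⟨k, hk⟩
      have h5' : k < 2 := h5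
      rcases Nat.lt_succ_iff_lt_or_eq.mp h5' with h6 | h6
      · left
        apply Fin.ext
        show k = 0
        omega
      · right
        apply Fin.ext
        exact h6
    rcases hk with rfl | rfl
    · have g1 : g.1 = s := hg2
      exact hR.adm.row s (by omega) (by omega)
    · have g1 : g.2 = s := hg2
      exact hR.adm.col s (by omega) (by omega)
  refine coer (by positivity) hc0 (by positivity) hc1 hm (vd_full hm) (fun e _ => hR.adm.nn e) ?_ ?_ ?_ ?_ ?_
  · intro l hl hrc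
    refine ⟨fco_ge hL0 hNL hm1 hR l hl hrc (hds l hl hrc), ?_⟩
    have h1 := fco_le hm2 hR l
    rw [hds l hl hrc] at h1
    linarith
  · intro l hl hrc
    have h1 := fco_le hm2 hR l
    obtain ⟨k, s⟩ := l
    have hk : k = 2 ∨ k = 3 := by
      have h5 : ¬ (k : ℕ) < 2 := hrc
      rcases k with ⟨k, hk⟩
      have h5' : ¬ k < 2 := h5
      by_cases h6 : k = 2
      · left
        apply Fin.ext
        exact h6
      · right
        apply Fin.ext
        show k = 3
        omega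
    rcases hk with rfl | rfl
    · have := hR.adm.sd s
      have h2 : ∑ e ∈ Sl m (full m) (2, s), W e ≤ dsum N W 2 s := h1
      linarith
    · have := hR.adm.dd s
      have h2 : ∑ e ∈ Sl m (full m) (3, s), W e ≤ dsum N W 3 s := h1
      linarith
  · intro l _
    have h1 : 0 ≤ dg l := by
      unfold dg
      split_ifs <;> norm_num
    exact mul_nonneg h1 (Real.exp_pos _).le
  · intro l _ hrc
    have h1 : dg l = 1 := by
      unfold dg
      rw [if_neg hrc]
    rw [h1, one_mul]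
    exact (pz_dg hL hR 0 0 hrc).2.1
  · intro x x' hx hx' _
    have hxm : 0 ≤ x ∧ x < m := by
      obtain ⟨g, hg, hg2⟩ := mem_full.1 hx
      rw [Pool.Agent.NQ.mem_board] at hg
      have g1 : g.1 = x := hg2
      omega
    have hxm' : 0 ≤ x' ∧ x' < m := by
      obtain ⟨g, hg, hg2⟩ := mem_full.1 hx'
      rw [Pool.Agent.NQ.mem_board] at hg
      have g1 : g.1 = x' := hg2
      omega
    have hmN : (m : ℤ) ≤ N := by exact_mod_cast hm2
    have h1 : ∑ y ∈ Finset.Ico (0 : ℤ) m, (1 / (L * N)) ^ 2 ≤ ∑ y ∈ Finset.Ico (0 : ℤ) m,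
        (if (x, y) ∈ Sq m (full m) ∧ (x', y) ∈ Sq m (full m) then W (x, y) * W (x', y) else 0) := by
      refine Finset.sum_le_sum fun y hy => ?_
      rw [Finset.mem_Ico] at hy
      have e1 : (x, y) ∈ board m := by rw [Pool.Agent.NQ.mem_board]; exact ⟨hxm, hy⟩
      have e2 : (x', y) ∈ board m := by rw [Pool.Agent.NQ.mem_board]; exact ⟨hxm', hy⟩
      have e3 : (x, y) ∈ board N := by rw [Pool.Agent.NQ.mem_board]; exact ⟨⟨hxm.1, by show x < N; omega⟩, ⟨hy.1, by show y < N; omega⟩⟩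
      have e4 : (x', y) ∈ board N := by rw [Pool.Agent.NQ.mem_board]; exact ⟨⟨hxm'.1, by show x' < N; omega⟩, ⟨hy.1, by show y < N; omega⟩⟩
      rw [if_pos (by rw [Sq_full]; exact ⟨e1, e2⟩), sq]
      exact mul_le_mul (hR.bd.lo _ e3) (hR.bd.lo _ e4) (by positivity) (hR.adm.nn _)
    refine le_trans ?_ h1
    rw [Finset.sum_const, Int.card_Ico, sub_zero, Int.toNat_natCast, nsmul_eq_mul, div_div, div_pow, one_pow, mul_one_div,
      div_le_div_iff₀ (by positivity) (by positivity), one_mul]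
    have h2 : (N : ℝ) ^ 2 ≤ (2 * m) ^ 2 := pow_le_pow_left₀ hN0.le hNm 2
    nlinarith [mul_le_mul_of_nonneg_left h2 (sq_nonneg L)]

end Pool.Agent.NQF
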