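import Pool.Agent.NQF.FDefs

/-!
# NQF-FTel: summation by parts with Lipschitz data
-/

set_option autoImplicit false

open Finset

namespace Pool.Agent.NQF

open Pool.Agent.NQ (board dsum F Ent Dg phi ln Q Qset QS NonAtt bern)
open Pool.Agent.NQR (Adm Opt Bd Rf hS hD hh InR)
open Pool.Agent.NQL

private theorem tel_sum (f : ℤ → ℝ) (a : ℤ) (m : ℕ) :
    ∑ s ∈ Finset.Ico a (a + m), (f (s + 1) - f s) = f (a + m) - f a := by
  induction m with
  | zero => simp
  | succ m ih =>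
    have h : Finset.Ico a (a + ((m + 1 : ℕ) : ℤ)) = insert (a + (m : ℤ)) (Finset.Ico a (a + m)) := by
      ext x
      simp only [Finset.mem_Ico, Finset.mem_insert]
      push_cast
      omega
    rw [h, Finset.sum_insert (by simp), ih]
    push_cast
    rw [show a + (m : ℤ) + 1 = a + ((m : ℤ) + 1) by ring]
    ring

private theorem log_lip {c q r : ℝ} (hc : 0 < c) (hq : c ≤ q) (hr : c ≤ r) :
    |Real.log r - Real.log q| ≤ |r - q| / c := by
  have key : ∀ x y : ℝ, c ≤ x → c ≤ y → Real.log x - Real.log y ≤ |x - y| / c := by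
    intro x y hx hy
    have hx0 : 0 < x := lt_of_lt_of_le hc hx
    have hy0 : 0 < y := lt_of_lt_of_le hc hy
    have h1 : Real.log x - Real.log y ≤ (x - y) / y := by
      rw [← Real.log_div hx0.ne' hy0.ne']
      have := Real.log_le_sub_one_of_pos (div_pos hx0 hy0)
      have h2 : x / y - 1 = (x - y) / y := by field_simp
      linarith
    refine h1.trans ?_
    calc (x - y) / y ≤ |x - y| / y := by
          apply div_le_div_of_nonneg_right (le_abs_self _) hy0.le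
      _ ≤ |x - y| / c := by
          apply div_le_div_of_nonneg_left (abs_nonneg _) hc hy
  rw [abs_le]
  constructor
  · have := key q r hq hr
    rw [abs_sub_comm] at this
    linarith
  · exact key r q hr hq

private theorem psi_step {c q r : ℝ} (hc : 0 < c) (hq : c ≤ q) (hr : c ≤ r) :
    r - q - q * (Real.log r - Real.log q) ≤ (r - q) ^ 2 / c := by
  have hq0 : 0 < q := lt_of_lt_of_le hc hq
  have hr0 : 0 < r := lt_of_lt_of_le hc hr
  have h1 : 1 - q / r ≤ Real.log r - Real.log q := by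
    have := Real.log_le_sub_one_of_pos (div_pos hq0 hr0)
    rw [Real.log_div hq0.ne' hr0.ne'] at this
    linarith
  have h2 : r - q - q * (Real.log r - Real.log q) ≤ r - q - q * (1 - q / r) := by
    have := mul_le_mul_of_nonneg_left h1 hq0.le
    linarith
  have h3 : r - q - q * (1 - q / r) = (r - q) ^ 2 / r := by
    rw [eq_div_iff hr0.ne', sub_mul, sub_mul, mul_assoc q, sub_mul 1, div_mul_cancel₀ _ hr0.ne']
    ring
  rw [h3] at h2
  refine h2.trans ?_
  exact div_le_div_of_nonneg_left (sq_nonneg _) hc hr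

theorem f_tel {c C1 : ℝ} (hc : 0 < c) (hc1 : c ≤ 1) (hC : 0 ≤ C1) : ∃ C : ℝ, 0 ≤ C ∧ ∀ (n k : ℕ) (p M : ℤ → ℝ),
    1 ≤ n → 1 ≤ k → (∀ s : ℤ, s ≤ -(n : ℤ) ∨ 2 * (n : ℤ) ≤ s → p s = 0 ∧ M s = 0) →
    (∀ s, 0 ≤ p s ∧ p s ≤ 1 - c) → (∀ s, |p s - p (s + 1)| ≤ C1 / n) →
    (∀ s, |M s - ((k : ℝ) - 1) / 2 * p s| ≤ C1 * k / n) →
    -(C * k / n) ≤ ∑ s ∈ Finset.Ico (-(n : ℤ)) (2 * n), -Real.log (1 - p s) * (M (s + 1) - M s) := by
  refine ⟨5 * C1 ^ 2 / c, by positivity, ?_⟩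
  intro n k p M hn hk h0 hp hL hM
  have hn0 : (0 : ℝ) < n := by exact_mod_cast hn
  have hk1 : (1 : ℝ) ≤ k := by exact_mod_cast hk
  have hb : (2 * (n : ℤ)) = -(n : ℤ) + ((3 * n : ℕ) : ℤ) := by push_cast; ring
  -- termwise bound
  have hterm : ∀ s : ℤ, ((-Real.log (1 - p (s + 1)) * M (s + 1)) - (-Real.log (1 - p s) * M s))
      - ((k : ℝ) - 1) / 2 * ((-p (s + 1) - Real.log (1 - p (s + 1))) - (-p s - Real.log (1 - p s)))
      - ((k : ℝ) - 1) / 2 * (C1 ^ 2 / (n ^ 2 * c)) - C1 ^ 2 * k / (n ^ 2 * c)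
      ≤ -Real.log (1 - p s) * (M (s + 1) - M s) := by
    intro s
    have hq : c ≤ 1 - p (s + 1) := by linarith [(hp (s + 1)).2]
    have hr : c ≤ 1 - p s := by linarith [(hp s).2]
    have hlip := log_lip hc hq hr
    have hpsi := psi_step hc hq hr
    have hd : |(1 - p s) - (1 - p (s + 1))| ≤ C1 / n := by
      have e : (1 - p s) - (1 - p (s + 1)) = -(p s - p (s + 1)) := by ring
      rw [e, abs_neg]
      exact hL s
    have hd2 : ((1 - p s) - (1 - p (s + 1))) ^ 2 ≤ C1 ^ 2 / n ^ 2 := by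
      have h1 : ((1 - p s) - (1 - p (s + 1))) ^ 2 ≤ (C1 / n) ^ 2 := by
        rw [← sq_abs]
        exact pow_le_pow_left₀ (abs_nonneg _) hd 2
      rw [div_pow] at h1
      exact h1
    have hpsi2 : (1 - p s) - (1 - p (s + 1)) - (1 - p (s + 1)) *
        (Real.log (1 - p s) - Real.log (1 - p (s + 1))) ≤ C1 ^ 2 / (n ^ 2 * c) := by
      refine hpsi.trans ?_
      rw [div_le_div_iff₀ hc (by positivity)]
      have := mul_le_mul_of_nonneg_right hd2 (by positivity : (0 : ℝ) ≤ n ^ 2 * c)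
      have e : C1 ^ 2 / n ^ 2 * (n ^ 2 * c) = C1 ^ 2 * c := by field_simp
      rw [e] at this
      exact this
    have hlip2 : |Real.log (1 - p s) - Real.log (1 - p (s + 1))| ≤ C1 / n / c :=
      hlip.trans (div_le_div_of_nonneg_right hd hc.le)
    set D := Real.log (1 - p s) - Real.log (1 - p (s + 1)) with hD
    set κ := ((k : ℝ) - 1) / 2 with hκ
    have hκ0 : 0 ≤ κ := by rw [hκ]; linarith
    have hMs := hM (s + 1)
    have hprod : |(M (s + 1) - κ * p (s + 1)) * D| ≤ C1 ^ 2 * k / (n ^ 2 * c) := by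
      rw [abs_mul]
      calc |M (s + 1) - κ * p (s + 1)| * |D| ≤ (C1 * k / n) * (C1 / n / c) :=
            mul_le_mul hMs hlip2 (abs_nonneg _) (by positivity)
        _ = C1 ^ 2 * k / (n ^ 2 * c) := by
            field_simp
    have hprod' := (abs_le.mp hprod).2
    have hmul := mul_le_mul_of_nonneg_left hpsi2 hκ0
    have hlogs : Real.log (1 - p s) = D + Real.log (1 - p (s + 1)) := by rw [hD]; ring
    rw [hlogs] at *
    nlinarith [hprod', hmul]
  have hsum := Finset.sum_le_sum (s := Finset.Ico (-(n : ℤ)) (2 * n)) (fun s _ => hterm s)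
  refine le_trans ?_ hsum
  rw [Finset.sum_sub_distrib, Finset.sum_sub_distrib, Finset.sum_sub_distrib, ← Finset.mul_sum]
  have t1 := tel_sum (fun s => -Real.log (1 - p s) * M s) (-(n : ℤ)) (3 * n)
  have t2 := tel_sum (fun s => -p s - Real.log (1 - p s)) (-(n : ℤ)) (3 * n)
  rw [← hb] at t1 t2
  have z1 := h0 (-(n : ℤ)) (Or.inl le_rfl)
  have z2 := h0 (2 * (n : ℤ)) (Or.inr le_rfl)
  simp only [z1.1, z1.2, z2.1, z2.2] at t1 t2
  rw [t1, t2]
  simp only [Finset.sum_const, Int.card_Ico, nsmul_eq_mul]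
  have hcard : (((2 * (n : ℤ) - -(n : ℤ)).toNat : ℕ) : ℝ) = 3 * n := by
    have : (2 * (n : ℤ) - -(n : ℤ)) = ((3 * n : ℕ) : ℤ) := by push_cast; ring
    rw [this, Int.toNat_natCast]
    push_cast
    ring
  rw [hcard]
  have e1 : (3 * (n : ℝ)) * (((k : ℝ) - 1) / 2 * (C1 ^ 2 / (n ^ 2 * c))) =
      3 * C1 ^ 2 / (n * c) * (((k : ℝ) - 1) / 2) := by
    field_simp
  have e2 : (3 * (n : ℝ)) * (C1 ^ 2 * k / (n ^ 2 * c)) = 3 * C1 ^ 2 / (n * c) * k := by
    field_simp
  have e3 : 5 * C1 ^ 2 / c * k / n = 3 * C1 ^ 2 / (n * c) * k +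
      3 * C1 ^ 2 / (n * c) * (1 / 2) * k + (1 / 2) * (C1 ^ 2 / (n * c)) * k := by
    field_simp
    ring
  rw [e1, e2, e3]
  have hX : 0 ≤ C1 ^ 2 / (n * c) := by positivity
  have hY : 0 ≤ 3 * C1 ^ 2 / (n * c) := by positivity
  nlinarith [mul_nonneg hX (by linarith : (0 : ℝ) ≤ k), mul_nonneg hY (by linarith : (0 : ℝ) ≤ k)]

end Pool.Agent.NQF
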