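import Pool.Agent.NQF.FDefs
import Pool.Agent.NQF.FCgA
import Pool.Agent.NQF.FCgC
import Pool.Agent.NQF.FTel
import Pool.Agent.NQL.ECoD
import Pool.Agent.NQL.ECoG

/-!
# NQF-FCoa: coarse graining costs `O(k/n)`
-/

set_option autoImplicit false

open Finset

namespace Pool.Agent.NQF

open Pool.Agent.NQ (board dsum F Ent Dg phi ln Q Qset QS NonAtt bern)
open Pool.Agent.NQR (Adm Opt Bd Rf hS hD hh InR)
open Pool.Agent.NQL

private theorem fcoa_tan {p q : ℝ} (hp : p < 1) (hq : q < 1) :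
    phi p + -Real.log (1 - p) * (q - p) ≤ phi q := by
  unfold phi
  have h1 : 0 < 1 - p := by linarith
  have h2 : 0 < 1 - q := by linarith
  have h3 : Real.log (1 - p) - Real.log (1 - q) ≤ (1 - p) / (1 - q) - 1 := by
    rw [← Real.log_div h1.ne' h2.ne']
    exact Real.log_le_sub_one_of_pos (div_pos h1 h2)
  have h4 : (1 - q) * (Real.log (1 - p) - Real.log (1 - q)) ≤ (1 - q) * ((1 - p) / (1 - q) - 1) :=
    mul_le_mul_of_nonneg_left h3 h2.le
  have h5 : (1 - q) * ((1 - p) / (1 - q) - 1) = q - p := by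
    field_simp
    ring
  nlinarith

private theorem fcoa_idx (k : ℕ) (hk : 1 ≤ k) (a b c : ℤ) (f : ℤ → ℝ) :
    ∑ s ∈ Finset.Ico a b, ∑ r ∈ Finset.range k, f (k * s + c + r) =
      ∑ t ∈ Finset.Ico (k * a + c) (k * b + c), f t := by
  have hk0 : (0 : ℤ) < k := by exact_mod_cast hk
  rw [← Finset.sum_product']
  refine Finset.sum_nbij' (fun x => (k : ℤ) * x.1 + c + x.2)
    (fun y => ((y - c) / k, ((y - c) % k).toNat)) ?_ ?_ ?_ ?_ ?_
  · rintro ⟨s, r⟩ hx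
    rw [Finset.mem_product, Finset.mem_Ico, Finset.mem_range] at hx
    obtain ⟨⟨h1, h2⟩, h3⟩ := hx
    simp only at h1 h2 h3
    have h3' : (r : ℤ) < k := by exact_mod_cast h3
    rw [Finset.mem_Ico]
    constructor
    · show (k : ℤ) * a + c ≤ k * s + c + r
      nlinarith
    · show (k : ℤ) * s + c + r < k * b + c
      have h4 : s + 1 ≤ b := h2
      nlinarith
  · intro y hy
    rw [Finset.mem_Ico] at hy
    rw [Finset.mem_product, Finset.mem_Ico, Finset.mem_range]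
    refine ⟨⟨?_, ?_⟩, ?_⟩
    · show a ≤ (y - c) / k
      rw [Int.le_ediv_iff_mul_le hk0]
      linarith [mul_comm a (k : ℤ)]
    · show (y - c) / k < b
      rw [Int.ediv_lt_iff_lt_mul hk0]
      linarith [mul_comm b (k : ℤ)]
    · show ((y - c) % k).toNat < k
      have h1 := Int.emod_lt_of_pos (y - c) hk0
      have h2 := Int.emod_nonneg (y - c) hk0.ne'
      omega
  · rintro ⟨s, r⟩ hx
    rw [Finset.mem_product, Finset.mem_Ico, Finset.mem_range] at hx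
    obtain ⟨-, h3⟩ := hx
    simp only at h3
    have h3' : (r : ℤ) < k := by exact_mod_cast h3
    have h4 : (k : ℤ) * s + c + r - c = r + k * s := by ring
    have h5 : (r : ℤ) / k = 0 := Int.ediv_eq_zero_of_lt (by positivity) h3'
    have h6 : (r : ℤ) % k = r := Int.emod_eq_of_lt (by positivity) h3'
    show (((k : ℤ) * s + c + r - c) / k, (((k : ℤ) * s + c + r - c) % k).toNat) = (s, r)
    rw [h4, Int.add_mul_ediv_left _ _ hk0.ne', Int.add_mul_emod_self_left, h5, h6, zero_add,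
      Int.toNat_natCast]
  · intro y _
    have h2 := Int.emod_nonneg (y - c) hk0.ne'
    show (k : ℤ) * ((y - c) / k) + c + (((y - c) % k).toNat : ℤ) = y
    rw [Int.toNat_of_nonneg h2]
    have := Int.mul_ediv_add_emod (y - c) k
    linarith
  · intro x _
    rfl

private theorem fcoa_supp (A B : Finset ℤ) (f : ℤ → ℝ) (h : ∀ s, f s ≠ 0 → s ∈ A ∧ s ∈ B) :
    ∑ s ∈ A, f s = ∑ s ∈ B, f s := by
  classical
  rw [← Finset.sum_subset (Finset.inter_subset_left : A ∩ B ⊆ A),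
    ← Finset.sum_subset (Finset.inter_subset_right : A ∩ B ⊆ B)]
  · intro x _ hx
    by_contra h1
    exact hx (Finset.mem_inter.2 (h x h1))
  · intro x _ hx
    by_contra h1
    exact hx (Finset.mem_inter.2 (h x h1))

private theorem fcoa_phi0 : phi 0 = 0 := by
  unfold phi
  simp

private theorem fcoa_ne {N : ℕ} {W : ℤ × ℤ → ℝ} {κ : Fin 4} {s : ℤ} (h : dsum N W κ s ≠ 0) :
    ∃ e ∈ board N, ln κ e = s := by
  obtain ⟨e, he, -⟩ := Finset.exists_ne_zero_of_sum_ne_zero h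
  rw [Finset.mem_filter] at he
  exact ⟨e, he.1, he.2⟩

private theorem fcoa_bd {N : ℕ} {e : ℤ × ℤ} (h : e ∈ board N) :
    (0 ≤ e.1 ∧ e.1 < N) ∧ (0 ≤ e.2 ∧ e.2 < N) := by
  unfold board at h
  rw [Finset.mem_product, Finset.mem_Ico, Finset.mem_Ico] at h
  exact h

private theorem fcoa_win {n k : ℕ} (hk : 1 ≤ k) (c : ℤ) (P p M : ℤ → ℝ) (hP : ∀ s, P s < 1)
    (hp : ∀ s, p s < 1)
    (hw : ∀ s : ℤ, ∑ r ∈ Finset.range k, P (k * s + c + r) = k * p s - M s + M (s + 1)) {D : ℝ}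
    (ht : -D ≤ ∑ s ∈ Finset.Ico (-(n : ℤ)) (2 * n), -Real.log (1 - p s) * (M (s + 1) - M s)) :
    k * ∑ s ∈ Finset.Ico (-(n : ℤ)) (2 * n), phi (p s) - D ≤
      ∑ t ∈ Finset.Ico (k * (-(n : ℤ)) + c) (k * (2 * (n : ℤ)) + c), phi (P t) := by
  rw [← fcoa_idx k hk (-(n : ℤ)) (2 * n) c (fun t => phi (P t))]
  have h1 : ∀ s : ℤ, k * phi (p s) + -Real.log (1 - p s) * (M (s + 1) - M s) ≤
      ∑ r ∈ Finset.range k, phi (P (k * s + c + r)) := by
    intro s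
    have h2 : ∑ r ∈ Finset.range k, (phi (p s) + -Real.log (1 - p s) * (P (k * s + c + r) - p s)) ≤
        ∑ r ∈ Finset.range k, phi (P (k * s + c + r)) :=
      Finset.sum_le_sum fun r _ => fcoa_tan (hp s) (hP _)
    have h3 : ∑ r ∈ Finset.range k, (phi (p s) + -Real.log (1 - p s) * (P (k * s + c + r) - p s)) =
        k * phi (p s) + -Real.log (1 - p s) * (M (s + 1) - M s) := by
      rw [Finset.sum_add_distrib, ← Finset.mul_sum, Finset.sum_sub_distrib, hw s, Finset.sum_const,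
        Finset.sum_const, Finset.card_range, nsmul_eq_mul, nsmul_eq_mul]
      ring
    rw [h3] at h2
    exact h2
  have h4 : ∑ s ∈ Finset.Ico (-(n : ℤ)) (2 * n),
      (k * phi (p s) + -Real.log (1 - p s) * (M (s + 1) - M s)) ≤
      ∑ s ∈ Finset.Ico (-(n : ℤ)) (2 * n), ∑ r ∈ Finset.range k, phi (P (k * s + c + r)) :=
    Finset.sum_le_sum fun s _ => h1 s
  rw [Finset.sum_add_distrib, ← Finset.mul_sum] at h4
  linarith

theorem coarse2 {L C : ℝ} (hL : 1 ≤ L) (hC : 0 ≤ C) : ∃ (C3 : ℝ) (n0 : ℕ), 0 ≤ C3 ∧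
    ∀ (n k : ℕ) (W : ℤ × ℤ → ℝ) (A B : ℤ → ℝ), n0 ≤ n → 1 ≤ n → 1 ≤ k → Rf L (n * k) W A B → Lp C (n * k) W A B →
      Adm n (cz n k W) ∧ F (n * k) W ≤ k * F n (cz n k W) + n * k * Real.log k + C3 * k / n := by
  obtain ⟨C1, n1, hC1, H1⟩ := coarse_reg L hL
  obtain ⟨Cc, hCc, Hc⟩ := f_cgc hL hC
  obtain ⟨Ca, hCa, Ha⟩ := f_cga hL hC
  have hL0 : 0 < L := by linarith
  have hc0 : 0 < 1 / (2 * L) := by positivity
  have hc1 : 1 / (2 * L) ≤ 1 := by
    rw [div_le_one (by positivity)]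
    linarith
  obtain ⟨C2, hC2, H2⟩ := f_tel hc0 hc1 (hCc.trans (le_max_left Cc Ca))
  refine ⟨2 * C2, n1, by positivity, ?_⟩
  intro n k W A B hn1 hn hk hR hLp
  have hn0' : (0 : ℝ) < n := by exact_mod_cast hn
  obtain ⟨hV0, hVr, hVc⟩ := cz_row hn hk hR.adm
  have hreg := H1 n k W A B hn1 hn hk hR
  have hlt : ∀ κ : Fin 4, 2 ≤ (κ : ℕ) → ∀ s, dsum n (cz n k W) κ s < 1 := by
    intro κ hκ s
    have := (hreg κ hκ s).2.1
    linarith
  have hP2 : ∀ s, dsum (n * k) W 2 s < 1 := by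
    intro s
    have h1 := hR.bd.sd s
    unfold hS at h1
    have : 0 < 1 / L := by positivity
    linarith
  have hP3 : ∀ s, dsum (n * k) W 3 s < 1 := by
    intro s
    have h1 := hR.bd.dd s
    unfold hD at h1
    have : 0 < 1 / L := by positivity
    linarith
  have hzero : ∀ κ : Fin 4, 2 ≤ (κ : ℕ) → ∀ s : ℤ, s ≤ -(n : ℤ) ∨ 2 * (n : ℤ) ≤ s →
      dsum n (cz n k W) κ s = 0 ∧ Mm n k W κ s = 0 := by
    intro κ hκ s hs
    have h1 : (board n).filter (fun e => ln κ e = s) = ∅ := by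
      rw [Finset.filter_eq_empty_iff]
      intro e he h2
      obtain ⟨⟨e1, e2⟩, e3, e4⟩ := fcoa_bd he
      have hκ' : κ = 2 ∨ κ = 3 := by
        revert hκ
        fin_cases κ <;> simp
      rcases hκ' with rfl | rfl
      · rw [Pool.Agent.NQ.ln_two] at h2
        omega
      · rw [Pool.Agent.NQ.ln_three] at h2
        omega
    constructor
    · unfold dsum
      rw [h1, Finset.sum_empty]
    · unfold Mm
      rw [h1, Finset.sum_empty]
  have hD2 : ∀ κ : Fin 4, 2 ≤ (κ : ℕ) → -(C2 * k / n) ≤ ∑ s ∈ Finset.Ico (-(n : ℤ)) (2 * n),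
      -Real.log (1 - dsum n (cz n k W) κ s) * (Mm n k W κ (s + 1) - Mm n k W κ s) := by
    intro κ hκ
    refine H2 n k (fun s => dsum n (cz n k W) κ s) (fun s => Mm n k W κ s) hn hk (hzero κ hκ)
      (fun s => ⟨(hreg κ hκ s).1, (hreg κ hκ s).2.1⟩)
      (fun s => (Hc n k W A B hn hk hR hLp κ hκ s).trans (div_le_div_of_nonneg_right (le_max_left _ _) hn0'.le))
      (fun s => (Ha n k W A B hn hk hR hLp κ hκ s).trans ?_)
    exact div_le_div_of_nonneg_right (mul_le_mul_of_nonneg_right (le_max_right _ _) (Nat.cast_nonneg k)) hn0'.le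
  have hw : ∀ κ : Fin 4, 2 ≤ (κ : ℕ) → (∀ s, dsum (n * k) W κ s < 1) →
      k * ∑ s ∈ Finset.Ico (-(n : ℤ)) (2 * n), phi (dsum n (cz n k W) κ s) - C2 * k / n ≤
      ∑ t ∈ Finset.Ico (k * (-(n : ℤ)) + oc κ k) (k * (2 * (n : ℤ)) + oc κ k),
        phi (dsum (n * k) W κ t) := by
    intro κ hκ hP
    exact fcoa_win hk (oc κ k) (fun s => dsum (n * k) W κ s) (fun s => dsum n (cz n k W) κ s)
      (fun s => Mm n k W κ s) hP (hlt κ hκ) (fun s => win hn hk W hκ s) (hD2 κ hκ)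
  have w2 := hw 2 (by decide) hP2
  have w3 := hw 3 (by decide) hP3
  have hnk : ((n * k : ℕ) : ℤ) = n * k := by push_cast; ring
  have hnkk : (k : ℤ) ≤ n * k := by
    have : (1 : ℤ) ≤ n := by exact_mod_cast hn
    nlinarith
  have hk1 : (1 : ℤ) ≤ k := by exact_mod_cast hk
  have f2 : ∑ t ∈ Finset.Ico (k * (-(n : ℤ)) + oc 2 k) (k * (2 * (n : ℤ)) + oc 2 k),
      phi (dsum (n * k) W 2 t) = ∑ s ∈ Finset.Ico (0 : ℤ) (2 * (n * k : ℕ)), phi (dsum (n * k) W 2 s) := by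
    refine fcoa_supp _ _ _ fun s hs => ?_
    have h1 : dsum (n * k) W 2 s ≠ 0 := by
      intro h
      rw [h, fcoa_phi0] at hs
      exact hs rfl
    obtain ⟨e, he, h2⟩ := fcoa_ne h1
    obtain ⟨⟨e1, e2⟩, e3, e4⟩ := fcoa_bd he
    rw [Pool.Agent.NQ.ln_two] at h2
    rw [hnk] at e2 e4
    have h3 : oc 2 k = (k : ℤ) - 1 := rfl
    rw [Finset.mem_Ico, Finset.mem_Ico, h3, hnk]
    refine ⟨⟨?_, ?_⟩, ?_, ?_⟩ <;> nlinarith
  have f3 : ∑ t ∈ Finset.Ico (k * (-(n : ℤ)) + oc 3 k) (k * (2 * (n : ℤ)) + oc 3 k),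
      phi (dsum (n * k) W 3 t) =
      ∑ s ∈ Finset.Ioo (-((n * k : ℕ) : ℤ)) (n * k : ℕ), phi (dsum (n * k) W 3 s) := by
    refine fcoa_supp _ _ _ fun s hs => ?_
    have h1 : dsum (n * k) W 3 s ≠ 0 := by
      intro h
      rw [h, fcoa_phi0] at hs
      exact hs rfl
    obtain ⟨e, he, h2⟩ := fcoa_ne h1
    obtain ⟨⟨e1, e2⟩, e3, e4⟩ := fcoa_bd he
    rw [Pool.Agent.NQ.ln_three] at h2
    rw [hnk] at e2 e4
    have h3 : oc 3 k = 0 := rfl
    rw [Finset.mem_Ico, Finset.mem_Ioo, h3, hnk]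
    refine ⟨⟨?_, ?_⟩, ?_, ?_⟩ <;> nlinarith
  have g2 : ∑ s ∈ Finset.Ico (-(n : ℤ)) (2 * n), phi (dsum n (cz n k W) 2 s) =
      ∑ s ∈ Finset.Ico (0 : ℤ) (2 * n), phi (dsum n (cz n k W) 2 s) := by
    refine fcoa_supp _ _ _ fun s hs => ?_
    have h1 : dsum n (cz n k W) 2 s ≠ 0 := by
      intro h
      rw [h, fcoa_phi0] at hs
      exact hs rfl
    obtain ⟨e, he, h2⟩ := fcoa_ne h1
    obtain ⟨⟨e1, e2⟩, e3, e4⟩ := fcoa_bd he
    rw [Pool.Agent.NQ.ln_two] at h2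
    rw [Finset.mem_Ico, Finset.mem_Ico]
    omega
  have g3 : ∑ s ∈ Finset.Ico (-(n : ℤ)) (2 * n), phi (dsum n (cz n k W) 3 s) =
      ∑ s ∈ Finset.Ioo (-(n : ℤ)) n, phi (dsum n (cz n k W) 3 s) := by
    refine fcoa_supp _ _ _ fun s hs => ?_
    have h1 : dsum n (cz n k W) 3 s ≠ 0 := by
      intro h
      rw [h, fcoa_phi0] at hs
      exact hs rfl
    obtain ⟨e, he, h2⟩ := fcoa_ne h1
    obtain ⟨⟨e1, e2⟩, e3, e4⟩ := fcoa_bd he
    rw [Pool.Agent.NQ.ln_three] at h2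
    rw [Finset.mem_Ico, Finset.mem_Ioo]
    omega
  refine ⟨⟨hV0, ?_, hVr, hVc, fun s => (hlt 2 (by decide) s).le,
    fun s => (hlt 3 (by decide) s).le⟩, ?_⟩
  · intro e he
    unfold cz
    rw [if_neg he]
  · have hE := cz_ent hn hk hR.adm
    have hDg : k * Dg n (cz n k W) - 2 * C2 * k / n ≤ Dg (n * k) W := by
      unfold Dg
      rw [← f2, ← f3, ← g2, ← g3]
      have e9 : 2 * C2 * (k : ℝ) / n = C2 * k / n + C2 * k / n := by ring
      rw [e9]
      linarith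
    unfold F
    linarith

end Pool.Agent.NQF
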