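import Pool.Agent.NQF.Defs

/-!
# NQF, blocks F and L: definitions
-/

set_option autoImplicit false

open Finset

namespace Pool.Agent.NQF

open Pool.Agent.NQ (board dsum F Ent Dg phi ln Q Qset QS NonAtt bern)
open Pool.Agent.NQR (Adm Opt Bd Rf hS hD hh InR)
open Pool.Agent.NQL

/-- potentials of the weights translated by `(u, v)`: `wt (pz u v) e = W (e + (u, v))` -/
noncomputable def pz (N : ℕ) (W : ℤ × ℤ → ℝ) (A B : ℤ → ℝ) (u v : ℤ) (l : Li) : ℝ :=
  if l.1 = 0 then Real.log (A (l.2 + u))
  else if l.1 = 1 then Real.log (B (l.2 + v))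
  else if l.1 = 2 then Real.log (hS N W (l.2 + u + v))
  else Real.log (hD N W (l.2 + u - v))

/-- extended set of lines: rows and columns `[0,n)`, both types of diagonals `[-2n,2n)` -/
noncomputable def JJ (n : ℕ) : Finset Li :=
  (({0, 1} : Finset (Fin 4)) ×ˢ Finset.Ico (0 : ℤ) n) ∪
    (({2, 3} : Finset (Fin 4)) ×ˢ Finset.Ico (-(2 * (n : ℤ))) (2 * n))

/-- the coarse line of a fine line: blocks of length `k`, the parity of the diagonals is preserved -/
def fi (k : ℕ) (l : Li) : Li := if rc l then (l.1, l.2 / k) else (l.1, 2 * ((l.2 / 2) / k) + l.2 % 2)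

/-- the square in which the line number `s` of type `i` and the line number `t` of type `j` meet -/
def cr (i j : Fin 4) (s t : ℤ) : ℤ × ℤ :=
  ![![(0, 0), (s, t), (s, t - s), (s, s - t)],
    ![(t, s), (0, 0), (t - s, s), (t + s, s)],
    ![(t, s - t), (s - t, t), (0, 0), ((s + t) / 2, (s - t) / 2)],
    ![(t, t - s), (s + t, t), ((t + s) / 2, (t - s) / 2), (0, 0)]] i j

/-- parity condition for two diagonals to meet in a square -/
def pr (i j : Fin 4) (s t : ℤ) : Prop := 2 ≤ (i : ℕ) → 2 ≤ (j : ℕ) → (s - t) % 2 = 0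

instance (i j : Fin 4) (s t : ℤ) : Decidable (pr i j s t) := by unfold pr; infer_instance

end Pool.Agent.NQF
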