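import Pool.Agent.NQF.FPz
import Pool.Agent.NQL.ABas

/-!
# NQF-FGr: the translated weights are nearly stationary on the sub-board of size `N - 1`
-/

set_option autoImplicit false

open Finset

namespace Pool.Agent.NQF

open Pool.Agent.NQ (board dsum F Ent Dg phi ln Q Qset QS NonAtt bern)
open Pool.Agent.NQR (Adm Opt Bd Rf hS hD hh InR)
open Pool.Agent.NQL

private theorem fgr_mem {n : ℕ} {e : ℤ × ℤ} :
    e ∈ board n ↔ 0 ≤ e.1 ∧ e.1 < n ∧ 0 ≤ e.2 ∧ e.2 < n := by
  unfold board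
  rw [mem_product, mem_Ico, mem_Ico]
  tauto

private theorem fgr_ln (k : Fin 4) (e : ℤ × ℤ) (u v : ℤ) :
    ln k (e.1 + u, e.2 + v) = ln k e + ln k (u, v) := by
  fin_cases k
  · show e.1 + u = e.1 + u
    rfl
  · show e.2 + v = e.2 + v
    rfl
  · show e.1 + u + (e.2 + v) = e.1 + e.2 + (u + v)
    ring
  · show e.1 + u - (e.2 + v) = e.1 - e.2 + (u - v)
    ring

/-- at most one square of the line of type `k` lies on the line number `r` of type `j` -/
private theorem fgr_one {N : ℕ} {k j : Fin 4} {s' r : ℤ} (h : k = j → s' ≠ r) :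
    (((board N).filter (fun f => ln k f = s')).filter (fun f => ln j f = r)).card ≤ 1 := by
  rw [card_le_one]
  intro a ha b hb
  rw [mem_filter, mem_filter] at ha hb
  by_cases hkj : k = j
  · subst hkj
    exact absurd (ha.1.2.symm.trans ha.2) (h rfl)
  · exact two_lines hkj (ha.1.2.trans hb.1.2.symm) (ha.2.trans hb.2.symm)

theorem pz_gr {L : ℝ} (hL : 1 ≤ L) {N : ℕ} (hN : 2 ≤ N) {W : ℤ × ℤ → ℝ} {A B : ℤ → ℝ} (hR : Rf L N W A B) {u v : ℤ}
    (hu : u = 0 ∨ u = 1) (hv : v = 0 ∨ v = 1) {l : Li} (hl : l ∈ full (N - 1)) :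
    |∑ e ∈ Sl (N - 1) (full (N - 1)) l, wt (pz N W A B u v) e + dg l * Real.exp (pz N W A B u v l) - 1| ≤
      2 * L / N := by
  classical
  obtain ⟨k, s⟩ := l
  obtain ⟨e0, he0, hes⟩ := mem_full.1 hl
  have hes' : ln k e0 = s := hes
  have hN1 : ((N - 1 : ℕ) : ℤ) = (N : ℤ) - 1 := by
    rw [Nat.cast_sub (by omega)]
    norm_num
  rw [fgr_mem, hN1] at he0
  set T : Finset (ℤ × ℤ) := (board (N - 1)).filter (fun e => ln k e = s) with hT
  set D : Finset (ℤ × ℤ) := (board N).filter (fun f => ln k f = s + ln k (u, v)) with hD'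
  set φ : ℤ × ℤ → ℤ × ℤ := fun e => (e.1 + u, e.2 + v) with hφ
  have hSl : Sl (N - 1) (full (N - 1)) (k, s) = T := by
    ext e
    rw [mem_Sl, Sq_full, hT, mem_filter]
  have hφN : ∀ e ∈ board (N - 1), φ e ∈ board N := by
    intro e he
    rw [fgr_mem, hN1] at he
    rw [fgr_mem]
    show 0 ≤ e.1 + u ∧ e.1 + u < N ∧ 0 ≤ e.2 + v ∧ e.2 + v < N
    rcases hu with hu | hu <;> rcases hv with hv | hv <;> subst hu <;> subst hv <;> omega
  have hinj : Function.Injective φ := by
    intro a b hab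
    have h1 : a.1 + u = b.1 + u := congrArg Prod.fst hab
    have h2 : a.2 + v = b.2 + v := congrArg Prod.snd hab
    exact Prod.ext (by omega) (by omega)
  have hsum : ∑ e ∈ T, wt (pz N W A B u v) e = ∑ f ∈ T.image φ, W f := by
    rw [sum_image hinj.injOn]
    refine sum_congr rfl fun e he => ?_
    exact pz_wt hL hR (hφN e (mem_filter.1 he).1)
  have hsub : T.image φ ⊆ D := by
    intro f hf
    obtain ⟨e, he, rfl⟩ := mem_image.1 hf
    obtain ⟨he1, he2⟩ := mem_filter.1 he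
    refine mem_filter.2 ⟨hφN e he1, ?_⟩
    show ln k (e.1 + u, e.2 + v) = s + ln k (u, v)
    rw [fgr_ln, he2]
  obtain ⟨r0, hr0⟩ : ∃ r0 : ℤ, r0 = if u = 0 then (N : ℤ) - 1 else 0 := ⟨_, rfl⟩
  obtain ⟨c0, hc0⟩ : ∃ c0 : ℤ, c0 = if v = 0 then (N : ℤ) - 1 else 0 := ⟨_, rfl⟩
  have hdiff : D \ T.image φ ⊆ D.filter (fun f => ln 0 f = r0) ∪ D.filter (fun f => ln 1 f = c0) := by
    intro f hf
    obtain ⟨hf1, hf2⟩ := mem_sdiff.1 hf
    by_contra hcon
    have h1 : f.1 ≠ r0 := fun h => hcon (mem_union_left _ (mem_filter.2 ⟨hf1, h⟩))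
    have h2 : f.2 ≠ c0 := fun h => hcon (mem_union_right _ (mem_filter.2 ⟨hf1, h⟩))
    obtain ⟨hf3, hf4⟩ := mem_filter.1 hf1
    apply hf2
    refine mem_image.2 ⟨(f.1 - u, f.2 - v), ?_, ?_⟩
    · refine mem_filter.2 ⟨?_, ?_⟩
      · rw [fgr_mem] at hf3
        rw [fgr_mem, hN1]
        show 0 ≤ f.1 - u ∧ f.1 - u < (N : ℤ) - 1 ∧ 0 ≤ f.2 - v ∧ f.2 - v < (N : ℤ) - 1
        rcases hu with hu | hu <;> rcases hv with hv | hv <;> subst hu <;> subst hv <;>
          simp at hr0 hc0 <;> omega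
      · have h3 := fgr_ln k (f.1 - u, f.2 - v) u v
        have h4 : ((f.1 - u, f.2 - v).1 + u, (f.1 - u, f.2 - v).2 + v) = f :=
          Prod.ext (by show f.1 - u + u = f.1; ring) (by show f.2 - v + v = f.2; ring)
        rw [h4, hf4] at h3
        linarith
    · exact Prod.ext (by show f.1 - u + u = f.1; ring) (by show f.2 - v + v = f.2; ring)
  have hc1 : (D.filter (fun f => ln 0 f = r0)).card ≤ 1 := by
    refine fgr_one ?_
    intro hk
    subst hk
    have h1 : e0.1 = s := hes'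
    have h2 : ln (0 : Fin 4) (u, v) = u := rfl
    rw [h2]
    rcases hu with hu | hu <;> subst hu <;> simp at hr0 <;> omega
  have hc2 : (D.filter (fun f => ln 1 f = c0)).card ≤ 1 := by
    refine fgr_one ?_
    intro hk
    subst hk
    have h1 : e0.2 = s := hes'
    have h2 : ln (1 : Fin 4) (u, v) = v := rfl
    rw [h2]
    rcases hv with hv | hv <;> subst hv <;> simp at hc0 <;> omega
  have hcard : (D \ T.image φ).card ≤ 2 := by
    refine (card_le_card hdiff).trans ((card_union_le _ _).trans ?_)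
    omega
  have hNpos : (0 : ℝ) < N := by
    have : 0 < N := by omega
    exact_mod_cast this
  have hrest : ∑ f ∈ D \ T.image φ, W f ≤ 2 * L / N := by
    calc ∑ f ∈ D \ T.image φ, W f ≤ ∑ _f ∈ D \ T.image φ, L / N := by
          refine sum_le_sum fun f hf => ?_
          exact hR.bd.hi f (mem_filter.1 (mem_sdiff.1 hf).1).1
      _ = (D \ T.image φ).card * (L / N) := by rw [sum_const, nsmul_eq_mul]
      _ ≤ 2 * (L / N) := by
          refine mul_le_mul_of_nonneg_right ?_ (by positivity)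
          exact_mod_cast hcard
      _ = 2 * L / N := by ring
  have hrest0 : 0 ≤ ∑ f ∈ D \ T.image φ, W f := sum_nonneg fun f _ => hR.adm.nn f
  have hdec : ∑ f ∈ D, W f = ∑ f ∈ T.image φ, W f + ∑ f ∈ D \ T.image φ, W f := by
    rw [add_comm, sum_sdiff hsub]
  have hstat : ∑ f ∈ D, W f + dg (k, s) * Real.exp (pz N W A B u v (k, s)) = 1 := by
    have hds : ∑ f ∈ D, W f = dsum N W k (s + ln k (u, v)) := rfl
    rw [hds]
    fin_cases k
    · have h1 : e0.1 = s := hes'
      have h2 : dg ((0 : Fin 4), s) = 0 := if_pos (show ((0 : Fin 4) : ℕ) < 2 by decide)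
      show dsum N W 0 (s + u) + dg ((0 : Fin 4), s) * _ = 1
      rw [h2, zero_mul, add_zero]
      refine hR.adm.row _ ?_ ?_
      · rcases hu with hu | hu <;> subst hu <;> omega
      · rcases hu with hu | hu <;> subst hu <;> omega
    · have h1 : e0.2 = s := hes'
      have h2 : dg ((1 : Fin 4), s) = 0 := if_pos (show ((1 : Fin 4) : ℕ) < 2 by decide)
      show dsum N W 1 (s + v) + dg ((1 : Fin 4), s) * _ = 1
      rw [h2, zero_mul, add_zero]
      refine hR.adm.col _ ?_ ?_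
      · rcases hv with hv | hv <;> subst hv <;> omega
      · rcases hv with hv | hv <;> subst hv <;> omega
    · have h2 : dg ((2 : Fin 4), s) = 1 := if_neg (show ¬ ((2 : Fin 4) : ℕ) < 2 by decide)
      show dsum N W 2 (s + (u + v)) + dg ((2 : Fin 4), s) *
        Real.exp (pz N W A B u v ((2 : Fin 4), s)) = 1
      rw [h2, one_mul, pz_s hL hR, hS, add_assoc]
      ring
    · have h2 : dg ((3 : Fin 4), s) = 1 := if_neg (show ¬ ((3 : Fin 4) : ℕ) < 2 by decide)
      show dsum N W 3 (s + (u - v)) + dg ((3 : Fin 4), s) *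
        Real.exp (pz N W A B u v ((3 : Fin 4), s)) = 1
      rw [h2, one_mul, pz_d hL hR, hD, add_sub_assoc]
      ring
  rw [hSl, hsum]
  have hfin : ∑ f ∈ T.image φ, W f + dg (k, s) * Real.exp (pz N W A B u v (k, s)) - 1 =
      -∑ f ∈ D \ T.image φ, W f := by linarith
  rw [hfin, abs_neg, abs_of_nonneg hrest0]
  exact hrest

end Pool.Agent.NQF
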