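import Pool.Agent.NQF.FStep

/-!
# NQF-FLip: the maximiser is Lipschitz
-/

set_option autoImplicit false

open Finset

namespace Pool.Agent.NQF

open Pool.Agent.NQ (board dsum F Ent Dg phi ln Q Qset QS NonAtt bern)
open Pool.Agent.NQR (Adm Opt Bd Rf hS hD hh InR)
open Pool.Agent.NQL

private theorem flp_log1 {a b : ℝ} (ha : 0 < a) (hb : b ≤ 1) (hab : a ≤ b) :
    b - a ≤ Real.log b - Real.log a := by
  have hb0 : 0 < b := lt_of_lt_of_le ha hab
  have h1 := Real.log_le_sub_one_of_pos (div_pos ha hb0)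
  rw [Real.log_div ha.ne' hb0.ne'] at h1
  have h2 : Real.log a ≤ Real.log b := Real.log_le_log ha hab
  have h3 : b * (Real.log a - Real.log b) ≤ b * (a / b - 1) := mul_le_mul_of_nonneg_left h1 hb0.le
  have h4 : b * (a / b - 1) = a - b := by
    field_simp
  rw [h4] at h3
  nlinarith

private theorem flp_log {a b : ℝ} (ha : 0 < a) (ha1 : a ≤ 1) (hb : 0 < b) (hb1 : b ≤ 1) :
    |a - b| ≤ |Real.log a - Real.log b| := by
  rcases le_total a b with h | h
  · have h1 := flp_log1 ha hb1 h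
    rw [abs_sub_comm a b, abs_sub_comm (Real.log a), abs_of_nonneg (by linarith)]
    exact h1.trans (le_abs_self _)
  · have h1 := flp_log1 hb ha1 h
    rw [abs_of_nonneg (by linarith)]
    exact h1.trans (le_abs_self _)

private theorem flp_ds {L : ℝ} (hL : 1 ≤ L) {N : ℕ} {W : ℤ × ℤ → ℝ} {A B : ℤ → ℝ} (hR : Rf L N W A B)
    (k : Fin 4) (t : ℤ) (p q : ℤ × ℤ) (h : ∀ e ∈ board N, ln k e = t → e = p ∨ e = q) :
    dsum N W k t ≤ 2 * L / N := by
  have hLN : 0 ≤ L / (N : ℝ) := by positivity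
  have h1 : ∑ e ∈ (board N).filter (fun e => ln k e = t), W e ≤
      ((board N).filter (fun e => ln k e = t)).card • (L / N) :=
    sum_le_card_nsmul _ _ _ fun e he => hR.bd.hi e (mem_filter.mp he).1
  have h2 : ((board N).filter (fun e => ln k e = t)).card ≤ 2 := by
    refine le_trans (card_le_card (t := {p, q}) ?_) card_le_two
    intro e he
    rw [mem_filter] at he
    rw [mem_insert, mem_singleton]
    exact h e he.1 he.2
  unfold dsum
  refine h1.trans ?_
  rw [nsmul_eq_mul]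
  calc _ ≤ (2 : ℝ) * (L / N) := mul_le_mul_of_nonneg_right (by exact_mod_cast h2) hLN
    _ = 2 * L / N := by ring

private theorem flp_nn {L : ℝ} {N : ℕ} {W : ℤ × ℤ → ℝ} {A B : ℤ → ℝ} (hR : Rf L N W A B) (k : Fin 4) (t : ℤ) :
    0 ≤ dsum N W k t := by
  unfold dsum
  exact Finset.sum_nonneg fun e _ => hR.adm.nn e

private theorem flp_two {L : ℝ} (hL : 1 ≤ L) {N : ℕ} {W : ℤ × ℤ → ℝ} {A B : ℤ → ℝ} (hR : Rf L N W A B) {t : ℤ}
    (h : t ≤ 0 ∨ 2 * (N : ℤ) - 3 ≤ t) : dsum N W 2 t ≤ 2 * L / N := by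
  rcases h with h | h
  · refine flp_ds hL hR 2 t (0, 0) (0, 0) ?_
    intro e he ht
    obtain ⟨x, y⟩ := e
    rw [Pool.Agent.NQ.mem_board] at he
    rw [Pool.Agent.NQ.ln_two] at ht
    simp only at he ht
    left
    exact Prod.ext (by simp only; omega) (by simp only; omega)
  · refine flp_ds hL hR 2 t ((N : ℤ) - 1, t - (N - 1)) ((N : ℤ) - 2, t - (N - 2)) ?_
    intro e he ht
    obtain ⟨x, y⟩ := e
    rw [Pool.Agent.NQ.mem_board] at he
    rw [Pool.Agent.NQ.ln_two] at ht
    simp only at he ht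
    rcases (show x = (N : ℤ) - 1 ∨ x = (N : ℤ) - 2 by omega) with hx | hx
    · left
      exact Prod.ext (by simp only; omega) (by simp only; omega)
    · right
      exact Prod.ext (by simp only; omega) (by simp only; omega)

private theorem flp_three {L : ℝ} (hL : 1 ≤ L) {N : ℕ} {W : ℤ × ℤ → ℝ} {A B : ℤ → ℝ} (hR : Rf L N W A B) {t : ℤ}
    (h : t ≤ -((N : ℤ) - 2) ∨ (N : ℤ) - 1 ≤ t) : dsum N W 3 t ≤ 2 * L / N := by
  rcases h with h | h
  · refine flp_ds hL hR 3 t (0, 0 - t) (1, 1 - t) ?_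
    intro e he ht
    obtain ⟨x, y⟩ := e
    rw [Pool.Agent.NQ.mem_board] at he
    rw [Pool.Agent.NQ.ln_three] at ht
    simp only at he ht
    rcases (show x = 0 ∨ x = 1 by omega) with hx | hx
    · left
      exact Prod.ext (by simp only; omega) (by simp only; omega)
    · right
      exact Prod.ext (by simp only; omega) (by simp only; omega)
  · refine flp_ds hL hR 3 t ((N : ℤ) - 1, (N : ℤ) - 1 - t) ((N : ℤ) - 1, (N : ℤ) - 1 - t) ?_
    intro e he ht
    obtain ⟨x, y⟩ := e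
    rw [Pool.Agent.NQ.mem_board] at he
    rw [Pool.Agent.NQ.ln_three] at ht
    simp only at he ht
    left
    exact Prod.ext (by simp only; omega) (by simp only; omega)

private theorem flp_pz {N : ℕ} {W : ℤ × ℤ → ℝ} {A B : ℤ → ℝ} (u v s : ℤ) :
    pz N W A B u v ((0 : Fin 4), s) = Real.log (A (s + u)) ∧
    pz N W A B u v ((1 : Fin 4), s) = Real.log (B (s + v)) ∧
    pz N W A B u v ((2 : Fin 4), s) = Real.log (hS N W (s + u + v)) ∧
    pz N W A B u v ((3 : Fin 4), s) = Real.log (hD N W (s + u - v)) := by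
  refine ⟨?_, ?_, ?_, ?_⟩
  · unfold pz
    rw [if_pos rfl]
  · unfold pz
    rw [if_neg (show ¬ (1 : Fin 4) = 0 by decide), if_pos rfl]
  · unfold pz
    rw [if_neg (show ¬ (2 : Fin 4) = 0 by decide), if_neg (show ¬ (2 : Fin 4) = 1 by decide), if_pos rfl]
  · unfold pz
    rw [if_neg (show ¬ (3 : Fin 4) = 0 by decide), if_neg (show ¬ (3 : Fin 4) = 1 by decide),
      if_neg (show ¬ (3 : Fin 4) = 2 by decide)]

theorem lip (L : ℝ) (hL : 1 ≤ L) : ∃ (C : ℝ) (N0 : ℕ), 0 ≤ C ∧ ∀ (N : ℕ) (W : ℤ × ℤ → ℝ) (A B : ℤ → ℝ), N0 ≤ N →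
    Rf L N W A B → Lp C N W A B := by
  obtain ⟨C1, N1, hC1, hst⟩ := f_step L hL
  refine ⟨C1 + 2 * L, max N1 4, by linarith, ?_⟩
  intro N W A B hN hR
  have hN1 : N1 ≤ N := (le_max_left _ _).trans hN
  have hN4 : 4 ≤ N := (le_max_right _ _).trans hN
  have hstep := hst N W A B hN1 hR
  have hNR : (0 : ℝ) < N := by
    have : 0 < N := by omega
    exact_mod_cast this
  have hc1 : C1 / N ≤ (C1 + 2 * L) / N := div_le_div_of_nonneg_right (by linarith) hNR.le
  have hc2 : 2 * L / N ≤ (C1 + 2 * L) / N := div_le_div_of_nonneg_right (by linarith) hNR.le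
  have hcast : ((N - 1 : ℕ) : ℤ) = (N : ℤ) - 1 := by omega
  have hLi : 0 < 1 / L := by positivity
  have hS0 : ∀ s, 0 < hS N W s := fun s => lt_of_lt_of_le hLi (hR.bd.sd s)
  have hD0 : ∀ s, 0 < hD N W s := fun s => lt_of_lt_of_le hLi (hR.bd.dd s)
  have hS1 : ∀ s, hS N W s ≤ 1 := fun s => by
    have := flp_nn hR 2 s
    unfold hS
    linarith
  have hD1 : ∀ s, hD N W s ≤ 1 := fun s => by
    have := flp_nn hR 3 s
    unfold hD
    linarith
  refine ⟨?_, ?_, ?_, ?_⟩
  · intro x hx hx1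
    have hl : (((0 : Fin 4), x) : Li) ∈ full (N - 1) := by
      rw [mem_full]
      refine ⟨(x, 0), ?_, rfl⟩
      rw [Pool.Agent.NQ.mem_board]
      simp only
      omega
    have h1 := (hstep _ hl).1
    rw [(flp_pz 1 0 x).1, (flp_pz 0 0 x).1, add_zero] at h1
    exact h1.trans hc1
  · intro x hx hx1
    have hl : (((1 : Fin 4), x) : Li) ∈ full (N - 1) := by
      rw [mem_full]
      refine ⟨(0, x), ?_, rfl⟩
      rw [Pool.Agent.NQ.mem_board]
      simp only
      omega
    have h1 := (hstep _ hl).2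
    rw [(flp_pz 0 1 x).2.1, (flp_pz 0 0 x).2.1, add_zero] at h1
    exact h1.trans hc1
  · intro s
    by_cases hs : 0 ≤ s ∧ s ≤ 2 * ((N : ℤ) - 2)
    · have hl : (((2 : Fin 4), s) : Li) ∈ full (N - 1) := by
        rw [mem_full]
        refine ⟨(min s (N - 2), s - min s (N - 2)), ?_, ?_⟩
        · rw [Pool.Agent.NQ.mem_board]
          simp only
          omega
        · rw [Pool.Agent.NQ.ln_two]
          simp only
          omega
      have h1 := (hstep _ hl).1
      rw [(flp_pz 1 0 s).2.2.1, (flp_pz 0 0 s).2.2.1, add_zero, add_zero, add_zero] at h1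
      exact ((flp_log (hS0 _) (hS1 _) (hS0 _) (hS1 _)).trans h1).trans hc1
    · have h1 : dsum N W 2 s ≤ 2 * L / N := flp_two hL hR (by omega)
      have h2 : dsum N W 2 (s + 1) ≤ 2 * L / N := flp_two hL hR (by omega)
      have h3 := flp_nn hR 2 s
      have h4 := flp_nn hR 2 (s + 1)
      refine le_trans ?_ hc2
      unfold hS
      rw [abs_le]
      constructor <;> linarith
  · intro s
    by_cases hs : -((N : ℤ) - 2) ≤ s ∧ s ≤ (N : ℤ) - 2
    · have hl : (((3 : Fin 4), s) : Li) ∈ full (N - 1) := by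
        rw [mem_full]
        refine ⟨(max s 0, max s 0 - s), ?_, ?_⟩
        · rw [Pool.Agent.NQ.mem_board]
          simp only
          omega
        · rw [Pool.Agent.NQ.ln_three]
          simp only
          omega
      have h1 := (hstep _ hl).1
      rw [(flp_pz 1 0 s).2.2.2, (flp_pz 0 0 s).2.2.2, sub_zero, add_zero, sub_zero] at h1
      exact ((flp_log (hD0 _) (hD1 _) (hD0 _) (hD1 _)).trans h1).trans hc1
    · have h1 : dsum N W 3 s ≤ 2 * L / N := flp_three hL hR (by omega)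
      have h2 : dsum N W 3 (s + 1) ≤ 2 * L / N := flp_three hL hR (by omega)
      have h3 := flp_nn hR 3 s
      have h4 := flp_nn hR 3 (s + 1)
      refine le_trans ?_ hc2
      unfold hD
      rw [abs_le]
      constructor <;> linarith

end Pool.Agent.NQF
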