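import Pool.Agent.NQF.FDefs
import Pool.Agent.NQL.ABas

/-! # NQF-FMon: two nearly stationary potentials are close in the quadratic mean (up to the gauge) -/

set_option autoImplicit false

open Finset

namespace Pool.Agent.NQF

open Pool.Agent.NQ (board dsum F Ent Dg phi ln Q Qset QS NonAtt bern)
open Pool.Agent.NQR (Adm Opt Bd Rf hS hD hh InR)
open Pool.Agent.NQL

private theorem fm_exp {M t : ℝ} (ht : |t| ≤ M) : Real.exp (-M) * t ^ 2 ≤ (Real.exp t - 1) * t := by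
  have hM : 0 ≤ M := (abs_nonneg t).trans ht
  have h1 := abs_le.1 ht
  rcases le_total 0 t with h | h
  · have h2 : t + 1 ≤ Real.exp t := Real.add_one_le_exp t
    have h3 : Real.exp (-M) ≤ 1 := Real.exp_le_one_iff.2 (by linarith)
    have h4 := mul_le_mul_of_nonneg_right h3 (sq_nonneg t)
    have h5 : 0 ≤ (Real.exp t - 1 - t) * t := mul_nonneg (by linarith) h
    linarith [h4, h5, show (Real.exp t - 1 - t) * t = (Real.exp t - 1) * t - t ^ 2 by ring]
  · have h2 : -t + 1 ≤ Real.exp (-t) := Real.add_one_le_exp (-t)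
    have h3 : Real.exp t * Real.exp (-t) = 1 := by
      rw [← Real.exp_add, add_neg_cancel, Real.exp_zero]
    have h4 : Real.exp t * (-t + 1) ≤ 1 := by
      have h9 := mul_le_mul_of_nonneg_left h2 (Real.exp_pos t).le
      rwa [h3] at h9
    have h5 : Real.exp (-M) ≤ Real.exp t := Real.exp_le_exp.2 h1.1
    have h6 := mul_le_mul_of_nonneg_right h5 (by linarith : (0 : ℝ) ≤ -t)
    have h7 : Real.exp (-M) * (-t) ≤ 1 - Real.exp t := by
      linarith [h4, h6, show Real.exp t * (-t + 1) = Real.exp t * (-t) + Real.exp t by ring]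
    have h8 := mul_le_mul_of_nonneg_right h7 (by linarith : (0 : ℝ) ≤ -t)
    linarith [h8, show Real.exp (-M) * (-t) * (-t) = Real.exp (-M) * t ^ 2 by ring,
      show (1 - Real.exp t) * (-t) = (Real.exp t - 1) * t by ring]

private theorem fm_g (N : ℕ) (I : Finset Li) (w : ℤ × ℤ → ℝ) (c δ : Li → ℝ) (l : Li) :
    gr N I w c δ l - gr N I w c 0 l =
      ∑ e ∈ Sl N I l, w e * (Real.exp (ds δ e) - 1) + c l * (Real.exp (δ l) - 1) := by
  have h0 : ∀ e, ds (0 : Li → ℝ) e = 0 := fun e => by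
    unfold ds
    exact sum_eq_zero fun k _ => rfl
  have h1 : ∑ e ∈ Sl N I l, w e * (Real.exp (ds δ e) - 1) =
      ∑ e ∈ Sl N I l, w e * Real.exp (ds δ e) - ∑ e ∈ Sl N I l, w e * Real.exp (ds (0 : Li → ℝ) e) := by
    rw [← sum_sub_distrib]
    refine sum_congr rfl fun e _ => ?_
    rw [h0, Real.exp_zero]
    ring
  unfold gr
  rw [h1, Pi.zero_apply, Real.exp_zero]
  ring

private theorem fm_a (N : ℕ) (I : Finset Li) (w : ℤ × ℤ → ℝ) (c δ : Li → ℝ) :
    ∑ l ∈ I, δ l * (gr N I w c δ l - gr N I w c 0 l) =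
      ∑ e ∈ Sq N I, w e * ((Real.exp (ds δ e) - 1) * ds δ e) +
        ∑ l ∈ I, c l * ((Real.exp (δ l) - 1) * δ l) := by
  have h1 : ∀ l ∈ I, δ l * (gr N I w c δ l - gr N I w c 0 l) =
      ∑ e ∈ Sl N I l, δ l * (w e * (Real.exp (ds δ e) - 1)) + c l * ((Real.exp (δ l) - 1) * δ l) := by
    intro l _
    rw [fm_g, mul_add, mul_sum]
    ring
  rw [sum_congr rfl h1, sum_add_distrib, line_sum (fun e l => δ l * (w e * (Real.exp (ds δ e) - 1)))]
  refine congrArg (· + _) (sum_congr rfl fun e _ => ?_)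
  rw [← sum_mul]
  show ds δ e * _ = _
  ring

private theorem fm_c (N : ℕ) (I : Finset Li) (w : ℤ × ℤ → ℝ) (c δ : Li → ℝ) (hrc : ∀ l ∈ I, rc l → c l = 0) :
    ∑ l ∈ I, ga l * (gr N I w c δ l - gr N I w c 0 l) = 0 := by
  have h1 : ∀ l ∈ I, ga l * (gr N I w c δ l - gr N I w c 0 l) =
      ga l * ∑ e ∈ Sl N I l, w e * (Real.exp (ds δ e) - 1) := by
    intro l hl
    rw [fm_g, mul_add]
    have h2 : ga l * (c l * (Real.exp (δ l) - 1)) = 0 := by
      by_cases h : rc l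
      · rw [hrc l hl h]
        ring
      · have h3 : ga l = 0 := by
          unfold rc at h
          unfold ga
          have h4 : l.1 ≠ 0 := by
            intro h5
            apply h
            rw [h5]
            decide
          have h6 : l.1 ≠ 1 := by
            intro h5
            apply h
            rw [h5]
            decide
          rw [if_neg h4, if_neg h6]
        rw [h3, zero_mul]
    rw [h2, add_zero]
  rw [sum_congr rfl h1]
  exact ga_line _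

private theorem fm_ds (δ : Li → ℝ) (s : ℝ) (e : ℤ × ℤ) : ds (fun l => δ l - s * ga l) e = ds δ e := by
  have h1 := ds_ga e
  unfold ds at h1 ⊢
  rw [sum_sub_distrib, ← mul_sum, h1, mul_zero, sub_zero]

private theorem fm_ga0 {l : Li} (h : ¬ rc l) : ga l = 0 := by
  unfold rc at h
  unfold ga
  have h4 : l.1 ≠ 0 := by
    intro h5
    apply h
    rw [h5]
    decide
  have h6 : l.1 ≠ 1 := by
    intro h5
    apply h
    rw [h5]
    decide
  rw [if_neg h4, if_neg h6]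

private theorem fm_Q (N : ℕ) (I : Finset Li) (w : ℤ × ℤ → ℝ) (c δ : Li → ℝ) (s : ℝ)
    (hrc : ∀ l ∈ I, rc l → c l = 0) : Qf N I w c (fun l => δ l - s * ga l) = Qf N I w c δ := by
  unfold Qf
  have h1 : ∀ e ∈ Sq N I, w e * ds (fun l => δ l - s * ga l) e ^ 2 = w e * ds δ e ^ 2 := fun e _ => by
    rw [fm_ds]
  have h2 : ∀ l ∈ I, c l * (δ l - s * ga l) ^ 2 = c l * δ l ^ 2 := by
    intro l hl
    by_cases h : rc l
    · rw [hrc l hl h, zero_mul, zero_mul]
    · rw [fm_ga0 h, mul_zero, sub_zero]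
  rw [sum_congr rfl h1, sum_congr rfl h2]

private theorem fm_real {E2 E lam S T B : ℝ} (hE : 0 < E) (hE2 : E2 = E ^ 2) (hlam : 0 < lam) (hS : 0 ≤ S)
    (hB : 0 ≤ B) (h1 : E * (lam * S) ≤ T) (h2 : T ^ 2 ≤ S * B) : lam ^ 2 * E2 * S ≤ B := by
  rcases eq_or_lt_of_le hS with h | h
  · rw [← h, mul_zero]
    exact hB
  · have h3 : 0 ≤ E * (lam * S) := mul_nonneg hE.le (mul_nonneg hlam.le hS)
    have h4 : (E * (lam * S)) ^ 2 ≤ T ^ 2 := pow_le_pow_left₀ h3 h1 2
    have h5 : lam ^ 2 * E2 * S * S ≤ B * S := by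
      rw [hE2]
      calc lam ^ 2 * E ^ 2 * S * S = (E * (lam * S)) ^ 2 := by ring
        _ ≤ S * B := h4.trans h2
        _ = B * S := by ring
    exact le_of_mul_le_mul_right h5 h

theorem f_mono {N m : ℕ} {I : Finset Li} {w : ℤ × ℤ → ℝ} {c δ : Li → ℝ} {M b lam : ℝ} (hm : 1 ≤ m) (hv : Vd N m I)
    (hw : ∀ e ∈ Sq N I, 0 ≤ w e) (hc : ∀ l ∈ I, 0 ≤ c l) (hrc : ∀ l ∈ I, rc l → c l = 0) (hlam : 0 < lam)
    (hco : Co N m I w c lam) (hb0 : 0 ≤ b) (hM : ∀ e ∈ Sq N I, |ds δ e| ≤ M) (hM' : ∀ l ∈ I, ¬ rc l → |δ l| ≤ M)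
    (hb : ∀ l ∈ I, |gr N I w c δ l - gr N I w c 0 l| ≤ b) :
    lam ^ 2 * Real.exp (-(2 * M)) * ∑ l ∈ I, (δ l - gs I δ / (2 * m) * ga l) ^ 2 ≤ b ^ 2 * I.card := by
  have hm0 : (0 : ℝ) < m := by exact_mod_cast hm
  obtain ⟨s, hs⟩ : ∃ s : ℝ, s = gs I δ / (2 * m) := ⟨_, rfl⟩
  rw [← hs]
  have hgs : gs I (fun l => δ l - s * ga l) = 0 := by
    unfold gs
    have h1 : ∀ l ∈ I, ga l * (δ l - s * ga l) = ga l * δ l - s * ga l ^ 2 := fun l _ => by ring
    rw [sum_congr rfl h1, sum_sub_distrib, ← mul_sum, (ga_sum hv).1]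
    have h2 : ∑ l ∈ I, ga l * δ l = gs I δ := rfl
    rw [h2, hs]
    field_simp
    ring
  have hc1 := hco (fun l => δ l - s * ga l)
  rw [hgs, fm_Q N I w c δ s hrc, zero_pow two_ne_zero, zero_div, add_zero] at hc1
  have hpos := Real.exp_pos (-M)
  have h1 : Real.exp (-M) * Qf N I w c δ ≤ ∑ l ∈ I, δ l * (gr N I w c δ l - gr N I w c 0 l) := by
    rw [fm_a]
    unfold Qf
    rw [mul_add, mul_sum, mul_sum]
    refine add_le_add (sum_le_sum fun e he => ?_) (sum_le_sum fun l hl => ?_)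
    · have h2 := mul_le_mul_of_nonneg_left (fm_exp (hM e he)) (hw e he)
      calc Real.exp (-M) * (w e * ds δ e ^ 2) = w e * (Real.exp (-M) * ds δ e ^ 2) := by ring
        _ ≤ _ := h2
    · by_cases h : rc l
      · rw [hrc l hl h]
        simp
      · have h2 := mul_le_mul_of_nonneg_left (fm_exp (hM' l hl h)) (hc l hl)
        calc Real.exp (-M) * (c l * δ l ^ 2) = c l * (Real.exp (-M) * δ l ^ 2) := by ring
          _ ≤ _ := h2
  have h2 : ∑ l ∈ I, (δ l - s * ga l) * (gr N I w c δ l - gr N I w c 0 l) =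
      ∑ l ∈ I, δ l * (gr N I w c δ l - gr N I w c 0 l) := by
    have h3 : ∀ l ∈ I, (δ l - s * ga l) * (gr N I w c δ l - gr N I w c 0 l) =
        δ l * (gr N I w c δ l - gr N I w c 0 l) - s * (ga l * (gr N I w c δ l - gr N I w c 0 l)) :=
      fun l _ => by ring
    rw [sum_congr rfl h3, sum_sub_distrib, ← mul_sum, fm_c N I w c δ hrc, mul_zero, sub_zero]
  have h3 := sum_mul_sq_le_sq_mul_sq I (fun l => δ l - s * ga l) (fun l => gr N I w c δ l - gr N I w c 0 l)
  have h4 : ∑ l ∈ I, (gr N I w c δ l - gr N I w c 0 l) ^ 2 ≤ b ^ 2 * I.card := by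
    calc ∑ l ∈ I, (gr N I w c δ l - gr N I w c 0 l) ^ 2 ≤ ∑ l ∈ I, b ^ 2 :=
          sum_le_sum fun l hl => by
            rw [← sq_abs]
            exact pow_le_pow_left₀ (abs_nonneg _) (hb l hl) 2
      _ = b ^ 2 * I.card := by rw [sum_const, nsmul_eq_mul]; ring
  have hS : 0 ≤ ∑ l ∈ I, (δ l - s * ga l) ^ 2 := sum_nonneg fun l _ => sq_nonneg _
  have hB : 0 ≤ b ^ 2 * (I.card : ℝ) := by positivity
  refine fm_real (E := Real.exp (-M)) (T := ∑ l ∈ I, (δ l - s * ga l) * (gr N I w c δ l - gr N I w c 0 l)) hpos ?_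
    hlam hS hB ?_ ?_
  · rw [pow_two, ← Real.exp_add]
    congr 1
    ring
  · rw [h2]
    exact (mul_le_mul_of_nonneg_left hc1 hpos.le).trans h1
  · exact h3.trans (mul_le_mul_of_nonneg_left h4 hS)

end Pool.Agent.NQF
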