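import Pool.Agent.NQF.FDefs
import Pool.Agent.NQL.ABas

/-!
# NQF-FSup: from the quadratic mean to the sup norm

PLAN. Each `|δ l'| ≤ √(C2/m) ≤ 1/8` for `l' ∈ I` and `m ≥ m0`. Fix `l ∈ I`; for `e ∈ Sl N I l` put
`r e := ∑_{k ≠ l.1} δ (k, ln k e)`, so `ds δ e = δ l + r e` (`ln l.1 e = l.2`), `|r e| ≤ 3/8`, `|exp (r e) - 1| ≤ 2 |r e|`.
`T := ∑_{e on l} w e exp (r e) + c l`, `T0 := ∑_{e on l} w e + c l ∈ [1/2, 2]`. Then `exp (δ l) T - T0 = gr δ l - gr 0 l` is at most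
`b/m` in absolute value, and `|T - T0| ≤ 2 ∑_{e on l} w e |r e| ≤ 2 ∑_{k ≠ l.1} ∑_{e on l} |w e δ (k, ln k e)| ≤ 6 √(∑_{e on l} w²) √(∑ δ²)`
(`cross`) `≤ 6 √(m (K/m)²) √(C2/m) = 6 K √C2 / m` (`Sl_card`). So `|exp (δ l) - 1| T ≤ b/m + 6 K √C2/m`, `T ≥ 1/4` for `m ≥ m0`,
`|exp (δ l) - 1| ≤ 4 (b + 6 K √C2)/m`, and `|δ l| ≤ 2 |exp (δ l) - 1|` as `|δ l| ≤ 1/8`. `C3 = 8 (b + 6 K √C2)`.
-/

set_option autoImplicit false

open Finset

namespace Pool.Agent.NQF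

open Pool.Agent.NQ (board dsum F Ent Dg phi ln Q Qset QS NonAtt bern)
open Pool.Agent.NQR (Adm Opt Bd Rf hS hD hh InR)
open Pool.Agent.NQL

theorem f_sup {K C2 b : ℝ} (hK : 1 ≤ K) (hC : 0 ≤ C2) (hb : 0 ≤ b) : ∃ (C3 : ℝ) (m0 : ℕ), 0 ≤ C3 ∧
    ∀ (N m : ℕ) (I : Finset Li) (w : ℤ × ℤ → ℝ) (c δ : Li → ℝ), m0 ≤ m → Vd N m I →
      (∀ e ∈ Sq N I, 0 ≤ w e ∧ w e ≤ K / m) →
      (∀ l ∈ I, 1 / 2 ≤ ∑ e ∈ Sl N I l, w e + c l ∧ ∑ e ∈ Sl N I l, w e + c l ≤ 2) →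
      ∑ l ∈ I, δ l ^ 2 ≤ C2 / m → (∀ l ∈ I, |gr N I w c δ l - gr N I w c 0 l| ≤ b / m) →
      ∀ l ∈ I, |δ l| ≤ C3 / m := by
  refine ⟨8 * (b + 6 * K * Real.sqrt C2), max (⌈64 * C2⌉₊ + 1) ⌈24 * K * Real.sqrt C2⌉₊, by positivity, ?_⟩
  intro N m I w c δ hm hv hw hT hδ hgr l hl
  have hm1 : ⌈64 * C2⌉₊ + 1 ≤ m := (le_max_left _ _).trans hm
  have hm2 : ⌈24 * K * Real.sqrt C2⌉₊ ≤ m := (le_max_right _ _).trans hm
  have hmR1 : (1 : ℝ) ≤ m := by exact_mod_cast (by omega : 1 ≤ m)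
  have hmp : (0 : ℝ) < m := by linarith
  have hmC : 64 * C2 ≤ m := (Nat.le_ceil _).trans (by exact_mod_cast (by omega : ⌈64 * C2⌉₊ ≤ m))
  have hmK : 24 * K * Real.sqrt C2 ≤ m := (Nat.le_ceil _).trans (by exact_mod_cast hm2)
  have hC2m : C2 / m ≤ (1 / 8) ^ 2 := by
    rw [div_le_iff₀ hmp]
    linarith
  have hsm : ∀ l' ∈ I, |δ l'| ≤ 1 / 8 := by
    intro l' hl'
    have h1 : δ l' ^ 2 ≤ ∑ l ∈ I, δ l ^ 2 :=
      Finset.single_le_sum (f := fun l => δ l ^ 2) (fun i _ => sq_nonneg _) hl'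
    exact abs_le_of_sq_le_sq ((h1.trans hδ).trans hC2m) (by norm_num)
  obtain ⟨r, hr⟩ : ∃ r : ℤ × ℤ → ℝ, r = fun e => ∑ k ∈ Finset.univ.erase l.1, δ (k, ln k e) := ⟨_, rfl⟩
  have hds : ∀ e ∈ Sl N I l, ds δ e = δ l + r e := by
    intro e he
    have h1 : ln l.1 e = l.2 := (mem_Sl.1 he).2
    have h2 : ((l.1, ln l.1 e) : Li) = l := Prod.ext rfl h1
    unfold ds
    rw [hr, ← Finset.add_sum_erase Finset.univ (fun k => δ (k, ln k e)) (Finset.mem_univ l.1), h2]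
  have hr1 : ∀ e ∈ Sl N I l, |r e| ≤ 1 := by
    intro e he
    rw [hr]
    have h1 : ∑ k ∈ Finset.univ.erase l.1, |δ (k, ln k e)| ≤ ∑ k ∈ (Finset.univ.erase l.1 : Finset (Fin 4)), (1 / 8 : ℝ) :=
      Finset.sum_le_sum fun k _ => hsm _ ((mem_Sq.1 (mem_Sl.1 he).1).2 k)
    rw [Finset.sum_const, Finset.card_erase_of_mem (Finset.mem_univ _), Finset.card_univ, Fintype.card_fin,
      nsmul_eq_mul] at h1
    refine (Finset.abs_sum_le_sum_abs _ _).trans (h1.trans ?_)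
    norm_num
  have hw0 : ∀ e ∈ Sl N I l, 0 ≤ w e ∧ w e ≤ K / m := fun e he => hw e (mem_Sl.1 he).1
  set T : ℝ := ∑ e ∈ Sl N I l, w e * Real.exp (r e) + c l with hTd
  set T0 : ℝ := ∑ e ∈ Sl N I l, w e + c l with hT0d
  have hg1 : gr N I w c δ l = Real.exp (δ l) * T - 1 := by
    unfold gr
    rw [hTd, mul_add, Finset.mul_sum]
    have h1 : ∑ e ∈ Sl N I l, w e * Real.exp (ds δ e) = ∑ e ∈ Sl N I l, Real.exp (δ l) * (w e * Real.exp (r e)) := by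
      refine Finset.sum_congr rfl fun e he => ?_
      rw [hds e he, Real.exp_add]
      ring
    rw [h1]
    ring
  have hg0 : gr N I w c 0 l = T0 - 1 := by
    unfold gr
    have h1 : ∀ e : ℤ × ℤ, ds (0 : Li → ℝ) e = 0 := by
      intro e
      unfold ds
      simp
    simp only [h1, Pi.zero_apply, Real.exp_zero, mul_one]
    rw [hT0d]
  have hsw : ∑ e ∈ Sl N I l, w e ^ 2 ≤ K ^ 2 / m := by
    have h1 : ∑ e ∈ Sl N I l, w e ^ 2 ≤ ∑ e ∈ Sl N I l, (K / m) ^ 2 :=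
      Finset.sum_le_sum fun e he => pow_le_pow_left₀ (hw0 e he).1 (hw0 e he).2 2
    rw [Finset.sum_const, nsmul_eq_mul] at h1
    have h2 : ((Sl N I l).card : ℝ) ≤ m := by exact_mod_cast Sl_card hv hl
    have h3 : ((Sl N I l).card : ℝ) * (K / m) ^ 2 ≤ m * (K / m) ^ 2 :=
      mul_le_mul_of_nonneg_right h2 (sq_nonneg _)
    have h4 : (m : ℝ) * (K / m) ^ 2 = K ^ 2 / m := by
      field_simp
    linarith
  have hTT : |T - T0| ≤ 6 * K * Real.sqrt C2 / m := by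
    have h1 : T - T0 = ∑ e ∈ Sl N I l, w e * (Real.exp (r e) - 1) := by
      rw [hTd, hT0d, add_sub_add_right_eq_sub, ← Finset.sum_sub_distrib]
      exact Finset.sum_congr rfl fun e _ => by ring
    have h2 : ∀ e ∈ Sl N I l, |w e * (Real.exp (r e) - 1)| ≤
        2 * ∑ k ∈ Finset.univ.erase l.1, |w e * δ (k, ln k e)| := by
      intro e he
      rw [abs_mul, abs_of_nonneg (hw0 e he).1]
      have h3 := Real.abs_exp_sub_one_le (hr1 e he)
      have h4 : |r e| ≤ ∑ k ∈ Finset.univ.erase l.1, |δ (k, ln k e)| := by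
        rw [hr]
        exact Finset.abs_sum_le_sum_abs _ _
      have h5 : ∑ k ∈ Finset.univ.erase l.1, |w e * δ (k, ln k e)| =
          w e * ∑ k ∈ Finset.univ.erase l.1, |δ (k, ln k e)| := by
        rw [Finset.mul_sum]
        refine Finset.sum_congr rfl fun k _ => ?_
        rw [abs_mul, abs_of_nonneg (hw0 e he).1]
      rw [h5]
      calc w e * |Real.exp (r e) - 1| ≤ w e * (2 * ∑ k ∈ Finset.univ.erase l.1, |δ (k, ln k e)|) :=
            mul_le_mul_of_nonneg_left (by linarith) (hw0 e he).1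
        _ = _ := by ring
    have h3 : |T - T0| ≤ 2 * ∑ k ∈ Finset.univ.erase l.1, ∑ e ∈ Sl N I l, |w e * δ (k, ln k e)| := by
      rw [h1, Finset.sum_comm, Finset.mul_sum]
      exact (Finset.abs_sum_le_sum_abs _ _).trans (Finset.sum_le_sum h2)
    have h4 : ∀ k ∈ (Finset.univ.erase l.1 : Finset (Fin 4)), ∑ e ∈ Sl N I l, |w e * δ (k, ln k e)| ≤
        K * Real.sqrt C2 / m := by
      intro k hk
      refine (cross l (Finset.ne_of_mem_erase hk) w δ).trans ?_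
      have h5 : Real.sqrt (∑ e ∈ Sl N I l, w e ^ 2) * Real.sqrt (∑ l' ∈ I, δ l' ^ 2) ≤
          Real.sqrt (K ^ 2 / m) * Real.sqrt (C2 / m) :=
        mul_le_mul (Real.sqrt_le_sqrt hsw) (Real.sqrt_le_sqrt hδ) (Real.sqrt_nonneg _) (Real.sqrt_nonneg _)
      refine h5.trans (le_of_eq ?_)
      rw [← Real.sqrt_mul (by positivity)]
      have h6 : K ^ 2 / (m : ℝ) * (C2 / m) = (K * Real.sqrt C2 / m) ^ 2 := by
        rw [div_pow, mul_pow, Real.sq_sqrt hC]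
        field_simp
      rw [h6]
      exact Real.sqrt_sq (by positivity)
    have h5 := Finset.sum_le_sum h4
    rw [Finset.sum_const, Finset.card_erase_of_mem (Finset.mem_univ _), Finset.card_univ, Fintype.card_fin,
      nsmul_eq_mul] at h5
    refine h3.trans ?_
    have h6 : 6 * K * Real.sqrt C2 / (m : ℝ) = 2 * (((4 - 1 : ℕ) : ℝ) * (K * Real.sqrt C2 / m)) := by
      norm_num
      ring
    rw [h6]
    linarith
  have hTT4 : 6 * K * Real.sqrt C2 / (m : ℝ) ≤ 1 / 4 := by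
    rw [div_le_iff₀ hmp]
    linarith
  have hTl : 1 / 4 ≤ T := by
    have h1 := (abs_le.1 (hTT.trans hTT4)).1
    have h2 := (hT l hl).1
    linarith
  have hg : |Real.exp (δ l) * T - T0| ≤ b / m := by
    have h1 := hgr l hl
    rw [hg1, hg0] at h1
    have h2 : Real.exp (δ l) * T - 1 - (T0 - 1) = Real.exp (δ l) * T - T0 := by ring
    rwa [h2] at h1
  have hex : |Real.exp (δ l) - 1| ≤ 4 * (b + 6 * K * Real.sqrt C2) / m := by
    have h1 : (Real.exp (δ l) - 1) * T = (Real.exp (δ l) * T - T0) - (T - T0) := by ring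
    have h2 : |Real.exp (δ l) - 1| * T ≤ b / m + 6 * K * Real.sqrt C2 / m := by
      have h3 : |Real.exp (δ l) - 1| * T = |(Real.exp (δ l) - 1) * T| := by
        rw [abs_mul, abs_of_nonneg (show (0 : ℝ) ≤ T by linarith)]
      rw [h3, h1]
      have h4 := abs_sub (Real.exp (δ l) * T - T0) (T - T0)
      linarith
    have h3 : |Real.exp (δ l) - 1| * (1 / 4) ≤ |Real.exp (δ l) - 1| * T :=
      mul_le_mul_of_nonneg_left hTl (abs_nonneg _)
    have h4 : 4 * (b + 6 * K * Real.sqrt C2) / (m : ℝ) = 4 * (b / m + 6 * K * Real.sqrt C2 / m) := by ring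
    rw [h4]
    linarith
  have hfin : |δ l| ≤ 2 * |Real.exp (δ l) - 1| := by
    have h1 := hsm l hl
    have h2 := Real.abs_exp_sub_one_sub_id_le (show |δ l| ≤ 1 by linarith)
    have h3 : δ l ^ 2 ≤ |δ l| * (1 / 8) := by
      rw [← sq_abs, pow_two]
      exact mul_le_mul_of_nonneg_left h1 (abs_nonneg _)
    have h4 : |δ l| ≤ |Real.exp (δ l) - 1| + |Real.exp (δ l) - 1 - δ l| := by
      have h5 := abs_sub (Real.exp (δ l) - 1) (Real.exp (δ l) - 1 - δ l)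
      have h6 : Real.exp (δ l) - 1 - (Real.exp (δ l) - 1 - δ l) = δ l := by ring
      rwa [h6] at h5
    have h7 := abs_nonneg (δ l)
    linarith
  refine hfin.trans ?_
  have h8 : 8 * (b + 6 * K * Real.sqrt C2) / (m : ℝ) = 2 * (4 * (b + 6 * K * Real.sqrt C2) / m) := by ring
  rw [h8]
  linarith

end Pool.Agent.NQF
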