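import Pool.Agent.NQF.FMon
import Pool.Agent.NQF.FSup

/-! # NQF-FNear: two nearly stationary potentials are close, up to the gauge -/

set_option autoImplicit false

open Finset

namespace Pool.Agent.NQF

open Pool.Agent.NQ (board dsum F Ent Dg phi ln Q Qset QS NonAtt bern)
open Pool.Agent.NQR (Adm Opt Bd Rf hS hD hh InR)
open Pool.Agent.NQL

private theorem fn_ds (δ : Li → ℝ) (s : ℝ) (e : ℤ × ℤ) : ds (fun l => δ l - s * ga l) e = ds δ e := by
  have h1 := ds_ga e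
  unfold ds at h1 ⊢
  rw [sum_sub_distrib, ← mul_sum, h1, mul_zero, sub_zero]

private theorem fn_ga0 {l : Li} (h : ¬ rc l) : ga l = 0 := by
  unfold rc at h
  unfold ga
  have h4 : l.1 ≠ 0 := by
    intro h5
    apply h
    rw [h5]
    decide
  have h6 : l.1 ≠ 1 := by
    intro h5
    apply h
    rw [h5]
    decide
  rw [if_neg h4, if_neg h6]

private theorem fn_gr (N : ℕ) (I : Finset Li) (w : ℤ × ℤ → ℝ) (c δ : Li → ℝ) (s : ℝ)
    (hrc : ∀ l ∈ I, rc l → c l = 0) {l : Li} (hl : l ∈ I) :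
    gr N I w c (fun l => δ l - s * ga l) l = gr N I w c δ l := by
  unfold gr
  have h1 : ∀ e ∈ Sl N I l, w e * Real.exp (ds (fun l => δ l - s * ga l) e) = w e * Real.exp (ds δ e) :=
    fun e _ => by rw [fn_ds]
  have h2 : c l * Real.exp (δ l - s * ga l) = c l * Real.exp (δ l) := by
    by_cases h : rc l
    · rw [hrc l hl h, zero_mul, zero_mul]
    · rw [fn_ga0 h, mul_zero, sub_zero]
  rw [sum_congr rfl h1]
  show _ + c l * Real.exp (δ l - s * ga l) - 1 = _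
  rw [h2]

private theorem fn_card {N m : ℕ} {I : Finset Li} (hN : N ≤ 2 * m) (hv : Vd N m I) : I.card ≤ 8 * m := by
  have h1 : I.card = ∑ k : Fin 4, (I.filter (fun l => l.1 = k)).card :=
    card_eq_sum_card_fiberwise (f := fun l : Li => l.1) (t := (Finset.univ : Finset (Fin 4)))
      (fun l _ => by simp)
  have e0 := hv.crc 0 (by decide)
  have e1 := hv.crc 1 (by decide)
  have e2 := hv.cdg 2 (by decide)
  have e3 := hv.cdg 3 (by decide)
  rw [Fin.sum_univ_four] at h1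
  omega

theorem f_near {K M b lam : ℝ} (hK : 1 ≤ K) (hM : 0 ≤ M) (hb : 0 ≤ b) (hlam : 0 < lam) :
    ∃ (C3 : ℝ) (m0 : ℕ), 0 ≤ C3 ∧ ∀ (N m : ℕ) (I : Finset Li) (w : ℤ × ℤ → ℝ) (c δ : Li → ℝ), m0 ≤ m → N ≤ 2 * m →
      Vd N m I → (∀ e ∈ Sq N I, 0 ≤ w e ∧ w e ≤ K / m) → (∀ l ∈ I, 0 ≤ c l) → (∀ l ∈ I, rc l → c l = 0) →
      Co N m I w c lam →
      (∀ l ∈ I, 1 / 2 ≤ ∑ e ∈ Sl N I l, w e + c l ∧ ∑ e ∈ Sl N I l, w e + c l ≤ 2) →
      (∀ e ∈ Sq N I, |ds δ e| ≤ M) → (∀ l ∈ I, ¬ rc l → |δ l| ≤ M) →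
      (∀ l ∈ I, |gr N I w c δ l - gr N I w c 0 l| ≤ b / m) →
      ∃ s : ℝ, ∀ l ∈ I, |δ l - s * ga l| ≤ C3 / m := by
  have hE := Real.exp_pos (2 * M)
  have hC2 : 0 ≤ 8 * b ^ 2 * Real.exp (2 * M) / lam ^ 2 := by positivity
  obtain ⟨C3, m1, hC3, hsup⟩ := f_sup hK hC2 hb
  refine ⟨C3, max m1 1, hC3, ?_⟩
  intro N m I w c δ hm hN hv hw hc hrc hco hT hM1 hM2 hgr
  have hm1 : m1 ≤ m := (le_max_left _ _).trans hm
  have hm2 : 1 ≤ m := (le_max_right _ _).trans hm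
  have hm0 : (0 : ℝ) < m := by exact_mod_cast hm2
  have h1 := f_mono hm2 hv (fun e he => (hw e he).1) hc hrc hlam hco (div_nonneg hb hm0.le) hM1 hM2 hgr
  have hcard : (I.card : ℝ) ≤ 8 * m := by exact_mod_cast fn_card hN hv
  have h2 : ∑ l ∈ I, (δ l - gs I δ / (2 * m) * ga l) ^ 2 ≤ 8 * b ^ 2 * Real.exp (2 * M) / lam ^ 2 / m := by
    have h3 : (b / m) ^ 2 * (I.card : ℝ) ≤ 8 * b ^ 2 / m := by
      calc (b / m) ^ 2 * (I.card : ℝ) ≤ (b / m) ^ 2 * (8 * m) := mul_le_mul_of_nonneg_left hcard (sq_nonneg _)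
        _ = 8 * b ^ 2 / m := by
          field_simp
    have h4 := h1.trans h3
    have h5 : Real.exp (-(2 * M)) * Real.exp (2 * M) = 1 := by
      rw [← Real.exp_add, neg_add_cancel, Real.exp_zero]
    have h6 : 0 < lam ^ 2 := by positivity
    have h7 : 0 < lam ^ 2 * Real.exp (-(2 * M)) := mul_pos h6 (Real.exp_pos _)
    refine le_of_mul_le_mul_left (h4.trans (le_of_eq ?_)) h7
    calc 8 * b ^ 2 / (m : ℝ) = 8 * b ^ 2 / m * (Real.exp (-(2 * M)) * Real.exp (2 * M)) * (lam ^ 2 / lam ^ 2) := by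
          rw [h5, div_self h6.ne']
          ring
      _ = lam ^ 2 * Real.exp (-(2 * M)) * (8 * b ^ 2 * Real.exp (2 * M) / lam ^ 2 / m) := by
          ring
  refine ⟨gs I δ / (2 * m), ?_⟩
  refine hsup N m I w c (fun l => δ l - gs I δ / (2 * m) * ga l) hm1 hv hw hT h2 ?_
  intro l hl
  rw [fn_gr N I w c δ _ hrc hl]
  exact hgr l hl

end Pool.Agent.NQF
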