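import Pool.Agent.NQF.FPz
import Pool.Agent.NQF.FGr
import Pool.Agent.NQF.FNear
import Pool.Agent.NQF.FCo
import Pool.Agent.NQL.ACvx

/-!
# NQF-FStep: one translation changes the potentials by `O(1/N)`
-/

set_option autoImplicit false

open Finset

namespace Pool.Agent.NQF

open Pool.Agent.NQ (board dsum F Ent Dg phi ln Q Qset QS NonAtt bern)
open Pool.Agent.NQR (Adm Opt Bd Rf hS hD hh InR)
open Pool.Agent.NQL

private theorem fst_near (L : ℝ) (hL : 1 ≤ L) : ∃ (C : ℝ) (N0 : ℕ), 0 ≤ C ∧ 2 ≤ N0 ∧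
    ∀ (N : ℕ) (W : ℤ × ℤ → ℝ) (A B : ℤ → ℝ), N0 ≤ N → Rf L N W A B →
      ∀ u v : ℤ, (u = 0 ∨ u = 1) → (v = 0 ∨ v = 1) →
        ∃ s : ℝ, ∀ l ∈ full (N - 1),
          |pz N W A B u v l - pz N W A B 0 0 l - s * ga l| ≤ C / N := by
  obtain ⟨lam, N1, hlam, hlam1, hN1, hco⟩ := f_co L hL
  obtain ⟨C3, m0, hC3, hnear⟩ := f_near (K := L) (M := 2 * L) (b := 4 * L) (lam := lam) hL
    (by linarith) (by linarith) hlam
  refine ⟨2 * C3, max N1 (max (m0 + 1) (⌈4 * L⌉₊)), by positivity, ?_, ?_⟩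
  · exact le_max_of_le_left hN1
  intro N W A B hN hR u v hu hv
  have hN1' : N1 ≤ N := (le_max_left _ _).trans hN
  have hm0 : m0 + 1 ≤ N := ((le_max_left _ _).trans (le_max_right _ _)).trans hN
  have hL4 : 4 * L ≤ N := by
    have h1 : ⌈4 * L⌉₊ ≤ N := ((le_max_right _ _).trans (le_max_right _ _)).trans hN
    exact (Nat.le_ceil _).trans (by exact_mod_cast h1)
  have hN2 : 2 ≤ N := hN1.trans hN1'
  obtain ⟨m, rfl⟩ : ∃ m, N = m + 1 := ⟨N - 1, by omega⟩
  have hm1 : 1 ≤ m := by omega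
  rw [Nat.add_sub_cancel]
  have hmR : (1 : ℝ) ≤ m := by exact_mod_cast hm1
  have hL0 : 0 < L := by linarith
  have hNR : (0 : ℝ) < ((m + 1 : ℕ) : ℝ) := by positivity
  have hNm : ((m + 1 : ℕ) : ℝ) ≤ 2 * m := by push_cast; linarith
  have hmN : (m : ℝ) ≤ ((m + 1 : ℕ) : ℝ) := by push_cast; linarith
  have hm0R : (0 : ℝ) < m := by linarith
  -- the board
  have hbd : ∀ e ∈ board m, ∀ a b : ℤ, (a = 0 ∨ a = 1) → (b = 0 ∨ b = 1) →
      (e.1 + a, e.2 + b) ∈ board (m + 1) := by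
    intro e he a b ha hb
    rw [Pool.Agent.NQ.mem_board] at he ⊢
    push_cast
    rcases ha with rfl | rfl <;> rcases hb with rfl | rfl <;> omega
  have hz0 : (0 : ℤ) = 0 ∨ (0 : ℤ) = 1 := Or.inl rfl
  have hw0 : ∀ e ∈ board m, wt (pz (m + 1) W A B 0 0) e = W e := by
    intro e he
    have h1 := pz_wt hL hR (u := 0) (v := 0) (hbd e he 0 0 hz0 hz0)
    simpa using h1
  have hsub : ∀ e ∈ board m, e ∈ board (m + 1) := by
    intro e he
    have h1 := hbd e he 0 0 hz0 hz0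
    simpa using h1
  set z := pz (m + 1) W A B 0 0 with hz
  set z' := pz (m + 1) W A B u v with hz'
  have hgr : ∀ l, gr m (full m) (wt z) (fun l => dg l * Real.exp (z l)) (z' - z) l =
      ∑ e ∈ Sl m (full m) l, wt z' e + dg l * Real.exp (z' l) - 1 := by
    intro l
    rw [gr_add, add_sub_cancel]
  have hgr0 : ∀ l, gr m (full m) (wt z) (fun l => dg l * Real.exp (z l)) 0 l =
      ∑ e ∈ Sl m (full m) l, wt z e + dg l * Real.exp (z l) - 1 := by
    intro l
    rw [gr_add, add_zero]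
  have hg0 : ∀ l ∈ full m, |∑ e ∈ Sl m (full m) l, wt z e + dg l * Real.exp (z l) - 1| ≤
      2 * L / ((m + 1 : ℕ) : ℝ) := by
    intro l hl
    exact pz_gr hL hN2 hR hz0 hz0 (by rw [Nat.add_sub_cancel]; exact hl)
  have hg1 : ∀ l ∈ full m, |∑ e ∈ Sl m (full m) l, wt z' e + dg l * Real.exp (z' l) - 1| ≤
      2 * L / ((m + 1 : ℕ) : ℝ) := by
    intro l hl
    exact pz_gr hL hN2 hR hu hv (by rw [Nat.add_sub_cancel]; exact hl)
  have hsm : 2 * L / ((m + 1 : ℕ) : ℝ) ≤ 1 / 2 := by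
    rw [div_le_iff₀ hNR]
    linarith
  have hco' : Co m m (full m) (wt z) (fun l => dg l * Real.exp (z l)) lam := by
    have h1 := hco (m + 1) m W A B hN1' le_rfl (Nat.le_succ m) hR
    intro δ
    have h2 := h1 δ
    have h3 : Qf m (full m) (wt z) (fun l => dg l * Real.exp (z l)) δ =
        Qf m (full m) W (fun l => dg l * Real.exp (z l)) δ := by
      unfold Qf
      rw [Sq_full]
      congr 1
      exact sum_congr rfl fun e he => by rw [hw0 e he]
    rw [h3]
    exact h2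
  obtain ⟨s, hs⟩ := hnear m m (full m) (wt z) (fun l => dg l * Real.exp (z l)) (z' - z)
    (by omega) (by omega) (vd_full hm1) (by
      intro e he
      rw [Sq_full] at he
      rw [hw0 e he]
      refine ⟨hR.adm.nn e, (hR.bd.hi e (hsub e he)).trans ?_⟩
      exact div_le_div_of_nonneg_left hL0.le hm0R hmN) (by
      intro l _
      refine mul_nonneg ?_ (Real.exp_pos _).le
      unfold dg
      split_ifs
      · exact le_rfl
      · exact zero_le_one) (by
      intro l _ hl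
      have : dg l = 0 := by
        unfold dg
        rw [if_pos hl]
      rw [this, zero_mul]) hco' (by
      intro l hl
      have h1 := abs_le.1 ((hg0 l hl).trans hsm)
      constructor
      · linarith [h1.1]
      · linarith [h1.2]) (by
      intro e he
      rw [Sq_full] at he
      exact pz_ds hL (by omega) hR (hsub e he) (hbd e he u v hu hv)) (by
      intro l _ hl
      have h1 := (pz_dg hL hR u v hl).1
      have h2 := (pz_dg hL hR 0 0 hl).1
      rw [Pi.sub_apply]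
      calc |z' l - z l| ≤ |z' l| + |z l| := abs_sub _ _
        _ ≤ L + L := add_le_add h1 h2
        _ = 2 * L := by ring) (by
      intro l hl
      rw [hgr, hgr0]
      have h1 := hg0 l hl
      have h2 := hg1 l hl
      have h3 := abs_sub (∑ e ∈ Sl m (full m) l, wt z' e + dg l * Real.exp (z' l) - 1)
        (∑ e ∈ Sl m (full m) l, wt z e + dg l * Real.exp (z l) - 1)
      have h4 : 4 * L / ((m + 1 : ℕ) : ℝ) ≤ 4 * L / m :=
        div_le_div_of_nonneg_left (by linarith) hm0R hmN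
      have h5 : 2 * L / ((m + 1 : ℕ) : ℝ) + 2 * L / ((m + 1 : ℕ) : ℝ) =
        4 * L / ((m + 1 : ℕ) : ℝ) := by ring
      linarith)
  refine ⟨s, fun l hl => ?_⟩
  refine (hs l hl).trans ?_
  rw [div_le_div_iff₀ hm0R hNR]
  nlinarith

theorem f_step (L : ℝ) (hL : 1 ≤ L) : ∃ (C : ℝ) (N0 : ℕ), 0 ≤ C ∧ ∀ (N : ℕ) (W : ℤ × ℤ → ℝ) (A B : ℤ → ℝ), N0 ≤ N →
    Rf L N W A B → ∀ l ∈ full (N - 1), |pz N W A B 1 0 l - pz N W A B 0 0 l| ≤ C / N ∧
      |pz N W A B 0 1 l - pz N W A B 0 0 l| ≤ C / N := by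
  obtain ⟨C, N0, hC, hN0, h⟩ := fst_near L hL
  refine ⟨2 * C, N0, by positivity, ?_⟩
  intro N W A B hN hR l hl
  have hN2 : 2 ≤ N := hN0.trans hN
  have hb : ((0 : ℤ), (0 : ℤ)) ∈ board (N - 1) := by
    rw [Pool.Agent.NQ.mem_board]
    simp only
    omega
  have hga : |ga l| ≤ 1 := by
    unfold ga
    split_ifs <;> simp
  have key : ∀ u v : ℤ, (u = 0 ∨ u = 1) → (v = 0 ∨ v = 1) →
      (∃ l0 ∈ full (N - 1), pz N W A B u v l0 = pz N W A B 0 0 l0 ∧ |ga l0| = 1) →
      |pz N W A B u v l - pz N W A B 0 0 l| ≤ 2 * C / N := by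
    intro u v hu hv hl0
    obtain ⟨l0, h0, h1, h2⟩ := hl0
    obtain ⟨s, hs⟩ := h N W A B hN hR u v hu hv
    have h3 := hs l0 h0
    rw [h1, sub_self, zero_sub, abs_neg, abs_mul, h2, mul_one] at h3
    have h4 := hs l hl
    have h5 : |s * ga l| ≤ C / N := by
      rw [abs_mul]
      calc |s| * |ga l| ≤ |s| * 1 := mul_le_mul_of_nonneg_left hga (abs_nonneg s)
        _ = |s| := mul_one _
        _ ≤ C / N := h3
    have h6 : pz N W A B u v l - pz N W A B 0 0 l =
      (pz N W A B u v l - pz N W A B 0 0 l - s * ga l) + s * ga l := by ring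
    rw [h6]
    calc _ ≤ |pz N W A B u v l - pz N W A B 0 0 l - s * ga l| + |s * ga l| := abs_add_le _ _
      _ ≤ C / N + C / N := add_le_add h4 h5
      _ = 2 * C / N := by ring
  constructor
  · refine key 1 0 (Or.inr rfl) (Or.inl rfl) ⟨((1 : Fin 4), 0), mem_full.2 ⟨(0, 0), hb, rfl⟩, ?_, ?_⟩
    · unfold pz
      simp
    · unfold ga
      simp
  · refine key 0 1 (Or.inl rfl) (Or.inr rfl) ⟨((0 : Fin 4), 0), mem_full.2 ⟨(0, 0), hb, rfl⟩, ?_, ?_⟩
    · unfold pz
      simp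
    · unfold ga
      simp

end Pool.Agent.NQF
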