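import Pool.Agent.NQF.FDefs

/-!
# NQF-LLExt: isolated indices do not change the determinant
-/

set_option autoImplicit false

open Finset

namespace Pool.Agent.NQF

open Pool.Agent.NQ (board dsum F Ent Dg phi ln Q Qset QS NonAtt bern)
open Pool.Agent.NQR (Adm Opt Bd Rf hS hD hh InR)
open Pool.Agent.NQL

theorem ld_ext {α : Type} [DecidableEq α] {I J : Finset α} (h : I ⊆ J) (A : α → α → ℝ)
    (h1 : ∀ l ∈ J, l ∉ I → ∀ l' ∈ J, A l l' = if l = l' then 1 else 0) : LD J A = LD I A := by
  unfold LD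
  congr 1
  rw [Matrix.twoBlockTriangular_det (Matrix.of (fun i j : J => A i j)) (fun l : J => l.1 ∈ I) (by
    intro i hi j hj
    show A i.1 j.1 = 0
    rw [h1 i.1 i.2 hi j.1 j.2, if_neg]
    intro hij
    exact hi (hij ▸ hj))]
  have e1 : Matrix.toSquareBlockProp (Matrix.of (fun i j : J => A i j)) (fun l : J => ¬ l.1 ∈ I) = 1 := by
    ext i j
    show A i.1.1 j.1.1 = (1 : Matrix _ _ ℝ) i j
    rw [h1 i.1.1 i.1.2 i.2 j.1.1 j.1.2, Matrix.one_apply]
    by_cases hij : i = j
    · rw [if_pos hij, if_pos (by rw [hij])]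
    · rw [if_neg hij, if_neg]
      intro hh
      exact hij (Subtype.ext (Subtype.ext hh))
  rw [e1, Matrix.det_one, mul_one]
  let e : {l : J // l.1 ∈ I} ≃ I :=
    { toFun := fun l => ⟨l.1.1, l.2⟩
      invFun := fun l => ⟨⟨l.1, h l.2⟩, l.2⟩
      left_inv := fun l => rfl
      right_inv := fun l => rfl }
  have e2 : Matrix.toSquareBlockProp (Matrix.of (fun i j : J => A i j)) (fun l : J => l.1 ∈ I) =
      (Matrix.of (fun i j : I => A i j)).submatrix e e := by
    ext i j
    rfl
  rw [e2, Matrix.det_submatrix_equiv_self]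

end Pool.Agent.NQF
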