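import Pool.Agent.NQF.FDefs
import Pool.Agent.NQL.ABas

/-!
# NQF-LLJJ: the extended set of lines and the parity preserving block map
-/

set_option autoImplicit false

open Finset

namespace Pool.Agent.NQF

open Pool.Agent.NQ (board dsum F Ent Dg phi ln Q Qset QS NonAtt bern)
open Pool.Agent.NQR (Adm Opt Bd Rf hS hD hh InR)
open Pool.Agent.NQL

private theorem rc_iff (i : Fin 4) : i ∈ ({0, 1} : Finset (Fin 4)) ↔ (i : ℕ) < 2 := by
  fin_cases i <;> simp

private theorem nrc_iff (i : Fin 4) : i ∈ ({2, 3} : Finset (Fin 4)) ↔ ¬ (i : ℕ) < 2 := by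
  fin_cases i <;> simp

private theorem mem_JJ {n : ℕ} {l : Li} : l ∈ JJ n ↔ (rc l ∧ 0 ≤ l.2 ∧ l.2 < n) ∨
    (¬ rc l ∧ -(2 * (n : ℤ)) ≤ l.2 ∧ l.2 < 2 * n) := by
  unfold JJ rc
  rw [mem_union, mem_product, mem_product, mem_Ico, mem_Ico, rc_iff, nrc_iff]

private theorem mem_bd {n : ℕ} {e : ℤ × ℤ} :
    e ∈ board n ↔ (0 ≤ e.1 ∧ e.1 < n) ∧ 0 ≤ e.2 ∧ e.2 < n := by
  unfold board
  rw [mem_product, mem_Ico, mem_Ico]

theorem full_JJ (n : ℕ) : full n ⊆ JJ n := by
  rintro ⟨i, s⟩ hl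
  obtain ⟨e, he, hs⟩ := mem_full.1 hl
  obtain ⟨⟨h1, h2⟩, h3, h4⟩ := mem_bd.1 he
  rw [mem_JJ]
  simp only at hs ⊢
  fin_cases i
  · left
    refine ⟨by unfold rc; norm_num, ?_⟩
    have : ln 0 e = e.1 := rfl
    simp only [Fin.zero_eta] at hs
    omega
  · left
    refine ⟨by unfold rc; norm_num, ?_⟩
    have : ln 1 e = e.2 := rfl
    simp only [Fin.mk_one] at hs
    omega
  · right
    refine ⟨by unfold rc; norm_num, ?_⟩
    have h5 : ln 2 e = e.1 + e.2 := rfl
    have h6 : ln 2 e = s := hs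
    omega
  · right
    refine ⟨by unfold rc; norm_num, ?_⟩
    have h5 : ln 3 e = e.1 - e.2 := rfl
    have h6 : ln 3 e = s := hs
    omega

theorem JJ_diag {n : ℕ} (hn : 1 ≤ n) {l : Li} (h : l ∈ JJ n) (h' : l ∉ full n) : ¬ rc l := by
  intro hr
  apply h'
  obtain ⟨i, s⟩ := l
  rw [mem_JJ] at h
  rcases h with ⟨_, h1, h2⟩ | ⟨h1, _⟩
  · simp only at h1 h2
    unfold rc at hr
    simp only at hr
    rw [mem_full]
    fin_cases i
    · exact ⟨(s, 0), mem_bd.2 ⟨⟨h1, h2⟩, le_rfl, by simp only; omega⟩, rfl⟩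
    · exact ⟨(0, s), mem_bd.2 ⟨⟨le_rfl, by simp only; omega⟩, h1, h2⟩, rfl⟩
    · simp at hr
    · simp at hr
  · exact absurd hr h1

private theorem rc_fi {k : ℕ} {l : Li} : rc (fi k l) ↔ rc l := by
  unfold fi
  split_ifs with h
  · exact Iff.rfl
  · exact Iff.rfl

private theorem fi_rc {k : ℕ} {l : Li} (h : rc l) : fi k l = (l.1, l.2 / k) := if_pos h

private theorem fi_nrc {k : ℕ} {l : Li} (h : ¬ rc l) : fi k l = (l.1, 2 * ((l.2 / 2) / k) + l.2 % 2) :=
  if_neg h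

private theorem le_dv {k : ℕ} (hk : 1 ≤ k) (a x : ℤ) : a ≤ x / k ↔ a * k ≤ x :=
  Int.le_ediv_iff_mul_le (by exact_mod_cast hk)

private theorem dv_lt {k : ℕ} (hk : 1 ≤ k) (a x : ℤ) : x / k < a ↔ x < a * k :=
  Int.ediv_lt_iff_lt_mul (by exact_mod_cast hk)

theorem fi_mem {n k : ℕ} (hk : 1 ≤ k) {l : Li} : l ∈ JJ (n * k) ↔ fi k l ∈ JJ n := by
  rw [mem_JJ, mem_JJ, rc_fi]
  by_cases h : rc l
  · simp only [h, true_and, not_true_eq_false, false_and, or_false]
    rw [fi_rc h]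
    simp only
    have h1 := le_dv hk 0 l.2
    have h2 := dv_lt hk n l.2
    rw [zero_mul] at h1
    rw [h1, h2]
    push_cast
    exact Iff.rfl
  · simp only [h, false_and, not_false_eq_true, true_and, false_or]
    rw [fi_nrc h]
    simp only
    have h1 := le_dv hk (-(n : ℤ)) (l.2 / 2)
    have h2 := dv_lt hk n (l.2 / 2)
    have h3 : ((n * k : ℕ) : ℤ) = (n : ℤ) * k := by push_cast; rfl
    rw [h3]
    have h4 : -(n : ℤ) * k = -((n : ℤ) * k) := by ring
    rw [h4] at h1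
    obtain ⟨T, hT⟩ : ∃ T, T = l.2 / 2 / (k : ℤ) := ⟨_, rfl⟩
    obtain ⟨M, hM⟩ : ∃ M, M = (n : ℤ) * k := ⟨_, rfl⟩
    rw [← hT] at h1 h2 ⊢
    rw [← hM] at h1 h2 ⊢
    have h5 : -(2 * M) ≤ l.2 ↔ -M ≤ l.2 / 2 := by omega
    have h6 : l.2 < 2 * M ↔ l.2 / 2 < M := by omega
    have h7 : -(2 * (n : ℤ)) ≤ 2 * T + l.2 % 2 ↔ -(n : ℤ) ≤ T := by omega
    have h8 : 2 * T + l.2 % 2 < 2 * (n : ℤ) ↔ T < n := by omega
    rw [h5, h6, h7, h8, h1, h2]

theorem fi_card {n k : ℕ} (hk : 1 ≤ k) {l : Li} (h : l ∈ JJ n) : ((JJ (n * k)).filter (fun l' => fi k l' = l)).card = k := by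
  have key : ∀ a x : ℤ, x / k = a ↔ a * k ≤ x ∧ x < a * k + k := by
    intro a x
    have h1 := le_dv hk a x
    have h2 := dv_lt hk (a + 1) x
    have h3 : (a + 1) * (k : ℤ) = a * k + k := by ring
    rw [h3] at h2
    rw [← h1, ← h2]
    omega
  by_cases hr : rc l
  · have h1 : (JJ (n * k)).filter (fun l' => fi k l' = l) =
        (Ico (l.2 * k) (l.2 * k + k)).image (fun x => ((l.1, x) : Li)) := by
      ext l'
      rw [mem_filter, mem_image]
      constructor
      · rintro ⟨_, h2⟩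
        have h3 : rc l' := by
          rw [← rc_fi (k := k), h2]
          exact hr
        rw [fi_rc h3] at h2
        refine ⟨l'.2, ?_, ?_⟩
        · rw [mem_Ico]
          exact (key _ _).1 (congrArg Prod.snd h2)
        · exact Prod.ext (congrArg Prod.fst h2).symm rfl
      · rintro ⟨x, hx, rfl⟩
        rw [mem_Ico] at hx
        have h3 : fi k ((l.1, x) : Li) = l := by
          have h4 : rc ((l.1, x) : Li) := hr
          rw [fi_rc h4]
          exact Prod.ext rfl ((key _ _).2 hx)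
        refine ⟨?_, h3⟩
        rw [fi_mem hk, h3]
        exact h
    rw [h1, card_image_of_injective _ (fun x y hxy => congrArg Prod.snd hxy), Int.card_Ico]
    omega
  · have h1 : (JJ (n * k)).filter (fun l' => fi k l' = l) =
        (Ico (l.2 / 2 * k) (l.2 / 2 * k + k)).image (fun x => ((l.1, 2 * x + l.2 % 2) : Li)) := by
      ext l'
      rw [mem_filter, mem_image]
      constructor
      · rintro ⟨_, h2⟩
        have h3 : ¬ rc l' := by
          rw [← rc_fi (k := k), h2]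
          exact hr
        rw [fi_nrc h3] at h2
        have h4 : 2 * (l'.2 / 2 / (k : ℤ)) + l'.2 % 2 = l.2 := congrArg Prod.snd h2
        refine ⟨l'.2 / 2, ?_, ?_⟩
        · rw [mem_Ico]
          exact (key _ _).1 (by omega)
        · refine Prod.ext (congrArg Prod.fst h2).symm ?_
          simp only
          omega
      · rintro ⟨x, hx, rfl⟩
        rw [mem_Ico] at hx
        have h3 : fi k ((l.1, 2 * x + l.2 % 2) : Li) = l := by
          have h4 : ¬ rc ((l.1, 2 * x + l.2 % 2) : Li) := hr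
          rw [fi_nrc h4]
          refine Prod.ext rfl ?_
          simp only
          have h5 : (2 * x + l.2 % 2) / 2 = x := by omega
          have h6 := (key _ _).2 hx
          rw [h5, h6]
          omega
        refine ⟨?_, h3⟩
        rw [fi_mem hk, h3]
        exact h
    rw [h1, card_image_of_injective _ (fun x y hxy => by
      have h2 : 2 * x + l.2 % 2 = 2 * y + l.2 % 2 := congrArg Prod.snd hxy
      omega), Int.card_Ico]
    omega

theorem fi_pr {k : ℕ} {i j : Fin 4} {s t : ℤ} : pr i j (fi k (i, s)).2 (fi k (j, t)).2 ↔ pr i j s t := by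
  unfold pr
  refine forall_congr' fun hi => forall_congr' fun hj => ?_
  have h1 : ¬ rc ((i, s) : Li) := by unfold rc; simp only; omega
  have h2 : ¬ rc ((j, t) : Li) := by unfold rc; simp only; omega
  rw [fi_nrc h1, fi_nrc h2]
  simp only
  obtain ⟨a, ha⟩ : ∃ a, a = s / 2 / (k : ℤ) := ⟨_, rfl⟩
  obtain ⟨b, hb⟩ : ∃ b, b = t / 2 / (k : ℤ) := ⟨_, rfl⟩
  rw [← ha, ← hb]
  omega

theorem fi_fst {k : ℕ} (l : Li) : (fi k l).1 = l.1 ∧ ga (fi k l) = ga l := by
  have h1 : (fi k l).1 = l.1 := by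
    unfold fi
    split_ifs <;> rfl
  refine ⟨h1, ?_⟩
  unfold ga
  rw [h1]

end Pool.Agent.NQF
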