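import Pool.Agent.NQF.FDefs
import Pool.Agent.NQF.LLExt
import Pool.Agent.NQF.LLJJ

/-!
# NQF-LLFul: the determinant over the extended set of lines

PLAN. `ld_ext` with `full_JJ`: for `l ∈ JJ n`, `l ∉ full n`: `ga l = 0` (`JJ_diag`), and `MM L4 (board n) W l l' = 0`: no `e ∈ board n` has `l ∈ L4 e`, because
`l ∈ L4 e` means `ln l.1 e = l.2`, i.e. `l ∈ full n` (`mem_full`).
-/

set_option autoImplicit false

open Finset

namespace Pool.Agent.NQF

open Pool.Agent.NQ (board dsum F Ent Dg phi ln Q Qset QS NonAtt bern)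
open Pool.Agent.NQR (Adm Opt Bd Rf hS hD hh InR)
open Pool.Agent.NQL

theorem mem_L4 {e : ℤ × ℤ} {l : Li} : l ∈ L4 e ↔ ln l.1 e = l.2 := by
  unfold L4
  rw [Finset.mem_image]
  constructor
  · rintro ⟨k, _, rfl⟩
    rfl
  · intro h
    exact ⟨l.1, Finset.mem_univ _, Prod.ext rfl h⟩

private theorem mem_full' {n : ℕ} {l : Li} {e : ℤ × ℤ} (he : e ∈ board n) (h : ln l.1 e = l.2) :
    l ∈ full n := by
  unfold full
  rw [Finset.mem_biUnion]
  exact ⟨e, he, Finset.mem_image.2 ⟨l.1, Finset.mem_univ _, Prod.ext rfl h⟩⟩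

private theorem ga_zero {l : Li} (h : ¬ rc l) : ga l = 0 := by
  unfold rc at h
  unfold ga
  rw [if_neg, if_neg]
  · intro h1
    rw [h1] at h
    exact h (by decide)
  · intro h1
    rw [h1] at h
    exact h (by decide)

theorem ld_full {n : ℕ} (hn : 1 ≤ n) (W : ℤ × ℤ → ℝ) :
    LD (full n) (AA L4 (board n) W ga n) = LD (JJ n) (AA L4 (board n) W ga n) := by
  refine (ld_ext (full_JJ n) _ fun l hl hl' l' _ => ?_).symm
  have h1 : ga l = 0 := ga_zero (JJ_diag hn hl hl')
  have h2 : MM L4 (board n) W l l' = 0 := by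
    unfold MM
    split_ifs
    · rfl
    · refine Finset.sum_eq_zero fun e he => ?_
      obtain ⟨he1, he2, _⟩ := Finset.mem_filter.1 he
      exact absurd (mem_full' he1 (mem_L4.1 he2)) hl'
  unfold AA
  rw [h1, h2, zero_mul, zero_div, add_zero, add_zero]

end Pool.Agent.NQF
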