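import Pool.Agent.NQF.FDefs
import Pool.Agent.NQF.LLFul
import Pool.Agent.NQL.ABas

/-!
# NQF-LLCr: crossings

PLAN. (1) case analysis over the 12 pairs `i ≠ j` (`fin_cases i <;> fin_cases j`), `cr`, `pr`, `ln` unfold (`simp [cr, pr]`), `omega` with `Prod.ext_iff`.
(2) `MM` sums over `e ∈ board n` with `(i,s), (j,t) ∈ L4 e` (`mem_L4`); by (1) the set is `{cr i j s t} ∩ board n` if `pr`, empty otherwise; if the square is outside of
the board `W = 0`. (3) `i = j`, `s ≠ t`: empty; `i = j`, `s = t`: `MM = 0` by definition. (4) each of the 12 cases: `fi` unfolds to `s/k` or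
`2 ((s/2)/k) + s % 2`. Put `q = s/k`-type bounds: `k (s/k) ≤ s < k (s/k) + k`, `k ((s/2)/k) ≤ s/2 < k ((s/2)/k) + k`, `2 (s/2) + s % 2 = s`, `0 ≤ s % 2 ≤ 1`; the claim
`|X - f/k| ≤ 3` with `X` an integer is equivalent to `f/k - 3 ≤ X ≤ f/k + 3`, follows from `k (X - 3) ≤ f` and `f < k (X + 3 + 1)` (`Int.le_ediv_iff_mul_le`,
`Int.ediv_lt_iff_lt_mul`); all are linear in the products `k * q`, which can be named (`nlinarith`/`linarith` after `obtain`), the halves `(S + T)/2` are eliminated with the parity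
condition (`S + T = 2 ((S + T)/2)`, from `fi_pr`).
-/

set_option autoImplicit false

open Finset

namespace Pool.Agent.NQF

open Pool.Agent.NQ (board dsum F Ent Dg phi ln Q Qset QS NonAtt bern)
open Pool.Agent.NQR (Adm Opt Bd Rf hS hD hh InR)
open Pool.Agent.NQL

theorem cr_iff {i j : Fin 4} (h : i ≠ j) {s t : ℤ} {e : ℤ × ℤ} :
    (ln i e = s ∧ ln j e = t) ↔ (pr i j s t ∧ e = cr i j s t) := by
  obtain ⟨a, b⟩ := e
  fin_cases i <;> fin_cases j <;> simp [cr, pr, ln] at h ⊢ <;> omega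

theorem mm_cr {n : ℕ} {W : ℤ × ℤ → ℝ} (hW : ∀ e, e ∉ board n → W e = 0) (l l' : Li) :
    MM L4 (board n) W l l' = if l.1 ≠ l'.1 ∧ pr l.1 l'.1 l.2 l'.2 then W (cr l.1 l'.1 l.2 l'.2) else 0 := by
  unfold MM
  by_cases hll : l = l'
  · subst hll
    rw [if_pos rfl, if_neg (fun h => h.1 rfl)]
  · rw [if_neg hll, Finset.sum_filter]
    by_cases h1 : l.1 = l'.1
    · rw [if_neg (fun h => h.1 h1)]
      refine Finset.sum_eq_zero fun e _ => ?_
      rw [if_neg]
      rintro ⟨h2, h3⟩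
      rw [mem_L4] at h2 h3
      apply hll
      refine Prod.ext h1 ?_
      rw [← h2, ← h3, h1]
    · have h2 : ∀ e ∈ board n, (if l ∈ L4 e ∧ l' ∈ L4 e then W e else 0) =
          if pr l.1 l'.1 l.2 l'.2 then (if e = cr l.1 l'.1 l.2 l'.2 then W e else 0) else 0 := by
        intro e _
        rw [← ite_and]
        refine if_congr ?_ rfl rfl
        rw [mem_L4, mem_L4]
        exact cr_iff h1
      rw [Finset.sum_congr rfl h2]
      by_cases h3 : pr l.1 l'.1 l.2 l'.2
      · simp only [if_pos h3]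
        rw [Finset.sum_ite_eq', if_pos (show l.1 ≠ l'.1 ∧ pr l.1 l'.1 l.2 l'.2 from ⟨h1, h3⟩)]
        by_cases h4 : cr l.1 l'.1 l.2 l'.2 ∈ board n
        · rw [if_pos h4]
        · rw [if_neg h4, hW _ h4]
      · simp only [if_neg h3]
        rw [if_neg (fun h => h3 h.2), Finset.sum_const_zero]

private theorem near {k X f : ℤ} (hk : 0 < k) (h1 : -(3 * k) < k * X - f)
    (h2 : k * X - f < 3 * k) : |X - f / k| ≤ 3 := by
  have h3 := Int.mul_ediv_add_emod f k
  have h4 := Int.emod_nonneg f hk.ne'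
  have h5 := Int.emod_lt_of_pos f hk
  rw [abs_le]
  constructor
  · by_contra hc
    push Not at hc
    have h6 : X - f / k ≤ -3 := by omega
    have h7 : k * (X - f / k) ≤ k * (-3) := mul_le_mul_of_nonneg_left h6 hk.le
    linarith
  · by_contra hc
    push Not at hc
    have h6 : 4 ≤ X - f / k := by omega
    have h7 : k * 4 ≤ k * (X - f / k) := mul_le_mul_of_nonneg_left h6 hk.le
    linarith

private theorem fi_rc {k : ℕ} (hk : 1 ≤ k) {i : Fin 4} {s : ℤ} (h : (i : ℕ) < 2) :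
    -(k : ℤ) < k * (fi k (i, s)).2 - s ∧ k * (fi k (i, s)).2 - s ≤ 0 := by
  have hk0 : (0 : ℤ) < k := by exact_mod_cast hk
  have h1 : (fi k (i, s)).2 = s / k := by
    unfold fi
    rw [if_pos (show rc (i, s) from h)]
  rw [h1]
  have h3 := Int.mul_ediv_add_emod s k
  have h4 := Int.emod_nonneg s hk0.ne'
  have h5 := Int.emod_lt_of_pos s hk0
  constructor <;> linarith

private theorem fi_dg {k : ℕ} (hk : 1 ≤ k) {i : Fin 4} {s : ℤ} (h : 2 ≤ (i : ℕ)) :
    -(2 * (k : ℤ)) < k * (fi k (i, s)).2 - s ∧ k * (fi k (i, s)).2 - s < k ∧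
      (fi k (i, s)).2 % 2 = s % 2 := by
  have hk0 : (0 : ℤ) < k := by exact_mod_cast hk
  have h1 : (fi k (i, s)).2 = 2 * ((s / 2) / k) + s % 2 := by
    unfold fi
    rw [if_neg (show ¬ rc (i, s) from by unfold rc; simp only; omega)]
  rw [h1]
  have h3 := Int.mul_ediv_add_emod (s / 2) k
  have h4 := Int.emod_nonneg (s / 2) hk0.ne'
  have h5 := Int.emod_lt_of_pos (s / 2) hk0
  have h6 := Int.mul_ediv_add_emod s 2
  rcases Int.emod_two_eq_zero_or_one s with h7 | h7
  · rw [h7] at h6 ⊢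
    refine ⟨by linarith, by linarith, by omega⟩
  · rw [h7] at h6 ⊢
    refine ⟨by linarith, by linarith, by omega⟩

theorem cr_near {k : ℕ} (hk : 1 ≤ k) {l l' : Li} (h : l.1 ≠ l'.1) (hp : pr l.1 l'.1 l.2 l'.2) :
    |(cr l.1 l'.1 (fi k l).2 (fi k l').2).1 - (cr l.1 l'.1 l.2 l'.2).1 / k| ≤ 3 ∧
      |(cr l.1 l'.1 (fi k l).2 (fi k l').2).2 - (cr l.1 l'.1 l.2 l'.2).2 / k| ≤ 3 := by
  obtain ⟨i, s⟩ := l
  obtain ⟨j, t⟩ := l'
  have hk0 : (0 : ℤ) < k := by exact_mod_cast hk
  have hir := fun h => fi_rc hk (i := i) (s := s) h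
  have hid := fun h => fi_dg hk (i := i) (s := s) h
  have hjr := fun h => fi_rc hk (i := j) (s := t) h
  have hjd := fun h => fi_dg hk (i := j) (s := t) h
  simp only at h hp ⊢
  generalize (fi k (i, s)).2 = S at *
  generalize (fi k (j, t)).2 = T at *
  generalize (k : ℤ) = κ at *
  clear hk
  fin_cases i <;> fin_cases j <;> simp [cr, pr] at h hp hir hid hjr hjd ⊢
  all_goals first
    | exact ⟨near hk0 (by linarith) (by linarith), near hk0 (by linarith) (by linarith)⟩
    | (have e1 : 2 * ((S + T) / 2) = S + T := by omega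
       have e2 : 2 * ((S - T) / 2) = S - T := by omega
       have e3 : 2 * ((s + t) / 2) = s + t := by omega
       have e4 : 2 * ((s - t) / 2) = s - t := by omega
       have f1 : κ * (2 * ((S + T) / 2)) = κ * (S + T) := by rw [e1]
       have f2 : κ * (2 * ((S - T) / 2)) = κ * (S - T) := by rw [e2]
       exact ⟨near hk0 (by linarith) (by linarith), near hk0 (by linarith) (by linarith)⟩)
    | (have e1 : 2 * ((T + S) / 2) = T + S := by omega
       have e2 : 2 * ((T - S) / 2) = T - S := by omega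
       have e3 : 2 * ((t + s) / 2) = t + s := by omega
       have e4 : 2 * ((t - s) / 2) = t - s := by omega
       have f1 : κ * (2 * ((T + S) / 2)) = κ * (T + S) := by rw [e1]
       have f2 : κ * (2 * ((T - S) / 2)) = κ * (T - S) := by rw [e2]
       exact ⟨near hk0 (by linarith) (by linarith), near hk0 (by linarith) (by linarith)⟩)

end Pool.Agent.NQF
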