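import Pool.Agent.NQF.FDefs
import Pool.Agent.NQF.FBlk

/-!
# NQF-LLSum: the basic Hilbert-Schmidt estimate

The difference of fine and coarse weights over a family of pairs of lines: interior squares by the
block averages, squares near the boundary by counting.
-/

set_option autoImplicit false

open Finset

namespace Pool.Agent.NQF

open Pool.Agent.NQ (board dsum F Ent Dg phi ln Q Qset QS NonAtt bern)
open Pool.Agent.NQR (Adm Opt Bd Rf hS hD hh InR)
open Pool.Agent.NQL

private theorem fib_sum {ι : Type} {P : Finset ι} {E : ι → ℤ × ℤ} {M : ℝ}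
    (hE : ∀ x, ((P.filter (fun p => E p = x)).card : ℝ) ≤ M) (T : Finset (ℤ × ℤ)) (φ : ℤ × ℤ → ℝ)
    (h0 : ∀ x, 0 ≤ φ x) (hT : ∀ x, x ∉ T → φ x = 0) :
    ∑ p ∈ P, φ (E p) ≤ M * ∑ x ∈ T, φ x := by
  have e1 : ∑ p ∈ P, φ (E p) = ∑ p ∈ P.filter (fun p => E p ∈ T), φ (E p) := by
    rw [sum_filter]
    refine sum_congr rfl fun p _ => ?_
    by_cases h : E p ∈ T
    · rw [if_pos h]
    · rw [if_neg h, hT _ h]
  rw [e1, ← sum_fiberwise_of_maps_to (g := E) (t := T) (fun p hp => (mem_filter.1 hp).2), mul_sum]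
  refine sum_le_sum fun x hx => ?_
  have e2 : ∑ p ∈ (P.filter (fun p => E p ∈ T)).filter (fun p => E p = x), φ (E p) =
      (((P.filter (fun p => E p ∈ T)).filter (fun p => E p = x)).card : ℝ) * φ x := by
    rw [sum_congr rfl (g := fun _ => φ x) (fun p hp => by rw [(mem_filter.1 hp).2]), sum_const,
      nsmul_eq_mul]
  rw [e2]
  refine mul_le_mul_of_nonneg_right ?_ (h0 x)
  refine le_trans ?_ (hE x)
  exact_mod_cast card_le_card (filter_subset_filter _ (filter_subset _ _))

/-- the squares of the board near its boundary -/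
private noncomputable def strip (N d : ℕ) : Finset (ℤ × ℤ) :=
  (board N).filter fun x => x.1 < d ∨ (N : ℤ) - d ≤ x.1 ∨ x.2 < d ∨ (N : ℤ) - d ≤ x.2

private theorem strip_card (N d : ℕ) : (strip N d).card ≤ 4 * (d * N) := by
  have h1 : strip N d ⊆ ((Finset.Ico (0 : ℤ) d ×ˢ Finset.Ico (0 : ℤ) N) ∪
      (Finset.Ico ((N : ℤ) - d) N ×ˢ Finset.Ico (0 : ℤ) N)) ∪
      ((Finset.Ico (0 : ℤ) N ×ˢ Finset.Ico (0 : ℤ) d) ∪
      (Finset.Ico (0 : ℤ) N ×ˢ Finset.Ico ((N : ℤ) - d) N)) := by
    intro x hx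
    obtain ⟨hb, hx⟩ := mem_filter.1 hx
    rw [Pool.Agent.NQ.mem_board] at hb
    simp only [mem_union, mem_product, mem_Ico]
    omega
  refine (card_le_card h1).trans ?_
  refine (card_union_le _ _).trans ?_
  have c1 : (Finset.Ico (0 : ℤ) d).card = d := by simp
  have c2 : (Finset.Ico (0 : ℤ) N).card = N := by simp
  have c3 : (Finset.Ico ((N : ℤ) - d) N).card = d := by simp
  have h2 := card_union_le (Finset.Ico (0 : ℤ) d ×ˢ Finset.Ico (0 : ℤ) N)
    (Finset.Ico ((N : ℤ) - d) N ×ˢ Finset.Ico (0 : ℤ) N)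
  have h3 := card_union_le (Finset.Ico (0 : ℤ) N ×ˢ Finset.Ico (0 : ℤ) d)
    (Finset.Ico (0 : ℤ) N ×ˢ Finset.Ico ((N : ℤ) - d) N)
  rw [card_product, card_product, c1, c2, c3] at h2
  rw [card_product, card_product, c1, c2, c3] at h3
  have e : N * d = d * N := mul_comm _ _
  rw [e] at h3
  omega

private theorem board_card (N : ℕ) : (board N).card = N * N := by
  unfold board
  rw [card_product]
  simp

private theorem sum_ind (T : Finset (ℤ × ℤ)) (c : ℝ) :
    ∑ x ∈ T, (if x ∈ T then c else 0) = (T.card : ℝ) * c := by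
  rw [sum_congr rfl (g := fun _ => c) (fun x hx => if_pos hx), sum_const, nsmul_eq_mul]

theorem hs_sum {L C C0 : ℝ} (hL : 1 ≤ L) (hC : 0 ≤ C) (hC0 : 0 ≤ C0) : ∃ C1 : ℝ, 0 ≤ C1 ∧
    ∀ (n k : ℕ) (W W' : ℤ × ℤ → ℝ) (A B A' B' : ℤ → ℝ), 1 ≤ n → 1 ≤ k → Rf L n W A B → Rf L (n * k) W' A' B' →
      Lp C (n * k) W' A' B' → ∑ e ∈ board n, (cz n k W' e - W e) ^ 2 ≤ C0 / (n : ℝ) ^ 2 →
      ∀ (P : Finset (Li × Li)) (f E : Li × Li → ℤ × ℤ), (∀ x, (P.filter (fun p => f p = x)).card ≤ 16) →
        (∀ x, (P.filter (fun p => E p = x)).card ≤ 16 * k ^ 2) →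
        (∀ p ∈ P, |(E p).1 - (f p).1 / k| ≤ 3 ∧ |(E p).2 - (f p).2 / k| ≤ 3) →
        ∑ p ∈ P, (W' (f p) - W (E p) / k) ^ 2 ≤ C1 / n := by
  obtain ⟨C1, hC1, hblk⟩ := f_blk hL hC
  refine ⟨1568 * C1 ^ 2 + 768 * L ^ 2 + 32 * C0, by positivity, ?_⟩
  intro n k W W' A B A' B' hn hk hR hR' hLp hVW P f E hf hE hfE
  obtain ⟨hb1, hb2⟩ := hblk n k W' A' B' hn hk hR' hLp
  have hnr : (1 : ℝ) ≤ n := by exact_mod_cast hn
  have hkr : (1 : ℝ) ≤ k := by exact_mod_cast hk
  have hn0 : (0 : ℝ) < n := by linarith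
  have hk0 : (0 : ℝ) < k := by linarith
  have hkz : (0 : ℤ) < k := by exact_mod_cast hk
  have hL0 : 0 ≤ L / (n * k) := by positivity
  have hcast : ((n * k : ℕ) : ℝ) = n * k := by push_cast; ring
  have hcastz : ((n * k : ℕ) : ℤ) = n * k := by push_cast; ring
  -- the four functions
  have hoff : ∀ x, x ∉ board n → cz n k W' x - W x = 0 := by
    intro x hx
    rw [hR.adm.out x hx]
    unfold cz
    rw [if_neg hx, sub_zero]
  have hpt : ∀ p ∈ P, (W' (f p) - W (E p) / k) ^ 2 ≤
      2 * ((if f p ∈ board (n * k) then (7 * C1 / ((n : ℝ) ^ 2 * k)) ^ 2 else 0) +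
        (if f p ∈ strip (n * k) (3 * k) then (L / (n * k)) ^ 2 else 0) +
        (if E p ∈ strip n 3 then (L / (n * k)) ^ 2 else 0)) +
      2 * ((cz n k W' (E p) - W (E p)) ^ 2 / (k : ℝ) ^ 2) := by
    intro p hp
    obtain ⟨hd1, hd2⟩ := hfE p hp
    have e1 : (W' (f p) - W (E p) / k) ^ 2 ≤ 2 * (W' (f p) - cz n k W' (E p) / k) ^ 2 +
        2 * ((cz n k W' (E p) - W (E p)) ^ 2 / (k : ℝ) ^ 2) := by
      have e2 : (cz n k W' (E p) - W (E p)) ^ 2 / (k : ℝ) ^ 2 =
          (cz n k W' (E p) / k - W (E p) / k) ^ 2 := by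
        rw [← sub_div, div_pow]
      rw [e2]
      nlinarith [sq_nonneg ((W' (f p) - cz n k W' (E p) / k) - (cz n k W' (E p) / k - W (E p) / k))]
    refine e1.trans ?_
    have i1 : 0 ≤ (if f p ∈ board (n * k) then (7 * C1 / ((n : ℝ) ^ 2 * k)) ^ 2 else 0) := by
      split_ifs
      · positivity
      · exact le_refl _
    have i2 : 0 ≤ (if f p ∈ strip (n * k) (3 * k) then (L / ((n : ℝ) * k)) ^ 2 else 0) := by
      split_ifs
      · positivity
      · exact le_refl _
    have i3 : 0 ≤ (if E p ∈ strip n 3 then (L / ((n : ℝ) * k)) ^ 2 else 0) := by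
      split_ifs
      · positivity
      · exact le_refl _
    have key : (W' (f p) - cz n k W' (E p) / k) ^ 2 ≤
        (if f p ∈ board (n * k) then (7 * C1 / ((n : ℝ) ^ 2 * k)) ^ 2 else 0) +
        (if f p ∈ strip (n * k) (3 * k) then (L / ((n : ℝ) * k)) ^ 2 else 0) +
        (if E p ∈ strip n 3 then (L / ((n : ℝ) * k)) ^ 2 else 0) := by
      have q1 : (k : ℤ) * ((f p).1 / k) + (f p).1 % k = (f p).1 := Int.mul_ediv_add_emod _ _
      have q2 : (k : ℤ) * ((f p).2 / k) + (f p).2 % k = (f p).2 := Int.mul_ediv_add_emod _ _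
      have r1 := Int.emod_nonneg (f p).1 hkz.ne'
      have r2 := Int.emod_lt_of_pos (f p).1 hkz
      have r3 := Int.emod_nonneg (f p).2 hkz.ne'
      have r4 := Int.emod_lt_of_pos (f p).2 hkz
      by_cases hfb : f p ∈ board (n * k)
      · have hfb' := Pool.Agent.NQ.mem_board.1 hfb
        rw [hcastz] at hfb'
        have w0 : 0 ≤ W' (f p) := hR'.adm.nn _
        have w1 : W' (f p) ≤ L / (n * k) := by
          have := hR'.bd.hi _ hfb
          rw [hcast] at this
          exact this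
        have g1 : 0 ≤ (f p).1 / k := Int.ediv_nonneg hfb'.1.1 hkz.le
        have g2 : (f p).1 / k < n := Int.ediv_lt_of_lt_mul hkz hfb'.1.2
        have g3 : 0 ≤ (f p).2 / k := Int.ediv_nonneg hfb'.2.1 hkz.le
        have g4 : (f p).2 / k < n := Int.ediv_lt_of_lt_mul hkz hfb'.2.2
        by_cases hEb : E p ∈ board n
        · -- interior
          have hE0 : ((f p).1 / (k : ℤ), (f p).2 / (k : ℤ)) ∈ board n :=
            Pool.Agent.NQ.mem_board.2 ⟨⟨g1, g2⟩, g3, g4⟩
          have b1 := hb1 _ hE0 ((f p).1 % k) ((f p).2 % k) r1 r2 r3 r4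
          have e3 : ((k : ℤ) * ((f p).1 / (k : ℤ), (f p).2 / (k : ℤ)).1 + (f p).1 % k,
              (k : ℤ) * ((f p).1 / (k : ℤ), (f p).2 / (k : ℤ)).2 + (f p).2 % k) = f p :=
            Prod.ext q1 q2
          rw [e3] at b1
          have b2 := hb2 _ hE0 _ hEb
          have b3 : ((|((f p).1 / (k : ℤ), (f p).2 / (k : ℤ)).1 - (E p).1| +
              |((f p).1 / (k : ℤ), (f p).2 / (k : ℤ)).2 - (E p).2| : ℤ) : ℝ) ≤ 6 := by
            have : |((f p).1 / (k : ℤ), (f p).2 / (k : ℤ)).1 - (E p).1| +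
              |((f p).1 / (k : ℤ), (f p).2 / (k : ℤ)).2 - (E p).2| ≤ 6 := by
              show |(f p).1 / (k : ℤ) - (E p).1| + |(f p).2 / (k : ℤ) - (E p).2| ≤ 6
              rw [abs_sub_comm, abs_sub_comm ((f p).2 / (k : ℤ))]
              linarith
            exact_mod_cast this
          have b4 : |cz n k W' ((f p).1 / (k : ℤ), (f p).2 / (k : ℤ)) - cz n k W' (E p)| ≤
              6 * C1 / (n : ℝ) ^ 2 := by
            refine b2.trans ?_
            refine div_le_div_of_nonneg_right ?_ (by positivity)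
            rw [mul_comm]
            exact mul_le_mul_of_nonneg_right b3 hC1
          have b5 : |W' (f p) - cz n k W' (E p) / k| ≤ 7 * C1 / ((n : ℝ) ^ 2 * k) := by
            have e4 : W' (f p) - cz n k W' (E p) / k =
                (W' (f p) - cz n k W' ((f p).1 / (k : ℤ), (f p).2 / (k : ℤ)) / k) +
                (cz n k W' ((f p).1 / (k : ℤ), (f p).2 / (k : ℤ)) - cz n k W' (E p)) / k := by ring
            rw [e4]
            refine (abs_add_le _ _).trans ?_
            have b6 : |(cz n k W' ((f p).1 / (k : ℤ), (f p).2 / (k : ℤ)) - cz n k W' (E p)) / (k : ℝ)| ≤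
                6 * C1 / ((n : ℝ) ^ 2 * k) := by
              rw [abs_div, abs_of_pos hk0, ← div_div]
              exact div_le_div_of_nonneg_right b4 hk0.le
            have e5 : 7 * C1 / ((n : ℝ) ^ 2 * k) = C1 / ((n : ℝ) ^ 2 * k) + 6 * C1 / ((n : ℝ) ^ 2 * k) := by
              ring
            rw [e5]
            exact add_le_add b1 b6
          have b7 : (W' (f p) - cz n k W' (E p) / k) ^ 2 ≤ (7 * C1 / ((n : ℝ) ^ 2 * k)) ^ 2 := by
            rw [← sq_abs (W' (f p) - cz n k W' (E p) / k)]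
            exact pow_le_pow_left₀ (abs_nonneg _) b5 2
          rw [if_pos hfb] at i1 ⊢
          linarith
        · -- `E` outside
          have hV : cz n k W' (E p) = 0 := by
            unfold cz
            rw [if_neg hEb]
          have hst : f p ∈ strip (n * k) (3 * k) := by
            refine mem_filter.2 ⟨hfb, ?_⟩
            rw [hcastz]
            push_cast
            have hne : ¬ ((0 ≤ (E p).1 ∧ (E p).1 < n) ∧ (0 ≤ (E p).2 ∧ (E p).2 < n)) :=
              fun h => hEb (Pool.Agent.NQ.mem_board.2 h)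
            rw [abs_le] at hd1 hd2
            by_contra hcon
            push Not at hcon
            obtain ⟨c1, c2, c3, c4⟩ := hcon
            have d1 : 3 ≤ (f p).1 / k := by
              rw [Int.le_ediv_iff_mul_le hkz]
              exact c1
            have d2 : (f p).1 / k < n - 3 := by
              refine Int.ediv_lt_of_lt_mul hkz ?_
              linarith
            have d3 : 3 ≤ (f p).2 / k := by
              rw [Int.le_ediv_iff_mul_le hkz]
              exact c3
            have d4 : (f p).2 / k < n - 3 := by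
              refine Int.ediv_lt_of_lt_mul hkz ?_
              linarith
            apply hne
            refine ⟨⟨?_, ?_⟩, ?_, ?_⟩ <;> linarith [hd1.1, hd1.2, hd2.1, hd2.2]
          rw [hV, zero_div, sub_zero]
          have b7 : W' (f p) ^ 2 ≤ (L / (n * k)) ^ 2 := pow_le_pow_left₀ w0 w1 2
          rw [if_pos hst]
          linarith
      · have hw : W' (f p) = 0 := hR'.adm.out _ hfb
        by_cases hEb : E p ∈ board n
        · obtain ⟨v0, v1⟩ := cz_hi hL hn hk hR' (E p)
          have hst : E p ∈ strip n 3 := by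
            refine mem_filter.2 ⟨hEb, ?_⟩
            push_cast
            have hne : ¬ ((0 ≤ (f p).1 ∧ (f p).1 < n * k) ∧ (0 ≤ (f p).2 ∧ (f p).2 < n * k)) := by
              intro h
              rw [← hcastz] at h
              exact hfb (Pool.Agent.NQ.mem_board.2 h)
            rw [abs_le] at hd1 hd2
            by_contra hcon
            push Not at hcon
            obtain ⟨c1, c2, c3, c4⟩ := hcon
            have d1 : 0 ≤ (f p).1 / k := by linarith [hd1.1, hd1.2]
            have d2 : (f p).1 / k + 1 ≤ n := by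
              have : (f p).1 / k < n := by linarith [hd1.1, hd1.2]
              linarith
            have d3 : 0 ≤ (f p).2 / k := by linarith [hd2.1, hd2.2]
            have d4 : (f p).2 / k + 1 ≤ n := by
              have : (f p).2 / k < n := by linarith [hd2.1, hd2.2]
              linarith
            have m1 : (k : ℤ) * ((f p).1 / k + 1) ≤ k * n := mul_le_mul_of_nonneg_left d2 hkz.le
            have m2 : (k : ℤ) * ((f p).2 / k + 1) ≤ k * n := mul_le_mul_of_nonneg_left d4 hkz.le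
            have m3 : 0 ≤ (k : ℤ) * ((f p).1 / k) := mul_nonneg hkz.le d1
            have m4 : 0 ≤ (k : ℤ) * ((f p).2 / k) := mul_nonneg hkz.le d3
            apply hne
            refine ⟨⟨?_, ?_⟩, ?_, ?_⟩ <;> linarith
          rw [hw, zero_sub, neg_sq]
          have b7 : (cz n k W' (E p) / k) ^ 2 ≤ (L / (n * k)) ^ 2 := by
            refine pow_le_pow_left₀ (by positivity) ?_ 2
            rw [← div_div]
            exact div_le_div_of_nonneg_right v1 hk0.le
          rw [if_pos hst]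
          linarith
        · have hV : cz n k W' (E p) = 0 := by
            unfold cz
            rw [if_neg hEb]
          rw [hw, hV, zero_div, sub_zero]
          have : (0 : ℝ) ^ 2 = 0 := by norm_num
          rw [this]
          linarith
    linarith
  refine (sum_le_sum hpt).trans ?_
  rw [sum_add_distrib, ← mul_sum, ← mul_sum, sum_add_distrib, sum_add_distrib]
  have hfr : ∀ x, ((P.filter (fun p => f p = x)).card : ℝ) ≤ 16 := fun x => by exact_mod_cast hf x
  have hEr : ∀ x, ((P.filter (fun p => E p = x)).card : ℝ) ≤ 16 * (k : ℝ) ^ 2 := fun x => by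
    exact_mod_cast hE x
  have s1 := fib_sum hfr (board (n * k))
    (fun x => if x ∈ board (n * k) then (7 * C1 / ((n : ℝ) ^ 2 * k)) ^ 2 else 0)
    (fun x => by split_ifs <;> positivity) (fun x hx => if_neg hx)
  have s2 := fib_sum hfr (strip (n * k) (3 * k))
    (fun x => if x ∈ strip (n * k) (3 * k) then (L / ((n : ℝ) * k)) ^ 2 else 0)
    (fun x => by split_ifs <;> positivity) (fun x hx => if_neg hx)
  have s3 := fib_sum hEr (strip n 3)
    (fun x => if x ∈ strip n 3 then (L / ((n : ℝ) * k)) ^ 2 else 0)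
    (fun x => by split_ifs <;> positivity) (fun x hx => if_neg hx)
  have s4 := fib_sum hEr (board n) (fun x => (cz n k W' x - W x) ^ 2 / (k : ℝ) ^ 2)
    (fun x => by positivity) (fun x hx => by show (cz n k W' x - W x) ^ 2 / (k : ℝ) ^ 2 = 0; rw [hoff x hx]; simp)
  rw [sum_ind, board_card] at s1
  rw [sum_ind] at s2 s3
  rw [← sum_div (board n) (fun x => (cz n k W' x - W x) ^ 2)] at s4
  have t1 : 16 * (((n * k * (n * k) : ℕ) : ℝ) * (7 * C1 / ((n : ℝ) ^ 2 * k)) ^ 2) ≤ 784 * C1 ^ 2 / n := by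
    have e6 : 16 * (((n * k * (n * k) : ℕ) : ℝ) * (7 * C1 / ((n : ℝ) ^ 2 * k)) ^ 2) =
        784 * C1 ^ 2 / (n : ℝ) ^ 2 := by
      push_cast
      field_simp
      ring
    rw [e6]
    refine div_le_div_of_nonneg_left (by positivity) hn0 ?_
    nlinarith
  have t2 : 16 * (((strip (n * k) (3 * k)).card : ℝ) * (L / ((n : ℝ) * k)) ^ 2) ≤ 192 * L ^ 2 / n := by
    have c1 : ((strip (n * k) (3 * k)).card : ℝ) ≤ 12 * (n * (k : ℝ) ^ 2) := by
      have := strip_card (n * k) (3 * k)
      have h2 : ((strip (n * k) (3 * k)).card : ℝ) ≤ ((4 * (3 * k * (n * k)) : ℕ) : ℝ) := by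
        exact_mod_cast this
      refine h2.trans (le_of_eq ?_)
      push_cast
      ring
    calc 16 * (((strip (n * k) (3 * k)).card : ℝ) * (L / ((n : ℝ) * k)) ^ 2) ≤
        16 * ((12 * (n * (k : ℝ) ^ 2)) * (L / ((n : ℝ) * k)) ^ 2) := by gcongr
      _ = 192 * L ^ 2 / n := by
        field_simp
        ring
  have t3 : 16 * (k : ℝ) ^ 2 * (((strip n 3).card : ℝ) * (L / ((n : ℝ) * k)) ^ 2) ≤ 192 * L ^ 2 / n := by
    have c1 : ((strip n 3).card : ℝ) ≤ 12 * n := by
      have := strip_card n 3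
      have h2 : ((strip n 3).card : ℝ) ≤ ((4 * (3 * n) : ℕ) : ℝ) := by
        exact_mod_cast this
      refine h2.trans (le_of_eq ?_)
      push_cast
      ring
    calc 16 * (k : ℝ) ^ 2 * (((strip n 3).card : ℝ) * (L / ((n : ℝ) * k)) ^ 2) ≤
        16 * (k : ℝ) ^ 2 * ((12 * n) * (L / ((n : ℝ) * k)) ^ 2) := by gcongr
      _ = 192 * L ^ 2 / n := by
        field_simp
        ring
  have t4 : 16 * (k : ℝ) ^ 2 * ((∑ i ∈ board n, (cz n k W' i - W i) ^ 2) / (k : ℝ) ^ 2) ≤ 16 * C0 / n := by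
    have e7 : 16 * (k : ℝ) ^ 2 * ((∑ i ∈ board n, (cz n k W' i - W i) ^ 2) / (k : ℝ) ^ 2) =
        16 * ∑ i ∈ board n, (cz n k W' i - W i) ^ 2 := by
      field_simp
    rw [e7]
    have c2 : C0 / (n : ℝ) ^ 2 ≤ C0 / n := by
      refine div_le_div_of_nonneg_left hC0 hn0 ?_
      nlinarith
    calc 16 * ∑ i ∈ board n, (cz n k W' i - W i) ^ 2 ≤ 16 * (C0 / n) := by
          have := hVW.trans c2
          linarith
      _ = 16 * C0 / n := by ring
  have e8 : (1568 * C1 ^ 2 + 768 * L ^ 2 + 32 * C0) / n = 2 * (784 * C1 ^ 2 / n + 192 * L ^ 2 / n +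
      192 * L ^ 2 / n) + 2 * (16 * C0 / n) := by
    ring
  rw [e8]
  linarith

end Pool.Agent.NQF
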