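import Pool.Agent.NQF.FDefs
import Pool.Agent.NQF.LLCr
import Pool.Agent.NQF.LLJJ
import Pool.Agent.NQF.LLSum

/-!
# NQF-LLClo: the matrices of the boards `n k` and `n` are close in the Hilbert-Schmidt norm

PLAN. `P = ((JJ (n k)) ×ˢ (JJ (n k))).filter (fun p => p.1.1 ≠ p.2.1 ∧ pr p.1.1 p.2.1 p.1.2 p.2.2)`, `f p = cr p.1.1 p.2.1 p.1.2 p.2.2`,
`E p = cr p.1.1 p.2.1 (fi k p.1).2 (fi k p.2).2`. By `mm_cr` (both boards; `fi_fst`, `fi_pr`; `hR.adm.out`) the terms outside of `P` vanish and the term of `p ∈ P` is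
`(W' (f p) - W (E p)/k)²`. Fibres: `f p = x` implies `p = ((i, ln i x), (j, ln j x))` (`cr_iff`): at most 16. `E p = x` implies `fi k p.1 = (i, ln i x)`,
`fi k p.2 = (j, ln j x)`: at most `16 k²` (`fi_card`, `fi_mem`; the fibre in `JJ (n k)` of a line that is not in `JJ n` is empty). Distance: `cr_near`. Then `hs_sum`.
-/

set_option autoImplicit false

open Finset

namespace Pool.Agent.NQF

open Pool.Agent.NQ (board dsum F Ent Dg phi ln Q Qset QS NonAtt bern)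
open Pool.Agent.NQR (Adm Opt Bd Rf hS hD hh InR)
open Pool.Agent.NQL

private theorem fib_f {P : Finset (Li × Li)}
    (hP : ∀ p ∈ P, p.1.1 ≠ p.2.1 ∧ pr p.1.1 p.2.1 p.1.2 p.2.2) (x : ℤ × ℤ) :
    (P.filter (fun p => cr p.1.1 p.2.1 p.1.2 p.2.2 = x)).card ≤ 16 := by
  have hsub : P.filter (fun p => cr p.1.1 p.2.1 p.1.2 p.2.2 = x) ⊆
      (univ : Finset (Fin 4 × Fin 4)).image
        (fun ij => ((((ij.1, ln ij.1 x) : Li), ((ij.2, ln ij.2 x) : Li)) : Li × Li)) := by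
    intro p hp
    obtain ⟨hpP, hpx⟩ := mem_filter.mp hp
    obtain ⟨hne, hpr⟩ := hP p hpP
    obtain ⟨h1, h2⟩ := (cr_iff hne).mpr ⟨hpr, hpx.symm⟩
    refine mem_image.mpr ⟨(p.1.1, p.2.1), mem_univ _, ?_⟩
    refine Prod.ext (Prod.ext rfl ?_) (Prod.ext rfl ?_)
    · exact h1
    · exact h2
  refine (card_le_card hsub).trans (card_image_le.trans ?_)
  simp

private theorem fib_l {n k : ℕ} (hk : 1 ≤ k) (l : Li) :
    ((JJ (n * k)).filter (fun l' => fi k l' = l)).card ≤ k := by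
  by_cases h : l ∈ JJ n
  · exact (fi_card hk h).le
  · have h0 : (JJ (n * k)).filter (fun l' => fi k l' = l) = ∅ := by
      refine filter_eq_empty_iff.mpr (fun l' hl' h' => h ?_)
      rw [← h']
      exact (fi_mem hk).mp hl'
    rw [h0]
    simp

private theorem fib_E {n k : ℕ} (hk : 1 ≤ k) {P : Finset (Li × Li)} (hPJ : P ⊆ JJ (n * k) ×ˢ JJ (n * k))
    (hP : ∀ p ∈ P, p.1.1 ≠ p.2.1 ∧ pr p.1.1 p.2.1 p.1.2 p.2.2) (x : ℤ × ℤ) :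
    (P.filter (fun p => cr p.1.1 p.2.1 (fi k p.1).2 (fi k p.2).2 = x)).card ≤ 16 * k ^ 2 := by
  have hsub : P.filter (fun p => cr p.1.1 p.2.1 (fi k p.1).2 (fi k p.2).2 = x) ⊆
      (univ : Finset (Fin 4 × Fin 4)).biUnion (fun ij =>
        ((JJ (n * k)).filter (fun l' => fi k l' = ((ij.1, ln ij.1 x) : Li))) ×ˢ
          ((JJ (n * k)).filter (fun l' => fi k l' = ((ij.2, ln ij.2 x) : Li)))) := by
    intro p hp
    obtain ⟨hpP, hpx⟩ := mem_filter.mp hp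
    obtain ⟨hne, hpr⟩ := hP p hpP
    obtain ⟨hp1, hp2⟩ := mem_product.mp (hPJ hpP)
    have hpr' : pr p.1.1 p.2.1 (fi k p.1).2 (fi k p.2).2 :=
      (fi_pr (k := k) (i := p.1.1) (j := p.2.1) (s := p.1.2) (t := p.2.2)).mpr hpr
    obtain ⟨h1, h2⟩ := (cr_iff hne).mpr ⟨hpr', hpx.symm⟩
    refine mem_biUnion.mpr ⟨(p.1.1, p.2.1), mem_univ _, mem_product.mpr ⟨mem_filter.mpr ⟨hp1, ?_⟩,
      mem_filter.mpr ⟨hp2, ?_⟩⟩⟩
    · exact Prod.ext (fi_fst p.1).1 h1.symm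
    · exact Prod.ext (fi_fst p.2).1 h2.symm
  refine (card_le_card hsub).trans (card_biUnion_le.trans ?_)
  have h16 : ∑ _ij : Fin 4 × Fin 4, k * k = 16 * k ^ 2 := by
    simp [pow_two]
  rw [← h16]
  refine sum_le_sum (fun ij _ => ?_)
  rw [card_product]
  exact Nat.mul_le_mul (fib_l hk _) (fib_l hk _)

theorem mm_close {L C C0 : ℝ} (hL : 1 ≤ L) (hC : 0 ≤ C) (hC0 : 0 ≤ C0) : ∃ C1 : ℝ, 0 ≤ C1 ∧
    ∀ (n k : ℕ) (W W' : ℤ × ℤ → ℝ) (A B A' B' : ℤ → ℝ), 1 ≤ n → 1 ≤ k → Rf L n W A B → Rf L (n * k) W' A' B' →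
      Lp C (n * k) W' A' B' → ∑ e ∈ board n, (cz n k W' e - W e) ^ 2 ≤ C0 / (n : ℝ) ^ 2 →
      ∑ l ∈ JJ (n * k), ∑ l' ∈ JJ (n * k),
        (MM L4 (board (n * k)) W' l l' - MM L4 (board n) W (fi k l) (fi k l') / k) ^ 2 ≤ C1 / n := by
  obtain ⟨C1, hC1, H⟩ := hs_sum hL hC hC0
  refine ⟨C1, hC1, fun n k W W' A B A' B' hn hk hR hR' hLp hcz => ?_⟩
  set P : Finset (Li × Li) := ((JJ (n * k)) ×ˢ (JJ (n * k))).filter
    (fun p => p.1.1 ≠ p.2.1 ∧ pr p.1.1 p.2.1 p.1.2 p.2.2) with hPdef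
  have hP : ∀ p ∈ P, p.1.1 ≠ p.2.1 ∧ pr p.1.1 p.2.1 p.1.2 p.2.2 := fun p hp => (mem_filter.mp hp).2
  have hPJ : P ⊆ JJ (n * k) ×ˢ JJ (n * k) := filter_subset _ _
  have h1 : ∑ l ∈ JJ (n * k), ∑ l' ∈ JJ (n * k),
        (MM L4 (board (n * k)) W' l l' - MM L4 (board n) W (fi k l) (fi k l') / k) ^ 2 =
      ∑ p ∈ P, (W' (cr p.1.1 p.2.1 p.1.2 p.2.2) - W (cr p.1.1 p.2.1 (fi k p.1).2 (fi k p.2).2) / k) ^ 2 := by
    rw [← sum_product', hPdef, sum_filter]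
    refine sum_congr rfl (fun p _ => ?_)
    rw [mm_cr hR'.adm.out, mm_cr hR.adm.out, (fi_fst (k := k) p.1).1, (fi_fst (k := k) p.2).1]
    have hpr : pr p.1.1 p.2.1 (fi k p.1).2 (fi k p.2).2 ↔ pr p.1.1 p.2.1 p.1.2 p.2.2 :=
      fi_pr (k := k) (i := p.1.1) (j := p.2.1) (s := p.1.2) (t := p.2.2)
    by_cases hc : p.1.1 ≠ p.2.1 ∧ pr p.1.1 p.2.1 p.1.2 p.2.2
    · rw [if_pos hc, if_pos ⟨hc.1, hpr.mpr hc.2⟩, if_pos hc]
    · rw [if_neg hc, if_neg (fun h => hc ⟨h.1, hpr.mp h.2⟩), if_neg hc]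
      simp
  rw [h1]
  exact H n k W W' A B A' B' hn hk hR hR' hLp hcz P _ _ (fib_f hP) (fib_E hk hPJ hP)
    (fun p hp => cr_near hk (hP p hp).1 (hP p hp).2)

end Pool.Agent.NQF
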