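import Pool.Agent.NQF.FDefs

/-!
# NQF-LLCvx: concavity of log det

PLAN. `S` = a square root of `B⁻¹` or Cholesky: e.g. `B = Cᴴ C` with `C` invertible (`Matrix.PosDef` gives it; or use the spectral theorem). `M := C⁻ᴴ A C⁻¹` is positive definite,
`det M = det A/det B`, `tr M = tr (B⁻¹ A)` (`Matrix.trace_mul_cycle`/`trace_mul_comm`). With the eigenvalues `μ i > 0` of `M`
(`Matrix.IsHermitian.det_eq_prod_eigenvalues`, `Matrix.IsHermitian.trace_eq_sum_eigenvalues`, `Matrix.PosDef.eigenvalues_pos`):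
`log det M = ∑ log (μ i) ≤ ∑ (μ i - 1) = tr M - card = tr (B⁻¹ (A - B))`.
-/

set_option autoImplicit false

open Finset

namespace Pool.Agent.NQF

private theorem llcvx_aux {ι : Type} [Fintype ι] [DecidableEq ι] {M : Matrix ι ι ℝ}
    (hM : M.PosDef) : Real.log M.det ≤ Matrix.trace M - Fintype.card ι := by
  have h1 : M.det = ∏ i, hM.1.eigenvalues i := by
    have := hM.1.det_eq_prod_eigenvalues
    simpa using this
  have h2 : Matrix.trace M = ∑ i, hM.1.eigenvalues i := by
    have := hM.1.trace_eq_sum_eigenvalues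
    simpa using this
  rw [h1, h2, Real.log_prod (fun i _ => (hM.eigenvalues_pos i).ne')]
  have h3 : ∀ i ∈ (Finset.univ : Finset ι), Real.log (hM.1.eigenvalues i) ≤
      hM.1.eigenvalues i - 1 := fun i _ => Real.log_le_sub_one_of_pos (hM.eigenvalues_pos i)
  refine (Finset.sum_le_sum h3).trans ?_
  rw [Finset.sum_sub_distrib]
  simp

open scoped MatrixOrder in
private theorem llcvx_root {ι : Type} [Fintype ι] [DecidableEq ι] {B : Matrix ι ι ℝ}
    (hB : B.PosDef) : ∃ C : Matrix ι ι ℝ, B = C.conjTranspose * C :=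
  CStarAlgebra.nonneg_iff_eq_star_mul_self.mp hB.posSemidef.nonneg

theorem logdet_le {ι : Type} [Fintype ι] [DecidableEq ι] {A B : Matrix ι ι ℝ} (hA : A.PosDef) (hB : B.PosDef) :
    Real.log A.det ≤ Real.log B.det + Matrix.trace (B⁻¹ * (A - B)) := by
  obtain ⟨C, hC⟩ := llcvx_root hB
  have hBu : IsUnit B.det := (Matrix.isUnit_iff_isUnit_det _).1 hB.isUnit
  have hdB : B.det = C.det * C.det := by
    rw [hC, Matrix.det_mul, Matrix.det_conjTranspose, star_trivial]
  have hCu : IsUnit C.det := by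
    rw [hdB] at hBu
    exact isUnit_of_mul_isUnit_left hBu
  have hT1 : C⁻¹.det * C.det = 1 := by
    rw [← Matrix.det_mul, Matrix.nonsing_inv_mul _ hCu, Matrix.det_one]
  have hTu : IsUnit C⁻¹ := Matrix.isUnit_nonsing_inv_iff.2 ((Matrix.isUnit_iff_isUnit_det _).2 hCu)
  have hM : (C⁻¹.conjTranspose * A * C⁻¹).PosDef :=
    hA.conjTranspose_mul_mul_same (Matrix.mulVec_injective_iff_isUnit.2 hTu)
  have h1 := llcvx_aux hM
  have hdM : (C⁻¹.conjTranspose * A * C⁻¹).det * B.det = A.det := by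
    rw [Matrix.det_mul, Matrix.det_mul, Matrix.det_conjTranspose, star_trivial, hdB]
    calc C⁻¹.det * A.det * C⁻¹.det * (C.det * C.det)
        = A.det * (C⁻¹.det * C.det) * (C⁻¹.det * C.det) := by ring
      _ = A.det := by rw [hT1, mul_one, mul_one]
  have hBi : B⁻¹ = C⁻¹ * C⁻¹.conjTranspose := by
    rw [hC, Matrix.mul_inv_rev, Matrix.conjTranspose_nonsing_inv]
  have htr : Matrix.trace (C⁻¹.conjTranspose * A * C⁻¹) = Matrix.trace (B⁻¹ * A) := by
    rw [hBi, Matrix.trace_mul_comm, ← Matrix.mul_assoc]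
  have htr2 : Matrix.trace (B⁻¹ * (A - B)) = Matrix.trace (B⁻¹ * A) - Fintype.card ι := by
    rw [Matrix.mul_sub, Matrix.trace_sub, Matrix.nonsing_inv_mul _ hBu, Matrix.trace_one]
  have hlog : Real.log A.det = Real.log (C⁻¹.conjTranspose * A * C⁻¹).det + Real.log B.det := by
    rw [← Real.log_mul hM.det_pos.ne' hB.det_pos.ne', hdM]
  rw [htr] at h1
  rw [hlog, htr2]
  linarith

end Pool.Agent.NQF
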