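import Pool.Agent.NQF.FDefs

/-!
# NQF-LLTr: a trace estimate

PLAN. `B` is invertible (`hB`: `B u = 0` gives `u = 0`). `tr (B⁻¹ D) = tr ((B⁻¹ - 1) D)` as `tr D = 0`, and `|tr (X D)| ≤ ‖X‖ ‖D‖` with `‖X‖² = ∑ X i j²`
(Cauchy-Schwarz on `ι × ι`). `B⁻¹ - 1 = B⁻¹ (1 - B)`. For every vector `x`, `y = B⁻¹ x`: `lam |y|² ≤ y ⬝ B y = y ⬝ x ≤ |y| |x|`, so
`lam² |y|² ≤ |x|²`; apply it to the columns of `1 - B`: `lam² ‖B⁻¹ (1 - B)‖² ≤ ‖1 - B‖²`.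
-/

set_option autoImplicit false

open Finset

namespace Pool.Agent.NQF

private theorem lltr_quad {ι : Type} [Fintype ι] (B : Matrix ι ι ℝ) (u : ι → ℝ) :
    ∑ i, ∑ j, B i j * u i * u j = ∑ i, u i * (B.mulVec u) i := by
  refine Finset.sum_congr rfl fun i _ => ?_
  rw [Matrix.mulVec, dotProduct, Finset.mul_sum]
  exact Finset.sum_congr rfl fun j _ => by ring

private theorem lltr_det {ι : Type} [Fintype ι] [DecidableEq ι] {B : Matrix ι ι ℝ} {lam : ℝ} (hl : 0 < lam)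
    (hB : ∀ u : ι → ℝ, lam * ∑ i, u i ^ 2 ≤ ∑ i, ∑ j, B i j * u i * u j) : IsUnit B.det := by
  rw [isUnit_iff_ne_zero]
  intro h0
  obtain ⟨v, hv, hv0⟩ := Matrix.exists_mulVec_eq_zero_iff.mpr h0
  apply hv
  have h1 := hB v
  rw [lltr_quad, hv0] at h1
  simp only [Pi.zero_apply, mul_zero, Finset.sum_const_zero] at h1
  have h2 : ∑ i, v i ^ 2 ≤ 0 := by
    by_contra h4
    push Not at h4
    nlinarith [mul_pos hl h4]
  funext i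
  have h3 : v i ^ 2 ≤ ∑ i, v i ^ 2 :=
    Finset.single_le_sum (f := fun l => v l ^ 2) (fun l _ => sq_nonneg _) (Finset.mem_univ i)
  have h4 : v i ^ 2 = 0 := le_antisymm (h3.trans h2) (sq_nonneg _)
  simpa using h4

private theorem lltr_vec {ι : Type} [Fintype ι] {B : Matrix ι ι ℝ} {lam : ℝ} (hl : 0 < lam)
    (hB : ∀ u : ι → ℝ, lam * ∑ i, u i ^ 2 ≤ ∑ i, ∑ j, B i j * u i * u j) (y : ι → ℝ) :
    (∑ i, y i ^ 2) * lam ^ 2 ≤ ∑ i, (B.mulVec y) i ^ 2 := by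
  have h3 := hB y
  rw [lltr_quad] at h3
  have h4 := Finset.sum_mul_sq_le_sq_mul_sq Finset.univ y (B.mulVec y)
  have hV : 0 ≤ ∑ l, y l ^ 2 := Finset.sum_nonneg fun l _ => sq_nonneg _
  have hU : 0 ≤ ∑ l, (B.mulVec y) l ^ 2 := Finset.sum_nonneg fun l _ => sq_nonneg _
  rcases hV.eq_or_lt with h0 | h0
  · rw [← h0]; simpa using hU
  · have h5 : (lam * ∑ l, y l ^ 2) ^ 2 ≤ (∑ l, y l ^ 2) * ∑ l, (B.mulVec y) l ^ 2 := by
      refine le_trans ?_ h4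
      exact pow_le_pow_left₀ (by positivity) h3 2
    have h6 : (∑ l, y l ^ 2) * ((∑ l, y l ^ 2) * lam ^ 2) ≤
        (∑ l, y l ^ 2) * ∑ l, (B.mulVec y) l ^ 2 := by
      refine le_trans (le_of_eq ?_) h5
      ring
    exact le_of_mul_le_mul_left h6 h0

theorem tr_le {ι : Type} [Fintype ι] [DecidableEq ι] {B D : Matrix ι ι ℝ} {lam : ℝ} (hl : 0 < lam)
    (hB : ∀ u : ι → ℝ, lam * ∑ i, u i ^ 2 ≤ ∑ i, ∑ j, B i j * u i * u j) (hD : Matrix.trace D = 0) :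
    |Matrix.trace (B⁻¹ * D)| ≤
      Real.sqrt (∑ i, ∑ j, (B i j - if i = j then 1 else 0) ^ 2) * Real.sqrt (∑ i, ∑ j, D i j ^ 2) / lam := by
  have hu := lltr_det hl hB
  have hX : B⁻¹ - 1 = B⁻¹ * (1 - B) := by
    rw [Matrix.mul_sub, Matrix.mul_one, Matrix.nonsing_inv_mul B hu]
  have hBX : B * (B⁻¹ - 1) = 1 - B := by
    rw [hX, ← Matrix.mul_assoc, Matrix.mul_nonsing_inv B hu, Matrix.one_mul]
  have h1 : Matrix.trace (B⁻¹ * D) = Matrix.trace ((B⁻¹ - 1) * D) := by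
    rw [Matrix.sub_mul, Matrix.one_mul, Matrix.trace_sub, hD, sub_zero]
  have h2 : Matrix.trace ((B⁻¹ - 1) * D) = ∑ p : ι × ι, (B⁻¹ - 1) p.1 p.2 * D p.2 p.1 := by
    rw [Fintype.sum_prod_type]
    rfl
  have h3 := Finset.sum_mul_sq_le_sq_mul_sq (Finset.univ : Finset (ι × ι))
    (fun p => (B⁻¹ - 1) p.1 p.2) (fun p => D p.2 p.1)
  have h4 : ∑ p : ι × ι, D p.2 p.1 ^ 2 = ∑ i, ∑ j, D i j ^ 2 := by
    rw [Fintype.sum_prod_type, Finset.sum_comm]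
  have h5 : (∑ p : ι × ι, (B⁻¹ - 1) p.1 p.2 ^ 2) * lam ^ 2 ≤
      ∑ i, ∑ j, (B i j - if i = j then 1 else 0) ^ 2 := by
    rw [Fintype.sum_prod_type, Finset.sum_comm, Finset.sum_comm (γ := ι) (f := fun i j =>
      (B i j - if i = j then 1 else 0) ^ 2), Finset.sum_mul]
    refine Finset.sum_le_sum fun j _ => ?_
    have h6 := lltr_vec hl hB (fun i => (B⁻¹ - 1) i j)
    refine h6.trans (le_of_eq ?_)
    refine Finset.sum_congr rfl fun i _ => ?_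
    have h7 : (B.mulVec fun i => (B⁻¹ - 1) i j) i = (1 - B) i j := by
      rw [← hBX]
      rfl
    rw [h7, Matrix.sub_apply, Matrix.one_apply]
    ring
  have hS0 : 0 ≤ ∑ i, ∑ j, (B i j - if i = j then 1 else 0) ^ 2 :=
    Finset.sum_nonneg fun _ _ => Finset.sum_nonneg fun _ _ => sq_nonneg _
  have hD0 : 0 ≤ ∑ i, ∑ j, D i j ^ 2 :=
    Finset.sum_nonneg fun _ _ => Finset.sum_nonneg fun _ _ => sq_nonneg _
  rw [h1, h2, le_div_iff₀ hl]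
  rw [h4] at h3
  have h8 : (|∑ p : ι × ι, (B⁻¹ - 1) p.1 p.2 * D p.2 p.1| * lam) ^ 2 ≤
      (Real.sqrt (∑ i, ∑ j, (B i j - if i = j then 1 else 0) ^ 2) *
        Real.sqrt (∑ i, ∑ j, D i j ^ 2)) ^ 2 := by
    rw [mul_pow, sq_abs, mul_pow, Real.sq_sqrt hS0, Real.sq_sqrt hD0]
    calc (∑ p : ι × ι, (B⁻¹ - 1) p.1 p.2 * D p.2 p.1) ^ 2 * lam ^ 2 ≤
          ((∑ p : ι × ι, (B⁻¹ - 1) p.1 p.2 ^ 2) * ∑ i, ∑ j, D i j ^ 2) * lam ^ 2 :=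
          mul_le_mul_of_nonneg_right h3 (by positivity)
      _ = ((∑ p : ι × ι, (B⁻¹ - 1) p.1 p.2 ^ 2) * lam ^ 2) * ∑ i, ∑ j, D i j ^ 2 := by ring
      _ ≤ _ := mul_le_mul_of_nonneg_right h5 hD0
  exact (pow_le_pow_iff_left₀ (by positivity) (by positivity) two_ne_zero).mp h8

end Pool.Agent.NQF
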