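import Pool.Agent.NQF.FDefs
import Pool.Agent.NQF.LLCvx
import Pool.Agent.NQF.LLTr

/-!
# NQF-LLDif: comparison of two determinants
-/

set_option autoImplicit false

open Finset

namespace Pool.Agent.NQF

private theorem dif_sum {α : Type} {J : Finset α} (Φ : α → α → ℝ) :
    ∑ i : J, ∑ j : J, Φ i j = ∑ l ∈ J, ∑ l' ∈ J, Φ l l' := by
  rw [← Finset.sum_coe_sort J (fun l => ∑ l' ∈ J, Φ l l')]
  refine Finset.sum_congr rfl fun i _ => ?_
  exact Finset.sum_coe_sort J (fun l' => Φ i l')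

private theorem dif_co {α : Type} [DecidableEq α] {J : Finset α} {A : α → α → ℝ} {lam : ℝ}
    (hA2 : ∀ u : α → ℝ, lam * ∑ l ∈ J, u l ^ 2 ≤ ∑ l ∈ J, ∑ l' ∈ J, A l l' * u l * u l')
    (v : J → ℝ) : lam * ∑ i, v i ^ 2 ≤
      ∑ i, ∑ j, Matrix.of (fun i j : J => A i j) i j * v i * v j := by
  obtain ⟨u, hu⟩ : ∃ u : α → ℝ, ∀ i : J, u i = v i :=
    ⟨fun l => if h : l ∈ J then v ⟨l, h⟩ else 0, fun i => by simp⟩
  have h1 : ∑ i, v i ^ 2 = ∑ l ∈ J, u l ^ 2 := by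
    rw [← Finset.sum_coe_sort J (fun l => u l ^ 2)]
    exact Finset.sum_congr rfl fun i _ => by rw [hu]
  have h2 : ∑ i, ∑ j, Matrix.of (fun i j : J => A i j) i j * v i * v j =
      ∑ l ∈ J, ∑ l' ∈ J, A l l' * u l * u l' := by
    rw [← dif_sum (fun l l' => A l l' * u l * u l')]
    refine Finset.sum_congr rfl fun i _ => Finset.sum_congr rfl fun j _ => ?_
    rw [hu, hu, Matrix.of_apply]
  rw [h1, h2]
  exact hA2 u

private theorem dif_pd {α : Type} [DecidableEq α] {J : Finset α} {A : α → α → ℝ} {lam : ℝ}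
    (hl : 0 < lam) (hA : ∀ l ∈ J, ∀ l' ∈ J, A l l' = A l' l)
    (hA2 : ∀ u : α → ℝ, lam * ∑ l ∈ J, u l ^ 2 ≤ ∑ l ∈ J, ∑ l' ∈ J, A l l' * u l * u l') :
    (Matrix.of (fun i j : J => A i j)).PosDef := by
  refine Matrix.PosDef.of_dotProduct_mulVec_pos ?_ ?_
  · ext i j
    rw [Matrix.conjTranspose_apply, Matrix.of_apply, Matrix.of_apply, star_trivial]
    exact hA _ j.2 _ i.2
  · intro v hv
    have h1 := dif_co hA2 v
    have h2 : star v ⬝ᵥ (Matrix.of (fun i j : J => A i j)).mulVec v =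
        ∑ i, ∑ j, Matrix.of (fun i j : J => A i j) i j * v i * v j := by
      unfold dotProduct Matrix.mulVec dotProduct
      refine Finset.sum_congr rfl fun i _ => ?_
      rw [Pi.star_apply, star_trivial, Finset.mul_sum]
      exact Finset.sum_congr rfl fun j _ => by ring
    have h3 : 0 < ∑ i, v i ^ 2 := by
      obtain ⟨i, hi⟩ : ∃ i, v i ≠ 0 := by
        by_contra h
        push Not at h
        exact hv (funext h)
      exact Finset.sum_pos' (fun _ _ => sq_nonneg _) ⟨i, Finset.mem_univ _, by positivity⟩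
    rw [h2]
    exact lt_of_lt_of_le (mul_pos hl h3) h1

private theorem dif_one {α : Type} [DecidableEq α] {J : Finset α} {A B : α → α → ℝ} {lam : ℝ}
    (hl : 0 < lam)
    (hA : ∀ l ∈ J, ∀ l' ∈ J, A l l' = A l' l) (hB : ∀ l ∈ J, ∀ l' ∈ J, B l l' = B l' l)
    (hA2 : ∀ u : α → ℝ, lam * ∑ l ∈ J, u l ^ 2 ≤ ∑ l ∈ J, ∑ l' ∈ J, A l l' * u l * u l')
    (hB2 : ∀ u : α → ℝ, lam * ∑ l ∈ J, u l ^ 2 ≤ ∑ l ∈ J, ∑ l' ∈ J, B l l' * u l * u l')
    (ht : ∀ l ∈ J, A l l = B l l) :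
    LD J A - LD J B ≤ Real.sqrt (∑ l ∈ J, ∑ l' ∈ J, (B l l' - if l = l' then 1 else 0) ^ 2) *
      Real.sqrt (∑ l ∈ J, ∑ l' ∈ J, (A l l' - B l l') ^ 2) / lam := by
  have h1 := logdet_le (dif_pd hl hA hA2) (dif_pd hl hB hB2)
  have h2 : Matrix.trace (Matrix.of (fun i j : J => A i j) - Matrix.of (fun i j : J => B i j)) =
      0 := by
    unfold Matrix.trace
    refine Finset.sum_eq_zero fun i _ => ?_
    rw [Matrix.diag_apply, Matrix.sub_apply, Matrix.of_apply, Matrix.of_apply, ht _ i.2, sub_self]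
  have h3 := tr_le (B := Matrix.of (fun i j : J => B i j)) hl (dif_co hB2) h2
  have h4 : ∑ i : J, ∑ j : J, (Matrix.of (fun i j : J => B i j) i j - if i = j then 1 else 0) ^ 2 =
      ∑ l ∈ J, ∑ l' ∈ J, (B l l' - if l = l' then 1 else 0) ^ 2 := by
    rw [← dif_sum (fun l l' => (B l l' - if l = l' then 1 else 0) ^ 2)]
    refine Finset.sum_congr rfl fun i _ => Finset.sum_congr rfl fun j _ => ?_
    rw [Matrix.of_apply]
    by_cases hij : i = j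
    · rw [if_pos hij, if_pos (congrArg Subtype.val hij)]
    · rw [if_neg hij, if_neg fun h => hij (Subtype.ext h)]
  have h5 : ∑ i : J, ∑ j : J, (Matrix.of (fun i j : J => A i j) -
      Matrix.of (fun i j : J => B i j)) i j ^ 2 =
      ∑ l ∈ J, ∑ l' ∈ J, (A l l' - B l l') ^ 2 := by
    rw [← dif_sum (fun l l' => (A l l' - B l l') ^ 2)]
    refine Finset.sum_congr rfl fun i _ => Finset.sum_congr rfl fun j _ => ?_
    rw [Matrix.sub_apply, Matrix.of_apply, Matrix.of_apply]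
  rw [h4, h5] at h3
  have h6 := (abs_le.1 h3).2
  unfold LD
  linarith

theorem ld_diff {α : Type} [DecidableEq α] {J : Finset α} {A B : α → α → ℝ} {lam : ℝ} (hl : 0 < lam)
    (hA : ∀ l ∈ J, ∀ l' ∈ J, A l l' = A l' l) (hB : ∀ l ∈ J, ∀ l' ∈ J, B l l' = B l' l)
    (hA2 : ∀ u : α → ℝ, lam * ∑ l ∈ J, u l ^ 2 ≤ ∑ l ∈ J, ∑ l' ∈ J, A l l' * u l * u l')
    (hB2 : ∀ u : α → ℝ, lam * ∑ l ∈ J, u l ^ 2 ≤ ∑ l ∈ J, ∑ l' ∈ J, B l l' * u l * u l')
    (ht : ∀ l ∈ J, A l l = B l l) :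
    |LD J A - LD J B| ≤
      (Real.sqrt (∑ l ∈ J, ∑ l' ∈ J, (A l l' - if l = l' then 1 else 0) ^ 2) +
        Real.sqrt (∑ l ∈ J, ∑ l' ∈ J, (B l l' - if l = l' then 1 else 0) ^ 2)) *
      Real.sqrt (∑ l ∈ J, ∑ l' ∈ J, (A l l' - B l l') ^ 2) / lam := by
  have h1 := dif_one hl hA hB hA2 hB2 ht
  have h2 := dif_one hl hB hA hB2 hA2 fun l hl' => (ht l hl').symm
  have h3 : ∑ l ∈ J, ∑ l' ∈ J, (B l l' - A l l') ^ 2 = ∑ l ∈ J, ∑ l' ∈ J, (A l l' - B l l') ^ 2 :=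
    Finset.sum_congr rfl fun l _ => Finset.sum_congr rfl fun l' _ => by ring
  rw [h3] at h2
  obtain ⟨a, ha⟩ : ∃ a, a = Real.sqrt (∑ l ∈ J, ∑ l' ∈ J, (A l l' - if l = l' then 1 else 0) ^ 2) :=
    ⟨_, rfl⟩
  obtain ⟨b, hb⟩ : ∃ b, b = Real.sqrt (∑ l ∈ J, ∑ l' ∈ J, (B l l' - if l = l' then 1 else 0) ^ 2) :=
    ⟨_, rfl⟩
  obtain ⟨d, hd⟩ : ∃ d, d = Real.sqrt (∑ l ∈ J, ∑ l' ∈ J, (A l l' - B l l') ^ 2) := ⟨_, rfl⟩
  rw [← hb, ← hd] at h1
  rw [← ha, ← hd] at h2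
  rw [← ha, ← hb, ← hd]
  have ha0 : 0 ≤ a := ha ▸ Real.sqrt_nonneg _
  have hb0 : 0 ≤ b := hb ▸ Real.sqrt_nonneg _
  have hd0 : 0 ≤ d := hd ▸ Real.sqrt_nonneg _
  have h4 : (a + b) * d / lam = a * d / lam + b * d / lam := by ring
  have h5 : 0 ≤ a * d / lam := by positivity
  have h6 : 0 ≤ b * d / lam := by positivity
  rw [h4, abs_le]
  constructor <;> linarith

end Pool.Agent.NQF
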