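import Pool.Agent.NQF.FDefs
import Pool.Agent.NQF.LLJJ
import Pool.Agent.NQF.LLFul

/-!
# NQF-LLHS: the matrix of the board is bounded in the Hilbert-Schmidt norm

PLAN. `AA - 1 = MM + ga ga'/(2N)`, `(a+b)² ≤ 2 a² + 2 b²`; `∑ MM² ≤ 16 ∑_e W e² ≤ 16 L²`: for `l ≠ l'` the sum `MM` has at most one term (two different lines have at most
one common square: `two_lines` if the types differ, none if the types agree), so `MM² = ∑_{e ∈ board N, l, l' ∈ L4 e} W e²`; exchange the sums, at most 16 pairs `(l, l')` per square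
(`(L4 e).card ≤ 4`); `W e ≤ L/N` (`hR.bd.hi`), `N²` squares. `∑_{JJ N} ga² = 2 N` (rows and columns), so `∑ (ga ga'/(2N))² = (∑ ga²)²/(4N²) = 1`. Total `≤ 32 L² + 2`.
-/

set_option autoImplicit false

open Finset

namespace Pool.Agent.NQF

open Pool.Agent.NQ (board dsum F Ent Dg phi ln Q Qset QS NonAtt bern)
open Pool.Agent.NQR (Adm Opt Bd Rf hS hD hh InR)
open Pool.Agent.NQL

private theorem lhs_one (N : ℕ) (W : ℤ × ℤ → ℝ) (l l' : Li) :
    MM L4 (board N) W l l' ^ 2 ≤ ∑ e ∈ board N, if l ∈ L4 e ∧ l' ∈ L4 e then W e ^ 2 else 0 := by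
  unfold MM
  split_ifs with h
  · rw [zero_pow two_ne_zero]
    exact Finset.sum_nonneg (fun e _ => by split_ifs <;> positivity)
  · rw [← Finset.sum_filter]
    have hc : ((board N).filter (fun e => l ∈ L4 e ∧ l' ∈ L4 e)).card ≤ 1 := by
      rw [Finset.card_le_one]
      intro e he f hf
      rw [Finset.mem_filter, mem_L4, mem_L4] at he hf
      by_cases ht : l.1 = l'.1
      · exfalso
        apply h
        refine Prod.ext ht ?_
        rw [← he.2.1, ← he.2.2, ht]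
      · exact two_lines ht (he.2.1.trans hf.2.1.symm) (he.2.2.trans hf.2.2.symm)
    rcases Finset.card_le_one_iff_subset_singleton.1 hc with ⟨e, he⟩
    rcases Finset.subset_singleton_iff.1 he with h0 | h1
    · rw [h0]; simp
    · rw [h1]; simp

private theorem lhs_card (e : ℤ × ℤ) : (L4 e).card ≤ 4 := by
  unfold L4
  exact (Finset.card_image_le).trans (by simp)

private theorem lhs_pairs (N : ℕ) (W : ℤ × ℤ → ℝ) :
    ∑ l ∈ JJ N, ∑ l' ∈ JJ N, MM L4 (board N) W l l' ^ 2 ≤ 16 * ∑ e ∈ board N, W e ^ 2 := by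
  calc ∑ l ∈ JJ N, ∑ l' ∈ JJ N, MM L4 (board N) W l l' ^ 2
      ≤ ∑ l ∈ JJ N, ∑ l' ∈ JJ N, ∑ e ∈ board N, (if l ∈ L4 e ∧ l' ∈ L4 e then W e ^ 2 else 0) :=
        Finset.sum_le_sum (fun l _ => Finset.sum_le_sum (fun l' _ => lhs_one N W l l'))
    _ = ∑ e ∈ board N, ∑ l ∈ JJ N, ∑ l' ∈ JJ N, (if l ∈ L4 e ∧ l' ∈ L4 e then W e ^ 2 else 0) := by
        have : ∀ l ∈ JJ N, ∑ l' ∈ JJ N, ∑ e ∈ board N, (if l ∈ L4 e ∧ l' ∈ L4 e then W e ^ 2 else 0) =
          ∑ e ∈ board N, ∑ l' ∈ JJ N, (if l ∈ L4 e ∧ l' ∈ L4 e then W e ^ 2 else 0) := by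
          intro l _
          rw [Finset.sum_comm]
        rw [Finset.sum_congr rfl this, Finset.sum_comm]
    _ ≤ ∑ e ∈ board N, 16 * W e ^ 2 := by
        apply Finset.sum_le_sum
        intro e _
        have h1 : ∑ l ∈ JJ N, ∑ l' ∈ JJ N, (if l ∈ L4 e ∧ l' ∈ L4 e then W e ^ 2 else 0) =
            (((JJ N).filter (fun l => l ∈ L4 e)).card : ℝ) * ((((JJ N).filter (fun l => l ∈ L4 e)).card : ℝ) * W e ^ 2) := by
          have h2 : ∀ l ∈ JJ N, ∑ l' ∈ JJ N, (if l ∈ L4 e ∧ l' ∈ L4 e then W e ^ 2 else 0) =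
              if l ∈ L4 e then ((((JJ N).filter (fun l => l ∈ L4 e)).card : ℝ) * W e ^ 2) else 0 := by
            intro l _
            by_cases hl : l ∈ L4 e
            · simp only [hl, true_and, if_true]
              rw [← Finset.sum_filter, Finset.sum_const, nsmul_eq_mul]
            · simp [hl]
          rw [Finset.sum_congr rfl h2, ← Finset.sum_filter, Finset.sum_const, nsmul_eq_mul]
        rw [h1]
        have hc : (((JJ N).filter (fun l => l ∈ L4 e)).card : ℝ) ≤ 4 := by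
          have h3 : ((JJ N).filter (fun l => l ∈ L4 e)) ⊆ L4 e := by
            intro l hl
            exact (Finset.mem_filter.1 hl).2
          exact_mod_cast (Finset.card_le_card h3).trans (lhs_card e)
        have h0 : (0 : ℝ) ≤ (((JJ N).filter (fun l => l ∈ L4 e)).card : ℝ) := Nat.cast_nonneg _
        have hw := sq_nonneg (W e)
        nlinarith [mul_nonneg h0 hw, mul_le_mul hc hc h0 (by norm_num : (0 : ℝ) ≤ 4)]
    _ = 16 * ∑ e ∈ board N, W e ^ 2 := by rw [Finset.mul_sum]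

private theorem lhs_ga (N : ℕ) : ∑ l ∈ JJ N, ga l ^ 2 = 2 * N := by
  unfold JJ
  rw [Finset.sum_union]
  · rw [Finset.sum_product, Finset.sum_product]
    have h2 : ∑ x ∈ ({2, 3} : Finset (Fin 4)), ∑ y ∈ Finset.Ico (-(2 * (N : ℤ))) (2 * N), ga (x, y) ^ 2 = 0 := by
      apply Finset.sum_eq_zero
      intro x hx
      apply Finset.sum_eq_zero
      intro y _
      simp only [Finset.mem_insert, Finset.mem_singleton] at hx
      rcases hx with rfl | rfl <;> simp [ga]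
    rw [h2, Finset.sum_pair (by decide)]
    simp [ga]
    ring
  · rw [Finset.disjoint_left]
    rintro ⟨a, b⟩ h1 h2
    simp only [Finset.mem_product, Finset.mem_insert, Finset.mem_singleton] at h1 h2
    rcases h1.1 with rfl | rfl <;> rcases h2.1 with h | h <;> exact absurd h (by decide)

theorem aa_hs {L : ℝ} (hL : 1 ≤ L) {N : ℕ} (hN : 1 ≤ N) {W : ℤ × ℤ → ℝ} {A B : ℤ → ℝ} (hR : Rf L N W A B) :
    ∑ l ∈ JJ N, ∑ l' ∈ JJ N, (MM L4 (board N) W l l' + ga l * ga l' / (2 * N)) ^ 2 ≤ 32 * L ^ 2 + 2 := by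
  have hN' : (0 : ℝ) < N := by exact_mod_cast hN
  have hW : ∑ e ∈ board N, W e ^ 2 ≤ L ^ 2 := by
    calc ∑ e ∈ board N, W e ^ 2 ≤ ∑ e ∈ board N, (L / N) ^ 2 := by
          apply Finset.sum_le_sum
          intro e he
          have h1 := hR.bd.lo e he
          have h2 := hR.bd.hi e he
          have h3 : (0 : ℝ) < 1 / (L * N) := by positivity
          exact pow_le_pow_left₀ (by linarith) h2 2
      _ = L ^ 2 := by
          rw [Finset.sum_const, nsmul_eq_mul]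
          have : (board N).card = N * N := by simp [board]
          rw [this]
          push_cast
          field_simp
  have h1 := lhs_pairs N W
  have h2 : ∑ l ∈ JJ N, ∑ l' ∈ JJ N, (ga l * ga l' / (2 * N)) ^ 2 = 1 := by
    have h3 : ∀ l ∈ JJ N, ∑ l' ∈ JJ N, (ga l * ga l' / (2 * N)) ^ 2 = ga l ^ 2 * (1 / (2 * N)) := by
      intro l _
      have h4 : ∀ l' ∈ JJ N, (ga l * ga l' / (2 * N)) ^ 2 = (ga l ^ 2 / (2 * N) ^ 2) * ga l' ^ 2 := by
        intro l' _
        ring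
      rw [Finset.sum_congr rfl h4, ← Finset.mul_sum, lhs_ga]
      field_simp
    rw [Finset.sum_congr rfl h3, ← Finset.sum_mul, lhs_ga]
    field_simp
  have h5 : ∑ l ∈ JJ N, ∑ l' ∈ JJ N, (MM L4 (board N) W l l' + ga l * ga l' / (2 * N)) ^ 2 ≤
      ∑ l ∈ JJ N, ∑ l' ∈ JJ N, (2 * MM L4 (board N) W l l' ^ 2 + 2 * (ga l * ga l' / (2 * N)) ^ 2) := by
    apply Finset.sum_le_sum
    intro l _
    apply Finset.sum_le_sum
    intro l' _
    nlinarith [sq_nonneg (MM L4 (board N) W l l' - ga l * ga l' / (2 * N))]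
  have h6 : ∑ l ∈ JJ N, ∑ l' ∈ JJ N, (2 * MM L4 (board N) W l l' ^ 2 + 2 * (ga l * ga l' / (2 * N)) ^ 2) =
      2 * (∑ l ∈ JJ N, ∑ l' ∈ JJ N, MM L4 (board N) W l l' ^ 2) +
        2 * (∑ l ∈ JJ N, ∑ l' ∈ JJ N, (ga l * ga l' / (2 * N)) ^ 2) := by
    simp only [Finset.sum_add_distrib, Finset.mul_sum]
  rw [h6, h2] at h5
  linarith

end Pool.Agent.NQF
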