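import Pool.Agent.NQF.FDefs
import Pool.Agent.NQF.FCoa
import Pool.Agent.NQF.FBlk
import Pool.Agent.NQL.ERef
import Pool.Agent.NQR.PKl

/-!
# NQF-LLNea: the coarse weights are close to the maximiser in the quadratic mean

PLAN. `V = cz n k W'`. `coarse2`: `Adm n V`, `F (n k) W' ≤ k F n V + n k log k + C3 k/n`; `refine_board` and `hO'.2`: `k F n W + n k log k ≤ F (n k) W'`. So `F n W - F n V ≤ C3/n`.
`kl_le` (NQR.PKl; `W > 0`, `dsum < 1` from `hR.bd`): `KL n V W ≤ C3/n`. `hell`: `V e - W e + (√(V e) - √(W e))² ≤ V e log (V e/W e)`, summed: `∑ V = ∑ W = n` (`adm_mass`, NQR.PFoc), so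
`∑ (√V - √W)² ≤ C3/n`. `V e, W e ≤ L/n` (`cz_hi`, `hR.bd.hi`): `(V - W)² = (√V - √W)² (√V + √W)² ≤ (4 L/n) (√V - √W)²`. `C0 = 4 L C3`.
-/

set_option autoImplicit false

open Finset

namespace Pool.Agent.NQF

open Pool.Agent.NQ (board dsum F Ent Dg phi ln Q Qset QS NonAtt bern)
open Pool.Agent.NQR (Adm Opt Bd Rf hS hD hh InR)
open Pool.Agent.NQL

theorem cz_near {L C : ℝ} (hL : 1 ≤ L) (hC : 0 ≤ C) : ∃ (C0 : ℝ) (n0 : ℕ), 0 ≤ C0 ∧
    ∀ (n k : ℕ) (W W' : ℤ × ℤ → ℝ) (A B A' B' : ℤ → ℝ), n0 ≤ n → 1 ≤ n → 1 ≤ k → Opt n W → Rf L n W A B →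
      Opt (n * k) W' → Rf L (n * k) W' A' B' → Lp C (n * k) W' A' B' →
      ∑ e ∈ board n, (cz n k W' e - W e) ^ 2 ≤ C0 / (n : ℝ) ^ 2 := by
  obtain ⟨C3, n0, hC3, hco⟩ := coarse2 hL hC
  refine ⟨4 * L * C3, n0, by positivity, ?_⟩
  intro n k W W' A B A' B' hn0 hn hk hO hR hO' hR' hLp
  obtain ⟨hV, h1⟩ := hco n k W' A' B' hn0 hn hk hR' hLp
  obtain ⟨V', hV', h2⟩ := refine_board hn hk hR.adm
  have h3 := hO'.2 V' hV'
  have hn' : (0 : ℝ) < n := by exact_mod_cast hn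
  have hk' : (0 : ℝ) < k := by exact_mod_cast hk
  have hL' : (0 : ℝ) < L := by linarith
  have h4 : F n W - F n (cz n k W') ≤ C3 / n := by
    have h5 : (k : ℝ) * (F n W - F n (cz n k W')) ≤ k * (C3 / n) := by
      have h6 : (k : ℝ) * (C3 / n) = C3 * k / n := by ring
      rw [h6]
      linarith
    exact le_of_mul_le_mul_left h5 hk'
  have h0 : ∀ e ∈ board n, 0 < W e := fun e he =>
    lt_of_lt_of_le (by positivity) (hR.bd.lo e he)
  have hLi : 0 < 1 / L := by positivity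
  have hs2 : ∀ s, dsum n W 2 s < 1 := by
    intro s
    have h := hR.bd.sd s
    unfold hS at h
    linarith
  have hs3 : ∀ s, dsum n W 3 s < 1 := by
    intro s
    have h := hR.bd.dd s
    unfold hD at h
    linarith
  have hkl := Pool.Agent.NQR.kl_le hO h0 hs2 hs3 hV
  have c1 : ∑ e ∈ board n, (Real.sqrt (cz n k W' e) - Real.sqrt (W e)) ^ 2 ≤ C3 / n := by
    have c2 : ∑ e ∈ board n, (cz n k W' e - W e + (Real.sqrt (cz n k W' e) - Real.sqrt (W e)) ^ 2) ≤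
        Pool.Agent.NQR.KL n (cz n k W') W :=
      Finset.sum_le_sum fun e he => Pool.Agent.NQR.hell (hV.nn e) (h0 e he)
    rw [Finset.sum_add_distrib, Finset.sum_sub_distrib, Pool.Agent.NQR.adm_mass hV,
      Pool.Agent.NQR.adm_mass hR.adm, sub_self, zero_add] at c2
    exact (c2.trans hkl).trans h4
  have c3 : ∀ e ∈ board n, (cz n k W' e - W e) ^ 2 ≤
      (4 * L / n) * (Real.sqrt (cz n k W' e) - Real.sqrt (W e)) ^ 2 := by
    intro e he
    have hv := cz_hi hL hn hk hR' e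
    have hw := hR.bd.hi e he
    have hw0 := (h0 e he).le
    have e1 : Real.sqrt (cz n k W' e) ^ 2 = cz n k W' e := Real.sq_sqrt hv.1
    have e2 : Real.sqrt (W e) ^ 2 = W e := Real.sq_sqrt hw0
    have e3 : (cz n k W' e - W e) ^ 2 = (Real.sqrt (cz n k W' e) + Real.sqrt (W e)) ^ 2 *
        (Real.sqrt (cz n k W' e) - Real.sqrt (W e)) ^ 2 := by
      nth_rewrite 1 [← e1]
      nth_rewrite 1 [← e2]
      ring
    have e4 : (Real.sqrt (cz n k W' e) + Real.sqrt (W e)) ^ 2 ≤ 4 * L / n := by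
      have e5 : (Real.sqrt (cz n k W' e) + Real.sqrt (W e)) ^ 2 ≤ 2 * cz n k W' e + 2 * W e := by
        nlinarith [sq_nonneg (Real.sqrt (cz n k W' e) - Real.sqrt (W e))]
      have e6 : 4 * L / n = 2 * (L / n) + 2 * (L / n) := by ring
      rw [e6]
      linarith [hv.2]
    rw [e3]
    exact mul_le_mul_of_nonneg_right e4 (sq_nonneg _)
  calc ∑ e ∈ board n, (cz n k W' e - W e) ^ 2
      ≤ ∑ e ∈ board n, (4 * L / n) * (Real.sqrt (cz n k W' e) - Real.sqrt (W e)) ^ 2 :=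
        Finset.sum_le_sum c3
    _ = (4 * L / n) * ∑ e ∈ board n, (Real.sqrt (cz n k W' e) - Real.sqrt (W e)) ^ 2 := by
        rw [Finset.mul_sum]
    _ ≤ (4 * L / n) * (C3 / n) := mul_le_mul_of_nonneg_left c1 (by positivity)
    _ = 4 * L * C3 / (n : ℝ) ^ 2 := by
        field_simp

end Pool.Agent.NQF
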