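import Pool.Agent.NQF.FDefs
import Pool.Agent.NQF.FCo
import Pool.Agent.NQF.LLJJ
import Pool.Agent.NQF.LLFul

/-!
# NQF-LLPos: the matrix of the board is coercive

The form of the extended set of lines is the Hessian form of the board plus squares.
-/

set_option autoImplicit false

open Finset

namespace Pool.Agent.NQF

open Pool.Agent.NQ (board dsum F Ent Dg phi ln Q Qset QS NonAtt bern)
open Pool.Agent.NQR (Adm Opt Bd Rf hS hD hh InR)
open Pool.Agent.NQL

private theorem llp_entry {N : ℕ} {W : ℤ × ℤ → ℝ} (u : Li → ℝ) (l l' : Li) :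
    AA L4 (board N) W ga N l l' * u l * u l' =
      (if l = l' then (1 - ∑ e ∈ (board N).filter (fun e => l ∈ L4 e), W e) * u l ^ 2 else 0) +
      (∑ e ∈ board N, W e * ((if l ∈ L4 e then u l else 0) * (if l' ∈ L4 e then u l' else 0))) +
      (ga l * u l) * (ga l' * u l') / (2 * N) := by
  unfold AA MM
  by_cases h : l = l'
  · subst h
    rw [if_pos rfl, if_pos rfl, if_pos rfl]
    have h1 : ∑ e ∈ board N, W e * ((if l ∈ L4 e then u l else 0) * (if l ∈ L4 e then u l else 0)) =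
        (∑ e ∈ (board N).filter (fun e => l ∈ L4 e), W e) * u l ^ 2 := by
      rw [Finset.sum_filter, Finset.sum_mul]
      refine Finset.sum_congr rfl fun e _ => ?_
      by_cases he : l ∈ L4 e
      · rw [if_pos he, if_pos he]
        ring
      · rw [if_neg he, if_neg he]
        ring
    rw [h1]
    ring
  · rw [if_neg h, if_neg h, if_neg h]
    have h1 : ∑ e ∈ board N, W e * ((if l ∈ L4 e then u l else 0) * (if l' ∈ L4 e then u l' else 0)) =
        (∑ e ∈ (board N).filter (fun e => l ∈ L4 e ∧ l' ∈ L4 e), W e) * u l * u l' := by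
      rw [Finset.sum_filter, mul_assoc, Finset.sum_mul]
      refine Finset.sum_congr rfl fun e _ => ?_
      by_cases he : l ∈ L4 e
      · by_cases he' : l' ∈ L4 e
        · rw [if_pos he, if_pos he', if_pos ⟨he, he'⟩]
        · rw [if_neg he', if_neg (fun h : l ∈ L4 e ∧ l' ∈ L4 e => he' h.2)]
          ring
      · rw [if_neg he, if_neg (fun h : l ∈ L4 e ∧ l' ∈ L4 e => he h.1)]
        ring
    rw [h1]
    ring

private theorem llp_ds {N : ℕ} {D : Finset Li} (hD : full N ⊆ D) (u : Li → ℝ) {e : ℤ × ℤ}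
    (he : e ∈ board N) : ∑ l ∈ D, (if l ∈ L4 e then u l else 0) = ds u e := by
  have hsub : L4 e ⊆ D := by
    intro l hl
    exact hD (mem_full.2 ⟨e, he, mem_L4.1 hl⟩)
  rw [← Finset.sum_filter]
  have h1 : D.filter (fun l => l ∈ L4 e) = L4 e := by
    ext l
    rw [Finset.mem_filter]
    exact ⟨fun h => h.2, fun h => ⟨hsub h, h⟩⟩
  rw [h1]
  unfold L4 ds
  rw [Finset.sum_image]
  intro k _ k' _ hkk
  exact (Prod.ext_iff.1 hkk).1

private theorem llp_sum {N : ℕ} {W : ℤ × ℤ → ℝ} {D : Finset Li} (hD : full N ⊆ D) (u : Li → ℝ) :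
    ∑ l ∈ D, ∑ l' ∈ D, AA L4 (board N) W ga N l l' * u l * u l' =
      (∑ l ∈ D, (1 - ∑ e ∈ (board N).filter (fun e => l ∈ L4 e), W e) * u l ^ 2) +
      (∑ e ∈ board N, W e * ds u e ^ 2) + (∑ l ∈ D, ga l * u l) ^ 2 / (2 * N) := by
  have h1 : ∑ l ∈ D, ∑ l' ∈ D, AA L4 (board N) W ga N l l' * u l * u l' =
      ∑ l ∈ D, ∑ l' ∈ D, ((if l = l' then (1 - ∑ e ∈ (board N).filter (fun e => l ∈ L4 e), W e) *
        u l ^ 2 else 0) +
      (∑ e ∈ board N, W e * ((if l ∈ L4 e then u l else 0) * (if l' ∈ L4 e then u l' else 0))) +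
      (ga l * u l) * (ga l' * u l') / (2 * N)) :=
    Finset.sum_congr rfl fun l _ => Finset.sum_congr rfl fun l' _ => llp_entry u l l'
  rw [h1]
  simp only [Finset.sum_add_distrib]
  congr 1
  · congr 1
    · refine Finset.sum_congr rfl fun l hl => ?_
      rw [Finset.sum_ite_eq, if_pos hl]
    · have h2 : ∀ l ∈ D, ∑ l' ∈ D, ∑ e ∈ board N, W e * ((if l ∈ L4 e then u l else 0) *
          (if l' ∈ L4 e then u l' else 0)) = ∑ e ∈ board N, ∑ l' ∈ D, W e *
          ((if l ∈ L4 e then u l else 0) * (if l' ∈ L4 e then u l' else 0)) :=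
        fun l _ => Finset.sum_comm
      rw [Finset.sum_congr rfl h2, Finset.sum_comm]
      refine Finset.sum_congr rfl fun e he => ?_
      rw [← llp_ds hD u he, sq, Finset.sum_mul_sum, Finset.mul_sum]
      refine Finset.sum_congr rfl fun l _ => ?_
      rw [Finset.mul_sum]
  · rw [sq, Finset.sum_mul_sum, Finset.sum_div]
    refine Finset.sum_congr rfl fun l _ => ?_
    rw [Finset.sum_div]

private theorem llp_r {N : ℕ} {W : ℤ × ℤ → ℝ} (l : Li) :
    ∑ e ∈ (board N).filter (fun e => l ∈ L4 e), W e = dsum N W l.1 l.2 := by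
  unfold Pool.Agent.NQ.dsum
  refine Finset.sum_congr ?_ fun _ _ => rfl
  ext e
  rw [Finset.mem_filter, Finset.mem_filter, mem_L4]

private theorem llp_bd {N : ℕ} {e : ℤ × ℤ} (he : e ∈ board N) :
    (0 ≤ e.1 ∧ e.1 < N) ∧ (0 ≤ e.2 ∧ e.2 < N) := by
  unfold Pool.Agent.NQ.board at he
  rw [Finset.mem_product, Finset.mem_Ico, Finset.mem_Ico] at he
  exact he

private theorem llp_c {L : ℝ} (hL : 1 ≤ L) {N : ℕ} {W : ℤ × ℤ → ℝ} {A B : ℤ → ℝ}
    (hR : Rf L N W A B) {l : Li} (hl : l ∈ full N) :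
    1 - dsum N W l.1 l.2 = dg l * Real.exp (pz N W A B 0 0 l) := by
  obtain ⟨e, he, hel⟩ := mem_full.1 hl
  obtain ⟨⟨x0, x1⟩, y0, y1⟩ := llp_bd he
  obtain ⟨k, s⟩ := l
  simp only at hel
  have hk : k = 0 ∨ k = 1 ∨ k = 2 ∨ k = 3 := by
    have : ∀ k : Fin 4, k = 0 ∨ k = 1 ∨ k = 2 ∨ k = 3 := by decide
    exact this k
  rcases hk with rfl | rfl | rfl | rfl
  · have h1 : dg ((0 : Fin 4), s) = 0 := if_pos (show ((0 : Fin 4) : ℕ) < 2 by decide)
    have h2 : s = e.1 := hel.symm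
    rw [h1, zero_mul, h2, hR.adm.row e.1 x0 x1, sub_self]
  · have h1 : dg ((1 : Fin 4), s) = 0 := if_pos (show ((1 : Fin 4) : ℕ) < 2 by decide)
    have h2 : s = e.2 := hel.symm
    rw [h1, zero_mul, h2, hR.adm.col e.2 y0 y1, sub_self]
  · have h1 : dg ((2 : Fin 4), s) = 1 := if_neg (show ¬ ((2 : Fin 4) : ℕ) < 2 by decide)
    rw [h1, one_mul, pz_s hL hR, add_zero, add_zero]
    rfl
  · have h1 : dg ((3 : Fin 4), s) = 1 := if_neg (show ¬ ((3 : Fin 4) : ℕ) < 2 by decide)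
    rw [h1, one_mul, pz_d hL hR, add_zero, sub_zero]
    rfl

theorem aa_pos (L : ℝ) (hL : 1 ≤ L) : ∃ (lam : ℝ) (N0 : ℕ), 0 < lam ∧ lam ≤ 1 ∧ 2 ≤ N0 ∧
    ∀ (N : ℕ) (W : ℤ × ℤ → ℝ) (A B : ℤ → ℝ), N0 ≤ N → Rf L N W A B → ∀ u : Li → ℝ,
      lam * ∑ l ∈ JJ N, u l ^ 2 ≤ ∑ l ∈ JJ N, ∑ l' ∈ JJ N, AA L4 (board N) W ga N l l' * u l * u l' := by
  obtain ⟨lam, N0, h0, h1, h2, h3⟩ := f_co L hL
  refine ⟨lam, N0, h0, h1, h2, fun N W A B hN hR u => ?_⟩
  have hN1 : 1 ≤ N := by omega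
  have hsub := full_JJ N
  have hco := h3 N N W A B hN (by omega) le_rfl hR u
  unfold Qf gs at hco
  rw [Sq_full] at hco
  rw [llp_sum hsub u]
  have e1 : ∑ l ∈ JJ N, (1 - ∑ e ∈ (board N).filter (fun e => l ∈ L4 e), W e) * u l ^ 2 =
      ∑ l ∈ full N, dg l * Real.exp (pz N W A B 0 0 l) * u l ^ 2 +
      ∑ l ∈ JJ N \ full N, u l ^ 2 := by
    rw [← Finset.sum_sdiff hsub, add_comm]
    congr 1
    · refine Finset.sum_congr rfl fun l hl => ?_
      rw [llp_r, llp_c hL hR hl]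
    · refine Finset.sum_congr rfl fun l hl => ?_
      have hl' : l ∉ full N := (Finset.mem_sdiff.1 hl).2
      have h4 : (board N).filter (fun e => l ∈ L4 e) = ∅ := by
        rw [Finset.filter_eq_empty_iff]
        intro e he hle
        exact hl' (mem_full.2 ⟨e, he, mem_L4.1 hle⟩)
      rw [h4, Finset.sum_empty, sub_zero, one_mul]
  have e2 : ∑ l ∈ JJ N, ga l * u l = ∑ l ∈ full N, ga l * u l := by
    rw [← Finset.sum_sdiff hsub]
    have h4 : ∑ l ∈ JJ N \ full N, ga l * u l = 0 := by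
      refine Finset.sum_eq_zero fun l hl => ?_
      have hrc := JJ_diag hN1 (Finset.mem_sdiff.1 hl).1 (Finset.mem_sdiff.1 hl).2
      have h5 : l.1 ≠ 0 := fun h => hrc (by unfold rc; rw [h]; decide)
      have h6 : l.1 ≠ 1 := fun h => hrc (by unfold rc; rw [h]; decide)
      have h7 : ga l = 0 := by
        unfold ga
        rw [if_neg h5, if_neg h6]
      rw [h7, zero_mul]
    rw [h4, zero_add]
  have e3 : ∑ l ∈ JJ N, u l ^ 2 = ∑ l ∈ full N, u l ^ 2 + ∑ l ∈ JJ N \ full N, u l ^ 2 := by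
    rw [← Finset.sum_sdiff hsub, add_comm]
  rw [e1, e2, e3, mul_add]
  have h8 : 0 ≤ ∑ l ∈ JJ N \ full N, u l ^ 2 := Finset.sum_nonneg fun l _ => sq_nonneg _
  have h9 : lam * ∑ l ∈ JJ N \ full N, u l ^ 2 ≤ ∑ l ∈ JJ N \ full N, u l ^ 2 := by
    nlinarith
  linarith

end Pool.Agent.NQF
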