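import Pool.Agent.NQF.FDefs

/-!
# NQF-LLPul: pull back: coercivity and Hilbert-Schmidt norm

PLAN. `v L := ∑_{l ∈ J', φ l = L} u l`. (1) `∑_{l,l'} X (φ l) (φ l') u l u l' = ∑_{L,L'} X L L' v L v L'` (`Finset.sum_fiberwise_of_maps_to`), Cauchy-Schwarz with `k` terms:
`∑_L v L² ≤ k ∑ u²`. So the form is `∑ u² + (1/k) ∑ X v v = ∑ u² - (1/k) ∑ v² + (1/k) (∑ v² + ∑ X v v) ≥ ∑ u² - (1/k)(1 - lam) ∑ v² ≥ lam ∑ u²` (`lam ≤ 1`).
(2) each pair `(L, L')` has `k²` preimages: `∑_{l,l'} (X (φ l) (φ l')/k)² = ∑_{L,L'} X L L'²`.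
-/

set_option autoImplicit false

open Finset

namespace Pool.Agent.NQF

private lemma LLPul_aux1 {α β : Type} [DecidableEq α] [DecidableEq β] {J' : Finset α} {J : Finset β} {φ : α → β}
    (h1 : ∀ l ∈ J', φ l ∈ J) (g : β → ℝ) (u : α → ℝ) :
    ∑ l ∈ J', g (φ l) * u l = ∑ L ∈ J, g L * ∑ l ∈ J'.filter (fun l => φ l = L), u l := by
  rw [← Finset.sum_fiberwise_of_maps_to h1 (fun l => g (φ l) * u l)]
  refine Finset.sum_congr rfl fun L _ => ?_
  rw [Finset.mul_sum]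
  refine Finset.sum_congr rfl fun l hl => ?_
  rw [(Finset.mem_filter.mp hl).2]

private lemma LLPul_aux2 {α β : Type} [DecidableEq α] [DecidableEq β] {J' : Finset α} {J : Finset β} {φ : α → β}
    (h1 : ∀ l ∈ J', φ l ∈ J) (G : β → β → ℝ) (u : α → ℝ) :
    ∑ l ∈ J', ∑ l' ∈ J', G (φ l) (φ l') * u l * u l' =
      ∑ L ∈ J, ∑ L' ∈ J, G L L' * (∑ l ∈ J'.filter (fun l => φ l = L), u l) *
        (∑ l ∈ J'.filter (fun l => φ l = L'), u l) := by
  have e1 : ∀ l : α, ∑ l' ∈ J', G (φ l) (φ l') * u l * u l' =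
      (∑ L' ∈ J, G (φ l) L' * ∑ l' ∈ J'.filter (fun l' => φ l' = L'), u l') * u l := by
    intro l
    rw [← LLPul_aux1 h1 (fun L' => G (φ l) L') u, Finset.sum_mul]
    refine Finset.sum_congr rfl fun l' _ => ?_
    ring
  rw [Finset.sum_congr rfl fun l _ => e1 l,
    LLPul_aux1 h1 (fun L => ∑ L' ∈ J, G L L' * ∑ l' ∈ J'.filter (fun l' => φ l' = L'), u l') u]
  refine Finset.sum_congr rfl fun L _ => ?_
  rw [Finset.sum_mul]
  refine Finset.sum_congr rfl fun L' _ => ?_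
  ring

private lemma LLPul_diag {α : Type} [DecidableEq α] (J : Finset α) (Y : α → α → ℝ) (v : α → ℝ) :
    ∑ L ∈ J, ∑ L' ∈ J, ((if L = L' then 1 else 0) + Y L L') * v L * v L' =
      ∑ L ∈ J, v L ^ 2 + ∑ L ∈ J, ∑ L' ∈ J, Y L L' * v L * v L' := by
  rw [← Finset.sum_add_distrib]
  refine Finset.sum_congr rfl fun L hL => ?_
  have : ∀ L' ∈ J, ((if L = L' then (1 : ℝ) else 0) + Y L L') * v L * v L' =
      (if L = L' then v L * v L' else 0) + Y L L' * v L * v L' := by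
    intro L' _
    split_ifs <;> ring
  rw [Finset.sum_congr rfl this, Finset.sum_add_distrib, Finset.sum_ite_eq, if_pos hL]
  ring

theorem pull_pos {α β : Type} [DecidableEq α] [DecidableEq β] {J' : Finset α} {J : Finset β} {φ : α → β} {k : ℕ}
    (hk : 1 ≤ k) (h1 : ∀ l ∈ J', φ l ∈ J) (h2 : ∀ L ∈ J, (J'.filter (fun l => φ l = L)).card = k) {X : β → β → ℝ}
    {lam : ℝ} (hl1 : lam ≤ 1)
    (hX : ∀ v : β → ℝ, lam * ∑ L ∈ J, v L ^ 2 ≤
      ∑ L ∈ J, ∑ L' ∈ J, ((if L = L' then 1 else 0) + X L L') * v L * v L') (u : α → ℝ) :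
    lam * ∑ l ∈ J', u l ^ 2 ≤
      ∑ l ∈ J', ∑ l' ∈ J', ((if l = l' then 1 else 0) + X (φ l) (φ l') / k) * u l * u l' := by
  have hk0 : (0 : ℝ) < k := by exact_mod_cast hk
  set v : β → ℝ := fun L => ∑ l ∈ J'.filter (fun l => φ l = L), u l with hv
  have hB : ∑ L ∈ J, v L ^ 2 ≤ k * ∑ l ∈ J', u l ^ 2 := by
    rw [← Finset.sum_fiberwise_of_maps_to h1 (fun l => u l ^ 2), Finset.mul_sum]
    refine Finset.sum_le_sum fun L hL => ?_
    have := @sq_sum_le_card_mul_sum_sq α ℝ _ _ _ _ (J'.filter (fun l => φ l = L)) u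
    rw [h2 L hL] at this
    exact this
  have hA := hX v
  rw [LLPul_diag] at hA
  rw [LLPul_diag J' (fun l l' => X (φ l) (φ l') / k) u,
    LLPul_aux2 h1 (fun L L' => X L L' / k) u]
  have e2 : ∑ L ∈ J, ∑ L' ∈ J, X L L' / k * (∑ l ∈ J'.filter (fun l => φ l = L), u l) *
        (∑ l ∈ J'.filter (fun l => φ l = L'), u l) = (∑ L ∈ J, ∑ L' ∈ J, X L L' * v L * v L') / k := by
    rw [Finset.sum_div]
    refine Finset.sum_congr rfl fun L _ => ?_
    rw [Finset.sum_div]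
    refine Finset.sum_congr rfl fun L' _ => ?_
    rw [hv]
    ring
  rw [e2]
  have h3 : (lam - 1) * ∑ l ∈ J', u l ^ 2 ≤ (∑ L ∈ J, ∑ L' ∈ J, X L L' * v L * v L') / k := by
    rw [le_div_iff₀ hk0]
    nlinarith [mul_le_mul_of_nonneg_left hB (sub_nonneg.mpr hl1)]
  linarith

theorem pull_hs {α β : Type} [DecidableEq α] [DecidableEq β] {J' : Finset α} {J : Finset β} {φ : α → β} {k : ℕ}
    (hk : 1 ≤ k) (h1 : ∀ l ∈ J', φ l ∈ J) (h2 : ∀ L ∈ J, (J'.filter (fun l => φ l = L)).card = k) (X : β → β → ℝ) :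
    ∑ l ∈ J', ∑ l' ∈ J', (X (φ l) (φ l') / k) ^ 2 = ∑ L ∈ J, ∑ L' ∈ J, X L L' ^ 2 := by
  have hk0 : (k : ℝ) ≠ 0 := by
    have : (0 : ℝ) < k := by exact_mod_cast hk
    exact this.ne'
  have e := LLPul_aux2 h1 (fun L L' => (X L L' / k) ^ 2) (fun _ => (1 : ℝ))
  simp only [mul_one] at e
  rw [e]
  refine Finset.sum_congr rfl fun L hL => ?_
  refine Finset.sum_congr rfl fun L' hL' => ?_
  rw [Finset.sum_const, Finset.sum_const, h2 L hL, h2 L' hL']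
  simp only [nsmul_eq_mul, mul_one]
  field_simp

end Pool.Agent.NQF
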