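import Pool.Agent.NQF.FDefs
import Pool.Agent.NQF.FBlk

/-!
# NQF-LLSq: the sum of the squares of the weights

PLAN. `V = cz n k W'`. Block by block (`board (n k)` = union of the blocks `(k e.1 + a, k e.2 + b)`, `e ∈ board n`, `0 ≤ a, b < k`; see `eg_blk` in NQL/ECoG for the reindexing):
`|W' f² - (V e/k)²| ≤ (C1/(n² k)) (2 L/(n k))` (`f_blk`, `W' f ≤ L/(n k)`, `V e/k ≤ L/(n k)`), `(n k)²` squares: `|∑ W'² - ∑_e V e²| ≤ 2 L C1/n`. And
`|∑ V² - ∑ W²| ≤ ∑ |V - W| (V + W) ≤ √(∑ (V - W)²) √(∑ (V + W)²) ≤ √(C0)/n · 2 L` (`V, W ≤ L/n`, `n²` squares).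
-/

set_option autoImplicit false

open Finset

namespace Pool.Agent.NQF

open Pool.Agent.NQ (board dsum F Ent Dg phi ln Q Qset QS NonAtt bern)
open Pool.Agent.NQR (Adm Opt Bd Rf hS hD hh InR)
open Pool.Agent.NQL

private theorem lsq_board {n : ℕ} {e : ℤ × ℤ} : e ∈ board n ↔ (0 ≤ e.1 ∧ e.1 < n) ∧ (0 ≤ e.2 ∧ e.2 < n) := by
  unfold board
  rw [Finset.mem_product, Finset.mem_Ico, Finset.mem_Ico]

private theorem lsq_card (k : ℕ) : ((board k).card : ℝ) = (k : ℝ) ^ 2 := by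
  unfold board
  rw [Finset.card_product, Int.card_Ico, sub_zero, Int.toNat_natCast]
  push_cast
  ring

private theorem lsq_in {n k : ℕ} {e x : ℤ × ℤ} (he : e ∈ board n) (hx : x ∈ board k) :
    (k * e.1 + x.1, k * e.2 + x.2) ∈ board (n * k) := by
  rw [lsq_board] at he hx ⊢
  obtain ⟨⟨h1, h2⟩, h3, h4⟩ := he
  obtain ⟨⟨h5, h6⟩, h7, h8⟩ := hx
  push_cast
  refine ⟨⟨by positivity, ?_⟩, by positivity, ?_⟩
  · nlinarith
  · nlinarith

private theorem lsq_blk {n k : ℕ} (hk : 1 ≤ k) (G : ℤ × ℤ → ℝ) :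
    ∑ f ∈ board (n * k), G f =
      ∑ e ∈ board n, ∑ x ∈ board k, G (k * e.1 + x.1, k * e.2 + x.2) := by
  have hk0 : (0 : ℤ) < k := by exact_mod_cast hk
  rw [← Finset.sum_product']
  refine (Finset.sum_nbij' (fun q : (ℤ × ℤ) × (ℤ × ℤ) => (k * q.1.1 + q.2.1, k * q.1.2 + q.2.2))
    (fun f : ℤ × ℤ => ((f.1 / k, f.2 / k), (f.1 % k, f.2 % k))) ?_ ?_ ?_ ?_ ?_).symm
  · intro q hq
    rw [Finset.mem_product] at hq
    exact lsq_in hq.1 hq.2
  · intro f hf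
    rw [lsq_board] at hf
    obtain ⟨⟨h1, h2⟩, h3, h4⟩ := hf
    push_cast at h2 h4
    rw [Finset.mem_product, lsq_board, lsq_board]
    refine ⟨⟨⟨Int.ediv_nonneg h1 hk0.le, ?_⟩, Int.ediv_nonneg h3 hk0.le, ?_⟩,
      ⟨Int.emod_nonneg _ hk0.ne', Int.emod_lt_of_pos _ hk0⟩,
      Int.emod_nonneg _ hk0.ne', Int.emod_lt_of_pos _ hk0⟩
    · exact Int.ediv_lt_of_lt_mul hk0 h2
    · exact Int.ediv_lt_of_lt_mul hk0 h4
  · intro q hq
    rw [Finset.mem_product, lsq_board, lsq_board] at hq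
    obtain ⟨-, ⟨h5, h6⟩, h7, h8⟩ := hq
    have d : ∀ (i a : ℤ), 0 ≤ a → a < k → (k * i + a) / k = i ∧ (k * i + a) % k = a := by
      intro i a h h'
      constructor
      · rw [Int.add_comm, Int.add_mul_ediv_left _ _ hk0.ne', Int.ediv_eq_zero_of_lt h h', zero_add]
      · rw [Int.add_comm, Int.add_mul_emod_self_left, Int.emod_eq_of_lt h h']
    obtain ⟨a1, a2⟩ := d q.1.1 q.2.1 h5 h6
    obtain ⟨a3, a4⟩ := d q.1.2 q.2.2 h7 h8
    dsimp only
    rw [a1, a2, a3, a4]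
  · intro f _
    dsimp only
    rw [Int.mul_ediv_add_emod, Int.mul_ediv_add_emod]
  · intro q _
    rfl

private theorem lsq_am {t a b : ℝ} (ht : 0 < t) : |a * b| ≤ t / 2 * a ^ 2 + 1 / (2 * t) * b ^ 2 := by
  rw [abs_le]
  constructor
  · have h : t / 2 * a ^ 2 + 1 / (2 * t) * b ^ 2 + a * b = (t * a + b) ^ 2 / (2 * t) := by
      field_simp
      ring
    have h2 : 0 ≤ (t * a + b) ^ 2 / (2 * t) := by positivity
    linarith
  · have h : t / 2 * a ^ 2 + 1 / (2 * t) * b ^ 2 - a * b = (t * a - b) ^ 2 / (2 * t) := by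
      field_simp
      ring
    have h2 : 0 ≤ (t * a - b) ^ 2 / (2 * t) := by positivity
    linarith

theorem sq_near {L C C0 : ℝ} (hL : 1 ≤ L) (hC : 0 ≤ C) (hC0 : 0 ≤ C0) : ∃ C1 : ℝ, 0 ≤ C1 ∧
    ∀ (n k : ℕ) (W W' : ℤ × ℤ → ℝ) (A B A' B' : ℤ → ℝ), 1 ≤ n → 1 ≤ k → Rf L n W A B → Rf L (n * k) W' A' B' →
      Lp C (n * k) W' A' B' → ∑ e ∈ board n, (cz n k W' e - W e) ^ 2 ≤ C0 / (n : ℝ) ^ 2 →
      |∑ f ∈ board (n * k), W' f ^ 2 - ∑ e ∈ board n, W e ^ 2| ≤ C1 / n := by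
  obtain ⟨c1, hc1, hblk⟩ := f_blk hL hC
  refine ⟨2 * L * c1 + (C0 / 2 + 2 * L ^ 2), by positivity, ?_⟩
  intro n k W W' A B A' B' hn hk hR hR' hLp hV
  have hn' : (0 : ℝ) < n := by exact_mod_cast hn
  have hk' : (0 : ℝ) < k := by exact_mod_cast hk
  have hL0 : (0 : ℝ) < L := by linarith
  obtain ⟨hb, -⟩ := hblk n k W' A' B' hn hk hR' hLp
  -- step 1
  have h1 : |∑ f ∈ board (n * k), W' f ^ 2 - ∑ e ∈ board n, cz n k W' e ^ 2| ≤ 2 * L * c1 / n := by
    have hV2 : ∀ e ∈ board n, cz n k W' e ^ 2 = ∑ x ∈ board k, (cz n k W' e / k) ^ 2 := by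
      intro e _
      rw [Finset.sum_const, nsmul_eq_mul, lsq_card]
      field_simp
    rw [lsq_blk hk, Finset.sum_congr rfl hV2, ← Finset.sum_sub_distrib]
    refine (Finset.abs_sum_le_sum_abs _ _).trans ?_
    have h2 : ∀ e ∈ board n, |∑ x ∈ board k, W' (k * e.1 + x.1, k * e.2 + x.2) ^ 2 -
        ∑ x ∈ board k, (cz n k W' e / k) ^ 2| ≤ 2 * L * c1 / (n : ℝ) ^ 3 := by
      intro e he
      rw [← Finset.sum_sub_distrib]
      refine (Finset.abs_sum_le_sum_abs _ _).trans ?_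
      have h3 : ∀ x ∈ board k, |W' (k * e.1 + x.1, k * e.2 + x.2) ^ 2 - (cz n k W' e / k) ^ 2| ≤
          (c1 / ((n : ℝ) ^ 2 * k)) * (2 * L / (n * k)) := by
        intro x hx
        have hin := lsq_in he hx
        have hx2 := hx
        rw [lsq_board] at hx2
        have h4 := hb e he x.1 x.2 hx2.1.1 hx2.1.2 hx2.2.1 hx2.2.2
        have h5 := hR'.bd.hi _ hin
        have h6 := hR'.bd.lo _ hin
        have h7 := cz_hi hL hn hk hR' e
        push_cast at h5 h6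
        have h8 : 0 ≤ W' (k * e.1 + x.1, k * e.2 + x.2) := le_trans (by positivity) h6
        have h9 : cz n k W' e / k ≤ L / (n * k) := by
          rw [← div_div]
          exact div_le_div_of_nonneg_right h7.2 hk'.le
        have h10 : 0 ≤ cz n k W' e / k := div_nonneg h7.1 hk'.le
        rw [sq_sub_sq, mul_comm, abs_mul]
        apply mul_le_mul h4 _ (abs_nonneg _) (by positivity)
        rw [abs_of_nonneg (by linarith)]
        have : 2 * L / (n * k) = L / (n * k) + L / (n * k) := by ring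
        rw [this]
        exact add_le_add h5 h9
      refine (Finset.sum_le_sum h3).trans ?_
      rw [Finset.sum_const, nsmul_eq_mul, lsq_card]
      apply le_of_eq
      field_simp
    refine (Finset.sum_le_sum h2).trans ?_
    rw [Finset.sum_const, nsmul_eq_mul, lsq_card]
    apply le_of_eq
    field_simp
  -- step 2
  have h2 : |∑ e ∈ board n, cz n k W' e ^ 2 - ∑ e ∈ board n, W e ^ 2| ≤ (C0 / 2 + 2 * L ^ 2) / n := by
    rw [← Finset.sum_sub_distrib]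
    refine (Finset.abs_sum_le_sum_abs _ _).trans ?_
    have h3 : ∀ e ∈ board n, |cz n k W' e ^ 2 - W e ^ 2| ≤
        (n : ℝ) / 2 * (cz n k W' e - W e) ^ 2 + 1 / (2 * (n : ℝ)) * (2 * L / n) ^ 2 := by
      intro e he
      have h5 := hR.bd.hi _ he
      have h6 := hR.bd.lo _ he
      have h7 := cz_hi hL hn hk hR' e
      have h8 : 0 ≤ W e := le_trans (by positivity) h6
      have h9 : (cz n k W' e + W e) ^ 2 ≤ (2 * L / n) ^ 2 := by
        apply pow_le_pow_left₀ (by linarith [h7.1])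
        have : 2 * L / n = L / n + L / n := by ring
        rw [this]
        exact add_le_add h7.2 h5
      rw [sq_sub_sq, mul_comm]
      refine (lsq_am hn').trans ?_
      have h10 : 1 / (2 * (n : ℝ)) * (cz n k W' e + W e) ^ 2 ≤ 1 / (2 * (n : ℝ)) * (2 * L / n) ^ 2 :=
        mul_le_mul_of_nonneg_left h9 (by positivity)
      linarith
    refine (Finset.sum_le_sum h3).trans ?_
    rw [Finset.sum_add_distrib, ← Finset.mul_sum, Finset.sum_const, nsmul_eq_mul, lsq_card]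
    have h4 : (n : ℝ) / 2 * ∑ e ∈ board n, (cz n k W' e - W e) ^ 2 ≤ (n : ℝ) / 2 * (C0 / (n : ℝ) ^ 2) :=
      mul_le_mul_of_nonneg_left hV (by positivity)
    have h5 : (n : ℝ) / 2 * (C0 / (n : ℝ) ^ 2) + (n : ℝ) ^ 2 * (1 / (2 * (n : ℝ)) * (2 * L / n) ^ 2) =
        (C0 / 2 + 2 * L ^ 2) / n := by
      field_simp
    linarith
  have h3 : ∑ f ∈ board (n * k), W' f ^ 2 - ∑ e ∈ board n, W e ^ 2 =
      (∑ f ∈ board (n * k), W' f ^ 2 - ∑ e ∈ board n, cz n k W' e ^ 2) +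
        (∑ e ∈ board n, cz n k W' e ^ 2 - ∑ e ∈ board n, W e ^ 2) := by ring
  rw [h3, add_div]
  exact (abs_add_le _ _).trans (add_le_add h1 h2)

end Pool.Agent.NQF
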