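import Pool.Agent.NQF.FDefs

/-!
# NQF-LLSyl: pull back of a determinant (Sylvester identity)
-/

set_option autoImplicit false

open Finset

namespace Pool.Agent.NQF

open Pool.Agent.NQ (board dsum F Ent Dg phi ln Q Qset QS NonAtt bern)
open Pool.Agent.NQR (Adm Opt Bd Rf hS hD hh InR)
open Pool.Agent.NQL

theorem ld_pull {α β : Type} [DecidableEq α] [DecidableEq β] {J' : Finset α} {J : Finset β} {φ : α → β} {k : ℕ}
    (hk : 1 ≤ k) (h1 : ∀ l ∈ J', φ l ∈ J) (h2 : ∀ L ∈ J, (J'.filter (fun l => φ l = L)).card = k) (X : β → β → ℝ) :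
    LD J' (fun l l' => (if l = l' then 1 else 0) + X (φ l) (φ l') / k) =
      LD J (fun L L' => (if L = L' then 1 else 0) + X L L') := by
  unfold LD
  congr 1
  have hk0 : (k : ℝ) ≠ 0 := by
    have : k ≠ 0 := by omega
    exact_mod_cast this
  obtain ⟨U, hU⟩ : ∃ U : Matrix J' J ℝ, U = Matrix.of fun (l : J') (L : J) => if φ l = (L : β) then (1 : ℝ) else 0 := ⟨_, rfl⟩
  obtain ⟨Y, hY⟩ : ∃ Y : Matrix J J ℝ, Y = Matrix.of fun (L L' : J) => X L L' := ⟨_, rfl⟩
  have hUa : ∀ l L, U l L = if φ l = (L : β) then (1 : ℝ) else 0 := fun l L => by rw [hU]; rfl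
  have hYa : ∀ L L', Y L L' = X L L' := fun l L => by rw [hY]; rfl
  have hUU : Matrix.transpose U * U = (k : ℝ) • (1 : Matrix J J ℝ) := by
    ext L L'
    rw [Matrix.mul_apply, Matrix.smul_apply, Matrix.one_apply, smul_eq_mul]
    simp only [Matrix.transpose_apply, hUa]
    by_cases h : L = L'
    · subst h
      rw [if_pos rfl, mul_one]
      have h3 : ∀ l : J', (if φ l = (L : β) then (1 : ℝ) else 0) * (if φ l = (L : β) then 1 else 0) =
          if φ l = (L : β) then 1 else 0 := by
        intro l
        split_ifs <;> simp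
      rw [Finset.sum_congr rfl fun l _ => h3 l,
        Finset.sum_coe_sort J' (fun l => if φ l = (L : β) then (1 : ℝ) else 0), ← Finset.sum_filter,
        Finset.sum_const, nsmul_one, h2 L L.2]
    · rw [if_neg h, mul_zero]
      apply Finset.sum_eq_zero
      intro l _
      by_cases h3 : φ l = (L : β)
      · have h4 : φ l ≠ (L' : β) := fun h4 => h (Subtype.ext (h3.symm.trans h4))
        rw [if_neg h4, mul_zero]
      · rw [if_neg h3, zero_mul]
  have hA : Matrix.of (fun i j : J' => (if (i : α) = j then (1 : ℝ) else 0) + X (φ i) (φ j) / k) =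
      1 + (U * ((1 / (k : ℝ)) • Y)) * Matrix.transpose U := by
    ext l l'
    rw [Matrix.add_apply, Matrix.one_apply, Matrix.of_apply, Matrix.mul_apply]
    congr 1
    · simp only [Subtype.ext_iff]
    · rw [Finset.sum_eq_single (⟨φ l', h1 l' l'.2⟩ : J)]
      · rw [Matrix.mul_apply, Finset.sum_eq_single (⟨φ l, h1 l l.2⟩ : J)]
        · rw [Matrix.transpose_apply, hUa, hUa, if_pos rfl, if_pos rfl, Matrix.smul_apply, hYa, smul_eq_mul]
          ring
        · intro L _ hL
          rw [hUa, if_neg, zero_mul]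
          intro h
          exact hL (Subtype.ext h.symm)
        · intro h
          exact absurd (Finset.mem_univ _) h
      · intro L _ hL
        rw [Matrix.transpose_apply, hUa, if_neg, mul_zero]
        intro h
        exact hL (Subtype.ext h.symm)
      · intro h
        exact absurd (Finset.mem_univ _) h
  rw [hA, Matrix.det_one_add_mul_comm, ← Matrix.mul_assoc, hUU, Matrix.smul_mul, Matrix.one_mul, smul_smul,
    mul_one_div_cancel hk0, one_smul]
  congr 1
  ext L L'
  rw [Matrix.add_apply, Matrix.one_apply, Matrix.of_apply, hYa]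
  simp only [Subtype.ext_iff]

end Pool.Agent.NQF
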