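import Pool.Agent.NQF.FDefs
import Pool.Agent.NQF.FLip
import Pool.Agent.NQF.LLFul
import Pool.Agent.NQF.LLSyl
import Pool.Agent.NQF.LLDif
import Pool.Agent.NQF.LLPul
import Pool.Agent.NQF.LLPos
import Pool.Agent.NQF.LLHS
import Pool.Agent.NQF.LLClo
import Pool.Agent.NQF.LLNea
import Pool.Agent.NQF.LLSq
import Pool.Agent.NQF.LLJJ

/-!
# NQF-LLCom: comparison of the constants of the boards `n` and `n k`

The determinant of the coarse board is the one of its pull back to the fine board; the difference of the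
two matrices on the fine board is small in the Hilbert-Schmidt norm.
-/

set_option autoImplicit false

open Finset

namespace Pool.Agent.NQF

open Pool.Agent.NQ (board dsum F Ent Dg phi ln Q Qset QS NonAtt bern)
open Pool.Agent.NQR (Adm Opt Bd Rf hS hD hh InR)
open Pool.Agent.NQL

private theorem com_symm (S : Finset (ℤ × ℤ)) (w : ℤ × ℤ → ℝ) (l l' : Li) :
    MM L4 S w l l' = MM L4 S w l' l := by
  unfold MM
  by_cases h : l = l'
  · rw [if_pos h, if_pos h.symm]
  · rw [if_neg h, if_neg (fun h' => h h'.symm)]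
    refine Finset.sum_congr ?_ fun _ _ => rfl
    refine Finset.filter_congr fun e _ => ?_
    exact and_comm

private theorem com_self (S : Finset (ℤ × ℤ)) (w : ℤ × ℤ → ℝ) (l : Li) : MM L4 S w l l = 0 := by
  unfold MM
  rw [if_pos rfl]

private theorem com_ite (l l' : Li) : (if l = l' then (1 : ℝ) else 0) = if l' = l then 1 else 0 := by
  by_cases h : l = l'
  · rw [if_pos h, if_pos h.symm]
  · rw [if_neg h, if_neg (fun h' => h h'.symm)]

private theorem com_ld {L lam C2 : ℝ} (hL : 1 ≤ L) (hlam : 0 < lam) (hlam1 : lam ≤ 1) {n k : ℕ}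
    (hn : 1 ≤ n) (hk : 1 ≤ k) {W W' : ℤ × ℤ → ℝ} {A B A' B' : ℤ → ℝ} (hR : Rf L n W A B)
    (hR' : Rf L (n * k) W' A' B')
    (hpn : ∀ u : Li → ℝ, lam * ∑ l ∈ JJ n, u l ^ 2 ≤
      ∑ l ∈ JJ n, ∑ l' ∈ JJ n, AA L4 (board n) W ga n l l' * u l * u l')
    (hpk : ∀ u : Li → ℝ, lam * ∑ l ∈ JJ (n * k), u l ^ 2 ≤
      ∑ l ∈ JJ (n * k), ∑ l' ∈ JJ (n * k), AA L4 (board (n * k)) W' ga (n * k) l l' * u l * u l')
    (hmm : ∑ l ∈ JJ (n * k), ∑ l' ∈ JJ (n * k),
      (MM L4 (board (n * k)) W' l l' - MM L4 (board n) W (fi k l) (fi k l') / k) ^ 2 ≤ C2 / n) :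
    |LD (full (n * k)) (AA L4 (board (n * k)) W' ga (n * k)) -
      LD (full n) (AA L4 (board n) W ga n)| ≤
      (Real.sqrt (32 * L ^ 2 + 2) + Real.sqrt (32 * L ^ 2 + 2)) * Real.sqrt (C2 / n) / lam := by
  have hnk : 1 ≤ n * k := Nat.one_le_iff_ne_zero.2 (Nat.mul_ne_zero (by omega) (by omega))
  have hk0 : (0 : ℝ) < k := by exact_mod_cast hk
  have hn0 : (0 : ℝ) < n := by exact_mod_cast hn
  rw [ld_full hnk W', ld_full hn W]
  set X : Li → Li → ℝ := fun l l' => MM L4 (board n) W l l' + ga l * ga l' / (2 * n) with hX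
  have hAA : AA L4 (board n) W ga n = fun l l' => (if l = l' then 1 else 0) + X l l' := by
    funext l l'
    rw [hX]
    unfold AA
    ring
  have h1 : ∀ l ∈ JJ (n * k), fi k l ∈ JJ n := fun l hl => (fi_mem hk).1 hl
  have h2 : ∀ l ∈ JJ n, ((JJ (n * k)).filter (fun l' => fi k l' = l)).card = k :=
    fun l hl => fi_card hk hl
  have hpull := ld_pull hk h1 h2 X
  rw [hAA, ← hpull]
  have hga : ∀ l l' : Li, ga (fi k l) * ga (fi k l') / (2 * (n : ℝ)) / k =
      ga l * ga l' / (2 * ((n * k : ℕ) : ℝ)) := by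
    intro l l'
    rw [(fi_fst l).2, (fi_fst l').2, div_div]
    congr 1
    push_cast
    ring
  have hXk : ∀ l l' : Li, X (fi k l) (fi k l') / k =
      MM L4 (board n) W (fi k l) (fi k l') / k + ga l * ga l' / (2 * ((n * k : ℕ) : ℝ)) := by
    intro l l'
    rw [← hga, hX]
    ring
  have hXs : ∀ l l' : Li, X l l' = X l' l := by
    intro l l'
    simp only [hX]
    rw [com_symm (board n) W l l', mul_comm (ga l) (ga l')]
  have hdiff := ld_diff (J := JJ (n * k)) (A := AA L4 (board (n * k)) W' ga (n * k))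
    (B := fun l l' => (if l = l' then 1 else 0) + X (fi k l) (fi k l') / k) hlam
    (by
      intro l _ l' _
      unfold AA
      rw [com_symm (board (n * k)) W' l l', mul_comm (ga l) (ga l'), com_ite l l'])
    (by
      intro l _ l' _
      rw [hXs (fi k l) (fi k l'), com_ite l l'])
    hpk
    (by
      intro u
      refine pull_pos hk h1 h2 hlam1 (fun v => ?_) u
      have h3 := hpn v
      rw [hAA] at h3
      exact h3)
    (by
      intro l _
      rw [hXk l l]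
      unfold AA
      rw [com_self, com_self]
      ring_nf)
  have hA2 : ∑ l ∈ JJ (n * k), ∑ l' ∈ JJ (n * k),
      (AA L4 (board (n * k)) W' ga (n * k) l l' - if l = l' then 1 else 0) ^ 2 ≤
      32 * L ^ 2 + 2 := by
    refine le_of_eq_of_le ?_ (aa_hs hL hnk hR')
    refine Finset.sum_congr rfl fun l _ => Finset.sum_congr rfl fun l' _ => ?_
    unfold AA
    congr 1
    ring
  have hB2 : ∑ l ∈ JJ (n * k), ∑ l' ∈ JJ (n * k),
      ((if l = l' then 1 else 0) + X (fi k l) (fi k l') / k - if l = l' then 1 else 0) ^ 2 ≤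
      32 * L ^ 2 + 2 := by
    refine le_of_eq_of_le ?_ (aa_hs hL hn hR)
    rw [show (∑ l ∈ JJ n, ∑ l' ∈ JJ n,
      (MM L4 (board n) W l l' + ga l * ga l' / (2 * n)) ^ 2) =
      ∑ l ∈ JJ n, ∑ l' ∈ JJ n, X l l' ^ 2 from rfl, ← pull_hs hk h1 h2 X]
    refine Finset.sum_congr rfl fun l _ => Finset.sum_congr rfl fun l' _ => ?_
    congr 1
    ring
  have hD2 : ∑ l ∈ JJ (n * k), ∑ l' ∈ JJ (n * k),
      (AA L4 (board (n * k)) W' ga (n * k) l l' -
        ((if l = l' then 1 else 0) + X (fi k l) (fi k l') / k)) ^ 2 ≤ C2 / n := by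
    refine le_of_eq_of_le ?_ hmm
    refine Finset.sum_congr rfl fun l _ => Finset.sum_congr rfl fun l' _ => ?_
    rw [hXk l l']
    unfold AA
    congr 1
    ring
  refine hdiff.trans ?_
  refine div_le_div_of_nonneg_right ?_ hlam.le
  refine mul_le_mul ?_ (Real.sqrt_le_sqrt hD2) (Real.sqrt_nonneg _)
    (add_nonneg (Real.sqrt_nonneg _) (Real.sqrt_nonneg _))
  exact add_le_add (Real.sqrt_le_sqrt hA2) (Real.sqrt_le_sqrt hB2)

theorem cn_comp {L : ℝ} (hL : 1 ≤ L) : ∃ (C : ℝ) (n0 : ℕ), 0 ≤ C ∧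
    ∀ (n k : ℕ) (W W' : ℤ × ℤ → ℝ) (A B A' B' : ℤ → ℝ), n0 ≤ n → 1 ≤ k → Opt n W → Rf L n W A B →
      Opt (n * k) W' → Rf L (n * k) W' A' B' → |cn n W - cn (n * k) W'| ≤ C / Real.sqrt n := by
  obtain ⟨C, N0, hC, hlip⟩ := lip L hL
  obtain ⟨lam, N1, hlam, hlam1, _, hpos⟩ := aa_pos L hL
  obtain ⟨C0, n1, hC0, hcz⟩ := cz_near (L := L) (C := C) hL hC
  obtain ⟨C1, hC1, hsq⟩ := sq_near (L := L) (C := C) (C0 := C0) hL hC hC0
  obtain ⟨C2, hC2, hmm⟩ := mm_close (L := L) (C := C) (C0 := C0) hL hC hC0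
  refine ⟨Real.sqrt (32 * L ^ 2 + 2) * Real.sqrt C2 / lam + 3 / 2 * C1, N0 + N1 + n1 + 1,
    by positivity, ?_⟩
  intro n k W W' A B A' B' hn hk hO hR hO' hR'
  have hnk : n ≤ n * k := Nat.le_mul_of_pos_right n hk
  have hLp := hlip (n * k) W' A' B' (by omega) hR'
  have hc := hcz n k W W' A B A' B' (by omega) (by omega) hk hO hR hO' hR' hLp
  have hs := hsq n k W W' A B A' B' (by omega) hk hR hR' hLp hc
  have hm := hmm n k W W' A B A' B' (by omega) hk hR hR' hLp hc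
  have hld := com_ld (C2 := C2) hL hlam hlam1 (by omega) hk hR hR'
    (hpos n W A B (by omega) hR) (hpos (n * k) W' A' B' (by omega) hR') hm
  have hn1 : (1 : ℝ) ≤ n := by exact_mod_cast (by omega : 1 ≤ n)
  have hsn : 1 ≤ Real.sqrt n := Real.one_le_sqrt.2 hn1
  have hsn0 : 0 < Real.sqrt n := lt_of_lt_of_le one_pos hsn
  have hss : Real.sqrt n * Real.sqrt n = n := Real.mul_self_sqrt (by linarith)
  have h1 : C1 / n ≤ C1 / Real.sqrt n := by
    refine div_le_div_of_nonneg_left hC1 hsn0 ?_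
    nlinarith
  have h2 : Real.sqrt (C2 / n) = Real.sqrt C2 / Real.sqrt n := Real.sqrt_div hC2 _
  rw [h2] at hld
  have h3 : |cn n W - cn (n * k) W'| ≤
      |LD (full (n * k)) (AA L4 (board (n * k)) W' ga (n * k)) -
        LD (full n) (AA L4 (board n) W ga n)| / 2 +
      3 / 2 * |∑ f ∈ board (n * k), W' f ^ 2 - ∑ e ∈ board n, W e ^ 2| := by
    have e1 : cn n W - cn (n * k) W' =
        (LD (full (n * k)) (AA L4 (board (n * k)) W' ga (n * k)) -
          LD (full n) (AA L4 (board n) W ga n)) / 2 +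
        3 / 2 * (∑ f ∈ board (n * k), W' f ^ 2 - ∑ e ∈ board n, W e ^ 2) := by
      unfold cn
      ring
    rw [e1]
    refine (abs_add_le _ _).trans (le_of_eq ?_)
    rw [abs_div, abs_mul, abs_of_pos (by norm_num : (0 : ℝ) < 2),
      abs_of_pos (by norm_num : (0 : ℝ) < 3 / 2)]
  refine h3.trans ?_
  have h4 : |∑ f ∈ board (n * k), W' f ^ 2 - ∑ e ∈ board n, W e ^ 2| ≤ C1 / Real.sqrt n :=
    hs.trans h1
  have h5 : (Real.sqrt (32 * L ^ 2 + 2) + Real.sqrt (32 * L ^ 2 + 2)) *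
      (Real.sqrt C2 / Real.sqrt n) / lam / 2 =
      Real.sqrt (32 * L ^ 2 + 2) * Real.sqrt C2 / lam / Real.sqrt n := by
    ring
  have h6 : (Real.sqrt (32 * L ^ 2 + 2) * Real.sqrt C2 / lam + 3 / 2 * C1) / Real.sqrt n =
      Real.sqrt (32 * L ^ 2 + 2) * Real.sqrt C2 / lam / Real.sqrt n +
        3 / 2 * (C1 / Real.sqrt n) := by
    ring
  rw [h6, ← h5]
  linarith

end Pool.Agent.NQF
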