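import Pool.Agent.NQF.FDefs
import Pool.Agent.NQF.LLCom
import Pool.Agent.NQR.PMax
import Pool.Agent.NQR.PRef

/-!
# NQF-LLLim: the constants converge

PLAN. `L` from `NQR.exists_ref`, `W n` a maximiser for every `n ≥ 1` (`NQR.exists_opt`), `a n = cn n (W n)`. For `n, n' ≥ max n0 1000`: `cn_comp` for `(n, n')` and `(n', n)`
(`n * n' = n' * n`): `|a n - a n'| ≤ C/√n + C/√n'`. So `a` is a Cauchy sequence (`cauchySeq_tendsto_of_complete`, `Metric.cauchySeq_iff'`), limit `c`; and for an arbitrary maximiser `V` of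
size `n`: `|cn n V - a n| ≤ 2 C/√n` (`k = 1`, or directly `|cn n V - cn (n n') (W (n n'))|` ). Let `n' → ∞`: `|cn n V - c| ≤ C'/√n`.
-/

set_option autoImplicit false

open Finset

namespace Pool.Agent.NQF

open Pool.Agent.NQ (board dsum F Ent Dg phi ln Q Qset QS NonAtt bern)
open Pool.Agent.NQR (Adm Opt Bd Rf hS hD hh InR)
open Pool.Agent.NQL

private theorem two_n {L C : ℝ} {n0 : ℕ}
    (href : ∀ N : ℕ, 1000 ≤ N → ∀ W : ℤ × ℤ → ℝ, Opt N W → ∃ A B : ℤ → ℝ, Rf L N W A B)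
    (hcomp : ∀ (n k : ℕ) (W W' : ℤ × ℤ → ℝ) (A B A' B' : ℤ → ℝ), n0 ≤ n → 1 ≤ k → Opt n W → Rf L n W A B →
      Opt (n * k) W' → Rf L (n * k) W' A' B' → |cn n W - cn (n * k) W'| ≤ C / Real.sqrt n)
    {n n' : ℕ} (hn : max n0 1000 ≤ n) (hn' : max n0 1000 ≤ n') {V V' : ℤ × ℤ → ℝ} (hV : Opt n V)
    (hV' : Opt n' V') : |cn n V - cn n' V'| ≤ C / Real.sqrt n + C / Real.sqrt n' := by
  have h1 : n0 ≤ n := (le_max_left _ _).trans hn
  have h2 : 1000 ≤ n := (le_max_right _ _).trans hn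
  have h1' : n0 ≤ n' := (le_max_left _ _).trans hn'
  have h2' : 1000 ≤ n' := (le_max_right _ _).trans hn'
  have h3 : 1000 ≤ n * n' := by nlinarith
  obtain ⟨U, hU⟩ := Pool.Agent.NQR.exists_opt (N := n * n') (by omega)
  obtain ⟨A, B, hR⟩ := href n h2 V hV
  obtain ⟨A', B', hR'⟩ := href n' h2' V' hV'
  obtain ⟨A2, B2, hR2⟩ := href (n * n') h3 U hU
  have e1 := hcomp n n' V U A B A2 B2 h1 (by omega) hV hR hU hR2
  have e2 := hcomp n' n V' U A' B' A2 B2 h1' (by omega) hV' hR' (by rwa [mul_comm n' n]) (by rwa [mul_comm n' n])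
  rw [mul_comm n' n] at e2
  calc |cn n V - cn n' V'| = |(cn n V - cn (n * n') U) - (cn n' V' - cn (n * n') U)| := by
        congr 1; ring
    _ ≤ |cn n V - cn (n * n') U| + |cn n' V' - cn (n * n') U| := abs_sub _ _
    _ ≤ _ := add_le_add e1 e2

private theorem sq_tend (C : ℝ) (N1 : ℕ) :
    Filter.Tendsto (fun m : ℕ => C / Real.sqrt ((m + N1 : ℕ) : ℝ)) Filter.atTop (nhds 0) := by
  apply Filter.Tendsto.div_atTop tendsto_const_nhds
  refine Real.tendsto_sqrt_atTop.comp (tendsto_natCast_atTop_atTop.comp ?_)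
  exact Filter.tendsto_add_atTop_nat N1

theorem cn_lim : ∃ c C : ℝ, ∃ n0 : ℕ, 0 ≤ C ∧ ∀ n : ℕ, n0 ≤ n → ∀ W : ℤ × ℤ → ℝ, Opt n W →
    |cn n W - c| ≤ C / Real.sqrt n := by
  obtain ⟨L, hL, href⟩ := Pool.Agent.NQR.exists_ref
  obtain ⟨C, n0, hC, hcomp⟩ := cn_comp hL
  set N1 := max n0 1000 with hN1
  have hN1' : 1000 ≤ N1 := le_max_right _ _
  have hex : ∀ m : ℕ, ∃ W : ℤ × ℤ → ℝ, Opt (m + N1) W := fun m =>
    Pool.Agent.NQR.exists_opt (N := m + N1) (by omega)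
  choose W hW using hex
  have hmono : ∀ N m : ℕ, N ≤ m → C / Real.sqrt ((m + N1 : ℕ) : ℝ) ≤ C / Real.sqrt ((N + N1 : ℕ) : ℝ) := by
    intro N m hm
    have hpos : (0 : ℝ) < ((N + N1 : ℕ) : ℝ) := by
      have : 0 < N + N1 := by omega
      exact_mod_cast this
    refine div_le_div_of_nonneg_left hC (Real.sqrt_pos.mpr hpos) (Real.sqrt_le_sqrt ?_)
    exact_mod_cast Nat.add_le_add_right hm N1
  have hcs : CauchySeq (fun m => cn (m + N1) (W m)) := by
    refine cauchySeq_of_le_tendsto_0 (fun N => C / Real.sqrt ((N + N1 : ℕ) : ℝ) + C / Real.sqrt ((N + N1 : ℕ) : ℝ))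
      (fun m m' N hm hm' => ?_) ?_
    · rw [Real.dist_eq]
      refine (two_n href hcomp (n := m + N1) (n' := m' + N1) (by omega) (by omega) (hW m) (hW m')).trans ?_
      exact add_le_add (hmono N m hm) (hmono N m' hm')
    · have := (sq_tend C N1).add (sq_tend C N1)
      simpa using this
  obtain ⟨c, hc⟩ := cauchySeq_tendsto_of_complete hcs
  refine ⟨c, C, N1, hC, fun n hn V hV => ?_⟩
  have t1 : Filter.Tendsto (fun m => |cn n V - cn (m + N1) (W m)|) Filter.atTop (nhds |cn n V - c|) :=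
    (tendsto_const_nhds.sub hc).abs
  have t2 : Filter.Tendsto (fun m : ℕ => C / Real.sqrt n + C / Real.sqrt ((m + N1 : ℕ) : ℝ)) Filter.atTop
      (nhds (C / Real.sqrt n)) := by
    have := (tendsto_const_nhds (x := C / Real.sqrt (n : ℝ))).add (sq_tend C N1)
    simpa using this
  refine le_of_tendsto_of_tendsto' t1 t2 (fun m => ?_)
  exact two_n href hcomp (n := n) (n' := m + N1) hn (by omega) hV (hW m)

end Pool.Agent.NQF
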