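import Pool.Agent.NQF.Defs

/-!
# NQF-SDef: definitions for the block LS (nothing to prove)

PLAN. No proofs.
-/

set_option autoImplicit false

open Finset

namespace Pool.Agent.NQF

open Pool.Agent.NQ (board dsum F Ent Dg phi ln Q Qset QS NonAtt bern)
open Pool.Agent.NQR (Adm Opt Bd Rf hS hD hh InR)
open Pool.Agent.NQL

/-- the inverse `h` of the matrix `A` on `I` with its bounds -/
structure Hi {α : Type} [DecidableEq α] (C : ℝ) (m : ℕ) (I : Finset α) (A : α → α → ℝ) (g : α → ℝ)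
    (h : α → α → ℝ) : Prop where
  sy : ∀ l l', h l l' = h l' l
  out : ∀ l, l ∉ I → ∀ l', h l l' = 0
  inv : ∀ l ∈ I, ∀ k ∈ I, ∑ l' ∈ I, A l l' * h l' k = if l = k then 1 else 0
  ga : ∀ k ∈ I, ∑ l ∈ I, g l * h l k = g k
  en : ∀ l ∈ I, ∀ k ∈ I, |h l k - if l = k then 1 else 0| ≤ C / m
  co : ∀ k ∈ I, ∑ l ∈ I, (h l k - if l = k then 1 else 0) ^ 2 ≤ C / m
  hs : ∑ l ∈ I, ∑ k ∈ I, (h l k - if l = k then 1 else 0) ^ 2 ≤ C
  op : ∀ u : α → ℝ, ∑ l ∈ I, (∑ k ∈ I, h l k * u k) ^ 2 ≤ C * ∑ k ∈ I, u k ^ 2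

section

variable {α β : Type} [DecidableEq α] [DecidableEq β]

/-- trial change of the potentials if the square `e` is removed -/
noncomputable def tu (L : β → Finset α) (h : α → α → ℝ) (e : β) (l : α) : ℝ := -∑ k ∈ L e, h l k

/-- sum of `h` over all pairs of lines of `e` -/
noncomputable def ta (L : β → Finset α) (h : α → α → ℝ) (e : β) : ℝ := ∑ k ∈ L e, ∑ k' ∈ L e, h k k'

/-- sum of `φ` over the ordered pairs of different elements of `T` -/
noncomputable def pp2 (T : Finset α) (φ : α → α → ℝ) : ℝ := ∑ l ∈ T, ∑ l' ∈ T.erase l, φ l l'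

/-- first order change of the determinant -/
noncomputable def T1 (L : β → Finset α) (S : Finset β) (w : β → ℝ) (h : α → α → ℝ) (e : β) : ℝ :=
  ∑ f ∈ Sd L S e, w f * dS L (tu L h e) f * pp2 (L f) h - ∑ f ∈ Sm L S e, w f * pp2 (L f \ L e) h

/-- first order value `ξ` of the removal of `e` -/
noncomputable def xi1 (ν : ℕ) (L : β → Finset α) (w : β → ℝ) (h : α → α → ℝ) (e : β) : ℝ :=
  (ν : ℝ) / 2 - 2 * kap ν * w e - ta L h e / 2

/-- the exponent `η` of the removal of `e` -/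
noncomputable def eta (ν m : ℕ) (L : β → Finset α) (S : Finset β) (w : β → ℝ) (h : α → α → ℝ) (e : β) : ℝ :=
  xi1 ν L w h e - 1 / (2 * m) - (∑ k ∈ L e, (h k k - 1) + T1 L S w h e + 1 / m) / 2 +
    2 * kap ν * ∑ f ∈ Sm L S e, w f ^ 2 + kap ν * w e ^ 2 -
    2 * kap ν * ∑ f ∈ Sd L S e, w f ^ 2 * dS L (tu L h e) f

end

end Pool.Agent.NQF
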