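import Pool.Agent.NQF.Defs

/-!
# NQF-SBas: combinatorics of line systems, part 1
-/

set_option autoImplicit false

open Finset

namespace Pool.Agent.NQF

open Pool.Agent.NQ (board dsum F Ent Dg phi ln Q Qset QS NonAtt bern)
open Pool.Agent.NQR (Adm Opt Bd Rf hS hD hh InR)
open Pool.Agent.NQL

theorem sr_sum {α β : Type} [DecidableEq α] [DecidableEq β] {L : β → Finset α} {S : Finset β} {I : Finset α}
    (hs : ∀ e ∈ S, L e ⊆ I) (f : β → α → ℝ) :
    ∑ l ∈ I, ∑ e ∈ Sr L S l, f e l = ∑ e ∈ S, ∑ l ∈ L e, f e l := by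
  refine Finset.sum_comm' fun l e => ?_
  rw [Sr, mem_filter]
  constructor
  · rintro ⟨_, h1, h2⟩
    exact ⟨h2, h1⟩
  · rintro ⟨h1, h2⟩
    exact ⟨hs e h2 h1, h2, h1⟩

theorem split_sum {α β : Type} [DecidableEq α] [DecidableEq β] {L : β → Finset α} {S : Finset β} {e0 : β} (h0 : e0 ∈ S)
    (hn : (L e0).Nonempty) (G : β → ℝ) :
    ∑ f ∈ S, G f = ∑ f ∈ Sd L S e0, G f + ∑ f ∈ Sm L S e0, G f + G e0 := by
  have h1 : S.filter (fun f => ¬ Disjoint (L f) (L e0)) = insert e0 (Sm L S e0) := by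
    ext f
    rw [mem_insert, Sm, mem_filter, mem_filter]
    constructor
    · rintro ⟨h2, h3⟩
      by_cases h4 : f = e0
      · exact Or.inl h4
      · exact Or.inr ⟨h2, h3, h4⟩
    · rintro (rfl | ⟨h2, h3, _⟩)
      · refine ⟨h0, fun h2 => ?_⟩
        rw [disjoint_self] at h2
        exact hn.ne_empty h2
      · exact ⟨h2, h3⟩
  have h2 : e0 ∉ Sm L S e0 := by
    rw [Sm, mem_filter]
    exact fun h => h.2.2 rfl
  rw [← Finset.sum_filter_add_sum_filter_not S (fun f => Disjoint (L f) (L e0)) G, h1,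
    sum_insert h2, Sd]
  ring

theorem sm_unique {α β : Type} [DecidableEq α] [DecidableEq β] {L : β → Finset α} {S : Finset β}
    (hlin : ∀ e ∈ S, ∀ f ∈ S, e ≠ f → (L e ∩ L f).card ≤ 1) {e0 f : β} (h0 : e0 ∈ S) (hf : f ∈ Sm L S e0) :
    ∃ k, L f ∩ L e0 = {k} := by
  rw [Sm, mem_filter] at hf
  obtain ⟨h1, h2, h3⟩ := hf
  have h4 := hlin f h1 e0 h0 h3
  have h5 : 0 < (L f ∩ L e0).card := by
    rw [card_pos]
    exact not_disjoint_iff_nonempty_inter.1 h2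
  exact card_eq_one.1 (by omega)

private theorem sbas_one {α β : Type} [DecidableEq α] [DecidableEq β] {L : β → Finset α} {S : Finset β}
    (hlin : ∀ e ∈ S, ∀ f ∈ S, e ≠ f → (L e ∩ L f).card ≤ 1) {e0 f : β} (h0 : e0 ∈ S) (hf : f ∈ Sm L S e0)
    (x : ℝ) : ∑ _k ∈ L f ∩ L e0, x = x := by
  obtain ⟨k, hk⟩ := sm_unique hlin h0 hf
  rw [hk, sum_singleton]

theorem sm_sum {α β : Type} [DecidableEq α] [DecidableEq β] {L : β → Finset α} {S : Finset β}
    (hlin : ∀ e ∈ S, ∀ f ∈ S, e ≠ f → (L e ∩ L f).card ≤ 1) {e0 : β} (h0 : e0 ∈ S) (G : β → ℝ) :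
    ∑ f ∈ Sm L S e0, G f = ∑ k ∈ L e0, ∑ f ∈ (Sr L S k).erase e0, G f := by
  have h1 : ∑ k ∈ L e0, ∑ f ∈ (Sr L S k).erase e0, G f =
      ∑ f ∈ Sm L S e0, ∑ _k ∈ L f ∩ L e0, G f := by
    refine Finset.sum_comm' fun k f => ?_
    rw [mem_erase, Sr, mem_filter, mem_inter, Sm, mem_filter]
    constructor
    · rintro ⟨h2, h3, h4, h5⟩
      exact ⟨⟨h5, h2⟩, h4, not_disjoint_iff.2 ⟨k, h5, h2⟩, h3⟩
    · rintro ⟨⟨h2, h3⟩, h4, _, h6⟩
      exact ⟨h3, h6, h4, h2⟩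
  rw [h1]
  exact Finset.sum_congr rfl fun f hf => (sbas_one hlin h0 hf _).symm

theorem sm_line {α β : Type} [DecidableEq α] [DecidableEq β] {L : β → Finset α} {S : Finset β} {w : β → ℝ}
    (hlin : ∀ e ∈ S, ∀ f ∈ S, e ≠ f → (L e ∩ L f).card ≤ 1) {e0 : β} (h0 : e0 ∈ S) {l : α} (hl : l ∉ L e0) :
    ∑ f ∈ Sr L (Sm L S e0) l, w f = ∑ k ∈ L e0, MM L S w l k := by
  have h1 : ∑ k ∈ L e0, MM L S w l k =
      ∑ k ∈ L e0, ∑ e ∈ S.filter (fun e => l ∈ L e ∧ k ∈ L e), w e := by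
    refine Finset.sum_congr rfl fun k hk => ?_
    rw [MM, if_neg]
    rintro rfl
    exact hl hk
  have h2 : ∑ k ∈ L e0, ∑ e ∈ S.filter (fun e => l ∈ L e ∧ k ∈ L e), w e =
      ∑ f ∈ Sr L (Sm L S e0) l, ∑ _k ∈ L f ∩ L e0, w f := by
    refine Finset.sum_comm' fun k f => ?_
    rw [mem_filter, mem_inter, Sr, mem_filter, Sm, mem_filter]
    constructor
    · rintro ⟨h2, h3, h4, h5⟩
      refine ⟨⟨h5, h2⟩, ⟨h3, not_disjoint_iff.2 ⟨k, h5, h2⟩, ?_⟩, h4⟩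
      rintro rfl
      exact hl h4
    · rintro ⟨⟨h2, h3⟩, ⟨h4, _, _⟩, h7⟩
      exact ⟨h3, h4, h7, h2⟩
  rw [h1, h2]
  refine Finset.sum_congr rfl fun f hf => ?_
  rw [Sr, mem_filter] at hf
  exact (sbas_one hlin h0 hf.1 _).symm

theorem mm_eq {α β : Type} [DecidableEq α] [DecidableEq β] {L : β → Finset α} {S : Finset β} {w : β → ℝ}
    (hlin : ∀ e ∈ S, ∀ f ∈ S, e ≠ f → (L e ∩ L f).card ≤ 1) {e : β} (he : e ∈ S) {l l' : α} (hl : l ∈ L e)
    (hl' : l' ∈ L e) (hne : l ≠ l') : MM L S w l l' = w e := by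
  rw [MM, if_neg hne]
  have h1 : S.filter (fun e => l ∈ L e ∧ l' ∈ L e) = {e} := by
    ext f
    rw [mem_filter, mem_singleton]
    constructor
    · rintro ⟨h2, h3, h4⟩
      by_contra h5
      have h6 := hlin f h2 e he h5
      have h7 : 1 < (L f ∩ L e).card :=
        one_lt_card.2 ⟨l, mem_inter.2 ⟨h3, hl⟩, l', mem_inter.2 ⟨h4, hl'⟩, hne⟩
      omega
    · rintro rfl
      exact ⟨he, hl, hl'⟩
  rw [h1, sum_singleton]

theorem mm_sym {α β : Type} [DecidableEq α] [DecidableEq β] (L : β → Finset α) (S : Finset β) (w : β → ℝ) (l l' : α) :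
    MM L S w l l' = MM L S w l' l := by
  unfold MM
  by_cases h : l = l'
  · rw [if_pos h, if_pos h.symm]
  · rw [if_neg h, if_neg (fun h' => h h'.symm)]
    congr 1
    ext e
    rw [mem_filter, mem_filter]
    tauto

theorem mm_self {α β : Type} [DecidableEq α] [DecidableEq β] (L : β → Finset α) (S : Finset β) (w : β → ℝ) (l : α) :
    MM L S w l l = 0 := if_pos rfl

theorem mm_nn {α β : Type} [DecidableEq α] [DecidableEq β] {L : β → Finset α} {S : Finset β} {w : β → ℝ} (hw : ∀ e ∈ S, 0 ≤ w e)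
    (l l' : α) : 0 ≤ MM L S w l l' := by
  unfold MM
  split_ifs
  · exact le_rfl
  · exact Finset.sum_nonneg fun e he => hw e (mem_filter.1 he).1

theorem mm_le {α β : Type} [DecidableEq α] [DecidableEq β] {L : β → Finset α} {S : Finset β} {w : β → ℝ} {a : ℝ} (ha : 0 ≤ a)
    (hlin : ∀ e ∈ S, ∀ f ∈ S, e ≠ f → (L e ∩ L f).card ≤ 1) (hw : ∀ e ∈ S, w e ≤ a)
    (l l' : α) : MM L S w l l' ≤ a := by
  by_cases h : l = l'
  · subst h
    rw [mm_self]
    exact ha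
  · by_cases h2 : ∃ e ∈ S, l ∈ L e ∧ l' ∈ L e
    · obtain ⟨e, he, h3, h4⟩ := h2
      rw [mm_eq hlin he h3 h4 h]
      exact hw e he
    · rw [MM, if_neg h, Finset.sum_eq_zero]
      · exact ha
      · intro e he
        rw [mem_filter] at he
        exact absurd ⟨e, he⟩ h2

end Pool.Agent.NQF
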