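import Pool.Agent.NQF.Defs
import Pool.Agent.NQF.SBas

/-!
# NQF-SBat: combinatorics of line systems, part 2

Each off-diagonal entry is the sum over the squares on the first line that contain the second line.
-/

set_option autoImplicit false

open Finset

namespace Pool.Agent.NQF

open Pool.Agent.NQ (board dsum F Ent Dg phi ln Q Qset QS NonAtt bern)
open Pool.Agent.NQR (Adm Opt Bd Rf hS hD hh InR)
open Pool.Agent.NQL

private theorem sbat_ind {α β : Type} [DecidableEq α] [DecidableEq β] (L : β → Finset α) (S : Finset β)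
    (w : β → ℝ) (l l' : α) :
    MM L S w l l' = ∑ e ∈ Sr L S l, if l' ∈ (L e).erase l then w e else 0 := by
  unfold MM Sr
  by_cases h : l = l'
  · rw [if_pos h, Finset.sum_eq_zero]
    intro e _
    rw [if_neg]
    rw [h]
    exact Finset.notMem_erase l' (L e)
  · rw [if_neg h, Finset.sum_filter, Finset.sum_filter]
    apply Finset.sum_congr rfl
    intro e _
    by_cases h1 : l ∈ L e
    · by_cases h2 : l' ∈ L e
      · rw [if_pos ⟨h1, h2⟩, if_pos h1, if_pos (Finset.mem_erase.2 ⟨fun h3 => h h3.symm, h2⟩)]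
      · rw [if_neg (fun h3 => h2 h3.2), if_pos h1, if_neg (fun h3 => h2 (Finset.mem_of_mem_erase h3))]
    · rw [if_neg (fun h3 => h1 h3.1), if_neg h1]

private theorem sbat_row {α β : Type} [DecidableEq α] [DecidableEq β] {L : β → Finset α} {S : Finset β} {w : β → ℝ}
    {I : Finset α} (hs : ∀ e ∈ S, L e ⊆ I) (u : α → ℝ) (l : α) :
    ∑ l' ∈ I, MM L S w l l' * u l' = ∑ e ∈ Sr L S l, w e * ∑ l' ∈ (L e).erase l, u l' := by
  have h1 : ∀ l' ∈ I, MM L S w l l' * u l' =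
      ∑ e ∈ Sr L S l, if l' ∈ (L e).erase l then w e * u l' else 0 := by
    intro l' _
    rw [sbat_ind, Finset.sum_mul]
    apply Finset.sum_congr rfl
    intro e _
    split_ifs
    · rfl
    · rw [zero_mul]
  rw [Finset.sum_congr rfl h1, Finset.sum_comm]
  apply Finset.sum_congr rfl
  intro e he
  rw [← Finset.sum_filter, Finset.mul_sum]
  apply Finset.sum_congr _ (fun _ _ => rfl)
  ext x
  rw [Finset.mem_filter]
  constructor
  · exact fun h => h.2
  · intro h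
    exact ⟨hs e (Finset.mem_filter.1 he).1 (Finset.mem_of_mem_erase h), h⟩

private theorem sbat_sq {α β : Type} [DecidableEq α] [DecidableEq β] {L : β → Finset α} {S : Finset β} {w : β → ℝ}
    (hlin : ∀ e ∈ S, ∀ f ∈ S, e ≠ f → (L e ∩ L f).card ≤ 1) (l l' : α) :
    MM L S w l l' ^ 2 = MM L S (fun e => w e ^ 2) l l' := by
  by_cases h : l = l'
  · rw [h, mm_self, mm_self]
    norm_num
  · by_cases h1 : ∃ e ∈ S, l ∈ L e ∧ l' ∈ L e
    · obtain ⟨e, he, h2, h3⟩ := h1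
      rw [mm_eq hlin he h2 h3 h, mm_eq hlin he h2 h3 h]
    · have h2 : S.filter (fun e => l ∈ L e ∧ l' ∈ L e) = ∅ := by
        rw [Finset.filter_eq_empty_iff]
        intro e he h3
        exact h1 ⟨e, he, h3⟩
      unfold MM
      rw [if_neg h, if_neg h, h2, Finset.sum_empty, Finset.sum_empty]
      norm_num

theorem mm_row {α β : Type} [DecidableEq α] [DecidableEq β] {L : β → Finset α} {S : Finset β} {w : β → ℝ} {I : Finset α}
    (hs : ∀ e ∈ S, L e ⊆ I) (u : α → ℝ) (l : α) :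
    ∑ l' ∈ I, MM L S w l l' * u l' = ∑ e ∈ Sr L S l, w e * (dS L u e - u l) := by
  rw [sbat_row hs u l]
  apply Finset.sum_congr rfl
  intro e he
  rw [Finset.sum_erase_eq_sub (Finset.mem_filter.1 he).2]
  rfl

theorem mm_pair {α β : Type} [DecidableEq α] [DecidableEq β] {L : β → Finset α} {S : Finset β} {w : β → ℝ} {I : Finset α}
    (hs : ∀ e ∈ S, L e ⊆ I) (φ : α → α → ℝ) :
    ∑ l ∈ I, ∑ l' ∈ I, MM L S w l l' * φ l l' =
      ∑ e ∈ S, w e * ∑ l ∈ L e, ∑ l' ∈ (L e).erase l, φ l l' := by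
  rw [Finset.sum_congr rfl (fun l _ => sbat_row hs (φ l) l),
    sr_sum hs (fun e l => w e * ∑ l' ∈ (L e).erase l, φ l l')]
  apply Finset.sum_congr rfl
  intro e _
  rw [Finset.mul_sum]

theorem mm_sq_row {α β : Type} [DecidableEq α] [DecidableEq β] {L : β → Finset α} {S : Finset β} {w : β → ℝ} {I : Finset α} {ν : ℕ}
    (hs : ∀ e ∈ S, L e ⊆ I) (hc : ∀ e ∈ S, (L e).card = ν)
    (hlin : ∀ e ∈ S, ∀ f ∈ S, e ≠ f → (L e ∩ L f).card ≤ 1) (l : α) :
    ∑ l' ∈ I, MM L S w l l' ^ 2 = ((ν : ℝ) - 1) * ∑ e ∈ Sr L S l, w e ^ 2 := by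
  have h1 := sbat_row (w := fun e => w e ^ 2) hs (fun _ => (1 : ℝ)) l
  have h2 : ∑ l' ∈ I, MM L S w l l' ^ 2 = ∑ l' ∈ I, MM L S (fun e => w e ^ 2) l l' * 1 :=
    Finset.sum_congr rfl (fun l' _ => by rw [sbat_sq hlin, mul_one])
  rw [h2, h1, Finset.mul_sum]
  apply Finset.sum_congr rfl
  intro e he
  have h3 := (Finset.mem_filter.1 he)
  rw [Finset.sum_const, nsmul_eq_mul, mul_one, mul_comm]
  congr 1
  have h4 := Finset.card_erase_add_one h3.2
  rw [hc e h3.1] at h4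
  rw [← h4]
  push_cast
  ring

theorem mm_pair_sq {α β : Type} [DecidableEq α] [DecidableEq β] {L : β → Finset α} {S : Finset β} {w : β → ℝ} {I : Finset α}
    (hs : ∀ e ∈ S, L e ⊆ I)
    (hlin : ∀ e ∈ S, ∀ f ∈ S, e ≠ f → (L e ∩ L f).card ≤ 1) (φ : α → α → ℝ) :
    ∑ l ∈ I, ∑ l' ∈ I, MM L S w l l' ^ 2 * φ l l' =
      ∑ e ∈ S, w e ^ 2 * ∑ l ∈ L e, ∑ l' ∈ (L e).erase l, φ l l' := by
  rw [← mm_pair (w := fun e => w e ^ 2) hs φ]
  exact Finset.sum_congr rfl (fun l _ => Finset.sum_congr rfl (fun l' _ => by rw [sbat_sq hlin]))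

theorem cross1 {α β : Type} [DecidableEq α] [DecidableEq β] {L : β → Finset α} {S : Finset β} {I : Finset α}
    (hs : ∀ e ∈ S, L e ⊆ I) (hlin : ∀ e ∈ S, ∀ f ∈ S, e ≠ f → (L e ∩ L f).card ≤ 1) {f : α → ℝ}
    (hf : ∀ l ∈ I, 0 ≤ f l) (l : α) :
    ∑ e ∈ Sr L S l, ∑ l' ∈ (L e).erase l, f l' ≤ ∑ l' ∈ I, f l' := by
  have h1 := sbat_row (w := fun _ => (1 : ℝ)) hs f l
  have h2 : ∑ e ∈ Sr L S l, (1 : ℝ) * ∑ l' ∈ (L e).erase l, f l' =
      ∑ e ∈ Sr L S l, ∑ l' ∈ (L e).erase l, f l' :=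
    Finset.sum_congr rfl (fun e _ => one_mul _)
  rw [← h2, ← h1]
  apply Finset.sum_le_sum
  intro l' hl'
  have h3 : MM L S (fun _ => (1 : ℝ)) l l' ≤ 1 :=
    mm_le zero_le_one hlin (fun _ _ => le_refl _) l l'
  have h4 := mul_le_mul_of_nonneg_right h3 (hf l' hl')
  rwa [one_mul] at h4

theorem mm_split {α β : Type} [DecidableEq α] [DecidableEq β] {L : β → Finset α} {S : Finset β} {w : β → ℝ} {e0 : β} {l l' : α}
    (hl : l ∉ L e0) : MM L S w l l' = MM L (Sd L S e0) w l l' + MM L (Sm L S e0) w l l' := by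
  unfold MM Sd Sm
  by_cases h : l = l'
  · rw [if_pos h, if_pos h, if_pos h, add_zero]
  · rw [if_neg h, if_neg h, if_neg h, Finset.filter_filter, Finset.filter_filter, Finset.sum_filter,
      Finset.sum_filter, Finset.sum_filter, ← Finset.sum_add_distrib]
    apply Finset.sum_congr rfl
    intro e _
    by_cases h1 : l ∈ L e ∧ l' ∈ L e
    · have h2 : e ≠ e0 := by
        intro h3
        rw [h3] at h1
        exact hl h1.1
      by_cases h3 : Disjoint (L e) (L e0)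
      · rw [if_pos h1, if_pos ⟨h3, h1⟩, if_neg (fun h4 => h4.1.1 h3), add_zero]
      · rw [if_pos h1, if_neg (fun h4 => h3 h4.1), if_pos ⟨⟨h3, h2⟩, h1⟩, zero_add]
    · rw [if_neg h1, if_neg (fun h4 => h1 h4.2), if_neg (fun h4 => h1 h4.2), add_zero]

theorem mm_lin {α β : Type} [DecidableEq α] [DecidableEq β] (L : β → Finset α) (S : Finset β) (w w' : β → ℝ) (a : ℝ) (l l' : α) :
    MM L S (fun e => w e + a * w' e) l l' = MM L S w l l' + a * MM L S w' l l' := by
  unfold MM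
  by_cases h : l = l'
  · rw [if_pos h, if_pos h, if_pos h, mul_zero, add_zero]
  · rw [if_neg h, if_neg h, if_neg h, Finset.sum_add_distrib, Finset.mul_sum]

end Pool.Agent.NQF
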