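import Pool.Agent.NQF.Defs
import Pool.Agent.NQF.SBas
import Pool.Agent.NQF.SBat

/-!
# NQF-SMas: masses in line systems

PLAN. `ls_w`: `2 ∑ w = ∑_e w e ∑_{l ∈ L e} g l ^ 2` (`ge2`) `= ∑_l g l ^ 2 ∑_{Sr l} w` (`sr_sum`) `= ∑_l g l ^ 2` because `c l = 0` if `g l ≠ 0`. `ls_w2`: `w² ≤ (K/m) w`. `ls_line`: `st`, `cnn`, `wnn`.
`ls_sm`: `sm_sum`, each line has mass at most one. `ls_sml`: `sm_line`, `MM ≤ K/m` (`mm_le`). `ls_sm2`: `(∑_{Sr (Sm) l} w)² ≤ (ν K/m) ∑_{Sr (Sm) l} w` and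
`∑_l ∑_{Sr (Sm) l} w ≤ ν ∑_{Sm} w ≤ ν²`. `ls_ds`: `(dS u e)² ≤ ν ∑_{l ∈ L e} u l ^ 2`, `sr_sum`, masses at most one. `ls_dl`: Cauchy-Schwarz `∑ w |a| ≤ √(∑ w²) √(∑ a²)` with
`a e = dS u e - u l` = sum over `(L e).erase l` (`ν - 1` lines), `cross1`.
-/

set_option autoImplicit false

open Finset

namespace Pool.Agent.NQF

open Pool.Agent.NQ (board dsum F Ent Dg phi ln Q Qset QS NonAtt bern)
open Pool.Agent.NQR (Adm Opt Bd Rf hS hD hh InR)
open Pool.Agent.NQL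

theorem ls_w {α β : Type} [DecidableEq α] [DecidableEq β] {ν m : ℕ} {K lam : ℝ} {I : Finset α} {L : β → Finset α}
    {S : Finset β} {w : β → ℝ} {c g : α → ℝ} (h : LSys ν m K lam I L S w c g) :
    ∑ e ∈ S, w e = m := by
  have h1 := sr_sum (L := L) (S := S) (I := I) h.sub (fun e l => w e * g l ^ 2)
  have h2 : ∑ e ∈ S, ∑ l ∈ L e, w e * g l ^ 2 = (∑ e ∈ S, w e) * 2 := by
    rw [Finset.sum_mul]
    apply Finset.sum_congr rfl
    intro e he
    rw [← Finset.mul_sum, h.ge2 e he]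
  have h3 : ∑ l ∈ I, ∑ e ∈ Sr L S l, w e * g l ^ 2 = ∑ l ∈ I, g l ^ 2 := by
    apply Finset.sum_congr rfl
    intro l hl
    rw [← Finset.sum_mul]
    by_cases h0 : g l = 0
    · rw [h0]; ring
    · have h4 := h.st l hl
      rw [h.gc l hl h0, add_zero] at h4
      rw [h4, one_mul]
  rw [h2, h3, h.g2] at h1
  linarith

private theorem km_nn {α β : Type} [DecidableEq α] [DecidableEq β] {ν m : ℕ} {K lam : ℝ} {I : Finset α} {L : β → Finset α}
    {S : Finset β} {w : β → ℝ} {c g : α → ℝ} (h : LSys ν m K lam I L S w c g) : 0 ≤ K / (m : ℝ) := by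
  rcases Nat.eq_zero_or_pos m with h0 | h0
  · rw [h0]; simp
  · have h1 := ls_w h
    by_contra hc
    have h2 : S = ∅ := by
      rw [Finset.eq_empty_iff_forall_notMem]
      intro e he
      exact hc ((h.wnn e he).trans (h.up e he))
    rw [h2, Finset.sum_empty] at h1
    have : (0 : ℝ) < m := by exact_mod_cast h0
    linarith

private theorem sq_le' {α β : Type} [DecidableEq α] [DecidableEq β] {ν m : ℕ} {K lam : ℝ} {I : Finset α} {L : β → Finset α}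
    {S : Finset β} {w : β → ℝ} {c g : α → ℝ} (h : LSys ν m K lam I L S w c g) {T : Finset β} (hT : T ⊆ S) {a : ℝ}
    (ha : ∑ e ∈ T, w e ≤ a) : ∑ e ∈ T, w e ^ 2 ≤ K / m * a := by
  calc ∑ e ∈ T, w e ^ 2 ≤ ∑ e ∈ T, K / m * w e := by
        apply Finset.sum_le_sum
        intro e he
        have h1 := h.wnn e (hT he)
        have h2 := h.up e (hT he)
        nlinarith
    _ = K / m * ∑ e ∈ T, w e := by rw [Finset.mul_sum]
    _ ≤ K / m * a := mul_le_mul_of_nonneg_left ha (km_nn h)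

theorem ls_w2 {α β : Type} [DecidableEq α] [DecidableEq β] {ν m : ℕ} {K lam : ℝ} {I : Finset α} {L : β → Finset α}
    {S : Finset β} {w : β → ℝ} {c g : α → ℝ} (h : LSys ν m K lam I L S w c g)
    (hm : 1 ≤ m) : ∑ e ∈ S, w e ^ 2 ≤ K := by
  have h1 := sq_le' h (Finset.Subset.refl S) (le_of_eq (ls_w h))
  have h2 : (0 : ℝ) < m := by exact_mod_cast hm
  rwa [div_mul_cancel₀ _ h2.ne'] at h1

theorem ls_line {α β : Type} [DecidableEq α] [DecidableEq β] {ν m : ℕ} {K lam : ℝ} {I : Finset α} {L : β → Finset α}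
    {S : Finset β} {w : β → ℝ} {c g : α → ℝ} (h : LSys ν m K lam I L S w c g)
    {l : α} (hl : l ∈ I) : 0 ≤ ∑ e ∈ Sr L S l, w e ∧ ∑ e ∈ Sr L S l, w e ≤ 1 ∧
      ∑ e ∈ Sr L S l, w e ^ 2 ≤ K / m ∧ (g l ≠ 0 → ∑ e ∈ Sr L S l, w e = 1) := by
  have h1 := h.st l hl
  have h2 := h.cnn l hl
  have h3 : ∑ e ∈ Sr L S l, w e ≤ 1 := by linarith
  refine ⟨Finset.sum_nonneg (fun e he => h.wnn e (Finset.mem_of_mem_filter e he)), h3, ?_, ?_⟩
  · have h4 := sq_le' h (Finset.filter_subset (fun e => l ∈ L e) S) h3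
    rwa [mul_one] at h4
  · intro h4
    rw [h.gc l hl h4, add_zero] at h1
    exact h1

theorem ls_sm {α β : Type} [DecidableEq α] [DecidableEq β] {ν m : ℕ} {K lam : ℝ} {I : Finset α} {L : β → Finset α}
    {S : Finset β} {w : β → ℝ} {c g : α → ℝ} (h : LSys ν m K lam I L S w c g)
    (hm : 1 ≤ m) {e0 : β} (h0 : e0 ∈ S) : ∑ f ∈ Sm L S e0, w f ≤ ν ∧ ∑ f ∈ Sm L S e0, w f ^ 2 ≤ ν * K / m := by
  have h1 : ∑ f ∈ Sm L S e0, w f ≤ ν := by
    rw [sm_sum h.lin h0]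
    calc ∑ k ∈ L e0, ∑ f ∈ (Sr L S k).erase e0, w f ≤ ∑ k ∈ L e0, (1 : ℝ) := by
          apply Finset.sum_le_sum
          intro k hk
          refine le_trans ?_ (ls_line h (h.sub e0 h0 hk)).2.1
          apply Finset.sum_le_sum_of_subset_of_nonneg (Finset.erase_subset _ _)
          intro e he _
          exact h.wnn e (Finset.mem_of_mem_filter e he)
      _ = ν := by rw [Finset.sum_const, h.card e0 h0, nsmul_eq_mul, mul_one]
  refine ⟨h1, ?_⟩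
  have h2 := sq_le' h (Finset.filter_subset _ S) h1
  calc _ ≤ _ := h2
    _ = ν * K / m := by ring

theorem ls_sml {α β : Type} [DecidableEq α] [DecidableEq β] {ν m : ℕ} {K lam : ℝ} {I : Finset α} {L : β → Finset α}
    {S : Finset β} {w : β → ℝ} {c g : α → ℝ} (h : LSys ν m K lam I L S w c g)
    (hK : 0 ≤ K) {e0 : β} (h0 : e0 ∈ S) {l : α} (hl : l ∉ L e0) :
    ∑ f ∈ Sr L (Sm L S e0) l, w f ≤ ν * K / m := by
  rw [sm_line h.lin h0 hl]
  calc ∑ k ∈ L e0, MM L S w l k ≤ ∑ k ∈ L e0, K / m := by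
        apply Finset.sum_le_sum
        intro k _
        exact mm_le (km_nn h) h.lin h.up l k
    _ = ν * K / m := by rw [Finset.sum_const, h.card e0 h0, nsmul_eq_mul]; ring

theorem ls_sm2 {α β : Type} [DecidableEq α] [DecidableEq β] {ν m : ℕ} {K lam : ℝ} {I : Finset α} {L : β → Finset α}
    {S : Finset β} {w : β → ℝ} {c g : α → ℝ} (h : LSys ν m K lam I L S w c g)
    (hK : 0 ≤ K) (hm : 1 ≤ m) {e0 : β} (h0 : e0 ∈ S) :
    ∑ l ∈ I \ L e0, (∑ f ∈ Sr L (Sm L S e0) l, w f) ^ 2 ≤ (ν : ℝ) ^ 3 * K / m := by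
  have hsub : Sm L S e0 ⊆ S := Finset.filter_subset _ S
  have hnn : ∀ l, 0 ≤ ∑ f ∈ Sr L (Sm L S e0) l, w f := by
    intro l
    apply Finset.sum_nonneg
    intro f hf
    exact h.wnn f (hsub (Finset.mem_of_mem_filter f hf))
  have h1 : ∑ l ∈ I \ L e0, ∑ f ∈ Sr L (Sm L S e0) l, w f ≤ (ν : ℝ) ^ 2 := by
    calc ∑ l ∈ I \ L e0, ∑ f ∈ Sr L (Sm L S e0) l, w f ≤ ∑ l ∈ I, ∑ f ∈ Sr L (Sm L S e0) l, w f :=
          Finset.sum_le_sum_of_subset_of_nonneg Finset.sdiff_subset (fun l _ _ => hnn l)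
      _ = ∑ f ∈ Sm L S e0, ∑ l ∈ L f, w f := sr_sum (fun e he => h.sub e (hsub he)) (fun e _ => w e)
      _ = ∑ f ∈ Sm L S e0, (ν : ℝ) * w f := by
          apply Finset.sum_congr rfl
          intro f hf
          rw [Finset.sum_const, h.card f (hsub hf), nsmul_eq_mul]
      _ = ν * ∑ f ∈ Sm L S e0, w f := by rw [Finset.mul_sum]
      _ ≤ ν * ν := mul_le_mul_of_nonneg_left (ls_sm h hm h0).1 (Nat.cast_nonneg ν)
      _ = (ν : ℝ) ^ 2 := by ring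
  have h2 : 0 ≤ (ν : ℝ) * K / m := by
    have := mul_nonneg (Nat.cast_nonneg ν : (0 : ℝ) ≤ ν) (km_nn h)
    calc (0 : ℝ) ≤ _ := this
      _ = _ := by ring
  calc ∑ l ∈ I \ L e0, (∑ f ∈ Sr L (Sm L S e0) l, w f) ^ 2
      ≤ ∑ l ∈ I \ L e0, (ν * K / m) * ∑ f ∈ Sr L (Sm L S e0) l, w f := by
        apply Finset.sum_le_sum
        intro l hl
        rw [Finset.mem_sdiff] at hl
        have h3 := ls_sml h hK h0 hl.2
        rw [sq]
        exact mul_le_mul_of_nonneg_right h3 (hnn l)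
    _ = (ν * K / m) * ∑ l ∈ I \ L e0, ∑ f ∈ Sr L (Sm L S e0) l, w f := by rw [Finset.mul_sum]
    _ ≤ (ν * K / m) * (ν : ℝ) ^ 2 := mul_le_mul_of_nonneg_left h1 h2
    _ = (ν : ℝ) ^ 3 * K / m := by ring

theorem ls_ds {α β : Type} [DecidableEq α] [DecidableEq β] {ν m : ℕ} {K lam : ℝ} {I : Finset α} {L : β → Finset α}
    {S : Finset β} {w : β → ℝ} {c g : α → ℝ} (h : LSys ν m K lam I L S w c g)
    (u : α → ℝ) : ∑ e ∈ S, w e * dS L u e ^ 2 ≤ ν * ∑ l ∈ I, u l ^ 2 := by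
  calc ∑ e ∈ S, w e * dS L u e ^ 2 ≤ ∑ e ∈ S, ∑ l ∈ L e, (ν : ℝ) * (w e * u l ^ 2) := by
        apply Finset.sum_le_sum
        intro e he
        have h1 : dS L u e ^ 2 ≤ ν * ∑ l ∈ L e, u l ^ 2 := by
          have h2 := sq_sum_le_card_mul_sum_sq (s := L e) (f := u)
          rw [h.card e he] at h2
          exact h2
        calc w e * dS L u e ^ 2 ≤ w e * (ν * ∑ l ∈ L e, u l ^ 2) := mul_le_mul_of_nonneg_left h1 (h.wnn e he)
          _ = ∑ l ∈ L e, (ν : ℝ) * (w e * u l ^ 2) := by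
            rw [Finset.mul_sum, Finset.mul_sum]
            apply Finset.sum_congr rfl
            intro l _
            ring
    _ = ∑ l ∈ I, ∑ e ∈ Sr L S l, (ν : ℝ) * (w e * u l ^ 2) :=
        (sr_sum h.sub (fun e l => (ν : ℝ) * (w e * u l ^ 2))).symm
    _ ≤ ∑ l ∈ I, (ν : ℝ) * u l ^ 2 := by
        apply Finset.sum_le_sum
        intro l hl
        rw [← Finset.mul_sum, ← Finset.sum_mul]
        apply mul_le_mul_of_nonneg_left _ (Nat.cast_nonneg ν)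
        have h3 := (ls_line h hl).2.1
        calc (∑ e ∈ Sr L S l, w e) * u l ^ 2 ≤ 1 * u l ^ 2 := mul_le_mul_of_nonneg_right h3 (sq_nonneg _)
          _ = u l ^ 2 := one_mul _
    _ = ν * ∑ l ∈ I, u l ^ 2 := by rw [Finset.mul_sum]

theorem ls_dl {α β : Type} [DecidableEq α] [DecidableEq β] {ν m : ℕ} {K lam : ℝ} {I : Finset α} {L : β → Finset α}
    {S : Finset β} {w : β → ℝ} {c g : α → ℝ} (h : LSys ν m K lam I L S w c g)
    (hν : 1 ≤ ν) (u : α → ℝ) {l : α} (hl : l ∈ I) :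
    ∑ e ∈ Sr L S l, w e * |dS L u e - u l| ≤ Real.sqrt (K / m * (ν - 1) * ∑ l' ∈ I, u l' ^ 2) := by
  refine (le_abs_self _).trans (Real.abs_le_sqrt ?_)
  have hν' : (0 : ℝ) ≤ (ν : ℝ) - 1 := by
    have : (1 : ℝ) ≤ ν := by exact_mod_cast hν
    linarith
  have h1 : ∑ e ∈ Sr L S l, |dS L u e - u l| ^ 2 ≤ (ν - 1) * ∑ l' ∈ I, u l' ^ 2 := by
    calc ∑ e ∈ Sr L S l, |dS L u e - u l| ^ 2 ≤ ∑ e ∈ Sr L S l, ((ν : ℝ) - 1) * ∑ l' ∈ (L e).erase l, u l' ^ 2 := by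
          apply Finset.sum_le_sum
          intro e he
          rw [Sr, Finset.mem_filter] at he
          have h2 : dS L u e - u l = ∑ l' ∈ (L e).erase l, u l' := by
            unfold dS
            rw [← Finset.add_sum_erase _ _ he.2]
            ring
          rw [sq_abs, h2]
          have h3 := sq_sum_le_card_mul_sum_sq (s := (L e).erase l) (f := u)
          rw [Finset.card_erase_of_mem he.2, h.card e he.1, Nat.cast_sub hν, Nat.cast_one] at h3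
          exact h3
      _ = (ν - 1) * ∑ e ∈ Sr L S l, ∑ l' ∈ (L e).erase l, u l' ^ 2 := by rw [Finset.mul_sum]
      _ ≤ (ν - 1) * ∑ l' ∈ I, u l' ^ 2 :=
        mul_le_mul_of_nonneg_left (cross1 h.sub h.lin (f := fun l' => u l' ^ 2) (fun l' _ => sq_nonneg _) l) hν'
  calc (∑ e ∈ Sr L S l, w e * |dS L u e - u l|) ^ 2
      ≤ (∑ e ∈ Sr L S l, w e ^ 2) * ∑ e ∈ Sr L S l, |dS L u e - u l| ^ 2 := Finset.sum_mul_sq_le_sq_mul_sq _ _ _
    _ ≤ (K / m) * ((ν - 1) * ∑ l' ∈ I, u l' ^ 2) :=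
        mul_le_mul (ls_line h hl).2.2.1 h1 (Finset.sum_nonneg (fun e _ => sq_nonneg _)) (km_nn h)
    _ = K / m * (ν - 1) * ∑ l' ∈ I, u l' ^ 2 := by ring

end Pool.Agent.NQF
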