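import Pool.Agent.NQF.Defs
import Pool.Agent.NQF.SDef
import Pool.Agent.NQF.SBas
import Pool.Agent.NQF.SBat
import Pool.Agent.NQF.SMas

/-!
# NQF-STri: the trial direction
-/

set_option autoImplicit false

open Finset

namespace Pool.Agent.NQF

open Pool.Agent.NQ (board dsum F Ent Dg phi ln Q Qset QS NonAtt bern)
open Pool.Agent.NQR (Adm Opt Bd Rf hS hD hh InR)
open Pool.Agent.NQL

section

variable {α β : Type} [DecidableEq α] [DecidableEq β] {ν m : ℕ} {K C0 lam : ℝ} {I : Finset α}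
  {L : β → Finset α} {S : Finset β} {w : β → ℝ} {c g : α → ℝ} {h : α → α → ℝ} {e0 : β}

private theorem tri1 (hL : LSys ν m K lam I L S w c g) (hH : Hi C0 m I (AA L S w g m) g h)
    (h0 : e0 ∈ S) {l : α} (hl : l ∈ I \ L e0) : |tu L h e0 l| ≤ ν * (C0 / m) := by
  rw [mem_sdiff] at hl
  unfold tu
  rw [abs_neg]
  refine (Finset.abs_sum_le_sum_abs _ _).trans ?_
  have h1 : ∀ k ∈ L e0, |h l k| ≤ C0 / m := by
    intro k hk
    have h2 := hH.en l hl.1 k (hL.sub e0 h0 hk)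
    have h3 : l ≠ k := by
      rintro rfl
      exact hl.2 hk
    rw [if_neg h3, sub_zero] at h2
    exact h2
  have h2 := Finset.sum_le_card_nsmul (L e0) (fun k => |h l k|) (C0 / m) h1
  rw [hL.card e0 h0, nsmul_eq_mul] at h2
  exact h2

private theorem tri2 (hL : LSys ν m K lam I L S w c g) (hH : Hi C0 m I (AA L S w g m) g h)
    (h0 : e0 ∈ S) : ∑ l ∈ I \ L e0, tu L h e0 l ^ 2 ≤ ν * (ν * (C0 / m)) := by
  have h1 : ∀ l ∈ I \ L e0, tu L h e0 l ^ 2 ≤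
      ν * ∑ k ∈ L e0, (h l k - if l = k then 1 else 0) ^ 2 := by
    intro l hl
    rw [mem_sdiff] at hl
    unfold tu
    rw [neg_sq]
    have h2 := sq_sum_le_card_mul_sum_sq (s := L e0) (f := fun k => h l k)
    rw [hL.card e0 h0] at h2
    refine h2.trans (le_of_eq ?_)
    congr 1
    refine Finset.sum_congr rfl fun k hk => ?_
    have h3 : l ≠ k := by
      rintro rfl
      exact hl.2 hk
    rw [if_neg h3, sub_zero]
  refine (Finset.sum_le_sum h1).trans ?_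
  rw [← Finset.mul_sum]
  refine mul_le_mul_of_nonneg_left ?_ (Nat.cast_nonneg ν)
  rw [Finset.sum_comm]
  have h2 : ∀ k ∈ L e0, ∑ l ∈ I \ L e0, (h l k - if l = k then 1 else 0) ^ 2 ≤ C0 / m := by
    intro k hk
    refine le_trans ?_ (hH.co k (hL.sub e0 h0 hk))
    exact Finset.sum_le_sum_of_subset_of_nonneg sdiff_subset fun _ _ _ => sq_nonneg _
  have h3 := Finset.sum_le_card_nsmul (L e0) _ (C0 / m) h2
  rw [hL.card e0 h0, nsmul_eq_mul] at h3
  exact h3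

private theorem tri3 (hL : LSys ν m K lam I L S w c g) (hH : Hi C0 m I (AA L S w g m) g h)
    (h0 : e0 ∈ S) {k : α} (hk : k ∈ L e0) : |tu L h e0 k + 1| ≤ ν * (C0 / m) := by
  have h1 : tu L h e0 k + 1 = -∑ k' ∈ L e0, (h k k' - if k = k' then 1 else 0) := by
    unfold tu
    rw [Finset.sum_sub_distrib, Finset.sum_ite_eq, if_pos hk]
    ring
  rw [h1, abs_neg]
  refine (Finset.abs_sum_le_sum_abs _ _).trans ?_
  have h2 := Finset.sum_le_card_nsmul (L e0) (fun k' => |h k k' - if k = k' then 1 else 0|)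
    (C0 / m) (fun k' hk' => hH.en k (hL.sub e0 h0 hk) k' (hL.sub e0 h0 hk'))
  rw [hL.card e0 h0, nsmul_eq_mul] at h2
  exact h2

private theorem tri4 (hL : LSys ν m K lam I L S w c g) (hH : Hi C0 m I (AA L S w g m) g h)
    (h0 : e0 ∈ S) : ∑ l ∈ I, g l * tu L h e0 l = 0 := by
  unfold tu
  have h1 : ∑ l ∈ I, g l * -∑ k ∈ L e0, h l k = -∑ k ∈ L e0, ∑ l ∈ I, g l * h l k := by
    rw [Finset.sum_comm, ← Finset.sum_neg_distrib]
    refine Finset.sum_congr rfl fun l _ => ?_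
    rw [← Finset.mul_sum]
    ring
  rw [h1, Finset.sum_congr rfl fun k hk => hH.ga k (hL.sub e0 h0 hk), hL.ge e0 h0, neg_zero]

private theorem tri5 (hL : LSys ν m K lam I L S w c g) (hH : Hi C0 m I (AA L S w g m) g h)
    (h0 : e0 ∈ S) {l : α} (hl : l ∈ I) :
    ∑ f ∈ Sr L S l, w f * dS L (tu L h e0) f + c l * tu L h e0 l =
      if l ∈ L e0 then -1 else 0 := by
  have h1 : ∑ l' ∈ I, AA L S w g m l l' * tu L h e0 l' = if l ∈ L e0 then -1 else 0 := by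
    unfold tu
    have h2 : ∑ l' ∈ I, AA L S w g m l l' * -∑ k ∈ L e0, h l' k =
        -∑ k ∈ L e0, ∑ l' ∈ I, AA L S w g m l l' * h l' k := by
      rw [Finset.sum_comm, ← Finset.sum_neg_distrib]
      refine Finset.sum_congr rfl fun l' _ => ?_
      rw [← Finset.mul_sum]
      ring
    rw [h2, Finset.sum_congr rfl fun k hk => hH.inv l hl k (hL.sub e0 h0 hk), Finset.sum_ite_eq]
    split_ifs <;> ring
  have h2 : ∑ l' ∈ I, AA L S w g m l l' * tu L h e0 l' =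
      tu L h e0 l + ∑ l' ∈ I, MM L S w l l' * tu L h e0 l' +
        g l / (2 * m) * ∑ l' ∈ I, g l' * tu L h e0 l' := by
    unfold AA
    simp only [add_mul, Finset.sum_add_distrib]
    congr 1
    · congr 1
      simp only [ite_mul, one_mul, zero_mul]
      rw [Finset.sum_ite_eq, if_pos hl]
    · rw [Finset.mul_sum]
      refine Finset.sum_congr rfl fun l' _ => ?_
      ring
  rw [h1, tri4 hL hH h0, mul_zero, add_zero, mm_row hL.sub] at h2
  rw [h2]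
  have h3 : ∑ e ∈ Sr L S l, w e * (dS L (tu L h e0) e - tu L h e0 l) =
      ∑ e ∈ Sr L S l, w e * dS L (tu L h e0) e - (∑ e ∈ Sr L S l, w e) * tu L h e0 l := by
    rw [Finset.sum_mul, ← Finset.sum_sub_distrib]
    refine Finset.sum_congr rfl fun e _ => ?_
    ring
  have h4 := hL.st l hl
  rw [h3]
  linear_combination (tu L h e0 l) * h4

private theorem tri6 (hL : LSys ν m K lam I L S w c g) (hH : Hi C0 m I (AA L S w g m) g h)
    (h0 : e0 ∈ S) {f : β} (hf : f ∈ Sm L S e0) :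
    |1 + dS L (tu L h e0) f| ≤ ν * (ν * (C0 / m)) := by
  have hfS : f ∈ S := (mem_filter.1 hf).1
  obtain ⟨k, hk⟩ := sm_unique hL.lin h0 hf
  have hkm : k ∈ L f ∩ L e0 := by rw [hk]; exact mem_singleton_self k
  rw [mem_inter] at hkm
  have h1 : 1 + dS L (tu L h e0) f = (tu L h e0 k + 1) + ∑ l ∈ (L f).erase k, tu L h e0 l := by
    unfold dS
    rw [← Finset.add_sum_erase _ _ hkm.1]
    ring
  have h2 : ∀ l ∈ (L f).erase k, |tu L h e0 l| ≤ ν * (C0 / m) := by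
    intro l hl
    rw [mem_erase] at hl
    refine tri1 hL hH h0 ?_
    rw [mem_sdiff]
    refine ⟨hL.sub f hfS hl.2, fun h3 => hl.1 ?_⟩
    have h4 : l ∈ L f ∩ L e0 := mem_inter.2 ⟨hl.2, h3⟩
    rw [hk, mem_singleton] at h4
    exact h4
  have h3 := Finset.sum_le_card_nsmul _ _ _ h2
  have hcard : ((L f).erase k).card + 1 = ν := by
    rw [card_erase_of_mem hkm.1, hL.card f hfS]
    have : 0 < (L f).card := card_pos.2 ⟨k, hkm.1⟩
    rw [hL.card f hfS] at this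
    omega
  have hcard' : (((L f).erase k).card : ℝ) + 1 = ν := by exact_mod_cast hcard
  rw [nsmul_eq_mul] at h3
  rw [h1]
  calc |(tu L h e0 k + 1) + ∑ l ∈ (L f).erase k, tu L h e0 l|
      ≤ |tu L h e0 k + 1| + ∑ l ∈ (L f).erase k, |tu L h e0 l| :=
        (abs_add_le _ _).trans (add_le_add le_rfl (Finset.abs_sum_le_sum_abs _ _))
    _ ≤ ν * (C0 / m) + ((L f).erase k).card * (ν * (C0 / m)) :=
        add_le_add (tri3 hL hH h0 hkm.2) h3
    _ = ν * (ν * (C0 / m)) := by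
        rw [← hcard']
        ring

private theorem tri7 (hL : LSys ν m K lam I L S w c g) (hH : Hi C0 m I (AA L S w g m) g h)
    (hν : 1 ≤ ν) (h0 : e0 ∈ S) {l : α} (hl : l ∈ I \ L e0) :
    (∑ f ∈ Sr L (Sd L S e0) l, w f * (1 + dS L (tu L h e0) f) +
        c l * (1 + tu L h e0 l) - 1) ^ 2 ≤
      (ν * (ν * (C0 / m))) ^ 2 * (∑ f ∈ Sr L (Sm L S e0) l, w f) ^ 2 := by
  rw [mem_sdiff] at hl
  have hne : (L e0).Nonempty := by
    rw [← card_pos, hL.card e0 h0]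
    exact hν
  have h1 : ∀ G : β → ℝ, ∑ f ∈ Sr L S l, G f =
      ∑ f ∈ Sr L (Sd L S e0) l, G f + ∑ f ∈ Sr L (Sm L S e0) l, G f := by
    intro G
    have h2 := split_sum h0 hne (fun f => if l ∈ L f then G f else 0)
    rw [← Finset.sum_filter, ← Finset.sum_filter, ← Finset.sum_filter, if_neg hl.2,
      add_zero] at h2
    exact h2
  have h2 := h1 fun f => w f * (1 + dS L (tu L h e0) f)
  have h3 : ∑ f ∈ Sr L S l, w f * (1 + dS L (tu L h e0) f) =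
      ∑ f ∈ Sr L S l, w f + ∑ f ∈ Sr L S l, w f * dS L (tu L h e0) f := by
    rw [← Finset.sum_add_distrib]
    refine Finset.sum_congr rfl fun f _ => ?_
    ring
  have h4 := hL.st l hl.1
  have h5 := tri5 hL hH h0 hl.1
  rw [if_neg hl.2] at h5
  have h6 : ∑ f ∈ Sr L (Sd L S e0) l, w f * (1 + dS L (tu L h e0) f) +
      c l * (1 + tu L h e0 l) - 1 =
      -∑ f ∈ Sr L (Sm L S e0) l, w f * (1 + dS L (tu L h e0) f) := by
    linear_combination h4 + h5 - h2 + h3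
  rw [h6, neg_sq, ← mul_pow, ← sq_abs]
  refine pow_le_pow_left₀ (abs_nonneg _) ?_ 2
  refine (Finset.abs_sum_le_sum_abs _ _).trans ?_
  rw [Finset.mul_sum]
  refine Finset.sum_le_sum fun f hf => ?_
  have hfm : f ∈ Sm L S e0 := (mem_filter.1 hf).1
  have hfS : f ∈ S := (mem_filter.1 hfm).1
  rw [abs_mul, abs_of_nonneg (hL.wnn f hfS), mul_comm]
  exact mul_le_mul_of_nonneg_right (tri6 hL hH h0 hfm) (hL.wnn f hfS)

end

theorem ls_tri (ν : ℕ) (hν : 2 ≤ ν) (hν4 : ν ≤ 4) (K C0 : ℝ) (hK : 1 ≤ K) (hC0 : 1 ≤ C0) :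
    ∃ C : ℝ, 1 ≤ C ∧ ∀ (α β : Type) [DecidableEq α] [DecidableEq β] (m : ℕ) (I : Finset α)
    (L : β → Finset α) (S : Finset β) (w : β → ℝ) (c g : α → ℝ) (lam : ℝ) (h : α → α → ℝ), 1 ≤ m → LSys ν m K lam I L S w c g →
      Hi C0 m I (AA L S w g m) g h → ∀ e0 ∈ S,
      (∀ l ∈ I \ L e0, |tu L h e0 l| ≤ C / m) ∧ (∑ l ∈ I \ L e0, tu L h e0 l ^ 2 ≤ C / m) ∧
      (∀ k ∈ L e0, |tu L h e0 k + 1| ≤ C / m) ∧ (∑ l ∈ I, g l * tu L h e0 l = 0) ∧
      (∀ l ∈ I, ∑ f ∈ Sr L S l, w f * dS L (tu L h e0) f + c l * tu L h e0 l = if l ∈ L e0 then -1 else 0) ∧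
      (∀ f ∈ Sm L S e0, |1 + dS L (tu L h e0) f| ≤ C / m) ∧
      ∑ l ∈ I \ L e0, (∑ f ∈ Sr L (Sd L S e0) l, w f * (1 + dS L (tu L h e0) f) +
        c l * (1 + tu L h e0 l) - 1) ^ 2 ≤ C / m ^ 3 := by
  have hνr : (ν : ℝ) ≤ 4 := by exact_mod_cast hν4
  have hν0 : (0 : ℝ) ≤ ν := Nat.cast_nonneg ν
  have hν1 : (1 : ℝ) ≤ ν := by exact_mod_cast (by omega : 1 ≤ ν)
  set C : ℝ := (ν : ℝ) ^ 7 * C0 ^ 2 * K with hC
  have hp : ∀ a : ℕ, (1 : ℝ) ≤ (ν : ℝ) ^ a := fun a => one_le_pow₀ hν1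
  have hC2 : C0 ≤ C0 ^ 2 := by nlinarith
  have hCK : C0 ^ 2 ≤ C0 ^ 2 * K := by nlinarith [sq_nonneg C0]
  have hge1 : (ν : ℝ) ^ 2 * C0 ≤ C := by
    have h1 : (ν : ℝ) ^ 2 ≤ (ν : ℝ) ^ 7 := pow_le_pow_right₀ hν1 (by norm_num)
    calc (ν : ℝ) ^ 2 * C0 ≤ (ν : ℝ) ^ 7 * (C0 ^ 2 * K) :=
          mul_le_mul h1 (hC2.trans hCK) (by linarith) (by positivity)
      _ = C := by rw [hC]; ring
  have hge0 : (ν : ℝ) * C0 ≤ C := by
    refine le_trans ?_ hge1
    have : (ν : ℝ) ≤ (ν : ℝ) ^ 2 := by nlinarith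
    exact mul_le_mul_of_nonneg_right this (by linarith)
  have hone : 1 ≤ C := by
    refine le_trans ?_ hge0
    nlinarith
  refine ⟨C, hone, ?_⟩
  intro α β _ _ m I L S w c g lam h hm hL hH e0 h0
  have hm0 : (0 : ℝ) < m := by exact_mod_cast hm
  have b1 : (ν : ℝ) * (C0 / m) ≤ C / m := by
    rw [← mul_div_assoc]
    exact div_le_div_of_nonneg_right hge0 hm0.le
  have b2 : (ν : ℝ) * (ν * (C0 / m)) ≤ C / m := by
    have : (ν : ℝ) * (ν * (C0 / m)) = (ν : ℝ) ^ 2 * C0 / m := by ring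
    rw [this]
    exact div_le_div_of_nonneg_right hge1 hm0.le
  refine ⟨fun l hl => (tri1 hL hH h0 hl).trans b1, (tri2 hL hH h0).trans b2,
    fun k hk => (tri3 hL hH h0 hk).trans b1, tri4 hL hH h0, fun l hl => tri5 hL hH h0 hl,
    fun f hf => (tri6 hL hH h0 hf).trans b2, ?_⟩
  refine (Finset.sum_le_sum fun l hl => tri7 hL hH (by omega) h0 hl).trans ?_
  rw [← Finset.mul_sum]
  have h1 := ls_sm2 hL (by linarith) hm h0
  calc ((ν : ℝ) * (ν * (C0 / m))) ^ 2 * ∑ l ∈ I \ L e0, (∑ f ∈ Sr L (Sm L S e0) l, w f) ^ 2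
      ≤ ((ν : ℝ) * (ν * (C0 / m))) ^ 2 * ((ν : ℝ) ^ 3 * K / m) :=
        mul_le_mul_of_nonneg_left h1 (sq_nonneg _)
    _ = C / m ^ 3 := by
        rw [hC]
        field_simp

end Pool.Agent.NQF
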