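import Pool.Agent.NQF.Defs
import Pool.Agent.NQF.SDef
import Pool.Agent.NQF.SBas
import Pool.Agent.NQF.SBat
import Pool.Agent.NQF.SMas
import Pool.Agent.NQF.STri

/-!
# NQF-SNon: the trial direction: nonlinear equation

The trial direction solves the nonlinear equation of the reduced system up to an error of size `m ^ (-3/2)` in `L²`.
-/

set_option autoImplicit false

open Finset

namespace Pool.Agent.NQF

open Pool.Agent.NQ (board dsum F Ent Dg phi ln Q Qset QS NonAtt bern)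
open Pool.Agent.NQR (Adm Opt Bd Rf hS hD hh InR)
open Pool.Agent.NQL

private theorem mem_Sd' {α β : Type} [DecidableEq α] [DecidableEq β] {L : β → Finset α} {S : Finset β} {e0 f : β} :
    f ∈ Sd L S e0 ↔ f ∈ S ∧ Disjoint (L f) (L e0) := by
  unfold Sd
  exact Finset.mem_filter

/-- numerical part: the square of the nonlinear residual on one line -/
private theorem sq_step {G Lin P u a : ℝ} (h1 : |G - Lin| ≤ P + u ^ 2) (hP : 0 ≤ P) (hPa : P ≤ a) (b : ℝ)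
    (hub : u ^ 2 ≤ b) : G ^ 2 ≤ 2 * Lin ^ 2 + 4 * (a * P) + 4 * (b * u ^ 2) := by
  have h2 : (G - Lin) ^ 2 ≤ (P + u ^ 2) ^ 2 := by
    rw [← sq_abs (G - Lin)]
    exact pow_le_pow_left₀ (abs_nonneg _) h1 2
  have h3 : G ^ 2 ≤ 2 * Lin ^ 2 + 2 * (G - Lin) ^ 2 := by nlinarith [sq_nonneg (G - 2 * Lin)]
  have h4 : (P + u ^ 2) ^ 2 ≤ 2 * P ^ 2 + 2 * (u ^ 2) ^ 2 := by nlinarith [sq_nonneg (P - u ^ 2)]
  have h5 : P ^ 2 ≤ a * P := by nlinarith
  have h6 : (u ^ 2) ^ 2 ≤ b * u ^ 2 := by nlinarith [sq_nonneg u]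
  linarith

theorem ls_non (ν : ℕ) (hν : 2 ≤ ν) (hν4 : ν ≤ 4) (K C0 : ℝ) (hK : 1 ≤ K) (hC0 : 1 ≤ C0) :
    ∃ (C : ℝ) (m0 : ℕ), 1 ≤ C ∧ 2 ≤ m0 ∧ ∀ (α β : Type) [DecidableEq α] [DecidableEq β] (m : ℕ) (I : Finset α)
    (L : β → Finset α) (S : Finset β) (w : β → ℝ) (c g : α → ℝ) (lam : ℝ) (h : α → α → ℝ), m0 ≤ m →
      LSys ν m K lam I L S w c g → Hi C0 m I (AA L S w g m) g h → ∀ e0 ∈ S,
      (∀ f ∈ Sd L S e0, |dS L (tu L h e0) f| ≤ C / m) ∧
      (∑ f ∈ Sd L S e0, w f * dS L (tu L h e0) f ^ 2 ≤ C / m) ∧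
      ∑ l ∈ I \ L e0, (∑ f ∈ Sr L (Sd L S e0) l, w f * Real.exp (dS L (tu L h e0) f) +
        c l * Real.exp (tu L h e0 l) - 1) ^ 2 ≤ C / m ^ 3 := by
  obtain ⟨CT, hCT, htri⟩ := ls_tri ν hν hν4 K C0 hK hC0
  have hCT0 : (0 : ℝ) ≤ CT := le_trans zero_le_one hCT
  have hCT3 : CT ≤ CT ^ 3 := by nlinarith [mul_nonneg hCT0 hCT0, mul_le_mul hCT hCT zero_le_one hCT0]
  have hone3 : (1 : ℝ) ≤ CT ^ 3 := le_trans hCT hCT3
  refine ⟨1030 * CT ^ 3, max 2 ⌈4 * CT⌉₊, by linarith, le_max_left _ _, ?_⟩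
  intro α β _ _ m I L S w c g lam h hm hL hH e0 he0
  have hm2 : 2 ≤ m := le_trans (le_max_left _ _) hm
  have hm4 : 4 * CT ≤ (m : ℝ) := by
    have h1 : ⌈4 * CT⌉₊ ≤ m := le_trans (le_max_right _ _) hm
    exact le_trans (Nat.le_ceil _) (by exact_mod_cast h1)
  have hm1 : 1 ≤ m := by omega
  have hmpos : (0 : ℝ) < m := by exact_mod_cast hm1
  obtain ⟨t1, t2, t3, t4, t5, t6, t7⟩ := htri α β m I L S w c g lam h hm1 hL hH e0 he0
  set u := tu L h e0 with hu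
  have hν4' : (ν : ℝ) ≤ 4 := by exact_mod_cast hν4
  have hsmall : 4 * CT / m ≤ 1 := by
    rw [div_le_one hmpos]
    exact hm4
  have hsmall0 : 0 ≤ 4 * CT / m := by positivity
  have hu1 : ∀ l ∈ I \ L e0, |u l| ≤ CT / m := t1
  have hsub : ∀ f ∈ Sd L S e0, L f ⊆ I \ L e0 := by
    intro f hf
    have hf' := mem_Sd'.1 hf
    intro l hl
    rw [Finset.mem_sdiff]
    exact ⟨hL.sub f hf'.1 hl, Finset.disjoint_left.1 hf'.2 hl⟩
  have hSd : ∀ f ∈ Sd L S e0, f ∈ S := fun f hf => (mem_Sd'.1 hf).1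
  -- first claim
  have c1 : ∀ f ∈ Sd L S e0, |dS L u f| ≤ 4 * CT / m := by
    intro f hf
    unfold dS
    calc |∑ l ∈ L f, u l| ≤ ∑ l ∈ L f, |u l| := Finset.abs_sum_le_sum_abs _ _
      _ ≤ ∑ l ∈ L f, CT / m := Finset.sum_le_sum (fun l hl => hu1 l (hsub f hf hl))
      _ = ν * (CT / m) := by rw [Finset.sum_const, hL.card f (hSd f hf), nsmul_eq_mul]
      _ ≤ 4 * (CT / m) := mul_le_mul_of_nonneg_right hν4' (by positivity)
      _ = 4 * CT / m := by ring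
  -- second claim
  have c2 : ∑ f ∈ Sd L S e0, w f * dS L u f ^ 2 ≤ 4 * CT / m := by
    have h1 := ls_ds hL (fun l => if l ∈ I \ L e0 then u l else 0)
    have h2 : ∑ l ∈ I, (if l ∈ I \ L e0 then u l else 0) ^ 2 = ∑ l ∈ I \ L e0, u l ^ 2 := by
      have h3 : ∀ l, (if l ∈ I \ L e0 then u l else 0) ^ 2 = if l ∈ I \ L e0 then u l ^ 2 else 0 := by
        intro l
        by_cases hl : l ∈ I \ L e0
        · rw [if_pos hl, if_pos hl]
        · rw [if_neg hl, if_neg hl]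
          norm_num
      rw [Finset.sum_congr rfl (fun l _ => h3 l), Finset.sum_ite_mem,
        Finset.inter_eq_right.2 Finset.sdiff_subset]
    have h4 : ∑ f ∈ Sd L S e0, w f * dS L u f ^ 2 =
        ∑ f ∈ Sd L S e0, w f * dS L (fun l => if l ∈ I \ L e0 then u l else 0) f ^ 2 := by
      refine Finset.sum_congr rfl (fun f hf => ?_)
      have h5 : dS L (fun l => if l ∈ I \ L e0 then u l else 0) f = dS L u f := by
        unfold dS
        refine Finset.sum_congr rfl (fun l hl => ?_)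
        exact if_pos (hsub f hf hl)
      rw [h5]
    have h6 : ∑ f ∈ Sd L S e0, w f * dS L (fun l => if l ∈ I \ L e0 then u l else 0) f ^ 2 ≤
        ∑ f ∈ S, w f * dS L (fun l => if l ∈ I \ L e0 then u l else 0) f ^ 2 := by
      refine Finset.sum_le_sum_of_subset_of_nonneg (fun f hf => hSd f hf) (fun f hf _ => ?_)
      exact mul_nonneg (hL.wnn f hf) (sq_nonneg _)
    rw [h4]
    calc ∑ f ∈ Sd L S e0, w f * dS L (fun l => if l ∈ I \ L e0 then u l else 0) f ^ 2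
        ≤ ν * ∑ l ∈ I, (if l ∈ I \ L e0 then u l else 0) ^ 2 := le_trans h6 h1
      _ = ν * ∑ l ∈ I \ L e0, u l ^ 2 := by rw [h2]
      _ ≤ 4 * (CT / m) := mul_le_mul hν4' t2 (Finset.sum_nonneg (fun l _ => sq_nonneg _)) (by norm_num)
      _ = 4 * CT / m := by ring
  have hC4 : 4 * CT / m ≤ 1030 * CT ^ 3 / m := by
    apply div_le_div_of_nonneg_right _ hmpos.le
    linarith
  refine ⟨fun f hf => le_trans (c1 f hf) hC4, le_trans c2 hC4, ?_⟩
  -- third claim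
  set P : α → ℝ := fun l => ∑ f ∈ Sr L (Sd L S e0) l, w f * dS L u f ^ 2 with hPdef
  have hSr : ∀ l, ∀ f ∈ Sr L (Sd L S e0) l, f ∈ Sd L S e0 := fun l f hf => (Finset.mem_filter.1 hf).1
  have hSrS : ∀ l, Sr L (Sd L S e0) l ⊆ Sr L S l := by
    intro l f hf
    have hf' := Finset.mem_filter.1 hf
    exact Finset.mem_filter.2 ⟨hSd f hf'.1, hf'.2⟩
  have hwn : ∀ l, ∀ f ∈ Sr L S l, 0 ≤ w f := fun l f hf => hL.wnn f (Finset.mem_filter.1 hf).1
  have hP0 : ∀ l, 0 ≤ P l := fun l =>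
    Finset.sum_nonneg (fun f hf => mul_nonneg (hL.wnn f (hSd f (hSr l f hf))) (sq_nonneg _))
  have hPa : ∀ l ∈ I \ L e0, P l ≤ (4 * CT / m) ^ 2 := by
    intro l hl
    have hlI : l ∈ I := (Finset.mem_sdiff.1 hl).1
    have hmass : ∑ f ∈ Sr L (Sd L S e0) l, w f ≤ 1 :=
      le_trans (Finset.sum_le_sum_of_subset_of_nonneg (hSrS l) (fun f hf _ => hwn l f hf))
        (ls_line hL hlI).2.1
    calc P l ≤ ∑ f ∈ Sr L (Sd L S e0) l, w f * (4 * CT / m) ^ 2 := by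
          refine Finset.sum_le_sum (fun f hf => ?_)
          refine mul_le_mul_of_nonneg_left ?_ (hL.wnn f (hSd f (hSr l f hf)))
          rw [← sq_abs (dS L u f)]
          exact pow_le_pow_left₀ (abs_nonneg _) (c1 f (hSr l f hf)) 2
      _ = (∑ f ∈ Sr L (Sd L S e0) l, w f) * (4 * CT / m) ^ 2 := by rw [Finset.sum_mul]
      _ ≤ 1 * (4 * CT / m) ^ 2 := mul_le_mul_of_nonneg_right hmass (sq_nonneg _)
      _ = (4 * CT / m) ^ 2 := one_mul _
  have hub : ∀ l ∈ I \ L e0, u l ^ 2 ≤ (CT / m) ^ 2 := by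
    intro l hl
    rw [← sq_abs (u l)]
    exact pow_le_pow_left₀ (abs_nonneg _) (hu1 l hl) 2
  have hCTm : CT / m ≤ 1 := by
    rw [div_le_one hmpos]
    linarith
  have hstep : ∀ l ∈ I \ L e0, (∑ f ∈ Sr L (Sd L S e0) l, w f * Real.exp (dS L u f) +
      c l * Real.exp (u l) - 1) ^ 2 ≤
      2 * (∑ f ∈ Sr L (Sd L S e0) l, w f * (1 + dS L u f) + c l * (1 + u l) - 1) ^ 2 +
        4 * ((4 * CT / m) ^ 2 * P l) + 4 * ((CT / m) ^ 2 * u l ^ 2) := by
    intro l hl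
    have hlI : l ∈ I := (Finset.mem_sdiff.1 hl).1
    refine sq_step ?_ (hP0 l) (hPa l hl) _ (hub l hl)
    have hcl : c l ≤ 1 := by
      have h1 := hL.st l hlI
      have h2 := (ls_line hL hlI).1
      linarith
    have hcl0 := hL.cnn l hlI
    have e1 : (∑ f ∈ Sr L (Sd L S e0) l, w f * Real.exp (dS L u f) + c l * Real.exp (u l) - 1) -
        (∑ f ∈ Sr L (Sd L S e0) l, w f * (1 + dS L u f) + c l * (1 + u l) - 1) =
        ∑ f ∈ Sr L (Sd L S e0) l, w f * (Real.exp (dS L u f) - 1 - dS L u f) +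
          c l * (Real.exp (u l) - 1 - u l) := by
      have e2 : ∑ f ∈ Sr L (Sd L S e0) l, w f * (Real.exp (dS L u f) - 1 - dS L u f) =
          ∑ f ∈ Sr L (Sd L S e0) l, w f * Real.exp (dS L u f) -
            ∑ f ∈ Sr L (Sd L S e0) l, w f * (1 + dS L u f) := by
        rw [← Finset.sum_sub_distrib]
        refine Finset.sum_congr rfl (fun f _ => ?_)
        ring
      rw [e2]
      ring
    rw [e1]
    refine le_trans (abs_add_le _ _) (add_le_add ?_ ?_)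
    · refine le_trans (Finset.abs_sum_le_sum_abs _ _) (Finset.sum_le_sum (fun f hf => ?_))
      have hwf := hL.wnn f (hSd f (hSr l f hf))
      rw [abs_mul, abs_of_nonneg hwf]
      refine mul_le_mul_of_nonneg_left ?_ hwf
      exact Real.abs_exp_sub_one_sub_id_le (le_trans (c1 f (hSr l f hf)) hsmall)
    · rw [abs_mul, abs_of_nonneg hcl0]
      calc c l * |Real.exp (u l) - 1 - u l| ≤ 1 * u l ^ 2 :=
            mul_le_mul hcl (Real.abs_exp_sub_one_sub_id_le (le_trans (hu1 l hl) hCTm)) (abs_nonneg _) zero_le_one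
        _ = u l ^ 2 := one_mul _
  have hsumP : ∑ l ∈ I \ L e0, P l ≤ 16 * CT / m := by
    have h1 : ∑ l ∈ I \ L e0, P l ≤ ∑ l ∈ I, P l :=
      Finset.sum_le_sum_of_subset_of_nonneg Finset.sdiff_subset (fun l _ _ => hP0 l)
    have h2 : ∑ l ∈ I, P l = ∑ f ∈ Sd L S e0, ∑ l ∈ L f, w f * dS L u f ^ 2 :=
      sr_sum (fun f hf => hL.sub f (hSd f hf)) (fun f _ => w f * dS L u f ^ 2)
    have h3 : ∑ f ∈ Sd L S e0, ∑ l ∈ L f, w f * dS L u f ^ 2 =
        ν * ∑ f ∈ Sd L S e0, w f * dS L u f ^ 2 := by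
      rw [Finset.mul_sum]
      refine Finset.sum_congr rfl (fun f hf => ?_)
      rw [Finset.sum_const, hL.card f (hSd f hf), nsmul_eq_mul]
    have h4 : 0 ≤ ∑ f ∈ Sd L S e0, w f * dS L u f ^ 2 :=
      Finset.sum_nonneg (fun f hf => mul_nonneg (hL.wnn f (hSd f hf)) (sq_nonneg _))
    calc ∑ l ∈ I \ L e0, P l ≤ ν * ∑ f ∈ Sd L S e0, w f * dS L u f ^ 2 := by rw [← h3, ← h2]; exact h1
      _ ≤ 4 * (4 * CT / m) := mul_le_mul hν4' c2 h4 (by norm_num)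
      _ = 16 * CT / m := by ring
  calc ∑ l ∈ I \ L e0, (∑ f ∈ Sr L (Sd L S e0) l, w f * Real.exp (dS L u f) +
        c l * Real.exp (u l) - 1) ^ 2
      ≤ ∑ l ∈ I \ L e0, (2 * (∑ f ∈ Sr L (Sd L S e0) l, w f * (1 + dS L u f) + c l * (1 + u l) - 1) ^ 2 +
        4 * ((4 * CT / m) ^ 2 * P l) + 4 * ((CT / m) ^ 2 * u l ^ 2)) := Finset.sum_le_sum hstep
    _ = 2 * ∑ l ∈ I \ L e0, (∑ f ∈ Sr L (Sd L S e0) l, w f * (1 + dS L u f) + c l * (1 + u l) - 1) ^ 2 +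
        4 * ((4 * CT / m) ^ 2 * ∑ l ∈ I \ L e0, P l) + 4 * ((CT / m) ^ 2 * ∑ l ∈ I \ L e0, u l ^ 2) := by
        rw [Finset.sum_add_distrib, Finset.sum_add_distrib]
        simp only [← Finset.mul_sum]
    _ ≤ 2 * (CT / m ^ 3) + 4 * ((4 * CT / m) ^ 2 * (16 * CT / m)) + 4 * ((CT / m) ^ 2 * (CT / m)) := by
        have a1 := mul_le_mul_of_nonneg_left hsumP (sq_nonneg (4 * CT / (m : ℝ)))
        have a2 := mul_le_mul_of_nonneg_left t2 (sq_nonneg (CT / (m : ℝ)))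
        linarith
    _ = (2 * CT + 1028 * CT ^ 3) / m ^ 3 := by
        field_simp
        ring
    _ ≤ 1030 * CT ^ 3 / m ^ 3 := by
        apply div_le_div_of_nonneg_right _ (by positivity)
        linarith

end Pool.Agent.NQF
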