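import Pool.Agent.NQF.Defs
import Pool.Agent.NQF.SDef
import Pool.Agent.NQF.SBas
import Pool.Agent.NQF.SBat
import Pool.Agent.NQF.SMas

/-! # NQF-SRco: coercivity of the reduced system. Apply `LSys.co` to `δ` with the values on `L e0` replaced by `0`. -/

set_option autoImplicit false

open Finset

namespace Pool.Agent.NQF

open Pool.Agent.NQ (board dsum F Ent Dg phi ln Q Qset QS NonAtt bern)
open Pool.Agent.NQR (Adm Opt Bd Rf hS hD hh InR)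
open Pool.Agent.NQL

private theorem rco_zero {α : Type} [DecidableEq α] (T I : Finset α) (F : α → ℝ → ℝ) (hF : ∀ l, F l 0 = 0)
    (δ : α → ℝ) : ∑ l ∈ I, F l (if l ∈ T then 0 else δ l) = ∑ l ∈ I \ T, F l (δ l) := by
  rw [Finset.sdiff_eq_filter, Finset.sum_filter]
  refine Finset.sum_congr rfl fun l _ => ?_
  by_cases h : l ∈ T
  · rw [if_pos h, hF, if_neg (not_not.2 h)]
  · rw [if_neg h, if_pos h]

theorem ls_rco (ν : ℕ) (hν : 2 ≤ ν) (hν4 : ν ≤ 4) (K lam : ℝ) (hK : 1 ≤ K) (hl : 0 < lam) :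
    ∃ m0 : ℕ, 2 ≤ m0 ∧ ∀ (α β : Type) [DecidableEq α] [DecidableEq β] (m : ℕ) (I : Finset α)
    (L : β → Finset α) (S : Finset β) (w : β → ℝ) (c g : α → ℝ), m0 ≤ m → LSys ν m K lam I L S w c g → ∀ e0 ∈ S, ∀ δ : α → ℝ,
      lam / 2 * ∑ l ∈ I \ L e0, δ l ^ 2 ≤ ∑ f ∈ Sd L S e0, w f * dS L δ f ^ 2 +
        ∑ l ∈ I \ L e0, c l * δ l ^ 2 + (∑ l ∈ I \ L e0, g l * δ l) ^ 2 / (2 * m) := by
  refine ⟨max 2 ⌈2 * (ν : ℝ) ^ 2 * K / lam⌉₊, le_max_left _ _, ?_⟩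
  intro α β _ _ m I L S w c g hm h e0 h0 δ
  have hm2 : 2 ≤ m := le_trans (le_max_left _ _) hm
  have hm1 : 2 * (ν : ℝ) ^ 2 * K / lam ≤ m :=
    le_trans (Nat.le_ceil _) (by exact_mod_cast le_trans (le_max_right _ _) hm)
  have hmp : (0 : ℝ) < m := by exact_mod_cast (by omega : 0 < m)
  obtain ⟨d, hd⟩ : ∃ d : α → ℝ, d = fun l => if l ∈ L e0 then 0 else δ l := ⟨_, rfl⟩
  have e1 : ∑ l ∈ I, d l ^ 2 = ∑ l ∈ I \ L e0, δ l ^ 2 := by
    rw [hd]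
    exact rco_zero (L e0) I (fun _ x => x ^ 2) (by simp) δ
  have e2 : ∑ l ∈ I, c l * d l ^ 2 = ∑ l ∈ I \ L e0, c l * δ l ^ 2 := by
    rw [hd]
    exact rco_zero (L e0) I (fun l x => c l * x ^ 2) (by simp) δ
  have e3 : ∑ l ∈ I, g l * d l = ∑ l ∈ I \ L e0, g l * δ l := by
    rw [hd]
    exact rco_zero (L e0) I (fun l x => g l * x) (by simp) δ
  have hne : (L e0).Nonempty := by
    rw [← Finset.card_pos, h.card e0 h0]
    omega
  have e4 : ∑ f ∈ S, w f * dS L d f ^ 2 = ∑ f ∈ Sd L S e0, w f * dS L d f ^ 2 +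
      ∑ f ∈ Sm L S e0, w f * dS L d f ^ 2 + w e0 * dS L d e0 ^ 2 :=
    split_sum (L := L) h0 hne (fun f => w f * dS L d f ^ 2)
  have e5 : dS L d e0 = 0 := Finset.sum_eq_zero fun l hl' => by
    rw [hd]
    exact if_pos hl'
  have e6 : ∑ f ∈ Sd L S e0, w f * dS L d f ^ 2 = ∑ f ∈ Sd L S e0, w f * dS L δ f ^ 2 := by
    refine Finset.sum_congr rfl fun f hf => ?_
    have hdj := (Finset.mem_filter.1 hf).2
    have h1 : dS L d f = dS L δ f := Finset.sum_congr rfl fun l hl' => by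
      rw [hd]
      exact if_neg (Finset.disjoint_left.1 hdj hl')
    rw [h1]
  have e7 : ∑ f ∈ Sm L S e0, w f * dS L d f ^ 2 ≤ lam / 2 * ∑ l ∈ I, d l ^ 2 := by
    have hsub : Sm L S e0 ⊆ S := Finset.filter_subset _ _
    have s1 : ∀ f ∈ Sm L S e0, w f * dS L d f ^ 2 ≤ ν * ∑ l ∈ L f, w f * d l ^ 2 := by
      intro f hf
      have hfS := hsub hf
      have q : (∑ l ∈ L f, d l) ^ 2 ≤ ((L f).card : ℝ) * ∑ l ∈ L f, d l ^ 2 := sq_sum_le_card_mul_sum_sq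
      rw [h.card f hfS] at q
      calc w f * dS L d f ^ 2 ≤ w f * (ν * ∑ l ∈ L f, d l ^ 2) :=
            mul_le_mul_of_nonneg_left q (h.wnn f hfS)
        _ = ν * ∑ l ∈ L f, w f * d l ^ 2 := by rw [← Finset.mul_sum]; ring
    have s2 : ∑ l ∈ I, ∑ f ∈ Sr L (Sm L S e0) l, w f * d l ^ 2 =
        ∑ f ∈ Sm L S e0, ∑ l ∈ L f, w f * d l ^ 2 :=
      sr_sum (fun e he => h.sub e (hsub he)) (fun f l => w f * d l ^ 2)
    have s3 : ∀ l ∈ I, ∑ f ∈ Sr L (Sm L S e0) l, w f * d l ^ 2 ≤ ν * K / m * d l ^ 2 := by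
      intro l hl'
      rw [← Finset.sum_mul]
      by_cases hle : l ∈ L e0
      · have h1 : d l = 0 := by
          rw [hd]
          exact if_pos hle
        rw [h1]
        simp
      · exact mul_le_mul_of_nonneg_right (ls_sml h (by linarith) h0 hle) (sq_nonneg _)
    calc ∑ f ∈ Sm L S e0, w f * dS L d f ^ 2 ≤ ∑ f ∈ Sm L S e0, ν * ∑ l ∈ L f, w f * d l ^ 2 :=
          Finset.sum_le_sum s1
      _ = ν * ∑ l ∈ I, ∑ f ∈ Sr L (Sm L S e0) l, w f * d l ^ 2 := by rw [s2, Finset.mul_sum]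
      _ ≤ ν * ∑ l ∈ I, ν * K / m * d l ^ 2 :=
          mul_le_mul_of_nonneg_left (Finset.sum_le_sum s3) (Nat.cast_nonneg _)
      _ = (ν * (ν * K / m)) * ∑ l ∈ I, d l ^ 2 := by rw [← Finset.mul_sum]; ring
      _ ≤ lam / 2 * ∑ l ∈ I, d l ^ 2 := by
        refine mul_le_mul_of_nonneg_right ?_ (Finset.sum_nonneg fun l _ => sq_nonneg _)
        have h1 : 2 * (ν : ℝ) ^ 2 * K ≤ m * lam := by rwa [div_le_iff₀ hl] at hm1
        have h2 : (ν : ℝ) * (ν * K / m) = ((ν : ℝ) ^ 2 * K) / m := by ring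
        rw [h2, div_le_iff₀ hmp]
        linarith
  have e8 := h.co d
  rw [e4, e5, e6, e2, e3] at e8
  rw [e1] at e7 e8
  nlinarith [e7, e8]

end Pool.Agent.NQF
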