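import Pool.Agent.NQF.Defs
import Pool.Agent.NQF.SDef
import Pool.Agent.NQF.SBas
import Pool.Agent.NQF.SBat
import Pool.Agent.NQF.SMas
import Pool.Agent.NQF.STri
import Pool.Agent.NQF.SNon
import Pool.Agent.NQF.SRco

/-!
# NQF-SCls: stationary points of the reduced system are close to the trial direction

With `u` the trial direction and `Δ` the difference (normalised by the gauge vector), the two stationarity equations give
`∑ w exp (dS u) (exp (dS Δ) - 1) dS Δ + ∑ c exp u (exp Δ - 1) Δ = - ∑ grd Δ`; the left side is at least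
`lam r² / (4 (1 + 2 r))` because `t² ≤ (1 + |t|) (exp t - 1) t`, so `r ≤ 8 ρ / lam`.  The values differ by at most `ρ r` (convexity).
-/

set_option autoImplicit false

open Finset

namespace Pool.Agent.NQF

open Pool.Agent.NQ (board dsum F Ent Dg phi ln Q Qset QS NonAtt bern)
open Pool.Agent.NQR (Adm Opt Bd Rf hS hD hh InR)
open Pool.Agent.NQL

private theorem exp_lb {t τ : ℝ} (ht : |t| ≤ τ) : t ^ 2 ≤ (1 + τ) * ((Real.exp t - 1) * t) := by
  rcases le_total 0 t with h | h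
  · have h1 : t + 1 ≤ Real.exp t := Real.add_one_le_exp t
    have h2 : 0 ≤ τ := le_trans (abs_nonneg t) ht
    have h3 : t ^ 2 ≤ (Real.exp t - 1) * t := by nlinarith
    nlinarith [sq_nonneg t]
  · have h1 : -t + 1 ≤ Real.exp (-t) := Real.add_one_le_exp (-t)
    have h2 : Real.exp t * Real.exp (-t) = 1 := by rw [← Real.exp_add, add_neg_cancel, Real.exp_zero]
    have h3 : 0 < Real.exp t := Real.exp_pos t
    have h4 : Real.exp t * (-t + 1) ≤ 1 :=
      le_trans (mul_le_mul_of_nonneg_left h1 h3.le) h2.le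
    have h5 : -t ≤ (1 - t) * (1 - Real.exp t) := by nlinarith
    have h6 : |t| = -t := abs_of_nonpos h
    rw [h6] at ht
    have h7 : 0 ≤ 1 - Real.exp t := by
      have := Real.exp_le_one_iff.mpr h
      linarith
    have h8 : -t ≤ (1 + τ) * (1 - Real.exp t) := by
      refine le_trans h5 (mul_le_mul_of_nonneg_right (by linarith) h7)
    nlinarith [mul_le_mul_of_nonneg_left h8 (neg_nonneg.mpr h)]

private theorem exch {α β : Type} [DecidableEq α] [DecidableEq β] {L : β → Finset α} {F : Finset β}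
    {J : Finset α} (hs : ∀ e ∈ F, L e ⊆ J) (A : β → ℝ) (D : α → ℝ) :
    ∑ l ∈ J, (∑ f ∈ Sr L F l, A f) * D l = ∑ f ∈ F, A f * dS L D f := by
  have h := sr_sum (S := F) (I := J) hs (fun f l => A f * D l)
  calc ∑ l ∈ J, (∑ f ∈ Sr L F l, A f) * D l = ∑ l ∈ J, ∑ f ∈ Sr L F l, A f * D l :=
        Finset.sum_congr rfl (fun l _ => Finset.sum_mul _ _ _)
    _ = ∑ f ∈ F, ∑ l ∈ L f, A f * D l := h
    _ = ∑ f ∈ F, A f * dS L D f := Finset.sum_congr rfl (fun f _ => (Finset.mul_sum _ _ _).symm)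

private theorem core {α β : Type} [DecidableEq α] [DecidableEq β] {L : β → Finset α} {F : Finset β}
    {J : Finset α} (hs : ∀ e ∈ F, L e ⊆ J) (hc4 : ∀ e ∈ F, (L e).card ≤ 4) {w : β → ℝ} {c u D : α → ℝ}
    {lam ρ : ℝ} (hl : 0 < lam) (hρ : 0 ≤ ρ) (hlρ : 16 * ρ ≤ lam) (hw : ∀ f ∈ F, 0 ≤ w f)
    (hc : ∀ l ∈ J, 0 ≤ c l) (hE : ∀ f ∈ F, 1 / 2 ≤ Real.exp (dS L u f))
    (hV : ∀ l ∈ J, 1 / 2 ≤ Real.exp (u l))
    (hst : ∀ l ∈ J, ∑ f ∈ Sr L F l, w f * Real.exp (dS L u f + dS L D f) + c l * Real.exp (u l + D l) = 1)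
    (hgrd : ∑ l ∈ J, (∑ f ∈ Sr L F l, w f * Real.exp (dS L u f) + c l * Real.exp (u l) - 1) ^ 2 ≤ ρ ^ 2)
    (hco : lam / 2 * ∑ l ∈ J, D l ^ 2 ≤ ∑ f ∈ F, w f * dS L D f ^ 2 + ∑ l ∈ J, c l * D l ^ 2) :
    ∑ l ∈ J, D l ^ 2 ≤ (8 * ρ / lam) ^ 2 ∧
    |∑ f ∈ F, w f * (Real.exp (dS L u f + dS L D f) - Real.exp (dS L u f)) +
      ∑ l ∈ J, c l * (Real.exp (u l + D l) - Real.exp (u l)) - ∑ l ∈ J, D l| ≤ ρ * (8 * ρ / lam) := by
  obtain ⟨r, hr⟩ : ∃ r, r = Real.sqrt (∑ l ∈ J, D l ^ 2) := ⟨_, rfl⟩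
  have hS0 : 0 ≤ ∑ l ∈ J, D l ^ 2 := Finset.sum_nonneg fun l _ => sq_nonneg _
  have hr0 : 0 ≤ r := by rw [hr]; exact Real.sqrt_nonneg _
  have hr2 : r ^ 2 = ∑ l ∈ J, D l ^ 2 := by rw [hr, Real.sq_sqrt hS0]
  obtain ⟨G, hG⟩ : ∃ G : α → ℝ, G = fun l => ∑ f ∈ Sr L F l, w f * Real.exp (dS L u f) +
    c l * Real.exp (u l) - 1 := ⟨_, rfl⟩
  have hG2 : ∑ l ∈ J, G l ^ 2 ≤ ρ ^ 2 := by rw [hG]; exact hgrd
  have hcs : |∑ l ∈ J, G l * D l| ≤ ρ * r := by
    refine abs_le_of_sq_le_sq ?_ (mul_nonneg hρ hr0)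
    calc (∑ l ∈ J, G l * D l) ^ 2 ≤ (∑ l ∈ J, G l ^ 2) * ∑ l ∈ J, D l ^ 2 :=
          Finset.sum_mul_sq_le_sq_mul_sq _ _ _
      _ ≤ ρ ^ 2 * ∑ l ∈ J, D l ^ 2 := mul_le_mul_of_nonneg_right hG2 hS0
      _ = (ρ * r) ^ 2 := by rw [mul_pow, hr2]
  -- linear combinations of the equations
  have e1 : ∑ l ∈ J, G l * D l = ∑ f ∈ F, w f * Real.exp (dS L u f) * dS L D f +
      ∑ l ∈ J, c l * Real.exp (u l) * D l - ∑ l ∈ J, D l := by
    rw [← exch hs (fun f => w f * Real.exp (dS L u f)) D, ← Finset.sum_add_distrib,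
      ← Finset.sum_sub_distrib]
    refine Finset.sum_congr rfl fun l _ => ?_
    rw [hG]
    ring
  have e2 : (0 : ℝ) = ∑ f ∈ F, w f * Real.exp (dS L u f + dS L D f) * dS L D f +
      ∑ l ∈ J, c l * Real.exp (u l + D l) * D l - ∑ l ∈ J, D l := by
    rw [← exch hs (fun f => w f * Real.exp (dS L u f + dS L D f)) D, ← Finset.sum_add_distrib,
      ← Finset.sum_sub_distrib]
    rw [Finset.sum_eq_zero]
    intro l hl
    have h1 := hst l hl
    have h2 : (∑ f ∈ Sr L F l, w f * Real.exp (dS L u f + dS L D f)) * D l +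
        c l * Real.exp (u l + D l) * D l - D l =
        (∑ f ∈ Sr L F l, w f * Real.exp (dS L u f + dS L D f) + c l * Real.exp (u l + D l) - 1) * D l := by
      ring
    rw [h2, h1]
    ring
  -- the norm
  have hDb : ∀ l ∈ J, |D l| ≤ 2 * r := by
    intro l hl
    have h1 : D l ^ 2 ≤ ∑ l ∈ J, D l ^ 2 :=
      Finset.single_le_sum (f := fun l => D l ^ 2) (fun i _ => sq_nonneg _) hl
    have h2 : |D l| ≤ r := by
      refine abs_le_of_sq_le_sq ?_ hr0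
      rw [hr2]
      exact h1
    linarith
  have htb : ∀ f ∈ F, |dS L D f| ≤ 2 * r := by
    intro f hf
    refine abs_le_of_sq_le_sq ?_ (by linarith)
    have h1 : (dS L D f) ^ 2 ≤ ((L f).card : ℝ) * ∑ l ∈ L f, D l ^ 2 := sq_sum_le_card_mul_sum_sq
    have h2 : ∑ l ∈ L f, D l ^ 2 ≤ ∑ l ∈ J, D l ^ 2 :=
      Finset.sum_le_sum_of_subset_of_nonneg (hs f hf) fun _ _ _ => sq_nonneg _
    have h3 : ((L f).card : ℝ) ≤ 4 := by exact_mod_cast hc4 f hf
    have h4 : 0 ≤ ∑ l ∈ L f, D l ^ 2 := Finset.sum_nonneg fun l _ => sq_nonneg _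
    calc (dS L D f) ^ 2 ≤ ((L f).card : ℝ) * ∑ l ∈ L f, D l ^ 2 := h1
      _ ≤ 4 * ∑ l ∈ L f, D l ^ 2 := mul_le_mul_of_nonneg_right h3 h4
      _ ≤ 4 * ∑ l ∈ J, D l ^ 2 := by linarith
      _ = (2 * r) ^ 2 := by rw [mul_pow, hr2]; norm_num
  have hq : 0 < 1 + 2 * r := by linarith
  have step : ∀ p E t s : ℝ, 0 ≤ p → 1 / 2 ≤ E → |t| ≤ 2 * r → s = E * (Real.exp t - 1) →
      p * t ^ 2 / 2 ≤ (1 + 2 * r) * (p * s * t) := by
    intro p E t s hp hE ht hs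
    have h1 := exp_lb ht
    have h2 : 0 ≤ (1 + 2 * r) * ((Real.exp t - 1) * t) := le_trans (sq_nonneg t) h1
    have h3 : t ^ 2 / 2 ≤ E * ((1 + 2 * r) * ((Real.exp t - 1) * t)) := by
      have h4 := mul_le_mul_of_nonneg_right hE h2
      linarith
    have h5 := mul_le_mul_of_nonneg_left h3 hp
    rw [hs]
    calc p * t ^ 2 / 2 = p * (t ^ 2 / 2) := by ring
      _ ≤ p * (E * ((1 + 2 * r) * ((Real.exp t - 1) * t))) := h5
      _ = (1 + 2 * r) * (p * (E * (Real.exp t - 1)) * t) := by ring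
  have k1 : ∑ f ∈ F, w f * dS L D f ^ 2 / 2 ≤ ∑ f ∈ F, (1 + 2 * r) *
      (w f * (Real.exp (dS L u f + dS L D f) - Real.exp (dS L u f)) * dS L D f) :=
    Finset.sum_le_sum fun f hf => step _ _ _ _ (hw f hf) (hE f hf) (htb f hf)
      (by rw [Real.exp_add]; ring)
  have k2 : ∑ l ∈ J, c l * D l ^ 2 / 2 ≤ ∑ l ∈ J, (1 + 2 * r) *
      (c l * (Real.exp (u l + D l) - Real.exp (u l)) * D l) :=
    Finset.sum_le_sum fun l hl => step _ _ _ _ (hc l hl) (hV l hl) (hDb l hl)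
      (by rw [Real.exp_add]; ring)
  rw [← Finset.sum_div, ← Finset.mul_sum] at k1 k2
  have e3 : ∑ f ∈ F, w f * (Real.exp (dS L u f + dS L D f) - Real.exp (dS L u f)) * dS L D f =
      ∑ f ∈ F, w f * Real.exp (dS L u f + dS L D f) * dS L D f -
      ∑ f ∈ F, w f * Real.exp (dS L u f) * dS L D f := by
    rw [← Finset.sum_sub_distrib]
    exact Finset.sum_congr rfl fun f _ => by ring
  have e4 : ∑ l ∈ J, c l * (Real.exp (u l + D l) - Real.exp (u l)) * D l =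
      ∑ l ∈ J, c l * Real.exp (u l + D l) * D l - ∑ l ∈ J, c l * Real.exp (u l) * D l := by
    rw [← Finset.sum_sub_distrib]
    exact Finset.sum_congr rfl fun l _ => by ring
  have k3 : lam / 4 * r ^ 2 ≤ (1 + 2 * r) * (ρ * r) := by
    have h1 : ∑ f ∈ F, w f * (Real.exp (dS L u f + dS L D f) - Real.exp (dS L u f)) * dS L D f +
        ∑ l ∈ J, c l * (Real.exp (u l + D l) - Real.exp (u l)) * D l = -∑ l ∈ J, G l * D l := by
      rw [e3, e4, e1]
      linarith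
    have h2 : -∑ l ∈ J, G l * D l ≤ ρ * r := le_trans (neg_le_abs _) hcs
    have h3 : (1 + 2 * r) * (-∑ l ∈ J, G l * D l) ≤ (1 + 2 * r) * (ρ * r) :=
      mul_le_mul_of_nonneg_left h2 hq.le
    rw [← h1] at h3
    rw [← hr2] at hco
    linarith
  have hrb : r ≤ 8 * ρ / lam := by
    rw [le_div_iff₀ hl]
    rcases hr0.eq_or_lt with h0 | h0
    · rw [← h0, zero_mul]
      linarith
    · have h1 : lam / 4 * r ≤ (1 + 2 * r) * ρ := by
        refine le_of_mul_le_mul_right ?_ h0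
        calc lam / 4 * r * r = lam / 4 * r ^ 2 := by ring
          _ ≤ (1 + 2 * r) * (ρ * r) := k3
          _ = (1 + 2 * r) * ρ * r := by ring
      nlinarith
  refine ⟨?_, ?_⟩
  · rw [← hr2]
    exact pow_le_pow_left₀ hr0 hrb 2
  · -- the value
    have hlow : ∑ l ∈ J, G l * D l ≤
        ∑ f ∈ F, w f * (Real.exp (dS L u f + dS L D f) - Real.exp (dS L u f)) +
        ∑ l ∈ J, c l * (Real.exp (u l + D l) - Real.exp (u l)) - ∑ l ∈ J, D l := by
      rw [e1]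
      have hx : ∀ a t : ℝ, Real.exp a * t ≤ Real.exp (a + t) - Real.exp a := by
        intro a t
        rw [Real.exp_add]
        have h1 := mul_le_mul_of_nonneg_left (Real.add_one_le_exp t) (Real.exp_pos a).le
        linarith
      have h1 : ∑ f ∈ F, w f * Real.exp (dS L u f) * dS L D f ≤
          ∑ f ∈ F, w f * (Real.exp (dS L u f + dS L D f) - Real.exp (dS L u f)) :=
        Finset.sum_le_sum fun f hf => by
          rw [mul_assoc]
          exact mul_le_mul_of_nonneg_left (hx _ _) (hw f hf)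
      have h2 : ∑ l ∈ J, c l * Real.exp (u l) * D l ≤
          ∑ l ∈ J, c l * (Real.exp (u l + D l) - Real.exp (u l)) :=
        Finset.sum_le_sum fun l hl => by
          rw [mul_assoc]
          exact mul_le_mul_of_nonneg_left (hx _ _) (hc l hl)
      linarith
    have hupp : ∑ f ∈ F, w f * (Real.exp (dS L u f + dS L D f) - Real.exp (dS L u f)) +
        ∑ l ∈ J, c l * (Real.exp (u l + D l) - Real.exp (u l)) - ∑ l ∈ J, D l ≤ 0 := by
      rw [e2]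
      have hx : ∀ a t : ℝ, Real.exp (a + t) - Real.exp a ≤ Real.exp (a + t) * t := by
        intro a t
        have h1 := mul_le_mul_of_nonneg_left (Real.add_one_le_exp (-t)) (Real.exp_pos (a + t)).le
        have h2 : Real.exp (a + t) * Real.exp (-t) = Real.exp a := by
          rw [← Real.exp_add, add_neg_cancel_right]
        rw [h2] at h1
        linarith
      have h1 : ∑ f ∈ F, w f * (Real.exp (dS L u f + dS L D f) - Real.exp (dS L u f)) ≤
          ∑ f ∈ F, w f * Real.exp (dS L u f + dS L D f) * dS L D f :=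
        Finset.sum_le_sum fun f hf => by
          rw [mul_assoc (w f)]
          exact mul_le_mul_of_nonneg_left (hx _ _) (hw f hf)
      have h2 : ∑ l ∈ J, c l * (Real.exp (u l + D l) - Real.exp (u l)) ≤
          ∑ l ∈ J, c l * Real.exp (u l + D l) * D l :=
        Finset.sum_le_sum fun l hl => by
          rw [mul_assoc (c l)]
          exact mul_le_mul_of_nonneg_left (hx _ _) (hc l hl)
      linarith
    have h5 : ρ * r ≤ ρ * (8 * ρ / lam) := mul_le_mul_of_nonneg_left hrb hρ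
    have h6 : -(ρ * r) ≤ ∑ l ∈ J, G l * D l := (abs_le.mp hcs).1
    have h7 : 0 ≤ ρ * r := mul_nonneg hρ hr0
    exact abs_le.mpr ⟨by linarith, by linarith⟩

private theorem exp_half {x : ℝ} (h : |x| ≤ 1 / 2) : 1 / 2 ≤ Real.exp x := by
  have h1 := Real.add_one_le_exp x
  have h2 := (abs_le.mp h).1
  linarith

theorem ls_cls (ν : ℕ) (hν : 2 ≤ ν) (hν4 : ν ≤ 4) (K lam C0 : ℝ) (hK : 1 ≤ K) (hl : 0 < lam) (hl1 : lam ≤ 1)
    (hC0 : 1 ≤ C0) : ∃ (C : ℝ) (m0 : ℕ), 1 ≤ C ∧ 2 ≤ m0 ∧ ∀ (α β : Type) [DecidableEq α] [DecidableEq β] (m : ℕ) (I : Finset α)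
    (L : β → Finset α) (S : Finset β) (w : β → ℝ) (c g : α → ℝ) (h : α → α → ℝ), m0 ≤ m →
      LSys ν m K lam I L S w c g → Hi C0 m I (AA L S w g m) g h → ∀ e0 ∈ S, ∀ δ : α → ℝ, StR I L S w c e0 δ →
      ∃ Δ : α → ℝ, (∀ f ∈ Sd L S e0, dS L δ f = dS L (tu L h e0) f + dS L Δ f) ∧
        (∀ l, l ∉ I \ L e0 → Δ l = 0) ∧ ∑ l ∈ I, Δ l ^ 2 ≤ C / m ^ 3 ∧
        |DV1 ν I L S w c e0 δ - DV1 ν I L S w c e0 (tu L h e0)| ≤ C / m ^ 2 := by
  obtain ⟨C1, m1, hC1, hm1, hnon⟩ := ls_non ν hν hν4 K C0 hK hC0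
  obtain ⟨C2, hC2, htri⟩ := ls_tri ν hν hν4 K C0 hK hC0
  obtain ⟨m2, hm2, hrco⟩ := ls_rco ν hν hν4 K lam hK hl
  obtain ⟨m3, hm3⟩ := exists_nat_ge (256 * C1 / lam ^ 2 + 2 * C2)
  have hlam2 : 0 < lam ^ 2 := by positivity
  have hlam1 : lam ^ 2 ≤ 1 := by nlinarith
  refine ⟨64 * C1 / lam ^ 2, max (max m1 m2) m3, ?_, ?_, ?_⟩
  · rw [le_div_iff₀ hlam2]
    linarith
  · exact le_max_of_le_left (le_max_of_le_left hm1)
  intro α β _ _ m I L S w c g h hm hLS hHi e0 he0 δ hδ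
  have hmm1 : m1 ≤ m := le_trans (le_trans (le_max_left _ _) (le_max_left _ _)) hm
  have hmm2 : m2 ≤ m := le_trans (le_trans (le_max_right _ _) (le_max_left _ _)) hm
  have hmm3 : m3 ≤ m := le_trans (le_max_right _ _) hm
  have hm2' : 2 ≤ m := le_trans hm1 hmm1
  have hmR : (2 : ℝ) ≤ m := by exact_mod_cast hm2'
  have hmpos : (0 : ℝ) < m := by linarith
  have hm3' : 256 * C1 / lam ^ 2 + 2 * C2 ≤ m := le_trans hm3 (by exact_mod_cast hmm3)
  have hbig : 256 * C1 / lam ^ 2 ≤ m := by linarith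
  have hC1m : 256 * C1 ≤ m := by
    have h1 : 256 * C1 ≤ 256 * C1 / lam ^ 2 := by
      rw [le_div_iff₀ hlam2]
      nlinarith
    linarith
  have hC2m : 2 * C2 ≤ m := by
    have h1 : 0 ≤ 256 * C1 / lam ^ 2 := by positivity
    linarith
  obtain ⟨hn1, hn2, hn3⟩ := hnon α β m I L S w c g lam h hmm1 hLS hHi e0 he0
  have ht1 := (htri α β m I L S w c g lam h (by omega) hLS hHi e0 he0).1
  obtain ⟨u, hu⟩ : ∃ u, u = tu L h e0 := ⟨_, rfl⟩
  rw [← hu] at hn1 hn2 hn3 ht1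
  rw [← hu]
  obtain ⟨J, hJ⟩ : ∃ J, J = I \ L e0 := ⟨_, rfl⟩
  obtain ⟨F, hF⟩ : ∃ F, F = Sd L S e0 := ⟨_, rfl⟩
  have hsub0 : L e0 ⊆ I := hLS.sub e0 he0
  have hsplit : ∀ φ : α → ℝ, ∑ l ∈ J, φ l = ∑ l ∈ I, φ l - ∑ l ∈ L e0, φ l := by
    intro φ
    rw [hJ, ← Finset.sum_sdiff hsub0]
    ring
  have hJI : ∀ l ∈ J, l ∈ I := by
    intro l hl
    rw [hJ] at hl
    exact (Finset.mem_sdiff.mp hl).1
  have hFS : ∀ f ∈ F, f ∈ S ∧ Disjoint (L f) (L e0) := by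
    intro f hf
    rw [hF] at hf
    exact Finset.mem_filter.mp hf
  have hs : ∀ e ∈ F, L e ⊆ J := by
    intro f hf l hl
    rw [hJ]
    exact Finset.mem_sdiff.mpr ⟨hLS.sub f (hFS f hf).1 hl, fun h1 =>
      (Finset.disjoint_left.mp (hFS f hf).2) hl h1⟩
  have hg2 : ∑ l ∈ J, g l ^ 2 = 2 * m - 2 := by
    rw [hsplit, hLS.g2, hLS.ge2 e0 he0]
  have hg1 : ∑ l ∈ J, g l = 0 := by
    rw [hsplit, hLS.g1, hLS.ge e0 he0, sub_zero]
  have hg2pos : (0 : ℝ) < 2 * m - 2 := by linarith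
  obtain ⟨s, hsdef⟩ : ∃ s : ℝ, s = (∑ l ∈ J, g l * (u l - δ l)) / (2 * m - 2) := ⟨_, rfl⟩
  obtain ⟨D, hD⟩ : ∃ D : α → ℝ, D = fun l => if l ∈ J then δ l + s * g l - u l else 0 := ⟨_, rfl⟩
  have hDJ : ∀ l ∈ J, D l = δ l + s * g l - u l := by
    intro l hl
    rw [hD]
    exact if_pos hl
  have hDn : ∀ l, l ∉ J → D l = 0 := by
    intro l hl
    rw [hD]
    exact if_neg hl
  have hgD : ∑ l ∈ J, g l * D l = 0 := by
    have h1 : ∑ l ∈ J, g l * D l = s * ∑ l ∈ J, g l ^ 2 - ∑ l ∈ J, g l * (u l - δ l) := by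
      rw [Finset.mul_sum, ← Finset.sum_sub_distrib]
      refine Finset.sum_congr rfl fun l hl => ?_
      rw [hDJ l hl]
      ring
    rw [h1, hg2, hsdef, div_mul_cancel₀ _ hg2pos.ne', sub_self]
  have hdS : ∀ f ∈ F, dS L δ f = dS L u f + dS L D f := by
    intro f hf
    have h1 : dS L D f = dS L δ f + s * ∑ l ∈ L f, g l - dS L u f := by
      show ∑ l ∈ L f, D l = ∑ l ∈ L f, δ l + s * ∑ l ∈ L f, g l - ∑ l ∈ L f, u l
      rw [Finset.mul_sum, ← Finset.sum_add_distrib, ← Finset.sum_sub_distrib]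
      exact Finset.sum_congr rfl fun l hl => hDJ l (hs f hf hl)
    rw [hLS.ge f (hFS f hf).1] at h1
    rw [h1]
    ring
  have hcδ : ∀ l ∈ J, c l * Real.exp (δ l) = c l * Real.exp (u l + D l) := by
    intro l hl
    by_cases hg : g l = 0
    · have h1 : u l + D l = δ l := by
        rw [hDJ l hl, hg]
        ring
      rw [h1]
    · rw [hLS.gc l (hJI l hl) hg, zero_mul, zero_mul]
  have hsumδ : ∑ l ∈ J, δ l = ∑ l ∈ J, u l + ∑ l ∈ J, D l := by
    have h1 : ∑ l ∈ J, D l = ∑ l ∈ J, δ l + s * ∑ l ∈ J, g l - ∑ l ∈ J, u l := by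
      rw [Finset.mul_sum, ← Finset.sum_add_distrib, ← Finset.sum_sub_distrib]
      exact Finset.sum_congr rfl fun l hl => hDJ l hl
    rw [h1, hg1]
    ring
  have hco := hrco α β m I L S w c g hmm2 hLS e0 he0 D
  rw [← hJ, ← hF, hgD] at hco
  have hco' : lam / 2 * ∑ l ∈ J, D l ^ 2 ≤ ∑ f ∈ F, w f * dS L D f ^ 2 + ∑ l ∈ J, c l * D l ^ 2 := by
    have h1 : (0 : ℝ) ^ 2 / (2 * m) = 0 := by
      rw [zero_pow two_ne_zero, zero_div]
    rw [h1, add_zero] at hco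
    exact hco
  have hm3pos : (0 : ℝ) < (m : ℝ) ^ 3 := by positivity
  obtain ⟨ρ, hρ⟩ : ∃ ρ, ρ = Real.sqrt (C1 / m ^ 3) := ⟨_, rfl⟩
  have hρ0 : 0 ≤ ρ := by rw [hρ]; exact Real.sqrt_nonneg _
  have hρ2 : ρ ^ 2 = C1 / m ^ 3 := by
    rw [hρ, Real.sq_sqrt (by positivity)]
  have hlρ : 16 * ρ ≤ lam := by
    refine le_of_sq_le_sq ?_ hl.le
    rw [mul_pow, hρ2]
    have h1 : 256 * C1 ≤ lam ^ 2 * m := by
      have := (div_le_iff₀ hlam2).mp hbig
      linarith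
    have h2 : (m : ℝ) ≤ m ^ 3 := by nlinarith [mul_pos hmpos hmpos]
    have h3 : 256 * C1 ≤ lam ^ 2 * m ^ 3 := le_trans h1 (mul_le_mul_of_nonneg_left h2 hlam2.le)
    have h4 : (16 : ℝ) ^ 2 * (C1 / m ^ 3) = 256 * C1 / m ^ 3 := by ring
    rw [h4, div_le_iff₀ hm3pos]
    exact h3
  have hst : ∀ l ∈ J, ∑ f ∈ Sr L F l, w f * Real.exp (dS L u f + dS L D f) +
      c l * Real.exp (u l + D l) = 1 := by
    intro l hl
    have h1 := hδ l (by rw [← hJ]; exact hl)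
    rw [← hF] at h1
    rw [← hcδ l hl, ← h1]
    congr 1
    refine Finset.sum_congr rfl fun f hf => ?_
    rw [hdS f (Finset.mem_filter.mp hf).1]
  have hE : ∀ f ∈ F, 1 / 2 ≤ Real.exp (dS L u f) := by
    intro f hf
    refine exp_half (le_trans (hn1 f (by rw [← hF]; exact hf)) ?_)
    rw [div_le_iff₀ hmpos]
    linarith
  have hV : ∀ l ∈ J, 1 / 2 ≤ Real.exp (u l) := by
    intro l hl
    refine exp_half (le_trans (ht1 l (by rw [← hJ]; exact hl)) ?_)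
    rw [div_le_iff₀ hmpos]
    linarith
  have hcard : ∀ e ∈ F, (L e).card ≤ 4 := by
    intro f hf
    rw [hLS.card f (hFS f hf).1]
    exact hν4
  rw [← hJ, ← hF] at hn3
  obtain ⟨r1, r2⟩ := core hs hcard hl hρ0 hlρ (fun f hf => hLS.wnn f (hFS f hf).1)
    (fun l hl => hLS.cnn l (hJI l hl)) hE hV hst (by rw [hρ2]; exact hn3) hco'
  refine ⟨D, ?_, ?_, ?_, ?_⟩
  · intro f hf
    rw [← hF] at hf
    exact hdS f hf
  · intro l hl
    rw [← hJ] at hl
    exact hDn l hl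
  · have h1 : ∑ l ∈ I, D l ^ 2 = ∑ l ∈ J, D l ^ 2 := by
      refine (Finset.sum_subset hJI fun l _ hl => ?_).symm
      rw [hDn l hl]
      ring
    rw [h1]
    refine le_trans r1 (le_of_eq ?_)
    rw [div_pow, mul_pow, hρ2]
    ring
  · have h1 : DV1 ν I L S w c e0 δ - DV1 ν I L S w c e0 u =
        ∑ f ∈ F, w f * (Real.exp (dS L u f + dS L D f) - Real.exp (dS L u f)) +
        ∑ l ∈ J, c l * (Real.exp (u l + D l) - Real.exp (u l)) - ∑ l ∈ J, D l := by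
      unfold DV1
      rw [← hJ, ← hF, Finset.sum_sub_distrib, Finset.sum_sub_distrib, hsumδ]
      have h2 : ∑ f ∈ F, w f * Real.exp (dS L δ f) =
          ∑ f ∈ F, w f * Real.exp (dS L u f + dS L D f) :=
        Finset.sum_congr rfl fun f hf => by rw [hdS f hf]
      have h3 : ∑ l ∈ J, c l * Real.exp (δ l) = ∑ l ∈ J, c l * Real.exp (u l + D l) :=
        Finset.sum_congr rfl hcδ
      have h4 : ∑ f ∈ F, w f * (Real.exp (dS L u f + dS L D f) - Real.exp (dS L u f)) =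
          ∑ f ∈ F, w f * Real.exp (dS L u f + dS L D f) - ∑ f ∈ F, w f * Real.exp (dS L u f) := by
        rw [← Finset.sum_sub_distrib]
        exact Finset.sum_congr rfl fun f _ => by ring
      have h5 : ∑ l ∈ J, c l * (Real.exp (u l + D l) - Real.exp (u l)) =
          ∑ l ∈ J, c l * Real.exp (u l + D l) - ∑ l ∈ J, c l * Real.exp (u l) := by
        rw [← Finset.sum_sub_distrib]
        exact Finset.sum_congr rfl fun l _ => by ring
      rw [h2, h3, h4, h5]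
      ring
    rw [h1]
    refine le_trans r2 ?_
    have h6 : ρ * (8 * ρ / lam) = 8 * C1 / lam / m ^ 3 := by
      have : ρ * (8 * ρ / lam) = 8 * ρ ^ 2 / lam := by ring
      rw [this, hρ2]
      ring
    rw [h6]
    have h7 : 8 * C1 / lam ≤ 64 * C1 / lam ^ 2 := by
      rw [div_le_div_iff₀ hl hlam2]
      have h8 : lam ^ 2 ≤ lam := by nlinarith
      have h9 : 0 < C1 := by linarith
      have h10 := mul_le_mul_of_nonneg_left h8 h9.le
      have h11 := mul_pos h9 hl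
      linarith
    have h8 : (m : ℝ) ^ 2 ≤ m ^ 3 := by nlinarith [mul_pos hmpos hmpos]
    have h9 : 0 ≤ 64 * C1 / lam ^ 2 := by positivity
    calc 8 * C1 / lam / m ^ 3 ≤ 64 * C1 / lam ^ 2 / m ^ 3 := div_le_div_of_nonneg_right h7 hm3pos.le
      _ ≤ 64 * C1 / lam ^ 2 / m ^ 2 := div_le_div_of_nonneg_left h9 (by positivity) h8

end Pool.Agent.NQF
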