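import Pool.Agent.NQF.Defs

/-!
# NQF-SJac: determinant of a principal submatrix (Jacobi)
-/

set_option autoImplicit false

open Finset

namespace Pool.Agent.NQF

open Pool.Agent.NQ (board dsum F Ent Dg phi ln Q Qset QS NonAtt bern)
open Pool.Agent.NQR (Adm Opt Bd Rf hS hD hh InR)
open Pool.Agent.NQL

private theorem sj_pd {α : Type} [DecidableEq α] {I : Finset α} {A : α → α → ℝ} {lam : ℝ}
    (hl : 0 < lam) (hs : ∀ l l', A l l' = A l' l)
    (hp : ∀ u : α → ℝ, lam * ∑ l ∈ I, u l ^ 2 ≤ ∑ l ∈ I, ∑ l' ∈ I, u l * A l l' * u l') :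
    (Matrix.of (fun i j : I => A i j)).PosDef := by
  refine Matrix.PosDef.of_dotProduct_mulVec_pos ?_ ?_
  · ext i j
    rw [Matrix.conjTranspose_apply, Matrix.of_apply, Matrix.of_apply, star_trivial]
    exact hs _ _
  · intro x hx
    obtain ⟨i₀, hi₀⟩ := Function.ne_iff.1 hx
    have h1 := hp (fun l => if h : l ∈ I then x ⟨l, h⟩ else 0)
    have hu : ∀ i : I, (if h : (i : α) ∈ I then x ⟨i, h⟩ else 0) = x i := fun i => dif_pos i.2
    have h2 : ∑ l ∈ I, (if h : l ∈ I then x ⟨l, h⟩ else 0) ^ 2 = ∑ i : I, x i ^ 2 := by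
      rw [← Finset.sum_coe_sort]
      exact Finset.sum_congr rfl fun i _ => by rw [hu]
    have h3 : ∑ l ∈ I, ∑ l' ∈ I, (if h : l ∈ I then x ⟨l, h⟩ else 0) * A l l' *
        (if h : l' ∈ I then x ⟨l', h⟩ else 0) =
        star x ⬝ᵥ (Matrix.mulVec (Matrix.of (fun i j : I => A i j)) x) := by
      rw [← Finset.sum_coe_sort]
      unfold dotProduct Matrix.mulVec dotProduct
      refine Finset.sum_congr rfl fun i _ => ?_
      rw [← Finset.sum_coe_sort, hu, Finset.mul_sum]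
      refine Finset.sum_congr rfl fun j _ => ?_
      rw [hu, Pi.star_apply, star_trivial]
      exact mul_assoc _ _ _
    have h4 : 0 < ∑ i : I, x i ^ 2 := by
      refine Finset.sum_pos' (fun i _ => sq_nonneg _) ⟨i₀, Finset.mem_univ _, ?_⟩
      exact sq_pos_of_ne_zero hi₀
    rw [h2, h3] at h1
    exact lt_of_lt_of_le (mul_pos hl h4) h1

theorem ld_compl {α : Type} [DecidableEq α] {I e : Finset α} (he : e ⊆ I) {A h : α → α → ℝ} {lam : ℝ}
    (hl : 0 < lam) (hs : ∀ l l', A l l' = A l' l)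
    (hp : ∀ u : α → ℝ, lam * ∑ l ∈ I, u l ^ 2 ≤ ∑ l ∈ I, ∑ l' ∈ I, u l * A l l' * u l')
    (hi : ∀ l ∈ I, ∀ k ∈ I, ∑ l' ∈ I, A l l' * h l' k = if l = k then 1 else 0) :
    LD (I \ e) A = LD I A + LD e h ∧ 0 < Matrix.det (Matrix.of (fun i j : e => h i j)) := by
  classical
  obtain ⟨σ, hσ1, hσ2⟩ : ∃ σ : ↥(I \ e) ⊕ ↥e ≃ ↥I,
      (∀ x : ↥(I \ e), ((σ (Sum.inl x) : ↥I) : α) = x) ∧
        ∀ x : ↥e, ((σ (Sum.inr x) : ↥I) : α) = x := by
    refine ⟨Equiv.ofBijective (Sum.elim (fun x : ↥(I \ e) => (⟨x.1, (mem_sdiff.1 x.2).1⟩ : ↥I))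
      (fun x : ↥e => (⟨x.1, he x.2⟩ : ↥I))) ⟨?_, ?_⟩, fun x => rfl, fun x => rfl⟩
    · rintro (x | x) (y | y) h1
      · have h2 : x.1 = y.1 := congrArg (fun z : ↥I => (z : α)) h1
        rw [Subtype.ext h2]
      · have h2 : x.1 = y.1 := congrArg (fun z : ↥I => (z : α)) h1
        exact absurd (h2 ▸ y.2) (mem_sdiff.1 x.2).2
      · have h2 : x.1 = y.1 := congrArg (fun z : ↥I => (z : α)) h1
        exact absurd (h2 ▸ x.2) (mem_sdiff.1 y.2).2
      · have h2 : x.1 = y.1 := congrArg (fun z : ↥I => (z : α)) h1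
        rw [Subtype.ext h2]
    · rintro ⟨x, hx⟩
      by_cases hxe : x ∈ e
      · exact ⟨Sum.inr ⟨x, hxe⟩, rfl⟩
      · exact ⟨Sum.inl ⟨x, mem_sdiff.2 ⟨hx, hxe⟩⟩, rfl⟩
  have hpd := sj_pd hl hs hp
  have hmul : (Matrix.of (fun i j : I => A i j)) * (Matrix.of (fun i j : I => h i j)) = 1 := by
    ext i k
    rw [Matrix.mul_apply]
    have h1 := hi i i.2 k k.2
    rw [← Finset.sum_coe_sort] at h1
    rw [Matrix.one_apply]
    simp only [Subtype.ext_iff]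
    exact h1
  set a' : Matrix (↥(I \ e) ⊕ ↥e) (↥(I \ e) ⊕ ↥e) ℝ :=
    (Matrix.of (fun i j : I => A i j)).submatrix σ σ with ha'
  set h' : Matrix (↥(I \ e) ⊕ ↥e) (↥(I \ e) ⊕ ↥e) ℝ :=
    (Matrix.of (fun i j : I => h i j)).submatrix σ σ with hh'
  have hmul' : a' * h' = 1 := by
    rw [ha', hh', Matrix.submatrix_mul_equiv, hmul, Matrix.submatrix_one_equiv]
  have e11 : a'.toBlocks₁₁ = Matrix.of (fun i j : ↥(I \ e) => A i j) := by
    ext i j
    show A (σ (Sum.inl i) : ↥I) (σ (Sum.inl j) : ↥I) = A i j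
    rw [hσ1, hσ1]
  have e22 : h'.toBlocks₂₂ = Matrix.of (fun i j : ↥e => h i j) := by
    ext i j
    show h (σ (Sum.inr i) : ↥I) (σ (Sum.inr j) : ↥I) = h i j
    rw [hσ2, hσ2]
  have hb : a' * Matrix.fromBlocks (1 : Matrix ↥(I \ e) ↥(I \ e) ℝ) h'.toBlocks₁₂ 0 h'.toBlocks₂₂ =
      Matrix.fromBlocks a'.toBlocks₁₁ 0 a'.toBlocks₂₁ (1 : Matrix ↥e ↥e ℝ) := by
    have h1 : Matrix.fromBlocks a'.toBlocks₁₁ a'.toBlocks₁₂ a'.toBlocks₂₁ a'.toBlocks₂₂ *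
        Matrix.fromBlocks h'.toBlocks₁₁ h'.toBlocks₁₂ h'.toBlocks₂₁ h'.toBlocks₂₂ =
        Matrix.fromBlocks 1 0 0 1 := by
      rw [Matrix.fromBlocks_toBlocks, Matrix.fromBlocks_toBlocks, hmul', Matrix.fromBlocks_one]
    rw [Matrix.fromBlocks_multiply, Matrix.fromBlocks_inj] at h1
    have h2 : a' * Matrix.fromBlocks (1 : Matrix ↥(I \ e) ↥(I \ e) ℝ) h'.toBlocks₁₂ 0 h'.toBlocks₂₂ =
        Matrix.fromBlocks a'.toBlocks₁₁ a'.toBlocks₁₂ a'.toBlocks₂₁ a'.toBlocks₂₂ *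
        Matrix.fromBlocks (1 : Matrix ↥(I \ e) ↥(I \ e) ℝ) h'.toBlocks₁₂ 0 h'.toBlocks₂₂ := by
      rw [Matrix.fromBlocks_toBlocks]
    rw [h2, Matrix.fromBlocks_multiply, h1.2.1, h1.2.2.2]
    simp
  have hdet := congrArg Matrix.det hb
  rw [Matrix.det_mul, Matrix.det_fromBlocks_zero₂₁, Matrix.det_fromBlocks_zero₁₂, Matrix.det_one,
    Matrix.det_one, one_mul, mul_one, e11, e22, ha', Matrix.det_submatrix_equiv_self] at hdet
  have h1 : 0 < Matrix.det (Matrix.of (fun i j : I => A i j)) := hpd.det_pos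
  have h2 : 0 < Matrix.det (Matrix.of (fun i j : ↥(I \ e) => A i j)) := by
    have hinj : Function.Injective (fun x : ↥(I \ e) => (⟨x.1, (mem_sdiff.1 x.2).1⟩ : ↥I)) := by
      intro x y hxy
      exact Subtype.ext (congrArg (fun z : ↥I => (z : α)) hxy)
    exact (hpd.submatrix hinj).det_pos
  have h3 : 0 < Matrix.det (Matrix.of (fun i j : e => h i j)) := by
    rw [← hdet] at h2
    exact (pos_iff_pos_of_mul_pos h2).1 h1
  refine ⟨?_, h3⟩
  unfold LD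
  rw [← Real.log_mul h1.ne' h3.ne', hdet]

end Pool.Agent.NQF
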