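import Pool.Agent.NQF.Defs

/-!
# NQF-SPrt: second order perturbation of the logarithm of a determinant

PLAN. Matrices on the subtype `J`: `A` positive definite `≥ lam`, `E` symmetric. Simultaneous diagonalisation: there is an invertible `P` with `Pᵀ A P = 1`, `Pᵀ E P = diagonal μ` (e.g. `A = Bᵀ B` or the square root of `A`, `P = A^(-1/2) U` with `U` from the spectral theorem for `A^(-1/2) E A^(-1/2)`). Then
`log det (A + E) - log det A = ∑ log (1 + μ i)`, `tr (h' E) = ∑ μ i`, `tr (h' E h' E) = ∑ μ i ^ 2`. `|μ i| ≤ ε/lam ≤ 1/2`: `|uᵀ E u| ≤ ε ‖u‖² ≤ (ε/lam) uᵀ A u` (row sums). `|log (1+μ) - μ + μ²/2| ≤ |μ|³` and `∑ μ² ≤ ∑ E²/lam²` (`tr (h' E h' E) = ‖A^(-1/2) E A^(-1/2)‖² ≤ ‖E‖²/lam²`).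
-/

set_option autoImplicit false

open Finset

namespace Pool.Agent.NQF

open Pool.Agent.NQ (board dsum F Ent Dg phi ln Q Qset QS NonAtt bern)
open Pool.Agent.NQR (Adm Opt Bd Rf hS hD hh InR)
open Pool.Agent.NQL

section Mat

open Matrix

variable {ι : Type} [Fintype ι] [DecidableEq ι]

private theorem diag_one (X : Matrix ι ι ℝ) (hX : X.IsHermitian) :
    ∃ (U : Matrix ι ι ℝ) (d : ι → ℝ), Uᵀ * U = 1 ∧ Uᵀ * X * U = diagonal d := by
  refine ⟨(hX.eigenvectorUnitary : Matrix ι ι ℝ), hX.eigenvalues, ?_, ?_⟩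
  · have h := Unitary.coe_star_mul_self hX.eigenvectorUnitary
    have h2 : star (hX.eigenvectorUnitary : Matrix ι ι ℝ) = (hX.eigenvectorUnitary : Matrix ι ι ℝ)ᵀ := by
      rw [Matrix.star_eq_conjTranspose, Matrix.conjTranspose_eq_transpose_of_trivial]
    rw [← h2]; exact h
  · have h := hX.conjStarAlgAut_star_eigenvectorUnitary
    rw [Unitary.conjStarAlgAut_star_apply] at h
    have h2 : star (hX.eigenvectorUnitary : Matrix ι ι ℝ) = (hX.eigenvectorUnitary : Matrix ι ι ℝ)ᵀ := by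
      rw [Matrix.star_eq_conjTranspose, Matrix.conjTranspose_eq_transpose_of_trivial]
    rw [← h2, h]
    congr 1

private theorem diag_two (A E : Matrix ι ι ℝ) (hA : A.PosDef) (hE : E.IsHermitian) :
    ∃ (P : Matrix ι ι ℝ) (μ : ι → ℝ), Pᵀ * A * P = 1 ∧ Pᵀ * E * P = diagonal μ := by
  obtain ⟨U, d, hU, hd⟩ := diag_one A hA.1
  have hpos : ∀ i, 0 < d i := by
    intro i
    have hne : U *ᵥ (Pi.single i 1) ≠ 0 := by
      intro h
      have h2 : Uᵀ *ᵥ (U *ᵥ (Pi.single i 1)) = 0 := by rw [h, mulVec_zero]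
      rw [mulVec_mulVec, hU, one_mulVec] at h2
      have := congrFun h2 i
      simp at this
    have h := hA.dotProduct_mulVec_pos hne
    have h3 : star (U *ᵥ (Pi.single i 1)) ⬝ᵥ (A *ᵥ (U *ᵥ (Pi.single i 1))) = (Uᵀ * A * U) i i := by
      have : star (U *ᵥ (Pi.single i (1 : ℝ))) = (Pi.single i (1 : ℝ)) ᵥ* Uᵀ := by
        rw [vecMul_transpose]; ext j; simp
      rw [this, ← dotProduct_mulVec, mulVec_mulVec, mulVec_mulVec]
      simp [Matrix.mul_assoc]
    rw [h3, hd, diagonal_apply_eq] at h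
    exact h
  set C : Matrix ι ι ℝ := U * diagonal (fun i => 1 / √(d i)) with hC
  have hCA : Cᵀ * A * C = 1 := by
    rw [hC, transpose_mul, diagonal_transpose]
    calc diagonal (fun i => 1 / √(d i)) * Uᵀ * A * (U * diagonal fun i => 1 / √(d i))
        = diagonal (fun i => 1 / √(d i)) * (Uᵀ * A * U) * diagonal (fun i => 1 / √(d i)) := by
          simp only [Matrix.mul_assoc]
      _ = 1 := by
          rw [hd, diagonal_mul_diagonal, diagonal_mul_diagonal, ← diagonal_one]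
          congr 1
          ext i
          have h1 := Real.mul_self_sqrt (hpos i).le
          have h2 : 0 < √(d i) := Real.sqrt_pos.2 (hpos i)
          field_simp
          nlinarith [h1]
  have hX : (Cᵀ * E * C).IsHermitian := by
    have := isHermitian_conjTranspose_mul_mul C hE
    rwa [conjTranspose_eq_transpose_of_trivial] at this
  obtain ⟨V, μ, hV, hμ⟩ := diag_one _ hX
  refine ⟨C * V, μ, ?_, ?_⟩
  · rw [transpose_mul]
    calc Vᵀ * Cᵀ * A * (C * V) = Vᵀ * (Cᵀ * A * C) * V := by simp only [Matrix.mul_assoc]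
      _ = 1 := by rw [hCA, Matrix.mul_one, hV]
  · rw [transpose_mul]
    calc Vᵀ * Cᵀ * E * (C * V) = Vᵀ * (Cᵀ * E * C) * V := by simp only [Matrix.mul_assoc]
      _ = _ := hμ

private theorem log_taylor {x : ℝ} (h : |x| ≤ 1 / 2) : |Real.log (1 + x) - x + x ^ 2 / 2| ≤ 2 * |x| ^ 3 := by
  have h1 := Real.abs_log_sub_add_sum_range_le (x := -x) (by rw [abs_neg]; linarith) 2
  rw [abs_neg] at h1
  have h2 : (∑ i ∈ range 2, (-x) ^ (i + 1) / ((i : ℝ) + 1)) + Real.log (1 - -x) = Real.log (1 + x) - x + x ^ 2 / 2 := by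
    simp [Finset.sum_range_succ]
    ring
  rw [h2] at h1
  refine h1.trans ?_
  have h3 : 0 ≤ |x| := abs_nonneg x
  rw [div_le_iff₀ (by linarith)]
  have h4 : 0 ≤ |x| ^ 3 := by positivity
  have h5 : 1 / 2 ≤ 1 - |x| := by linarith
  calc |x| ^ (2 + 1) = 2 * |x| ^ 3 * (1 / 2) := by ring
    _ ≤ 2 * |x| ^ 3 * (1 - |x|) := mul_le_mul_of_nonneg_left h5 (by positivity)

private theorem mat_pert {A E H : Matrix ι ι ℝ} {lam ε : ℝ} (hl : 0 < lam) (hA : A.PosDef)
    (hE : E.IsHermitian) (hp : ∀ u : ι → ℝ, lam * ∑ i, u i ^ 2 ≤ u ⬝ᵥ (A *ᵥ u)) (hi : A * H = 1)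
    (hr : ∀ i, ∑ j, |E i j| ≤ ε) (hε : ε ≤ lam / 2) :
    |Real.log (A + E).det - Real.log A.det - (H * E).trace + ((H * E) * (H * E)).trace / 2| ≤
      2 * ε / lam ^ 3 * ∑ i, ∑ j, E i j ^ 2 := by
  obtain ⟨P, μ, hPA, hPE⟩ := diag_two A E hA hE
  -- inverse
  have hAP : A * (P * Pᵀ) = 1 := by
    have h1 : P * (Pᵀ * A) = 1 := by
      rw [mul_eq_one_comm]
      exact hPA
    have h2 : (P * Pᵀ) * A = 1 := by rw [Matrix.mul_assoc]; exact h1
    exact mul_eq_one_comm.1 h2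
  have hH : H = P * Pᵀ := by
    have h1 : (P * Pᵀ) * A = 1 := mul_eq_one_comm.1 hAP
    calc H = (P * Pᵀ) * A * H := by rw [h1, Matrix.one_mul]
      _ = (P * Pᵀ) * (A * H) := by rw [Matrix.mul_assoc]
      _ = _ := by rw [hi, Matrix.mul_one]
  have htr1 : (H * E).trace = ∑ i, μ i := by
    rw [hH, Matrix.mul_assoc, trace_mul_comm, hPE, trace_diagonal]
  have htr2 : ((H * E) * (H * E)).trace = ∑ i, μ i ^ 2 := by
    have : (H * E) * (H * E) = P * (Pᵀ * E * P * (Pᵀ * E)) := by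
      rw [hH]; simp only [Matrix.mul_assoc]
    rw [this, trace_mul_comm]
    have h3 : Pᵀ * E * P * (Pᵀ * E) * P = (Pᵀ * E * P) * (Pᵀ * E * P) := by
      simp only [Matrix.mul_assoc]
    rw [h3, hPE, diagonal_mul_diagonal, trace_diagonal]
    exact Finset.sum_congr rfl fun i _ => by ring
  -- bound of the eigenvalues
  have hcol : ∀ i, lam * ∑ j, P j i ^ 2 ≤ 1 := by
    intro i
    have h1 := hp (fun j => P j i)
    have h2 : (fun j => P j i) ⬝ᵥ (A *ᵥ (fun j => P j i)) = (Pᵀ * A * P) i i := by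
      rw [Matrix.mul_assoc, Matrix.mul_apply]
      rfl
    rw [h2, hPA, one_apply_eq] at h1
    exact h1
  have hquad : ∀ u : ι → ℝ, |u ⬝ᵥ (E *ᵥ u)| ≤ ε * ∑ i, u i ^ 2 := by
    intro u
    have hs : ∀ i j, E i j = E j i := fun i j => by
      have := congrFun (congrFun hE j) i
      simpa [conjTranspose_apply] using this
    have h1 : |u ⬝ᵥ (E *ᵥ u)| ≤ ∑ i, ∑ j, |E i j| * (u i ^ 2 + u j ^ 2) / 2 := by
      have : u ⬝ᵥ (E *ᵥ u) = ∑ i, ∑ j, u i * (E i j * u j) := by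
        simp [dotProduct, mulVec, Finset.mul_sum]
      rw [this]
      refine (Finset.abs_sum_le_sum_abs _ _).trans (Finset.sum_le_sum fun i _ => ?_)
      refine (Finset.abs_sum_le_sum_abs _ _).trans (Finset.sum_le_sum fun j _ => ?_)
      rw [abs_mul, abs_mul]
      have h2 : 0 ≤ |E i j| := abs_nonneg _
      have h3 := two_mul_le_add_sq (|u i|) (|u j|)
      rw [sq_abs, sq_abs] at h3
      nlinarith
    refine h1.trans ?_
    have h4 : ∑ i, ∑ j, |E i j| * (u i ^ 2 + u j ^ 2) / 2 =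
        (∑ i, ∑ j, |E i j| * u i ^ 2) / 2 + (∑ i, ∑ j, |E i j| * u j ^ 2) / 2 := by
      rw [Finset.sum_div, Finset.sum_div, ← Finset.sum_add_distrib]
      refine Finset.sum_congr rfl fun i _ => ?_
      rw [Finset.sum_div, Finset.sum_div, ← Finset.sum_add_distrib]
      exact Finset.sum_congr rfl fun j _ => by ring
    have h5 : ∑ i, ∑ j, |E i j| * u j ^ 2 = ∑ i, ∑ j, |E i j| * u i ^ 2 := by
      rw [Finset.sum_comm]
      exact Finset.sum_congr rfl fun i _ => Finset.sum_congr rfl fun j _ => by rw [hs j i]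
    rw [h4, h5]
    have h6 : ∑ i, ∑ j, |E i j| * u i ^ 2 ≤ ε * ∑ i, u i ^ 2 := by
      rw [Finset.mul_sum]
      refine Finset.sum_le_sum fun i _ => ?_
      rw [← Finset.sum_mul]
      exact mul_le_mul_of_nonneg_right (hr i) (sq_nonneg _)
    linarith
  have hμ : ∀ i, |μ i| ≤ ε / lam := by
    intro i
    have h1 := hquad (fun j => P j i)
    have h2 : (fun j => P j i) ⬝ᵥ (E *ᵥ (fun j => P j i)) = (Pᵀ * E * P) i i := by
      rw [Matrix.mul_assoc, Matrix.mul_apply]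
      rfl
    rw [h2, hPE, diagonal_apply_eq] at h1
    have h3 : 0 ≤ ε := le_trans (Finset.sum_nonneg fun j _ => abs_nonneg _) (hr i)
    have h4 : ∑ j, P j i ^ 2 ≤ 1 / lam := by
      rw [le_div_iff₀ hl, mul_comm]; exact hcol i
    calc |μ i| ≤ ε * ∑ j, P j i ^ 2 := h1
      _ ≤ ε * (1 / lam) := mul_le_mul_of_nonneg_left h4 h3
      _ = ε / lam := by ring
  have hhalf : ∀ i, |μ i| ≤ 1 / 2 := by
    intro i
    refine (hμ i).trans ?_
    rw [div_le_iff₀ hl]; linarith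
  -- determinants
  have hdet : Real.log (A + E).det - Real.log A.det = ∑ i, Real.log (1 + μ i) := by
    have h1 : P.det * P.det * A.det = 1 := by
      have := congrArg Matrix.det hPA
      rw [det_mul, det_mul, det_transpose, det_one] at this
      linarith
    have h2 : P.det * P.det * (A + E).det = ∏ i, (1 + μ i) := by
      have h3 : Pᵀ * (A + E) * P = diagonal (fun i => 1 + μ i) := by
        rw [Matrix.mul_add, Matrix.add_mul, hPA, hPE, ← diagonal_one, diagonal_add]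
      have := congrArg Matrix.det h3
      rw [det_mul, det_mul, det_transpose, det_diagonal] at this
      linarith
    have hpos : ∀ i, 0 < 1 + μ i := fun i => by
      have := (abs_le.1 (hhalf i)).1
      linarith
    have hPd : 0 < P.det * P.det := by
      have hne : P.det ≠ 0 := by
        intro h; rw [h] at h1; simp at h1
      exact mul_self_pos.2 hne
    have hAd : A.det ≠ 0 := by
      intro h; rw [h] at h1; simp at h1
    have hAEd : (A + E).det ≠ 0 := by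
      intro h
      rw [h, mul_zero] at h2
      exact (Finset.prod_pos fun i _ => hpos i).ne h2
    have h5 := congrArg Real.log h1
    have h6 := congrArg Real.log h2
    rw [Real.log_mul hPd.ne' hAd, Real.log_one] at h5
    rw [Real.log_mul hPd.ne' hAEd, Real.log_prod (fun i _ => (hpos i).ne')] at h6
    linarith
  -- sum of the squares
  have hcon : ∀ w : ι → ℝ, ∑ i, (Pᵀ *ᵥ w) i ^ 2 ≤ (∑ i, w i ^ 2) / lam := by
    intro w
    set y : ι → ℝ := (P * Pᵀ) *ᵥ w with hy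
    have hAy : A *ᵥ y = w := by rw [hy, mulVec_mulVec, hAP, one_mulVec]
    have h1 : ∑ i, (Pᵀ *ᵥ w) i ^ 2 = y ⬝ᵥ w := by
      have h2 : y ⬝ᵥ w = (Pᵀ *ᵥ w) ⬝ᵥ (Pᵀ *ᵥ w) := by
        rw [hy, ← mulVec_mulVec, dotProduct_comm, dotProduct_mulVec, ← mulVec_transpose]
      rw [h2, dotProduct]
      exact Finset.sum_congr rfl fun i _ => by ring
    have h2 : lam * ∑ i, y i ^ 2 ≤ y ⬝ᵥ w := by
      have := hp y
      rwa [hAy] at this
    have h3 : (y ⬝ᵥ w) ^ 2 ≤ (∑ i, y i ^ 2) * ∑ i, w i ^ 2 := by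
      rw [dotProduct]; exact Finset.sum_mul_sq_le_sq_mul_sq _ _ _
    rw [h1, le_div_iff₀ hl]
    have h4 : 0 ≤ ∑ i, y i ^ 2 := Finset.sum_nonneg fun i _ => sq_nonneg _
    have h5 : 0 ≤ ∑ i, w i ^ 2 := Finset.sum_nonneg fun i _ => sq_nonneg _
    have h6 : 0 ≤ y ⬝ᵥ w := le_trans (by positivity) h2
    rcases h6.eq_or_lt with h7 | h7
    · rw [← h7]; simpa using h5
    · have h8 : (y ⬝ᵥ w) * ((y ⬝ᵥ w) * lam) ≤ (y ⬝ᵥ w) * ∑ i, w i ^ 2 := by
        calc (y ⬝ᵥ w) * ((y ⬝ᵥ w) * lam) = lam * (y ⬝ᵥ w) ^ 2 := by ring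
          _ ≤ lam * ((∑ i, y i ^ 2) * ∑ i, w i ^ 2) := mul_le_mul_of_nonneg_left h3 hl.le
          _ = (lam * ∑ i, y i ^ 2) * ∑ i, w i ^ 2 := by ring
          _ ≤ _ := mul_le_mul_of_nonneg_right h2 h5
      exact le_of_mul_le_mul_left h8 h7
  have hfro : ∀ M : Matrix ι ι ℝ, ∑ j, ∑ i, (Pᵀ * M) i j ^ 2 ≤ (∑ j, ∑ i, M i j ^ 2) / lam := by
    intro M
    rw [Finset.sum_div]
    refine Finset.sum_le_sum fun j _ => ?_
    exact hcon (fun i => M i j)
  have hsq : ∑ i, μ i ^ 2 ≤ (∑ i, ∑ j, E i j ^ 2) / lam ^ 2 := by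
    have h1 : ∑ i, μ i ^ 2 = ∑ j, ∑ i, (Pᵀ * (E * P)) i j ^ 2 := by
      rw [← Matrix.mul_assoc, hPE]
      refine Finset.sum_congr rfl fun j _ => ?_
      rw [Finset.sum_eq_single j]
      · rw [diagonal_apply_eq]
      · intro i _ hij
        rw [diagonal_apply_ne _ hij]; ring
      · intro h; exact absurd (Finset.mem_univ _) h
    have h2 : ∑ j, ∑ i, (E * P) i j ^ 2 = ∑ j, ∑ i, (Pᵀ * E) i j ^ 2 := by
      rw [Finset.sum_comm]
      refine Finset.sum_congr rfl fun j _ => Finset.sum_congr rfl fun i _ => ?_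
      have h3 : (E * P)ᵀ = Pᵀ * E := by
        rw [transpose_mul]
        congr 1
      rw [← h3, transpose_apply]
    have h4 := hfro (E * P)
    have h5 := hfro E
    rw [h1]
    refine h4.trans ?_
    rw [h2]
    have h6 : ∑ j, ∑ i, E i j ^ 2 = ∑ i, ∑ j, E i j ^ 2 := Finset.sum_comm
    calc (∑ j, ∑ i, (Pᵀ * E) i j ^ 2) / lam ≤ ((∑ j, ∑ i, E i j ^ 2) / lam) / lam := by gcongr
      _ = _ := by rw [h6]; field_simp
  rw [hdet, htr1, htr2]
  have h1 : ∑ i, Real.log (1 + μ i) - ∑ i, μ i + (∑ i, μ i ^ 2) / 2 =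
      ∑ i, (Real.log (1 + μ i) - μ i + μ i ^ 2 / 2) := by
    rw [Finset.sum_add_distrib, Finset.sum_sub_distrib, Finset.sum_div]
  rw [h1]
  rcases isEmpty_or_nonempty ι with he | ⟨⟨i0⟩⟩
  · simp
  have hε0 : 0 ≤ ε := le_trans (Finset.sum_nonneg fun j _ => abs_nonneg _) (hr i0)
  calc |∑ i, (Real.log (1 + μ i) - μ i + μ i ^ 2 / 2)|
      ≤ ∑ i, |Real.log (1 + μ i) - μ i + μ i ^ 2 / 2| := Finset.abs_sum_le_sum_abs _ _
    _ ≤ ∑ i, 2 * (ε / lam) * μ i ^ 2 := by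
        refine Finset.sum_le_sum fun i _ => (log_taylor (hhalf i)).trans ?_
        have h3 : |μ i| ^ 3 = |μ i| * μ i ^ 2 := by
          rw [pow_succ, sq_abs]; ring
        rw [h3]
        have h4 : 0 ≤ μ i ^ 2 := sq_nonneg _
        have h5 := mul_le_mul_of_nonneg_right (hμ i) h4
        linarith
    _ = 2 * (ε / lam) * ∑ i, μ i ^ 2 := by rw [Finset.mul_sum]
    _ ≤ 2 * (ε / lam) * ((∑ i, ∑ j, E i j ^ 2) / lam ^ 2) :=
        mul_le_mul_of_nonneg_left hsq (by positivity)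
    _ = 2 * ε / lam ^ 3 * ∑ i, ∑ j, E i j ^ 2 := by field_simp

end Mat

theorem ld_pert {α : Type} [DecidableEq α] {J : Finset α} {A E h' : α → α → ℝ} {lam ε : ℝ}
    (hl : 0 < lam) (hs : ∀ l l', A l l' = A l' l) (hE : ∀ l l', E l l' = E l' l)
    (hp : ∀ u : α → ℝ, lam * ∑ l ∈ J, u l ^ 2 ≤ ∑ l ∈ J, ∑ l' ∈ J, u l * A l l' * u l')
    (hi : ∀ l ∈ J, ∀ k ∈ J, ∑ l' ∈ J, A l l' * h' l' k = if l = k then 1 else 0)
    (hr : ∀ l ∈ J, ∑ l' ∈ J, |E l l'| ≤ ε) (hε : ε ≤ lam / 2) :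
    |LD J (fun l l' => A l l' + E l l') - LD J A - ∑ l ∈ J, ∑ l' ∈ J, h' l l' * E l' l +
      (∑ l ∈ J, ∑ k ∈ J, (∑ l' ∈ J, h' l l' * E l' k) * (∑ l' ∈ J, h' k l' * E l' l)) / 2| ≤
      2 * ε / lam ^ 3 * ∑ l ∈ J, ∑ l' ∈ J, E l l' ^ 2 := by
  classical
  let mA : Matrix J J ℝ := Matrix.of (fun i j : J => A i j)
  let mE : Matrix J J ℝ := Matrix.of (fun i j : J => E i j)
  let mH : Matrix J J ℝ := Matrix.of (fun i j : J => h' i j)
  have hsum : ∀ f : α → ℝ, ∑ i : J, f i = ∑ i ∈ J, f i := fun f => Finset.sum_coe_sort J f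
  have hAh : mA.IsHermitian := by
    ext i j
    simp [mA, Matrix.conjTranspose_apply, hs]
  have hEh : mE.IsHermitian := by
    ext i j
    simp [mE, Matrix.conjTranspose_apply, hE]
  have hpJ : ∀ u : J → ℝ, lam * ∑ i, u i ^ 2 ≤ dotProduct u (mA.mulVec u) := by
    intro u
    have h1 := hp (fun l => if h : l ∈ J then u ⟨l, h⟩ else 0)
    have h2 : ∑ l ∈ J, (if h : l ∈ J then u ⟨l, h⟩ else 0) ^ 2 = ∑ i, u i ^ 2 := by
      rw [← hsum (fun l => (if h : l ∈ J then u ⟨l, h⟩ else 0) ^ 2)]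
      exact Finset.sum_congr rfl fun i _ => by simp
    have h3 : ∑ l ∈ J, ∑ l' ∈ J, (if h : l ∈ J then u ⟨l, h⟩ else 0) * A l l' *
        (if h : l' ∈ J then u ⟨l', h⟩ else 0) = dotProduct u (mA.mulVec u) := by
      rw [← hsum (fun l => ∑ l' ∈ J, (if h : l ∈ J then u ⟨l, h⟩ else 0) * A l l' *
        (if h : l' ∈ J then u ⟨l', h⟩ else 0))]
      rw [dotProduct]
      refine Finset.sum_congr rfl fun i _ => ?_
      rw [Matrix.mulVec, dotProduct, Finset.mul_sum]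
      rw [← hsum (fun l' => (if h : (i : α) ∈ J then u ⟨i, h⟩ else 0) * A i l' *
        (if h : l' ∈ J then u ⟨l', h⟩ else 0))]
      refine Finset.sum_congr rfl fun j _ => ?_
      simp [mA]
      ring
    rw [h2, h3] at h1
    exact h1
  have hpd : mA.PosDef := by
    refine Matrix.PosDef.of_dotProduct_mulVec_pos hAh fun x hx => ?_
    have h1 := hpJ x
    have h2 : 0 < ∑ i, x i ^ 2 := by
      obtain ⟨i, hi⟩ := Function.ne_iff.1 hx
      refine lt_of_lt_of_le (pow_pos (abs_pos.2 hi) 2) ?_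
      rw [sq_abs]
      exact Finset.single_le_sum (f := fun i => x i ^ 2) (fun i _ => sq_nonneg _) (Finset.mem_univ i)
    have h3 : star x = x := by ext i; simp
    rw [h3]
    exact lt_of_lt_of_le (mul_pos hl h2) h1
  have hinv : mA * mH = 1 := by
    ext i j
    rw [Matrix.mul_apply]
    have := hi i i.2 j j.2
    rw [← hsum (fun l' => A i l' * h' l' j)] at this
    simp only [mA, mH, Matrix.of_apply]
    rw [this, Matrix.one_apply]
    by_cases hij : i = j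
    · rw [if_pos hij, if_pos (congrArg _ hij)]
    · rw [if_neg hij, if_neg (fun h => hij (Subtype.ext h))]
  have hrJ : ∀ i, ∑ j, |mE i j| ≤ ε := by
    intro i
    have := hr i i.2
    rw [← hsum (fun l' => |E i l'|)] at this
    exact this
  have main := mat_pert hl hpd hEh hpJ hinv hrJ hε
  have e1 : LD J (fun l l' => A l l' + E l l') = Real.log (mA + mE).det := rfl
  have e2 : LD J A = Real.log mA.det := rfl
  have e3 : ∑ l ∈ J, ∑ l' ∈ J, h' l l' * E l' l = (mH * mE).trace := by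
    rw [← hsum (fun l => ∑ l' ∈ J, h' l l' * E l' l), Matrix.trace]
    refine Finset.sum_congr rfl fun i _ => ?_
    rw [Matrix.diag_apply, Matrix.mul_apply, ← hsum (fun l' => h' i l' * E l' i)]
    rfl
  have e4 : ∑ l ∈ J, ∑ k ∈ J, (∑ l' ∈ J, h' l l' * E l' k) * (∑ l' ∈ J, h' k l' * E l' l) =
      ((mH * mE) * (mH * mE)).trace := by
    rw [← hsum (fun l => ∑ k ∈ J, (∑ l' ∈ J, h' l l' * E l' k) * (∑ l' ∈ J, h' k l' * E l' l)),
      Matrix.trace]
    refine Finset.sum_congr rfl fun i _ => ?_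
    rw [Matrix.diag_apply, Matrix.mul_apply,
      ← hsum (fun k => (∑ l' ∈ J, h' i l' * E l' k) * (∑ l' ∈ J, h' k l' * E l' i))]
    refine Finset.sum_congr rfl fun j _ => ?_
    rw [Matrix.mul_apply, Matrix.mul_apply, ← hsum (fun l' => h' i l' * E l' j),
      ← hsum (fun l' => h' j l' * E l' i)]
    rfl
  have e5 : ∑ l ∈ J, ∑ l' ∈ J, E l l' ^ 2 = ∑ i, ∑ j, mE i j ^ 2 := by
    rw [← hsum (fun l => ∑ l' ∈ J, E l l' ^ 2)]
    refine Finset.sum_congr rfl fun i _ => ?_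
    rw [← hsum (fun l' => E i l' ^ 2)]
    rfl
  rw [e1, e2, e3, e4, e5]
  exact main

end Pool.Agent.NQF
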