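import Pool.Agent.NQF.Defs
import Pool.Agent.NQF.SDef

/-!
# NQF-SRes: inverse of a principal submatrix

PLAN. `J = I \ e`. `q` = inverse of `h` restricted to `e × e` (`h = 1 + O(C0/m)` on `e`, so for `m ≥ m0` it is invertible with `∑ |q| ≤ 8`). `h' l l' = h l l' - ∑_{k,k' ∈ e} h l k q k k' h k' l'` for `l, l' ∈ J`, `0` otherwise; it vanishes for `l ∈ e`, so `∑_{l' ∈ J} A l l' h' l' k = ` the full sum over `I` of the formula `= δ - ∑ δ_{l k'} .. = δ`.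
Bounds: for `l ∈ J`, `k ∈ e`: `|h l k| ≤ C0/m`, `∑_{l ∈ J} h l k ^ 2 ≤ C0/m`. `|∑_{J,J} (h' - h) E| = |∑_{k,k'} q k k' ∑ h l k E l l' h k' l'| ≤ 8 (C0/m) B` (`|uᵀ E v| ≤ B ‖u‖ ‖v‖` for symmetric `E` with row sums `≤ B`).
-/

set_option autoImplicit false

open Finset

namespace Pool.Agent.NQF

open Pool.Agent.NQ (board dsum F Ent Dg phi ln Q Qset QS NonAtt bern)
open Pool.Agent.NQR (Adm Opt Bd Rf hS hD hh InR)
open Pool.Agent.NQL

private theorem SRes_inv {α : Type} [DecidableEq α] (e : Finset α) (H : α → α → ℝ) (ε : ℝ)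
    (hε0 : 0 ≤ ε) (hε : 4 * ε ≤ 1 / 2) (hc : e.card ≤ 4) (hsy : ∀ l l', H l l' = H l' l)
    (hH : ∀ k ∈ e, ∀ k' ∈ e, |H k k' - if k = k' then 1 else 0| ≤ ε) :
    ∃ q : α → α → ℝ, (∀ k k', q k k' = q k' k) ∧
      (∀ k ∈ e, ∀ k' ∈ e, ∑ j ∈ e, H k j * q j k' = if k = k' then 1 else 0) ∧
      ∀ k ∈ e, ∀ k' ∈ e, |q k k'| ≤ 2 := by
  let M : Matrix e e ℝ := Matrix.of fun i j => H i j
  have hM : ∀ i j : e, M i j = H i j := fun _ _ => rfl
  have hcard : (Fintype.card e : ℝ) * ε ≤ 1 / 2 := by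
    rw [Fintype.card_coe]
    have h1 : (e.card : ℝ) ≤ 4 := by exact_mod_cast hc
    have h2 := mul_le_mul_of_nonneg_right h1 hε0
    linarith
  have hMe : ∀ i j : e, |M i j - (1 : Matrix e e ℝ) i j| ≤ ε := by
    intro i j
    rw [hM, Matrix.one_apply]
    have h1 := hH i i.2 j j.2
    by_cases hij : i = j
    · rw [if_pos hij]
      rw [if_pos (by rw [hij])] at h1
      exact h1
    · rw [if_neg hij]
      rw [if_neg (fun h => hij (Subtype.ext h))] at h1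
      exact h1
  have hdet : M.det ≠ 0 := by
    apply det_ne_zero_of_sum_row_lt_diag
    intro k
    have h1 : ∑ j ∈ Finset.univ.erase k, ‖M k j‖ ≤ ∑ j ∈ Finset.univ.erase k, ε := by
      apply Finset.sum_le_sum
      intro j hj
      have h2 := hMe k j
      rw [Matrix.one_apply_ne (Finset.ne_of_mem_erase hj).symm, sub_zero] at h2
      rw [Real.norm_eq_abs]
      exact h2
    rw [Finset.sum_const, nsmul_eq_mul, Finset.card_erase_of_mem (Finset.mem_univ k)] at h1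
    have h3 : ((Finset.univ : Finset e).card - 1 : ℕ) ≤ Fintype.card e := by
      rw [Finset.card_univ]
      omega
    have h4 : (((Finset.univ : Finset e).card - 1 : ℕ) : ℝ) * ε ≤ (Fintype.card e : ℝ) * ε :=
      mul_le_mul_of_nonneg_right (by exact_mod_cast h3) hε0
    have h5 := hMe k k
    rw [Matrix.one_apply_eq] at h5
    have h6 := (abs_le.1 h5).1
    have h7 : 3 / 4 ≤ M k k := by linarith
    rw [Real.norm_eq_abs (M k k), abs_of_nonneg (by linarith)]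
    linarith
  have hunit : IsUnit M.det := isUnit_iff_ne_zero.2 hdet
  have hmul : M * M⁻¹ = 1 := Matrix.mul_nonsing_inv M hunit
  have hT : M.transpose = M := by
    ext i j
    rw [Matrix.transpose_apply, hM, hM]
    exact hsy _ _
  have hinvT : (M⁻¹).transpose = M⁻¹ := by
    rw [Matrix.transpose_nonsing_inv, hT]
  have hb : ∀ i j : e, |M⁻¹ i j| ≤ 2 := by
    intro i j
    obtain ⟨i₀, -, hi₀⟩ := Finset.exists_max_image (Finset.univ : Finset e)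
      (fun i => |M⁻¹ i j|) ⟨i, Finset.mem_univ i⟩
    have h1 : M⁻¹ i₀ j = (1 : Matrix e e ℝ) i₀ j -
        ∑ k, (M i₀ k - (1 : Matrix e e ℝ) i₀ k) * M⁻¹ k j := by
      have h2 : (M * M⁻¹) i₀ j = (1 : Matrix e e ℝ) i₀ j := by rw [hmul]
      have h3 : ((1 : Matrix e e ℝ) * M⁻¹) i₀ j = M⁻¹ i₀ j := by rw [Matrix.one_mul]
      rw [Matrix.mul_apply] at h2 h3
      simp only [sub_mul, Finset.sum_sub_distrib]
      rw [h2, h3]
      ring
    have h2 : |∑ k, (M i₀ k - (1 : Matrix e e ℝ) i₀ k) * M⁻¹ k j| ≤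
        ∑ k : e, ε * |M⁻¹ i₀ j| := by
      refine (Finset.abs_sum_le_sum_abs _ _).trans (Finset.sum_le_sum ?_)
      intro k _
      rw [abs_mul]
      exact mul_le_mul (hMe i₀ k) (hi₀ k (Finset.mem_univ k)) (abs_nonneg _) hε0
    rw [Finset.sum_const, nsmul_eq_mul, Finset.card_univ, ← mul_assoc] at h2
    have h3 : |(1 : Matrix e e ℝ) i₀ j| ≤ 1 := by
      rw [Matrix.one_apply]
      split_ifs
      · rw [abs_one]
      · rw [abs_zero]; exact zero_le_one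
    have h4 : |M⁻¹ i₀ j| ≤ 1 + (Fintype.card e : ℝ) * ε * |M⁻¹ i₀ j| := by
      calc |M⁻¹ i₀ j| = |(1 : Matrix e e ℝ) i₀ j -
            ∑ k, (M i₀ k - (1 : Matrix e e ℝ) i₀ k) * M⁻¹ k j| := by rw [← h1]
        _ ≤ |(1 : Matrix e e ℝ) i₀ j| +
            |∑ k, (M i₀ k - (1 : Matrix e e ℝ) i₀ k) * M⁻¹ k j| := abs_sub _ _
        _ ≤ 1 + (Fintype.card e : ℝ) * ε * |M⁻¹ i₀ j| := add_le_add h3 h2
    have h5 := mul_le_mul_of_nonneg_right hcard (abs_nonneg (M⁻¹ i₀ j))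
    have h6 := hi₀ i (Finset.mem_univ i)
    linarith
  refine ⟨fun k k' => if h : k ∈ e ∧ k' ∈ e then M⁻¹ ⟨k, h.1⟩ ⟨k', h.2⟩ else 0, ?_, ?_, ?_⟩
  · intro k k'
    show (if h : k ∈ e ∧ k' ∈ e then M⁻¹ ⟨k, h.1⟩ ⟨k', h.2⟩ else 0) =
      (if h : k' ∈ e ∧ k ∈ e then M⁻¹ ⟨k', h.1⟩ ⟨k, h.2⟩ else 0)
    by_cases h : k ∈ e ∧ k' ∈ e
    · rw [dif_pos h, dif_pos ⟨h.2, h.1⟩]
      have h1 := congrFun (congrFun hinvT ⟨k', h.2⟩) ⟨k, h.1⟩
      rw [Matrix.transpose_apply] at h1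
      exact h1
    · rw [dif_neg h, dif_neg (fun h' => h ⟨h'.2, h'.1⟩)]
  · intro k hk k' hk'
    have h1 : (M * M⁻¹) ⟨k, hk⟩ ⟨k', hk'⟩ = (1 : Matrix e e ℝ) ⟨k, hk⟩ ⟨k', hk'⟩ := by rw [hmul]
    rw [Matrix.mul_apply, Matrix.one_apply] at h1
    rw [← Finset.sum_coe_sort e]
    have h2 : ∀ j : e, H k j * (if h : (j : α) ∈ e ∧ k' ∈ e then M⁻¹ ⟨j, h.1⟩ ⟨k', h.2⟩ else 0) =
        M ⟨k, hk⟩ j * M⁻¹ j ⟨k', hk'⟩ := by
      intro j
      rw [dif_pos ⟨j.2, hk'⟩]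
      rfl
    rw [Finset.sum_congr rfl (fun j _ => h2 j), h1]
    by_cases hkk : k = k'
    · rw [if_pos hkk, if_pos (Subtype.ext hkk)]
    · rw [if_neg hkk, if_neg (fun h => hkk (congrArg Subtype.val h))]
  · intro k hk k' hk'
    show |if h : k ∈ e ∧ k' ∈ e then M⁻¹ ⟨k, h.1⟩ ⟨k', h.2⟩ else 0| ≤ 2
    rw [dif_pos ⟨hk, hk'⟩]
    exact hb _ _

theorem ls_res (C0 : ℝ) (hC0 : 1 ≤ C0) : ∃ (C : ℝ) (m0 : ℕ), 1 ≤ C ∧ 2 ≤ m0 ∧
    ∀ (α : Type) [DecidableEq α] (m : ℕ) (I e : Finset α) (A h : α → α → ℝ) (g : α → ℝ), m0 ≤ m → e ⊆ I →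
      e.card ≤ 4 → (∀ l l', A l l' = A l' l) → Hi C0 m I A g h →
      ∃ h' : α → α → ℝ, (∀ l l', h' l l' = h' l' l) ∧
        (∀ l ∈ I \ e, ∀ k ∈ I \ e, ∑ l' ∈ I \ e, A l l' * h' l' k = if l = k then 1 else 0) ∧
        (∀ l ∈ I \ e, ∀ k ∈ I \ e, |h' l k - if l = k then 1 else 0| ≤ C / m) ∧
        (∑ l ∈ I \ e, ∑ k ∈ I \ e, (h' l k - if l = k then 1 else 0) ^ 2 ≤ C) ∧
        (∀ u : α → ℝ, ∑ l ∈ I \ e, (∑ k ∈ I \ e, h' l k * u k) ^ 2 ≤ C * ∑ k ∈ I \ e, u k ^ 2) ∧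
        ∀ (E : α → α → ℝ) (B : ℝ), 0 ≤ B → (∀ l l', E l l' = E l' l) → (∀ l ∈ I \ e, ∑ l' ∈ I \ e, |E l l'| ≤ B) →
          |∑ l ∈ I \ e, ∑ l' ∈ I \ e, (h' l l' - h l l') * E l' l| ≤ C * B / m := by
  obtain ⟨m0, hm0⟩ := exists_nat_ge (8 * C0)
  refine ⟨34 * C0, max m0 2, by linarith, le_max_right _ _, ?_⟩
  intro α _ m I e A h g hm he hc4 hA hH
  have hmR : 8 * C0 ≤ (m : ℝ) := hm0.trans (by exact_mod_cast (le_max_left m0 2).trans hm)
  have hmpos : 0 < (m : ℝ) := by linarith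
  set c : ℝ := C0 / m with hcdef
  have hc0 : 0 ≤ c := div_nonneg (by linarith) hmpos.le
  have hc8 : c ≤ 1 / 8 := by
    rw [hcdef, div_le_iff₀ hmpos]
    linarith
  set J : Finset α := I \ e with hJ
  have hJI : J ⊆ I := Finset.sdiff_subset
  have hJe : ∀ l ∈ J, ∀ k ∈ e, l ≠ k := by
    intro l hl k hk hlk
    rw [hlk] at hl
    exact (Finset.mem_sdiff.1 hl).2 hk
  obtain ⟨q, hqs, hqi, hqb⟩ := SRes_inv e h c hc0 (by linarith) hc4 hH.sy
    (fun k hk k' hk' => hH.en k (he hk) k' (he hk'))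
  -- the correction
  let co : α → α → ℝ := fun l l' => ∑ k ∈ e, ∑ k' ∈ e, h l k * q k k' * h k' l'
  have hco : ∀ l l', co l l' = ∑ k ∈ e, ∑ k' ∈ e, h l k * q k k' * h k' l' := fun _ _ => rfl
  have hcos : ∀ l l', co l l' = co l' l := by
    intro l l'
    rw [hco, hco, Finset.sum_comm]
    refine Finset.sum_congr rfl (fun k _ => Finset.sum_congr rfl (fun k' _ => ?_))
    rw [hH.sy l k', hH.sy k l', hqs k' k]
    ring
  -- small entries
  have hsm : ∀ l ∈ J, ∀ k ∈ e, |h l k| ≤ c := by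
    intro l hl k hk
    have h1 := hH.en l (hJI hl) k (he hk)
    rw [if_neg (hJe l hl k hk), sub_zero] at h1
    exact h1
  have hcol : ∀ k ∈ e, ∑ l ∈ J, h l k ^ 2 ≤ c := by
    intro k hk
    have h1 := hH.co k (he hk)
    refine le_trans ?_ h1
    calc ∑ l ∈ J, h l k ^ 2 = ∑ l ∈ J, (h l k - if l = k then 1 else 0) ^ 2 := by
          refine Finset.sum_congr rfl (fun l hl => ?_)
          rw [if_neg (hJe l hl k hk), sub_zero]
      _ ≤ ∑ l ∈ I, (h l k - if l = k then 1 else 0) ^ 2 :=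
          Finset.sum_le_sum_of_subset_of_nonneg hJI (fun _ _ _ => sq_nonneg _)
  have hcR : (e.card : ℝ) ≤ 4 := by exact_mod_cast hc4
  have hcoa : ∀ l l', |co l l'| ≤ 2 * ((∑ k ∈ e, |h l k|) * ∑ k ∈ e, |h l' k|) := by
    intro l l'
    rw [hco, Finset.sum_mul_sum, Finset.mul_sum]
    refine (Finset.abs_sum_le_sum_abs _ _).trans (Finset.sum_le_sum ?_)
    intro k hk
    rw [Finset.mul_sum]
    refine (Finset.abs_sum_le_sum_abs _ _).trans (Finset.sum_le_sum ?_)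
    intro k' hk'
    rw [abs_mul, abs_mul, hH.sy k' l']
    have h1 : |h l k| * |q k k'| ≤ |h l k| * 2 :=
      mul_le_mul_of_nonneg_left (hqb k hk k' hk') (abs_nonneg _)
    have h2 := mul_le_mul_of_nonneg_right h1 (abs_nonneg (h l' k'))
    linarith
  have hcosq : ∀ l l', co l l' ^ 2 ≤ 64 * ((∑ k ∈ e, h l k ^ 2) * ∑ k ∈ e, h l' k ^ 2) := by
    intro l l'
    have h1 : ∀ l, (∑ k ∈ e, |h l k|) ^ 2 ≤ 4 * ∑ k ∈ e, h l k ^ 2 := by
      intro l
      have h2 := sq_sum_le_card_mul_sum_sq (s := e) (f := fun k => |h l k|)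
      have h3 : ∑ k ∈ e, |h l k| ^ 2 = ∑ k ∈ e, h l k ^ 2 :=
        Finset.sum_congr rfl (fun k _ => sq_abs _)
      rw [h3] at h2
      have h4 : (0 : ℝ) ≤ ∑ k ∈ e, h l k ^ 2 := Finset.sum_nonneg (fun _ _ => sq_nonneg _)
      have h5 := mul_le_mul_of_nonneg_right hcR h4
      exact h2.trans h5
    have h2 : co l l' ^ 2 ≤ (2 * ((∑ k ∈ e, |h l k|) * ∑ k ∈ e, |h l' k|)) ^ 2 := by
      rw [← sq_abs (co l l')]
      exact pow_le_pow_left₀ (abs_nonneg _) (hcoa l l') 2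
    have h3 : (0 : ℝ) ≤ (∑ k ∈ e, |h l' k|) ^ 2 := sq_nonneg _
    have h4 : (0 : ℝ) ≤ 4 * ∑ k ∈ e, h l k ^ 2 :=
      mul_nonneg (by norm_num) (Finset.sum_nonneg (fun _ _ => sq_nonneg _))
    have h5 := mul_le_mul (h1 l) (h1 l') h3 h4
    calc co l l' ^ 2 ≤ (2 * ((∑ k ∈ e, |h l k|) * ∑ k ∈ e, |h l' k|)) ^ 2 := h2
      _ = 4 * ((∑ k ∈ e, |h l k|) ^ 2 * (∑ k ∈ e, |h l' k|) ^ 2) := by ring
      _ ≤ 4 * ((4 * ∑ k ∈ e, h l k ^ 2) * (4 * ∑ k ∈ e, h l' k ^ 2)) :=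
          mul_le_mul_of_nonneg_left h5 (by norm_num)
      _ = 64 * ((∑ k ∈ e, h l k ^ 2) * ∑ k ∈ e, h l' k ^ 2) := by ring
  have hS : ∑ l ∈ J, ∑ k ∈ e, h l k ^ 2 ≤ 4 * c := by
    rw [Finset.sum_comm]
    calc ∑ k ∈ e, ∑ l ∈ J, h l k ^ 2 ≤ ∑ _k ∈ e, c := Finset.sum_le_sum hcol
      _ = (e.card : ℝ) * c := by rw [Finset.sum_const, nsmul_eq_mul]
      _ ≤ 4 * c := mul_le_mul_of_nonneg_right hcR hc0
  have hS0 : 0 ≤ ∑ l ∈ J, ∑ k ∈ e, h l k ^ 2 :=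
    Finset.sum_nonneg (fun _ _ => Finset.sum_nonneg (fun _ _ => sq_nonneg _))
  have hcoT : ∑ l ∈ J, ∑ l' ∈ J, co l l' ^ 2 ≤ 16 := by
    calc ∑ l ∈ J, ∑ l' ∈ J, co l l' ^ 2
        ≤ ∑ l ∈ J, ∑ l' ∈ J, 64 * ((∑ k ∈ e, h l k ^ 2) * ∑ k ∈ e, h l' k ^ 2) :=
          Finset.sum_le_sum (fun l _ => Finset.sum_le_sum (fun l' _ => hcosq l l'))
      _ = 64 * ((∑ l ∈ J, ∑ k ∈ e, h l k ^ 2) * ∑ l ∈ J, ∑ k ∈ e, h l k ^ 2) := by
          rw [Finset.sum_mul_sum, Finset.mul_sum]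
          refine Finset.sum_congr rfl (fun l _ => ?_)
          rw [Finset.mul_sum]
      _ ≤ 64 * ((4 * c) * (4 * c)) :=
          mul_le_mul_of_nonneg_left (mul_le_mul hS hS hS0 (by linarith)) (by norm_num)
      _ ≤ 64 * ((4 * (1 / 8)) * (4 * (1 / 8))) := by
          have h1 : c * c ≤ (1 / 8) * (1 / 8) := mul_le_mul hc8 hc8 hc0 (by norm_num)
          nlinarith
      _ = 16 := by norm_num
  refine ⟨fun l l' => if l ∈ J ∧ l' ∈ J then h l l' - co l l' else 0, ?_, ?_, ?_, ?_, ?_, ?_⟩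
  · intro l l'
    show (if l ∈ J ∧ l' ∈ J then h l l' - co l l' else 0) =
      (if l' ∈ J ∧ l ∈ J then h l' l - co l' l else 0)
    by_cases h1 : l ∈ J ∧ l' ∈ J
    · rw [if_pos h1, if_pos ⟨h1.2, h1.1⟩, hH.sy l l', hcos l l']
    · rw [if_neg h1, if_neg (fun h2 => h1 ⟨h2.2, h2.1⟩)]
  · -- inverse
    intro l hl k₀ hk₀
    have h0 : ∀ l' ∈ e, h l' k₀ - co l' k₀ = 0 := by
      intro l' hl'
      rw [hco, Finset.sum_comm]
      have h1 : ∀ k' ∈ e, ∑ k ∈ e, h l' k * q k k' * h k' k₀ =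
          (if l' = k' then 1 else 0) * h k' k₀ := by
        intro k' hk'
        rw [← Finset.sum_mul, hqi l' hl' k' hk']
      rw [Finset.sum_congr rfl h1]
      simp only [ite_mul, one_mul, zero_mul]
      rw [Finset.sum_ite_eq, if_pos hl', sub_self]
    have h1 : ∑ l' ∈ J, A l l' * (if l' ∈ J ∧ k₀ ∈ J then h l' k₀ - co l' k₀ else 0) =
        ∑ l' ∈ I, A l l' * (h l' k₀ - co l' k₀) := by
      rw [← Finset.sum_sdiff he]
      have h2 : ∑ l' ∈ e, A l l' * (h l' k₀ - co l' k₀) = 0 :=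
        Finset.sum_eq_zero (fun l' hl' => by rw [h0 l' hl', mul_zero])
      rw [h2, add_zero]
      refine Finset.sum_congr rfl (fun l' hl' => ?_)
      rw [if_pos ⟨hl', hk₀⟩]
    have h2 : ∑ l' ∈ I, A l l' * co l' k₀ = 0 := by
      have h3 : ∀ l' ∈ I, A l l' * co l' k₀ =
          ∑ k ∈ e, ∑ k' ∈ e, (A l l' * h l' k) * (q k k' * h k' k₀) := by
        intro l' _
        rw [hco, Finset.mul_sum]
        refine Finset.sum_congr rfl (fun k _ => ?_)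
        rw [Finset.mul_sum]
        refine Finset.sum_congr rfl (fun k' _ => ?_)
        ring
      rw [Finset.sum_congr rfl h3, Finset.sum_comm]
      refine Finset.sum_eq_zero (fun k hk => ?_)
      rw [Finset.sum_comm]
      refine Finset.sum_eq_zero (fun k' _ => ?_)
      rw [← Finset.sum_mul, hH.inv l (hJI hl) k (he hk), if_neg (hJe l hl k hk), zero_mul]
    show ∑ l' ∈ J, A l l' * (if l' ∈ J ∧ k₀ ∈ J then h l' k₀ - co l' k₀ else 0) = _
    rw [h1]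
    simp only [mul_sub, Finset.sum_sub_distrib]
    rw [h2, sub_zero, hH.inv l (hJI hl) k₀ (hJI hk₀)]
  · -- entries
    intro l hl k₀ hk₀
    show |(if l ∈ J ∧ k₀ ∈ J then h l k₀ - co l k₀ else 0) - if l = k₀ then 1 else 0| ≤ _
    rw [if_pos ⟨hl, hk₀⟩]
    have h1 := hH.en l (hJI hl) k₀ (hJI hk₀)
    have h2 : ∀ l ∈ J, ∑ k ∈ e, |h l k| ≤ 4 * c := by
      intro l hl
      calc ∑ k ∈ e, |h l k| ≤ ∑ _k ∈ e, c := Finset.sum_le_sum (fun k hk => hsm l hl k hk)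
        _ = (e.card : ℝ) * c := by rw [Finset.sum_const, nsmul_eq_mul]
        _ ≤ 4 * c := mul_le_mul_of_nonneg_right hcR hc0
    have h3 : 0 ≤ ∑ k ∈ e, |h k₀ k| := Finset.sum_nonneg (fun _ _ => abs_nonneg _)
    have h4 := mul_le_mul (h2 l hl) (h2 k₀ hk₀) h3 (by linarith)
    have h5 := hcoa l k₀
    have h6 : |h l k₀ - co l k₀ - if l = k₀ then 1 else 0| ≤
        |h l k₀ - if l = k₀ then 1 else 0| + |co l k₀| := by
      have e1 : h l k₀ - co l k₀ - (if l = k₀ then 1 else 0) =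
          (h l k₀ - if l = k₀ then 1 else 0) - co l k₀ := by ring
      rw [e1]
      exact abs_sub _ _
    have h7 : (4 * c) * (4 * c) ≤ 2 * c := by nlinarith
    have h8 : 34 * C0 / (m : ℝ) = 34 * c := by rw [hcdef]; ring
    rw [h8]
    linarith
  · -- Hilbert-Schmidt norm
    have h1 : ∀ l ∈ J, ∀ k ∈ J, ((if l ∈ J ∧ k ∈ J then h l k - co l k else 0) -
        if l = k then 1 else 0) ^ 2 ≤ 2 * (h l k - if l = k then 1 else 0) ^ 2 +
          2 * co l k ^ 2 := by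
      intro l hl k hk
      rw [if_pos ⟨hl, hk⟩]
      nlinarith [sq_nonneg ((h l k - if l = k then 1 else 0) + co l k)]
    have h2 : ∑ l ∈ J, ∑ k ∈ J, (h l k - if l = k then 1 else 0) ^ 2 ≤ C0 := by
      refine le_trans ?_ hH.hs
      calc ∑ l ∈ J, ∑ k ∈ J, (h l k - if l = k then 1 else 0) ^ 2
          ≤ ∑ l ∈ J, ∑ k ∈ I, (h l k - if l = k then 1 else 0) ^ 2 :=
            Finset.sum_le_sum (fun l _ => Finset.sum_le_sum_of_subset_of_nonneg hJI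
              (fun _ _ _ => sq_nonneg _))
        _ ≤ ∑ l ∈ I, ∑ k ∈ I, (h l k - if l = k then 1 else 0) ^ 2 :=
            Finset.sum_le_sum_of_subset_of_nonneg hJI
              (fun _ _ _ => Finset.sum_nonneg (fun _ _ => sq_nonneg _))
    calc ∑ l ∈ J, ∑ k ∈ J, ((if l ∈ J ∧ k ∈ J then h l k - co l k else 0) -
          if l = k then 1 else 0) ^ 2
        ≤ ∑ l ∈ J, ∑ k ∈ J, (2 * (h l k - if l = k then 1 else 0) ^ 2 + 2 * co l k ^ 2) :=
          Finset.sum_le_sum (fun l hl => Finset.sum_le_sum (fun k hk => h1 l hl k hk))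
      _ = 2 * (∑ l ∈ J, ∑ k ∈ J, (h l k - if l = k then 1 else 0) ^ 2) +
          2 * ∑ l ∈ J, ∑ k ∈ J, co l k ^ 2 := by
          simp only [Finset.sum_add_distrib, Finset.mul_sum]
      _ ≤ 34 * C0 := by linarith
  · -- operator norm
    intro u
    have hu0 : 0 ≤ ∑ k ∈ J, u k ^ 2 := Finset.sum_nonneg (fun _ _ => sq_nonneg _)
    have h1 : ∀ l ∈ J, (∑ k ∈ J, (if l ∈ J ∧ k ∈ J then h l k - co l k else 0) * u k) ^ 2 ≤
        2 * (∑ k ∈ I, h l k * (if k ∈ J then u k else 0)) ^ 2 +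
          2 * ((∑ k ∈ J, co l k ^ 2) * ∑ k ∈ J, u k ^ 2) := by
      intro l hl
      have e1 : ∑ k ∈ J, (if l ∈ J ∧ k ∈ J then h l k - co l k else 0) * u k =
          (∑ k ∈ I, h l k * (if k ∈ J then u k else 0)) - ∑ k ∈ J, co l k * u k := by
        have e2 : ∑ k ∈ I, h l k * (if k ∈ J then u k else 0) = ∑ k ∈ J, h l k * u k := by
          rw [← Finset.sum_subset hJI (fun k _ hk => by rw [if_neg hk, mul_zero])]
          exact Finset.sum_congr rfl (fun k hk => by rw [if_pos hk])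
        rw [e2, ← Finset.sum_sub_distrib]
        refine Finset.sum_congr rfl (fun k hk => ?_)
        rw [if_pos ⟨hl, hk⟩]
        ring
      have h2 := Finset.sum_mul_sq_le_sq_mul_sq J (fun k => co l k) u
      rw [e1]
      nlinarith [sq_nonneg ((∑ k ∈ I, h l k * (if k ∈ J then u k else 0)) +
        ∑ k ∈ J, co l k * u k)]
    have h2 := hH.op (fun k => if k ∈ J then u k else 0)
    have h3 : ∑ k ∈ I, (if k ∈ J then u k else 0) ^ 2 = ∑ k ∈ J, u k ^ 2 := by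
      rw [← Finset.sum_subset hJI (fun k _ hk => by rw [if_neg hk]; norm_num)]
      exact Finset.sum_congr rfl (fun k hk => by rw [if_pos hk])
    have h2' : ∑ l ∈ I, (∑ k ∈ I, h l k * (if k ∈ J then u k else 0)) ^ 2 ≤
        C0 * ∑ k ∈ J, u k ^ 2 := by
      rw [← h3]
      exact h2
    have h4 : ∑ l ∈ J, (∑ k ∈ I, h l k * (if k ∈ J then u k else 0)) ^ 2 ≤
        C0 * ∑ k ∈ J, u k ^ 2 :=
      (Finset.sum_le_sum_of_subset_of_nonneg hJI (fun _ _ _ => sq_nonneg _)).trans h2'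
    have h5 := mul_le_mul_of_nonneg_right hcoT hu0
    have h6 := mul_le_mul_of_nonneg_right hC0 hu0
    calc ∑ l ∈ J, (∑ k ∈ J, (if l ∈ J ∧ k ∈ J then h l k - co l k else 0) * u k) ^ 2
        ≤ ∑ l ∈ J, (2 * (∑ k ∈ I, h l k * (if k ∈ J then u k else 0)) ^ 2 +
          2 * ((∑ k ∈ J, co l k ^ 2) * ∑ k ∈ J, u k ^ 2)) := Finset.sum_le_sum h1
      _ = 2 * (∑ l ∈ J, (∑ k ∈ I, h l k * (if k ∈ J then u k else 0)) ^ 2) +
          2 * ((∑ l ∈ J, ∑ k ∈ J, co l k ^ 2) * ∑ k ∈ J, u k ^ 2) := by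
          rw [Finset.sum_add_distrib, ← Finset.mul_sum, ← Finset.mul_sum, ← Finset.sum_mul]
      _ ≤ 34 * C0 * ∑ k ∈ J, u k ^ 2 := by linarith
  · -- the trace
    intro E B hB hE hEB
    have e1 : ∑ l ∈ J, ∑ l' ∈ J, ((if l ∈ J ∧ l' ∈ J then h l l' - co l l' else 0) - h l l') *
        E l' l = -∑ k ∈ e, ∑ k' ∈ e, q k k' * ∑ l ∈ J, ∑ l' ∈ J, h l k * h l' k' * E l' l := by
      have e2 : ∀ l ∈ J, ∀ l' ∈ J, ((if l ∈ J ∧ l' ∈ J then h l l' - co l l' else 0) - h l l') *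
          E l' l = -∑ k ∈ e, ∑ k' ∈ e, q k k' * (h l k * h l' k' * E l' l) := by
        intro l hl l' hl'
        rw [if_pos ⟨hl, hl'⟩]
        have e3 : co l l' * E l' l = ∑ k ∈ e, ∑ k' ∈ e, q k k' * (h l k * h l' k' * E l' l) := by
          rw [hco, Finset.sum_mul]
          refine Finset.sum_congr rfl (fun k _ => ?_)
          rw [Finset.sum_mul]
          refine Finset.sum_congr rfl (fun k' _ => ?_)
          rw [hH.sy k' l']
          ring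
        rw [← e3]
        ring
      rw [Finset.sum_congr rfl (fun l hl => Finset.sum_congr rfl (fun l' hl' => e2 l hl l' hl'))]
      simp only [Finset.sum_neg_distrib]
      congr 1
      have e4 : ∀ l, ∑ l' ∈ J, ∑ k ∈ e, ∑ k' ∈ e, q k k' * (h l k * h l' k' * E l' l) =
          ∑ k ∈ e, ∑ k' ∈ e, ∑ l' ∈ J, q k k' * (h l k * h l' k' * E l' l) := by
        intro l
        rw [Finset.sum_comm]
        refine Finset.sum_congr rfl (fun k _ => ?_)
        rw [Finset.sum_comm]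
      rw [Finset.sum_congr rfl (fun l _ => e4 l), Finset.sum_comm]
      refine Finset.sum_congr rfl (fun k _ => ?_)
      rw [Finset.sum_comm]
      refine Finset.sum_congr rfl (fun k' _ => ?_)
      simp only [Finset.mul_sum]
    have h1 : ∀ k ∈ e, ∀ k' ∈ e, |∑ l ∈ J, ∑ l' ∈ J, h l k * h l' k' * E l' l| ≤ B * c := by
      intro k hk k' hk'
      have h2 : ∀ l l', |h l k * h l' k' * E l' l| ≤
          (1 / 2) * (h l k ^ 2 * |E l' l|) + (1 / 2) * (h l' k' ^ 2 * |E l' l|) := by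
        intro l l'
        rw [abs_mul, abs_mul]
        have h3 : |h l k| * |h l' k'| ≤ (1 / 2) * h l k ^ 2 + (1 / 2) * h l' k' ^ 2 := by
          rw [← sq_abs (h l k), ← sq_abs (h l' k')]
          nlinarith [sq_nonneg (|h l k| - |h l' k'|)]
        have h4 := mul_le_mul_of_nonneg_right h3 (abs_nonneg (E l' l))
        linarith
      have h5 : ∑ l ∈ J, ∑ l' ∈ J, h l k ^ 2 * |E l' l| ≤ c * B := by
        calc ∑ l ∈ J, ∑ l' ∈ J, h l k ^ 2 * |E l' l| ≤ ∑ l ∈ J, h l k ^ 2 * B := by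
              refine Finset.sum_le_sum (fun l hl => ?_)
              rw [← Finset.mul_sum]
              refine mul_le_mul_of_nonneg_left ?_ (sq_nonneg _)
              have := hEB l hl
              rwa [Finset.sum_congr rfl (fun l' _ => by rw [hE l l'])] at this
          _ = (∑ l ∈ J, h l k ^ 2) * B := by rw [Finset.sum_mul]
          _ ≤ c * B := mul_le_mul_of_nonneg_right (hcol k hk) hB
      have h6 : ∑ l ∈ J, ∑ l' ∈ J, h l' k' ^ 2 * |E l' l| ≤ c * B := by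
        rw [Finset.sum_comm]
        calc ∑ l' ∈ J, ∑ l ∈ J, h l' k' ^ 2 * |E l' l| ≤ ∑ l' ∈ J, h l' k' ^ 2 * B := by
              refine Finset.sum_le_sum (fun l' hl' => ?_)
              rw [← Finset.mul_sum]
              exact mul_le_mul_of_nonneg_left (hEB l' hl') (sq_nonneg _)
          _ = (∑ l' ∈ J, h l' k' ^ 2) * B := by rw [Finset.sum_mul]
          _ ≤ c * B := mul_le_mul_of_nonneg_right (hcol k' hk') hB
      calc |∑ l ∈ J, ∑ l' ∈ J, h l k * h l' k' * E l' l|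
          ≤ ∑ l ∈ J, ∑ l' ∈ J, |h l k * h l' k' * E l' l| :=
            (Finset.abs_sum_le_sum_abs _ _).trans (Finset.sum_le_sum (fun l _ =>
              Finset.abs_sum_le_sum_abs _ _))
        _ ≤ ∑ l ∈ J, ∑ l' ∈ J, ((1 / 2) * (h l k ^ 2 * |E l' l|) +
            (1 / 2) * (h l' k' ^ 2 * |E l' l|)) :=
            Finset.sum_le_sum (fun l _ => Finset.sum_le_sum (fun l' _ => h2 l l'))
        _ = (1 / 2) * (∑ l ∈ J, ∑ l' ∈ J, h l k ^ 2 * |E l' l|) +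
            (1 / 2) * ∑ l ∈ J, ∑ l' ∈ J, h l' k' ^ 2 * |E l' l| := by
            simp only [Finset.sum_add_distrib, Finset.mul_sum]
        _ ≤ B * c := by linarith
    show |∑ l ∈ J, ∑ l' ∈ J, ((if l ∈ J ∧ l' ∈ J then h l l' - co l l' else 0) - h l l') *
        E l' l| ≤ 34 * C0 * B / m
    rw [e1, abs_neg]
    have hBc : 0 ≤ B * c := mul_nonneg hB hc0
    have h2 : ∀ k ∈ e, ∀ k' ∈ e, |q k k' * ∑ l ∈ J, ∑ l' ∈ J, h l k * h l' k' * E l' l| ≤
        2 * (B * c) := by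
      intro k hk k' hk'
      rw [abs_mul]
      exact mul_le_mul (hqb k hk k' hk') (h1 k hk k' hk') (abs_nonneg _) (by norm_num)
    have h3 : |∑ k ∈ e, ∑ k' ∈ e, q k k' * ∑ l ∈ J, ∑ l' ∈ J, h l k * h l' k' * E l' l| ≤
        ∑ _k ∈ e, ∑ _k' ∈ e, 2 * (B * c) :=
      (Finset.abs_sum_le_sum_abs _ _).trans (Finset.sum_le_sum (fun k hk =>
        (Finset.abs_sum_le_sum_abs _ _).trans (Finset.sum_le_sum (fun k' hk' => h2 k hk k' hk'))))
    rw [Finset.sum_const, Finset.sum_const, nsmul_eq_mul, nsmul_eq_mul] at h3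
    have h4 : (e.card : ℝ) * ((e.card : ℝ) * (2 * (B * c))) ≤ 4 * (4 * (2 * (B * c))) := by
      have h5 : (e.card : ℝ) * (2 * (B * c)) ≤ 4 * (2 * (B * c)) :=
        mul_le_mul_of_nonneg_right hcR (by linarith)
      have h6 : 0 ≤ (e.card : ℝ) * (2 * (B * c)) := mul_nonneg (Nat.cast_nonneg _) (by linarith)
      exact mul_le_mul hcR h5 h6 (by norm_num)
    have h8 : 34 * C0 * B / (m : ℝ) = 34 * (B * c) := by rw [hcdef]; ring
    rw [h8]
    linarith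

end Pool.Agent.NQF
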