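import Pool.Agent.NQF.Defs

/-!
# NQF-SSma: logarithm of a small determinant close to one

Expansion of the determinant; the permutations different from the identity move two elements.
-/

set_option autoImplicit false

open Finset

namespace Pool.Agent.NQF

open Pool.Agent.NQ (board dsum F Ent Dg phi ln Q Qset QS NonAtt bern)
open Pool.Agent.NQR (Adm Opt Bd Rf hS hD hh InR)
open Pool.Agent.NQL

private theorem ssma_prod {β : Type} [DecidableEq β] (s : Finset β) (d : β → ℝ) {ε : ℝ} (hε : 0 ≤ ε)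
    (hd : ∀ i ∈ s, |d i| ≤ ε) :
    |∏ i ∈ s, (1 + d i) - 1 - ∑ i ∈ s, d i| ≤ (1 + ε) ^ s.card - 1 - s.card * ε ∧
      |∑ i ∈ s, d i| ≤ s.card * ε := by
  induction s using Finset.induction_on with
  | empty => simp
  | insert a s ha ih =>
    obtain ⟨ih1, ih2⟩ := ih (fun i hi => hd i (mem_insert_of_mem hi))
    have hda := hd a (mem_insert_self a s)
    rw [prod_insert ha, sum_insert ha, card_insert_of_notMem ha]
    set P := ∏ i ∈ s, (1 + d i)
    set T := ∑ i ∈ s, d i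
    have hk : (0 : ℝ) ≤ s.card := Nat.cast_nonneg _
    constructor
    · have e1 : (1 + d a) * P - 1 - (d a + T) = (P - 1 - T) * (1 + d a) + d a * T := by ring
      rw [e1]
      have h1 : |(P - 1 - T) * (1 + d a)| ≤ ((1 + ε) ^ s.card - 1 - s.card * ε) * (1 + ε) := by
        rw [abs_mul]
        have h2 : |1 + d a| ≤ 1 + ε := by
          calc |1 + d a| ≤ |(1 : ℝ)| + |d a| := abs_add_le _ _
            _ ≤ 1 + ε := by rw [abs_one]; linarith
        exact mul_le_mul ih1 h2 (abs_nonneg _) ((abs_nonneg _).trans ih1)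
      have h3 : |d a * T| ≤ ε * (s.card * ε) := by
        rw [abs_mul]
        exact mul_le_mul hda ih2 (abs_nonneg _) hε
      calc |(P - 1 - T) * (1 + d a) + d a * T|
          ≤ |(P - 1 - T) * (1 + d a)| + |d a * T| := abs_add_le _ _
        _ ≤ ((1 + ε) ^ s.card - 1 - s.card * ε) * (1 + ε) + ε * (s.card * ε) := add_le_add h1 h3
        _ = (1 + ε) ^ (s.card + 1) - 1 - ((s.card + 1 : ℕ) : ℝ) * ε := by
          push_cast
          ring
    · calc |d a + T| ≤ |d a| + |T| := abs_add_le _ _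
        _ ≤ ε + s.card * ε := add_le_add hda ih2
        _ = ((s.card + 1 : ℕ) : ℝ) * ε := by
          push_cast
          ring

private theorem ssma_perm {β : Type} [DecidableEq β] [Fintype β] (hc : Fintype.card β ≤ 4)
    (M : Matrix β β ℝ) {ε : ℝ} (hε : 0 ≤ ε) (hd : ∀ i, |M i i - 1| ≤ ε)
    (ho : ∀ i j, i ≠ j → |M i j| ≤ ε) (σ : Equiv.Perm β) (hσ : σ ≠ 1) :
    |((Equiv.Perm.sign σ : ℤ) : ℝ) * ∏ i, M (σ i) i| ≤ ε ^ 2 * (1 + ε) ^ 4 := by
  have hs : |((Equiv.Perm.sign σ : ℤ) : ℝ)| = 1 := by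
    rcases Int.units_eq_one_or (Equiv.Perm.sign σ) with h | h
    · rw [h]; simp
    · rw [h]; simp
  rw [abs_mul, hs, one_mul, abs_prod]
  obtain ⟨i, hi⟩ : ∃ i, σ i ≠ i := by
    by_contra hcon
    push Not at hcon
    exact hσ (Equiv.ext hcon)
  have hj : σ (σ i) ≠ σ i := fun h => hi (σ.injective h)
  rw [← mul_prod_erase univ _ (mem_univ i)]
  have hji : σ i ∈ univ.erase i := mem_erase.2 ⟨hi, mem_univ _⟩
  rw [← mul_prod_erase (univ.erase i) _ hji]
  have hent : ∀ k l, |M k l| ≤ 1 + ε := by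
    intro k l
    by_cases hkl : k = l
    · rw [hkl]
      have e1 : M l l = (M l l - 1) + 1 := by ring
      rw [e1]
      calc |M l l - 1 + 1| ≤ |M l l - 1| + |(1 : ℝ)| := abs_add_le _ _
        _ ≤ ε + 1 := by rw [abs_one]; linarith [hd l]
        _ = 1 + ε := by ring
    · linarith [ho k l hkl]
  have hrest : ∏ k ∈ (univ.erase i).erase (σ i), |M (σ k) k| ≤ (1 + ε) ^ 4 := by
    calc ∏ k ∈ (univ.erase i).erase (σ i), |M (σ k) k|
        ≤ ∏ _k ∈ (univ.erase i).erase (σ i), (1 + ε) :=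
          prod_le_prod (fun k _ => abs_nonneg _) (fun k _ => hent _ _)
      _ = (1 + ε) ^ ((univ.erase i).erase (σ i)).card := prod_const _
      _ ≤ (1 + ε) ^ 4 := by
          refine pow_le_pow_right₀ (by linarith) ?_
          refine le_trans (card_le_univ _) hc
  have h1 : |M (σ i) i| ≤ ε := ho _ _ hi
  have h2 : |M (σ (σ i)) (σ i)| ≤ ε := ho _ _ hj
  have h0 : 0 ≤ ∏ k ∈ (univ.erase i).erase (σ i), |M (σ k) k| := prod_nonneg (fun k _ => abs_nonneg _)
  calc |M (σ i) i| * (|M (σ (σ i)) (σ i)| * ∏ k ∈ (univ.erase i).erase (σ i), |M (σ k) k|)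
      ≤ ε * (ε * (1 + ε) ^ 4) := by
        refine mul_le_mul h1 ?_ (by positivity) hε
        exact mul_le_mul h2 hrest h0 hε
    _ = ε ^ 2 * (1 + ε) ^ 4 := by ring

private theorem ssma_det {β : Type} [DecidableEq β] [Fintype β] (hc : Fintype.card β ≤ 4)
    (M : Matrix β β ℝ) {ε : ℝ} (hε : 0 ≤ ε) (hε1 : ε ≤ 1 / 50) (hd : ∀ i, |M i i - 1| ≤ ε)
    (ho : ∀ i j, i ≠ j → |M i j| ≤ ε) :
    |M.det - 1 - ∑ i, (M i i - 1)| ≤ 33 * ε ^ 2 ∧ |∑ i, (M i i - 1)| ≤ 4 * ε := by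
  have hp := ssma_prod (univ : Finset β) (fun i => M i i - 1) hε (fun i _ => hd i)
  have hcard : (univ : Finset β).card = Fintype.card β := card_univ
  rw [hcard] at hp
  obtain ⟨hp1, hp2⟩ := hp
  have hc' : (Fintype.card β : ℝ) ≤ 4 := by exact_mod_cast hc
  have hsum : |∑ i, (M i i - 1)| ≤ 4 * ε :=
    hp2.trans (mul_le_mul_of_nonneg_right hc' hε)
  have hp3 : (1 + ε) ^ (Fintype.card β) - 1 - (Fintype.card β : ℝ) * ε ≤ 7 * ε ^ 2 := by
    have hn : Fintype.card β = 0 ∨ Fintype.card β = 1 ∨ Fintype.card β = 2 ∨ Fintype.card β = 3 ∨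
        Fintype.card β = 4 := by omega
    rcases hn with h | h | h | h | h
    · rw [h]; push_cast; nlinarith [sq_nonneg ε]
    · rw [h]; push_cast; nlinarith [sq_nonneg ε]
    · rw [h]; push_cast; nlinarith [sq_nonneg ε]
    · rw [h]; push_cast
      have : ε ^ 3 ≤ 1 / 50 * ε ^ 2 := by nlinarith [sq_nonneg ε]
      nlinarith [sq_nonneg ε]
    · rw [h]; push_cast
      have h3 : ε ^ 3 ≤ 1 / 50 * ε ^ 2 := by nlinarith [sq_nonneg ε]
      have h4 : ε ^ 4 ≤ 1 / 50 * ε ^ 2 := by nlinarith [sq_nonneg ε, pow_nonneg hε 3]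
      nlinarith [sq_nonneg ε]
  refine ⟨?_, hsum⟩
  have hone : ((Equiv.Perm.sign (1 : Equiv.Perm β) : ℤ) : ℝ) * ∏ i, M ((1 : Equiv.Perm β) i) i =
      ∏ i, (1 + (M i i - 1)) := by
    simp
  have hdet : M.det = ∏ i, (1 + (M i i - 1)) + ∑ σ ∈ (univ : Finset (Equiv.Perm β)).erase 1,
      ((Equiv.Perm.sign σ : ℤ) : ℝ) * ∏ i, M (σ i) i := by
    rw [Matrix.det_apply', ← hone]
    exact (add_sum_erase univ _ (mem_univ (1 : Equiv.Perm β))).symm
  have hfac : ((univ : Finset (Equiv.Perm β)).erase 1).card ≤ 24 := by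
    refine (card_le_card (erase_subset _ _)).trans ?_
    rw [card_univ, Fintype.card_perm]
    exact Nat.factorial_le hc
  have h14 : (1 + ε) ^ 4 ≤ 13 / 12 := by
    calc (1 + ε) ^ 4 ≤ (1 + 1 / 50) ^ 4 := by
          refine pow_le_pow_left₀ (by linarith) (by linarith) 4
      _ ≤ 13 / 12 := by norm_num
  have hrest : |∑ σ ∈ (univ : Finset (Equiv.Perm β)).erase 1,
      ((Equiv.Perm.sign σ : ℤ) : ℝ) * ∏ i, M (σ i) i| ≤ 26 * ε ^ 2 := by
    calc _ ≤ ∑ σ ∈ (univ : Finset (Equiv.Perm β)).erase 1,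
        |((Equiv.Perm.sign σ : ℤ) : ℝ) * ∏ i, M (σ i) i| := abs_sum_le_sum_abs _ _
      _ ≤ ∑ _σ ∈ (univ : Finset (Equiv.Perm β)).erase 1, ε ^ 2 * (1 + ε) ^ 4 :=
        sum_le_sum (fun σ hσ => ssma_perm hc M hε hd ho σ (mem_erase.1 hσ).1)
      _ = (((univ : Finset (Equiv.Perm β)).erase 1).card : ℝ) * (ε ^ 2 * (1 + ε) ^ 4) := by
        rw [sum_const, nsmul_eq_mul]
      _ ≤ 24 * (ε ^ 2 * (13 / 12)) := by
        refine mul_le_mul (by exact_mod_cast hfac) ?_ (by positivity) (by norm_num)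
        exact mul_le_mul_of_nonneg_left h14 (sq_nonneg ε)
      _ = 26 * ε ^ 2 := by ring
  have e1 : M.det - 1 - ∑ i, (M i i - 1) = (∏ i, (1 + (M i i - 1)) - 1 - ∑ i, (M i i - 1)) +
      ∑ σ ∈ (univ : Finset (Equiv.Perm β)).erase 1,
        ((Equiv.Perm.sign σ : ℤ) : ℝ) * ∏ i, M (σ i) i := by
    rw [hdet]; ring
  rw [e1]
  calc _ ≤ |∏ i, (1 + (M i i - 1)) - 1 - ∑ i, (M i i - 1)| + _ := abs_add_le _ _
    _ ≤ 7 * ε ^ 2 + 26 * ε ^ 2 := add_le_add (hp1.trans hp3) hrest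
    _ = 33 * ε ^ 2 := by ring

private theorem ssma_log {y : ℝ} (hy : |y| ≤ 1 / 2) : |Real.log (1 + y) - y| ≤ 2 * y ^ 2 := by
  have h1 : |(-y)| < 1 := by rw [abs_neg]; linarith
  have h2 := Real.abs_log_sub_add_sum_range_le h1 1
  simp only [sum_range_one, Nat.cast_zero, zero_add, pow_one, div_one, sub_neg_eq_add, abs_neg] at h2
  have h3 : -y + Real.log (1 + y) = Real.log (1 + y) - y := by ring
  rw [h3] at h2
  refine h2.trans ?_
  have h4 : 0 < 1 - |y| := by linarith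
  rw [div_le_iff₀ h4, ← sq_abs y]
  have h5 : (0 : ℝ) ≤ 1 - 2 * |y| := by linarith
  have h6 := mul_nonneg (sq_nonneg (|y|)) h5
  calc |y| ^ (1 + 1) = |y| ^ 2 := by norm_num
    _ ≤ 2 * |y| ^ 2 * (1 - |y|) := by nlinarith

theorem ld_small {α : Type} [DecidableEq α] {e : Finset α} (hc : e.card ≤ 4) {h : α → α → ℝ} {ε : ℝ}
    (hε : 0 ≤ ε) (hε1 : ε ≤ 1 / 50) (hb : ∀ k ∈ e, ∀ k' ∈ e, |h k k' - if k = k' then 1 else 0| ≤ ε) :
    |LD e h - ∑ k ∈ e, (h k k - 1)| ≤ 200 * ε ^ 2 := by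
  have hcard : Fintype.card e ≤ 4 := by rw [Fintype.card_coe]; exact hc
  have hd : ∀ i : e, |(Matrix.of (fun i j : e => h i j)) i i - 1| ≤ ε := by
    intro i
    have := hb i i.2 i i.2
    rw [if_pos rfl] at this
    exact this
  have ho : ∀ i j : e, i ≠ j → |(Matrix.of (fun i j : e => h i j)) i j| ≤ ε := by
    intro i j hij
    have := hb i i.2 j j.2
    rw [if_neg (fun hh => hij (Subtype.ext hh)), sub_zero] at this
    exact this
  obtain ⟨h1, h2⟩ := ssma_det hcard (Matrix.of (fun i j : e => h i j)) hε hε1 hd ho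
  have hsum : ∑ k ∈ e, (h k k - 1) = ∑ i : e, ((Matrix.of (fun i j : e => h i j)) i i - 1) :=
    (sum_coe_sort e (fun k => h k k - 1)).symm
  unfold LD
  rw [hsum]
  set D := (Matrix.of (fun i j : e => h i j)).det with hD
  set T := ∑ i : e, ((Matrix.of (fun i j : e => h i j)) i i - 1) with hT
  have h3 : |D - 1| ≤ 5 * ε := by
    have e1 : D - 1 = (D - 1 - T) + T := by ring
    rw [e1]
    calc |D - 1 - T + T| ≤ |D - 1 - T| + |T| := abs_add_le _ _
      _ ≤ 33 * ε ^ 2 + 4 * ε := add_le_add h1 h2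
      _ ≤ 5 * ε := by nlinarith
  have h4 : |D - 1| ≤ 1 / 2 := by linarith
  have h5 := ssma_log h4
  have h6 : 1 + (D - 1) = D := by ring
  rw [h6] at h5
  have h7 : (D - 1) ^ 2 ≤ 25 * ε ^ 2 := by
    rw [← sq_abs]
    calc |D - 1| ^ 2 ≤ (5 * ε) ^ 2 := pow_le_pow_left₀ (abs_nonneg _) h3 2
      _ = 25 * ε ^ 2 := by ring
  have e2 : Real.log D - T = (Real.log D - (D - 1)) + (D - 1 - T) := by ring
  rw [e2]
  calc |Real.log D - (D - 1) + (D - 1 - T)| ≤ |Real.log D - (D - 1)| + |D - 1 - T| := abs_add_le _ _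
    _ ≤ 2 * (D - 1) ^ 2 + 33 * ε ^ 2 := add_le_add h5 h1
    _ ≤ 200 * ε ^ 2 := by nlinarith [sq_nonneg ε]

end Pool.Agent.NQF
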