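import Pool.Agent.NQF.Defs
import Pool.Agent.NQF.SDef
import Pool.Agent.NQF.SJac
import Pool.Agent.NQF.SSma
import Pool.Agent.NQF.SPrt
import Pool.Agent.NQF.SRes

/-!
# NQF-SDet: determinant after the removal of a few lines and a small perturbation
-/

set_option autoImplicit false

open Finset

namespace Pool.Agent.NQF

open Pool.Agent.NQ (board dsum F Ent Dg phi ln Q Qset QS NonAtt bern)
open Pool.Agent.NQR (Adm Opt Bd Rf hS hD hh InR)
open Pool.Agent.NQL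

section

variable {ι : Type} [Fintype ι] [DecidableEq ι]

/-- square of the Hilbert-Schmidt norm -/
private def hsn (X : Matrix ι ι ℝ) : ℝ := ∑ i, ∑ j, X i j ^ 2

private theorem tr_mul_le (X Y : Matrix ι ι ℝ) {a b : ℝ} (ha : 0 ≤ a) (hb : 0 ≤ b)
    (hX : hsn X ≤ a ^ 2) (hY : hsn Y ≤ b ^ 2) : |(X * Y).trace| ≤ a * b := by
  have h1 : (X * Y).trace = ∑ p : ι × ι, X p.1 p.2 * Y p.2 p.1 := by
    rw [Fintype.sum_prod_type]
    simp only [Matrix.trace, Matrix.diag, Matrix.mul_apply]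
  have h2 : hsn X = ∑ p : ι × ι, X p.1 p.2 ^ 2 := by rw [Fintype.sum_prod_type]; rfl
  have h3 : hsn Y = ∑ p : ι × ι, Y p.2 p.1 ^ 2 := by
    rw [Fintype.sum_prod_type, Finset.sum_comm]; rfl
  have h4 := Finset.sum_mul_sq_le_sq_mul_sq (Finset.univ : Finset (ι × ι)) (fun p => X p.1 p.2)
    (fun p => Y p.2 p.1)
  rw [h1]
  refine abs_le_of_sq_le_sq ?_ (mul_nonneg ha hb)
  refine h4.trans ?_
  rw [← h2, ← h3, mul_pow]
  have h5 : 0 ≤ hsn Y := Finset.sum_nonneg fun i _ => Finset.sum_nonneg fun j _ => sq_nonneg _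
  exact mul_le_mul hX hY h5 (sq_nonneg a)

private theorem op_le {E : Matrix ι ι ℝ} {B : ℝ} (hB : 0 ≤ B) (hsy : ∀ i j, E i j = E j i)
    (hr : ∀ i, ∑ j, |E i j| ≤ B) (u : ι → ℝ) :
    ∑ i, (∑ j, E i j * u j) ^ 2 ≤ B ^ 2 * ∑ j, u j ^ 2 := by
  have h1 : ∀ i, (∑ j, E i j * u j) ^ 2 ≤ B * ∑ j, |E i j| * u j ^ 2 := by
    intro i
    have h2 := Finset.sum_sq_le_sum_mul_sum_of_sq_eq_mul (Finset.univ : Finset ι)
      (r := fun j => E i j * u j) (f := fun j => |E i j|) (g := fun j => |E i j| * u j ^ 2)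
      (fun j _ => abs_nonneg _) (fun j _ => mul_nonneg (abs_nonneg _) (sq_nonneg _))
      (fun j _ => by
        rw [mul_pow, ← mul_assoc, ← sq, sq_abs])
    refine h2.trans (mul_le_mul_of_nonneg_right (hr i) ?_)
    exact Finset.sum_nonneg fun j _ => mul_nonneg (abs_nonneg _) (sq_nonneg _)
  calc ∑ i, (∑ j, E i j * u j) ^ 2 ≤ ∑ i, B * ∑ j, |E i j| * u j ^ 2 :=
        Finset.sum_le_sum fun i _ => h1 i
    _ = B * ∑ j, (∑ i, |E j i|) * u j ^ 2 := by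
        rw [← Finset.mul_sum, Finset.sum_comm]
        congr 1
        refine Finset.sum_congr rfl fun j _ => ?_
        rw [Finset.sum_mul]
        exact Finset.sum_congr rfl fun i _ => by rw [hsy i j]
    _ ≤ B * ∑ j, B * u j ^ 2 :=
        mul_le_mul_of_nonneg_left
          (Finset.sum_le_sum fun j _ => mul_le_mul_of_nonneg_right (hr j) (sq_nonneg _)) hB
    _ = B ^ 2 * ∑ j, u j ^ 2 := by rw [← Finset.mul_sum]; ring

private theorem hs_left {E : Matrix ι ι ℝ} {B : ℝ} (hB : 0 ≤ B) (hsy : ∀ i j, E i j = E j i)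
    (hr : ∀ i, ∑ j, |E i j| ≤ B) (X : Matrix ι ι ℝ) : hsn (E * X) ≤ B ^ 2 * hsn X := by
  have h1 : hsn (E * X) = ∑ k, ∑ i, (∑ j, E i j * X j k) ^ 2 := by
    rw [Finset.sum_comm]
    simp only [hsn, Matrix.mul_apply]
  have h2 : hsn X = ∑ k, ∑ j, X j k ^ 2 := by rw [Finset.sum_comm]; rfl
  rw [h1, h2, Finset.mul_sum]
  exact Finset.sum_le_sum fun k _ => op_le hB hsy hr (fun j => X j k)

private theorem hs_right {E : Matrix ι ι ℝ} {B : ℝ} (hB : 0 ≤ B) (hsy : ∀ i j, E i j = E j i)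
    (hr : ∀ i, ∑ j, |E i j| ≤ B) (X : Matrix ι ι ℝ) : hsn (X * E) ≤ B ^ 2 * hsn X := by
  have h1 : hsn (X * E) = ∑ i, ∑ k, (∑ j, E k j * X i j) ^ 2 := by
    simp only [hsn, Matrix.mul_apply]
    refine Finset.sum_congr rfl fun i _ => Finset.sum_congr rfl fun k _ => ?_
    congr 1
    exact Finset.sum_congr rfl fun j _ => by rw [hsy j k, mul_comm]
  rw [h1, hsn, Finset.mul_sum]
  exact Finset.sum_le_sum fun i _ => op_le hB hsy hr (fun j => X i j)

private theorem tr_kee {k E : Matrix ι ι ℝ} {c b S : ℝ} (hc : 0 ≤ c)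
    (hk : ∀ i j, |k i j| ≤ c) (hr : ∀ i, ∑ j, |E i j| ≤ b) (hS : ∑ i, ∑ j, |E i j| ≤ S)
    (hb : 0 ≤ b) : |(k * E * E).trace| ≤ c * (b * S) := by
  have h1 : (k * E * E).trace = ∑ i, ∑ l, ∑ j, k i j * E j l * E l i := by
    simp only [Matrix.trace, Matrix.diag, Matrix.mul_apply, Finset.sum_mul]
  rw [h1]
  calc |∑ i, ∑ l, ∑ j, k i j * E j l * E l i| ≤ ∑ i, ∑ l, ∑ j, c * |E j l| * |E l i| := by
        refine (Finset.abs_sum_le_sum_abs _ _).trans (Finset.sum_le_sum fun i _ => ?_)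
        refine (Finset.abs_sum_le_sum_abs _ _).trans (Finset.sum_le_sum fun l _ => ?_)
        refine (Finset.abs_sum_le_sum_abs _ _).trans (Finset.sum_le_sum fun j _ => ?_)
        rw [abs_mul, abs_mul]
        exact mul_le_mul_of_nonneg_right (mul_le_mul_of_nonneg_right (hk i j) (abs_nonneg _))
          (abs_nonneg _)
    _ = c * ∑ l, (∑ j, |E j l|) * ∑ i, |E l i| := by
        rw [Finset.sum_comm, Finset.mul_sum]
        refine Finset.sum_congr rfl fun l _ => ?_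
        rw [Finset.sum_mul_sum, Finset.sum_comm, Finset.mul_sum]
        refine Finset.sum_congr rfl fun j _ => ?_
        rw [Finset.mul_sum]
        exact Finset.sum_congr rfl fun i _ => by ring
    _ ≤ c * ∑ l, (∑ j, |E j l|) * b := by
        refine mul_le_mul_of_nonneg_left (Finset.sum_le_sum fun l _ => ?_) hc
        exact mul_le_mul_of_nonneg_left (hr l) (Finset.sum_nonneg fun j _ => abs_nonneg _)
    _ = c * (b * ∑ i, ∑ j, |E i j|) := by
        rw [← Finset.sum_mul, Finset.sum_comm, mul_comm b]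
    _ ≤ c * (b * S) := mul_le_mul_of_nonneg_left (mul_le_mul_of_nonneg_left hS hb) hc

/-- the quadratic term -/
private theorem quad_term {k E1 E2 : Matrix ι ι ℝ} {C0 K m : ℝ} (hC0 : 1 ≤ C0) (hK : 1 ≤ K)
    (hm : 0 < m) (hk : ∀ i j, |k i j| ≤ K / m) (hkh : hsn k ≤ K)
    (hs1 : ∀ i j, E1 i j = E1 j i) (hs2 : ∀ i j, E2 i j = E2 j i)
    (hr1 : ∀ i, ∑ j, |E1 i j| ≤ C0 / m) (hr2 : ∀ i, ∑ j, |E2 i j| ≤ C0 / m)
    (hS : ∑ i, ∑ j, |E1 i j| ≤ C0) (hh2 : hsn E2 ≤ C0 / m ^ 2)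
    (h12 : |∑ i, ∑ j, E1 i j * E2 i j| ≤ C0 / m ^ 2) :
    |((1 + k) * (E1 + E2) * ((1 + k) * (E1 + E2))).trace - hsn E1| ≤
      (3 * C0 + 8 * K * C0 ^ 2 + 4 * C0 ^ 2 * K ^ 2) / m ^ 2 := by
  have hb : 0 ≤ C0 / m := by positivity
  have hK0 : 0 ≤ K := by linarith
  have hkh' : hsn k ≤ K ^ 2 := hkh.trans (by nlinarith)
  have hh2' : hsn E2 ≤ (C0 / m) ^ 2 := hh2.trans (by
    rw [div_pow]
    exact div_le_div_of_nonneg_right (by nlinarith) (by positivity))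
  have hrE : ∀ i, ∑ j, |(E1 + E2) i j| ≤ 2 * (C0 / m) := by
    intro i
    calc ∑ j, |(E1 + E2) i j| ≤ ∑ j, (|E1 i j| + |E2 i j|) :=
          Finset.sum_le_sum fun j _ => by rw [Matrix.add_apply]; exact abs_add_le _ _
      _ = ∑ j, |E1 i j| + ∑ j, |E2 i j| := Finset.sum_add_distrib
      _ ≤ 2 * (C0 / m) := by linarith [hr1 i, hr2 i]
  have hsE : ∀ i j, (E1 + E2) i j = (E1 + E2) j i := fun i j => by
    rw [Matrix.add_apply, Matrix.add_apply, hs1 i j, hs2 i j]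
  -- the algebra
  have halg : ((1 + k) * (E1 + E2) * ((1 + k) * (E1 + E2))).trace =
      (E1 * E1).trace + 2 * (E1 * E2).trace + (E2 * E2).trace +
      2 * ((k * E1 * E1).trace + (k * E1 * E2).trace + ((E1 + E2) * k * E2).trace) +
      (k * (E1 + E2) * (k * (E1 + E2))).trace := by
    have e1 : (1 + k) * (E1 + E2) * ((1 + k) * (E1 + E2)) =
        E1 * E1 + E1 * E2 + E2 * E1 + E2 * E2 + (E1 + E2) * (k * (E1 + E2)) +
        k * (E1 + E2) * (E1 + E2) + k * (E1 + E2) * (k * (E1 + E2)) := by noncomm_ring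
    have e2 : ((E1 + E2) * (k * (E1 + E2))).trace = (k * (E1 + E2) * (E1 + E2)).trace :=
      Matrix.trace_mul_comm _ _
    have e3 : k * (E1 + E2) * (E1 + E2) = k * E1 * E1 + k * E1 * E2 + k * E2 * (E1 + E2) := by
      noncomm_ring
    have e4 : (k * E2 * (E1 + E2)).trace = ((E1 + E2) * k * E2).trace := by
      rw [Matrix.trace_mul_comm, ← Matrix.mul_assoc]
    have e5 : (E2 * E1).trace = (E1 * E2).trace := Matrix.trace_mul_comm _ _
    rw [e1]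
    simp only [Matrix.trace_add, e2]
    rw [e3]
    simp only [Matrix.trace_add, e4, e5]
    ring
  have t11 : (E1 * E1).trace = hsn E1 := by
    simp only [Matrix.trace, Matrix.diag, Matrix.mul_apply, hsn]
    exact Finset.sum_congr rfl fun i _ => Finset.sum_congr rfl fun j _ => by
      rw [hs1 j i]; ring
  have t22 : (E2 * E2).trace = hsn E2 := by
    simp only [Matrix.trace, Matrix.diag, Matrix.mul_apply, hsn]
    exact Finset.sum_congr rfl fun i _ => Finset.sum_congr rfl fun j _ => by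
      rw [hs2 j i]; ring
  have t12 : (E1 * E2).trace = ∑ i, ∑ j, E1 i j * E2 i j := by
    simp only [Matrix.trace, Matrix.diag, Matrix.mul_apply]
    exact Finset.sum_congr rfl fun i _ => Finset.sum_congr rfl fun j _ => by
      rw [hs2 j i]
  have b22 : |(E2 * E2).trace| ≤ C0 / m ^ 2 := by
    rw [t22, abs_of_nonneg (Finset.sum_nonneg fun i _ => Finset.sum_nonneg fun j _ => sq_nonneg _)]
    exact hh2
  have b12 : |(E1 * E2).trace| ≤ C0 / m ^ 2 := by rw [t12]; exact h12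
  have bk11 : |(k * E1 * E1).trace| ≤ K / m * (C0 / m * C0) :=
    tr_kee (by positivity) hk hr1 hS hb
  have bk12 : |(k * E1 * E2).trace| ≤ (C0 / m * K) * (C0 / m) := by
    refine tr_mul_le _ _ (by positivity) hb ?_ hh2'
    rw [mul_pow]
    exact (hs_right hb hs1 hr1 k).trans (mul_le_mul_of_nonneg_left hkh' (sq_nonneg _))
  have bk2 : |((E1 + E2) * k * E2).trace| ≤ (2 * (C0 / m) * K) * (C0 / m) := by
    refine tr_mul_le _ _ (by positivity) hb ?_ hh2'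
    rw [mul_pow]
    exact (hs_left (by positivity) hsE hrE k).trans
      (mul_le_mul_of_nonneg_left hkh' (sq_nonneg _))
  have bkk : |(k * (E1 + E2) * (k * (E1 + E2))).trace| ≤
      (2 * (C0 / m) * K) * (2 * (C0 / m) * K) := by
    have h1 : hsn (k * (E1 + E2)) ≤ (2 * (C0 / m) * K) ^ 2 := by
      rw [mul_pow]
      exact (hs_right (by positivity) hsE hrE k).trans
        (mul_le_mul_of_nonneg_left hkh' (sq_nonneg _))
    exact tr_mul_le _ _ (by positivity) (by positivity) h1 h1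
  rw [halg, t11]
  have hfin : (3 * C0 + 8 * K * C0 ^ 2 + 4 * C0 ^ 2 * K ^ 2) / m ^ 2 =
      2 * (C0 / m ^ 2) + C0 / m ^ 2 + 2 * (K / m * (C0 / m * C0) + (C0 / m * K) * (C0 / m) +
        (2 * (C0 / m) * K) * (C0 / m)) + (2 * (C0 / m) * K) * (2 * (C0 / m) * K) := by
    field_simp
    ring
  rw [hfin]
  rw [abs_le] at *
  constructor <;> linarith [b22.1, b22.2, b12.1, b12.2, bk11.1, bk11.2, bk12.1, bk12.2, bk2.1,
    bk2.2, bkk.1, bkk.2]

end

private theorem dbl {α : Type} (J : Finset α) (f : α → α → ℝ) :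
    ∑ l ∈ J, ∑ k ∈ J, f l k = ∑ l : J, ∑ k : J, f l k := by
  rw [← Finset.sum_coe_sort]
  exact Finset.sum_congr rfl fun l _ => (Finset.sum_coe_sort J _).symm

/-- positivity on a subset -/
private theorem pos_sub {α : Type} [DecidableEq α] {I e : Finset α} {A : α → α → ℝ} {lam : ℝ}
    (hp : ∀ u : α → ℝ, lam * ∑ l ∈ I, u l ^ 2 ≤ ∑ l ∈ I, ∑ l' ∈ I, u l * A l l' * u l')
    (u : α → ℝ) : lam * ∑ l ∈ I \ e, u l ^ 2 ≤
      ∑ l ∈ I \ e, ∑ l' ∈ I \ e, u l * A l l' * u l' := by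
  set v : α → ℝ := fun l => if l ∈ I \ e then u l else 0 with hv
  have hsub : I \ e ⊆ I := Finset.sdiff_subset
  have hin : ∀ l ∈ I \ e, v l = u l := fun l hl => by simp only [hv]; rw [if_pos hl]
  have hout : ∀ l, l ∉ I \ e → v l = 0 := fun l hl => by simp only [hv]; rw [if_neg hl]
  have h1 : ∑ l ∈ I, v l ^ 2 = ∑ l ∈ I \ e, u l ^ 2 := by
    rw [← Finset.sum_subset hsub fun l _ hl => by rw [hout l hl]; ring]
    exact Finset.sum_congr rfl fun l hl => by rw [hin l hl]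
  have h2 : ∑ l ∈ I, ∑ l' ∈ I, v l * A l l' * v l' =
      ∑ l ∈ I \ e, ∑ l' ∈ I \ e, u l * A l l' * u l' := by
    rw [← Finset.sum_subset hsub fun l _ hl => by
      rw [hout l hl]; simp]
    refine Finset.sum_congr rfl fun l hl => ?_
    rw [← Finset.sum_subset hsub fun l' _ hl' => by rw [hout l' hl']; ring]
    exact Finset.sum_congr rfl fun l' hl' => by rw [hin l hl, hin l' hl']
  have h3 := hp v
  rwa [h1, h2] at h3

theorem ld_red (C0 lam : ℝ) (hC0 : 1 ≤ C0) (hl : 0 < lam) : ∃ (C : ℝ) (m0 : ℕ), 1 ≤ C ∧ 2 ≤ m0 ∧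
    ∀ (α : Type) [DecidableEq α] (m : ℕ) (I e : Finset α) (A h E1 E2 : α → α → ℝ) (g : α → ℝ), m0 ≤ m → e ⊆ I →
      e.card ≤ 4 → (∀ l l', A l l' = A l' l) →
      (∀ u : α → ℝ, lam * ∑ l ∈ I, u l ^ 2 ≤ ∑ l ∈ I, ∑ l' ∈ I, u l * A l l' * u l') → Hi C0 m I A g h →
      (∀ l l', E1 l l' = E1 l' l) → (∀ l l', E2 l l' = E2 l' l) →
      (∀ l ∈ I \ e, ∑ l' ∈ I \ e, |E1 l l'| ≤ C0 / m) → (∀ l ∈ I \ e, ∑ l' ∈ I \ e, |E2 l l'| ≤ C0 / m) →
      (∑ l ∈ I \ e, ∑ l' ∈ I \ e, |E1 l l'| ≤ C0) → (∑ l ∈ I \ e, ∑ l' ∈ I \ e, E2 l l' ^ 2 ≤ C0 / m ^ 2) →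
      (|∑ l ∈ I \ e, ∑ l' ∈ I \ e, E1 l l' * E2 l l'| ≤ C0 / m ^ 2) →
      |LD (I \ e) (fun l l' => A l l' + (E1 l l' + E2 l l')) - LD I A - ∑ k ∈ e, (h k k - 1) -
        ∑ l ∈ I \ e, ∑ l' ∈ I \ e, h l l' * (E1 l l' + E2 l l') +
        (∑ l ∈ I \ e, ∑ l' ∈ I \ e, E1 l l' ^ 2) / 2| ≤ C / m ^ 2 := by
  obtain ⟨Cr, mr, hCr, hmr, hres⟩ := ls_res C0 hC0
  refine ⟨16 * C0 ^ 3 / lam ^ 3 + 200 * C0 ^ 2 + 2 * Cr * C0 +
    (3 * C0 + 8 * Cr * C0 ^ 2 + 4 * C0 ^ 2 * Cr ^ 2) / 2,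
    max mr (max ⌈50 * C0⌉₊ ⌈4 * C0 / lam⌉₊), ?_, ?_, ?_⟩
  · have h1 : 0 ≤ 16 * C0 ^ 3 / lam ^ 3 := by positivity
    have h2 : 0 ≤ 2 * Cr * C0 := by positivity
    have h3 : 0 ≤ (3 * C0 + 8 * Cr * C0 ^ 2 + 4 * C0 ^ 2 * Cr ^ 2) / 2 := by positivity
    nlinarith
  · exact hmr.trans (le_max_left _ _)
  intro α _ m I e A h E1 E2 g hm0 he hec hA hp hH hs1 hs2 hr1 hr2 hS hh2 h12
  have hm1 : mr ≤ m := (le_max_left _ _).trans hm0
  have hm2 : 50 * C0 ≤ m := by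
    refine (Nat.le_ceil _).trans ?_
    exact_mod_cast (le_max_left _ _).trans ((le_max_right _ _).trans hm0)
  have hm3 : 4 * C0 / lam ≤ m := by
    refine (Nat.le_ceil _).trans ?_
    exact_mod_cast (le_max_right _ _).trans ((le_max_right _ _).trans hm0)
  have hm : (0 : ℝ) < m := by linarith
  have hC0' : 0 < C0 := by linarith
  have hCr' : 0 < Cr := by linarith
  obtain ⟨h', hsy', hinv', hen', hhs', -, hdiff⟩ := hres α m I e A h g hm1 he hec hA hH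
  obtain ⟨hc1, -⟩ := ld_compl he hl hA hp hH.inv
  have hsm := ld_small hec (h := h) (ε := C0 / m) (by positivity)
    (by rw [div_le_iff₀ hm]; linarith) (fun k hk k' hk' => hH.en k (he hk) k' (he hk'))
  have hEs : ∀ l l', E1 l l' + E2 l l' = E1 l' l + E2 l' l := fun l l' => by
    rw [hs1 l l', hs2 l l']
  have hrE : ∀ l ∈ I \ e, ∑ l' ∈ I \ e, |E1 l l' + E2 l l'| ≤ 2 * (C0 / m) := by
    intro l hl'
    calc ∑ l' ∈ I \ e, |E1 l l' + E2 l l'| ≤ ∑ l' ∈ I \ e, (|E1 l l'| + |E2 l l'|) :=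
          Finset.sum_le_sum fun j _ => abs_add_le _ _
      _ = ∑ l' ∈ I \ e, |E1 l l'| + ∑ l' ∈ I \ e, |E2 l l'| := Finset.sum_add_distrib
      _ ≤ 2 * (C0 / m) := by linarith [hr1 l hl', hr2 l hl']
  have hpt := ld_pert (E := fun l l' => E1 l l' + E2 l l') hl hA hEs (pos_sub hp) hinv' hrE
    (by
      rw [div_le_iff₀ hl] at hm3
      rw [← mul_div_assoc, div_le_iff₀ hm]
      linarith)
  have hd := hdiff (fun l l' => E1 l l' + E2 l l') (2 * (C0 / m)) (by positivity) hEs hrE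
  -- the squares
  have hE1sq : ∑ l ∈ I \ e, ∑ l' ∈ I \ e, E1 l l' ^ 2 ≤ C0 / m * C0 := by
    calc ∑ l ∈ I \ e, ∑ l' ∈ I \ e, E1 l l' ^ 2 ≤
        ∑ l ∈ I \ e, ∑ l' ∈ I \ e, C0 / m * |E1 l l'| := by
          refine Finset.sum_le_sum fun l hl' => Finset.sum_le_sum fun k hk => ?_
          rw [← sq_abs, sq]
          refine mul_le_mul_of_nonneg_right ?_ (abs_nonneg _)
          exact (Finset.single_le_sum (f := fun k => |E1 l k|) (fun j _ => abs_nonneg _)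
            hk).trans (hr1 l hl')
      _ = C0 / m * ∑ l ∈ I \ e, ∑ l' ∈ I \ e, |E1 l l'| := by
          simp only [Finset.mul_sum]
      _ ≤ C0 / m * C0 := mul_le_mul_of_nonneg_left hS (by positivity)
  have hm1' : (1 : ℝ) ≤ m := by nlinarith
  have hEsq : ∑ l ∈ I \ e, ∑ l' ∈ I \ e, (E1 l l' + E2 l l') ^ 2 ≤ 4 * C0 ^ 2 / m := by
    calc ∑ l ∈ I \ e, ∑ l' ∈ I \ e, (E1 l l' + E2 l l') ^ 2 ≤
        ∑ l ∈ I \ e, ∑ l' ∈ I \ e, (2 * E1 l l' ^ 2 + 2 * E2 l l' ^ 2) := by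
          refine Finset.sum_le_sum fun l _ => Finset.sum_le_sum fun k _ => ?_
          nlinarith [sq_nonneg (E1 l k - E2 l k)]
      _ = 2 * ∑ l ∈ I \ e, ∑ l' ∈ I \ e, E1 l l' ^ 2 +
          2 * ∑ l ∈ I \ e, ∑ l' ∈ I \ e, E2 l l' ^ 2 := by
          simp only [Finset.mul_sum, Finset.sum_add_distrib]
      _ ≤ 2 * (C0 / m * C0) + 2 * (C0 / m ^ 2) := by linarith
      _ ≤ 4 * C0 ^ 2 / m := by
          have h1 : C0 / (m : ℝ) ^ 2 ≤ C0 ^ 2 / m := by
            rw [div_le_div_iff₀ (by positivity) hm]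
            have h2 : (m : ℝ) ≤ m ^ 2 := by nlinarith
            have h3 : C0 ≤ C0 ^ 2 := by nlinarith
            exact mul_le_mul h3 h2 hm.le (by positivity)
          have h4 : 2 * (C0 / m * C0) = 2 * (C0 ^ 2 / m) := by ring
          have h5 : 4 * C0 ^ 2 / m = 4 * (C0 ^ 2 / m) := by ring
          linarith
  have hb1 : 2 * (2 * (C0 / m)) / lam ^ 3 * ∑ l ∈ I \ e, ∑ l' ∈ I \ e, (E1 l l' + E2 l l') ^ 2 ≤
      16 * C0 ^ 3 / lam ^ 3 / m ^ 2 := by
    calc 2 * (2 * (C0 / m)) / lam ^ 3 * ∑ l ∈ I \ e, ∑ l' ∈ I \ e, (E1 l l' + E2 l l') ^ 2 ≤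
        2 * (2 * (C0 / m)) / lam ^ 3 * (4 * C0 ^ 2 / m) :=
          mul_le_mul_of_nonneg_left hEsq (by positivity)
      _ = 16 * C0 ^ 3 / lam ^ 3 / m ^ 2 := by field_simp; ring
  -- the quadratic term
  set k : Matrix (I \ e : Finset α) (I \ e : Finset α) ℝ :=
    Matrix.of (fun i j => h' i j - if (i : α) = j then 1 else 0) with hk
  set F1 : Matrix (I \ e : Finset α) (I \ e : Finset α) ℝ :=
    Matrix.of (fun i j => E1 i j) with hF1
  set F2 : Matrix (I \ e : Finset α) (I \ e : Finset α) ℝ :=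
    Matrix.of (fun i j => E2 i j) with hF2
  have hone : ∀ i j : (I \ e : Finset α), (1 + k) i j = h' i j := by
    intro i j
    rw [Matrix.add_apply, hk, Matrix.of_apply, Matrix.one_apply]
    by_cases hij : i = j
    · rw [if_pos hij, if_pos (congrArg Subtype.val hij)]; ring
    · rw [if_neg hij, if_neg (fun hh => hij (Subtype.ext hh))]; ring
  have hq := quad_term (k := k) (E1 := F1) (E2 := F2) (C0 := C0) (K := Cr) (m := m) hC0 hCr hm
    (fun i j => hen' i i.2 j j.2)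
    (by
      rw [dbl] at hhs'
      exact hhs')
    (fun i j => hs1 i j) (fun i j => hs2 i j)
    (fun i => by
      have := hr1 i i.2
      rw [← Finset.sum_coe_sort] at this
      exact this)
    (fun i => by
      have := hr2 i i.2
      rw [← Finset.sum_coe_sort] at this
      exact this)
    (by
      rw [dbl] at hS
      exact hS)
    (by
      rw [dbl] at hh2
      exact hh2)
    (by
      rw [dbl] at h12
      exact h12)
  have hsq1 : hsn F1 = ∑ l ∈ I \ e, ∑ l' ∈ I \ e, E1 l l' ^ 2 := by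
    rw [dbl]; rfl
  have htr : ((1 + k) * (F1 + F2) * ((1 + k) * (F1 + F2))).trace =
      ∑ l ∈ I \ e, ∑ j ∈ I \ e, (∑ l' ∈ I \ e, h' l l' * (E1 l' j + E2 l' j)) *
        (∑ l' ∈ I \ e, h' j l' * (E1 l' l + E2 l' l)) := by
    have hmul : ∀ i j : (I \ e : Finset α), ((1 + k) * (F1 + F2)) i j =
        ∑ l' ∈ I \ e, h' i l' * (E1 l' j + E2 l' j) := by
      intro i j
      rw [Matrix.mul_apply, ← Finset.sum_coe_sort (I \ e) (fun l' => h' i l' * (E1 l' j + E2 l' j))]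
      exact Finset.sum_congr rfl fun l' _ => by
        rw [hone]; rfl
    rw [dbl]
    simp only [Matrix.trace, Matrix.diag]
    refine Finset.sum_congr rfl fun i _ => ?_
    rw [Matrix.mul_apply]
    exact Finset.sum_congr rfl fun j _ => by rw [hmul, hmul]
  rw [hsq1, htr] at hq
  have hdd : ∑ l ∈ I \ e, ∑ l' ∈ I \ e, (h' l l' - h l l') * (E1 l' l + E2 l' l) =
      ∑ l ∈ I \ e, ∑ l' ∈ I \ e, h' l l' * (E1 l' l + E2 l' l) -
        ∑ l ∈ I \ e, ∑ l' ∈ I \ e, h l l' * (E1 l l' + E2 l l') := by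
    rw [← Finset.sum_sub_distrib]
    refine Finset.sum_congr rfl fun l _ => ?_
    rw [← Finset.sum_sub_distrib]
    refine Finset.sum_congr rfl fun j _ => ?_
    rw [hEs l j]
    ring
  have hpt' := hpt.trans hb1
  rw [hdd] at hd
  have hd2 : Cr * (2 * (C0 / m)) / m = 2 * Cr * C0 / m ^ 2 := by field_simp
  rw [hd2] at hd
  have hsm2 : 200 * (C0 / (m : ℝ)) ^ 2 = 200 * C0 ^ 2 / m ^ 2 := by rw [div_pow]; ring
  rw [hsm2] at hsm
  have hgoal : (16 * C0 ^ 3 / lam ^ 3 + 200 * C0 ^ 2 + 2 * Cr * C0 +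
      (3 * C0 + 8 * Cr * C0 ^ 2 + 4 * C0 ^ 2 * Cr ^ 2) / 2) / (m : ℝ) ^ 2 =
      16 * C0 ^ 3 / lam ^ 3 / m ^ 2 + 200 * C0 ^ 2 / m ^ 2 + 2 * Cr * C0 / m ^ 2 +
      (3 * C0 + 8 * Cr * C0 ^ 2 + 4 * C0 ^ 2 * Cr ^ 2) / m ^ 2 / 2 := by ring
  rw [hgoal]
  rw [abs_le] at hpt' hsm hd hq ⊢
  constructor
  · linarith [hpt'.1, hpt'.2, hsm.1, hsm.2, hd.1, hd.2, hq.1, hq.2]
  · linarith [hpt'.1, hpt'.2, hsm.1, hsm.2, hd.1, hd.2, hq.1, hq.2]

end Pool.Agent.NQF
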