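import Pool.Agent.NQF.Defs
import Pool.Agent.NQF.SDef
import Pool.Agent.NQF.SBas
import Pool.Agent.NQF.SBat
import Pool.Agent.NQF.SMas
import Pool.Agent.NQF.STri
import Pool.Agent.NQF.SNon

/-!
# NQF-SEa: the perturbation of the Hessian: bounds

If the square `e0` is removed and the potentials change by `δ`, the Hessian changes by `E1r + E2r`; row sums, squares and
the cross term of the two parts.
-/

set_option autoImplicit false

open Finset

namespace Pool.Agent.NQF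

open Pool.Agent.NQ (board dsum F Ent Dg phi ln Q Qset QS NonAtt bern)
open Pool.Agent.NQR (Adm Opt Bd Rf hS hD hh InR)
open Pool.Agent.NQL

/-- destroyed squares -/
noncomputable def E1r {α β : Type} [DecidableEq α] [DecidableEq β] (L : β → Finset α) (S : Finset β) (w : β → ℝ)
    (e0 : β) (l l' : α) : ℝ := -MM L (Sm L S e0) w l l'

/-- change of the weights and of the gauge term -/
noncomputable def E2r {α β : Type} [DecidableEq α] [DecidableEq β] (L : β → Finset α) (S : Finset β) (w : β → ℝ)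
    (g : α → ℝ) (m : ℕ) (e0 : β) (δ : α → ℝ) (l l' : α) : ℝ :=
  MM L (Sd L S e0) (fun f => w f * (Real.exp (dS L δ f) - 1)) l l' +
    g l * g l' * (1 / (2 * ((m - 1 : ℕ) : ℝ)) - 1 / (2 * m))

private theorem ea_pairs {α : Type} [DecidableEq α] (T : Finset α) (n : ℝ) (hn : (T.card : ℝ) = n) :
    ∑ l ∈ T, ∑ _l' ∈ T.erase l, (1 : ℝ) = n * (n - 1) := by
  have h : ∀ l ∈ T, ∑ _l' ∈ T.erase l, (1 : ℝ) = n - 1 := by
    intro l hl
    have h1 : 1 ≤ T.card := card_pos.mpr ⟨l, hl⟩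
    rw [sum_const, nsmul_eq_mul, mul_one, card_erase_of_mem hl, Nat.cast_sub h1, hn, Nat.cast_one]
  rw [sum_congr rfl h, sum_const, nsmul_eq_mul, hn]

section

variable {α β : Type} [DecidableEq α] [DecidableEq β] {L : β → Finset α} {S : Finset β} {w : β → ℝ}
  {I : Finset α} {ν : ℕ}

private theorem ea_row (hs : ∀ e ∈ S, L e ⊆ I) (hc : ∀ e ∈ S, (L e).card = ν) (l : α) :
    ∑ l' ∈ I, MM L S w l l' = ((ν : ℝ) - 1) * ∑ e ∈ Sr L S l, w e := by
  have h := mm_row (w := w) hs (fun _ => (1 : ℝ)) l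
  have h1 : ∀ e ∈ Sr L S l, w e * (dS L (fun _ => (1 : ℝ)) e - 1) = ((ν : ℝ) - 1) * w e := by
    intro e he
    have he' : e ∈ S := (mem_filter.mp he).1
    rw [dS, sum_const, nsmul_eq_mul, mul_one, hc e he']
    ring
  rw [sum_congr rfl h1, ← mul_sum] at h
  simp only [mul_one] at h
  exact h

private theorem ea_pair (hs : ∀ e ∈ S, L e ⊆ I) (hc : ∀ e ∈ S, (L e).card = ν) :
    ∑ l ∈ I, ∑ l' ∈ I, MM L S w l l' = (ν : ℝ) * (ν - 1) * ∑ e ∈ S, w e := by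
  have h := mm_pair (w := w) hs (fun _ _ => (1 : ℝ))
  have h1 : ∀ e ∈ S, w e * ∑ l ∈ L e, ∑ _l' ∈ (L e).erase l, (1 : ℝ) = (ν : ℝ) * (ν - 1) * w e := by
    intro e he
    rw [ea_pairs (L e) ν (by rw [hc e he])]
    ring
  rw [sum_congr rfl h1, ← mul_sum] at h
  simp only [mul_one] at h
  exact h

private theorem ea_pair_sq (hs : ∀ e ∈ S, L e ⊆ I) (hc : ∀ e ∈ S, (L e).card = ν)
    (hlin : ∀ e ∈ S, ∀ f ∈ S, e ≠ f → (L e ∩ L f).card ≤ 1) :
    ∑ l ∈ I, ∑ l' ∈ I, MM L S w l l' ^ 2 = (ν : ℝ) * (ν - 1) * ∑ e ∈ S, w e ^ 2 := by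
  have h := mm_pair_sq (w := w) hs hlin (fun _ _ => (1 : ℝ))
  have h1 : ∀ e ∈ S, w e ^ 2 * ∑ l ∈ L e, ∑ _l' ∈ (L e).erase l, (1 : ℝ) = (ν : ℝ) * (ν - 1) * w e ^ 2 := by
    intro e he
    rw [ea_pairs (L e) ν (by rw [hc e he])]
    ring
  rw [sum_congr rfl h1, ← mul_sum] at h
  simp only [mul_one] at h
  exact h

private theorem ea_abs {v : β → ℝ} {a : ℝ} (h : ∀ e ∈ S, |v e| ≤ a * w e) (l l' : α) :
    |MM L S v l l'| ≤ a * MM L S w l l' := by
  unfold MM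
  split_ifs with hl
  · simp
  · rw [mul_sum]
    exact le_trans (abs_sum_le_sum_abs _ _) (sum_le_sum fun e he => h e (mem_filter.mp he).1)

/-- the sum of the squares of the destroyed part -/
private theorem ea_sq (hs : ∀ e ∈ S, L e ⊆ I) (hc : ∀ e ∈ S, (L e).card = ν)
    (hlin : ∀ e ∈ S, ∀ f ∈ S, e ≠ f → (L e ∩ L f).card ≤ 1) {e0 : β} (h0 : e0 ∈ S) :
    ∑ l ∈ I \ L e0, ∑ l' ∈ I \ L e0, MM L (Sm L S e0) w l l' ^ 2 =
      ((ν : ℝ) - 1) * (ν - 2) * ∑ f ∈ Sm L S e0, w f ^ 2 := by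
  have h := mm_pair_sq (L := fun e => L e \ L e0) (S := Sm L S e0) (w := w) (I := I \ L e0)
    (fun e he => sdiff_subset_sdiff (hs e (mem_filter.mp he).1) (subset_refl _))
    (fun e he f hf hne => le_trans (card_le_card (by
      intro x hx
      rw [mem_inter, mem_sdiff, mem_sdiff] at hx
      exact mem_inter.mpr ⟨hx.1.1, hx.2.1⟩)) (hlin e (mem_filter.mp he).1 f (mem_filter.mp hf).1 hne))
    (fun _ _ => (1 : ℝ))
  have h1 : ∀ e ∈ Sm L S e0, w e ^ 2 * ∑ l ∈ L e \ L e0, ∑ _l' ∈ (L e \ L e0).erase l, (1 : ℝ) =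
      ((ν : ℝ) - 1) * (ν - 2) * w e ^ 2 := by
    intro e he
    have h2 : (((L e \ L e0).card : ℕ) : ℝ) = (ν : ℝ) - 1 := by
      obtain ⟨k, hk⟩ := sm_unique hlin h0 he
      have h3 := card_sdiff_add_card_inter (L e) (L e0)
      rw [hk, card_singleton, hc e (mem_filter.mp he).1] at h3
      rw [← h3]
      push_cast
      ring
    rw [ea_pairs (L e \ L e0) _ h2]
    ring
  rw [sum_congr rfl h1, ← mul_sum] at h
  rw [← h]
  refine sum_congr rfl fun l hl => sum_congr rfl fun l' hl' => ?_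
  rw [mul_one]
  congr 1
  unfold MM
  by_cases hll : l = l'
  · rw [if_pos hll, if_pos hll]
  · rw [if_neg hll, if_neg hll]
    refine sum_congr ?_ fun _ _ => rfl
    refine filter_congr fun e _ => ?_
    rw [mem_sdiff, mem_sdiff]
    have a1 := (mem_sdiff.mp hl).2
    have a2 := (mem_sdiff.mp hl').2
    tauto

/-- a pair of lines on a destroyed square is not on a surviving square -/
private theorem ea_cross (hlin : ∀ e ∈ S, ∀ f ∈ S, e ≠ f → (L e ∩ L f).card ≤ 1) {e0 : β} (v : β → ℝ)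
    (l l' : α) : MM L (Sm L S e0) w l l' * MM L (Sd L S e0) v l l' = 0 := by
  unfold MM
  by_cases hll : l = l'
  · rw [if_pos hll, zero_mul]
  · rw [if_neg hll, if_neg hll]
    rcases ((Sm L S e0).filter fun e => l ∈ L e ∧ l' ∈ L e).eq_empty_or_nonempty with h1 | ⟨f, hf⟩
    · rw [h1, sum_empty, zero_mul]
    · rcases ((Sd L S e0).filter fun e => l ∈ L e ∧ l' ∈ L e).eq_empty_or_nonempty with h2 | ⟨f', hf'⟩
      · rw [h2, sum_empty, mul_zero]
      · exfalso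
        rw [mem_filter, Sm, mem_filter] at hf
        rw [mem_filter, Sd, mem_filter] at hf'
        have hne : f ≠ f' := by
          rintro rfl
          exact hf.1.2.1 hf'.1.2
        have h3 := hlin f hf.1.1 f' hf'.1.1 hne
        have h4 : ({l, l'} : Finset α) ⊆ L f ∩ L f' := by
          intro x hx
          rw [mem_insert, mem_singleton] at hx
          rcases hx with rfl | rfl
          · exact mem_inter.mpr ⟨hf.2.1, hf'.2.1⟩
          · exact mem_inter.mpr ⟨hf.2.2, hf'.2.2⟩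
        have h5 := card_le_card h4
        rw [card_pair hll] at h5
        omega

end

theorem ls_ea (ν : ℕ) (hν : 2 ≤ ν) (hν4 : ν ≤ 4) (K C0 : ℝ) (hK : 1 ≤ K) (hC0 : 1 ≤ C0) :
    ∃ (C : ℝ) (m0 : ℕ), 1 ≤ C ∧ 2 ≤ m0 ∧ ∀ (α β : Type) [DecidableEq α] [DecidableEq β] (m : ℕ) (I : Finset α)
    (L : β → Finset α) (S : Finset β) (w : β → ℝ) (c g : α → ℝ) (lam : ℝ) (h : α → α → ℝ), m0 ≤ m →
      LSys ν m K lam I L S w c g → Hi C0 m I (AA L S w g m) g h → ∀ e0 ∈ S, ∀ δ Δ : α → ℝ,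
      (∀ f ∈ Sd L S e0, dS L δ f = dS L (tu L h e0) f + dS L Δ f) → (∀ l, l ∉ I \ L e0 → Δ l = 0) →
      ∑ l ∈ I, Δ l ^ 2 ≤ C0 / m ^ 3 →
      (∀ l ∈ I \ L e0, ∀ l' ∈ I \ L e0,
        AA L (Sd L S e0) (fun f => w f * Real.exp (dS L δ f)) g (m - 1) l l' =
          AA L S w g m l l' + (E1r L S w e0 l l' + E2r L S w g m e0 δ l l')) ∧
      (∀ f ∈ Sd L S e0, |dS L δ f| ≤ C / m) ∧
      (∀ l l', E1r L S w e0 l l' = E1r L S w e0 l' l) ∧
      (∀ l l', E2r L S w g m e0 δ l l' = E2r L S w g m e0 δ l' l) ∧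
      (∀ l ∈ I \ L e0, ∑ l' ∈ I \ L e0, |E1r L S w e0 l l'| ≤ C / m) ∧
      (∀ l ∈ I \ L e0, ∑ l' ∈ I \ L e0, |E2r L S w g m e0 δ l l'| ≤ C / m) ∧
      (∑ l ∈ I \ L e0, ∑ l' ∈ I \ L e0, |E1r L S w e0 l l'| ≤ C) ∧
      (∑ l ∈ I \ L e0, ∑ l' ∈ I \ L e0, E2r L S w g m e0 δ l l' ^ 2 ≤ C / m ^ 2) ∧
      (|∑ l ∈ I \ L e0, ∑ l' ∈ I \ L e0, E1r L S w e0 l l' * E2r L S w g m e0 δ l l'| ≤ C / m ^ 2) ∧
      ∑ l ∈ I \ L e0, ∑ l' ∈ I \ L e0, E1r L S w e0 l l' ^ 2 = 4 * kap ν * ∑ f ∈ Sm L S e0, w f ^ 2 := by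
  obtain ⟨C1, m1, hC1, hm1, hnon⟩ := ls_non ν hν hν4 K C0 hK hC0
  obtain ⟨C2, hC2⟩ : ∃ C2, C2 = C1 + 4 * C0 := ⟨_, rfl⟩
  have hC2p : 1 ≤ C2 := by rw [hC2]; linarith
  have hν1 : (1 : ℝ) ≤ (ν : ℝ) - 1 := by
    have : (2 : ℝ) ≤ ν := by exact_mod_cast hν
    linarith
  have hν4' : (ν : ℝ) ≤ 4 := by exact_mod_cast hν4
  have hνK : ((ν : ℝ) - 1) * (ν * K) ≤ 12 * K := by
    have : ((ν : ℝ) - 1) * ν ≤ 12 := by nlinarith
    nlinarith
  have hν48 : (ν : ℝ) * (ν - 1) * ν ≤ 48 := by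
    have : (ν : ℝ) * (ν - 1) ≤ 12 := by nlinarith
    nlinarith
  have hν12 : (ν : ℝ) * (ν - 1) ≤ 12 := by nlinarith
  have hν0 : (0 : ℝ) ≤ (ν : ℝ) * (ν - 1) := by nlinarith
  have hKC : 0 ≤ C2 ^ 2 * K := by positivity
  refine ⟨7 * C2 + 12 * K + 58 + 96 * (C2 ^ 2 * K), max m1 ⌈C2⌉₊, by linarith,
    le_trans hm1 (le_max_left _ _), ?_⟩
  intro α β _ _ m I L S w c g lam h hm hL hH e0 h0 δ Δ hδ hΔ0 hΔ
  obtain ⟨hn1, -, -⟩ := hnon α β m I L S w c g lam h (le_trans (le_max_left _ _) hm) hL hH e0 h0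
  have hm2 : 2 ≤ m := le_trans hm1 (le_trans (le_max_left _ _) hm)
  have hmr : (2 : ℝ) ≤ m := by exact_mod_cast hm2
  have hmC : C2 ≤ m := le_trans (Nat.le_ceil C2) (by exact_mod_cast le_trans (le_max_right _ _) hm)
  have hm0 : (0 : ℝ) < m := by linarith
  have hK0 : 0 ≤ K := by linarith
  obtain ⟨C, hC⟩ : ∃ C, C = 7 * C2 + 12 * K + 58 + 96 * (C2 ^ 2 * K) := ⟨_, rfl⟩
  rw [← hC]
  -- sizes
  have hΔ1 : ∀ l, |Δ l| ≤ C0 / m := by
    intro l
    by_cases hl : l ∈ I \ L e0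
    · have h1 : Δ l ^ 2 ≤ ∑ l ∈ I, Δ l ^ 2 :=
        single_le_sum (f := fun l => Δ l ^ 2) (fun i _ => sq_nonneg _) (mem_sdiff.mp hl).1
      have h2 : C0 / (m : ℝ) ^ 3 ≤ (C0 / m) ^ 2 := by
        rw [div_pow, div_le_div_iff₀ (by positivity) (by positivity)]
        have h3 : C0 * 1 ≤ C0 * (C0 * m) := by
          apply mul_le_mul_of_nonneg_left _ (by linarith)
          nlinarith
        have h4 : 0 ≤ (m : ℝ) ^ 2 := by positivity
        nlinarith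
      exact abs_le_of_sq_le_sq (le_trans h1 (le_trans hΔ h2)) (by positivity)
    · rw [hΔ0 l hl, abs_zero]
      positivity
  have hd : ∀ f ∈ Sd L S e0, |dS L δ f| ≤ C2 / m := by
    intro f hf
    rw [hδ f hf]
    have h1 := hn1 f hf
    have h2 : |dS L Δ f| ≤ 4 * C0 / m := by
      calc |dS L Δ f| ≤ ∑ l ∈ L f, |Δ l| := abs_sum_le_sum_abs _ _
        _ ≤ ∑ _l ∈ L f, C0 / m := sum_le_sum (fun l _ => hΔ1 l)
        _ = ν * (C0 / m) := by rw [sum_const, nsmul_eq_mul, hL.card f (mem_filter.mp hf).1]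
        _ ≤ 4 * (C0 / m) := mul_le_mul_of_nonneg_right hν4' (by positivity)
        _ = 4 * C0 / m := by ring
    calc |dS L (tu L h e0) f + dS L Δ f| ≤ |dS L (tu L h e0) f| + |dS L Δ f| := abs_add_le _ _
      _ ≤ C1 / m + 4 * C0 / m := add_le_add h1 h2
      _ = C2 / m := by rw [hC2, add_div]
  have he : ∀ f ∈ Sd L S e0, |w f * (Real.exp (dS L δ f) - 1)| ≤ 2 * C2 / m * w f := by
    intro f hf
    have hw := hL.wnn f (mem_filter.mp hf).1
    have h1 : |dS L δ f| ≤ 1 := le_trans (hd f hf) (by rw [div_le_one hm0]; exact hmC)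
    have h2 := Real.abs_exp_sub_one_le h1
    have h3 : |Real.exp (dS L δ f) - 1| ≤ 2 * C2 / m := by
      calc |Real.exp (dS L δ f) - 1| ≤ 2 * |dS L δ f| := h2
        _ ≤ 2 * (C2 / m) := by linarith [hd f hf]
        _ = 2 * C2 / m := by ring
    rw [abs_mul, abs_of_nonneg hw, mul_comm (2 * C2 / m)]
    exact mul_le_mul_of_nonneg_left h3 hw
  -- the gauge part
  obtain ⟨γ, hγ⟩ : ∃ γ : ℝ, γ = 1 / (2 * ((m - 1 : ℕ) : ℝ)) - 1 / (2 * m) := ⟨_, rfl⟩
  have hcast : ((m - 1 : ℕ) : ℝ) = (m : ℝ) - 1 := by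
    rw [Nat.cast_sub (by omega), Nat.cast_one]
  have hγ' : γ = 1 / (2 * (m * (m - 1))) := by
    rw [hγ, hcast]
    have : (m : ℝ) - 1 ≠ 0 := by linarith
    field_simp
    ring
  have hγ0 : 0 ≤ γ := by
    rw [hγ']
    have : 0 ≤ (m : ℝ) * (m - 1) := by nlinarith
    positivity
  have hγ1 : γ ≤ 1 / (m : ℝ) ^ 2 := by
    rw [hγ']
    apply one_div_le_one_div_of_le (by positivity)
    nlinarith
  have hg1 : ∀ l ∈ I, |g l| = g l ^ 2 := by
    intro l hl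
    rcases hL.gv l hl with h | h | h <;> rw [h] <;> norm_num
  have hgsum : ∑ l ∈ I, |g l| = 2 * m := by
    rw [sum_congr rfl hg1, hL.g2]
  have hgle : ∀ l ∈ I, |g l| ≤ 1 := by
    intro l hl
    rcases hL.gv l hl with h | h | h <;> rw [h] <;> norm_num
  -- the two matrices
  have hSm : ∀ e ∈ Sm L S e0, e ∈ S := fun e he => (mem_filter.mp he).1
  have hSd : ∀ e ∈ Sd L S e0, e ∈ S := fun e he => (mem_filter.mp he).1
  have hJI : I \ L e0 ⊆ I := sdiff_subset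
  have hM1 : ∀ l l', 0 ≤ MM L (Sm L S e0) w l l' := fun l l' => mm_nn (fun e he => hL.wnn e (hSm e he)) l l'
  have hM2 : ∀ l l', 0 ≤ MM L (Sd L S e0) w l l' := fun l l' => mm_nn (fun e he => hL.wnn e (hSd e he)) l l'
  have hE1 : ∀ l l', |E1r L S w e0 l l'| = MM L (Sm L S e0) w l l' := by
    intro l l'
    rw [E1r, abs_neg, abs_of_nonneg (hM1 l l')]
  have hA : ∀ l l', |MM L (Sd L S e0) (fun f => w f * (Real.exp (dS L δ f) - 1)) l l'| ≤
      2 * C2 / m * MM L (Sd L S e0) w l l' := fun l l' => ea_abs he l l'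
  have hE2 : ∀ l l', E2r L S w g m e0 δ l l' =
      MM L (Sd L S e0) (fun f => w f * (Real.exp (dS L δ f) - 1)) l l' + g l * g l' * γ := by
    intro l l'
    rw [E2r, hγ]
  have htot : ∑ l ∈ I \ L e0, ∑ l' ∈ I \ L e0, |E1r L S w e0 l l'| ≤ 48 := by
    calc ∑ l ∈ I \ L e0, ∑ l' ∈ I \ L e0, |E1r L S w e0 l l'| =
        ∑ l ∈ I \ L e0, ∑ l' ∈ I \ L e0, MM L (Sm L S e0) w l l' :=
          sum_congr rfl fun l _ => sum_congr rfl fun l' _ => hE1 l l'
      _ ≤ ∑ l ∈ I, ∑ l' ∈ I, MM L (Sm L S e0) w l l' := by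
          refine le_trans (sum_le_sum fun l _ => sum_le_sum_of_subset_of_nonneg hJI fun l' _ _ => hM1 l l') ?_
          exact sum_le_sum_of_subset_of_nonneg hJI fun l _ _ => sum_nonneg fun l' _ => hM1 l l'
      _ = (ν : ℝ) * (ν - 1) * ∑ e ∈ Sm L S e0, w e :=
          ea_pair (fun e he => hL.sub e (hSm e he)) (fun e he => hL.card e (hSm e he))
      _ ≤ (ν : ℝ) * (ν - 1) * ν := mul_le_mul_of_nonneg_left (ls_sm hL (by omega) h0).1 hν0
      _ ≤ 48 := hν48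
  refine ⟨?_, ?_, ?_, ?_, ?_, ?_, ?_, ?_, ?_, ?_⟩
  · -- the identity
    intro l hl l' hl'
    have h1 := mm_split (S := S) (w := w) (l' := l') (mem_sdiff.mp hl).2
    have h2 : MM L (Sd L S e0) (fun f => w f * Real.exp (dS L δ f)) l l' =
        MM L (Sd L S e0) w l l' + MM L (Sd L S e0) (fun f => w f * (Real.exp (dS L δ f) - 1)) l l' := by
      have h3 := mm_lin L (Sd L S e0) w (fun f => w f * (Real.exp (dS L δ f) - 1)) 1 l l'
      rw [one_mul] at h3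
      rw [← h3]
      congr 1
      funext f
      ring
    rw [hE2, hγ, AA, AA, E1r, h1, h2]
    ring
  · intro f hf
    refine le_trans (hd f hf) (div_le_div_of_nonneg_right ?_ hm0.le)
    rw [hC]
    linarith
  · intro l l'
    rw [E1r, E1r, mm_sym]
  · intro l l'
    rw [hE2, hE2, mm_sym]
    ring
  · -- row sums of E1
    intro l hl
    calc ∑ l' ∈ I \ L e0, |E1r L S w e0 l l'| = ∑ l' ∈ I \ L e0, MM L (Sm L S e0) w l l' :=
          sum_congr rfl fun l' _ => hE1 l l'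
      _ ≤ ∑ l' ∈ I, MM L (Sm L S e0) w l l' := sum_le_sum_of_subset_of_nonneg hJI fun l' _ _ => hM1 l l'
      _ = ((ν : ℝ) - 1) * ∑ e ∈ Sr L (Sm L S e0) l, w e :=
          ea_row (fun e he => hL.sub e (hSm e he)) (fun e he => hL.card e (hSm e he)) l
      _ ≤ ((ν : ℝ) - 1) * (ν * K / m) :=
          mul_le_mul_of_nonneg_left (ls_sml hL hK0 h0 (mem_sdiff.mp hl).2) (by linarith)
      _ = ((ν : ℝ) - 1) * (ν * K) / m := by ring
      _ ≤ C / m := by
          refine div_le_div_of_nonneg_right ?_ hm0.le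
          rw [hC]
          linarith
  · -- row sums of E2
    intro l hl
    have hlI := (mem_sdiff.mp hl).1
    have hb : ∀ l' ∈ I \ L e0, |E2r L S w g m e0 δ l l'| ≤
        2 * C2 / m * MM L (Sd L S e0) w l l' + |g l'| * (1 / (m : ℝ) ^ 2) := by
      intro l' hl'
      rw [hE2]
      refine le_trans (abs_add_le _ _) (add_le_add (hA l l') ?_)
      rw [abs_mul, abs_mul, abs_of_nonneg hγ0]
      have h1 : |g l| * |g l'| ≤ |g l'| := by
        have := hgle l hlI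
        have := abs_nonneg (g l')
        nlinarith
      exact mul_le_mul h1 hγ1 hγ0 (abs_nonneg _)
    have h1 : ∑ l' ∈ I \ L e0, MM L (Sd L S e0) w l l' ≤ 3 := by
      calc ∑ l' ∈ I \ L e0, MM L (Sd L S e0) w l l' ≤ ∑ l' ∈ I, MM L (Sd L S e0) w l l' :=
            sum_le_sum_of_subset_of_nonneg hJI fun l' _ _ => hM2 l l'
        _ = ((ν : ℝ) - 1) * ∑ e ∈ Sr L (Sd L S e0) l, w e :=
            ea_row (fun e he => hL.sub e (hSd e he)) (fun e he => hL.card e (hSd e he)) l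
        _ ≤ ((ν : ℝ) - 1) * ∑ e ∈ Sr L S l, w e := by
            refine mul_le_mul_of_nonneg_left ?_ (by linarith)
            refine sum_le_sum_of_subset_of_nonneg ?_ fun e he _ => hL.wnn e (mem_filter.mp he).1
            exact filter_subset_filter _ (filter_subset _ _)
        _ ≤ ((ν : ℝ) - 1) * 1 := mul_le_mul_of_nonneg_left (ls_line hL hlI).2.1 (by linarith)
        _ ≤ 3 := by linarith
    have h2 : ∑ l' ∈ I \ L e0, |g l'| ≤ 2 * m := by
      rw [← hgsum]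
      exact sum_le_sum_of_subset_of_nonneg hJI fun l' _ _ => abs_nonneg _
    calc ∑ l' ∈ I \ L e0, |E2r L S w g m e0 δ l l'| ≤
        ∑ l' ∈ I \ L e0, (2 * C2 / m * MM L (Sd L S e0) w l l' + |g l'| * (1 / (m : ℝ) ^ 2)) := sum_le_sum hb
      _ = 2 * C2 / m * ∑ l' ∈ I \ L e0, MM L (Sd L S e0) w l l' +
          (∑ l' ∈ I \ L e0, |g l'|) * (1 / (m : ℝ) ^ 2) := by
          rw [sum_add_distrib, mul_sum, sum_mul]
      _ ≤ 2 * C2 / m * 3 + 2 * m * (1 / (m : ℝ) ^ 2) :=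
          add_le_add (mul_le_mul_of_nonneg_left h1 (by positivity))
            (mul_le_mul_of_nonneg_right h2 (by positivity))
      _ = (6 * C2 + 2) / m := by
          field_simp
          ring
      _ ≤ C / m := by
          refine div_le_div_of_nonneg_right ?_ hm0.le
          rw [hC]
          linarith
  · refine le_trans htot ?_
    rw [hC]
    linarith
  · -- squares of E2
    have hb : ∀ l ∈ I \ L e0, ∀ l' ∈ I \ L e0, E2r L S w g m e0 δ l l' ^ 2 ≤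
        2 * (2 * C2 / m) ^ 2 * MM L (Sd L S e0) w l l' ^ 2 + 2 * (1 / (m : ℝ) ^ 2) ^ 2 * (g l ^ 2 * g l' ^ 2) := by
      intro l hl l' hl'
      rw [hE2]
      have h1 := hA l l'
      have h2 : MM L (Sd L S e0) (fun f => w f * (Real.exp (dS L δ f) - 1)) l l' ^ 2 ≤
          (2 * C2 / m * MM L (Sd L S e0) w l l') ^ 2 := by
        rw [← sq_abs]
        exact pow_le_pow_left₀ (abs_nonneg _) h1 2
      have h3 : γ ^ 2 ≤ (1 / (m : ℝ) ^ 2) ^ 2 := pow_le_pow_left₀ hγ0 hγ1 2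
      have h4 : (g l * g l' * γ) ^ 2 ≤ (g l ^ 2 * g l' ^ 2) * (1 / (m : ℝ) ^ 2) ^ 2 := by
        have h5 : (g l * g l' * γ) ^ 2 = (g l ^ 2 * g l' ^ 2) * γ ^ 2 := by ring
        rw [h5]
        exact mul_le_mul_of_nonneg_left h3 (by positivity)
      have h6 := add_sq_le (a := MM L (Sd L S e0) (fun f => w f * (Real.exp (dS L δ f) - 1)) l l')
        (b := g l * g l' * γ)
      have h7 : (2 * C2 / m * MM L (Sd L S e0) w l l') ^ 2 =
        (2 * C2 / m) ^ 2 * MM L (Sd L S e0) w l l' ^ 2 := by ring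
      rw [h7] at h2
      linarith
    have h1 : ∑ l ∈ I \ L e0, ∑ l' ∈ I \ L e0, MM L (Sd L S e0) w l l' ^ 2 ≤ 12 * K := by
      calc ∑ l ∈ I \ L e0, ∑ l' ∈ I \ L e0, MM L (Sd L S e0) w l l' ^ 2 ≤
          ∑ l ∈ I, ∑ l' ∈ I, MM L (Sd L S e0) w l l' ^ 2 := by
            refine le_trans (sum_le_sum fun l _ => sum_le_sum_of_subset_of_nonneg hJI fun l' _ _ => sq_nonneg _) ?_
            exact sum_le_sum_of_subset_of_nonneg hJI fun l _ _ => sum_nonneg fun l' _ => sq_nonneg _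
        _ = (ν : ℝ) * (ν - 1) * ∑ e ∈ Sd L S e0, w e ^ 2 :=
            ea_pair_sq (fun e he => hL.sub e (hSd e he)) (fun e he => hL.card e (hSd e he))
              (fun e he f hf => hL.lin e (hSd e he) f (hSd f hf))
        _ ≤ (ν : ℝ) * (ν - 1) * ∑ e ∈ S, w e ^ 2 :=
            mul_le_mul_of_nonneg_left
              (sum_le_sum_of_subset_of_nonneg (filter_subset _ _) fun e _ _ => sq_nonneg _) hν0
        _ ≤ (ν : ℝ) * (ν - 1) * K := mul_le_mul_of_nonneg_left (ls_w2 hL (by omega)) hν0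
        _ ≤ 12 * K := mul_le_mul_of_nonneg_right hν12 hK0
    have h2 : ∑ l ∈ I \ L e0, ∑ l' ∈ I \ L e0, g l ^ 2 * g l' ^ 2 ≤ (2 * (m : ℝ)) ^ 2 := by
      have h3 : ∑ l ∈ I \ L e0, g l ^ 2 ≤ 2 * (m : ℝ) := by
        rw [← hL.g2]
        exact sum_le_sum_of_subset_of_nonneg hJI fun l' _ _ => sq_nonneg _
      have h4 : 0 ≤ ∑ l ∈ I \ L e0, g l ^ 2 := sum_nonneg fun l _ => sq_nonneg _
      rw [← sum_mul_sum, ← pow_two]
      exact pow_le_pow_left₀ h4 h3 2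
    calc ∑ l ∈ I \ L e0, ∑ l' ∈ I \ L e0, E2r L S w g m e0 δ l l' ^ 2 ≤
        ∑ l ∈ I \ L e0, ∑ l' ∈ I \ L e0, (2 * (2 * C2 / m) ^ 2 * MM L (Sd L S e0) w l l' ^ 2 +
          2 * (1 / (m : ℝ) ^ 2) ^ 2 * (g l ^ 2 * g l' ^ 2)) :=
          sum_le_sum fun l hl => sum_le_sum fun l' hl' => hb l hl l' hl'
      _ = 2 * (2 * C2 / m) ^ 2 * ∑ l ∈ I \ L e0, ∑ l' ∈ I \ L e0, MM L (Sd L S e0) w l l' ^ 2 +
          2 * (1 / (m : ℝ) ^ 2) ^ 2 * ∑ l ∈ I \ L e0, ∑ l' ∈ I \ L e0, g l ^ 2 * g l' ^ 2 := by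
          simp only [sum_add_distrib, mul_sum]
      _ ≤ 2 * (2 * C2 / m) ^ 2 * (12 * K) + 2 * (1 / (m : ℝ) ^ 2) ^ 2 * (2 * (m : ℝ)) ^ 2 :=
          add_le_add (mul_le_mul_of_nonneg_left h1 (by positivity))
            (mul_le_mul_of_nonneg_left h2 (by positivity))
      _ = (96 * (C2 ^ 2 * K) + 8) / (m : ℝ) ^ 2 := by
          field_simp
          ring
      _ ≤ C / (m : ℝ) ^ 2 := by
          refine div_le_div_of_nonneg_right ?_ (by positivity)
          rw [hC]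
          linarith
  · -- the cross term
    have hb : ∀ l ∈ I \ L e0, ∀ l' ∈ I \ L e0, |E1r L S w e0 l l' * E2r L S w g m e0 δ l l'| ≤
        |E1r L S w e0 l l'| * (1 / (m : ℝ) ^ 2) := by
      intro l hl l' hl'
      have h1 : E1r L S w e0 l l' * E2r L S w g m e0 δ l l' = E1r L S w e0 l l' * (g l * g l' * γ) := by
        rw [hE2, E1r]
        have := ea_cross (w := w) hL.lin (e0 := e0) (fun f => w f * (Real.exp (dS L δ f) - 1)) l l'
        linear_combination -this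
      rw [h1, abs_mul]
      refine mul_le_mul_of_nonneg_left ?_ (abs_nonneg _)
      rw [abs_mul, abs_mul, abs_of_nonneg hγ0]
      have h2 : |g l| * |g l'| ≤ 1 :=
        mul_le_one₀ (hgle l (mem_sdiff.mp hl).1) (abs_nonneg _) (hgle l' (mem_sdiff.mp hl').1)
      calc |g l| * |g l'| * γ ≤ 1 * γ := mul_le_mul_of_nonneg_right h2 hγ0
        _ ≤ 1 / (m : ℝ) ^ 2 := by rw [one_mul]; exact hγ1
    calc |∑ l ∈ I \ L e0, ∑ l' ∈ I \ L e0, E1r L S w e0 l l' * E2r L S w g m e0 δ l l'| ≤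
        ∑ l ∈ I \ L e0, ∑ l' ∈ I \ L e0, |E1r L S w e0 l l' * E2r L S w g m e0 δ l l'| :=
          le_trans (abs_sum_le_sum_abs _ _) (sum_le_sum fun l _ => abs_sum_le_sum_abs _ _)
      _ ≤ ∑ l ∈ I \ L e0, ∑ l' ∈ I \ L e0, |E1r L S w e0 l l'| * (1 / (m : ℝ) ^ 2) :=
          sum_le_sum fun l hl => sum_le_sum fun l' hl' => hb l hl l' hl'
      _ = (∑ l ∈ I \ L e0, ∑ l' ∈ I \ L e0, |E1r L S w e0 l l'|) * (1 / (m : ℝ) ^ 2) := by
          simp only [sum_mul]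
      _ ≤ 48 * (1 / (m : ℝ) ^ 2) := mul_le_mul_of_nonneg_right htot (by positivity)
      _ = 48 / (m : ℝ) ^ 2 := by ring
      _ ≤ C / (m : ℝ) ^ 2 := by
          refine div_le_div_of_nonneg_right ?_ (by positivity)
          rw [hC]
          linarith
  · -- the squares of E1
    have h1 := ea_sq (w := w) hL.sub hL.card hL.lin h0
    have h2 : ∀ l ∈ I \ L e0, ∀ l' ∈ I \ L e0, E1r L S w e0 l l' ^ 2 = MM L (Sm L S e0) w l l' ^ 2 := by
      intro l _ l' _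
      rw [E1r, neg_sq]
    rw [sum_congr rfl fun l hl => sum_congr rfl fun l' hl' => h2 l hl l' hl', h1, kap]
    ring

end Pool.Agent.NQF
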