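import Pool.Agent.NQF.Defs
import Pool.Agent.NQF.SDef
import Pool.Agent.NQF.SBas
import Pool.Agent.NQF.SBat
import Pool.Agent.NQF.SMas
import Pool.Agent.NQF.STri
import Pool.Agent.NQF.SNon
import Pool.Agent.NQF.SEa

/-!
# NQF-SEb: the perturbation of the Hessian: trace

PLAN. `∑_J ∑_J h E1r = - ∑_{Sm} w pp2 (L f \ L e0) h` (exchange of sums, `E1r` is the sum over the squares of `Sm`). First part of `E2r`: `∑_{Sd} w (exp (dS δ) - 1) pp2 (L f) h` (`mm_pair`, `L f ⊆ J`); `|pp2 (L f) h| ≤ 12 C0/m` (`Hi.en`, off-diagonal entries),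
`|exp (dS δ) - 1 - dS tu| ≤ |dS Δ| + (dS δ)²`, `∑ w |dS Δ| ≤ √m √(ν C0/m³)` (`ls_w`, `ls_ds`), `∑ w (dS δ)² ≤ C/m`. Gauge part: `∑_{I,I} g h g = ∑ g² = 2m` (`Hi.ga`), the terms with `l` or `l'` in `L e0` change it by at most 8: `(2m + O(1)) (1/(2(m-1)) - 1/(2m)) = 1/m + O(m⁻²)`.
-/

set_option autoImplicit false

open Finset

namespace Pool.Agent.NQF

open Pool.Agent.NQ (board dsum F Ent Dg phi ln Q Qset QS NonAtt bern)
open Pool.Agent.NQR (Adm Opt Bd Rf hS hD hh InR)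
open Pool.Agent.NQL

private theorem eb_cut {α β : Type} [DecidableEq α] [DecidableEq β] (L : β → Finset α) (S : Finset β) (w : β → ℝ)
    {T : Finset α} {l l' : α} (hl : l ∉ T) (hl' : l' ∉ T) :
    MM L S w l l' = MM (fun f => L f \ T) S w l l' := by
  unfold MM
  by_cases h : l = l'
  · rw [if_pos h, if_pos h]
  · rw [if_neg h, if_neg h]
    apply Finset.sum_congr
    · apply Finset.filter_congr
      intro e _
      simp only [Finset.mem_sdiff, hl, hl', not_false_eq_true, and_true]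
    · intro e _
      rfl

private theorem eb_pair {α β : Type} [DecidableEq α] [DecidableEq β] {L : β → Finset α} {S : Finset β} {w : β → ℝ}
    {J : Finset α} (hs : ∀ e ∈ S, L e ⊆ J) (φ : α → α → ℝ) :
    ∑ l ∈ J, ∑ l' ∈ J, φ l l' * MM L S w l l' = ∑ e ∈ S, w e * pp2 (L e) φ := by
  have h := mm_pair (w := w) hs φ
  unfold pp2
  rw [← h]
  refine Finset.sum_congr rfl fun l _ => Finset.sum_congr rfl fun l' _ => ?_
  rw [mul_comm]

private theorem eb_pair_cut {α β : Type} [DecidableEq α] [DecidableEq β] {L : β → Finset α} {S : Finset β} {w : β → ℝ}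
    {I T : Finset α} (hs : ∀ e ∈ S, L e ⊆ I) (φ : α → α → ℝ) :
    ∑ l ∈ I \ T, ∑ l' ∈ I \ T, φ l l' * MM L S w l l' = ∑ e ∈ S, w e * pp2 (L e \ T) φ := by
  have h := eb_pair (L := fun f => L f \ T) (S := S) (w := w) (J := I \ T)
    (fun e he => Finset.sdiff_subset_sdiff (hs e he) (Finset.Subset.refl T)) φ
  rw [← h]
  refine Finset.sum_congr rfl fun l hl => Finset.sum_congr rfl fun l' hl' => ?_
  rw [eb_cut L S w (Finset.mem_sdiff.1 hl).2 (Finset.mem_sdiff.1 hl').2]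

/-- the quadratic form of the gauge vector -/
private theorem eb_gauge {α : Type} [DecidableEq α] {I T : Finset α} (hT : T ⊆ I) {h : α → α → ℝ} {g : α → ℝ}
    (sy : ∀ l l', h l l' = h l' l) (ga : ∀ k ∈ I, ∑ l ∈ I, g l * h l k = g k) :
    ∑ l ∈ I \ T, ∑ l' ∈ I \ T, h l l' * (g l * g l') =
      ∑ l ∈ I, g l ^ 2 - 2 * ∑ l ∈ T, g l ^ 2 + ∑ l ∈ T, ∑ l' ∈ T, h l l' * (g l * g l') := by
  have hI : ∀ B : Finset α, B ⊆ I → ∑ l ∈ I, ∑ l' ∈ B, h l l' * (g l * g l') = ∑ l' ∈ B, g l' ^ 2 := by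
    intro B hB
    rw [Finset.sum_comm]
    refine Finset.sum_congr rfl fun l' hl' => ?_
    have h1 := ga l' (hB hl')
    calc ∑ l ∈ I, h l l' * (g l * g l') = (∑ l ∈ I, g l * h l l') * g l' := by
          rw [Finset.sum_mul]
          exact Finset.sum_congr rfl fun l _ => by ring
      _ = g l' ^ 2 := by rw [h1]; ring
  have hsw : ∀ A B : Finset α, ∑ l ∈ A, ∑ l' ∈ B, h l l' * (g l * g l') =
      ∑ l ∈ B, ∑ l' ∈ A, h l l' * (g l * g l') := by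
    intro A B
    rw [Finset.sum_comm]
    refine Finset.sum_congr rfl fun l' _ => Finset.sum_congr rfl fun l _ => ?_
    rw [sy l l']
    ring
  have h1 := Finset.sum_sdiff hT (f := fun l => ∑ l' ∈ I \ T, h l l' * (g l * g l'))
  have h2 := Finset.sum_sdiff hT (f := fun l => ∑ l' ∈ T, h l l' * (g l * g l'))
  have h3 := Finset.sum_sdiff hT (f := fun l => g l ^ 2)
  rw [hI _ Finset.sdiff_subset] at h1
  rw [hI _ hT] at h2
  rw [hsw T (I \ T)] at h1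
  linarith

private theorem eb_pp {α : Type} [DecidableEq α] {T I : Finset α} {h : α → α → ℝ} {ν m : ℕ} {C0 : ℝ} (hC : 0 ≤ C0)
    (hT : T ⊆ I) (hc : T.card = ν) (hν4 : ν ≤ 4)
    (en : ∀ l ∈ I, ∀ k ∈ I, |h l k - if l = k then 1 else 0| ≤ C0 / m) : |pp2 T h| ≤ 12 * C0 / m := by
  unfold pp2
  have h1 : |∑ l ∈ T, ∑ l' ∈ T.erase l, h l l'| ≤ ∑ l ∈ T, ∑ l' ∈ T.erase l, C0 / m := by
    refine (Finset.abs_sum_le_sum_abs _ _).trans (Finset.sum_le_sum fun l hl => ?_)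
    refine (Finset.abs_sum_le_sum_abs _ _).trans (Finset.sum_le_sum fun l' hl' => ?_)
    have h2 := en l (hT hl) l' (hT (Finset.mem_of_mem_erase hl'))
    rw [if_neg (Finset.ne_of_mem_erase hl').symm, sub_zero] at h2
    exact h2
  refine h1.trans ?_
  have h3 : ∑ l ∈ T, ∑ l' ∈ T.erase l, C0 / (m : ℝ) = ((ν : ℝ) * ((ν - 1 : ℕ) : ℝ)) * (C0 / m) := by
    rw [Finset.sum_congr rfl (fun l hl => by
      rw [Finset.sum_const, Finset.card_erase_of_mem hl, hc, nsmul_eq_mul])]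
    rw [Finset.sum_const, hc, nsmul_eq_mul, mul_assoc]
  rw [h3, mul_div_assoc]
  have h4 : (ν : ℝ) * ((ν - 1 : ℕ) : ℝ) ≤ 12 := by
    interval_cases ν <;> norm_num
  exact mul_le_mul_of_nonneg_right h4 (by positivity)

theorem ls_eb (ν : ℕ) (hν : 2 ≤ ν) (hν4 : ν ≤ 4) (K C0 : ℝ) (hK : 1 ≤ K) (hC0 : 1 ≤ C0) :
    ∃ (C : ℝ) (m0 : ℕ), 1 ≤ C ∧ 2 ≤ m0 ∧ ∀ (α β : Type) [DecidableEq α] [DecidableEq β] (m : ℕ) (I : Finset α)
    (L : β → Finset α) (S : Finset β) (w : β → ℝ) (c g : α → ℝ) (lam : ℝ) (h : α → α → ℝ), m0 ≤ m →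
      LSys ν m K lam I L S w c g → Hi C0 m I (AA L S w g m) g h → ∀ e0 ∈ S, ∀ δ Δ : α → ℝ,
      (∀ f ∈ Sd L S e0, dS L δ f = dS L (tu L h e0) f + dS L Δ f) → (∀ l, l ∉ I \ L e0 → Δ l = 0) →
      ∑ l ∈ I, Δ l ^ 2 ≤ C0 / m ^ 3 →
      |∑ l ∈ I \ L e0, ∑ l' ∈ I \ L e0, h l l' * (E1r L S w e0 l l' + E2r L S w g m e0 δ l l') -
        (T1 L S w h e0 + 1 / m)| ≤ C / m ^ 2 := by
  obtain ⟨C1, m1, hC1, hm1, h1⟩ := ls_non ν hν hν4 K C0 hK hC0
  obtain ⟨C2, m2, hC2, hm2, h2⟩ := ls_ea ν hν hν4 K C0 hK hC0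
  refine ⟨12 * C0 * (2 * C1 + 8 * C0 + (1 + 4 * C0) / 2) + 18 + 16 * C0, max (max m1 m2) ⌈C2⌉₊, ?_,
    le_max_of_le_left (le_max_of_le_left hm1), ?_⟩
  · have : 0 ≤ 12 * C0 * (2 * C1 + 8 * C0 + (1 + 4 * C0) / 2) := by positivity
    linarith
  intro α β _ _ m I L S w c g lam h hm hS hH e0 he0 δ Δ hδ hΔ hΔ2
  have hmm1 : m1 ≤ m := (le_max_left _ _).trans ((le_max_left _ _).trans hm)
  have hmm2 : m2 ≤ m := (le_max_right _ _).trans ((le_max_left _ _).trans hm)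
  have hmC : C2 ≤ m := by
    have h3 : ⌈C2⌉₊ ≤ m := (le_max_right _ _).trans hm
    exact (Nat.le_ceil C2).trans (by exact_mod_cast h3)
  have hm2' : 2 ≤ m := hm1.trans hmm1
  have hmR : (2 : ℝ) ≤ m := by exact_mod_cast hm2'
  have hmpos : (0 : ℝ) < m := by linarith
  obtain ⟨n1, n2, -⟩ := h1 α β m I L S w c g lam h hmm1 hS hH e0 he0
  obtain ⟨-, a1, -⟩ := h2 α β m I L S w c g lam h hmm2 hS hH e0 he0 δ Δ hδ hΔ hΔ2
  have hdsub : ∀ f ∈ Sd L S e0, f ∈ S := fun f hf => (Finset.mem_filter.1 hf).1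
  have hmsub : ∀ f ∈ Sm L S e0, f ∈ S := fun f hf => (Finset.mem_filter.1 hf).1
  have hL0 : L e0 ⊆ I := hS.sub e0 he0
  -- the three parts
  have hA : ∑ l ∈ I \ L e0, ∑ l' ∈ I \ L e0, h l l' * MM L (Sm L S e0) w l l' =
      ∑ f ∈ Sm L S e0, w f * pp2 (L f \ L e0) h := eb_pair_cut (fun f hf => hS.sub f (hmsub f hf)) h
  have hB : ∑ l ∈ I \ L e0, ∑ l' ∈ I \ L e0,
      h l l' * MM L (Sd L S e0) (fun f => w f * (Real.exp (dS L δ f) - 1)) l l' =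
      ∑ f ∈ Sd L S e0, w f * (Real.exp (dS L δ f) - 1) * pp2 (L f) h := by
    refine eb_pair (fun f hf l hl => ?_) h
    rw [Finset.mem_sdiff]
    exact ⟨hS.sub f (hdsub f hf) hl, fun hl0 =>
      (Finset.disjoint_left.1 (Finset.mem_filter.1 hf).2) hl hl0⟩
  have hG := eb_gauge hL0 hH.sy hH.ga
  rw [hS.g2, hS.ge2 e0 he0] at hG
  set R : ℝ := ∑ l ∈ L e0, ∑ l' ∈ L e0, h l l' * (g l * g l') with hR
  set D : ℝ := 1 / (2 * ((m - 1 : ℕ) : ℝ)) - 1 / (2 * m) with hD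
  have hsum : ∑ l ∈ I \ L e0, ∑ l' ∈ I \ L e0, h l l' * (E1r L S w e0 l l' + E2r L S w g m e0 δ l l') =
      -(∑ f ∈ Sm L S e0, w f * pp2 (L f \ L e0) h) +
        ∑ f ∈ Sd L S e0, w f * (Real.exp (dS L δ f) - 1) * pp2 (L f) h + D * (2 * m - 2 * 2 + R) := by
    rw [← hA, ← hB, ← hG, Finset.mul_sum, ← Finset.sum_neg_distrib, ← Finset.sum_add_distrib,
      ← Finset.sum_add_distrib]
    refine Finset.sum_congr rfl fun l _ => ?_
    rw [Finset.mul_sum, ← Finset.sum_neg_distrib, ← Finset.sum_add_distrib, ← Finset.sum_add_distrib]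
    refine Finset.sum_congr rfl fun l' _ => ?_
    unfold E1r E2r
    rw [hD]
    ring
  have hT1 : T1 L S w h e0 = ∑ f ∈ Sd L S e0, w f * dS L (tu L h e0) f * pp2 (L f) h -
      ∑ f ∈ Sm L S e0, w f * pp2 (L f \ L e0) h := rfl
  have hdiff : ∑ l ∈ I \ L e0, ∑ l' ∈ I \ L e0, h l l' * (E1r L S w e0 l l' + E2r L S w g m e0 δ l l') -
      (T1 L S w h e0 + 1 / m) =
      ∑ f ∈ Sd L S e0, w f * (Real.exp (dS L δ f) - 1 - dS L (tu L h e0) f) * pp2 (L f) h +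
        (D * (2 * m - 2 * 2 + R) - 1 / m) := by
    have h5 : ∑ f ∈ Sd L S e0, w f * (Real.exp (dS L δ f) - 1 - dS L (tu L h e0) f) * pp2 (L f) h =
        ∑ f ∈ Sd L S e0, w f * (Real.exp (dS L δ f) - 1) * pp2 (L f) h -
          ∑ f ∈ Sd L S e0, w f * dS L (tu L h e0) f * pp2 (L f) h := by
      rw [← Finset.sum_sub_distrib]
      exact Finset.sum_congr rfl fun f _ => by ring
    rw [hsum, hT1, h5]
    ring
  -- the first part
  have hpt : ∀ f ∈ Sd L S e0, |Real.exp (dS L δ f) - 1 - dS L (tu L h e0) f| ≤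
      2 * dS L (tu L h e0) f ^ 2 + (2 + (m : ℝ) ^ 2 / 2) * dS L Δ f ^ 2 + 1 / (2 * (m : ℝ) ^ 2) := by
    intro f hf
    have b1 : |dS L δ f| ≤ 1 := (a1 f hf).trans (by
      rw [div_le_one hmpos]
      exact hmC)
    have b2 := Real.abs_exp_sub_one_sub_id_le b1
    have b3 := hδ f hf
    have b4 : Real.exp (dS L δ f) - 1 - dS L (tu L h e0) f =
        (Real.exp (dS L δ f) - 1 - dS L δ f) + dS L Δ f := by rw [b3]; ring
    rw [b4]
    refine (abs_add_le _ _).trans ?_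
    have b5 : dS L δ f ^ 2 ≤ 2 * dS L (tu L h e0) f ^ 2 + 2 * dS L Δ f ^ 2 := by
      rw [b3]
      nlinarith [sq_nonneg (dS L (tu L h e0) f - dS L Δ f)]
    have b6 : |dS L Δ f| ≤ (m : ℝ) ^ 2 / 2 * dS L Δ f ^ 2 + 1 / (2 * (m : ℝ) ^ 2) := by
      have b7 : 0 ≤ (1 / (m : ℝ) - m * |dS L Δ f|) ^ 2 := sq_nonneg _
      have b8 : (1 / (m : ℝ) - m * |dS L Δ f|) ^ 2 =
          2 * ((m : ℝ) ^ 2 / 2 * dS L Δ f ^ 2 + 1 / (2 * (m : ℝ) ^ 2)) - 2 * |dS L Δ f| := by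
        rw [← sq_abs (dS L Δ f)]
        field_simp
        ring
      rw [b8] at b7
      linarith
    linarith
  have hw0 : ∀ f ∈ S, 0 ≤ w f := hS.wnn
  have hr : ∑ f ∈ Sd L S e0, w f * dS L Δ f ^ 2 ≤ 4 * (C0 / m ^ 3) := by
    have c1 : ∑ f ∈ Sd L S e0, w f * dS L Δ f ^ 2 ≤ ∑ f ∈ S, w f * dS L Δ f ^ 2 :=
      Finset.sum_le_sum_of_subset_of_nonneg (Finset.filter_subset _ _)
        (fun f hf _ => mul_nonneg (hw0 f hf) (sq_nonneg _))
    have c2 := ls_ds hS Δ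
    have c3 : (ν : ℝ) ≤ 4 := by exact_mod_cast hν4
    have c4 : 0 ≤ ∑ l ∈ I, Δ l ^ 2 := Finset.sum_nonneg fun l _ => sq_nonneg _
    have c5 : (ν : ℝ) * ∑ l ∈ I, Δ l ^ 2 ≤ 4 * (C0 / m ^ 3) := mul_le_mul c3 hΔ2 c4 (by norm_num)
    linarith
  have hws : ∑ f ∈ Sd L S e0, w f ≤ m := by
    rw [← ls_w hS]
    exact Finset.sum_le_sum_of_subset_of_nonneg (Finset.filter_subset _ _) (fun f hf _ => hw0 f hf)
  have hW : ∑ f ∈ Sd L S e0, w f * |Real.exp (dS L δ f) - 1 - dS L (tu L h e0) f| ≤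
      (2 * C1 + 8 * C0 + (1 + 4 * C0) / 2) / m := by
    have d1 : ∑ f ∈ Sd L S e0, w f * |Real.exp (dS L δ f) - 1 - dS L (tu L h e0) f| ≤
        ∑ f ∈ Sd L S e0, w f * (2 * dS L (tu L h e0) f ^ 2 + (2 + (m : ℝ) ^ 2 / 2) * dS L Δ f ^ 2 +
          1 / (2 * (m : ℝ) ^ 2)) :=
      Finset.sum_le_sum fun f hf => mul_le_mul_of_nonneg_left (hpt f hf) (hw0 f (hdsub f hf))
    have d2 : ∑ f ∈ Sd L S e0, w f * (2 * dS L (tu L h e0) f ^ 2 + (2 + (m : ℝ) ^ 2 / 2) * dS L Δ f ^ 2 +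
          1 / (2 * (m : ℝ) ^ 2)) = 2 * ∑ f ∈ Sd L S e0, w f * dS L (tu L h e0) f ^ 2 +
          (2 + (m : ℝ) ^ 2 / 2) * ∑ f ∈ Sd L S e0, w f * dS L Δ f ^ 2 +
          1 / (2 * (m : ℝ) ^ 2) * ∑ f ∈ Sd L S e0, w f := by
      rw [Finset.mul_sum, Finset.mul_sum, Finset.mul_sum, ← Finset.sum_add_distrib, ← Finset.sum_add_distrib]
      exact Finset.sum_congr rfl fun f _ => by ring
    have d3 : (2 + (m : ℝ) ^ 2 / 2) * ∑ f ∈ Sd L S e0, w f * dS L Δ f ^ 2 ≤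
        (2 + (m : ℝ) ^ 2 / 2) * (4 * (C0 / m ^ 3)) := mul_le_mul_of_nonneg_left hr (by positivity)
    have d4 : 1 / (2 * (m : ℝ) ^ 2) * ∑ f ∈ Sd L S e0, w f ≤ 1 / (2 * (m : ℝ) ^ 2) * m :=
      mul_le_mul_of_nonneg_left hws (by positivity)
    have d5 : 8 * (C0 / (m : ℝ) ^ 3) ≤ 8 * (C0 / m) := by
      have e1 : C0 / (m : ℝ) ^ 3 ≤ C0 / m := by
        apply div_le_div_of_nonneg_left (by linarith) hmpos
        nlinarith [mul_pos hmpos hmpos]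
      linarith
    have d6 : 2 * (C1 / (m : ℝ)) + (2 + (m : ℝ) ^ 2 / 2) * (4 * (C0 / m ^ 3)) + 1 / (2 * (m : ℝ) ^ 2) * m =
        8 * (C0 / (m : ℝ) ^ 3) + (2 * C1 + (1 + 4 * C0) / 2) / m := by
      field_simp
      ring
    have d7 : (2 * C1 + 8 * C0 + (1 + 4 * C0) / 2) / (m : ℝ) =
        8 * (C0 / (m : ℝ)) + (2 * C1 + (1 + 4 * C0) / 2) / m := by
      field_simp
      ring
    rw [d7]
    linarith
  have hfirst : |∑ f ∈ Sd L S e0, w f * (Real.exp (dS L δ f) - 1 - dS L (tu L h e0) f) * pp2 (L f) h| ≤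
      12 * C0 * (2 * C1 + 8 * C0 + (1 + 4 * C0) / 2) / m ^ 2 := by
    have c0 : (0 : ℝ) ≤ C0 := by linarith
    have d1 : |∑ f ∈ Sd L S e0, w f * (Real.exp (dS L δ f) - 1 - dS L (tu L h e0) f) * pp2 (L f) h| ≤
        ∑ f ∈ Sd L S e0, w f * |Real.exp (dS L δ f) - 1 - dS L (tu L h e0) f| * (12 * C0 / m) := by
      refine (Finset.abs_sum_le_sum_abs _ _).trans (Finset.sum_le_sum fun f hf => ?_)
      rw [abs_mul, abs_mul, abs_of_nonneg (hw0 f (hdsub f hf))]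
      exact mul_le_mul_of_nonneg_left (eb_pp c0 (hS.sub f (hdsub f hf)) (hS.card f (hdsub f hf)) hν4 hH.en)
        (mul_nonneg (hw0 f (hdsub f hf)) (abs_nonneg _))
    rw [← Finset.sum_mul] at d1
    have d2 : (∑ f ∈ Sd L S e0, w f * |Real.exp (dS L δ f) - 1 - dS L (tu L h e0) f|) * (12 * C0 / m) ≤
        (2 * C1 + 8 * C0 + (1 + 4 * C0) / 2) / m * (12 * C0 / m) :=
      mul_le_mul_of_nonneg_right hW (by positivity)
    have d3 : (2 * C1 + 8 * C0 + (1 + 4 * C0) / 2) / m * (12 * C0 / m) =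
        12 * C0 * (2 * C1 + 8 * C0 + (1 + 4 * C0) / 2) / (m : ℝ) ^ 2 := by
      field_simp
    linarith
  -- the gauge part
  have hRb : |R| ≤ 16 + 16 * C0 := by
    have e1 : |R| ≤ ∑ l ∈ L e0, ∑ l' ∈ L e0, (1 + C0) := by
      rw [hR]
      refine (Finset.abs_sum_le_sum_abs _ _).trans (Finset.sum_le_sum fun l hl => ?_)
      refine (Finset.abs_sum_le_sum_abs _ _).trans (Finset.sum_le_sum fun l' hl' => ?_)
      have f1 := hH.en l (hL0 hl) l' (hL0 hl')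
      have f2 : C0 / (m : ℝ) ≤ C0 := div_le_self (by linarith) (by linarith)
      have f3 : |if l = l' then (1 : ℝ) else 0| ≤ 1 := by
        split_ifs <;> simp
      have f4 : |h l l'| ≤ 1 + C0 := by
        have f5 : h l l' = (h l l' - if l = l' then 1 else 0) + (if l = l' then 1 else 0) := by ring
        rw [f5]
        refine (abs_add_le _ _).trans ?_
        linarith
      have gb : ∀ k ∈ I, |g k| ≤ 1 := by
        intro k hk
        rcases hS.gv k hk with h7 | h7 | h7 <;> rw [h7] <;> simp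
      rw [abs_mul, abs_mul]
      have f6 : |g l| * |g l'| ≤ 1 := by
        have := mul_le_mul (gb l (hL0 hl)) (gb l' (hL0 hl')) (abs_nonneg _) zero_le_one
        rwa [one_mul] at this
      calc |h l l'| * (|g l| * |g l'|) ≤ (1 + C0) * 1 :=
            mul_le_mul f4 f6 (by positivity) (by linarith)
        _ = 1 + C0 := mul_one _
    have e2 : ∑ l ∈ L e0, ∑ l' ∈ L e0, (1 + C0) = (ν : ℝ) * (ν * (1 + C0)) := by
      simp only [Finset.sum_const, hS.card e0 he0, nsmul_eq_mul]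
    rw [e2] at e1
    have e3 : (ν : ℝ) ≤ 4 := by exact_mod_cast hν4
    have e4 : (ν : ℝ) * (ν * (1 + C0)) ≤ 4 * (4 * (1 + C0)) := by
      have e5 : (ν : ℝ) * (1 + C0) ≤ 4 * (1 + C0) := mul_le_mul_of_nonneg_right e3 (by linarith)
      exact mul_le_mul e3 e5 (by positivity) (by norm_num)
    linarith
  have hgauge : |D * (2 * m - 2 * 2 + R) - 1 / m| ≤ (18 + 16 * C0) / m ^ 2 := by
    have e1 : ((m - 1 : ℕ) : ℝ) = (m : ℝ) - 1 := by
      rw [Nat.cast_sub (by omega)]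
      simp
    have hm1p : (0 : ℝ) < (m : ℝ) - 1 := by linarith
    have e2 : D * (2 * m - 2 * 2 + R) - 1 / m = (R - 2) / (2 * m * (m - 1)) := by
      rw [hD, e1]
      field_simp
      ring
    rw [e2, abs_div, abs_of_pos (show (0 : ℝ) < 2 * m * (m - 1) by positivity)]
    have e3 : |R - 2| ≤ 18 + 16 * C0 := by
      have := abs_sub R 2
      have e4 : |(2 : ℝ)| = 2 := by norm_num
      rw [e4] at this
      linarith
    have e5 : (m : ℝ) ^ 2 ≤ 2 * m * (m - 1) := by nlinarith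
    exact div_le_div₀ (by linarith) e3 (by positivity) e5
  rw [hdiff]
  refine (abs_add_le _ _).trans ?_
  have hfin : (12 * C0 * (2 * C1 + 8 * C0 + (1 + 4 * C0) / 2) + 18 + 16 * C0) / (m : ℝ) ^ 2 =
      12 * C0 * (2 * C1 + 8 * C0 + (1 + 4 * C0) / 2) / (m : ℝ) ^ 2 + (18 + 16 * C0) / (m : ℝ) ^ 2 := by
    rw [← add_div]
    ring
  rw [hfin]
  exact add_le_add hfirst hgauge

end Pool.Agent.NQF
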