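import Pool.Agent.NQF.Defs
import Pool.Agent.NQF.SDef
import Pool.Agent.NQF.SBas
import Pool.Agent.NQF.SBat
import Pool.Agent.NQF.SMas
import Pool.Agent.NQF.STri
import Pool.Agent.NQF.SNon

/-!
# NQF-SSq: change of the sum of squares
-/

set_option autoImplicit false

open Finset

namespace Pool.Agent.NQF

open Pool.Agent.NQ (board dsum F Ent Dg phi ln Q Qset QS NonAtt bern)
open Pool.Agent.NQR (Adm Opt Bd Rf hS hD hh InR)
open Pool.Agent.NQL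

private theorem exp_aux {s D t : ℝ} (ht : t = s + D) (h1 : |2 * t| ≤ 1) :
    |Real.exp (2 * t) - 1 - 2 * s| ≤ 8 * s ^ 2 + 8 * D ^ 2 + 2 * |D| := by
  have h2 := Real.abs_exp_sub_one_sub_id_le h1
  have h3 : Real.exp (2 * t) - 1 - 2 * s = (Real.exp (2 * t) - 1 - 2 * t) + 2 * D := by
    rw [ht]
    ring
  have h4 : |2 * D| = 2 * |D| := by rw [abs_mul, abs_two]
  rw [h3]
  refine (abs_add_le _ _).trans ?_
  rw [h4]
  have h5 : (2 * t) ^ 2 ≤ 8 * s ^ 2 + 8 * D ^ 2 := by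
    rw [ht]
    nlinarith [sq_nonneg (s - D)]
  linarith

private theorem ds_sq {α β : Type} [DecidableEq α] (L : β → Finset α) {I : Finset α} (u : α → ℝ) {f : β}
    (hf : L f ⊆ I) {ν : ℕ} (hc : (L f).card = ν) : dS L u f ^ 2 ≤ ν * ∑ l ∈ I, u l ^ 2 := by
  have h1 : dS L u f ^ 2 ≤ (L f).card * ∑ l ∈ L f, u l ^ 2 := sq_sum_le_card_mul_sum_sq
  rw [hc] at h1
  refine h1.trans (mul_le_mul_of_nonneg_left ?_ (Nat.cast_nonneg _))
  exact Finset.sum_le_sum_of_subset_of_nonneg hf fun l _ _ => sq_nonneg _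

theorem ls_sq (ν : ℕ) (hν : 2 ≤ ν) (hν4 : ν ≤ 4) (K C0 : ℝ) (hK : 1 ≤ K) (hC0 : 1 ≤ C0) :
    ∃ (C : ℝ) (m0 : ℕ), 1 ≤ C ∧ 2 ≤ m0 ∧ ∀ (α β : Type) [DecidableEq α] [DecidableEq β] (m : ℕ) (I : Finset α)
    (L : β → Finset α) (S : Finset β) (w : β → ℝ) (c g : α → ℝ) (lam : ℝ) (h : α → α → ℝ), m0 ≤ m →
      LSys ν m K lam I L S w c g → Hi C0 m I (AA L S w g m) g h → ∀ e0 ∈ S, ∀ δ Δ : α → ℝ,
      (∀ f ∈ Sd L S e0, dS L δ f = dS L (tu L h e0) f + dS L Δ f) → (∀ l, l ∉ I \ L e0 → Δ l = 0) →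
      ∑ l ∈ I, Δ l ^ 2 ≤ C0 / m ^ 3 →
      |∑ f ∈ Sd L S e0, (w f * Real.exp (dS L δ f)) ^ 2 - ∑ f ∈ S, w f ^ 2 -
        (2 * ∑ f ∈ Sd L S e0, w f ^ 2 * dS L (tu L h e0) f - ∑ f ∈ Sm L S e0, w f ^ 2 - w e0 ^ 2)| ≤
        C / m ^ 2 := by
  obtain ⟨C1, m1, hC1, hm1, H⟩ := ls_non ν hν hν4 K C0 hK hC0
  have hν0 : (0 : ℝ) ≤ ν := Nat.cast_nonneg _
  have hν1 : (2 : ℝ) ≤ ν := by exact_mod_cast hν
  have hν5 : (ν : ℝ) ≤ 4 := by exact_mod_cast hν4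
  have hνC : 0 ≤ (ν : ℝ) * C0 := mul_nonneg hν0 (by linarith)
  refine ⟨K * (8 * C1 + 9 * (ν * C0) + 1), max m1 (max ⌈4 * C1⌉₊ ⌈64 * C0⌉₊), ?_, ?_, ?_⟩
  · nlinarith
  · exact hm1.trans (le_max_left _ _)
  intro α β _ _ m I L S w c g lam h hm hS hh e0 he0 δ Δ hδ hΔ0 hΔ
  have hm2 : m1 ≤ m := (le_max_left _ _).trans hm
  have hm3 : 4 * C1 ≤ m :=
    (Nat.le_ceil _).trans (by exact_mod_cast ((le_max_left _ _).trans (le_max_right _ _)).trans hm)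
  have hm4 : 64 * C0 ≤ m :=
    (Nat.le_ceil _).trans (by exact_mod_cast ((le_max_right _ _).trans (le_max_right _ _)).trans hm)
  have hm0 : (0 : ℝ) < m := by linarith
  have hm5 : (1 : ℝ) ≤ m := by linarith
  obtain ⟨hs1, hs2, -⟩ := H α β m I L S w c g lam h hm2 hS hh e0 he0
  have hSd : ∀ f ∈ Sd L S e0, f ∈ S := fun f hf => (Finset.mem_filter.1 hf).1
  have hne : (L e0).Nonempty := by
    rw [← Finset.card_pos, hS.card e0 he0]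
    omega
  have hD1 : ∀ f ∈ Sd L S e0, |dS L Δ f| ≤ 1 / 4 := by
    intro f hf
    have h1 := ds_sq L Δ (hS.sub f (hSd f hf)) (hS.card f (hSd f hf))
    have h2 : (ν : ℝ) * ∑ l ∈ I, Δ l ^ 2 ≤ 4 * (C0 / m ^ 3) :=
      mul_le_mul hν5 hΔ (Finset.sum_nonneg fun _ _ => sq_nonneg _) (by norm_num)
    have h3 : 4 * (C0 / (m : ℝ) ^ 3) ≤ (1 / 4) ^ 2 := by
      rw [← mul_div_assoc, div_le_iff₀ (by positivity)]
      have h4 : (m : ℝ) ≤ (m : ℝ) ^ 3 := by nlinarith [mul_self_nonneg ((m : ℝ) - 1), mul_pos hm0 hm0]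
      linarith
    exact abs_le_of_sq_le_sq (h1.trans (h2.trans h3)) (by norm_num)
  have ht1 : ∀ f ∈ Sd L S e0, |2 * dS L δ f| ≤ 1 := by
    intro f hf
    rw [abs_mul, abs_two, hδ f hf]
    have h1 := abs_add_le (dS L (tu L h e0) f) (dS L Δ f)
    have h2 := hs1 f hf
    have h3 := hD1 f hf
    have h4 : C1 / m ≤ 1 / 4 := by
      rw [div_le_div_iff₀ hm0 (by norm_num)]
      linarith
    linarith
  have hwm : ∑ f ∈ Sd L S e0, w f ≤ m := by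
    rw [← ls_w hS]
    exact Finset.sum_le_sum_of_subset_of_nonneg (Finset.filter_subset _ _) fun f hf _ => hS.wnn f hf
  have hwD : ∑ f ∈ Sd L S e0, w f * dS L Δ f ^ 2 ≤ ν * C0 / m ^ 3 := by
    have h1 : ∑ f ∈ Sd L S e0, w f * dS L Δ f ^ 2 ≤ ∑ f ∈ S, w f * dS L Δ f ^ 2 :=
      Finset.sum_le_sum_of_subset_of_nonneg (Finset.filter_subset _ _)
        fun f hf _ => mul_nonneg (hS.wnn f hf) (sq_nonneg _)
    refine h1.trans ((ls_ds hS Δ).trans ?_)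
    rw [mul_div_assoc]
    exact mul_le_mul_of_nonneg_left hΔ hν0
  have hwa : ∑ f ∈ Sd L S e0, w f * |dS L Δ f| ≤ (1 + ν * C0) / (2 * m) := by
    have h1 : ∀ f ∈ Sd L S e0, w f * |dS L Δ f| ≤
        1 / (2 * m ^ 2) * w f + m ^ 2 / 2 * (w f * dS L Δ f ^ 2) := by
      intro f hf
      have h2 : |dS L Δ f| ≤ 1 / (2 * m ^ 2) + m ^ 2 / 2 * dS L Δ f ^ 2 := by
        rw [← sq_abs (dS L Δ f)]
        have h3 : 1 / (2 * (m : ℝ) ^ 2) + m ^ 2 / 2 * |dS L Δ f| ^ 2 - |dS L Δ f| =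
            (1 / m - m * |dS L Δ f|) ^ 2 / 2 := by
          field_simp
          ring
        have h4 : 0 ≤ (1 / m - m * |dS L Δ f|) ^ 2 / 2 := by positivity
        linarith
      have h5 := mul_le_mul_of_nonneg_left h2 (hS.wnn f (hSd f hf))
      linarith [h5]
    refine (Finset.sum_le_sum h1).trans ?_
    rw [Finset.sum_add_distrib, ← Finset.mul_sum, ← Finset.mul_sum]
    have h6 : 1 / (2 * (m : ℝ) ^ 2) * ∑ f ∈ Sd L S e0, w f ≤ 1 / (2 * (m : ℝ) ^ 2) * m :=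
      mul_le_mul_of_nonneg_left hwm (by positivity)
    have h7 : (m : ℝ) ^ 2 / 2 * ∑ f ∈ Sd L S e0, w f * dS L Δ f ^ 2 ≤ (m : ℝ) ^ 2 / 2 * (ν * C0 / m ^ 3) :=
      mul_le_mul_of_nonneg_left hwD (by positivity)
    have h8 : 1 / (2 * (m : ℝ) ^ 2) * m + (m : ℝ) ^ 2 / 2 * (ν * C0 / m ^ 3) = (1 + ν * C0) / (2 * m) := by
      field_simp
    linarith
  have hww : ∀ G : β → ℝ, (∀ f, 0 ≤ G f) →
      ∑ f ∈ Sd L S e0, w f ^ 2 * G f ≤ K / m * ∑ f ∈ Sd L S e0, w f * G f := by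
    intro G hG
    rw [Finset.mul_sum]
    refine Finset.sum_le_sum fun f hf => ?_
    have h1 := hS.up f (hSd f hf)
    have h2 := hS.wnn f (hSd f hf)
    have h3 : w f * (w f * G f) ≤ K / m * (w f * G f) :=
      mul_le_mul_of_nonneg_right h1 (mul_nonneg h2 (hG f))
    rw [sq, mul_assoc]
    exact h3
  have hexp : ∑ f ∈ Sd L S e0, (w f * Real.exp (dS L δ f)) ^ 2 - ∑ f ∈ S, w f ^ 2 -
      (2 * ∑ f ∈ Sd L S e0, w f ^ 2 * dS L (tu L h e0) f - ∑ f ∈ Sm L S e0, w f ^ 2 - w e0 ^ 2) =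
      ∑ f ∈ Sd L S e0, w f ^ 2 * (Real.exp (2 * dS L δ f) - 1 - 2 * dS L (tu L h e0) f) := by
    rw [split_sum he0 hne (fun f => w f ^ 2)]
    have h1 : ∑ f ∈ Sd L S e0, w f ^ 2 * (Real.exp (2 * dS L δ f) - 1 - 2 * dS L (tu L h e0) f) =
        ∑ f ∈ Sd L S e0, (w f * Real.exp (dS L δ f)) ^ 2 - ∑ f ∈ Sd L S e0, w f ^ 2 -
          2 * ∑ f ∈ Sd L S e0, w f ^ 2 * dS L (tu L h e0) f := by
      rw [Finset.mul_sum, ← Finset.sum_sub_distrib, ← Finset.sum_sub_distrib]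
      refine Finset.sum_congr rfl fun f _ => ?_
      have h2 : Real.exp (2 * dS L δ f) = Real.exp (dS L δ f) ^ 2 := by
        rw [two_mul, Real.exp_add, sq]
      rw [h2]
      ring
    rw [h1]
    ring
  rw [hexp]
  have hb : |∑ f ∈ Sd L S e0, w f ^ 2 * (Real.exp (2 * dS L δ f) - 1 - 2 * dS L (tu L h e0) f)| ≤
      ∑ f ∈ Sd L S e0, w f ^ 2 * (8 * dS L (tu L h e0) f ^ 2 + 8 * dS L Δ f ^ 2 + 2 * |dS L Δ f|) := by
    refine (Finset.abs_sum_le_sum_abs _ _).trans (Finset.sum_le_sum fun f hf => ?_)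
    rw [abs_mul, abs_of_nonneg (sq_nonneg (w f))]
    exact mul_le_mul_of_nonneg_left (exp_aux (hδ f hf) (ht1 f hf)) (sq_nonneg _)
  refine hb.trans ((hww _ fun f => by positivity).trans ?_)
  have hsum : ∑ f ∈ Sd L S e0, w f * (8 * dS L (tu L h e0) f ^ 2 + 8 * dS L Δ f ^ 2 + 2 * |dS L Δ f|) =
      8 * ∑ f ∈ Sd L S e0, w f * dS L (tu L h e0) f ^ 2 + 8 * ∑ f ∈ Sd L S e0, w f * dS L Δ f ^ 2 +
        2 * ∑ f ∈ Sd L S e0, w f * |dS L Δ f| := by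
    rw [Finset.mul_sum, Finset.mul_sum, Finset.mul_sum, ← Finset.sum_add_distrib,
      ← Finset.sum_add_distrib]
    exact Finset.sum_congr rfl fun f _ => by ring
  rw [hsum]
  have hD3 : (ν : ℝ) * C0 / m ^ 3 ≤ ν * C0 / m := by
    refine div_le_div_of_nonneg_left hνC hm0 ?_
    nlinarith [mul_self_nonneg ((m : ℝ) - 1), mul_pos hm0 hm0]
  have hfin : 8 * ∑ f ∈ Sd L S e0, w f * dS L (tu L h e0) f ^ 2 + 8 * ∑ f ∈ Sd L S e0, w f * dS L Δ f ^ 2 +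
      2 * ∑ f ∈ Sd L S e0, w f * |dS L Δ f| ≤ (8 * C1 + 9 * (ν * C0) + 1) / m := by
    have h1 : (8 * C1 + 9 * (ν * C0) + 1) / (m : ℝ) =
        8 * (C1 / m) + 8 * (ν * C0 / m) + 2 * ((1 + ν * C0) / (2 * m)) := by
      field_simp
      ring
    rw [h1]
    linarith
  have hfin2 := mul_le_mul_of_nonneg_left hfin (show (0 : ℝ) ≤ K / m by positivity)
  refine hfin2.trans (le_of_eq ?_)
  field_simp

end Pool.Agent.NQF
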