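import Pool.Agent.NQF.Defs
import Pool.Agent.NQF.SDef
import Pool.Agent.NQF.SBas
import Pool.Agent.NQF.SBat
import Pool.Agent.NQF.SMas
import Pool.Agent.NQF.STri
import Pool.Agent.NQF.SNon

/-!
# NQF-SVal: value at the trial direction (Taylor expansion of order two)
-/

set_option autoImplicit false

open Finset

namespace Pool.Agent.NQF

open Pool.Agent.NQ (board dsum F Ent Dg phi ln Q Qset QS NonAtt bern)
open Pool.Agent.NQR (Adm Opt Bd Rf hS hD hh InR)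
open Pool.Agent.NQL

private theorem exp3 {t : ℝ} (h : |t| ≤ 1) : |Real.exp t - 1 - t - t ^ 2 / 2| ≤ |t| ^ 3 := by
  have h1 := Real.exp_bound h (n := 3) (by norm_num)
  have h2 : (∑ m ∈ range 3, t ^ m / (m.factorial : ℝ)) = 1 + t + t ^ 2 / 2 := by
    simp [Finset.sum_range_succ, Nat.factorial]
  rw [h2] at h1
  have h3 : Real.exp t - 1 - t - t ^ 2 / 2 = Real.exp t - (1 + t + t ^ 2 / 2) := by ring
  rw [h3]
  refine h1.trans ?_
  have h4 : (0 : ℝ) ≤ |t| ^ 3 := by positivity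
  have h5 : (((3 : ℕ).succ : ℝ) / (((3 : ℕ).factorial : ℝ) * (3 : ℕ))) ≤ 1 := by
    norm_num [Nat.factorial]
  calc |t| ^ 3 * (((3 : ℕ).succ : ℝ) / (((3 : ℕ).factorial : ℝ) * (3 : ℕ))) ≤ |t| ^ 3 * 1 :=
        mul_le_mul_of_nonneg_left h5 h4
    _ = |t| ^ 3 := mul_one _

section

variable {α β : Type} [DecidableEq α] [DecidableEq β] {ν m : ℕ} {K lam : ℝ} {I : Finset α}
  {L : β → Finset α} {S : Finset β} {w : β → ℝ} {c g : α → ℝ} {h : α → α → ℝ} {C0 : ℝ} {e0 : β}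

private theorem zeroth (hs : LSys ν m K lam I L S w c g) (hν : 2 ≤ ν) (h0 : e0 ∈ S) :
    ∑ f ∈ Sd L S e0, w f + ∑ l ∈ I \ L e0, c l - (∑ f ∈ S, w f + ∑ l ∈ I, c l) + ν =
      ((ν : ℝ) - 1) * w e0 := by
  have hn : (L e0).Nonempty := by
    rw [← Finset.card_pos, hs.card e0 h0]
    omega
  have h1 := split_sum h0 hn w
  have h2 := sm_sum hs.lin h0 w
  have h3 : ∑ l ∈ I \ L e0, c l + ∑ l ∈ L e0, c l = ∑ l ∈ I, c l := Finset.sum_sdiff (hs.sub e0 h0)
  have h4 : ∀ k ∈ L e0, ∑ f ∈ (Sr L S k).erase e0, w f = 1 - c k - w e0 := by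
    intro k hk
    have h5 : e0 ∈ Sr L S k := Finset.mem_filter.2 ⟨h0, hk⟩
    have h6 := Finset.sum_erase_add (Sr L S k) w h5
    have h7 := hs.st k (hs.sub e0 h0 hk)
    linarith
  rw [Finset.sum_congr rfl h4, Finset.sum_sub_distrib, Finset.sum_sub_distrib, Finset.sum_const,
    Finset.sum_const, hs.card e0 h0, nsmul_eq_mul, nsmul_eq_mul, mul_one] at h2
  rw [h1, ← h3, h2]
  ring

private theorem sr_split {l : α} (hl : l ∉ L e0) (G : β → ℝ) :
    ∑ f ∈ Sr L S l, G f = ∑ f ∈ Sr L (Sd L S e0) l, G f + ∑ f ∈ Sr L (Sm L S e0) l, G f := by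
  rw [← Finset.sum_union]
  · refine Finset.sum_congr ?_ fun _ _ => rfl
    ext f
    unfold Sr Sd Sm
    simp only [Finset.mem_filter, Finset.mem_union]
    constructor
    · rintro ⟨h1, h2⟩
      by_cases h3 : Disjoint (L f) (L e0)
      · exact Or.inl ⟨⟨h1, h3⟩, h2⟩
      · refine Or.inr ⟨⟨h1, h3, ?_⟩, h2⟩
        rintro rfl
        exact hl h2
    · rintro (⟨⟨h1, _⟩, h2⟩ | ⟨⟨h1, _⟩, h2⟩)
      · exact ⟨h1, h2⟩
      · exact ⟨h1, h2⟩
  · rw [Finset.disjoint_left]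
    intro f h1 h2
    unfold Sr Sd at h1
    unfold Sr Sm at h2
    simp only [Finset.mem_filter] at h1 h2
    exact h2.1.2.1 h1.1.2

private theorem bsum (hs : LSys ν m K lam I L S w c g) (hh : Hi C0 m I (AA L S w g m) g h)
    (h0 : e0 ∈ S) :
    ∑ l ∈ I, tu L h e0 l * ∑ k ∈ L e0, MM L S w l k = -((ν : ℝ) - ta L h e0) := by
  have hsub := hs.sub e0 h0
  have h1 : ∀ k ∈ L e0, ∀ k' ∈ L e0, ∑ l ∈ I, MM L S w k l * h l k' =
      (if k = k' then 1 else 0) - h k k' - g k * g k' / (2 * m) := by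
    intro k hk k' hk'
    have h2 := hh.inv k (hsub hk) k' (hsub hk')
    have h3 := hh.ga k' (hsub hk')
    have h4 : ∑ l ∈ I, AA L S w g m k l * h l k' =
        ∑ l ∈ I, (if k = l then 1 else 0) * h l k' + ∑ l ∈ I, MM L S w k l * h l k' +
          g k / (2 * m) * ∑ l ∈ I, g l * h l k' := by
      rw [Finset.mul_sum, ← Finset.sum_add_distrib, ← Finset.sum_add_distrib]
      refine Finset.sum_congr rfl fun l _ => ?_
      unfold AA
      ring
    have h5 : ∑ l ∈ I, (if k = l then (1 : ℝ) else 0) * h l k' = h k k' := by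
      rw [Finset.sum_eq_single k]
      · rw [if_pos rfl, one_mul]
      · intro l _ hl
        rw [if_neg (Ne.symm hl), zero_mul]
      · intro hk''
        exact absurd (hsub hk) hk''
    rw [h4, h5, h3] at h2
    linarith [h2, (by ring : g k / (2 * (m : ℝ)) * g k' = g k * g k' / (2 * m))]
  have h2 : ∀ l ∈ I, tu L h e0 l * ∑ k ∈ L e0, MM L S w l k =
      -∑ k ∈ L e0, ∑ k' ∈ L e0, MM L S w k l * h l k' := by
    intro l _
    unfold tu
    rw [neg_mul, Finset.sum_mul_sum, Finset.sum_comm]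
    refine congrArg Neg.neg (Finset.sum_congr rfl fun k _ => Finset.sum_congr rfl fun k' _ => ?_)
    rw [mm_sym L S w l k, mul_comm]
  rw [Finset.sum_congr rfl h2, Finset.sum_neg_distrib, Finset.sum_comm]
  have h3 : ∀ k ∈ L e0, ∑ l ∈ I, ∑ k' ∈ L e0, MM L S w k l * h l k' =
      1 - ∑ k' ∈ L e0, h k k' - g k * (∑ k' ∈ L e0, g k') / (2 * m) := by
    intro k hk
    rw [Finset.sum_comm, Finset.sum_congr rfl fun k' hk' => h1 k hk k' hk', Finset.sum_sub_distrib,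
      Finset.sum_sub_distrib, Finset.sum_ite_eq, if_pos hk, Finset.mul_sum, Finset.sum_div]
  rw [Finset.sum_congr rfl h3, hs.ge e0 h0]
  unfold ta
  simp only [mul_zero, zero_div, sub_zero]
  rw [Finset.sum_sub_distrib, Finset.sum_const, hs.card e0 h0, nsmul_eq_mul, mul_one]

private theorem bline (hs : LSys ν m K lam I L S w c g) (hν : 2 ≤ ν) (h0 : e0 ∈ S) (u : α → ℝ) :
    ∑ l ∈ L e0, u l * ∑ k ∈ L e0, MM L S w l k = ((ν : ℝ) - 1) * w e0 * ∑ l ∈ L e0, u l := by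
  rw [Finset.mul_sum]
  refine Finset.sum_congr rfl fun l hl => ?_
  have h1 : ∑ k ∈ L e0, MM L S w l k = ((ν : ℝ) - 1) * w e0 := by
    rw [← Finset.add_sum_erase (L e0) _ hl, mm_self, zero_add]
    have h2 : ∀ k ∈ (L e0).erase l, MM L S w l k = w e0 := by
      intro k hk
      have h3 := Finset.mem_erase.1 hk
      exact mm_eq hs.lin h0 hl h3.2 (Ne.symm h3.1)
    rw [Finset.sum_congr rfl h2, Finset.sum_const, Finset.card_erase_of_mem hl, hs.card e0 h0,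
      nsmul_eq_mul, Nat.cast_sub (by omega), Nat.cast_one]
  rw [h1]
  ring

omit [DecidableEq β] in
private theorem sd_sub (hs : LSys ν m K lam I L S w c g) : ∀ f ∈ Sd L S e0, L f ⊆ I \ L e0 := by
  intro f hf l hl
  have h1 := Finset.mem_filter.1 hf
  exact Finset.mem_sdiff.2 ⟨hs.sub f h1.1 hl, fun h2 => Finset.disjoint_left.1 h1.2 hl h2⟩

end

theorem ls_val (ν : ℕ) (hν : 2 ≤ ν) (hν4 : ν ≤ 4) (K C0 : ℝ) (hK : 1 ≤ K) (hC0 : 1 ≤ C0) :
    ∃ (C : ℝ) (m0 : ℕ), 1 ≤ C ∧ 2 ≤ m0 ∧ ∀ (α β : Type) [DecidableEq α] [DecidableEq β] (m : ℕ) (I : Finset α)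
    (L : β → Finset α) (S : Finset β) (w : β → ℝ) (c g : α → ℝ) (lam : ℝ) (h : α → α → ℝ), m0 ≤ m →
      LSys ν m K lam I L S w c g → Hi C0 m I (AA L S w g m) g h → ∀ e0 ∈ S,
      |DV1 ν I L S w c e0 (tu L h e0) - xi1 ν L w h e0| ≤ C / m ^ 2 := by
  obtain ⟨C1, hC1, tri⟩ := ls_tri ν hν hν4 K C0 hK hC0
  obtain ⟨C2, m2, hC2, hm2, non⟩ := ls_non ν hν hν4 K C0 hK hC0
  refine ⟨C1 + C2 ^ 2 + C1 ^ 2 + 6 * K * C1, max m2 (max ⌈C1⌉₊ ⌈C2⌉₊), ?_, ?_, ?_⟩
  · nlinarith [sq_nonneg C2, sq_nonneg C1, mul_nonneg (zero_le_one.trans hK) (zero_le_one.trans hC1)]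
  · exact hm2.trans (le_max_left _ _)
  intro α β _ _ m I L S w c g lam h hm hs hh e0 h0
  have hmm2 : m2 ≤ m := (le_max_left _ _).trans hm
  have hmC1 : C1 ≤ m := by
    have h1 : ⌈C1⌉₊ ≤ m := (le_max_left _ _).trans ((le_max_right _ _).trans hm)
    exact (Nat.le_ceil C1).trans (by exact_mod_cast h1)
  have hmC2 : C2 ≤ m := by
    have h1 : ⌈C2⌉₊ ≤ m := (le_max_right _ _).trans ((le_max_right _ _).trans hm)
    exact (Nat.le_ceil C2).trans (by exact_mod_cast h1)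
  have hm1 : 1 ≤ m := by omega
  have hmR : (0 : ℝ) < m := by exact_mod_cast hm1
  obtain ⟨t1, t2, t3, _, _, _, t7⟩ := tri α β m I L S w c g lam h hm1 hs hh e0 h0
  obtain ⟨n1, n2, _⟩ := non α β m I L S w c g lam h hmm2 hs hh e0 h0
  obtain ⟨u, hu⟩ : ∃ u, u = tu L h e0 := ⟨_, rfl⟩
  rw [← hu] at t1 t2 t3 t7 n1 n2 ⊢
  obtain ⟨b, hb⟩ : ∃ b : α → ℝ, b = fun l => ∑ k ∈ L e0, MM L S w l k := ⟨_, rfl⟩
  obtain ⟨ln', hln⟩ : ∃ ln' : α → ℝ, ln' = fun l => ∑ f ∈ Sr L (Sd L S e0) l, w f * (1 + dS L u f) +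
      c l * (1 + u l) - 1 := ⟨_, rfl⟩
  have hsd := sd_sub (e0 := e0) hs
  have hwnn : ∀ f ∈ Sd L S e0, 0 ≤ w f := fun f hf => hs.wnn f (Finset.mem_filter.1 hf).1
  have hcJ : ∀ l ∈ I \ L e0, 0 ≤ c l ∧ c l ≤ 1 := by
    intro l hl
    have hlI := (Finset.mem_sdiff.1 hl).1
    have h1 := hs.st l hlI
    have h2 : 0 ≤ ∑ e ∈ Sr L S l, w e :=
      Finset.sum_nonneg fun e he => hs.wnn e (Finset.mem_filter.1 he).1
    exact ⟨hs.cnn l hlI, by linarith⟩
  -- the linear relations on `J`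
  have e1 : ∀ l ∈ I \ L e0, ∑ f ∈ Sr L (Sd L S e0) l, w f + c l - 1 = -b l := by
    intro l hl
    obtain ⟨hlI, hlL⟩ := Finset.mem_sdiff.1 hl
    have h1 := hs.st l hlI
    have h2 := sr_split (S := S) hlL w
    have h3 := sm_line (w := w) hs.lin h0 hlL
    rw [hb]
    simp only
    linarith
  have e2 : ∀ l ∈ I \ L e0, ∑ f ∈ Sr L (Sd L S e0) l, w f * dS L u f + c l * u l = b l + ln' l := by
    intro l hl
    have h1 := e1 l hl
    have h2 : ∑ f ∈ Sr L (Sd L S e0) l, w f * (1 + dS L u f) =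
        ∑ f ∈ Sr L (Sd L S e0) l, w f + ∑ f ∈ Sr L (Sd L S e0) l, w f * dS L u f := by
      rw [← Finset.sum_add_distrib]
      exact Finset.sum_congr rfl fun f _ => by ring
    rw [hln]
    simp only
    rw [h2]
    linarith
  have e3 : ∑ f ∈ Sd L S e0, w f * dS L u f = ∑ l ∈ I \ L e0, u l * ∑ f ∈ Sr L (Sd L S e0) l, w f := by
    have h1 := sr_sum hsd (fun f l => w f * u l)
    have h2 : ∑ f ∈ Sd L S e0, w f * dS L u f = ∑ f ∈ Sd L S e0, ∑ l ∈ L f, w f * u l := by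
      refine Finset.sum_congr rfl fun f _ => ?_
      unfold dS
      rw [Finset.mul_sum]
    rw [h2, ← h1]
    refine Finset.sum_congr rfl fun l _ => ?_
    rw [Finset.mul_sum]
    exact Finset.sum_congr rfl fun f _ => mul_comm _ _
  have e4 : ∑ f ∈ Sd L S e0, w f * dS L u f ^ 2 =
      ∑ l ∈ I \ L e0, u l * ∑ f ∈ Sr L (Sd L S e0) l, w f * dS L u f := by
    have h1 := sr_sum hsd (fun f l => w f * dS L u f * u l)
    have h2 : ∑ f ∈ Sd L S e0, w f * dS L u f ^ 2 =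
        ∑ f ∈ Sd L S e0, ∑ l ∈ L f, w f * dS L u f * u l := by
      refine Finset.sum_congr rfl fun f _ => ?_
      rw [← Finset.mul_sum, pow_two, mul_assoc]
      rfl
    rw [h2, ← h1]
    refine Finset.sum_congr rfl fun l _ => ?_
    rw [Finset.mul_sum]
    exact Finset.sum_congr rfl fun f _ => by ring
  -- the remainders
  obtain ⟨R, hR⟩ : ∃ R : ℝ → ℝ, R = fun t => Real.exp t - 1 - t - t ^ 2 / 2 := ⟨_, rfl⟩
  have hRb : ∀ t, |t| ≤ 1 → |R t| ≤ |t| ^ 3 := by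
    intro t ht
    rw [hR]
    exact exp3 ht
  obtain ⟨Cb, hCb⟩ : ∃ x : ℝ, x = ∑ f ∈ Sd L S e0, w f * R (dS L u f) + ∑ l ∈ I \ L e0, c l * R (u l) :=
    ⟨_, rfl⟩
  have hdv : DV1 ν I L S w c e0 u = ((ν : ℝ) - 1) * w e0 - (∑ l ∈ I \ L e0, u l * b l) / 2 +
      (∑ l ∈ I \ L e0, u l * ln' l) / 2 + Cb := by
    have h1 := zeroth hs hν h0
    have h2 : ∑ f ∈ Sd L S e0, w f * Real.exp (dS L u f) = ∑ f ∈ Sd L S e0, w f +
        ∑ f ∈ Sd L S e0, w f * dS L u f + (∑ f ∈ Sd L S e0, w f * dS L u f ^ 2) / 2 +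
          ∑ f ∈ Sd L S e0, w f * R (dS L u f) := by
      rw [Finset.sum_div, ← Finset.sum_add_distrib, ← Finset.sum_add_distrib, ← Finset.sum_add_distrib]
      refine Finset.sum_congr rfl fun f _ => ?_
      rw [hR]
      ring
    have h3 : ∑ l ∈ I \ L e0, (c l * Real.exp (u l) - u l) = ∑ l ∈ I \ L e0, c l +
        ∑ l ∈ I \ L e0, u l * (c l - 1) + (∑ l ∈ I \ L e0, u l * (c l * u l)) / 2 +
          ∑ l ∈ I \ L e0, c l * R (u l) := by
      rw [Finset.sum_div, ← Finset.sum_add_distrib, ← Finset.sum_add_distrib, ← Finset.sum_add_distrib]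
      refine Finset.sum_congr rfl fun l _ => ?_
      rw [hR]
      ring
    have h4 : ∑ l ∈ I \ L e0, u l * ∑ f ∈ Sr L (Sd L S e0) l, w f + ∑ l ∈ I \ L e0, u l * (c l - 1) =
        -∑ l ∈ I \ L e0, u l * b l := by
      rw [← Finset.sum_add_distrib, ← Finset.sum_neg_distrib]
      refine Finset.sum_congr rfl fun l hl => ?_
      have := e1 l hl
      linear_combination u l * this
    have h5 : ∑ l ∈ I \ L e0, u l * ∑ f ∈ Sr L (Sd L S e0) l, w f * dS L u f +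
        ∑ l ∈ I \ L e0, u l * (c l * u l) = ∑ l ∈ I \ L e0, u l * b l + ∑ l ∈ I \ L e0, u l * ln' l := by
      rw [← Finset.sum_add_distrib, ← Finset.sum_add_distrib]
      refine Finset.sum_congr rfl fun l hl => ?_
      have := e2 l hl
      linear_combination u l * this
    unfold DV1
    rw [h2, h3, e3, e4, hCb]
    linear_combination h1 + h4 + h5 / 2
  have hJ : ∑ l ∈ I \ L e0, u l * b l = -((ν : ℝ) - ta L h e0) -
      ((ν : ℝ) - 1) * w e0 * ∑ l ∈ L e0, u l := by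
    have h1 := bsum hs hh h0
    have h2 := bline hs hν h0 u
    have h3 : ∑ l ∈ I \ L e0, u l * b l + ∑ l ∈ L e0, u l * b l = ∑ l ∈ I, u l * b l :=
      Finset.sum_sdiff (hs.sub e0 h0)
    rw [← hu] at h1
    rw [hb] at h3 ⊢
    simp only at h3 ⊢
    linarith
  have hfin : DV1 ν I L S w c e0 u - xi1 ν L w h e0 =
      ((ν : ℝ) - 1) * w e0 * (∑ l ∈ L e0, u l + ν) / 2 + (∑ l ∈ I \ L e0, u l * ln' l) / 2 + Cb := by
    rw [hdv, hJ]
    unfold xi1 kap
    ring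
  -- estimates
  have hνR : (2 : ℝ) ≤ ν ∧ (ν : ℝ) ≤ 4 := ⟨by exact_mod_cast hν, by exact_mod_cast hν4⟩
  have b1 : |((ν : ℝ) - 1) * w e0 * (∑ l ∈ L e0, u l + ν) / 2| ≤ 6 * K * C1 / m ^ 2 := by
    have h1 : |∑ l ∈ L e0, u l + ν| ≤ ν * (C1 / m) := by
      have h2 : ∑ l ∈ L e0, u l + (ν : ℝ) = ∑ l ∈ L e0, (u l + 1) := by
        rw [Finset.sum_add_distrib, Finset.sum_const, hs.card e0 h0, nsmul_eq_mul, mul_one]
      rw [h2]
      refine (Finset.abs_sum_le_sum_abs _ _).trans ?_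
      refine (Finset.sum_le_sum fun l hl => t3 l hl).trans ?_
      rw [Finset.sum_const, hs.card e0 h0, nsmul_eq_mul]
    have h3 : |w e0| ≤ K / m := by
      rw [abs_of_nonneg (hs.wnn e0 h0)]
      exact hs.up e0 h0
    have h4 : |(ν : ℝ) - 1| ≤ 3 := by
      rw [abs_of_nonneg (by linarith)]
      linarith
    have h6 : (ν : ℝ) * (C1 / m) ≤ 4 * (C1 / m) :=
      mul_le_mul_of_nonneg_right hνR.2 (by positivity)
    have h5 : |((ν : ℝ) - 1) * w e0 * (∑ l ∈ L e0, u l + ν)| ≤ 3 * (K / m) * (4 * (C1 / m)) := by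
      rw [abs_mul, abs_mul]
      exact mul_le_mul (mul_le_mul h4 h3 (abs_nonneg _) (by norm_num)) (h1.trans h6) (abs_nonneg _)
        (by positivity)
    rw [abs_div, abs_two]
    have h7 : 3 * (K / m) * (4 * (C1 / m)) / 2 = 6 * K * C1 / (m : ℝ) ^ 2 := by
      field_simp
      ring
    rw [← h7]
    exact div_le_div_of_nonneg_right h5 (by norm_num)
  have b2 : |(∑ l ∈ I \ L e0, u l * ln' l) / 2| ≤ C1 / m ^ 2 := by
    have h1 : (∑ l ∈ I \ L e0, u l * ln' l) ^ 2 ≤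
        (∑ l ∈ I \ L e0, u l ^ 2) * ∑ l ∈ I \ L e0, ln' l ^ 2 :=
      Finset.sum_mul_sq_le_sq_mul_sq _ _ _
    have h2 : ∑ l ∈ I \ L e0, ln' l ^ 2 ≤ C1 / m ^ 3 := by
      rw [hln]
      exact t7
    have h3 : (∑ l ∈ I \ L e0, u l * ln' l) ^ 2 ≤ (C1 / m ^ 2) ^ 2 := by
      refine h1.trans ?_
      have h4 : (C1 / (m : ℝ) ^ 2) ^ 2 = C1 / m * (C1 / m ^ 3) := by
        field_simp
      rw [h4]
      exact mul_le_mul t2 h2 (Finset.sum_nonneg fun _ _ => sq_nonneg _) (by positivity)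
    have h5 : |∑ l ∈ I \ L e0, u l * ln' l| ≤ C1 / m ^ 2 := abs_le_of_sq_le_sq h3 (by positivity)
    rw [abs_div, abs_two]
    have h6 : 0 ≤ |∑ l ∈ I \ L e0, u l * ln' l| := abs_nonneg _
    linarith
  have b3 : |Cb| ≤ C2 ^ 2 / m ^ 2 + C1 ^ 2 / m ^ 2 := by
    rw [hCb]
    refine (abs_add_le _ _).trans (add_le_add ?_ ?_)
    · refine (Finset.abs_sum_le_sum_abs _ _).trans ?_
      have h1 : ∀ f ∈ Sd L S e0, |w f * R (dS L u f)| ≤ C2 / m * (w f * dS L u f ^ 2) := by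
        intro f hf
        have h2 := n1 f hf
        have h3 : |dS L u f| ≤ 1 := h2.trans ((div_le_one hmR).2 hmC2)
        rw [abs_mul, abs_of_nonneg (hwnn f hf)]
        have h4 : |R (dS L u f)| ≤ C2 / m * dS L u f ^ 2 := by
          refine (hRb _ h3).trans ?_
          have h5 : |dS L u f| ^ 3 = |dS L u f| * dS L u f ^ 2 := by
            rw [← sq_abs (dS L u f)]
            ring
          rw [h5]
          exact mul_le_mul_of_nonneg_right h2 (sq_nonneg _)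
        calc w f * |R (dS L u f)| ≤ w f * (C2 / m * dS L u f ^ 2) :=
              mul_le_mul_of_nonneg_left h4 (hwnn f hf)
          _ = C2 / m * (w f * dS L u f ^ 2) := by ring
      refine (Finset.sum_le_sum h1).trans ?_
      rw [← Finset.mul_sum]
      have h6 : C2 ^ 2 / (m : ℝ) ^ 2 = C2 / m * (C2 / m) := by
        field_simp
      rw [h6]
      exact mul_le_mul_of_nonneg_left n2 (by positivity)
    · refine (Finset.abs_sum_le_sum_abs _ _).trans ?_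
      have h1 : ∀ l ∈ I \ L e0, |c l * R (u l)| ≤ C1 / m * u l ^ 2 := by
        intro l hl
        have h2 := t1 l hl
        have h3 : |u l| ≤ 1 := h2.trans ((div_le_one hmR).2 hmC1)
        rw [abs_mul, abs_of_nonneg (hcJ l hl).1]
        have h4 : |R (u l)| ≤ C1 / m * u l ^ 2 := by
          refine (hRb _ h3).trans ?_
          have h5 : |u l| ^ 3 = |u l| * u l ^ 2 := by
            rw [← sq_abs (u l)]
            ring
          rw [h5]
          exact mul_le_mul_of_nonneg_right h2 (sq_nonneg _)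
        calc c l * |R (u l)| ≤ 1 * (C1 / m * u l ^ 2) :=
              mul_le_mul (hcJ l hl).2 h4 (abs_nonneg _) (by norm_num)
          _ = C1 / m * u l ^ 2 := one_mul _
      refine (Finset.sum_le_sum h1).trans ?_
      rw [← Finset.mul_sum]
      have h6 : C1 ^ 2 / (m : ℝ) ^ 2 = C1 / m * (C1 / m) := by
        field_simp
      rw [h6]
      exact mul_le_mul_of_nonneg_left t2 (by positivity)
  rw [hfin]
  have h1 : (C1 + C2 ^ 2 + C1 ^ 2 + 6 * K * C1) / (m : ℝ) ^ 2 =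
      6 * K * C1 / m ^ 2 + C1 / m ^ 2 + (C2 ^ 2 / m ^ 2 + C1 ^ 2 / m ^ 2) := by
    ring
  rw [h1]
  exact (abs_add_le _ _).trans (add_le_add ((abs_add_le _ _).trans (add_le_add b1 b2)) b3)

end Pool.Agent.NQF
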