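import Pool.Agent.NQF.Defs
import Pool.Agent.NQF.SDef
import Pool.Agent.NQF.SBas
import Pool.Agent.NQF.SBat
import Pool.Agent.NQF.SMas
import Pool.Agent.NQF.STri
import Pool.Agent.NQF.SNon
import Pool.Agent.NQF.SVal
import Pool.Agent.NQF.SCls
import Pool.Agent.NQF.SDet
import Pool.Agent.NQF.SEa
import Pool.Agent.NQF.SEb
import Pool.Agent.NQF.SSq

/-!
# NQF-SEta: the exponent eta

The change of the second order value if one square is removed, up to `O(m⁻²)`.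
-/

set_option autoImplicit false

open Finset

namespace Pool.Agent.NQF

open Pool.Agent.NQ (board dsum F Ent Dg phi ln Q Qset QS NonAtt bern)
open Pool.Agent.NQR (Adm Opt Bd Rf hS hD hh InR)
open Pool.Agent.NQL

private theorem hi_mono {α : Type} [DecidableEq α] {C C' : ℝ} {m : ℕ} {I : Finset α} {A : α → α → ℝ}
    {g : α → ℝ} {h : α → α → ℝ} (hC : C ≤ C') (H : Hi C m I A g h) : Hi C' m I A g h where
  sy := H.sy
  out := H.out
  inv := H.inv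
  ga := H.ga
  en := fun l hl k hk => (H.en l hl k hk).trans (by gcongr)
  co := fun k hk => (H.co k hk).trans (by gcongr)
  hs := H.hs.trans hC
  op := fun u => (H.op u).trans (by gcongr)

private theorem ld_congr {α : Type} [DecidableEq α] {I : Finset α} {A B : α → α → ℝ}
    (h : ∀ l ∈ I, ∀ l' ∈ I, A l l' = B l l') : LD I A = LD I B := by
  unfold LD
  have e : (Matrix.of (fun i j : I => A i j)) = Matrix.of (fun i j : I => B i j) := by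
    ext i j
    exact h i.1 i.2 j.1 j.2
  rw [e]

private theorem aa_sym {α β : Type} [DecidableEq α] [DecidableEq β] (L : β → Finset α) (S : Finset β)
    (w : β → ℝ) (g : α → ℝ) (m : ℕ) (l l' : α) : AA L S w g m l l' = AA L S w g m l' l := by
  unfold AA
  rw [mm_sym L S w l l', mul_comm (g l) (g l')]
  congr 2
  by_cases h : l = l'
  · rw [if_pos h, if_pos h.symm]
  · rw [if_neg h, if_neg (fun h' => h h'.symm)]

private theorem kap_bd {ν : ℕ} (hν : 2 ≤ ν) (hν4 : ν ≤ 4) : 0 ≤ kap ν ∧ kap ν ≤ 3 / 2 := by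
  have h1 : (2 : ℝ) ≤ ν := by exact_mod_cast hν
  have h2 : (ν : ℝ) ≤ 4 := by exact_mod_cast hν4
  unfold kap
  constructor
  · have : 0 ≤ ((ν : ℝ) - 1) * (ν - 2) := mul_nonneg (by linarith) (by linarith)
    linarith
  · nlinarith

private theorem log_bd {m : ℕ} (hm : 2 ≤ m) :
    |Real.log (((m : ℝ) - 1) / m) / 2 + 1 / (2 * m)| ≤ 1 / (m : ℝ) ^ 2 := by
  have h1 : (2 : ℝ) ≤ m := by exact_mod_cast hm
  have h0 : (0 : ℝ) < m := by linarith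
  have hx : |(1 / (m : ℝ))| < 1 := by
    rw [abs_of_pos (by positivity), div_lt_one h0]
    linarith
  have h2 := Real.abs_log_sub_add_sum_range_le hx 1
  rw [Finset.sum_range_one, abs_of_pos (show (0 : ℝ) < 1 / m by positivity)] at h2
  norm_num at h2
  have e : ((m : ℝ) - 1) / m = 1 - (m : ℝ)⁻¹ := by
    field_simp
  rw [e]
  have h3 : ((m : ℝ) ^ 2)⁻¹ / (1 - (m : ℝ)⁻¹) ≤ 2 / (m : ℝ) ^ 2 := by
    have h4 : (1 / 2 : ℝ) ≤ 1 - (m : ℝ)⁻¹ := by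
      have : (m : ℝ)⁻¹ ≤ 1 / 2 := by
        rw [inv_le_comm₀ h0 (by norm_num)]
        linarith
      linarith
    rw [div_le_iff₀ (by linarith)]
    have h5 : ((m : ℝ) ^ 2)⁻¹ = 2 / (m : ℝ) ^ 2 * (1 / 2) := by field_simp
    rw [h5]
    gcongr
  have e2 : Real.log (1 - (m : ℝ)⁻¹) / 2 + 1 / (2 * m) = ((m : ℝ)⁻¹ + Real.log (1 - (m : ℝ)⁻¹)) / 2 := by
    field_simp
    ring
  rw [e2, abs_div, abs_of_pos (show (0 : ℝ) < 2 by norm_num)]
  have h6 : |(m : ℝ)⁻¹ + Real.log (1 - (m : ℝ)⁻¹)| ≤ 2 / (m : ℝ) ^ 2 := h2.trans h3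
  have h7 : 2 / (m : ℝ) ^ 2 = 2 * (1 / (m : ℝ) ^ 2) := by ring
  rw [h7] at h6
  linarith

private theorem pp2_bd {α : Type} [DecidableEq α] {C0 : ℝ} {m : ℕ} {I : Finset α} {A : α → α → ℝ}
    {g : α → ℝ} {h : α → α → ℝ} (hC : 0 ≤ C0) (H : Hi C0 m I A g h) {T : Finset α} (hT : T ⊆ I)
    (hc : T.card ≤ 4) : |pp2 T h| ≤ 16 * (C0 / m) := by
  have h0 : 0 ≤ C0 / m := by positivity
  unfold pp2
  refine (abs_sum_le_sum_abs _ _).trans ?_
  have h1 : ∀ l ∈ T, |∑ l' ∈ T.erase l, h l l'| ≤ 4 * (C0 / m) := by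
    intro l hl
    refine (abs_sum_le_sum_abs _ _).trans ?_
    have h2 : ∀ l' ∈ T.erase l, |h l l'| ≤ C0 / m := by
      intro l' hl'
      have h3 := H.en l (hT hl) l' (hT (mem_of_mem_erase hl'))
      rw [if_neg (fun h' => (ne_of_mem_erase hl') h'.symm), sub_zero] at h3
      exact h3
    refine (sum_le_card_nsmul _ _ _ h2).trans ?_
    rw [nsmul_eq_mul]
    refine mul_le_mul_of_nonneg_right ?_ h0
    exact_mod_cast (card_erase_le).trans hc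
  refine (sum_le_card_nsmul _ _ _ h1).trans ?_
  rw [nsmul_eq_mul]
  have h4 : (T.card : ℝ) ≤ 4 := by exact_mod_cast hc
  nlinarith

private theorem ta_bd {α β : Type} [DecidableEq α] {C0 : ℝ} {m ν : ℕ} {I : Finset α} {A : α → α → ℝ}
    {g : α → ℝ} {h : α → α → ℝ} (L : β → Finset α) (hC : 0 ≤ C0) (H : Hi C0 m I A g h) {e : β}
    (hT : L e ⊆ I) (hc : (L e).card = ν) (hν4 : ν ≤ 4) : |ta L h e - ν| ≤ 16 * (C0 / m) := by
  have h0 : 0 ≤ C0 / m := by positivity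
  have e1 : (ν : ℝ) = ∑ k ∈ L e, ∑ k' ∈ L e, (if k = k' then (1 : ℝ) else 0) := by
    have : ∀ k ∈ L e, ∑ k' ∈ L e, (if k = k' then (1 : ℝ) else 0) = 1 := by
      intro k hk
      rw [sum_ite_eq, if_pos hk]
    rw [sum_congr rfl this, sum_const, hc, nsmul_eq_mul, mul_one]
  have e2 : ta L h e - ν = ∑ k ∈ L e, ∑ k' ∈ L e, (h k k' - if k = k' then (1 : ℝ) else 0) := by
    rw [e1]
    unfold ta
    simp only [sum_sub_distrib]
  rw [e2]
  have hc4 : ((L e).card : ℝ) ≤ 4 := by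
    rw [hc]
    exact_mod_cast hν4
  refine (abs_sum_le_sum_abs _ _).trans ?_
  have h1 : ∀ k ∈ L e, |∑ k' ∈ L e, (h k k' - if k = k' then (1 : ℝ) else 0)| ≤ 4 * (C0 / m) := by
    intro k hk
    refine (abs_sum_le_sum_abs _ _).trans ?_
    refine (sum_le_card_nsmul _ _ _ fun k' hk' => H.en k (hT hk) k' (hT hk')).trans ?_
    rw [nsmul_eq_mul]
    exact mul_le_mul_of_nonneg_right hc4 h0
  refine (sum_le_card_nsmul _ _ _ h1).trans ?_
  rw [nsmul_eq_mul]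
  nlinarith

private theorem hkk_bd {α β : Type} [DecidableEq α] {C0 : ℝ} {m ν : ℕ} {I : Finset α} {A : α → α → ℝ}
    {g : α → ℝ} {h : α → α → ℝ} (L : β → Finset α) (hC : 0 ≤ C0) (H : Hi C0 m I A g h) {e : β}
    (hT : L e ⊆ I) (hc : (L e).card = ν) (hν4 : ν ≤ 4) : |∑ k ∈ L e, (h k k - 1)| ≤ 4 * (C0 / m) := by
  have h0 : 0 ≤ C0 / m := by positivity
  have hc4 : ((L e).card : ℝ) ≤ 4 := by
    rw [hc]
    exact_mod_cast hν4
  refine (abs_sum_le_sum_abs _ _).trans ?_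
  have h1 : ∀ k ∈ L e, |h k k - 1| ≤ C0 / m := by
    intro k hk
    have h3 := H.en k (hT hk) k (hT hk)
    rw [if_pos rfl] at h3
    exact h3
  refine (sum_le_card_nsmul _ _ _ h1).trans ?_
  rw [nsmul_eq_mul]
  exact mul_le_mul_of_nonneg_right hc4 h0

private theorem eta_bd {α β : Type} [DecidableEq α] [DecidableEq β] {ν m : ℕ} (hν : 2 ≤ ν) (hν4 : ν ≤ 4)
    {K lam C0 C7 : ℝ} (hK : 1 ≤ K) (hC0 : 1 ≤ C0) (hC7 : 1 ≤ C7) (hm : 1 ≤ m) {I : Finset α}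
    {L : β → Finset α} {S : Finset β} {w : β → ℝ} {c g : α → ℝ} {h : α → α → ℝ}
    (hs : LSys ν m K lam I L S w c g) (H : Hi C0 m I (AA L S w g m) g h) {e0 : β} (he : e0 ∈ S)
    (hd : ∀ f ∈ Sd L S e0, |dS L (tu L h e0) f| ≤ C7 / m) :
    |eta ν m L S w h e0| ≤ (8 * C0 + 3 * K + 1 + (2 * C0 + 8 * C7 * C0 + 32 * C0 + 1) + 12 * K + 2 * K ^ 2 +
      3 * K * C7) / m := by
  obtain ⟨hk0, hk1⟩ := kap_bd hν hν4
  have hm0 : (0 : ℝ) < m := by exact_mod_cast hm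
  have hm1 : (1 : ℝ) ≤ m := by exact_mod_cast hm
  have hν4' : (ν : ℝ) ≤ 4 := by exact_mod_cast hν4
  have b1 := ta_bd L (by linarith) H (hs.sub e0 he) (hs.card e0 he) hν4
  have b2 := hkk_bd L (by linarith) H (hs.sub e0 he) (hs.card e0 he) hν4
  have hw0 := hs.wnn e0 he
  have hwK := hs.up e0 he
  have hSdS : Sd L S e0 ⊆ S := filter_subset _ _
  have hSmS : Sm L S e0 ⊆ S := filter_subset _ _
  have hC0m : 0 ≤ C0 / m := by positivity
  have hC7m : 0 ≤ C7 / m := by positivity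
  -- T1
  have t1 : |∑ f ∈ Sd L S e0, w f * dS L (tu L h e0) f * pp2 (L f) h| ≤ 16 * C7 * (C0 / m) := by
    refine (abs_sum_le_sum_abs _ _).trans ?_
    have h1 : ∀ f ∈ Sd L S e0, |w f * dS L (tu L h e0) f * pp2 (L f) h| ≤
        w f * ((C7 / m) * (16 * (C0 / m))) := by
      intro f hf
      rw [abs_mul, abs_mul, abs_of_nonneg (hs.wnn f (hSdS hf)), mul_assoc]
      refine mul_le_mul_of_nonneg_left ?_ (hs.wnn f (hSdS hf))
      refine mul_le_mul (hd f hf) (pp2_bd (by linarith) H (hs.sub f (hSdS hf)) ?_) (abs_nonneg _) hC7m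
      rw [hs.card f (hSdS hf)]
      exact hν4
    refine (sum_le_sum h1).trans ?_
    rw [← sum_mul]
    have h2 : ∑ f ∈ Sd L S e0, w f ≤ m := by
      rw [← ls_w hs]
      exact sum_le_sum_of_subset_of_nonneg hSdS fun f hf _ => hs.wnn f hf
    calc (∑ f ∈ Sd L S e0, w f) * ((C7 / m) * (16 * (C0 / m))) ≤ m * ((C7 / m) * (16 * (C0 / m))) := by
          gcongr
      _ = 16 * C7 * (C0 / m) := by
          field_simp
  obtain ⟨sm1, sm2⟩ := ls_sm hs hm he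
  have t2 : |∑ f ∈ Sm L S e0, w f * pp2 (L f \ L e0) h| ≤ 64 * (C0 / m) := by
    refine (abs_sum_le_sum_abs _ _).trans ?_
    have h1 : ∀ f ∈ Sm L S e0, |w f * pp2 (L f \ L e0) h| ≤ w f * (16 * (C0 / m)) := by
      intro f hf
      rw [abs_mul, abs_of_nonneg (hs.wnn f (hSmS hf))]
      refine mul_le_mul_of_nonneg_left ?_ (hs.wnn f (hSmS hf))
      refine pp2_bd (by linarith) H (sdiff_subset.trans (hs.sub f (hSmS hf))) ?_
      refine (card_le_card sdiff_subset).trans ?_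
      rw [hs.card f (hSmS hf)]
      exact hν4
    refine (sum_le_sum h1).trans ?_
    rw [← sum_mul]
    have h2 : ∑ f ∈ Sm L S e0, w f ≤ 4 := sm1.trans hν4'
    calc (∑ f ∈ Sm L S e0, w f) * (16 * (C0 / m)) ≤ 4 * (16 * (C0 / m)) := by gcongr
      _ = 64 * (C0 / m) := by ring
  have t3 : |∑ f ∈ Sd L S e0, w f ^ 2 * dS L (tu L h e0) f| ≤ K * (C7 / m) := by
    refine (abs_sum_le_sum_abs _ _).trans ?_
    have h1 : ∀ f ∈ Sd L S e0, |w f ^ 2 * dS L (tu L h e0) f| ≤ w f ^ 2 * (C7 / m) := by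
      intro f hf
      rw [abs_mul, abs_of_nonneg (sq_nonneg _)]
      exact mul_le_mul_of_nonneg_left (hd f hf) (sq_nonneg _)
    refine (sum_le_sum h1).trans ?_
    rw [← sum_mul]
    refine mul_le_mul_of_nonneg_right ?_ hC7m
    refine le_trans ?_ (ls_w2 hs hm)
    exact sum_le_sum_of_subset_of_nonneg hSdS fun f hf _ => sq_nonneg _
  have hsm0 : 0 ≤ ∑ f ∈ Sm L S e0, w f ^ 2 := sum_nonneg fun f _ => sq_nonneg _
  have sm2' : ∑ f ∈ Sm L S e0, w f ^ 2 ≤ 4 * (K / m) := by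
    refine sm2.trans ?_
    rw [mul_div_assoc]
    exact mul_le_mul_of_nonneg_right hν4' (by positivity)
  have hKm : 0 ≤ K / m := by positivity
  have hw2 : w e0 ^ 2 ≤ K ^ 2 / m := by
    have h1 : w e0 ^ 2 ≤ (K / m) ^ 2 := by gcongr
    have h2 : (K / m) ^ 2 ≤ K ^ 2 / m := by
      rw [div_pow]
      gcongr
      nlinarith
    exact h1.trans h2
  have hw20 : 0 ≤ w e0 ^ 2 := sq_nonneg _
  unfold eta xi1 T1
  have x1 : |2 * kap ν * w e0| ≤ 3 * (K / m) := by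
    rw [abs_of_nonneg (by positivity)]
    have : 2 * kap ν ≤ 3 := by linarith
    exact mul_le_mul this hwK hw0 (by norm_num)
  have x2 : |2 * kap ν * ∑ f ∈ Sm L S e0, w f ^ 2| ≤ 12 * (K / m) := by
    rw [abs_of_nonneg (by positivity)]
    have : 2 * kap ν ≤ 3 := by linarith
    calc 2 * kap ν * ∑ f ∈ Sm L S e0, w f ^ 2 ≤ 3 * (4 * (K / m)) :=
          mul_le_mul this sm2' hsm0 (by norm_num)
      _ = 12 * (K / m) := by ring
  have x3 : |kap ν * w e0 ^ 2| ≤ 2 * (K ^ 2 / m) := by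
    rw [abs_of_nonneg (by positivity)]
    exact mul_le_mul (by linarith) hw2 hw20 (by norm_num)
  have x4 : |2 * kap ν * ∑ f ∈ Sd L S e0, w f ^ 2 * dS L (tu L h e0) f| ≤ 3 * (K * (C7 / m)) := by
    rw [abs_mul, abs_of_nonneg (by positivity : 0 ≤ 2 * kap ν)]
    exact mul_le_mul (by linarith) t3 (abs_nonneg _) (by norm_num)
  have e1 : (8 * C0 + 3 * K + 1 + (2 * C0 + 8 * C7 * C0 + 32 * C0 + 1) + 12 * K + 2 * K ^ 2 +
      3 * K * C7) / m = 8 * (C0 / m) + 3 * (K / m) + 2 * (1 / m) + (2 * (C0 / m) + 8 * C7 * (C0 / m) +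
        32 * (C0 / m)) + 12 * (K / m) + 2 * (K ^ 2 / m) + 3 * (K * (C7 / m)) := by
    ring
  rw [e1]
  have e2 : 1 / (2 * (m : ℝ)) = (1 / m) / 2 := by field_simp
  rw [e2]
  have hm2 : 0 ≤ 1 / (m : ℝ) := by positivity
  rw [abs_le] at b1 b2 t1 t2 x1 x2 x3 x4 ⊢
  constructor <;> linarith [b1.1, b1.2, b2.1, b2.2, t1.1, t1.2, t2.1, t2.2, x1.1, x1.2, x2.1, x2.2, x3.1, x3.2,
    x4.1, x4.2]

theorem ls_eta (ν : ℕ) (hν : 2 ≤ ν) (hν4 : ν ≤ 4) (K lam C0 : ℝ) (hK : 1 ≤ K) (hl : 0 < lam) (hl1 : lam ≤ 1)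
    (hC0 : 1 ≤ C0) : ∃ (C : ℝ) (m0 : ℕ), 1 ≤ C ∧ 2 ≤ m0 ∧ ∀ (α β : Type) [DecidableEq α] [DecidableEq β] (m : ℕ) (I : Finset α)
    (L : β → Finset α) (S : Finset β) (w : β → ℝ) (c g : α → ℝ) (h : α → α → ℝ), m0 ≤ m →
      LSys ν m K lam I L S w c g →
      (∀ u : α → ℝ, lam * ∑ l ∈ I, u l ^ 2 ≤ ∑ l ∈ I, ∑ l' ∈ I, u l * AA L S w g m l l' * u l') →
      Hi C0 m I (AA L S w g m) g h → ∀ e0 ∈ S,
      |eta ν m L S w h e0| ≤ C / m ∧
      ∀ δ : α → ℝ, StR I L S w c e0 δ → |DV2 ν m I L S w c g e0 δ - eta ν m L S w h e0| ≤ C / m ^ 2 := by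
  obtain ⟨C1, m1, hC1, hm1, cls⟩ := ls_cls ν hν hν4 K lam C0 hK hl hl1 hC0
  obtain ⟨C2, hC2⟩ : ∃ C2, C2 = max C0 C1 := ⟨_, rfl⟩
  have hC21 : 1 ≤ C2 := by rw [hC2]; exact hC0.trans (le_max_left _ _)
  obtain ⟨C3, m3, hC3, hm3, ea⟩ := ls_ea ν hν hν4 K C2 hK hC21
  obtain ⟨C4, m4, hC4, hm4, eb⟩ := ls_eb ν hν hν4 K C2 hK hC21
  obtain ⟨C5, m5, hC5, hm5, sq⟩ := ls_sq ν hν hν4 K C2 hK hC21
  obtain ⟨C6, m6, hC6, hm6, val⟩ := ls_val ν hν hν4 K C0 hK hC0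
  obtain ⟨C7, m7, hC7, hm7, non⟩ := ls_non ν hν hν4 K C0 hK hC0
  obtain ⟨C8, hC8⟩ : ∃ C8, C8 = max C0 C3 := ⟨_, rfl⟩
  have hC81 : 1 ≤ C8 := by rw [hC8]; exact hC0.trans (le_max_left _ _)
  obtain ⟨C9, m9, hC9, hm9, red⟩ := ld_red C8 lam hC81 hl
  obtain ⟨hk0, hk1⟩ := kap_bd hν hν4
  obtain ⟨Ce, hCe⟩ : ∃ Ce, Ce = 8 * C0 + 3 * K + 1 + (2 * C0 + 8 * C7 * C0 + 32 * C0 + 1) + 12 * K +
    2 * K ^ 2 + 3 * K * C7 := ⟨_, rfl⟩
  obtain ⟨Cd, hCd⟩ : ∃ Cd, Cd = C1 + C6 + 1 + C9 + C4 + 2 * C5 := ⟨_, rfl⟩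
  have hCd1 : 1 ≤ Cd := by rw [hCd]; linarith
  refine ⟨max Ce Cd, m1 + m3 + m4 + m5 + m6 + m7 + m9, hCd1.trans (le_max_right _ _), by omega, ?_⟩
  intro α β _ _ m I L S w c g h hm hs hco H e0 he
  have hmp : 1 ≤ m := by omega
  have hm0 : (0 : ℝ) < m := by exact_mod_cast hmp
  constructor
  · have h1 := eta_bd hν hν4 hK hC0 hC7 hmp hs H he
      (non α β m I L S w c g lam h (by omega) hs H e0 he).1
    rw [← hCe] at h1
    exact h1.trans (by gcongr; exact le_max_left _ _)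
  · intro δ hδ
    obtain ⟨Δ, d1, d2, d3, d4⟩ := cls α β m I L S w c g h (by omega) hs H e0 he δ hδ
    have H2 : Hi C2 m I (AA L S w g m) g h := hi_mono (by rw [hC2]; exact le_max_left _ _) H
    have H8 : Hi C8 m I (AA L S w g m) g h := hi_mono (by rw [hC8]; exact le_max_left _ _) H
    have d3' : ∑ l ∈ I, Δ l ^ 2 ≤ C2 / m ^ 3 :=
      d3.trans (by rw [hC2]; gcongr; exact le_max_right _ _)
    obtain ⟨a1, a2, a3, a4, a5, a6, a7, a8, a9, a10⟩ :=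
      ea α β m I L S w c g lam h (by omega) hs H2 e0 he δ Δ d1 d2 d3'
    have b1 := eb α β m I L S w c g lam h (by omega) hs H2 e0 he δ Δ d1 d2 d3'
    have s1 := sq α β m I L S w c g lam h (by omega) hs H2 e0 he δ Δ d1 d2 d3'
    have v1 := val α β m I L S w c g lam h (by omega) hs H e0 he
    have h38 : C3 ≤ C8 := by rw [hC8]; exact le_max_right _ _
    have r1 := red α m I (L e0) (AA L S w g m) h (E1r L S w e0) (E2r L S w g m e0 δ) g (by omega)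
      (hs.sub e0 he) (by rw [hs.card e0 he]; exact hν4) (aa_sym L S w g m) hco H8 a3 a4
      (fun l hl => (a5 l hl).trans (by gcongr)) (fun l hl => (a6 l hl).trans (by gcongr))
      (a7.trans h38) (a8.trans (by gcongr)) (a9.trans (by gcongr))
    have e1 := ld_congr a1
    have l1 := log_bd (m := m) (by omega)
    have k1 : |kap ν * (∑ f ∈ Sd L S e0, (w f * Real.exp (dS L δ f)) ^ 2 - ∑ f ∈ S, w f ^ 2 -
        (2 * ∑ f ∈ Sd L S e0, w f ^ 2 * dS L (tu L h e0) f - ∑ f ∈ Sm L S e0, w f ^ 2 - w e0 ^ 2))| ≤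
        2 * (C5 / m ^ 2) := by
      rw [abs_mul, abs_of_nonneg hk0]
      exact mul_le_mul (by linarith) s1 (abs_nonneg _) (by norm_num)
    rw [← e1, a10] at r1
    have hcd : Cd / (m : ℝ) ^ 2 ≤ max Ce Cd / (m : ℝ) ^ 2 := by
      gcongr
      exact le_max_right _ _
    refine le_trans ?_ hcd
    have e2 : Cd / (m : ℝ) ^ 2 = C1 / (m : ℝ) ^ 2 + C6 / (m : ℝ) ^ 2 + 1 / (m : ℝ) ^ 2 + C9 / (m : ℝ) ^ 2 +
        C4 / (m : ℝ) ^ 2 + 2 * (C5 / (m : ℝ) ^ 2) := by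
      rw [hCd]
      ring
    rw [e2]
    have e3 : 1 / (2 * (m : ℝ)) = (1 / m) / 2 := by field_simp
    have p1 : 0 ≤ C9 / (m : ℝ) ^ 2 := by positivity
    have p2 : 0 ≤ C4 / (m : ℝ) ^ 2 := by positivity
    unfold DV2 eta
    rw [e3] at l1 ⊢
    have e4 : DV1 ν I L S w c e0 δ + Real.log (((m : ℝ) - 1) / m) / 2 -
        (LD (I \ L e0) (AA L (Sd L S e0) (fun f => w f * Real.exp (dS L δ f)) g (m - 1)) -
          LD I (AA L S w g m)) / 2 -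
        kap ν * (∑ f ∈ Sd L S e0, (w f * Real.exp (dS L δ f)) ^ 2 - ∑ f ∈ S, w f ^ 2) -
        (xi1 ν L w h e0 - 1 / m / 2 - (∑ k ∈ L e0, (h k k - 1) + T1 L S w h e0 + 1 / m) / 2 +
        2 * kap ν * ∑ f ∈ Sm L S e0, w f ^ 2 + kap ν * w e0 ^ 2 -
        2 * kap ν * ∑ f ∈ Sd L S e0, w f ^ 2 * dS L (tu L h e0) f) =
        (DV1 ν I L S w c e0 δ - DV1 ν I L S w c e0 (tu L h e0)) +
        (DV1 ν I L S w c e0 (tu L h e0) - xi1 ν L w h e0) +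
        (Real.log (((m : ℝ) - 1) / m) / 2 + 1 / m / 2) -
        (LD (I \ L e0) (AA L (Sd L S e0) (fun f => w f * Real.exp (dS L δ f)) g (m - 1)) -
          LD I (AA L S w g m) - ∑ k ∈ L e0, (h k k - 1) -
          ∑ l ∈ I \ L e0, ∑ l' ∈ I \ L e0, h l l' * (E1r L S w e0 l l' + E2r L S w g m e0 δ l l') +
          4 * kap ν * ∑ f ∈ Sm L S e0, w f ^ 2 / 2) / 2 -
        (∑ l ∈ I \ L e0, ∑ l' ∈ I \ L e0, h l l' * (E1r L S w e0 l l' + E2r L S w g m e0 δ l l') -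
          (T1 L S w h e0 + 1 / m)) / 2 -
        kap ν * (∑ f ∈ Sd L S e0, (w f * Real.exp (dS L δ f)) ^ 2 - ∑ f ∈ S, w f ^ 2 -
        (2 * ∑ f ∈ Sd L S e0, w f ^ 2 * dS L (tu L h e0) f - ∑ f ∈ Sm L S e0, w f ^ 2 - w e0 ^ 2)) := by
      rw [← sum_div]
      ring
    rw [e4]
    have r2 : |LD (I \ L e0) (AA L (Sd L S e0) (fun f => w f * Real.exp (dS L δ f)) g (m - 1)) -
          LD I (AA L S w g m) - ∑ k ∈ L e0, (h k k - 1) -
          ∑ l ∈ I \ L e0, ∑ l' ∈ I \ L e0, h l l' * (E1r L S w e0 l l' + E2r L S w g m e0 δ l l') +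
          4 * kap ν * ∑ f ∈ Sm L S e0, w f ^ 2 / 2| ≤ C9 / (m : ℝ) ^ 2 := by
      rw [← sum_div]
      have : 4 * kap ν * ((∑ f ∈ Sm L S e0, w f ^ 2) / 2) = 4 * kap ν * (∑ f ∈ Sm L S e0, w f ^ 2) / 2 := by
        ring
      rw [this]
      exact r1
    rw [abs_le] at d4 v1 l1 r2 b1 k1 ⊢
    constructor <;> linarith [d4.1, d4.2, v1.1, v1.2, l1.1, l1.2, r2.1, r2.2, b1.1, b1.2, k1.1, k1.2]

end Pool.Agent.NQF
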