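import Pool.Agent.NQF.Defs
import Pool.Agent.NQF.SDef
import Pool.Agent.NQF.SBas
import Pool.Agent.NQF.SBat
import Pool.Agent.NQF.SMas

/-!
# NQF-SInv: the inverse of the Hessian

PLAN. `A = AA L S w g m`. `∑_{l,l' ∈ I} u l A l l' u l' = ∑ w (dS u)² + ∑ c u² + (∑ g u)²/(2m)` (`1 = ∑_{Sr l} w + c l`, `mm_pair`), so `A` is coercive (`co`) and invertible (Mathlib matrix on the
subtype `I`), `h` = inverse, `0` outside. `op`: `‖h u‖ ≤ ‖u‖/lam`. `A g = g`: `(A g) l = g l + ∑_{Sr l} w (dS g e - g l) + g l = g l c l + g l = g l` (`ge`, `gc`, `g2`), so `h g = g`. `co`: `(h - 1) e_k = - h (A - 1) e_k`,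
`∑_l (A - 1)_{lk}² ≤ 2 ∑_l MM² + 2 g_k² ∑ g_l²/(4 m²) ≤ (2 ν K + 1)/m` (`mm_sq_row`, `ls_line`). `hs`: sum over `k`, `ls_w2`. `en`: `h l k - δ = - (A-1)_{lk} - ∑_{l'} (A-1)_{l l'} (h l' k - δ)`, Cauchy-Schwarz.
-/

set_option autoImplicit false

open Finset

namespace Pool.Agent.NQF

open Pool.Agent.NQ (board dsum F Ent Dg phi ln Q Qset QS NonAtt bern)
open Pool.Agent.NQR (Adm Opt Bd Rf hS hD hh InR)
open Pool.Agent.NQL

private theorem exists_inv {α : Type} [DecidableEq α] (I : Finset α) (A : α → α → ℝ)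
    (hsym : ∀ l l', A l l' = A l' l) {lam : ℝ} (hl : 0 < lam)
    (hco : ∀ u : α → ℝ, lam * ∑ l ∈ I, u l ^ 2 ≤ ∑ l ∈ I, ∑ l' ∈ I, u l * A l l' * u l') :
    ∃ h : α → α → ℝ, (∀ l l', h l l' = h l' l) ∧ (∀ l, l ∉ I → ∀ l', h l l' = 0) ∧
      ∀ l ∈ I, ∀ k ∈ I, ∑ l' ∈ I, A l l' * h l' k = if l = k then 1 else 0 := by
  classical
  let B : Matrix I I ℝ := Matrix.of fun i j => A i j
  have hdet : B.det ≠ 0 := by
    intro h0
    obtain ⟨v, hv, hv0⟩ := Matrix.exists_mulVec_eq_zero_iff.mpr h0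
    apply hv
    let u : α → ℝ := fun l => if h : l ∈ I then v ⟨l, h⟩ else 0
    have hu : ∀ i : I, u i = v i := fun i => by simp [u]
    have h1 : ∑ l ∈ I, ∑ l' ∈ I, u l * A l l' * u l' = 0 := by
      rw [← Finset.sum_coe_sort I]
      refine Finset.sum_eq_zero fun i _ => ?_
      rw [← Finset.sum_coe_sort I]
      have h2 : ∑ j : I, u i * A i j * u j = u i * (B.mulVec v) i := by
        rw [Matrix.mulVec, dotProduct, Finset.mul_sum]
        refine Finset.sum_congr rfl fun j _ => ?_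
        rw [hu j, mul_assoc]
        rfl
      rw [h2, hv0]
      simp
    have h2 : ∑ l ∈ I, u l ^ 2 ≤ 0 := by
      have h3 := hco u
      rw [h1] at h3
      by_contra h4
      push Not at h4
      nlinarith [mul_pos hl h4]
    funext i
    have h3 : u i ^ 2 ≤ ∑ l ∈ I, u l ^ 2 :=
      Finset.single_le_sum (f := fun l => u l ^ 2) (fun l _ => sq_nonneg _) i.2
    have h4 : u i ^ 2 = 0 := le_antisymm (h3.trans h2) (sq_nonneg _)
    rw [← hu i]
    simpa using h4
  have hunit : IsUnit B.det := isUnit_iff_ne_zero.mpr hdet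
  have hBt : B.transpose = B := by
    ext i j
    exact hsym _ _
  have hBi : (B⁻¹).transpose = B⁻¹ := by rw [Matrix.transpose_nonsing_inv, hBt]
  refine ⟨fun l k => if hl : l ∈ I then (if hk : k ∈ I then B⁻¹ ⟨l, hl⟩ ⟨k, hk⟩ else 0) else 0,
    ?_, ?_, ?_⟩
  · intro l l'
    by_cases h1 : l ∈ I <;> by_cases h2 : l' ∈ I
    · simp only [h1, h2, dif_pos]
      exact (congrFun (congrFun hBi ⟨l, h1⟩) ⟨l', h2⟩).symm
    · simp [h1, h2]
    · simp [h1, h2]
    · simp [h1, h2]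
  · intro l h1 l'
    simp [h1]
  · intro l h1 k h2
    rw [← Finset.sum_coe_sort I]
    have h3 := congrFun (congrFun (Matrix.mul_nonsing_inv B hunit) ⟨l, h1⟩) ⟨k, h2⟩
    rw [Matrix.mul_apply, Matrix.one_apply] at h3
    simp only [Subtype.mk.injEq] at h3
    rw [← h3]
    refine Finset.sum_congr rfl fun j _ => ?_
    simp only [j.2, h2, dif_pos]
    rfl

/-- solution of `A v = u` -/
private theorem solve {α : Type} [DecidableEq α] {I : Finset α} {A h : α → α → ℝ}
    (hinv : ∀ l ∈ I, ∀ k ∈ I, ∑ l' ∈ I, A l l' * h l' k = if l = k then 1 else 0) (u : α → ℝ)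
    {l : α} (hl : l ∈ I) : ∑ l' ∈ I, A l l' * ∑ k ∈ I, h l' k * u k = u l := by
  have h1 : ∑ l' ∈ I, A l l' * ∑ k ∈ I, h l' k * u k =
      ∑ k ∈ I, (∑ l' ∈ I, A l l' * h l' k) * u k := by
    simp only [Finset.mul_sum, Finset.sum_mul]
    rw [Finset.sum_comm]
    exact Finset.sum_congr rfl fun k _ => Finset.sum_congr rfl fun l' _ => by ring
  rw [h1]
  have h2 : ∑ k ∈ I, (∑ l' ∈ I, A l l' * h l' k) * u k = ∑ k ∈ I, if l = k then u k else 0 := by
    refine Finset.sum_congr rfl fun k hk => ?_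
    rw [hinv l hl k hk]
    split_ifs <;> simp
  rw [h2, Finset.sum_ite_eq, if_pos hl]

private theorem op_bound {α : Type} [DecidableEq α] {I : Finset α} {A h : α → α → ℝ} {lam : ℝ}
    (hlam : 0 < lam)
    (hco : ∀ u : α → ℝ, lam * ∑ l ∈ I, u l ^ 2 ≤ ∑ l ∈ I, ∑ l' ∈ I, u l * A l l' * u l')
    (hinv : ∀ l ∈ I, ∀ k ∈ I, ∑ l' ∈ I, A l l' * h l' k = if l = k then 1 else 0) (u : α → ℝ) :
    ∑ l ∈ I, (∑ k ∈ I, h l k * u k) ^ 2 ≤ (∑ k ∈ I, u k ^ 2) / lam ^ 2 := by
  set v : α → ℝ := fun l => ∑ k ∈ I, h l k * u k with hv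
  have h1 : ∑ l ∈ I, ∑ l' ∈ I, v l * A l l' * v l' = ∑ l ∈ I, v l * u l := by
    refine Finset.sum_congr rfl fun l hl => ?_
    have h2 := solve hinv u hl
    rw [← h2, Finset.mul_sum]
    exact Finset.sum_congr rfl fun l' _ => by rw [hv]; ring
  have h3 := hco v
  rw [h1] at h3
  have h4 := Finset.sum_mul_sq_le_sq_mul_sq I v u
  have hV : 0 ≤ ∑ l ∈ I, v l ^ 2 := Finset.sum_nonneg fun l _ => sq_nonneg _
  have hU : 0 ≤ ∑ l ∈ I, u l ^ 2 := Finset.sum_nonneg fun l _ => sq_nonneg _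
  rw [le_div_iff₀ (by positivity)]
  change (∑ l ∈ I, v l ^ 2) * lam ^ 2 ≤ _
  rcases hV.eq_or_lt with h0 | h0
  · rw [← h0]; simpa using hU
  · have h5 : (lam * ∑ l ∈ I, v l ^ 2) ^ 2 ≤ (∑ l ∈ I, v l ^ 2) * ∑ l ∈ I, u l ^ 2 := by
      refine le_trans ?_ h4
      exact pow_le_pow_left₀ (by positivity) h3 2
    have h6 : (∑ l ∈ I, v l ^ 2) * ((∑ l ∈ I, v l ^ 2) * lam ^ 2) ≤
        (∑ l ∈ I, v l ^ 2) * ∑ l ∈ I, u l ^ 2 := by
      refine le_trans (le_of_eq ?_) h5
      ring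
    exact le_of_mul_le_mul_left h6 h0

private theorem quad_eq {α β : Type} [DecidableEq α] [DecidableEq β] {ν m : ℕ} {K lam : ℝ} {I : Finset α}
    {L : β → Finset α} {S : Finset β} {w : β → ℝ} {c g : α → ℝ} (h : LSys ν m K lam I L S w c g)
    (u : α → ℝ) :
    ∑ l ∈ I, ∑ l' ∈ I, u l * AA L S w g m l l' * u l' =
      ∑ e ∈ S, w e * dS L u e ^ 2 + ∑ l ∈ I, c l * u l ^ 2 + (∑ l ∈ I, g l * u l) ^ 2 / (2 * m) := by
  have e1 : ∑ l ∈ I, ∑ l' ∈ I, u l * AA L S w g m l l' * u l' =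
      ∑ l ∈ I, u l ^ 2 + ∑ l ∈ I, ∑ l' ∈ I, MM L S w l l' * (u l * u l') +
        (∑ l ∈ I, g l * u l) ^ 2 / (2 * m) := by
    have e2 : ∀ l ∈ I, ∑ l' ∈ I, u l * AA L S w g m l l' * u l' =
        u l ^ 2 + ∑ l' ∈ I, MM L S w l l' * (u l * u l') +
          (g l * u l) * (∑ l' ∈ I, g l' * u l') / (2 * m) := by
      intro l hl
      have e3 : ∀ l' ∈ I, u l * AA L S w g m l l' * u l' =
          (if l = l' then u l * u l' else 0) + MM L S w l l' * (u l * u l') +
            (g l * u l) * (g l' * u l') / (2 * m) := by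
        intro l' _
        unfold AA
        split_ifs <;> ring
      rw [Finset.sum_congr rfl e3, Finset.sum_add_distrib, Finset.sum_add_distrib,
        Finset.sum_ite_eq, if_pos hl, Finset.mul_sum, Finset.sum_div]
      ring
    rw [Finset.sum_congr rfl e2, Finset.sum_add_distrib, Finset.sum_add_distrib,
      ← Finset.sum_div, ← Finset.sum_mul]
    ring
  have e4 : ∑ l ∈ I, ∑ l' ∈ I, MM L S w l l' * (u l * u l') =
      ∑ e ∈ S, w e * dS L u e ^ 2 - ∑ e ∈ S, w e * ∑ l ∈ L e, u l ^ 2 := by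
    rw [mm_pair h.sub (fun l l' => u l * u l'), ← Finset.sum_sub_distrib]
    refine Finset.sum_congr rfl fun e _ => ?_
    rw [← mul_sub]
    congr 1
    unfold dS
    have e5 : ∀ l ∈ L e, ∑ l' ∈ (L e).erase l, u l * u l' = u l * (∑ l' ∈ L e, u l') - u l ^ 2 := by
      intro l hl
      rw [← Finset.add_sum_erase (L e) u hl, ← Finset.mul_sum]
      ring
    rw [Finset.sum_congr rfl e5, Finset.sum_sub_distrib, ← Finset.sum_mul]
    ring
  have e6 : ∑ e ∈ S, w e * ∑ l ∈ L e, u l ^ 2 = ∑ l ∈ I, (1 - c l) * u l ^ 2 := by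
    have e7 := sr_sum h.sub (fun e l => w e * u l ^ 2)
    simp only [← Finset.mul_sum] at e7
    rw [← e7]
    refine Finset.sum_congr rfl fun l hl => ?_
    rw [← Finset.sum_mul]
    congr 1
    linarith [h.st l hl]
  have e8 : ∑ l ∈ I, (1 - c l) * u l ^ 2 = ∑ l ∈ I, u l ^ 2 - ∑ l ∈ I, c l * u l ^ 2 := by
    rw [← Finset.sum_sub_distrib]
    exact Finset.sum_congr rfl fun l _ => by ring
  rw [e1, e4, e6, e8]
  ring

private theorem A_g {α β : Type} [DecidableEq α] [DecidableEq β] {ν m : ℕ} {K lam : ℝ} {I : Finset α}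
    {L : β → Finset α} {S : Finset β} {w : β → ℝ} {c g : α → ℝ} (h : LSys ν m K lam I L S w c g)
    (hm : 1 ≤ m) {l : α} (hl : l ∈ I) : ∑ l' ∈ I, AA L S w g m l l' * g l' = g l := by
  have hm0 : (0 : ℝ) < m := by exact_mod_cast hm
  have e3 : ∀ l' ∈ I, AA L S w g m l l' * g l' =
      (if l = l' then g l' else 0) + MM L S w l l' * g l' + g l * g l' ^ 2 / (2 * m) := by
    intro l' _
    unfold AA
    split_ifs <;> ring
  rw [Finset.sum_congr rfl e3, Finset.sum_add_distrib, Finset.sum_add_distrib,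
    Finset.sum_ite_eq, if_pos hl, ← Finset.sum_div, ← Finset.mul_sum, h.g2, mm_row h.sub]
  have e4 : ∑ e ∈ Sr L S l, w e * (dS L g e - g l) = -(g l) * (1 - c l) := by
    have e5 : ∀ e ∈ Sr L S l, w e * (dS L g e - g l) = w e * (-(g l)) := by
      intro e he
      have he' : e ∈ S := (Finset.mem_filter.mp he).1
      have e6 : dS L g e = 0 := h.ge e he'
      rw [e6]
      ring
    rw [Finset.sum_congr rfl e5, ← Finset.sum_mul]
    have e7 := h.st l hl
    have e8 : ∑ e ∈ Sr L S l, w e = 1 - c l := by linarith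
    rw [e8]
    ring
  rw [e4]
  have e9 : g l * (2 * m) / (2 * m) = g l := by field_simp
  rw [e9]
  rcases eq_or_ne (g l) 0 with h0 | h0
  · rw [h0]; ring
  · rw [h.gc l hl h0]; ring

private theorem D_sq {α β : Type} [DecidableEq α] [DecidableEq β] {ν m : ℕ} {K lam : ℝ} {I : Finset α}
    {L : β → Finset α} {S : Finset β} {w : β → ℝ} {c g : α → ℝ} (h : LSys ν m K lam I L S w c g)
    (hm : 1 ≤ m) {k : α} (_hk : k ∈ I) :
    ∑ l ∈ I, (AA L S w g m k l - if k = l then 1 else 0) ^ 2 ≤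
      2 * ((ν : ℝ) - 1) * ∑ e ∈ Sr L S k, w e ^ 2 + g k ^ 2 / m := by
  have hm0 : (0 : ℝ) < m := by exact_mod_cast hm
  have e1 : ∀ l ∈ I, (AA L S w g m k l - if k = l then 1 else 0) ^ 2 ≤
      2 * MM L S w k l ^ 2 + 2 * (g k ^ 2 / (2 * m) ^ 2 * g l ^ 2) := by
    intro l _
    have e2 : AA L S w g m k l - (if k = l then 1 else 0) = MM L S w k l + g k * g l / (2 * m) := by
      unfold AA; ring
    rw [e2]
    have e3 : g k ^ 2 / (2 * (m : ℝ)) ^ 2 * g l ^ 2 = (g k * g l / (2 * m)) ^ 2 := by ring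
    rw [e3]
    nlinarith [sq_nonneg (MM L S w k l - g k * g l / (2 * m))]
  refine (Finset.sum_le_sum e1).trans (le_of_eq ?_)
  rw [Finset.sum_add_distrib, ← Finset.mul_sum, ← Finset.mul_sum, ← Finset.mul_sum, h.g2,
    mm_sq_row h.sub h.card h.lin]
  field_simp

theorem ls_inv (ν : ℕ) (hν : 2 ≤ ν) (hν4 : ν ≤ 4) (K lam : ℝ) (hK : 1 ≤ K) (hl : 0 < lam) (hl1 : lam ≤ 1) :
    ∃ C : ℝ, 1 ≤ C ∧ ∀ (α β : Type) [DecidableEq α] [DecidableEq β] (m : ℕ) (I : Finset α)
    (L : β → Finset α) (S : Finset β) (w : β → ℝ) (c g : α → ℝ), 1 ≤ m → LSys ν m K lam I L S w c g →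
      (∀ u : α → ℝ, lam * ∑ l ∈ I, u l ^ 2 ≤ ∑ l ∈ I, ∑ l' ∈ I, u l * AA L S w g m l l' * u l') ∧
      ∃ h : α → α → ℝ, Hi C m I (AA L S w g m) g h := by
  have hlam2 : 0 < lam ^ 2 := by positivity
  have hlam21 : lam ^ 2 ≤ 1 := by nlinarith
  have hinvl : 1 ≤ 1 / lam ^ 2 := by rw [le_div_iff₀ hlam2]; linarith
  refine ⟨26 * K / lam ^ 2, ?_, ?_⟩
  · rw [le_div_iff₀ hlam2]; nlinarith
  intro α β _ _ m I L S w c g hm hS
  have hm0 : (0 : ℝ) < m := by exact_mod_cast hm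
  have hm1 : (1 : ℝ) ≤ m := by exact_mod_cast hm
  have hν' : (2 : ℝ) ≤ ν := by exact_mod_cast hν
  have hν4' : (ν : ℝ) ≤ 4 := by exact_mod_cast hν4
  have hco : ∀ u : α → ℝ,
      lam * ∑ l ∈ I, u l ^ 2 ≤ ∑ l ∈ I, ∑ l' ∈ I, u l * AA L S w g m l l' * u l' := by
    intro u
    rw [quad_eq hS u]
    exact hS.co u
  refine ⟨hco, ?_⟩
  have hsym : ∀ l l', AA L S w g m l l' = AA L S w g m l' l := by
    intro l l'
    unfold AA
    rw [mm_sym L S w l l']
    by_cases hh : l = l'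
    · rw [hh]
    · rw [if_neg hh, if_neg (Ne.symm hh)]; ring
  obtain ⟨h, hsy, hout, hinv⟩ := exists_inv I _ hsym hl hco
  -- the bounds for the matrix A - 1
  have hgk : ∀ k ∈ I, g k ^ 2 ≤ 1 := by
    intro k hk
    rcases hS.gv k hk with h0 | h0 | h0 <;> rw [h0] <;> norm_num
  have hrow : ∀ k ∈ I, ∑ l ∈ I, (AA L S w g m k l - if k = l then 1 else 0) ^ 2 ≤ 7 * K / m := by
    intro k hk
    refine (D_sq hS hm hk).trans ?_
    have h1 := (ls_line hS hk).2.2.1
    have h2 := hgk k hk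
    have h3 : 2 * ((ν : ℝ) - 1) * ∑ e ∈ Sr L S k, w e ^ 2 ≤ 6 * (K / m) := by
      have h4 : 0 ≤ ∑ e ∈ Sr L S k, w e ^ 2 := Finset.sum_nonneg fun e _ => sq_nonneg _
      have h5 : 0 ≤ K / m := by positivity
      nlinarith
    have h6 : g k ^ 2 / m ≤ K / m := by
      apply div_le_div_of_nonneg_right _ hm0.le
      linarith
    calc _ ≤ 6 * (K / m) + K / m := add_le_add h3 h6
      _ = 7 * K / m := by ring
  -- the solution for the columns
  have hE : ∀ k ∈ I, ∀ l ∈ I, h l k - (if l = k then 1 else 0) =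
      ∑ l' ∈ I, h l l' * ((if k = l' then 1 else 0) - AA L S w g m k l') := by
    intro k hk l hl'
    have e1 : ∀ l' ∈ I, h l l' * ((if k = l' then 1 else 0) - AA L S w g m k l') =
        (if k = l' then h l l' else 0) - AA L S w g m k l' * h l' l := by
      intro l' _
      rw [hsy l l']
      split_ifs <;> ring
    rw [Finset.sum_congr rfl e1, Finset.sum_sub_distrib, Finset.sum_ite_eq, if_pos hk,
      hinv k hk l hl']
    by_cases hh : l = k
    · rw [if_pos hh, if_pos hh.symm]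
    · rw [if_neg hh, if_neg (Ne.symm hh)]
  have hcol : ∀ k ∈ I, ∑ l ∈ I, (h l k - if l = k then 1 else 0) ^ 2 ≤
      (∑ l ∈ I, (AA L S w g m k l - if k = l then 1 else 0) ^ 2) / lam ^ 2 := by
    intro k hk
    have e1 := op_bound hl hco hinv (fun l' => (if k = l' then 1 else 0) - AA L S w g m k l')
    rw [Finset.sum_congr rfl fun l hl' => by rw [hE k hk l hl']]
    refine e1.trans (le_of_eq ?_)
    congr 1
    exact Finset.sum_congr rfl fun l _ => by ring
  have hcol' : ∀ k ∈ I, ∑ l ∈ I, (h l k - if l = k then 1 else 0) ^ 2 ≤ 7 * K / m / lam ^ 2 :=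
    fun k hk => (hcol k hk).trans (div_le_div_of_nonneg_right (hrow k hk) hlam2.le)
  refine ⟨h, hsy, hout, hinv, ?_, ?_, ?_, ?_, ?_⟩
  · -- ga
    intro k hk
    have e1 : ∑ l ∈ I, g l * h l k = ∑ l ∈ I, (∑ l' ∈ I, AA L S w g m l l' * g l') * h l k :=
      Finset.sum_congr rfl fun l hl' => by rw [A_g hS hm hl']
    have e2 : ∑ l ∈ I, (∑ l' ∈ I, AA L S w g m l l' * g l') * h l k =
        ∑ l' ∈ I, g l' * ∑ l ∈ I, AA L S w g m l' l * h l k := by
      simp only [Finset.mul_sum, Finset.sum_mul]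
      rw [Finset.sum_comm]
      exact Finset.sum_congr rfl fun l _ => Finset.sum_congr rfl fun l' _ => by
        rw [hsym l l']; ring
    rw [e1, e2]
    have e3 : ∀ l' ∈ I, g l' * ∑ l ∈ I, AA L S w g m l' l * h l k = if l' = k then g l' else 0 := by
      intro l' hl'
      rw [hinv l' hl' k hk]
      split_ifs <;> ring
    rw [Finset.sum_congr rfl e3, Finset.sum_ite_eq', if_pos hk]
  · -- en
    intro l hl' k hk
    have e1 : h l k - (if l = k then 1 else 0) =
        -(AA L S w g m l k - if l = k then 1 else 0) -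
          ∑ l' ∈ I, (AA L S w g m l l' - if l = l' then 1 else 0) *
            (h l' k - if l' = k then 1 else 0) := by
      have e2 : ∀ l' ∈ I, (AA L S w g m l l' - if l = l' then 1 else 0) *
          (h l' k - if l' = k then 1 else 0) =
          AA L S w g m l l' * h l' k - (if l' = k then AA L S w g m l l' else 0) -
            (if l = l' then (h l' k - if l' = k then 1 else 0) else 0) := by
        intro l' _
        split_ifs <;> ring
      rw [Finset.sum_congr rfl e2, Finset.sum_sub_distrib, Finset.sum_sub_distrib,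
        Finset.sum_ite_eq', if_pos hk, Finset.sum_ite_eq, if_pos hl', hinv l hl' k hk]
      ring
    have e3 : |∑ l' ∈ I, (AA L S w g m l l' - if l = l' then 1 else 0) *
            (h l' k - if l' = k then 1 else 0)| ≤ 7 * K / m / lam := by
      have e4 := Finset.sum_mul_sq_le_sq_mul_sq I
        (fun l' => AA L S w g m l l' - if l = l' then 1 else 0)
        (fun l' => h l' k - if l' = k then 1 else 0)
      have e5 : (∑ l' ∈ I, (AA L S w g m l l' - if l = l' then 1 else 0) ^ 2) *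
          ∑ l' ∈ I, (h l' k - if l' = k then 1 else 0) ^ 2 ≤ (7 * K / m) * (7 * K / m / lam ^ 2) := by
        apply mul_le_mul (hrow l hl') (hcol' k hk)
          (Finset.sum_nonneg fun _ _ => sq_nonneg _) (by positivity)
      have e6 : (7 * K / m) * (7 * K / m / lam ^ 2) = (7 * K / m / lam) ^ 2 := by ring
      rw [e6] at e5
      exact abs_le_of_sq_le_sq (e4.trans e5) (by positivity)
    have e7 : |AA L S w g m l k - if l = k then 1 else 0| ≤ 2 * (K / m) := by
      have e8 : AA L S w g m l k - (if l = k then 1 else 0) = MM L S w l k + g l * g k / (2 * m) := by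
        unfold AA; ring
      rw [e8]
      have e9 : 0 ≤ MM L S w l k := mm_nn hS.wnn l k
      have e10 : MM L S w l k ≤ K / m := mm_le (by positivity) hS.lin hS.up l k
      have e11 : |g l * g k / (2 * (m : ℝ))| ≤ K / m := by
        rw [abs_div, abs_mul, abs_of_pos (by positivity : (0 : ℝ) < 2 * m)]
        have e12 : |g l| ≤ 1 := by
          rcases hS.gv l hl' with h0 | h0 | h0 <;> rw [h0] <;> norm_num
        have e13 : |g k| ≤ 1 := by
          rcases hS.gv k hk with h0 | h0 | h0 <;> rw [h0] <;> norm_num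
        have e14 : |g l| * |g k| ≤ 1 := by
          nlinarith [abs_nonneg (g l), abs_nonneg (g k)]
        rw [div_le_div_iff₀ (by positivity) hm0]
        nlinarith
      calc |MM L S w l k + g l * g k / (2 * m)| ≤ |MM L S w l k| + |g l * g k / (2 * (m : ℝ))| :=
            abs_add_le _ _
        _ ≤ K / m + K / m := by rw [abs_of_nonneg e9]; exact add_le_add e10 e11
        _ = 2 * (K / m) := by ring
    rw [e1]
    have e15 : |-(AA L S w g m l k - if l = k then 1 else 0) -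
          ∑ l' ∈ I, (AA L S w g m l l' - if l = l' then 1 else 0) *
            (h l' k - if l' = k then 1 else 0)| ≤ 2 * (K / m) + 7 * K / m / lam := by
      refine (abs_sub _ _).trans ?_
      rw [abs_neg]
      exact add_le_add e7 e3
    refine e15.trans ?_
    have e16 : 2 * (K / m) + 7 * K / m / lam = K / m * (2 + 7 / lam) := by ring
    have e17 : 26 * K / lam ^ 2 / m = K / m * (26 / lam ^ 2) := by ring
    rw [e16, e17]
    apply mul_le_mul_of_nonneg_left _ (by positivity)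
    have e18 : 2 + 7 / lam = (2 * lam ^ 2 + 7 * lam) / lam ^ 2 := by field_simp
    rw [e18]
    apply div_le_div_of_nonneg_right _ hlam2.le
    nlinarith
  · -- co
    intro k hk
    refine (hcol' k hk).trans ?_
    have e16 : 7 * K / m / lam ^ 2 = 7 * (K / lam ^ 2 / m) := by ring
    have e17 : 26 * K / lam ^ 2 / m = 26 * (K / lam ^ 2 / m) := by ring
    rw [e16, e17]
    have : 0 ≤ K / lam ^ 2 / m := by positivity
    linarith
  · -- hs
    rw [Finset.sum_comm]
    have e1 : ∑ k ∈ I, ∑ l ∈ I, (h l k - if l = k then 1 else 0) ^ 2 ≤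
        ∑ k ∈ I, (2 * ((ν : ℝ) - 1) * ∑ e ∈ Sr L S k, w e ^ 2 + g k ^ 2 / m) / lam ^ 2 := by
      refine Finset.sum_le_sum fun k hk => (hcol k hk).trans ?_
      exact div_le_div_of_nonneg_right (D_sq hS hm hk) hlam2.le
    refine e1.trans ?_
    rw [← Finset.sum_div, Finset.sum_add_distrib, ← Finset.mul_sum, ← Finset.sum_div, hS.g2]
    have e2 : ∑ k ∈ I, ∑ e ∈ Sr L S k, w e ^ 2 = ν * ∑ e ∈ S, w e ^ 2 := by
      rw [sr_sum hS.sub (fun e _ => w e ^ 2), Finset.mul_sum]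
      refine Finset.sum_congr rfl fun e he => ?_
      rw [Finset.sum_const, hS.card e he, nsmul_eq_mul]
    rw [e2]
    apply div_le_div_of_nonneg_right _ hlam2.le
    have e3 : 2 * (m : ℝ) / m = 2 := by field_simp
    rw [e3]
    have e4 := ls_w2 hS hm
    have e5 : 0 ≤ ∑ e ∈ S, w e ^ 2 := Finset.sum_nonneg fun _ _ => sq_nonneg _
    have e6 : 2 * ((ν : ℝ) - 1) * (ν * ∑ e ∈ S, w e ^ 2) ≤ 24 * K := by
      have e7 : 2 * ((ν : ℝ) - 1) * ν ≤ 24 := by nlinarith
      calc 2 * ((ν : ℝ) - 1) * (ν * ∑ e ∈ S, w e ^ 2) =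
            (2 * ((ν : ℝ) - 1) * ν) * ∑ e ∈ S, w e ^ 2 := by ring
        _ ≤ 24 * ∑ e ∈ S, w e ^ 2 := mul_le_mul_of_nonneg_right e7 e5
        _ ≤ 24 * K := by linarith
    linarith
  · -- op
    intro u
    refine (op_bound hl hco hinv u).trans ?_
    have e1 : 0 ≤ ∑ k ∈ I, u k ^ 2 := Finset.sum_nonneg fun _ _ => sq_nonneg _
    have e2 : (∑ k ∈ I, u k ^ 2) / lam ^ 2 = 1 / lam ^ 2 * ∑ k ∈ I, u k ^ 2 := by ring
    rw [e2]
    apply mul_le_mul_of_nonneg_right _ e1
    apply div_le_div_of_nonneg_right _ hlam2.le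
    linarith

end Pool.Agent.NQF
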