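import Pool.Agent.NQF.Defs
import Pool.Agent.NQF.SDef
import Pool.Agent.NQF.SBas
import Pool.Agent.NQF.SBat
import Pool.Agent.NQF.SMas
import Pool.Agent.NQF.STri

/-!
# NQF-SRk: averages of the trial direction over a row

PLAN. `row_tu`: `∑_{e ∈ Sr l0} w e ∑_{k ∈ L e} h l k = h l l0 · 1 + ∑_{e ∈ Sr l0} w e ∑_{k ∈ (L e).erase l0} h l k` (`ls_line`: mass one since `g l0 ≠ 0`) `= h l l0 + ∑_k MM l0 k h k l` (`mm_row` with `u = h · l`, `Hi.sy`), and `∑_k MM l0 k h k l = δ - h l0 l - g l0 (∑ g h · l)/(2m) = - h l0 l - g l0 g l/(2m)`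
(`Hi.inv`, `Hi.ga`, `l ≠ l0`). `row_ds`: sum over `l ∈ L f`, `∑_{L f} g = 0`. `row_res`: by `row_ds` the restricted sum is `- ∑_{e ∈ Sr l0, e meets f} w e dS (tu e) f`; each such `e` meets `f` in exactly one line `k` (`f ≠ e` because `l0 ∉ L f`), `w e = MM l0 k` (`mm_eq`), all `k ∈ L f` with `MM l0 k ≠ 0` occur;
`dS (tu e) f = tu e k + ∑_{others} = -1 + O(C0/m)` (`Hi.en`).
-/

set_option autoImplicit false

open Finset

namespace Pool.Agent.NQF

open Pool.Agent.NQ (board dsum F Ent Dg phi ln Q Qset QS NonAtt bern)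
open Pool.Agent.NQR (Adm Opt Bd Rf hS hD hh InR)
open Pool.Agent.NQL

theorem row_tu {α β : Type} [DecidableEq α] [DecidableEq β] {ν m : ℕ} {K lam C0 : ℝ} {I : Finset α} {L : β → Finset α}
    {S : Finset β} {w : β → ℝ} {c g : α → ℝ} {h : α → α → ℝ} (hL : LSys ν m K lam I L S w c g) (hm : 1 ≤ m)
    (hH : Hi C0 m I (AA L S w g m) g h) {l0 : α} (h0 : l0 ∈ I) (hg : g l0 ≠ 0) {l : α} (hl : l ∈ I)
    (hne : l ≠ l0) : ∑ e ∈ Sr L S l0, w e * tu L h e l = g l0 * g l / (2 * m) := by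
  have hm0 : (0 : ℝ) < m := by exact_mod_cast hm
  have h1 := mm_row (w := w) hL.sub (fun k => h l k) l0
  have h2 := hH.inv l0 h0 l hl
  rw [if_neg (Ne.symm hne)] at h2
  have h3 := hH.ga l hl
  have h4 : ∑ e ∈ Sr L S l0, w e = 1 := (ls_line hL h0).2.2.2 hg
  have h5 : ∑ e ∈ Sr L S l0, w e * (dS L (fun k => h l k) e - h l l0) =
      -(∑ e ∈ Sr L S l0, w e * tu L h e l) - h l l0 := by
    have e1 : ∀ e ∈ Sr L S l0, w e * (dS L (fun k => h l k) e - h l l0) =
        -(w e * tu L h e l) - w e * h l l0 := by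
      intro e _
      simp only [tu, dS]
      ring
    rw [sum_congr rfl e1, sum_sub_distrib, sum_neg_distrib, ← sum_mul, h4, one_mul]
  have h6 : ∑ l' ∈ I, AA L S w g m l0 l' * h l' l =
      h l0 l + ∑ l' ∈ I, MM L S w l0 l' * h l l' + g l0 / (2 * m) * g l := by
    have e2 : g l0 / (2 * m) * g l = ∑ l' ∈ I, g l0 / (2 * m) * (g l' * h l' l) := by
      rw [← mul_sum, h3]
    have e1 : ∀ l' ∈ I, AA L S w g m l0 l' * h l' l =
        (if l0 = l' then h l' l else 0) + MM L S w l0 l' * h l l' +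
          g l0 / (2 * m) * (g l' * h l' l) := by
      intro l' _
      rw [hH.sy l l']
      unfold AA
      split_ifs <;> ring
    rw [sum_congr rfl e1, sum_add_distrib, sum_add_distrib, sum_ite_eq, if_pos h0, ← e2]
  have h7 := hH.sy l l0
  have h8 : g l0 / (2 * m) * g l = g l0 * g l / (2 * m) := by ring
  rw [← h8]
  linarith

theorem row_ds {α β : Type} [DecidableEq α] [DecidableEq β] {ν m : ℕ} {K lam C0 : ℝ} {I : Finset α} {L : β → Finset α}
    {S : Finset β} {w : β → ℝ} {c g : α → ℝ} {h : α → α → ℝ} (hL : LSys ν m K lam I L S w c g) (hm : 1 ≤ m)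
    (hH : Hi C0 m I (AA L S w g m) g h) {l0 : α} (h0 : l0 ∈ I) (hg : g l0 ≠ 0) {f : β} (hf : f ∈ S)
    (hne : l0 ∉ L f) : ∑ e ∈ Sr L S l0, w e * dS L (tu L h e) f = 0 := by
  have h1 : ∑ e ∈ Sr L S l0, w e * dS L (tu L h e) f =
      ∑ l ∈ L f, ∑ e ∈ Sr L S l0, w e * tu L h e l := by
    rw [sum_comm]
    exact sum_congr rfl fun e _ => by rw [dS, mul_sum]
  have h2 : ∀ l ∈ L f, ∑ e ∈ Sr L S l0, w e * tu L h e l = g l0 / (2 * m) * g l := by
    intro l hl
    rw [row_tu hL hm hH h0 hg (hL.sub f hf hl) (by rintro rfl; exact hne hl)]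
    ring
  rw [h1, sum_congr rfl h2, ← mul_sum, hL.ge f hf, mul_zero]

private theorem srk_card {α β : Type} [DecidableEq α] [DecidableEq β] {L : β → Finset α}
    {S : Finset β} {w : β → ℝ} (hlin : ∀ e ∈ S, ∀ f ∈ S, e ≠ f → (L e ∩ L f).card ≤ 1) {l0 : α}
    {f : β} (hf : f ∈ S) (hne : l0 ∉ L f) :
    ∑ k ∈ L f, MM L S w l0 k =
      ∑ e ∈ (Sr L S l0).filter (fun e => ¬ Disjoint (L f) (L e)), w e := by
  have h1 : ∀ k ∈ L f, MM L S w l0 k = ∑ e ∈ Sr L S l0, if k ∈ L e then w e else 0 := by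
    intro k hk
    have hk0 : l0 ≠ k := by rintro rfl; exact hne hk
    rw [MM, if_neg hk0, ← sum_filter, Sr, filter_filter]
  rw [sum_congr rfl h1, sum_comm, sum_filter]
  refine sum_congr rfl fun e he => ?_
  rw [Sr, mem_filter] at he
  have hfe : f ≠ e := by rintro rfl; exact hne he.2
  have hc := hlin f hf e he.1 hfe
  rw [← sum_filter, sum_const, nsmul_eq_mul, filter_mem_eq_inter]
  by_cases hd : Disjoint (L f) (L e)
  · rw [if_neg (not_not.2 hd), disjoint_iff_inter_eq_empty.1 hd]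
    simp
  · rw [if_pos hd]
    have h2 : (L f ∩ L e).card = 1 := by
      have h3 : (L f ∩ L e).card ≠ 0 := by
        rw [Ne, card_eq_zero, ← disjoint_iff_inter_eq_empty]
        exact hd
      omega
    rw [h2]
    simp

theorem row_res {α β : Type} [DecidableEq α] [DecidableEq β] {ν m : ℕ} {K lam C0 : ℝ} {I : Finset α} {L : β → Finset α}
    {S : Finset β} {w : β → ℝ} {c g : α → ℝ} {h : α → α → ℝ} (hL : LSys ν m K lam I L S w c g) (hm : 1 ≤ m)
    (hν : ν ≤ 4) (hC0 : 0 ≤ C0)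
    (hH : Hi C0 m I (AA L S w g m) g h) {l0 : α} (h0 : l0 ∈ I) (hg : g l0 ≠ 0) {f : β} (hf : f ∈ S)
    (hne : l0 ∉ L f) :
    |∑ e ∈ (Sr L S l0).filter (fun e => Disjoint (L f) (L e)), w e * dS L (tu L h e) f -
      ∑ k ∈ L f, MM L S w l0 k| ≤ 16 * C0 / m * ∑ k ∈ L f, MM L S w l0 k := by
  have hm0 : (0 : ℝ) < m := by exact_mod_cast hm
  have h1 := row_ds hL hm hH h0 hg hf hne
  rw [← sum_filter_add_sum_filter_not (Sr L S l0) (fun e => Disjoint (L f) (L e))] at h1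
  rw [srk_card hL.lin hf hne]
  have h2 : ∑ e ∈ (Sr L S l0).filter (fun e => Disjoint (L f) (L e)), w e * dS L (tu L h e) f -
      ∑ e ∈ (Sr L S l0).filter (fun e => ¬ Disjoint (L f) (L e)), w e =
      -∑ e ∈ (Sr L S l0).filter (fun e => ¬ Disjoint (L f) (L e)),
        w e * (dS L (tu L h e) f + 1) := by
    simp only [mul_add, sum_add_distrib, mul_one]
    linarith
  rw [h2, abs_neg, mul_sum]
  refine (abs_sum_le_sum_abs _ _).trans (sum_le_sum fun e he => ?_)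
  rw [mem_filter, Sr, mem_filter] at he
  obtain ⟨⟨heS, hel⟩, hd⟩ := he
  have hfe : f ≠ e := by rintro rfl; exact hne hel
  have hc := hL.lin f hf e heS hfe
  have hc1 : (L f ∩ L e).card = 1 := by
    have h3 : (L f ∩ L e).card ≠ 0 := by
      rw [Ne, card_eq_zero, ← disjoint_iff_inter_eq_empty]
      exact hd
    omega
  have h3 : dS L (tu L h e) f + 1 =
      -∑ l ∈ L f, ∑ k ∈ L e, (h l k - if l = k then 1 else 0) := by
    have e1 : ∑ l ∈ L f, ∑ k ∈ L e, (if l = k then (1 : ℝ) else 0) = 1 := by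
      have : ∀ l ∈ L f, ∑ k ∈ L e, (if l = k then (1 : ℝ) else 0) = if l ∈ L e then 1 else 0 := by
        intro l _
        rw [sum_ite_eq]
      rw [sum_congr rfl this, ← sum_filter, sum_const, nsmul_eq_mul, filter_mem_eq_inter, hc1]
      simp
    simp only [sum_sub_distrib, e1, dS, tu, sum_neg_distrib]
    ring
  have h4 : |dS L (tu L h e) f + 1| ≤ 16 * C0 / m := by
    rw [h3, abs_neg]
    have hb : ∀ l ∈ L f, |∑ k ∈ L e, (h l k - if l = k then 1 else 0)| ≤ 4 * (C0 / m) := by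
      intro l hl
      refine (abs_sum_le_sum_abs _ _).trans ?_
      have : ∀ k ∈ L e, |h l k - if l = k then 1 else 0| ≤ C0 / m := fun k hk =>
        hH.en l (hL.sub f hf hl) k (hL.sub e heS hk)
      refine (sum_le_card_nsmul _ _ _ this).trans ?_
      rw [hL.card e heS, nsmul_eq_mul]
      have h4 : (ν : ℝ) ≤ 4 := by exact_mod_cast hν
      exact mul_le_mul_of_nonneg_right h4 (by positivity)
    refine (abs_sum_le_sum_abs _ _).trans ((sum_le_card_nsmul _ _ _ hb).trans ?_)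
    rw [hL.card f hf, nsmul_eq_mul]
    have h4 : (ν : ℝ) ≤ 4 := by exact_mod_cast hν
    calc (ν : ℝ) * (4 * (C0 / m)) ≤ 4 * (4 * (C0 / m)) :=
          mul_le_mul_of_nonneg_right h4 (by positivity)
      _ = 16 * C0 / m := by ring
  rw [abs_mul, abs_of_nonneg (hL.wnn e heS), mul_comm]
  exact mul_le_mul_of_nonneg_right h4 (hL.wnn e heS)

end Pool.Agent.NQF
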