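import Pool.Agent.NQF.Defs
import Pool.Agent.NQF.SDef
import Pool.Agent.NQF.SBas
import Pool.Agent.NQF.SBat
import Pool.Agent.NQF.SMas
import Pool.Agent.NQF.SRk

/-!
# NQF-SRa: average of ta over a row (exact)

Splitting off the line `l0` from the double sum `ta`; the mixed part is computed with `mm_row` and the row `l0` of
`A h = 1`.
-/

set_option autoImplicit false

open Finset

namespace Pool.Agent.NQF

open Pool.Agent.NQ (board dsum F Ent Dg phi ln Q Qset QS NonAtt bern)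
open Pool.Agent.NQR (Adm Opt Bd Rf hS hD hh InR)
open Pool.Agent.NQL

private theorem ta_split {α : Type} [DecidableEq α] {h : α → α → ℝ} (hs : ∀ l l', h l l' = h l' l)
    {T : Finset α} {a : α} (ha : a ∈ T) :
    ∑ k ∈ T, ∑ k' ∈ T, h k k' =
      h a a + 2 * (∑ k ∈ T, h a k - h a a) + ∑ k ∈ T.erase a, h k k + pp2 (T.erase a) h := by
  have h1 : ∑ k ∈ T, ∑ k' ∈ T, h k k' = ∑ k' ∈ T, h a k' + ∑ k ∈ T.erase a, ∑ k' ∈ T, h k k' :=
    (Finset.add_sum_erase T (fun k => ∑ k' ∈ T, h k k') ha).symm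
  have h2 : ∑ k ∈ T, h a k = h a a + ∑ k ∈ T.erase a, h a k :=
    (Finset.add_sum_erase T (fun k => h a k) ha).symm
  have h3 : ∑ k ∈ T.erase a, ∑ k' ∈ T, h k k' =
      ∑ k ∈ T.erase a, (h a k + (h k k + ∑ k' ∈ (T.erase a).erase k, h k k')) := by
    refine Finset.sum_congr rfl fun k hk => ?_
    have h4 : ∑ k' ∈ T, h k k' = h k a + ∑ k' ∈ T.erase a, h k k' :=
      (Finset.add_sum_erase T (fun k' => h k k') ha).symm
    have h5 : ∑ k' ∈ T.erase a, h k k' = h k k + ∑ k' ∈ (T.erase a).erase k, h k k' :=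
      (Finset.add_sum_erase (T.erase a) (fun k' => h k k') hk).symm
    rw [h4, h5, hs k a]
  rw [h1, h3, Finset.sum_add_distrib, Finset.sum_add_distrib, h2]
  unfold pp2
  ring

theorem row_ta {α β : Type} [DecidableEq α] [DecidableEq β] {ν m : ℕ} {K lam C0 : ℝ} {I : Finset α} {L : β → Finset α}
    {S : Finset β} {w : β → ℝ} {c g : α → ℝ} {h : α → α → ℝ} (hL : LSys ν m K lam I L S w c g) (hm : 1 ≤ m)
    (hH : Hi C0 m I (AA L S w g m) g h) {l0 : α} (h0 : l0 ∈ I) (hg : g l0 ≠ 0) :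
    ∑ e ∈ Sr L S l0, w e * ta L h e = ν - (h l0 l0 - 1) - 1 / m +
      ∑ e ∈ Sr L S l0, w e * ∑ k ∈ (L e).erase l0, (h k k - 1) +
      ∑ e ∈ Sr L S l0, w e * pp2 ((L e).erase l0) h := by
  have hw : ∑ e ∈ Sr L S l0, w e = 1 := (ls_line hL h0).2.2.2 hg
  have hg2 : g l0 * g l0 = 1 := by
    rcases hL.gv l0 h0 with h1 | h1 | h1
    · exact absurd h1 hg
    · rw [h1]; norm_num
    · rw [h1]; norm_num
  have hm0 : (m : ℝ) ≠ 0 := by
    have : m ≠ 0 := by omega
    exact_mod_cast this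
  -- the row `l0` of `A h = 1`
  have h1 := hH.inv l0 h0 l0 h0
  rw [if_pos rfl] at h1
  have h2 : ∑ l' ∈ I, AA L S w g m l0 l' * h l' l0 =
      h l0 l0 + ∑ l' ∈ I, MM L S w l0 l' * h l0 l' + 1 / (2 * m) := by
    have h3 : ∀ l' ∈ I, AA L S w g m l0 l' * h l' l0 =
        (if l0 = l' then h l' l0 else 0) + MM L S w l0 l' * h l0 l' +
          g l0 / (2 * m) * (g l' * h l' l0) := by
      intro l' _
      unfold AA
      rw [hH.sy l0 l']
      by_cases hl : l0 = l'
      · rw [if_pos hl, if_pos hl]; ring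
      · rw [if_neg hl, if_neg hl]; ring
    rw [Finset.sum_congr rfl h3, Finset.sum_add_distrib, Finset.sum_add_distrib,
      Finset.sum_ite_eq, if_pos h0, ← Finset.mul_sum, hH.ga l0 h0]
    have h4 : g l0 / (2 * (m : ℝ)) * g l0 = 1 / (2 * m) := by
      rw [div_mul_eq_mul_div, hg2]
    rw [h4]
  rw [h2] at h1
  have h5 := mm_row (w := w) hL.sub (h l0) l0
  rw [h5] at h1
  -- the double sum
  have h6 : ∀ e ∈ Sr L S l0, w e * ta L h e = w e * (h l0 l0 + (ν - 1)) +
      2 * (w e * (dS L (h l0) e - h l0 l0)) + w e * ∑ k ∈ (L e).erase l0, (h k k - 1) +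
      w e * pp2 ((L e).erase l0) h := by
    intro e he
    have he1 : e ∈ S := (Finset.mem_filter.1 he).1
    have he2 : l0 ∈ L e := (Finset.mem_filter.1 he).2
    have h7 : ta L h e = _ := ta_split hH.sy he2
    have h8 : (((L e).erase l0).card : ℝ) = ν - 1 := by
      have h9 := Finset.card_erase_add_one he2
      rw [hL.card e he1] at h9
      rw [eq_sub_iff_add_eq]
      exact_mod_cast h9
    have h10 : ∑ k ∈ (L e).erase l0, (h k k - 1) = ∑ k ∈ (L e).erase l0, h k k - (ν - 1) := by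
      rw [Finset.sum_sub_distrib, Finset.sum_const, nsmul_eq_mul, mul_one, h8]
    rw [h7, h10]
    unfold dS
    ring
  rw [Finset.sum_congr rfl h6, Finset.sum_add_distrib, Finset.sum_add_distrib,
    Finset.sum_add_distrib, ← Finset.sum_mul, ← Finset.mul_sum, hw]
  have h11 : (1 : ℝ) / (2 * m) = 1 / m / 2 := by
    rw [div_div, mul_comm]
  rw [h11] at h1
  linarith

end Pool.Agent.NQF
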