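import Pool.Agent.NQF.Defs
import Pool.Agent.NQF.SDef
import Pool.Agent.NQF.SBas
import Pool.Agent.NQF.SBat
import Pool.Agent.NQF.SMas
import Pool.Agent.NQF.STri
import Pool.Agent.NQF.SRk

/-!
# NQF-SRb: average of T1 over a row

PLAN. Exchange the sums: for `f ∈ S`. (1) `l0 ∈ L f`: `f` is in `Sm e` for all `e ∈ Sr l0`, `e ≠ f`, `L f \ L e = (L f).erase l0`: contribution `- w f (1 - w f) pp2 ((L f).erase l0) h`; total `- T0 + O(m⁻²)` (`|pp2| ≤ 12 C0/m`, `∑_{Sr l0} w² ≤ K/m`), `T0 = ∑_{Sr l0} w pp2 ((L f).erase l0) h`. (2) `l0 ∉ L f`: the part of `Sd`: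
`w f pp2 (L f) h (∑_{k ∈ L f} MM l0 k)(1 + O(1/m))` (`row_res`); the part of `Sm`: for each `k ∈ L f` with `MM l0 k ≠ 0` one square `e` of weight `MM l0 k`, `L f \ L e = (L f).erase k`: `- w f ∑_{k ∈ L f} MM l0 k pp2 ((L f).erase k) h`. `pp2 (L f) h - pp2 ((L f).erase k) h = 2 ∑_{l' ∈ (L f).erase k} h k l'`: total of (2)
`= 2 ∑_{f, l0 ∉ L f} w f ∑_{k ∈ L f} MM l0 k ∑_{l' ∈ (L f).erase k} h k l'` + error `≤ (C/m)(1/m) ∑_f w f ∑_{k ∈ L f} MM l0 k ≤ (C/m²) ∑_k MM l0 k ≤ 3C/m²`. Adding the `f` with `l0 ∈ L f` costs `(C/m) ∑_{Sr l0} w² `. The full sum is `2 ∑_k MM l0 k ∑_{l'} MM k l' h l' k` (`mm_row`, `sr_sum`) `= 2 ∑_{k} MM l0 k (1 - h k k - g k ^ 2/(2m))`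
`= - 2 ∑_{e ∈ Sr l0} w e ∑_{k ∈ (L e).erase l0} (h k k - 1) - 1/m` since `∑_{k ∈ (L e).erase l0} g k ^ 2 = 1` (`ge2`, `g l0 ^ 2 = 1`).
-/

set_option autoImplicit false

open Finset

namespace Pool.Agent.NQF

open Pool.Agent.NQ (board dsum F Ent Dg phi ln Q Qset QS NonAtt bern)
open Pool.Agent.NQR (Adm Opt Bd Rf hS hD hh InR)
open Pool.Agent.NQL

section aux

variable {α β : Type} [DecidableEq α] [DecidableEq β]

private theorem swap_d (L : β → Finset α) (S : Finset β) (w : β → ℝ) (l0 : α) (X : β → β → ℝ) :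
    ∑ e ∈ Sr L S l0, w e * ∑ f ∈ Sd L S e, X e f =
      ∑ f ∈ S, ∑ e ∈ (Sr L S l0).filter (fun e => Disjoint (L f) (L e)), w e * X e f := by
  simp_rw [Finset.mul_sum]
  refine Finset.sum_comm' ?_
  intro e f
  simp only [Sd, Finset.mem_filter]
  tauto

private theorem swap_m (L : β → Finset α) (S : Finset β) (w : β → ℝ) (l0 : α) (X : β → β → ℝ) :
    ∑ e ∈ Sr L S l0, w e * ∑ f ∈ Sm L S e, X e f =
      ∑ f ∈ S, ∑ e ∈ (Sr L S l0).filter (fun e => ¬ Disjoint (L f) (L e) ∧ f ≠ e), w e * X e f := by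
  simp_rw [Finset.mul_sum]
  refine Finset.sum_comm' ?_
  intro e f
  simp only [Sm, Finset.mem_filter]
  tauto

private theorem pp2_diff {h : α → α → ℝ} (hs : ∀ l l', h l l' = h l' l) {T : Finset α} {k : α}
    (hk : k ∈ T) : pp2 T h - pp2 (T.erase k) h = 2 * ∑ l' ∈ T.erase k, h k l' := by
  unfold pp2
  rw [← Finset.add_sum_erase T (fun l => ∑ l' ∈ T.erase l, h l l') hk]
  have h1 : ∑ l ∈ T.erase k, ∑ l' ∈ T.erase l, h l l' =
      ∑ l ∈ T.erase k, (h k l + ∑ l' ∈ (T.erase k).erase l, h l l') := by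
    refine Finset.sum_congr rfl fun l hl => ?_
    have hkl : k ∈ T.erase l := by
      rw [Finset.mem_erase] at hl ⊢
      exact ⟨fun e => hl.1 e.symm, hk⟩
    rw [← Finset.add_sum_erase (T.erase l) (fun l' => h l l') hkl, Finset.erase_right_comm, hs l k]
  rw [h1, Finset.sum_add_distrib]
  ring

private theorem pp2_bd {h : α → α → ℝ} {I T : Finset α} {b : ℝ} (hb : 0 ≤ b) (hT : T ⊆ I)
    (hc : T.card ≤ 4) (hh : ∀ l ∈ I, ∀ k ∈ I, l ≠ k → |h l k| ≤ b) : |pp2 T h| ≤ 16 * b := by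
  unfold pp2
  have hcr : (T.card : ℝ) ≤ 4 := by exact_mod_cast hc
  calc |∑ l ∈ T, ∑ l' ∈ T.erase l, h l l'| ≤ ∑ l ∈ T, ∑ l' ∈ T.erase l, |h l l'| :=
        (Finset.abs_sum_le_sum_abs _ _).trans
          (Finset.sum_le_sum fun l _ => Finset.abs_sum_le_sum_abs _ _)
    _ ≤ ∑ l ∈ T, ∑ l' ∈ T.erase l, b := by
        refine Finset.sum_le_sum fun l hl => Finset.sum_le_sum fun l' hl' => ?_
        rw [Finset.mem_erase] at hl'
        exact hh l (hT hl) l' (hT hl'.2) fun e => hl'.1 e.symm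
    _ ≤ ∑ l ∈ T, 4 * b := by
        refine Finset.sum_le_sum fun l hl => ?_
        rw [Finset.sum_const, nsmul_eq_mul]
        have : ((T.erase l).card : ℝ) ≤ 4 := by
          have := Finset.card_erase_le (s := T) (a := l)
          have h2 : (T.erase l).card ≤ 4 := this.trans hc
          exact_mod_cast h2
        exact mul_le_mul_of_nonneg_right this hb
    _ = T.card * (4 * b) := by rw [Finset.sum_const, nsmul_eq_mul]
    _ ≤ 16 * b := by nlinarith

private theorem off_bd {h : α → α → ℝ} {I T : Finset α} {b : ℝ} (hb : 0 ≤ b) (hT : T ⊆ I)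
    (hc : T.card ≤ 4) (hh : ∀ l ∈ I, ∀ k ∈ I, l ≠ k → |h l k| ≤ b) {k : α} (hk : k ∈ I) :
    |∑ l' ∈ T.erase k, h k l'| ≤ 4 * b := by
  calc |∑ l' ∈ T.erase k, h k l'| ≤ ∑ l' ∈ T.erase k, |h k l'| := Finset.abs_sum_le_sum_abs _ _
    _ ≤ ∑ l' ∈ T.erase k, b := by
        refine Finset.sum_le_sum fun l' hl' => ?_
        rw [Finset.mem_erase] at hl'
        exact hh k hk l' (hT hl'.2) fun e => hl'.1 e.symm
    _ = (T.erase k).card * b := by rw [Finset.sum_const, nsmul_eq_mul]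
    _ ≤ 4 * b := by
        have : ((T.erase k).card : ℝ) ≤ 4 := by
          have h2 : (T.erase k).card ≤ 4 := (Finset.card_erase_le (s := T) (a := k)).trans hc
          exact_mod_cast h2
        exact mul_le_mul_of_nonneg_right this hb

/-- the part of `Sm` for a square on the line `l0` -/
private theorem nm_on {L : β → Finset α} {S : Finset β} {w : β → ℝ} {l0 : α}
    (hlin : ∀ e ∈ S, ∀ f ∈ S, e ≠ f → (L e ∩ L f).card ≤ 1)
    (hmass : ∑ e ∈ Sr L S l0, w e = 1) {f : β} (hf : f ∈ S) (hl : l0 ∈ L f) (c : ℝ)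
    (φ : Finset α → ℝ) :
    ∑ e ∈ (Sr L S l0).filter (fun e => ¬ Disjoint (L f) (L e) ∧ f ≠ e), w e * (c * φ (L f \ L e)) =
      c * (1 - w f) * φ ((L f).erase l0) := by
  have hfr : f ∈ Sr L S l0 := by
    simp only [Sr, Finset.mem_filter]
    exact ⟨hf, hl⟩
  have h1 : (Sr L S l0).filter (fun e => ¬ Disjoint (L f) (L e) ∧ f ≠ e) = (Sr L S l0).erase f := by
    ext e
    simp only [Sr, Finset.mem_filter, Finset.mem_erase]
    constructor
    · rintro ⟨⟨a, b⟩, _, d⟩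
      exact ⟨fun h => d h.symm, a, b⟩
    · rintro ⟨a, b, d⟩
      refine ⟨⟨b, d⟩, ?_, fun h => a h.symm⟩
      rw [Finset.not_disjoint_iff]
      exact ⟨l0, hl, d⟩
  rw [h1]
  have h2 : ∑ e ∈ (Sr L S l0).erase f, w e * (c * φ (L f \ L e)) =
      ∑ e ∈ (Sr L S l0).erase f, w e * (c * φ ((L f).erase l0)) := by
    refine Finset.sum_congr rfl fun e he => ?_
    simp only [Sr, Finset.mem_filter, Finset.mem_erase] at he
    obtain ⟨he1, he2, he3⟩ := he
    have h3 : L f \ L e = (L f).erase l0 := by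
      ext x
      simp only [Finset.mem_sdiff, Finset.mem_erase]
      constructor
      · rintro ⟨a, b⟩
        refine ⟨fun h => b (h ▸ he3), a⟩
      · rintro ⟨a, b⟩
        refine ⟨b, fun h => a ?_⟩
        have h4 := hlin f hf e he2 fun h => he1 h.symm
        rw [Finset.card_le_one] at h4
        exact h4 x (Finset.mem_inter.2 ⟨b, h⟩) l0 (Finset.mem_inter.2 ⟨hl, he3⟩)
    rw [h3]
  rw [h2, ← Finset.sum_mul]
  have h5 := Finset.add_sum_erase (Sr L S l0) w hfr
  have h6 : ∑ e ∈ (Sr L S l0).erase f, w e = 1 - w f := by linarith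
  rw [h6]
  ring

/-- the part of `Sm` for a square which is not on the line `l0` -/
private theorem nm_off {L : β → Finset α} {S : Finset β} {w : β → ℝ} {l0 : α}
    (hlin : ∀ e ∈ S, ∀ f ∈ S, e ≠ f → (L e ∩ L f).card ≤ 1)
    {f : β} (hf : f ∈ S) (hl : l0 ∉ L f) (c : ℝ) (φ : Finset α → ℝ) :
    ∑ e ∈ (Sr L S l0).filter (fun e => ¬ Disjoint (L f) (L e) ∧ f ≠ e), w e * (c * φ (L f \ L e)) =
      c * ∑ k ∈ L f, MM L S w l0 k * φ ((L f).erase k) := by
  have h1 : ∑ k ∈ L f, MM L S w l0 k * φ ((L f).erase k) =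
      ∑ k ∈ L f, ∑ e ∈ S.filter (fun e => l0 ∈ L e ∧ k ∈ L e), w e * φ ((L f).erase k) := by
    refine Finset.sum_congr rfl fun k hk => ?_
    unfold MM
    rw [if_neg (fun h : l0 = k => hl (h ▸ hk)), Finset.sum_mul]
  rw [h1]
  have h2 : ∑ k ∈ L f, ∑ e ∈ S.filter (fun e => l0 ∈ L e ∧ k ∈ L e), w e * φ ((L f).erase k) =
      ∑ e ∈ (Sr L S l0).filter (fun e => ¬ Disjoint (L f) (L e) ∧ f ≠ e),
        ∑ k ∈ L f ∩ L e, w e * φ ((L f).erase k) := by
    refine Finset.sum_comm' ?_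
    intro k e
    simp only [Sr, Finset.mem_filter, Finset.mem_inter]
    constructor
    · rintro ⟨a, b, c, d⟩
      refine ⟨⟨a, d⟩, ⟨b, c⟩, ?_, ?_⟩
      · rw [Finset.not_disjoint_iff]
        exact ⟨k, a, d⟩
      · rintro rfl
        exact hl c
    · rintro ⟨⟨a, d⟩, ⟨b, c⟩, _, _⟩
      exact ⟨a, b, c, d⟩
  rw [h2, Finset.mul_sum]
  refine Finset.sum_congr rfl fun e he => ?_
  simp only [Sr, Finset.mem_filter] at he
  obtain ⟨⟨he1, he2⟩, he3, he4⟩ := he
  have h4 := hlin f hf e he1 he4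
  have h5 : 0 < (L f ∩ L e).card := by
    rw [Finset.card_pos]
    rw [Finset.not_disjoint_iff] at he3
    obtain ⟨x, hx, hx'⟩ := he3
    exact ⟨x, Finset.mem_inter.2 ⟨hx, hx'⟩⟩
  obtain ⟨k, hk⟩ := Finset.card_eq_one.1 (le_antisymm h4 h5)
  rw [hk, Finset.sum_singleton]
  have h6 : L f \ L e = (L f).erase k := by
    rw [← Finset.sdiff_inter_self_left, hk, Finset.sdiff_singleton_eq_erase]
  rw [h6]
  ring

end aux

theorem row_T1 (ν : ℕ) (hν : 2 ≤ ν) (hν4 : ν ≤ 4) (K C0 : ℝ) (hK : 1 ≤ K) (hC0 : 1 ≤ C0) :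
    ∃ C : ℝ, 1 ≤ C ∧ ∀ (α β : Type) [DecidableEq α] [DecidableEq β] (m : ℕ) (I : Finset α)
    (L : β → Finset α) (S : Finset β) (w : β → ℝ) (c g : α → ℝ) (lam : ℝ) (h : α → α → ℝ), 1 ≤ m →
      LSys ν m K lam I L S w c g → Hi C0 m I (AA L S w g m) g h → ∀ l0 ∈ I, g l0 ≠ 0 →
      |∑ e ∈ Sr L S l0, w e * T1 L S w h e - (-∑ e ∈ Sr L S l0, w e * pp2 ((L e).erase l0) h -
        2 * ∑ e ∈ Sr L S l0, w e * ∑ k ∈ (L e).erase l0, (h k k - 1) - 1 / m)| ≤ C / m ^ 2 := by
  refine ⟨768 * C0 ^ 2 + 48 * C0 * K, by nlinarith, ?_⟩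
  intro α β _ _ m I L S w c g lam h hm hL hH l0 h0 hg
  have hm0 : (0 : ℝ) < m := by exact_mod_cast hm
  obtain ⟨b, hb⟩ : ∃ b : ℝ, b = C0 / m := ⟨_, rfl⟩
  have hb0 : 0 ≤ b := by rw [hb]; positivity
  have hoff : ∀ l ∈ I, ∀ k ∈ I, l ≠ k → |h l k| ≤ b := by
    intro l hl k hk hne
    have := hH.en l hl k hk
    rw [if_neg hne, sub_zero] at this
    rw [hb]
    exact this
  obtain ⟨hl1, hl2, hl3, hl4⟩ := ls_line hL h0
  have hmass := hl4 hg
  have hgl : g l0 ^ 2 = 1 := by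
    rcases hL.gv l0 h0 with h | h | h
    · exact absurd h hg
    · rw [h]; norm_num
    · rw [h]; norm_num
  -- the full double sum
  obtain ⟨R, hR⟩ : ∃ R : β → ℝ, R = fun f => w f * ∑ k ∈ L f, MM L S w l0 k *
    ∑ l' ∈ (L f).erase k, h k l' := ⟨_, rfl⟩
  have hMh : ∀ k ∈ I, ∑ f ∈ Sr L S k, w f * ∑ l' ∈ (L f).erase k, h k l' =
      1 - h k k - g k ^ 2 / (2 * m) := by
    intro k hk
    have e1 : ∑ f ∈ Sr L S k, w f * ∑ l' ∈ (L f).erase k, h k l' =
        ∑ f ∈ Sr L S k, w f * (dS L (fun l' => h l' k) f - h k k) := by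
      refine Finset.sum_congr rfl fun f hf => ?_
      simp only [Sr, Finset.mem_filter] at hf
      unfold dS
      rw [← Finset.add_sum_erase (L f) (fun l' => h l' k) hf.2]
      congr 1
      rw [add_sub_cancel_left]
      exact Finset.sum_congr rfl fun l' _ => hH.sy k l'
    rw [e1, ← mm_row hL.sub (fun l' => h l' k) k]
    have e2 := hH.inv k hk k hk
    rw [if_pos rfl] at e2
    unfold AA at e2
    simp only [add_mul, Finset.sum_add_distrib, ite_mul, one_mul, zero_mul] at e2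
    rw [Finset.sum_ite_eq I k (fun l' => h l' k), if_pos hk] at e2
    have e3 : ∑ l' ∈ I, g k * g l' / (2 * (m : ℝ)) * h l' k = g k ^ 2 / (2 * m) := by
      have e4 : ∀ l' ∈ I, g k * g l' / (2 * (m : ℝ)) * h l' k = g k / (2 * m) * (g l' * h l' k) := by
        intro l' _
        ring
      rw [Finset.sum_congr rfl e4, ← Finset.mul_sum, hH.ga k hk]
      ring
    rw [e3] at e2
    linarith
  have hF : ∑ f ∈ S, R f = -∑ e ∈ Sr L S l0, w e * ∑ k ∈ (L e).erase l0, (h k k - 1) -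
      1 / (2 * m) := by
    have e1 : ∑ f ∈ S, R f = ∑ f ∈ S, ∑ k ∈ L f, MM L S w l0 k *
        (w f * ∑ l' ∈ (L f).erase k, h k l') := by
      rw [hR]
      refine Finset.sum_congr rfl fun f _ => ?_
      simp only
      rw [Finset.mul_sum]
      refine Finset.sum_congr rfl fun k _ => ?_
      ring
    rw [e1, ← sr_sum hL.sub (fun f k => MM L S w l0 k * (w f * ∑ l' ∈ (L f).erase k, h k l'))]
    have e2 : ∀ k ∈ I, ∑ f ∈ Sr L S k, MM L S w l0 k * (w f * ∑ l' ∈ (L f).erase k, h k l') =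
        MM L S w l0 k * (1 - h k k - g k ^ 2 / (2 * m)) := by
      intro k hk
      rw [← Finset.mul_sum, hMh k hk]
    rw [Finset.sum_congr rfl e2, mm_row hL.sub (fun k => 1 - h k k - g k ^ 2 / (2 * m)) l0]
    have e3 : ∀ e ∈ Sr L S l0, w e * (dS L (fun k => 1 - h k k - g k ^ 2 / (2 * (m : ℝ))) e -
        (1 - h l0 l0 - g l0 ^ 2 / (2 * m))) =
        -(w e * ∑ k ∈ (L e).erase l0, (h k k - 1)) - w e * (1 / (2 * m)) := by
      intro e he
      simp only [Sr, Finset.mem_filter] at he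
      unfold dS
      rw [← Finset.add_sum_erase (L e) (fun k => 1 - h k k - g k ^ 2 / (2 * (m : ℝ))) he.2,
        add_sub_cancel_left]
      have e4 := hL.ge2 e he.1
      rw [← Finset.add_sum_erase (L e) (fun k => g k ^ 2) he.2, hgl] at e4
      have e5 : ∑ k ∈ (L e).erase l0, (1 - h k k - g k ^ 2 / (2 * (m : ℝ))) =
          -∑ k ∈ (L e).erase l0, (h k k - 1) - (∑ k ∈ (L e).erase l0, g k ^ 2) / (2 * m) := by
        rw [Finset.sum_div, ← Finset.sum_neg_distrib, ← Finset.sum_sub_distrib]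
        refine Finset.sum_congr rfl fun k _ => ?_
        ring
      rw [e5]
      have e6 : ∑ k ∈ (L e).erase l0, g k ^ 2 = 1 := by linarith
      rw [e6]
      ring
    rw [Finset.sum_congr rfl e3, Finset.sum_sub_distrib, Finset.sum_neg_distrib, ← Finset.sum_mul,
      hmass]
    ring
  -- exchange of the sums
  obtain ⟨P, hP⟩ : ∃ P : β → ℝ, P = fun f => ∑ e ∈ (Sr L S l0).filter
    (fun e => Disjoint (L f) (L e)), w e * (w f * dS L (tu L h e) f * pp2 (L f) h) := ⟨_, rfl⟩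
  obtain ⟨Q', hQ⟩ : ∃ Q' : β → ℝ, Q' = fun f => ∑ e ∈ (Sr L S l0).filter
    (fun e => ¬ Disjoint (L f) (L e) ∧ f ≠ e), w e * (w f * pp2 (L f \ L e) h) := ⟨_, rfl⟩
  have hT : ∑ e ∈ Sr L S l0, w e * T1 L S w h e = ∑ f ∈ S, P f - ∑ f ∈ S, Q' f := by
    rw [hP, hQ, ← swap_d L S w l0 (fun e f => w f * dS L (tu L h e) f * pp2 (L f) h),
      ← swap_m L S w l0 (fun e f => w f * pp2 (L f \ L e) h), ← Finset.sum_sub_distrib]
    refine Finset.sum_congr rfl fun e _ => ?_
    unfold T1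
    ring
  have hcard : ∀ f ∈ S, (L f).card ≤ 4 := fun f hf => (hL.card f hf).le.trans hν4
  -- squares which are not on l0
  have hoffl : ∀ f ∈ S, l0 ∉ L f → |P f - Q' f - 2 * R f| ≤
      256 * b ^ 2 * (w f * ∑ k ∈ L f, MM L S w l0 k) := by
    intro f hf hl
    have hr := row_res hL hm hν4 (by linarith) hH h0 hg hf hl
    have e1 : P f = w f * pp2 (L f) h * ∑ e ∈ (Sr L S l0).filter
        (fun e => Disjoint (L f) (L e)), w e * dS L (tu L h e) f := by
      rw [hP]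
      simp only
      rw [Finset.mul_sum]
      refine Finset.sum_congr rfl fun e _ => ?_
      ring
    have e2 : Q' f = w f * ∑ k ∈ L f, MM L S w l0 k * pp2 ((L f).erase k) h := by
      rw [hQ]
      exact nm_off hL.lin hf hl (w f) (fun T => pp2 T h)
    have e3 : 2 * R f = w f * ∑ k ∈ L f, MM L S w l0 k * (pp2 (L f) h - pp2 ((L f).erase k) h) := by
      rw [hR]
      simp only
      rw [Finset.mul_sum, Finset.mul_sum, Finset.mul_sum]
      refine Finset.sum_congr rfl fun k hk => ?_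
      rw [pp2_diff hH.sy hk]
      ring
    have e4 : P f - Q' f - 2 * R f = w f * pp2 (L f) h * (∑ e ∈ (Sr L S l0).filter
        (fun e => Disjoint (L f) (L e)), w e * dS L (tu L h e) f - ∑ k ∈ L f, MM L S w l0 k) := by
      rw [e1, e2, e3]
      have e5 : ∑ k ∈ L f, MM L S w l0 k * (pp2 (L f) h - pp2 ((L f).erase k) h) =
          pp2 (L f) h * ∑ k ∈ L f, MM L S w l0 k -
            ∑ k ∈ L f, MM L S w l0 k * pp2 ((L f).erase k) h := by
        rw [Finset.mul_sum, ← Finset.sum_sub_distrib]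
        refine Finset.sum_congr rfl fun k _ => ?_
        ring
      rw [e5]
      ring
    rw [e4, abs_mul, abs_mul, abs_of_nonneg (hL.wnn f hf)]
    have e6 := pp2_bd hb0 (hL.sub f hf) (hcard f hf) hoff
    have e7 : 0 ≤ ∑ k ∈ L f, MM L S w l0 k := Finset.sum_nonneg fun k _ => mm_nn hL.wnn l0 k
    have hr' : |∑ e ∈ (Sr L S l0).filter (fun e => Disjoint (L f) (L e)), w e * dS L (tu L h e) f -
        ∑ k ∈ L f, MM L S w l0 k| ≤ 16 * b * ∑ k ∈ L f, MM L S w l0 k := by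
      have : 16 * C0 / (m : ℝ) = 16 * b := by rw [hb]; ring
      rw [← this]
      exact hr
    calc w f * |pp2 (L f) h| * |∑ e ∈ (Sr L S l0).filter (fun e => Disjoint (L f) (L e)),
          w e * dS L (tu L h e) f - ∑ k ∈ L f, MM L S w l0 k|
        ≤ (w f * (16 * b)) * (16 * b * ∑ k ∈ L f, MM L S w l0 k) := by
          apply mul_le_mul _ hr' (abs_nonneg _) (mul_nonneg (hL.wnn f hf) (by positivity))
          exact mul_le_mul_of_nonneg_left e6 (hL.wnn f hf)
      _ = 256 * b ^ 2 * (w f * ∑ k ∈ L f, MM L S w l0 k) := by ring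
  -- squares on l0
  have honl : ∀ f ∈ S, l0 ∈ L f → |P f - Q' f - 2 * R f + w f * pp2 ((L f).erase l0) h| ≤
      48 * b * w f ^ 2 := by
    intro f hf hl
    have e1 : P f = 0 := by
      rw [hP]
      simp only
      apply Finset.sum_eq_zero
      intro e he
      simp only [Sr, Finset.mem_filter] at he
      exact absurd he.2 (Finset.not_disjoint_iff.2 ⟨l0, hl, he.1.2⟩)
    have e2 : Q' f = w f * (1 - w f) * pp2 ((L f).erase l0) h := by
      rw [hQ]
      exact nm_on hL.lin hmass hf hl (w f) (fun T => pp2 T h)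
    have e3 : |R f| ≤ 16 * b * w f ^ 2 := by
      rw [hR]
      simp only
      rw [abs_mul, abs_of_nonneg (hL.wnn f hf)]
      have e4 : |∑ k ∈ L f, MM L S w l0 k * ∑ l' ∈ (L f).erase k, h k l'| ≤ 4 * (w f * (4 * b)) := by
        calc |∑ k ∈ L f, MM L S w l0 k * ∑ l' ∈ (L f).erase k, h k l'|
            ≤ ∑ k ∈ L f, |MM L S w l0 k * ∑ l' ∈ (L f).erase k, h k l'| :=
              Finset.abs_sum_le_sum_abs _ _
          _ ≤ ∑ k ∈ L f, w f * (4 * b) := by
              refine Finset.sum_le_sum fun k hk => ?_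
              rw [abs_mul]
              apply mul_le_mul _ (off_bd hb0 (hL.sub f hf) (hcard f hf) hoff (hL.sub f hf hk))
                (abs_nonneg _) (hL.wnn f hf)
              by_cases hkl : k = l0
              · rw [hkl, mm_self, abs_zero]
                exact hL.wnn f hf
              · rw [mm_eq hL.lin hf hl hk (fun h => hkl h.symm), abs_of_nonneg (hL.wnn f hf)]
          _ = (L f).card * (w f * (4 * b)) := by rw [Finset.sum_const, nsmul_eq_mul]
          _ ≤ 4 * (w f * (4 * b)) := by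
              have : ((L f).card : ℝ) ≤ 4 := by exact_mod_cast hcard f hf
              exact mul_le_mul_of_nonneg_right this
                (mul_nonneg (hL.wnn f hf) (by positivity))
      calc w f * |∑ k ∈ L f, MM L S w l0 k * ∑ l' ∈ (L f).erase k, h k l'|
          ≤ w f * (4 * (w f * (4 * b))) := mul_le_mul_of_nonneg_left e4 (hL.wnn f hf)
        _ = 16 * b * w f ^ 2 := by ring
    have e5 : |pp2 ((L f).erase l0) h| ≤ 16 * b :=
      pp2_bd hb0 ((Finset.erase_subset _ _).trans (hL.sub f hf))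
        ((Finset.card_erase_le).trans (hcard f hf)) hoff
    have e6 : P f - Q' f - 2 * R f + w f * pp2 ((L f).erase l0) h =
        w f ^ 2 * pp2 ((L f).erase l0) h - 2 * R f := by
      rw [e1, e2]
      ring
    rw [e6]
    calc |w f ^ 2 * pp2 ((L f).erase l0) h - 2 * R f|
        ≤ |w f ^ 2 * pp2 ((L f).erase l0) h| + |2 * R f| := abs_sub _ _
      _ = w f ^ 2 * |pp2 ((L f).erase l0) h| + 2 * |R f| := by
          rw [abs_mul, abs_mul, abs_of_nonneg (sq_nonneg (w f)), abs_of_pos (by norm_num : (0:ℝ) < 2)]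
      _ ≤ w f ^ 2 * (16 * b) + 2 * (16 * b * w f ^ 2) := by
          have := mul_le_mul_of_nonneg_left e5 (sq_nonneg (w f))
          linarith
      _ = 48 * b * w f ^ 2 := by ring
  -- masses
  have hMs : ∑ f ∈ S, w f * ∑ k ∈ L f, MM L S w l0 k ≤ 3 := by
    have e1 : ∑ f ∈ S, w f * ∑ k ∈ L f, MM L S w l0 k = ∑ f ∈ S, ∑ k ∈ L f, MM L S w l0 k * w f := by
      refine Finset.sum_congr rfl fun f _ => ?_
      rw [Finset.mul_sum]
      refine Finset.sum_congr rfl fun k _ => ?_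
      ring
    rw [e1, ← sr_sum hL.sub (fun f k => MM L S w l0 k * w f)]
    calc ∑ k ∈ I, ∑ f ∈ Sr L S k, MM L S w l0 k * w f ≤ ∑ k ∈ I, MM L S w l0 k * 1 := by
          refine Finset.sum_le_sum fun k hk => ?_
          rw [← Finset.mul_sum]
          exact mul_le_mul_of_nonneg_left (ls_line hL hk).2.1 (mm_nn hL.wnn l0 k)
      _ = ∑ e ∈ Sr L S l0, w e * (dS L (fun _ => (1 : ℝ)) e - 1) := mm_row hL.sub (fun _ => 1) l0
      _ = ∑ e ∈ Sr L S l0, w e * ((ν : ℝ) - 1) := by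
          refine Finset.sum_congr rfl fun e he => ?_
          simp only [Sr, Finset.mem_filter] at he
          unfold dS
          rw [Finset.sum_const, nsmul_eq_mul, mul_one, hL.card e he.1]
      _ = (ν : ℝ) - 1 := by rw [← Finset.sum_mul, hmass, one_mul]
      _ ≤ 3 := by
          have : (ν : ℝ) ≤ 4 := by exact_mod_cast hν4
          linarith
  -- assembly
  obtain ⟨Z, hZ⟩ : ∃ Z : β → ℝ, Z = fun f => if l0 ∈ L f then w f * pp2 ((L f).erase l0) h else 0 :=
    ⟨_, rfl⟩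
  have hZs : ∑ f ∈ S, Z f = ∑ e ∈ Sr L S l0, w e * pp2 ((L e).erase l0) h := by
    rw [hZ]
    unfold Sr
    rw [Finset.sum_filter]
  have hmain : ∑ e ∈ Sr L S l0, w e * T1 L S w h e - (-∑ e ∈ Sr L S l0, w e * pp2 ((L e).erase l0) h -
        2 * ∑ e ∈ Sr L S l0, w e * ∑ k ∈ (L e).erase l0, (h k k - 1) - 1 / m) =
      ∑ f ∈ S, (P f - Q' f - 2 * R f + Z f) := by
    rw [Finset.sum_add_distrib, Finset.sum_sub_distrib, Finset.sum_sub_distrib, ← Finset.mul_sum,
      hF, hZs, hT]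
    have : 2 * (1 / (2 * (m : ℝ))) = 1 / m := by
      field_simp
    linarith
  rw [hmain]
  calc |∑ f ∈ S, (P f - Q' f - 2 * R f + Z f)| ≤ ∑ f ∈ S, |P f - Q' f - 2 * R f + Z f| :=
        Finset.abs_sum_le_sum_abs _ _
    _ ≤ ∑ f ∈ S, (256 * b ^ 2 * (w f * ∑ k ∈ L f, MM L S w l0 k) +
          if l0 ∈ L f then 48 * b * w f ^ 2 else 0) := by
        refine Finset.sum_le_sum fun f hf => ?_
        have e7 : 0 ≤ 256 * b ^ 2 * (w f * ∑ k ∈ L f, MM L S w l0 k) :=
          mul_nonneg (by positivity) (mul_nonneg (hL.wnn f hf)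
            (Finset.sum_nonneg fun k _ => mm_nn hL.wnn l0 k))
        by_cases hl : l0 ∈ L f
        · rw [hZ]
          simp only
          rw [if_pos hl, if_pos hl]
          have := honl f hf hl
          linarith
        · rw [hZ]
          simp only
          rw [if_neg hl, if_neg hl, add_zero, add_zero]
          exact hoffl f hf hl
    _ = 256 * b ^ 2 * ∑ f ∈ S, w f * ∑ k ∈ L f, MM L S w l0 k +
          48 * b * ∑ f ∈ Sr L S l0, w f ^ 2 := by
        rw [Finset.sum_add_distrib, ← Finset.mul_sum, ← Finset.sum_filter, ← Finset.mul_sum]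
        rfl
    _ ≤ 256 * b ^ 2 * 3 + 48 * b * (K / m) := by
        have e8 := mul_le_mul_of_nonneg_left hMs (by positivity : 0 ≤ 256 * b ^ 2)
        have e9 := mul_le_mul_of_nonneg_left hl3 (by positivity : 0 ≤ 48 * b)
        linarith
    _ = (768 * C0 ^ 2 + 48 * C0 * K) / m ^ 2 := by
        rw [hb]
        field_simp
        ring

end Pool.Agent.NQF
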