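import Pool.Agent.NQF.Defs
import Pool.Agent.NQF.SDef
import Pool.Agent.NQF.SBas
import Pool.Agent.NQF.SBat
import Pool.Agent.NQF.SMas
import Pool.Agent.NQF.STri
import Pool.Agent.NQF.SRk

/-!
# NQF-SRc: averages of sums of squares over a row
-/

set_option autoImplicit false

open Finset

namespace Pool.Agent.NQF

open Pool.Agent.NQ (board dsum F Ent Dg phi ln Q Qset QS NonAtt bern)
open Pool.Agent.NQR (Adm Opt Bd Rf hS hD hh InR)
open Pool.Agent.NQL

private theorem swap_sum {β : Type} (R S : Finset β) (P : β → β → Prop) [∀ e f, Decidable (P e f)]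
    (a b : β → ℝ) (t : β → β → ℝ) :
    ∑ e ∈ R, a e * ∑ f ∈ S.filter (fun f => P e f), b f * t e f =
      ∑ f ∈ S, b f * ∑ e ∈ R.filter (fun e => P e f), a e * t e f := by
  have h1 : ∀ e ∈ R, a e * ∑ f ∈ S.filter (fun f => P e f), b f * t e f =
      ∑ f ∈ S, if P e f then a e * (b f * t e f) else 0 := by
    intro e _
    rw [Finset.mul_sum, Finset.sum_filter]
  have h2 : ∀ f ∈ S, b f * ∑ e ∈ R.filter (fun e => P e f), a e * t e f =
      ∑ e ∈ R, if P e f then a e * (b f * t e f) else 0 := by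
    intro f _
    rw [Finset.mul_sum, Finset.sum_filter]
    apply Finset.sum_congr rfl
    intro e _
    split_ifs
    · ring
    · rfl
  rw [Finset.sum_congr rfl h1, Finset.sum_congr rfl h2, Finset.sum_comm]

theorem row_sq (ν : ℕ) (hν : 2 ≤ ν) (hν4 : ν ≤ 4) (K C0 : ℝ) (hK : 1 ≤ K) (hC0 : 1 ≤ C0) :
    ∃ C : ℝ, 1 ≤ C ∧ ∀ (α β : Type) [DecidableEq α] [DecidableEq β] (m : ℕ) (I : Finset α)
    (L : β → Finset α) (S : Finset β) (w : β → ℝ) (c g : α → ℝ) (lam : ℝ) (h : α → α → ℝ), 1 ≤ m →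
      LSys ν m K lam I L S w c g → Hi C0 m I (AA L S w g m) g h → ∀ l0 ∈ I, g l0 ≠ 0 →
      |∑ e ∈ Sr L S l0, w e * ∑ f ∈ Sm L S e, w f ^ 2 - (∑ f ∈ Sr L S l0, w f ^ 2 +
        ∑ f ∈ S, w f ^ 2 * ∑ k ∈ L f, MM L S w l0 k)| ≤ C / m ^ 2 ∧
      |∑ e ∈ Sr L S l0, w e * ∑ f ∈ Sd L S e, w f ^ 2 * dS L (tu L h e) f -
        ∑ f ∈ S, w f ^ 2 * ∑ k ∈ L f, MM L S w l0 k| ≤ C / m ^ 2 ∧
      |∑ e ∈ Sr L S l0, w e * w e ^ 2| ≤ C / m ^ 2 := by
  refine ⟨48 * C0 * K + 4 * K ^ 2, by nlinarith [mul_nonneg (show (0 : ℝ) ≤ C0 by linarith) (show (0 : ℝ) ≤ K by linarith), sq_nonneg (K - 1)], ?_⟩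
  intro α β _ _ m I L S w c g lam h hm hL hH l0 hl0 hg
  have hm0 : (0 : ℝ) < m := by exact_mod_cast hm
  have hK0 : (0 : ℝ) ≤ K := by linarith
  have hC00 : (0 : ℝ) ≤ C0 := by linarith
  have hν1 : (ν : ℝ) - 1 ≤ 3 := by
    have : (ν : ℝ) ≤ 4 := by exact_mod_cast hν4
    linarith
  obtain ⟨hs0, hs1, hs2, hs3⟩ := ls_line hL hl0
  have hmass := hs3 hg
  have hmem : ∀ e ∈ Sr L S l0, e ∈ S ∧ l0 ∈ L e := fun e he => Finset.mem_filter.1 he
  have hw0 : ∀ e ∈ S, 0 ≤ w e := hL.wnn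
  have hwK : ∀ e ∈ S, w e ≤ K / m := hL.up
  have hMnn : ∀ l l', 0 ≤ MM L S w l l' := fun l l' => mm_nn hw0 l l'
  -- the squares through `l0`
  have hMl0 : ∀ f ∈ Sr L S l0, ∑ k ∈ L f, MM L S w l0 k ≤ 3 * w f := by
    intro f hf
    obtain ⟨hfS, hlf⟩ := hmem f hf
    have h1 : ∑ k ∈ L f, MM L S w l0 k = ∑ k ∈ (L f).erase l0, w f := by
      rw [← Finset.add_sum_erase (L f) _ hlf, mm_self, zero_add]
      apply Finset.sum_congr rfl
      intro k hk
      exact mm_eq hL.lin hfS hlf (Finset.mem_of_mem_erase hk) (Finset.ne_of_mem_erase hk).symm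
    rw [h1, Finset.sum_const, Finset.card_erase_of_mem hlf, hL.card f hfS, nsmul_eq_mul]
    have h2 : ((ν - 1 : ℕ) : ℝ) ≤ 3 := by
      have : ν - 1 ≤ 3 := by omega
      exact_mod_cast this
    exact mul_le_mul_of_nonneg_right h2 (hw0 f hfS)
  have hSrsq : ∑ f ∈ Sr L S l0, w f ^ 2 * w f ≤ K ^ 2 / m ^ 2 := by
    calc ∑ f ∈ Sr L S l0, w f ^ 2 * w f ≤ ∑ f ∈ Sr L S l0, w f ^ 2 * (K / m) := by
          apply Finset.sum_le_sum
          intro f hf
          exact mul_le_mul_of_nonneg_left (hwK f (hmem f hf).1) (sq_nonneg _)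
      _ = (∑ f ∈ Sr L S l0, w f ^ 2) * (K / m) := by rw [Finset.sum_mul]
      _ ≤ K / m * (K / m) := mul_le_mul_of_nonneg_right hs2 (by positivity)
      _ = K ^ 2 / m ^ 2 := by field_simp
  have hSrM : ∑ f ∈ Sr L S l0, w f ^ 2 * ∑ k ∈ L f, MM L S w l0 k ≤ 3 * (K ^ 2 / m ^ 2) := by
    calc ∑ f ∈ Sr L S l0, w f ^ 2 * ∑ k ∈ L f, MM L S w l0 k ≤ ∑ f ∈ Sr L S l0, 3 * (w f ^ 2 * w f) := by
          apply Finset.sum_le_sum
          intro f hf
          have := mul_le_mul_of_nonneg_left (hMl0 f hf) (sq_nonneg (w f))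
          linarith
      _ = 3 * ∑ f ∈ Sr L S l0, w f ^ 2 * w f := by rw [Finset.mul_sum]
      _ ≤ 3 * (K ^ 2 / m ^ 2) := by linarith
  have hSrM0 : 0 ≤ ∑ f ∈ Sr L S l0, w f ^ 2 * ∑ k ∈ L f, MM L S w l0 k :=
    Finset.sum_nonneg fun f _ => mul_nonneg (sq_nonneg _) (Finset.sum_nonneg fun k _ => hMnn _ _)
  have hSrsq0 : 0 ≤ ∑ f ∈ Sr L S l0, w f ^ 2 * w f :=
    Finset.sum_nonneg fun f hf => mul_nonneg (sq_nonneg _) (hw0 f (hmem f hf).1)
  -- the total
  have hP1 : ∑ f ∈ S, w f ^ 2 * ∑ k ∈ L f, MM L S w l0 k ≤ 3 * (K / m) := by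
    have h1 : ∑ f ∈ S, w f ^ 2 * ∑ k ∈ L f, MM L S w l0 k =
        ∑ k ∈ I, ∑ f ∈ Sr L S k, w f ^ 2 * MM L S w l0 k := by
      rw [sr_sum hL.sub (fun f k => w f ^ 2 * MM L S w l0 k)]
      apply Finset.sum_congr rfl
      intro f _
      rw [Finset.mul_sum]
    have h2 : ∑ k ∈ I, MM L S w l0 k = (ν : ℝ) - 1 := by
      have h3 := mm_row (w := w) hL.sub (fun _ => (1 : ℝ)) l0
      have h4 : ∑ e ∈ Sr L S l0, w e * (dS L (fun _ => (1 : ℝ)) e - 1) =
          ∑ e ∈ Sr L S l0, w e * ((ν : ℝ) - 1) := by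
        apply Finset.sum_congr rfl
        intro e he
        have : dS L (fun _ => (1 : ℝ)) e = ν := by
          unfold dS
          rw [Finset.sum_const, hL.card e (hmem e he).1, nsmul_eq_mul, mul_one]
        rw [this]
      have h5 : ∑ e ∈ Sr L S l0, w e * ((ν : ℝ) - 1) = (ν : ℝ) - 1 := by
        rw [← Finset.sum_mul, hmass, one_mul]
      rw [h4, h5] at h3
      rw [← h3]
      apply Finset.sum_congr rfl
      intro k _
      rw [mul_one]
    rw [h1]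
    calc ∑ k ∈ I, ∑ f ∈ Sr L S k, w f ^ 2 * MM L S w l0 k ≤ ∑ k ∈ I, K / m * MM L S w l0 k := by
          apply Finset.sum_le_sum
          intro k hk
          rw [← Finset.sum_mul]
          exact mul_le_mul_of_nonneg_right (ls_line hL hk).2.2.1 (hMnn _ _)
      _ = K / m * ((ν : ℝ) - 1) := by rw [← Finset.mul_sum, h2]
      _ ≤ K / m * 3 := mul_le_mul_of_nonneg_left hν1 (by positivity)
      _ = 3 * (K / m) := by ring
  -- splitting of `S`
  have hsplit : ∀ G : β → ℝ, ∑ f ∈ S, G f =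
      ∑ f ∈ Sr L S l0, G f + ∑ f ∈ S.filter (fun f => l0 ∉ L f), G f := by
    intro G
    rw [← Finset.sum_filter_add_sum_filter_not S (fun f => l0 ∈ L f)]
    rfl
  have hKm : K ^ 2 / m ^ 2 = K ^ 2 * (1 / m ^ 2) := by ring
  refine ⟨?_, ?_, ?_⟩
  · -- first
    have h1 := swap_sum (Sr L S l0) S (fun e f => ¬ Disjoint (L f) (L e) ∧ f ≠ e) w
      (fun f => w f ^ 2) (fun _ _ => (1 : ℝ))
    simp only [mul_one] at h1
    have h2 : ∑ e ∈ Sr L S l0, w e * ∑ f ∈ Sm L S e, w f ^ 2 =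
        ∑ f ∈ S, w f ^ 2 * ∑ e ∈ (Sr L S l0).filter (fun e => ¬ Disjoint (L f) (L e) ∧ f ≠ e), w e := h1
    rw [h2, hsplit, hsplit (fun f => w f ^ 2 * ∑ k ∈ L f, MM L S w l0 k)]
    have h3 : ∀ f ∈ Sr L S l0, w f ^ 2 *
        ∑ e ∈ (Sr L S l0).filter (fun e => ¬ Disjoint (L f) (L e) ∧ f ≠ e), w e = w f ^ 2 - w f ^ 2 * w f := by
      intro f hf
      have h4 : (Sr L S l0).filter (fun e => ¬ Disjoint (L f) (L e) ∧ f ≠ e) = (Sr L S l0).erase f := by
        ext e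
        rw [Finset.mem_filter, Finset.mem_erase]
        constructor
        · rintro ⟨h5, _, h6⟩
          exact ⟨Ne.symm h6, h5⟩
        · rintro ⟨h5, h6⟩
          refine ⟨h6, ?_, Ne.symm h5⟩
          rw [Finset.not_disjoint_iff]
          exact ⟨l0, (hmem f hf).2, (hmem e h6).2⟩
      rw [h4]
      have h5 := Finset.add_sum_erase (Sr L S l0) w hf
      rw [hmass] at h5
      have h6 : ∑ e ∈ (Sr L S l0).erase f, w e = 1 - w f := by linarith
      rw [h6]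
      ring
    have h4 : ∀ f ∈ S.filter (fun f => l0 ∉ L f), w f ^ 2 *
        ∑ e ∈ (Sr L S l0).filter (fun e => ¬ Disjoint (L f) (L e) ∧ f ≠ e), w e =
        w f ^ 2 * ∑ k ∈ L f, MM L S w l0 k := by
      intro f hf
      obtain ⟨hfS, hlf⟩ := Finset.mem_filter.1 hf
      rw [← sm_line hL.lin hfS hlf]
      congr 1
      apply Finset.sum_congr _ (fun _ _ => rfl)
      ext e
      unfold Sr Sm
      rw [Finset.mem_filter, Finset.mem_filter, Finset.mem_filter, Finset.mem_filter]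
      constructor
      · rintro ⟨⟨h5, h6⟩, h7, h8⟩
        exact ⟨⟨h5, fun hd => h7 hd.symm, Ne.symm h8⟩, h6⟩
      · rintro ⟨⟨h5, h6, h7⟩, h8⟩
        exact ⟨⟨h5, h8⟩, fun hd => h6 hd.symm, Ne.symm h7⟩
    rw [Finset.sum_congr rfl h3, Finset.sum_congr rfl h4, Finset.sum_sub_distrib]
    rw [abs_le]
    have hC : 0 ≤ 48 * C0 * K / m ^ 2 := by positivity
    have hCC : (48 * C0 * K + 4 * K ^ 2) / m ^ 2 = 48 * C0 * K / m ^ 2 + 4 * (K ^ 2 / m ^ 2) := by ring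
    rw [hCC]
    constructor <;> linarith
  · -- second
    have h1 := swap_sum (Sr L S l0) S (fun e f => Disjoint (L f) (L e)) w
      (fun f => w f ^ 2) (fun e f => dS L (tu L h e) f)
    have h2 : ∑ e ∈ Sr L S l0, w e * ∑ f ∈ Sd L S e, w f ^ 2 * dS L (tu L h e) f =
        ∑ f ∈ S, w f ^ 2 * ∑ e ∈ (Sr L S l0).filter (fun e => Disjoint (L f) (L e)),
          w e * dS L (tu L h e) f := h1
    rw [h2, hsplit, hsplit (fun f => w f ^ 2 * ∑ k ∈ L f, MM L S w l0 k)]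
    have h3 : ∑ f ∈ Sr L S l0, w f ^ 2 * ∑ e ∈ (Sr L S l0).filter (fun e => Disjoint (L f) (L e)),
          w e * dS L (tu L h e) f = 0 := by
      apply Finset.sum_eq_zero
      intro f hf
      have h4 : (Sr L S l0).filter (fun e => Disjoint (L f) (L e)) = ∅ := by
        rw [Finset.filter_eq_empty_iff]
        intro e he hd
        exact Finset.disjoint_left.1 hd (hmem f hf).2 (hmem e he).2
      rw [h4, Finset.sum_empty, mul_zero]
    have h4 : |∑ f ∈ S.filter (fun f => l0 ∉ L f), w f ^ 2 *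
          ∑ e ∈ (Sr L S l0).filter (fun e => Disjoint (L f) (L e)), w e * dS L (tu L h e) f -
        ∑ f ∈ S.filter (fun f => l0 ∉ L f), w f ^ 2 * ∑ k ∈ L f, MM L S w l0 k| ≤
        48 * C0 * K / m ^ 2 := by
      rw [← Finset.sum_sub_distrib]
      calc |∑ f ∈ S.filter (fun f => l0 ∉ L f), (w f ^ 2 *
            ∑ e ∈ (Sr L S l0).filter (fun e => Disjoint (L f) (L e)), w e * dS L (tu L h e) f -
            w f ^ 2 * ∑ k ∈ L f, MM L S w l0 k)|
          ≤ ∑ f ∈ S.filter (fun f => l0 ∉ L f), |w f ^ 2 *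
            ∑ e ∈ (Sr L S l0).filter (fun e => Disjoint (L f) (L e)), w e * dS L (tu L h e) f -
            w f ^ 2 * ∑ k ∈ L f, MM L S w l0 k| := Finset.abs_sum_le_sum_abs _ _
        _ ≤ ∑ f ∈ S.filter (fun f => l0 ∉ L f), 16 * C0 / m * (w f ^ 2 * ∑ k ∈ L f, MM L S w l0 k) := by
            apply Finset.sum_le_sum
            intro f hf
            obtain ⟨hfS, hlf⟩ := Finset.mem_filter.1 hf
            rw [← mul_sub, abs_mul, abs_of_nonneg (sq_nonneg (w f))]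
            have h5 := row_res hL hm hν4 hC00 hH hl0 hg hfS hlf
            have h6 := mul_le_mul_of_nonneg_left h5 (sq_nonneg (w f))
            linarith
        _ ≤ ∑ f ∈ S, 16 * C0 / m * (w f ^ 2 * ∑ k ∈ L f, MM L S w l0 k) := by
            apply Finset.sum_le_sum_of_subset_of_nonneg (Finset.filter_subset _ _)
            intro f _ _
            exact mul_nonneg (by positivity)
              (mul_nonneg (sq_nonneg _) (Finset.sum_nonneg fun k _ => hMnn _ _))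
        _ = 16 * C0 / m * ∑ f ∈ S, w f ^ 2 * ∑ k ∈ L f, MM L S w l0 k := by rw [Finset.mul_sum]
        _ ≤ 16 * C0 / m * (3 * (K / m)) := mul_le_mul_of_nonneg_left hP1 (by positivity)
        _ = 48 * C0 * K / m ^ 2 := by
            field_simp
            ring
    rw [h3, zero_add]
    rw [abs_le] at h4 ⊢
    have hCC : (48 * C0 * K + 4 * K ^ 2) / m ^ 2 = 48 * C0 * K / m ^ 2 + 4 * (K ^ 2 / m ^ 2) := by ring
    have hK2 : 0 ≤ K ^ 2 / m ^ 2 := by positivity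
    rw [hCC]
    constructor <;> linarith [h4.1, h4.2]
  · -- third
    have h1 : ∑ e ∈ Sr L S l0, w e * w e ^ 2 = ∑ f ∈ Sr L S l0, w f ^ 2 * w f :=
      Finset.sum_congr rfl fun e _ => mul_comm _ _
    rw [h1, abs_of_nonneg hSrsq0]
    have hCC : (48 * C0 * K + 4 * K ^ 2) / m ^ 2 = 48 * C0 * K / m ^ 2 + 4 * (K ^ 2 / m ^ 2) := by ring
    have hC : 0 ≤ 48 * C0 * K / m ^ 2 := by positivity
    have hK2 : 0 ≤ K ^ 2 / m ^ 2 := by positivity
    rw [hCC]
    linarith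

end Pool.Agent.NQF
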