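import Pool.Agent.NQF.Defs
import Pool.Agent.NQF.SDef
import Pool.Agent.NQF.SMas
import Pool.Agent.NQF.SRa
import Pool.Agent.NQF.SRb
import Pool.Agent.NQF.SRc

/-!
# NQF-SRow: the row identity

PLAN. With `r0 = h l0 l0 - 1`, `R = ∑ w ∑_{(L e).erase l0} (h k k - 1)`, `T0`, `P0`, `P1`: `∑ w = 1`, `∑ w ta = ν - r0 - 1/m + R + T0` (`row_ta`), `∑_{k ∈ L e} (h k k - 1) = r0 + ..`: `∑ w (..) = r0 + R`, `∑ w T1 = - T0 - 2R - 1/m + O(m⁻²)`, `∑ w ∑_{Sm} w² = P0 + P1 + O`, `∑ w ∑_{Sd} w² dS = P1 + O`, `∑ w w = P0`: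
`∑ w eta = ν/2 - 2 kap P0 - (ν - r0 - 1/m + R + T0)/2 - 1/(2m) - (r0 + R - T0 - 2R - 1/m + 1/m)/2 + 2 kap (P0 + P1) - 2 kap P1 + O(m⁻²) = O(m⁻²)`.
-/

set_option autoImplicit false

open Finset

namespace Pool.Agent.NQF

open Pool.Agent.NQ (board dsum F Ent Dg phi ln Q Qset QS NonAtt bern)
open Pool.Agent.NQR (Adm Opt Bd Rf hS hD hh InR)
open Pool.Agent.NQL

theorem ls_row (ν : ℕ) (hν : 2 ≤ ν) (hν4 : ν ≤ 4) (K C0 : ℝ) (hK : 1 ≤ K) (hC0 : 1 ≤ C0) :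
    ∃ C : ℝ, 1 ≤ C ∧ ∀ (α β : Type) [DecidableEq α] [DecidableEq β] (m : ℕ) (I : Finset α)
    (L : β → Finset α) (S : Finset β) (w : β → ℝ) (c g : α → ℝ) (lam : ℝ) (h : α → α → ℝ), 1 ≤ m →
      LSys ν m K lam I L S w c g → Hi C0 m I (AA L S w g m) g h → ∀ l0 ∈ I, g l0 ≠ 0 →
      |∑ e ∈ Sr L S l0, w e * eta ν m L S w h e| ≤ C / m ^ 2 := by
  obtain ⟨C1, h1C1, H1⟩ := row_T1 ν hν hν4 K C0 hK hC0
  obtain ⟨C2, h1C2, H2⟩ := row_sq ν hν hν4 K C0 hK hC0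
  refine ⟨C1 + 8 * C2, by linarith, ?_⟩
  intro α β _ _ m I L S w c g lam h hm hL hH l0 h0 hg
  have hm0 : (0 : ℝ) < m := by exact_mod_cast hm
  have hW := (ls_line hL h0).2.2.2 hg
  have hA := row_ta hL hm hH h0 hg
  have hB := H1 α β m I L S w c g lam h hm hL hH l0 h0 hg
  obtain ⟨hC, hD, hE⟩ := H2 α β m I L S w c g lam h hm hL hH l0 h0 hg
  have hR : ∑ e ∈ Sr L S l0, w e * ∑ k ∈ L e, (h k k - 1) =
      (h l0 l0 - 1) + ∑ e ∈ Sr L S l0, w e * ∑ k ∈ (L e).erase l0, (h k k - 1) := by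
    have h2 : ∀ e ∈ Sr L S l0, w e * ∑ k ∈ L e, (h k k - 1) =
        w e * (h l0 l0 - 1) + w e * ∑ k ∈ (L e).erase l0, (h k k - 1) := by
      intro e he
      have h3 : l0 ∈ L e := (Finset.mem_filter.1 he).2
      rw [← Finset.add_sum_erase (L e) (fun k => h k k - 1) h3]
      ring
    rw [Finset.sum_congr rfl h2, Finset.sum_add_distrib, ← Finset.sum_mul, hW, one_mul]
  have hX : ∑ e ∈ Sr L S l0, w e * eta ν m L S w h e =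
      (ν : ℝ) / 2 * ∑ e ∈ Sr L S l0, w e - 2 * kap ν * ∑ e ∈ Sr L S l0, w e ^ 2 -
        (∑ e ∈ Sr L S l0, w e * ta L h e) / 2 - 1 / (2 * m) * ∑ e ∈ Sr L S l0, w e -
        (∑ e ∈ Sr L S l0, w e * ∑ k ∈ L e, (h k k - 1) + ∑ e ∈ Sr L S l0, w e * T1 L S w h e +
          1 / m * ∑ e ∈ Sr L S l0, w e) / 2 +
        2 * kap ν * ∑ e ∈ Sr L S l0, w e * ∑ f ∈ Sm L S e, w f ^ 2 +
        kap ν * ∑ e ∈ Sr L S l0, w e * w e ^ 2 -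
        2 * kap ν * ∑ e ∈ Sr L S l0, w e * ∑ f ∈ Sd L S e, w f ^ 2 * dS L (tu L h e) f := by
    simp only [Finset.mul_sum (Sr L S l0), Finset.sum_div (Sr L S l0), ← Finset.sum_add_distrib,
      ← Finset.sum_sub_distrib]
    refine Finset.sum_congr rfl fun e _ => ?_
    unfold eta xi1
    ring
  have hkap : |kap ν| ≤ 3 / 2 := by
    unfold kap
    interval_cases ν <;> norm_num
  rw [hX, hR, hW, hA]
  set P0 := ∑ e ∈ Sr L S l0, w e ^ 2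
  set P1 := ∑ f ∈ S, w f ^ 2 * ∑ k ∈ L f, MM L S w l0 k
  set T0 := ∑ e ∈ Sr L S l0, w e * pp2 ((L e).erase l0) h
  set R := ∑ e ∈ Sr L S l0, w e * ∑ k ∈ (L e).erase l0, (h k k - 1)
  set B := ∑ e ∈ Sr L S l0, w e * T1 L S w h e
  set Cc := ∑ e ∈ Sr L S l0, w e * ∑ f ∈ Sm L S e, w f ^ 2
  set Dd := ∑ e ∈ Sr L S l0, w e * ∑ f ∈ Sd L S e, w f ^ 2 * dS L (tu L h e) f
  set Ee := ∑ e ∈ Sr L S l0, w e * w e ^ 2
  have hid : (ν : ℝ) / 2 * 1 - 2 * kap ν * P0 - (ν - (h l0 l0 - 1) - 1 / m + R + T0) / 2 -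
      1 / (2 * m) * 1 - ((h l0 l0 - 1) + R + B + 1 / m * 1) / 2 + 2 * kap ν * Cc + kap ν * Ee -
      2 * kap ν * Dd = -(B - (-T0 - 2 * R - 1 / m)) / 2 + kap ν * (2 * (Cc - (P0 + P1)) -
        2 * (Dd - P1) + Ee) := by
    field_simp
    ring
  rw [hid]
  have h4 : |2 * (Cc - (P0 + P1)) - 2 * (Dd - P1) + Ee| ≤ 5 * (C2 / m ^ 2) := by
    rw [abs_le] at hC hD hE ⊢
    constructor <;> linarith [hC.1, hC.2, hD.1, hD.2, hE.1, hE.2]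
  have h5 : |kap ν * (2 * (Cc - (P0 + P1)) - 2 * (Dd - P1) + Ee)| ≤ 3 / 2 * (5 * (C2 / m ^ 2)) := by
    rw [abs_mul]
    exact mul_le_mul hkap h4 (abs_nonneg _) (by norm_num)
  have h6 : |-(B - (-T0 - 2 * R - 1 / m)) / 2| ≤ C1 / m ^ 2 / 2 := by
    rw [abs_div, abs_neg, abs_two]
    exact div_le_div_of_nonneg_right hB (by norm_num)
  have h7 : (C1 + 8 * C2) / (m : ℝ) ^ 2 = C1 / m ^ 2 + 8 * (C2 / m ^ 2) := by ring
  have h8 : 0 ≤ C1 / (m : ℝ) ^ 2 := div_nonneg (by linarith) (by positivity)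
  have h9 : 0 ≤ C2 / (m : ℝ) ^ 2 := div_nonneg (by linarith) (by positivity)
  rw [h7]
  calc _ ≤ _ := abs_add_le _ _
    _ ≤ C1 / m ^ 2 / 2 + 3 / 2 * (5 * (C2 / m ^ 2)) := add_le_add h6 h5
    _ ≤ _ := by linarith

end Pool.Agent.NQF
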