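import Pool.Agent.NQF.Defs
import Pool.Agent.NQF.SDef
import Pool.Agent.NQF.SInv
import Pool.Agent.NQF.SEta
import Pool.Agent.NQF.SRow

/-!
# NQF-SFin: one step of the second order value

The step of the second order value: the exponent `eta` of the inverse of the Hessian does it.
-/

set_option autoImplicit false

open Finset

namespace Pool.Agent.NQF

open Pool.Agent.NQ (board dsum F Ent Dg phi ln Q Qset QS NonAtt bern)
open Pool.Agent.NQR (Adm Opt Bd Rf hS hD hh InR)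
open Pool.Agent.NQL

theorem ls_step (ν : ℕ) (hν : 2 ≤ ν) (hν4 : ν ≤ 4) (K lam : ℝ) (hK : 1 ≤ K) (hl : 0 < lam) (hl1 : lam ≤ 1) :
    ∃ (C : ℝ) (mA : ℕ), 1 ≤ C ∧ 2 ≤ mA ∧ ∀ (α β : Type) [DecidableEq α] [DecidableEq β] (m : ℕ) (I : Finset α)
    (L : β → Finset α) (S : Finset β) (w : β → ℝ) (c g : α → ℝ), mA ≤ m → LSys ν m K lam I L S w c g →
      ∃ η : β → ℝ, (∀ e ∈ S, |η e| ≤ C / m) ∧
        (∀ l ∈ I, g l ≠ 0 → |∑ e ∈ Sr L S l, w e * η e| ≤ C / m ^ 2) ∧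
        ∀ e ∈ S, ∀ δ : α → ℝ, StR I L S w c e δ → |DV2 ν m I L S w c g e δ - η e| ≤ C / m ^ 2 := by
  obtain ⟨C0, hC0, hinv⟩ := ls_inv ν hν hν4 K lam hK hl hl1
  obtain ⟨C1, m0, hC1, hm0, heta⟩ := ls_eta ν hν hν4 K lam C0 hK hl hl1 hC0
  obtain ⟨C2, hC2, hrow⟩ := ls_row ν hν hν4 K C0 hK hC0
  refine ⟨max C1 C2, m0, le_max_of_le_left hC1, hm0, ?_⟩
  intro α β _ _ m I L S w c g hm hLS
  have hm1 : 1 ≤ m := le_trans (le_trans one_le_two hm0) hm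
  obtain ⟨hco, h, hh⟩ := hinv α β m I L S w c g hm1 hLS
  have hmR : (0 : ℝ) ≤ (m : ℝ) := Nat.cast_nonneg m
  have h1 : C1 / (m : ℝ) ≤ max C1 C2 / (m : ℝ) := div_le_div_of_nonneg_right (le_max_left _ _) hmR
  have h2 : C1 / (m : ℝ) ^ 2 ≤ max C1 C2 / (m : ℝ) ^ 2 :=
    div_le_div_of_nonneg_right (le_max_left _ _) (sq_nonneg _)
  have h3 : C2 / (m : ℝ) ^ 2 ≤ max C1 C2 / (m : ℝ) ^ 2 :=
    div_le_div_of_nonneg_right (le_max_right _ _) (sq_nonneg _)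
  refine ⟨eta ν m L S w h, ?_, ?_, ?_⟩
  · intro e he
    exact ((heta α β m I L S w c g h hm hLS hco hh e he).1).trans h1
  · intro l hlI hgl
    exact (hrow α β m I L S w c g lam h hm1 hLS hh l hlI hgl).trans h3
  · intro e he δ hδ
    exact ((heta α β m I L S w c g h hm hLS hco hh e he).2 δ hδ).trans h2

end Pool.Agent.NQF
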