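import Pool.Agent.NQF.PAsm
import Pool.Agent.NQF.SFin

/-!
# NQF-PFin: the theorem of block P, with block LS
-/

set_option autoImplicit false

open Finset

namespace Pool.Agent.NQF

open Pool.Agent.NQL

/-- THEOREM of block P: the permanent of a doubly stochastic matrix up to the factor `1 + O(1/m)` -/
theorem perm_asym (K c : ℝ) (hK : 1 ≤ K) (hc : 0 < c) : ∃ (C : ℝ) (m0 : ℕ), ∀ (m : ℕ) (R C' : Finset ℤ)
    (w : ℤ × ℤ → ℝ), m0 ≤ m → Ds K c m w R C' → 0 < pe w R C' ∧ |Real.log (pe w R C') - Vp m w R C'| ≤ C / m := by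
  refine perm_asym' (fun K lam hK hl hl1 => ?_) K c hK hc
  obtain ⟨C, mA, h1, h2, h⟩ := ls_step 2 le_rfl (by norm_num) K lam hK hl hl1
  exact ⟨C, mA, h1, h2, fun m I L S w c g hm hs => h Li (ℤ × ℤ) m I L S w c g hm hs⟩

end Pool.Agent.NQF
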