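import Mathlib

/-!
# NQF-PCo: coercivity from codegrees

PLAN. `Q = ∑_x ∑_y X(x,y) (a x + b y)²`, `A`, `B` = means of `a`, `b`. Row and column sums are in `[1/2, 3/2]`.
(1) For `x ≠ x'` and every `y`: `(a x - a x')² ≤ 2 ((a x + b y)² + (a x' + b y)²)`; multiply by `X(x,y) X(x',y) ≥ 0`, sum over `y` and over
`x ≠ x'` (the terms `x = x'` only make the right side larger, the left side is zero):
`(c/m) ∑_{x,x'} (a x - a x')² ≤ 4 ∑_{x,y} X(x,y) (a x + b y)² ∑_{x'} X(x',y) ≤ 6 Q`, and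
`∑_{x,x'} (a x - a x')² = 2 m ∑_x (a x - A)²`. So `∑_x (a x - A)² ≤ 3 Q / c`. In the same way `∑_y (b y - B)² ≤ 3 Q / c` (`gc`).
(2) `(m/2) (A + B)² ≤ (A + B)² ∑ X = ∑ X ((a x + b y) - (a x - A) - (b y - B))² ≤ 3 (Q + (3/2) ∑ (a - A)² + (3/2) ∑ (b - B)²) ≤ 3 (Q + 9 Q/c) ≤ 30 Q / c`
(`c ≤ 1`), so `m (A + B)² ≤ 60 Q / c`.
(3) `∑ a² + ∑ b² = ∑ (a - A)² + ∑ (b - B)² + m (A² + B²)`, `A² + B² = ((A + B)² + (A - B)²)/2`, gauge term `(∑ a - ∑ b)²/(2 m) = m (A - B)²/2`.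
Together `∑ a² + ∑ b² ≤ 6 Q/c + 30 Q/c + gauge`, multiply by `c/100`.
Suggestion: prove (1) as a private lemma for one side (`R`, `C` arbitrary finsets of ℤ, `X : ℤ → ℤ → ℝ`) and use it twice.
(A similar proof: `tb_core` in `Pool/Agent/NQL/ACo.lean`.)
-/

set_option autoImplicit false

open Finset

namespace Pool.Agent.NQF.P

private theorem var_two (R : Finset ℤ) (a : ℤ → ℝ) :
    ∑ x ∈ R, ∑ x' ∈ R, (a x - a x') ^ 2 = 2 * (R.card : ℝ) * ∑ x ∈ R, a x ^ 2 - 2 * (∑ x ∈ R, a x) ^ 2 := by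
  have h1 : ∀ x ∈ R, ∑ x' ∈ R, (a x - a x') ^ 2 =
      (R.card : ℝ) * a x ^ 2 - 2 * a x * ∑ x' ∈ R, a x' + ∑ x' ∈ R, a x' ^ 2 := by
    intro x _
    have h2 : ∀ x' ∈ R, (a x - a x') ^ 2 = a x ^ 2 - 2 * a x * a x' + a x' ^ 2 := fun x' _ => by ring
    rw [Finset.sum_congr rfl h2, Finset.sum_add_distrib, Finset.sum_sub_distrib, Finset.sum_const, nsmul_eq_mul,
      ← Finset.mul_sum]
  rw [Finset.sum_congr rfl h1, Finset.sum_add_distrib, Finset.sum_sub_distrib, Finset.sum_const, nsmul_eq_mul,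
    ← Finset.mul_sum, ← Finset.sum_mul, ← Finset.mul_sum]
  ring

private theorem var_one (R : Finset ℤ) {m : ℕ} (hm : 1 ≤ m) (hR : R.card = m) (a : ℤ → ℝ) :
    ∑ x ∈ R, (a x - (∑ x ∈ R, a x) / m) ^ 2 = ∑ x ∈ R, a x ^ 2 - (∑ x ∈ R, a x) ^ 2 / m := by
  have hm0 : (m : ℝ) ≠ 0 := by positivity
  have h2 : ∀ x ∈ R, (a x - (∑ x ∈ R, a x) / m) ^ 2 =
      a x ^ 2 - 2 * ((∑ x ∈ R, a x) / m) * a x + ((∑ x ∈ R, a x) / m) ^ 2 := fun x _ => by ring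
  rw [Finset.sum_congr rfl h2, Finset.sum_add_distrib, Finset.sum_sub_distrib, Finset.sum_const, nsmul_eq_mul,
    ← Finset.mul_sum, hR]
  field_simp
  ring

private theorem one_side {c : ℝ} {m : ℕ} (hm : 1 ≤ m) {X : ℤ → ℤ → ℝ} {R C : Finset ℤ}
    (hR : R.card = m) (nn : ∀ x ∈ R, ∀ y ∈ C, 0 ≤ X x y) (col : ∀ y ∈ C, ∑ x ∈ R, X x y ≤ 3 / 2)
    (gr : ∀ x ∈ R, ∀ x' ∈ R, x ≠ x' → c / m ≤ ∑ y ∈ C, X x y * X x' y) (a b : ℤ → ℝ) :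
    c * ∑ x ∈ R, (a x - (∑ x ∈ R, a x) / m) ^ 2 ≤ 3 * ∑ x ∈ R, ∑ y ∈ C, X x y * (a x + b y) ^ 2 := by
  have hm0 : (0 : ℝ) < m := by positivity
  have h1 : c / m * ∑ x ∈ R, ∑ x' ∈ R, (a x - a x') ^ 2 ≤
      ∑ x ∈ R, ∑ x' ∈ R, ∑ y ∈ C, X x y * X x' y * (2 * ((a x + b y) ^ 2 + (a x' + b y) ^ 2)) := by
    rw [Finset.mul_sum]
    refine Finset.sum_le_sum fun x hx => ?_
    rw [Finset.mul_sum]
    refine Finset.sum_le_sum fun x' hx' => ?_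
    by_cases hxx : x = x'
    · subst hxx
      rw [sub_self]
      have h0 : c / m * (0 : ℝ) ^ 2 = 0 := by ring
      rw [h0]
      refine Finset.sum_nonneg fun y hy => ?_
      have := nn x hx y hy
      positivity
    · calc c / m * (a x - a x') ^ 2 ≤ (∑ y ∈ C, X x y * X x' y) * (a x - a x') ^ 2 :=
            mul_le_mul_of_nonneg_right (gr x hx x' hx' hxx) (sq_nonneg _)
        _ = ∑ y ∈ C, X x y * X x' y * (a x - a x') ^ 2 := by rw [Finset.sum_mul]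
        _ ≤ _ := by
          refine Finset.sum_le_sum fun y hy => ?_
          refine mul_le_mul_of_nonneg_left ?_ (mul_nonneg (nn x hx y hy) (nn x' hx' y hy))
          nlinarith [sq_nonneg ((a x + b y) + (a x' + b y))]
  have h2 : ∑ x ∈ R, ∑ x' ∈ R, ∑ y ∈ C, X x y * X x' y * (2 * ((a x + b y) ^ 2 + (a x' + b y) ^ 2)) =
      4 * ∑ x ∈ R, ∑ y ∈ C, X x y * (a x + b y) ^ 2 * ∑ x' ∈ R, X x' y := by
    have e1 : ∑ x ∈ R, ∑ x' ∈ R, ∑ y ∈ C, X x y * X x' y * (2 * ((a x + b y) ^ 2 + (a x' + b y) ^ 2)) =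
        2 * (∑ x ∈ R, ∑ x' ∈ R, ∑ y ∈ C, X x y * X x' y * (a x + b y) ^ 2) +
          2 * (∑ x ∈ R, ∑ x' ∈ R, ∑ y ∈ C, X x y * X x' y * (a x' + b y) ^ 2) := by
      simp only [Finset.mul_sum, ← Finset.sum_add_distrib]
      refine Finset.sum_congr rfl fun x _ => Finset.sum_congr rfl fun x' _ => Finset.sum_congr rfl fun y _ => ?_
      ring
    have e2 : ∑ x ∈ R, ∑ x' ∈ R, ∑ y ∈ C, X x y * X x' y * (a x' + b y) ^ 2 =
        ∑ x ∈ R, ∑ x' ∈ R, ∑ y ∈ C, X x y * X x' y * (a x + b y) ^ 2 := by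
      rw [Finset.sum_comm]
      refine Finset.sum_congr rfl fun x _ => Finset.sum_congr rfl fun x' _ => Finset.sum_congr rfl fun y _ => ?_
      ring
    have e3 : ∑ x ∈ R, ∑ x' ∈ R, ∑ y ∈ C, X x y * X x' y * (a x + b y) ^ 2 =
        ∑ x ∈ R, ∑ y ∈ C, X x y * (a x + b y) ^ 2 * ∑ x' ∈ R, X x' y := by
      refine Finset.sum_congr rfl fun x _ => ?_
      rw [Finset.sum_comm]
      refine Finset.sum_congr rfl fun y _ => ?_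
      rw [Finset.mul_sum]
      refine Finset.sum_congr rfl fun x' _ => ?_
      ring
    rw [e1, e2, e3]
    ring
  have h3 : ∑ x ∈ R, ∑ y ∈ C, X x y * (a x + b y) ^ 2 * ∑ x' ∈ R, X x' y ≤
      3 / 2 * ∑ x ∈ R, ∑ y ∈ C, X x y * (a x + b y) ^ 2 := by
    rw [Finset.mul_sum]
    refine Finset.sum_le_sum fun x hx => ?_
    rw [Finset.mul_sum]
    refine Finset.sum_le_sum fun y hy => ?_
    rw [mul_comm (3 / 2 : ℝ)]
    exact mul_le_mul_of_nonneg_left (col y hy) (mul_nonneg (nn x hx y hy) (sq_nonneg _))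
  rw [h2, var_two, hR] at h1
  rw [var_one R hm hR]
  have h4 : c / m * (2 * (m : ℝ) * ∑ x ∈ R, a x ^ 2 - 2 * (∑ x ∈ R, a x) ^ 2) =
      2 * (c * (∑ x ∈ R, a x ^ 2 - (∑ x ∈ R, a x) ^ 2 / m)) := by
    field_simp
  rw [h4] at h1
  linarith

theorem pco {c : ℝ} (hc : 0 < c) (hc1 : c ≤ 1) {m : ℕ} (hm : 1 ≤ m) {X : ℤ × ℤ → ℝ} {R C : Finset ℤ}
    (hR : R.card = m) (hC : C.card = m) (nn : ∀ x ∈ R, ∀ y ∈ C, 0 ≤ X (x, y))
    (row : ∀ x ∈ R, |∑ y ∈ C, X (x, y) - 1| ≤ 1 / 2) (col : ∀ y ∈ C, |∑ x ∈ R, X (x, y) - 1| ≤ 1 / 2)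
    (gr : ∀ x ∈ R, ∀ x' ∈ R, x ≠ x' → c / m ≤ ∑ y ∈ C, X (x, y) * X (x', y))
    (gc : ∀ y ∈ C, ∀ y' ∈ C, y ≠ y' → c / m ≤ ∑ x ∈ R, X (x, y) * X (x, y')) (a b : ℤ → ℝ) :
    c / 100 * (∑ x ∈ R, a x ^ 2 + ∑ y ∈ C, b y ^ 2) ≤
      ∑ x ∈ R, ∑ y ∈ C, X (x, y) * (a x + b y) ^ 2 + (∑ x ∈ R, a x - ∑ y ∈ C, b y) ^ 2 / (2 * m) := by
  have hm0 : (0 : ℝ) < m := by positivity
  have colu : ∀ y ∈ C, ∑ x ∈ R, X (x, y) ≤ 3 / 2 := fun y hy => by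
    have := (abs_le.mp (col y hy)).2
    linarith
  have rowu : ∀ x ∈ R, ∑ y ∈ C, X (x, y) ≤ 3 / 2 := fun x hx => by
    have := (abs_le.mp (row x hx)).2
    linarith
  have rowl : ∀ x ∈ R, 1 / 2 ≤ ∑ y ∈ C, X (x, y) := fun x hx => by
    have := (abs_le.mp (row x hx)).1
    linarith
  obtain ⟨Q, hQ⟩ : ∃ Q, Q = ∑ x ∈ R, ∑ y ∈ C, X (x, y) * (a x + b y) ^ 2 := ⟨_, rfl⟩
  obtain ⟨A, hA⟩ : ∃ A, A = (∑ x ∈ R, a x) / m := ⟨_, rfl⟩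
  obtain ⟨B, hB⟩ : ∃ B, B = (∑ y ∈ C, b y) / m := ⟨_, rfl⟩
  have hSA := one_side (c := c) hm (X := fun x y => X (x, y)) hR nn colu gr a b
  have hSB := one_side (c := c) hm (X := fun y x => X (x, y)) hC (fun y hy x hx => nn x hx y hy) rowu gc b a
  have hQ2 : ∑ y ∈ C, ∑ x ∈ R, X (x, y) * (b y + a x) ^ 2 = Q := by
    rw [hQ, Finset.sum_comm]
    refine Finset.sum_congr rfl fun x _ => Finset.sum_congr rfl fun y _ => ?_
    rw [add_comm (b y)]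
  beta_reduce at hSA hSB
  rw [← hQ, ← hA] at hSA
  rw [hQ2, ← hB] at hSB
  obtain ⟨SA, hSA'⟩ : ∃ SA, SA = ∑ x ∈ R, (a x - A) ^ 2 := ⟨_, rfl⟩
  obtain ⟨SB, hSB'⟩ : ∃ SB, SB = ∑ y ∈ C, (b y - B) ^ 2 := ⟨_, rfl⟩
  rw [← hSA'] at hSA
  rw [← hSB'] at hSB
  have hQ0 : 0 ≤ Q := by
    rw [hQ]
    exact Finset.sum_nonneg fun x hx => Finset.sum_nonneg fun y hy => mul_nonneg (nn x hx y hy) (sq_nonneg _)
  have ha2 : ∑ x ∈ R, a x ^ 2 = SA + m * A ^ 2 := by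
    have h1 := var_one R hm hR a
    rw [← hA, ← hSA'] at h1
    rw [h1, hA]
    field_simp
    ring
  have hb2 : ∑ y ∈ C, b y ^ 2 = SB + m * B ^ 2 := by
    have h1 := var_one C hm hC b
    rw [← hB, ← hSB'] at h1
    rw [h1, hB]
    field_simp
    ring
  have hg : (∑ x ∈ R, a x - ∑ y ∈ C, b y) ^ 2 / (2 * m) = m * (A - B) ^ 2 / 2 := by
    have h1 : ∑ x ∈ R, a x = m * A := by rw [hA]; field_simp
    have h2 : ∑ y ∈ C, b y = m * B := by rw [hB]; field_simp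
    rw [h1, h2]
    field_simp
  -- the middle step
  have hmid : (m : ℝ) / 2 * (A + B) ^ 2 ≤ 3 * (Q + 3 / 2 * SA + 3 / 2 * SB) := by
    have e1 : (m : ℝ) / 2 ≤ ∑ x ∈ R, ∑ y ∈ C, X (x, y) := by
      have : ∑ x ∈ R, (1 / 2 : ℝ) ≤ ∑ x ∈ R, ∑ y ∈ C, X (x, y) := Finset.sum_le_sum rowl
      rw [Finset.sum_const, hR, nsmul_eq_mul] at this
      linarith
    have e2 : (∑ x ∈ R, ∑ y ∈ C, X (x, y)) * (A + B) ^ 2 ≤
        ∑ x ∈ R, ∑ y ∈ C, 3 * (X (x, y) * (a x + b y) ^ 2 + X (x, y) * (a x - A) ^ 2 + X (x, y) * (b y - B) ^ 2) := by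
      rw [Finset.sum_mul]
      refine Finset.sum_le_sum fun x hx => ?_
      rw [Finset.sum_mul]
      refine Finset.sum_le_sum fun y hy => ?_
      have h1 : (A + B) ^ 2 ≤ 3 * ((a x + b y) ^ 2 + (a x - A) ^ 2 + (b y - B) ^ 2) := by
        nlinarith [sq_nonneg ((a x + b y) + (a x - A)), sq_nonneg ((a x + b y) + (b y - B)),
          sq_nonneg ((a x - A) - (b y - B))]
      have h2 := mul_le_mul_of_nonneg_left h1 (nn x hx y hy)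
      linarith
    have e3 : ∑ x ∈ R, ∑ y ∈ C, 3 * (X (x, y) * (a x + b y) ^ 2 + X (x, y) * (a x - A) ^ 2 +
        X (x, y) * (b y - B) ^ 2) =
        3 * (Q + ∑ x ∈ R, ∑ y ∈ C, X (x, y) * (a x - A) ^ 2 + ∑ x ∈ R, ∑ y ∈ C, X (x, y) * (b y - B) ^ 2) := by
      rw [hQ]
      simp only [← Finset.sum_add_distrib, Finset.mul_sum]
    have e4 : ∑ x ∈ R, ∑ y ∈ C, X (x, y) * (a x - A) ^ 2 ≤ 3 / 2 * SA := by
      rw [hSA', Finset.mul_sum]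
      refine Finset.sum_le_sum fun x hx => ?_
      rw [← Finset.sum_mul]
      exact mul_le_mul_of_nonneg_right (rowu x hx) (sq_nonneg _)
    have e5 : ∑ x ∈ R, ∑ y ∈ C, X (x, y) * (b y - B) ^ 2 ≤ 3 / 2 * SB := by
      rw [hSB', Finset.mul_sum, Finset.sum_comm]
      refine Finset.sum_le_sum fun y hy => ?_
      rw [← Finset.sum_mul]
      exact mul_le_mul_of_nonneg_right (colu y hy) (sq_nonneg _)
    have e6 := mul_le_mul_of_nonneg_right e1 (sq_nonneg (A + B))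
    linarith
  rw [← hQ, ha2, hb2, hg]
  have hmid2 : c * ((m : ℝ) * (A + B) ^ 2) ≤ 60 * Q := by
    have h1 := mul_le_mul_of_nonneg_left hmid hc.le
    have h2 : c * Q ≤ Q := mul_le_of_le_one_left hQ0 hc1
    nlinarith
  have hg0 : 0 ≤ (m : ℝ) * (A - B) ^ 2 := by positivity
  have h5 : c * ((m : ℝ) * (A - B) ^ 2) ≤ (m : ℝ) * (A - B) ^ 2 := mul_le_of_le_one_left hg0 hc1
  have h6 : c / 100 * (SA + m * A ^ 2 + (SB + m * B ^ 2)) =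
      (c * SA + c * SB + (c * ((m : ℝ) * (A + B) ^ 2) + c * ((m : ℝ) * (A - B) ^ 2)) / 2) / 100 := by ring
  rw [h6]
  linarith

end Pool.Agent.NQF.P
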