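import Pool.Agent.NQF.PEnt
import Pool.Agent.NQF.PCo

/-!
# NQF-PSys: a doubly stochastic matrix is a regular line system

The fields of `LSys` by the formulas for sums over `L2`, `I2` and over rows and columns; the coercivity is `pco`.
-/

set_option autoImplicit false

open Finset

namespace Pool.Agent.NQF.P

open Pool.Agent.NQL

private theorem psys_ne (x y : ℤ) : ((0, x) : Li) ≠ ((1, y) : Li) := by
  intro h
  have h1 : (0 : Fin 4) = 1 := congrArg Prod.fst h
  exact absurd h1 (by decide)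

private theorem psys_lin {e f : ℤ × ℤ} (hne : e ≠ f) : (L2 e ∩ L2 f).card ≤ 1 := by
  have key : ∀ x y : ℤ, x = e.1 → y = e.2 → ((0, x) : Li) ∈ L2 f → ((1, y) : Li) ∈ L2 f → False := by
    intro x y hx hy h1 h2
    rcases mem_L2.1 h1 with h3 | h3
    · rcases mem_L2.1 h2 with h4 | h4
      · exact psys_ne _ _ h4.symm
      · apply hne
        have h5 : x = f.1 := congrArg Prod.snd h3
        have h6 : y = f.2 := congrArg Prod.snd h4
        exact Prod.ext (hx.symm.trans h5) (hy.symm.trans h6)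
    · exact psys_ne _ _ h3
  rw [Finset.card_le_one]
  intro a ha b hb
  rw [Finset.mem_inter] at ha hb
  rcases mem_L2.1 ha.1 with h1 | h1
  · rcases mem_L2.1 hb.1 with h2 | h2
    · rw [h1, h2]
    · exfalso
      refine key e.1 e.2 rfl rfl ?_ ?_
      · rw [← h1]; exact ha.2
      · rw [← h2]; exact hb.2
  · rcases mem_L2.1 hb.1 with h2 | h2
    · exfalso
      refine key e.1 e.2 rfl rfl ?_ ?_
      · rw [← h2]; exact hb.2
      · rw [← h1]; exact ha.2
    · rw [h1, h2]

theorem ds_lsys {K c : ℝ} (hc : 0 < c) (hc1 : c ≤ 1) {m : ℕ} (hm : 1 ≤ m) {w : ℤ × ℤ → ℝ} {R C : Finset ℤ}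
    (h : Ds K c m w R C) : LSys 2 m K (c / 100) (I2 R C) L2 (R ×ˢ C) w (fun _ => 0) ga := by
  have hRC : ∀ e ∈ R ×ˢ C, e.1 ∈ R ∧ e.2 ∈ C := fun e he => Finset.mem_product.1 he
  refine ⟨?_, ?_, ?_, ?_, ?_, ?_, ?_, ?_, ?_, ?_, ?_, ?_, ?_, ?_⟩
  · intro e he l hl
    obtain ⟨h1, h2⟩ := hRC e he
    rw [mem_I2]
    rcases mem_L2.1 hl with h3 | h3
    · exact Or.inl ⟨e.1, h1, h3⟩
    · exact Or.inr ⟨e.2, h2, h3⟩
  · intro e _
    exact Finset.card_pair (psys_ne _ _)
  · intro e _ f _ hne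
    exact psys_lin hne
  · intro l hl
    rw [add_zero]
    rcases mem_I2.1 hl with ⟨x, hx, rfl⟩ | ⟨y, hy, rfl⟩
    · rw [sum_row hx]
      exact h.row x hx
    · rw [sum_col hy]
      exact h.col y hy
  · intro e he
    exact h.nn e.1 (hRC e he).1 e.2 (hRC e he).2
  · intro e he
    exact h.up e.1 (hRC e he).1 e.2 (hRC e he).2
  · intro l _
    exact le_refl _
  · intro l _ _
    rfl
  · intro l hl
    rcases mem_I2.1 hl with ⟨x, hx, rfl⟩ | ⟨y, hy, rfl⟩
    · exact Or.inr (Or.inl (ga0 x))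
    · exact Or.inr (Or.inr (ga1 y))
  · rw [sum_I2]
    simp only [ga0, ga1]
    rw [Finset.sum_const, Finset.sum_const, h.cR, h.cC, nsmul_eq_mul, nsmul_eq_mul]
    ring
  · rw [sum_I2]
    simp only [ga0, ga1]
    rw [Finset.sum_const, Finset.sum_const, h.cR, h.cC, nsmul_eq_mul, nsmul_eq_mul]
    ring
  · intro e _
    rw [sum_L2, ga0, ga1]
    ring
  · intro e _
    rw [sum_L2, ga0, ga1]
    norm_num
  · intro δ
    have h1 := pco hc hc1 hm h.cR h.cC h.nn
      (fun x hx => by rw [h.row x hx]; norm_num) (fun y hy => by rw [h.col y hy]; norm_num)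
      h.gr h.gc (fun x => δ (0, x)) (fun y => δ (1, y))
    rw [sum_I2, sum_I2, sum_I2, Finset.sum_product]
    simp only [dS_L2, ga0, ga1, zero_mul, one_mul, neg_mul, Finset.sum_const_zero, add_zero,
      Finset.sum_neg_distrib]
    rw [← sub_eq_add_neg]
    exact h1

end Pool.Agent.NQF.P
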