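import Pool.Agent.NQF.RDef
import Pool.Agent.NQF.PSys
import Pool.Agent.NQF.PFin

/-!
# NQF-RIfc: the interface between the blocks P and R
-/

set_option autoImplicit false

open Finset

namespace Pool.Agent.NQF

open Pool.Agent.NQ (board dsum F Ent Dg phi ln Q Qset QS NonAtt bern)
open Pool.Agent.NQR (Adm Opt Bd Rf hS hD hh InR)
open Pool.Agent.NQL

private theorem ds_mono {K c c' : ℝ} (h : c' ≤ c) {m : ℕ} {w : ℤ × ℤ → ℝ} {R C : Finset ℤ}
    (hD : Ds K c m w R C) : Ds K c' m w R C := by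
  have h1 : c' / m ≤ c / m := div_le_div_of_nonneg_right h (Nat.cast_nonneg m)
  exact ⟨hD.cR, hD.cC, hD.nn, hD.up, hD.row, hD.col,
    fun x hx x' hx' hne => h1.trans (hD.gr x hx x' hx' hne),
    fun y hy y' hy' hne => h1.trans (hD.gc y hy y' hy' hne)⟩

theorem dsls_holds : DsLs := by
  intro K c _ hc
  refine ⟨min c 1 / 100, by positivity, ?_, ?_⟩
  · have := min_le_right c 1
    linarith
  · intro m hm R C w hD
    exact P.ds_lsys (lt_min hc one_pos) (min_le_right _ _) hm (ds_mono (min_le_left _ _) hD)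

theorem perm_holds : PermAsym := by
  intro K c hK hc
  obtain ⟨C, m0, h⟩ := perm_asym K c hK hc
  refine ⟨max C 1, m0, le_max_right _ _, ?_⟩
  intro m hm R C' w hD
  obtain ⟨h1, h2⟩ := h m R C' w hm hD
  exact ⟨h1, h2.trans (div_le_div_of_nonneg_right (le_max_left _ _) (Nat.cast_nonneg m))⟩

end Pool.Agent.NQF
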