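import Pool.Agent.NQF.Defs

/-!
# PROJECT NQF, block P (permanents): definitions

THEOREM of the block (`NQF/PAsm.lean`, `perm_asym`): for doubly stochastic `w` with entries `≤ K/m` and codegrees `≥ c/m`,
`log (pe w) = Vp w + O(1/m)`.

Everything is about matrices on `R × C` (`R`, `C` finite sets of integers). `Ee m w R C = pe w R C * exp (- Vp m w R C)` is the
quotient (permanent)/(second order value) of a doubly stochastic matrix. A matrix `X` which is nearly doubly stochastic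
(`Nd`) has a scaling `sc X u v` which is doubly stochastic with `|u|, |v| ≤ 1/10` (`Scl`); scalings are carried as data, all
statements hold for every scaling.
-/

set_option autoImplicit false

open Finset

namespace Pool.Agent.NQF.P

open Pool.Agent.NQL

/-- scaled matrix -/
noncomputable def sc (X : ℤ × ℤ → ℝ) (u v : ℤ → ℝ) (e : ℤ × ℤ) : ℝ := X e * Real.exp (u e.1 + v e.2)

/-- doubly stochastic on `R × C` -/
structure Dst (w : ℤ × ℤ → ℝ) (R C : Finset ℤ) : Prop where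
  nn : ∀ x ∈ R, ∀ y ∈ C, 0 ≤ w (x, y)
  row : ∀ x ∈ R, ∑ y ∈ C, w (x, y) = 1
  col : ∀ y ∈ C, ∑ x ∈ R, w (x, y) = 1

/-- nearly doubly stochastic of size `m`, entries at most `K/M`, codegrees at least `c/M`, `M/2 ≤ m ≤ M` -/
structure Nd (K c τ : ℝ) (M m : ℕ) (X : ℤ × ℤ → ℝ) (R C : Finset ℤ) : Prop where
  cR : R.card = m
  cC : C.card = m
  le : m ≤ M
  ge : M ≤ 2 * m
  nn : ∀ x ∈ R, ∀ y ∈ C, 0 ≤ X (x, y)
  up : ∀ x ∈ R, ∀ y ∈ C, X (x, y) ≤ K / M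
  row : ∀ x ∈ R, |∑ y ∈ C, X (x, y) - 1| ≤ τ
  col : ∀ y ∈ C, |∑ x ∈ R, X (x, y) - 1| ≤ τ
  gr : ∀ x ∈ R, ∀ x' ∈ R, x ≠ x' → c / M ≤ ∑ y ∈ C, X (x, y) * X (x', y)
  gc : ∀ y ∈ C, ∀ y' ∈ C, y ≠ y' → c / M ≤ ∑ x ∈ R, X (x, y) * X (x, y')

/-- `u`, `v` is a small scaling of `X` to a doubly stochastic matrix -/
structure Scl (X : ℤ × ℤ → ℝ) (R C : Finset ℤ) (u v : ℤ → ℝ) : Prop where
  bu : ∀ x ∈ R, |u x| ≤ 1 / 10
  bv : ∀ y ∈ C, |v y| ≤ 1 / 10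
  row : ∀ x ∈ R, ∑ y ∈ C, sc X u v (x, y) = 1
  col : ∀ y ∈ C, ∑ x ∈ R, sc X u v (x, y) = 1

/-- permanent divided by the second order value -/
noncomputable def Ee (m : ℕ) (w : ℤ × ℤ → ℝ) (R C : Finset ℤ) : ℝ := pe w R C * Real.exp (-(Vp m w R C))

/-- exchanging a row or a column of the minors of `J` changes `Ee` at most by the factor `ρ` (`m + 1` = size of `J`) -/
def Ex (J : ℤ × ℤ → ℝ) (m : ℕ) (R C : Finset ℤ) (ρ : ℝ) : Prop :=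
  (∀ x ∈ R, ∀ x' ∈ R, x ≠ x' → ∀ y ∈ C, ∀ u v u' v' : ℤ → ℝ, Scl J (R.erase x) (C.erase y) u v →
    Scl J (R.erase x') (C.erase y) u' v' →
    Ee m (sc J u v) (R.erase x) (C.erase y) ≤ ρ * Ee m (sc J u' v') (R.erase x') (C.erase y)) ∧
  (∀ x ∈ R, ∀ y ∈ C, ∀ y' ∈ C, y ≠ y' → ∀ u v u' v' : ℤ → ℝ, Scl J (R.erase x) (C.erase y) u v →
    Scl J (R.erase x) (C.erase y') u' v' →
    Ee m (sc J u v) (R.erase x) (C.erase y) ≤ ρ * Ee m (sc J u' v') (R.erase x) (C.erase y'))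

/-- the statement of block LS (theorem `ls_step`) for `ν = 2` -/
def LsP : Prop :=
  ∀ K lam : ℝ, 1 ≤ K → 0 < lam → lam ≤ 1 → ∃ (C : ℝ) (mA : ℕ), 1 ≤ C ∧ 2 ≤ mA ∧
    ∀ (m : ℕ) (I : Finset Li) (L : ℤ × ℤ → Finset Li) (S : Finset (ℤ × ℤ)) (w : ℤ × ℤ → ℝ) (c g : Li → ℝ), mA ≤ m →
      LSys 2 m K lam I L S w c g → ∃ η : ℤ × ℤ → ℝ, (∀ e ∈ S, |η e| ≤ C / m) ∧
        (∀ l ∈ I, g l ≠ 0 → |∑ e ∈ Sr L S l, w e * η e| ≤ C / m ^ 2) ∧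
        (∀ e ∈ S, ∀ δ : Li → ℝ, StR I L S w c e δ → |DV2 2 m I L S w c g e δ - η e| ≤ C / m ^ 2)

theorem ds_dst {K c : ℝ} {m : ℕ} {w : ℤ × ℤ → ℝ} {R C : Finset ℤ} (h : Ds K c m w R C) : Dst w R C :=
  ⟨h.nn, h.row, h.col⟩

end Pool.Agent.NQF.P
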