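import Mathlib
import Pool.Agent.NQL.AExp

/-!
# NQF-PSclA: minimiser of the scaling functional

PLAN (model: `Pool/Agent/NQL/AStab.lean`, the same proof for four lines per square; copy what is useful).
`G u v = ∑_x ∑_y X(x,y) exp (u x + v y) - ∑_R u - ∑_C v + (∑_R u - ∑_C v)²/(4 m)`, `g = ∑_R u - ∑_C v`. Minimise `G` over the compact set of
all `(u, v)` with `u x ∈ [-1, 1]` for `x ∈ R`, `u x = 0` otherwise, the same for `v` (`isCompact_univ_pi`, product of two, or functions on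
`Fin 2 × ℤ`; `G` is continuous: `fun_prop`).
(1) `0 ≥ G u v - G 0 0 ≥ ∑_R r x u x + ∑_C s y v y + κ (∑∑ X (u + v)²) + (1/2) g²/(2 m)`, `κ = exp (-2)/2`, `r x = ∑_y X(x,y) - 1`,
`s y = ∑_x X(x,y) - 1`, because `exp t - 1 - t ≥ exp (-|t|) t²/2 ≥ κ t²` for `|t| ≤ 2` (`Pool.Agent.NQL.exp_lb` of `NQL/AExp.lean`; you may
import it). With the coercivity `κ lam S ≤ - ∑ r u - ∑ s v ≤ √(2 m) τ √S`, `S = ∑_R u² + ∑_C v²` (Cauchy-Schwarz, squared as in AStab), so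
`S ≤ 8 exp 4 τ² m/lam² ≤ (24 τ/lam)² m` (`exp 4 ≤ 2.7183^4 ≤ 55`, `Real.exp_one_lt_d9`).
(2) First order conditions: move one coordinate: for `x ∈ R`, `G (u + h e_x) v - G u v = (exp h - 1) ∑_y X exp (u x + v y) - h + ((g + h)² - g²)/(4 m)`
`≤ h * (∑_y X exp - 1 + g/(2 m)) + h² * const` for `|h| ≤ 1` (`exp h - 1 ≤ h + h²`), so `u x < 1 → 0 ≤ r~ x`, `-1 < u x → r~ x ≤ 0`
(a lemma like `sb_opt1` of AStab).
-/

set_option autoImplicit false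

open Finset

namespace Pool.Agent.NQF.P

/-- the functional -/
private noncomputable def GG (m : ℕ) (X : ℤ × ℤ → ℝ) (R C : Finset ℤ) (u v : ℤ → ℝ) : ℝ :=
  ∑ x ∈ R, ∑ y ∈ C, X (x, y) * Real.exp (u x + v y) - ∑ x ∈ R, u x - ∑ y ∈ C, v y +
    (∑ x ∈ R, u x - ∑ y ∈ C, v y) ^ 2 / (4 * m)

private theorem gg_cont (m : ℕ) (X : ℤ × ℤ → ℝ) (R C : Finset ℤ) :
    Continuous fun p : (ℤ → ℝ) × (ℤ → ℝ) => GG m X R C p.1 p.2 := by
  unfold GG
  fun_prop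

private theorem gg_swap (m : ℕ) (X : ℤ × ℤ → ℝ) (R C : Finset ℤ) (u v : ℤ → ℝ) :
    GG m (fun e => X (e.2, e.1)) C R v u = GG m X R C u v := by
  unfold GG
  have h1 : ∑ y ∈ C, ∑ x ∈ R, X (x, y) * Real.exp (v y + u x) =
      ∑ x ∈ R, ∑ y ∈ C, X (x, y) * Real.exp (u x + v y) := by
    rw [Finset.sum_comm]
    refine Finset.sum_congr rfl fun x _ => Finset.sum_congr rfl fun y _ => ?_
    rw [add_comm (v y) (u x)]
  simp only
  rw [h1]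
  ring

private theorem gg_move (m : ℕ) (X : ℤ × ℤ → ℝ) {R C : Finset ℤ} (u v : ℤ → ℝ) {x₀ : ℤ}
    (hx : x₀ ∈ R) (h : ℝ) :
    GG m X R C (Function.update u x₀ (u x₀ + h)) v - GG m X R C u v =
      (Real.exp h - 1) * (∑ y ∈ C, X (x₀, y) * Real.exp (u x₀ + v y)) - h +
        ((∑ x ∈ R, u x - ∑ y ∈ C, v y + h) ^ 2 - (∑ x ∈ R, u x - ∑ y ∈ C, v y) ^ 2) / (4 * m) := by
  have h1 : ∑ x ∈ R, Function.update u x₀ (u x₀ + h) x = ∑ x ∈ R, u x + h := by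
    have h2 : ∀ x ∈ R, Function.update u x₀ (u x₀ + h) x = u x + if x = x₀ then h else 0 := by
      intro x _
      rw [Function.update_apply]
      by_cases hk : x = x₀
      · rw [if_pos hk, if_pos hk, hk]
      · rw [if_neg hk, if_neg hk, add_zero]
    rw [Finset.sum_congr rfl h2, Finset.sum_add_distrib, Finset.sum_ite_eq' R, if_pos hx]
  have h3 : ∑ x ∈ R, ∑ y ∈ C, X (x, y) * Real.exp (Function.update u x₀ (u x₀ + h) x + v y) =
      ∑ x ∈ R, ∑ y ∈ C, X (x, y) * Real.exp (u x + v y) +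
        (Real.exp h - 1) * ∑ y ∈ C, X (x₀, y) * Real.exp (u x₀ + v y) := by
    have h2 : ∀ x ∈ R, ∑ y ∈ C, X (x, y) * Real.exp (Function.update u x₀ (u x₀ + h) x + v y) =
        ∑ y ∈ C, X (x, y) * Real.exp (u x + v y) +
          if x = x₀ then (Real.exp h - 1) * ∑ y ∈ C, X (x₀, y) * Real.exp (u x₀ + v y) else 0 := by
      intro x _
      by_cases hk : x = x₀
      · rw [if_pos hk, hk, Function.update_self, Finset.mul_sum, ← Finset.sum_add_distrib]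
        refine Finset.sum_congr rfl fun y _ => ?_
        have h4 : Real.exp (u x₀ + h + v y) = Real.exp h * Real.exp (u x₀ + v y) := by
          rw [← Real.exp_add]
          congr 1
          ring
        rw [h4]
        ring
      · rw [if_neg hk, add_zero, Function.update_of_ne hk]
    rw [Finset.sum_congr rfl h2, Finset.sum_add_distrib, Finset.sum_ite_eq' R, if_pos hx]
  unfold GG
  rw [h1, h3]
  ring

private theorem opt1 {r M b : ℝ} (hb : 0 < b) (h : ∀ x : ℝ, 0 < x → x ≤ b → 0 ≤ x * r + x ^ 2 * M) :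
    0 ≤ r := by
  by_contra hr
  push Not at hr
  rcases le_or_gt M 0 with hM | hM
  · have h1 := h b hb le_rfl
    have h2 : b * r < 0 := mul_neg_of_pos_of_neg hb hr
    have h3 : b ^ 2 * M ≤ 0 := mul_nonpos_of_nonneg_of_nonpos (sq_nonneg b) hM
    linarith
  · obtain ⟨x, hx⟩ : ∃ x, x = min b (-r / (2 * M)) := ⟨_, rfl⟩
    have hp : 0 < -r / (2 * M) := div_pos (by linarith) (by linarith)
    have hx0 : 0 < x := by
      rw [hx]
      exact lt_min hb hp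
    have hxb : x ≤ b := by
      rw [hx]
      exact min_le_left _ _
    have hx2 : x ≤ -r / (2 * M) := by
      rw [hx]
      exact min_le_right _ _
    have h1 := h x hx0 hxb
    have h2 : x * (2 * M) ≤ -r := by
      rwa [le_div_iff₀ (by linarith)] at hx2
    have h3 : 0 ≤ r + x * M := by
      by_contra h4
      push Not at h4
      have h5 : x * (r + x * M) < 0 := mul_neg_of_pos_of_neg hx0 h4
      have h6 : x * r + x ^ 2 * M = x * (r + x * M) := by ring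
      linarith
    linarith

private theorem gg_opt {m : ℕ} (hm : 1 ≤ m) {X : ℤ × ℤ → ℝ} {R C : Finset ℤ} {u v : ℤ → ℝ} {x₀ : ℤ}
    (hx : x₀ ∈ R) (nn : ∀ y ∈ C, 0 ≤ X (x₀, y)) (hu : -1 ≤ u x₀ ∧ u x₀ ≤ 1)
    (hmin : ∀ t : ℝ, -1 ≤ u x₀ + t → u x₀ + t ≤ 1 →
      GG m X R C u v ≤ GG m X R C (Function.update u x₀ (u x₀ + t)) v) :
    (u x₀ < 1 → 0 ≤ ∑ y ∈ C, X (x₀, y) * Real.exp (u x₀ + v y) - 1 +
      (∑ x ∈ R, u x - ∑ y ∈ C, v y) / (2 * m)) ∧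
    (-1 < u x₀ → ∑ y ∈ C, X (x₀, y) * Real.exp (u x₀ + v y) - 1 +
      (∑ x ∈ R, u x - ∑ y ∈ C, v y) / (2 * m) ≤ 0) := by
  have hm0 : (0 : ℝ) < m := by exact_mod_cast hm
  obtain ⟨T, hT⟩ : ∃ T, T = ∑ y ∈ C, X (x₀, y) * Real.exp (u x₀ + v y) := ⟨_, rfl⟩
  obtain ⟨g, hg⟩ : ∃ g, g = ∑ x ∈ R, u x - ∑ y ∈ C, v y := ⟨_, rfl⟩
  have hT0 : 0 ≤ T := by
    rw [hT]
    exact Finset.sum_nonneg fun y hy => mul_nonneg (nn y hy) (Real.exp_pos _).le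
  rw [← hT, ← hg]
  have hkey : ∀ t : ℝ, |t| ≤ 1 → -1 ≤ u x₀ + t → u x₀ + t ≤ 1 →
      0 ≤ t * (T - 1 + g / (2 * m)) + t ^ 2 * (T + 1 / (4 * m)) := by
    intro t ht h1 h2
    have h3 := hmin t h1 h2
    have h4 := gg_move m X (C := C) u v hx t
    rw [← hT, ← hg] at h4
    have h5 : Real.exp t - 1 ≤ t + t ^ 2 := by
      have := (abs_le.1 (Pool.Agent.NQL.exp_q ht)).2
      linarith
    have h6 := mul_le_mul_of_nonneg_right h5 hT0
    have h7 : ((g + t) ^ 2 - g ^ 2) / (4 * m) = t * (g / (2 * m)) + t ^ 2 * (1 / (4 * m)) := by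
      field_simp
      ring
    rw [h7] at h4
    nlinarith
  constructor
  · intro h1
    refine opt1 (b := min 1 (1 - u x₀)) (lt_min one_pos (by linarith))
      (M := T + 1 / (4 * m)) fun x hx0 hxb => ?_
    have h2 := hxb.trans (min_le_left _ _)
    have h3 := hxb.trans (min_le_right _ _)
    refine hkey x ?_ ?_ ?_
    · rw [abs_of_pos hx0]
      exact h2
    · linarith [hu.1]
    · linarith
  · intro h1
    have h0 : 0 ≤ -(T - 1 + g / (2 * m)) := by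
      refine opt1 (b := min 1 (1 + u x₀)) (lt_min one_pos (by linarith))
        (M := T + 1 / (4 * m)) fun x hx0 hxb => ?_
      have h2 := hxb.trans (min_le_left _ _)
      have h3 := hxb.trans (min_le_right _ _)
      have h4 := hkey (-x) (by rw [abs_neg, abs_of_pos hx0]; exact h2) (by linarith)
        (by linarith [hu.2])
      have h5 : -x * (T - 1 + g / (2 * m)) + (-x) ^ 2 * (T + 1 / (4 * m)) =
          x * -(T - 1 + g / (2 * m)) + x ^ 2 * (T + 1 / (4 * m)) := by ring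
      rwa [h5] at h4
    linarith

private theorem gg_low {lam : ℝ} {m : ℕ} (hm : 1 ≤ m) {X : ℤ × ℤ → ℝ} {R C : Finset ℤ}
    (nn : ∀ x ∈ R, ∀ y ∈ C, 0 ≤ X (x, y))
    (hco : ∀ a b : ℤ → ℝ, lam * (∑ x ∈ R, a x ^ 2 + ∑ y ∈ C, b y ^ 2) ≤
      ∑ x ∈ R, ∑ y ∈ C, X (x, y) * (a x + b y) ^ 2 + (∑ x ∈ R, a x - ∑ y ∈ C, b y) ^ 2 / (2 * m))
    {u v : ℤ → ℝ} (hu : ∀ x ∈ R, |u x| ≤ 1) (hv : ∀ y ∈ C, |v y| ≤ 1) :
    ∑ x ∈ R, (∑ y ∈ C, X (x, y) - 1) * u x + ∑ y ∈ C, (∑ x ∈ R, X (x, y) - 1) * v y +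
      Real.exp (-2) / 2 * (lam * (∑ x ∈ R, u x ^ 2 + ∑ y ∈ C, v y ^ 2)) ≤
      GG m X R C u v - GG m X R C 0 0 := by
  obtain ⟨κ, hκ⟩ : ∃ κ, κ = Real.exp (-2) / 2 := ⟨_, rfl⟩
  have hκ0 : 0 ≤ κ := by
    rw [hκ]
    positivity
  have hκ1 : κ ≤ 1 / 2 := by
    rw [hκ]
    have : Real.exp (-2) ≤ 1 := Real.exp_le_one_iff.2 (by norm_num)
    linarith
  rw [← hκ]
  have hx : ∀ x : ℝ, |x| ≤ 2 → 1 + x + κ * x ^ 2 ≤ Real.exp x := by
    intro x hx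
    have h1 := Pool.Agent.NQL.exp_lb x
    have h2 : Real.exp (-2) ≤ Real.exp (-|x|) := Real.exp_le_exp.2 (by linarith)
    have h3 : κ * x ^ 2 ≤ Real.exp (-|x|) / 2 * x ^ 2 := by
      apply mul_le_mul_of_nonneg_right _ (sq_nonneg x)
      rw [hκ]
      linarith
    linarith
  have e1 : ∑ x ∈ R, ∑ y ∈ C, (X (x, y) + (X (x, y) * u x + X (x, y) * v y) +
      κ * (X (x, y) * (u x + v y) ^ 2)) ≤
      ∑ x ∈ R, ∑ y ∈ C, X (x, y) * Real.exp (u x + v y) := by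
    refine Finset.sum_le_sum fun x hx' => Finset.sum_le_sum fun y hy => ?_
    have h1 : |u x + v y| ≤ 2 := by
      have := abs_add_le (u x) (v y)
      linarith [hu x hx', hv y hy]
    have h2 := mul_le_mul_of_nonneg_left (hx _ h1) (nn x hx' y hy)
    linarith
  have e2 : ∑ x ∈ R, ∑ y ∈ C, (X (x, y) + (X (x, y) * u x + X (x, y) * v y) +
      κ * (X (x, y) * (u x + v y) ^ 2)) = ∑ x ∈ R, ∑ y ∈ C, X (x, y) +
      (∑ x ∈ R, (∑ y ∈ C, X (x, y)) * u x + ∑ y ∈ C, (∑ x ∈ R, X (x, y)) * v y) +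
      κ * ∑ x ∈ R, ∑ y ∈ C, X (x, y) * (u x + v y) ^ 2 := by
    simp only [Finset.sum_add_distrib, Finset.sum_mul, Finset.mul_sum]
    rw [Finset.sum_comm (s := R) (t := C) (f := fun x y => X (x, y) * v y)]
  have e3 := mul_le_mul_of_nonneg_left (hco u v) hκ0
  have hm0 : (0 : ℝ) < m := by exact_mod_cast hm
  have e5 : κ * ((∑ x ∈ R, u x - ∑ y ∈ C, v y) ^ 2 / (2 * m)) ≤
      (∑ x ∈ R, u x - ∑ y ∈ C, v y) ^ 2 / (4 * m) := by
    have h1 : (∑ x ∈ R, u x - ∑ y ∈ C, v y) ^ 2 / (4 * m) =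
        1 / 2 * ((∑ x ∈ R, u x - ∑ y ∈ C, v y) ^ 2 / (2 * m)) := by
      field_simp
      norm_num
    rw [h1]
    exact mul_le_mul_of_nonneg_right hκ1 (by positivity)
  have e6 : GG m X R C 0 0 = ∑ x ∈ R, ∑ y ∈ C, X (x, y) := by
    unfold GG
    simp
  have e7 : ∑ x ∈ R, (∑ y ∈ C, X (x, y) - 1) * u x =
      ∑ x ∈ R, (∑ y ∈ C, X (x, y)) * u x - ∑ x ∈ R, u x := by
    rw [← Finset.sum_sub_distrib]
    exact Finset.sum_congr rfl fun x _ => by ring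
  have e8 : ∑ y ∈ C, (∑ x ∈ R, X (x, y) - 1) * v y =
      ∑ y ∈ C, (∑ x ∈ R, X (x, y)) * v y - ∑ y ∈ C, v y := by
    rw [← Finset.sum_sub_distrib]
    exact Finset.sum_congr rfl fun x _ => by ring
  rw [e6, e7, e8]
  unfold GG
  rw [e2] at e1
  rw [mul_add] at e3
  linarith

private theorem exp4_le : Real.exp 4 ≤ 55 := by
  have h1 : Real.exp 4 = Real.exp 1 ^ 4 := by
    rw [← Real.exp_nat_mul]
    norm_num
  rw [h1]
  have h2 := Real.exp_one_lt_d9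
  have h3 : Real.exp 1 ^ 4 ≤ 2.7182818286 ^ 4 :=
    pow_le_pow_left₀ (Real.exp_pos 1).le h2.le 4
  refine h3.trans (by norm_num)

theorem scl_min {lam τ : ℝ} (hl : 0 < lam) (hl1 : lam ≤ 1) (hτ : 0 ≤ τ) {m : ℕ} (hm : 1 ≤ m) {X : ℤ × ℤ → ℝ}
    {R C : Finset ℤ} (hR : R.card = m) (hC : C.card = m) (nn : ∀ x ∈ R, ∀ y ∈ C, 0 ≤ X (x, y))
    (row : ∀ x ∈ R, |∑ y ∈ C, X (x, y) - 1| ≤ τ) (col : ∀ y ∈ C, |∑ x ∈ R, X (x, y) - 1| ≤ τ)
    (hco : ∀ a b : ℤ → ℝ, lam * (∑ x ∈ R, a x ^ 2 + ∑ y ∈ C, b y ^ 2) ≤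
      ∑ x ∈ R, ∑ y ∈ C, X (x, y) * (a x + b y) ^ 2 + (∑ x ∈ R, a x - ∑ y ∈ C, b y) ^ 2 / (2 * m)) :
    ∃ u v : ℤ → ℝ, (∀ x ∈ R, |u x| ≤ 1) ∧ (∀ y ∈ C, |v y| ≤ 1) ∧
      ∑ x ∈ R, u x ^ 2 + ∑ y ∈ C, v y ^ 2 ≤ (24 * τ / lam) ^ 2 * m ∧
      (∀ x ∈ R, u x < 1 → 0 ≤ ∑ y ∈ C, X (x, y) * Real.exp (u x + v y) - 1 +
        (∑ x ∈ R, u x - ∑ y ∈ C, v y) / (2 * m)) ∧
      (∀ x ∈ R, -1 < u x → ∑ y ∈ C, X (x, y) * Real.exp (u x + v y) - 1 +
        (∑ x ∈ R, u x - ∑ y ∈ C, v y) / (2 * m) ≤ 0) ∧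
      (∀ y ∈ C, v y < 1 → 0 ≤ ∑ x ∈ R, X (x, y) * Real.exp (u x + v y) - 1 -
        (∑ x ∈ R, u x - ∑ y ∈ C, v y) / (2 * m)) ∧
      (∀ y ∈ C, -1 < v y → ∑ x ∈ R, X (x, y) * Real.exp (u x + v y) - 1 -
        (∑ x ∈ R, u x - ∑ y ∈ C, v y) / (2 * m) ≤ 0) := by
  have hm0 : (0 : ℝ) < m := by exact_mod_cast hm
  -- the minimiser
  obtain ⟨B, hB⟩ : ∃ B : Finset ℤ → Set (ℤ → ℝ), B = fun R =>
      Set.pi Set.univ (fun x : ℤ => if x ∈ R then Set.Icc (-1 : ℝ) 1 else {0}) := ⟨_, rfl⟩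
  have hcpt : ∀ R, IsCompact (B R) := by
    intro R
    rw [hB]
    apply isCompact_univ_pi
    intro l
    split_ifs
    · exact isCompact_Icc
    · exact isCompact_singleton
  have h0B : ∀ R, (0 : ℤ → ℝ) ∈ B R := by
    intro R
    rw [hB]
    intro l _
    show (0 : ℝ) ∈ (if l ∈ R then Set.Icc (-1 : ℝ) 1 else {0})
    split_ifs
    · simp
    · simp
  have hBI : ∀ R, ∀ u ∈ B R, ∀ x ∈ R, -1 ≤ u x ∧ u x ≤ 1 := by
    intro R u hu x hx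
    rw [hB] at hu
    have h1 := hu x (Set.mem_univ x)
    simp only [hx, if_true] at h1
    exact h1
  have hBu : ∀ R, ∀ u ∈ B R, ∀ x ∈ R, ∀ t : ℝ, -1 ≤ u x + t → u x + t ≤ 1 →
      Function.update u x (u x + t) ∈ B R := by
    intro R u hu x hx t h1 h2
    rw [hB] at hu ⊢
    intro l _
    by_cases hll : l = x
    · subst hll
      simp only [hx, if_true, Function.update_self]
      exact ⟨h1, h2⟩
    · rw [Function.update_of_ne hll]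
      exact hu l (Set.mem_univ l)
  obtain ⟨⟨u, v⟩, huv, hmin⟩ := ((hcpt R).prod (hcpt C)).exists_isMinOn
    ⟨((0 : ℤ → ℝ), (0 : ℤ → ℝ)), h0B R, h0B C⟩ (gg_cont m X R C).continuousOn
  obtain ⟨huB, hvB⟩ := huv
  have hmin' : ∀ u' ∈ B R, ∀ v' ∈ B C, GG m X R C u v ≤ GG m X R C u' v' := fun u' h1 v' h2 =>
    hmin (a := (u', v')) ⟨h1, h2⟩
  have hu1 : ∀ x ∈ R, |u x| ≤ 1 := fun x hx => abs_le.2 (hBI R u huB x hx)
  have hv1 : ∀ y ∈ C, |v y| ≤ 1 := fun y hy => abs_le.2 (hBI C v hvB y hy)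
  have hoR : ∀ x ∈ R, _ := fun x hx => gg_opt (v := v) (C := C) (u := u) hm hx (nn x hx)
    (hBI R u huB x hx) fun t h1 h2 => hmin' _ (hBu R u huB x hx t h1 h2) v hvB
  have hoC : ∀ y ∈ C, _ := fun y hy => gg_opt (X := fun e => X (e.2, e.1)) (v := u) (C := R)
    (u := v) hm hy (fun x hx => nn x hx y hy)
    (hBI C v hvB y hy) fun t h1 h2 => by
      rw [gg_swap, gg_swap]
      exact hmin' u huB _ (hBu C v hvB y hy t h1 h2)
  refine ⟨u, v, hu1, hv1, ?_, fun x hx => (hoR x hx).1, fun x hx => (hoR x hx).2, ?_, ?_⟩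
  · have h1 := gg_low hm nn hco hu1 hv1
    have h2 := hmin' 0 (h0B R) 0 (h0B C)
    obtain ⟨Su, hSu⟩ : ∃ Su, Su = ∑ x ∈ R, u x ^ 2 := ⟨_, rfl⟩
    obtain ⟨Sv, hSv⟩ : ∃ Sv, Sv = ∑ y ∈ C, v y ^ 2 := ⟨_, rfl⟩
    obtain ⟨a, ha⟩ : ∃ a, a = ∑ x ∈ R, (∑ y ∈ C, X (x, y) - 1) * u x := ⟨_, rfl⟩
    obtain ⟨b, hb⟩ : ∃ b, b = ∑ y ∈ C, (∑ x ∈ R, X (x, y) - 1) * v y := ⟨_, rfl⟩
    have hSu0 : 0 ≤ Su := by
      rw [hSu]
      exact Finset.sum_nonneg fun l _ => sq_nonneg _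
    have hSv0 : 0 ≤ Sv := by
      rw [hSv]
      exact Finset.sum_nonneg fun l _ => sq_nonneg _
    rw [← hSu, ← hSv]
    rw [← hSu, ← hSv, ← ha, ← hb] at h1
    have h3 : a ^ 2 ≤ m * τ ^ 2 * Su := by
      have h4 : a ^ 2 ≤ (∑ x ∈ R, (∑ y ∈ C, X (x, y) - 1) ^ 2) * Su := by
        rw [ha, hSu]
        exact Finset.sum_mul_sq_le_sq_mul_sq _ _ _
      refine h4.trans (mul_le_mul_of_nonneg_right ?_ hSu0)
      have h5 : ∀ x ∈ R, (∑ y ∈ C, X (x, y) - 1) ^ 2 ≤ τ ^ 2 := fun x hx =>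
        sq_le_sq' (abs_le.1 (row x hx)).1 (abs_le.1 (row x hx)).2
      refine (Finset.sum_le_sum h5).trans ?_
      rw [Finset.sum_const, nsmul_eq_mul, hR]
    have h3' : b ^ 2 ≤ m * τ ^ 2 * Sv := by
      have h4 : b ^ 2 ≤ (∑ y ∈ C, (∑ x ∈ R, X (x, y) - 1) ^ 2) * Sv := by
        rw [hb, hSv]
        exact Finset.sum_mul_sq_le_sq_mul_sq _ _ _
      refine h4.trans (mul_le_mul_of_nonneg_right ?_ hSv0)
      have h5 : ∀ y ∈ C, (∑ x ∈ R, X (x, y) - 1) ^ 2 ≤ τ ^ 2 := fun y hy =>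
        sq_le_sq' (abs_le.1 (col y hy)).1 (abs_le.1 (col y hy)).2
      refine (Finset.sum_le_sum h5).trans ?_
      rw [Finset.sum_const, nsmul_eq_mul, hC]
    obtain ⟨S, hS⟩ : ∃ S, S = Su + Sv := ⟨_, rfl⟩
    have hS0 : 0 ≤ S := by rw [hS]; linarith
    rw [← hS] at h1 ⊢
    obtain ⟨κ, hκ⟩ : ∃ κ, κ = Real.exp (-2) / 2 := ⟨_, rfl⟩
    have hκ0 : 0 < κ := by
      rw [hκ]
      positivity
    have hκ2 : 1 ≤ 220 * κ ^ 2 := by
      have h4 : κ ^ 2 = Real.exp (-4) / 4 := by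
        rw [hκ, div_pow, ← Real.exp_nat_mul]
        norm_num
      have h5 : Real.exp (-4) * Real.exp 4 = 1 := by
        rw [← Real.exp_add]
        norm_num
      have h6 := mul_le_mul_of_nonneg_left exp4_le (Real.exp_pos (-4)).le
      rw [h4]
      linarith
    rw [← hκ] at h1
    have h4 : κ * (lam * S) ≤ -(a + b) := by linarith
    have h5 : (κ * (lam * S)) ^ 2 ≤ (a + b) ^ 2 := by
      rw [← neg_sq (a + b)]
      exact pow_le_pow_left₀ (by positivity) h4 2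
    have h6 : (a + b) ^ 2 ≤ 2 * (m * τ ^ 2) * S := by
      have h7 : (a + b) ^ 2 ≤ 2 * (a ^ 2 + b ^ 2) := by nlinarith [sq_nonneg (a - b)]
      rw [hS]
      linarith
    have h8 : κ ^ 2 * lam ^ 2 * S ≤ 2 * (m * τ ^ 2) := by
      rcases hS0.eq_or_lt with h7 | h7
      · rw [← h7]
        have : 0 ≤ (m : ℝ) * τ ^ 2 := by positivity
        linarith
      · have h9 : κ ^ 2 * lam ^ 2 * S * S ≤ 2 * (m * τ ^ 2) * S := by
          calc κ ^ 2 * lam ^ 2 * S * S = (κ * (lam * S)) ^ 2 := by ring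
            _ ≤ _ := h5.trans h6
        exact le_of_mul_le_mul_right h9 h7
    have h9 : lam ^ 2 * S ≤ 440 * (m * τ ^ 2) := by
      have h10 : 0 ≤ lam ^ 2 * S := by positivity
      have h11 := mul_le_mul_of_nonneg_right hκ2 h10
      have h12 : 220 * κ ^ 2 * (lam ^ 2 * S) = 220 * (κ ^ 2 * lam ^ 2 * S) := by ring
      rw [h12] at h11
      linarith
    rw [div_pow, div_mul_eq_mul_div, le_div_iff₀ (by positivity)]
    have h10 : 0 ≤ (m : ℝ) * τ ^ 2 := by positivity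
    calc S * lam ^ 2 = lam ^ 2 * S := by ring
      _ ≤ 440 * (m * τ ^ 2) := h9
      _ ≤ 576 * (m * τ ^ 2) := by linarith
      _ = (24 * τ) ^ 2 * m := by ring
  · intro y hy h
    have h1 := (hoC y hy).1 h
    simp only at h1
    have h2 : ∑ x ∈ R, X (x, y) * Real.exp (v y + u x) = ∑ x ∈ R, X (x, y) * Real.exp (u x + v y) :=
      Finset.sum_congr rfl fun x _ => by rw [add_comm (v y) (u x)]
    rw [h2] at h1
    have h3 : (∑ x ∈ C, v x - ∑ y ∈ R, u y) / (2 * (m : ℝ)) =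
        -((∑ x ∈ R, u x - ∑ y ∈ C, v y) / (2 * m)) := by
      rw [← neg_div, neg_sub]
    rw [h3] at h1
    linarith
  · intro y hy h
    have h1 := (hoC y hy).2 h
    simp only at h1
    have h2 : ∑ x ∈ R, X (x, y) * Real.exp (v y + u x) = ∑ x ∈ R, X (x, y) * Real.exp (u x + v y) :=
      Finset.sum_congr rfl fun x _ => by rw [add_comm (v y) (u x)]
    rw [h2] at h1
    have h3 : (∑ x ∈ C, v x - ∑ y ∈ R, u y) / (2 * (m : ℝ)) =
        -((∑ x ∈ R, u x - ∑ y ∈ C, v y) / (2 * m)) := by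
      rw [← neg_div, neg_sub]
    rw [h3] at h1
    linarith

end Pool.Agent.NQF.P
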