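import Pool.Agent.NQF.PDefs
import Pool.Agent.NQF.PCo
import Pool.Agent.NQF.PSclA

/-!
# NQF-PSclB: a nearly doubly stochastic matrix has a small scaling

The minimiser of `scl_min` is a small scaling; the gauge term vanishes.
-/

set_option autoImplicit false

open Finset

namespace Pool.Agent.NQF.P

open Pool.Agent.NQL

private theorem sb_one {u T γ : ℝ} (hu : |u| ≤ 1) (hT : |T - 1| ≤ 1 / 50) (hγ : |γ| ≤ 1 / 50)
    (h1 : u < 1 → 0 ≤ Real.exp u * T - 1 + γ) (h2 : -1 < u → Real.exp u * T - 1 + γ ≤ 0) :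
    Real.exp u * T = 1 - γ := by
  obtain ⟨hu1, hu2⟩ := abs_le.mp hu
  obtain ⟨hT1, hT2⟩ := abs_le.mp hT
  obtain ⟨hγ1, hγ2⟩ := abs_le.mp hγ
  have hlt : u < 1 := by
    by_contra hcon
    have he : u = 1 := le_antisymm hu2 (not_lt.mp hcon)
    have h3 := h2 (by rw [he]; norm_num)
    rw [he] at h3
    have h4 := Real.exp_one_gt_d9
    nlinarith
  have hgt : -1 < u := by
    by_contra hcon
    have he : u = -1 := le_antisymm (not_lt.mp hcon) hu1
    have h3 := h1 (by rw [he]; norm_num)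
    rw [he] at h3
    have h4 : Real.exp (-1) < 1 / 2 := by
      rw [Real.exp_neg, inv_eq_one_div]
      have h5 := Real.exp_one_gt_d9
      exact one_div_lt_one_div_of_lt (by norm_num) (by linarith)
    have h6 : 0 < Real.exp (-1) := Real.exp_pos _
    nlinarith
  have h3 := h1 hlt
  have h4 := h2 hgt
  linarith

private theorem sb_two {u T : ℝ} (hT : |T - 1| ≤ 1 / 50) (h : Real.exp u * T = 1) : |u| ≤ 1 / 10 := by
  obtain ⟨hT1, hT2⟩ := abs_le.mp hT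
  rw [abs_le]
  constructor
  · by_contra hcon
    have hcon' : u < -(1 / 10) := not_le.mp hcon
    have h1 : Real.exp u < 10 / 11 := by
      have h2 : Real.exp u < Real.exp (-(1 / 10)) := Real.exp_lt_exp.mpr hcon'
      have h3 : Real.exp (-(1 / 10)) ≤ 10 / 11 := by
        rw [Real.exp_neg]
        have h4 := Real.add_one_le_exp (1 / 10 : ℝ)
        have h5 : (11 / 10 : ℝ) ≤ Real.exp (1 / 10) := by linarith
        have h6 : (Real.exp (1 / 10))⁻¹ ≤ (11 / 10 : ℝ)⁻¹ := inv_anti₀ (by norm_num) h5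
        norm_num at h6 ⊢
        linarith
      linarith
    have h0 := Real.exp_pos u
    nlinarith
  · by_contra hcon
    have hcon' : 1 / 10 < u := not_le.mp hcon
    have h1 := Real.add_one_le_exp u
    nlinarith

private theorem sb_three (C : Finset ℤ) (a v : ℤ → ℝ) {K ε m : ℝ} (hm : 0 < m) (hK : 1 ≤ K)
    (hε0 : 0 ≤ ε) (hε : K * ε ≤ 3 / 500) (ha : ∀ y ∈ C, 0 ≤ a y) (hak : ∀ y ∈ C, a y ≤ K / m)
    (hs : |∑ y ∈ C, a y - 1| ≤ 1 / 1000) (hv : ∀ y ∈ C, |v y| ≤ 1)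
    (hS : ∑ y ∈ C, v y ^ 2 ≤ ε ^ 2 * m) : |∑ y ∈ C, a y * Real.exp (v y) - 1| ≤ 1 / 50 := by
  obtain ⟨hs1, hs2⟩ := abs_le.mp hs
  set P : ℝ := ∑ y ∈ C, a y * |v y| with hP
  have hP0 : 0 ≤ P := Finset.sum_nonneg fun y hy => mul_nonneg (ha y hy) (abs_nonneg _)
  have h1 : P ^ 2 ≤ (∑ y ∈ C, a y ^ 2) * ∑ y ∈ C, |v y| ^ 2 :=
    Finset.sum_mul_sq_le_sq_mul_sq C a fun y => |v y|
  have h2 : ∑ y ∈ C, a y ^ 2 ≤ K / m * (3 / 2) := by
    calc ∑ y ∈ C, a y ^ 2 ≤ ∑ y ∈ C, K / m * a y := Finset.sum_le_sum fun y hy => by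
          rw [sq]
          exact mul_le_mul_of_nonneg_right (hak y hy) (ha y hy)
      _ = K / m * ∑ y ∈ C, a y := by rw [Finset.mul_sum]
      _ ≤ K / m * (3 / 2) := mul_le_mul_of_nonneg_left (by linarith) (by positivity)
  have h3 : ∑ y ∈ C, |v y| ^ 2 ≤ ε ^ 2 * m := by
    simp only [sq_abs]
    exact hS
  have h4 : P ^ 2 ≤ (5 / 4 * (K * ε)) ^ 2 := by
    calc P ^ 2 ≤ (∑ y ∈ C, a y ^ 2) * ∑ y ∈ C, |v y| ^ 2 := h1
      _ ≤ (K / m * (3 / 2)) * (ε ^ 2 * m) :=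
          mul_le_mul h2 h3 (Finset.sum_nonneg fun y _ => sq_nonneg _) (by positivity)
      _ = 3 / 2 * (K * ε ^ 2) := by field_simp
      _ ≤ (5 / 4 * (K * ε)) ^ 2 := by
          have h5 : K * ε ^ 2 ≤ K ^ 2 * ε ^ 2 := by
            have h6 : K ≤ K ^ 2 := by nlinarith
            exact mul_le_mul_of_nonneg_right h6 (sq_nonneg _)
          have h7 : 0 ≤ K ^ 2 * ε ^ 2 := by positivity
          nlinarith
  have h5 : P ≤ 5 / 4 * (K * ε) := by
    have h6 : 0 ≤ 5 / 4 * (K * ε) := by positivity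
    have h7 := abs_le_of_sq_le_sq h4 h6
    exact (le_abs_self P).trans h7
  have h6 : ∑ y ∈ C, a y * Real.exp (v y) - 1 =
      ∑ y ∈ C, a y * (Real.exp (v y) - 1) + (∑ y ∈ C, a y - 1) := by
    have h7 : ∑ y ∈ C, a y * (Real.exp (v y) - 1) = ∑ y ∈ C, a y * Real.exp (v y) - ∑ y ∈ C, a y := by
      rw [← Finset.sum_sub_distrib]
      refine Finset.sum_congr rfl fun y _ => ?_
      ring
    rw [h7]
    ring
  have h7 : |∑ y ∈ C, a y * (Real.exp (v y) - 1)| ≤ 2 * P := by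
    calc |∑ y ∈ C, a y * (Real.exp (v y) - 1)| ≤ ∑ y ∈ C, |a y * (Real.exp (v y) - 1)| :=
          Finset.abs_sum_le_sum_abs _ _
      _ ≤ ∑ y ∈ C, 2 * (a y * |v y|) := Finset.sum_le_sum fun y hy => by
          rw [abs_mul, abs_of_nonneg (ha y hy)]
          have h8 := Real.abs_exp_sub_one_le (hv y hy)
          have h9 := mul_le_mul_of_nonneg_left h8 (ha y hy)
          linarith
      _ = 2 * P := by rw [← Finset.mul_sum]
  obtain ⟨h8, h9⟩ := abs_le.mp h7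
  rw [h6, abs_le]
  constructor
  · linarith
  · linarith

theorem scl_ex {K c : ℝ} (hK : 1 ≤ K) (hc : 0 < c) (hc1 : c ≤ 1) : ∃ τ0 : ℝ, 0 < τ0 ∧ τ0 ≤ 1 / 2 ∧
    ∀ (M m : ℕ) (X : ℤ × ℤ → ℝ) (R C : Finset ℤ), 1 ≤ m → Nd K c τ0 M m X R C → ∃ u v : ℤ → ℝ, Scl X R C u v := by
  have hK0 : 0 < K := lt_of_lt_of_le one_pos hK
  obtain ⟨lam, hlam⟩ : ∃ lam : ℝ, lam = c / 2 / 100 := ⟨_, rfl⟩
  have hl : 0 < lam := by rw [hlam]; positivity
  have hl1 : lam ≤ 1 / 200 := by rw [hlam]; linarith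
  obtain ⟨τ0, hτ0⟩ : ∃ τ0 : ℝ, τ0 = lam / (4000 * K) := ⟨_, rfl⟩
  have hτp : 0 < τ0 := by rw [hτ0]; positivity
  have hτs : τ0 ≤ 1 / 1000 := by
    rw [hτ0, div_le_iff₀ (by positivity)]
    nlinarith
  refine ⟨τ0, hτp, by linarith, ?_⟩
  intro M m X R C hm hX
  have hm0 : (0 : ℝ) < m := by exact_mod_cast hm
  have hM0 : (0 : ℝ) < M := by
    have := hX.le
    exact_mod_cast (lt_of_lt_of_le hm this)
  have hmM : (m : ℝ) ≤ M := by exact_mod_cast hX.le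
  have hM2 : (M : ℝ) ≤ 2 * m := by exact_mod_cast hX.ge
  have hcM : c / 2 / m ≤ c / M := by
    rw [div_div]
    exact div_le_div_of_nonneg_left hc.le hM0 hM2
  have hup : K / M ≤ K / m := div_le_div_of_nonneg_left hK0.le hm0 hmM
  have hco := pco (c := c / 2) (by positivity) (by linarith) hm hX.cR hX.cC hX.nn
    (fun x hx => (hX.row x hx).trans (by linarith)) (fun y hy => (hX.col y hy).trans (by linarith))
    (fun x hx x' hx' h => hcM.trans (hX.gr x hx x' hx' h))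
    (fun y hy y' hy' h => hcM.trans (hX.gc y hy y' hy' h))
  rw [← hlam] at hco
  obtain ⟨u, v, hu, hv, hS, r1, r2, c1, c2⟩ := scl_min hl (by linarith) hτp.le hm hX.cR hX.cC hX.nn
    hX.row hX.col hco
  obtain ⟨ε, hε⟩ : ∃ ε : ℝ, ε = 24 * τ0 / lam := ⟨_, rfl⟩
  have hε0 : 0 ≤ ε := by rw [hε]; positivity
  have hKε : K * ε = 3 / 500 := by
    rw [hε, hτ0]
    field_simp
    norm_num
  have hεs : ε ≤ 3 / 500 := by nlinarith
  rw [← hε] at hS
  have hSu : ∑ x ∈ R, u x ^ 2 ≤ ε ^ 2 * m := by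
    have : 0 ≤ ∑ y ∈ C, v y ^ 2 := Finset.sum_nonneg fun y _ => sq_nonneg _
    linarith
  have hSv : ∑ y ∈ C, v y ^ 2 ≤ ε ^ 2 * m := by
    have : 0 ≤ ∑ x ∈ R, u x ^ 2 := Finset.sum_nonneg fun y _ => sq_nonneg _
    linarith
  obtain ⟨γ, hγ⟩ : ∃ γ : ℝ, γ = (∑ x ∈ R, u x - ∑ y ∈ C, v y) / (2 * m) := ⟨_, rfl⟩
  have hγb : |γ| ≤ 1 / 50 := by
    have g1 : (∑ x ∈ R, u x) ^ 2 ≤ m * ∑ x ∈ R, u x ^ 2 := by
      have := sq_sum_le_card_mul_sum_sq (s := R) (f := u)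
      rw [hX.cR] at this
      exact this
    have g2 : (∑ y ∈ C, v y) ^ 2 ≤ m * ∑ y ∈ C, v y ^ 2 := by
      have := sq_sum_le_card_mul_sum_sq (s := C) (f := v)
      rw [hX.cC] at this
      exact this
    have g3 : (∑ x ∈ R, u x - ∑ y ∈ C, v y) ^ 2 ≤ 2 * (ε ^ 2 * m ^ 2) := by
      have g4 : (∑ x ∈ R, u x - ∑ y ∈ C, v y) ^ 2 ≤ 2 * (∑ x ∈ R, u x) ^ 2 + 2 * (∑ y ∈ C, v y) ^ 2 := by
        nlinarith [sq_nonneg (∑ x ∈ R, u x + ∑ y ∈ C, v y)]
      have g5 : (m : ℝ) * (∑ x ∈ R, u x ^ 2 + ∑ y ∈ C, v y ^ 2) ≤ m * (ε ^ 2 * m) :=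
        mul_le_mul_of_nonneg_left hS hm0.le
      nlinarith
    have g6 : γ ^ 2 ≤ (1 / 50) ^ 2 := by
      rw [hγ, div_pow, div_le_iff₀ (by positivity)]
      have g7 : ε ^ 2 ≤ (3 / 500) ^ 2 := pow_le_pow_left₀ hε0 hεs 2
      have g8 : (0 : ℝ) < m ^ 2 := by positivity
      nlinarith
    exact abs_le_of_sq_le_sq g6 (by norm_num)
  rw [← hγ] at r1 r2 c1 c2
  have eR : ∀ x ∈ R, ∑ y ∈ C, X (x, y) * Real.exp (u x + v y) =
      Real.exp (u x) * ∑ y ∈ C, X (x, y) * Real.exp (v y) := by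
    intro x _
    rw [Finset.mul_sum]
    refine Finset.sum_congr rfl fun y _ => ?_
    rw [Real.exp_add]
    ring
  have eC : ∀ y ∈ C, ∑ x ∈ R, X (x, y) * Real.exp (u x + v y) =
      Real.exp (v y) * ∑ x ∈ R, X (x, y) * Real.exp (u x) := by
    intro y _
    rw [Finset.mul_sum]
    refine Finset.sum_congr rfl fun x _ => ?_
    rw [Real.exp_add]
    ring
  have TR : ∀ x ∈ R, |∑ y ∈ C, X (x, y) * Real.exp (v y) - 1| ≤ 1 / 50 := fun x hx =>
    sb_three C (fun y => X (x, y)) v hm0 hK hε0 hKε.le (fun y hy => hX.nn x hx y hy)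
      (fun y hy => (hX.up x hx y hy).trans hup) ((hX.row x hx).trans hτs) hv hSv
  have TC : ∀ y ∈ C, |∑ x ∈ R, X (x, y) * Real.exp (u x) - 1| ≤ 1 / 50 := fun y hy =>
    sb_three R (fun x => X (x, y)) u hm0 hK hε0 hKε.le (fun x hx => hX.nn x hx y hy)
      (fun x hx => (hX.up x hx y hy).trans hup) ((hX.col y hy).trans hτs) hu hSu
  have hR : ∀ x ∈ R, Real.exp (u x) * ∑ y ∈ C, X (x, y) * Real.exp (v y) = 1 - γ := fun x hx =>
    sb_one (hu x hx) (TR x hx) hγb (fun h => by rw [← eR x hx]; exact r1 x hx h)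
      (fun h => by rw [← eR x hx]; exact r2 x hx h)
  have hC : ∀ y ∈ C, Real.exp (v y) * ∑ x ∈ R, X (x, y) * Real.exp (u x) = 1 - -γ := fun y hy =>
    sb_one (hv y hy) (TC y hy) (by rw [abs_neg]; exact hγb)
      (fun h => by
        rw [← eC y hy]
        have := c1 y hy h
        linarith)
      (fun h => by
        rw [← eC y hy]
        have := c2 y hy h
        linarith)
  have hγ0 : γ = 0 := by
    have k1 : ∑ x ∈ R, ∑ y ∈ C, X (x, y) * Real.exp (u x + v y) = m * (1 - γ) := by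
      rw [Finset.sum_congr rfl fun x hx => (eR x hx).trans (hR x hx), Finset.sum_const, hX.cR,
        nsmul_eq_mul]
    have k2 : ∑ y ∈ C, ∑ x ∈ R, X (x, y) * Real.exp (u x + v y) = m * (1 - -γ) := by
      rw [Finset.sum_congr rfl fun y hy => (eC y hy).trans (hC y hy), Finset.sum_const, hX.cC,
        nsmul_eq_mul]
    rw [Finset.sum_comm, k2] at k1
    have k3 : (m : ℝ) * γ = 0 := by linarith
    rcases mul_eq_zero.mp k3 with h | h
    · exact absurd h hm0.ne'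
    · exact h
  refine ⟨u, v, ⟨?_, ?_, ?_, ?_⟩⟩
  · intro x hx
    refine sb_two (TR x hx) ?_
    rw [hR x hx, hγ0, sub_zero]
  · intro y hy
    refine sb_two (TC y hy) ?_
    rw [hC y hy, hγ0, neg_zero, sub_zero]
  · intro x hx
    show ∑ y ∈ C, X (x, y) * Real.exp (u x + v y) = 1
    rw [eR x hx, hR x hx, hγ0, sub_zero]
  · intro y hy
    show ∑ x ∈ R, X (x, y) * Real.exp (u x + v y) = 1
    rw [eC y hy, hC y hy, hγ0, neg_zero, sub_zero]

end Pool.Agent.NQF.P
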