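import Pool.Agent.NQF.RDef
import Pool.Agent.NQF.PDefs
import Pool.Agent.NQF.PCo
import Pool.Agent.NQF.PSclB

/-!
# NQF-RScal: scaling of nearly doubly stochastic matrices, linear bound

PLAN. `c1 = min c 1`. `P.scl_ex` (`τ0` for `K`, `c1`; `Nd K c1 τ0 m m X R C'` if `tau ≤ τ0`, `M = m`) gives `u, v` with `|u|, |v| ≤ 1/10` and `Y = X exp (u + v)` doubly stochastic. Replace `(u, v)` by `(u - s, v + s)`, `s = (∑_R u - ∑_C' v)/(2m)` (`|s| ≤ 1/10`): `Y` does not change, `∑_R u = ∑_C' v`, `|u|, |v| ≤ 1/5`.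
L2 bound: `∑∑ X (exp t - 1) t = ∑_R u x (1 - r x) + ∑_C' v y (1 - c y)` with `t = u x + v y`, `r, c` the row and column sums of `X` (`Y` has sums one); left side `≥ (1/2) ∑∑ X t²` (`(exp t - 1) t ≥ t²/2` for `|t| ≤ 2/5`) `≥ (c1/200) (∑ u² + ∑ v²)` (`P.pco`, the gauge term vanishes), right side `≤ tau √(2m) √(∑ u² + ∑ v²)`
(Cauchy-Schwarz). So `∑ u² + ∑ v² ≤ (C tau)² m`. Sup bound: `exp (u x) * ∑_y X(x,y) exp (v y) = 1` and `|∑_y X exp (v y) - 1| ≤ tau + 2 ∑ X |v y| ≤ tau + 2 √(∑ X²) √(∑ v²) ≤ tau + 2 √(2K/m) C tau √m`, hence `|u x| ≤ C' tau` (`|log (1 + a)| ≤ 2 |a|` for `|a| ≤ 1/2`; `tau0` small), same for `v`.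
`Ds (2K) (c/2)`: entries `≤ (K/m) exp (2 C' tau) ≤ 2K/m`, codegrees `≥ exp (-4 C' tau) c/m ≥ (c/2)/m` for small `tau0`.
-/

set_option autoImplicit false

open Finset

namespace Pool.Agent.NQF

open Pool.Agent.NQ (board dsum F Ent Dg phi ln Q Qset QS NonAtt bern)
open Pool.Agent.NQR (Adm Opt Bd Rf hS hD hh InR)
open Pool.Agent.NQL

private theorem rscal_exp {t : ℝ} (ht : |t| ≤ 2 / 5) : t ^ 2 / 2 ≤ (Real.exp t - 1) * t := by
  have h1 := Real.abs_exp_sub_one_sub_id_le (x := t) (by linarith)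
  obtain ⟨h2, h3⟩ := abs_le.mp h1
  obtain ⟨h4, h5⟩ := abs_le.mp ht
  have h6 : 0 ≤ t ^ 2 := sq_nonneg t
  rcases le_total 0 t with h | h
  · nlinarith [mul_nonneg h h6, mul_nonneg h6 (by linarith : 0 ≤ 2 / 5 - t)]
  · nlinarith [mul_nonneg (by linarith : 0 ≤ -t) h6, mul_nonneg h6 (by linarith : 0 ≤ 2 / 5 + t)]

private theorem rscal_l2 {c1 tau : ℝ} (hc : 0 < c1) (hc1 : c1 ≤ 1) (ht : 0 ≤ tau)
    (ht1 : tau ≤ 1 / 2) {m : ℕ} (hm : 1 ≤ m) {X : ℤ × ℤ → ℝ} {R C : Finset ℤ}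
    (hR : R.card = m) (hC : C.card = m) (nn : ∀ x ∈ R, ∀ y ∈ C, 0 ≤ X (x, y))
    (row : ∀ x ∈ R, |∑ y ∈ C, X (x, y) - 1| ≤ tau) (col : ∀ y ∈ C, |∑ x ∈ R, X (x, y) - 1| ≤ tau)
    (gr : ∀ x ∈ R, ∀ x' ∈ R, x ≠ x' → c1 / m ≤ ∑ y ∈ C, X (x, y) * X (x', y))
    (gc : ∀ y ∈ C, ∀ y' ∈ C, y ≠ y' → c1 / m ≤ ∑ x ∈ R, X (x, y) * X (x, y'))
    {u v : ℤ → ℝ} (hu : ∀ x ∈ R, |u x| ≤ 1 / 5) (hv : ∀ y ∈ C, |v y| ≤ 1 / 5)
    (hg : ∑ x ∈ R, u x = ∑ y ∈ C, v y)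
    (r1 : ∀ x ∈ R, ∑ y ∈ C, X (x, y) * Real.exp (u x + v y) = 1)
    (r2 : ∀ y ∈ C, ∑ x ∈ R, X (x, y) * Real.exp (u x + v y) = 1) :
    ∑ x ∈ R, u x ^ 2 + ∑ y ∈ C, v y ^ 2 ≤ (400 * tau / c1) ^ 2 * m := by
  have hm0 : (0 : ℝ) < m := by exact_mod_cast hm
  have hco := P.pco hc hc1 hm hR hC nn (fun x hx => (row x hx).trans ht1)
    (fun y hy => (col y hy).trans ht1) gr gc u v
  have hg0 : (∑ x ∈ R, u x - ∑ y ∈ C, v y) ^ 2 / (2 * (m : ℝ)) = 0 := by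
    rw [hg, sub_self]
    simp
  rw [hg0, add_zero] at hco
  obtain ⟨S, hS⟩ : ∃ S, S = ∑ x ∈ R, u x ^ 2 + ∑ y ∈ C, v y ^ 2 := ⟨_, rfl⟩
  have hSu : 0 ≤ ∑ x ∈ R, u x ^ 2 := Finset.sum_nonneg fun _ _ => sq_nonneg _
  have hSv : 0 ≤ ∑ y ∈ C, v y ^ 2 := Finset.sum_nonneg fun _ _ => sq_nonneg _
  have hS0 : 0 ≤ S := by rw [hS]; linarith
  have h2 : 1 / 2 * ∑ x ∈ R, ∑ y ∈ C, X (x, y) * (u x + v y) ^ 2 ≤
      ∑ x ∈ R, ∑ y ∈ C, X (x, y) * ((Real.exp (u x + v y) - 1) * (u x + v y)) := by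
    rw [Finset.mul_sum]
    refine Finset.sum_le_sum fun x hx => ?_
    rw [Finset.mul_sum]
    refine Finset.sum_le_sum fun y hy => ?_
    have h3 : |u x + v y| ≤ 2 / 5 := by
      have := abs_add_le (u x) (v y)
      have h4 := hu x hx
      have h5 := hv y hy
      linarith
    have h4 := mul_le_mul_of_nonneg_left (rscal_exp h3) (nn x hx y hy)
    linarith
  have h3 : ∑ x ∈ R, ∑ y ∈ C, X (x, y) * ((Real.exp (u x + v y) - 1) * (u x + v y)) =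
      ∑ x ∈ R, u x * (1 - ∑ y ∈ C, X (x, y)) + ∑ y ∈ C, v y * (1 - ∑ x ∈ R, X (x, y)) := by
    have e1 : ∑ x ∈ R, ∑ y ∈ C, X (x, y) * ((Real.exp (u x + v y) - 1) * (u x + v y)) =
        ∑ x ∈ R, ∑ y ∈ C, (u x * (X (x, y) * Real.exp (u x + v y) - X (x, y))) +
        ∑ x ∈ R, ∑ y ∈ C, (v y * (X (x, y) * Real.exp (u x + v y) - X (x, y))) := by
      rw [← Finset.sum_add_distrib]
      refine Finset.sum_congr rfl fun x _ => ?_
      rw [← Finset.sum_add_distrib]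
      refine Finset.sum_congr rfl fun y _ => ?_
      ring
    have e2 : ∑ x ∈ R, ∑ y ∈ C, (u x * (X (x, y) * Real.exp (u x + v y) - X (x, y))) =
        ∑ x ∈ R, u x * (1 - ∑ y ∈ C, X (x, y)) := by
      refine Finset.sum_congr rfl fun x hx => ?_
      rw [← Finset.mul_sum, Finset.sum_sub_distrib, r1 x hx]
    have e3 : ∑ x ∈ R, ∑ y ∈ C, (v y * (X (x, y) * Real.exp (u x + v y) - X (x, y))) =
        ∑ y ∈ C, v y * (1 - ∑ x ∈ R, X (x, y)) := by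
      rw [Finset.sum_comm]
      refine Finset.sum_congr rfl fun y hy => ?_
      rw [← Finset.mul_sum, Finset.sum_sub_distrib, r2 y hy]
    rw [e1, e2, e3]
  obtain ⟨a, ha⟩ : ∃ a, a = ∑ x ∈ R, |u x| := ⟨_, rfl⟩
  obtain ⟨b, hb⟩ : ∃ b, b = ∑ y ∈ C, |v y| := ⟨_, rfl⟩
  have ha0 : 0 ≤ a := by rw [ha]; exact Finset.sum_nonneg fun _ _ => abs_nonneg _
  have hb0 : 0 ≤ b := by rw [hb]; exact Finset.sum_nonneg fun _ _ => abs_nonneg _
  have h4 : ∑ x ∈ R, u x * (1 - ∑ y ∈ C, X (x, y)) ≤ tau * a := by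
    rw [ha, Finset.mul_sum]
    refine Finset.sum_le_sum fun x hx => ?_
    refine (le_abs_self _).trans ?_
    rw [abs_mul, mul_comm, abs_sub_comm]
    exact mul_le_mul_of_nonneg_right (row x hx) (abs_nonneg _)
  have h5 : ∑ y ∈ C, v y * (1 - ∑ x ∈ R, X (x, y)) ≤ tau * b := by
    rw [hb, Finset.mul_sum]
    refine Finset.sum_le_sum fun y hy => ?_
    refine (le_abs_self _).trans ?_
    rw [abs_mul, mul_comm, abs_sub_comm]
    exact mul_le_mul_of_nonneg_right (col y hy) (abs_nonneg _)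
  have h6 : a ^ 2 ≤ m * ∑ x ∈ R, u x ^ 2 := by
    have := sq_sum_le_card_mul_sum_sq (s := R) (f := fun x => |u x|)
    simp only [sq_abs] at this
    rw [hR, ← ha] at this
    exact this
  have h7 : b ^ 2 ≤ m * ∑ y ∈ C, v y ^ 2 := by
    have := sq_sum_le_card_mul_sum_sq (s := C) (f := fun x => |v x|)
    simp only [sq_abs] at this
    rw [hC, ← hb] at this
    exact this
  rw [← hS] at hco ⊢
  have h8 : c1 / 200 * S ≤ tau * (a + b) := by
    rw [h3] at h2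
    linarith
  have h9 : (a + b) ^ 2 ≤ 2 * m * S := by
    have : m * S = m * ∑ x ∈ R, u x ^ 2 + m * ∑ y ∈ C, v y ^ 2 := by rw [hS]; ring
    nlinarith [sq_nonneg (a - b)]
  rcases hS0.eq_or_lt with h0 | h0
  · rw [← h0]
    positivity
  · have h10 : (c1 / 200 * S) ^ 2 ≤ tau ^ 2 * (2 * m * S) := by
      calc (c1 / 200 * S) ^ 2 ≤ (tau * (a + b)) ^ 2 :=
            pow_le_pow_left₀ (by positivity) h8 2
        _ = tau ^ 2 * (a + b) ^ 2 := by ring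
        _ ≤ tau ^ 2 * (2 * m * S) := mul_le_mul_of_nonneg_left h9 (sq_nonneg _)
    have h11 : (c1 / 200) ^ 2 * S ≤ 2 * m * tau ^ 2 := by
      refine le_of_mul_le_mul_right ?_ h0
      calc (c1 / 200) ^ 2 * S * S = (c1 / 200 * S) ^ 2 := by ring
        _ ≤ _ := h10
        _ = _ := by ring
    have h12 : (400 * tau / c1) ^ 2 * m = 160000 * tau ^ 2 * m / c1 ^ 2 := by
      rw [div_pow]
      ring
    rw [h12, le_div_iff₀ (by positivity)]
    have h13 : 0 ≤ tau ^ 2 * m := by positivity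
    have h14 : (c1 / 200) ^ 2 * S = S * c1 ^ 2 / 40000 := by ring
    rw [h14] at h11
    nlinarith

private theorem rscal_sup (C : Finset ℤ) (a v : ℤ → ℝ) {K ε m tau u : ℝ} (hm : 0 < m) (hK : 1 ≤ K)
    (hε0 : 0 ≤ ε) (ht1 : tau ≤ 1 / 2) (hd : tau + 4 * K * ε ≤ 1 / 2)
    (ha : ∀ y ∈ C, 0 ≤ a y) (hak : ∀ y ∈ C, a y ≤ K / m)
    (hs : |∑ y ∈ C, a y - 1| ≤ tau) (hv : ∀ y ∈ C, |v y| ≤ 1)
    (hS : ∑ y ∈ C, v y ^ 2 ≤ ε ^ 2 * m) (hu : Real.exp u * ∑ y ∈ C, a y * Real.exp (v y) = 1) :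
    |u| ≤ 2 * (tau + 4 * K * ε) := by
  obtain ⟨hs1, hs2⟩ := abs_le.mp hs
  obtain ⟨P', hP⟩ : ∃ P', P' = ∑ y ∈ C, a y * |v y| := ⟨_, rfl⟩
  have hP0 : 0 ≤ P' := by
    rw [hP]
    exact Finset.sum_nonneg fun y hy => mul_nonneg (ha y hy) (abs_nonneg _)
  have h1 : P' ^ 2 ≤ (∑ y ∈ C, a y ^ 2) * ∑ y ∈ C, |v y| ^ 2 := by
    rw [hP]
    exact Finset.sum_mul_sq_le_sq_mul_sq C a fun y => |v y|
  have h2 : ∑ y ∈ C, a y ^ 2 ≤ K / m * 2 := by
    calc ∑ y ∈ C, a y ^ 2 ≤ ∑ y ∈ C, K / m * a y := Finset.sum_le_sum fun y hy => by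
          rw [sq]
          exact mul_le_mul_of_nonneg_right (hak y hy) (ha y hy)
      _ = K / m * ∑ y ∈ C, a y := by rw [Finset.mul_sum]
      _ ≤ K / m * 2 := mul_le_mul_of_nonneg_left (by linarith) (by positivity)
  have h3 : ∑ y ∈ C, |v y| ^ 2 ≤ ε ^ 2 * m := by
    simp only [sq_abs]
    exact hS
  have h4 : P' ^ 2 ≤ (2 * (K * ε)) ^ 2 := by
    calc P' ^ 2 ≤ (∑ y ∈ C, a y ^ 2) * ∑ y ∈ C, |v y| ^ 2 := h1
      _ ≤ (K / m * 2) * (ε ^ 2 * m) :=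
          mul_le_mul h2 h3 (Finset.sum_nonneg fun y _ => sq_nonneg _) (by positivity)
      _ = 2 * (K * ε ^ 2) := by field_simp
      _ ≤ (2 * (K * ε)) ^ 2 := by
          have h5 : K * ε ^ 2 ≤ K ^ 2 * ε ^ 2 := by
            have h6 : K ≤ K ^ 2 := by nlinarith
            exact mul_le_mul_of_nonneg_right h6 (sq_nonneg _)
          have h7 : 0 ≤ K ^ 2 * ε ^ 2 := by positivity
          nlinarith
  have h5 : P' ≤ 2 * (K * ε) := by
    have h6 : 0 ≤ 2 * (K * ε) := by positivity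
    have h7 := abs_le_of_sq_le_sq h4 h6
    exact (le_abs_self P').trans h7
  have h6 : ∑ y ∈ C, a y * Real.exp (v y) - 1 =
      ∑ y ∈ C, a y * (Real.exp (v y) - 1) + (∑ y ∈ C, a y - 1) := by
    have h7 : ∑ y ∈ C, a y * (Real.exp (v y) - 1) = ∑ y ∈ C, a y * Real.exp (v y) - ∑ y ∈ C, a y := by
      rw [← Finset.sum_sub_distrib]
      refine Finset.sum_congr rfl fun y _ => ?_
      ring
    rw [h7]
    ring
  have h7 : |∑ y ∈ C, a y * (Real.exp (v y) - 1)| ≤ 2 * P' := by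
    calc |∑ y ∈ C, a y * (Real.exp (v y) - 1)| ≤ ∑ y ∈ C, |a y * (Real.exp (v y) - 1)| :=
          Finset.abs_sum_le_sum_abs _ _
      _ ≤ ∑ y ∈ C, 2 * (a y * |v y|) := Finset.sum_le_sum fun y hy => by
          rw [abs_mul, abs_of_nonneg (ha y hy)]
          have h8 := Real.abs_exp_sub_one_le (hv y hy)
          have h9 := mul_le_mul_of_nonneg_left h8 (ha y hy)
          linarith
      _ = 2 * P' := by rw [← Finset.mul_sum, hP]
  obtain ⟨h8, h9⟩ := abs_le.mp h7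
  obtain ⟨T, hT⟩ : ∃ T, T = ∑ y ∈ C, a y * Real.exp (v y) := ⟨_, rfl⟩
  obtain ⟨d, hdd⟩ : ∃ d, d = tau + 4 * K * ε := ⟨_, rfl⟩
  rw [← hT] at h6 hu
  rw [← hdd] at hd ⊢
  have hT1 : T ≤ 1 + d := by linarith
  have hT2 : 1 - d ≤ T := by linarith
  have hd0 : 0 ≤ d := by linarith
  have hTp : 0 < T := by linarith
  have hul : u = -Real.log T := by
    have h10 := congrArg Real.log hu
    rw [Real.log_mul (Real.exp_pos _).ne' hTp.ne', Real.log_exp, Real.log_one] at h10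
    linarith
  have h10 := Real.log_le_sub_one_of_pos hTp
  have h11 := Real.one_sub_inv_le_log_of_pos hTp
  have h12 : T⁻¹ ≤ 1 + 2 * d := by
    rw [inv_le_comm₀ hTp (by linarith), inv_eq_one_div, div_le_iff₀ (by linarith)]
    nlinarith
  rw [abs_le]
  constructor <;> linarith

theorem scal_holds : Scal := by
  intro K c hK hc
  have hc1 : 0 < min c 1 := lt_min hc one_pos
  have hc11 : min c 1 ≤ 1 := min_le_right _ _
  have hc1c : min c 1 ≤ c := min_le_left _ _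
  obtain ⟨c1, hc1d⟩ : ∃ c1, c1 = min c 1 := ⟨_, rfl⟩
  rw [← hc1d] at hc1 hc11 hc1c
  obtain ⟨τ0, hτ0, hτ1, hscl⟩ := P.scl_ex hK hc1 hc11
  have hK0 : 0 < K := lt_of_lt_of_le one_pos hK
  obtain ⟨A, hA⟩ : ∃ A, A = 1 + 1600 * K / c1 := ⟨_, rfl⟩
  have hA1 : 1 ≤ A := by
    rw [hA]
    have : 0 ≤ 1600 * K / c1 := by positivity
    linarith
  refine ⟨2 * A, min τ0 (1 / (16 * A)), 1, by linarith, lt_min hτ0 (by positivity), le_rfl, ?_⟩
  intro m R C' X tau hm hR hC ht0 ht nn up row col gr gc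
  have hm0 : (0 : ℝ) < m := by exact_mod_cast hm
  have htau : tau ≤ τ0 := ht.trans (min_le_left _ _)
  have htA : A * tau ≤ 1 / 16 := by
    have h1 : tau ≤ 1 / (16 * A) := ht.trans (min_le_right _ _)
    rw [le_div_iff₀ (by positivity)] at h1
    linarith
  have ht1 : tau ≤ 1 / 16 := by nlinarith
  have hcm : c1 / m ≤ c / m := div_le_div_of_nonneg_right hc1c hm0.le
  have gr1 : ∀ x ∈ R, ∀ x' ∈ R, x ≠ x' → c1 / m ≤ ∑ y ∈ C', X (x, y) * X (x', y) :=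
    fun x hx x' hx' h => hcm.trans (gr x hx x' hx' h)
  have gc1 : ∀ y ∈ C', ∀ y' ∈ C', y ≠ y' → c1 / m ≤ ∑ x ∈ R, X (x, y) * X (x, y') :=
    fun y hy y' hy' h => hcm.trans (gc y hy y' hy' h)
  have hNd : P.Nd K c1 τ0 m m X R C' :=
    ⟨hR, hC, le_rfl, by omega, nn, up, fun x hx => (row x hx).trans htau,
      fun y hy => (col y hy).trans htau, gr1, gc1⟩
  obtain ⟨u₀, v₀, hscl'⟩ := hscl m m X R C' hm hNd
  obtain ⟨s, hs⟩ : ∃ s, s = (∑ x ∈ R, u₀ x - ∑ y ∈ C', v₀ y) / (2 * m) := ⟨_, rfl⟩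
  have hsb : |s| ≤ 1 / 10 := by
    have h1 : |∑ x ∈ R, u₀ x| ≤ m * (1 / 10) := by
      refine (Finset.abs_sum_le_sum_abs _ _).trans ?_
      refine (Finset.sum_le_card_nsmul _ _ _ hscl'.bu).trans ?_
      rw [hR, nsmul_eq_mul]
    have h2 : |∑ y ∈ C', v₀ y| ≤ m * (1 / 10) := by
      refine (Finset.abs_sum_le_sum_abs _ _).trans ?_
      refine (Finset.sum_le_card_nsmul _ _ _ hscl'.bv).trans ?_
      rw [hC, nsmul_eq_mul]
    rw [hs, abs_div, abs_of_pos (by positivity : (0 : ℝ) < 2 * m), div_le_iff₀ (by positivity)]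
    refine (abs_sub _ _).trans ?_
    linarith
  obtain ⟨hs1, hs2⟩ := abs_le.mp hsb
  obtain ⟨u, hu⟩ : ∃ u : ℤ → ℝ, u = fun x => u₀ x - s := ⟨_, rfl⟩
  obtain ⟨v, hv⟩ : ∃ v : ℤ → ℝ, v = fun y => v₀ y + s := ⟨_, rfl⟩
  have hub : ∀ x ∈ R, |u x| ≤ 1 / 5 := by
    intro x hx
    obtain ⟨h1, h2⟩ := abs_le.mp (hscl'.bu x hx)
    rw [hu, abs_le]
    constructor <;> dsimp only <;> linarith
  have hvb : ∀ y ∈ C', |v y| ≤ 1 / 5 := by
    intro y hy
    obtain ⟨h1, h2⟩ := abs_le.mp (hscl'.bv y hy)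
    rw [hv, abs_le]
    constructor <;> dsimp only <;> linarith
  have huv : ∀ x y, u x + v y = u₀ x + v₀ y := by
    intro x y
    rw [hu, hv]
    dsimp only
    ring
  have hg : ∑ x ∈ R, u x = ∑ y ∈ C', v y := by
    rw [hu, hv]
    simp only [Finset.sum_sub_distrib, Finset.sum_add_distrib, Finset.sum_const, hR, hC,
      nsmul_eq_mul]
    rw [hs]
    field_simp
    ring
  have r1 : ∀ x ∈ R, ∑ y ∈ C', X (x, y) * Real.exp (u x + v y) = 1 := by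
    intro x hx
    have := hscl'.row x hx
    simp only [huv]
    exact this
  have r2 : ∀ y ∈ C', ∑ x ∈ R, X (x, y) * Real.exp (u x + v y) = 1 := by
    intro y hy
    have := hscl'.col y hy
    simp only [huv]
    exact this
  have hL2 := rscal_l2 hc1 hc11 ht0 (by linarith) hm hR hC nn row col gr1 gc1 hub hvb hg r1 r2
  obtain ⟨ε, hε⟩ : ∃ ε, ε = 400 * tau / c1 := ⟨_, rfl⟩
  rw [← hε] at hL2
  have hε0 : 0 ≤ ε := by rw [hε]; positivity
  have hAt : tau + 4 * K * ε = A * tau := by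
    rw [hε, hA]
    ring
  have hSu : ∑ x ∈ R, u x ^ 2 ≤ ε ^ 2 * m := by
    have : 0 ≤ ∑ y ∈ C', v y ^ 2 := Finset.sum_nonneg fun y _ => sq_nonneg _
    linarith
  have hSv : ∑ y ∈ C', v y ^ 2 ≤ ε ^ 2 * m := by
    have : 0 ≤ ∑ x ∈ R, u x ^ 2 := Finset.sum_nonneg fun y _ => sq_nonneg _
    linarith
  have hur : ∀ x ∈ R, |u x| ≤ 2 * A * tau := by
    intro x hx
    have h1 : Real.exp (u x) * ∑ y ∈ C', X (x, y) * Real.exp (v y) = 1 := by
      rw [← r1 x hx, Finset.mul_sum]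
      refine Finset.sum_congr rfl fun y _ => ?_
      rw [Real.exp_add]
      ring
    have h2 := rscal_sup C' (fun y => X (x, y)) v hm0 hK hε0 (by linarith) (by rw [hAt]; linarith)
      (fun y hy => nn x hx y hy) (fun y hy => up x hx y hy) (row x hx)
      (fun y hy => (hvb y hy).trans (by norm_num)) hSv h1
    rw [hAt] at h2
    linarith
  have hvr : ∀ y ∈ C', |v y| ≤ 2 * A * tau := by
    intro y hy
    have h1 : Real.exp (v y) * ∑ x ∈ R, X (x, y) * Real.exp (u x) = 1 := by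
      rw [← r2 y hy, Finset.mul_sum]
      refine Finset.sum_congr rfl fun x _ => ?_
      rw [Real.exp_add]
      ring
    have h2 := rscal_sup R (fun x => X (x, y)) u hm0 hK hε0 (by linarith) (by rw [hAt]; linarith)
      (fun x hx => nn x hx y hy) (fun x hx => up x hx y hy) (col y hy)
      (fun x hx => (hub x hx).trans (by norm_num)) hSu h1
    rw [hAt] at h2
    linarith
  have hup : ∀ x ∈ R, ∀ y ∈ C', u x + v y ≤ 1 / 4 ∧ -(1 / 4) ≤ u x + v y := by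
    intro x hx y hy
    obtain ⟨h1, h2⟩ := abs_le.mp (hur x hx)
    obtain ⟨h3, h4⟩ := abs_le.mp (hvr y hy)
    constructor <;> linarith
  have hexp1 : Real.exp (1 / 4) ≤ 2 := by
    have h1 := Real.add_one_le_exp (-(1 / 4) : ℝ)
    have h2 : Real.exp (1 / 4) * Real.exp (-(1 / 4)) = 1 := by
      rw [← Real.exp_add]
      norm_num
    have h3 := Real.exp_pos (1 / 4 : ℝ)
    nlinarith
  have hexp2 : (1 : ℝ) / 2 ≤ Real.exp (-(1 / 2)) := by
    have h1 := Real.add_one_le_exp (-(1 / 2) : ℝ)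
    linarith
  have hlow : ∀ (a b s t : ℝ), 0 ≤ a → 0 ≤ b → -(1 / 4) ≤ s → -(1 / 4) ≤ t →
      1 / 2 * (a * b) ≤ a * Real.exp s * (b * Real.exp t) := by
    intro a b s t ha hb hs ht
    have h1 : Real.exp (-(1 / 2)) ≤ Real.exp (s + t) := Real.exp_le_exp.2 (by linarith)
    rw [Real.exp_add] at h1
    have h2 : 0 ≤ a * b := mul_nonneg ha hb
    calc 1 / 2 * (a * b) ≤ Real.exp s * Real.exp t * (a * b) :=
          mul_le_mul_of_nonneg_right (hexp2.trans h1) h2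
      _ = _ := by ring
  refine ⟨u, v, hur, hvr, ⟨hR, hC, ?_, ?_, r1, r2, ?_, ?_⟩⟩
  · intro x hx y hy
    exact mul_nonneg (nn x hx y hy) (Real.exp_pos _).le
  · intro x hx y hy
    have h1 : Real.exp (u x + v y) ≤ 2 :=
      (Real.exp_le_exp.2 (hup x hx y hy).1).trans hexp1
    calc X (x, y) * Real.exp (u x + v y) ≤ K / m * 2 :=
          mul_le_mul (up x hx y hy) h1 (Real.exp_pos _).le (by positivity)
      _ = 2 * K / m := by ring
  · intro x hx x' hx' hne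
    have h1 := gr x hx x' hx' hne
    calc c / 2 / m = 1 / 2 * (c / m) := by ring
      _ ≤ 1 / 2 * ∑ y ∈ C', X (x, y) * X (x', y) := by linarith
      _ = ∑ y ∈ C', 1 / 2 * (X (x, y) * X (x', y)) := by rw [Finset.mul_sum]
      _ ≤ _ := Finset.sum_le_sum fun y hy => hlow _ _ _ _ (nn x hx y hy) (nn x' hx' y hy)
          (hup x hx y hy).2 (hup x' hx' y hy).2
  · intro y hy y' hy' hne
    have h1 := gc y hy y' hy' hne
    calc c / 2 / m = 1 / 2 * (c / m) := by ring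
      _ ≤ 1 / 2 * ∑ x ∈ R, X (x, y) * X (x, y') := by linarith
      _ = ∑ x ∈ R, 1 / 2 * (X (x, y) * X (x, y')) := by rw [Finset.mul_sum]
      _ ≤ _ := Finset.sum_le_sum fun x hx => hlow _ _ _ _ (nn x hx y hy) (nn x hx y' hy')
          (hup x hx y hy).2 (hup x hx y' hy').2

end Pool.Agent.NQF
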