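import Pool.Agent.NQF.RAsm
import Pool.Agent.NQF.RIfc
import Pool.Agent.NQF.RScal
import Pool.Agent.NQF.FVal
import Pool.Agent.NQF.LLLim
import Pool.Agent.NQR.PMax
import Pool.Agent.NQR.PRef

/-!
# NQF-Fin: the number of configurations up to the factor `1 + o(1)`
-/

set_option autoImplicit false

open Finset

namespace Pool.Agent.NQF

open Pool.Agent.NQ (board dsum F Ent Dg phi ln Q Qset QS NonAtt bern)
open Pool.Agent.NQR (Adm Opt Bd Rf hS hD hh InR)
open Pool.Agent.NQL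

open Pool.Agent.NQ (QN)
open Filter Topology

/-- assembly of the blocks -/
theorem fin_disc : ∃ α c C : ℝ,
    (∀ n : ℕ, 1 ≤ n → |Real.log (QN n) - n * Real.log n + α * n| ≤ C * (n : ℝ) ^ (1 - 1 / 500 : ℝ)) ∧
    ∀ ε : ℝ, 0 < ε → ∃ n0 : ℕ, ∀ n : ℕ, n0 ≤ n → 0 < QN n ∧
      |Real.log (QN n) - n * Real.log n + α * n - Real.log n / 2 - c| ≤ ε ∧
      ∀ W : ℤ × ℤ → ℝ, Opt n W →
        |Real.log (QN n) - (F n W - n + Real.log n / 2 + cn n W)| ≤ ε ∧ |cn n W - c| ≤ ε ∧
        |F n W - n - n * Real.log n + α * n| ≤ ε := by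
  obtain ⟨L, hL, href⟩ := Pool.Agent.NQR.exists_ref
  obtain ⟨α, C, n1, hC, h1, h2⟩ := fval
  obtain ⟨c, C', n2, hC', h3⟩ := cn_lim
  refine ⟨α, c, C, h1, ?_⟩
  intro ε hε
  obtain ⟨N0, h4⟩ := board_asym perm_holds dsls_holds scal_holds L hL (ε / 4) (by positivity)
  obtain ⟨k1, hk1⟩ := exists_nat_ge (4 * C / ε)
  obtain ⟨k2, hk2⟩ := exists_nat_ge ((4 * C' / ε) ^ 2)
  refine ⟨1000 + n1 + n2 + N0 + k1 + k2, ?_⟩
  intro n hn
  have hn0 : 0 < n := by omega
  have hnp : (0 : ℝ) < n := by exact_mod_cast hn0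
  have key : ∀ W : ℤ × ℤ → ℝ, Opt n W → 0 < QN n ∧
        |Real.log (QN n) - (F n W - n + Real.log n / 2 + cn n W)| ≤ ε / 4 ∧ |cn n W - c| ≤ ε / 4 ∧
        |F n W - n - n * Real.log n + α * n| ≤ ε / 4 := by
    intro W hW
    obtain ⟨A, B, hR⟩ := href n (by omega) W hW
    obtain ⟨e1, e2⟩ := h4 n (by omega) W A B hR
    have e3 := h3 n (by omega) W hW
    obtain ⟨e4, e5⟩ := h2 n (by omega) W hW
    rw [Pool.Agent.NQ.QN_eq]
    refine ⟨e1, ?_, ?_, ?_⟩
    · have h5 : Real.log (4 * Real.pi * n) = Real.log (4 * Real.pi) + Real.log n :=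
        Real.log_mul (by positivity) hnp.ne'
      rw [h5] at e2
      have h6 : F n W - n + Real.log n / 2 + cn n W =
          F n W - n + (Real.log (4 * Real.pi) + Real.log n) / 2 -
            LD (full n) (AA L4 (board n) W ga n) / 2 - 3 / 2 * ∑ e ∈ board n, W e ^ 2 := by
        unfold cn
        ring
      rw [h6]
      exact e2
    · refine e3.trans ?_
      have hs : 0 < Real.sqrt n := Real.sqrt_pos.2 hnp
      rw [div_le_iff₀ hs]
      have h6 : 4 * C' / ε ≤ Real.sqrt n := by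
        apply Real.le_sqrt_of_sq_le
        refine hk2.trans ?_
        have : k2 ≤ n := by omega
        exact_mod_cast this
      rw [div_le_iff₀ hε] at h6
      linarith
    · have h6 : C / n ≤ ε / 4 := by
        rw [div_le_iff₀ hnp]
        have h7 : 4 * C / ε ≤ n := hk1.trans (by
          have : k1 ≤ n := by omega
          exact_mod_cast this)
        rw [div_le_iff₀ hε] at h7
        linarith
      rw [abs_le]
      constructor
      · linarith
      · linarith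
  obtain ⟨W, hW⟩ := Pool.Agent.NQR.exists_opt hn0
  obtain ⟨k3, k4, k5, k6⟩ := key W hW
  refine ⟨k3, ?_, ?_⟩
  · rw [abs_le] at k4 k5 k6 ⊢
    obtain ⟨a1, a2⟩ := k4
    obtain ⟨a3, a4⟩ := k5
    obtain ⟨a5, a6⟩ := k6
    constructor
    · linarith
    · linarith
  · intro V hV
    obtain ⟨-, m4, m5, m6⟩ := key V hV
    exact ⟨m4.trans (by linarith), m5.trans (by linarith), m6.trans (by linarith)⟩

theorem fin_main : ∃ α c : ℝ,
    Tendsto (fun n : ℕ => (n * Real.log n - Real.log (QN n)) / n) atTop (𝓝 α) ∧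
    Tendsto (fun n : ℕ => Real.log (QN n) - n * Real.log n + α * n - Real.log n / 2) atTop (𝓝 c) ∧
    (∀ᶠ n : ℕ in atTop, 0 < QN n) ∧
    ∀ W : ℕ → ℤ × ℤ → ℝ, (∀ᶠ n : ℕ in atTop, Opt n (W n)) →
      Tendsto (fun n : ℕ => cn n (W n)) atTop (𝓝 c) ∧
      Tendsto (fun n : ℕ => F n (W n) - n - n * Real.log n + α * n) atTop (𝓝 0) := by
  obtain ⟨α, c, C, h1, h2⟩ := fin_disc
  refine ⟨α, c, ?_, ?_, ?_, ?_⟩
  · have h3 : Tendsto (fun n : ℕ => C * (n : ℝ) ^ (-(1 / 500) : ℝ)) atTop (𝓝 0) := by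
      have h4 : Tendsto (fun n : ℕ => (n : ℝ) ^ (-(1 / 500) : ℝ)) atTop (𝓝 0) :=
        (tendsto_rpow_neg_atTop (by norm_num : (0 : ℝ) < 1 / 500)).comp tendsto_natCast_atTop_atTop
      simpa using h4.const_mul C
    rw [tendsto_iff_norm_sub_tendsto_zero]
    refine squeeze_zero' (Eventually.of_forall fun n => norm_nonneg _) ?_ h3
    filter_upwards [eventually_ge_atTop 1] with n hn
    have hn0 : (0 : ℝ) < n := by exact_mod_cast hn
    have h5 : (n * Real.log n - Real.log (QN n)) / n - α =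
        -((Real.log (QN n) - n * Real.log n + α * n) / n) := by
      field_simp
      ring
    rw [h5, norm_neg, Real.norm_eq_abs, abs_div, abs_of_pos hn0, div_le_iff₀ hn0]
    refine (h1 n hn).trans (le_of_eq ?_)
    have h6 : (n : ℝ) ^ (1 - 1 / 500 : ℝ) = (n : ℝ) ^ (-(1 / 500) : ℝ) * n := by
      rw [show (1 - 1 / 500 : ℝ) = -(1 / 500) + 1 by ring, Real.rpow_add hn0, Real.rpow_one]
    rw [h6]
    ring
  · rw [Metric.tendsto_atTop]
    intro ε hε
    obtain ⟨n0, h3⟩ := h2 (ε / 2) (by positivity)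
    refine ⟨n0, fun n hn => ?_⟩
    rw [Real.dist_eq]
    exact (h3 n hn).2.1.trans_lt (by linarith)
  · obtain ⟨n0, h3⟩ := h2 1 one_pos
    exact eventually_atTop.2 ⟨n0, fun n hn => (h3 n hn).1⟩
  · intro W hW
    constructor
    · rw [Metric.tendsto_atTop]
      intro ε hε
      obtain ⟨n0, h3⟩ := h2 (ε / 2) (by positivity)
      obtain ⟨n1, h4⟩ := eventually_atTop.1 hW
      refine ⟨max n0 n1, fun n hn => ?_⟩
      rw [Real.dist_eq]
      exact ((h3 n ((le_max_left _ _).trans hn)).2.2 (W n) (h4 n ((le_max_right _ _).trans hn))).2.1.trans_lt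
        (by linarith)
    · rw [Metric.tendsto_atTop]
      intro ε hε
      obtain ⟨n0, h3⟩ := h2 (ε / 2) (by positivity)
      obtain ⟨n1, h4⟩ := eventually_atTop.1 hW
      refine ⟨max n0 n1, fun n hn => ?_⟩
      rw [Real.dist_eq, sub_zero]
      exact ((h3 n ((le_max_left _ _).trans hn)).2.2 (W n) (h4 n ((le_max_right _ _).trans hn))).2.2.trans_lt
        (by linarith)

end Pool.Agent.NQF
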