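import Pool.Agent.NQF.VFin

/-!
# NQF-VFin2: the constants as optimal values, final form

`1 - α` is the maximum of `Phi` over all queenons of finite entropy, attained only at `w` (up to null sets), and `c` is the supremum of
`log (4 π)/2 + Kv v m X` over all maximisers `v`, all `m ≥ 1` and all positive definite `X`.
-/

set_option autoImplicit false

open Finset MeasureTheory

namespace Pool.Agent.NQF

open Pool.Agent.NQ (board dsum F Ent Dg phi ln Q Qset QS NonAtt bern)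
open Pool.Agent.NQR (Adm Opt Bd Rf hS hD hh InR)
open Pool.Agent.NQL

private theorem kv_congr {v w : ℝ × ℝ → ℝ} (h : v =ᵐ[volume] w) (m : ℕ) (X : Matrix (JJ m) (JJ m) ℝ) :
    Kv v m X = Kv w m X := by
  have h1 : ∀ s : Set (ℝ × ℝ), ∫ p in s, v p = ∫ p in s, w p := fun s =>
    integral_congr_ae (ae_restrict_of_ae h)
  have h2 : ∫ p, v p ^ 2 = ∫ p, w p ^ 2 := by
    refine integral_congr_ae ?_
    filter_upwards [h] with p hp
    rw [hp]
  have h3 : ∀ l l' : Li, AW v m l l' = AW w m l l' := by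
    intro l l'
    unfold AW mass
    rw [h1, h1]
  unfold Kv
  rw [h2]
  simp only [h3]

theorem v_fin2 {α c : ℝ}
    (hα : ∀ ε : ℝ, 0 < ε → ∃ n1 : ℕ, ∀ n : ℕ, n1 ≤ n → ∀ W : ℤ × ℤ → ℝ, Opt n W →
      |F n W / n - Real.log n - (1 - α)| ≤ ε)
    (hc : ∀ ε : ℝ, 0 < ε → ∃ n1 : ℕ, ∀ n : ℕ, n1 ≤ n → ∀ W : ℤ × ℤ → ℝ, Opt n W → |cn n W - c| ≤ ε) :
    IsGreatest {t : ℝ | ∃ v : ℝ × ℝ → ℝ, Queenon v ∧ Integrable (fun p => v p * Real.log (v p)) ∧ t = Phi v} (1 - α) ∧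
    IsLUB {t : ℝ | ∃ v : ℝ × ℝ → ℝ, Queenon v ∧ Integrable (fun p => v p * Real.log (v p)) ∧ Phi v = 1 - α ∧
      ∃ m : ℕ, 1 ≤ m ∧ ∃ X : Matrix (JJ m) (JJ m) ℝ, X.PosDef ∧ t = Real.log (4 * Real.pi) / 2 + Kv v m X} c ∧
    ∀ v v' : ℝ × ℝ → ℝ, Queenon v → Integrable (fun p => v p * Real.log (v p)) → Phi v = 1 - α →
      Queenon v' → Integrable (fun p => v' p * Real.log (v' p)) → Phi v' = 1 - α → v =ᵐ[volume] v' := by
  obtain ⟨w, hw, hwi, hopt, ha, hlub⟩ := v_fin hα hc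
  have hPw : Phi w = 1 - α := by linarith
  refine ⟨⟨⟨w, hw, hwi, hPw.symm⟩, ?_⟩, ⟨?_, ?_⟩, ?_⟩
  · rintro t ⟨v, hv, hvi, rfl⟩
    rw [← hPw]
    exact (hopt v hv hvi).1
  · rintro t ⟨v, hv, hvi, hPv, m, hm, X, hX, rfl⟩
    have h1 := (hopt v hv hvi).2 (by rw [hPv, hPw])
    rw [kv_congr h1]
    have h2 := hlub.1 ⟨m, hm, X, hX, rfl⟩
    linarith
  · intro b hb
    have h3 : c - Real.log (4 * Real.pi) / 2 ≤ b - Real.log (4 * Real.pi) / 2 := by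
      refine hlub.2 ?_
      rintro t ⟨m, hm, X, hX, rfl⟩
      have h4 := hb ⟨w, hw, hwi, hPw, m, hm, X, hX, rfl⟩
      linarith
    linarith
  · intro v v' hv hvi hPv hv' hvi' hPv'
    exact ((hopt v hv hvi).2 (by rw [hPv, hPw])).trans ((hopt v' hv' hvi').2 (by rw [hPv', hPw])).symm

end Pool.Agent.NQF
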