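import Pool.Agent.NQF.VDefs

/-!
# NQF-VGau: `log (4 π)/2` is the optimal value of an entropy problem on the line

The Gibbs inequality for the Gaussian density of variance two.
-/

set_option autoImplicit false

open Finset MeasureTheory

namespace Pool.Agent.NQF

open Pool.Agent.NQ (board dsum F Ent Dg phi ln Q Qset QS NonAtt bern)
open Pool.Agent.NQR (Adm Opt Bd Rf hS hD hh InR)
open Pool.Agent.NQL

/-- the density -/
private noncomputable def gd (x : ℝ) : ℝ := Real.exp (-(1 / 4) * x ^ 2) * Real.exp (-(Real.log (4 * Real.pi) / 2))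

private theorem gd_pos (x : ℝ) : 0 < gd x := mul_pos (Real.exp_pos _) (Real.exp_pos _)

private theorem gd_log (x : ℝ) : Real.log (gd x) = -(x ^ 2 / 4) - Real.log (4 * Real.pi) / 2 := by
  rw [gd, ← Real.exp_add, Real.log_exp]
  ring

private theorem gd_int : Integrable gd :=
  (integrable_exp_neg_mul_sq (by norm_num)).mul_const _

private theorem gd_one : ∫ x, gd x = 1 := by
  unfold gd
  rw [integral_mul_const, integral_gaussian]
  have h1 : (0 : ℝ) < 4 * Real.pi := by positivity
  have h2 : Real.pi / (1 / 4) = 4 * Real.pi := by ring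
  have h3 : Real.exp (Real.log (4 * Real.pi) / 2) = Real.sqrt (4 * Real.pi) := by
    rw [Real.sqrt_eq_rpow, Real.rpow_def_of_pos h1]
    congr 1
    ring
  rw [h2, ← h3, ← Real.exp_add, add_neg_cancel, Real.exp_zero]

private theorem gd_sq : Integrable fun x => x ^ 2 * gd x := by
  have h := integrable_rpow_mul_exp_neg_mul_sq (b := 1 / 4) (by norm_num) (s := 2) (by norm_num)
  have h2 := h.mul_const (Real.exp (-(Real.log (4 * Real.pi) / 2)))
  refine h2.congr (Filter.Eventually.of_forall fun x => ?_)
  show x ^ (2 : ℝ) * Real.exp (-(1 / 4) * x ^ 2) * _ = x ^ 2 * gd x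
  rw [Real.rpow_two, gd]
  ring

private theorem gd_tan {f g : ℝ} (hf : 0 ≤ f) (hg : 0 < g) : -(f * Real.log f) ≤ -(f * Real.log g) + g - f := by
  rcases hf.eq_or_lt with h | h
  · rw [← h, zero_mul, zero_mul]
    linarith
  · have h1 := Real.log_le_sub_one_of_pos (div_pos hg h)
    rw [Real.log_div hg.ne' h.ne'] at h1
    have h2 := mul_le_mul_of_nonneg_left h1 hf
    have h3 : f * (g / f - 1) = g - f := by
      field_simp
    rw [h3] at h2
    linarith

theorem v_gau : IsGreatest {t : ℝ | ∃ f : ℝ → ℝ, Measurable f ∧ (∀ x, 0 ≤ f x) ∧ Integrable f ∧ ∫ x, f x = 1 ∧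
    Integrable (fun x => f x * Real.log (f x)) ∧ Integrable (fun x => x ^ 2 * f x) ∧
    t = -(∫ x, f x * Real.log (f x)) - (∫ x, x ^ 2 * f x) / 4} (Real.log (4 * Real.pi) / 2) := by
  constructor
  · have e1 : ∀ x, gd x * Real.log (gd x) = -(1 / 4) * (x ^ 2 * gd x) - Real.log (4 * Real.pi) / 2 * gd x := by
      intro x
      rw [gd_log]
      ring
    have i1 : Integrable fun x => -(1 / 4) * (x ^ 2 * gd x) - Real.log (4 * Real.pi) / 2 * gd x :=
      (gd_sq.const_mul _).sub (gd_int.const_mul _)
    refine ⟨gd, ?_, fun x => (gd_pos x).le, gd_int, gd_one, ?_, gd_sq, ?_⟩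
    · unfold gd
      fun_prop
    · exact i1.congr (Filter.Eventually.of_forall fun x => (e1 x).symm)
    · have h1 : ∫ x, gd x * Real.log (gd x) = -(1 / 4) * (∫ x, x ^ 2 * gd x) - Real.log (4 * Real.pi) / 2 := by
        rw [integral_congr_ae (Filter.Eventually.of_forall e1), integral_sub (gd_sq.const_mul _) (gd_int.const_mul _),
          integral_const_mul, integral_const_mul, gd_one, mul_one]
      rw [h1]
      ring
  · rintro t ⟨f, _, h0, hi, h1, hl, hs, rfl⟩
    have i2 : Integrable fun x => 1 / 4 * (x ^ 2 * f x) + Real.log (4 * Real.pi) / 2 * f x :=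
      (hs.const_mul _).add (hi.const_mul _)
    have i4 : Integrable fun x => gd x - f x := gd_int.sub hi
    have i3 : Integrable fun x => (1 / 4 * (x ^ 2 * f x) + Real.log (4 * Real.pi) / 2 * f x) + (gd x - f x) :=
      i2.add i4
    have h2 : ∫ x, -(f x * Real.log (f x)) ≤
        ∫ x, ((1 / 4 * (x ^ 2 * f x) + Real.log (4 * Real.pi) / 2 * f x) + (gd x - f x)) := by
      refine integral_mono hl.neg i3 fun x => ?_
      have h3 := gd_tan (h0 x) (gd_pos x)
      rw [gd_log] at h3
      show -(f x * Real.log (f x)) ≤ 1 / 4 * (x ^ 2 * f x) + Real.log (4 * Real.pi) / 2 * f x + (gd x - f x)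
      linarith
    rw [integral_neg, integral_add i2 i4, integral_add (hs.const_mul _) (hi.const_mul _),
      integral_sub gd_int hi, integral_const_mul, integral_const_mul, gd_one, h1] at h2
    linarith

end Pool.Agent.NQF
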