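import Pool.Agent.NQF.Fin
import Pool.Agent.NQF.VFin2
import Pool.Agent.NQF.VGau

/-!
# NQF-Full: the theorem
-/

set_option autoImplicit false

open Finset

namespace Pool.Agent.NQF

open Pool.Agent.NQ (board dsum F Ent Dg phi ln Q Qset QS NonAtt bern)
open Pool.Agent.NQR (Adm Opt Bd Rf hS hD hh InR)
open Pool.Agent.NQL

open Pool.Agent.NQ (QN)
open Filter Topology MeasureTheory

theorem full_main : ∃ α c : ℝ,
    Tendsto (fun n : ℕ => (n * Real.log n - Real.log (QN n)) / n) atTop (𝓝 α) ∧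
    Tendsto (fun n : ℕ => Real.log (QN n) - n * Real.log n + α * n - Real.log n / 2) atTop (𝓝 c) ∧
    Tendsto (fun n : ℕ => (QN n : ℝ) / (Real.exp c * Real.sqrt n * (n * Real.exp (-α)) ^ n)) atTop (𝓝 1) ∧
    IsGreatest {t : ℝ | ∃ v : ℝ × ℝ → ℝ, Queenon v ∧ Integrable (fun p => v p * Real.log (v p)) ∧
      t = Phi v} (1 - α) ∧
    (∀ v v' : ℝ × ℝ → ℝ, Queenon v → Integrable (fun p => v p * Real.log (v p)) → Phi v = 1 - α →
      Queenon v' → Integrable (fun p => v' p * Real.log (v' p)) → Phi v' = 1 - α → v =ᵐ[volume] v') ∧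
    IsLUB {t : ℝ | ∃ v : ℝ × ℝ → ℝ, Queenon v ∧ Integrable (fun p => v p * Real.log (v p)) ∧ Phi v = 1 - α ∧
      ∃ m : ℕ, 1 ≤ m ∧ ∃ X : Matrix (JJ m) (JJ m) ℝ, X.PosDef ∧ t = Real.log (4 * Real.pi) / 2 + Kv v m X} c ∧
    IsGreatest {t : ℝ | ∃ f : ℝ → ℝ, Measurable f ∧ (∀ x, 0 ≤ f x) ∧ Integrable f ∧ ∫ x, f x = 1 ∧
      Integrable (fun x => f x * Real.log (f x)) ∧ Integrable (fun x => x ^ 2 * f x) ∧
      t = -(∫ x, f x * Real.log (f x)) - (∫ x, x ^ 2 * f x) / 4} (Real.log (4 * Real.pi) / 2) := by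
  obtain ⟨α, c, C, h1, h2⟩ := fin_disc
  have hα : ∀ ε : ℝ, 0 < ε → ∃ n1 : ℕ, ∀ n : ℕ, n1 ≤ n → ∀ W : ℤ × ℤ → ℝ, Opt n W →
      |F n W / n - Real.log n - (1 - α)| ≤ ε := by
    intro ε hε
    obtain ⟨n0, h3⟩ := h2 ε hε
    refine ⟨max n0 1, fun n hn W hW => ?_⟩
    have hn1 : (1 : ℝ) ≤ n := by exact_mod_cast (le_max_right n0 1).trans hn
    have hn0 : (0 : ℝ) < n := by linarith
    have h4 := ((h3 n ((le_max_left _ _).trans hn)).2.2 W hW).2.2
    have h5 : F n W / n - Real.log n - (1 - α) = (F n W - n - n * Real.log n + α * n) / n := by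
      field_simp
      ring
    rw [h5, abs_div, abs_of_pos hn0, div_le_iff₀ hn0]
    calc |F n W - n - n * Real.log n + α * n| ≤ ε := h4
      _ ≤ ε * n := le_mul_of_one_le_right hε.le hn1
  have hc : ∀ ε : ℝ, 0 < ε → ∃ n1 : ℕ, ∀ n : ℕ, n1 ≤ n → ∀ W : ℤ × ℤ → ℝ, Opt n W → |cn n W - c| ≤ ε := by
    intro ε hε
    obtain ⟨n0, h3⟩ := h2 ε hε
    exact ⟨n0, fun n hn W hW => ((h3 n hn).2.2 W hW).2.1⟩
  obtain ⟨g1, g2, g3⟩ := v_fin2 hα hc
  have hlim : Tendsto (fun n : ℕ => Real.log (QN n) - n * Real.log n + α * n - Real.log n / 2) atTop (𝓝 c) := by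
    rw [Metric.tendsto_atTop]
    intro ε hε
    obtain ⟨n0, h3⟩ := h2 (ε / 2) (by positivity)
    refine ⟨n0, fun n hn => ?_⟩
    rw [Real.dist_eq]
    exact (h3 n hn).2.1.trans_lt (by linarith)
  refine ⟨α, c, ?_, hlim, ?_, g1, g3, g2, v_gau⟩
  · have h3 : Tendsto (fun n : ℕ => C * (n : ℝ) ^ (-(1 / 500) : ℝ)) atTop (𝓝 0) := by
      have h4 : Tendsto (fun n : ℕ => (n : ℝ) ^ (-(1 / 500) : ℝ)) atTop (𝓝 0) :=
        (tendsto_rpow_neg_atTop (by norm_num : (0 : ℝ) < 1 / 500)).comp tendsto_natCast_atTop_atTop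
      simpa using h4.const_mul C
    rw [tendsto_iff_norm_sub_tendsto_zero]
    refine squeeze_zero' (Eventually.of_forall fun n => norm_nonneg _) ?_ h3
    filter_upwards [eventually_ge_atTop 1] with n hn
    have hn0 : (0 : ℝ) < n := by exact_mod_cast hn
    have h5 : (n * Real.log n - Real.log (QN n)) / n - α =
        -((Real.log (QN n) - n * Real.log n + α * n) / n) := by
      field_simp
      ring
    rw [h5, norm_neg, Real.norm_eq_abs, abs_div, abs_of_pos hn0, div_le_iff₀ hn0]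
    refine (h1 n hn).trans (le_of_eq ?_)
    have h6 : (n : ℝ) ^ (1 - 1 / 500 : ℝ) = (n : ℝ) ^ (-(1 / 500) : ℝ) * n := by
      rw [show (1 - 1 / 500 : ℝ) = -(1 / 500) + 1 by ring, Real.rpow_add hn0, Real.rpow_one]
    rw [h6]
    ring
  · obtain ⟨n0, h3⟩ := h2 1 one_pos
    have h4 : Tendsto (fun n : ℕ => Real.exp (Real.log (QN n) - n * Real.log n + α * n - Real.log n / 2 - c))
        atTop (𝓝 1) := by
      have h5 : Tendsto (fun n : ℕ => Real.log (QN n) - n * Real.log n + α * n - Real.log n / 2 - c) atTop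
          (𝓝 (c - c)) := hlim.sub_const c
      rw [sub_self] at h5
      have h6 := (Real.continuous_exp.tendsto 0).comp h5
      rw [Real.exp_zero] at h6
      exact h6
    refine h4.congr' ?_
    filter_upwards [eventually_ge_atTop (max n0 1)] with n hn
    have hQ : (0 : ℝ) < QN n := by exact_mod_cast (h3 n ((le_max_left _ _).trans hn)).1
    have hn0 : (0 : ℝ) < n := by exact_mod_cast (le_max_right n0 1).trans hn
    have hs : 0 < Real.sqrt n := Real.sqrt_pos.2 hn0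
    have hp : 0 < (n * Real.exp (-α)) ^ n := by positivity
    rw [← Real.exp_log (div_pos hQ (mul_pos (mul_pos (Real.exp_pos c) hs) hp))]
    congr 1
    rw [Real.log_div hQ.ne' (mul_pos (mul_pos (Real.exp_pos c) hs) hp).ne',
      Real.log_mul (mul_pos (Real.exp_pos c) hs).ne' hp.ne', Real.log_mul (Real.exp_pos c).ne' hs.ne',
      Real.log_exp, Real.log_pow, Real.log_mul hn0.ne' (Real.exp_pos _).ne', Real.log_exp, Real.log_sqrt hn0.le]
    ring

end Pool.Agent.NQF
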