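import Pool.Agent.NQF.Stmt
import Pool.Agent.NQF.Full

/-!
# NQF-Final: the theorem with the definitions of `NQF/Stmt.lean`
-/

set_option autoImplicit false

open Finset

namespace Pool.Agent.NQF

open Pool.Agent.NQ (QN)
open Filter Topology MeasureTheory

private theorem fq_q (n : ℕ) : Stmt.Q n = QN n := rfl

private theorem fq_phi : Stmt.Phi = Phi := rfl

private theorem fq_qu {v : ℝ × ℝ → ℝ} :
    Stmt.Queenon v ↔ Queenon v ∧ Integrable (fun p => v p * Real.log (v p)) :=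
  ⟨fun h => ⟨⟨h.meas, h.nn, h.out, h.int, h.row, h.col, h.sd, h.dd⟩, h.ent⟩,
    fun h => ⟨h.1.meas, h.1.nn, h.1.out, h.1.int, h.2, h.1.row, h.1.col, h.1.sd, h.1.dd⟩⟩

private theorem fq_card (m : ℕ) : ((Stmt.Lines m).card : ℝ) = 10 * m := by
  have h1 : (Stmt.Lines m).card = 10 * m := by
    unfold Stmt.Lines
    rw [card_union_of_disjoint, card_product, card_product, Int.card_Ico, Int.card_Ico]
    · have h2 : ({0, 1} : Finset (Fin 4)).card = 2 := rfl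
      have h3 : ({2, 3} : Finset (Fin 4)).card = 2 := rfl
      rw [h2, h3]
      omega
    · rw [disjoint_left]
      rintro ⟨k, x⟩ ha hb
      rw [mem_product] at ha hb
      have h2 := ha.1
      have h3 := hb.1
      simp only [mem_insert, mem_singleton] at h2 h3
      rcases h2 with rfl | rfl <;> rcases h3 with h3 | h3 <;> exact absurd h3 (by decide)
  rw [h1]
  push_cast
  ring

private theorem fq_A (v : ℝ × ℝ → ℝ) (m : ℕ) :
    Stmt.A v m = Matrix.of (fun i j : Stmt.Line m => AW v m i.1 j.1) := by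
  ext i j
  show (if i = j then 1 else m * Stmt.mass m v i.1 j.1) + Stmt.g i.1 * Stmt.g j.1 / (2 * m) = AW v m i.1 j.1
  unfold AW
  have h1 : (i = j) ↔ (i.1 = j.1) := Subtype.ext_iff
  have h2 : (if i = j then (1 : ℝ) else m * Stmt.mass m v i.1 j.1) =
      if i.1 = j.1 then 1 else m * mass m v i.1 j.1 := by
    by_cases h : i = j
    · rw [if_pos h, if_pos (h1.1 h)]
    · rw [if_neg h, if_neg (fun h' => h (h1.2 h'))]
      rfl
  rw [h2]
  rfl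

private theorem fq_K (v : ℝ × ℝ → ℝ) (m : ℕ) (X : Matrix (Stmt.Line m) (Stmt.Line m) ℝ) :
    Stmt.K v m X = Kv v m X := by
  have h1 : Kv v m X = Real.log X.det / 2 -
      (Matrix.of (fun i j : Stmt.Line m => AW v m i.1 j.1) * X).trace / 2 + 5 * m - 3 / 2 * ∫ p, v p ^ 2 := rfl
  have h2 : Stmt.A v m = Matrix.of (fun i j : Stmt.Line m => AW v m i.1 j.1) := fq_A v m
  rw [h1]
  unfold Stmt.K
  rw [h2, fq_card]
  ring

theorem final : ∃ α c : ℝ,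
    Tendsto (fun n : ℕ => (n * Real.log n - Real.log (Stmt.Q n)) / n) atTop (𝓝 α) ∧
    Tendsto (fun n : ℕ => Real.log (Stmt.Q n) - n * Real.log n + α * n - Real.log n / 2) atTop (𝓝 c) ∧
    Tendsto (fun n : ℕ => Stmt.Q n / (Real.exp c * Real.sqrt n * (n * Real.exp (-α)) ^ n)) atTop (𝓝 1) ∧
    IsGreatest {t : ℝ | ∃ v, Stmt.Queenon v ∧ t = Stmt.Phi v} (1 - α) ∧
    (∀ v v', Stmt.Queenon v → Stmt.Queenon v' → Stmt.Phi v = 1 - α → Stmt.Phi v' = 1 - α → v =ᵐ[volume] v') ∧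
    IsLUB {t : ℝ | ∃ v, Stmt.Queenon v ∧ Stmt.Phi v = 1 - α ∧
      ∃ (m : ℕ) (X : Matrix (Stmt.Line m) (Stmt.Line m) ℝ), 1 ≤ m ∧ X.PosDef ∧
        t = Real.log (4 * Real.pi) / 2 + Stmt.K v m X} c ∧
    IsGreatest {t : ℝ | ∃ f, Stmt.Dens f ∧ t = -(∫ x, f x * Real.log (f x)) - (∫ x, x ^ 2 * f x) / 4}
      (Real.log (4 * Real.pi) / 2) := by
  obtain ⟨α, c, h1, h2, h3, h4, h5, h6, h7⟩ := full_main
  refine ⟨α, c, h1, h2, h3, ?_, ?_, ?_, ?_⟩
  · have e : {t : ℝ | ∃ v, Stmt.Queenon v ∧ t = Stmt.Phi v} =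
        {t : ℝ | ∃ v : ℝ × ℝ → ℝ, Queenon v ∧ Integrable (fun p => v p * Real.log (v p)) ∧ t = Phi v} := by
      ext t
      constructor
      · rintro ⟨v, hv, ht⟩
        exact ⟨v, (fq_qu.1 hv).1, (fq_qu.1 hv).2, ht⟩
      · rintro ⟨v, hv, hi, ht⟩
        exact ⟨v, fq_qu.2 ⟨hv, hi⟩, ht⟩
    rw [e]
    exact h4
  · intro v v' hv hv' hp hp'
    exact h5 v v' (fq_qu.1 hv).1 (fq_qu.1 hv).2 hp (fq_qu.1 hv').1 (fq_qu.1 hv').2 hp'
  · have e : {t : ℝ | ∃ v, Stmt.Queenon v ∧ Stmt.Phi v = 1 - α ∧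
        ∃ (m : ℕ) (X : Matrix (Stmt.Line m) (Stmt.Line m) ℝ), 1 ≤ m ∧ X.PosDef ∧
          t = Real.log (4 * Real.pi) / 2 + Stmt.K v m X} =
        {t : ℝ | ∃ v : ℝ × ℝ → ℝ, Queenon v ∧ Integrable (fun p => v p * Real.log (v p)) ∧ Phi v = 1 - α ∧
          ∃ m : ℕ, 1 ≤ m ∧ ∃ X : Matrix (JJ m) (JJ m) ℝ, X.PosDef ∧
            t = Real.log (4 * Real.pi) / 2 + Kv v m X} := by
      ext t
      constructor
      · rintro ⟨v, hv, hp, m, X, hm, hX, ht⟩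
        refine ⟨v, (fq_qu.1 hv).1, (fq_qu.1 hv).2, hp, m, hm, X, hX, ?_⟩
        rw [ht, ← fq_K]
      · rintro ⟨v, hv, hi, hp, m, hm, X, hX, ht⟩
        refine ⟨v, fq_qu.2 ⟨hv, hi⟩, hp, m, X, hm, hX, ?_⟩
        rw [ht, ← fq_K]
    rw [e]
    exact h6
  · have e : {t : ℝ | ∃ f, Stmt.Dens f ∧ t = -(∫ x, f x * Real.log (f x)) - (∫ x, x ^ 2 * f x) / 4} =
        {t : ℝ | ∃ f : ℝ → ℝ, Measurable f ∧ (∀ x, 0 ≤ f x) ∧ Integrable f ∧ ∫ x, f x = 1 ∧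
          Integrable (fun x => f x * Real.log (f x)) ∧ Integrable (fun x => x ^ 2 * f x) ∧
          t = -(∫ x, f x * Real.log (f x)) - (∫ x, x ^ 2 * f x) / 4} := by
      ext t
      constructor
      · rintro ⟨f, hf, ht⟩
        exact ⟨f, hf.meas, hf.nn, hf.int, hf.one, hf.ent, hf.sec, ht⟩
      · rintro ⟨f, a1, a2, a3, a4, a5, a6, ht⟩
        exact ⟨f, ⟨a1, a2, a3, a4, a5, a6⟩, ht⟩
    rw [e]
    exact h7

end Pool.Agent.NQF
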