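import Pool.Agent.NQF.Final

/-!
# NQF-Final2: the theorem, with bounds for the maximisers
-/

set_option autoImplicit false

open Finset

namespace Pool.Agent.NQF

open Filter Topology MeasureTheory

private theorem f2_qu {v : ℝ × ℝ → ℝ} :
    Stmt.Queenon v ↔ Queenon v ∧ Integrable (fun p => v p * Real.log (v p)) :=
  ⟨fun h => ⟨⟨h.meas, h.nn, h.out, h.int, h.row, h.col, h.sd, h.dd⟩, h.ent⟩,
    fun h => ⟨h.1.meas, h.1.nn, h.1.out, h.1.int, h.2, h.1.row, h.1.col, h.1.sd, h.1.dd⟩⟩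

private theorem f2_bd : ∃ w : ℝ × ℝ → ℝ, Stmt.Queenon w ∧
    (∀ v : ℝ × ℝ → ℝ, Stmt.Queenon v → Stmt.Phi v ≤ Stmt.Phi w ∧ (Stmt.Phi v = Stmt.Phi w → v =ᵐ[volume] w)) ∧
    ∃ L : ℝ, 0 < L ∧ ∀ p ∈ Set.Ico (0 : ℝ) 1 ×ˢ Set.Ico (0 : ℝ) 1, 1 / L ≤ w p ∧ w p ≤ L := by
  obtain ⟨L, C, n0, w, h⟩ := v_lim
  refine ⟨w, f2_qu.2 ⟨(v_qu h).1, (v_qu h).2⟩, fun v hv => ?_, L, lt_of_lt_of_le one_pos h.L1, fun p hp => ?_⟩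
  · exact v_opt h (f2_qu.1 hv).1 (f2_qu.1 hv).2
  · exact ⟨h.ql.lo p hp, h.ql.hi p hp⟩

theorem final2 : ∃ α c : ℝ,
    Tendsto (fun n : ℕ => (n * Real.log n - Real.log (Stmt.Q n)) / n) atTop (𝓝 α) ∧
    Tendsto (fun n : ℕ => Real.log (Stmt.Q n) - n * Real.log n + α * n - Real.log n / 2) atTop (𝓝 c) ∧
    Tendsto (fun n : ℕ => Stmt.Q n / (Real.exp c * Real.sqrt n * (n * Real.exp (-α)) ^ n)) atTop (𝓝 1) ∧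
    IsGreatest {t : ℝ | ∃ v, Stmt.Queenon v ∧ t = Stmt.Phi v} (1 - α) ∧
    (∀ v v', Stmt.Queenon v → Stmt.Queenon v' → Stmt.Phi v = 1 - α → Stmt.Phi v' = 1 - α → v =ᵐ[volume] v') ∧
    (∀ v, Stmt.Queenon v → Stmt.Phi v = 1 - α → ∃ L : ℝ, 0 < L ∧
      ∀ᵐ p : ℝ × ℝ, p ∈ Set.Ico (0 : ℝ) 1 ×ˢ Set.Ico (0 : ℝ) 1 → 1 / L ≤ v p ∧ v p ≤ L) ∧
    IsLUB {t : ℝ | ∃ v, Stmt.Queenon v ∧ Stmt.Phi v = 1 - α ∧
      ∃ (m : ℕ) (X : Matrix (Stmt.Line m) (Stmt.Line m) ℝ), 1 ≤ m ∧ X.PosDef ∧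
        t = Real.log (4 * Real.pi) / 2 + Stmt.K v m X} c ∧
    IsGreatest {t : ℝ | ∃ f, Stmt.Dens f ∧ t = -(∫ x, f x * Real.log (f x)) - (∫ x, x ^ 2 * f x) / 4}
      (Real.log (4 * Real.pi) / 2) := by
  obtain ⟨α, c, h1, h2, h3, h4, h5, h6, h7⟩ := final
  refine ⟨α, c, h1, h2, h3, h4, h5, fun v hv hPv => ?_, h6, h7⟩
  obtain ⟨w, hw, hopt, L, hL, hb⟩ := f2_bd
  obtain ⟨v0, hv0, hPv0⟩ := h4.1
  have e1 : Stmt.Phi w ≤ 1 - α := h4.2 ⟨w, hw, rfl⟩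
  have e2 : 1 - α ≤ Stmt.Phi w := by
    rw [hPv0]
    exact (hopt v0 hv0).1
  have e3 : Stmt.Phi v = Stmt.Phi w := by
    rw [hPv]
    exact le_antisymm e2 e1
  refine ⟨L, hL, ?_⟩
  filter_upwards [(hopt v hv).2 e3] with p hp hpm
  rw [hp]
  exact hb p hpm

end Pool.Agent.NQF
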