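import Pool.Agent.NQF.PDefs

/-!
# NQF-PEnt: a matrix as a line system with two lines per square
-/

set_option autoImplicit false

open Finset

namespace Pool.Agent.NQF.P

open Pool.Agent.NQL

theorem mem_L2 {l : Li} {e : ℤ × ℤ} : l ∈ L2 e ↔ l = (0, e.1) ∨ l = (1, e.2) := by
  rw [L2, mem_insert, mem_singleton]

theorem mem_I2 {l : Li} {R C : Finset ℤ} : l ∈ I2 R C ↔ (∃ x ∈ R, l = (0, x)) ∨ (∃ y ∈ C, l = (1, y)) := by
  rw [I2, mem_union, mem_image, mem_image]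
  constructor
  · rintro (⟨x, hx, h⟩ | ⟨y, hy, h⟩)
    · exact Or.inl ⟨x, hx, h.symm⟩
    · exact Or.inr ⟨y, hy, h.symm⟩
  · rintro (⟨x, hx, h⟩ | ⟨y, hy, h⟩)
    · exact Or.inl ⟨x, hx, h.symm⟩
    · exact Or.inr ⟨y, hy, h.symm⟩

theorem ga0 (x : ℤ) : ga (0, x) = 1 := by
  unfold ga
  simp

theorem ga1 (y : ℤ) : ga (1, y) = -1 := by
  unfold ga
  simp

theorem sum_L2 (e : ℤ × ℤ) (f : Li → ℝ) : ∑ l ∈ L2 e, f l = f (0, e.1) + f (1, e.2) := by
  rw [L2, sum_pair]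
  intro h
  exact zero_ne_one (congrArg Prod.fst h)

theorem sum_I2 (R C : Finset ℤ) (f : Li → ℝ) : ∑ l ∈ I2 R C, f l = ∑ x ∈ R, f (0, x) + ∑ y ∈ C, f (1, y) := by
  rw [I2, sum_union, sum_image, sum_image]
  · intro a _ b _ h
    exact congrArg Prod.snd h
  · intro a _ b _ h
    exact congrArg Prod.snd h
  · rw [disjoint_left]
    intro l h1 h2
    obtain ⟨x, _, rfl⟩ := mem_image.mp h1
    obtain ⟨y, _, h⟩ := mem_image.mp h2
    exact zero_ne_one (congrArg Prod.fst h).symm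

theorem dS_L2 (z : Li → ℝ) (e : ℤ × ℤ) : dS L2 z e = z (0, e.1) + z (1, e.2) := by
  rw [dS, sum_L2]

theorem sum_row {R C : Finset ℤ} {x : ℤ} (hx : x ∈ R) (f : ℤ × ℤ → ℝ) :
    ∑ e ∈ Sr L2 (R ×ˢ C) (0, x), f e = ∑ y ∈ C, f (x, y) := by
  have h1 : Sr L2 (R ×ˢ C) (0, x) = C.image (fun y => (x, y)) := by
    ext ⟨a, b⟩
    rw [Sr, mem_filter, mem_product, mem_L2, mem_image]
    constructor
    · rintro ⟨⟨ha, hb⟩, h | h⟩
      · have h2 : x = a := congrArg Prod.snd h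
        exact ⟨b, hb, by rw [h2]⟩
      · exact absurd (congrArg Prod.fst h) zero_ne_one
    · rintro ⟨y, hy, h⟩
      have h2 : x = a := congrArg Prod.fst h
      have h3 : y = b := congrArg Prod.snd h
      subst h2
      subst h3
      exact ⟨⟨hx, hy⟩, Or.inl rfl⟩
  rw [h1, sum_image]
  intro a _ b _ h
  exact congrArg Prod.snd h

theorem sum_col {R C : Finset ℤ} {y : ℤ} (hy : y ∈ C) (f : ℤ × ℤ → ℝ) :
    ∑ e ∈ Sr L2 (R ×ˢ C) (1, y), f e = ∑ x ∈ R, f (x, y) := by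
  have h1 : Sr L2 (R ×ˢ C) (1, y) = R.image (fun x => (x, y)) := by
    ext ⟨a, b⟩
    rw [Sr, mem_filter, mem_product, mem_L2, mem_image]
    constructor
    · rintro ⟨⟨ha, hb⟩, h | h⟩
      · exact absurd (congrArg Prod.fst h).symm zero_ne_one
      · have h2 : y = b := congrArg Prod.snd h
        exact ⟨a, ha, by rw [h2]⟩
    · rintro ⟨x, hx, h⟩
      have h2 : x = a := congrArg Prod.fst h
      have h3 : y = b := congrArg Prod.snd h
      subst h2
      subst h3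
      exact ⟨⟨hx, hy⟩, Or.inr rfl⟩
  rw [h1, sum_image]
  intro a _ b _ h
  exact congrArg Prod.fst h

theorem sd_L2 (R C : Finset ℤ) (x y : ℤ) : Sd L2 (R ×ˢ C) (x, y) = (R.erase x) ×ˢ (C.erase y) := by
  ext ⟨a, b⟩
  rw [Sd, mem_filter, mem_product, mem_product, mem_erase, mem_erase, disjoint_left]
  constructor
  · rintro ⟨⟨ha, hb⟩, h⟩
    refine ⟨⟨?_, ha⟩, ⟨?_, hb⟩⟩
    · rintro rfl
      exact h (mem_L2.mpr (Or.inl rfl)) (mem_L2.mpr (Or.inl rfl))
    · rintro rfl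
      exact h (mem_L2.mpr (Or.inr rfl)) (mem_L2.mpr (Or.inr rfl))
  · rintro ⟨⟨ha', ha⟩, hb', hb⟩
    refine ⟨⟨ha, hb⟩, ?_⟩
    intro l h1 h2
    rcases mem_L2.mp h1 with h1 | h1
    · subst h1
      rcases mem_L2.mp h2 with h2 | h2
      · exact ha' (congrArg Prod.snd h2)
      · exact zero_ne_one (congrArg Prod.fst h2)
    · subst h1
      rcases mem_L2.mp h2 with h2 | h2
      · exact zero_ne_one (congrArg Prod.fst h2).symm
      · exact hb' (congrArg Prod.snd h2)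

theorem i2_L2 (R C : Finset ℤ) (x y : ℤ) : I2 R C \ L2 (x, y) = I2 (R.erase x) (C.erase y) := by
  ext ⟨i, a⟩
  rw [mem_sdiff, mem_I2, mem_I2, mem_L2]
  constructor
  · rintro ⟨⟨a', ha, h⟩ | ⟨b', hb, h⟩, hn⟩
    · refine Or.inl ⟨a', mem_erase.mpr ⟨?_, ha⟩, h⟩
      rintro rfl
      exact hn (Or.inl h)
    · refine Or.inr ⟨b', mem_erase.mpr ⟨?_, hb⟩, h⟩
      rintro rfl
      exact hn (Or.inr h)
  · rintro (⟨a', ha, h⟩ | ⟨b', hb, h⟩)
    · rw [mem_erase] at ha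
      refine ⟨Or.inl ⟨a', ha.2, h⟩, ?_⟩
      rw [h]
      rintro (h' | h')
      · exact ha.1 (congrArg Prod.snd h')
      · exact zero_ne_one (congrArg Prod.fst h')
    · rw [mem_erase] at hb
      refine ⟨Or.inr ⟨b', hb.2, h⟩, ?_⟩
      rw [h]
      rintro (h' | h')
      · exact zero_ne_one (congrArg Prod.fst h').symm
      · exact hb.1 (congrArg Prod.snd h')

theorem aa00 (R C : Finset ℤ) (w : ℤ × ℤ → ℝ) (m : ℕ) (x x' : ℤ) :
    AA L2 (R ×ˢ C) w ga m (0, x) (0, x') = (if x = x' then 1 else 0) + 1 / (2 * m) := by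
  have h1 : MM L2 (R ×ˢ C) w (0, x) (0, x') = 0 := by
    unfold MM
    split_ifs with h
    · rfl
    · apply sum_eq_zero
      intro e he
      exfalso
      rw [mem_filter, mem_L2, mem_L2] at he
      rcases he.2.1 with h1 | h1
      · rcases he.2.2 with h2 | h2
        · exact h (h1.trans h2.symm)
        · exact zero_ne_one (congrArg Prod.fst h2)
      · exact zero_ne_one (congrArg Prod.fst h1)
  have h2 : (((0 : Fin 4), x) = ((0 : Fin 4), x')) ↔ x = x' :=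
    ⟨fun h => congrArg Prod.snd h, fun h => by rw [h]⟩
  rw [AA, h1, ga0, ga0]
  simp only [h2]
  ring

theorem aa11 (R C : Finset ℤ) (w : ℤ × ℤ → ℝ) (m : ℕ) (y y' : ℤ) :
    AA L2 (R ×ˢ C) w ga m (1, y) (1, y') = (if y = y' then 1 else 0) + 1 / (2 * m) := by
  have h1 : MM L2 (R ×ˢ C) w (1, y) (1, y') = 0 := by
    unfold MM
    split_ifs with h
    · rfl
    · apply sum_eq_zero
      intro e he
      exfalso
      rw [mem_filter, mem_L2, mem_L2] at he
      rcases he.2.1 with h1 | h1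
      · exact zero_ne_one (congrArg Prod.fst h1).symm
      · rcases he.2.2 with h2 | h2
        · exact zero_ne_one (congrArg Prod.fst h2).symm
        · exact h (h1.trans h2.symm)
  have h2 : (((1 : Fin 4), y) = ((1 : Fin 4), y')) ↔ y = y' :=
    ⟨fun h => congrArg Prod.snd h, fun h => by rw [h]⟩
  rw [AA, h1, ga1, ga1]
  simp only [h2]
  ring

private theorem mm01 {R C : Finset ℤ} (w : ℤ × ℤ → ℝ) {x y : ℤ} (hx : x ∈ R) (hy : y ∈ C) :
    MM L2 (R ×ˢ C) w (0, x) (1, y) = w (x, y) := by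
  rw [MM, if_neg (fun h => zero_ne_one (congrArg Prod.fst h))]
  have h1 : (R ×ˢ C).filter (fun e => ((0 : Fin 4), x) ∈ L2 e ∧ ((1 : Fin 4), y) ∈ L2 e) = {(x, y)} := by
    ext ⟨a, b⟩
    rw [mem_filter, mem_L2, mem_L2, mem_product, mem_singleton]
    constructor
    · rintro ⟨_, h1, h2⟩
      rcases h1 with h1 | h1
      · rcases h2 with h2 | h2
        · exact absurd (congrArg Prod.fst h2).symm zero_ne_one
        · have h3 : x = a := congrArg Prod.snd h1
          have h4 : y = b := congrArg Prod.snd h2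
          rw [h3, h4]
      · exact absurd (congrArg Prod.fst h1) zero_ne_one
    · intro h
      have h3 : a = x := congrArg Prod.fst h
      have h4 : b = y := congrArg Prod.snd h
      subst h3
      subst h4
      exact ⟨⟨hx, hy⟩, Or.inl rfl, Or.inr rfl⟩
  rw [h1, sum_singleton]

private theorem mm10 {R C : Finset ℤ} (w : ℤ × ℤ → ℝ) {x y : ℤ} (hx : x ∈ R) (hy : y ∈ C) :
    MM L2 (R ×ˢ C) w (1, y) (0, x) = w (x, y) := by
  rw [← mm01 w hx hy, MM, MM, if_neg (fun h => zero_ne_one (congrArg Prod.fst h).symm),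
    if_neg (fun h => zero_ne_one (congrArg Prod.fst h))]
  refine sum_congr (filter_congr fun e _ => and_comm) fun _ _ => rfl

theorem aa01 {R C : Finset ℤ} (w : ℤ × ℤ → ℝ) (m : ℕ) {x y : ℤ} (hx : x ∈ R) (hy : y ∈ C) :
    AA L2 (R ×ˢ C) w ga m (0, x) (1, y) = w (x, y) - 1 / (2 * m) := by
  rw [AA, mm01 w hx hy, ga0, ga1, if_neg (fun h => zero_ne_one (congrArg Prod.fst h))]
  ring

theorem aa10 {R C : Finset ℤ} (w : ℤ × ℤ → ℝ) (m : ℕ) {x y : ℤ} (hx : x ∈ R) (hy : y ∈ C) :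
    AA L2 (R ×ˢ C) w ga m (1, y) (0, x) = w (x, y) - 1 / (2 * m) := by
  rw [AA, mm10 w hx hy, ga0, ga1, if_neg (fun h => zero_ne_one (congrArg Prod.fst h).symm)]
  ring

/-- the second order value only depends on the entries in `R × C` -/
theorem vp_congr {m : ℕ} {w w' : ℤ × ℤ → ℝ} {R C : Finset ℤ} (h : ∀ x ∈ R, ∀ y ∈ C, w (x, y) = w' (x, y)) :
    Vp m w R C = Vp m w' R C := by
  have h1 : LD (I2 R C) (AA L2 (R ×ˢ C) w ga m) = LD (I2 R C) (AA L2 (R ×ˢ C) w' ga m) := by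
    unfold LD
    congr 2
    ext i j
    show AA L2 (R ×ˢ C) w ga m i j = AA L2 (R ×ˢ C) w' ga m i j
    unfold AA MM
    congr 2
    split_ifs with hij
    · rfl
    · refine sum_congr rfl fun e he => ?_
      obtain ⟨a, b⟩ := e
      have h2 := mem_product.mp (mem_filter.mp he).1
      exact h a h2.1 b h2.2
  rw [Vp, Vp, h1]

end Pool.Agent.NQF.P
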