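import Mathlib

/-!
# NQF-PNum: numerical facts
-/

set_option autoImplicit false

open Finset

namespace Pool.Agent.NQF.P

theorem num_k (A D : ℝ) (hA : 0 ≤ A) (hD : 1 ≤ D) : ∃ M0 : ℕ, 2 ≤ M0 ∧ ∀ M : ℕ, M0 ≤ M →
    ∃ k : ℕ, A * Real.log M ≤ k ∧ D * ((k : ℝ) + 3) ≤ M := by
  refine ⟨⌈(2 * D * A + 4 * D) ^ 2⌉₊ + 2, by omega, fun M hM => ?_⟩
  have hM1 : (1 : ℝ) ≤ M := by
    have : 1 ≤ M := by omega
    exact_mod_cast this
  have hM2 : (2 * D * A + 4 * D) ^ 2 ≤ (M : ℝ) := by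
    refine (Nat.le_ceil _).trans ?_
    have : ⌈(2 * D * A + 4 * D) ^ 2⌉₊ ≤ M := by omega
    exact_mod_cast this
  have hs : 2 * D * A + 4 * D ≤ Real.sqrt M := Real.le_sqrt_of_sq_le hM2
  have hs1 : 1 ≤ Real.sqrt M := Real.one_le_sqrt.2 hM1
  have hss : Real.sqrt M * Real.sqrt M = M := Real.mul_self_sqrt (by linarith)
  have hlog0 : 0 ≤ Real.log M := Real.log_nonneg hM1
  have hlog : Real.log M ≤ 2 * Real.sqrt M := by
    have h1 : Real.log (Real.sqrt M) = Real.log M / 2 := Real.log_sqrt (by linarith)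
    have h2 := Real.log_le_sub_one_of_pos (show 0 < Real.sqrt M by linarith)
    linarith
  refine ⟨⌈A * Real.log M⌉₊, Nat.le_ceil _, ?_⟩
  have hk : ((⌈A * Real.log M⌉₊ : ℕ) : ℝ) < A * Real.log M + 1 :=
    Nat.ceil_lt_add_one (mul_nonneg hA hlog0)
  have h3 : A * Real.log M ≤ A * (2 * Real.sqrt M) := mul_le_mul_of_nonneg_left hlog hA
  have hD0 : 0 ≤ D := by linarith
  calc D * (((⌈A * Real.log M⌉₊ : ℕ) : ℝ) + 3) ≤ D * (A * (2 * Real.sqrt M) + 4 * Real.sqrt M) := by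
        refine mul_le_mul_of_nonneg_left ?_ hD0
        linarith
    _ = (2 * D * A + 4 * D) * Real.sqrt M := by ring
    _ ≤ Real.sqrt M * Real.sqrt M := mul_le_mul_of_nonneg_right hs (by linarith)
    _ = M := hss

private theorem pn_mono : Monotone (fun k : ℕ =>
    Real.log (Stirling.stirlingSeq (k + 1)) - 1 / (12 * ((k : ℝ) + 1))) := by
  refine monotone_nat_of_le_succ fun k => ?_
  have h := Stirling.log_stirlingSeq_sdiff_le (k + 1)
  push_cast at h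
  have e : 1 / (12 * ((k : ℝ) + 1) * ((k : ℝ) + 1 + 1)) =
      1 / (12 * ((k : ℝ) + 1)) - 1 / (12 * ((k : ℝ) + 1 + 1)) := by
    have h1 : (k : ℝ) + 1 ≠ 0 := by positivity
    have h2 : (k : ℝ) + 1 + 1 ≠ 0 := by positivity
    field_simp
    ring
  rw [e] at h
  push_cast
  linarith

private theorem pn_lim : Filter.Tendsto (fun k : ℕ =>
    Real.log (Stirling.stirlingSeq (k + 1)) - 1 / (12 * ((k : ℝ) + 1))) Filter.atTop
    (nhds (Real.log (Real.sqrt Real.pi))) := by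
  have h1 : Filter.Tendsto (fun k : ℕ => Real.log (Stirling.stirlingSeq (k + 1))) Filter.atTop
      (nhds (Real.log (Real.sqrt Real.pi))) :=
    (Stirling.tendsto_stirlingSeq_sqrt_pi.comp (Filter.tendsto_add_atTop_nat 1)).log
      (Real.sqrt_pos.2 Real.pi_pos).ne'
  have h2 : Filter.Tendsto (fun k : ℕ => (1 / 12 : ℝ) * (1 / ((k : ℝ) + 1))) Filter.atTop
      (nhds (1 / 12 * 0)) :=
    (tendsto_one_div_add_atTop_nhds_zero_nat (𝕜 := ℝ)).const_mul (1 / 12 : ℝ)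
  have h3 := h1.sub h2
  rw [mul_zero, sub_zero] at h3
  refine h3.congr fun k => ?_
  have h4 : (k : ℝ) + 1 ≠ 0 := by positivity
  congr 1
  field_simp

theorem stirl {m : ℕ} (hm : 1 ≤ m) :
    |Real.log (m.factorial : ℝ) - (m * Real.log m - m + Real.log (2 * Real.pi * m) / 2)| ≤ 1 / m := by
  obtain ⟨k, rfl⟩ : ∃ k, m = k + 1 := ⟨m - 1, by omega⟩
  have hup := pn_mono.ge_of_tendsto pn_lim k
  have hlow : Real.log (Real.sqrt Real.pi) ≤ Real.log (Stirling.stirlingSeq (k + 1)) :=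
    Real.log_le_log (Real.sqrt_pos.2 Real.pi_pos) (Stirling.sqrt_pi_le_stirlingSeq (by omega))
  have hf := Stirling.log_stirlingSeq_formula (k + 1)
  have hm0 : (0 : ℝ) < ((k + 1 : ℕ) : ℝ) := by positivity
  have e1 : Real.log (((k + 1 : ℕ) : ℝ) / Real.exp 1) = Real.log ((k + 1 : ℕ) : ℝ) - 1 := by
    rw [Real.log_div hm0.ne' (Real.exp_pos 1).ne', Real.log_exp]
  have e2 : Real.log (2 * ((k + 1 : ℕ) : ℝ)) = Real.log 2 + Real.log ((k + 1 : ℕ) : ℝ) :=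
    Real.log_mul two_ne_zero hm0.ne'
  have e3 : Real.log (2 * Real.pi * ((k + 1 : ℕ) : ℝ)) =
      Real.log 2 + Real.log Real.pi + Real.log ((k + 1 : ℕ) : ℝ) := by
    rw [Real.log_mul (mul_ne_zero two_ne_zero Real.pi_pos.ne') hm0.ne',
      Real.log_mul two_ne_zero Real.pi_pos.ne']
  have e4 : Real.log (Real.sqrt Real.pi) = Real.log Real.pi / 2 :=
    Real.log_sqrt Real.pi_pos.le
  rw [e1, e2] at hf
  have hd : Real.log (((k + 1).factorial : ℕ) : ℝ) - (((k + 1 : ℕ) : ℝ) * Real.log ((k + 1 : ℕ) : ℝ) -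
      ((k + 1 : ℕ) : ℝ) + Real.log (2 * Real.pi * ((k + 1 : ℕ) : ℝ)) / 2) =
      Real.log (Stirling.stirlingSeq (k + 1)) - Real.log (Real.sqrt Real.pi) := by
    rw [hf, e3, e4]
    ring
  rw [hd, abs_le]
  have h5 : (0 : ℝ) < 1 / ((k + 1 : ℕ) : ℝ) := by positivity
  have h6 : 1 / (12 * ((k : ℝ) + 1)) ≤ 1 / ((k + 1 : ℕ) : ℝ) := by
    push_cast
    refine one_div_le_one_div_of_le (by positivity) ?_
    have : (0 : ℝ) ≤ k := Nat.cast_nonneg k
    linarith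
  constructor
  · linarith
  · linarith

end Pool.Agent.NQF.P
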