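import Pool.Agent.NQF.PPeP
import Pool.Agent.NQF.PEnt
import Pool.Agent.NQF.PNum

/-!
# NQF-PUni: the uniform matrix

PLAN. `pe = m! / m^m`: `ex_enum`, `pe_perm`, `Fintype.card_perm`. `LD`: for `w = 1/m` the entries `aa00`, `aa11`, `aa01`, `aa10` say
`AA l l' = (if l = l' then 1 else 0) + 1/(2 m)` for all `l, l' ∈ I2 R C` (`1/m - 1/(2 m) = 1/(2 m)`), i.e. `A = 1 + col * row`, and
`det (1 + u vᵀ) = 1 + vᵀ u` (`Matrix.det_one_add_replicateCol_mul_replicateRow`) `= 1 + 2 m/(2 m) = 2`, the number of lines is `2 m`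
(`sum_I2` with `f = 1`). So `Vp = -m + log (4 π m)/2 - log 2/2 = -m + log (2 π m)/2`, and
`log Ee = log m! - m log m + m - log (2 π m)/2`, use `stirl`.
-/

set_option autoImplicit false

open Finset

namespace Pool.Agent.NQF.P

open Pool.Agent.NQL

private theorem pe_uni {m : ℕ} {R C : Finset ℤ} (hR : R.card = m) (hC : C.card = m) :
    pe (fun _ => 1 / (m : ℝ)) R C = (m.factorial : ℝ) / (m : ℝ) ^ m := by
  obtain ⟨ι, hι, hιR⟩ := ex_enum hR
  obtain ⟨κ, hκ, hκC⟩ := ex_enum hC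
  rw [pe_perm _ hι hκ hιR hκC]
  simp only [Finset.prod_const, Finset.card_univ, Fintype.card_fin, Finset.sum_const,
    Fintype.card_perm, nsmul_eq_mul]
  rw [div_pow, one_pow, mul_one_div]

private theorem aa_uni {m : ℕ} (hm : 1 ≤ m) (R C : Finset ℤ) (l l' : Li) (hl : l ∈ I2 R C)
    (hl' : l' ∈ I2 R C) :
    AA L2 (R ×ˢ C) (fun _ => 1 / (m : ℝ)) ga m l l' = (if l = l' then 1 else 0) + 1 / (2 * m) := by
  have hm0 : (m : ℝ) ≠ 0 := Nat.cast_ne_zero.2 (by omega)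
  have hx : (1 : ℝ) / m - 1 / (2 * m) = 0 + 1 / (2 * m) := by
    field_simp
    norm_num
  rcases mem_I2.1 hl with ⟨x, hx1, rfl⟩ | ⟨y, hy1, rfl⟩
  · rcases mem_I2.1 hl' with ⟨x', hx2, rfl⟩ | ⟨y', hy2, rfl⟩
    · rw [aa00]
      have h2 : (((0 : Fin 4), x) = ((0 : Fin 4), x')) ↔ x = x' :=
        ⟨fun h => congrArg Prod.snd h, fun h => by rw [h]⟩
      simp only [h2]
    · rw [aa01 _ m hx1 hy2, if_neg (fun h => zero_ne_one (congrArg Prod.fst h)), hx]
  · rcases mem_I2.1 hl' with ⟨x', hx2, rfl⟩ | ⟨y', hy2, rfl⟩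
    · rw [aa10 _ m hx2 hy1, if_neg (fun h => zero_ne_one (congrArg Prod.fst h).symm), hx]
    · rw [aa11]
      have h2 : (((1 : Fin 4), y) = ((1 : Fin 4), y')) ↔ y = y' :=
        ⟨fun h => congrArg Prod.snd h, fun h => by rw [h]⟩
      simp only [h2]

private theorem ld_uni {m : ℕ} (hm : 1 ≤ m) {R C : Finset ℤ} (hR : R.card = m)
    (hC : C.card = m) :
    LD (I2 R C) (AA L2 (R ×ˢ C) (fun _ => 1 / (m : ℝ)) ga m) = Real.log 2 := by
  have hm0 : (m : ℝ) ≠ 0 := Nat.cast_ne_zero.2 (by omega)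
  unfold LD
  have h1 : (Matrix.of (fun i j : I2 R C => AA L2 (R ×ˢ C) (fun _ => 1 / (m : ℝ)) ga m i j)) =
      1 + Matrix.replicateCol Unit (fun _ : I2 R C => (1 : ℝ)) *
        Matrix.replicateRow Unit (fun _ : I2 R C => (1 / (2 * m) : ℝ)) := by
    ext i j
    rw [Matrix.of_apply, aa_uni hm R C i j i.2 j.2, Matrix.add_apply, Matrix.mul_apply,
      Matrix.one_apply]
    simp only [Matrix.replicateCol_apply, Matrix.replicateRow_apply, one_mul,
      Finset.univ_unique, Finset.sum_singleton]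
    congr 1
    simp only [Subtype.ext_iff]
  rw [h1, Matrix.det_one_add_replicateCol_mul_replicateRow]
  have h2 : ((fun _ : I2 R C => (1 / (2 * m) : ℝ)) ⬝ᵥ fun _ : I2 R C => (1 : ℝ)) = 1 := by
    unfold dotProduct
    have h3 := sum_I2 R C (fun _ => (1 / (2 * m) * 1 : ℝ))
    rw [← Finset.sum_coe_sort (I2 R C)] at h3
    rw [h3]
    simp only [Finset.sum_const, hR, hC, nsmul_eq_mul]
    field_simp
    norm_num
  rw [h2]
  norm_num

theorem uni {m : ℕ} (hm : 1 ≤ m) {R C : Finset ℤ} (hR : R.card = m) (hC : C.card = m) :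
    |Real.log (Ee m (fun _ => 1 / (m : ℝ)) R C)| ≤ 1 / m := by
  have hm0 : (0 : ℝ) < (m : ℝ) := Nat.cast_pos.2 (by omega)
  have hf : (0 : ℝ) < (m.factorial : ℝ) := Nat.cast_pos.2 (Nat.factorial_pos m)
  have hp : (0 : ℝ) < (m : ℝ) ^ m := pow_pos hm0 m
  unfold Ee
  rw [pe_uni hR hC, Real.log_mul (div_pos hf hp).ne' (Real.exp_pos _).ne', Real.log_exp,
    Real.log_div hf.ne' hp.ne', Real.log_pow]
  unfold Vp
  rw [ld_uni hm hR hC]
  have h := stirl hm
  have h4 : Real.log (4 * Real.pi * m) = Real.log 2 + Real.log (2 * Real.pi * m) := by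
    rw [← Real.log_mul (by norm_num) (by positivity)]
    congr 1
    ring
  rw [h4]
  have h5 : Real.log (m.factorial : ℝ) - m * Real.log m +
      -(-(m : ℝ) + (Real.log 2 + Real.log (2 * Real.pi * m)) / 2 - Real.log 2 / 2) =
      Real.log (m.factorial : ℝ) - (m * Real.log m - m + Real.log (2 * Real.pi * m) / 2) := by
    ring
  rw [h5]
  exact h

end Pool.Agent.NQF.P
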