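import Pool.Agent.NQF.PPthB
import Pool.Agent.NQF.PUni

/-!
# NQF-PAsm: the permanent asymptotics (assembly, proved over the statements)
-/

set_option autoImplicit false

open Finset

namespace Pool.Agent.NQF

open Pool.Agent.NQL

/-- THEOREM of block P: the permanent of a doubly stochastic matrix up to the factor `1 + O(1/m)` -/
theorem perm_asym' (hLS : P.LsP) (K c : ℝ) (hK : 1 ≤ K) (hc : 0 < c) : ∃ (C : ℝ) (m0 : ℕ), ∀ (m : ℕ) (R C' : Finset ℤ)
    (w : ℤ × ℤ → ℝ), m0 ≤ m → Ds K c m w R C' → 0 < pe w R C' ∧ |Real.log (pe w R C') - Vp m w R C'| ≤ C / m := by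
  obtain ⟨c', hc'0, hc'1, hc'c⟩ : ∃ c' : ℝ, 0 < c' ∧ c' ≤ 1 ∧ c' ≤ c := ⟨min c 1, lt_min hc one_pos, min_le_right _ _,
    min_le_left _ _⟩
  obtain ⟨B, hB, hapr⟩ := P.apr hK hc'0 hc'1
  obtain ⟨C7, m7, hC7, hm7, hpath⟩ := P.path hLS hK hc'0 hc'1
  refine ⟨C7 + 1, m7, fun m R C' w hm hw => ?_⟩
  have hm0 : (0 : ℝ) < m := by
    have : 0 < m := by omega
    exact_mod_cast this
  have hw' : Ds K c' m w R C' := by
    refine ⟨hw.cR, hw.cC, hw.nn, hw.up, hw.row, hw.col, fun x hx x' hx' hne => ?_, fun y hy y' hy' hne => ?_⟩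
    · exact (div_le_div_of_nonneg_right hc'c hm0.le).trans (hw.gr x hx x' hx' hne)
    · exact (div_le_div_of_nonneg_right hc'c hm0.le).trans (hw.gc y hy y' hy' hne)
  obtain ⟨h1, h2, -⟩ := hapr m w R C' (by omega) hw'
  refine ⟨h1, ?_⟩
  have h3 := hpath m w R C' hm hw'
  have h4 := P.uni (by omega : 1 ≤ m) hw.cR hw.cC
  have h5 : Real.log (P.Ee m w R C') = Real.log (pe w R C') - Vp m w R C' := by
    unfold P.Ee
    rw [Real.log_mul h1.ne' (Real.exp_pos _).ne', Real.log_exp]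
    ring
  rw [← h5]
  have h6 : |Real.log (P.Ee m w R C')| ≤ |Real.log (P.Ee m w R C') - Real.log (P.Ee m (fun _ => 1 / (m : ℝ)) R C')| +
      |Real.log (P.Ee m (fun _ => 1 / (m : ℝ)) R C')| := by
    have := abs_add_le (Real.log (P.Ee m w R C') - Real.log (P.Ee m (fun _ => 1 / (m : ℝ)) R C'))
      (Real.log (P.Ee m (fun _ => 1 / (m : ℝ)) R C'))
    rwa [sub_add_cancel] at this
  rw [add_div]
  linarith

end Pool.Agent.NQF
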