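import Mathlib

/-!
# NQF-PElm: the elementary contraction inequality

PLAN. `contr`: `S` is nonempty (`∑ p ≥ 1 - ε > 0`); let `μ` be the minimum of `U` on `S` (`Finset.exists_min_image`), attained at `j`; `μ ≥ 0`,
`U i ≤ ρ μ` for all `i`. `r = min p q`, `s = ∑ r ≥ c2`, `A = ∑ r U ≥ μ s`. `∑ p U = A + ∑ (p - r) U ≤ A + ρ μ (1 + ε - s)`,
`∑ q U ≥ A + μ (1 - ε - s)` (`∑ (q - r) = ∑ q - s ≥ 1 - ε - s`, and `U ≥ μ`). Put `λ = (1 + ε + (1 + ε - c2)(ρ - 1))/(1 - ε) ≥ 1`.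
`λ (A + μ (1 - ε - s)) - (A + ρ μ (1 + ε - s)) = (λ - 1)(A - μ s) + μ (λ (1 - ε) - (1 + ε) - (1 + ε - s)(ρ - 1))`
(check: `ring` after `A = (A - μ s) + μ s`), and the last bracket is `(s - c2)(ρ - 1) ≥ 0`. All terms are nonnegative.
`ovl`: `min (p i) (q i) ≥ (3/4) (4/5) min (J1 i) (J2 i) = (3/5) min`, and `J1 i * J2 i ≤ (K/M) min (J1 i) (J2 i)`; so
`∑ min p q ≥ (3/5)(M/K) ∑ J1 J2 ≥ (3/5)(M/K)(c/M) ≥ c/(2 K)`.
-/

set_option autoImplicit false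

open Finset

namespace Pool.Agent.NQF.P

theorem contr {S : Finset ℤ} {p q U : ℤ → ℝ} {ε c2 ρ : ℝ} (hp : ∀ i ∈ S, 0 ≤ p i) (hq : ∀ i ∈ S, 0 ≤ q i)
    (hU : ∀ i ∈ S, 0 ≤ U i) (hε : 0 ≤ ε) (hε1 : ε < 1) (hρ : 1 ≤ ρ) (hc2 : 0 ≤ c2) (hps : |∑ i ∈ S, p i - 1| ≤ ε)
    (hqs : |∑ i ∈ S, q i - 1| ≤ ε) (hov : c2 ≤ ∑ i ∈ S, min (p i) (q i))
    (hr : ∀ i ∈ S, ∀ j ∈ S, i ≠ j → U i ≤ ρ * U j) :
    ∑ i ∈ S, p i * U i ≤ (1 + ε + (1 + ε - c2) * (ρ - 1)) / (1 - ε) * ∑ i ∈ S, q i * U i := by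
  have hps' := abs_le.1 hps
  have hqs' := abs_le.1 hqs
  have hne : S.Nonempty := by
    by_contra h
    rw [Finset.not_nonempty_iff_eq_empty] at h
    rw [h, sum_empty] at hps'
    linarith [hps'.1]
  obtain ⟨j, hj, hmin⟩ := exists_min_image S U hne
  set μ : ℝ := U j with hμ
  have hμ0 : 0 ≤ μ := hU j hj
  have hUρ : ∀ i ∈ S, U i ≤ ρ * μ := by
    intro i hi
    by_cases hij : i = j
    · rw [hij]
      nlinarith
    · exact hr i hi j hj hij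
  set s : ℝ := ∑ i ∈ S, min (p i) (q i) with hs
  set A : ℝ := ∑ i ∈ S, min (p i) (q i) * U i with hA
  have hA1 : μ * s ≤ A := by
    rw [hs, hA, mul_sum]
    refine sum_le_sum (fun i hi => ?_)
    rw [mul_comm]
    exact mul_le_mul_of_nonneg_left (hmin i hi) (le_min (hp i hi) (hq i hi))
  have h1 : ∑ i ∈ S, p i * U i ≤ A + ρ * μ * (1 + ε - s) := by
    have e1 : ∑ i ∈ S, p i * U i = A + ∑ i ∈ S, (p i - min (p i) (q i)) * U i := by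
      rw [hA, ← sum_add_distrib]
      exact sum_congr rfl (fun i _ => by ring)
    have e2 : ∑ i ∈ S, (p i - min (p i) (q i)) * U i ≤ ∑ i ∈ S, (p i - min (p i) (q i)) * (ρ * μ) :=
      sum_le_sum (fun i hi => mul_le_mul_of_nonneg_left (hUρ i hi) (by linarith [min_le_left (p i) (q i)]))
    have e3 : ∑ i ∈ S, (p i - min (p i) (q i)) * (ρ * μ) = (∑ i ∈ S, p i - s) * (ρ * μ) := by
      rw [← sum_mul, sum_sub_distrib]
    have e4 : (∑ i ∈ S, p i - s) * (ρ * μ) ≤ (1 + ε - s) * (ρ * μ) :=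
      mul_le_mul_of_nonneg_right (by linarith [hps'.2]) (by positivity)
    rw [e1]
    linarith
  have h2 : A + μ * (1 - ε - s) ≤ ∑ i ∈ S, q i * U i := by
    have e1 : ∑ i ∈ S, q i * U i = A + ∑ i ∈ S, (q i - min (p i) (q i)) * U i := by
      rw [hA, ← sum_add_distrib]
      exact sum_congr rfl (fun i _ => by ring)
    have e2 : ∑ i ∈ S, (q i - min (p i) (q i)) * μ ≤ ∑ i ∈ S, (q i - min (p i) (q i)) * U i :=
      sum_le_sum (fun i hi => mul_le_mul_of_nonneg_left (hmin i hi) (by linarith [min_le_right (p i) (q i)]))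
    have e3 : ∑ i ∈ S, (q i - min (p i) (q i)) * μ = (∑ i ∈ S, q i - s) * μ := by
      rw [← sum_mul, sum_sub_distrib]
    have e4 : (1 - ε - s) * μ ≤ (∑ i ∈ S, q i - s) * μ :=
      mul_le_mul_of_nonneg_right (by linarith [hqs'.1]) hμ0
    rw [e1]
    linarith
  have hsle : s ≤ 1 + ε := by
    have : s ≤ ∑ i ∈ S, p i := sum_le_sum (fun i _ => min_le_left _ _)
    linarith [hps'.2]
  set lam : ℝ := (1 + ε + (1 + ε - c2) * (ρ - 1)) / (1 - ε) with hlam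
  have hε2 : 0 < 1 - ε := by linarith
  have hl1 : lam * (1 - ε) = 1 + ε + (1 + ε - c2) * (ρ - 1) := div_mul_cancel₀ _ hε2.ne'
  have hc3 : 0 ≤ 1 + ε - c2 := by linarith
  have hlam1 : 1 ≤ lam := by
    rw [hlam, le_div_iff₀ hε2]
    nlinarith [mul_nonneg hc3 (sub_nonneg.2 hρ)]
  have hlam0 : 0 ≤ lam := by linarith
  have h3 : A + ρ * μ * (1 + ε - s) ≤ lam * (A + μ * (1 - ε - s)) := by
    have e : lam * (A + μ * (1 - ε - s)) - (A + ρ * μ * (1 + ε - s)) =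
        (lam - 1) * (A - μ * s) + μ * (lam * (1 - ε) - (1 + ε) - (1 + ε - s) * (ρ - 1)) := by ring
    have e2 : lam * (1 - ε) - (1 + ε) - (1 + ε - s) * (ρ - 1) = (s - c2) * (ρ - 1) := by
      rw [hl1]
      ring
    have e3 : 0 ≤ (lam - 1) * (A - μ * s) := mul_nonneg (by linarith) (by linarith)
    have e4 : 0 ≤ μ * ((s - c2) * (ρ - 1)) := mul_nonneg hμ0 (mul_nonneg (by linarith) (by linarith))
    rw [e2] at e
    linarith
  have h4 : lam * (A + μ * (1 - ε - s)) ≤ lam * ∑ i ∈ S, q i * U i := mul_le_mul_of_nonneg_left h2 hlam0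
  linarith

theorem ovl {S : Finset ℤ} {J1 J2 w1 w2 p q : ℤ → ℝ} {K c M : ℝ} (hK : 0 < K) (hM : 0 < M) (hc : 0 ≤ c)
    (h1 : ∀ i ∈ S, 0 ≤ J1 i) (h2 : ∀ i ∈ S, 0 ≤ J2 i) (h1' : ∀ i ∈ S, J1 i ≤ K / M) (h2' : ∀ i ∈ S, J2 i ≤ K / M)
    (hc' : c / M ≤ ∑ i ∈ S, J1 i * J2 i) (hw1 : ∀ i ∈ S, 4 / 5 * J1 i ≤ w1 i) (hw2 : ∀ i ∈ S, 4 / 5 * J2 i ≤ w2 i)
    (hp : ∀ i ∈ S, |p i - w1 i| ≤ 1 / 4 * w1 i) (hq : ∀ i ∈ S, |q i - w2 i| ≤ 1 / 4 * w2 i) :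
    (∀ i ∈ S, 0 ≤ p i) ∧ (∀ i ∈ S, 0 ≤ q i) ∧ c / (2 * K) ≤ ∑ i ∈ S, min (p i) (q i) := by
  have hp1 : ∀ i ∈ S, 3 / 5 * J1 i ≤ p i := by
    intro i hi
    have := (abs_le.1 (hp i hi)).1
    linarith [hw1 i hi]
  have hq1 : ∀ i ∈ S, 3 / 5 * J2 i ≤ q i := by
    intro i hi
    have := (abs_le.1 (hq i hi)).1
    linarith [hw2 i hi]
  refine ⟨fun i hi => by linarith [hp1 i hi, h1 i hi], fun i hi => by linarith [hq1 i hi, h2 i hi], ?_⟩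
  have hmin : ∀ i ∈ S, 3 / 5 * (M / K) * (J1 i * J2 i) ≤ min (p i) (q i) := by
    intro i hi
    have hKM : 0 ≤ K / M := by positivity
    have e1 : (M / K) * (J1 i * J2 i) ≤ J1 i := by
      have : J1 i * J2 i ≤ J1 i * (K / M) := mul_le_mul_of_nonneg_left (h2' i hi) (h1 i hi)
      calc (M / K) * (J1 i * J2 i) ≤ (M / K) * (J1 i * (K / M)) := mul_le_mul_of_nonneg_left this (by positivity)
        _ = J1 i := by field_simp
    have e2 : (M / K) * (J1 i * J2 i) ≤ J2 i := by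
      have : J1 i * J2 i ≤ (K / M) * J2 i := mul_le_mul_of_nonneg_right (h1' i hi) (h2 i hi)
      calc (M / K) * (J1 i * J2 i) ≤ (M / K) * ((K / M) * J2 i) := mul_le_mul_of_nonneg_left this (by positivity)
        _ = J2 i := by field_simp
    refine le_min ?_ ?_
    · linarith [hp1 i hi]
    · linarith [hq1 i hi]
  have h3 : 3 / 5 * (M / K) * ∑ i ∈ S, J1 i * J2 i ≤ ∑ i ∈ S, min (p i) (q i) := by
    rw [mul_sum]
    exact sum_le_sum hmin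
  have h4 : 3 / 5 * (M / K) * (c / M) ≤ 3 / 5 * (M / K) * ∑ i ∈ S, J1 i * J2 i :=
    mul_le_mul_of_nonneg_left hc' (by positivity)
  have h5 : 3 / 5 * (M / K) * (c / M) = 3 / 5 * (c / K) := by field_simp
  have h6 : c / (2 * K) = 1 / 2 * (c / K) := by field_simp
  have h7 : 0 ≤ c / K := by positivity
  rw [h6]
  linarith

end Pool.Agent.NQF.P
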