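import Pool.Agent.NQF.PDefs

/-!
# NQF-PSub: submatrices and scalings of nearly doubly stochastic matrices
-/

set_option autoImplicit false

open Finset

namespace Pool.Agent.NQF.P

open Pool.Agent.NQL

private theorem psub_sum {T' T : Finset ℤ} (hT : T' ⊆ T) (f : ℤ → ℝ) (b : ℝ) (h0 : ∀ x ∈ T, 0 ≤ f x)
    (hb : ∀ x ∈ T, f x ≤ b) : ∑ x ∈ T', f x ≤ ∑ x ∈ T, f x ∧
      ∑ x ∈ T, f x ≤ ∑ x ∈ T', f x + ((T.card : ℝ) - T'.card) * b := by
  have h1 := Finset.sum_sdiff (f := f) hT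
  have h2 : 0 ≤ ∑ x ∈ T \ T', f x := Finset.sum_nonneg fun x hx => h0 x (mem_sdiff.1 hx).1
  have h3 : ∑ x ∈ T \ T', f x ≤ (T \ T').card • b :=
    Finset.sum_le_card_nsmul _ _ _ fun x hx => hb x (mem_sdiff.1 hx).1
  have h4 : ((T \ T').card : ℝ) = (T.card : ℝ) - T'.card := by
    rw [card_sdiff_of_subset hT, Nat.cast_sub (card_le_card hT)]
  rw [nsmul_eq_mul, h4] at h3
  constructor <;> linarith

theorem nd_sub {K c τ : ℝ} (hK : 0 ≤ K) {M m m' : ℕ} {X : ℤ × ℤ → ℝ} {R C R' C' : Finset ℤ} (h : Nd K c τ M m X R C)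
    (hR : R' ⊆ R) (hC : C' ⊆ C) (cR : R'.card = m') (cC : C'.card = m') (hM : M ≤ 2 * m') :
    Nd K (c - K ^ 2 * ((m : ℝ) - m') / M) (τ + K * ((m : ℝ) - m') / M) M m' X R' C' := by
  have hmm : m' ≤ m := by
    rw [← cR, ← h.cR]
    exact card_le_card hR
  have hmm' : (m' : ℝ) ≤ m := by exact_mod_cast hmm
  have hM0 : (0 : ℝ) ≤ M := Nat.cast_nonneg M
  have hpos : 0 ≤ K * ((m : ℝ) - m') / M := div_nonneg (mul_nonneg hK (by linarith)) hM0
  have hKM : 0 ≤ K / M := div_nonneg hK hM0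
  have e1 : ((m : ℝ) - m') * (K / M) = K * ((m : ℝ) - m') / M := by ring
  have e2 : ((m : ℝ) - m') * (K / M * (K / M)) = K ^ 2 * ((m : ℝ) - m') / M / M := by ring
  refine ⟨cR, cC, hmm.trans h.le, hM, fun x hx y hy => h.nn x (hR hx) y (hC hy),
    fun x hx y hy => h.up x (hR hx) y (hC hy), ?_, ?_, ?_, ?_⟩
  · intro x hx
    obtain ⟨h1, h2⟩ := psub_sum hC (fun y => X (x, y)) (K / M) (fun y hy => h.nn x (hR hx) y hy)
      (fun y hy => h.up x (hR hx) y hy)
    rw [cC, h.cC, e1] at h2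
    have h3 := abs_le.1 (h.row x (hR hx))
    rw [abs_le]
    constructor <;> linarith
  · intro y hy
    obtain ⟨h1, h2⟩ := psub_sum hR (fun x => X (x, y)) (K / M) (fun x hx => h.nn x hx y (hC hy))
      (fun x hx => h.up x hx y (hC hy))
    rw [cR, h.cR, e1] at h2
    have h3 := abs_le.1 (h.col y (hC hy))
    rw [abs_le]
    constructor <;> linarith
  · intro x hx x' hx' hne
    obtain ⟨_, h2⟩ := psub_sum hC (fun y => X (x, y) * X (x', y)) (K / M * (K / M))
      (fun y hy => mul_nonneg (h.nn x (hR hx) y hy) (h.nn x' (hR hx') y hy))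
      (fun y hy => mul_le_mul (h.up x (hR hx) y hy) (h.up x' (hR hx') y hy)
        (h.nn x' (hR hx') y hy) hKM)
    rw [cC, h.cC, e2] at h2
    have h3 := h.gr x (hR hx) x' (hR hx') hne
    rw [sub_div]
    linarith
  · intro y hy y' hy' hne
    obtain ⟨_, h2⟩ := psub_sum hR (fun x => X (x, y) * X (x, y')) (K / M * (K / M))
      (fun x hx => mul_nonneg (h.nn x hx y (hC hy)) (h.nn x hx y' (hC hy')))
      (fun x hx => mul_le_mul (h.up x hx y (hC hy)) (h.up x hx y' (hC hy'))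
        (h.nn x hx y' (hC hy')) hKM)
    rw [cR, h.cR, e2] at h2
    have h3 := h.gc y (hC hy) y' (hC hy') hne
    rw [sub_div]
    linarith

theorem nd_mono {K c τ c' τ' : ℝ} {M m : ℕ} {X : ℤ × ℤ → ℝ} {R C : Finset ℤ} (h : Nd K c τ M m X R C)
    (hc : c' ≤ c) (hτ : τ ≤ τ') : Nd K c' τ' M m X R C := by
  have hM0 : (0 : ℝ) ≤ M := Nat.cast_nonneg M
  have h1 : c' / M ≤ c / M := div_le_div_of_nonneg_right hc hM0
  exact ⟨h.cR, h.cC, h.le, h.ge, h.nn, h.up, fun x hx => (h.row x hx).trans hτ,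
    fun y hy => (h.col y hy).trans hτ, fun x hx x' hx' hne => h1.trans (h.gr x hx x' hx' hne),
    fun y hy y' hy' hne => h1.trans (h.gc y hy y' hy' hne)⟩

private theorem psub_exp : Real.exp (1 / 5) ≤ 2 := by
  have h1 := Real.add_one_le_exp (-(1 / 5) : ℝ)
  rw [Real.exp_neg] at h1
  have h2 := Real.exp_pos (1 / 5)
  have h3 : (4 / 5 : ℝ) * Real.exp (1 / 5) ≤ 1 := by
    calc (4 / 5 : ℝ) * Real.exp (1 / 5) ≤ (Real.exp (1 / 5))⁻¹ * Real.exp (1 / 5) :=
          mul_le_mul_of_nonneg_right (by linarith) h2.le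
      _ = 1 := inv_mul_cancel₀ h2.ne'
  linarith

theorem scl_ds {K c τ : ℝ} (hK : 0 ≤ K) (hc : 0 ≤ c) {M m : ℕ} (hm : 1 ≤ m) {J : ℤ × ℤ → ℝ} {R C : Finset ℤ} {u v : ℤ → ℝ}
    (h : Nd K c τ M m J R C) (hs : Scl J R C u v) : Ds (2 * K) (c / 4) m (sc J u v) R C := by
  have hm0 : (0 : ℝ) < m := by exact_mod_cast hm
  have hmM : (m : ℝ) ≤ M := by exact_mod_cast h.le
  have hM2 : (M : ℝ) ≤ 2 * m := by exact_mod_cast h.ge
  have hM0 : (0 : ℝ) < M := lt_of_lt_of_le hm0 hmM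
  have hKM : K / M ≤ K / m := div_le_div_of_nonneg_left hK hm0 hmM
  have hcM : c / 4 / m ≤ 3 / 5 * (c / M) := by
    have h1 : c / (2 * m) ≤ c / M := div_le_div_of_nonneg_left hc hM0 hM2
    have h2 : c / 4 / m = 1 / 2 * (c / (2 * m)) := by
      field_simp
      ring
    have h3 : 0 ≤ c / (2 * m) := by positivity
    rw [h2]
    linarith
  have hexp : ∀ a b a' b' : ℝ, |a| ≤ 1 / 10 → |b| ≤ 1 / 10 → |a'| ≤ 1 / 10 → |b'| ≤ 1 / 10 →
      3 / 5 ≤ Real.exp (a + b) * Real.exp (a' + b') := by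
    intro a b a' b' ha hb ha' hb'
    rw [← Real.exp_add]
    have h1 := Real.add_one_le_exp (a + b + (a' + b'))
    have h2 := (abs_le.1 ha).1
    have h3 := (abs_le.1 hb).1
    have h4 := (abs_le.1 ha').1
    have h5 := (abs_le.1 hb').1
    linarith
  refine ⟨h.cR, h.cC, ?_, ?_, hs.row, hs.col, ?_, ?_⟩
  · intro x hx y hy
    exact mul_nonneg (h.nn x hx y hy) (Real.exp_pos _).le
  · intro x hx y hy
    have h1 : Real.exp (u x + v y) ≤ 2 := by
      refine le_trans (Real.exp_le_exp.2 ?_) psub_exp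
      have h2 := (abs_le.1 (hs.bu x hx)).2
      have h3 := (abs_le.1 (hs.bv y hy)).2
      linarith
    calc J (x, y) * Real.exp (u x + v y) ≤ K / M * 2 :=
          mul_le_mul (h.up x hx y hy) h1 (Real.exp_pos _).le (div_nonneg hK hM0.le)
      _ ≤ K / m * 2 := mul_le_mul_of_nonneg_right hKM (by norm_num)
      _ = 2 * K / m := by ring
  · intro x hx x' hx' hne
    have h3 := h.gr x hx x' hx' hne
    calc c / 4 / m ≤ 3 / 5 * (c / M) := hcM
      _ ≤ 3 / 5 * ∑ y ∈ C, J (x, y) * J (x', y) := by linarith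
      _ = ∑ y ∈ C, 3 / 5 * (J (x, y) * J (x', y)) := Finset.mul_sum _ _ _
      _ ≤ ∑ y ∈ C, sc J u v (x, y) * sc J u v (x', y) := by
          refine Finset.sum_le_sum fun y hy => ?_
          have h4 := hexp (u x) (v y) (u x') (v y) (hs.bu x hx) (hs.bv y hy) (hs.bu x' hx')
            (hs.bv y hy)
          calc 3 / 5 * (J (x, y) * J (x', y))
              ≤ (Real.exp (u x + v y) * Real.exp (u x' + v y)) * (J (x, y) * J (x', y)) :=
                mul_le_mul_of_nonneg_right h4 (mul_nonneg (h.nn x hx y hy) (h.nn x' hx' y hy))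
            _ = sc J u v (x, y) * sc J u v (x', y) := by
                unfold sc
                ring
  · intro y hy y' hy' hne
    have h3 := h.gc y hy y' hy' hne
    calc c / 4 / m ≤ 3 / 5 * (c / M) := hcM
      _ ≤ 3 / 5 * ∑ x ∈ R, J (x, y) * J (x, y') := by linarith
      _ = ∑ x ∈ R, 3 / 5 * (J (x, y) * J (x, y')) := Finset.mul_sum _ _ _
      _ ≤ ∑ x ∈ R, sc J u v (x, y) * sc J u v (x, y') := by
          refine Finset.sum_le_sum fun x hx => ?_
          have h4 := hexp (u x) (v y) (u x) (v y') (hs.bu x hx) (hs.bv y hy) (hs.bu x hx)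
            (hs.bv y' hy')
          calc 3 / 5 * (J (x, y) * J (x, y'))
              ≤ (Real.exp (u x + v y) * Real.exp (u x + v y')) * (J (x, y) * J (x, y')) :=
                mul_le_mul_of_nonneg_right h4 (mul_nonneg (h.nn x hx y hy) (h.nn x hx y' hy'))
            _ = sc J u v (x, y) * sc J u v (x, y') := by
                unfold sc
                ring

theorem sc_lb {J : ℤ × ℤ → ℝ} {R C : Finset ℤ} {u v : ℤ → ℝ} (hs : Scl J R C u v) {x y : ℤ} (hx : x ∈ R) (hy : y ∈ C)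
    (hJ : 0 ≤ J (x, y)) : 4 / 5 * J (x, y) ≤ sc J u v (x, y) := by
  have h1 := Real.add_one_le_exp (u x + v y)
  have h2 := (abs_le.1 (hs.bu x hx)).1
  have h3 := (abs_le.1 (hs.bv y hy)).1
  unfold sc
  rw [mul_comm]
  exact mul_le_mul_of_nonneg_left (by linarith) hJ

end Pool.Agent.NQF.P
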