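import Pool.Agent.NQF.PRow
import Pool.Agent.NQF.PElm
import Pool.Agent.NQF.PSub
import Pool.Agent.NQF.PSclB

/-!
# NQF-PCtrC: contraction, exchange of columns

PLAN. The proof of `NQF/PCtrR.lean` (read its header) with the roles of rows and columns exchanged.
`τ0` from `scl_ex` for `(K, c/2)`; `Cs`, `m1` from `rowstep` for `(2 K, c/8)`. Take `τ = τ0/2`, `Cc = 4 Cs`, `M2` so large that
`2 K²/M2 ≤ c/2`, `2 K/M2 ≤ τ0/2`, `M2/4 ≥ m1`, `M2 ≥ 8 Cs`, `Cc/M2² ≤ 1/4`, `M2 ≥ 8`. By `nd_sub`, `nd_mono` all submatrices of `(R, C)` of the sizes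
`m - 1` and `m - 2` are `Nd K (c/2) τ0 M`.
Let `x ∈ R`, `y ≠ y' ∈ C`, `R1 = R.erase x`, `C1 = C.erase y`, `C1' = C.erase y'`, scalings `(u, v)` of `(R1, C1)`, `(u', v')` of `(R1, C1')`.
For every `z ∈ R1` choose a scaling `(a z, b z)` of `J` on `(R1.erase z, C1.erase y')` (size `m - 2`); `(C.erase y).erase y' = (C.erase y').erase y`.
`rowstep`, SECOND part (columns), with the column `y' ∈ C1`: `Ee (m-1) (sc J u v) R1 C1 = ∑_{z ∈ R1} p z * U z`,
`U z = Ee (m-2) (sc J (a z) (b z)) (R1.erase z) (C1.erase y')`; with the column `y ∈ C1'`: `Ee (m-1) (sc J u' v') R1 C1' = ∑ q z * U z`, the same `U`.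
`ovl` with `J1 z = J (z, y')`, `J2 z = J (z, y)`, codegree of the columns over `R1`: `≥ c/M - K²/M² ≥ (c/2)/M`. `contr` with `ε = Cc/M²`, `c2 = c/(4 K)`.
The ratio `U z ≤ ρ U z'` for `z ≠ z' ∈ R1` is the FIRST part of `hEx x y : Ex J (m - 2) R1 C1 ρ` (rows), with the column `y' ∈ C1`.
-/

set_option autoImplicit false

open Finset

namespace Pool.Agent.NQF.P

open Pool.Agent.NQL

private theorem ee_nn {m : ℕ} {w : ℤ × ℤ → ℝ} {R C : Finset ℤ} (h : Dst w R C) : 0 ≤ Ee m w R C :=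
  mul_nonneg (pe_nonneg h.nn) (Real.exp_pos _).le

/-- arithmetic of the constants -/
private theorem arith {K c τ0 Cs M m : ℝ} (hK : 1 ≤ K) (hc : 0 < c) (hτ : 0 < τ0) (hCs : 1 ≤ Cs)
    (h1 : 4 * K ^ 2 / c ≤ M) (h2 : 4 * K / τ0 ≤ M) (h3 : 8 * Cs ≤ M) (h4 : 8 ≤ M) (h5 : M ≤ 2 * (m - 2)) :
    2 * K ^ 2 / M ≤ c / 2 ∧ 2 * K / M ≤ τ0 / 2 ∧ Cs / (m - 1) ≤ 1 / 4 ∧ Cs / (m - 1) ^ 2 ≤ 4 * Cs / M ^ 2 ∧
      4 * Cs / M ^ 2 < 1 := by
  have hM : 0 < M := by linarith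
  have hm : 0 < m - 1 := by linarith
  refine ⟨?_, ?_, ?_, ?_, ?_⟩
  · rw [div_le_iff₀ hc] at h1
    rw [div_le_iff₀ hM]
    linarith
  · rw [div_le_iff₀ hτ] at h2
    rw [div_le_iff₀ hM]
    linarith
  · rw [div_le_iff₀ hm]
    linarith
  · rw [div_le_div_iff₀ (by positivity) (by positivity)]
    have : M ^ 2 ≤ 4 * (m - 1) ^ 2 := by nlinarith
    nlinarith
  · rw [div_lt_one (by positivity)]
    nlinarith

theorem ctrC (hLS : LsP) {K c : ℝ} (hK : 1 ≤ K) (hc : 0 < c) (hc1 : c ≤ 1) : ∃ (τ Cc : ℝ) (M2 : ℕ),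
    0 < τ ∧ τ ≤ 1 / 2 ∧ 1 ≤ Cc ∧ 8 ≤ M2 ∧ ∀ (M m : ℕ) (J : ℤ × ℤ → ℝ) (R C : Finset ℤ) (ρ : ℝ), M2 ≤ M → M ≤ 2 * (m - 2) →
      Nd K c τ M m J R C → 1 ≤ ρ → (∀ x ∈ R, ∀ y ∈ C, Ex J (m - 2) (R.erase x) (C.erase y) ρ) →
      ∀ x ∈ R, ∀ y ∈ C, ∀ y' ∈ C, y ≠ y' → ∀ u v u' v' : ℤ → ℝ, Scl J (R.erase x) (C.erase y) u v →
        Scl J (R.erase x) (C.erase y') u' v' →
        Ee (m - 1) (sc J u v) (R.erase x) (C.erase y) ≤
          (1 + Cc / M ^ 2 + (1 + Cc / M ^ 2 - c / (4 * K)) * (ρ - 1)) / (1 - Cc / M ^ 2) *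
            Ee (m - 1) (sc J u' v') (R.erase x) (C.erase y') := by
  have hK0 : 0 < K := by linarith
  obtain ⟨τ0, hτ0, hτ1, hscl⟩ := scl_ex hK (half_pos hc) (by linarith : c / 2 ≤ 1)
  obtain ⟨Cs, m1, hCs, hm1, hrs⟩ := rowstep hLS (K := 2 * K) (c := c / 2 / 4) (by linarith) (by positivity) (by linarith)
  refine ⟨τ0 / 2, 4 * Cs, 8 + 4 * m1 + ⌈4 * K ^ 2 / c⌉₊ + ⌈4 * K / τ0⌉₊ + ⌈8 * Cs⌉₊, by positivity, by linarith,
    by linarith, by omega, ?_⟩
  intro M m J R C ρ hM2 hMm hN hρ hEx x hx y hy y' hy' hne u v u' v' hs hs'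
  -- the constants
  have hM8 : 8 ≤ M := by omega
  have hm4 : 4 ≤ m - 2 := by omega
  have hmm : M ≤ 2 * m := by omega
  have hMr : (8 : ℝ) ≤ M := by exact_mod_cast hM8
  have hM0 : (0 : ℝ) < M := by linarith
  have a1 : 4 * K ^ 2 / c ≤ M := (Nat.le_ceil _).trans (by exact_mod_cast (by omega : ⌈4 * K ^ 2 / c⌉₊ ≤ M))
  have a2 : 4 * K / τ0 ≤ M := (Nat.le_ceil _).trans (by exact_mod_cast (by omega : ⌈4 * K / τ0⌉₊ ≤ M))
  have a3 : 8 * Cs ≤ M := (Nat.le_ceil _).trans (by exact_mod_cast (by omega : ⌈8 * Cs⌉₊ ≤ M))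
  have c1 : ((m - 1 : ℕ) : ℝ) = (m : ℝ) - 1 := by
    rw [Nat.cast_sub (by omega)]
    norm_num
  have c2 : ((m - 2 : ℕ) : ℝ) = (m : ℝ) - 2 := by
    rw [Nat.cast_sub (by omega)]
    norm_num
  have a4 : (M : ℝ) ≤ 2 * ((m : ℝ) - 2) := by
    rw [← c2]
    exact_mod_cast hMm
  obtain ⟨b1, b2, b3, b4, b5⟩ := arith hK hc hτ0 hCs a1 a2 a3 hMr a4
  -- submatrices
  have hNs : ∀ (m' : ℕ) (R' C' : Finset ℤ), R' ⊆ R → C' ⊆ C → R'.card = m' → C'.card = m' → m - 2 ≤ m' → m' ≤ m →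
      Nd K (c / 2) τ0 M m' J R' C' := by
    intro m' R' C' hR' hC' h1 h2 h3 h4
    have h5 := nd_sub hK0.le hN hR' hC' h1 h2 (by omega)
    have h6 : (m : ℝ) - m' ≤ 2 := by
      have : (m : ℝ) ≤ (m' : ℝ) + 2 := by exact_mod_cast (by omega : m ≤ m' + 2)
      linarith
    refine nd_mono h5 ?_ ?_
    · have h7 : K ^ 2 * ((m : ℝ) - m') / M ≤ 2 * K ^ 2 / M := by
        rw [div_le_div_iff_of_pos_right hM0]
        nlinarith [sq_nonneg K]
      linarith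
    · have h7 : K * ((m : ℝ) - m') / M ≤ 2 * K / M := by
        rw [div_le_div_iff_of_pos_right hM0]
        nlinarith
      linarith
  have cR1 : (R.erase x).card = m - 1 := by rw [card_erase_of_mem hx, hN.cR]
  have cC1 : (C.erase y).card = m - 1 := by rw [card_erase_of_mem hy, hN.cC]
  have cC1' : (C.erase y').card = m - 1 := by rw [card_erase_of_mem hy', hN.cC]
  have hy'1 : y' ∈ C.erase y := mem_erase.2 ⟨hne.symm, hy'⟩
  have hy1 : y ∈ C.erase y' := mem_erase.2 ⟨hne, hy⟩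
  have hcomm : (C.erase y').erase y = (C.erase y).erase y' := erase_right_comm
  have cC2 : ((C.erase y).erase y').card = m - 2 := by
    rw [card_erase_of_mem hy'1, cC1]
    omega
  have hN1 : Nd K (c / 2) τ0 M (m - 1) J (R.erase x) (C.erase y) :=
    hNs _ _ _ (erase_subset _ _) (erase_subset _ _) cR1 cC1 (by omega) (by omega)
  have hN1' : Nd K (c / 2) τ0 M (m - 1) J (R.erase x) (C.erase y') :=
    hNs _ _ _ (erase_subset _ _) (erase_subset _ _) cR1 cC1' (by omega) (by omega)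
  have hN2 : ∀ z ∈ R.erase x, Nd K (c / 2) τ0 M (m - 2) J ((R.erase x).erase z) ((C.erase y).erase y') := by
    intro z hz
    refine hNs _ _ _ ((erase_subset _ _).trans (erase_subset _ _)) ((erase_subset _ _).trans (erase_subset _ _)) ?_ cC2
      (by omega) (by omega)
    rw [card_erase_of_mem hz, cR1]
    omega
  have hex : ∀ z : ℤ, ∃ a b : ℤ → ℝ, z ∈ R.erase x → Scl J ((R.erase x).erase z) ((C.erase y).erase y') a b := by
    intro z
    by_cases hz : z ∈ R.erase x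
    · obtain ⟨a, b, h⟩ := hscl M (m - 2) J _ _ (by omega) (hN2 z hz)
      exact ⟨a, b, fun _ => h⟩
    · exact ⟨0, 0, fun h => absurd h hz⟩
  choose a b hab using hex
  have hc2 : 0 ≤ c / 2 := by positivity
  have hD2 : ∀ z ∈ R.erase x, Dst (sc J (a z) (b z)) ((R.erase x).erase z) ((C.erase y).erase y') := fun z hz =>
    ds_dst (scl_ds hK0.le hc2 (by omega) (hN2 z hz) (hab z hz))
  have hD1 := scl_ds hK0.le hc2 (by omega) hN1 hs
  have hD1' := scl_ds hK0.le hc2 (by omega) hN1' hs'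
  obtain ⟨p, hp1, hp2, hp3⟩ := (hrs (m - 1) J u v _ _ (by omega) hD1).2 y' hy'1 a b hD2
  obtain ⟨q, hq1, hq2, hq3⟩ := (hrs (m - 1) J u' v' _ _ (by omega) hD1').2 y hy1 a b (by
    rw [hcomm]
    exact hD2)
  rw [hcomm] at hq3
  have hm11 : m - 1 - 1 = m - 2 := by omega
  rw [hm11] at hp3 hq3
  rw [c1] at hp1 hp2 hq1 hq2
  -- overlap
  have hcod : c / 2 / M ≤ ∑ z ∈ R.erase x, J (z, y') * J (z, y) := by
    have h1 := hN.gc y' hy' y hy hne.symm
    rw [← add_sum_erase R (fun z => J (z, y') * J (z, y)) hx] at h1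
    have h2 : J (x, y') * J (x, y) ≤ c / 2 / M := by
      have h3 : J (x, y') * J (x, y) ≤ (K / M) * (K / M) :=
        mul_le_mul (hN.up x hx y' hy') (hN.up x hx y hy) (hN.nn x hx y hy) (by positivity)
      have h4 : (K / M) * (K / M) = K ^ 2 / M / M := by ring
      have h5 : K ^ 2 / M ≤ c / 2 := by
        have h6 : 0 ≤ K ^ 2 / M := by positivity
        have h7 : 2 * K ^ 2 / M = 2 * (K ^ 2 / M) := by ring
        linarith
      have h6 : K ^ 2 / M / M ≤ c / 2 / M := div_le_div_of_nonneg_right h5 hM0.le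
      linarith
    have h7 : c / M = c / 2 / M + c / 2 / M := by ring
    linarith
  have hw1 : ∀ z ∈ R.erase x, 4 / 5 * J (z, y') ≤ sc J u v (z, y') := fun z hz =>
    sc_lb hs hz hy'1 (hN.nn z (mem_of_mem_erase hz) y' hy')
  have hw2 : ∀ z ∈ R.erase x, 4 / 5 * J (z, y) ≤ sc J u' v' (z, y) := fun z hz =>
    sc_lb hs' hz hy1 (hN.nn z (mem_of_mem_erase hz) y hy)
  obtain ⟨o1, o2, o3⟩ := ovl (S := R.erase x) (J1 := fun z => J (z, y')) (J2 := fun z => J (z, y))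
    (w1 := fun z => sc J u v (z, y')) (w2 := fun z => sc J u' v' (z, y)) (p := p) (q := q) hK0 hM0 hc2
    (fun z hz => hN.nn z (mem_of_mem_erase hz) y' hy') (fun z hz => hN.nn z (mem_of_mem_erase hz) y hy)
    (fun z hz => hN.up z (mem_of_mem_erase hz) y' hy') (fun z hz => hN.up z (mem_of_mem_erase hz) y hy)
    hcod hw1 hw2
    (fun z hz => (hp1 z hz).trans (mul_le_mul_of_nonneg_right b3 (by
      have := hw1 z hz
      have := hN.nn z (mem_of_mem_erase hz) y' hy'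
      linarith)))
    (fun z hz => (hq1 z hz).trans (mul_le_mul_of_nonneg_right b3 (by
      have := hw2 z hz
      have := hN.nn z (mem_of_mem_erase hz) y hy
      linarith)))
  have o4 : c / 2 / (2 * K) = c / (4 * K) := by
    field_simp
    norm_num
  rw [o4] at o3
  -- ratio
  have hratio : ∀ z ∈ R.erase x, ∀ z' ∈ R.erase x, z ≠ z' →
      Ee (m - 2) (sc J (a z) (b z)) ((R.erase x).erase z) ((C.erase y).erase y') ≤
        ρ * Ee (m - 2) (sc J (a z') (b z')) ((R.erase x).erase z') ((C.erase y).erase y') :=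
    fun z hz z' hz' hzz => (hEx x hx y hy).1 z hz z' hz' hzz y' hy'1 _ _ _ _ (hab z hz) (hab z' hz')
  rw [hp3, hq3]
  exact contr o1 o2 (fun z hz => ee_nn (hD2 z hz)) (by positivity) b5 hρ (by positivity) (hp2.trans b4) (hq2.trans b4)
    o3 hratio

end Pool.Agent.NQF.P
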