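import Pool.Agent.NQF.PCtrR
import Pool.Agent.NQF.PCtrC

/-!
# NQF-PCtr: contraction of the exchange ratio (rows and columns)

PLAN. `ctrR`, `ctrC` with the smaller `τ` (`nd_mono`), the larger `Cc'`, `M2` also such that `Cc'/M2² ≤ c2/4`, `c2 = c/(4 K)`. The bound
`(1 + ε + (1 + ε - c2)(ρ - 1))/(1 - ε)` is increasing in `ε` and for `ε ≤ c2/4` (`c2 ≤ 1/4`) at most `1 + 3 ε + (1 - c2/2)(ρ - 1)`:
multiply by `1 - ε`: `(1 + ε - c2) ≤ (1 - ε)(1 - c2/2)` because `2 ε ≤ c2/2`, and `1 + ε ≤ (1 - ε)(1 + 3 ε)` because `ε ≤ 1/3`.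
`Ee ≥ 0` on the right side (`pe_nonneg`, the entries of `J` are nonnegative on `R × C`). `Cc = 3 Cc'`.
-/

set_option autoImplicit false

open Finset

namespace Pool.Agent.NQF.P

open Pool.Agent.NQL

private theorem PCtr_num {ε ε' c2 ρ : ℝ} (h0 : 0 ≤ ε) (hεε : ε ≤ ε') (h1 : ε' ≤ c2 / 4)
    (h2 : c2 ≤ 1 / 4) (hρ : 1 ≤ ρ) :
    (1 + ε + (1 + ε - c2) * (ρ - 1)) / (1 - ε) ≤ 1 + 3 * ε' + (1 - c2 / 2) * (ρ - 1) := by
  have h3 : 0 < 1 - ε := by linarith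
  rw [div_le_iff₀ h3]
  have h4 : 0 ≤ ρ - 1 := by linarith
  have h5 : 1 + ε ≤ (1 + 3 * ε') * (1 - ε) := by nlinarith
  have h6 : 1 + ε - c2 ≤ (1 - c2 / 2) * (1 - ε) := by nlinarith
  have h7 := mul_le_mul_of_nonneg_right h6 h4
  nlinarith

theorem ctr (hLS : LsP) {K c : ℝ} (hK : 1 ≤ K) (hc : 0 < c) (hc1 : c ≤ 1) : ∃ (τ Cc : ℝ) (M2 : ℕ),
    0 < τ ∧ τ ≤ 1 / 2 ∧ 1 ≤ Cc ∧ 8 ≤ M2 ∧ ∀ (M m : ℕ) (J : ℤ × ℤ → ℝ) (R C : Finset ℤ) (ρ : ℝ), M2 ≤ M → M ≤ 2 * (m - 2) →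
      Nd K c τ M m J R C → 1 ≤ ρ → (∀ x ∈ R, ∀ y ∈ C, Ex J (m - 2) (R.erase x) (C.erase y) ρ) →
      Ex J (m - 1) R C (1 + Cc / M ^ 2 + (1 - c / (8 * K)) * (ρ - 1)) := by
  obtain ⟨τR, CR, MR, hτR, hτR', hCR, hMR, hR⟩ := ctrR hLS hK hc hc1
  obtain ⟨τC, CC, MC, hτC, hτC', hCC, hMC, hCo⟩ := ctrC hLS hK hc hc1
  set c2 : ℝ := c / (4 * K) with hc2
  have hKpos : 0 < K := by linarith
  have hc20 : 0 < c2 := by positivity
  have hc21 : c2 ≤ 1 / 4 := by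
    rw [hc2, div_le_iff₀ (by linarith)]
    linarith
  have hc2h : c2 / 2 = c / (8 * K) := by
    rw [hc2]
    field_simp
    norm_num
  set C' : ℝ := max CR CC with hC'
  have hC'1 : 1 ≤ C' := hCR.trans (le_max_left _ _)
  obtain ⟨N, hN⟩ := exists_nat_ge (C' / (c2 / 4))
  refine ⟨min τR τC, 3 * C', max (max MR MC) N, lt_min hτR hτC, (min_le_left _ _).trans hτR',
    by linarith, (hMR.trans (le_max_left _ _)).trans (le_max_left _ _), ?_⟩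
  intro M m J R C ρ hM hMm hNd hρ hEx
  have hM1 : MR ≤ M := ((le_max_left _ _).trans (le_max_left _ _)).trans hM
  have hM2 : MC ≤ M := ((le_max_right _ _).trans (le_max_left _ _)).trans hM
  have hM3 : N ≤ M := (le_max_right _ _).trans hM
  have hM8 : (8 : ℝ) ≤ (M : ℝ) := by exact_mod_cast hMR.trans hM1
  have hMN : C' / (c2 / 4) ≤ (M : ℝ) := hN.trans (by exact_mod_cast hM3)
  have hMsq : (M : ℝ) ≤ (M : ℝ) ^ 2 := by nlinarith
  have hMsq0 : (0 : ℝ) < (M : ℝ) ^ 2 := by positivity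
  have hε' : C' / (M : ℝ) ^ 2 ≤ c2 / 4 := by
    rw [div_le_iff₀ hMsq0]
    rw [div_le_iff₀ (by linarith)] at hMN
    have := mul_le_mul_of_nonneg_right hMsq (show (0 : ℝ) ≤ c2 / 4 by linarith)
    linarith
  have hεR : CR / (M : ℝ) ^ 2 ≤ C' / (M : ℝ) ^ 2 :=
    div_le_div_of_nonneg_right (le_max_left _ _) hMsq0.le
  have hεC : CC / (M : ℝ) ^ 2 ≤ C' / (M : ℝ) ^ 2 :=
    div_le_div_of_nonneg_right (le_max_right _ _) hMsq0.le
  have e3 : 3 * C' / (M : ℝ) ^ 2 = 3 * (C' / (M : ℝ) ^ 2) := by ring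
  have hEe : ∀ (R' C'' : Finset ℤ) (u v : ℤ → ℝ), R' ⊆ R → C'' ⊆ C →
      0 ≤ Ee (m - 1) (sc J u v) R' C'' := by
    intro R' C'' u v hR' hC''
    refine mul_nonneg (pe_nonneg ?_) (Real.exp_pos _).le
    intro x hx y hy
    exact mul_nonneg (hNd.nn x (hR' hx) y (hC'' hy)) (Real.exp_pos _).le
  constructor
  · intro x hx x' hx' hxx y hy u v u' v' hs hs'
    have h1 := hR M m J R C ρ hM1 hMm (nd_mono hNd le_rfl (min_le_left _ _)) hρ hEx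
      x hx x' hx' hxx y hy u v u' v' hs hs'
    refine h1.trans (mul_le_mul_of_nonneg_right ?_
      (hEe _ _ u' v' (Finset.erase_subset _ _) (Finset.erase_subset _ _)))
    rw [← hc2h, e3]
    exact PCtr_num (div_nonneg (by linarith) hMsq0.le) hεR hε' hc21 hρ
  · intro x hx y hy y' hy' hyy u v u' v' hs hs'
    have h1 := hCo M m J R C ρ hM2 hMm (nd_mono hNd le_rfl (min_le_right _ _)) hρ hEx
      x hx y hy y' hy' hyy u v u' v' hs hs'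
    refine h1.trans (mul_le_mul_of_nonneg_right ?_
      (hEe _ _ u' v' (Finset.erase_subset _ _) (Finset.erase_subset _ _)))
    rw [← hc2h, e3]
    exact PCtr_num (div_nonneg (by linarith) hMsq0.le) hεC hε' hc21 hρ

end Pool.Agent.NQF.P
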