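import Mathlib

/-!
# NQF-PDet: bounds of the logarithm of a determinant

PLAN. `A` real symmetric: `hA : A.IsHermitian`, eigenvalues `μ i = hA.eigenvalues i`.
(1) `μ i ≥ lam`: apply `hco` to the eigenvector `v = hA.eigenvectorBasis i` (norm one, `A v = μ i v`); or: `A - lam • 1` is positive
semidefinite (`Matrix.PosSemidef`), its eigenvalues/`Matrix.PosSemidef.eigenvalues_nonneg`.
(2) `det A = ∏ μ i` (`Matrix.IsHermitian.det_eq_prod_eigenvalues`), `trace A = ∑ μ i` (`Matrix.IsHermitian.trace_eq_sum_eigenvalues`),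
`∑ μ i ^ 2 = trace (A * A) = ∑ i, ∑ j, A i j ^ 2` (spectral theorem `hA.spectral_theorem`: `A = U D U*`, `A * A = U D² U*`, cyclic trace).
(3) `∑ (μ i - 1)^2 = ∑ i, ∑ j, (A i j - if i = j then 1 else 0)^2` (expand both sides: `∑∑ A² - 2 trace A + card`).
(4) `log μ ≤ μ - 1` (`Real.log_le_sub_one_of_pos`) and `log μ ≥ 1 - 1/μ = (μ - 1) - (μ - 1)²/μ ≥ (μ - 1) - (μ - 1)²/lam`
(`Real.one_sub_inv_le_log_of_pos`); sum over `i` (`Real.log_prod`).
-/

set_option autoImplicit false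

open Finset

namespace Pool.Agent.NQF.P

private theorem tr_sq {ι : Type} [Fintype ι] [DecidableEq ι] (A : Matrix ι ι ℝ) (hA : A.IsHermitian) :
    (A * A).trace = ∑ i, hA.eigenvalues i ^ 2 := by
  obtain ⟨U, hU⟩ : ∃ U : Matrix ι ι ℝ, U = (hA.eigenvectorUnitary : Matrix ι ι ℝ) := ⟨_, rfl⟩
  have h1 : star U * U = 1 := by
    rw [hU]
    exact Unitary.coe_star_mul_self _
  have h2 : A = U * Matrix.diagonal hA.eigenvalues * star U := by
    have h := hA.spectral_theorem
    rw [Unitary.conjStarAlgAut_apply] at h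
    rw [hU]
    exact h
  obtain ⟨E, hE⟩ : ∃ E : Matrix ι ι ℝ, E = Matrix.diagonal hA.eigenvalues := ⟨_, rfl⟩
  rw [← hE] at h2
  have h3 : A * A = U * (E * E) * star U := by
    rw [h2]
    calc U * E * star U * (U * E * star U) = U * E * (star U * U) * (E * star U) := by
          simp only [Matrix.mul_assoc]
      _ = _ := by rw [h1, Matrix.mul_one]; simp only [Matrix.mul_assoc]
  rw [h3, Matrix.trace_mul_comm, ← Matrix.mul_assoc, h1, Matrix.one_mul, hE,
    Matrix.diagonal_mul_diagonal, Matrix.trace_diagonal]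
  exact Finset.sum_congr rfl fun i _ => (sq _).symm

private theorem tr_eq {ι : Type} [Fintype ι] [DecidableEq ι] (A : Matrix ι ι ℝ) (hA : A.IsHermitian) :
    (A * A).trace = ∑ i, ∑ j, A i j ^ 2 := by
  unfold Matrix.trace
  refine Finset.sum_congr rfl fun i _ => ?_
  rw [Matrix.diag_apply, Matrix.mul_apply]
  refine Finset.sum_congr rfl fun j _ => ?_
  have h : A j i = A i j := by
    have := hA.apply i j
    simpa using this
  rw [h, sq]

private theorem ev_ge {ι : Type} [Fintype ι] [DecidableEq ι] (A : Matrix ι ι ℝ) (hA : A.IsHermitian)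
    {lam : ℝ} (hco : ∀ v : ι → ℝ, lam * ∑ i, v i ^ 2 ≤ ∑ i, ∑ j, v i * A i j * v j) (k : ι) :
    lam ≤ hA.eigenvalues k := by
  obtain ⟨v, hv⟩ : ∃ v : ι → ℝ, v = ⇑(hA.eigenvectorBasis k) := ⟨_, rfl⟩
  have h1 : ∑ i, v i ^ 2 = 1 := by
    have h := hA.eigenvectorBasis.orthonormal.1 k
    have h2 : ‖hA.eigenvectorBasis k‖ ^ 2 = ∑ i, v i ^ 2 := by
      rw [EuclideanSpace.norm_sq_eq, hv]
      exact Finset.sum_congr rfl fun i _ => by rw [Real.norm_eq_abs, sq_abs]
    rw [← h2, h, one_pow]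
  have h2 := hA.mulVec_eigenvectorBasis k
  rw [← hv] at h2
  have h3 : ∑ i, ∑ j, v i * A i j * v j = hA.eigenvalues k := by
    have h4 : ∀ i, ∑ j, v i * A i j * v j = hA.eigenvalues k * v i ^ 2 := by
      intro i
      have h5 := congrFun h2 i
      rw [Matrix.mulVec, dotProduct] at h5
      have h6 : (hA.eigenvalues k • v) i = hA.eigenvalues k * v i := rfl
      rw [h6] at h5
      calc ∑ j, v i * A i j * v j = v i * ∑ j, A i j * v j := by
            rw [Finset.mul_sum]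
            exact Finset.sum_congr rfl fun j _ => mul_assoc _ _ _
        _ = _ := by rw [h5]; ring
    rw [Finset.sum_congr rfl fun i _ => h4 i, ← Finset.mul_sum, h1, mul_one]
  have h4 := hco v
  rw [h3, h1, mul_one] at h4
  exact h4

theorem det_bd {ι : Type} [Fintype ι] [DecidableEq ι] (A : Matrix ι ι ℝ) (hA : A.IsHermitian) {lam H : ℝ}
    (hl : 0 < lam) (hco : ∀ v : ι → ℝ, lam * ∑ i, v i ^ 2 ≤ ∑ i, ∑ j, v i * A i j * v j)
    (hH : ∑ i, ∑ j, (A i j - if i = j then 1 else 0) ^ 2 ≤ H) :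
    0 < A.det ∧ ∑ i, (A i i - 1) - H / lam ≤ Real.log A.det ∧ Real.log A.det ≤ ∑ i, (A i i - 1) := by
  obtain ⟨μ, hμ⟩ : ∃ μ : ι → ℝ, μ = hA.eigenvalues := ⟨_, rfl⟩
  have hge : ∀ i, lam ≤ μ i := fun i => by
    rw [hμ]
    exact ev_ge A hA hco i
  have hpos : ∀ i, 0 < μ i := fun i => lt_of_lt_of_le hl (hge i)
  have hdet : A.det = ∏ i, μ i := by
    rw [hμ, hA.det_eq_prod_eigenvalues]
    rfl
  have htr : ∑ i, A i i = ∑ i, μ i := by
    have h := hA.trace_eq_sum_eigenvalues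
    rw [hμ]
    exact h
  have hsq : ∑ i, ∑ j, A i j ^ 2 = ∑ i, μ i ^ 2 := by
    rw [← tr_eq A hA, tr_sq A hA, hμ]
  have hdiff : ∑ i, ∑ j, (A i j - if i = j then 1 else 0) ^ 2 = ∑ i, (μ i - 1) ^ 2 := by
    have h1 : ∀ i, ∑ j, (A i j - if i = j then 1 else 0) ^ 2 = ∑ j, A i j ^ 2 - 2 * A i i + 1 := by
      intro i
      have h2 : ∀ j, (A i j - if i = j then 1 else 0) ^ 2 =
          A i j ^ 2 + (if i = j then (-(2 * A i j) + 1) else 0) := by
        intro j
        split_ifs with h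
        · ring
        · ring
      rw [Finset.sum_congr rfl fun j _ => h2 j, Finset.sum_add_distrib, Finset.sum_ite_eq,
        if_pos (Finset.mem_univ i)]
      ring
    have h3 : ∀ i, (μ i - 1) ^ 2 = μ i ^ 2 - 2 * μ i + 1 := fun i => by ring
    rw [Finset.sum_congr rfl fun i _ => h1 i, Finset.sum_congr rfl fun i _ => h3 i,
      Finset.sum_add_distrib, Finset.sum_add_distrib, Finset.sum_sub_distrib,
      Finset.sum_sub_distrib, ← Finset.mul_sum, ← Finset.mul_sum, hsq, htr]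
  have hlog : Real.log A.det = ∑ i, Real.log (μ i) := by
    rw [hdet, Real.log_prod fun i _ => (hpos i).ne']
  have htr' : ∑ i, (A i i - 1) = ∑ i, (μ i - 1) := by
    rw [Finset.sum_sub_distrib, Finset.sum_sub_distrib, htr]
  rw [hdiff] at hH
  refine ⟨?_, ?_, ?_⟩
  · rw [hdet]
    exact Finset.prod_pos fun i _ => hpos i
  · rw [hlog, htr']
    have h1 : ∀ i ∈ (univ : Finset ι), (μ i - 1) - (μ i - 1) ^ 2 / lam ≤ Real.log (μ i) := by
      intro i _
      have h2 := Real.one_sub_inv_le_log_of_pos (hpos i)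
      have h3 : 1 - (μ i)⁻¹ = (μ i - 1) - (μ i - 1) ^ 2 / μ i := by
        have := (hpos i).ne'
        field_simp
        ring
      have h4 : (μ i - 1) ^ 2 / μ i ≤ (μ i - 1) ^ 2 / lam :=
        div_le_div_of_nonneg_left (sq_nonneg _) hl (hge i)
      linarith
    have h5 := Finset.sum_le_sum h1
    rw [Finset.sum_sub_distrib, ← Finset.sum_div] at h5
    have h6 : (∑ i, (μ i - 1) ^ 2) / lam ≤ H / lam := div_le_div_of_nonneg_right hH hl.le
    linarith
  · rw [hlog, htr']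
    exact Finset.sum_le_sum fun i _ => Real.log_le_sub_one_of_pos (hpos i)

end Pool.Agent.NQF.P
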