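import Pool.Agent.NQF.PPeP
import Pool.Agent.NQF.PEnt

/-!
# NQF-PRen: renaming the rows does not change `Ee`

PLAN. `pe`: enumerate `R` by `ι`, `C` by `κ` (`ex_enum`); `σ ∘ ι` is injective and enumerates `R.image σ`; `pe_perm` on both sides, the
terms agree. `LD`: the map `(0, x) ↦ (0, σ x)`, `(1, y) ↦ (1, y)` is a bijection `e` from `I2 R C` onto `I2 (R.image σ) C`, and
`AA L2 ((R.image σ) ×ˢ C) Y ga m (e l) (e l') = AA L2 (R ×ˢ C) X ga m l l'` by the entries `aa00`, `aa11`, `aa01`, `aa10` (four cases;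
`(if σ x = σ x' then 1 else 0) = (if x = x' then 1 else 0)` by injectivity). Build the `Equiv` with `Equiv.ofBijective` between the subtypes and
use `Matrix.det_submatrix_equiv_self` (or `Matrix.det_reindex_self`). `Vp`, `Ee` unfold.
-/

set_option autoImplicit false

open Finset

namespace Pool.Agent.NQF.P

open Pool.Agent.NQL

private theorem ren_pe {k : ℕ} {X Y : ℤ × ℤ → ℝ} {R C : Finset ℤ} {σ : ℤ → ℤ} (hR : R.card = k)
    (hC : C.card = k) (hσ : Set.InjOn σ (R : Set ℤ)) (h : ∀ x ∈ R, ∀ y ∈ C, Y (σ x, y) = X (x, y)) :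
    pe Y (R.image σ) C = pe X R C := by
  obtain ⟨ι, hι, hιR⟩ := ex_enum hR
  obtain ⟨κ, hκ, hκC⟩ := ex_enum hC
  have hmR : ∀ i, ι i ∈ R := fun i => by
    rw [← hιR]; exact mem_image_of_mem _ (mem_univ i)
  have hmC : ∀ i, κ i ∈ C := fun i => by
    rw [← hκC]; exact mem_image_of_mem _ (mem_univ i)
  have h1 : Function.Injective (fun i => σ (ι i)) := by
    intro i j hij
    exact hι (hσ (mem_coe.mpr (hmR i)) (mem_coe.mpr (hmR j)) hij)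
  have h2 : univ.image (fun i => σ (ι i)) = R.image σ := by
    rw [← hιR, image_image]
    rfl
  rw [pe_perm Y h1 hκ h2 hκC, pe_perm X hι hκ hιR hκC]
  refine sum_congr rfl (fun π _ => prod_congr rfl (fun i _ => ?_))
  exact h _ (hmR i) _ (hmC (π i))

/-- the renaming of the lines -/
private noncomputable def rn (σ : ℤ → ℤ) (l : Li) : Li := if l.1 = 0 then (0, σ l.2) else l

private theorem rn0 (σ : ℤ → ℤ) (x : ℤ) : rn σ (0, x) = (0, σ x) := by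
  simp [rn]

private theorem rn1 (σ : ℤ → ℤ) (y : ℤ) : rn σ (1, y) = (1, y) := by
  simp [rn]

private theorem rn_mem {R C : Finset ℤ} {σ : ℤ → ℤ} {l : Li} (hl : l ∈ I2 R C) :
    rn σ l ∈ I2 (R.image σ) C := by
  rcases mem_I2.mp hl with ⟨x, hx, rfl⟩ | ⟨y, hy, rfl⟩
  · rw [rn0]
    exact mem_I2.mpr (Or.inl ⟨σ x, mem_image_of_mem _ hx, rfl⟩)
  · rw [rn1]
    exact mem_I2.mpr (Or.inr ⟨y, hy, rfl⟩)

private theorem rn_bij {R C : Finset ℤ} {σ : ℤ → ℤ} (hσ : Set.InjOn σ (R : Set ℤ)) :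
    Function.Bijective (fun l : I2 R C => (⟨rn σ l, rn_mem l.2⟩ : I2 (R.image σ) C)) := by
  constructor
  · rintro ⟨l, hl⟩ ⟨l', hl'⟩ hll
    have h' : rn σ l = rn σ l' := congrArg Subtype.val hll
    apply Subtype.ext
    show l = l'
    rcases mem_I2.mp hl with ⟨x, hx, rfl⟩ | ⟨y, hy, rfl⟩ <;>
      rcases mem_I2.mp hl' with ⟨x', hx', rfl⟩ | ⟨y', hy', rfl⟩
    · rw [rn0, rn0] at h'
      have h3 : σ x = σ x' := (Prod.ext_iff.mp h').2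
      rw [hσ (mem_coe.mpr hx) (mem_coe.mpr hx') h3]
    · rw [rn0, rn1] at h'
      have h0 := (Prod.ext_iff.mp h').1
      simp at h0
    · rw [rn0, rn1] at h'
      have h0 := (Prod.ext_iff.mp h').1
      simp at h0
    · rw [rn1, rn1] at h'
      exact h'
  · rintro ⟨l, hl⟩
    rcases mem_I2.mp hl with ⟨x, hx, rfl⟩ | ⟨y, hy, rfl⟩
    · obtain ⟨z, hz, rfl⟩ := mem_image.mp hx
      exact ⟨⟨(0, z), mem_I2.mpr (Or.inl ⟨z, hz, rfl⟩)⟩, Subtype.ext (rn0 σ z)⟩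
    · exact ⟨⟨(1, y), mem_I2.mpr (Or.inr ⟨y, hy, rfl⟩)⟩, Subtype.ext (rn1 σ y)⟩

private theorem rn_aa {m : ℕ} {X Y : ℤ × ℤ → ℝ} {R C : Finset ℤ} {σ : ℤ → ℤ}
    (hσ : Set.InjOn σ (R : Set ℤ)) (h : ∀ x ∈ R, ∀ y ∈ C, Y (σ x, y) = X (x, y)) {l l' : Li}
    (hl : l ∈ I2 R C) (hl' : l' ∈ I2 R C) :
    AA L2 ((R.image σ) ×ˢ C) Y ga m (rn σ l) (rn σ l') = AA L2 (R ×ˢ C) X ga m l l' := by
  rcases mem_I2.mp hl with ⟨x, hx, rfl⟩ | ⟨y, hy, rfl⟩ <;>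
    rcases mem_I2.mp hl' with ⟨x', hx', rfl⟩ | ⟨y', hy', rfl⟩
  · rw [rn0, rn0, aa00, aa00]
    have h3 : (σ x = σ x') ↔ x = x' :=
      ⟨fun h4 => hσ (mem_coe.mpr hx) (mem_coe.mpr hx') h4, fun h4 => by rw [h4]⟩
    simp only [h3]
  · rw [rn0, rn1, aa01 Y m (mem_image_of_mem σ hx) hy', aa01 X m hx hy', h x hx y' hy']
  · rw [rn0, rn1, aa10 Y m (mem_image_of_mem σ hx') hy, aa10 X m hx' hy, h x' hx' y hy]
  · rw [rn1, rn1, aa11, aa11]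

private theorem rn_ld {m : ℕ} {X Y : ℤ × ℤ → ℝ} {R C : Finset ℤ} {σ : ℤ → ℤ}
    (hσ : Set.InjOn σ (R : Set ℤ)) (h : ∀ x ∈ R, ∀ y ∈ C, Y (σ x, y) = X (x, y)) :
    LD (I2 (R.image σ) C) (AA L2 ((R.image σ) ×ˢ C) Y ga m) = LD (I2 R C) (AA L2 (R ×ˢ C) X ga m) := by
  unfold LD
  congr 1
  rw [← Matrix.det_submatrix_equiv_self (Equiv.ofBijective _ (rn_bij (C := C) hσ))]
  congr 1
  ext i j
  simp only [Matrix.submatrix_apply, Matrix.of_apply, Equiv.ofBijective_apply]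
  exact rn_aa hσ h i.2 j.2

theorem ren {k m : ℕ} {X Y : ℤ × ℤ → ℝ} {R C : Finset ℤ} {σ : ℤ → ℤ} (hR : R.card = k) (hC : C.card = k)
    (hσ : Set.InjOn σ (R : Set ℤ)) (h : ∀ x ∈ R, ∀ y ∈ C, Y (σ x, y) = X (x, y)) :
    Ee m Y (R.image σ) C = Ee m X R C := by
  unfold Ee Vp
  rw [ren_pe hR hC hσ h, rn_ld hσ h]

end Pool.Agent.NQF.P
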