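import Pool.Agent.NQF.PIter
import Pool.Agent.NQF.PRen

/-!
# NQF-PExch: replacing one row by another one

PLAN. `exq` for `(2 K, c/4)`: `τ'`, `C5`, `M5`. `τ = τ'/2`, `C6 = C5`, `m6 ≥ M5` with `K/m6 ≤ τ'/2` (and `m6 ≥ 8`). `M = m + 1`.
New row `s ∉ R`, new column `t ∉ C` (`Infinite.exists_notMem_finset`). `J (x, y) = if y = t then 1/m else if x = s then X' (x0, y) else X (x, y)`,
`R⁺ = insert s R`, `C⁺ = insert t C`.
(1) `Nd (2 K) (c/4) τ' (m+1) (m+1) J R⁺ C⁺`: entries `≤ K/m ≤ 2 K/(m+1)`; row sums `∑ X + 1/m`, column sums `∑_R X (x, y) + X' (x0, y)` within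
`τ + K/m ≤ τ'` of 1, column `t`: `(m+1)/m`; codegrees: rows of `X`: `≥ c/m ≥ (c/4)/(m+1)`; row `s` and row `x ≠ x0`:
`∑ X (x, y) X' (x0, y) = ∑ X' (x, y) X' (x0, y) ≥ c/m`; row `s` and row `x0`: hypothesis; columns `y, y' ∈ C`: `≥ c/m`; column `t` and
column `y`: `(∑ X (x, y) + X' (x0, y))/m ≥ (1/2)/m ≥ (c/4)/(m+1)`.
(2) `Ex J m R⁺ C⁺ (1 + C5/(m+1)²)` (`exq`), first part with the rows `s`, `x0` and the column `t`: `R⁺.erase s = R`, `C⁺.erase t = C`,
`sc J u v = sc X u v` on `R × C`; `R⁺.erase x0 = R.image σ`, `σ x = if x = x0 then s else x`, scaling `u''`, `v'` with `u'' x = if x = s then u' x0 else u' x`;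
`ren`: `Ee m (sc J u'' v') (R⁺.erase x0) C = Ee m (sc X' u' v') R C`. Both orders of the two rows, so both quotients are
`≤ 1 + C5/(m+1)²`; `log (1 + t) ≤ t`; all `Ee > 0` (`apr` for `Ds (2 K) (c/4) m`, `scl_ds`).
`ee_congr`: `pe_congr`, `vp_congr`.
-/

set_option autoImplicit false

open Finset

namespace Pool.Agent.NQF.P

open Pool.Agent.NQL

theorem ee_congr {m : ℕ} {w w' : ℤ × ℤ → ℝ} {R C : Finset ℤ} (h : ∀ x ∈ R, ∀ y ∈ C, w (x, y) = w' (x, y)) :
    Ee m w R C = Ee m w' R C := by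
  unfold Ee
  rw [pe_congr h, vp_congr h]

theorem scl_ren {X Y : ℤ × ℤ → ℝ} {R C : Finset ℤ} {σ : ℤ → ℤ} {u u' v : ℤ → ℝ} (hσ : Set.InjOn σ (R : Set ℤ))
    (hs : Scl X R C u v) (hu : ∀ x ∈ R, u' (σ x) = u x) (h : ∀ x ∈ R, ∀ y ∈ C, Y (σ x, y) = X (x, y)) :
    Scl Y (R.image σ) C u' v := by
  have key : ∀ x ∈ R, ∀ y ∈ C, sc Y u' v (σ x, y) = sc X u v (x, y) := by
    intro x hx y hy
    simp only [sc]
    rw [h x hx y hy, hu x hx]
  refine ⟨?_, hs.bv, ?_, ?_⟩
  · intro x' hx'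
    obtain ⟨x, hx, rfl⟩ := Finset.mem_image.1 hx'
    rw [hu x hx]
    exact hs.bu x hx
  · intro x' hx'
    obtain ⟨x, hx, rfl⟩ := Finset.mem_image.1 hx'
    rw [Finset.sum_congr rfl (fun y hy => key x hx y hy)]
    exact hs.row x hx
  · intro y hy
    rw [Finset.sum_image (fun a ha b hb hab => hσ ha hb hab), Finset.sum_congr rfl (fun x hx => key x hx y hy)]
    exact hs.col y hy

theorem scl_congr {X Y : ℤ × ℤ → ℝ} {R C : Finset ℤ} {u v : ℤ → ℝ}
    (hs : Scl X R C u v) (h : ∀ x ∈ R, ∀ y ∈ C, Y (x, y) = X (x, y)) : Scl Y R C u v := by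
  have key : ∀ x ∈ R, ∀ y ∈ C, sc Y u v (x, y) = sc X u v (x, y) := by
    intro x hx y hy
    simp only [sc]
    rw [h x hx y hy]
  refine ⟨hs.bu, hs.bv, ?_, ?_⟩
  · intro x hx
    rw [Finset.sum_congr rfl (fun y hy => key x hx y hy)]
    exact hs.row x hx
  · intro y hy
    rw [Finset.sum_congr rfl (fun x hx => key x hx y hy)]
    exact hs.col y hy

/-- the extended matrix -/
noncomputable def Jx (m : ℕ) (X X' : ℤ × ℤ → ℝ) (x0 s t : ℤ) (e : ℤ × ℤ) : ℝ :=
  if e.2 = t then 1 / m else if e.1 = s then X' (x0, e.2) else X (e.1, e.2)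

theorem jx_t (m : ℕ) (X X' : ℤ × ℤ → ℝ) (x0 s t x : ℤ) : Jx m X X' x0 s t (x, t) = 1 / m := by
  simp [Jx]

theorem jx_s (m : ℕ) (X X' : ℤ × ℤ → ℝ) (x0 s t y : ℤ) (hy : y ≠ t) : Jx m X X' x0 s t (s, y) = X' (x0, y) := by
  simp [Jx, hy]

theorem jx_n (m : ℕ) (X X' : ℤ × ℤ → ℝ) (x0 s t x y : ℤ) (hx : x ≠ s) (hy : y ≠ t) :
    Jx m X X' x0 s t (x, y) = X (x, y) := by
  simp [Jx, hy, hx]

theorem nd_ext {K c τ τ' : ℝ} (hK : 1 ≤ K) (hc : 0 < c) (hc1 : c ≤ 1) {m : ℕ} {X X' : ℤ × ℤ → ℝ} {R C : Finset ℤ}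
    {x0 s t : ℤ} (hm : 1 ≤ m) (hx0 : x0 ∈ R) (hs : s ∉ R) (ht : t ∉ C) (hτ : τ ≤ 1 / 2) (hτ' : τ + K / m ≤ τ')
    (h : Nd K c τ m m X R C) (h' : Nd K c τ m m X' R C)
    (hXX : ∀ x ∈ R, x ≠ x0 → ∀ y ∈ C, X' (x, y) = X (x, y))
    (hco : c / m ≤ ∑ y ∈ C, X (x0, y) * X' (x0, y)) :
    Nd (2 * K) (c / 4) τ' (m + 1) (m + 1) (Jx m X X' x0 s t) (insert s R) (insert t C) := by
  have hm0 : (0 : ℝ) < m := by exact_mod_cast hm
  have hm1 : (1 : ℝ) ≤ m := by exact_mod_cast hm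
  have hne : ∀ x ∈ R, x ≠ s := fun x hx hxs => hs (hxs ▸ hx)
  have hney : ∀ y ∈ C, y ≠ t := fun y hy hyt => ht (hyt ▸ hy)
  have hKm : K / m ≤ 2 * K / ((m + 1 : ℕ) : ℝ) := by
    push_cast
    rw [div_le_div_iff₀ hm0 (by linarith)]
    nlinarith
  have h1K : 1 / (m : ℝ) ≤ K / m := div_le_div_of_nonneg_right hK hm0.le
  have hcm : c / 4 / ((m + 1 : ℕ) : ℝ) ≤ c / m := by
    push_cast
    rw [div_div, div_le_div_iff₀ (by linarith) hm0]
    nlinarith
  have h1m : 0 ≤ 1 / (m : ℝ) := by positivity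
  -- entries
  have e1 : ∀ x ∈ R, ∀ y ∈ C, Jx m X X' x0 s t (x, y) = X (x, y) :=
    fun x hx y hy => jx_n m X X' x0 s t x y (hne x hx) (hney y hy)
  have e2 : ∀ y ∈ C, Jx m X X' x0 s t (s, y) = X' (x0, y) :=
    fun y hy => jx_s m X X' x0 s t y (hney y hy)
  have e3 : ∀ x, Jx m X X' x0 s t (x, t) = 1 / m := fun x => jx_t m X X' x0 s t x
  have nn : ∀ x ∈ insert s R, ∀ y ∈ insert t C, 0 ≤ Jx m X X' x0 s t (x, y) := by
    intro x hx y hy
    rcases Finset.mem_insert.1 hy with rfl | hy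
    · rw [e3]
      exact h1m
    · rcases Finset.mem_insert.1 hx with rfl | hx
      · rw [e2 y hy]
        exact h'.nn x0 hx0 y hy
      · rw [e1 x hx y hy]
        exact h.nn x hx y hy
  have rs : ∀ x : ℤ, ∑ y ∈ insert t C, Jx m X X' x0 s t (x, y) = 1 / m + ∑ y ∈ C, Jx m X X' x0 s t (x, y) := by
    intro x
    rw [Finset.sum_insert ht, e3]
  have cs : ∀ y ∈ C, ∑ x ∈ insert s R, Jx m X X' x0 s t (x, y) = X' (x0, y) + ∑ x ∈ R, X (x, y) := by
    intro y hy
    rw [Finset.sum_insert hs, e2 y hy, Finset.sum_congr rfl (fun x hx => e1 x hx y hy)]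
  refine ⟨?_, ?_, le_refl _, by omega, nn, ?_, ?_, ?_, ?_, ?_⟩
  · rw [Finset.card_insert_of_notMem hs, h.cR]
  · rw [Finset.card_insert_of_notMem ht, h.cC]
  · intro x hx y hy
    refine le_trans ?_ hKm
    rcases Finset.mem_insert.1 hy with rfl | hy
    · rw [e3]
      exact h1K
    · rcases Finset.mem_insert.1 hx with rfl | hx
      · rw [e2 y hy]
        exact h'.up x0 hx0 y hy
      · rw [e1 x hx y hy]
        exact h.up x hx y hy
  · intro x hx
    rw [rs]
    rcases Finset.mem_insert.1 hx with rfl | hx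
    · rw [Finset.sum_congr rfl (fun y hy => e2 y hy)]
      have := abs_le.1 (h'.row x0 hx0)
      rw [abs_le]
      constructor <;> linarith [this.1, this.2]
    · rw [Finset.sum_congr rfl (fun y hy => e1 x hx y hy)]
      have := abs_le.1 (h.row x hx)
      rw [abs_le]
      constructor <;> linarith [this.1, this.2]
  · intro y hy
    rcases Finset.mem_insert.1 hy with rfl | hy
    · have e4 : ∑ x ∈ insert s R, Jx m X X' x0 s y (x, y) = 1 + 1 / (m : ℝ) := by
        rw [Finset.sum_congr rfl (fun x _ => e3 x), Finset.sum_const, Finset.card_insert_of_notMem hs, h.cR, nsmul_eq_mul]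
        push_cast
        field_simp
      rw [e4]
      have h0τ : 0 ≤ τ := le_trans (abs_nonneg _) (h.row x0 hx0)
      rw [abs_le]
      constructor <;> linarith
    · rw [cs y hy]
      have h1 := abs_le.1 (h.col y hy)
      have h2 := h'.nn x0 hx0 y hy
      have h3 := h'.up x0 hx0 y hy
      rw [abs_le]
      constructor <;> linarith [h1.1, h1.2]
  · -- codegrees of rows
    have main : ∀ x ∈ R, c / m ≤ ∑ y ∈ C, X' (x0, y) * X (x, y) := by
      intro x hx
      by_cases hxx : x = x0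
      · subst hxx
        refine le_trans hco (le_of_eq ?_)
        exact Finset.sum_congr rfl (fun y _ => mul_comm _ _)
      · refine le_trans (h'.gr x0 hx0 x hx (Ne.symm hxx)) (le_of_eq ?_)
        exact Finset.sum_congr rfl (fun y hy => by rw [hXX x hx hxx y hy])
    intro x hx x' hx' hxx
    rw [Finset.sum_insert ht, e3, e3]
    refine le_trans hcm (le_add_of_nonneg_of_le (mul_nonneg h1m h1m) ?_)
    rcases Finset.mem_insert.1 hx with hxs | hxR
    · rcases Finset.mem_insert.1 hx' with hxs' | hxR'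
      · exact absurd (hxs.trans hxs'.symm) hxx
      · rw [hxs, Finset.sum_congr rfl (fun y hy => by rw [e2 y hy, e1 x' hxR' y hy])]
        exact main x' hxR'
    · rcases Finset.mem_insert.1 hx' with hxs' | hxR'
      · rw [hxs', Finset.sum_congr rfl (fun y hy => by rw [e2 y hy, e1 x hxR y hy, mul_comm])]
        exact main x hxR
      · rw [Finset.sum_congr rfl (fun y hy => by rw [e1 x hxR y hy, e1 x' hxR' y hy])]
        exact h.gr x hxR x' hxR' hxx
  · -- codegrees of columns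
    have main : ∀ y ∈ C, c / 4 / ((m + 1 : ℕ) : ℝ) ≤ ∑ x ∈ insert s R, 1 / (m : ℝ) * Jx m X X' x0 s t (x, y) := by
      intro y hy
      rw [← Finset.mul_sum, cs y hy]
      have h1 := abs_le.1 (h.col y hy)
      have h2 := h'.nn x0 hx0 y hy
      have h3 : (1 / 2 : ℝ) ≤ X' (x0, y) + ∑ x ∈ R, X (x, y) := by linarith [h1.1]
      have h4 : 1 / (m : ℝ) * (1 / 2) ≤ 1 / (m : ℝ) * (X' (x0, y) + ∑ x ∈ R, X (x, y)) :=
        mul_le_mul_of_nonneg_left h3 h1m
      refine le_trans ?_ h4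
      push_cast
      have h5 : (1 : ℝ) / m * (1 / 2) = 1 / (2 * m) := by
        rw [div_mul_div_comm, one_mul, mul_comm]
      rw [h5, div_div, div_le_div_iff₀ (by positivity) (by positivity)]
      nlinarith
    intro y hy y' hy' hyy
    rcases Finset.mem_insert.1 hy with hyt | hy
    · rcases Finset.mem_insert.1 hy' with hyt' | hy'
      · exact absurd (hyt.trans hyt'.symm) hyy
      · rw [hyt, Finset.sum_congr rfl (fun x _ => by rw [e3 x])]
        exact main y' hy'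
    · rcases Finset.mem_insert.1 hy' with hyt' | hy'
      · rw [hyt', Finset.sum_congr rfl (fun x _ => by rw [e3 x, mul_comm])]
        exact main y hy
      · refine le_trans hcm ?_
        rw [Finset.sum_insert hs]
        refine le_add_of_nonneg_of_le (mul_nonneg (nn s (Finset.mem_insert_self _ _) y (Finset.mem_insert_of_mem hy))
          (nn s (Finset.mem_insert_self _ _) y' (Finset.mem_insert_of_mem hy'))) ?_
        rw [Finset.sum_congr rfl (fun x hx => by rw [e1 x hx y hy, e1 x hx y' hy'])]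
        exact h.gc y hy y' hy' hyy

theorem exch (hLS : LsP) {K c : ℝ} (hK : 1 ≤ K) (hc : 0 < c) (hc1 : c ≤ 1) : ∃ (τ C6 : ℝ) (m6 : ℕ),
    0 < τ ∧ τ ≤ 1 / 2 ∧ 1 ≤ C6 ∧ 8 ≤ m6 ∧ ∀ (m : ℕ) (X X' : ℤ × ℤ → ℝ) (R C : Finset ℤ) (x0 : ℤ), m6 ≤ m → x0 ∈ R →
      Nd K c τ m m X R C → Nd K c τ m m X' R C → (∀ x ∈ R, x ≠ x0 → ∀ y ∈ C, X' (x, y) = X (x, y)) →
      c / m ≤ ∑ y ∈ C, X (x0, y) * X' (x0, y) → ∀ u v u' v' : ℤ → ℝ, Scl X R C u v → Scl X' R C u' v' →
        |Real.log (Ee m (sc X u v) R C) - Real.log (Ee m (sc X' u' v') R C)| ≤ C6 / m ^ 2 := by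
  obtain ⟨τ', C5, M5, hτ0, hτ1, hC5, hM5, H⟩ := exq hLS (K := 2 * K) (c := c / 4) (by linarith) (by linarith) (by linarith)
  obtain ⟨B, hB, HB⟩ := apr (K := 2 * K) (c := c / 4) (by linarith) (by linarith) (by linarith)
  obtain ⟨m0, hm0⟩ := exists_nat_ge (2 * K / τ')
  refine ⟨τ' / 2, C5, max M5 m0, by linarith, by linarith, hC5, le_trans hM5 (le_max_left _ _), ?_⟩
  intro m X X' R C x0 hm hx0 h h' hXX hco u v u' v' hs hs'
  have hmM : M5 ≤ m := le_trans (le_max_left _ _) hm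
  have hm8 : 8 ≤ m := le_trans hM5 hmM
  have hmp : (0 : ℝ) < m := by
    have : 0 < m := by omega
    exact_mod_cast this
  have hKm : K / m ≤ τ' / 2 := by
    have h1 : 2 * K / τ' ≤ m := le_trans hm0 (by exact_mod_cast le_trans (le_max_right _ _) hm)
    rw [div_le_iff₀ hτ0] at h1
    rw [div_le_iff₀ hmp]
    linarith
  obtain ⟨s, hsR⟩ := Infinite.exists_notMem_finset R
  obtain ⟨t, htC⟩ := Infinite.exists_notMem_finset C
  have hnd := nd_ext (τ' := τ') (s := s) (t := t) hK hc hc1 (by omega) hx0 hsR htC (by linarith) (by linarith) h h' hXX hco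
  have hex := (H (m + 1) (Jx m X X' x0 s t) (insert s R) (insert t C) (by omega) hnd).1
  rw [Nat.add_sub_cancel] at hex
  have hsx : s ≠ x0 := fun hh => hsR (hh ▸ hx0)
  -- the renaming
  set σ : ℤ → ℤ := fun x => if x = x0 then s else x with hσdef
  have hinj : Set.InjOn σ (R : Set ℤ) := by
    intro a ha b hb hab
    simp only [hσdef] at hab
    have ha' : a ∈ R := ha
    have hb' : b ∈ R := hb
    by_cases h1 : a = x0
    · by_cases h2 : b = x0
      · rw [h1, h2]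
      · rw [if_pos h1, if_neg h2] at hab
        exact absurd (hab ▸ hb') hsR
    · by_cases h2 : b = x0
      · rw [if_neg h1, if_pos h2] at hab
        exact absurd (hab ▸ ha') hsR
      · rw [if_neg h1, if_neg h2] at hab
        exact hab
  have himg : (insert s R).erase x0 = R.image σ := by
    ext x
    simp only [Finset.mem_erase, Finset.mem_insert, Finset.mem_image, hσdef]
    constructor
    · rintro ⟨hx1, rfl | hx2⟩
      · exact ⟨x0, hx0, if_pos rfl⟩
      · exact ⟨x, hx2, if_neg hx1⟩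
    · rintro ⟨a, ha, rfl⟩
      by_cases h1 : a = x0
      · rw [if_pos h1]
        exact ⟨hsx, Or.inl rfl⟩
      · rw [if_neg h1]
        exact ⟨h1, Or.inr ha⟩
  have hne : ∀ x ∈ R, x ≠ s := fun x hx hxs => hsR (hxs ▸ hx)
  have hney : ∀ y ∈ C, y ≠ t := fun y hy hyt => htC (hyt ▸ hy)
  have hJ1 : ∀ x ∈ R, ∀ y ∈ C, Jx m X X' x0 s t (x, y) = X (x, y) :=
    fun x hx y hy => jx_n m X X' x0 s t x y (hne x hx) (hney y hy)
  have hJ2 : ∀ x ∈ R, ∀ y ∈ C, Jx m X X' x0 s t (σ x, y) = X' (x, y) := by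
    intro x hx y hy
    by_cases h1 : x = x0
    · simp only [hσdef]
      rw [if_pos h1, jx_s m X X' x0 s t y (hney y hy), h1]
    · simp only [hσdef]
      rw [if_neg h1, hJ1 x hx y hy, hXX x hx h1 y hy]
  set u2 : ℤ → ℝ := fun x => if x = s then u' x0 else u' x with hu2
  have hu : ∀ x ∈ R, u2 (σ x) = u' x := by
    intro x hx
    by_cases h1 : x = x0
    · simp only [hσdef, hu2]
      rw [if_pos h1, if_pos rfl, h1]
    · simp only [hσdef, hu2]
      rw [if_neg h1, if_neg (hne x hx)]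
  have S1 : Scl (Jx m X X' x0 s t) R C u v := scl_congr hs hJ1
  have S2 : Scl (Jx m X X' x0 s t) (R.image σ) C u2 v' := scl_ren hinj hs' hu hJ2
  have E1 : Ee m (sc (Jx m X X' x0 s t) u v) R C = Ee m (sc X u v) R C := by
    apply ee_congr
    intro x hx y hy
    simp only [sc]
    rw [hJ1 x hx y hy]
  have E2 : Ee m (sc (Jx m X X' x0 s t) u2 v') (R.image σ) C = Ee m (sc X' u' v') R C := by
    apply ren h.cR h.cC hinj
    intro x hx y hy
    simp only [sc]
    rw [hJ2 x hx y hy, hu x hx]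
  have er1 : (insert s R).erase s = R := Finset.erase_insert hsR
  have er2 : (insert t C).erase t = C := Finset.erase_insert htC
  have I1 := hex s (Finset.mem_insert_self _ _) x0 (Finset.mem_insert_of_mem hx0) hsx t (Finset.mem_insert_self _ _)
    u v u2 v' (by rw [er1, er2]; exact S1) (by rw [himg, er2]; exact S2)
  have I2' := hex x0 (Finset.mem_insert_of_mem hx0) s (Finset.mem_insert_self _ _) (Ne.symm hsx) t (Finset.mem_insert_self _ _)
    u2 v' u v (by rw [himg, er2]; exact S2) (by rw [er1, er2]; exact S1)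
  rw [er1, er2, himg, E1, E2] at I1
  rw [er1, er2, himg, E1, E2] at I2'
  have P1 := (HB m (sc X u v) R C (by omega) (scl_ds (by linarith) hc.le (by omega) h hs)).2.1
  have P2 := (HB m (sc X' u' v') R C (by omega) (scl_ds (by linarith) hc.le (by omega) h' hs')).2.1
  have hq0 : 0 ≤ C5 / ((m + 1 : ℕ) : ℝ) ^ 2 := by positivity
  have hq1 : C5 / ((m + 1 : ℕ) : ℝ) ^ 2 ≤ C5 / (m : ℝ) ^ 2 := by
    push_cast
    apply div_le_div_of_nonneg_left (by linarith) (by positivity)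
    nlinarith
  have hlog : Real.log (1 + C5 / ((m + 1 : ℕ) : ℝ) ^ 2) ≤ C5 / ((m + 1 : ℕ) : ℝ) ^ 2 := by
    have := Real.log_le_sub_one_of_pos (show (0 : ℝ) < 1 + C5 / ((m + 1 : ℕ) : ℝ) ^ 2 by linarith)
    linarith
  have aux : ∀ a b : ℝ, 0 < a → 0 < b → a ≤ (1 + C5 / ((m + 1 : ℕ) : ℝ) ^ 2) * b → Real.log a - Real.log b ≤ C5 / (m : ℝ) ^ 2 := by
    intro a b ha hb hab
    have h1 := Real.log_le_log ha hab
    rw [Real.log_mul (by linarith) hb.ne'] at h1
    linarith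
  rw [abs_le]
  constructor
  · have := aux _ _ P2 P1 I2'
    linarith
  · exact aux _ _ P1 P2 I1

end Pool.Agent.NQF.P
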