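import Pool.Agent.NQF.PDefs

/-!
# NQF-PPeB: simple properties of the permanent

PLAN. Every `s` in the sum of `pe` is a subset of `R ×ˢ C`: `pe_congr`, `pe_nonneg` at once (`Finset.sum_congr`, `prod_congr`,
`sum_nonneg`, `prod_nonneg`; `(x, y) ∈ R ×ˢ C ↔ x ∈ R ∧ y ∈ C`).
`pe_sc`: for a perfect matching `s ⊆ R ×ˢ C`: `∏_{e ∈ s} X e * exp (u e.1 + v e.2) = (∏ X e) * exp (∑_{e ∈ s} (u e.1 + v e.2))`
(`Finset.prod_mul_distrib`, `Real.exp_sum`), `∑_{e ∈ s} u e.1 = ∑_{x ∈ R} u x` because `Prod.fst` is a bijection from `s` onto `R`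
(injective on `s`: the `y` of a row is unique; surjective: it exists), the same for `Prod.snd` and `C`.
-/

set_option autoImplicit false

open Finset

namespace Pool.Agent.NQF.P

open Pool.Agent.NQL

private theorem mem_of {s : Finset (ℤ × ℤ)} {R C : Finset ℤ}
    (hs : s ∈ (R ×ˢ C).powerset) {e : ℤ × ℤ} (he : e ∈ s) : e.1 ∈ R ∧ e.2 ∈ C :=
  Finset.mem_product.mp (Finset.mem_powerset.mp hs he)

theorem pe_congr {X Y : ℤ × ℤ → ℝ} {R C : Finset ℤ} (h : ∀ x ∈ R, ∀ y ∈ C, X (x, y) = Y (x, y)) :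
    pe X R C = pe Y R C := by
  classical
  unfold pe
  refine Finset.sum_congr rfl fun s hs => Finset.prod_congr rfl fun e he => ?_
  have h1 := mem_of (Finset.mem_filter.mp hs).1 he
  exact h e.1 h1.1 e.2 h1.2

theorem pe_nonneg {X : ℤ × ℤ → ℝ} {R C : Finset ℤ} (h : ∀ x ∈ R, ∀ y ∈ C, 0 ≤ X (x, y)) : 0 ≤ pe X R C := by
  classical
  unfold pe
  refine Finset.sum_nonneg fun s hs => Finset.prod_nonneg fun e he => ?_
  have h1 := mem_of (Finset.mem_filter.mp hs).1 he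
  exact h e.1 h1.1 e.2 h1.2

theorem pe_sc (X : ℤ × ℤ → ℝ) (R C : Finset ℤ) (u v : ℤ → ℝ) :
    pe (sc X u v) R C = pe X R C * Real.exp (∑ x ∈ R, u x + ∑ y ∈ C, v y) := by
  classical
  unfold pe
  rw [Finset.sum_mul]
  refine Finset.sum_congr rfl fun s hs => ?_
  obtain ⟨hs1, hs2⟩ := Finset.mem_filter.mp hs
  unfold sc
  rw [Finset.prod_mul_distrib, ← Real.exp_sum, Finset.sum_add_distrib]
  have h1 : ∑ e ∈ s, u e.1 = ∑ x ∈ R, u x := by
    refine Finset.sum_bij (fun e _ => e.1) (fun e he => (mem_of hs1 he).1) ?_ ?_ (fun _ _ => rfl)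
    · intro e he e' he' hee
      have h3 := (hs2.1 e.1 (mem_of hs1 he).1).unique he (by
        have : e.1 = e'.1 := hee
        rw [this]
        exact he')
      exact Prod.ext hee h3
    · intro x hx
      obtain ⟨y, hy, -⟩ := hs2.1 x hx
      exact ⟨(x, y), hy, rfl⟩
  have h2 : ∑ e ∈ s, v e.2 = ∑ y ∈ C, v y := by
    refine Finset.sum_bij (fun e _ => e.2) (fun e he => (mem_of hs1 he).2) ?_ ?_ (fun _ _ => rfl)
    · intro e he e' he' hee
      have h3 := (hs2.2 e.2 (mem_of hs1 he).2).unique he (by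
        have : e.2 = e'.2 := hee
        rw [this]
        exact he')
      exact Prod.ext h3 hee
    · intro y hy
      obtain ⟨x, hx, -⟩ := hs2.2 y hy
      exact ⟨(x, y), hx, rfl⟩
  rw [h1, h2]

end Pool.Agent.NQF.P
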