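import Pool.Agent.NQF.PSys
import Pool.Agent.NQF.PPeB

/-!
# NQF-PLnk: facts on matrices used at the end of the induction on the board
-/

set_option autoImplicit false

open Finset

namespace Pool.Agent.NQF.P

open Pool.Agent.NQL

theorem ds_ls (K c : ℝ) (_ : 1 ≤ K) (hc : 0 < c) : ∃ lam : ℝ, 0 < lam ∧ lam ≤ 1 ∧ ∀ (m : ℕ) (R C : Finset ℤ)
    (w : ℤ × ℤ → ℝ), 1 ≤ m → Ds K c m w R C → LSys 2 m K lam (I2 R C) L2 (R ×ˢ C) w (fun _ => 0) ga := by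
  obtain ⟨c', hc'0, hc'1, hc'c⟩ : ∃ c' : ℝ, 0 < c' ∧ c' ≤ 1 ∧ c' ≤ c := ⟨min c 1, lt_min hc one_pos, min_le_right _ _,
    min_le_left _ _⟩
  refine ⟨c' / 100, by positivity, by linarith, fun m R C w hm hw => ?_⟩
  have hm0 : (0 : ℝ) < m := by exact_mod_cast hm
  refine ds_lsys hc'0 hc'1 hm ⟨hw.cR, hw.cC, hw.nn, hw.up, hw.row, hw.col, fun x hx x' hx' hne => ?_,
    fun y hy y' hy' hne => ?_⟩
  · exact (div_le_div_of_nonneg_right hc'c hm0.le).trans (hw.gr x hx x' hx' hne)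
  · exact (div_le_div_of_nonneg_right hc'c hm0.le).trans (hw.gc y hy y' hy' hne)

theorem pe_scale (X : ℤ × ℤ → ℝ) (R C : Finset ℤ) (u v : ℤ → ℝ) :
    pe (fun e => X e * Real.exp (u e.1 + v e.2)) R C = Real.exp (∑ x ∈ R, u x + ∑ y ∈ C, v y) * pe X R C := by
  rw [mul_comm]
  exact pe_sc X R C u v

end Pool.Agent.NQF.P
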