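import Pool.Agent.NQF.PDefs
import Pool.Agent.NQF.PCo
import Pool.Agent.NQF.PSclA

/-!
# NQF-PScal: scaling of a nearly doubly stochastic matrix, linear bound of the potentials
-/

set_option autoImplicit false

open Finset

namespace Pool.Agent.NQF.P

open Pool.Agent.NQL

private theorem sb_one {u T γ : ℝ} (hu : |u| ≤ 1) (hT : |T - 1| ≤ 1 / 50) (hγ : |γ| ≤ 1 / 50)
    (h1 : u < 1 → 0 ≤ Real.exp u * T - 1 + γ) (h2 : -1 < u → Real.exp u * T - 1 + γ ≤ 0) :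
    Real.exp u * T = 1 - γ := by
  obtain ⟨hu1, hu2⟩ := abs_le.mp hu
  obtain ⟨hT1, hT2⟩ := abs_le.mp hT
  obtain ⟨hγ1, hγ2⟩ := abs_le.mp hγ
  have hlt : u < 1 := by
    by_contra hcon
    have he : u = 1 := le_antisymm hu2 (not_lt.mp hcon)
    have h3 := h2 (by rw [he]; norm_num)
    rw [he] at h3
    have h4 := Real.exp_one_gt_d9
    nlinarith
  have hgt : -1 < u := by
    by_contra hcon
    have he : u = -1 := le_antisymm (not_lt.mp hcon) hu1
    have h3 := h1 (by rw [he]; norm_num)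
    rw [he] at h3
    have h4 : Real.exp (-1) < 1 / 2 := by
      rw [Real.exp_neg, inv_eq_one_div]
      have h5 := Real.exp_one_gt_d9
      exact one_div_lt_one_div_of_lt (by norm_num) (by linarith)
    have h6 : 0 < Real.exp (-1) := Real.exp_pos _
    nlinarith
  have h3 := h1 hlt
  have h4 := h2 hgt
  linarith

private theorem sb_two' {u T δ : ℝ} (hδ : δ ≤ 1 / 50) (hT : |T - 1| ≤ δ) (h : Real.exp u * T = 1) : |u| ≤ 2 * δ := by
  obtain ⟨hT1, hT2⟩ := abs_le.mp hT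
  have hδ0 : 0 ≤ δ := (abs_nonneg _).trans hT
  rw [abs_le]
  constructor
  · by_contra hcon
    have hcon' : u < -(2 * δ) := not_le.mp hcon
    have h1 := Real.add_one_le_exp (-u)
    have h2 : T = Real.exp (-u) := by
      have h3 : Real.exp (-u) * Real.exp u = 1 := by
        rw [← Real.exp_add]
        simp
      calc T = Real.exp (-u) * Real.exp u * T := by rw [h3, one_mul]
        _ = Real.exp (-u) * (Real.exp u * T) := by ring
        _ = Real.exp (-u) := by rw [h, mul_one]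
    linarith
  · by_contra hcon
    have hcon' : 2 * δ < u := not_le.mp hcon
    have h1 := Real.add_one_le_exp u
    have hT0 : 0 < T := by linarith
    have h3 : (1 + 2 * δ) * T < Real.exp u * T := mul_lt_mul_of_pos_right (by linarith) hT0
    nlinarith

private theorem sb_pr {a b s t : ℝ} (ha : 0 ≤ a) (hb : 0 ≤ b) (hs : |s| ≤ 2 / 25) (ht : |t| ≤ 2 / 25) :
    1 / 2 * (a * b) ≤ a * Real.exp s * (b * Real.exp t) := by
  have h1 : 1 / 2 ≤ Real.exp s * Real.exp t := by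
    rw [← Real.exp_add]
    have h2 := Real.add_one_le_exp (s + t)
    have h3 := neg_abs_le s
    have h4 := neg_abs_le t
    linarith
  have h5 : a * Real.exp s * (b * Real.exp t) = Real.exp s * Real.exp t * (a * b) := by ring
  rw [h5]
  exact mul_le_mul_of_nonneg_right h1 (mul_nonneg ha hb)

private theorem sb_three (C : Finset ℤ) (a v : ℤ → ℝ) {K ε m : ℝ} (hm : 0 < m) (hK : 1 ≤ K)
    (hε0 : 0 ≤ ε) (hε : K * ε ≤ 3 / 500) (ha : ∀ y ∈ C, 0 ≤ a y) (hak : ∀ y ∈ C, a y ≤ K / m)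
    {τ : ℝ} (hs : |∑ y ∈ C, a y - 1| ≤ τ) (hτs : τ ≤ 1 / 1000) (hv : ∀ y ∈ C, |v y| ≤ 1)
    (hS : ∑ y ∈ C, v y ^ 2 ≤ ε ^ 2 * m) : |∑ y ∈ C, a y * Real.exp (v y) - 1| ≤ τ + 5 / 2 * (K * ε) := by
  obtain ⟨hs1, hs2⟩ := abs_le.mp hs
  set P : ℝ := ∑ y ∈ C, a y * |v y| with hP
  have hP0 : 0 ≤ P := Finset.sum_nonneg fun y hy => mul_nonneg (ha y hy) (abs_nonneg _)
  have h1 : P ^ 2 ≤ (∑ y ∈ C, a y ^ 2) * ∑ y ∈ C, |v y| ^ 2 :=
    Finset.sum_mul_sq_le_sq_mul_sq C a fun y => |v y|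
  have h2 : ∑ y ∈ C, a y ^ 2 ≤ K / m * (3 / 2) := by
    calc ∑ y ∈ C, a y ^ 2 ≤ ∑ y ∈ C, K / m * a y := Finset.sum_le_sum fun y hy => by
          rw [sq]
          exact mul_le_mul_of_nonneg_right (hak y hy) (ha y hy)
      _ = K / m * ∑ y ∈ C, a y := by rw [Finset.mul_sum]
      _ ≤ K / m * (3 / 2) := mul_le_mul_of_nonneg_left (by linarith) (by positivity)
  have h3 : ∑ y ∈ C, |v y| ^ 2 ≤ ε ^ 2 * m := by
    simp only [sq_abs]
    exact hS
  have h4 : P ^ 2 ≤ (5 / 4 * (K * ε)) ^ 2 := by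
    calc P ^ 2 ≤ (∑ y ∈ C, a y ^ 2) * ∑ y ∈ C, |v y| ^ 2 := h1
      _ ≤ (K / m * (3 / 2)) * (ε ^ 2 * m) :=
          mul_le_mul h2 h3 (Finset.sum_nonneg fun y _ => sq_nonneg _) (by positivity)
      _ = 3 / 2 * (K * ε ^ 2) := by field_simp
      _ ≤ (5 / 4 * (K * ε)) ^ 2 := by
          have h5 : K * ε ^ 2 ≤ K ^ 2 * ε ^ 2 := by
            have h6 : K ≤ K ^ 2 := by nlinarith
            exact mul_le_mul_of_nonneg_right h6 (sq_nonneg _)
          have h7 : 0 ≤ K ^ 2 * ε ^ 2 := by positivity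
          nlinarith
  have h5 : P ≤ 5 / 4 * (K * ε) := by
    have h6 : 0 ≤ 5 / 4 * (K * ε) := by positivity
    have h7 := abs_le_of_sq_le_sq h4 h6
    exact (le_abs_self P).trans h7
  have h6 : ∑ y ∈ C, a y * Real.exp (v y) - 1 =
      ∑ y ∈ C, a y * (Real.exp (v y) - 1) + (∑ y ∈ C, a y - 1) := by
    have h7 : ∑ y ∈ C, a y * (Real.exp (v y) - 1) = ∑ y ∈ C, a y * Real.exp (v y) - ∑ y ∈ C, a y := by
      rw [← Finset.sum_sub_distrib]
      refine Finset.sum_congr rfl fun y _ => ?_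
      ring
    rw [h7]
    ring
  have h7 : |∑ y ∈ C, a y * (Real.exp (v y) - 1)| ≤ 2 * P := by
    calc |∑ y ∈ C, a y * (Real.exp (v y) - 1)| ≤ ∑ y ∈ C, |a y * (Real.exp (v y) - 1)| :=
          Finset.abs_sum_le_sum_abs _ _
      _ ≤ ∑ y ∈ C, 2 * (a y * |v y|) := Finset.sum_le_sum fun y hy => by
          rw [abs_mul, abs_of_nonneg (ha y hy)]
          have h8 := Real.abs_exp_sub_one_le (hv y hy)
          have h9 := mul_le_mul_of_nonneg_left h8 (ha y hy)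
          linarith
      _ = 2 * P := by rw [← Finset.mul_sum]
  obtain ⟨h8, h9⟩ := abs_le.mp h7
  rw [h6, abs_le]
  constructor
  · linarith
  · linarith

theorem scal (K c : ℝ) (hK : 1 ≤ K) (hc : 0 < c) : ∃ (C τ0 : ℝ) (m0 : ℕ), 1 ≤ C ∧ 0 < τ0 ∧
    ∀ (m : ℕ) (R C' : Finset ℤ) (X : ℤ × ℤ → ℝ) (τ : ℝ), m0 ≤ m → R.card = m → C'.card = m →
      (∀ x ∈ R, ∀ y ∈ C', 0 ≤ X (x, y)) → (∀ x ∈ R, ∀ y ∈ C', X (x, y) ≤ K / m) →
      (∀ x ∈ R, |∑ y ∈ C', X (x, y) - 1| ≤ τ) → (∀ y ∈ C', |∑ x ∈ R, X (x, y) - 1| ≤ τ) → 0 ≤ τ → τ ≤ τ0 →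
      (∀ x ∈ R, ∀ x' ∈ R, x ≠ x' → c / m ≤ ∑ y ∈ C', X (x, y) * X (x', y)) →
      (∀ y ∈ C', ∀ y' ∈ C', y ≠ y' → c / m ≤ ∑ x ∈ R, X (x, y) * X (x, y')) →
      ∃ u v : ℤ → ℝ, (∀ x ∈ R, |u x| ≤ C * τ) ∧ (∀ y ∈ C', |v y| ≤ C * τ) ∧
        Ds (2 * K) (c / 2) m (fun e => X e * Real.exp (u e.1 + v e.2)) R C' := by
  have hK0 : 0 < K := lt_of_lt_of_le one_pos hK
  obtain ⟨c1, hc10, hc11, hc1c⟩ : ∃ c1 : ℝ, 0 < c1 ∧ c1 ≤ 1 ∧ c1 ≤ c :=
    ⟨min c 1, lt_min hc one_pos, min_le_right _ _, min_le_left _ _⟩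
  obtain ⟨lam, hlam⟩ : ∃ lam : ℝ, lam = c1 / 100 := ⟨_, rfl⟩
  have hl : 0 < lam := by rw [hlam]; positivity
  have hl1 : lam ≤ 1 / 100 := by rw [hlam]; linarith
  obtain ⟨D, hD⟩ : ∃ D : ℝ, D = 1 + 60 * K / lam := ⟨_, rfl⟩
  have hD1 : 1 ≤ D := by
    rw [hD]
    have : 0 ≤ 60 * K / lam := by positivity
    linarith
  obtain ⟨τ0, hτ0⟩ : ∃ τ0 : ℝ, τ0 = lam / (4000 * K) := ⟨_, rfl⟩
  have hτp : 0 < τ0 := by rw [hτ0]; positivity
  have hτs : τ0 ≤ 1 / 1000 := by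
    rw [hτ0, div_le_iff₀ (by positivity)]
    nlinarith
  have hDτ : D * τ0 ≤ 1 / 50 := by
    have h1 : 60 * K / lam * τ0 = 3 / 200 := by
      rw [hτ0]
      field_simp
      norm_num
    have h2 : D * τ0 = τ0 + 60 * K / lam * τ0 := by
      rw [hD]
      ring
    linarith
  refine ⟨2 * D, τ0, 1, by linarith, hτp, ?_⟩
  intro m R C X τ hm hRc hCc nn hup row col hτ hττ gr gc
  have hm0 : (0 : ℝ) < m := by exact_mod_cast hm
  have hcM : c1 / m ≤ c / m := div_le_div_of_nonneg_right hc1c hm0.le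
  have hco := pco hc10 hc11 hm hRc hCc nn
    (fun x hx => (row x hx).trans (by linarith)) (fun y hy => (col y hy).trans (by linarith))
    (fun x hx x' hx' h => hcM.trans (gr x hx x' hx' h))
    (fun y hy y' hy' h => hcM.trans (gc y hy y' hy' h))
  rw [← hlam] at hco
  obtain ⟨u, v, hu, hv, hS, r1, r2, c1, c2⟩ := scl_min hl (by linarith) hτ hm hRc hCc nn
    row col hco
  obtain ⟨ε, hε⟩ : ∃ ε : ℝ, ε = 24 * τ / lam := ⟨_, rfl⟩
  have hε0 : 0 ≤ ε := by rw [hε]; positivity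
  have hKε : K * ε ≤ 3 / 500 := by
    have h1 : K * ε = 24 * K / lam * τ := by
      rw [hε]
      ring
    have h2 : 24 * K / lam * τ ≤ 24 * K / lam * τ0 := mul_le_mul_of_nonneg_left hττ (by positivity)
    have h3 : 24 * K / lam * τ0 = 3 / 500 := by
      rw [hτ0]
      field_simp
      norm_num
    linarith
  have hεs : ε ≤ 3 / 500 := by nlinarith
  have hB : τ + 5 / 2 * (K * ε) = D * τ := by
    rw [hD, hε]
    ring
  have hB1 : D * τ ≤ 1 / 50 := (mul_le_mul_of_nonneg_left hττ (by linarith)).trans hDτ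
  rw [← hε] at hS
  have hSu : ∑ x ∈ R, u x ^ 2 ≤ ε ^ 2 * m := by
    have : 0 ≤ ∑ y ∈ C, v y ^ 2 := Finset.sum_nonneg fun y _ => sq_nonneg _
    linarith
  have hSv : ∑ y ∈ C, v y ^ 2 ≤ ε ^ 2 * m := by
    have : 0 ≤ ∑ x ∈ R, u x ^ 2 := Finset.sum_nonneg fun y _ => sq_nonneg _
    linarith
  obtain ⟨γ, hγ⟩ : ∃ γ : ℝ, γ = (∑ x ∈ R, u x - ∑ y ∈ C, v y) / (2 * m) := ⟨_, rfl⟩
  have hγb : |γ| ≤ 1 / 50 := by
    have g1 : (∑ x ∈ R, u x) ^ 2 ≤ m * ∑ x ∈ R, u x ^ 2 := by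
      have := sq_sum_le_card_mul_sum_sq (s := R) (f := u)
      rw [hRc] at this
      exact this
    have g2 : (∑ y ∈ C, v y) ^ 2 ≤ m * ∑ y ∈ C, v y ^ 2 := by
      have := sq_sum_le_card_mul_sum_sq (s := C) (f := v)
      rw [hCc] at this
      exact this
    have g3 : (∑ x ∈ R, u x - ∑ y ∈ C, v y) ^ 2 ≤ 2 * (ε ^ 2 * m ^ 2) := by
      have g4 : (∑ x ∈ R, u x - ∑ y ∈ C, v y) ^ 2 ≤ 2 * (∑ x ∈ R, u x) ^ 2 + 2 * (∑ y ∈ C, v y) ^ 2 := by
        nlinarith [sq_nonneg (∑ x ∈ R, u x + ∑ y ∈ C, v y)]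
      have g5 : (m : ℝ) * (∑ x ∈ R, u x ^ 2 + ∑ y ∈ C, v y ^ 2) ≤ m * (ε ^ 2 * m) :=
        mul_le_mul_of_nonneg_left hS hm0.le
      nlinarith
    have g6 : γ ^ 2 ≤ (1 / 50) ^ 2 := by
      rw [hγ, div_pow, div_le_iff₀ (by positivity)]
      have g7 : ε ^ 2 ≤ (3 / 500) ^ 2 := pow_le_pow_left₀ hε0 hεs 2
      have g8 : (0 : ℝ) < m ^ 2 := by positivity
      nlinarith
    exact abs_le_of_sq_le_sq g6 (by norm_num)
  rw [← hγ] at r1 r2 c1 c2
  have eR : ∀ x ∈ R, ∑ y ∈ C, X (x, y) * Real.exp (u x + v y) =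
      Real.exp (u x) * ∑ y ∈ C, X (x, y) * Real.exp (v y) := by
    intro x _
    rw [Finset.mul_sum]
    refine Finset.sum_congr rfl fun y _ => ?_
    rw [Real.exp_add]
    ring
  have eC : ∀ y ∈ C, ∑ x ∈ R, X (x, y) * Real.exp (u x + v y) =
      Real.exp (v y) * ∑ x ∈ R, X (x, y) * Real.exp (u x) := by
    intro y _
    rw [Finset.mul_sum]
    refine Finset.sum_congr rfl fun x _ => ?_
    rw [Real.exp_add]
    ring
  have TR : ∀ x ∈ R, |∑ y ∈ C, X (x, y) * Real.exp (v y) - 1| ≤ D * τ := fun x hx => by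
    rw [← hB]
    exact sb_three C (fun y => X (x, y)) v hm0 hK hε0 hKε (fun y hy => nn x hx y hy)
      (fun y hy => hup x hx y hy) (row x hx) (hττ.trans hτs) hv hSv
  have TC : ∀ y ∈ C, |∑ x ∈ R, X (x, y) * Real.exp (u x) - 1| ≤ D * τ := fun y hy => by
    rw [← hB]
    exact sb_three R (fun x => X (x, y)) u hm0 hK hε0 hKε (fun x hx => nn x hx y hy)
      (fun x hx => hup x hx y hy) (col y hy) (hττ.trans hτs) hu hSu
  have hR : ∀ x ∈ R, Real.exp (u x) * ∑ y ∈ C, X (x, y) * Real.exp (v y) = 1 - γ := fun x hx =>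
    sb_one (hu x hx) ((TR x hx).trans hB1) hγb (fun h => by rw [← eR x hx]; exact r1 x hx h)
      (fun h => by rw [← eR x hx]; exact r2 x hx h)
  have hC : ∀ y ∈ C, Real.exp (v y) * ∑ x ∈ R, X (x, y) * Real.exp (u x) = 1 - -γ := fun y hy =>
    sb_one (hv y hy) ((TC y hy).trans hB1) (by rw [abs_neg]; exact hγb)
      (fun h => by
        rw [← eC y hy]
        have := c1 y hy h
        linarith)
      (fun h => by
        rw [← eC y hy]
        have := c2 y hy h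
        linarith)
  have hγ0 : γ = 0 := by
    have k1 : ∑ x ∈ R, ∑ y ∈ C, X (x, y) * Real.exp (u x + v y) = m * (1 - γ) := by
      rw [Finset.sum_congr rfl fun x hx => (eR x hx).trans (hR x hx), Finset.sum_const, hRc,
        nsmul_eq_mul]
    have k2 : ∑ y ∈ C, ∑ x ∈ R, X (x, y) * Real.exp (u x + v y) = m * (1 - -γ) := by
      rw [Finset.sum_congr rfl fun y hy => (eC y hy).trans (hC y hy), Finset.sum_const, hCc,
        nsmul_eq_mul]
    rw [Finset.sum_comm, k2] at k1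
    have k3 : (m : ℝ) * γ = 0 := by linarith
    rcases mul_eq_zero.mp k3 with h | h
    · exact absurd h hm0.ne'
    · exact h
  have bu : ∀ x ∈ R, |u x| ≤ 2 * D * τ := by
    intro x hx
    have h := sb_two' hB1 (TR x hx) (by rw [hR x hx, hγ0, sub_zero])
    linarith
  have bv : ∀ y ∈ C, |v y| ≤ 2 * D * τ := by
    intro y hy
    have h := sb_two' hB1 (TC y hy) (by rw [hC y hy, hγ0, neg_zero, sub_zero])
    linarith
  have huv : ∀ x ∈ R, ∀ y ∈ C, |u x + v y| ≤ 2 / 25 := by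
    intro x hx y hy
    have h1 := abs_add_le (u x) (v y)
    have h2 := bu x hx
    have h3 := bv y hy
    nlinarith
  refine ⟨u, v, bu, bv, ⟨hRc, hCc, ?_, ?_, ?_, ?_, ?_, ?_⟩⟩
  · intro x hx y hy
    exact mul_nonneg (nn x hx y hy) (Real.exp_pos _).le
  · intro x hx y hy
    have h1 : Real.exp (u x + v y) ≤ 2 := by
      have h2 : Real.exp (u x + v y) ≤ Real.exp (1 / 2) :=
        Real.exp_le_exp.2 (by linarith [le_abs_self (u x + v y), huv x hx y hy])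
      have h3 : Real.exp (1 / 2) ≤ 2 := by
        have h4 : Real.exp (1 / 2) ^ 2 ≤ 2 ^ 2 := by
          rw [← Real.exp_nat_mul]
          have := Real.exp_one_lt_d9
          norm_num
          linarith
        exact le_of_sq_le_sq h4 (by norm_num)
      linarith
    show X (x, y) * Real.exp (u x + v y) ≤ 2 * K / m
    calc X (x, y) * Real.exp (u x + v y) ≤ K / m * 2 :=
          mul_le_mul (hup x hx y hy) h1 (Real.exp_pos _).le (by positivity)
      _ = 2 * K / m := by ring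
  · intro x hx
    show ∑ y ∈ C, X (x, y) * Real.exp (u x + v y) = 1
    rw [eR x hx, hR x hx, hγ0, sub_zero]
  · intro y hy
    show ∑ x ∈ R, X (x, y) * Real.exp (u x + v y) = 1
    rw [eC y hy, hC y hy, hγ0, neg_zero, sub_zero]
  · intro x hx x' hx' hne
    show c / 2 / m ≤ ∑ y ∈ C, X (x, y) * Real.exp (u x + v y) * (X (x', y) * Real.exp (u x' + v y))
    have h1 : c / 2 / m ≤ 1 / 2 * ∑ y ∈ C, X (x, y) * X (x', y) := by
      have := gr x hx x' hx' hne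
      have h2 : c / 2 / m = 1 / 2 * (c / m) := by ring
      rw [h2]
      linarith
    refine h1.trans ?_
    rw [Finset.mul_sum]
    refine Finset.sum_le_sum fun y hy => ?_
    exact sb_pr (nn x hx y hy) (nn x' hx' y hy) (huv x hx y hy) (huv x' hx' y hy)
  · intro y hy y' hy' hne
    show c / 2 / m ≤ ∑ x ∈ R, X (x, y) * Real.exp (u x + v y) * (X (x, y') * Real.exp (u x + v y'))
    have h1 : c / 2 / m ≤ 1 / 2 * ∑ x ∈ R, X (x, y) * X (x, y') := by
      have := gc y hy y' hy' hne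
      have h2 : c / 2 / m = 1 / 2 * (c / m) := by ring
      rw [h2]
      linarith
    refine h1.trans ?_
    rw [Finset.mul_sum]
    refine Finset.sum_le_sum fun x hx => ?_
    exact sb_pr (nn x hx y hy) (nn x hx y' hy') (huv x hx y hy) (huv x hx y' hy')

end Pool.Agent.NQF.P
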