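import Pool.Agent.NQF.Defs

/-!
# NQF-RDef: definitions for the block R (nothing to prove)

PLAN. No proofs.
-/

set_option autoImplicit false

open Finset

namespace Pool.Agent.NQF

open Pool.Agent.NQ (board dsum F Ent Dg phi ln Q Qset QS NonAtt bern)
open Pool.Agent.NQR (Adm Opt Bd Rf hS hD hh InR)
open Pool.Agent.NQL

/-! ### Transposition -/

/-- transposition of a square -/
def te (e : ℤ × ℤ) : ℤ × ℤ := (e.2, e.1)

/-- transposition of a line -/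
def tl (l : Li) : Li :=
  if l.1 = 0 then (1, l.2) else if l.1 = 1 then (0, l.2) else if l.1 = 2 then l else (3, -l.2)

/-- transposition of an instance -/
noncomputable def tI (I : Finset Li) : Finset Li := I.image tl

/-- transposition of the weights -/
def tW (W : ℤ × ℤ → ℝ) (e : ℤ × ℤ) : ℝ := W (te e)

/-! ### Instances without common diagonals -/

/-- the rows of the instance -/
noncomputable def Rw (I : Finset Li) : Finset ℤ := (I.filter (fun l => l.1 = 0)).image Prod.snd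

/-- the columns of the instance -/
noncomputable def Cw (I : Finset Li) : Finset ℤ := (I.filter (fun l => l.1 = 1)).image Prod.snd

/-- no two free squares on a common diagonal, regular, codegrees of rows and columns at least `c/m` -/
structure Lk (K lam c : ℝ) (N m : ℕ) (I : Finset Li) (z : Li → ℝ) : Prop where
  vd : Vd N m I
  reg : Reg K lam N m I z
  sma : ∀ l ∈ I, ¬ rc l → (Sl N I l).card ≤ 1
  gr : ∀ x x' : ℤ, ((0, x) : Li) ∈ I → ((0, x') : Li) ∈ I → x ≠ x' → c / m ≤ ∑ y ∈ Finset.Ico (0 : ℤ) N,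
    if (x, y) ∈ Sq N I ∧ (x', y) ∈ Sq N I then wt z (x, y) * wt z (x', y) else 0
  gc : ∀ y y' : ℤ, ((1, y) : Li) ∈ I → ((1, y') : Li) ∈ I → y ≠ y' → c / m ≤ ∑ x ∈ Finset.Ico (0 : ℤ) N,
    if (x, y) ∈ Sq N I ∧ (x, y') ∈ Sq N I then wt z (x, y) * wt z (x, y') else 0

/-- weights without the diagonal factors -/
noncomputable def Xh (N : ℕ) (I : Finset Li) (z : Li → ℝ) (e : ℤ × ℤ) : ℝ :=
  if e ∈ Sq N I then Real.exp (z (0, e.1) + z (1, e.2)) else 0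

/-- Schur complement of the Hessian with respect to the diagonals -/
noncomputable def Sc (N m : ℕ) (I : Finset Li) (z : Li → ℝ) (l l' : Li) : ℝ :=
  AA L4 (Sq N I) (wt z) ga m l l' -
    ∑ e ∈ (Sq N I).filter (fun e => l ∈ L4 e ∧ l' ∈ L4 e), 2 * wt z e ^ 2 / (1 + wt z e)

/-! ### Interface with block P -/

/-- asymptotics of permanents -/
def PermAsym : Prop := ∀ K c : ℝ, 1 ≤ K → 0 < c → ∃ (C : ℝ) (m0 : ℕ), 1 ≤ C ∧ ∀ m : ℕ, m0 ≤ m →
  ∀ (R C' : Finset ℤ) (w : ℤ × ℤ → ℝ), Ds K c m w R C' →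
    0 < pe w R C' ∧ |Real.log (pe w R C') - Vp m w R C'| ≤ C / m

/-- doubly stochastic matrices with codegrees are regular line systems -/
def DsLs : Prop := ∀ K c : ℝ, 1 ≤ K → 0 < c → ∃ lam : ℝ, 0 < lam ∧ lam ≤ 1 ∧ ∀ m : ℕ, 1 ≤ m →
  ∀ (R C : Finset ℤ) (w : ℤ × ℤ → ℝ), Ds K c m w R C →
    LSys 2 m K lam (I2 R C) L2 (R ×ˢ C) w (fun _ => 0) ga

/-- scaling of nearly doubly stochastic matrices -/
def Scal : Prop := ∀ K c : ℝ, 1 ≤ K → 0 < c → ∃ (C tau0 : ℝ) (m0 : ℕ), 1 ≤ C ∧ 0 < tau0 ∧ 1 ≤ m0 ∧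
  ∀ (m : ℕ) (R C' : Finset ℤ) (X : ℤ × ℤ → ℝ) (tau : ℝ), m0 ≤ m → R.card = m → C'.card = m →
    0 ≤ tau → tau ≤ tau0 → (∀ x ∈ R, ∀ y ∈ C', 0 ≤ X (x, y)) → (∀ x ∈ R, ∀ y ∈ C', X (x, y) ≤ K / m) →
    (∀ x ∈ R, |∑ y ∈ C', X (x, y) - 1| ≤ tau) → (∀ y ∈ C', |∑ x ∈ R, X (x, y) - 1| ≤ tau) →
    (∀ x ∈ R, ∀ x' ∈ R, x ≠ x' → c / m ≤ ∑ y ∈ C', X (x, y) * X (x', y)) →
    (∀ y ∈ C', ∀ y' ∈ C', y ≠ y' → c / m ≤ ∑ x ∈ R, X (x, y) * X (x, y')) →
    ∃ u v : ℤ → ℝ, (∀ x ∈ R, |u x| ≤ C * tau) ∧ (∀ y ∈ C', |v y| ≤ C * tau) ∧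
      Ds (2 * K) (c / 2) m (fun e => X e * Real.exp (u e.1 + v e.2)) R C'

end Pool.Agent.NQF
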