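import Pool.Agent.NQF.PFin
import Pool.Agent.NQF.PLnk
import Pool.Agent.NQF.PScal
import Pool.Agent.NQF.RDef

/-!
# NQF-PInt: block P delivers the interface of block R
-/

set_option autoImplicit false

open Finset

namespace Pool.Agent.NQF

open Pool.Agent.NQL

theorem permAsym : PermAsym := by
  intro K c hK hc
  obtain ⟨C, m0, h⟩ := perm_asym K c hK hc
  refine ⟨max C 1, m0, le_max_right _ _, fun m hm R C' w hw => ?_⟩
  obtain ⟨h1, h2⟩ := h m R C' w hm hw
  exact ⟨h1, h2.trans (div_le_div_of_nonneg_right (le_max_left _ _) (Nat.cast_nonneg m))⟩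

theorem dsLs : DsLs := by
  intro K c hK hc
  obtain ⟨lam, h0, h1, h⟩ := P.ds_ls K c hK hc
  exact ⟨lam, h0, h1, fun m hm R C w hw => h m R C w hm hw⟩

theorem scalP : Scal := by
  intro K c hK hc
  obtain ⟨C, τ0, m0, hC, hτ0, h⟩ := P.scal K c hK hc
  refine ⟨C, τ0, max m0 1, hC, hτ0, le_max_right _ _, ?_⟩
  intro m R C' X τ hm hR hC' h0 h1 nn up row col gr gc
  exact h m R C' X τ ((le_max_left _ _).trans hm) hR hC' nn up row col h0 h1 gr gc

end Pool.Agent.NQF
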