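import Pool.Agent.NQF.PPeP
import Pool.Agent.Helper34.AE.PerLower
import Pool.Agent.Helper34.AE.PerUpper

/-!
# NQF-PLow: a priori bounds of the permanent of a doubly stochastic matrix

The lower bound of van der Waerden type (capacity) and the upper bound of entropy type, transported to `pe`.
-/

set_option autoImplicit false

open Finset

namespace Pool.Agent.NQF.P

open Pool.Agent.NQL

private theorem plow_row {m : ℕ} {w : ℤ × ℤ → ℝ} {R C : Finset ℤ} {ι κ : Fin m → ℤ}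
    (hκ : Function.Injective κ) (hRι : univ.image ι = R) (hCκ : univ.image κ = C) (h : Dst w R C) (i : Fin m) :
    ∑ j, w (ι i, κ j) = 1 := by
  have h1 : ι i ∈ R := hRι ▸ Finset.mem_image_of_mem ι (Finset.mem_univ i)
  rw [← h.row (ι i) h1, ← hCκ, Finset.sum_image (fun a _ b _ hab => hκ hab)]

private theorem plow_col {m : ℕ} {w : ℤ × ℤ → ℝ} {R C : Finset ℤ} {ι κ : Fin m → ℤ}
    (hι : Function.Injective ι) (hRι : univ.image ι = R) (hCκ : univ.image κ = C) (h : Dst w R C) (j : Fin m) :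
    ∑ i, w (ι i, κ j) = 1 := by
  have h1 : κ j ∈ C := hCκ ▸ Finset.mem_image_of_mem κ (Finset.mem_univ j)
  rw [← h.col (κ j) h1, ← hRι, Finset.sum_image (fun a _ b _ hab => hι hab)]

theorem pe_lower {m : ℕ} {w : ℤ × ℤ → ℝ} {R C : Finset ℤ} (hR : R.card = m) (hC : C.card = m) (h : Dst w R C) :
    Real.exp (-(m : ℝ)) ≤ pe w R C := by
  obtain ⟨ι, hι, hRι⟩ := ex_enum hR
  obtain ⟨κ, hκ, hCκ⟩ := ex_enum hC
  rw [pe_perm w hι hκ hRι hCκ]
  have hmi : ∀ i, ι i ∈ R := fun i => hRι ▸ Finset.mem_image_of_mem ι (Finset.mem_univ i)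
  have hmj : ∀ j, κ j ∈ C := fun j => hCκ ▸ Finset.mem_image_of_mem κ (Finset.mem_univ j)
  exact Pool.Agent.Helper34.AE.per_lower (fun i j => w (ι i, κ j)) (fun i j => h.nn _ (hmi i) _ (hmj j))
    (plow_row hκ hRι hCκ h) (plow_col hι hRι hCκ h)

theorem pe_upper {K : ℝ} (hK : 0 < K) {m : ℕ} (hm : 0 < m) {w : ℤ × ℤ → ℝ} {R C : Finset ℤ} (hR : R.card = m)
    (hC : C.card = m) (h : Dst w R C) (hup : ∀ x ∈ R, ∀ y ∈ C, w (x, y) ≤ K / m) :
    pe w R C ≤ Real.exp (-(m : ℝ) + (1 + K) * (1 + Real.log (m + 1 + K))) := by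
  obtain ⟨ι, hι, hRι⟩ := ex_enum hR
  obtain ⟨κ, hκ, hCκ⟩ := ex_enum hC
  rw [pe_perm w hι hκ hRι hCκ]
  have hmi : ∀ i, ι i ∈ R := fun i => hRι ▸ Finset.mem_image_of_mem ι (Finset.mem_univ i)
  have hmj : ∀ j, κ j ∈ C := fun j => hCκ ▸ Finset.mem_image_of_mem κ (Finset.mem_univ j)
  have h1 := Pool.Agent.Helper34.AE.PU.per_le hK (B := fun i j => w (ι i, κ j))
    (fun i j => h.nn _ (hmi i) _ (hmj j)) (fun i => le_of_eq (plow_row hκ hRι hCκ h i))
    (fun i j => hup _ (hmi i) _ (hmj j)) hm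
  exact h1.trans (Real.exp_le_exp.2 (Pool.Agent.Helper34.AE.PU.cs_sum_le hK m hm))

end Pool.Agent.NQF.P
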