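import Pool.Agent.NQF.PSys
import Pool.Agent.NQF.PDet
import Pool.Agent.NQF.PLow

/-!
# NQF-PLd: a priori bounds of the quotient `Ee`

PLAN. (1) `ld_bd`: `det_bd` for the matrix `A = Matrix.of (fun i j : I2 R C => AA L2 (R ×ˢ C) w ga m i j)`, `lam = c/100`.
Symmetric: `AA` is symmetric in `l, l'` (`MM` is). Diagonal entries `1 + 1/(2 m)`, so `∑ (A i i - 1) = 2 m/(2 m) = 1` (`aa00`, `aa11`, or
from `sum_I2` after passing from the subtype to a sum over `I2 R C`, `Finset.sum_coe_sort`). Coercivity: field `co` of `ds_lsys` and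
`∑ i, ∑ j, v i * A i j * v j = ∑_x∑_y w(x,y) (v x + v y)² + (∑ ga v)²/(2 m)` (both sides expanded with `sum_I2`, `aa00`, `aa01`, `aa10`, `aa11` and the row
and column sums; for `v` on the subtype use the extension by zero or `δ l = if h : l ∈ I2 R C then v ⟨l, h⟩ else 0`).
`∑∑ (A - 1)² = 2 ∑_{x,x'} (1/(2 m))² + 2 ∑_{x,y} (w - 1/(2 m))² ≤ 1/2 + 2 ∑ w² + 1/2·... ≤ 2 K + 3` (`(w - t)² ≤ w² + t²` for `w, t ≥ 0`;
`∑_{x,y} w² ≤ (K/m) ∑ w = K`). So `|LD| ≤ 1 + (2 K + 3) * 100/c`.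
(2) `apr`: `log (Ee) = log (pe w) + m - log (4 π m)/2 + LD/2`; `-m ≤ log pe ≤ -m + (1 + K)(1 + log (m + 1 + K))` (`pe_lower`, `pe_upper`);
everything else is `≤ const * log m` for `m ≥ 2` (`log m ≥ log 2 ≥ 1/2`; `log (m + 1 + K) ≤ log m + log (2 + K)`).
-/

set_option autoImplicit false

open Finset

namespace Pool.Agent.NQF.P

open Pool.Agent.NQL

private theorem aa_sym {R C : Finset ℤ} (w : ℤ × ℤ → ℝ) (m : ℕ) {l l' : Li} (hl : l ∈ I2 R C) (hl' : l' ∈ I2 R C) :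
    AA L2 (R ×ˢ C) w ga m l l' = AA L2 (R ×ˢ C) w ga m l' l := by
  rcases mem_I2.1 hl with ⟨x, hx, rfl⟩ | ⟨y, hy, rfl⟩ <;> rcases mem_I2.1 hl' with ⟨x', hx', rfl⟩ | ⟨y', hy', rfl⟩
  · rw [aa00, aa00]
    simp only [eq_comm]
  · rw [aa01 w m hx hy', aa10 w m hx hy']
  · rw [aa10 w m hx' hy, aa01 w m hx' hy]
  · rw [aa11, aa11]
    simp only [eq_comm]

private theorem sum2 (R C : Finset ℤ) (f : Li → Li → ℝ) :
    ∑ l ∈ I2 R C, ∑ l' ∈ I2 R C, f l l' =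
      (∑ x ∈ R, ∑ x' ∈ R, f (0, x) (0, x') + ∑ x ∈ R, ∑ y ∈ C, f (0, x) (1, y)) +
      (∑ y ∈ C, ∑ x ∈ R, f (1, y) (0, x) + ∑ y ∈ C, ∑ y' ∈ C, f (1, y) (1, y')) := by
  rw [sum_I2, ← Finset.sum_add_distrib, ← Finset.sum_add_distrib]
  congr 1
  · exact Finset.sum_congr rfl fun x _ => sum_I2 R C _
  · exact Finset.sum_congr rfl fun x _ => sum_I2 R C _

private theorem blk (R : Finset ℤ) (a : ℤ → ℝ) (t : ℝ) :
    ∑ x ∈ R, ∑ x' ∈ R, a x * ((if x = x' then 1 else 0) + t) * a x' =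
      ∑ x ∈ R, a x ^ 2 + t * (∑ x ∈ R, a x) ^ 2 := by
  have h1 : ∀ x ∈ R, ∑ x' ∈ R, a x * ((if x = x' then 1 else 0) + t) * a x' = a x ^ 2 + t * (a x * ∑ x' ∈ R, a x') := by
    intro x hx
    calc ∑ x' ∈ R, a x * ((if x = x' then 1 else 0) + t) * a x'
        = ∑ x' ∈ R, ((if x = x' then a x * a x' else 0) + t * (a x * a x')) := by
          refine Finset.sum_congr rfl fun x' _ => ?_
          split_ifs <;> ring
      _ = a x ^ 2 + t * (a x * ∑ x' ∈ R, a x') := by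
          rw [Finset.sum_add_distrib, Finset.sum_ite_eq, if_pos hx, Finset.mul_sum, Finset.mul_sum]
          ring
  rw [Finset.sum_congr rfl h1, Finset.sum_add_distrib, ← Finset.mul_sum, ← Finset.sum_mul]
  ring

private theorem blk01 (R C : Finset ℤ) (w : ℤ × ℤ → ℝ) (a b : ℤ → ℝ) (t : ℝ) :
    ∑ x ∈ R, ∑ y ∈ C, a x * (w (x, y) - t) * b y =
      ∑ x ∈ R, ∑ y ∈ C, w (x, y) * (a x * b y) - t * ((∑ x ∈ R, a x) * ∑ y ∈ C, b y) := by
  rw [Finset.sum_mul_sum, Finset.mul_sum, ← Finset.sum_sub_distrib]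
  refine Finset.sum_congr rfl fun x _ => ?_
  rw [Finset.mul_sum, ← Finset.sum_sub_distrib]
  refine Finset.sum_congr rfl fun y _ => ?_
  ring

private theorem qf {R C : Finset ℤ} {w : ℤ × ℤ → ℝ} (m : ℕ) (hrow : ∀ x ∈ R, ∑ y ∈ C, w (x, y) = 1)
    (hcol : ∀ y ∈ C, ∑ x ∈ R, w (x, y) = 1) (δ : Li → ℝ) :
    ∑ l ∈ I2 R C, ∑ l' ∈ I2 R C, δ l * AA L2 (R ×ˢ C) w ga m l l' * δ l' =
      ∑ e ∈ R ×ˢ C, w e * dS L2 δ e ^ 2 + (∑ l ∈ I2 R C, ga l * δ l) ^ 2 / (2 * m) := by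
  have g0 : ∑ l ∈ I2 R C, ga l * δ l = ∑ x ∈ R, δ (0, x) - ∑ y ∈ C, δ (1, y) := by
    rw [sum_I2]
    have e1 : ∑ x ∈ R, ga (0, x) * δ (0, x) = ∑ x ∈ R, δ (0, x) :=
      Finset.sum_congr rfl fun x _ => by rw [ga0, one_mul]
    have e2 : ∑ y ∈ C, ga (1, y) * δ (1, y) = ∑ y ∈ C, -δ (1, y) :=
      Finset.sum_congr rfl fun y _ => by rw [ga1, neg_one_mul]
    rw [e1, e2, Finset.sum_neg_distrib]
    ring
  have b00 : ∑ x ∈ R, ∑ x' ∈ R, δ (0, x) * AA L2 (R ×ˢ C) w ga m (0, x) (0, x') * δ (0, x') =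
      ∑ x ∈ R, δ (0, x) ^ 2 + 1 / (2 * m) * (∑ x ∈ R, δ (0, x)) ^ 2 := by
    rw [← blk R (fun x => δ (0, x)) (1 / (2 * m))]
    refine Finset.sum_congr rfl fun x _ => Finset.sum_congr rfl fun x' _ => ?_
    rw [aa00]
  have b11 : ∑ y ∈ C, ∑ y' ∈ C, δ (1, y) * AA L2 (R ×ˢ C) w ga m (1, y) (1, y') * δ (1, y') =
      ∑ y ∈ C, δ (1, y) ^ 2 + 1 / (2 * m) * (∑ y ∈ C, δ (1, y)) ^ 2 := by
    rw [← blk C (fun y => δ (1, y)) (1 / (2 * m))]
    refine Finset.sum_congr rfl fun y _ => Finset.sum_congr rfl fun y' _ => ?_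
    rw [aa11]
  have b01 : ∑ x ∈ R, ∑ y ∈ C, δ (0, x) * AA L2 (R ×ˢ C) w ga m (0, x) (1, y) * δ (1, y) =
      ∑ x ∈ R, ∑ y ∈ C, w (x, y) * (δ (0, x) * δ (1, y)) -
        1 / (2 * m) * ((∑ x ∈ R, δ (0, x)) * ∑ y ∈ C, δ (1, y)) := by
    rw [← blk01 R C w (fun x => δ (0, x)) (fun y => δ (1, y)) (1 / (2 * m))]
    refine Finset.sum_congr rfl fun x hx => Finset.sum_congr rfl fun y hy => ?_
    rw [aa01 w m hx hy]
  have b10 : ∑ y ∈ C, ∑ x ∈ R, δ (1, y) * AA L2 (R ×ˢ C) w ga m (1, y) (0, x) * δ (0, x) =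
      ∑ x ∈ R, ∑ y ∈ C, w (x, y) * (δ (0, x) * δ (1, y)) -
        1 / (2 * m) * ((∑ x ∈ R, δ (0, x)) * ∑ y ∈ C, δ (1, y)) := by
    rw [Finset.sum_comm, ← blk01 R C w (fun x => δ (0, x)) (fun y => δ (1, y)) (1 / (2 * m))]
    refine Finset.sum_congr rfl fun x hx => Finset.sum_congr rfl fun y hy => ?_
    rw [aa10 w m hx hy]
    ring
  have r1 : ∑ e ∈ R ×ˢ C, w e * dS L2 δ e ^ 2 = ∑ x ∈ R, δ (0, x) ^ 2 +
      2 * ∑ x ∈ R, ∑ y ∈ C, w (x, y) * (δ (0, x) * δ (1, y)) + ∑ y ∈ C, δ (1, y) ^ 2 := by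
    have c1 : ∑ x ∈ R, ∑ y ∈ C, w (x, y) * δ (0, x) ^ 2 = ∑ x ∈ R, δ (0, x) ^ 2 := by
      refine Finset.sum_congr rfl fun x hx => ?_
      rw [← Finset.sum_mul, hrow x hx, one_mul]
    have c2 : ∑ x ∈ R, ∑ y ∈ C, w (x, y) * δ (1, y) ^ 2 = ∑ y ∈ C, δ (1, y) ^ 2 := by
      rw [Finset.sum_comm]
      refine Finset.sum_congr rfl fun y hy => ?_
      rw [← Finset.sum_mul, hcol y hy, one_mul]
    rw [Finset.sum_product, ← c1, ← c2, Finset.mul_sum, ← Finset.sum_add_distrib, ← Finset.sum_add_distrib]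
    refine Finset.sum_congr rfl fun x _ => ?_
    rw [Finset.mul_sum, ← Finset.sum_add_distrib, ← Finset.sum_add_distrib]
    refine Finset.sum_congr rfl fun y _ => ?_
    rw [dS_L2]
    ring
  rw [sum2, b00, b11, b01, b10, r1, g0]
  ring

private theorem hs_bd {K c : ℝ} {m : ℕ} (hm : 1 ≤ m) {w : ℤ × ℤ → ℝ} {R C : Finset ℤ}
    (h : Ds K c m w R C) : ∑ l ∈ I2 R C, ∑ l' ∈ I2 R C,
      (AA L2 (R ×ˢ C) w ga m l l' - if l = l' then 1 else 0) ^ 2 ≤ 2 * K + 3 := by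
  have hm0 : (0 : ℝ) < m := by exact_mod_cast hm
  have hm1 : (1 : ℝ) ≤ m := by exact_mod_cast hm
  have ht : (0 : ℝ) ≤ 1 / (2 * m) := by positivity
  have hcst : ∀ (A B : Finset ℤ), A.card = m → B.card = m → ∑ _x ∈ A, ∑ _y ∈ B, (1 / (2 * (m : ℝ))) ^ 2 = 1 / 4 := by
    intro A B hA hB
    rw [Finset.sum_const, Finset.sum_const, hA, hB, nsmul_eq_mul, nsmul_eq_mul]
    field_simp
    norm_num
  have b00 : ∑ x ∈ R, ∑ x' ∈ R, (AA L2 (R ×ˢ C) w ga m (0, x) (0, x') - if ((0, x) : Li) = (0, x') then 1 else 0) ^ 2 =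
      1 / 4 := by
    rw [← hcst R R h.cR h.cR]
    refine Finset.sum_congr rfl fun x _ => Finset.sum_congr rfl fun x' _ => ?_
    rw [aa00]
    by_cases hx : x = x'
    · rw [if_pos hx, if_pos (by rw [hx])]
      ring
    · rw [if_neg hx, if_neg (by intro hc; exact hx (Prod.ext_iff.1 hc).2)]
      ring
  have b11 : ∑ y ∈ C, ∑ y' ∈ C, (AA L2 (R ×ˢ C) w ga m (1, y) (1, y') - if ((1, y) : Li) = (1, y') then 1 else 0) ^ 2 =
      1 / 4 := by
    rw [← hcst C C h.cC h.cC]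
    refine Finset.sum_congr rfl fun y _ => Finset.sum_congr rfl fun y' _ => ?_
    rw [aa11]
    by_cases hy : y = y'
    · rw [if_pos hy, if_pos (by rw [hy])]
      ring
    · rw [if_neg hy, if_neg (by intro hc; exact hy (Prod.ext_iff.1 hc).2)]
      ring
  have hw2 : ∑ x ∈ R, ∑ y ∈ C, w (x, y) ^ 2 ≤ K := by
    calc ∑ x ∈ R, ∑ y ∈ C, w (x, y) ^ 2 ≤ ∑ x ∈ R, ∑ y ∈ C, K / m * w (x, y) := by
          refine Finset.sum_le_sum fun x hx => Finset.sum_le_sum fun y hy => ?_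
          have h1 := h.nn x hx y hy
          have h2 := h.up x hx y hy
          nlinarith
      _ = ∑ x ∈ R, K / m := by
          refine Finset.sum_congr rfl fun x hx => ?_
          rw [← Finset.mul_sum, h.row x hx, mul_one]
      _ = K := by
          rw [Finset.sum_const, h.cR, nsmul_eq_mul]
          field_simp
  have hmix : ∑ x ∈ R, ∑ y ∈ C, (w (x, y) - 1 / (2 * m)) ^ 2 ≤ K + 1 / 4 := by
    calc ∑ x ∈ R, ∑ y ∈ C, (w (x, y) - 1 / (2 * m)) ^ 2 ≤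
        ∑ x ∈ R, ∑ y ∈ C, (w (x, y) ^ 2 + (1 / (2 * (m : ℝ))) ^ 2) := by
          refine Finset.sum_le_sum fun x hx => Finset.sum_le_sum fun y hy => ?_
          have h1 := mul_nonneg (h.nn x hx y hy) ht
          nlinarith
      _ = ∑ x ∈ R, ∑ y ∈ C, w (x, y) ^ 2 + ∑ x ∈ R, ∑ y ∈ C, (1 / (2 * (m : ℝ))) ^ 2 := by
          rw [← Finset.sum_add_distrib]
          refine Finset.sum_congr rfl fun x _ => ?_
          rw [← Finset.sum_add_distrib]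
      _ ≤ K + 1 / 4 := by
          rw [hcst R C h.cR h.cC]
          linarith
  have b01 : ∑ x ∈ R, ∑ y ∈ C, (AA L2 (R ×ˢ C) w ga m (0, x) (1, y) - if ((0, x) : Li) = (1, y) then 1 else 0) ^ 2 =
      ∑ x ∈ R, ∑ y ∈ C, (w (x, y) - 1 / (2 * m)) ^ 2 := by
    refine Finset.sum_congr rfl fun x hx => Finset.sum_congr rfl fun y hy => ?_
    rw [aa01 w m hx hy, if_neg (by intro hc; exact absurd (congrArg Prod.fst hc) (by simp)), sub_zero]
  have b10 : ∑ y ∈ C, ∑ x ∈ R, (AA L2 (R ×ˢ C) w ga m (1, y) (0, x) - if ((1, y) : Li) = (0, x) then 1 else 0) ^ 2 =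
      ∑ x ∈ R, ∑ y ∈ C, (w (x, y) - 1 / (2 * m)) ^ 2 := by
    rw [Finset.sum_comm]
    refine Finset.sum_congr rfl fun x hx => Finset.sum_congr rfl fun y hy => ?_
    rw [aa10 w m hx hy, if_neg (by intro hc; exact absurd (congrArg Prod.fst hc) (by simp)), sub_zero]
  rw [sum2, b00, b11, b01, b10]
  linarith

theorem ld_bd {K c : ℝ} (hK : 1 ≤ K) (hc : 0 < c) (hc1 : c ≤ 1) {m : ℕ} (hm : 1 ≤ m) {w : ℤ × ℤ → ℝ} {R C : Finset ℤ}
    (h : Ds K c m w R C) : |LD (I2 R C) (AA L2 (R ×ˢ C) w ga m)| ≤ 1 + (2 * K + 3) * 100 / c := by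
  have hm0 : (0 : ℝ) < m := by exact_mod_cast hm
  have hsys := ds_lsys hc hc1 hm h
  let M : Matrix (I2 R C) (I2 R C) ℝ := Matrix.of (fun i j : I2 R C => AA L2 (R ×ˢ C) w ga m i j)
  have hM : ∀ i j, M i j = AA L2 (R ×ˢ C) w ga m i j := fun _ _ => rfl
  have hH : M.IsHermitian := by
    ext i j
    rw [Matrix.conjTranspose_apply, hM, hM, star_trivial]
    exact aa_sym w m j.2 i.2
  have hco : ∀ v : I2 R C → ℝ, c / 100 * ∑ i, v i ^ 2 ≤ ∑ i, ∑ j, v i * M i j * v j := by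
    intro v
    let δ : Li → ℝ := fun l => if hl : l ∈ I2 R C then v ⟨l, hl⟩ else 0
    have hδ : ∀ i : I2 R C, δ i = v i := fun i => dif_pos i.2
    have h1 : ∑ i : I2 R C, v i ^ 2 = ∑ l ∈ I2 R C, δ l ^ 2 := by
      rw [← Finset.sum_coe_sort (I2 R C) (fun l => δ l ^ 2)]
      exact Finset.sum_congr rfl fun i _ => by rw [hδ]
    have h2 : ∑ i : I2 R C, ∑ j : I2 R C, v i * M i j * v j =
        ∑ l ∈ I2 R C, ∑ l' ∈ I2 R C, δ l * AA L2 (R ×ˢ C) w ga m l l' * δ l' := by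
      rw [← Finset.sum_coe_sort (I2 R C) (fun l => ∑ l' ∈ I2 R C, δ l * AA L2 (R ×ˢ C) w ga m l l' * δ l')]
      refine Finset.sum_congr rfl fun i _ => ?_
      rw [← Finset.sum_coe_sort (I2 R C) (fun l' => δ i * AA L2 (R ×ˢ C) w ga m i l' * δ l')]
      refine Finset.sum_congr rfl fun j _ => ?_
      rw [hδ, hδ, hM]
    rw [h1, h2, qf m h.row h.col]
    have h3 := hsys.co δ
    have h4 : ∑ l ∈ I2 R C, (0 : ℝ) * δ l ^ 2 = 0 := Finset.sum_eq_zero fun l _ => zero_mul _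
    simp only [zero_mul, Finset.sum_const_zero, add_zero] at h3
    exact h3
  have hHS : ∑ i, ∑ j, (M i j - if i = j then 1 else 0) ^ 2 ≤ 2 * K + 3 := by
    refine le_trans (le_of_eq ?_) (hs_bd hm h)
    rw [← Finset.sum_coe_sort (I2 R C) (fun l => ∑ l' ∈ I2 R C,
      (AA L2 (R ×ˢ C) w ga m l l' - if l = l' then 1 else 0) ^ 2)]
    refine Finset.sum_congr rfl fun i _ => ?_
    rw [← Finset.sum_coe_sort (I2 R C) (fun l' =>
      (AA L2 (R ×ˢ C) w ga m i l' - if (i : Li) = l' then 1 else 0) ^ 2)]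
    refine Finset.sum_congr rfl fun j _ => ?_
    rw [hM]
    congr 2
    by_cases hij : i = j
    · rw [if_pos hij, if_pos (by rw [hij])]
    · rw [if_neg hij, if_neg (fun hc => hij (Subtype.ext hc))]
  have htr : ∑ i, (M i i - 1) = 1 := by
    have h1 : ∑ i : I2 R C, (M i i - 1) = ∑ l ∈ I2 R C, (AA L2 (R ×ˢ C) w ga m l l - 1) := by
      rw [← Finset.sum_coe_sort (I2 R C) (fun l => AA L2 (R ×ˢ C) w ga m l l - 1)]
      exact Finset.sum_congr rfl fun i _ => by rw [hM]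
    rw [h1, sum_I2]
    have h2 : ∑ x ∈ R, (AA L2 (R ×ˢ C) w ga m (0, x) (0, x) - 1) = ∑ _x ∈ R, 1 / (2 * (m : ℝ)) := by
      refine Finset.sum_congr rfl fun x _ => ?_
      rw [aa00, if_pos rfl]
      ring
    have h3 : ∑ y ∈ C, (AA L2 (R ×ˢ C) w ga m (1, y) (1, y) - 1) = ∑ _y ∈ C, 1 / (2 * (m : ℝ)) := by
      refine Finset.sum_congr rfl fun x _ => ?_
      rw [aa11, if_pos rfl]
      ring
    rw [h2, h3, Finset.sum_const, Finset.sum_const, h.cR, h.cC, nsmul_eq_mul]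
    field_simp
    norm_num
  have hdb := det_bd M hH (by positivity : 0 < c / 100) hco hHS
  rw [htr] at hdb
  have hLD : LD (I2 R C) (AA L2 (R ×ˢ C) w ga m) = Real.log M.det := rfl
  have e1 : (2 * K + 3) / (c / 100) = (2 * K + 3) * 100 / c := by field_simp
  rw [e1] at hdb
  have e2 : 0 ≤ (2 * K + 3) * 100 / c := by positivity
  rw [hLD, abs_le]
  constructor
  · linarith [hdb.2.1]
  · linarith [hdb.2.2]

theorem apr {K c : ℝ} (hK : 1 ≤ K) (hc : 0 < c) (hc1 : c ≤ 1) : ∃ B : ℝ, 1 ≤ B ∧ ∀ (m : ℕ) (w : ℤ × ℤ → ℝ) (R C : Finset ℤ),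
    2 ≤ m → Ds K c m w R C → 0 < pe w R C ∧ 0 < Ee m w R C ∧ |Real.log (Ee m w R C)| ≤ B * Real.log m := by
  have hK0 : 0 < K := by linarith
  have hD0 : 0 ≤ (2 * K + 3) * 100 / c := by positivity
  have hL0 : 0 ≤ Real.log (2 + K) := Real.log_nonneg (by linarith)
  refine ⟨(1 + K) * (3 + 2 * Real.log (2 + K)) + 5 / 2 + (1 + (2 * K + 3) * 100 / c), by nlinarith, ?_⟩
  intro m w R C hm h
  have hm1 : 1 ≤ m := by omega
  have hm0 : (0 : ℝ) < m := by exact_mod_cast hm1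
  have hm2 : (2 : ℝ) ≤ m := by exact_mod_cast hm
  have hlow := pe_lower h.cR h.cC (ds_dst h)
  have hup := pe_upper hK0 (by omega : 0 < m) h.cR h.cC (ds_dst h) h.up
  have hpe : 0 < pe w R C := lt_of_lt_of_le (Real.exp_pos _) hlow
  have hEe : 0 < Ee m w R C := mul_pos hpe (Real.exp_pos _)
  refine ⟨hpe, hEe, ?_⟩
  have h1 : Real.log (Ee m w R C) = Real.log (pe w R C) - Vp m w R C := by
    unfold Ee
    rw [Real.log_mul hpe.ne' (Real.exp_pos _).ne', Real.log_exp]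
    ring
  have h2 : -(m : ℝ) ≤ Real.log (pe w R C) := by
    rw [Real.le_log_iff_exp_le hpe]
    exact hlow
  have h3 : Real.log (pe w R C) ≤ -(m : ℝ) + (1 + K) * (1 + Real.log (m + 1 + K)) := by
    rw [Real.log_le_iff_le_exp hpe]
    exact hup
  have h4 := ld_bd hK hc hc1 hm1 h
  rw [abs_le] at h4
  have hlm : Real.log 2 ≤ Real.log m := Real.log_le_log (by norm_num) hm2
  have hl2 : (0.69 : ℝ) < Real.log 2 := by
    have := Real.log_two_gt_d9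
    linarith
  have hlm2 : 1 ≤ 2 * Real.log m := by linarith
  have h5 : Real.log (m + 1 + K) ≤ Real.log m + Real.log (2 + K) := by
    rw [← Real.log_mul hm0.ne' (by linarith)]
    apply Real.log_le_log (by positivity)
    nlinarith
  have h6 : 0 ≤ Real.log (4 * Real.pi * m) := by
    apply Real.log_nonneg
    have := Real.pi_gt_three
    nlinarith
  have h7 : Real.log (4 * Real.pi * m) ≤ 5 * Real.log m := by
    rw [Real.log_mul (by positivity) hm0.ne']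
    have h8 : Real.log (4 * Real.pi) ≤ Real.log (2 ^ 4) := by
      apply Real.log_le_log (by positivity)
      have := Real.pi_lt_four
      linarith
    rw [Real.log_pow] at h8
    push_cast at h8
    linarith
  have hVp : Vp m w R C = -(m : ℝ) + Real.log (4 * Real.pi * m) / 2 -
      LD (I2 R C) (AA L2 (R ×ˢ C) w ga m) / 2 := rfl
  have h9 : (1 + K) * (1 + Real.log (m + 1 + K)) ≤ (1 + K) * (3 + 2 * Real.log (2 + K)) * Real.log m := by
    rw [mul_assoc]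
    apply mul_le_mul_of_nonneg_left _ (by linarith)
    nlinarith
  have h10 : 0 ≤ (1 + K) * (3 + 2 * Real.log (2 + K)) * Real.log m := by
    have : 0 ≤ Real.log m := by linarith
    positivity
  have h11 : 1 + (2 * K + 3) * 100 / c ≤ 2 * ((1 + (2 * K + 3) * 100 / c) * Real.log m) := by
    nlinarith
  have h12 : ((1 + K) * (3 + 2 * Real.log (2 + K)) + 5 / 2 + (1 + (2 * K + 3) * 100 / c)) * Real.log m =
      (1 + K) * (3 + 2 * Real.log (2 + K)) * Real.log m + 5 / 2 * Real.log m +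
        (1 + (2 * K + 3) * 100 / c) * Real.log m := by ring
  rw [h1, hVp, h12, abs_le]
  constructor
  · linarith [h4.1, h4.2]
  · linarith [h4.1, h4.2]

end Pool.Agent.NQF.P
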