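import Pool.Agent.NQF.PCtr
import Pool.Agent.NQF.PLd
import Pool.Agent.NQF.PNum

/-!
# NQF-PIter: exchanging a row or a column changes `Ee` by the factor `1 + O(1/M²)`
-/

set_option autoImplicit false

open Finset

namespace Pool.Agent.NQF.P

open Pool.Agent.NQL

private theorem ex_mono {J : ℤ × ℤ → ℝ} {m : ℕ} {R C : Finset ℤ} {ρ ρ' : ℝ} (h : Ex J m R C ρ)
    (hρ : ρ ≤ ρ') (hp : ∀ x ∈ R, ∀ y ∈ C, ∀ u v : ℤ → ℝ, Scl J (R.erase x) (C.erase y) u v →
      0 ≤ Ee m (sc J u v) (R.erase x) (C.erase y)) : Ex J m R C ρ' := by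
  refine ⟨?_, ?_⟩
  · intro x hx x' hx' hne y hy u v u' v' h1 h2
    exact (h.1 x hx x' hx' hne y hy u v u' v' h1 h2).trans
      (mul_le_mul_of_nonneg_right hρ (hp x' hx' y hy u' v' h2))
  · intro x hx y hy y' hy' hne u v u' v' h1 h2
    exact (h.2 x hx y hy y' hy' hne u v u' v' h1 h2).trans
      (mul_le_mul_of_nonneg_right hρ (hp x hx y' hy' u' v' h2))

private theorem ee_comp {a b L : ℝ} (ha : 0 < a) (hb : 0 < b) (hla : |Real.log a| ≤ L)
    (hlb : |Real.log b| ≤ L) : a ≤ Real.exp (2 * L) * b := by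
  have h1 : Real.log a ≤ 2 * L + Real.log b := by
    have h2 := (abs_le.1 hla).2
    have h3 := (abs_le.1 hlb).1
    linarith
  calc a = Real.exp (Real.log a) := (Real.exp_log ha).symm
    _ ≤ Real.exp (2 * L + Real.log b) := Real.exp_le_exp.2 h1
    _ = Real.exp (2 * L) * b := by rw [Real.exp_add, Real.exp_log hb]

theorem exq (hLS : LsP) {K c : ℝ} (hK : 1 ≤ K) (hc : 0 < c) (hc1 : c ≤ 1) : ∃ (τ C5 : ℝ) (M5 : ℕ),
    0 < τ ∧ τ ≤ 1 / 2 ∧ 1 ≤ C5 ∧ 8 ≤ M5 ∧ ∀ (M : ℕ) (J : ℤ × ℤ → ℝ) (R C : Finset ℤ), M5 ≤ M →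
      Nd K c τ M M J R C → Ex J (M - 1) R C (1 + C5 / M ^ 2) := by
  obtain ⟨τ', Cc, M2, hτ0, hτ1, hCc, hM2, hctr⟩ :=
    ctr hLS (c := c / 2) hK (by positivity) (by linarith)
  obtain ⟨B, hB, hapr⟩ := apr (K := 2 * K) (c := c / 2 / 4) (by linarith) (by positivity)
    (by linarith)
  have hK0 : 0 < K := by linarith
  obtain ⟨θ, hθ⟩ : ∃ θ : ℝ, θ = c / 2 / (8 * K) := ⟨_, rfl⟩
  rw [← hθ] at hctr
  have hθ0 : 0 < θ := by rw [hθ]; positivity
  have hθ1 : θ ≤ 1 := by
    rw [hθ, div_le_one (by positivity)]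
    linarith
  have hD1 : 0 ≤ 2 * K ^ 2 / c := by positivity
  have hD2 : 0 ≤ 2 * K / τ' := by positivity
  obtain ⟨M0, hM0, hk⟩ := num_k ((2 * B + 2) / θ) (4 + 2 * K ^ 2 / c + 2 * K / τ')
    (by positivity) (by linarith)
  refine ⟨τ' / 2, Cc / θ + 1, max 8 (max M2 M0), by positivity, by linarith, ?_,
    le_max_left _ _, ?_⟩
  · have : 0 ≤ Cc / θ := by positivity
    linarith
  intro M J R C hM hN
  have hMM2 : M2 ≤ M := (le_max_left _ _).trans ((le_max_right _ _).trans hM)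
  have hMM0 : M0 ≤ M := (le_max_right _ _).trans ((le_max_right _ _).trans hM)
  obtain ⟨k, hk1, hk2⟩ := hk M hMM0
  have hMpos : (0 : ℝ) < M := by
    have : 8 ≤ M := (le_max_left _ _).trans hM
    have h0 : 0 < M := by omega
    exact_mod_cast h0
  have hk3 : (0 : ℝ) ≤ (k : ℝ) + 3 := by positivity
  have hprod1 : 0 ≤ 2 * K ^ 2 / c * ((k : ℝ) + 3) := mul_nonneg hD1 hk3
  have hprod2 : 0 ≤ 2 * K / τ' * ((k : ℝ) + 3) := mul_nonneg hD2 hk3
  have h4 : 4 * (k + 3) ≤ M := by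
    have : (4 : ℝ) * ((k : ℝ) + 3) ≤ M := by nlinarith
    exact_mod_cast this
  have hKc : K ^ 2 * ((k : ℝ) + 3) / M ≤ c / 2 := by
    have h1 : 2 * K ^ 2 / c * ((k : ℝ) + 3) ≤ M := by nlinarith
    rw [div_mul_eq_mul_div, div_le_iff₀ hc] at h1
    rw [div_le_iff₀ hMpos]
    nlinarith
  have hKt : K * ((k : ℝ) + 3) / M ≤ τ' / 2 := by
    have h1 : 2 * K / τ' * ((k : ℝ) + 3) ≤ M := by nlinarith
    rw [div_mul_eq_mul_div, div_le_iff₀ hτ0] at h1
    rw [div_le_iff₀ hMpos]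
    nlinarith
  -- submatrices
  have hNd : ∀ (j : ℕ), j ≤ k + 3 → ∀ R' C' : Finset ℤ, R' ⊆ R → C' ⊆ C → R'.card = M - j →
      C'.card = M - j → Nd K (c / 2) τ' M (M - j) J R' C' := by
    intro j hj R' C' hR' hC' cR' cC'
    have h1 := nd_sub hK0.le hN hR' hC' cR' cC' (by omega)
    have h2 : ((M : ℝ) - ((M - j : ℕ) : ℝ)) = j := by
      rw [Nat.cast_sub (by omega)]
      ring
    rw [h2] at h1
    have hj' : (j : ℝ) ≤ (k : ℝ) + 3 := by exact_mod_cast hj
    refine nd_mono h1 ?_ ?_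
    · have h3 : K ^ 2 * (j : ℝ) / M ≤ K ^ 2 * ((k : ℝ) + 3) / M :=
        div_le_div_of_nonneg_right (mul_le_mul_of_nonneg_left hj' (sq_nonneg K)) hMpos.le
      linarith
    · have h3 : K * (j : ℝ) / M ≤ K * ((k : ℝ) + 3) / M :=
        div_le_div_of_nonneg_right (mul_le_mul_of_nonneg_left hj' hK0.le) hMpos.le
      linarith
  have hEe : ∀ (j : ℕ), j ≤ k → ∀ R' C' : Finset ℤ, R' ⊆ R → C' ⊆ C → R'.card = M - j →
      C'.card = M - j → ∀ x ∈ R', ∀ y ∈ C', ∀ u v : ℤ → ℝ,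
      Scl J (R'.erase x) (C'.erase y) u v →
      0 < Ee (M - j - 1) (sc J u v) (R'.erase x) (C'.erase y) ∧
      |Real.log (Ee (M - j - 1) (sc J u v) (R'.erase x) (C'.erase y))| ≤ B * Real.log M := by
    intro j hj R' C' hR' hC' cR' cC' x hx y hy u v hs
    have h1 : Nd K (c / 2) τ' M (M - (j + 1)) J (R'.erase x) (C'.erase y) :=
      hNd (j + 1) (by omega) _ _ ((erase_subset _ _).trans hR') ((erase_subset _ _).trans hC')
        (by rw [card_erase_of_mem hx, cR']; omega) (by rw [card_erase_of_mem hy, cC']; omega)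
    have h2 := scl_ds hK0.le (by positivity) (by omega) h1 hs
    have e : M - (j + 1) = M - j - 1 := by omega
    rw [e] at h2
    obtain ⟨-, h3, h5⟩ := hapr (M - j - 1) (sc J u v) _ _ (by omega) h2
    refine ⟨h3, h5.trans ?_⟩
    refine mul_le_mul_of_nonneg_left (Real.log_le_log ?_ ?_) (by linarith)
    · have h6 : 0 < M - j - 1 := by omega
      exact_mod_cast h6
    · have h6 : M - j - 1 ≤ M := by omega
      exact_mod_cast h6
  -- the induction
  have hθM : 0 ≤ Cc / (θ * (M : ℝ) ^ 2) := by positivity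
  have hmain : ∀ i : ℕ, i ≤ k → ∀ R' C' : Finset ℤ, R' ⊆ R → C' ⊆ C →
      R'.card = M - (k - i) → C'.card = M - (k - i) →
      Ex J (M - (k - i) - 1) R' C' (1 + Cc / (θ * (M : ℝ) ^ 2) +
        (1 - θ) ^ i * Real.exp (2 * (B * Real.log M))) := by
    intro i
    induction i with
    | zero =>
      intro _ R' C' hR' hC' cR' cC'
      rw [Nat.sub_zero] at cR' cC' ⊢
      have hE := hEe k le_rfl R' C' hR' hC' cR' cC'
      have hcmp : ∀ {a b : ℝ}, 0 < a → 0 < b → |Real.log a| ≤ B * Real.log M →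
          |Real.log b| ≤ B * Real.log M →
          a ≤ (1 + Cc / (θ * (M : ℝ) ^ 2) +
            (1 - θ) ^ 0 * Real.exp (2 * (B * Real.log M))) * b := by
        intro a b ha hb hla hlb
        refine (ee_comp ha hb hla hlb).trans (mul_le_mul_of_nonneg_right ?_ hb.le)
        rw [pow_zero, one_mul]
        linarith
      refine ⟨?_, ?_⟩
      · intro x hx x' hx' _ y hy u v u' v' h1 h2
        obtain ⟨a1, a2⟩ := hE x hx y hy u v h1
        obtain ⟨b1, b2⟩ := hE x' hx' y hy u' v' h2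
        exact hcmp a1 b1 a2 b2
      · intro x hx y hy y' hy' _ u v u' v' h1 h2
        obtain ⟨a1, a2⟩ := hE x hx y hy u v h1
        obtain ⟨b1, b2⟩ := hE x hx y' hy' u' v' h2
        exact hcmp a1 b1 a2 b2
    | succ i ih =>
      intro hi R' C' hR' hC' cR' cC'
      have hpw : 0 ≤ (1 - θ) ^ i * Real.exp (2 * (B * Real.log M)) :=
        mul_nonneg (pow_nonneg (by linarith) _) (Real.exp_pos _).le
      have h1 := hctr M (M - (k - (i + 1))) J R' C' (1 + Cc / (θ * (M : ℝ) ^ 2) +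
        (1 - θ) ^ i * Real.exp (2 * (B * Real.log M))) hMM2 (by omega)
        (hNd (k - (i + 1)) (by omega) R' C' hR' hC' cR' cC') (by linarith) (by
          intro x hx y hy
          have h2 := ih (by omega) (R'.erase x) (C'.erase y) ((erase_subset _ _).trans hR')
            ((erase_subset _ _).trans hC')
            (by rw [card_erase_of_mem hx, cR']; omega) (by rw [card_erase_of_mem hy, cC']; omega)
          have e : M - (k - (i + 1)) - 2 = M - (k - i) - 1 := by omega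
          rw [e]
          exact h2)
      have hval : 1 + Cc / (M : ℝ) ^ 2 + (1 - θ) * (1 + Cc / (θ * (M : ℝ) ^ 2) +
          (1 - θ) ^ i * Real.exp (2 * (B * Real.log M)) - 1) =
          1 + Cc / (θ * (M : ℝ) ^ 2) +
            (1 - θ) ^ (i + 1) * Real.exp (2 * (B * Real.log M)) := by
        have h3 : Cc / (M : ℝ) ^ 2 = θ * (Cc / (θ * (M : ℝ) ^ 2)) := by
          field_simp
        rw [h3, pow_succ]
        ring
      rw [hval] at h1
      exact h1
  have h5 := hmain k le_rfl R C Subset.rfl Subset.rfl (by rw [hN.cR]; omega)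
    (by rw [hN.cC]; omega)
  rw [Nat.sub_self, Nat.sub_zero] at h5
  refine ex_mono h5 ?_ ?_
  · -- the value
    have h6 : (1 - θ) ^ k * Real.exp (2 * (B * Real.log M)) ≤ 1 / (M : ℝ) ^ 2 := by
      have h7 : (1 - θ) ^ k ≤ Real.exp (-(θ * k)) := by
        calc (1 - θ) ^ k ≤ (Real.exp (-θ)) ^ k :=
              pow_le_pow_left₀ (by linarith) (by linarith [Real.add_one_le_exp (-θ)]) k
          _ = Real.exp (-(θ * k)) := by
              rw [← Real.exp_nat_mul]
              congr 1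
              ring
      have h8 : (2 * B + 2) * Real.log M ≤ θ * k := by
        have h9 : (2 * B + 2) / θ * Real.log M ≤ k := hk1
        rw [div_mul_eq_mul_div, div_le_iff₀ hθ0] at h9
        linarith
      calc (1 - θ) ^ k * Real.exp (2 * (B * Real.log M)) ≤
          Real.exp (-(θ * k)) * Real.exp (2 * (B * Real.log M)) :=
            mul_le_mul_of_nonneg_right h7 (Real.exp_pos _).le
        _ = Real.exp (-(θ * k) + 2 * (B * Real.log M)) := by rw [Real.exp_add]
        _ ≤ Real.exp (-(2 * Real.log M)) := Real.exp_le_exp.2 (by linarith)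
        _ = 1 / (M : ℝ) ^ 2 := by
            rw [Real.exp_neg, mul_comm, Real.exp_mul, Real.exp_log hMpos, one_div]
            norm_cast
    have h10 : (Cc / θ + 1) / (M : ℝ) ^ 2 = Cc / (θ * (M : ℝ) ^ 2) + 1 / (M : ℝ) ^ 2 := by
      rw [add_div, div_div]
    rw [h10]
    linarith
  · intro x hx y hy u v hs
    exact (hEe 0 (Nat.zero_le _) R C Subset.rfl Subset.rfl (by rw [hN.cR]; omega)
      (by rw [hN.cC]; omega) x hx y hy u v hs).1.le

end Pool.Agent.NQF.P
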