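import Pool.Agent.NQF.PDefs

/-!
# NQF-PPeA: expansion of the permanent along a row and along a column

PLAN. `pe X R C` is the sum over the perfect matchings `s ⊆ R × C` (`PM s R C`: every row of `R` has exactly one `y` with
`(x, y) ∈ s`, every column of `C` exactly one `x`).
Row: fix `x ∈ R`. For a perfect matching `s ⊆ R ×ˢ C` the unique `y` with `(x, y) ∈ s` is in `C`, so
`∑_s ∏ = ∑_{y ∈ C} ∑_{s ∋ (x, y)} ∏` (write `1 = ∑_{y ∈ C} if (x, y) ∈ s then 1 else 0` and exchange the sums).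
For fixed `y ∈ C` the map `s ↦ s.erase (x, y)` is a bijection of the perfect matchings of `R ×ˢ C` containing `(x, y)` with the
perfect matchings of `(R.erase x) ×ˢ (C.erase y)`, inverse `t ↦ insert (x, y) t` (`Finset.sum_nbij'` or `sum_bij'`), and
`∏ e ∈ s, X e = X (x, y) * ∏ e ∈ s.erase (x, y), X e` (`Finset.mul_prod_erase`).
Columns: the same proof with the roles exchanged.
-/

set_option autoImplicit false

open Finset

namespace Pool.Agent.NQF.P

open Pool.Agent.NQL

private theorem er {s : Finset (ℤ × ℤ)} {R C : Finset ℤ} (hs : s ⊆ R ×ˢ C) (h : PM s R C) {x y : ℤ}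
    (hxy : (x, y) ∈ s) : s.erase (x, y) ⊆ (R.erase x) ×ˢ (C.erase y) ∧
      PM (s.erase (x, y)) (R.erase x) (C.erase y) := by
  have hxR : x ∈ R := (Finset.mem_product.1 (hs hxy)).1
  have hyC : y ∈ C := (Finset.mem_product.1 (hs hxy)).2
  refine ⟨?_, ?_, ?_⟩
  · intro e he
    obtain ⟨hne, hes⟩ := Finset.mem_erase.1 he
    obtain ⟨h1, h2⟩ := Finset.mem_product.1 (hs hes)
    refine Finset.mem_product.2 ⟨Finset.mem_erase.2 ⟨?_, h1⟩, Finset.mem_erase.2 ⟨?_, h2⟩⟩
    · intro hx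
      apply hne
      have h3 : (x, e.2) ∈ s := by
        rw [← hx]
        exact hes
      exact Prod.ext hx ((h.1 x hxR).unique h3 hxy)
    · intro hy
      apply hne
      have h3 : (e.1, y) ∈ s := by
        rw [← hy]
        exact hes
      exact Prod.ext ((h.2 y hyC).unique h3 hxy) hy
  · intro x' hx'
    obtain ⟨hne, hx'R⟩ := Finset.mem_erase.1 hx'
    obtain ⟨y', hy', hu⟩ := h.1 x' hx'R
    refine ⟨y', Finset.mem_erase.2 ⟨fun e => hne (congrArg Prod.fst e), hy'⟩, fun z hz => ?_⟩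
    exact hu z (Finset.mem_erase.1 hz).2
  · intro y' hy'
    obtain ⟨hne, hy'C⟩ := Finset.mem_erase.1 hy'
    obtain ⟨x', hx', hu⟩ := h.2 y' hy'C
    refine ⟨x', Finset.mem_erase.2 ⟨fun e => hne (congrArg Prod.snd e), hx'⟩, fun z hz => ?_⟩
    exact hu z (Finset.mem_erase.1 hz).2

private theorem ins {t : Finset (ℤ × ℤ)} {R C : Finset ℤ} {x y : ℤ} (hx : x ∈ R) (hy : y ∈ C)
    (ht : t ⊆ (R.erase x) ×ˢ (C.erase y)) (h : PM t (R.erase x) (C.erase y)) :
    insert (x, y) t ⊆ R ×ˢ C ∧ PM (insert (x, y) t) R C := by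
  refine ⟨?_, ?_, ?_⟩
  · intro e he
    rcases Finset.mem_insert.1 he with h1 | h1
    · rw [h1]
      exact Finset.mem_product.2 ⟨hx, hy⟩
    · obtain ⟨h2, h3⟩ := Finset.mem_product.1 (ht h1)
      exact Finset.mem_product.2 ⟨(Finset.mem_erase.1 h2).2, (Finset.mem_erase.1 h3).2⟩
  · intro x' hx'
    by_cases hxx : x' = x
    · subst hxx
      refine ⟨y, Finset.mem_insert_self _ _, fun z hz => ?_⟩
      rcases Finset.mem_insert.1 hz with h1 | h1
      · exact congrArg Prod.snd h1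
      · exact absurd rfl (Finset.mem_erase.1 (Finset.mem_product.1 (ht h1)).1).1
    · obtain ⟨y', hy', hu⟩ := h.1 x' (Finset.mem_erase.2 ⟨hxx, hx'⟩)
      refine ⟨y', Finset.mem_insert_of_mem hy', fun z hz => ?_⟩
      rcases Finset.mem_insert.1 hz with h1 | h1
      · exact absurd (congrArg Prod.fst h1) hxx
      · exact hu z h1
  · intro y' hy'
    by_cases hyy : y' = y
    · subst hyy
      refine ⟨x, Finset.mem_insert_self _ _, fun z hz => ?_⟩
      rcases Finset.mem_insert.1 hz with h1 | h1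
      · exact congrArg Prod.fst h1
      · exact absurd rfl (Finset.mem_erase.1 (Finset.mem_product.1 (ht h1)).2).1
    · obtain ⟨x', hx', hu⟩ := h.2 y' (Finset.mem_erase.2 ⟨hyy, hy'⟩)
      refine ⟨x', Finset.mem_insert_of_mem hx', fun z hz => ?_⟩
      rcases Finset.mem_insert.1 hz with h1 | h1
      · exact absurd (congrArg Prod.snd h1) hyy
      · exact hu z h1

open Classical in
private theorem mem_pm {s : Finset (ℤ × ℤ)} {R C : Finset ℤ} :
    s ∈ (R ×ˢ C).powerset.filter (fun s => PM s R C) ↔ s ⊆ R ×ˢ C ∧ PM s R C := by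
  rw [Finset.mem_filter, Finset.mem_powerset]

open Classical in
private theorem core (X : ℤ × ℤ → ℝ) {R C : Finset ℤ} {x y : ℤ} (hx : x ∈ R) (hy : y ∈ C) :
    ∑ s ∈ (R ×ˢ C).powerset.filter (fun s => PM s R C), (if (x, y) ∈ s then ∏ e ∈ s, X e else 0) =
      X (x, y) * pe X (R.erase x) (C.erase y) := by
  unfold pe
  rw [← Finset.sum_filter, Finset.mul_sum]
  refine Finset.sum_bij' (fun s _ => s.erase (x, y)) (fun t _ => insert (x, y) t) ?_ ?_ ?_ ?_ ?_
  · intro s hs
    obtain ⟨h1, h2⟩ := Finset.mem_filter.1 hs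
    obtain ⟨h3, h4⟩ := mem_pm.1 h1
    exact mem_pm.2 (er h3 h4 h2)
  · intro t ht
    obtain ⟨h3, h4⟩ := mem_pm.1 ht
    exact Finset.mem_filter.2 ⟨mem_pm.2 (ins hx hy h3 h4), Finset.mem_insert_self _ _⟩
  · intro s hs
    exact Finset.insert_erase (Finset.mem_filter.1 hs).2
  · intro t ht
    obtain ⟨h3, _⟩ := mem_pm.1 ht
    refine Finset.erase_insert fun h => ?_
    exact absurd rfl (Finset.mem_erase.1 (Finset.mem_product.1 (h3 h)).1).1
  · intro s hs
    exact (Finset.mul_prod_erase s X (Finset.mem_filter.1 hs).2).symm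

theorem pe_row (X : ℤ × ℤ → ℝ) {R C : Finset ℤ} {x : ℤ} (hx : x ∈ R) :
    pe X R C = ∑ y ∈ C, X (x, y) * pe X (R.erase x) (C.erase y) := by
  classical
  rw [← Finset.sum_congr rfl fun y hy => core X hx hy, Finset.sum_comm]
  unfold pe
  refine Finset.sum_congr rfl fun s hs => ?_
  obtain ⟨h3, h4⟩ := mem_pm.1 hs
  obtain ⟨y, hy, hu⟩ := h4.1 x hx
  rw [Finset.sum_eq_single y, if_pos hy]
  · intro y' _ hne
    rw [if_neg]
    exact fun h => hne (hu y' h)
  · intro h
    exact absurd (Finset.mem_product.1 (h3 hy)).2 h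

theorem pe_col (X : ℤ × ℤ → ℝ) {R C : Finset ℤ} {y : ℤ} (hy : y ∈ C) :
    pe X R C = ∑ x ∈ R, X (x, y) * pe X (R.erase x) (C.erase y) := by
  classical
  rw [← Finset.sum_congr rfl fun x hx => core X hx hy, Finset.sum_comm]
  unfold pe
  refine Finset.sum_congr rfl fun s hs => ?_
  obtain ⟨h3, h4⟩ := mem_pm.1 hs
  obtain ⟨x, hx, hu⟩ := h4.2 y hy
  rw [Finset.sum_eq_single x, if_pos hx]
  · intro x' _ hne
    rw [if_neg]
    exact fun h => hne (hu x' h)
  · intro h
    exact absurd (Finset.mem_product.1 (h3 hx)).1 h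

end Pool.Agent.NQF.P
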