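import Pool.Agent.NQF.PDefs

/-!
# NQF-PPeP: the permanent as a sum over permutations

PLAN. `pe_perm`: the map `π ↦ univ.image (fun i => (ι i, κ (π i)))` is a bijection from the permutations of `Fin m` onto the perfect
matchings of `R ×ˢ C`, `R = ι (Fin m)`, `C = κ (Fin m)`.
* it is a perfect matching: row `ι i`: `(ι i, y) ∈ s ↔ y = κ (π i)` (`ι` injective); column `κ j`: `(x, κ j) ∈ s ↔ x = ι (π⁻¹ j)`;
* injective: `(ι i, κ (π i)) ∈` both sets gives `κ (π i) = κ (π' i)`;
* surjective: for a perfect matching `s` choose for every `i` the `y` with `(ι i, y) ∈ s`, `y ∈ C`, so `y = κ (f i)`; `f` is injective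
  (the columns have a unique `x`), hence a permutation (`Equiv.ofBijective`, `Finite.injective_iff_bijective`);
  `s = image`: `⊇` clear, `⊆`: `(x, y) ∈ s`, `x = ι i`, `y` is the unique one;
* product: `∏ e ∈ univ.image g, X e = ∏ i, X (g i)` (`Finset.prod_image`, `g` injective).
`ex_enum`: e.g. from `Finset.equivFin` / `R.orderEmbOfFin`.
-/

set_option autoImplicit false

open Finset

namespace Pool.Agent.NQF.P

open Pool.Agent.NQL

theorem pe_perm (X : ℤ × ℤ → ℝ) {R C : Finset ℤ} {m : ℕ} {ι κ : Fin m → ℤ} (hι : Function.Injective ι)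
    (hκ : Function.Injective κ) (hR : univ.image ι = R) (hC : univ.image κ = C) :
    pe X R C = ∑ π : Equiv.Perm (Fin m), ∏ i, X (ι i, κ (π i)) := by
  classical
  unfold pe
  symm
  refine Finset.sum_bij (fun π _ => univ.image (fun i => (ι i, κ (π i)))) ?_ ?_ ?_ ?_
  · intro π _
    rw [Finset.mem_filter, Finset.mem_powerset]
    refine ⟨?_, ?_, ?_⟩
    · intro e he
      rw [Finset.mem_image] at he
      obtain ⟨i, -, rfl⟩ := he
      rw [Finset.mem_product]
      exact ⟨hR ▸ Finset.mem_image_of_mem ι (Finset.mem_univ i),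
        hC ▸ Finset.mem_image_of_mem κ (Finset.mem_univ _)⟩
    · intro x hx
      rw [← hR, Finset.mem_image] at hx
      obtain ⟨i, -, rfl⟩ := hx
      refine ⟨κ (π i), Finset.mem_image_of_mem (fun i => (ι i, κ (π i))) (Finset.mem_univ i), ?_⟩
      intro y hy
      rw [Finset.mem_image] at hy
      obtain ⟨j, -, hj⟩ := hy
      rw [Prod.mk.injEq] at hj
      rw [← hj.2, hι hj.1]
    · intro y hy
      rw [← hC, Finset.mem_image] at hy
      obtain ⟨j, -, rfl⟩ := hy
      refine ⟨ι (π.symm j), ?_, ?_⟩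
      · refine Finset.mem_image.mpr ⟨π.symm j, Finset.mem_univ _, ?_⟩
        simp only [Equiv.apply_symm_apply]
      · intro x hx
        rw [Finset.mem_image] at hx
        obtain ⟨i, -, hi⟩ := hx
        rw [Prod.mk.injEq] at hi
        rw [← hi.1, ← hκ hi.2, Equiv.symm_apply_apply]
  · intro π _ π' _ h
    ext i
    have h1 : (ι i, κ (π i)) ∈ univ.image (fun i => (ι i, κ (π' i))) := by
      have h2 : (ι i, κ (π i)) ∈ univ.image (fun i => (ι i, κ (π i))) :=
        Finset.mem_image_of_mem (fun i => (ι i, κ (π i))) (Finset.mem_univ i)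
      exact h ▸ h2
    rw [Finset.mem_image] at h1
    obtain ⟨j, -, hj⟩ := h1
    rw [Prod.mk.injEq] at hj
    have h3 : j = i := hι hj.1
    subst h3
    exact congrArg Fin.val (hκ hj.2.symm)
  · intro s hs
    rw [Finset.mem_filter, Finset.mem_powerset] at hs
    obtain ⟨hsub, hrow, hcol⟩ := hs
    have hιR : ∀ i, ι i ∈ R := fun i => hR ▸ Finset.mem_image_of_mem ι (Finset.mem_univ i)
    have hκC : ∀ i, κ i ∈ C := fun i => hC ▸ Finset.mem_image_of_mem κ (Finset.mem_univ i)
    have hex : ∀ i, ∃ j, (ι i, κ j) ∈ s := by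
      intro i
      obtain ⟨y, hy, -⟩ := hrow (ι i) (hιR i)
      have hyC : y ∈ C := (Finset.mem_product.mp (hsub hy)).2
      rw [← hC, Finset.mem_image] at hyC
      obtain ⟨j, -, hj⟩ := hyC
      exact ⟨j, by rw [hj]; exact hy⟩
    choose f hf using hex
    have hinj : Function.Injective f := by
      intro i j hij
      have h1 : (ι j, κ (f i)) ∈ s := by
        rw [hij]
        exact hf j
      exact hι ((hcol (κ (f i)) (hκC _)).unique (hf i) h1)
    refine ⟨Equiv.ofBijective f (Finite.injective_iff_bijective.mp hinj), Finset.mem_univ _, ?_⟩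
    ext e
    rw [Finset.mem_image]
    constructor
    · rintro ⟨i, -, rfl⟩
      exact hf i
    · intro he
      obtain ⟨x, y⟩ := e
      have hxR : x ∈ R := (Finset.mem_product.mp (hsub he)).1
      rw [← hR, Finset.mem_image] at hxR
      obtain ⟨i, -, rfl⟩ := hxR
      refine ⟨i, Finset.mem_univ _, ?_⟩
      have h1 : κ (f i) = y := (hrow (ι i) (hιR i)).unique (hf i) he
      show (ι i, κ (f i)) = (ι i, y)
      rw [h1]
  · intro π _
    rw [Finset.prod_image]
    intro i _ j _ hij
    exact hι (Prod.mk.inj hij).1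

theorem ex_enum {R : Finset ℤ} {m : ℕ} (hR : R.card = m) :
    ∃ ι : Fin m → ℤ, Function.Injective ι ∧ univ.image ι = R := by
  subst hR
  refine ⟨fun i => (R.equivFin.symm i : ℤ), ?_, ?_⟩
  · intro i j hij
    exact R.equivFin.symm.injective (Subtype.ext hij)
  · ext x
    rw [Finset.mem_image]
    constructor
    · rintro ⟨i, -, rfl⟩
      exact (R.equivFin.symm i).2
    · intro hx
      refine ⟨R.equivFin ⟨x, hx⟩, Finset.mem_univ _, ?_⟩
      simp only [Equiv.symm_apply_apply]

end Pool.Agent.NQF.P
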