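import Pool.Agent.NQF.PDefs

/-!
# NQF-PPthA: the path of matrices from `w` to the uniform matrix

PLAN. `wmx w m s = (1 - s) w + s/m`; `wst w m s t A`: the rows of `A` have already the parameter `t`, the others `s`. `0 ≤ s < t ≤ 1`, `h = t - s ≤ 1/2`.
`wst_nd`: entries: `(1-s) w + s/m ≤ K/m` (`K ≥ 1`). Row sums are exactly 1. Column sums: `1 + h ∑_{x ∈ R ∩ A} (1/m - w (x, y))`, the sum is between
`-1` and `1` (`0 ≤ ∑ w ≤ 1`, `0 ≤ ∑ 1/m ≤ 1`). Codegrees: for `s1, s2 ∈ {s, t}` and two different rows: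
`∑_y ((1-s1) w + s1/m)((1-s2) w' + s2/m) ≥ (1-s1)(1-s2) c/m + s1 s2/m ≥ ((1-t)² c + s²)/m ≥ c ((1-t)² + s²)/m ≥ (c/8)/m`, as
`(1-t) + s = 1 - h ≥ 1/2`. Columns: for every `x` the factor pair has the same parameter `s1 ∈ {s, t}`:
`≥ (1-t)² w(x,y) w(x,y') + s²/m²`, sum over `x` as before.
`wst_gr`: the same with the same row twice, `∑_y w (x0, y)² ≥ 1/m ≥ c/m` (Cauchy-Schwarz, `(∑ w)² ≤ m ∑ w²`).
-/

set_option autoImplicit false

open Finset

namespace Pool.Agent.NQF.P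

open Pool.Agent.NQL

/-- mixture with the uniform matrix -/
noncomputable def wmx (w : ℤ × ℤ → ℝ) (m : ℕ) (s : ℝ) (e : ℤ × ℤ) : ℝ := (1 - s) * w e + s / m

open Classical in
/-- the rows of `A` have the parameter `t`, the others the parameter `s` -/
noncomputable def wst (w : ℤ × ℤ → ℝ) (m : ℕ) (s t : ℝ) (A : Finset ℤ) (e : ℤ × ℤ) : ℝ :=
  if e.1 ∈ A then wmx w m t e else wmx w m s e

private theorem pth_core {c s t : ℝ} {m : ℕ} {S : Finset ℤ} (hm : 1 ≤ m) (hS : S.card = m) {a b p q : ℤ → ℝ}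
    (ha : ∀ i ∈ S, 0 ≤ a i) (hb : ∀ i ∈ S, 0 ≤ b i) (hab : c / m ≤ ∑ i ∈ S, a i * b i)
    (hp : ∀ i ∈ S, s ≤ p i ∧ p i ≤ t) (hq : ∀ i ∈ S, s ≤ q i ∧ q i ≤ t) (hs : 0 ≤ s) (ht : t ≤ 1)
    (hh : t - s ≤ 1 / 2) (hc : 0 < c) (hc1 : c ≤ 1) :
    c / 8 / m ≤ ∑ i ∈ S, ((1 - p i) * a i + p i / m) * ((1 - q i) * b i + q i / m) := by
  have hm0 : (0 : ℝ) < m := by exact_mod_cast hm
  have h1 : ∀ i ∈ S, (1 - t) ^ 2 * (a i * b i) + s ^ 2 / m ^ 2 ≤
      ((1 - p i) * a i + p i / m) * ((1 - q i) * b i + q i / m) := by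
    intro i hi
    obtain ⟨hp1, hp2⟩ := hp i hi
    obtain ⟨hq1, hq2⟩ := hq i hi
    have ha0 := ha i hi
    have hb0 := hb i hi
    have e1 : (1 - t) * (1 - t) ≤ (1 - p i) * (1 - q i) :=
      mul_le_mul (by linarith) (by linarith) (by linarith) (by linarith)
    have e2 : (1 - t) ^ 2 * (a i * b i) ≤ ((1 - p i) * (1 - q i)) * (a i * b i) := by
      rw [sq]
      exact mul_le_mul_of_nonneg_right e1 (mul_nonneg ha0 hb0)
    have e3 : s ^ 2 / m ^ 2 ≤ (p i / m) * (q i / m) := by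
      rw [div_mul_div_comm, sq, sq]
      exact div_le_div_of_nonneg_right (mul_le_mul hp1 hq1 hs (hs.trans hp1)) (by positivity)
    have e4 : 0 ≤ (1 - p i) * a i * (q i / m) :=
      mul_nonneg (mul_nonneg (by linarith) ha0) (div_nonneg (by linarith) hm0.le)
    have e5 : 0 ≤ (p i / m) * ((1 - q i) * b i) :=
      mul_nonneg (div_nonneg (by linarith) hm0.le) (mul_nonneg (by linarith) hb0)
    nlinarith
  refine le_trans ?_ (Finset.sum_le_sum h1)
  rw [Finset.sum_add_distrib, ← Finset.mul_sum, Finset.sum_const, hS, nsmul_eq_mul]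
  have h2 : (m : ℝ) * (s ^ 2 / m ^ 2) = s ^ 2 / m := by
    field_simp
  rw [h2]
  have h3 : (1 - t) ^ 2 * (c / m) ≤ (1 - t) ^ 2 * ∑ i ∈ S, a i * b i :=
    mul_le_mul_of_nonneg_left hab (sq_nonneg _)
  have h4 : c / 8 ≤ (1 - t) ^ 2 * c + s ^ 2 := by
    have h5 : (1 : ℝ) / 8 ≤ (1 - t) ^ 2 + s ^ 2 := by
      nlinarith [sq_nonneg (1 - t - s)]
    nlinarith [sq_nonneg s]
  have h6 : c / 8 / m ≤ ((1 - t) ^ 2 * c + s ^ 2) / m := div_le_div_of_nonneg_right h4 hm0.le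
  calc c / 8 / m ≤ ((1 - t) ^ 2 * c + s ^ 2) / m := h6
    _ = (1 - t) ^ 2 * (c / m) + s ^ 2 / m := by ring
    _ ≤ _ := by linarith

open Classical in
/-- the parameter of the row -/
private noncomputable def pth_p (s t : ℝ) (A : Finset ℤ) (x : ℤ) : ℝ := if x ∈ A then t else s

private theorem pth_p_mem {s t : ℝ} (hst : s ≤ t) (A : Finset ℤ) (x : ℤ) :
    s ≤ pth_p s t A x ∧ pth_p s t A x ≤ t := by
  unfold pth_p
  split
  · exact ⟨hst, le_rfl⟩
  · exact ⟨le_rfl, hst⟩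

private theorem pth_wst (w : ℤ × ℤ → ℝ) (m : ℕ) (s t : ℝ) (A : Finset ℤ) (x y : ℤ) :
    wst w m s t A (x, y) = (1 - pth_p s t A x) * w (x, y) + pth_p s t A x / m := by
  unfold wst pth_p wmx
  dsimp only
  split <;> rfl

theorem wmx_dst {K c : ℝ} {m : ℕ} (hm : 1 ≤ m) {w : ℤ × ℤ → ℝ} {R C : Finset ℤ} (h : Ds K c m w R C) {s : ℝ}
    (hs : 0 ≤ s) (hs1 : s ≤ 1) : Dst (wmx w m s) R C := by
  have hm0 : (0 : ℝ) < m := by exact_mod_cast hm
  refine ⟨?_, ?_, ?_⟩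
  · intro x hx y hy
    unfold wmx
    exact add_nonneg (mul_nonneg (by linarith) (h.nn x hx y hy)) (div_nonneg hs hm0.le)
  · intro x hx
    unfold wmx
    rw [Finset.sum_add_distrib, ← Finset.mul_sum, h.row x hx, Finset.sum_const, h.cC, nsmul_eq_mul]
    field_simp
    ring
  · intro y hy
    unfold wmx
    rw [Finset.sum_add_distrib, ← Finset.mul_sum, h.col y hy, Finset.sum_const, h.cR, nsmul_eq_mul]
    field_simp
    ring

theorem wst_nd {K c : ℝ} (hK : 1 ≤ K) (hc : 0 < c) (hc1 : c ≤ 1) {m : ℕ} (hm : 1 ≤ m) {w : ℤ × ℤ → ℝ} {R C : Finset ℤ}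
    (h : Ds K c m w R C) {s t : ℝ} (hs : 0 ≤ s) (hst : s ≤ t) (ht : t ≤ 1) (hh : t - s ≤ 1 / 2) (A : Finset ℤ) :
    Nd K (c / 8) (t - s) m m (wst w m s t A) R C := by
  have hm0 : (0 : ℝ) < m := by exact_mod_cast hm
  refine ⟨h.cR, h.cC, le_rfl, by omega, ?_, ?_, ?_, ?_, ?_, ?_⟩
  · intro x hx y hy
    rw [pth_wst]
    obtain ⟨h1, h2⟩ := pth_p_mem hst A x
    exact add_nonneg (mul_nonneg (by linarith) (h.nn x hx y hy)) (div_nonneg (by linarith) hm0.le)
  · intro x hx y hy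
    rw [pth_wst]
    obtain ⟨h1, h2⟩ := pth_p_mem hst A x
    have h3 : (1 - pth_p s t A x) * w (x, y) ≤ (1 - pth_p s t A x) * (K / m) :=
      mul_le_mul_of_nonneg_left (h.up x hx y hy) (by linarith)
    have h4 : pth_p s t A x / m ≤ pth_p s t A x * (K / m) := by
      rw [← mul_div_assoc]
      exact div_le_div_of_nonneg_right (le_mul_of_one_le_right (by linarith) hK) hm0.le
    calc _ ≤ (1 - pth_p s t A x) * (K / m) + pth_p s t A x * (K / m) := add_le_add h3 h4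
      _ = K / m := by ring
  · intro x hx
    have h1 : ∑ y ∈ C, wst w m s t A (x, y) = 1 := by
      rw [Finset.sum_congr rfl fun y _ => pth_wst w m s t A x y, Finset.sum_add_distrib, ← Finset.mul_sum,
        h.row x hx, Finset.sum_const, h.cC, nsmul_eq_mul]
      field_simp
      ring
    rw [h1, sub_self, abs_zero]
    linarith
  · intro y hy
    have h1 : ∑ x ∈ R, wst w m s t A (x, y) - 1 =
        ∑ x ∈ R, ((pth_p s t A x - s) / m - (pth_p s t A x - s) * w (x, y)) := by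
      have h2 : ∑ x ∈ R, ((1 - s) * w (x, y) + s / m) = 1 := by
        rw [Finset.sum_add_distrib, ← Finset.mul_sum, h.col y hy, Finset.sum_const, h.cR, nsmul_eq_mul]
        field_simp
        ring
      rw [sub_eq_iff_eq_add, ← h2, ← Finset.sum_add_distrib]
      refine Finset.sum_congr rfl fun x _ => ?_
      rw [pth_wst]
      ring
    rw [h1, Finset.sum_sub_distrib]
    have h3 : 0 ≤ ∑ x ∈ R, (pth_p s t A x - s) / m :=
      Finset.sum_nonneg fun x _ => div_nonneg (by linarith [(pth_p_mem hst A x).1]) hm0.le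
    have h4 : ∑ x ∈ R, (pth_p s t A x - s) / m ≤ t - s := by
      have h5 : ∑ x ∈ R, (pth_p s t A x - s) / m ≤ ∑ x ∈ R, (t - s) / m :=
        Finset.sum_le_sum fun x _ => div_le_div_of_nonneg_right (by linarith [(pth_p_mem hst A x).2]) hm0.le
      rw [Finset.sum_const, h.cR, nsmul_eq_mul, mul_div_cancel₀ _ hm0.ne'] at h5
      exact h5
    have h6 : 0 ≤ ∑ x ∈ R, (pth_p s t A x - s) * w (x, y) :=
      Finset.sum_nonneg fun x hx => mul_nonneg (by linarith [(pth_p_mem hst A x).1]) (h.nn x hx y hy)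
    have h7 : ∑ x ∈ R, (pth_p s t A x - s) * w (x, y) ≤ t - s := by
      have h8 : ∑ x ∈ R, (pth_p s t A x - s) * w (x, y) ≤ ∑ x ∈ R, (t - s) * w (x, y) :=
        Finset.sum_le_sum fun x hx =>
          mul_le_mul_of_nonneg_right (by linarith [(pth_p_mem hst A x).2]) (h.nn x hx y hy)
      rw [← Finset.mul_sum, h.col y hy, mul_one] at h8
      exact h8
    rw [abs_le]
    constructor <;> linarith
  · intro x hx x' hx' hne
    rw [Finset.sum_congr rfl fun y _ => by rw [pth_wst w m s t A x y, pth_wst w m s t A x' y]]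
    exact pth_core hm h.cC (a := fun y => w (x, y)) (b := fun y => w (x', y))
      (p := fun _ => pth_p s t A x) (q := fun _ => pth_p s t A x')
      (fun y hy => h.nn x hx y hy) (fun y hy => h.nn x' hx' y hy) (h.gr x hx x' hx' hne)
      (fun _ _ => pth_p_mem hst A x) (fun _ _ => pth_p_mem hst A x') hs ht hh hc hc1
  · intro y hy y' hy' hne
    rw [Finset.sum_congr rfl fun x _ => by rw [pth_wst w m s t A x y, pth_wst w m s t A x y']]
    exact pth_core hm h.cR (a := fun x => w (x, y)) (b := fun x => w (x, y'))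
      (p := fun x => pth_p s t A x) (q := fun x => pth_p s t A x)
      (fun x hx => h.nn x hx y hy) (fun x hx => h.nn x hx y' hy') (h.gc y hy y' hy' hne)
      (fun x _ => pth_p_mem hst A x) (fun x _ => pth_p_mem hst A x) hs ht hh hc hc1

theorem wst_gr {K c : ℝ} (hc : 0 < c) (hc1 : c ≤ 1) {m : ℕ} (hm : 1 ≤ m) {w : ℤ × ℤ → ℝ} {R C : Finset ℤ}
    (h : Ds K c m w R C) {s t : ℝ} (hs : 0 ≤ s) (hst : s ≤ t) (ht : t ≤ 1) (hh : t - s ≤ 1 / 2) (A A' : Finset ℤ)
    {x0 : ℤ} (hx : x0 ∈ R) :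
    c / 8 / m ≤ ∑ y ∈ C, wst w m s t A (x0, y) * wst w m s t A' (x0, y) := by
  have hm0 : (0 : ℝ) < m := by exact_mod_cast hm
  have h1 : c / m ≤ ∑ y ∈ C, w (x0, y) * w (x0, y) := by
    have h2 := sq_sum_le_card_mul_sum_sq (s := C) (f := fun y => w (x0, y))
    rw [h.row x0 hx, h.cC] at h2
    have h3 : ∑ y ∈ C, w (x0, y) * w (x0, y) = ∑ y ∈ C, w (x0, y) ^ 2 :=
      Finset.sum_congr rfl fun y _ => by ring
    rw [h3, div_le_iff₀ hm0]
    linarith
  rw [Finset.sum_congr rfl fun y _ => by rw [pth_wst w m s t A x0 y, pth_wst w m s t A' x0 y]]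
  exact pth_core hm h.cC (a := fun y => w (x0, y)) (b := fun y => w (x0, y))
    (p := fun _ => pth_p s t A x0) (q := fun _ => pth_p s t A' x0)
    (fun y hy => h.nn x0 hx y hy) (fun y hy => h.nn x0 hx y hy) h1
    (fun _ _ => pth_p_mem hst A x0) (fun _ _ => pth_p_mem hst A' x0) hs ht hh hc hc1

end Pool.Agent.NQF.P
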