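import Pool.Agent.NQF.PExch
import Pool.Agent.NQF.PPthA

/-!
# NQF-PPthB: `Ee` of a doubly stochastic matrix and of the uniform matrix differ by the factor `1 + O(1/m)`

The path of matrices to the uniform matrix: the rows are exchanged one after the other, in a bounded number of rounds.
-/

set_option autoImplicit false

open Finset

namespace Pool.Agent.NQF.P

open Pool.Agent.NQL

private theorem ppthb_zero {X : ℤ × ℤ → ℝ} {R C : Finset ℤ} (h : Dst X R C) : Scl X R C (fun _ => 0) (fun _ => 0) := by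
  have h1 : ∀ x y : ℤ, sc X (fun _ => 0) (fun _ => 0) (x, y) = X (x, y) := by
    intro x y
    unfold sc
    rw [add_zero, Real.exp_zero, mul_one]
  refine ⟨fun x _ => by rw [abs_zero]; norm_num, fun y _ => by rw [abs_zero]; norm_num, ?_, ?_⟩
  · intro x hx
    rw [Finset.sum_congr rfl (fun y _ => h1 x y)]
    exact h.row x hx
  · intro y hy
    rw [Finset.sum_congr rfl (fun x _ => h1 x y)]
    exact h.col y hy

private theorem ppthb_dst {X X' : ℤ × ℤ → ℝ} {R C : Finset ℤ} (h : Dst X R C)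
    (h' : ∀ x ∈ R, ∀ y ∈ C, X' (x, y) = X (x, y)) : Dst X' R C := by
  refine ⟨fun x hx y hy => by rw [h' x hx y hy]; exact h.nn x hx y hy, ?_, ?_⟩
  · intro x hx
    rw [Finset.sum_congr rfl (fun y hy => h' x hx y hy)]
    exact h.row x hx
  · intro y hy
    rw [Finset.sum_congr rfl (fun x hx => h' x hx y hy)]
    exact h.col y hy

private theorem ppthb_step {K c τ τ0 C6 : ℝ} {m : ℕ} {w : ℤ × ℤ → ℝ} {R C : Finset ℤ} (hK : 1 ≤ K) (hc : 0 < c)
    (hc1 : c ≤ 1) (hm : 1 ≤ m) (h : Ds K c m w R C)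
    (hex : ∀ (X X' : ℤ × ℤ → ℝ) (x0 : ℤ), x0 ∈ R →
      Nd K (c / 8) τ m m X R C → Nd K (c / 8) τ m m X' R C → (∀ x ∈ R, x ≠ x0 → ∀ y ∈ C, X' (x, y) = X (x, y)) →
      c / 8 / m ≤ ∑ y ∈ C, X (x0, y) * X' (x0, y) → ∀ u v u' v' : ℤ → ℝ, Scl X R C u v → Scl X' R C u' v' →
        |Real.log (Ee m (sc X u v) R C) - Real.log (Ee m (sc X' u' v') R C)| ≤ C6 / m ^ 2)
    (hsc : ∀ X : ℤ × ℤ → ℝ, Nd K (c / 8) τ0 m m X R C → ∃ u v : ℤ → ℝ, Scl X R C u v)
    {s t : ℝ} (hs : 0 ≤ s) (hst : s ≤ t) (ht : t ≤ 1) (hh : t - s ≤ 1 / 2) (h1 : t - s ≤ τ) (h0 : t - s ≤ τ0) :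
    |Real.log (Ee m (wmx w m s) R C) - Real.log (Ee m (wmx w m t) R C)| ≤ C6 / m := by
  classical
  have hE : ∀ x ∈ R, ∀ y ∈ C, wst w m s t ∅ (x, y) = wmx w m s (x, y) := by
    intro x _ y _
    unfold wst
    rw [if_neg (Finset.notMem_empty _)]
  have hF : ∀ x ∈ R, ∀ y ∈ C, wst w m s t R (x, y) = wmx w m t (x, y) := by
    intro x hx y _
    unfold wst
    rw [if_pos hx]
  have hz : ∀ (X : ℤ × ℤ → ℝ) (e : ℤ × ℤ), sc X (fun _ => 0) (fun _ => 0) e = X e := by
    intro X e
    unfold sc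
    rw [add_zero, Real.exp_zero, mul_one]
  have key : ∀ A : Finset ℤ, A ⊆ R →
      (∃ u v : ℤ → ℝ, Scl (wst w m s t A) R C u v ∧
        |Real.log (Ee m (wmx w m s) R C) - Real.log (Ee m (sc (wst w m s t A) u v) R C)| ≤
          (A.card : ℝ) * (C6 / m ^ 2)) ∧
      (A ≠ ∅ → ∀ u v : ℤ → ℝ, Scl (wst w m s t A) R C u v →
        |Real.log (Ee m (wmx w m s) R C) - Real.log (Ee m (sc (wst w m s t A) u v) R C)| ≤
          (A.card : ℝ) * (C6 / m ^ 2)) := by
    intro A
    induction A using Finset.induction_on with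
    | empty =>
      intro _
      refine ⟨⟨fun _ => 0, fun _ => 0,
        ppthb_zero (ppthb_dst (wmx_dst hm h hs (hst.trans ht)) hE), ?_⟩, fun h' => absurd rfl h'⟩
      rw [ee_congr (w := sc (wst w m s t ∅) (fun _ => 0) (fun _ => 0)) (w' := wmx w m s)
        (fun x hx y hy => by rw [hz]; exact hE x hx y hy), sub_self, abs_zero, Finset.card_empty, Nat.cast_zero,
        zero_mul]
    | insert x0 A hx0 ih =>
      intro hA
      have hxR : x0 ∈ R := hA (Finset.mem_insert_self _ _)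
      obtain ⟨⟨u, v, huv, hb⟩, _⟩ := ih ((Finset.subset_insert _ _).trans hA)
      have hnd := wst_nd hK hc hc1 hm h hs hst ht hh A
      have hnd' := wst_nd hK hc hc1 hm h hs hst ht hh (insert x0 A)
      have h2 : ∀ u' v' : ℤ → ℝ, Scl (wst w m s t (insert x0 A)) R C u' v' →
          |Real.log (Ee m (wmx w m s) R C) - Real.log (Ee m (sc (wst w m s t (insert x0 A)) u' v') R C)| ≤
            ((insert x0 A).card : ℝ) * (C6 / m ^ 2) := by
        intro u' v' hs'
        have h3 := hex (wst w m s t A) (wst w m s t (insert x0 A)) x0 hxR (nd_mono hnd (le_refl _) h1)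
          (nd_mono hnd' (le_refl _) h1) (by
            intro x _ hne y _
            unfold wst
            by_cases hxA : x ∈ A
            · rw [if_pos (Finset.mem_insert_of_mem hxA), if_pos hxA]
            · rw [if_neg (fun h4 => by
                rcases Finset.mem_insert.1 h4 with h5 | h5
                · exact hne h5
                · exact hxA h5), if_neg hxA])
          (wst_gr hc hc1 hm h hs hst ht hh A (insert x0 A) hxR) u v u' v' huv hs'
        rw [Finset.card_insert_of_notMem hx0]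
        push_cast
        have h4 := abs_sub_le (Real.log (Ee m (wmx w m s) R C)) (Real.log (Ee m (sc (wst w m s t A) u v) R C))
          (Real.log (Ee m (sc (wst w m s t (insert x0 A)) u' v') R C))
        linarith
      refine ⟨?_, fun _ => h2⟩
      obtain ⟨u', v', hs'⟩ := hsc _ (nd_mono hnd' (le_refl _) h0)
      exact ⟨u', v', hs', h2 u' v' hs'⟩
  have hR : R ≠ ∅ := by
    intro hR
    have h2 := h.cR
    rw [hR, Finset.card_empty] at h2
    omega
  have h2 := (key R (Finset.Subset.refl _)).2 hR (fun _ => 0) (fun _ => 0)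
    (ppthb_zero (ppthb_dst (wmx_dst hm h (hs.trans hst) ht) hF))
  rw [ee_congr (w := sc (wst w m s t R) (fun _ => 0) (fun _ => 0)) (w' := wmx w m t)
        (fun x hx y hy => by rw [hz]; exact hF x hx y hy), h.cR] at h2
  refine h2.trans (le_of_eq ?_)
  have hm0 : (m : ℝ) ≠ 0 := Nat.cast_ne_zero.2 (by omega)
  field_simp

theorem path (hLS : LsP) {K c : ℝ} (hK : 1 ≤ K) (hc : 0 < c) (hc1 : c ≤ 1) : ∃ (C7 : ℝ) (m7 : ℕ), 1 ≤ C7 ∧ 8 ≤ m7 ∧
    ∀ (m : ℕ) (w : ℤ × ℤ → ℝ) (R C : Finset ℤ), m7 ≤ m → Ds K c m w R C →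
      |Real.log (Ee m w R C) - Real.log (Ee m (fun _ => 1 / (m : ℝ)) R C)| ≤ C7 / m := by
  obtain ⟨τ, C6, m6, hτ, hτ1, hC6, hm6, hex⟩ := exch hLS hK (c := c / 8) (by linarith) (by linarith)
  obtain ⟨τ0, hτ0, hτ01, hsc⟩ := scl_ex hK (c := c / 8) (by linarith) (by linarith)
  obtain ⟨T, hT⟩ := exists_nat_gt (max (1 / τ) (1 / τ0))
  have hT1 : 1 / τ < T := lt_of_le_of_lt (le_max_left _ _) hT
  have hT2 : 1 / τ0 < T := lt_of_le_of_lt (le_max_right _ _) hT
  have hTpos : (0 : ℝ) < T := lt_trans (one_div_pos.2 hτ) hT1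
  have hT3 : 1 / (T : ℝ) ≤ τ := by
    rw [div_lt_iff₀ hτ] at hT1
    rw [div_le_iff₀ hTpos]
    linarith
  have hT4 : 1 / (T : ℝ) ≤ τ0 := by
    rw [div_lt_iff₀ hτ0] at hT2
    rw [div_le_iff₀ hTpos]
    linarith
  have hT5 : (1 : ℝ) ≤ T := by
    have h1 : 0 < T := by exact_mod_cast hTpos
    exact_mod_cast h1
  refine ⟨T * C6, m6, ?_, hm6, ?_⟩
  · calc (1 : ℝ) = 1 * 1 := by ring
      _ ≤ T * C6 := mul_le_mul hT5 hC6 zero_le_one hTpos.le
  intro m w R C hm h
  have hm1 : 1 ≤ m := by omega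
  have hstep : ∀ i : ℕ, i ≤ T →
      |Real.log (Ee m (wmx w m 0) R C) - Real.log (Ee m (wmx w m ((i : ℝ) / T)) R C)| ≤ (i : ℝ) * (C6 / m) := by
    intro i
    induction i with
    | zero =>
      intro _
      rw [Nat.cast_zero, zero_div, sub_self, abs_zero, zero_mul]
    | succ i ih =>
      intro hi
      have h1 := ih (by omega)
      have e1 : ((i + 1 : ℕ) : ℝ) / T - (i : ℝ) / T = 1 / T := by
        push_cast
        ring
      have h2 := ppthb_step hK hc hc1 hm1 h (fun X X' x0 hx0 => hex m X X' R C x0 hm hx0)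
        (fun X => hsc m m X R C hm1) (s := (i : ℝ) / T) (t := ((i + 1 : ℕ) : ℝ) / T) (by positivity)
        (by
          have : (0 : ℝ) < 1 / T := by positivity
          linarith)
        (by
          rw [div_le_one hTpos]
          exact_mod_cast hi)
        (by rw [e1]; linarith) (by rw [e1]; exact hT3) (by rw [e1]; exact hT4)
      have h3 := abs_sub_le (Real.log (Ee m (wmx w m 0) R C)) (Real.log (Ee m (wmx w m ((i : ℝ) / T)) R C))
        (Real.log (Ee m (wmx w m (((i + 1 : ℕ) : ℝ) / T)) R C))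
      have e2 : ((i + 1 : ℕ) : ℝ) * (C6 / m) = (i : ℝ) * (C6 / m) + C6 / m := by
        push_cast
        ring
      rw [e2]
      linarith
  have h1 := hstep T (le_refl _)
  have e1 : wmx w m 0 = w := by
    funext e
    unfold wmx
    rw [sub_zero, one_mul, zero_div, add_zero]
  have e2 : wmx w m ((T : ℝ) / T) = fun _ => 1 / (m : ℝ) := by
    funext e
    unfold wmx
    rw [div_self hTpos.ne', sub_self, zero_mul, zero_add]
  rw [e1, e2] at h1
  rw [mul_div_assoc]
  exact h1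

end Pool.Agent.NQF.P
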