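import Pool.Agent.NQF.PStep
import Pool.Agent.NQF.PPeA
import Pool.Agent.NQF.PPeB

/-!
# NQF-PRow: `Ee` is nearly an average of the values of the minors of a row (or column)

PLAN. `w = sc J u v`, `η`, `Cs'`, `m1'` from `step`. Row `x ∈ R`: for `y ∈ C` let `α = a y - u`, `β = b y - v` (as functions), then
`sc w α β = sc J (a y) (b y)` (`Real.exp_add`), so by `step`: `ζ y := -∑_{R.erase x} α - ∑_{C.erase y} β + Vp (m-1) (sc J (a y) (b y)) .. - Vp m w R C`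
satisfies `|ζ y - η (x, y)| ≤ Cs'/m²`, `|ζ y| ≤ 2 Cs'/m`. Put `p y = w (x, y) * exp (ζ y)`.
Identity: `pe w R C = ∑_y w (x, y) pe w (R.erase x) (C.erase y)` (`pe_row`), and
`pe w R' C' = pe (sc J (a y) (b y)) R' C' * exp (-∑_{R'} α - ∑_{C'} β)` (`pe_sc` for `sc w α β`, `R' = R.erase x`, `C' = C.erase y`), so
`Ee m w R C = ∑_y w (x, y) exp (-∑α - ∑β + Vp(m-1) - Vp m) * (pe (sc J ..) R' C' exp (- Vp (m-1) ..)) = ∑ p y * Ee (m-1) ..`.
Estimates for `m ≥ m1` with `2 Cs'/m ≤ 1`: `|exp ζ - 1| ≤ 2 |ζ|` (`Real.abs_exp_sub_one_le`), so `|p y - w| ≤ (4 Cs'/m) w`; `|exp ζ - 1 - ζ| ≤ ζ²`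
(`Real.abs_exp_sub_one_sub_id_le`), `∑ p - 1 = ∑ w (exp ζ - 1 - ζ) + ∑ w (ζ - η) + ∑ w η`, so `|∑ p - 1| ≤ (4 Cs'² + 2 Cs')/m²`. `Cs = 6 Cs'²`, say.
The columns in the same way with `pe_col` and the third property of `step` (the indices `a x`, `b x` for `x ∈ R`).
-/

set_option autoImplicit false

open Finset

namespace Pool.Agent.NQF.P

open Pool.Agent.NQL

private theorem core {S : Finset ℤ} {wt η ζ : ℤ → ℝ} {A : ℝ} {m : ℕ} (hA : 1 ≤ A) (hm : 2 * A ≤ m)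
    (hw : ∀ i ∈ S, 0 ≤ wt i) (hs : ∑ i ∈ S, wt i = 1) (hη : ∀ i ∈ S, |η i| ≤ A / m)
    (hηs : |∑ i ∈ S, wt i * η i| ≤ A / m ^ 2) (hζ : ∀ i ∈ S, |ζ i - η i| ≤ A / m ^ 2) :
    (∀ i ∈ S, |wt i * Real.exp (ζ i) - wt i| ≤ 6 * A ^ 2 / m * wt i) ∧
      |∑ i ∈ S, wt i * Real.exp (ζ i) - 1| ≤ 6 * A ^ 2 / m ^ 2 := by
  have hm0 : (0 : ℝ) < m := by linarith
  have hm1 : (1 : ℝ) ≤ m := by linarith
  have hζ1 : ∀ i ∈ S, |ζ i| ≤ 2 * A / m := by
    intro i hi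
    have h1 : A / (m : ℝ) ^ 2 ≤ A / m := by
      apply div_le_div_of_nonneg_left (by linarith) hm0
      nlinarith
    have h2 : |ζ i| ≤ |ζ i - η i| + |η i| := by
      have := abs_add_le (ζ i - η i) (η i)
      simpa using this
    have h3 : 2 * A / (m : ℝ) = A / m + A / m := by ring
    rw [h3]
    linarith [hζ i hi, hη i hi]
  have hle1 : 2 * A / (m : ℝ) ≤ 1 := by
    rw [div_le_one hm0]
    exact hm
  constructor
  · intro i hi
    have h1 : |ζ i| ≤ 1 := (hζ1 i hi).trans hle1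
    have h2 := Real.abs_exp_sub_one_le h1
    have h3 : wt i * Real.exp (ζ i) - wt i = wt i * (Real.exp (ζ i) - 1) := by ring
    rw [h3, abs_mul, abs_of_nonneg (hw i hi), mul_comm]
    apply mul_le_mul_of_nonneg_right _ (hw i hi)
    calc |Real.exp (ζ i) - 1| ≤ 2 * |ζ i| := h2
      _ ≤ 2 * (2 * A / m) := by linarith [hζ1 i hi]
      _ = 4 * A / m := by ring
      _ ≤ 6 * A ^ 2 / m := by
        apply div_le_div_of_nonneg_right _ hm0.le
        nlinarith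
  · have hsplit : ∑ i ∈ S, wt i * Real.exp (ζ i) - 1 =
        ∑ i ∈ S, wt i * (Real.exp (ζ i) - 1 - ζ i) + ∑ i ∈ S, wt i * (ζ i - η i) + ∑ i ∈ S, wt i * η i := by
      have h0 : ∑ i ∈ S, (wt i * Real.exp (ζ i) - wt i) = ∑ i ∈ S, wt i * Real.exp (ζ i) - 1 := by
        rw [Finset.sum_sub_distrib, hs]
      rw [← h0, ← Finset.sum_add_distrib, ← Finset.sum_add_distrib]
      apply Finset.sum_congr rfl
      intro i _
      ring
    have hb1 : |∑ i ∈ S, wt i * (Real.exp (ζ i) - 1 - ζ i)| ≤ 4 * A ^ 2 / m ^ 2 := by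
      calc |∑ i ∈ S, wt i * (Real.exp (ζ i) - 1 - ζ i)| ≤ ∑ i ∈ S, |wt i * (Real.exp (ζ i) - 1 - ζ i)| :=
            Finset.abs_sum_le_sum_abs _ _
        _ ≤ ∑ i ∈ S, wt i * (4 * A ^ 2 / m ^ 2) := by
            apply Finset.sum_le_sum
            intro i hi
            rw [abs_mul, abs_of_nonneg (hw i hi)]
            apply mul_le_mul_of_nonneg_left _ (hw i hi)
            have h1 : |ζ i| ≤ 1 := (hζ1 i hi).trans hle1
            have h2 := Real.abs_exp_sub_one_sub_id_le h1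
            refine h2.trans ?_
            have h3 : ζ i ^ 2 ≤ (2 * A / m) ^ 2 := by
              rw [← sq_abs (ζ i)]
              exact pow_le_pow_left₀ (abs_nonneg _) (hζ1 i hi) 2
            refine h3.trans (le_of_eq ?_)
            ring
        _ = 4 * A ^ 2 / m ^ 2 := by rw [← Finset.sum_mul, hs, one_mul]
    have hb2 : |∑ i ∈ S, wt i * (ζ i - η i)| ≤ A / m ^ 2 := by
      calc |∑ i ∈ S, wt i * (ζ i - η i)| ≤ ∑ i ∈ S, |wt i * (ζ i - η i)| := Finset.abs_sum_le_sum_abs _ _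
        _ ≤ ∑ i ∈ S, wt i * (A / m ^ 2) := by
            apply Finset.sum_le_sum
            intro i hi
            rw [abs_mul, abs_of_nonneg (hw i hi)]
            exact mul_le_mul_of_nonneg_left (hζ i hi) (hw i hi)
        _ = A / m ^ 2 := by rw [← Finset.sum_mul, hs, one_mul]
    rw [hsplit]
    have h1 := abs_add_le (∑ i ∈ S, wt i * (Real.exp (ζ i) - 1 - ζ i) + ∑ i ∈ S, wt i * (ζ i - η i))
      (∑ i ∈ S, wt i * η i)
    have h2 := abs_add_le (∑ i ∈ S, wt i * (Real.exp (ζ i) - 1 - ζ i)) (∑ i ∈ S, wt i * (ζ i - η i))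
    have h3 : 4 * A ^ 2 / (m : ℝ) ^ 2 + A / m ^ 2 + A / m ^ 2 ≤ 6 * A ^ 2 / m ^ 2 := by
      rw [← add_div, ← add_div]
      apply div_le_div_of_nonneg_right _ (by positivity)
      nlinarith
    linarith

private theorem sc_sc (J : ℤ × ℤ → ℝ) (u v a b : ℤ → ℝ) :
    sc (sc J u v) (fun z => a z - u z) (fun z => b z - v z) = sc J a b := by
  funext e
  show J e * Real.exp (u e.1 + v e.2) * Real.exp (a e.1 - u e.1 + (b e.2 - v e.2)) = J e * Real.exp (a e.1 + b e.2)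
  rw [mul_assoc, ← Real.exp_add]
  congr 2
  ring

private theorem ident (J : ℤ × ℤ → ℝ) (u v a b : ℤ → ℝ) (R' C' : Finset ℤ) (W V V' : ℝ) :
    W * pe (sc J u v) R' C' * Real.exp (-V) =
      (W * Real.exp (-(∑ x' ∈ R', (a x' - u x')) - ∑ y' ∈ C', (b y' - v y') + V' - V)) *
        (pe (sc J a b) R' C' * Real.exp (-V')) := by
  have h1 := pe_sc (sc J u v) R' C' (fun z => a z - u z) (fun z => b z - v z)
  rw [sc_sc] at h1
  rw [h1]
  have h2 : Real.exp (-(∑ x' ∈ R', (a x' - u x')) - ∑ y' ∈ C', (b y' - v y') + V' - V) *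
      (Real.exp (∑ x' ∈ R', (a x' - u x') + ∑ y' ∈ C', (b y' - v y')) * Real.exp (-V')) = Real.exp (-V) := by
    rw [← Real.exp_add, ← Real.exp_add]
    congr 1
    ring
  rw [← h2]
  ring

theorem rowstep (hLS : LsP) {K c : ℝ} (hK : 1 ≤ K) (hc : 0 < c) (hc1 : c ≤ 1) : ∃ (Cs : ℝ) (m1 : ℕ), 1 ≤ Cs ∧ 2 ≤ m1 ∧
    ∀ (m : ℕ) (J : ℤ × ℤ → ℝ) (u v : ℤ → ℝ) (R C : Finset ℤ), m1 ≤ m → Ds K c m (sc J u v) R C →
      (∀ x ∈ R, ∀ a b : ℤ → ℤ → ℝ, (∀ y ∈ C, Dst (sc J (a y) (b y)) (R.erase x) (C.erase y)) →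
        ∃ p : ℤ → ℝ, (∀ y ∈ C, |p y - sc J u v (x, y)| ≤ Cs / m * sc J u v (x, y)) ∧
          |∑ y ∈ C, p y - 1| ≤ Cs / m ^ 2 ∧
          Ee m (sc J u v) R C = ∑ y ∈ C, p y * Ee (m - 1) (sc J (a y) (b y)) (R.erase x) (C.erase y)) ∧
      (∀ y ∈ C, ∀ a b : ℤ → ℤ → ℝ, (∀ x ∈ R, Dst (sc J (a x) (b x)) (R.erase x) (C.erase y)) →
        ∃ p : ℤ → ℝ, (∀ x ∈ R, |p x - sc J u v (x, y)| ≤ Cs / m * sc J u v (x, y)) ∧
          |∑ x ∈ R, p x - 1| ≤ Cs / m ^ 2 ∧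
          Ee m (sc J u v) R C = ∑ x ∈ R, p x * Ee (m - 1) (sc J (a x) (b x)) (R.erase x) (C.erase y)) := by
  obtain ⟨A, mA, hA, hmA, hall⟩ := step hLS hK hc hc1
  refine ⟨6 * A ^ 2, max mA ⌈2 * A⌉₊, by nlinarith, hmA.trans (le_max_left _ _), ?_⟩
  intro m J u v R C hm hD
  have hm' : 2 * A ≤ m := (Nat.le_ceil _).trans (by exact_mod_cast (le_max_right mA _).trans hm)
  obtain ⟨η, h1, h2, h3, h4⟩ := hall m (sc J u v) R C ((le_max_left _ _).trans hm) hD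
  constructor
  · intro x hx a b hab
    obtain ⟨ζ, hζ⟩ : ∃ ζ : ℤ → ℝ, ζ = fun y => -(∑ x' ∈ R.erase x, (a y x' - u x')) -
      ∑ y' ∈ C.erase y, (b y y' - v y') + Vp (m - 1) (sc J (a y) (b y)) (R.erase x) (C.erase y) -
      Vp m (sc J u v) R C := ⟨_, rfl⟩
    have hb : ∀ y ∈ C, |ζ y - η (x, y)| ≤ A / m ^ 2 := by
      intro y hy
      have h := h4 x hx y hy (fun z => a y z - u z) (fun z => b y z - v z) (by rw [sc_sc]; exact hab y hy)
      rw [sc_sc] at h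
      rw [hζ]
      exact h
    have hcore := core (wt := fun y => sc J u v (x, y)) (η := fun y => η (x, y)) hA hm'
      (fun y hy => hD.nn x hx y hy) (hD.row x hx) (fun y hy => h1 x hx y hy) (h2 x hx) hb
    refine ⟨fun y => sc J u v (x, y) * Real.exp (ζ y), hcore.1, hcore.2, ?_⟩
    rw [Ee, pe_row _ hx, Finset.sum_mul]
    apply Finset.sum_congr rfl
    intro y hy
    rw [Ee, hζ]
    exact ident J u v (a y) (b y) (R.erase x) (C.erase y) _ _ _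
  · intro y hy a b hab
    obtain ⟨ζ, hζ⟩ : ∃ ζ : ℤ → ℝ, ζ = fun x => -(∑ x' ∈ R.erase x, (a x x' - u x')) -
      ∑ y' ∈ C.erase y, (b x y' - v y') + Vp (m - 1) (sc J (a x) (b x)) (R.erase x) (C.erase y) -
      Vp m (sc J u v) R C := ⟨_, rfl⟩
    have hb : ∀ x ∈ R, |ζ x - η (x, y)| ≤ A / m ^ 2 := by
      intro x hx
      have h := h4 x hx y hy (fun z => a x z - u z) (fun z => b x z - v z) (by rw [sc_sc]; exact hab x hx)
      rw [sc_sc] at h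
      rw [hζ]
      exact h
    have hcore := core (wt := fun x => sc J u v (x, y)) (η := fun x => η (x, y)) hA hm'
      (fun x hx => hD.nn x hx y hy) (hD.col y hy) (fun x hx => h1 x hx y hy) (h3 y hy) hb
    refine ⟨fun x => sc J u v (x, y) * Real.exp (ζ x), hcore.1, hcore.2, ?_⟩
    rw [Ee, pe_col _ hy, Finset.sum_mul]
    apply Finset.sum_congr rfl
    intro x hx
    rw [Ee, hζ]
    exact ident J u v (a x) (b x) (R.erase x) (C.erase y) _ _ _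

end Pool.Agent.NQF.P
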