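import Pool.Agent.NQF.PSys

/-!
# NQF-PStep: the second order value under removal of a row and a column

PLAN. Apply `hLS` with `K`, `lam = c/100` to the line system `ds_lsys` (`L = L2`, `I = I2 R C`, `S = R ×ˢ C`, line weights `0`, `g = ga`).
Given `a`, `b` take `δ l = if l.1 = 0 then a l.2 else b l.2`; `w f * exp (dS L2 δ f) = sc w a b f` (`dS_L2`). `StR`: `l ∈ I2 R C \ L2 (x, y) =
I2 (R.erase x) (C.erase y)` (`i2_L2`), `Sd L2 (R ×ˢ C) (x, y) = (R.erase x) ×ˢ (C.erase y)` (`sd_L2`), `sum_row`, `sum_col` for the smaller sets, the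
fields `row`, `col` of `Dst`. `DV2 = DV1 + log ((m-1)/m)/2 - (LD' - LD)/2 - 0` (`kap 2 = 0`), `DV1 = (m - 1) - ∑ δ - m + 2 = 1 - ∑_{R.erase x} a - ∑_{C.erase y} b`
(`∑_{f ∈ Sd} w f exp = ∑_{x'} 1 = m - 1`, `∑_{S} w = m`, `Finset.sum_product`), and
`Vp (m-1) .. - Vp m .. = 1 + log (4 π (m-1))/2 - log (4 π m)/2 - (LD' - LD)/2` (cast `((m - 1 : ℕ) : ℝ) = m - 1`), so the expression is exactly `DV2`.
The sums of `w η` over a row / column: `sum_row`, `sum_col`, `ga ≠ 0`.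
-/

set_option autoImplicit false

open Finset

namespace Pool.Agent.NQF.P

open Pool.Agent.NQL

private theorem dst_sum {w : ℤ × ℤ → ℝ} {R C : Finset ℤ} (h : Dst w R C) :
    ∑ f ∈ R ×ˢ C, w f = (R.card : ℝ) := by
  rw [Finset.sum_product, Finset.sum_congr rfl h.row, Finset.sum_const, nsmul_eq_mul, mul_one]

theorem step (hLS : LsP) {K c : ℝ} (hK : 1 ≤ K) (hc : 0 < c) (hc1 : c ≤ 1) : ∃ (Cs : ℝ) (m1 : ℕ), 1 ≤ Cs ∧ 2 ≤ m1 ∧
    ∀ (m : ℕ) (w : ℤ × ℤ → ℝ) (R C : Finset ℤ), m1 ≤ m → Ds K c m w R C → ∃ η : ℤ × ℤ → ℝ,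
      (∀ x ∈ R, ∀ y ∈ C, |η (x, y)| ≤ Cs / m) ∧
      (∀ x ∈ R, |∑ y ∈ C, w (x, y) * η (x, y)| ≤ Cs / m ^ 2) ∧
      (∀ y ∈ C, |∑ x ∈ R, w (x, y) * η (x, y)| ≤ Cs / m ^ 2) ∧
      (∀ x ∈ R, ∀ y ∈ C, ∀ a b : ℤ → ℝ, Dst (sc w a b) (R.erase x) (C.erase y) →
        |(-(∑ x' ∈ R.erase x, a x') - ∑ y' ∈ C.erase y, b y' + Vp (m - 1) (sc w a b) (R.erase x) (C.erase y) -
          Vp m w R C) - η (x, y)| ≤ Cs / m ^ 2) := by
  obtain ⟨C0, mA, hC0, hmA, hall⟩ := hLS K (c / 100) hK (by positivity) (by linarith)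
  refine ⟨C0, mA, hC0, hmA, ?_⟩
  intro m w R C hm hD
  have hm2 : 2 ≤ m := hmA.trans hm
  obtain ⟨η, h1, h2, h3⟩ := hall m (I2 R C) L2 (R ×ˢ C) w (fun _ => 0) ga hm (ds_lsys hc hc1 (by omega) hD)
  refine ⟨η, ?_, ?_, ?_, ?_⟩
  · intro x hx y hy
    exact h1 (x, y) (Finset.mem_product.2 ⟨hx, hy⟩)
  · intro x hx
    have h := h2 (0, x) (mem_I2.2 (Or.inl ⟨x, hx, rfl⟩)) (by rw [ga0]; norm_num)
    rwa [sum_row hx] at h
  · intro y hy
    have h := h2 (1, y) (mem_I2.2 (Or.inr ⟨y, hy, rfl⟩)) (by rw [ga1]; norm_num)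
    rwa [sum_col hy] at h
  · intro x hx y hy a b hab
    obtain ⟨δ, hδ⟩ : ∃ δ : Li → ℝ, δ = fun l => if l.1 = 0 then a l.2 else b l.2 := ⟨_, rfl⟩
    have hδ0 : ∀ z, δ (0, z) = a z := by intro z; rw [hδ]; simp
    have hδ1 : ∀ z, δ (1, z) = b z := by intro z; rw [hδ]; simp
    have hfun : (fun f => w f * Real.exp (dS L2 δ f)) = sc w a b := by
      funext f
      rw [dS_L2, hδ0, hδ1]
      rfl
    have hfun' : ∀ f, w f * Real.exp (dS L2 δ f) = sc w a b f := fun f => congrFun hfun f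
    have hst : StR (I2 R C) L2 (R ×ˢ C) w (fun _ => 0) (x, y) δ := by
      intro l hl
      rw [i2_L2, mem_I2] at hl
      rw [sd_L2, zero_mul, add_zero, Finset.sum_congr rfl fun f _ => hfun' f]
      rcases hl with ⟨x', hx', rfl⟩ | ⟨y', hy', rfl⟩
      · rw [sum_row hx']
        exact hab.row x' hx'
      · rw [sum_col hy']
        exact hab.col y' hy'
    have h := h3 (x, y) (Finset.mem_product.2 ⟨hx, hy⟩) δ hst
    have hdst : Dst w R C := ds_dst hD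
    have hcR : ((R.erase x).card : ℝ) = (m : ℝ) - 1 := by
      rw [Finset.card_erase_of_mem hx, hD.cR, Nat.cast_sub (by omega), Nat.cast_one]
    have hDV1 : DV1 2 (I2 R C) L2 (R ×ˢ C) w (fun _ => 0) (x, y) δ =
        1 - ∑ x' ∈ R.erase x, a x' - ∑ y' ∈ C.erase y, b y' := by
      rw [DV1, i2_L2, sd_L2, Finset.sum_congr rfl fun f _ => hfun' f, dst_sum hab, dst_sum hdst, hcR, hD.cR, sum_I2]
      simp only [hδ0, hδ1, zero_mul, zero_sub, Finset.sum_neg_distrib, Finset.sum_const_zero, add_zero,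
        Nat.cast_ofNat]
      ring
    have hm0 : (0 : ℝ) < (m : ℝ) - 1 := by
      have : (2 : ℝ) ≤ m := by exact_mod_cast hm2
      linarith
    have hmm : (0 : ℝ) < m := by linarith
    have hcast : ((m - 1 : ℕ) : ℝ) = (m : ℝ) - 1 := by
      rw [Nat.cast_sub (by omega), Nat.cast_one]
    have hlog : Real.log (4 * Real.pi * ((m : ℝ) - 1)) - Real.log (4 * Real.pi * m) = Real.log (((m : ℝ) - 1) / m) := by
      have hpi := Real.pi_pos
      rw [← Real.log_div (by positivity) (by positivity)]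
      congr 1
      field_simp
    have hkap : kap 2 = 0 := by
      rw [kap]
      norm_num
    have hDV2 : DV2 2 m (I2 R C) L2 (R ×ˢ C) w (fun _ => 0) ga (x, y) δ =
        -(∑ x' ∈ R.erase x, a x') - ∑ y' ∈ C.erase y, b y' + Vp (m - 1) (sc w a b) (R.erase x) (C.erase y) -
          Vp m w R C := by
      rw [DV2, hDV1, hkap, hfun, i2_L2, sd_L2, Vp, Vp, hcast, ← hlog]
      ring
    rw [hDV2] at h
    exact h

end Pool.Agent.NQF.P
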