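import Pool.Agent.NQF.RDef
import Pool.Agent.NQL.ABas
import Pool.Agent.NQL.BNom
import Pool.Agent.NQL.BFul
import Pool.Agent.NQL.DIns
import Pool.Agent.NQL.DTyD
import Pool.Agent.NQL.DBaK

/-!
# NQF-RBad: for a typical configuration nearly all random instances are good

PLAN. Copy the proof of `NQL.bad_sum` (NQL/DBad.lean) with a parameter `η`: `C/k²` terms: `∑_{k ≥ m0'} ≤ 2C/m0' ≤ η/2` for `m0' ≥ 4C/η`; the terms `12 k⁴/N` with `k⁶ ≤ N`: `≤ 12/r ≤ η/2` where `r = ⌊N^(1/6)⌋ ≥ 24/η` for large `N`.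
-/

set_option autoImplicit false

open Finset

namespace Pool.Agent.NQF

open Pool.Agent.NQ (board dsum F Ent Dg phi ln Q Qset QS NonAtt bern)
open Pool.Agent.NQR (Adm Opt Bd Rf hS hD hh InR)
open Pool.Agent.NQL

private theorem db_exp {x : ℝ} (hx : 0 < x) (n : ℕ) : Real.exp (-x) ≤ n.factorial / x ^ n := by
  have h := Real.pow_div_factorial_le_exp x hx.le n
  have hf : (0 : ℝ) < n.factorial := by exact_mod_cast n.factorial_pos
  rw [div_le_iff₀ hf] at h
  rw [Real.exp_neg, le_div_iff₀ (pow_pos hx n), inv_mul_le_iff₀ (Real.exp_pos x)]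
  exact h

private theorem db_pe {c : ℝ} (hc : 0 < c) (p : ℕ) {k : ℕ} (hk : 1 ≤ k) :
    (k : ℝ) ^ p * Real.exp (-(c * k)) ≤ (((p + 2).factorial : ℕ) : ℝ) / c ^ (p + 2) / (k : ℝ) ^ 2 := by
  have hk0 : (0 : ℝ) < k := by exact_mod_cast hk
  have h := db_exp (mul_pos hc hk0) (p + 2)
  refine (mul_le_mul_of_nonneg_left h (pow_nonneg hk0.le p)).trans (le_of_eq ?_)
  rw [mul_pow, pow_add (k : ℝ) p 2]
  field_simp

private theorem db_sq {c : ℝ} (hc : 0 < c) {k : ℕ} (hk : 1 ≤ k) :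
    (k : ℝ) ^ 7 * Real.exp (-(c * Real.sqrt k)) ≤ ((Nat.factorial 18 : ℕ) : ℝ) / c ^ 18 / (k : ℝ) ^ 2 := by
  have hk0 : (0 : ℝ) < k := by exact_mod_cast hk
  have h := db_exp (mul_pos hc (Real.sqrt_pos.2 hk0)) 18
  refine (mul_le_mul_of_nonneg_left h (pow_nonneg hk0.le 7)).trans (le_of_eq ?_)
  have h2 : Real.sqrt k ^ 18 = (k : ℝ) ^ 7 * (k : ℝ) ^ 2 := by
    have h3 : Real.sqrt k ^ 18 = (Real.sqrt k ^ 2) ^ 9 := by ring
    rw [h3, Real.sq_sqrt hk0.le]
    ring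
  rw [mul_pow, h2]
  field_simp

private theorem db_tail {C : ℝ} (hC : 0 ≤ C) {a N : ℕ} (ha : 1 ≤ a) :
    ∑ k ∈ Finset.Icc a N, C / (k : ℝ) ^ 2 ≤ C * (2 / a) := by
  have h1 : Finset.Icc a N = Finset.Ioo (a - 1) (N + 1) := by
    ext k
    rw [Finset.mem_Icc, Finset.mem_Ioo]
    omega
  have h2 := sum_Ioo_inv_sq_le (α := ℝ) (a - 1) (N + 1)
  have h3 : (((a - 1 : ℕ) : ℝ) + 1) = a := by
    rw [Nat.cast_sub ha]
    push_cast
    ring
  rw [h3] at h2
  have h4 : ∀ k : ℕ, C / (k : ℝ) ^ 2 = C * ((k : ℝ) ^ 2)⁻¹ := fun k => rfl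
  rw [h1, sum_congr rfl (fun k _ => h4 k), ← mul_sum]
  exact mul_le_mul_of_nonneg_left h2 hC

private theorem db_small {a N r0 : ℕ} {η : ℝ} (hη : 0 < η) (ha : 1 ≤ a) (hr0 : 1 ≤ r0)
    (hr1 : 24 / η ≤ r0) (hN : r0 ^ 6 ≤ N) :
    ∑ k ∈ Finset.Icc a N, (if k ^ 6 ≤ N then 12 * (k : ℝ) ^ 4 / N else 0) ≤ η / 2 := by
  have hN1 : r0 ≤ N := le_trans (Nat.le_self_pow (by norm_num) r0) hN
  have hN0 : (0 : ℝ) < N := by
    have : 0 < N := by omega
    exact_mod_cast this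
  set r := Nat.findGreatest (fun r => r ^ 6 ≤ N) N with hr
  have h1 : r ^ 6 ≤ N := Nat.findGreatest_spec (P := fun r => r ^ 6 ≤ N) (m := 0) (Nat.zero_le N) (Nat.zero_le N)
  have h2 : r0 ≤ r := Nat.le_findGreatest hN1 hN
  have h3 : (Finset.Icc a N).filter (fun k => k ^ 6 ≤ N) ⊆ Finset.Icc 1 r := by
    intro k hk
    rw [mem_filter, Finset.mem_Icc] at hk
    rw [Finset.mem_Icc]
    exact ⟨ha.trans hk.1.1, Nat.le_findGreatest hk.1.2 hk.2⟩
  have h4 : 24 / η ≤ (r : ℝ) := hr1.trans (by exact_mod_cast h2)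
  have h5 : (r : ℝ) ^ 6 ≤ N := by exact_mod_cast h1
  rw [← sum_filter]
  calc ∑ k ∈ (Finset.Icc a N).filter (fun k => k ^ 6 ≤ N), 12 * (k : ℝ) ^ 4 / N
      ≤ ∑ k ∈ Finset.Icc 1 r, 12 * (k : ℝ) ^ 4 / N :=
        sum_le_sum_of_subset_of_nonneg h3 (fun k _ _ => by positivity)
    _ ≤ ∑ _k ∈ Finset.Icc 1 r, 12 * (r : ℝ) ^ 4 / N := by
        refine sum_le_sum fun k hk => ?_
        rw [Finset.mem_Icc] at hk
        have h6 : (k : ℝ) ≤ r := by exact_mod_cast hk.2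
        gcongr
    _ = r * (12 * (r : ℝ) ^ 4 / N) := by
        rw [sum_const, nsmul_eq_mul, Nat.card_Icc]
        simp
    _ ≤ η / 2 := by
        have h7 : 24 / η * (r : ℝ) ^ 5 ≤ N := by
          refine le_trans ?_ h5
          have h8 : (r : ℝ) ^ 6 = r * (r : ℝ) ^ 5 := by ring
          rw [h8]
          exact mul_le_mul_of_nonneg_right h4 (by positivity)
        have h9 : r * (12 * (r : ℝ) ^ 4 / N) = 12 * (r : ℝ) ^ 5 / N := by ring
        have h10 : 24 * (r : ℝ) ^ 5 ≤ N * η := by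
          rw [div_mul_eq_mul_div, div_le_iff₀ hη] at h7
          exact h7
        rw [h9, div_le_div_iff₀ hN0 (by norm_num)]
        linarith

private theorem db_good {L ε t1 ε' : ℝ} (hL : 1 ≤ L) (hε : 0 < ε) (hε' : 0 < ε') {N : ℕ} (hN : 2 ≤ N)
    {W : ℤ × ℤ → ℝ} {A B : ℤ → ℝ} (hR : Rf L N W A B) : Good L ε t1 ε' N N W (full N) := by
  have hN1 : 1 ≤ N := by omega
  have hN0 : (0 : ℝ) < N := by
    have : 0 < N := by omega
    exact_mod_cast this
  obtain ⟨_, _, h1, h2⟩ := full_st hL hN hR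
  have hL3 : 1 ≤ L ^ 3 := one_le_pow₀ hL
  refine ⟨vd_full hN1, ?_, ?_, ?_, ?_⟩
  · intro l hl hrc
    rw [h1 l hl, tt_rc hrc, sub_self, abs_zero]
    exact hε.le
  · intro _ l hl _
    rw [h1 l hl, sub_self, abs_zero]
    exact hε'.le
  · intro l hl hrc
    rw [h1 l hl]
    have h3 := (tt_bd hL hR hN1 le_rfl hrc).2.2
    have h4 : 0 ≤ 1 / L := by positivity
    have h5 : (0 : ℝ) ≤ (N : ℝ) ^ (-(1 / 4) : ℝ) := Real.rpow_nonneg hN0.le _
    rw [div_self hN0.ne']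
    have h6 : 8 * 1 * (1 + 0) ≤ 8 * L ^ 3 * (1 + (N : ℝ) ^ (-(1 / 4) : ℝ)) := by
      apply mul_le_mul
      · linarith
      · linarith
      · norm_num
      · positivity
    linarith
  · intro x x' hx hx' _
    have hrow : ∀ z : ℤ, ((0, z) : Li) ∈ full N → 0 ≤ z ∧ z < N := by
      intro z hz
      obtain ⟨e, he, hez⟩ := mem_full.1 hz
      have h3 := (NQ.mem_board.1 he).1
      have h4 : e.1 = z := hez
      rw [h4] at h3
      exact h3
    obtain ⟨a1, a2⟩ := hrow x hx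
    obtain ⟨a3, a4⟩ := hrow x' hx'
    refine le_trans ?_ (h2 x x' a1 a2 a3 a4)
    apply one_div_le_one_div_of_le (by positivity)
    have : 0 ≤ L ^ 2 := by positivity
    linarith

open Classical in
theorem bad_sum2 (L ε t1 ε' η : ℝ) (hL : 1 ≤ L) (hε : 0 < ε) (hε1 : ε ≤ 1) (ht : 0 < t1) (hε' : 0 < ε')
    (hε'1 : ε' ≤ 1) (hη : 0 < η) : ∃ tol : ℝ, 0 < tol ∧ ∃ m0 : ℕ, ∀ m0' : ℕ, m0 ≤ m0' → ∃ N0 : ℕ, ∀ N : ℕ, N0 ≤ N →
    ∀ (W : ℤ × ℤ → ℝ) (A B : ℤ → ℝ), Rf L N W A B → ∀ P ∈ Qset N, Typ L tol N W P →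
      ∑ k ∈ Finset.Icc m0' N, (((P.powersetCard k).filter (fun R =>
        ¬ Good L ε t1 ε' N k W (rmS (full N) (P \ R)))).card : ℝ) / (N.choose k : ℕ) ≤ η := by
  obtain ⟨tol, htol, m0, hm0, hbad⟩ := bad_k L ε t1 ε' hL hε hε1 ht hε' hε'1
  have hL0 : 0 < L := by linarith
  set c1 : ℝ := ε ^ 2 / (144 * L ^ 6) with hc1
  set c2 : ℝ := ε' ^ 2 / (144 * L ^ 6) with hc2
  set c3 : ℝ := 1 / (36 * L ^ 6) with hc3
  set c4 : ℝ := 1 / (1600 * L ^ 16) with hc4
  have p1 : 0 < c1 := by positivity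
  have p2 : 0 < c2 := by positivity
  have p3 : 0 < c3 := by positivity
  have p4 : 0 < c4 := by positivity
  set C1 : ℝ := 12 * ((((2 + 2).factorial : ℕ) : ℝ) / c1 ^ (2 + 2)) with hC1
  set C2 : ℝ := 24 / t1 * ((((2 + 2).factorial : ℕ) : ℝ) / c2 ^ (2 + 2)) with hC2
  set C3 : ℝ := 24 * (((Nat.factorial 18 : ℕ) : ℝ) / c3 ^ 18) with hC3
  set C4 : ℝ := 3 * ((((3 + 2).factorial : ℕ) : ℝ) / c4 ^ (3 + 2)) with hC4
  have q1 : 0 ≤ C1 := by positivity
  have q2 : 0 ≤ C2 := by positivity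
  have q3 : 0 ≤ C3 := by positivity
  have q4 : 0 ≤ C4 := by positivity
  set C : ℝ := C1 + C2 + C3 + C4 with hC
  have hC0 : 0 ≤ C := by positivity
  obtain ⟨m1, hm1⟩ := exists_nat_ge (4 * C / η)
  obtain ⟨r1, hr1⟩ := exists_nat_ge (24 / η)
  refine ⟨tol, htol, max m0 m1, ?_⟩
  intro m0' hm0'
  have hma : m0 ≤ m0' := (le_max_left _ _).trans hm0'
  have hmb : m1 ≤ m0' := (le_max_right _ _).trans hm0'
  have hm1' : 1 ≤ m0' := hm0.trans hma
  refine ⟨max 2 ((max 1 r1) ^ 6), ?_⟩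
  intro N hN' W A B hR P hP hT
  have hN2 : 2 ≤ N := (le_max_left _ _).trans hN'
  have hN : (max 1 r1) ^ 6 ≤ N := (le_max_right _ _).trans hN'
  have hr1' : 24 / η ≤ ((max 1 r1 : ℕ) : ℝ) := hr1.trans (by exact_mod_cast le_max_right 1 r1)
  have hN0 : (0 : ℝ) < N := by
    have : 0 < N := by omega
    exact_mod_cast this
  have hPc : P.card = N := (NQ.mem_Qset.1 hP).2.1
  have key : ∀ k ∈ Finset.Icc m0' N, (((P.powersetCard k).filter (fun R =>
        ¬ Good L ε t1 ε' N k W (rmS (full N) (P \ R)))).card : ℝ) / (N.choose k : ℕ) ≤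
        C / (k : ℝ) ^ 2 + (if k ^ 6 ≤ N then 12 * (k : ℝ) ^ 4 / N else 0) := by
    intro k hk
    rw [Finset.mem_Icc] at hk
    have hk1 : 1 ≤ k := hm1'.trans hk.1
    have hk0 : (0 : ℝ) < k := by exact_mod_cast hk1
    rcases lt_or_eq_of_le hk.2 with hkN | hkN
    · refine (hbad N k W A B (hma.trans hk.1) hkN hR P hP hT).trans ?_
      have t1' : 12 * (k : ℝ) ^ 2 * Real.exp (-(ε ^ 2 * k / (144 * L ^ 6))) ≤ C1 / (k : ℝ) ^ 2 := by
        have h := db_pe p1 2 hk1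
        have e : ε ^ 2 * (k : ℝ) / (144 * L ^ 6) = c1 * k := by
          rw [hc1]
          ring
        rw [e, mul_assoc, hC1, mul_div_assoc]
        exact mul_le_mul_of_nonneg_left h (by norm_num)
      have t4' : 3 * (k : ℝ) ^ 3 * Real.exp (-(k / (1600 * L ^ 16))) ≤ C4 / (k : ℝ) ^ 2 := by
        have h := db_pe p4 3 hk1
        have e : (k : ℝ) / (1600 * L ^ 16) = c4 * k := by
          rw [hc4]
          ring
        rw [e, mul_assoc, hC4, mul_div_assoc]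
        exact mul_le_mul_of_nonneg_left h (by norm_num)
      have t2' : (if t1 * N ≤ (k : ℝ) then 24 * (k : ℝ) * N * Real.exp (-(ε' ^ 2 * k / (144 * L ^ 6)))
          else 0) ≤ C2 / (k : ℝ) ^ 2 := by
        split_ifs with h0
        · have h := db_pe p2 2 hk1
          have e : ε' ^ 2 * (k : ℝ) / (144 * L ^ 6) = c2 * k := by
            rw [hc2]
            ring
          have h3 : (N : ℝ) ≤ k / t1 := by
            rw [le_div_iff₀ ht]
            linarith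
          have h5 := Real.exp_pos (-(c2 * (k : ℝ)))
          rw [e]
          calc 24 * (k : ℝ) * N * Real.exp (-(c2 * k)) ≤ 24 * (k : ℝ) * (k / t1) * Real.exp (-(c2 * k)) := by
                gcongr
            _ = 24 / t1 * ((k : ℝ) ^ 2 * Real.exp (-(c2 * k))) := by ring
            _ ≤ 24 / t1 * ((((2 + 2).factorial : ℕ) : ℝ) / c2 ^ (2 + 2) / (k : ℝ) ^ 2) :=
                mul_le_mul_of_nonneg_left h (by positivity)
            _ = C2 / (k : ℝ) ^ 2 := by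
                rw [hC2, mul_div_assoc]
        · positivity
      have t3' : (if k ^ 6 ≤ N then 12 * (k : ℝ) ^ 4 / N
          else 24 * (k : ℝ) * N * Real.exp (-(Real.sqrt k / (36 * L ^ 6)))) ≤
          C3 / (k : ℝ) ^ 2 + (if k ^ 6 ≤ N then 12 * (k : ℝ) ^ 4 / N else 0) := by
        by_cases h0 : k ^ 6 ≤ N
        · rw [if_pos h0, if_pos h0]
          have : 0 ≤ C3 / (k : ℝ) ^ 2 := by positivity
          linarith
        · rw [if_neg h0, if_neg h0, add_zero]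
          have h := db_sq p3 hk1
          have e : Real.sqrt k / (36 * L ^ 6) = c3 * Real.sqrt k := by
            rw [hc3]
            ring
          have h3 : (N : ℝ) ≤ (k : ℝ) ^ 6 := by
            push Not at h0
            exact_mod_cast h0.le
          have h5 := Real.exp_pos (-(c3 * Real.sqrt k))
          rw [e]
          calc 24 * (k : ℝ) * N * Real.exp (-(c3 * Real.sqrt k)) ≤
                24 * (k : ℝ) * (k : ℝ) ^ 6 * Real.exp (-(c3 * Real.sqrt k)) := by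
                gcongr
            _ = 24 * ((k : ℝ) ^ 7 * Real.exp (-(c3 * Real.sqrt k))) := by ring
            _ ≤ 24 * (((Nat.factorial 18 : ℕ) : ℝ) / c3 ^ 18 / (k : ℝ) ^ 2) :=
                mul_le_mul_of_nonneg_left h (by norm_num)
            _ = C3 / (k : ℝ) ^ 2 := by
                rw [hC3, mul_div_assoc]
      have e : C / (k : ℝ) ^ 2 = C1 / (k : ℝ) ^ 2 + C2 / (k : ℝ) ^ 2 + C3 / (k : ℝ) ^ 2 + C4 / (k : ℝ) ^ 2 := by
        rw [hC]
        ring
      rw [e]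
      linarith
    · subst hkN
      have h1 : (P.powersetCard k).filter (fun R =>
          ¬ Good L ε t1 ε' k k W (rmS (full k) (P \ R))) = ∅ := by
        rw [filter_eq_empty_iff]
        intro R hRP
        rw [mem_powersetCard] at hRP
        have h2 : R = P := eq_of_subset_of_card_le hRP.1 (by rw [hPc, hRP.2])
        have h3 : rmS (full k) (P \ R) = full k := by
          ext l
          rw [mem_rmS, h2, sdiff_self]
          simp
        rw [h3, not_not]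
        exact db_good hL hε hε' hN2 hR
      rw [h1, card_empty, Nat.cast_zero, zero_div]
      positivity
  refine (sum_le_sum key).trans ?_
  rw [sum_add_distrib]
  have s1 := db_tail hC0 (N := N) hm1'
  have s2 := db_small hη hm1' (le_max_left 1 r1) hr1' hN
  have s3 : C * (2 / (m0' : ℝ)) ≤ η / 2 := by
    have h1 : (0 : ℝ) < m0' := by exact_mod_cast hm1'
    have h2 : 4 * C / η ≤ m0' := hm1.trans (by exact_mod_cast hmb)
    rw [div_le_iff₀ hη] at h2
    rw [mul_div_assoc', div_le_div_iff₀ h1 (by norm_num)]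
    linarith
  linarith

end Pool.Agent.NQF
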