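import Pool.Agent.NQF.RDef
import Pool.Agent.NQL.ABas
import Pool.Agent.NQL.DIns

/-!
# NQF-RTra: transposition of instances

PLAN. `ln k (te e)` and the transposed types: `(0,x) ↔ (1,x)`, `x + y` unchanged, `x - y ↦ -(x - y)`; so `On (te e) (tl l) ↔ On e l`. `sq_tI`: `mem_Sq` (all four lines). The sums are images under the involution `te`
(`Finset.sum_nbij'`). `rm_tI`: `¬ On e (tl l) ↔ ¬ On (te e) l`. `vd_tI`: the filters by type are images (types 0 and 1 are exchanged); `full_tI`: `mem_full`. `q_te`: `QS` is invariant (`NonAtt` by the four types).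
-/

set_option autoImplicit false

open Finset

namespace Pool.Agent.NQF

open Pool.Agent.NQ (board dsum F Ent Dg phi ln Q Qset QS NonAtt bern)
open Pool.Agent.NQR (Adm Opt Bd Rf hS hD hh InR)
open Pool.Agent.NQL

theorem te_te (e : ℤ × ℤ) : te (te e) = e := rfl

private theorem tl0 (x : ℤ) : tl (0, x) = (1, x) := rfl
private theorem tl1 (x : ℤ) : tl (1, x) = (0, x) := rfl
private theorem tl2 (x : ℤ) : tl (2, x) = (2, x) := rfl
private theorem tl3 (x : ℤ) : tl (3, x) = (3, -x) := rfl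

private theorem li_cases {P : Li → Prop} (h0 : ∀ x, P (0, x)) (h1 : ∀ x, P (1, x))
    (h2 : ∀ x, P (2, x)) (h3 : ∀ x, P (3, x)) (l : Li) : P l := by
  obtain ⟨k, x⟩ := l
  fin_cases k
  · exact h0 x
  · exact h1 x
  · exact h2 x
  · exact h3 x

theorem tl_tl (l : Li) : tl (tl l) = l := by
  refine li_cases (P := fun l => tl (tl l) = l) ?_ ?_ ?_ ?_ l
  · intro x; rfl
  · intro x; rfl
  · intro x; rfl
  · intro x
    show tl (tl (3, x)) = (3, x)
    rw [tl3, tl3, neg_neg]

theorem rc_tl (l : Li) : rc (tl l) ↔ rc l := by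
  refine li_cases (P := fun l => rc (tl l) ↔ rc l) ?_ ?_ ?_ ?_ l
  · intro x
    show rc (tl (0, x)) ↔ rc (0, x)
    rw [tl0]
    simp [rc]
  · intro x
    show rc (tl (1, x)) ↔ rc (1, x)
    rw [tl1]
    simp [rc]
  · intro x
    show rc (tl (2, x)) ↔ rc (2, x)
    rw [tl2]
  · intro x
    show rc (tl (3, x)) ↔ rc (3, x)
    rw [tl3]
    simp [rc]

theorem on_tl (e : ℤ × ℤ) (l : Li) : On (te e) (tl l) ↔ On e l := by
  refine li_cases (P := fun l => On (te e) (tl l) ↔ On e l) ?_ ?_ ?_ ?_ l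
  · intro x
    exact Iff.rfl
  · intro x
    exact Iff.rfl
  · intro x
    show e.2 + e.1 = x ↔ e.1 + e.2 = x
    rw [add_comm]
  · intro x
    show e.2 - e.1 = -x ↔ e.1 - e.2 = x
    omega

private theorem on_tl' (e : ℤ × ℤ) (l : Li) : On e (tl l) ↔ On (te e) l := on_tl (te e) l

theorem mem_tI {I : Finset Li} {l : Li} : l ∈ tI I ↔ tl l ∈ I := by
  unfold tI
  rw [mem_image]
  constructor
  · rintro ⟨l', h, rfl⟩
    rw [tl_tl]
    exact h
  · intro h
    exact ⟨tl l, h, tl_tl l⟩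

theorem tI_tI (I : Finset Li) : tI (tI I) = I := by
  ext l
  rw [mem_tI, mem_tI, tl_tl]

theorem te_board {N : ℕ} {e : ℤ × ℤ} : te e ∈ board N ↔ e ∈ board N := by
  unfold board
  rw [mem_product, mem_product]
  exact and_comm

theorem full_tI (N : ℕ) : tI (full N) = full N := by
  ext l
  rw [mem_tI, mem_full, mem_full]
  constructor
  · rintro ⟨e, he, h⟩
    exact ⟨te e, te_board.2 he, (on_tl' e l).1 h⟩
  · rintro ⟨e, he, h⟩
    exact ⟨te e, te_board.2 he, (on_tl' (te e) l).2 h⟩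

theorem sq_tI {N : ℕ} {I : Finset Li} {e : ℤ × ℤ} : e ∈ Sq N (tI I) ↔ te e ∈ Sq N I := by
  rw [mem_Sq, mem_Sq, te_board]
  refine and_congr Iff.rfl ?_
  have h0 : ((0 : Fin 4), ln 0 e) ∈ tI I ↔ ((1 : Fin 4), ln 1 (te e)) ∈ I := mem_tI
  have h1 : ((1 : Fin 4), ln 1 e) ∈ tI I ↔ ((0 : Fin 4), ln 0 (te e)) ∈ I := mem_tI
  have h2 : ((2 : Fin 4), ln 2 e) ∈ tI I ↔ ((2 : Fin 4), ln 2 (te e)) ∈ I := by
    rw [mem_tI, tl2]
    have : ln 2 e = ln 2 (te e) := by
      show e.1 + e.2 = e.2 + e.1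
      rw [add_comm]
    rw [this]
  have h3 : ((3 : Fin 4), ln 3 e) ∈ tI I ↔ ((3 : Fin 4), ln 3 (te e)) ∈ I := by
    rw [mem_tI, tl3]
    have : -ln 3 e = ln 3 (te e) := by
      show -(e.1 - e.2) = e.2 - e.1
      ring
    rw [this]
  constructor
  · intro h k
    fin_cases k
    · exact h1.1 (h 1)
    · exact h0.1 (h 0)
    · exact h2.1 (h 2)
    · exact h3.1 (h 3)
  · intro h k
    fin_cases k
    · exact h0.2 (h 1)
    · exact h1.2 (h 0)
    · exact h2.2 (h 2)
    · exact h3.2 (h 3)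

theorem sq_tI_sum {N : ℕ} {I : Finset Li} (f : ℤ × ℤ → ℝ) :
    ∑ e ∈ Sq N (tI I), f e = ∑ e ∈ Sq N I, f (te e) := by
  apply Finset.sum_nbij' te te
  · intro e he
    exact sq_tI.1 he
  · intro e he
    exact sq_tI.2 he
  · intro e _; rfl
  · intro e _; rfl
  · intro e _; rfl

private theorem sl_tI_mem {N : ℕ} {I : Finset Li} {l : Li} {e : ℤ × ℤ} :
    e ∈ Sl N (tI I) (tl l) ↔ te e ∈ Sl N I l := by
  rw [mem_Sl, mem_Sl, sq_tI]
  exact and_congr Iff.rfl (on_tl' e l)

theorem sl_tI_sum {N : ℕ} {I : Finset Li} (l : Li) (f : ℤ × ℤ → ℝ) :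
    ∑ e ∈ Sl N (tI I) (tl l), f e = ∑ e ∈ Sl N I l, f (te e) := by
  apply Finset.sum_nbij' te te
  · intro e he
    exact sl_tI_mem.1 he
  · intro e he
    exact sl_tI_mem.2 he
  · intro e _; rfl
  · intro e _; rfl
  · intro e _; rfl

theorem sl_tI_card {N : ℕ} {I : Finset Li} (l : Li) : (Sl N (tI I) (tl l)).card = (Sl N I l).card := by
  apply Finset.card_nbij' te te
  · intro e he
    exact sl_tI_mem.1 he
  · intro e he
    exact sl_tI_mem.2 he
  · intro e _; rfl
  · intro e _; rfl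

theorem rm_tI (I : Finset Li) (e : ℤ × ℤ) : tI (rm I e) = rm (tI I) (te e) := by
  ext l
  rw [mem_tI, mem_rm, mem_rm, mem_tI]
  exact and_congr Iff.rfl (not_congr (on_tl' e l))

theorem rmS_tI (I : Finset Li) (T : Finset (ℤ × ℤ)) : tI (rmS I T) = rmS (tI I) (T.image te) := by
  ext l
  rw [mem_tI, mem_rmS, mem_rmS, mem_tI]
  refine and_congr Iff.rfl ?_
  constructor
  · intro h e he hl
    obtain ⟨e', he', rfl⟩ := mem_image.1 he
    exact h e' he' ((on_tl' e' l).2 hl)
  · intro h e he hl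
    exact h (te e) (mem_image_of_mem te he) ((on_tl' e l).1 hl)

private theorem vd_aux {I : Finset Li} (k k' : Fin 4) (h : ∀ l : Li, (tl l).1 = k' ↔ l.1 = k) :
    ((tI I).filter (fun l => l.1 = k)).card = (I.filter (fun l => l.1 = k')).card := by
  apply Finset.card_nbij' tl tl
  · intro l hl
    rw [mem_coe, mem_filter] at hl ⊢
    exact ⟨mem_tI.1 hl.1, (h l).2 hl.2⟩
  · intro l hl
    rw [mem_coe, mem_filter] at hl ⊢
    refine ⟨?_, ?_⟩
    · rw [mem_tI, tl_tl]
      exact hl.1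
    · rw [← h, tl_tl]
      exact hl.2
  · intro l _
    exact tl_tl l
  · intro l _
    exact tl_tl l

theorem vd_tI {N m : ℕ} {I : Finset Li} (h : Vd N m I) : Vd N m (tI I) := by
  refine ⟨?_, ?_, ?_⟩
  · intro l hl
    have h1 := h.sub (mem_tI.1 hl)
    rw [← mem_tI, full_tI] at h1
    exact h1
  · intro k hk
    fin_cases k
    · have e := vd_aux (I := I) 0 1 (fun l => by
        refine li_cases (P := fun l => (tl l).1 = 1 ↔ l.1 = 0) ?_ ?_ ?_ ?_ l <;> intro x <;>
          simp [tl])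
      exact e.trans (h.crc 1 (by decide))
    · have e := vd_aux (I := I) 1 0 (fun l => by
        refine li_cases (P := fun l => (tl l).1 = 0 ↔ l.1 = 1) ?_ ?_ ?_ ?_ l <;> intro x <;>
          simp [tl])
      exact e.trans (h.crc 0 (by decide))
    · exact absurd hk (by decide)
    · exact absurd hk (by decide)
  · intro k hk
    fin_cases k
    · exact absurd hk (by decide)
    · exact absurd hk (by decide)
    · have e := vd_aux (I := I) 2 2 (fun l => by
        refine li_cases (P := fun l => (tl l).1 = 2 ↔ l.1 = 2) ?_ ?_ ?_ ?_ l <;> intro x <;>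
          simp [tl])
      have e2 := h.cdg 2 (by decide)
      show ((tI I).filter (fun l => l.1 = 2)).card + 1 = N + m
      rw [e]
      exact e2
    · have e := vd_aux (I := I) 3 3 (fun l => by
        refine li_cases (P := fun l => (tl l).1 = 3 ↔ l.1 = 3) ?_ ?_ ?_ ?_ l <;> intro x <;>
          simp [tl])
      have e2 := h.cdg 3 (by decide)
      show ((tI I).filter (fun l => l.1 = 3)).card + 1 = N + m
      rw [e]
      exact e2

private theorem te_inj : Function.Injective te := by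
  intro a b h
  have := congrArg te h
  exact this

theorem q_te {N : ℕ} {P : Finset (ℤ × ℤ)} (h : P ∈ Qset N) : P.image te ∈ Qset N := by
  rw [Pool.Agent.NQ.mem_Qset] at h ⊢
  obtain ⟨h1, h2, h3⟩ := h
  refine ⟨?_, ?_, ?_⟩
  · intro e he
    obtain ⟨e', he', rfl⟩ := mem_image.1 he
    exact te_board.2 (h1 he')
  · rw [card_image_of_injective P te_inj]
    exact h2
  · intro e he f hf hef k
    obtain ⟨e', he', rfl⟩ := mem_image.1 he
    obtain ⟨f', hf', rfl⟩ := mem_image.1 hf
    have hne : e' ≠ f' := fun h => hef (by rw [h])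
    have g := h3 e' he' f' hf' hne
    fin_cases k
    · exact g 1
    · exact g 0
    · have := g 2
      show e'.2 + e'.1 ≠ f'.2 + f'.1
      intro h4
      apply this
      show e'.1 + e'.2 = f'.1 + f'.2
      omega
    · have := g 3
      show e'.2 - e'.1 ≠ f'.2 - f'.1
      intro h4
      apply this
      show e'.1 - e'.2 = f'.1 - f'.2
      omega

end Pool.Agent.NQF
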