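import Pool.Agent.NQF.RDef
import Pool.Agent.NQF.RTra
import Pool.Agent.NQL.ABas

/-!
# NQF-RTrb: transposition of the weights

PLAN. `dsum_tr`: the line `l` of `W` and the line `tl l` of `tW W` have the same squares up to `te` (`te_board`). `tt_tr`, `wn_tr`, `yy_tr` follow (`sl_tI_sum`). `rf_tr`: field by field; `hS N (tW W) s = hS N W s`, `hD N (tW W) d = hD N W (-d)`,
`F N (tW W) = F N W` (reindex `Ent` by `te`, `Dg` by `s ↦ s`, `d ↦ -d`, `Finset.Ioo (-N) N` is symmetric); `adm`: rows and columns are exchanged, `out` by `te_board`.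
-/

set_option autoImplicit false

open Finset

namespace Pool.Agent.NQF

open Pool.Agent.NQ (board dsum F Ent Dg phi ln Q Qset QS NonAtt bern)
open Pool.Agent.NQR (Adm Opt Bd Rf hS hD hh InR)
open Pool.Agent.NQL

private theorem te_sum (N : ℕ) (f : ℤ × ℤ → ℝ) : ∑ e ∈ board N, f (te e) = ∑ e ∈ board N, f e := by
  refine Finset.sum_nbij' te te ?_ ?_ ?_ ?_ ?_
  · intro e he
    exact te_board.mpr he
  · intro e he
    exact te_board.mpr he
  · intro e _
    exact te_te e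
  · intro e _
    exact te_te e
  · intro e _
    rfl

theorem dsum_tr (N : ℕ) (W : ℤ × ℤ → ℝ) (l : Li) : dsum N (tW W) (tl l).1 (tl l).2 = dsum N W l.1 l.2 := by
  have key : ∀ e : ℤ × ℤ, ln (tl l).1 e = (tl l).2 ↔ ln l.1 (te e) = l.2 := by
    intro e
    have h := on_tl (te e) l
    rw [te_te] at h
    exact h
  have key' : ∀ e : ℤ × ℤ, ln (tl l).1 (te e) = (tl l).2 ↔ ln l.1 e = l.2 := by
    intro e
    exact on_tl e l
  unfold dsum
  refine Finset.sum_nbij' te te ?_ ?_ ?_ ?_ ?_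
  · intro e he
    rw [Finset.mem_filter] at he ⊢
    exact ⟨te_board.mpr he.1, (key e).mp he.2⟩
  · intro e he
    rw [Finset.mem_filter] at he ⊢
    exact ⟨te_board.mpr he.1, (key' e).mpr he.2⟩
  · intro e _
    exact te_te e
  · intro e _
    exact te_te e
  · intro e _
    rfl

private theorem ds0 (N : ℕ) (W : ℤ × ℤ → ℝ) (x : ℤ) : dsum N (tW W) 0 x = dsum N W 1 x :=
  dsum_tr N W (1, x)

private theorem ds1 (N : ℕ) (W : ℤ × ℤ → ℝ) (x : ℤ) : dsum N (tW W) 1 x = dsum N W 0 x :=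
  dsum_tr N W (0, x)

private theorem ds2 (N : ℕ) (W : ℤ × ℤ → ℝ) (s : ℤ) : dsum N (tW W) 2 s = dsum N W 2 s :=
  dsum_tr N W (2, s)

private theorem ds3 (N : ℕ) (W : ℤ × ℤ → ℝ) (s : ℤ) : dsum N (tW W) 3 s = dsum N W 3 (-s) := by
  have h := dsum_tr N W (3, -s)
  have h1 : tl (3, -s) = (3, s) := by
    simp [tl]
  rw [h1] at h
  exact h

private theorem hS_tr (N : ℕ) (W : ℤ × ℤ → ℝ) (s : ℤ) : hS N (tW W) s = hS N W s := by
  unfold hS; rw [ds2]

private theorem hD_tr (N : ℕ) (W : ℤ × ℤ → ℝ) (s : ℤ) : hD N (tW W) s = hD N W (-s) := by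
  unfold hD; rw [ds3]

theorem tt_tr (N : ℕ) (W : ℤ × ℤ → ℝ) (m : ℕ) (l : Li) : TT N (tW W) m (tl l) = TT N W m l := by
  unfold TT
  rw [dsum_tr]
  by_cases h : rc l
  · rw [if_pos h, if_pos ((rc_tl l).mpr h)]
  · rw [if_neg h, if_neg (fun h' => h ((rc_tl l).mp h'))]

theorem wn_tr (N : ℕ) (W : ℤ × ℤ → ℝ) (m : ℕ) (e : ℤ × ℤ) : Wn N (tW W) m (te e) = Wn N W m e := by
  unfold Wn
  rw [ds2, ds3]
  have h1 : tW W (te e) = W e := by
    unfold tW
    rw [te_te]
  have h2 : (te e).1 + (te e).2 = e.1 + e.2 := by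
    unfold te
    ring
  have h3 : -((te e).1 - (te e).2) = e.1 - e.2 := by
    unfold te
    ring
  rw [h1, h2, h3]

theorem yy_tr (N : ℕ) (W : ℤ × ℤ → ℝ) (m : ℕ) (I : Finset Li) (l : Li) :
    YY N (tW W) m (tI I) (tl l) = YY N W m I l := by
  unfold YY
  rw [sl_tI_sum]
  exact Finset.sum_congr rfl fun e _ => wn_tr N W m e

private theorem neg_sum (N : ℕ) (f : ℤ → ℝ) :
    ∑ s ∈ Finset.Ioo (-(N : ℤ)) N, f (-s) = ∑ s ∈ Finset.Ioo (-(N : ℤ)) N, f s := by
  refine Finset.sum_nbij' (fun s => -s) (fun s => -s) ?_ ?_ ?_ ?_ ?_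
  · intro s hs
    rw [Finset.mem_Ioo] at hs ⊢
    constructor <;> linarith [hs.1, hs.2]
  · intro s hs
    rw [Finset.mem_Ioo] at hs ⊢
    constructor <;> linarith [hs.1, hs.2]
  · intro s _
    exact neg_neg s
  · intro s _
    exact neg_neg s
  · intro s _
    rfl

private theorem F_tr (N : ℕ) (W : ℤ × ℤ → ℝ) : F N (tW W) = F N W := by
  unfold F Ent Dg
  have h1 : ∑ e ∈ board N, Real.negMulLog (tW W e) = ∑ e ∈ board N, Real.negMulLog (W e) :=
    te_sum N (fun e => Real.negMulLog (W e))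
  have h2 : ∑ s ∈ Finset.Ico (0 : ℤ) (2 * N), phi (dsum N (tW W) 2 s) =
      ∑ s ∈ Finset.Ico (0 : ℤ) (2 * N), phi (dsum N W 2 s) :=
    Finset.sum_congr rfl fun s _ => by rw [ds2]
  have h3 : ∑ s ∈ Finset.Ioo (-(N : ℤ)) N, phi (dsum N (tW W) 3 s) =
      ∑ s ∈ Finset.Ioo (-(N : ℤ)) N, phi (dsum N W 3 s) := by
    rw [← neg_sum N (fun s => phi (dsum N W 3 s))]
    exact Finset.sum_congr rfl fun s _ => by rw [ds3]
  rw [h1, h2, h3]

theorem rf_tr {L : ℝ} {N : ℕ} {W : ℤ × ℤ → ℝ} {A B : ℤ → ℝ} (h : Rf L N W A B) : Rf L N (tW W) B A where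
  adm :=
    { nn := fun e => h.adm.nn _
      out := fun e he => h.adm.out _ (fun h' => he (te_board.mp h'))
      row := fun x h0 h1 => by rw [ds0]; exact h.adm.col x h0 h1
      col := fun x h0 h1 => by rw [ds1]; exact h.adm.row x h0 h1
      sd := fun s => by rw [ds2]; exact h.adm.sd s
      dd := fun s => by rw [ds3]; exact h.adm.dd (-s) }
  bd :=
    { lo := fun e he => h.bd.lo _ (te_board.mpr he)
      hi := fun e he => h.bd.hi _ (te_board.mpr he)
      sd := fun s => by rw [hS_tr]; exact h.bd.sd s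
      dd := fun s => by rw [hD_tr]; exact h.bd.dd (-s) }
  el := by
    intro e he
    have h1 := h.el (te e) (te_board.mpr he)
    have h2 : hh N (tW W) e.1 e.2 = hh N W (te e).1 (te e).2 := by
      unfold hh te
      rw [hS_tr, hD_tr]
      have h3 : e.2 + e.1 = e.1 + e.2 := by ring
      have h4 : e.2 - e.1 = -(e.1 - e.2) := by ring
      rw [h3, h4]
    rw [h2]
    change W (te e) = _
    rw [h1]
    change A e.2 * B e.1 * _ = B e.1 * A e.2 * _
    ring
  A1 := h.B1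
  A2 := h.B2
  B1 := h.A1
  B2 := h.A2
  hA := h.hB
  hB := h.hA
  hp := by
    intro s t
    rw [ds3, ds3]
    have h1 := h.hp (-s) (-t)
    have h2 : |(-s) - (-t)| = |s - t| := by
      rw [← abs_neg]
      congr 1
      ring
    rw [h2] at h1
    exact h1
  hq := by
    intro s t
    rw [ds2, ds2]
    exact h.hq s t
  val := by
    rw [F_tr, h.val]
    have h1 : ∑ s ∈ Finset.Ico (0 : ℤ) (2 * N), Real.log (hS N (tW W) s) =
        ∑ s ∈ Finset.Ico (0 : ℤ) (2 * N), Real.log (hS N W s) :=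
      Finset.sum_congr rfl fun s _ => by rw [hS_tr]
    have h2 : ∑ s ∈ Finset.Ioo (-(N : ℤ)) N, Real.log (hD N (tW W) s) =
        ∑ s ∈ Finset.Ioo (-(N : ℤ)) N, Real.log (hD N W s) := by
      rw [← neg_sum N (fun s => Real.log (hD N W s))]
      exact Finset.sum_congr rfl fun s _ => by rw [hD_tr]
    rw [h1, h2]
    ring

end Pool.Agent.NQF
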