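import Pool.Agent.NQF.RDef
import Pool.Agent.NQF.RTra
import Pool.Agent.NQF.RTrb
import Pool.Agent.NQL.ABas

/-!
# NQF-RTrc: transposition of potentials

How the weights and the regularity conditions change under transposition.
-/

set_option autoImplicit false

open Finset

namespace Pool.Agent.NQF

open Pool.Agent.NQ (board dsum F Ent Dg phi ln Q Qset QS NonAtt bern)
open Pool.Agent.NQR (Adm Opt Bd Rf hS hD hh InR)
open Pool.Agent.NQL

private theorem tl0 (x : ℤ) : tl ((0, x) : Li) = (1, x) := by simp [tl]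

private theorem tl1 (x : ℤ) : tl ((1, x) : Li) = (0, x) := by simp [tl]

private theorem tl2 (x : ℤ) : tl ((2, x) : Li) = (2, x) := by simp [tl]

private theorem tl3 (x : ℤ) : tl ((3, x) : Li) = (3, -x) := by simp [tl]

private theorem ds_tr (z : Li → ℝ) (e : ℤ × ℤ) : ds (fun l => z (tl l)) e = ds z (te e) := by
  obtain ⟨x, y⟩ := e
  unfold ds
  rw [Fin.sum_univ_four, Fin.sum_univ_four]
  simp only [Pool.Agent.NQ.ln_zero, Pool.Agent.NQ.ln_one, Pool.Agent.NQ.ln_two, Pool.Agent.NQ.ln_three, tl0, tl1, tl2, tl3, te]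
  rw [show -(x - y) = y - x by ring, show y + x = x + y by ring]
  ring

private theorem dg_tl (l : Li) : dg (tl l) = dg l := by
  unfold dg
  by_cases h : rc l
  · rw [if_pos h, if_pos (rc_tl l |>.mpr h)]
  · rw [if_neg h, if_neg (fun h' => h (rc_tl l |>.mp h'))]

private theorem ga_tl (l : Li) : ga (tl l) = - ga l := by
  obtain ⟨k, x⟩ := l
  fin_cases k <;> simp [ga, tl]

private theorem sum_tI {I : Finset Li} (f : Li → ℝ) : ∑ l ∈ tI I, f l = ∑ l ∈ I, f (tl l) := by
  unfold tI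
  rw [Finset.sum_image]
  intro a _ b _ hab
  have := congrArg tl hab
  rwa [tl_tl, tl_tl] at this

private theorem sl_sum' {N : ℕ} {I : Finset Li} (l : Li) (f : ℤ × ℤ → ℝ) :
    ∑ e ∈ Sl N (tI I) l, f e = ∑ e ∈ Sl N I (tl l), f (te e) := by
  have := sl_tI_sum (N := N) (I := I) (tl l) f
  rwa [tl_tl] at this

theorem wt_tr (z : Li → ℝ) (e : ℤ × ℤ) : wt (fun l => z (tl l)) e = wt z (te e) := by
  unfold wt
  rw [ds_tr]

theorem st_tr {N : ℕ} {I : Finset Li} {z : Li → ℝ} (h : St N I z) : St N (tI I) (fun l => z (tl l)) := by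
  intro l hl
  have hl' := mem_tI.mp hl
  have h1 := h (tl l) hl'
  rw [sl_sum']
  have h2 : ∑ e ∈ Sl N I (tl l), wt (fun l => z (tl l)) (te e) = ∑ e ∈ Sl N I (tl l), wt z e := by
    apply Finset.sum_congr rfl
    intro e _
    rw [wt_tr, te_te]
  rw [h2, ← dg_tl l]
  exact h1

theorem reg_tr {K lam : ℝ} {N m : ℕ} {I : Finset Li} {z : Li → ℝ} (h : Reg K lam N m I z) :
    Reg K lam N m (tI I) (fun l => z (tl l)) := by
  refine ⟨st_tr h.st, ?_, ?_⟩
  · intro e he
    rw [wt_tr]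
    exact h.up _ (sq_tI.mp he)
  · intro δ
    have h1 := h.co (fun l => δ (tl l))
    have e1 : ∑ l ∈ tI I, δ l ^ 2 = ∑ l ∈ I, δ (tl l) ^ 2 := sum_tI (fun l => δ l ^ 2)
    have e2 : gs (tI I) δ = - gs I (fun l => δ (tl l)) := by
      unfold gs
      rw [sum_tI (fun l => ga l * δ l), ← Finset.sum_neg_distrib]
      apply Finset.sum_congr rfl
      intro l _
      rw [ga_tl]
      ring
    have e3 : Qf N (tI I) (wt (fun l => z (tl l))) (fun l => dg l * Real.exp (z (tl l))) δ =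
        Qf N I (wt z) (fun l => dg l * Real.exp (z l)) (fun l => δ (tl l)) := by
      unfold Qf
      rw [sq_tI_sum (fun e => wt (fun l => z (tl l)) e * ds δ e ^ 2),
        sum_tI (fun l => dg l * Real.exp (z (tl l)) * δ l ^ 2)]
      congr 1
      · apply Finset.sum_congr rfl
        intro e _
        rw [wt_tr, te_te, ds_tr]
      · apply Finset.sum_congr rfl
        intro l _
        rw [tl_tl, dg_tl]
    rw [e1, e2, e3, neg_sq]
    exact h1

theorem cl_tr {d : ℝ} {N m : ℕ} {W : ℤ × ℤ → ℝ} {I : Finset Li} {z : Li → ℝ} (h : Cl d N m W I z) :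
    Cl d N m (tW W) (tI I) (fun l => z (tl l)) := by
  intro l hl
  have h1 := h (tl l) (mem_tI.mp hl)
  rw [sl_sum']
  have h2 : ∑ e ∈ Sl N I (tl l), wt (fun l => z (tl l)) (te e) = ∑ e ∈ Sl N I (tl l), wt z e := by
    apply Finset.sum_congr rfl
    intro e _
    rw [wt_tr, te_te]
  have h3 := tt_tr N W m (tl l)
  rw [tl_tl] at h3
  rw [h2, h3]
  exact h1

theorem tp_tr {Cp : ℝ} {N m : ℕ} {I : Finset Li} {z : Li → ℝ} {π : ℤ × ℤ → ℝ} (h : Tp Cp N m I z π) :
    Tp Cp N m (tI I) (fun l => z (tl l)) (fun e => π (te e)) := by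
  refine ⟨?_, ?_, ?_⟩
  · rw [sq_tI_sum (fun e => π (te e))]
    rw [← h.sum]
    apply Finset.sum_congr rfl
    intro e _
    rw [te_te]
  · intro e he
    exact h.nn _ (sq_tI.mp he)
  · intro e he
    rw [wt_tr]
    exact h.near _ (sq_tI.mp he)

end Pool.Agent.NQF
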