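import Pool.Agent.NQF.RDef
import Pool.Agent.NQL.ABas
import Pool.Agent.NQL.ACvx
import Pool.Agent.NQL.BNom
import Pool.Agent.NQL.BFul

/-!
# NQF-RUnq: uniqueness of the stationary weights
-/

set_option autoImplicit false

open Finset

namespace Pool.Agent.NQF

open Pool.Agent.NQ (board dsum F Ent Dg phi ln Q Qset QS NonAtt bern)
open Pool.Agent.NQR (Adm Opt Bd Rf hS hD hh InR)
open Pool.Agent.NQL

private theorem ru_nn (a b : ℝ) : 0 ≤ (Real.exp a - Real.exp b) * (a - b) := by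
  rcases le_total a b with h | h
  · exact mul_nonneg_of_nonpos_of_nonpos (sub_nonpos.2 (Real.exp_le_exp.2 h)) (sub_nonpos.2 h)
  · exact mul_nonneg (sub_nonneg.2 (Real.exp_le_exp.2 h)) (sub_nonneg.2 h)

private theorem ru_eq {a b : ℝ} (h : (Real.exp a - Real.exp b) * (a - b) = 0) :
    Real.exp a = Real.exp b := by
  rcases mul_eq_zero.1 h with h1 | h1
  · exact sub_eq_zero.1 h1
  · rw [sub_eq_zero.1 h1]

private theorem ru_AA {m : ℕ} {S : Finset (ℤ × ℤ)} {w w' : ℤ × ℤ → ℝ} (h : ∀ e ∈ S, w' e = w e) :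
    AA L4 S w' ga m = AA L4 S w ga m := by
  funext l l'
  unfold AA MM
  have h1 : ∑ e ∈ S.filter (fun e => l ∈ L4 e ∧ l' ∈ L4 e), w' e =
      ∑ e ∈ S.filter (fun e => l ∈ L4 e ∧ l' ∈ L4 e), w e :=
    sum_congr rfl fun e he => h e (mem_filter.1 he).1
  rw [h1]

theorem st_uniq {N : ℕ} {I : Finset Li} {z z' : Li → ℝ} (h : St N I z) (h' : St N I z') :
    (∀ e ∈ Sq N I, wt z' e = wt z e) ∧ ∀ l ∈ I, dg l * Real.exp (z' l) = dg l * Real.exp (z l) := by
  have h1 : ∑ l ∈ I, ((∑ e ∈ Sl N I l, wt z' e + dg l * Real.exp (z' l)) -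
      (∑ e ∈ Sl N I l, wt z e + dg l * Real.exp (z l))) * (z' l - z l) = 0 := by
    refine sum_eq_zero fun l hl => ?_
    rw [h l hl, h' l hl, sub_self, zero_mul]
  have h2 : ∑ l ∈ I, ((∑ e ∈ Sl N I l, wt z' e + dg l * Real.exp (z' l)) -
      (∑ e ∈ Sl N I l, wt z e + dg l * Real.exp (z l))) * (z' l - z l) =
      ∑ l ∈ I, ∑ e ∈ Sl N I l, (wt z' e - wt z e) * (z' l - z l) +
        ∑ l ∈ I, dg l * ((Real.exp (z' l) - Real.exp (z l)) * (z' l - z l)) := by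
    rw [← sum_add_distrib]
    refine sum_congr rfl fun l _ => ?_
    rw [← sum_mul, sum_sub_distrib]
    ring
  have h3 := line_sum (N := N) (I := I) fun e l => (wt z' e - wt z e) * (z' l - z l)
  have h4 : ∑ e ∈ Sq N I, ∑ k : Fin 4, (wt z' e - wt z e) * (z' (k, ln k e) - z (k, ln k e)) =
      ∑ e ∈ Sq N I, (wt z' e - wt z e) * (ds z' e - ds z e) := by
    refine sum_congr rfl fun e _ => ?_
    unfold ds
    rw [← mul_sum, sum_sub_distrib]
  have h5 : ∀ e ∈ Sq N I, 0 ≤ (wt z' e - wt z e) * (ds z' e - ds z e) := fun e _ =>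
    ru_nn _ _
  have h6 : ∀ l ∈ I, 0 ≤ dg l * ((Real.exp (z' l) - Real.exp (z l)) * (z' l - z l)) := fun l _ => by
    refine mul_nonneg ?_ (ru_nn _ _)
    unfold dg
    split_ifs
    · exact le_rfl
    · exact zero_le_one
  have h7 := sum_nonneg h5
  have h8 := sum_nonneg h6
  have h9 : ∑ e ∈ Sq N I, (wt z' e - wt z e) * (ds z' e - ds z e) = 0 := by
    linarith
  have h10 : ∑ l ∈ I, dg l * ((Real.exp (z' l) - Real.exp (z l)) * (z' l - z l)) = 0 := by
    linarith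
  refine ⟨fun e he => ?_, fun l hl => ?_⟩
  · have h11 := (sum_eq_zero_iff_of_nonneg h5).1 h9 e he
    exact ru_eq h11
  · have h11 := (sum_eq_zero_iff_of_nonneg h6).1 h10 l hl
    rcases mul_eq_zero.1 h11 with h12 | h12
    · rw [h12, zero_mul, zero_mul]
    · rw [ru_eq h12]

theorem v2_uniq {N : ℕ} (m : ℕ) {I : Finset Li} {z z' : Li → ℝ} (h : St N I z) (h' : St N I z') :
    V2 N m I z' = V2 N m I z := by
  have h1 := (st_uniq h h').1
  have h2 : Gf N I z' = Gf N I z := le_antisymm (st_min h' z) (st_min h z')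
  have h3 : ∑ e ∈ Sq N I, wt z' e ^ 2 = ∑ e ∈ Sq N I, wt z e ^ 2 :=
    sum_congr rfl fun e he => by rw [h1 e he]
  unfold V2 Vf
  rw [h2, h3, ru_AA h1]

theorem v2_full {L : ℝ} (hL : 1 ≤ L) {N : ℕ} (hN : 2 ≤ N) {W : ℤ × ℤ → ℝ} {A B : ℤ → ℝ} (hR : Rf L N W A B)
    {z : Li → ℝ} (h : St N (full N) z) :
    V2 N N (full N) z = F N W - N + Real.log (4 * Real.pi * N) / 2 -
      LD (full N) (AA L4 (board N) W ga N) / 2 - 3 / 2 * ∑ e ∈ board N, W e ^ 2 := by
  obtain ⟨hst, hV, _, _⟩ := full_st hL hN hR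
  rw [v2_uniq N hst h]
  have hN0 : (N : ℝ) ≠ 0 := by
    have : (0 : ℝ) < N := by exact_mod_cast (by omega : 0 < N)
    exact this.ne'
  have h1 : ∀ e ∈ board N, wt (zn N W A B N) e = W e := by
    intro e he
    rw [zn_wt hL hR (by omega) le_rfl he]
    unfold Wn
    rw [div_self hN0, sub_self, zero_mul, zero_mul, sub_zero, one_mul, one_mul, div_one]
  have h2 : ∑ e ∈ board N, wt (zn N W A B N) e ^ 2 = ∑ e ∈ board N, W e ^ 2 :=
    sum_congr rfl fun e he => by rw [h1 e he]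
  unfold V2
  rw [hV, Sq_full, h2, ru_AA h1]

end Pool.Agent.NQF
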