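import Pool.Agent.NQF.RDef
import Pool.Agent.NQF.RTra
import Pool.Agent.NQF.RTrb
import Pool.Agent.NQF.RTrc
import Pool.Agent.NQF.RUnq
import Pool.Agent.NQF.RBad
import Pool.Agent.NQF.RTyp
import Pool.Agent.NQL.ABas
import Pool.Agent.NQL.BNom
import Pool.Agent.NQL.BFul
import Pool.Agent.NQL.BReg
import Pool.Agent.NQL.DCnt
import Pool.Agent.NQL.DRec
import Pool.Agent.NQL.DTyD
import Pool.Agent.NQL.DPai
import Pool.Agent.NQL.DIns

/-! # NQF-RGood: nearly all pairs (configuration, order) pass through good instances only (assembly) -/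

set_option autoImplicit false

open Finset

namespace Pool.Agent.NQF

open Pool.Agent.NQ (board dsum F Ent Dg phi ln Q Qset QS NonAtt bern)
open Pool.Agent.NQR (Adm Opt Bd Rf hS hD hh InR)
open Pool.Agent.NQL

/-- the full board is a good instance -/
private theorem rg_full {L : ℝ} (hL : 1 ≤ L) {ε t1 ε' : ℝ} (hε : 0 ≤ ε) (hε' : 0 ≤ ε') {N : ℕ} (hN : 2 ≤ N)
    {W : ℤ × ℤ → ℝ} {A B : ℤ → ℝ} (hR : Rf L N W A B) : Good L ε t1 ε' N N W (full N) := by
  have hN0 : (0 : ℝ) < N := by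
    have : 0 < N := by omega
    exact_mod_cast this
  have hN0' : (0 : ℝ) ≤ N := hN0.le
  obtain ⟨_, _, hY, hC⟩ := full_st hL hN hR
  refine ⟨vd_full (by omega), ?_, ?_, ?_, ?_⟩
  · intro l hl hrc
    rw [hY l hl, tt_rc hrc]
    simpa using hε
  · intro _ l hl hrc
    rw [hY l hl]
    simpa using hε'
  · intro l hl hrc
    rw [hY l hl]
    have h1 := (tt_bd hL hR (by omega) le_rfl hrc).2.2
    have h2 : (0 : ℝ) < 1 / L := by positivity
    have h3 : (1 : ℝ) ≤ L ^ 3 := one_le_pow₀ hL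
    have h4 : (N : ℝ) / N = 1 := div_self hN0.ne'
    have h5 : (0 : ℝ) ≤ (N : ℝ) ^ (-(1 / 4) : ℝ) := Real.rpow_nonneg hN0' _
    rw [h4]
    nlinarith
  · intro x x' hx hx' _
    obtain ⟨e, he, h⟩ := mem_full.1 hx
    obtain ⟨e', he', h'⟩ := mem_full.1 hx'
    rw [Pool.Agent.NQ.mem_board] at he he'
    simp only [Pool.Agent.NQ.ln_zero] at h h'
    have h3 := hC x x' (by omega) (by omega) (by omega) (by omega)
    refine le_trans ?_ h3
    apply one_div_le_one_div_of_le (by positivity)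
    nlinarith [sq_nonneg L]

/-- codegrees of the regular weights -/
private theorem rg_cod {L : ℝ} (hL : 1 ≤ L) {N m : ℕ} {W : ℤ × ℤ → ℝ} {I : Finset Li} {z : Li → ℝ} (hm : 1 ≤ m)
    (hp : ∀ e ∈ Sq N I, 0 ≤ Wn N W m e) (hw : ∀ e ∈ Sq N I, Wn N W m e / 2 ≤ wt z e) {x x' : ℤ}
    (h : 1 / (2 * L ^ 2) ≤ Cg N W m I x x') :
    1 / (8 * L ^ 2) / m ≤ ∑ y ∈ Finset.Ico (0 : ℤ) N,
      if (x, y) ∈ Sq N I ∧ (x', y) ∈ Sq N I then wt z (x, y) * wt z (x', y) else 0 := by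
  classical
  have hm0 : (0 : ℝ) < m := by exact_mod_cast hm
  have hL0 : (0 : ℝ) < L := by linarith
  have h1 : Cg N W m I x x' ≤ 4 * m * ∑ y ∈ Finset.Ico (0 : ℤ) N,
      if (x, y) ∈ Sq N I ∧ (x', y) ∈ Sq N I then wt z (x, y) * wt z (x', y) else 0 := by
    unfold Cg
    rw [show (4 * (m : ℝ) * ∑ y ∈ Finset.Ico (0 : ℤ) N,
      if (x, y) ∈ Sq N I ∧ (x', y) ∈ Sq N I then wt z (x, y) * wt z (x', y) else 0) =
      m * (∑ y ∈ Finset.Ico (0 : ℤ) N, 4 *
      if (x, y) ∈ Sq N I ∧ (x', y) ∈ Sq N I then wt z (x, y) * wt z (x', y) else 0) by rw [← mul_sum]; ring]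
    refine mul_le_mul_of_nonneg_left (sum_le_sum fun y _ => ?_) hm0.le
    by_cases hy : (x, y) ∈ Sq N I ∧ (x', y) ∈ Sq N I
    · rw [if_pos hy, if_pos hy]
      have a1 := hw _ hy.1
      have a2 := hw _ hy.2
      have b1 := hp _ hy.1
      have b2 := hp _ hy.2
      have h2 := mul_le_mul a1 a2 (by linarith) (by linarith : 0 ≤ wt z (x, y))
      linarith [h2]
    · rw [if_neg hy, if_neg hy, mul_zero]
  have h2 := h.trans h1
  rw [div_le_iff₀ hm0]
  have h3 : 1 / (8 * L ^ 2) = 1 / (2 * L ^ 2) / 4 := by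
    field_simp
    norm_num
  rw [h3]
  linarith [h2]

open Classical in
/-- proportion of the random instances that do not have the property -/
private noncomputable def rgB (G : ℕ → Finset Li → Prop) (N k : ℕ) (P : Finset (ℤ × ℤ)) : ℝ :=
  (((P.powersetCard k).filter (fun R => ¬ G k (rmS (full N) (P \ R)))).card : ℝ) / (N.choose k : ℕ)

private theorem rg_sum (G : ℕ → Finset Li → Prop) {N m0 : ℕ} (h0 : 1 ≤ m0) (hN : m0 ≤ N) :
    (Q N : ℝ) - zu G m0 N N (full N) ≤ ∑ P ∈ Qset N, ∑ k ∈ Finset.Icc m0 N, rgB G N k P := by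
  classical
  have hle := zu_le G (N := N) h0 hN (full N)
  rw [zz_full] at hle
  refine hle.trans (le_of_eq ?_)
  rw [Finset.sum_comm]
  apply Finset.sum_congr rfl
  intro k hk
  rw [Finset.mem_Icc] at hk
  rw [ab_eq _ (by omega) hk.2, pl_full, Finset.sum_div]
  apply Finset.sum_congr rfl
  intro P hP
  unfold rgB
  refine congrArg (· / _) ?_
  rw [Finset.card_filter]
  push_cast
  apply Finset.sum_congr rfl
  intro R hR
  by_cases hg : G k (rmS (full N) (P \ R)) <;> simp [hg]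

private theorem rg_le {G G1 G2 G3 : ℕ → Finset Li → Prop} {N k : ℕ} (P : Finset (ℤ × ℤ))
    (h : ∀ I, G1 k I → G2 k I → G3 k I → G k I) :
    rgB G N k P ≤ rgB G1 N k P + rgB G2 N k P + rgB G3 N k P := by
  classical
  unfold rgB
  rw [← add_div, ← add_div]
  refine div_le_div_of_nonneg_right ?_ (Nat.cast_nonneg _)
  have h1 : ((P.powersetCard k).filter (fun R => ¬ G k (rmS (full N) (P \ R)))) ⊆
      ((P.powersetCard k).filter (fun R => ¬ G1 k (rmS (full N) (P \ R)))) ∪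
      ((P.powersetCard k).filter (fun R => ¬ G2 k (rmS (full N) (P \ R)))) ∪
      ((P.powersetCard k).filter (fun R => ¬ G3 k (rmS (full N) (P \ R)))) := by
    intro R hR
    rw [mem_filter] at hR
    rw [mem_union, mem_union, mem_filter, mem_filter, mem_filter]
    by_cases a1 : G1 k (rmS (full N) (P \ R))
    · by_cases a2 : G2 k (rmS (full N) (P \ R))
      · by_cases a3 : G3 k (rmS (full N) (P \ R))
        · exact absurd (h _ a1 a2 a3) hR.2
        · exact Or.inr ⟨hR.1, a3⟩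
      · exact Or.inl (Or.inr ⟨hR.1, a2⟩)
    · exact Or.inl (Or.inl ⟨hR.1, a1⟩)
  have h2 := (card_le_card h1).trans ((card_union_le _ _).trans (Nat.add_le_add_right (card_union_le _ _) _))
  exact_mod_cast h2

private theorem rg_one (G : ℕ → Finset Li → Prop) {N k : ℕ} (hk : k ≤ N) {P : Finset (ℤ × ℤ)} (hP : P ∈ Qset N) :
    rgB G N k P ≤ 1 := by
  classical
  unfold rgB
  have hc : 0 < N.choose k := Nat.choose_pos hk
  have hc' : (0 : ℝ) < (N.choose k : ℕ) := by exact_mod_cast hc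
  rw [div_le_one hc']
  have h1 : ((P.powersetCard k).filter (fun R => ¬ G k (rmS (full N) (P \ R)))).card ≤
      (P.powersetCard k).card := Finset.card_filter_le _ _
  rw [Finset.card_powersetCard, (Pool.Agent.NQ.mem_Qset.1 hP).2.1] at h1
  exact_mod_cast h1

open Classical in
private theorem rg_S1 (G : ℕ → Finset Li → Prop) {L tol η : ℝ} {N m0 : ℕ} (W : ℤ × ℤ → ℝ) (h0 : 1 ≤ m0)
    (hN : 1 ≤ N) (hη : 0 ≤ η)
    (H1 : ∀ P ∈ Qset N, Typ L tol N W P → ∑ k ∈ Finset.Icc m0 N, rgB G N k P ≤ η)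
    (H2 : (N : ℝ) ^ 2 * ((Qset N).filter (fun P => ¬ Typ L tol N W P)).card ≤ Q N) :
    ∑ P ∈ Qset N, ∑ k ∈ Finset.Icc m0 N, rgB G N k P ≤ (η + 1 / N) * Q N := by
  have hN0 : (0 : ℝ) < N := by exact_mod_cast hN
  have h1 : ∑ P ∈ Qset N, ∑ k ∈ Finset.Icc m0 N, rgB G N k P ≤
      ∑ P ∈ Qset N, (η + if ¬ Typ L tol N W P then (N : ℝ) else 0) := by
    refine sum_le_sum fun P hP => ?_
    by_cases hT : Typ L tol N W P
    · rw [if_neg (not_not.2 hT), add_zero]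
      exact H1 P hP hT
    · rw [if_pos hT]
      have h2 : ∑ k ∈ Finset.Icc m0 N, rgB G N k P ≤ ∑ k ∈ Finset.Icc m0 N, (1 : ℝ) :=
        sum_le_sum fun k hk => rg_one G (Finset.mem_Icc.1 hk).2 hP
      refine h2.trans ?_
      rw [Finset.sum_const, Nat.card_Icc, nsmul_eq_mul, mul_one]
      have h3 : ((N + 1 - m0 : ℕ) : ℝ) ≤ N := by
        have : N + 1 - m0 ≤ N := by omega
        exact_mod_cast this
      linarith
  refine h1.trans ?_
  rw [Finset.sum_add_distrib, Finset.sum_const, ← Finset.sum_filter, Finset.sum_const, nsmul_eq_mul, nsmul_eq_mul]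
  have h4 : ((Qset N).card : ℝ) = Q N := rfl
  rw [h4]
  have h5 : ((((Qset N).filter (fun P => ¬ Typ L tol N W P)).card : ℕ) : ℝ) * N ≤ 1 / N * Q N := by
    have h6 := mul_le_mul_of_nonneg_left H2 (by positivity : (0 : ℝ) ≤ 1 / N)
    refine le_trans (le_of_eq ?_) h6
    field_simp
  linarith [h5, show (η + 1 / (N : ℝ)) * Q N = Q N * η + 1 / N * Q N by ring]

private theorem rg_te_inj : Function.Injective te := by
  intro a b h
  have := congrArg te h
  exact this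

private theorem rg_im (P : Finset (ℤ × ℤ)) : (P.image te).image te = P := by
  rw [image_image]
  have : te ∘ te = id := rfl
  rw [this, image_id]

private theorem rg_tr (G : ℕ → Finset Li → Prop) (N k : ℕ) (P : Finset (ℤ × ℤ)) :
    rgB (fun m I => G m (tI I)) N k P = rgB G N k (P.image te) := by
  classical
  unfold rgB
  have key : ∀ R : Finset (ℤ × ℤ), tI (rmS (full N) (P \ R)) = rmS (full N) (P.image te \ R.image te) := by
    intro R
    rw [rmS_tI, full_tI, image_sdiff _ _ rg_te_inj]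
  refine congrArg (fun n : ℕ => (n : ℝ) / (N.choose k : ℕ)) ?_
  refine Finset.card_nbij' (fun R => R.image te) (fun R => R.image te) ?_ ?_ ?_ ?_
  · intro R hR
    rw [mem_coe, mem_filter, mem_powersetCard] at hR ⊢
    refine ⟨⟨image_subset_image hR.1.1, ?_⟩, ?_⟩
    · rw [card_image_of_injective _ rg_te_inj]
      exact hR.1.2
    · rw [← key]
      exact hR.2
  · intro R hR
    rw [mem_coe, mem_filter, mem_powersetCard] at hR ⊢
    refine ⟨⟨?_, ?_⟩, ?_⟩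
    · have h1 := image_subset_image (f := te) hR.1.1
      rwa [rg_im] at h1
    · rw [card_image_of_injective _ rg_te_inj]
      exact hR.1.2
    · show ¬ G k (tI (rmS (full N) (P \ R.image te)))
      rw [key, rg_im]
      exact hR.2
  · intro R _
    exact rg_im R
  · intro R _
    exact rg_im R

private theorem rg_S2 (G : ℕ → Finset Li → Prop) (N m0 : ℕ) :
    ∑ P ∈ Qset N, ∑ k ∈ Finset.Icc m0 N, rgB (fun m I => G m (tI I)) N k P =
      ∑ P ∈ Qset N, ∑ k ∈ Finset.Icc m0 N, rgB G N k P := by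
  refine Finset.sum_nbij' (fun P => P.image te) (fun P => P.image te) ?_ ?_ ?_ ?_ ?_
  · intro P hP
    exact q_te hP
  · intro P hP
    exact q_te hP
  · intro P _
    exact rg_im P
  · intro P _
    exact rg_im P
  · intro P _
    exact sum_congr rfl fun k _ => rg_tr G N k P

private theorem rg_eq (G : ℕ → Finset Li → Prop) (N k : ℕ) (P : Finset (ℤ × ℤ)) (p : Finset (ℤ × ℤ) → Prop)
    [DecidablePred p] (h : ∀ R, ¬ G k (rmS (full N) (P \ R)) ↔ p R) :
    rgB G N k P = (((P.powersetCard k).filter p).card : ℝ) / (N.choose k : ℕ) := by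
  classical
  unfold rgB
  refine congrArg (fun n : ℕ => (n : ℝ) / (N.choose k : ℕ)) (congrArg Finset.card ?_)
  ext R
  rw [mem_filter, mem_filter]
  exact and_congr Iff.rfl (h R)

private theorem rg_zero (G : ℕ → Finset Li → Prop) (N k : ℕ) (P : Finset (ℤ × ℤ)) (h : ∀ I, G k I) :
    rgB G N k P = 0 := by
  rw [rg_eq G N k P (fun _ => False) fun R => ⟨fun h' => h' (h _), False.elim⟩, filter_false, card_empty,
    Nat.cast_zero, zero_div]

private theorem rg_S3 {N m0 : ℕ} (h0 : 1 ≤ m0) (hN : m0 ≤ N) {P : Finset (ℤ × ℤ)} (hP : P ∈ Qset N) :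
    ∑ k ∈ Finset.Icc m0 N, rgB (fun m I => m = m0 → ∀ l ∈ I, ¬ rc l → (Sl N I l).card ≤ 1) N k P ≤
      12 * (m0 : ℝ) ^ 4 / N := by
  rw [sum_eq_single m0]
  · have h1 := pairs_le (by omega : 1 ≤ N) h0 hN hP
    refine le_trans (le_of_eq (rg_eq _ N m0 P _ fun R => ?_)) h1
    constructor
    · intro h
      by_contra h2
      refine h fun _ l hl h3 => ?_
      by_contra h4
      exact h2 ⟨l, hl, h3, by omega⟩
    · rintro ⟨l, hl, h2, h3⟩ h4
      have := h4 rfl l hl h2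
      omega
  · intro k _ hk
    exact rg_zero _ N k P fun I h => absurd h hk
  · intro h
    exact absurd (Finset.mem_Icc.2 ⟨le_rfl, hN⟩) h

theorem up_pair (L : ℝ) (hL : 1 ≤ L) (ε : ℝ) (hε : 0 < ε) (mX : ℕ) :
    ∃ m0 N0 : ℕ, mX ≤ m0 ∧ 2 ≤ m0 ∧ ∀ N : ℕ, N0 ≤ N → ∀ (W : ℤ × ℤ → ℝ) (A B : ℤ → ℝ), Rf L N W A B →
      m0 < N ∧ ∃ G : ℕ → Finset Li → Prop, G N (full N) ∧
        (∀ m I, m0 ≤ m → m ≤ N → G m I → Vd N m I ∧ ∃ z : Li → ℝ,
          Reg (32 * L ^ 3) (1 / (3200 * L ^ 3)) N m I z) ∧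
        (∀ I z, G m0 I → Reg (32 * L ^ 3) (1 / (3200 * L ^ 3)) N m0 I z →
          Lk (32 * L ^ 3) (1 / (3200 * L ^ 3)) (1 / (8 * L ^ 2)) N m0 I z) ∧
        (Q N : ℝ) - zu G m0 N N (full N) ≤ ε * Q N := by
  classical
  obtain ⟨ε1, t1, hε1, hε14, ht, ht4, H⟩ := good_reg L hL
  obtain ⟨ε', m01, hε', hε'ε, hm01, HR⟩ := H t1 ht le_rfl
  obtain ⟨tol, htol, m02, HB⟩ := bad_sum2 L ε1 t1 ε' (ε / 8) hL hε1 (by linarith) ht hε' (by linarith) (by positivity)
  obtain ⟨m0, hm0⟩ : ∃ m0 : ℕ, m0 = max (max m01 m02) (max mX 2) := ⟨_, rfl⟩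
  have h01 : m01 ≤ m0 := by omega
  have h02 : m02 ≤ m0 := by omega
  have h0X : mX ≤ m0 := by omega
  have h00 : 2 ≤ m0 := by omega
  obtain ⟨N1, HN1⟩ := HB m0 h02
  obtain ⟨N2, HN2⟩ := typ_most2 L tol hL htol
  obtain ⟨N3, HN3⟩ := exists_nat_ge (96 * (m0 : ℝ) ^ 4 / ε)
  obtain ⟨N4, HN4⟩ := exists_nat_ge (4 / ε)
  refine ⟨m0, max (max (max N1 N2) (m0 + 2)) (max N3 N4), h0X, h00, ?_⟩
  intro N hN W A B hR
  have hN1 : N1 ≤ N := by omega
  have hN2 : N2 ≤ N := by omega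
  have hN3 : m0 < N := by omega
  have hN4 : 2 ≤ N := by omega
  have hN0 : (0 : ℝ) < N := by
    have : 0 < N := by omega
    exact_mod_cast this
  have hN5 : 96 * (m0 : ℝ) ^ 4 / ε ≤ N := HN3.trans (by exact_mod_cast (by omega : N3 ≤ N))
  have hN6 : 4 / ε ≤ N := HN4.trans (by exact_mod_cast (by omega : N4 ≤ N))
  have hR' := rf_tr hR
  refine ⟨hN3, fun m I => Good L ε1 t1 ε' N m W I ∧ Good L ε1 t1 ε' N m (tW W) (tI I) ∧
    (m = m0 → ∀ l ∈ I, ¬ rc l → (Sl N I l).card ≤ 1), ?_, ?_, ?_, ?_⟩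
  · refine ⟨rg_full hL hε1.le hε'.le hN4 hR, ?_, fun h => absurd h (by omega)⟩
    rw [full_tI]
    exact rg_full hL hε1.le hε'.le hN4 hR'
  · intro m I hm hmN hG
    refine ⟨hG.1.vd, ?_⟩
    obtain ⟨z, h1, _, _⟩ := HR N m I W A B (by omega) hmN hR hG.1
    exact ⟨z, h1⟩
  · intro I z hG hz
    have hm1 : 1 ≤ m0 := by omega
    have hWn : ∀ (W' : ℤ × ℤ → ℝ) (A' B' : ℤ → ℝ) (J : Finset Li), Rf L N W' A' B' →
        ∀ e ∈ Sq N J, 0 ≤ Wn N W' m0 e := by
      intro W' A' B' J hRf e he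
      have h1 := (wn_bd hL hRf hm1 hN3.le (mem_Sq.1 he).1).1
      exact le_trans (by positivity) h1
    refine ⟨hG.1.vd, hz, hG.2.2 rfl, ?_, ?_⟩
    · intro x x' hx hx' hne
      obtain ⟨z', h1, h2, _⟩ := HR N m0 I W A B (by omega) hN3.le hR hG.1
      have h3 := (st_uniq hz.st h1.st).1
      exact rg_cod hL hm1 (hWn W A B I hR) (fun e he => by rw [← h3 e he]; exact (h2 e he).1)
        (hG.1.cg x x' hx hx' hne)
    · intro y y' hy hy' hne
      obtain ⟨z', h1, h2, _⟩ := HR N m0 (tI I) (tW W) B A (by omega) hN3.le hR' hG.2.1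
      have h3 := (st_uniq (st_tr hz.st) h1.st).1
      have hy1 : ((0, y) : Li) ∈ tI I := mem_tI.2 hy
      have hy2 : ((0, y') : Li) ∈ tI I := mem_tI.2 hy'
      have h4 := rg_cod hL hm1 (hWn (tW W) B A (tI I) hR') (fun e he => by rw [← h3 e he]; exact (h2 e he).1)
        (hG.2.1.cg y y' hy1 hy2 hne)
      refine h4.trans (le_of_eq (sum_congr rfl fun x _ => ?_))
      have c1 : (y, x) ∈ Sq N (tI I) ↔ (x, y) ∈ Sq N I := sq_tI
      have c2 : (y', x) ∈ Sq N (tI I) ↔ (x, y') ∈ Sq N I := sq_tI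
      by_cases hc : (x, y) ∈ Sq N I ∧ (x, y') ∈ Sq N I
      · rw [if_pos hc, if_pos ⟨c1.2 hc.1, c2.2 hc.2⟩, wt_tr, wt_tr]
        rfl
      · rw [if_neg hc, if_neg (fun h => hc ⟨c1.1 h.1, c2.1 h.2⟩)]
  · have hm1 : 1 ≤ m0 := by omega
    refine (rg_sum _ hm1 hN3.le).trans ?_
    have hS1 := rg_S1 (fun m I => Good L ε1 t1 ε' N m W I) (L := L) (tol := tol) (η := ε / 8) W hm1
      (by omega : 1 ≤ N) (by positivity) (fun P hP hT => HN1 N hN1 W A B hR P hP hT) (HN2 N hN2 W A B hR)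
    have hS2 := rg_S1 (fun m I => Good L ε1 t1 ε' N m (tW W) I) (L := L) (tol := tol) (η := ε / 8) (tW W) hm1
      (by omega : 1 ≤ N) (by positivity) (fun P hP hT => HN1 N hN1 (tW W) B A hR' P hP hT)
      (HN2 N hN2 (tW W) B A hR')
    rw [← rg_S2] at hS2
    have hS3 : ∑ P ∈ Qset N, ∑ k ∈ Finset.Icc m0 N,
        rgB (fun m I => m = m0 → ∀ l ∈ I, ¬ rc l → (Sl N I l).card ≤ 1) N k P ≤ ε / 8 * Q N := by
      have h1 : ∑ P ∈ Qset N, ∑ k ∈ Finset.Icc m0 N,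
        rgB (fun m I => m = m0 → ∀ l ∈ I, ¬ rc l → (Sl N I l).card ≤ 1) N k P ≤ ∑ P ∈ Qset N, ε / 8 := by
        refine sum_le_sum fun P hP => (rg_S3 hm1 hN3.le hP).trans ?_
        rw [div_le_iff₀ hε] at hN5
        rw [div_le_iff₀ hN0]
        linarith
      refine h1.trans (le_of_eq ?_)
      rw [sum_const, nsmul_eq_mul]
      have h2 : ((Qset N).card : ℝ) = Q N := rfl
      rw [h2]
      ring
    have hle : ∑ P ∈ Qset N, ∑ k ∈ Finset.Icc m0 N, rgB (fun m I => Good L ε1 t1 ε' N m W I ∧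
        Good L ε1 t1 ε' N m (tW W) (tI I) ∧ (m = m0 → ∀ l ∈ I, ¬ rc l → (Sl N I l).card ≤ 1)) N k P ≤
        ∑ P ∈ Qset N, ∑ k ∈ Finset.Icc m0 N, rgB (fun m I => Good L ε1 t1 ε' N m W I) N k P +
        ∑ P ∈ Qset N, ∑ k ∈ Finset.Icc m0 N, rgB (fun m I => Good L ε1 t1 ε' N m (tW W) (tI I)) N k P +
        ∑ P ∈ Qset N, ∑ k ∈ Finset.Icc m0 N,
          rgB (fun m I => m = m0 → ∀ l ∈ I, ¬ rc l → (Sl N I l).card ≤ 1) N k P := by
      rw [← sum_add_distrib, ← sum_add_distrib]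
      refine sum_le_sum fun P _ => ?_
      rw [← sum_add_distrib, ← sum_add_distrib]
      exact sum_le_sum fun k _ => rg_le P fun I a1 a2 a3 => ⟨a1, a2, a3⟩
    refine hle.trans ?_
    have hQ : (0 : ℝ) ≤ Q N := Nat.cast_nonneg _
    have h5 : 1 / (N : ℝ) ≤ ε / 4 := by
      rw [div_le_iff₀ hε] at hN6
      rw [div_le_iff₀ hN0]
      linarith
    have h6 : (ε / 8 + 1 / (N : ℝ)) * Q N ≤ (ε / 8 + ε / 4) * Q N :=
      mul_le_mul_of_nonneg_right (by linarith) hQ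
    have h7 : 0 ≤ ε * Q N := mul_nonneg hε.le hQ
    linarith [hS1, hS2, hS3, h6, h7]

end Pool.Agent.NQF
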