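import Pool.Agent.NQF.RDef
import Pool.Agent.NQL.AVal

/-!
# NQF-RNor: normalised transition weights

As `NQL.nor` (NQL/CNor), with mean `O(1/m²)`.
-/

set_option autoImplicit false

open Finset

namespace Pool.Agent.NQF

open Pool.Agent.NQ (board dsum F Ent Dg phi ln Q Qset QS NonAtt bern)
open Pool.Agent.NQR (Adm Opt Bd Rf hS hD hh InR)
open Pool.Agent.NQL

private theorem rnor_log {y : ℝ} (h : |y| ≤ 1 / 2) : Real.exp (y - 2 * y ^ 2) ≤ 1 + y := by
  have h1 := (abs_le.1 h).1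
  have h0 : 0 < 1 + y := by linarith
  rw [← Real.le_log_iff_exp_le h0]
  have h2 := Real.one_sub_inv_le_log_of_pos h0
  refine le_trans ?_ h2
  have h3 : 1 - (1 + y)⁻¹ = y / (1 + y) := by
    field_simp
    ring
  rw [h3, le_div_iff₀ h0]
  nlinarith [mul_nonneg (sq_nonneg y) (show 0 ≤ 1 + 2 * y by linarith)]

theorem nor2 {K lam C0 : ℝ} (hK : 1 ≤ K) (hC : 1 ≤ C0) : ∃ C : ℝ, 1 ≤ C ∧
    ∀ (N m : ℕ) (I : Finset Li) (z : Li → ℝ) (ξ : ℤ × ℤ → ℝ), 16 * C0 ≤ (m : ℝ) → Vd N m I →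
      Reg K lam N m I z → (∀ e ∈ Sq N I, |ξ e| ≤ C0 / m) →
      |∑ e ∈ Sq N I, wt z e / m * ξ e| ≤ C0 / m ^ 2 →
      0 < (∑ e ∈ Sq N I, wt z e / m * Real.exp (ξ e - C0 / m ^ 2)) ∧
      Tp (20 * C0) N m I z (fun e => wt z e / m * Real.exp (ξ e - C0 / m ^ 2) /
        ∑ e ∈ Sq N I, wt z e / m * Real.exp (ξ e - C0 / m ^ 2)) ∧
      Real.exp (-(C / m ^ 2)) ≤ ∑ e ∈ Sq N I, wt z e / m * Real.exp (ξ e - C0 / m ^ 2) ∧
      ∑ e ∈ Sq N I, wt z e / m * Real.exp (ξ e + C0 / m ^ 2) ≤ Real.exp (C / m ^ 2) := by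
  refine ⟨20 * C0 ^ 2, by nlinarith, ?_⟩
  intro N m I z ξ hm hv hreg hξ hmean
  have hm0 : (0 : ℝ) < m := by linarith
  have hm1 : (1 : ℝ) ≤ m := by linarith
  have hCC : C0 ≤ C0 ^ 2 := by nlinarith
  have hz := hreg.st
  have hsum : ∑ e ∈ Sq N I, wt z e / m = 1 := by
    rw [← sum_div, sum_wt hv hz, div_self hm0.ne']
  have hp0 : ∀ e ∈ Sq N I, 0 ≤ wt z e / m := fun e he =>
    div_nonneg (wt_le_one hz he).1.le hm0.le
  -- small parameter
  obtain ⟨u, hu⟩ : ∃ u : ℝ, u = 1 / m := ⟨_, rfl⟩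
  have hu0 : 0 < u := by
    rw [hu]
    positivity
  have hum : u * m = 1 := by
    rw [hu]
    field_simp
  have hCu : C0 * u ≤ 1 / 16 := by
    have h1 : C0 * u * m ≤ 1 / 16 * m := by
      calc C0 * u * m = C0 * (u * m) := by ring
        _ = C0 := by rw [hum, mul_one]
        _ ≤ 1 / 16 * m := by linarith
    exact le_of_mul_le_mul_right h1 hm0
  have hu1 : u ≤ 1 / 16 := by nlinarith
  have e1 : C0 / (m : ℝ) = C0 * u := by
    rw [hu]
    ring
  have e2 : C0 / (m : ℝ) ^ 2 = C0 * u ^ 2 := by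
    rw [hu]
    ring
  have e3 : ∀ x : ℝ, x / (m : ℝ) ^ 2 = x * u ^ 2 := by
    intro x
    rw [hu]
    ring
  rw [e2] at hmean
  rw [e2, e3 (20 * C0 ^ 2)]
  have hc0 : 0 ≤ C0 * u ^ 2 := by positivity
  have hc1 : C0 * u ^ 2 ≤ C0 * u := by nlinarith [mul_nonneg (show 0 ≤ C0 by linarith) hu0.le]
  have hξ' : ∀ e ∈ Sq N I, |ξ e| ≤ C0 * u := fun e he => by
    rw [← e1]
    exact hξ e he
  have hx : ∀ e ∈ Sq N I, |ξ e - C0 * u ^ 2| ≤ 2 * (C0 * u) := by
    intro e he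
    have h1 := abs_sub (ξ e) (C0 * u ^ 2)
    rw [abs_of_nonneg hc0] at h1
    have h2 := hξ' e he
    linarith
  have hexp1 : ∀ e ∈ Sq N I, |Real.exp (ξ e - C0 * u ^ 2) - 1| ≤ 4 * (C0 * u) := by
    intro e he
    have h1 := hx e he
    have h2 := Real.abs_exp_sub_one_le (show |ξ e - C0 * u ^ 2| ≤ 1 by linarith)
    linarith
  obtain ⟨S, hS⟩ : ∃ S : ℝ, S = ∑ e ∈ Sq N I, wt z e / m * Real.exp (ξ e - C0 * u ^ 2) := ⟨_, rfl⟩
  rw [← hS]
  have hS1 : |S - 1| ≤ 4 * (C0 * u) := by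
    have h1 : S - 1 = ∑ e ∈ Sq N I, wt z e / m * (Real.exp (ξ e - C0 * u ^ 2) - 1) := by
      have h2 : S - 1 = S - ∑ e ∈ Sq N I, wt z e / m := by rw [hsum]
      rw [h2, hS, ← sum_sub_distrib]
      exact sum_congr rfl fun e _ => by ring
    rw [h1]
    calc |∑ e ∈ Sq N I, wt z e / m * (Real.exp (ξ e - C0 * u ^ 2) - 1)| ≤
        ∑ e ∈ Sq N I, |wt z e / m * (Real.exp (ξ e - C0 * u ^ 2) - 1)| := abs_sum_le_sum_abs _ _
      _ ≤ ∑ e ∈ Sq N I, wt z e / m * (4 * (C0 * u)) := by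
          refine sum_le_sum fun e he => ?_
          rw [abs_mul, abs_of_nonneg (hp0 e he)]
          exact mul_le_mul_of_nonneg_left (hexp1 e he) (hp0 e he)
      _ = 4 * (C0 * u) := by rw [← sum_mul, hsum, one_mul]
  have hSpos : 3 / 4 ≤ S := by
    have := (abs_le.1 hS1).1
    linarith
  have hS0 : 0 < S := by linarith
  refine ⟨hS0, ⟨?_, ?_, ?_⟩, ?_, ?_⟩
  · rw [← sum_div, ← hS, div_self hS0.ne']
  · intro e he
    exact div_nonneg (mul_nonneg (hp0 e he) (Real.exp_pos _).le) hS0.le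
  · intro e he
    have h1 : wt z e / m * Real.exp (ξ e - C0 * u ^ 2) / S - wt z e / m =
        wt z e / m * ((Real.exp (ξ e - C0 * u ^ 2) - S) / S) := by
      field_simp
    have h2 : |Real.exp (ξ e - C0 * u ^ 2) - S| ≤ 8 * (C0 * u) := by
      have h3 := hexp1 e he
      have h4 : Real.exp (ξ e - C0 * u ^ 2) - S =
          (Real.exp (ξ e - C0 * u ^ 2) - 1) - (S - 1) := by ring
      rw [h4]
      have h5 := abs_sub (Real.exp (ξ e - C0 * u ^ 2) - 1) (S - 1)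
      linarith
    have h3 : |(Real.exp (ξ e - C0 * u ^ 2) - S) / S| ≤ 20 * (C0 * u) := by
      rw [abs_div, abs_of_pos hS0, div_le_iff₀ hS0]
      have h4 : 0 ≤ C0 * u := by positivity
      nlinarith
    change |wt z e / m * Real.exp (ξ e - C0 * u ^ 2) / S - wt z e / m| ≤
      20 * C0 * wt z e / m ^ 2
    rw [h1, abs_mul, abs_of_nonneg (hp0 e he), e3]
    calc wt z e / m * |(Real.exp (ξ e - C0 * u ^ 2) - S) / S| ≤
        wt z e / m * (20 * (C0 * u)) := mul_le_mul_of_nonneg_left h3 (hp0 e he)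
      _ = 20 * C0 * wt z e * u ^ 2 := by
          rw [hu]
          ring
  · -- lower bound
    obtain ⟨y, hy⟩ : ∃ y : ℝ, y = -(C0 * u ^ 2) := ⟨_, rfl⟩
    have hyabs : |y| ≤ 1 / 16 := by
      rw [hy, abs_neg, abs_of_nonneg hc0]
      linarith
    have hlog := rnor_log (show |y| ≤ 1 / 2 by linarith)
    have h1 : 1 + y ≤ ∑ e ∈ Sq N I, wt z e / m * Real.exp (ξ e) := by
      have h2 : ∑ e ∈ Sq N I, wt z e / m * (1 + ξ e) ≤
          ∑ e ∈ Sq N I, wt z e / m * Real.exp (ξ e) := by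
        refine sum_le_sum fun e he => mul_le_mul_of_nonneg_left ?_ (hp0 e he)
        have := Real.add_one_le_exp (ξ e)
        linarith
      have h3 : ∑ e ∈ Sq N I, wt z e / m * (1 + ξ e) =
          1 + ∑ e ∈ Sq N I, wt z e / m * ξ e := by
        have h4 : ∑ e ∈ Sq N I, wt z e / m * (1 + ξ e) =
            ∑ e ∈ Sq N I, (wt z e / m + wt z e / m * ξ e) :=
          sum_congr rfl fun e _ => by ring
        rw [h4, sum_add_distrib, hsum]
      have h4 := (abs_le.1 hmean).1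
      linarith
    have h2 : S = Real.exp (-(C0 * u ^ 2)) * ∑ e ∈ Sq N I, wt z e / m * Real.exp (ξ e) := by
      rw [hS, mul_sum]
      refine sum_congr rfl fun e _ => ?_
      rw [sub_eq_add_neg, Real.exp_add]
      ring
    have h3 : Real.exp (-(C0 * u ^ 2)) * Real.exp (y - 2 * y ^ 2) ≤ S := by
      rw [h2]
      exact mul_le_mul_of_nonneg_left (hlog.trans h1) (Real.exp_pos _).le
    rw [← Real.exp_add] at h3
    refine le_trans (Real.exp_le_exp.2 ?_) h3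
    have h5 : C0 * u ^ 2 ≤ C0 ^ 2 * u ^ 2 := mul_le_mul_of_nonneg_right hCC (sq_nonneg u)
    have h8 : 0 ≤ C0 ^ 2 * u ^ 2 := by positivity
    have h9 : y ^ 2 ≤ C0 ^ 2 * u ^ 2 := by
      rw [hy]
      have h10 : (-(C0 * u ^ 2)) ^ 2 = C0 ^ 2 * u ^ 2 * u ^ 2 := by ring
      rw [h10]
      have h11 : u ^ 2 ≤ 1 := by nlinarith
      nlinarith
    rw [hy] at h9 ⊢
    linarith
  · -- upper bound
    have h1 : ∑ e ∈ Sq N I, wt z e / m * Real.exp (ξ e + C0 * u ^ 2) =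
        Real.exp (C0 * u ^ 2) * ∑ e ∈ Sq N I, wt z e / m * Real.exp (ξ e) := by
      rw [mul_sum]
      refine sum_congr rfl fun e _ => ?_
      rw [Real.exp_add]
      ring
    have h2 : ∑ e ∈ Sq N I, wt z e / m * Real.exp (ξ e) ≤
        1 + C0 * u ^ 2 + C0 ^ 2 * u ^ 2 := by
      have h3 : ∑ e ∈ Sq N I, wt z e / m * Real.exp (ξ e) ≤
          ∑ e ∈ Sq N I, (wt z e / m + wt z e / m * ξ e + wt z e / m * (C0 ^ 2 * u ^ 2)) := by
        refine sum_le_sum fun e he => ?_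
        have h4 := hξ' e he
        have h5 := (abs_le.1 (Real.abs_exp_sub_one_sub_id_le (show |ξ e| ≤ 1 by linarith))).2
        have h6 : ξ e ^ 2 ≤ C0 ^ 2 * u ^ 2 := by
          rw [← sq_abs]
          calc |ξ e| ^ 2 ≤ (C0 * u) ^ 2 := pow_le_pow_left₀ (abs_nonneg _) h4 2
            _ = C0 ^ 2 * u ^ 2 := by ring
        calc wt z e / m * Real.exp (ξ e) ≤ wt z e / m * (1 + ξ e + C0 ^ 2 * u ^ 2) :=
              mul_le_mul_of_nonneg_left (by linarith) (hp0 e he)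
          _ = _ := by ring
      rw [sum_add_distrib, sum_add_distrib, ← sum_mul, hsum, one_mul] at h3
      have h4 := (abs_le.1 hmean).2
      linarith
    have h3 := Real.add_one_le_exp (C0 * u ^ 2 + C0 ^ 2 * u ^ 2)
    rw [h1]
    calc Real.exp (C0 * u ^ 2) * ∑ e ∈ Sq N I, wt z e / m * Real.exp (ξ e) ≤
        Real.exp (C0 * u ^ 2) * Real.exp (C0 * u ^ 2 + C0 ^ 2 * u ^ 2) :=
          mul_le_mul_of_nonneg_left (by linarith) (Real.exp_pos _).le
      _ = Real.exp (C0 * u ^ 2 + (C0 * u ^ 2 + C0 ^ 2 * u ^ 2)) := by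
          rw [← Real.exp_add]
      _ ≤ _ := by
          apply Real.exp_le_exp.2
          have h5 : C0 * u ^ 2 ≤ C0 ^ 2 * u ^ 2 := mul_le_mul_of_nonneg_right hCC (sq_nonneg u)
          have h8 : 0 ≤ C0 ^ 2 * u ^ 2 := by positivity
          linarith

theorem sum_inv_sq {m0 : ℕ} (h : 1 ≤ m0) (N : ℕ) :
    ∑ j ∈ Finset.Ioc m0 N, 1 / (j : ℝ) ^ 2 ≤ 1 / (m0 : ℝ) := by
  have hm0 : (0 : ℝ) < m0 := by exact_mod_cast h
  have key : ∀ N : ℕ, m0 ≤ N → ∑ j ∈ Finset.Ioc m0 N, 1 / (j : ℝ) ^ 2 ≤ 1 / (m0 : ℝ) - 1 / (N : ℝ) := by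
    intro N hN
    induction N, hN using Nat.le_induction with
    | base => simp
    | succ n hn ih =>
      rw [Finset.sum_Ioc_succ_top hn]
      have hn0 : (0 : ℝ) < n := by
        have : 1 ≤ n := le_trans h hn
        exact_mod_cast this
      have h1 : 1 / ((n + 1 : ℕ) : ℝ) ^ 2 ≤ 1 / (n : ℝ) - 1 / ((n + 1 : ℕ) : ℝ) := by
        push_cast
        rw [div_sub_div _ _ hn0.ne' (by positivity), div_le_div_iff₀ (by positivity) (by positivity)]
        nlinarith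
      linarith
  by_cases hN : m0 ≤ N
  · have h1 := key N hN
    have h2 : (0 : ℝ) ≤ 1 / (N : ℝ) := by positivity
    linarith
  · have h1 : Finset.Ioc m0 N = ∅ := Finset.Ioc_eq_empty (by omega)
    rw [h1, Finset.sum_empty]
    positivity

end Pool.Agent.NQF
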