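import Pool.Agent.NQF.RDef
import Pool.Agent.NQL.ABas

/-!
# NQF-RLs: the board as a line system
-/

set_option autoImplicit false

open Finset

namespace Pool.Agent.NQF

open Pool.Agent.NQ (board dsum F Ent Dg phi ln Q Qset QS NonAtt bern)
open Pool.Agent.NQR (Adm Opt Bd Rf hS hD hh InR)
open Pool.Agent.NQL

theorem mem_L4r {e : ℤ × ℤ} {l : Li} : l ∈ L4 e ↔ On e l := by
  unfold L4 On
  rw [mem_image]
  constructor
  · rintro ⟨k, _, rfl⟩
    rfl
  · intro h
    exact ⟨l.1, mem_univ _, Prod.ext rfl h⟩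

private theorem rls_inj (e : ℤ × ℤ) : Function.Injective (fun k : Fin 4 => ((k, ln k e) : Li)) :=
  fun _ _ h => congrArg Prod.fst h

theorem dS_board (z : Li → ℝ) (e : ℤ × ℤ) : dS L4 z e = ds z e := by
  unfold dS ds L4
  rw [sum_image fun a _ b _ h => rls_inj e h]

theorem sr_board (N : ℕ) (I : Finset Li) (l : Li) : Sr L4 (Sq N I) l = Sl N I l := by
  ext e
  rw [Sr, Sl, mem_filter, mem_filter, mem_L4r]

theorem sd_board (N : ℕ) (I : Finset Li) (e : ℤ × ℤ) : Sd L4 (Sq N I) e = Sq N (rm I e) := by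
  ext f
  rw [Sd, mem_filter, mem_Sq_rm, disjoint_left]
  constructor
  · rintro ⟨h1, h2⟩
    refine ⟨h1, fun k hk => ?_⟩
    exact h2 (a := (k, ln k f)) (mem_L4r.2 rfl) (mem_L4r.2 hk.symm)
  · rintro ⟨h1, h2⟩
    refine ⟨h1, fun l hl hl2 => ?_⟩
    rw [mem_L4r] at hl hl2
    exact h2 l.1 (hl.trans hl2.symm)

theorem diff_board (I : Finset Li) (e : ℤ × ℤ) : I \ L4 e = rm I e := by
  ext l
  rw [mem_sdiff, mem_L4r, mem_rm]
  rfl

theorem ls_board {K lam : ℝ} {N m : ℕ} {I : Finset Li} {z : Li → ℝ} (hv : Vd N m I)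
    (hR : Reg K lam N m I z) :
    LSys 4 m K lam I L4 (Sq N I) (wt z) (fun l => dg l * Real.exp (z l)) ga where
  sub := by
    intro e he l hl
    rw [mem_L4r] at hl
    have h1 := (mem_Sq.1 he).2 l.1
    have h2 : (l.1, ln l.1 e) = l := Prod.ext rfl hl
    rw [h2] at h1
    exact h1
  card := by
    intro e _
    unfold L4
    rw [card_image_of_injective _ (rls_inj e), card_univ, Fintype.card_fin]
  lin := by
    intro e _ f _ hef
    rw [card_le_one]
    intro a ha b hb
    rw [mem_inter, mem_L4r, mem_L4r] at ha hb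
    by_cases hab : a.1 = b.1
    · have ha1 : ln a.1 e = a.2 := ha.1
      have hb1 : ln b.1 e = b.2 := hb.1
      rw [← hab] at hb1
      exact Prod.ext hab (ha1.symm.trans hb1)
    · exact absurd (two_lines hab (Eq.trans (show ln a.1 e = a.2 from ha.1) (show ln a.1 f = a.2 from ha.2).symm)
        (Eq.trans (show ln b.1 e = b.2 from hb.1) (show ln b.1 f = b.2 from hb.2).symm)) hef
  st := by
    intro l hl
    rw [sr_board]
    exact hR.st l hl
  wnn := fun e _ => (Real.exp_pos _).le
  up := hR.up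
  cnn := by
    intro l _
    refine mul_nonneg ?_ (Real.exp_pos _).le
    unfold dg
    split_ifs <;> norm_num
  gc := by
    intro l _ hl
    have h1 : rc l := by
      unfold ga at hl
      unfold rc
      by_cases h2 : l.1 = 0
      · rw [h2]
        decide
      · rw [if_neg h2] at hl
        by_cases h3 : l.1 = 1
        · rw [h3]
          decide
        · rw [if_neg h3] at hl
          exact absurd rfl hl
    unfold dg
    rw [if_pos h1, zero_mul]
  gv := by
    intro l _
    unfold ga
    split_ifs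
    · exact Or.inr (Or.inl rfl)
    · exact Or.inr (Or.inr rfl)
    · exact Or.inl rfl
  g2 := (ga_sum hv).1
  g1 := (ga_sum hv).2
  ge := by
    intro e _
    have h1 := dS_board ga e
    rw [ds_ga] at h1
    exact h1
  ge2 := by
    intro e _
    have h1 := dS_board (fun l => ga l ^ 2) e
    unfold dS ds at h1
    rw [h1, Fin.sum_univ_four]
    have a0 : ga (0, ln 0 e) = 1 := by simp [ga]
    have a1 : ga (1, ln 1 e) = -1 := by simp [ga]
    have a2 : ga (2, ln 2 e) = 0 := by simp [ga]
    have a3 : ga (3, ln 3 e) = 0 := by simp [ga]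
    simp only [a0, a1, a2, a3]
    norm_num
  co := by
    intro δ
    have h1 := hR.co δ
    unfold Qf gs at h1
    simp only [dS_board]
    exact h1

end Pool.Agent.NQF
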