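import Pool.Agent.NQF.RDef
import Pool.Agent.NQF.RLs
import Pool.Agent.NQF.SFin
import Pool.Agent.NQL.ABas

/-!
# NQF-RStp: one step of the second order value on the board

PLAN. `ls_board`, `ls_step` with `ν = 4` (`kap 4 = 3/2`) give `η`. `∑_{Sq} wt η = ∑_{rows l ∈ I} ∑_{Sl l} wt η` (each free square lies on exactly one row of `I`; `m` rows, `Vd.crc`), each `≤ C/m²`. For `z'` stationary on `rm I e` let `δ = z' - z`: `StR` (`sr_board`, `sd_board`, `diff_board`, `dS_board`: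
`wt z f * exp (ds δ f) = wt z' f`), and `V2 N (m-1) (rm I e) z' - V2 N m I z - ds z e = DV2 4 m .. δ`: unfold (`Gf (rm I e) z' - Gf I z`, `- ∑_{rm I e} z' + ∑_I z = - ∑_{rm I e} δ + ds z e`, `- 4 (m-1) + 4 m = 4`, `log (4π(m-1)) - log (4πm) = log ((m-1)/m)`, `m ≥ 2`; `MM` with equal weights on the set of squares).
-/

set_option autoImplicit false

open Finset

namespace Pool.Agent.NQF

open Pool.Agent.NQ (board dsum F Ent Dg phi ln Q Qset QS NonAtt bern)
open Pool.Agent.NQR (Adm Opt Bd Rf hS hD hh InR)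
open Pool.Agent.NQL

private theorem rs_wt (z z' : Li → ℝ) : (fun f => wt z f * Real.exp (dS L4 (fun l => z' l - z l) f)) = wt z' := by
  funext f
  rw [dS_board]
  unfold wt
  rw [← Real.exp_add]
  congr 1
  unfold ds
  rw [← Finset.sum_add_distrib]
  exact Finset.sum_congr rfl fun k _ => by ring

private theorem rs_rows {N : ℕ} {I : Finset Li} (f : ℤ × ℤ → ℝ) :
    ∑ e ∈ Sq N I, f e = ∑ l ∈ I, ∑ e ∈ Sl N I l, (if l.1 = 0 then f e else 0) := by
  rw [line_sum (fun e l => if l.1 = 0 then f e else 0)]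
  refine Finset.sum_congr rfl fun e _ => ?_
  show f e = ∑ k : Fin 4, if k = 0 then f e else 0
  rw [Finset.sum_ite_eq' Finset.univ (0 : Fin 4), if_pos (Finset.mem_univ _)]

private theorem rs_id {N m : ℕ} {I : Finset Li} {z z' : Li → ℝ} {e : ℤ × ℤ} (he : e ∈ Sq N I) (hm : 2 ≤ m) :
    V2 N (m - 1) (rm I e) z' - V2 N m I z - ds z e =
      DV2 4 m I L4 (Sq N I) (wt z) (fun l => dg l * Real.exp (z l)) ga e (fun l => z' l - z l) := by
  have hmR : (2 : ℝ) ≤ m := by exact_mod_cast hm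
  have h1 : ((m - 1 : ℕ) : ℝ) = (m : ℝ) - 1 := by
    rw [Nat.cast_sub (by omega)]
    simp
  have hlog : Real.log (4 * Real.pi * ((m - 1 : ℕ) : ℝ)) - Real.log (4 * Real.pi * m) =
      Real.log (((m : ℝ) - 1) / m) := by
    have hpi := Real.pi_pos
    have a1 : (0 : ℝ) < (m : ℝ) - 1 := by linarith
    have a2 : (0 : ℝ) < m := by linarith
    have a3 : (0 : ℝ) < 4 * Real.pi := by positivity
    rw [h1, Real.log_mul a3.ne' a1.ne', Real.log_mul a3.ne' a2.ne', Real.log_div a1.ne' a2.ne']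
    ring
  have hw := rs_wt z z'
  have hwf : ∀ f, wt z f * Real.exp (dS L4 (fun l => z' l - z l) f) = wt z' f := fun f => congrFun hw f
  have hkap : kap 4 = 3 / 2 := by
    unfold kap
    norm_num
  have hc : ∀ l, dg l * Real.exp (z l) * Real.exp (z' l - z l) = dg l * Real.exp (z' l) := by
    intro l
    rw [mul_assoc, ← Real.exp_add]
    congr 2
    ring
  have hrm := rm_sum he z
  have hds : ds z e = ∑ k : Fin 4, z (k, ln k e) := rfl
  have hS1 : ∑ l ∈ rm I e, (dg l * Real.exp (z l) * Real.exp (z' l - z l) - (z' l - z l)) =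
      ∑ l ∈ rm I e, (dg l * Real.exp (z' l) - z' l) + ∑ l ∈ rm I e, z l := by
    rw [← Finset.sum_add_distrib]
    refine Finset.sum_congr rfl fun l _ => ?_
    rw [hc]
    ring
  have hS2 : ∑ l ∈ I, (dg l * Real.exp (z l) - z l) = ∑ l ∈ I, dg l * Real.exp (z l) - ∑ l ∈ I, z l :=
    Finset.sum_sub_distrib _ _
  unfold DV2 DV1 V2 Vf Gf
  rw [sd_board, diff_board, hw, hkap, hS1, hS2, hds, hrm, h1]
  simp only [hwf]
  rw [← h1]
  push_cast at hlog ⊢
  rw [h1] at hlog ⊢
  linear_combination (1 / 2 : ℝ) * hlog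

theorem v2_step (K lam : ℝ) (hK : 1 ≤ K) (hl : 0 < lam) (hl1 : lam ≤ 1) : ∃ (C : ℝ) (mA : ℕ), 1 ≤ C ∧ 2 ≤ mA ∧
    ∀ (N m : ℕ) (I : Finset Li) (z : Li → ℝ), mA ≤ m → Vd N m I → Reg K lam N m I z →
      ∃ η : ℤ × ℤ → ℝ, (∀ e ∈ Sq N I, |η e| ≤ C / m) ∧ |∑ e ∈ Sq N I, wt z e / m * η e| ≤ C / m ^ 2 ∧
        ∀ e ∈ Sq N I, ∀ z' : Li → ℝ, St N (rm I e) z' →
          |V2 N (m - 1) (rm I e) z' - (V2 N m I z + ds z e + η e)| ≤ C / m ^ 2 := by
  obtain ⟨C, mA, hC, hmA, H⟩ := ls_step 4 (by norm_num) (le_refl 4) K lam hK hl hl1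
  refine ⟨C, mA, hC, hmA, ?_⟩
  intro N m I z hm hv hR
  obtain ⟨η, h1, h2, h3⟩ := H Li (ℤ × ℤ) m I L4 (Sq N I) (wt z) (fun l => dg l * Real.exp (z l)) ga hm
    (ls_board hv hR)
  have hm2 : 2 ≤ m := hmA.trans hm
  have hmR : (2 : ℝ) ≤ m := by exact_mod_cast hm2
  have hmp : (0 : ℝ) < m := by linarith
  refine ⟨η, h1, ?_, ?_⟩
  · have e1 : ∑ e ∈ Sq N I, wt z e / m * η e = (1 / m) * ∑ e ∈ Sq N I, wt z e * η e := by
      rw [Finset.mul_sum]
      exact Finset.sum_congr rfl fun e _ => by ring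
    have e2 : |∑ e ∈ Sq N I, wt z e * η e| ≤ ∑ l ∈ I, (if l.1 = 0 then C / (m : ℝ) ^ 2 else 0) := by
      rw [rs_rows]
      refine (Finset.abs_sum_le_sum_abs _ _).trans (Finset.sum_le_sum fun l hl => ?_)
      by_cases h0 : l.1 = 0
      · rw [if_pos h0, Finset.sum_congr rfl fun e _ => if_pos h0]
        have hg : ga l ≠ 0 := by
          unfold ga
          rw [if_pos h0]
          exact one_ne_zero
        have := h2 l hl hg
        rw [sr_board] at this
        exact this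
      · rw [if_neg h0, Finset.sum_congr rfl fun e _ => if_neg h0, Finset.sum_const_zero, abs_zero]
    have e3 : ∑ l ∈ I, (if l.1 = 0 then C / (m : ℝ) ^ 2 else 0) = m * (C / (m : ℝ) ^ 2) := by
      rw [← Finset.sum_filter, Finset.sum_const, hv.crc 0 (by decide), nsmul_eq_mul]
    rw [e1, abs_mul, abs_of_pos (by positivity)]
    rw [e3] at e2
    calc 1 / (m : ℝ) * |∑ e ∈ Sq N I, wt z e * η e| ≤ 1 / m * (m * (C / (m : ℝ) ^ 2)) :=
          mul_le_mul_of_nonneg_left e2 (by positivity)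
      _ = C / m ^ 2 := by
          field_simp
  · intro e he z' hz'
    have hst : StR I L4 (Sq N I) (wt z) (fun l => dg l * Real.exp (z l)) e (fun l => z' l - z l) := by
      intro l hl
      rw [diff_board] at hl
      have h4 := hz' l hl
      rw [sd_board, sr_board]
      have h5 : ∀ f, wt z f * Real.exp (dS L4 (fun l => z' l - z l) f) = wt z' f := fun f => congrFun (rs_wt z z') f
      rw [Finset.sum_congr rfl fun f _ => h5 f]
      have h6 : dg l * Real.exp (z l) * Real.exp (z' l - z l) = dg l * Real.exp (z' l) := by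
        rw [mul_assoc, ← Real.exp_add]
        congr 2
        ring
      show ∑ f ∈ Sl N (rm I e) l, wt z' f + dg l * Real.exp (z l) * Real.exp (z' l - z l) = 1
      rw [h6]
      exact h4
    have h7 := h3 e he (fun l => z' l - z l) hst
    have h8 := rs_id (z := z) (z' := z') he hm2
    rw [← h8] at h7
    have h9 : V2 N (m - 1) (rm I e) z' - (V2 N m I z + ds z e + η e) =
        V2 N (m - 1) (rm I e) z' - V2 N m I z - ds z e - η e := by ring
    rw [h9]
    exact h7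

end Pool.Agent.NQF
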