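import Pool.Agent.NQF.RDef
import Pool.Agent.NQF.RUnq
import Pool.Agent.NQF.RStp
import Pool.Agent.NQF.RNor
import Pool.Agent.NQL.ABas
import Pool.Agent.NQL.CBas

/-!
# NQF-RIndL: the induction for the lower bound

PLAN. As in `NQL.low_ind` (NQL/CInd.lean, copy the proof of `claim`) with `V2` instead of `Vf`: constants `C0, mA` from `v2_step`, `C1` from `nor2` with `C0`, `Cp = 20 C0`, `mX = max mA ⌈16 C0⌉₊`, `C = C1`. Induction on `m ≥ m0` over all `I` with `G m I` and all stationary `z`; `z` may be replaced by the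
regular one of the hypothesis (`v2_uniq`). Base: hypothesis, `1 - Ψ ≤ 1`. Step `m + 1`: `zz N (m+1) I = ∑_e zz N m (rm I e)/(m+1)`, for `1 ≤ Ψ m (rm I e)` the term is bounded below by a nonpositive number, otherwise `G m (rm I e)` (`vd_rm`), the induction hypothesis and
`V2 (rm I e) z' ≥ V2 I z + ds z e + η e - C0/(m+1)²`; then `Tp` for the normalised weights and the inequality for `Ψ`.
-/

set_option autoImplicit false

open Finset

namespace Pool.Agent.NQF

open Pool.Agent.NQ (board dsum F Ent Dg phi ln Q Qset QS NonAtt bern)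
open Pool.Agent.NQR (Adm Opt Bd Rf hS hD hh InR)
open Pool.Agent.NQL

theorem ind_low (K lam : ℝ) (hK : 1 ≤ K) (hl : 0 < lam) (hl1 : lam ≤ 1) : ∃ (C Cp : ℝ) (mX : ℕ), 1 ≤ C ∧
    0 ≤ Cp ∧ 2 ≤ mX ∧ ∀ (m0 N : ℕ) (G : ℕ → Finset Li → Prop) (Ψ : ℕ → Finset Li → ℝ) (E0 : ℝ), mX ≤ m0 →
      (∀ m I, 0 ≤ Ψ m I) → (∀ m I, m0 ≤ m → m ≤ N → Vd N m I → ¬ G m I → 1 ≤ Ψ m I) →
      (∀ m I, m0 ≤ m → m ≤ N → G m I → Vd N m I ∧ ∃ z : Li → ℝ, Reg K lam N m I z ∧
        ∀ π : ℤ × ℤ → ℝ, m0 < m → Tp Cp N m I z π → ∑ e ∈ Sq N I, π e * Ψ (m - 1) (rm I e) ≤ Ψ m I) →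
      (∀ I z, G m0 I → Reg K lam N m0 I z → Real.exp (V2 N m0 I z - E0) ≤ zz N m0 I) →
      ∀ m : ℕ, m0 ≤ m → m ≤ N → ∀ (I : Finset Li) (z : Li → ℝ), G m I → St N I z →
        (1 - Ψ m I) * Real.exp (V2 N m I z - C * ∑ j ∈ Finset.Ioc m0 m, 1 / (j : ℝ) ^ 2 - E0) ≤ zz N m I := by
  obtain ⟨C0, mA, hC0, hmA, hstep⟩ := v2_step K lam hK hl hl1
  obtain ⟨C1, hC1, hnor⟩ := nor2 (lam := lam) hK hC0
  refine ⟨C1, 20 * C0, max mA ⌈16 * C0⌉₊, hC1, by linarith, hmA.trans (le_max_left _ _), ?_⟩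
  intro m0 N G Ψ E0 hmX hΨ0 hΨ1 hG hbase m hm
  induction m, hm using Nat.le_induction with
  | base =>
    intro hmN I z hGI hz
    obtain ⟨_, z1, hz1, _⟩ := hG m0 I le_rfl hmN hGI
    rw [← v2_uniq m0 hz hz1.st, Finset.Ioc_self, Finset.sum_empty, mul_zero, sub_zero]
    have h1 := hbase I z1 hGI hz1
    have h2 := Real.exp_pos (V2 N m0 I z1 - E0)
    have h3 := hΨ0 m0 I
    nlinarith
  | succ m hm ih =>
    intro hmN I z0 hGI hz0
    obtain ⟨hvd, z, hz, hsup⟩ := hG (m + 1) I (by omega) hmN hGI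
    rw [← v2_uniq (m + 1) hz0 hz.st]
    have hM : (1 : ℝ) ≤ ((m + 1 : ℕ) : ℝ) := by exact_mod_cast Nat.succ_le_succ (Nat.zero_le m)
    have hMp : (0 : ℝ) < ((m + 1 : ℕ) : ℝ) := by linarith
    by_cases h1 : 1 ≤ Ψ (m + 1) I
    · exact (mul_nonpos_of_nonpos_of_nonneg (by linarith) (Real.exp_pos _).le).trans
        (zz_nonneg _ _ _)
    have h1' : Ψ (m + 1) I < 1 := not_le.1 h1
    have hA : mA ≤ m + 1 := ((le_max_left _ _).trans hmX).trans (by omega)
    have h16 : 16 * C0 ≤ ((m + 1 : ℕ) : ℝ) := by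
      have h2 : ⌈16 * C0⌉₊ ≤ m + 1 := ((le_max_right _ _).trans hmX).trans (by omega)
      exact (Nat.le_ceil _).trans (by exact_mod_cast h2)
    obtain ⟨η, x1, x2, x3⟩ := hstep N (m + 1) I z hA hvd hz
    obtain ⟨n1, n2, n3, _⟩ := hnor N (m + 1) I z η h16 hvd hz x1 x2
    have h7 := hsup _ (by omega) n2
    beta_reduce at h7
    rw [Nat.add_sub_cancel] at h7
    obtain ⟨E, hE⟩ : ∃ E : ℝ, E = V2 N (m + 1) I z - C1 * ∑ j ∈ Finset.Ioc m0 m, 1 / (j : ℝ) ^ 2 - E0 :=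
      ⟨_, rfl⟩
    have hsq : ∀ e ∈ Sq N I, (1 - Ψ m (rm I e)) * (Real.exp E * (wt z e *
        Real.exp (η e - C0 / ((m + 1 : ℕ) : ℝ) ^ 2))) ≤ zz N m (rm I e) := by
      intro e he
      by_cases h2 : 1 ≤ Ψ m (rm I e)
      · refine le_trans ?_ (zz_nonneg _ _ _)
        refine mul_nonpos_of_nonpos_of_nonneg (by linarith) ?_
        exact mul_nonneg (Real.exp_pos _).le (mul_nonneg (Real.exp_pos _).le (Real.exp_pos _).le)
      · have hv := vd_rm hvd he
        have h2' : Ψ m (rm I e) < 1 := not_le.1 h2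
        have hG' : G m (rm I e) := by
          by_contra hcon
          exact h2 (hΨ1 m (rm I e) hm (by omega) hv hcon)
        obtain ⟨_, z', r1, _⟩ := hG m (rm I e) hm (by omega) hG'
        refine le_trans ?_ (ih (by omega) _ z' hG' r1.st)
        refine mul_le_mul_of_nonneg_left ?_ (by linarith)
        have h3 := (abs_le.1 (x3 e he z' r1.st)).1
        rw [Nat.add_sub_cancel] at h3
        rw [wt, ← Real.exp_add, ← Real.exp_add]
        apply Real.exp_le_exp.2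
        rw [hE]
        linarith
    have hz1 : zz N (m + 1) I = (∑ e ∈ Sq N I, zz N m (rm I e)) / ((m + 1 : ℕ) : ℝ) := by
      rw [zz]
      push_cast
      rfl
    rw [hz1, le_div_iff₀ hMp]
    refine le_trans ?_ (Finset.sum_le_sum hsq)
    rw [Finset.sum_Ioc_succ_top (by omega : m0 ≤ m)]
    have hexp : Real.exp (V2 N (m + 1) I z - C1 * (∑ j ∈ Finset.Ioc m0 m, 1 / (j : ℝ) ^ 2 +
        1 / ((m + 1 : ℕ) : ℝ) ^ 2) - E0) = Real.exp E * Real.exp (-(C1 / ((m + 1 : ℕ) : ℝ) ^ 2)) := by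
      rw [← Real.exp_add, hE]
      congr 1
      ring
    rw [hexp]
    generalize hMM : ((m + 1 : ℕ) : ℝ) = M at *
    generalize hSS : ∑ e ∈ Sq N I, wt z e / M * Real.exp (η e - C0 / M ^ 2) = S at *
    have h5 : ∑ e ∈ Sq N I, (1 - Ψ m (rm I e)) * (Real.exp E * (wt z e *
        Real.exp (η e - C0 / M ^ 2))) = Real.exp E * M * S * (1 - ∑ e ∈ Sq N I,
          wt z e / M * Real.exp (η e - C0 / M ^ 2) / S * Ψ m (rm I e)) := by
      have h6 : S * ∑ e ∈ Sq N I, wt z e / M * Real.exp (η e - C0 / M ^ 2) / S *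
          Ψ m (rm I e) = ∑ e ∈ Sq N I, wt z e / M * Real.exp (η e - C0 / M ^ 2) *
            Ψ m (rm I e) := by
        rw [Finset.mul_sum]
        refine Finset.sum_congr rfl fun e _ => ?_
        have := n1.ne'
        field_simp
      rw [mul_assoc (Real.exp E * M), mul_sub, mul_one, h6, ← hSS, ← Finset.sum_sub_distrib,
        Finset.mul_sum]
      refine Finset.sum_congr rfl fun e _ => ?_
      have := hMp.ne'
      field_simp
    rw [h5]
    have hEp := Real.exp_pos E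
    calc (1 - Ψ (m + 1) I) * (Real.exp E * Real.exp (-(C1 / M ^ 2))) * M
        ≤ (1 - Ψ (m + 1) I) * (Real.exp E * S) * M := by
          refine mul_le_mul_of_nonneg_right ?_ hMp.le
          refine mul_le_mul_of_nonneg_left ?_ (by linarith)
          exact mul_le_mul_of_nonneg_left n3 hEp.le
      _ = Real.exp E * M * S * (1 - Ψ (m + 1) I) := by ring
      _ ≤ Real.exp E * M * S * (1 - ∑ e ∈ Sq N I,
          wt z e / M * Real.exp (η e - C0 / M ^ 2) / S * Ψ m (rm I e)) := by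
          refine mul_le_mul_of_nonneg_left (by linarith) ?_
          exact (mul_pos (mul_pos hEp hMp) n1).le

end Pool.Agent.NQF
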