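import Pool.Agent.NQF.RDef
import Pool.Agent.NQF.RUnq
import Pool.Agent.NQF.RStp
import Pool.Agent.NQF.RNor
import Pool.Agent.NQL.ABas
import Pool.Agent.NQL.DRec

/-!
# NQF-RIndU: the induction for the upper bound

PLAN. As in `NQL/DInd.lean` (`upper_aux`, copy the proof) with `V2` instead of `Vf`: constants from `v2_step`, `nor2`; base: `zu G m0 N m0 I = zz N m0 I` and the hypothesis; step: `zu (n+1) = ∑_e zu n (rm I e)/(n+1)`; if `G n (rm I e)` fails the term is `0`, otherwise the induction hypothesis for a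
regular `z'` of `rm I e` and `V2 (rm I e) z' ≤ V2 I z + ds z e + η e + C0/(n+1)²`; sum `≤ exp (V2 I z + ..) S'`. `z` stationary may be replaced by the regular one (`v2_uniq`).
-/

set_option autoImplicit false

open Finset

namespace Pool.Agent.NQF

open Pool.Agent.NQ (board dsum F Ent Dg phi ln Q Qset QS NonAtt bern)
open Pool.Agent.NQR (Adm Opt Bd Rf hS hD hh InR)
open Pool.Agent.NQL

theorem ind_up (K lam : ℝ) (hK : 1 ≤ K) (hl : 0 < lam) (hl1 : lam ≤ 1) : ∃ (C : ℝ) (mX : ℕ), 1 ≤ C ∧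
    2 ≤ mX ∧ ∀ (m0 N : ℕ) (G : ℕ → Finset Li → Prop) (E0 : ℝ), mX ≤ m0 →
      (∀ m I, m0 ≤ m → m ≤ N → G m I → Vd N m I ∧ ∃ z : Li → ℝ, Reg K lam N m I z) →
      (∀ I z, G m0 I → Reg K lam N m0 I z → zz N m0 I ≤ Real.exp (V2 N m0 I z + E0)) →
      ∀ m : ℕ, m0 ≤ m → m ≤ N → ∀ (I : Finset Li) (z : Li → ℝ), G m I → St N I z →
        zu G m0 N m I ≤ Real.exp (V2 N m I z + C * ∑ j ∈ Finset.Ioc m0 m, 1 / (j : ℝ) ^ 2 + E0) := by
  classical
  obtain ⟨C0, mA, hC0, hmA, hxi⟩ := v2_step K lam hK hl hl1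
  obtain ⟨C1, hC1, hnor⟩ := nor2 (lam := lam) hK hC0
  refine ⟨C1, max mA ⌈16 * C0⌉₊, hC1, le_trans hmA (le_max_left _ _), ?_⟩
  intro m0 N G E0 hm0 hG hbase m hm
  have hmA0 : mA ≤ m0 := le_trans (le_max_left _ _) hm0
  have h1 : 1 ≤ m0 := by omega
  have h16 : 16 * C0 ≤ (m0 : ℝ) :=
    (Nat.le_ceil _).trans (by exact_mod_cast le_trans (le_max_right _ _) hm0)
  induction m, hm using Nat.le_induction with
  | base =>
    intro hmN I z hGI hst
    obtain ⟨hv, z', hR'⟩ := hG m0 I le_rfl hmN hGI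
    rw [← v2_uniq m0 hst hR'.st, Finset.Ioc_self, Finset.sum_empty, mul_zero, add_zero]
    have hzu : zu G m0 N m0 I = zz N m0 I := by
      obtain ⟨n, hn⟩ := Nat.exists_eq_succ_of_ne_zero (by omega : m0 ≠ 0)
      have hd : zu G m0 N (n + 1) I = if G (n + 1) I then
        (if n + 1 ≤ m0 then zz N (n + 1) I else (∑ e ∈ Sq N I, zu G m0 N n (rm I e)) / (n + 1))
        else 0 := rfl
      have hn' : n + 1 = m0 := hn.symm
      have hd' := hd
      rw [if_pos (by rw [hn']; exact hGI), if_pos (by omega)] at hd'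
      rw [hn'] at hd'
      exact hd'
    rw [hzu]
    exact hbase I z' hGI hR'
  | succ n hn ih =>
    intro hmN I z₀ hGI hst
    have hn1 : 1 ≤ n := h1.trans hn
    obtain ⟨hv, z, hR⟩ := hG (n + 1) I (by omega) hmN hGI
    rw [← v2_uniq (n + 1) hst hR.st]
    obtain ⟨ξ, hξ1, hξ4, hξ2⟩ := hxi N (n + 1) I z (by omega) hv hR
    have hm16 : 16 * C0 ≤ ((n + 1 : ℕ) : ℝ) := h16.trans (by exact_mod_cast (by omega : m0 ≤ n + 1))
    obtain ⟨-, -, -, hup⟩ := hnor N (n + 1) I z ξ hm16 hv hR hξ1 hξ4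
    have hm0' : (0 : ℝ) < ((n + 1 : ℕ) : ℝ) := by positivity
    obtain ⟨S, hS⟩ : ∃ S : ℝ, S = C1 * ∑ j ∈ Finset.Ioc m0 n, 1 / (j : ℝ) ^ 2 := ⟨_, rfl⟩
    have hzu : zu G m0 N (n + 1) I = (∑ e ∈ Sq N I, zu G m0 N n (rm I e)) / (n + 1) := by
      have hd : zu G m0 N (n + 1) I = if G (n + 1) I then
        (if n + 1 ≤ m0 then zz N (n + 1) I else (∑ e ∈ Sq N I, zu G m0 N n (rm I e)) / (n + 1))
        else 0 := rfl
      rw [hd, if_pos hGI, if_neg (by omega)]
    have hterm : ∀ e ∈ Sq N I, zu G m0 N n (rm I e) ≤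
        Real.exp (V2 N (n + 1) I z + S + E0) *
          (wt z e * Real.exp (ξ e + C0 / ((n + 1 : ℕ) : ℝ) ^ 2)) := by
      intro e he
      by_cases hg : G n (rm I e)
      · obtain ⟨hv', z', hR'⟩ := hG n (rm I e) hn (by omega) hg
        have h2 := ih (by omega) (rm I e) z' hg hR'.st
        rw [← hS] at h2
        have h3 := hξ2 e he z' hR'.st
        rw [Nat.add_sub_cancel] at h3
        have h4 := (abs_le.1 h3).2
        refine h2.trans ?_
        unfold wt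
        rw [← Real.exp_add, ← Real.exp_add]
        refine Real.exp_le_exp.2 ?_
        linarith
      · have h4 : zu G m0 N n (rm I e) = 0 := by
          obtain ⟨n', hn'⟩ := Nat.exists_eq_succ_of_ne_zero (by omega : n ≠ 0)
          have hd : zu G m0 N (n' + 1) (rm I e) = if G (n' + 1) (rm I e) then
            (if n' + 1 ≤ m0 then zz N (n' + 1) (rm I e) else
              (∑ e' ∈ Sq N (rm I e), zu G m0 N n' (rm (rm I e) e')) / (n' + 1)) else 0 := rfl
          have hn2 : n' + 1 = n := hn'.symm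
          rw [hn2] at hd
          rw [hd, if_neg hg]
        rw [h4]
        unfold wt
        positivity
    have hsum : zu G m0 N (n + 1) I ≤ Real.exp (V2 N (n + 1) I z + S + E0) *
        ∑ e ∈ Sq N I, wt z e / ((n + 1 : ℕ) : ℝ) * Real.exp (ξ e + C0 / ((n + 1 : ℕ) : ℝ) ^ 2) := by
      rw [hzu]
      have h5 := Finset.sum_le_sum hterm
      rw [← Finset.mul_sum] at h5
      have h6 : (∑ e ∈ Sq N I, zu G m0 N n (rm I e)) / ((n : ℝ) + 1) ≤
          (Real.exp (V2 N (n + 1) I z + S + E0) * ∑ e ∈ Sq N I,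
            wt z e * Real.exp (ξ e + C0 / ((n + 1 : ℕ) : ℝ) ^ 2)) / ((n : ℝ) + 1) :=
        div_le_div_of_nonneg_right h5 (by positivity)
      refine h6.trans (le_of_eq ?_)
      rw [mul_div_assoc, Finset.sum_div]
      congr 1
      refine Finset.sum_congr rfl fun e _ => ?_
      push_cast
      ring
    refine hsum.trans ?_
    have h7 : C1 * ∑ j ∈ Finset.Ioc m0 (n + 1), 1 / (j : ℝ) ^ 2 =
        S + C1 / ((n + 1 : ℕ) : ℝ) ^ 2 := by
      rw [Finset.sum_Ioc_succ_top hn, mul_add, hS]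
      ring
    rw [h7]
    calc Real.exp (V2 N (n + 1) I z + S + E0) *
        ∑ e ∈ Sq N I, wt z e / ((n + 1 : ℕ) : ℝ) * Real.exp (ξ e + C0 / ((n + 1 : ℕ) : ℝ) ^ 2)
        ≤ Real.exp (V2 N (n + 1) I z + S + E0) *
          Real.exp (C1 / ((n + 1 : ℕ) : ℝ) ^ 2) :=
          mul_le_mul_of_nonneg_left hup (Real.exp_pos _).le
      _ = Real.exp (V2 N (n + 1) I z + S + E0 + C1 / ((n + 1 : ℕ) : ℝ) ^ 2) := by
          rw [← Real.exp_add]
      _ ≤ _ := Real.exp_le_exp.2 (by linarith)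

end Pool.Agent.NQF
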