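import Pool.Agent.NQF.RDef
import Pool.Agent.NQF.RLs
import Pool.Agent.NQL.ABas
import Pool.Agent.NQL.AVal
import Pool.Agent.NQL.DCnt

/-!
# NQF-RLkA: instances without common diagonals: basic facts

Rows and columns of the instance, the weights of the diagonals (each contains at most one free square), row and column sums,
and placements as perfect matchings.
-/

set_option autoImplicit false

open Finset

namespace Pool.Agent.NQF

open Pool.Agent.NQ (board dsum F Ent Dg phi ln Q Qset QS NonAtt bern)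
open Pool.Agent.NQR (Adm Opt Bd Rf hS hD hh InR)
open Pool.Agent.NQL

private theorem mem_Rw {I : Finset Li} {x : ℤ} : x ∈ Rw I ↔ ((0, x) : Li) ∈ I := by
  unfold Rw
  rw [mem_image]
  constructor
  · rintro ⟨l, hl, rfl⟩
    have h1 := mem_filter.1 hl
    have h2 : ((0, l.2) : Li) = l := Prod.ext h1.2.symm rfl
    rw [h2]
    exact h1.1
  · intro h
    exact ⟨(0, x), mem_filter.2 ⟨h, rfl⟩, rfl⟩

private theorem mem_Cw {I : Finset Li} {x : ℤ} : x ∈ Cw I ↔ ((1, x) : Li) ∈ I := by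
  unfold Cw
  rw [mem_image]
  constructor
  · rintro ⟨l, hl, rfl⟩
    have h1 := mem_filter.1 hl
    have h2 : ((1, l.2) : Li) = l := Prod.ext h1.2.symm rfl
    rw [h2]
    exact h1.1
  · intro h
    exact ⟨(1, x), mem_filter.2 ⟨h, rfl⟩, rfl⟩

private theorem card_Rw {N m : ℕ} {I : Finset Li} (hv : Vd N m I) : (Rw I).card = m := by
  unfold Rw
  rw [card_image_of_injOn, hv.crc 0 (by decide)]
  intro a ha b hb hab
  have h1 := (mem_filter.1 ha).2
  have h2 := (mem_filter.1 hb).2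
  exact Prod.ext (h1.trans h2.symm) hab

private theorem card_Cw {N m : ℕ} {I : Finset Li} (hv : Vd N m I) : (Cw I).card = m := by
  unfold Cw
  rw [card_image_of_injOn, hv.crc 1 (by decide)]
  intro a ha b hb hab
  have h1 := (mem_filter.1 ha).2
  have h2 := (mem_filter.1 hb).2
  exact Prod.ext (h1.trans h2.symm) hab

private theorem sq_Rw {N : ℕ} {I : Finset Li} {e : ℤ × ℤ} (he : e ∈ Sq N I) : e.1 ∈ Rw I ∧ e.2 ∈ Cw I :=
  ⟨mem_Rw.2 ((mem_Sq.1 he).2 0), mem_Cw.2 ((mem_Sq.1 he).2 1)⟩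

private theorem sl_one {N : ℕ} {I : Finset Li} (hs : ∀ l ∈ I, ¬ rc l → (Sl N I l).card ≤ 1) {e f : ℤ × ℤ}
    (he : e ∈ Sq N I) (hf : f ∈ Sq N I) {k : Fin 4} (hk : 2 ≤ (k : ℕ)) (h : ln k e = ln k f) : e = f := by
  have h1 := hs (k, ln k e) ((mem_Sq.1 he).2 k) (by
    intro hrc
    have h2 : (k : ℕ) < 2 := hrc
    omega)
  rw [card_le_one] at h1
  exact h1 e (mem_Sl.2 ⟨he, rfl⟩) f (mem_Sl.2 ⟨hf, h.symm⟩)

private theorem sum_row {N : ℕ} {I : Finset Li} (f : ℤ × ℤ → ℝ) (x : ℤ) :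
    ∑ y ∈ Cw I, (if (x, y) ∈ Sq N I then f (x, y) else 0) = ∑ e ∈ Sl N I (0, x), f e := by
  rw [← sum_filter]
  refine sum_nbij' (fun y => (x, y)) (fun e => e.2) ?_ ?_ ?_ ?_ ?_
  · intro y hy
    exact mem_Sl.2 ⟨(mem_filter.1 hy).2, rfl⟩
  · intro e he
    have h1 := mem_Sl.1 he
    have h2 : e.1 = x := h1.2
    refine mem_filter.2 ⟨(sq_Rw h1.1).2, ?_⟩
    rw [← h2]
    exact h1.1
  · intro y _
    rfl
  · intro e he
    have h2 : e.1 = x := (mem_Sl.1 he).2
    exact Prod.ext h2.symm rfl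
  · intro y _
    rfl

private theorem sum_col {N : ℕ} {I : Finset Li} (f : ℤ × ℤ → ℝ) (y : ℤ) :
    ∑ x ∈ Rw I, (if (x, y) ∈ Sq N I then f (x, y) else 0) = ∑ e ∈ Sl N I (1, y), f e := by
  rw [← sum_filter]
  refine sum_nbij' (fun x => (x, y)) (fun e => e.1) ?_ ?_ ?_ ?_ ?_
  · intro x hx
    exact mem_Sl.2 ⟨(mem_filter.1 hx).2, rfl⟩
  · intro e he
    have h1 := mem_Sl.1 he
    have h2 : e.2 = y := h1.2
    refine mem_filter.2 ⟨(sq_Rw h1.1).1, ?_⟩
    rw [← h2]
    exact h1.1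
  · intro x _
    rfl
  · intro e he
    have h2 : e.2 = y := (mem_Sl.1 he).2
    exact Prod.ext rfl h2.symm
  · intro x _
    rfl

private theorem mem_Pl_iff {N m : ℕ} {I : Finset Li} {P : Finset (ℤ × ℤ)} :
    P ∈ Pl N m I ↔ P ⊆ Sq N I ∧ P.card = m ∧ NonAtt P := by
  classical
  unfold Pl
  rw [mem_filter, mem_powersetCard, and_assoc]

theorem lk_bas {K lam c : ℝ} {N m : ℕ} {I : Finset Li} {z : Li → ℝ} (hK : 1 ≤ K) (hm : 4 * K ≤ m)
    (h : Lk K lam c N m I z) :
    (Rw I).card = m ∧ (Cw I).card = m ∧ (∀ x, x ∈ Rw I ↔ ((0, x) : Li) ∈ I) ∧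
    (∀ y, y ∈ Cw I ↔ ((1, y) : Li) ∈ I) ∧
    (∀ e ∈ Sq N I, e.1 ∈ Rw I ∧ e.2 ∈ Cw I ∧ 0 < wt z e ∧ wt z e ≤ 1 / 4 ∧
      wt z e = Real.exp (z (0, e.1) + z (1, e.2)) * (1 - wt z e) ^ 2 ∧
      Real.exp (z (2, e.1 + e.2)) = 1 - wt z e ∧ Real.exp (z (3, e.1 - e.2)) = 1 - wt z e) ∧
    (∀ l ∈ I, ¬ rc l → Sl N I l = ∅ → z l = 0) ∧
    (∀ x ∈ Rw I, ∑ y ∈ Cw I, (if (x, y) ∈ Sq N I then wt z (x, y) else 0) = 1) ∧
    (∀ y ∈ Cw I, ∑ x ∈ Rw I, (if (x, y) ∈ Sq N I then wt z (x, y) else 0) = 1) := by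
  have hm0 : (0 : ℝ) < m := by linarith
  refine ⟨card_Rw h.vd, card_Cw h.vd, fun x => mem_Rw, fun y => mem_Cw, ?_, ?_, ?_, ?_⟩
  · intro e he
    have hw0 : 0 < wt z e := Real.exp_pos _
    have hw1 : wt z e ≤ 1 / 4 := by
      refine (h.reg.up e he).trans ?_
      rw [div_le_iff₀ hm0]
      linarith
    have hk : ∀ k : Fin 4, 2 ≤ (k : ℕ) → Real.exp (z (k, ln k e)) = 1 - wt z e := by
      intro k hk
      have hl := (mem_Sq.1 he).2 k
      have hrc : ¬ rc ((k, ln k e) : Li) := by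
        intro h1
        have h2 : (k : ℕ) < 2 := h1
        omega
      have h1 := (mass_dg h.reg.st hl).2.2.1 hrc
      have h2 : Sl N I (k, ln k e) = {e} := by
        ext f
        rw [mem_singleton]
        constructor
        · intro hf
          have h3 := mem_Sl.1 hf
          exact sl_one h.sma h3.1 he hk h3.2
        · rintro rfl
          exact mem_Sl.2 ⟨he, rfl⟩
      rw [h2, sum_singleton] at h1
      linarith
    have h2 := hk 2 (by decide)
    have h3 := hk 3 (by decide)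
    rw [Pool.Agent.NQ.ln_two] at h2
    rw [Pool.Agent.NQ.ln_three] at h3
    refine ⟨(sq_Rw he).1, (sq_Rw he).2, hw0, hw1, ?_, h2, h3⟩
    have h4 : wt z e = Real.exp (z (0, e.1) + z (1, e.2)) * Real.exp (z (2, e.1 + e.2)) *
        Real.exp (z (3, e.1 - e.2)) := by
      rw [← Real.exp_add, ← Real.exp_add]
      unfold wt ds
      rw [Fin.sum_univ_four]
      rfl
    rw [h2, h3] at h4
    calc wt z e = Real.exp (z (0, e.1) + z (1, e.2)) * (1 - wt z e) * (1 - wt z e) := h4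
      _ = _ := by ring
  · intro l hl hrc hemp
    have h1 := (mass_dg h.reg.st hl).2.2.1 hrc
    rw [hemp, sum_empty] at h1
    have h2 : Real.exp (z l) = 1 := by linarith
    exact Real.exp_eq_one_iff _ |>.1 h2
  · intro x hx
    rw [sum_row]
    exact (mass_dg h.reg.st (mem_Rw.1 hx)).2.2.2 (by show ((0 : Fin 4) : ℕ) < 2; decide)
  · intro y hy
    rw [sum_col]
    exact (mass_dg h.reg.st (mem_Cw.1 hy)).2.2.2 (by show ((1 : Fin 4) : ℕ) < 2; decide)

theorem zz_pe {N m : ℕ} {I : Finset Li} (hv : Vd N m I) (hs : ∀ l ∈ I, ¬ rc l → (Sl N I l).card ≤ 1) :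
    zz N m I = pe (fun e => if e ∈ Sq N I then 1 else 0) (Rw I) (Cw I) := by
  classical
  have key : ((Rw I ×ˢ Cw I).powerset.filter (fun s => PM s (Rw I) (Cw I))).filter
      (fun s => ∀ e ∈ s, e ∈ Sq N I) = Pl N m I := by
    ext s
    rw [mem_filter, mem_filter, mem_powerset, mem_Pl_iff]
    constructor
    · rintro ⟨⟨h1, h2⟩, h3⟩
      have inj1 : ∀ e ∈ s, ∀ f ∈ s, e.1 = f.1 → e = f := by
        intro e he f hf hef
        obtain ⟨y, _, hy⟩ := h2.1 e.1 (mem_product.1 (h1 he)).1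
        have h4 := hy e.2 he
        have h5 := hy f.2 (by
          show (e.1, f.2) ∈ s
          rw [hef]
          exact hf)
        exact Prod.ext hef (h4.trans h5.symm)
      have inj2 : ∀ e ∈ s, ∀ f ∈ s, e.2 = f.2 → e = f := by
        intro e he f hf hef
        obtain ⟨x, _, hx⟩ := h2.2 e.2 (mem_product.1 (h1 he)).2
        have h4 := hx e.1 he
        have h5 := hx f.1 (by
          show (f.1, e.2) ∈ s
          rw [hef]
          exact hf)
        exact Prod.ext (h4.trans h5.symm) hef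
      refine ⟨fun e he => h3 e he, ?_, ?_⟩
      · have h4 : s.image Prod.fst = Rw I := by
          ext x
          rw [mem_image]
          constructor
          · rintro ⟨e, he, rfl⟩
            exact (mem_product.1 (h1 he)).1
          · intro hx
            obtain ⟨y, hy, _⟩ := h2.1 x hx
            exact ⟨(x, y), hy, rfl⟩
        rw [← card_Rw hv, ← h4, card_image_of_injOn]
        intro e he f hf hef
        exact inj1 e he f hf hef
      · intro e he f hf hef k hk
        by_cases hk2 : 2 ≤ (k : ℕ)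
        · exact hef (sl_one hs (h3 e he) (h3 f hf) hk2 hk)
        · have hk3 : k = 0 ∨ k = 1 := by
            rcases k with ⟨k, hk4⟩
            simp only [Fin.ext_iff, Fin.val_zero, Fin.val_one] at *
            omega
          rcases hk3 with rfl | rfl
          · exact hef (inj1 e he f hf hk)
          · exact hef (inj2 e he f hf hk)
    · rintro ⟨h1, h2, h3⟩
      have inj1 : Set.InjOn Prod.fst (s : Set (ℤ × ℤ)) := by
        intro e he f hf hef
        by_contra hne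
        exact h3 e he f hf hne 0 hef
      have inj2 : Set.InjOn Prod.snd (s : Set (ℤ × ℤ)) := by
        intro e he f hf hef
        by_contra hne
        exact h3 e he f hf hne 1 hef
      have im1 : s.image Prod.fst = Rw I := by
        refine eq_of_subset_of_card_le ?_ ?_
        · intro x hx
          obtain ⟨e, he, rfl⟩ := mem_image.1 hx
          exact (sq_Rw (h1 he)).1
        · rw [card_image_of_injOn inj1, h2, card_Rw hv]
      have im2 : s.image Prod.snd = Cw I := by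
        refine eq_of_subset_of_card_le ?_ ?_
        · intro x hx
          obtain ⟨e, he, rfl⟩ := mem_image.1 hx
          exact (sq_Rw (h1 he)).2
        · rw [card_image_of_injOn inj2, h2, card_Cw hv]
      refine ⟨⟨fun e he => mem_product.2 ⟨(sq_Rw (h1 he)).1, (sq_Rw (h1 he)).2⟩, ?_, ?_⟩,
        fun e he => h1 he⟩
      · intro x hx
        rw [← im1] at hx
        obtain ⟨e, he, rfl⟩ := mem_image.1 hx
        refine ⟨e.2, he, fun y hy => ?_⟩
        exact (congrArg Prod.snd (inj1 hy he rfl) : y = e.2)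
      · intro y hy
        rw [← im2] at hy
        obtain ⟨e, he, rfl⟩ := mem_image.1 hy
        refine ⟨e.1, he, fun x hx => ?_⟩
        exact (congrArg Prod.fst (inj2 hx he rfl) : x = e.1)
  rw [zz_card, ← key]
  unfold pe
  rw [card_filter]
  push_cast
  refine sum_congr ?_ fun s _ => ?_
  · ext s
    simp only [mem_filter]
  · rw [prod_ite_zero, prod_const_one]

theorem sum_sq_rc {N m : ℕ} {I : Finset Li} (hv : Vd N m I) (f : ℤ × ℤ → ℝ) :
    ∑ e ∈ Sq N I, f e = ∑ x ∈ Rw I, ∑ y ∈ Cw I, (if (x, y) ∈ Sq N I then f (x, y) else 0) := by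
  have h1 : ∑ x ∈ Rw I, ∑ y ∈ Cw I, (if (x, y) ∈ Sq N I then f (x, y) else 0) =
      ∑ e ∈ Rw I ×ˢ Cw I, (if e ∈ Sq N I then f e else 0) :=
    (sum_product (Rw I) (Cw I) (fun e => if e ∈ Sq N I then f e else 0)).symm
  rw [h1, ← sum_filter]
  refine sum_congr ?_ fun _ _ => rfl
  ext e
  rw [mem_filter, mem_product]
  exact ⟨fun h => ⟨sq_Rw h, h⟩, fun h => h.2⟩

end Pool.Agent.NQF
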