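import Pool.Agent.NQF.RDef
import Pool.Agent.NQF.RLkA

/-!
# NQF-RLkB: instances without common diagonals: scaling to a doubly stochastic matrix

PLAN. `X = Xh N I z` on `Rw × Cw`: `X e = wt/(1 - wt)² ≤ 4 K/m`, `|X e - wt| ≤ 4 wt²` for `wt ≤ 1/4` (`lk_bas`), so row and column sums are within `4K/m` of `1` (`∑ wt² ≤ (K/m) ∑ wt = K/m`, with `4` instead of `1`); codegrees `≥ c/m` because `X ≥ wt` on `Sq N I` (the sum over `y ∈ Ico 0 N` in `Lk.gr` is a sum over
`Cw I`: a free square `(x,y)` has `y ∈ Cw I`). `Scal` with `4K`, `c`, `tau = 4K/m ≤ tau0` for large `m`. Last part: `zz_pe`; `pe` is multiplicative under scaling (each row and each column is used exactly once by a perfect matching): indicator `= X · exp (-z(0,x) - z(1,y))` on `Sq N I`.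
-/

set_option autoImplicit false

open Finset

namespace Pool.Agent.NQF

open Pool.Agent.NQ (board dsum F Ent Dg phi ln Q Qset QS NonAtt bern)
open Pool.Agent.NQR (Adm Opt Bd Rf hS hD hh InR)
open Pool.Agent.NQL

private theorem pm_sum {s : Finset (ℤ × ℤ)} {R C : Finset ℤ} (hs : s ⊆ R ×ˢ C) (h : PM s R C)
    (a b : ℤ → ℝ) : ∑ e ∈ s, (a e.1 + b e.2) = ∑ x ∈ R, a x + ∑ y ∈ C, b y := by
  rw [Finset.sum_add_distrib]
  congr 1
  · refine Finset.sum_bij (fun e _ => e.1) (fun e he => (Finset.mem_product.1 (hs he)).1) ?_ ?_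
      (fun _ _ => rfl)
    · rintro ⟨x, y⟩ h1 ⟨x', y'⟩ h2 hxx
      simp only at hxx
      subst hxx
      have hx := (Finset.mem_product.1 (hs h1)).1
      exact Prod.ext rfl ((h.1 x hx).unique h1 h2)
    · intro x hx
      obtain ⟨y, hy, _⟩ := h.1 x hx
      exact ⟨(x, y), hy, rfl⟩
  · refine Finset.sum_bij (fun e _ => e.2) (fun e he => (Finset.mem_product.1 (hs he)).2) ?_ ?_
      (fun _ _ => rfl)
    · rintro ⟨x, y⟩ h1 ⟨x', y'⟩ h2 hxx
      simp only at hxx
      subst hxx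
      have hy := (Finset.mem_product.1 (hs h1)).2
      exact Prod.ext ((h.2 y hy).unique h1 h2) rfl
    · intro y hy
      obtain ⟨x, hx, _⟩ := h.2 y hy
      exact ⟨(x, y), hx, rfl⟩

private theorem pe_scale {X Y : ℤ × ℤ → ℝ} {R C : Finset ℤ} {a b : ℤ → ℝ}
    (hXY : ∀ x ∈ R, ∀ y ∈ C, Y (x, y) = X (x, y) * Real.exp (a x + b y)) :
    pe Y R C = Real.exp (∑ x ∈ R, a x + ∑ y ∈ C, b y) * pe X R C := by
  classical
  unfold pe
  rw [Finset.mul_sum]
  refine Finset.sum_congr rfl fun s hs => ?_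
  obtain ⟨hs1, hs2⟩ := Finset.mem_filter.1 hs
  have hs3 := Finset.mem_powerset.1 hs1
  rw [← pm_sum hs3 hs2 a b, Real.exp_sum, ← Finset.prod_mul_distrib]
  refine Finset.prod_congr rfl fun e he => ?_
  obtain ⟨hx, hy⟩ := Finset.mem_product.1 (hs3 he)
  rw [mul_comm]
  exact hXY e.1 hx e.2 hy

/-- `x = w/(1-w)²` is close to `w` -/
private theorem xw {w x : ℝ} (h0 : 0 < w) (h1 : w ≤ 1 / 4) (h : w = x * (1 - w) ^ 2) :
    w ≤ x ∧ x ≤ 4 * w ∧ x - w ≤ 4 * w ^ 2 := by
  have h2 : 9 / 16 ≤ (1 - w) ^ 2 := by nlinarith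
  have h3 : (1 - w) ^ 2 ≤ 1 := by nlinarith
  have hx : 0 ≤ x := by
    by_contra hc
    push Not at hc
    have : x * (1 - w) ^ 2 < 0 := mul_neg_of_neg_of_pos hc (by linarith)
    linarith
  have h4 : w ≤ x := by
    have := mul_le_mul_of_nonneg_left h3 hx
    linarith
  have h5 : x * (9 / 16) ≤ w := by
    have := mul_le_mul_of_nonneg_left h2 hx
    linarith
  refine ⟨h4, by linarith, ?_⟩
  have h6 : x - w = x * (w * (2 - w)) := by
    have h7 : x - x * (1 - w) ^ 2 = x * (w * (2 - w)) := by ring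
    rw [← h] at h7
    exact h7
  rw [h6]
  have h8 : x * (w * (2 - w)) ≤ x * (w * 2) := by
    apply mul_le_mul_of_nonneg_left _ hx
    exact mul_le_mul_of_nonneg_left (by linarith) h0.le
  have h9 : x * (w * 2) ≤ (16 / 9 * w) * (w * 2) := by
    apply mul_le_mul_of_nonneg_right _ (by positivity)
    linarith
  nlinarith

theorem lk_scal (hS : Scal) (K lam c : ℝ) (hK : 1 ≤ K) (hc : 0 < c) : ∃ (C : ℝ) (m0 : ℕ), 1 ≤ C ∧ 1 ≤ m0 ∧
    ∀ (N m : ℕ) (I : Finset Li) (z : Li → ℝ), m0 ≤ m → Lk K lam c N m I z → ∃ u v : ℤ → ℝ,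
      (∀ x ∈ Rw I, |u x| ≤ C / m) ∧ (∀ y ∈ Cw I, |v y| ≤ C / m) ∧
      Ds (8 * K) (c / 2) m (fun e => Xh N I z e * Real.exp (u e.1 + v e.2)) (Rw I) (Cw I) ∧
      zz N m I = Real.exp (-(∑ x ∈ Rw I, (z (0, x) + u x)) - ∑ y ∈ Cw I, (z (1, y) + v y)) *
        pe (fun e => Xh N I z e * Real.exp (u e.1 + v e.2)) (Rw I) (Cw I) := by
  obtain ⟨C, tau0, m0, hC, htau0, hm0, H⟩ := hS (4 * K) c (by linarith) hc
  obtain ⟨m1, hm1⟩ := exists_nat_ge (4 * K)
  obtain ⟨m2, hm2⟩ := exists_nat_ge (4 * K / tau0)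
  refine ⟨4 * K * C, max m0 (max m1 m2), by nlinarith, le_max_of_le_left hm0, ?_⟩
  intro N m I z hm h
  have hmm0 : m0 ≤ m := (le_max_left _ _).trans hm
  have hmm1 : m1 ≤ m := ((le_max_left _ _).trans (le_max_right _ _)).trans hm
  have hmm2 : m2 ≤ m := ((le_max_right _ _).trans (le_max_right _ _)).trans hm
  have hmK : 4 * K ≤ m := hm1.trans (by exact_mod_cast hmm1)
  have hmp : (0 : ℝ) < m := by linarith
  obtain ⟨bR, bC, mR, mC, hfree, -, hrow, hcol⟩ := lk_bas hK hmK h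
  have htau : 4 * K / m ≤ tau0 := by
    have h1 : 4 * K / tau0 ≤ m := hm2.trans (by exact_mod_cast hmm2)
    rw [div_le_iff₀ htau0] at h1
    rw [div_le_iff₀ hmp]
    linarith
  have hX1 : ∀ e ∈ Sq N I, wt z e ≤ Xh N I z e ∧ Xh N I z e ≤ 4 * wt z e ∧
      Xh N I z e - wt z e ≤ 4 * wt z e ^ 2 := by
    intro e he
    obtain ⟨-, -, h0, h1, h2, -, -⟩ := hfree e he
    have h3 : Xh N I z e = Real.exp (z (0, e.1) + z (1, e.2)) := by
      unfold Xh
      rw [if_pos he]
    rw [h3]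
    exact xw h0 h1 h2
  have hX0 : ∀ e, e ∉ Sq N I → Xh N I z e = 0 := by
    intro e he
    unfold Xh
    rw [if_neg he]
  have hXn : ∀ e, 0 ≤ Xh N I z e := by
    intro e
    unfold Xh
    split_ifs
    · exact (Real.exp_pos _).le
    · exact le_rfl
  have hXu : ∀ e, Xh N I z e ≤ 4 * K / m := by
    intro e
    by_cases he : e ∈ Sq N I
    · have h1 := (hX1 e he).2.1
      have h2 := h.reg.up e he
      have h3 : 4 * K / m = 4 * (K / m) := by ring
      rw [h3]
      linarith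
    · rw [hX0 e he]
      positivity
  have hXd : ∀ e, |Xh N I z e - (if e ∈ Sq N I then wt z e else 0)| ≤
      4 * K / m * (if e ∈ Sq N I then wt z e else 0) := by
    intro e
    by_cases he : e ∈ Sq N I
    · rw [if_pos he]
      obtain ⟨h1, -, h2⟩ := hX1 e he
      rw [abs_of_nonneg (by linarith)]
      have h3 := h.reg.up e he
      have h4 := (hfree e he).2.2.1
      calc Xh N I z e - wt z e ≤ 4 * wt z e ^ 2 := h2
        _ = 4 * wt z e * wt z e := by ring
        _ ≤ 4 * (K / m) * wt z e := by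
            apply mul_le_mul_of_nonneg_right _ h4.le
            linarith
        _ = 4 * K / m * wt z e := by ring
    · rw [if_neg he, hX0 e he]
      simp
  have hrow' : ∀ x ∈ Rw I, |∑ y ∈ Cw I, Xh N I z (x, y) - 1| ≤ 4 * K / m := by
    intro x hx
    rw [← hrow x hx, ← Finset.sum_sub_distrib]
    refine (Finset.abs_sum_le_sum_abs _ _).trans ?_
    refine (Finset.sum_le_sum fun y _ => hXd (x, y)).trans ?_
    rw [← Finset.mul_sum, hrow x hx, mul_one]
  have hcol' : ∀ y ∈ Cw I, |∑ x ∈ Rw I, Xh N I z (x, y) - 1| ≤ 4 * K / m := by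
    intro y hy
    rw [← hcol y hy, ← Finset.sum_sub_distrib]
    refine (Finset.abs_sum_le_sum_abs _ _).trans ?_
    refine (Finset.sum_le_sum fun x _ => hXd (x, y)).trans ?_
    rw [← Finset.mul_sum, hcol y hy, mul_one]
  have hgr : ∀ x ∈ Rw I, ∀ x' ∈ Rw I, x ≠ x' →
      c / m ≤ ∑ y ∈ Cw I, Xh N I z (x, y) * Xh N I z (x', y) := by
    intro x hx x' hx' hne
    refine (h.gr x x' ((mR x).1 hx) ((mR x').1 hx') hne).trans ?_
    rw [← Finset.sum_filter]
    refine (Finset.sum_le_sum (g := fun y => Xh N I z (x, y) * Xh N I z (x', y))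
      fun y hy => ?_).trans ?_
    · obtain ⟨-, h1, h2⟩ := Finset.mem_filter.1 hy
      exact mul_le_mul (hX1 _ h1).1 (hX1 _ h2).1 (hfree _ h2).2.2.1.le (hXn _)
    · refine Finset.sum_le_sum_of_subset_of_nonneg ?_ fun y _ _ => mul_nonneg (hXn _) (hXn _)
      intro y hy
      obtain ⟨-, h1, h2⟩ := Finset.mem_filter.1 hy
      exact (hfree _ h1).2.1
  have hgc : ∀ y ∈ Cw I, ∀ y' ∈ Cw I, y ≠ y' →
      c / m ≤ ∑ x ∈ Rw I, Xh N I z (x, y) * Xh N I z (x, y') := by
    intro y hy y' hy' hne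
    refine (h.gc y y' ((mC y).1 hy) ((mC y').1 hy') hne).trans ?_
    rw [← Finset.sum_filter]
    refine (Finset.sum_le_sum (g := fun x => Xh N I z (x, y) * Xh N I z (x, y'))
      fun x hx => ?_).trans ?_
    · obtain ⟨-, h1, h2⟩ := Finset.mem_filter.1 hx
      exact mul_le_mul (hX1 _ h1).1 (hX1 _ h2).1 (hfree _ h2).2.2.1.le (hXn _)
    · refine Finset.sum_le_sum_of_subset_of_nonneg ?_ fun y _ _ => mul_nonneg (hXn _) (hXn _)
      intro x hx
      obtain ⟨-, h1, h2⟩ := Finset.mem_filter.1 hx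
      exact (hfree _ h1).1
  obtain ⟨u, v, hu, hv, hDs⟩ := H m (Rw I) (Cw I) (Xh N I z) (4 * K / m) hmm0 bR bC
    (by positivity) htau (fun x _ y _ => hXn _) (fun x _ y _ => hXu _) hrow' hcol' hgr hgc
  refine ⟨u, v, fun x hx => (hu x hx).trans (le_of_eq (by ring)),
    fun y hy => (hv y hy).trans (le_of_eq (by ring)), ?_, ?_⟩
  · have h1 : (2 : ℝ) * (4 * K) = 8 * K := by ring
    rw [h1] at hDs
    exact hDs
  · rw [zz_pe h.vd h.sma]
    have h1 := pe_scale (X := fun e => Xh N I z e * Real.exp (u e.1 + v e.2))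
      (Y := fun e => if e ∈ Sq N I then (1 : ℝ) else 0) (R := Rw I) (C := Cw I)
      (a := fun x => -(z (0, x) + u x)) (b := fun y => -(z (1, y) + v y)) (by
        intro x _ y _
        simp only
        by_cases he : (x, y) ∈ Sq N I
        · rw [if_pos he]
          unfold Xh
          rw [if_pos he, ← Real.exp_add, ← Real.exp_add]
          simp only
          rw [eq_comm, Real.exp_eq_one_iff]
          ring
        · rw [if_neg he, hX0 _ he, zero_mul, zero_mul])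
    rw [h1, Finset.sum_neg_distrib, Finset.sum_neg_distrib, ← sub_eq_add_neg]

end Pool.Agent.NQF
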