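import Pool.Agent.NQF.RDef
import Pool.Agent.NQF.RLkA

/-!
# NQF-RLkC: instances without common diagonals: sum of the scaling potentials

PLAN. `Y = X exp (u + v)` doubly stochastic, `t (x,y) = u x + v y`. Convexity: `X t ≤ X (exp t - 1) = Y - X` and `Y - X ≤ Y t`. Sums over `Rw × Cw`: `∑ Y t = ∑ u + ∑ v` (row and column sums one), `∑ X t = ∑ u x (row sum) + ∑ v y (column sum)`, row sums within `4K/m` of one: `|∑ X t - ∑ u - ∑ v| ≤ 2 m (C1/m)(4K/m)`.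
So `|∑ u + ∑ v - (m - ∑ X)| ≤ C/m`. `∑ X = ∑_{Sq} wt/(1 - wt)² = m + 2 ∑ wt² + O (∑ wt³)`, `∑ wt³ ≤ (K/m)² m` (`|1/(1-w)² - 1 - 2w| ≤ 8 w²` for `w ≤ 1/4`, `∑ wt = m` by the row sums).
-/

set_option autoImplicit false

open Finset

namespace Pool.Agent.NQF

open Pool.Agent.NQ (board dsum F Ent Dg phi ln Q Qset QS NonAtt bern)
open Pool.Agent.NQR (Adm Opt Bd Rf hS hD hh InR)
open Pool.Agent.NQL

private theorem pot_gen (R C : Finset ℤ) (X ρ : ℤ → ℤ → ℝ) (u v : ℤ → ℝ) {m K C1 : ℝ} (hm : 0 < m)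
    (hK : 1 ≤ K) (hC1 : 1 ≤ C1) (hR : (R.card : ℝ) = m)
    (h0 : ∀ x ∈ R, ∀ y ∈ C, 0 ≤ X x y) (hr0 : ∀ x ∈ R, ∀ y ∈ C, 0 ≤ ρ x y)
    (h1 : ∀ x ∈ R, ∀ y ∈ C, ρ x y ≤ X x y)
    (h2 : ∀ x ∈ R, ∀ y ∈ C, X x y ≤ ρ x y + 4 * (K / m) * ρ x y)
    (h3 : ∀ x ∈ R, ∀ y ∈ C, ρ x y + 2 * ρ x y ^ 2 ≤ X x y)
    (h4 : ∀ x ∈ R, ∀ y ∈ C, X x y ≤ ρ x y + 2 * ρ x y ^ 2 + 8 * (K / m) ^ 2 * ρ x y)
    (rr : ∀ x ∈ R, ∑ y ∈ C, ρ x y = 1) (rc : ∀ y ∈ C, ∑ x ∈ R, ρ x y = 1)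
    (Yr : ∀ x ∈ R, ∑ y ∈ C, X x y * Real.exp (u x + v y) = 1)
    (Yc : ∀ y ∈ C, ∑ x ∈ R, X x y * Real.exp (u x + v y) = 1)
    (hu : ∀ x ∈ R, |u x| ≤ C1 / m) (hv : ∀ y ∈ C, |v y| ≤ C1 / m) :
    |∑ x ∈ R, u x + ∑ y ∈ C, v y + 2 * ∑ x ∈ R, ∑ y ∈ C, ρ x y ^ 2| ≤
      (8 * K ^ 2 + 8 * K * C1) / m := by
  have hKm : 0 ≤ K / m := div_nonneg (by linarith) hm.le
  have split : ∀ g : ℤ → ℤ → ℝ, (∀ x ∈ R, ∑ y ∈ C, g x y = 1) → (∀ y ∈ C, ∑ x ∈ R, g x y = 1) →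
      ∑ x ∈ R, ∑ y ∈ C, g x y * (u x + v y) = ∑ x ∈ R, u x + ∑ y ∈ C, v y := by
    intro g g1 g2
    have e1 : ∑ x ∈ R, ∑ y ∈ C, g x y * (u x + v y) =
        ∑ x ∈ R, ∑ y ∈ C, g x y * u x + ∑ x ∈ R, ∑ y ∈ C, g x y * v y := by
      rw [← Finset.sum_add_distrib]
      refine Finset.sum_congr rfl fun x _ => ?_
      rw [← Finset.sum_add_distrib]
      exact Finset.sum_congr rfl fun y _ => by ring
    have e2 : ∑ x ∈ R, ∑ y ∈ C, g x y * u x = ∑ x ∈ R, u x := by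
      refine Finset.sum_congr rfl fun x hx => ?_
      rw [← Finset.sum_mul, g1 x hx, one_mul]
    have e3 : ∑ x ∈ R, ∑ y ∈ C, g x y * v y = ∑ y ∈ C, v y := by
      rw [Finset.sum_comm]
      refine Finset.sum_congr rfl fun y hy => ?_
      rw [← Finset.sum_mul, g2 y hy, one_mul]
    rw [e1, e2, e3]
  have tot : ∀ g : ℤ → ℤ → ℝ, (∀ x ∈ R, ∑ y ∈ C, g x y = 1) →
      ∑ x ∈ R, ∑ y ∈ C, g x y = m := by
    intro g g1
    rw [Finset.sum_congr rfl g1, Finset.sum_const, nsmul_eq_mul, mul_one, hR]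
  have hY := tot (fun x y => X x y * Real.exp (u x + v y)) Yr
  have hρ := tot ρ rr
  have sY := split (fun x y => X x y * Real.exp (u x + v y)) Yr Yc
  have sρ := split ρ rr rc
  -- (1)
  have a1 : ∑ x ∈ R, ∑ y ∈ C, X x y * (u x + v y) ≤
      ∑ x ∈ R, ∑ y ∈ C, (X x y * Real.exp (u x + v y) - X x y) := by
    refine Finset.sum_le_sum fun x hx => Finset.sum_le_sum fun y hy => ?_
    have e := Real.add_one_le_exp (u x + v y)
    have := mul_le_mul_of_nonneg_left e (h0 x hx y hy)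
    linarith
  have a2 : ∑ x ∈ R, ∑ y ∈ C, (X x y * Real.exp (u x + v y) - X x y) ≤
      ∑ x ∈ R, ∑ y ∈ C, X x y * Real.exp (u x + v y) * (u x + v y) := by
    refine Finset.sum_le_sum fun x hx => Finset.sum_le_sum fun y hy => ?_
    have e := Real.add_one_le_exp (-(u x + v y))
    have hp : 0 ≤ X x y * Real.exp (u x + v y) := mul_nonneg (h0 x hx y hy) (Real.exp_pos _).le
    have e2 := mul_le_mul_of_nonneg_left e hp
    have e3 : X x y * Real.exp (u x + v y) * Real.exp (-(u x + v y)) = X x y := by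
      rw [mul_assoc, ← Real.exp_add, add_neg_cancel, Real.exp_zero, mul_one]
    rw [e3] at e2
    linarith
  have a3 : ∑ x ∈ R, ∑ y ∈ C, (X x y * Real.exp (u x + v y) - X x y) =
      m - ∑ x ∈ R, ∑ y ∈ C, X x y := by
    rw [← hY, ← Finset.sum_sub_distrib]
    refine Finset.sum_congr rfl fun x _ => ?_
    rw [← Finset.sum_sub_distrib]
  have a4 : ∑ x ∈ R, ∑ y ∈ C, ρ x y * (u x + v y) - ∑ x ∈ R, ∑ y ∈ C, X x y * (u x + v y) ≤
      8 * K * C1 / m := by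
    have b1 : ∑ x ∈ R, ∑ y ∈ C, ρ x y * (u x + v y) - ∑ x ∈ R, ∑ y ∈ C, X x y * (u x + v y) =
        ∑ x ∈ R, ∑ y ∈ C, (ρ x y - X x y) * (u x + v y) := by
      rw [← Finset.sum_sub_distrib]
      refine Finset.sum_congr rfl fun x _ => ?_
      rw [← Finset.sum_sub_distrib]
      exact Finset.sum_congr rfl fun y _ => by ring
    have b2 : ∑ x ∈ R, ∑ y ∈ C, (ρ x y - X x y) * (u x + v y) ≤
        ∑ x ∈ R, ∑ y ∈ C, (4 * (K / m) * (2 * (C1 / m))) * ρ x y := by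
      refine Finset.sum_le_sum fun x hx => Finset.sum_le_sum fun y hy => ?_
      have c1 := abs_le.mp (hu x hx)
      have c2 := abs_le.mp (hv y hy)
      have c3 := h1 x hx y hy
      have c4 := h2 x hx y hy
      have c5 := hr0 x hx y hy
      have c6 : 0 ≤ C1 / m := div_nonneg (by linarith) hm.le
      have d1 : -(u x + v y) ≤ 2 * (C1 / m) := by linarith [c1.1, c2.1]
      have d2 : (X x y - ρ x y) * (-(u x + v y)) ≤ (X x y - ρ x y) * (2 * (C1 / m)) :=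
        mul_le_mul_of_nonneg_left d1 (by linarith)
      have d3 : (X x y - ρ x y) * (2 * (C1 / m)) ≤ (4 * (K / m) * ρ x y) * (2 * (C1 / m)) :=
        mul_le_mul_of_nonneg_right (by linarith) (by linarith)
      linarith
    have b3 : ∑ x ∈ R, ∑ y ∈ C, (4 * (K / m) * (2 * (C1 / m))) * ρ x y = 8 * K * C1 / m := by
      have : ∑ x ∈ R, ∑ y ∈ C, (4 * (K / m) * (2 * (C1 / m))) * ρ x y =
          (4 * (K / m) * (2 * (C1 / m))) * ∑ x ∈ R, ∑ y ∈ C, ρ x y := by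
        rw [Finset.mul_sum]
        exact Finset.sum_congr rfl fun x _ => by rw [Finset.mul_sum]
      rw [this, hρ]
      field_simp
      ring
    rw [b1]
    exact b2.trans (le_of_eq b3)
  have hX1 : ∑ x ∈ R, ∑ y ∈ C, ρ x y + 2 * ∑ x ∈ R, ∑ y ∈ C, ρ x y ^ 2 ≤
      ∑ x ∈ R, ∑ y ∈ C, X x y := by
    rw [Finset.mul_sum, ← Finset.sum_add_distrib]
    refine Finset.sum_le_sum fun x hx => ?_
    rw [Finset.mul_sum, ← Finset.sum_add_distrib]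
    exact Finset.sum_le_sum fun y hy => h3 x hx y hy
  have hX2 : ∑ x ∈ R, ∑ y ∈ C, X x y ≤ ∑ x ∈ R, ∑ y ∈ C, ρ x y +
      2 * ∑ x ∈ R, ∑ y ∈ C, ρ x y ^ 2 + 8 * (K / m) ^ 2 * ∑ x ∈ R, ∑ y ∈ C, ρ x y := by
    rw [Finset.mul_sum, Finset.mul_sum, ← Finset.sum_add_distrib, ← Finset.sum_add_distrib]
    refine Finset.sum_le_sum fun x hx => ?_
    rw [Finset.mul_sum, Finset.mul_sum, ← Finset.sum_add_distrib, ← Finset.sum_add_distrib]
    exact Finset.sum_le_sum fun y hy => h4 x hx y hy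
  rw [hρ] at hX1 hX2
  have e8 : 8 * (K / m) ^ 2 * m = 8 * K ^ 2 / m := by
    field_simp
  rw [e8] at hX2
  have e9 : (8 * K ^ 2 + 8 * K * C1) / m = 8 * K ^ 2 / m + 8 * K * C1 / m := add_div _ _ _
  have p1 : 0 ≤ 8 * K ^ 2 / m := by positivity
  have p2 : 0 ≤ 8 * K * C1 / m := by positivity
  rw [a3] at a1 a2
  have a2' := a2.trans (le_of_eq sY)
  rw [sρ] at a4
  rw [e9, abs_le]
  constructor <;> linarith

private theorem pt {w E k : ℝ} (h0 : 0 < w) (h1 : w ≤ 1 / 4) (hk : w ≤ k) (h : w = E * (1 - w) ^ 2) :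
    0 ≤ E ∧ w ≤ E ∧ E ≤ w + 4 * k * w ∧ w + 2 * w ^ 2 ≤ E ∧
      E ≤ w + 2 * w ^ 2 + 8 * k ^ 2 * w := by
  have hp : 0 < (1 - w) ^ 2 := by
    have : 0 < 1 - w := by linarith
    positivity
  have hE : E = w / (1 - w) ^ 2 := by
    rw [eq_div_iff hp.ne']
    exact h.symm
  have a1 : w + 2 * w ^ 2 ≤ E := by
    rw [hE, le_div_iff₀ hp]
    nlinarith [pow_pos h0 3, pow_pos h0 4]
  have a2 : E ≤ w + 2 * w ^ 2 + 8 * w ^ 3 := by
    rw [hE, div_le_iff₀ hp]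
    have h3 := pow_pos h0 3
    have h4 := pow_pos h0 4
    have h5 := pow_pos h0 5
    have e : (w + 2 * w ^ 2 + 8 * w ^ 3) * (1 - w) ^ 2 - w = w ^ 3 * (5 - 14 * w + 8 * w ^ 2) := by
      ring
    have : 0 ≤ w ^ 3 * (5 - 14 * w + 8 * w ^ 2) := by
      refine mul_nonneg h3.le ?_
      nlinarith
    linarith
  have hk0 : 0 < k := lt_of_lt_of_le h0 hk
  have b1 : w ^ 2 ≤ k ^ 2 := by
    have := mul_self_le_mul_self h0.le hk
    nlinarith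
  have b2 : w ^ 3 ≤ k ^ 2 * w := by
    have := mul_le_mul_of_nonneg_right b1 h0.le
    nlinarith
  have b3 : w ^ 3 ≤ 1 / 4 * w ^ 2 := by
    have := mul_le_mul_of_nonneg_right h1 (sq_nonneg w)
    nlinarith
  have b4 : w ^ 2 ≤ k * w := by
    have := mul_le_mul_of_nonneg_right hk h0.le
    nlinarith
  have w2 := sq_nonneg w
  refine ⟨by linarith, by linarith, ?_, a1, by linarith⟩
  linarith

theorem lk_pot (K lam c C1 : ℝ) (hK : 1 ≤ K) (hc : 0 < c) (hC1 : 1 ≤ C1) : ∃ (C : ℝ) (m0 : ℕ), 1 ≤ C ∧ 1 ≤ m0 ∧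
    ∀ (N m : ℕ) (I : Finset Li) (z : Li → ℝ) (u v : ℤ → ℝ), m0 ≤ m → Lk K lam c N m I z →
      (∀ x ∈ Rw I, |u x| ≤ C1 / m) → (∀ y ∈ Cw I, |v y| ≤ C1 / m) →
      Ds (8 * K) (c / 2) m (fun e => Xh N I z e * Real.exp (u e.1 + v e.2)) (Rw I) (Cw I) →
      |∑ x ∈ Rw I, u x + ∑ y ∈ Cw I, v y + 2 * ∑ e ∈ Sq N I, wt z e ^ 2| ≤ C / m := by
  refine ⟨8 * K ^ 2 + 8 * K * C1, ⌈4 * K⌉₊ + 1, by nlinarith, by omega, ?_⟩
  intro N m I z u v hm h hu hv hD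
  have hmK : 4 * K ≤ m := by
    have a1 := Nat.le_ceil (4 * K)
    have a2 : ((⌈4 * K⌉₊ : ℕ) : ℝ) ≤ (m : ℝ) := by
      exact_mod_cast (by omega : ⌈4 * K⌉₊ ≤ m)
    linarith
  have hm0 : (0 : ℝ) < m := by linarith
  obtain ⟨bR, bC, -, -, bS, -, bRow, bCol⟩ := lk_bas hK hmK h
  rw [sum_sq_rc h.vd (fun e => wt z e ^ 2)]
  have key : ∀ x y : ℤ, 0 ≤ Xh N I z (x, y) ∧
      0 ≤ (if (x, y) ∈ Sq N I then wt z (x, y) else 0) ∧
      (if (x, y) ∈ Sq N I then wt z (x, y) else 0) ≤ Xh N I z (x, y) ∧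
      Xh N I z (x, y) ≤ (if (x, y) ∈ Sq N I then wt z (x, y) else 0) +
        4 * (K / m) * (if (x, y) ∈ Sq N I then wt z (x, y) else 0) ∧
      (if (x, y) ∈ Sq N I then wt z (x, y) else 0) +
        2 * (if (x, y) ∈ Sq N I then wt z (x, y) else 0) ^ 2 ≤ Xh N I z (x, y) ∧
      Xh N I z (x, y) ≤ (if (x, y) ∈ Sq N I then wt z (x, y) else 0) +
        2 * (if (x, y) ∈ Sq N I then wt z (x, y) else 0) ^ 2 +
        8 * (K / m) ^ 2 * (if (x, y) ∈ Sq N I then wt z (x, y) else 0) := by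
    intro x y
    by_cases hs : (x, y) ∈ Sq N I
    · unfold Xh
      simp only [if_pos hs]
      obtain ⟨_, _, c1, c2, c3, _, _⟩ := bS (x, y) hs
      have p := pt c1 c2 (h.reg.up _ hs) c3
      exact ⟨p.1, c1.le, p.2.1, p.2.2.1, p.2.2.2.1, p.2.2.2.2⟩
    · unfold Xh
      simp only [if_neg hs]
      norm_num
  have hsq : ∑ x ∈ Rw I, ∑ y ∈ Cw I, (if (x, y) ∈ Sq N I then wt z (x, y) ^ 2 else 0) =
      ∑ x ∈ Rw I, ∑ y ∈ Cw I, (if (x, y) ∈ Sq N I then wt z (x, y) else 0) ^ 2 := by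
    refine Finset.sum_congr rfl fun x _ => Finset.sum_congr rfl fun y _ => ?_
    split_ifs
    · rfl
    · norm_num
  rw [hsq]
  exact pot_gen (Rw I) (Cw I) (fun x y => Xh N I z (x, y))
    (fun x y => if (x, y) ∈ Sq N I then wt z (x, y) else 0) u v hm0 hK hC1 (by rw [bR])
    (fun x _ y _ => (key x y).1) (fun x _ y _ => (key x y).2.1) (fun x _ y _ => (key x y).2.2.1)
    (fun x _ y _ => (key x y).2.2.2.1) (fun x _ y _ => (key x y).2.2.2.2.1)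
    (fun x _ y _ => (key x y).2.2.2.2.2) bRow bCol (fun x hx => hD.row x hx)
    (fun y hy => hD.col y hy) hu hv

end Pool.Agent.NQF
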