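import Pool.Agent.NQF.RDef
import Pool.Agent.NQF.RLkA
import Pool.Agent.NQL.ABas
import Pool.Agent.NQL.AVal

/-!
# NQF-RLkD: instances without common diagonals: value of the functional

PLAN. `Gf = ∑_{Sq} wt + ∑_{I, rc} (- z) + ∑_{I, diagonal} (exp z - z)`; `∑ wt = m` (`sum_wt`). A diagonal without free square contributes `1`, a diagonal with the free square `e` contributes `(1 - w) - log (1 - w)` (`lk_bas`); there are `2 (N + m - 1)` diagonals (`Vd.cdg`), each `e ∈ Sq N I` has two. So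
`Vf = - m - ∑_{Rw} z - ∑_{Cw} z + 2 ∑_{Sq} (- w - log (1 - w))`, and `|- w - log (1 - w) - w²/2| ≤ w³` for `0 ≤ w ≤ 1/4`, `∑ w³ ≤ (K/m)² m`.
-/

set_option autoImplicit false

open Finset

namespace Pool.Agent.NQF

open Pool.Agent.NQ (board dsum F Ent Dg phi ln Q Qset QS NonAtt bern)
open Pool.Agent.NQR (Adm Opt Bd Rf hS hD hh InR)
open Pool.Agent.NQL

private theorem rld_log {w : ℝ} (h0 : 0 < w) (h1 : w ≤ 1 / 4) :
    |2 * (-w - Real.log (1 - w)) - w ^ 2| ≤ 2 * w ^ 3 := by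
  have h := Real.abs_log_sub_add_sum_range_le (x := w) (by rw [abs_of_pos h0]; linarith) 3
  rw [sum_range_succ, sum_range_succ, sum_range_succ, sum_range_zero, abs_of_pos h0] at h
  have h2 : w ^ (3 + 1) / (1 - w) ≤ w ^ 3 / 3 := by
    rw [div_le_div_iff₀ (by linarith) (by norm_num)]
    have h3 : 0 < w ^ 3 := by positivity
    have h4 : w ^ (3 + 1) = w ^ 3 * w := by ring
    rw [h4]
    nlinarith
  have h5 := abs_le.1 (h.trans h2)
  have h6 : 0 < w ^ 3 := by positivity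
  norm_num at h5
  rw [abs_le]
  constructor
  · nlinarith [h5.1, h5.2]
  · nlinarith [h5.1, h5.2]

private theorem rld_dg0 (x : ℤ) : dg ((0, x) : Li) = 0 := by
  have h : rc ((0, x) : Li) := by
    show ((0 : Fin 4) : ℕ) < 2
    decide
  exact if_pos h

private theorem rld_dg1 (x : ℤ) : dg ((1, x) : Li) = 0 := by
  have h : rc ((1, x) : Li) := by
    show ((1 : Fin 4) : ℕ) < 2
    decide
  exact if_pos h

private theorem rld_dg2 (x : ℤ) : dg ((2, x) : Li) = 1 := by
  have h : ¬ rc ((2, x) : Li) := by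
    show ¬ ((2 : Fin 4) : ℕ) < 2
    decide
  exact if_neg h

private theorem rld_dg3 (x : ℤ) : dg ((3, x) : Li) = 1 := by
  have h : ¬ rc ((3, x) : Li) := by
    show ¬ ((3 : Fin 4) : ℕ) < 2
    decide
  exact if_neg h

private theorem rld_one (l : Li) :
    1 - dg l = (if l.1 = 0 then 1 else 0) + (if l.1 = 1 then 1 else 0) := by
  obtain ⟨k, x⟩ := l
  fin_cases k
  · show 1 - dg ((0, x) : Li) = _
    rw [rld_dg0]
    simp
  · show 1 - dg ((1, x) : Li) = _
    rw [rld_dg1]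
    simp
  · show 1 - dg ((2, x) : Li) = _
    rw [rld_dg2]
    simp
  · show 1 - dg ((3, x) : Li) = _
    rw [rld_dg3]
    simp

private theorem rld_two (l : Li) :
    dg l = (if l.1 = 2 then 1 else 0) + (if l.1 = 3 then 1 else 0) := by
  obtain ⟨k, x⟩ := l
  fin_cases k
  · show dg ((0, x) : Li) = _
    rw [rld_dg0]
    simp
  · show dg ((1, x) : Li) = _
    rw [rld_dg1]
    simp
  · show dg ((2, x) : Li) = _
    rw [rld_dg2]
    simp
  · show dg ((3, x) : Li) = _
    rw [rld_dg3]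
    simp

private theorem rld_sum_dg {N m : ℕ} {I : Finset Li} (hv : Vd N m I) :
    ∑ l ∈ I, dg l = 2 * ((N : ℝ) + m - 1) := by
  rw [sum_congr rfl (fun l _ => rld_two l), sum_add_distrib, sum_boole, sum_boole]
  have h2 := hv.cdg 2 (by decide)
  have h3 := hv.cdg 3 (by decide)
  have h2' : ((I.filter (fun l => l.1 = 2)).card : ℝ) + 1 = N + m := by exact_mod_cast h2
  have h3' : ((I.filter (fun l => l.1 = 3)).card : ℝ) + 1 = N + m := by exact_mod_cast h3
  linarith

private theorem rld_rows (I : Finset Li) (z : Li → ℝ) (k : Fin 4) :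
    ∑ l ∈ I, (if l.1 = k then 1 else 0) * z l =
      ∑ x ∈ (I.filter (fun l => l.1 = k)).image Prod.snd, z (k, x) := by
  rw [sum_image]
  · rw [sum_filter]
    refine sum_congr rfl fun l _ => ?_
    by_cases h : l.1 = k
    · rw [if_pos h, if_pos h, one_mul, ← h]
    · rw [if_neg h, if_neg h, zero_mul]
  · intro a ha b hb hab
    have h1 := (mem_filter.1 ha).2
    have h2 := (mem_filter.1 hb).2
    exact Prod.ext (h1.trans h2.symm) hab

private theorem rld_diag {K lam c : ℝ} {N m : ℕ} {I : Finset Li} {z : Li → ℝ} (hK : 1 ≤ K)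
    (hm : 4 * K ≤ m) (h : Lk K lam c N m I z) {l : Li} (hl : l ∈ I) (hrc : ¬ rc l) :
    Real.exp (z l) - z l = 1 + ∑ e ∈ Sl N I l, (-wt z e - Real.log (1 - wt z e)) := by
  obtain ⟨-, -, -, -, hsq, hemp, -, -⟩ := lk_bas hK hm h
  rcases (Sl N I l).eq_empty_or_nonempty with h0 | ⟨e, he⟩
  · rw [h0, sum_empty, hemp l hl hrc h0]
    simp
  · have h1 : Sl N I l = {e} := by
      have h2 := h.sma l hl hrc
      rw [card_le_one] at h2
      ext f
      rw [mem_singleton]
      exact ⟨fun hf => h2 f hf e he, fun hf => hf ▸ he⟩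
    rw [h1, sum_singleton]
    obtain ⟨heS, hel⟩ := mem_Sl.1 he
    obtain ⟨-, -, hw0, hw1, -, hz2, hz3⟩ := hsq e heS
    have key : Real.exp (z l) = 1 - wt z e := by
      obtain ⟨k, n⟩ := l
      have hel' : ln k e = n := hel
      have hk : k = 2 ∨ k = 3 := by
        have h3 : ¬ ((k : Fin 4) : ℕ) < 2 := hrc
        rcases k with ⟨k, hk4⟩
        simp only [Fin.ext_iff, Fin.val_two] at *
        have h5 : ((3 : Fin 4) : ℕ) = 3 := rfl
        rw [h5]
        omega
      rcases hk with rfl | rfl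
      · rw [Pool.Agent.NQ.ln_two] at hel'
        rw [← hel']
        exact hz2
      · rw [Pool.Agent.NQ.ln_three] at hel'
        rw [← hel']
        exact hz3
    have h4 : z l = Real.log (1 - wt z e) := by rw [← key, Real.log_exp]
    rw [key, h4]
    ring

theorem lk_val {K lam c : ℝ} {N m : ℕ} {I : Finset Li} {z : Li → ℝ} (hK : 1 ≤ K) (hm : 4 * K ≤ m)
    (h : Lk K lam c N m I z) :
    |Vf N m I z - (-(m : ℝ) + ∑ e ∈ Sq N I, wt z e ^ 2 - ∑ x ∈ Rw I, z (0, x) - ∑ y ∈ Cw I, z (1, y))| ≤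
      2 * K ^ 2 / m := by
  have hm0 : (0 : ℝ) < m := by linarith
  obtain ⟨-, -, -, -, hsq, -, -, -⟩ := lk_bas hK hm h
  have h1 : ∀ l ∈ I, dg l * Real.exp (z l) - z l = dg l +
      ∑ e ∈ Sl N I l, dg l * (-wt z e - Real.log (1 - wt z e)) -
      (((if l.1 = 0 then 1 else 0) * z l) + ((if l.1 = 1 then 1 else 0) * z l)) := by
    intro l hl
    rw [← add_mul, ← rld_one, ← mul_sum]
    by_cases hrc : rc l
    · have h2 : dg l = 0 := if_pos hrc
      rw [h2]
      ring
    · have h2 : dg l = 1 := if_neg hrc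
      have h3 := rld_diag hK hm h hl hrc
      rw [h2]
      linarith
  have h2 : ∑ l ∈ I, (dg l * Real.exp (z l) - z l) = 2 * ((N : ℝ) + m - 1) +
      2 * ∑ e ∈ Sq N I, (-wt z e - Real.log (1 - wt z e)) -
      (∑ x ∈ Rw I, z (0, x) + ∑ y ∈ Cw I, z (1, y)) := by
    rw [sum_congr rfl h1, sum_sub_distrib, sum_add_distrib, sum_add_distrib, rld_sum_dg h.vd,
      line_sum (fun e l => dg l * (-wt z e - Real.log (1 - wt z e))), rld_rows, rld_rows, mul_sum]
    have h3 : ∀ e ∈ Sq N I, ∑ k : Fin 4, dg ((k, ln k e) : Li) * (-wt z e - Real.log (1 - wt z e)) =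
        2 * (-wt z e - Real.log (1 - wt z e)) := by
      intro e _
      rw [Fin.sum_univ_four, rld_dg0, rld_dg1, rld_dg2, rld_dg3]
      ring
    rw [sum_congr rfl h3]
    rfl
  have h3 : Vf N m I z - (-(m : ℝ) + ∑ e ∈ Sq N I, wt z e ^ 2 - ∑ x ∈ Rw I, z (0, x) -
      ∑ y ∈ Cw I, z (1, y)) = ∑ e ∈ Sq N I, (2 * (-wt z e - Real.log (1 - wt z e)) - wt z e ^ 2) := by
    rw [sum_sub_distrib, ← mul_sum]
    unfold Vf Gf
    rw [h2, sum_wt h.vd h.reg.st]
    ring
  rw [h3]
  calc |∑ e ∈ Sq N I, (2 * (-wt z e - Real.log (1 - wt z e)) - wt z e ^ 2)|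
      ≤ ∑ e ∈ Sq N I, |2 * (-wt z e - Real.log (1 - wt z e)) - wt z e ^ 2| := abs_sum_le_sum_abs _ _
    _ ≤ ∑ e ∈ Sq N I, 2 * (K / m) ^ 2 * wt z e := by
        refine sum_le_sum fun e he => ?_
        obtain ⟨-, -, hw0, hw1, -, -, -⟩ := hsq e he
        refine (rld_log hw0 hw1).trans ?_
        have h4 := h.reg.up e he
        have h5 : wt z e ^ 2 ≤ (K / m) ^ 2 := pow_le_pow_left₀ hw0.le h4 2
        calc 2 * wt z e ^ 3 = 2 * (wt z e ^ 2 * wt z e) := by ring
          _ ≤ 2 * ((K / m) ^ 2 * wt z e) :=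
              mul_le_mul_of_nonneg_left (mul_le_mul_of_nonneg_right h5 hw0.le) (by norm_num)
          _ = 2 * (K / m) ^ 2 * wt z e := by ring
    _ = 2 * (K / m) ^ 2 * m := by rw [← mul_sum, sum_wt h.vd h.reg.st]
    _ = 2 * K ^ 2 / m := by field_simp

end Pool.Agent.NQF
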