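import Pool.Agent.NQF.Defs

/-!
# NQF-RSch: Schur complement (Mathlib only)

PLAN. Split `I` into `J` and `D = I \ J` (equivalence of subtypes, `Matrix.det_submatrix_equiv_self`), `A = fromBlocks AJJ AJD ADJ ADD`. `A * fromBlocks 1 0 (-T) 1 = fromBlocks (AJJ - AJD T) AJD (ADJ - ADD T) ADD` and `ADD T = ADJ` by hypothesis: `det A = det (AJJ - AJD T) det ADD`
(`Matrix.det_fromBlocks_zero₂₁`, `det (fromBlocks 1 0 (-T) 1) = 1`). Both factors are nonzero, `Real.log_mul`.
-/

set_option autoImplicit false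

open Finset

namespace Pool.Agent.NQF

open Pool.Agent.NQ (board dsum F Ent Dg phi ln Q Qset QS NonAtt bern)
open Pool.Agent.NQR (Adm Opt Bd Rf hS hD hh InR)
open Pool.Agent.NQL

theorem ld_schur {α : Type} [DecidableEq α] {I J : Finset α} (hJ : J ⊆ I) {A T : α → α → ℝ}
    (hT : ∀ p ∈ I \ J, ∀ l ∈ J, ∑ q ∈ I \ J, A p q * T q l = A p l)
    (h0 : Matrix.det (Matrix.of (fun i j : I => A i j)) ≠ 0) :
    LD I A = LD (I \ J) A + LD J (fun l l' => A l l' - ∑ q ∈ I \ J, A l q * T q l') := by
  let f : J ⊕ (I \ J : Finset α) → I :=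
    Sum.elim (fun x => ⟨x.1, hJ x.2⟩) (fun x => ⟨x.1, (mem_sdiff.1 x.2).1⟩)
  have hf : Function.Bijective f := by
    constructor
    · rintro (⟨x, hx⟩ | ⟨x, hx⟩) (⟨y, hy⟩ | ⟨y, hy⟩) h
      · have h1 : x = y := congrArg Subtype.val h
        subst h1
        rfl
      · have h1 : x = y := congrArg Subtype.val h
        subst h1
        exact absurd hx (mem_sdiff.1 hy).2
      · have h1 : x = y := congrArg Subtype.val h
        subst h1
        exact absurd hy (mem_sdiff.1 hx).2
      · have h1 : x = y := congrArg Subtype.val h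
        subst h1
        rfl
    · rintro ⟨x, hx⟩
      by_cases h : x ∈ J
      · exact ⟨Sum.inl ⟨x, h⟩, rfl⟩
      · exact ⟨Sum.inr ⟨x, mem_sdiff.2 ⟨hx, h⟩⟩, rfl⟩
  let e : J ⊕ (I \ J : Finset α) ≃ I := Equiv.ofBijective f hf
  let P : Matrix J J ℝ := Matrix.of fun i j => A i j
  let Q' : Matrix J (I \ J : Finset α) ℝ := Matrix.of fun i j => A i j
  let R : Matrix (I \ J : Finset α) J ℝ := Matrix.of fun i j => A i j
  let D : Matrix (I \ J : Finset α) (I \ J : Finset α) ℝ := Matrix.of fun i j => A i j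
  let X : Matrix (I \ J : Finset α) J ℝ := Matrix.of fun i j => T i j
  have h1 : (Matrix.of (fun i j : I => A i j)).submatrix e e = Matrix.fromBlocks P Q' R D := by
    ext i j
    rcases i with i | i <;> rcases j with j | j <;> rfl
  have h2 : Matrix.det (Matrix.of (fun i j : I => A i j)) = (Matrix.fromBlocks P Q' R D).det := by
    rw [← h1, Matrix.det_submatrix_equiv_self]
  have h3 : Matrix.fromBlocks P Q' R D * Matrix.fromBlocks 1 0 (-X) 1 =
      Matrix.fromBlocks (P - Q' * X) Q' 0 D := by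
    rw [Matrix.fromBlocks_multiply]
    have h4 : R * (1 : Matrix J J ℝ) + D * -X = 0 := by
      ext p l
      rw [Matrix.mul_one, Matrix.mul_neg, Matrix.add_apply, Matrix.neg_apply, Matrix.mul_apply]
      have h5 := hT p.1 p.2 l.1 l.2
      have h6 : ∑ j, D p j * X j l = ∑ q ∈ I \ J, A p q * T q l := by
        rw [← sum_coe_sort (I \ J) (fun q => A p q * T q l)]
        rfl
      rw [h6, h5]
      show A p l + -A p l = 0
      ring
    rw [h4]
    simp [sub_eq_add_neg]
  have h4 : (Matrix.fromBlocks P Q' R D).det = (P - Q' * X).det * D.det := by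
    have h5 := congrArg Matrix.det h3
    rw [Matrix.det_mul, Matrix.det_fromBlocks_zero₁₂, Matrix.det_one, Matrix.det_one, mul_one,
      mul_one, Matrix.det_fromBlocks_zero₂₁] at h5
    exact h5
  have h5 : P - Q' * X = Matrix.of (fun l l' : J => A l l' - ∑ q ∈ I \ J, A l q * T q l') := by
    ext l l'
    rw [Matrix.sub_apply, Matrix.mul_apply, Matrix.of_apply]
    have h6 : ∑ j, Q' l j * X j l' = ∑ q ∈ I \ J, A l q * T q l' := by
      rw [← sum_coe_sort (I \ J) (fun q => A l q * T q l')]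
      rfl
    rw [h6]
    rfl
  rw [h2, h4] at h0
  have h6 := mul_ne_zero_iff.1 h0
  unfold LD
  rw [h2, h4, Real.log_mul h6.1 h6.2, h5, add_comm]

end Pool.Agent.NQF
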