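import Pool.Agent.NQF.RDef
import Pool.Agent.NQF.RLs
import Pool.Agent.NQF.RLkA
import Pool.Agent.NQF.RSch
import Pool.Agent.NQF.SPrt
import Pool.Agent.NQF.SInv
import Pool.Agent.NQL.ABas

/-!
# NQF-RLkE: instances without common diagonals: Schur complement of the diagonals

PLAN. `A = AA L4 (Sq N I) (wt z) ga m` is positive definite on `I` (`ls_board`, first part of `ls_inv`), so `det A ≠ 0` (`Matrix.PosDef.det_pos`). `ld_schur` with `J = I.filter rc`, `T q l' = ∑_{e ∈ Sq N I, q, l' ∈ L4 e} w/(1+w)`: for a diagonal `p ∈ I` without free square both sides are `0`; for the diagonals `p, p'` of a free square `e`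
(the only free square on `p` and on `p'`): `A p p = 1`, `A p p' = w`, `A p l = w` if `l ∈ L4 e`: `w/(1+w) + w · w/(1+w) = w`. The Schur complement is `Sc N m I z l l'` for `l, l' ∈ J`. `LD (I \ J) A`: `ld_pert` with `A = 1` (identity), `h' = 1`, `lam = 1`, `E` = off-diagonal part (`E p p' = w` for the two diagonals of `e`), `ε = K/m ≤ 1/2`,
`∑ E² = 2 ∑ w²`: `|LD + ∑ w²| ≤ 2 (K/m) 2 ∑ w² ≤ 4 K²/m` (`∑ w² ≤ K`).
-/

set_option autoImplicit false

open Finset

namespace Pool.Agent.NQF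

open Pool.Agent.NQ (board dsum F Ent Dg phi ln Q Qset QS NonAtt bern)
open Pool.Agent.NQR (Adm Opt Bd Rf hS hD hh InR)
open Pool.Agent.NQL

private theorem e_uniq {N : ℕ} {I : Finset Li} (h : ∀ l ∈ I, ¬ rc l → (Sl N I l).card ≤ 1) {p : Li}
    (hp : p ∈ I) (hr : ¬ rc p) {e f : ℤ × ℤ} (he : e ∈ Sq N I) (hpe : p ∈ L4 e) (hf : f ∈ Sq N I)
    (hpf : p ∈ L4 f) : f = e := by
  have h1 := card_le_one.1 (h p hp hr)
  refine h1 f ?_ e ?_
  · exact mem_filter.2 ⟨hf, mem_L4r.1 hpf⟩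
  · exact mem_filter.2 ⟨he, mem_L4r.1 hpe⟩

private theorem e_filt {N : ℕ} {I : Finset Li} (h : ∀ l ∈ I, ¬ rc l → (Sl N I l).card ≤ 1) {p : Li}
    (hp : p ∈ I) (hr : ¬ rc p) {e : ℤ × ℤ} (he : e ∈ Sq N I) (hpe : p ∈ L4 e) (l : Li)
    (φ : ℤ × ℤ → ℝ) :
    ∑ f ∈ (Sq N I).filter (fun f => p ∈ L4 f ∧ l ∈ L4 f), φ f = if l ∈ L4 e then φ e else 0 := by
  by_cases hl : l ∈ L4 e
  · have h1 : (Sq N I).filter (fun f => p ∈ L4 f ∧ l ∈ L4 f) = {e} := by
      ext f
      rw [mem_filter, mem_singleton]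
      constructor
      · rintro ⟨h1, h2, _⟩
        exact e_uniq h hp hr he hpe h1 h2
      · rintro rfl
        exact ⟨he, hpe, hl⟩
    rw [h1, sum_singleton, if_pos hl]
  · have h1 : (Sq N I).filter (fun f => p ∈ L4 f ∧ l ∈ L4 f) = ∅ := by
      refine filter_eq_empty_iff.2 fun f hf h2 => hl ?_
      have h3 := e_uniq h hp hr he hpe hf h2.1
      rw [← h3]
      exact h2.2
    rw [h1, sum_empty, if_neg hl]

private theorem e_rc2 (s : ℤ) : ¬ rc ((2, s) : Li) := by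
  unfold rc
  exact (by decide : ¬ ((2 : Fin 4) : ℕ) < 2)

private theorem e_rc3 (s : ℤ) : ¬ rc ((3, s) : Li) := by
  unfold rc
  exact (by decide : ¬ ((3 : Fin 4) : ℕ) < 2)

private theorem e_cases {p : Li} {e : ℤ × ℤ} (hr : ¬ rc p) (hp : p ∈ L4 e) :
    p = (2, ln 2 e) ∨ p = (3, ln 3 e) := by
  have h5 : ln p.1 e = p.2 := mem_L4r.1 hp
  obtain ⟨k, s⟩ := p
  dsimp only at h5
  subst h5
  unfold rc at hr
  dsimp only at hr
  fin_cases k
  · exact absurd (by decide : ((0 : Fin 4) : ℕ) < 2) hr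
  · exact absurd (by decide : ((1 : Fin 4) : ℕ) < 2) hr
  · exact Or.inl rfl
  · exact Or.inr rfl

private theorem e_ne (s t : ℤ) : ¬ ((2, s) : Li) = ((3, t) : Li) := fun h =>
  absurd (congrArg (fun l : Li => (l.1 : Fin 4)) h) (by decide : ¬ (2 : Fin 4) = 3)

private theorem e_diag {N : ℕ} {I : Finset Li} {e : ℤ × ℤ} (he : e ∈ Sq N I) (g : Li → ℝ) :
    ∑ q ∈ I \ I.filter rc, (if q ∈ L4 e then g q else 0) = g (2, ln 2 e) + g (3, ln 3 e) := by
  have h1 : (I \ I.filter rc).filter (fun q => q ∈ L4 e) = {((2, ln 2 e) : Li), ((3, ln 3 e) : Li)} := by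
    ext q
    rw [mem_filter, mem_sdiff, mem_filter, mem_L4r, mem_insert, mem_singleton]
    constructor
    · rintro ⟨⟨h1, h2⟩, h3⟩
      exact e_cases (fun h => h2 ⟨h1, h⟩) (mem_L4r.2 h3)
    · rintro (rfl | rfl)
      · exact ⟨⟨(mem_Sq.1 he).2 2, fun h => absurd h.2 (e_rc2 _)⟩, rfl⟩
      · exact ⟨⟨(mem_Sq.1 he).2 3, fun h => absurd h.2 (e_rc3 _)⟩, rfl⟩
  rw [← sum_filter, h1, sum_pair (e_ne _ _)]

private theorem e_ga {p : Li} (hr : ¬ rc p) : ga p = 0 := by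
  unfold ga
  unfold rc at hr
  by_cases h1 : p.1 = 0
  · rw [h1] at hr
    exact absurd (by decide) hr
  · by_cases h2 : p.1 = 1
    · rw [h2] at hr
      exact absurd (by decide) hr
    · rw [if_neg h1, if_neg h2]

private theorem e_AA {N m : ℕ} {I : Finset Li} {z : Li → ℝ} {p l : Li} (hg : ga p = 0 ∨ ga l = 0) :
    AA L4 (Sq N I) (wt z) ga m p l = (if p = l then 1 else 0) + MM L4 (Sq N I) (wt z) p l := by
  unfold AA
  rcases hg with h | h <;> rw [h] <;> ring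

/-- the matrix of the solution -/
private noncomputable def TT' (N : ℕ) (I : Finset Li) (z : Li → ℝ) (q l : Li) : ℝ :=
  ∑ f ∈ (Sq N I).filter (fun f => q ∈ L4 f ∧ l ∈ L4 f), wt z f / (1 + wt z f)

private theorem e_none {N : ℕ} {I : Finset Li} {p : Li} (h : ¬ ∃ e ∈ Sq N I, p ∈ L4 e) (l : Li)
    (φ : ℤ × ℤ → ℝ) : ∑ f ∈ (Sq N I).filter (fun f => p ∈ L4 f ∧ l ∈ L4 f), φ f = 0 := by
  have h1 : (Sq N I).filter (fun f => p ∈ L4 f ∧ l ∈ L4 f) = ∅ :=
    filter_eq_empty_iff.2 fun f hf h2 => h ⟨f, hf, h2.1⟩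
  rw [h1, sum_empty]

private theorem e_MM {N : ℕ} {I : Finset Li} {z : Li → ℝ}
    (h : ∀ l ∈ I, ¬ rc l → (Sl N I l).card ≤ 1) {p : Li}
    (hp : p ∈ I) (hr : ¬ rc p) {e : ℤ × ℤ} (he : e ∈ Sq N I) (hpe : p ∈ L4 e) (l : Li) :
    MM L4 (Sq N I) (wt z) p l = if l ∈ L4 e then (if p = l then 0 else wt z e) else 0 := by
  unfold MM
  by_cases h1 : p = l
  · rw [if_pos h1, if_pos h1, ite_self]
  · rw [if_neg h1, if_neg h1, e_filt h hp hr he hpe l]

private theorem e_mem {I : Finset Li} {p : Li} : p ∈ I \ I.filter rc ↔ p ∈ I ∧ ¬ rc p := by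
  rw [mem_sdiff, mem_filter]
  tauto

private theorem e_T {N m : ℕ} {I : Finset Li} {z : Li → ℝ}
    (h : ∀ l ∈ I, ¬ rc l → (Sl N I l).card ≤ 1) :
    ∀ p ∈ I \ I.filter rc, ∀ l ∈ I.filter rc,
      ∑ q ∈ I \ I.filter rc, AA L4 (Sq N I) (wt z) ga m p q * TT' N I z q l =
        AA L4 (Sq N I) (wt z) ga m p l := by
  intro p hp l hl
  obtain ⟨hp1, hp2⟩ := e_mem.1 hp
  obtain ⟨hl1, hl2⟩ := mem_filter.1 hl
  have hpl : p ≠ l := fun h => hp2 (h ▸ hl2)
  rw [e_AA (Or.inl (e_ga hp2)), if_neg hpl, zero_add]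
  by_cases hex : ∃ e ∈ Sq N I, p ∈ L4 e
  · obtain ⟨e, he, hpe⟩ := hex
    have h1 : ∀ q ∈ I \ I.filter rc, AA L4 (Sq N I) (wt z) ga m p q * TT' N I z q l =
        if q ∈ L4 e then (if p = q then 1 else wt z e) * (if l ∈ L4 e then wt z e / (1 + wt z e) else 0)
          else 0 := by
      intro q hq
      obtain ⟨hq1, hq2⟩ := e_mem.1 hq
      rw [e_AA (Or.inl (e_ga hp2)), e_MM h hp1 hp2 he hpe q]
      by_cases h2 : q ∈ L4 e
      · rw [if_pos h2, if_pos h2]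
        unfold TT'
        rw [e_filt h hq1 hq2 he h2 l]
        congr 1
        split_ifs <;> ring
      · rw [if_neg h2, if_neg h2]
        have h3 : p ≠ q := fun h => h2 (h ▸ hpe)
        rw [if_neg h3]
        ring
    rw [sum_congr rfl h1, e_diag he, e_MM h hp1 hp2 he hpe l, if_neg hpl]
    have hw : 0 < wt z e := Real.exp_pos _
    have h4 : (if p = ((2, ln 2 e) : Li) then (1 : ℝ) else wt z e) +
        (if p = ((3, ln 3 e) : Li) then (1 : ℝ) else wt z e) = 1 + wt z e := by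
      rcases e_cases hp2 hpe with h5 | h5
      · rw [h5, if_pos rfl, if_neg (e_ne _ _)]
      · rw [h5, if_pos rfl, if_neg (fun h => e_ne _ _ h.symm), add_comm]
    rw [← add_mul, h4]
    split_ifs
    · field_simp
    · ring
  · have h1 : ∀ q ∈ I \ I.filter rc, AA L4 (Sq N I) (wt z) ga m p q * TT' N I z q l = 0 := by
      intro q hq
      rw [e_AA (Or.inl (e_ga hp2))]
      by_cases h2 : p = q
      · subst h2
        unfold TT'
        rw [e_none hex, mul_zero]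
      · rw [if_neg h2]
        unfold MM
        rw [if_neg h2, e_none hex, zero_add, zero_mul]
    rw [sum_eq_zero h1]
    unfold MM
    rw [if_neg hpl, e_none hex]

private theorem e_S {N m : ℕ} {I : Finset Li} {z : Li → ℝ}
    (h : ∀ l ∈ I, ¬ rc l → (Sl N I l).card ≤ 1) :
    ∀ l ∈ I.filter rc, ∀ l' ∈ I.filter rc,
      AA L4 (Sq N I) (wt z) ga m l l' -
        ∑ q ∈ I \ I.filter rc, AA L4 (Sq N I) (wt z) ga m l q * TT' N I z q l' = Sc N m I z l l' := by
  intro l hl l' _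
  obtain ⟨hl1, hl2⟩ := mem_filter.1 hl
  unfold Sc
  congr 1
  have h1 : ∀ q ∈ I \ I.filter rc, AA L4 (Sq N I) (wt z) ga m l q * TT' N I z q l' =
      ∑ e ∈ (Sq N I).filter (fun e => l ∈ L4 e ∧ l' ∈ L4 e),
        (if q ∈ L4 e then wt z e ^ 2 / (1 + wt z e) else 0) := by
    intro q hq
    obtain ⟨hq1, hq2⟩ := e_mem.1 hq
    have hlq : l ≠ q := fun h => hq2 (h ▸ hl2)
    rw [e_AA (Or.inr (e_ga hq2)), if_neg hlq, zero_add]
    by_cases hex : ∃ e ∈ Sq N I, q ∈ L4 e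
    · obtain ⟨e, he, hqe⟩ := hex
      rw [mm_sym, e_MM h hq1 hq2 he hqe l, if_neg hlq.symm]
      unfold TT'
      rw [e_filt h hq1 hq2 he hqe l']
      have h2 : ∀ f ∈ (Sq N I).filter (fun e => l ∈ L4 e ∧ l' ∈ L4 e),
          (if q ∈ L4 f then wt z f ^ 2 / (1 + wt z f) else 0) =
          if f = e then wt z f ^ 2 / (1 + wt z f) else 0 := by
        intro f hf
        by_cases h3 : q ∈ L4 f
        · rw [if_pos h3, if_pos (e_uniq h hq1 hq2 he hqe (mem_filter.1 hf).1 h3)]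
        · have h4 : ¬ f = e := by
            intro h4
            rw [h4] at h3
            exact h3 hqe
          rw [if_neg h3, if_neg h4]
      rw [sum_congr rfl h2, sum_ite_eq']
      by_cases h3 : l ∈ L4 e
      · by_cases h4 : l' ∈ L4 e
        · rw [if_pos h3, if_pos h4, if_pos (mem_filter.2 ⟨he, h3, h4⟩)]
          ring
        · rw [if_neg h4, mul_zero]
          exact (if_neg (fun h5 => h4 (mem_filter.1 h5).2.2)).symm
      · rw [if_neg h3, zero_mul]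
        exact (if_neg (fun h5 => h3 (mem_filter.1 h5).2.1)).symm
    · unfold TT'
      rw [e_none hex, mul_zero]
      refine (sum_eq_zero fun f hf => if_neg fun h2 => hex ⟨f, (mem_filter.1 hf).1, h2⟩).symm
  rw [sum_congr rfl h1, sum_comm]
  refine sum_congr rfl fun e he => ?_
  rw [e_diag (mem_filter.1 he).1]
  ring

private theorem e_row {N : ℕ} {I : Finset Li} {z : Li → ℝ}
    (h : ∀ l ∈ I, ¬ rc l → (Sl N I l).card ≤ 1) {p : Li} (hp : p ∈ I) (hr : ¬ rc p)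
    {F : ℝ → ℝ} (hF : F 0 = 0) :
    ∑ l ∈ I \ I.filter rc, F (MM L4 (Sq N I) (wt z) p l) = ∑ e ∈ Sl N I p, F (wt z e) := by
  by_cases hex : ∃ e ∈ Sq N I, p ∈ L4 e
  · obtain ⟨e, he, hpe⟩ := hex
    have h1 : Sl N I p = {e} := by
      ext f
      rw [mem_singleton, Sl, mem_filter]
      constructor
      · rintro ⟨h1, h2⟩
        exact e_uniq h hp hr he hpe h1 (mem_L4r.2 h2)
      · rintro rfl
        exact ⟨he, mem_L4r.1 hpe⟩
    rw [h1, sum_singleton]
    have h2 : ∀ l ∈ I \ I.filter rc, F (MM L4 (Sq N I) (wt z) p l) =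
        if l ∈ L4 e then (if p = l then 0 else F (wt z e)) else 0 := by
      intro l _
      rw [e_MM h hp hr he hpe l]
      split_ifs
      · exact hF
      · rfl
      · exact hF
    rw [sum_congr rfl h2, e_diag he]
    rcases e_cases hr hpe with h5 | h5
    · rw [h5, if_pos rfl, if_neg (e_ne _ _), zero_add]
    · rw [h5, if_pos rfl, if_neg (fun h => e_ne _ _ h.symm), add_zero]
  · have h1 : Sl N I p = ∅ := by
      refine filter_eq_empty_iff.2 fun f hf h2 => hex ⟨f, hf, mem_L4r.2 h2⟩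
    rw [h1, sum_empty]
    refine sum_eq_zero fun l _ => ?_
    have h2 : MM L4 (Sq N I) (wt z) p l = 0 := by
      unfold MM
      by_cases h3 : p = l
      · rw [if_pos h3]
      · rw [if_neg h3, e_none hex]
    rw [h2, hF]

private theorem e_ldone {α : Type} [DecidableEq α] (D : Finset α) :
    LD D (fun l l' => if l = l' then (1 : ℝ) else 0) = 0 := by
  unfold LD
  have h1 : Matrix.of (fun i j : D => if (i : α) = (j : α) then (1 : ℝ) else 0) = 1 := by
    ext i j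
    rw [Matrix.of_apply, Matrix.one_apply]
    by_cases h : i = j
    · rw [if_pos h, if_pos (congrArg _ h)]
    · rw [if_neg h, if_neg (fun h2 => h (Subtype.ext h2))]
  rw [h1, Matrix.det_one, Real.log_one]

private theorem e_ldcongr {α : Type} [DecidableEq α] {D : Finset α} {A B : α → α → ℝ}
    (h : ∀ l ∈ D, ∀ l' ∈ D, A l l' = B l l') : LD D A = LD D B := by
  unfold LD
  congr 2
  ext i j
  exact h i i.2 j j.2

private theorem e_LD {K lam c : ℝ} {N m : ℕ} {I : Finset Li} {z : Li → ℝ} (hK : 1 ≤ K)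
    (hm1 : 1 ≤ m) (hm : 2 * K ≤ m) (hk : Lk K lam c N m I z) (h2 : ∑ e ∈ Sq N I, wt z e ^ 2 ≤ K) :
    |LD (I \ I.filter rc) (AA L4 (Sq N I) (wt z) ga m) + ∑ e ∈ Sq N I, wt z e ^ 2| ≤
      4 * K ^ 2 / m := by
  have hm0 : (0 : ℝ) < m := by exact_mod_cast hm1
  have h := hk.sma
  set D := I \ I.filter rc with hD
  have h3 : LD D (AA L4 (Sq N I) (wt z) ga m) =
      LD D (fun l l' => (if l = l' then (1 : ℝ) else 0) + MM L4 (Sq N I) (wt z) l l') :=
    e_ldcongr fun l hl l' _ => e_AA (Or.inl (e_ga (e_mem.1 hl).2))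
  have hE2 : ∑ l ∈ D, ∑ l' ∈ D, MM L4 (Sq N I) (wt z) l l' ^ 2 = 2 * ∑ e ∈ Sq N I, wt z e ^ 2 := by
    have h4 : ∀ l ∈ D, ∑ l' ∈ D, MM L4 (Sq N I) (wt z) l l' ^ 2 =
        ∑ e ∈ Sq N I, (if l ∈ L4 e then wt z e ^ 2 else 0) := by
      intro l hl
      rw [e_row h (e_mem.1 hl).1 (e_mem.1 hl).2 (F := fun x => x ^ 2) (by norm_num), Sl, sum_filter]
      refine sum_congr rfl fun e _ => ?_
      by_cases h5 : l ∈ L4 e
      · rw [if_pos h5, if_pos (mem_L4r.1 h5)]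
      · rw [if_neg h5, if_neg (fun h6 => h5 (mem_L4r.2 h6))]
    rw [sum_congr rfl h4, sum_comm, mul_sum]
    refine sum_congr rfl fun e he => ?_
    rw [hD, e_diag he (fun _ => wt z e ^ 2)]
    ring
  have hp := ld_pert (J := D) (A := fun l l' => if l = l' then (1 : ℝ) else 0)
    (E := fun l l' => MM L4 (Sq N I) (wt z) l l') (h' := fun l l' => if l = l' then (1 : ℝ) else 0)
    (lam := 1) (ε := K / m) one_pos
    (fun l l' => by by_cases h5 : l = l' <;> simp [h5, eq_comm])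
    (fun l l' => mm_sym _ _ _ _ _)
    (fun u => by
      rw [one_mul]
      refine le_of_eq (sum_congr rfl fun l hl => ?_)
      have h5 : ∀ l' ∈ D, u l * (if l = l' then (1 : ℝ) else 0) * u l' =
          if l = l' then u l * u l' else 0 := by
        intro l' _
        split_ifs <;> ring
      rw [sum_congr rfl h5, sum_ite_eq, if_pos hl]
      ring)
    (fun l hl k hk' => by
      have h5 : ∀ l' ∈ D, (if l = l' then (1 : ℝ) else 0) * (if l' = k then (1 : ℝ) else 0) =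
          if l = l' then (if l' = k then (1 : ℝ) else 0) else 0 := by
        intro l' _
        split_ifs <;> ring
      rw [sum_congr rfl h5, sum_ite_eq, if_pos hl])
    (fun l hl => by
      rw [e_row h (e_mem.1 hl).1 (e_mem.1 hl).2 (F := fun x => |x|) (by norm_num)]
      have h5 := h l (e_mem.1 hl).1 (e_mem.1 hl).2
      have h6 : ∀ e ∈ Sl N I l, |wt z e| ≤ K / m := by
        intro e he
        rw [abs_of_pos (show 0 < wt z e from Real.exp_pos _)]
        exact hk.reg.up e (mem_filter.1 he).1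
      refine (sum_le_card_nsmul _ _ _ h6).trans ?_
      rw [nsmul_eq_mul]
      have h7 : ((Sl N I l).card : ℝ) ≤ 1 := by exact_mod_cast h5
      have h8 : 0 ≤ K / m := by positivity
      nlinarith)
    (by
      rw [div_le_iff₀ hm0]
      linarith)
  have h10 : ∑ l ∈ D, ∑ l' ∈ D, (if l = l' then (1 : ℝ) else 0) * MM L4 (Sq N I) (wt z) l' l = 0 := by
    refine sum_eq_zero fun l _ => sum_eq_zero fun l' _ => ?_
    by_cases h5 : l = l'
    · subst h5
      unfold MM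
      rw [if_pos rfl, if_pos rfl, mul_zero]
    · rw [if_neg h5, zero_mul]
  have h11 : ∀ l ∈ D, ∀ k, ∑ l' ∈ D, (if l = l' then (1 : ℝ) else 0) * MM L4 (Sq N I) (wt z) l' k =
      MM L4 (Sq N I) (wt z) l k := by
    intro l hl k
    have h5 : ∀ l' ∈ D, (if l = l' then (1 : ℝ) else 0) * MM L4 (Sq N I) (wt z) l' k =
          if l = l' then MM L4 (Sq N I) (wt z) l' k else 0 := by
      intro l' _
      split_ifs <;> ring
    rw [sum_congr rfl h5, sum_ite_eq, if_pos hl]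
  have h12 : ∑ l ∈ D, ∑ k ∈ D, (∑ l' ∈ D, (if l = l' then (1 : ℝ) else 0) * MM L4 (Sq N I) (wt z) l' k) *
      (∑ l' ∈ D, (if k = l' then (1 : ℝ) else 0) * MM L4 (Sq N I) (wt z) l' l) =
      2 * ∑ e ∈ Sq N I, wt z e ^ 2 := by
    rw [← hE2]
    refine sum_congr rfl fun l hl => sum_congr rfl fun k hk' => ?_
    rw [h11 l hl k, h11 k hk' l, mm_sym L4 (Sq N I) (wt z) k l]
    ring
  rw [e_ldone, h10, h12, hE2] at hp
  rw [h3]
  have h13 : LD D (fun l l' => (if l = l' then (1 : ℝ) else 0) + MM L4 (Sq N I) (wt z) l l') - 0 - 0 +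
      2 * (∑ e ∈ Sq N I, wt z e ^ 2) / 2 =
      LD D (fun l l' => (if l = l' then (1 : ℝ) else 0) + MM L4 (Sq N I) (wt z) l l') +
        ∑ e ∈ Sq N I, wt z e ^ 2 := by ring
  rw [h13] at hp
  refine hp.trans ?_
  have h14 : 2 * (K / m) / 1 ^ 3 * (2 * ∑ e ∈ Sq N I, wt z e ^ 2) =
      4 * K * (∑ e ∈ Sq N I, wt z e ^ 2) / m := by ring
  rw [h14]
  apply div_le_div_of_nonneg_right _ hm0.le
  nlinarith

private theorem e_det {K lam c : ℝ} {N m : ℕ} {I : Finset Li} {z : Li → ℝ} (hK : 1 ≤ K)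
    (hl : 0 < lam) (hl1 : lam ≤ 1) (hm1 : 1 ≤ m) (hk : Lk K lam c N m I z) :
    Matrix.det (Matrix.of (fun i j : I => AA L4 (Sq N I) (wt z) ga m i j)) ≠ 0 := by
  obtain ⟨C, -, hC⟩ := ls_inv 4 (by norm_num) le_rfl K lam hK hl hl1
  obtain ⟨-, g, hg⟩ := hC Li (ℤ × ℤ) m I L4 (Sq N I) (wt z) _ ga hm1 (ls_board hk.vd hk.reg)
  have h1 : Matrix.of (fun i j : I => AA L4 (Sq N I) (wt z) ga m i j) *
      Matrix.of (fun i j : I => g i j) = 1 := by
    ext i j
    rw [Matrix.mul_apply, Matrix.one_apply]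
    simp only [Matrix.of_apply]
    have h2 := hg.inv i i.2 j j.2
    rw [← sum_coe_sort I (fun l' => AA L4 (Sq N I) (wt z) ga m i l' * g l' j)] at h2
    rw [h2]
    by_cases h : i = j
    · rw [if_pos h, if_pos (congrArg _ h)]
    · rw [if_neg h, if_neg (fun h2 => h (Subtype.ext h2))]
  intro h0
  have h2 := congrArg Matrix.det h1
  rw [Matrix.det_mul, h0, zero_mul, Matrix.det_one] at h2
  exact zero_ne_one h2

theorem lk_schur (K lam c : ℝ) (hK : 1 ≤ K) (hl : 0 < lam) (hl1 : lam ≤ 1) : ∃ (C : ℝ) (m0 : ℕ), 1 ≤ C ∧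
    1 ≤ m0 ∧ ∀ (N m : ℕ) (I : Finset Li) (z : Li → ℝ), m0 ≤ m → Lk K lam c N m I z →
      |LD I (AA L4 (Sq N I) (wt z) ga m) - LD (I.filter rc) (Sc N m I z) + ∑ e ∈ Sq N I, wt z e ^ 2| ≤
        C / m := by
  refine ⟨4 * K ^ 2, ⌈2 * K⌉₊ + 1, by nlinarith, by omega, ?_⟩
  intro N m I z hm hk
  have hm1 : 1 ≤ m := by omega
  have hm2 : 2 * K ≤ m := by
    refine (Nat.le_ceil _).trans ?_
    exact_mod_cast (by omega : ⌈2 * K⌉₊ ≤ m)
  have hw := ls_w2 (ls_board hk.vd hk.reg) hm1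
  have h1 := e_LD hK hm1 hm2 hk hw
  have h2 := ld_schur (filter_subset rc I) (A := AA L4 (Sq N I) (wt z) ga m) (T := TT' N I z)
    (e_T hk.sma) (e_det hK hl hl1 hm1 hk)
  have h3 := e_ldcongr (e_S (m := m) (z := z) hk.sma)
  rw [h3] at h2
  rw [h2]
  have h4 : LD (I \ I.filter rc) (AA L4 (Sq N I) (wt z) ga m) + LD (I.filter rc) (Sc N m I z) -
      LD (I.filter rc) (Sc N m I z) + ∑ e ∈ Sq N I, wt z e ^ 2 =
      LD (I \ I.filter rc) (AA L4 (Sq N I) (wt z) ga m) + ∑ e ∈ Sq N I, wt z e ^ 2 := by ring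
  rw [h4]
  exact h1

end Pool.Agent.NQF
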