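import Pool.Agent.NQF.RDef
import Pool.Agent.NQF.RLs
import Pool.Agent.NQF.RLkA
import Pool.Agent.NQF.SPrt
import Pool.Agent.NQF.SInv
import Pool.Agent.NQL.ABas

/-!
# NQF-RLkF: instances without common diagonals: comparison of the two determinants

PLAN. `Y e = Xh N I z e * exp (u + v)`, `|Y e - wt z e| ≤ C/m²` on `Sq N I` (`Xh = wt/(1-wt)²`), `Y = 0` off `Sq N I`. `A2 = AA L2 (Rw × Cw) Y ga m` on `J = I2 (Rw I) (Cw I) = I.filter rc`; `E = Sc - A2`: diagonal `E l l = - ∑_{e ∈ Sl N I l} 2w²/(1+w)`, `= O(1/m)`; row-row, column-column `0`; row-column: `w - Y - 2w²/(1+w)` at a free square, `0` otherwise: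
`O(m⁻²)`. `DsLs` gives `LSys 2 m (8K) lam2 ..`, `ls_inv` the inverse `h'` (`Hi`) and positivity. `ld_pert`: row sums of `|E|` are `≤ C/m ≤ lam2/2`; `∑ E² ≤ C/m`. `tr (h' E) = ∑ E l l + ∑ (h' l l - 1) E l l + off-diagonal`: `2m (C/m)(C/m)`, `m² (C/m)(C/m²)`; `∑_l E l l = - 4 ∑_{Sq} w²/(1+w) = - 4 ∑ w² + O(∑ w³)` (each free square is on one row and one column). The quadratic term is
`≤ ∑ (h' E)² ≤ C ∑ E² ≤ C/m` (`Hi.op`).
-/

set_option autoImplicit false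

open Finset

namespace Pool.Agent.NQF

open Pool.Agent.NQ (board dsum F Ent Dg phi ln Q Qset QS NonAtt bern)
open Pool.Agent.NQR (Adm Opt Bd Rf hS hD hh InR)
open Pool.Agent.NQL

private theorem lf_mem2 {e : ℤ × ℤ} {l : Li} : l ∈ L2 e ↔ l = (0, e.1) ∨ l = (1, e.2) := by
  unfold L2
  rw [mem_insert, mem_singleton]

private theorem lf_iff4 (x y : ℤ) (e : ℤ × ℤ) : (((0, x) : Li) ∈ L4 e ∧ ((1, y) : Li) ∈ L4 e) ↔ e = (x, y) := by
  rw [mem_L4r, mem_L4r]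
  constructor
  · rintro ⟨h1, h2⟩
    exact Prod.ext h1 h2
  · rintro rfl
    exact ⟨rfl, rfl⟩

private theorem lf_iff2 (x y : ℤ) (e : ℤ × ℤ) : (((0, x) : Li) ∈ L2 e ∧ ((1, y) : Li) ∈ L2 e) ↔ e = (x, y) := by
  rw [lf_mem2, lf_mem2]
  constructor
  · rintro ⟨h1, h2⟩
    have e1 : x = e.1 := by
      rcases h1 with h | h
      · exact congrArg Prod.snd h
      · exact absurd (congrArg Prod.fst h) (show (0 : Fin 4) ≠ 1 by decide)
    have e2 : y = e.2 := by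
      rcases h2 with h | h
      · exact absurd (congrArg Prod.fst h) (show (1 : Fin 4) ≠ 0 by decide)
      · exact congrArg Prod.snd h
    exact Prod.ext e1.symm e2.symm
  · rintro rfl
    exact ⟨Or.inl rfl, Or.inr rfl⟩

private theorem lf_one (S : Finset (ℤ × ℤ)) (P : ℤ × ℤ → Prop) [DecidablePred P] (a : ℤ × ℤ)
    (hP : ∀ e, P e ↔ e = a) (f : ℤ × ℤ → ℝ) : ∑ e ∈ S.filter P, f e = if a ∈ S then f a else 0 := by
  rw [Finset.sum_filter, Finset.sum_congr rfl fun e _ => if_congr (hP e) rfl rfl]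
  exact Finset.sum_ite_eq' S a f

private theorem lf_no4 {k : Fin 4} {x x' : ℤ} (h : x ≠ x') (e : ℤ × ℤ) :
    ¬ (((k, x) : Li) ∈ L4 e ∧ ((k, x') : Li) ∈ L4 e) := by
  rw [mem_L4r, mem_L4r]
  rintro ⟨h1, h2⟩
  have h1' : ln k e = x := h1
  have h2' : ln k e = x' := h2
  exact h (h1'.symm.trans h2')

private theorem lf_no2 {k : Fin 4} {x x' : ℤ} (h : x ≠ x') (e : ℤ × ℤ) :
    ¬ (((k, x) : Li) ∈ L2 e ∧ ((k, x') : Li) ∈ L2 e) := by
  rw [lf_mem2, lf_mem2]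
  rintro ⟨h1 | h1, h2 | h2⟩
  · exact h ((congrArg Prod.snd h1).trans (congrArg Prod.snd h2).symm)
  · have g1 : k = 0 := congrArg Prod.fst h1
    have g2 : k = 1 := congrArg Prod.fst h2
    exact absurd (g1.symm.trans g2) (by decide)
  · have g1 : k = 1 := congrArg Prod.fst h1
    have g2 : k = 0 := congrArg Prod.fst h2
    exact absurd (g1.symm.trans g2) (by decide)
  · exact h ((congrArg Prod.snd h1).trans (congrArg Prod.snd h2).symm)

private theorem lf_zero (S : Finset (ℤ × ℤ)) (P : ℤ × ℤ → Prop) [DecidablePred P]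
    (hP : ∀ e, ¬ P e) (f : ℤ × ℤ → ℝ) : ∑ e ∈ S.filter P, f e = 0 := by
  rw [Finset.filter_false_of_mem fun e _ => hP e, Finset.sum_empty]

/-- the difference of the two matrices -/
private noncomputable def EE (N m : ℕ) (I : Finset Li) (z : Li → ℝ) (Y : ℤ × ℤ → ℝ) (l l' : Li) : ℝ :=
  Sc N m I z l l' - AA L2 (Rw I ×ˢ Cw I) Y ga m l l'

private theorem lf_EE (N m : ℕ) (I : Finset Li) (z : Li → ℝ) (Y : ℤ × ℤ → ℝ) (l l' : Li) :
    EE N m I z Y l l' = MM L4 (Sq N I) (wt z) l l' - MM L2 (Rw I ×ˢ Cw I) Y l l' -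
      ∑ e ∈ (Sq N I).filter (fun e => l ∈ L4 e ∧ l' ∈ L4 e), 2 * wt z e ^ 2 / (1 + wt z e) := by
  unfold EE Sc AA
  ring

private theorem lf_sym (N m : ℕ) (I : Finset Li) (z : Li → ℝ) (Y : ℤ × ℤ → ℝ) (l l' : Li) :
    EE N m I z Y l l' = EE N m I z Y l' l := by
  rw [lf_EE, lf_EE, mm_sym L4, mm_sym L2]
  congr 1
  apply Finset.sum_congr _ fun _ _ => rfl
  apply Finset.filter_congr
  intro e _
  exact and_comm

private theorem lf_same (N m : ℕ) (I : Finset Li) (z : Li → ℝ) (Y : ℤ × ℤ → ℝ) {k : Fin 4} {x x' : ℤ} (h : x ≠ x') :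
    EE N m I z Y (k, x) (k, x') = 0 := by
  have hne : ((k, x) : Li) ≠ (k, x') := fun h' => h (congrArg Prod.snd h')
  rw [lf_EE]
  unfold MM
  rw [if_neg hne, if_neg hne, lf_zero _ _ (lf_no4 h), lf_zero _ _ (lf_no2 h), lf_zero _ _ (lf_no4 h)]
  ring

private theorem lf_diff (N m : ℕ) (I : Finset Li) (z : Li → ℝ) (Y : ℤ × ℤ → ℝ) {x y : ℤ} (hx : x ∈ Rw I)
    (hy : y ∈ Cw I) : EE N m I z Y (0, x) (1, y) = (if (x, y) ∈ Sq N I then wt z (x, y) else 0) - Y (x, y) -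
      (if (x, y) ∈ Sq N I then 2 * wt z (x, y) ^ 2 / (1 + wt z (x, y)) else 0) := by
  have hne : ((0, x) : Li) ≠ (1, y) := fun h' => absurd (congrArg Prod.fst h') (show (0 : Fin 4) ≠ 1 by decide)
  rw [lf_EE]
  unfold MM
  rw [if_neg hne, if_neg hne, lf_one _ _ (x, y) (lf_iff4 x y), lf_one _ _ (x, y) (lf_iff2 x y),
    lf_one _ _ (x, y) (lf_iff4 x y), if_pos (mem_product.2 ⟨hx, hy⟩)]

private theorem lf_diag (N m : ℕ) (I : Finset Li) (z : Li → ℝ) (Y : ℤ × ℤ → ℝ) (l : Li) :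
    EE N m I z Y l l = -∑ e ∈ Sl N I l, 2 * wt z e ^ 2 / (1 + wt z e) := by
  rw [lf_EE, mm_self, mm_self, sub_zero, zero_sub]
  congr 1
  apply Finset.sum_congr _ fun _ _ => rfl
  unfold Sl
  apply Finset.filter_congr
  intro e _
  rw [mem_L4r]
  exact and_self_iff

private theorem lf_J {I : Finset Li} (h0 : ∀ x, x ∈ Rw I ↔ ((0, x) : Li) ∈ I) (h1 : ∀ y, y ∈ Cw I ↔ ((1, y) : Li) ∈ I) :
    I.filter rc = I2 (Rw I) (Cw I) := by
  ext l
  unfold I2
  rw [mem_filter, mem_union, mem_image, mem_image]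
  constructor
  · rintro ⟨hl, hrc⟩
    have h2 : (l.1 : ℕ) < 2 := hrc
    have h3 : l.1 = 0 ∨ l.1 = 1 := by
      rcases Nat.lt_or_ge (l.1 : ℕ) 1 with h | h
      · left
        exact Fin.ext (by show (l.1 : ℕ) = 0; omega)
      · right
        exact Fin.ext (by show (l.1 : ℕ) = 1; omega)
    rcases h3 with h | h
    · left
      refine ⟨l.2, (h0 _).2 ?_, ?_⟩
      · rw [← h]
        exact hl
      · rw [← h]
    · right
      refine ⟨l.2, (h1 _).2 ?_, ?_⟩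
      · rw [← h]
        exact hl
      · rw [← h]
  · rintro (⟨x, hx, rfl⟩ | ⟨y, hy, rfl⟩)
    · exact ⟨(h0 x).1 hx, by show ((0 : Fin 4) : ℕ) < 2; decide⟩
    · exact ⟨(h1 y).1 hy, by show ((1 : Fin 4) : ℕ) < 2; decide⟩

/-- the off-diagonal entries -/
private theorem lf_off {K C1 : ℝ} {N m : ℕ} {I : Finset Li} {z : Li → ℝ} {u v : ℤ → ℝ} (hK : 1 ≤ K) (hC1 : 1 ≤ C1)
    (hm : 0 < (m : ℝ)) (hm2 : 2 * C1 ≤ m)
    (hsq : ∀ e ∈ Sq N I, e.1 ∈ Rw I ∧ e.2 ∈ Cw I ∧ 0 < wt z e ∧ wt z e ≤ 1 / 4 ∧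
      wt z e = Real.exp (z (0, e.1) + z (1, e.2)) * (1 - wt z e) ^ 2)
    (hup : ∀ e ∈ Sq N I, wt z e ≤ K / m)
    (hu : ∀ x ∈ Rw I, |u x| ≤ C1 / m) (hv : ∀ y ∈ Cw I, |v y| ≤ C1 / m) {l l' : Li}
    (hl : l ∈ I2 (Rw I) (Cw I)) (hl' : l' ∈ I2 (Rw I) (Cw I)) (hne : l ≠ l') :
    |EE N m I z (fun e => Xh N I z e * Real.exp (u e.1 + v e.2)) l l'| ≤ (8 * K * C1 + 6 * K ^ 2) / m ^ 2 := by
  have hB : 0 ≤ (8 * K * C1 + 6 * K ^ 2) / (m : ℝ) ^ 2 := by positivity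
  have key : ∀ x ∈ Rw I, ∀ y ∈ Cw I,
      |EE N m I z (fun e => Xh N I z e * Real.exp (u e.1 + v e.2)) (0, x) (1, y)| ≤
        (8 * K * C1 + 6 * K ^ 2) / m ^ 2 := by
    intro x hx y hy
    rw [lf_diff N m I z _ hx hy]
    by_cases hs : (x, y) ∈ Sq N I
    · rw [if_pos hs, if_pos hs]
      obtain ⟨-, -, w0, w4, we⟩ := hsq _ hs
      have wK := hup _ hs
      have hX : Xh N I z (x, y) = Real.exp (z (0, x) + z (1, y)) := if_pos hs
      show |wt z (x, y) - Xh N I z (x, y) * Real.exp (u x + v y) - 2 * wt z (x, y) ^ 2 / (1 + wt z (x, y))| ≤ _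
      rw [hX]
      change wt z (x, y) = Real.exp (z (0, x) + z (1, y)) * (1 - wt z (x, y)) ^ 2 at we
      set w : ℝ := wt z (x, y) with hw
      set X : ℝ := Real.exp (z (0, x) + z (1, y)) with hXd
      have hX0 : 0 < X := Real.exp_pos _
      have hXb : X ≤ 2 * (K / m) := by
        have h1 : (9 : ℝ) / 16 ≤ (1 - w) ^ 2 := by nlinarith
        have h2 : X * (9 / 16) ≤ w := by
          rw [we]
          exact mul_le_mul_of_nonneg_left h1 hX0.le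
        have h3 : 0 < K / (m : ℝ) := by positivity
        linarith
      have ht : |u x + v y| ≤ 2 * (C1 / m) := by
        have := abs_add_le (u x) (v y)
        have := hu x hx
        have := hv y hy
        linarith
      have ht1 : |u x + v y| ≤ 1 := by
        refine ht.trans ?_
        rw [← mul_div_assoc, div_le_one hm]
        exact hm2
      have he := Real.abs_exp_sub_one_le ht1
      have h4 : |(1 - w) ^ 2 - Real.exp (u x + v y)| ≤ 2 * (K / m) + 4 * (C1 / m) := by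
        have h5 : (1 - w) ^ 2 - Real.exp (u x + v y) = (-(2 * w) + w ^ 2) - (Real.exp (u x + v y) - 1) := by ring
        rw [h5]
        refine (abs_sub _ _).trans ?_
        have h6 : |-(2 * w) + w ^ 2| ≤ 2 * w := by
          rw [abs_le]
          constructor <;> nlinarith
        linarith
      have h7 : |w - X * Real.exp (u x + v y)| ≤ 2 * (K / m) * (2 * (K / m) + 4 * (C1 / m)) := by
        have h8 : w - X * Real.exp (u x + v y) = X * ((1 - w) ^ 2 - Real.exp (u x + v y)) := by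
          rw [mul_sub, ← we]
        rw [h8, abs_mul, abs_of_pos hX0]
        exact mul_le_mul hXb h4 (abs_nonneg _) (by positivity)
      have h9 : |2 * w ^ 2 / (1 + w)| ≤ 2 * (K / m) ^ 2 := by
        rw [abs_of_nonneg (by positivity), div_le_iff₀ (by linarith)]
        have h10 : w ^ 2 ≤ (K / m) ^ 2 := pow_le_pow_left₀ w0.le wK 2
        nlinarith [sq_nonneg (K / (m : ℝ)), mul_nonneg w0.le (sq_nonneg (K / (m : ℝ)))]
      refine (abs_sub _ _).trans ?_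
      have h11 : (8 * K * C1 + 6 * K ^ 2) / (m : ℝ) ^ 2 =
          2 * (K / m) * (2 * (K / m) + 4 * (C1 / m)) + 2 * (K / m) ^ 2 := by
        field_simp
        ring
      rw [h11]
      exact add_le_add h7 h9
    · rw [if_neg hs, if_neg hs]
      have hX : Xh N I z (x, y) = 0 := if_neg hs
      show |0 - Xh N I z (x, y) * Real.exp (u x + v y) - 0| ≤ _
      rw [hX, zero_mul, sub_zero, sub_zero, abs_zero]
      exact hB
  unfold I2 at hl hl'
  rw [mem_union, mem_image, mem_image] at hl hl'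
  rcases hl with ⟨x, hx, rfl⟩ | ⟨y, hy, rfl⟩ <;> rcases hl' with ⟨x', hx', rfl⟩ | ⟨y', hy', rfl⟩
  · rw [lf_same N m I z _ (fun h => hne (by rw [h])), abs_zero]
    exact hB
  · exact key x hx y' hy'
  · rw [lf_sym]
    exact key x' hx' y hy
  · rw [lf_same N m I z _ (fun h => hne (by rw [h])), abs_zero]
    exact hB

theorem lk_two (hD : DsLs) (K lam c C1 : ℝ) (hK : 1 ≤ K) (hc : 0 < c) (hC1 : 1 ≤ C1) :
    ∃ (C : ℝ) (m0 : ℕ), 1 ≤ C ∧ 1 ≤ m0 ∧
    ∀ (N m : ℕ) (I : Finset Li) (z : Li → ℝ) (u v : ℤ → ℝ), m0 ≤ m → Lk K lam c N m I z →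
      (∀ x ∈ Rw I, |u x| ≤ C1 / m) → (∀ y ∈ Cw I, |v y| ≤ C1 / m) →
      Ds (8 * K) (c / 2) m (fun e => Xh N I z e * Real.exp (u e.1 + v e.2)) (Rw I) (Cw I) →
      |LD (I.filter rc) (Sc N m I z) - LD (I2 (Rw I) (Cw I))
        (AA L2 (Rw I ×ˢ Cw I) (fun e => Xh N I z e * Real.exp (u e.1 + v e.2)) ga m) +
        4 * ∑ e ∈ Sq N I, wt z e ^ 2| ≤ C / m := by
  obtain ⟨lam2, hl0, hl1, hD2⟩ := hD (8 * K) (c / 2) (by linarith) (by linarith)
  obtain ⟨C2, hC2, hinv⟩ := ls_inv 2 (le_refl 2) (by norm_num) (8 * K) lam2 (by linarith) hl0 hl1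
  obtain ⟨P, hP⟩ : ∃ P : ℝ, P = 2 * K + 2 * (8 * K * C1 + 6 * K ^ 2) := ⟨_, rfl⟩
  have hP0 : 0 < P := by rw [hP]; positivity
  refine ⟨4 * P ^ 3 / lam2 ^ 3 + C2 * P ^ 2 + 2 * C2 * P + 4 * K ^ 2,
    max (⌈4 * K⌉₊ + 1) (max ⌈2 * C1⌉₊ ⌈2 * P / lam2⌉₊), ?_, le_max_of_le_left (Nat.le_add_left 1 _), ?_⟩
  · have h1 : 0 ≤ 4 * P ^ 3 / lam2 ^ 3 + C2 * P ^ 2 + 2 * C2 * P := by positivity
    nlinarith
  intro N m I z u v hm hL hu hv hDs
  have hma : ⌈4 * K⌉₊ + 1 ≤ m := (le_max_left _ _).trans hm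
  have hmb : ⌈2 * C1⌉₊ ≤ m := ((le_max_left _ _).trans (le_max_right _ _)).trans hm
  have hmc : ⌈2 * P / lam2⌉₊ ≤ m := ((le_max_right _ _).trans (le_max_right _ _)).trans hm
  have hm1 : 1 ≤ m := by omega
  have hmR : (1 : ℝ) ≤ m := by exact_mod_cast hm1
  have hm0 : (0 : ℝ) < m := by linarith
  have hm4 : 4 * K ≤ m := (Nat.le_ceil _).trans (by exact_mod_cast (by omega : ⌈4 * K⌉₊ ≤ m))
  have hmC : 2 * C1 ≤ m := (Nat.le_ceil _).trans (by exact_mod_cast hmb)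
  have hmP : 2 * P / lam2 ≤ m := (Nat.le_ceil _).trans (by exact_mod_cast hmc)
  obtain ⟨cR, cC, hR, hC, hsq, -, hrow, -⟩ := lk_bas hK hm4 hL
  obtain ⟨Y, hY⟩ : ∃ Y : ℤ × ℤ → ℝ, Y = fun e => Xh N I z e * Real.exp (u e.1 + v e.2) := ⟨_, rfl⟩
  have hLS := hD2 m hm1 (Rw I) (Cw I) Y (by rw [hY]; exact hDs)
  obtain ⟨hco, h', hH⟩ := hinv Li (ℤ × ℤ) m (I2 (Rw I) (Cw I)) L2 (Rw I ×ˢ Cw I) Y (fun _ => 0) ga hm1 hLS
  rw [lf_J hR hC, ← hY]
  obtain ⟨J, hJ⟩ : ∃ J : Finset Li, J = I2 (Rw I) (Cw I) := ⟨_, rfl⟩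
  have hJI : I.filter rc = J := by rw [hJ]; exact lf_J hR hC
  have hJc : (J.card : ℝ) ≤ 2 * m := by
    have h1 : J.card ≤ (Rw I).card + (Cw I).card := by
      rw [hJ]
      unfold I2
      exact (card_union_le _ _).trans (Nat.add_le_add card_image_le card_image_le)
    rw [cR, cC] at h1
    have h2 : (J.card : ℝ) ≤ ((m + m : ℕ) : ℝ) := by exact_mod_cast h1
    push_cast at h2
    linarith
  rw [← hJ] at hco hH ⊢
  obtain ⟨A2, hA2⟩ : ∃ A2 : Li → Li → ℝ, A2 = AA L2 (Rw I ×ˢ Cw I) Y ga m := ⟨_, rfl⟩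
  obtain ⟨E, hE⟩ : ∃ E : Li → Li → ℝ, E = EE N m I z Y := ⟨_, rfl⟩
  have hSc : Sc N m I z = fun l l' => A2 l l' + E l l' := by
    funext l l'
    rw [hA2, hE]
    unfold EE
    ring
  have hEs : ∀ l l', E l l' = E l' l := by
    intro l l'
    rw [hE]
    exact lf_sym N m I z Y l l'
  have hAs : ∀ l l', A2 l l' = A2 l' l := by
    intro l l'
    rw [hA2]
    unfold AA
    rw [mm_sym L2 _ Y l l']
    by_cases h : l = l'
    · rw [if_pos h, if_pos h.symm]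
      ring
    · rw [if_neg h, if_neg (fun h2 => h h2.symm)]
      ring
  -- the diagonal entries
  have hw0 : ∀ e, 0 < wt z e := fun e => Real.exp_pos _
  have hup := hL.reg.up
  have hq0 : ∀ e, 0 ≤ 2 * wt z e ^ 2 / (1 + wt z e) := fun e => by
    have := hw0 e
    positivity
  have hline : ∀ l ∈ I, ∑ e ∈ Sl N I l, wt z e ≤ 1 := by
    intro l hl
    have h1 := hL.reg.st l hl
    have h2 : 0 ≤ dg l * Real.exp (z l) := by
      refine mul_nonneg ?_ (Real.exp_pos _).le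
      unfold dg
      split_ifs <;> norm_num
    linarith
  have hdiag : ∀ l ∈ I, |E l l| ≤ 2 * K / m := by
    intro l hl
    rw [hE, lf_diag, abs_neg, abs_of_nonneg (Finset.sum_nonneg fun e _ => hq0 e)]
    have h1 : ∑ e ∈ Sl N I l, 2 * wt z e ^ 2 / (1 + wt z e) ≤ ∑ e ∈ Sl N I l, 2 * K / m * wt z e := by
      refine Finset.sum_le_sum fun e he => ?_
      have h2 := hw0 e
      have h3 := hup e (mem_Sl.1 he).1
      rw [div_le_iff₀ (by linarith)]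
      have h4 : 2 * K / (m : ℝ) = 2 * (K / m) := by ring
      rw [h4]
      have h5 : wt z e * wt z e ≤ K / m * wt z e := mul_le_mul_of_nonneg_right h3 h2.le
      have h6 : 0 ≤ K / m * wt z e * wt z e := by positivity
      nlinarith
    rw [← Finset.mul_sum] at h1
    have h7 : 2 * K / (m : ℝ) * ∑ e ∈ Sl N I l, wt z e ≤ 2 * K / m * 1 :=
      mul_le_mul_of_nonneg_left (hline l hl) (by positivity)
    linarith
  have hoff : ∀ l ∈ J, ∀ l' ∈ J, l ≠ l' → |E l l'| ≤ (8 * K * C1 + 6 * K ^ 2) / m ^ 2 := by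
    intro l hl l' hl' hne
    rw [hE, hY]
    exact lf_off hK hC1 hm0 hmC (fun e he => ⟨(hsq e he).1, (hsq e he).2.1, (hsq e he).2.2.1, (hsq e he).2.2.2.1,
      (hsq e he).2.2.2.2.1⟩) hup hu hv (hJ ▸ hl) (hJ ▸ hl') hne
  have hJsub : ∀ l ∈ J, l ∈ I := fun l hl => by
    rw [← hJI] at hl
    exact (mem_filter.1 hl).1
  -- row sums
  have hrs : ∀ l ∈ J, ∑ l' ∈ J, |E l l'| ≤ P / m := by
    intro l hl
    have h1 : ∀ l' ∈ J, |E l l'| ≤ (if l = l' then 2 * K / (m : ℝ) else 0) + (8 * K * C1 + 6 * K ^ 2) / m ^ 2 := by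
      intro l' hl'
      have h2 : 0 ≤ (8 * K * C1 + 6 * K ^ 2) / (m : ℝ) ^ 2 := by positivity
      by_cases h : l = l'
      · rw [if_pos h, ← h]
        have := hdiag l (hJsub l hl)
        linarith
      · rw [if_neg h]
        have := hoff l hl l' hl' h
        linarith
    refine (Finset.sum_le_sum h1).trans ?_
    rw [Finset.sum_add_distrib, Finset.sum_ite_eq, if_pos hl, Finset.sum_const, nsmul_eq_mul]
    have h3 : (J.card : ℝ) * ((8 * K * C1 + 6 * K ^ 2) / m ^ 2) ≤ 2 * m * ((8 * K * C1 + 6 * K ^ 2) / m ^ 2) :=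
      mul_le_mul_of_nonneg_right hJc (by positivity)
    have h4 : P / (m : ℝ) = 2 * K / m + 2 * m * ((8 * K * C1 + 6 * K ^ 2) / m ^ 2) := by
      rw [hP]
      field_simp
    rw [h4]
    linarith
  have hPm : 0 < P / m := by positivity
  have hεl : P / m ≤ lam2 / 2 := by
    rw [div_le_iff₀ hm0]
    rw [div_le_iff₀ hl0] at hmP
    linarith
  have hsq2 : ∑ l ∈ J, ∑ l' ∈ J, E l l' ^ 2 ≤ 2 * P ^ 2 / m := by
    have h1 : ∀ l ∈ J, ∑ l' ∈ J, E l l' ^ 2 ≤ (P / m) ^ 2 := by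
      intro l hl
      have h2 : ∀ l' ∈ J, E l l' ^ 2 ≤ P / m * |E l l'| := by
        intro l' hl'
        have h3 : |E l l'| ≤ P / m :=
          (Finset.single_le_sum (f := fun l' => |E l l'|) (fun i _ => abs_nonneg _) hl').trans (hrs l hl)
        rw [← sq_abs, pow_two]
        exact mul_le_mul_of_nonneg_right h3 (abs_nonneg _)
      refine (Finset.sum_le_sum h2).trans ?_
      rw [← Finset.mul_sum, pow_two]
      exact mul_le_mul_of_nonneg_left (hrs l hl) hPm.le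
    refine (Finset.sum_le_sum h1).trans ?_
    rw [Finset.sum_const, nsmul_eq_mul]
    have h4 : (J.card : ℝ) * (P / m) ^ 2 ≤ 2 * m * (P / m) ^ 2 := mul_le_mul_of_nonneg_right hJc (sq_nonneg _)
    have h5 : 2 * (m : ℝ) * (P / m) ^ 2 = 2 * P ^ 2 / m := by
      field_simp
    linarith
  have hpert := ld_pert (J := J) (A := A2) (E := E) (h' := h') (ε := P / m) hl0 hAs hEs
    (by rw [hA2]; exact hco) (by rw [hA2]; exact hH.inv) hrs hεl
  rw [← hSc] at hpert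
  -- the trace
  have htr : ∑ l ∈ J, ∑ l' ∈ J, h' l l' * E l' l = ∑ l ∈ J, E l l +
      ∑ l ∈ J, ∑ l' ∈ J, (h' l l' - if l = l' then 1 else 0) * E l' l := by
    rw [← Finset.sum_add_distrib]
    refine Finset.sum_congr rfl fun l hl => ?_
    have h1 : E l l = ∑ l' ∈ J, (if l = l' then 1 else 0) * E l' l := by
      simp only [ite_mul, one_mul, zero_mul]
      rw [Finset.sum_ite_eq, if_pos hl]
    rw [h1, ← Finset.sum_add_distrib]
    exact Finset.sum_congr rfl fun l' _ => by ring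
  have hR1 : |∑ l ∈ J, ∑ l' ∈ J, (h' l l' - if l = l' then 1 else 0) * E l' l| ≤ 2 * C2 * P / m := by
    have h1 : |∑ l ∈ J, ∑ l' ∈ J, (h' l l' - if l = l' then 1 else 0) * E l' l| ≤
        ∑ l ∈ J, C2 / m * (P / m) := by
      refine (Finset.abs_sum_le_sum_abs _ _).trans (Finset.sum_le_sum fun l hl => ?_)
      refine (Finset.abs_sum_le_sum_abs _ _).trans ?_
      have h2 : ∀ l' ∈ J, |(h' l l' - if l = l' then 1 else 0) * E l' l| ≤ C2 / m * |E l l'| := by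
        intro l' hl'
        rw [abs_mul, hEs l' l]
        exact mul_le_mul_of_nonneg_right (hH.en l hl l' hl') (abs_nonneg _)
      refine (Finset.sum_le_sum h2).trans ?_
      rw [← Finset.mul_sum]
      exact mul_le_mul_of_nonneg_left (hrs l hl) (by positivity)
    rw [Finset.sum_const, nsmul_eq_mul] at h1
    have h3 : (J.card : ℝ) * (C2 / m * (P / m)) ≤ 2 * m * (C2 / m * (P / m)) :=
      mul_le_mul_of_nonneg_right hJc (by positivity)
    have h4 : 2 * (m : ℝ) * (C2 / m * (P / m)) = 2 * C2 * P / m := by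
      field_simp
    linarith
  have hsumw : ∑ e ∈ Sq N I, wt z e = m := by
    rw [sum_sq_rc hL.vd, Finset.sum_congr rfl hrow, Finset.sum_const, cR, nsmul_eq_mul, mul_one]
  have htd : ∑ l ∈ J, E l l = -(2 * ∑ e ∈ Sq N I, 2 * wt z e ^ 2 / (1 + wt z e)) := by
    have h1 : ∑ l ∈ J, E l l = -∑ l ∈ I, ∑ e ∈ Sl N I l, (if rc l then 2 * wt z e ^ 2 / (1 + wt z e) else 0) := by
      rw [← hJI, Finset.sum_filter, ← Finset.sum_neg_distrib]
      refine Finset.sum_congr rfl fun l _ => ?_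
      by_cases h : rc l
      · rw [if_pos h, hE, lf_diag]
        congr 1
        exact Finset.sum_congr rfl fun e _ => (if_pos h).symm
      · rw [if_neg h, Finset.sum_congr rfl fun e _ => if_neg h, Finset.sum_const_zero, neg_zero]
    rw [h1, line_sum (fun e l => if rc l then 2 * wt z e ^ 2 / (1 + wt z e) else 0), Finset.mul_sum]
    congr 1
    refine Finset.sum_congr rfl fun e _ => ?_
    rw [Fin.sum_univ_four]
    have r0 : rc ((0, ln 0 e) : Li) := by show ((0 : Fin 4) : ℕ) < 2; decide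
    have r1 : rc ((1, ln 1 e) : Li) := by show ((1 : Fin 4) : ℕ) < 2; decide
    have r2 : ¬ rc ((2, ln 2 e) : Li) := by show ¬ ((2 : Fin 4) : ℕ) < 2; decide
    have r3 : ¬ rc ((3, ln 3 e) : Li) := by show ¬ ((3 : Fin 4) : ℕ) < 2; decide
    rw [if_pos r0, if_pos r1, if_neg r2, if_neg r3]
    ring
  have hq : |∑ l ∈ J, E l l + 4 * ∑ e ∈ Sq N I, wt z e ^ 2| ≤ 4 * K ^ 2 / m := by
    have h1 : ∑ l ∈ J, E l l + 4 * ∑ e ∈ Sq N I, wt z e ^ 2 =
        ∑ e ∈ Sq N I, (4 * wt z e ^ 2 - 2 * (2 * wt z e ^ 2 / (1 + wt z e))) := by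
      rw [htd, Finset.mul_sum, Finset.mul_sum, Finset.sum_sub_distrib]
      ring
    rw [h1]
    refine (Finset.abs_sum_le_sum_abs _ _).trans ?_
    have h2 : ∀ e ∈ Sq N I, |4 * wt z e ^ 2 - 2 * (2 * wt z e ^ 2 / (1 + wt z e))| ≤ 4 * (K / m) ^ 2 * wt z e := by
      intro e he
      have h3 := hw0 e
      have h4 := hup e he
      have h5 : 4 * wt z e ^ 2 - 2 * (2 * wt z e ^ 2 / (1 + wt z e)) = 4 * (wt z e ^ 3 / (1 + wt z e)) := by
        have h6 : (1 + wt z e) ≠ 0 := by positivity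
        field_simp
        ring
      rw [h5, abs_of_nonneg (by positivity)]
      have h7 : wt z e ^ 3 / (1 + wt z e) ≤ wt z e ^ 3 := div_le_self (by positivity) (by linarith)
      have h8 : wt z e ^ 2 ≤ (K / m) ^ 2 := pow_le_pow_left₀ h3.le h4 2
      have h9 : wt z e ^ 3 ≤ (K / m) ^ 2 * wt z e := by
        have : wt z e ^ 3 = wt z e ^ 2 * wt z e := by ring
        rw [this]
        exact mul_le_mul_of_nonneg_right h8 h3.le
      linarith
    refine (Finset.sum_le_sum h2).trans ?_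
    rw [← Finset.mul_sum, hsumw]
    apply le_of_eq
    field_simp
  -- the quadratic term
  have hQ : |∑ l ∈ J, ∑ k ∈ J, (∑ l' ∈ J, h' l l' * E l' k) * (∑ l' ∈ J, h' k l' * E l' l)| ≤
      C2 * (2 * P ^ 2 / m) := by
    have h1 : ∀ k ∈ J, ∑ l ∈ J, (∑ l' ∈ J, h' l l' * E l' k) ^ 2 ≤ C2 * ∑ l' ∈ J, E l' k ^ 2 :=
      fun k _ => hH.op (fun l' => E l' k)
    have h2 : ∑ l ∈ J, ∑ k ∈ J, (∑ l' ∈ J, h' l l' * E l' k) ^ 2 ≤ C2 * (2 * P ^ 2 / m) := by
      rw [Finset.sum_comm]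
      refine (Finset.sum_le_sum h1).trans ?_
      rw [← Finset.mul_sum]
      refine mul_le_mul_of_nonneg_left ?_ (by linarith)
      refine le_trans (le_of_eq ?_) hsq2
      exact Finset.sum_congr rfl fun l _ => Finset.sum_congr rfl fun l' _ => by rw [hEs]
    have h3 : |∑ l ∈ J, ∑ k ∈ J, (∑ l' ∈ J, h' l l' * E l' k) * (∑ l' ∈ J, h' k l' * E l' l)| ≤
        ∑ l ∈ J, ∑ k ∈ J, ((∑ l' ∈ J, h' l l' * E l' k) ^ 2 / 2 + (∑ l' ∈ J, h' k l' * E l' l) ^ 2 / 2) := by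
      refine (Finset.abs_sum_le_sum_abs _ _).trans (Finset.sum_le_sum fun l _ => ?_)
      refine (Finset.abs_sum_le_sum_abs _ _).trans (Finset.sum_le_sum fun k _ => ?_)
      rw [abs_le]
      constructor <;>
        nlinarith [sq_nonneg ((∑ l' ∈ J, h' l l' * E l' k) + (∑ l' ∈ J, h' k l' * E l' l)),
          sq_nonneg ((∑ l' ∈ J, h' l l' * E l' k) - (∑ l' ∈ J, h' k l' * E l' l))]
    refine h3.trans (le_trans (le_of_eq ?_) h2)
    simp only [Finset.sum_add_distrib, ← Finset.sum_div]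
    have h4 : ∑ l ∈ J, ∑ k ∈ J, (∑ l' ∈ J, h' k l' * E l' l) ^ 2 =
        ∑ l ∈ J, ∑ k ∈ J, (∑ l' ∈ J, h' l l' * E l' k) ^ 2 := Finset.sum_comm
    rw [h4]
    ring
  have herr : 2 * (P / m) / lam2 ^ 3 * ∑ l ∈ J, ∑ l' ∈ J, E l l' ^ 2 ≤ 4 * P ^ 3 / lam2 ^ 3 / m := by
    have h1 : 2 * (P / m) / lam2 ^ 3 * ∑ l ∈ J, ∑ l' ∈ J, E l l' ^ 2 ≤ 2 * (P / m) / lam2 ^ 3 * (2 * P ^ 2 / m) :=
      mul_le_mul_of_nonneg_left hsq2 (by positivity)
    have h2 : 2 * (P / m) / lam2 ^ 3 * (2 * P ^ 2 / m) = 4 * P ^ 3 / lam2 ^ 3 / m * (1 / m) := by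
      field_simp
      ring
    have h3 : 4 * P ^ 3 / lam2 ^ 3 / (m : ℝ) * (1 / m) ≤ 4 * P ^ 3 / lam2 ^ 3 / m * 1 := by
      refine mul_le_mul_of_nonneg_left ?_ (by positivity)
      rw [div_le_one hm0]
      exact hmR
    linarith
  rw [htr] at hpert
  obtain ⟨T1, hT1⟩ : ∃ T : ℝ, T = ∑ l ∈ J, E l l := ⟨_, rfl⟩
  obtain ⟨T2, hT2⟩ : ∃ T : ℝ, T = ∑ l ∈ J, ∑ l' ∈ J, (h' l l' - if l = l' then 1 else 0) * E l' l := ⟨_, rfl⟩
  obtain ⟨T3, hT3⟩ : ∃ T : ℝ, T = ∑ l ∈ J, ∑ k ∈ J, (∑ l' ∈ J, h' l l' * E l' k) * (∑ l' ∈ J, h' k l' * E l' l) :=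
    ⟨_, rfl⟩
  rw [← hT1, ← hT2, ← hT3] at hpert
  rw [← hT2] at hR1
  rw [← hT1] at hq
  rw [← hT3] at hQ
  rw [← hA2]
  have hfin : (4 * P ^ 3 / lam2 ^ 3 + C2 * P ^ 2 + 2 * C2 * P + 4 * K ^ 2) / (m : ℝ) =
      4 * P ^ 3 / lam2 ^ 3 / m + C2 * (2 * P ^ 2 / m) / 2 + 2 * C2 * P / m + 4 * K ^ 2 / m := by
    field_simp
  rw [hfin]
  have k1 := (abs_le.1 (hpert.trans herr))
  have k2 := abs_le.1 hR1
  have k3 := abs_le.1 hq
  have k4 := abs_le.1 hQ
  rw [abs_le]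
  constructor
  · linarith [k1.1, k2.1, k3.1, k4.1, k4.2]
  · linarith [k1.2, k2.2, k3.2, k4.1, k4.2]

end Pool.Agent.NQF
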