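import Pool.Agent.NQF.RDef
import Pool.Agent.NQF.RLkA
import Pool.Agent.NQF.RLkB
import Pool.Agent.NQF.RLkC
import Pool.Agent.NQF.RLkD
import Pool.Agent.NQF.RLkE
import Pool.Agent.NQF.RLkF

/-!
# NQF-RLink: instances without common diagonals: number of placements (assembly)
-/

set_option autoImplicit false

open Finset

namespace Pool.Agent.NQF

open Pool.Agent.NQ (board dsum F Ent Dg phi ln Q Qset QS NonAtt bern)
open Pool.Agent.NQR (Adm Opt Bd Rf hS hD hh InR)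
open Pool.Agent.NQL

theorem link (hP : PermAsym) (hD : DsLs) (hS : Scal) (K lam c : ℝ) (hK : 1 ≤ K) (hl : 0 < lam)
    (hl1 : lam ≤ 1) (hc : 0 < c) : ∃ (C : ℝ) (mB : ℕ), 1 ≤ C ∧ 1 ≤ mB ∧
    ∀ (N m : ℕ) (I : Finset Li) (z : Li → ℝ), mB ≤ m → Lk K lam c N m I z →
      0 < zz N m I ∧ |Real.log (zz N m I) - V2 N m I z| ≤ C / m := by
  obtain ⟨Cs, ms, hCs, hms, hs⟩ := lk_scal hS K lam c hK hc
  obtain ⟨Cp, mp, hCp, hp⟩ := hP (8 * K) (c / 2) (by linarith) (by linarith)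
  obtain ⟨Cq, mq, hCq, hmq, hq⟩ := lk_pot K lam c Cs hK hc hCs
  obtain ⟨Ce, me, hCe, hme, he⟩ := lk_schur K lam c hK hl hl1
  obtain ⟨Cf, mf, hCf, hmf, hf⟩ := lk_two hD K lam c Cs hK hc hCs
  obtain ⟨m1, hm1⟩ := exists_nat_ge (4 * K)
  refine ⟨Cp + 2 * K ^ 2 + Cq + Ce + Cf, ms + mp + mq + me + mf + m1, by nlinarith, by omega, ?_⟩
  intro N m I z hm h
  have hmK : 4 * K ≤ m := hm1.trans (by exact_mod_cast (by omega : m1 ≤ m))
  have hm0 : (0 : ℝ) < m := by linarith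
  obtain ⟨u, v, hu, hv, hds, hzz⟩ := hs N m I z (by omega) h
  obtain ⟨hpe, hlog⟩ := hp m (by omega) (Rw I) (Cw I) _ hds
  have h1 := hq N m I z u v (by omega) h hu hv hds
  have h2 := he N m I z (by omega) h
  have h3 := hf N m I z u v (by omega) h hu hv hds
  have h4 := lk_val hK hmK h
  refine ⟨by rw [hzz]; exact mul_pos (Real.exp_pos _) hpe, ?_⟩
  rw [hzz, Real.log_mul (Real.exp_pos _).ne' hpe.ne', Real.log_exp]
  unfold V2
  unfold Vp at hlog
  rw [sum_add_distrib, sum_add_distrib]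
  rw [abs_le] at hlog h1 h2 h3 h4 ⊢
  have e : (Cp + 2 * K ^ 2 + Cq + Ce + Cf) / m = Cp / m + 2 * K ^ 2 / m + Cq / m + Ce / m + Cf / m := by
    rw [add_div, add_div, add_div, add_div]
  have p1 : 0 ≤ Ce / m := by positivity
  have p2 : 0 ≤ Cf / m := by positivity
  rw [e]
  constructor
  · linarith [hlog.1, h1.2, h2.1, h3.1, h4.2]
  · linarith [hlog.2, h1.1, h2.2, h3.2, h4.1]

end Pool.Agent.NQF
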