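import Pool.Agent.NQF.RDef
import Pool.Agent.NQL.ABas
import Pool.Agent.NQL.BNom
import Pool.Agent.NQL.CFam
import Pool.Agent.NQL.CGam
import Pool.Agent.NQL.CBin
import Pool.Agent.NQL.CPar
import Pool.Agent.NQL.CPsD

/-!
# NQF-RPsI: the initial value of the supermartingale function with a parameter

The proof of `NQL.psi_init` (NQL/CPsI.lean) with a parameter `η` instead of `1/100`: the five sums contribute at most
`4 η + 8 η + η + η + η = 15 η`.
-/

set_option autoImplicit false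

open Finset

namespace Pool.Agent.NQF

open Pool.Agent.NQ (board dsum F Ent Dg phi ln Q Qset QS NonAtt bern)
open Pool.Agent.NQR (Adm Opt Bd Rf hS hD hh InR)
open Pool.Agent.NQL

private theorem card_rc {N : ℕ} (hN : 1 ≤ N) :
    (((full N).filter (fun l => rc l)).card : ℝ) ≤ 2 * N ∧
    (((full N).filter (fun l => ¬ rc l)).card : ℝ) ≤ 4 * N := by
  have hv := vd_full hN
  have h0 := hv.crc 0 (by decide)
  have h1 := hv.crc 1 (by decide)
  have h2 := hv.cdg 2 (by decide)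
  have h3 := hv.cdg 3 (by decide)
  constructor
  · have hsub : (full N).filter (fun l => rc l) ⊆
        (full N).filter (fun l => l.1 = 0) ∪ (full N).filter (fun l => l.1 = 1) := by
      rintro ⟨k, y⟩ hl
      rw [Finset.mem_filter] at hl
      rw [Finset.mem_union, Finset.mem_filter, Finset.mem_filter]
      have hk : (k : ℕ) < 2 := hl.2
      fin_cases k
      · exact Or.inl ⟨hl.1, rfl⟩
      · exact Or.inr ⟨hl.1, rfl⟩
      · exact absurd hk (by decide)
      · exact absurd hk (by decide)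
    have h4 := (Finset.card_le_card hsub).trans (Finset.card_union_le _ _)
    rw [h0, h1] at h4
    have h5 : (((full N).filter (fun l => rc l)).card : ℝ) ≤ ((N + N : ℕ) : ℝ) := by exact_mod_cast h4
    push_cast at h5
    linarith
  · have hsub : (full N).filter (fun l => ¬ rc l) ⊆
        (full N).filter (fun l => l.1 = 2) ∪ (full N).filter (fun l => l.1 = 3) := by
      rintro ⟨k, y⟩ hl
      rw [Finset.mem_filter] at hl
      rw [Finset.mem_union, Finset.mem_filter, Finset.mem_filter]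
      have hk : ¬ (k : ℕ) < 2 := hl.2
      fin_cases k
      · exact absurd (by decide) hk
      · exact absurd (by decide) hk
      · exact Or.inl ⟨hl.1, rfl⟩
      · exact Or.inr ⟨hl.1, rfl⟩
    have h4 := (Finset.card_le_card hsub).trans (Finset.card_union_le _ _)
    have h5 : ((full N).filter (fun l => ¬ rc l)).card ≤ 4 * N := by omega
    exact_mod_cast h5

private theorem sum_rc {N : ℕ} (hN : 1 ≤ N) {a b : ℝ} (ha : 0 ≤ a) (hb : 0 ≤ b) (f : Li → ℝ)
    (h1 : ∀ l ∈ full N, rc l → f l ≤ a) (h2 : ∀ l ∈ full N, ¬ rc l → f l ≤ b) :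
    ∑ l ∈ full N, f l ≤ 2 * N * a + 4 * N * b := by
  obtain ⟨c1, c2⟩ := card_rc hN
  rw [← Finset.sum_filter_add_sum_filter_not (full N) (fun l => rc l)]
  have h3 : ∑ l ∈ (full N).filter (fun l => rc l), f l ≤ (((full N).filter (fun l => rc l)).card : ℝ) * a := by
    rw [← nsmul_eq_mul, ← Finset.sum_const]
    exact Finset.sum_le_sum fun l hl => h1 l (Finset.mem_filter.1 hl).1 (Finset.mem_filter.1 hl).2
  have h4 : ∑ l ∈ (full N).filter (fun l => ¬ rc l), f l ≤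
      (((full N).filter (fun l => ¬ rc l)).card : ℝ) * b := by
    rw [← nsmul_eq_mul, ← Finset.sum_const]
    exact Finset.sum_le_sum fun l hl => h2 l (Finset.mem_filter.1 hl).1 (Finset.mem_filter.1 hl).2
  have h5 := mul_le_mul_of_nonneg_right c1 ha
  have h6 := mul_le_mul_of_nonneg_right c2 hb
  linarith

theorem psi_init2 {L c1 C1 c2 C2 Cn1 Cn2 t1 η : ℝ} (hL : 1 ≤ L) (hc1 : 1 ≤ c1) (hC1 : 1 ≤ C1) (hc2 : 1 ≤ c2)
    (hC2 : 1 ≤ C2) (hn1 : 0 ≤ Cn1) (hn2 : 0 ≤ Cn2) {γ b : ℕ → ℝ} {m0 m1 N : ℕ} {W : ℤ × ℤ → ℝ} {A B : ℤ → ℝ}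
    (hR : Rf L N W A B) (h0 : 1 ≤ m0) (hN : 2 ≤ N) (hγ : ∀ k, 0 < γ k)
    (hB : ∀ k : ℕ, m0 ≤ k → k ≤ N → Bs b N - Bs b k ≤ γ k / 2)
    (hB2 : ∀ k : ℕ, m0 ≤ k → k ≤ N → c2 * (Bs b N - Bs b k) ≤ 1 / (4 * L ^ 2))
    (s1 : ∑ k ∈ Finset.Icc m0 N, (k : ℝ) * Real.exp (C1 - γ k ^ 2 * k / (16 * c1 ^ 2)) ≤ η)
    (s2 : ∑ k ∈ (Finset.Icc m0 N).filter (fun k : ℕ => t1 * N ≤ (k : ℝ)),
          (N : ℝ) * Real.exp (C1 - γ k ^ 2 * k / (16 * c1 ^ 2)) ≤ η)
    (s3 : ∑ k ∈ Finset.Icc m0 N, (k : ℝ) ^ 2 * Real.exp (C2 - 1 / (64 * L ^ 4 * c2 ^ 2) * k) ≤ η)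
    (s4 : ∑ k ∈ Finset.Ioc m1 N, 4 * (N : ℝ) * (Real.exp Cn1 * (1 / 4) ^ Nat.sqrt k) ≤ η)
    (s5 : ∑ k ∈ Finset.Icc 1 m1, 4 * Real.exp Cn2 * (k : ℝ) ^ 4 / N ≤ η) (hm1 : m1 ≤ N) :
    Psi L c1 C1 c2 C2 Cn1 Cn2 t1 γ b m0 m1 N W N (full N) ≤ 15 * η := by
  have hN1 : 1 ≤ N := by omega
  have hN0 : (0 : ℝ) < (N : ℝ) := by exact_mod_cast hN1
  set E1 : ℕ → ℝ := fun k => Real.exp (C1 - γ k ^ 2 * k / (16 * c1 ^ 2)) with hE1
  have hE0 : ∀ k, 0 ≤ E1 k := fun k => (Real.exp_pos _).le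
  have hk : ∀ k ∈ Finset.Icc m0 N,
    ((∑ l ∈ full N, if rc l ∨ t1 * N ≤ (k : ℝ) then
        EL c1 C1 γ b N W k N (full N) l 1 + EL c1 C1 γ b N W k N (full N) l (-1) else 0) +
      (∑ x ∈ Finset.Ico (0 : ℤ) N, ∑ x' ∈ Finset.Ico (0 : ℤ) N,
        if x = x' then 0 else EG L c2 C2 b N W k N (full N) x x') +
      (∑ l ∈ full N, if ¬ rc l ∧ m1 < k then EN Cn1 N k N (full N) l else 0) +
      (if k ≤ m1 then EP Cn2 N k N (full N) else 0)) ≤
      4 * ((k : ℝ) * E1 k) + 8 * (if t1 * N ≤ (k : ℝ) then (N : ℝ) * E1 k else 0) +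
        (k : ℝ) ^ 2 * Real.exp (C2 - 1 / (64 * L ^ 4 * c2 ^ 2) * k) +
        (if m1 < k then 4 * (N : ℝ) * (Real.exp Cn1 * (1 / 4) ^ Nat.sqrt k) else 0) +
        (if k ≤ m1 then 4 * Real.exp Cn2 * (k : ℝ) ^ 4 / N else 0) := by
    intro k hkm
    rw [Finset.mem_Icc] at hkm
    have hk1 : 1 ≤ k := h0.trans hkm.1
    have hk0 : (0 : ℝ) ≤ (k : ℝ) := Nat.cast_nonneg k
    have e1 : (∑ l ∈ full N, if rc l ∨ t1 * N ≤ (k : ℝ) then
        EL c1 C1 γ b N W k N (full N) l 1 + EL c1 C1 γ b N W k N (full N) l (-1) else 0) ≤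
        4 * ((k : ℝ) * E1 k) + 8 * (if t1 * N ≤ (k : ℝ) then (N : ℝ) * E1 k else 0) := by
      have h1 := sum_rc (N := N) hN1 (a := 2 * ((k : ℝ) / N * E1 k))
        (b := if t1 * N ≤ (k : ℝ) then 2 * E1 k else 0)
        (by have := hE0 k; positivity) (by
          split_ifs
          · have := hE0 k
            positivity
          · exact le_rfl)
        (fun l => if rc l ∨ t1 * N ≤ (k : ℝ) then
          EL c1 C1 γ b N W k N (full N) l 1 + EL c1 C1 γ b N W k N (full N) l (-1) else 0) (by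
          intro l hl hrc
          have a1 := el_start hL hc1 hC1 hR hk1 hkm.2 hN (hγ k) (hB k hkm.1 hkm.2) hl (s := 1)
          have a2 := el_start hL hc1 hC1 hR hk1 hkm.2 hN (hγ k) (hB k hkm.1 hkm.2) hl (s := -1)
          rw [if_pos hrc, pow_one] at a1 a2
          rw [if_pos (Or.inl hrc)]
          simp only [hE1]
          linarith) (by
          intro l hl hrc
          have a1 := el_start hL hc1 hC1 hR hk1 hkm.2 hN (hγ k) (hB k hkm.1 hkm.2) hl (s := 1)
          have a2 := el_start hL hc1 hC1 hR hk1 hkm.2 hN (hγ k) (hB k hkm.1 hkm.2) hl (s := -1)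
          rw [if_neg hrc, pow_zero, one_mul] at a1 a2
          by_cases ht : t1 * N ≤ (k : ℝ)
          · rw [if_pos (Or.inr ht), if_pos ht]
            simp only [hE1]
            linarith
          · rw [if_neg (fun h => h.elim hrc ht), if_neg ht])
      refine h1.trans (le_of_eq ?_)
      by_cases ht : t1 * N ≤ (k : ℝ)
      · rw [if_pos ht, if_pos ht]
        field_simp
        ring
      · rw [if_neg ht, if_neg ht]
        field_simp
        ring
    have e2 : (∑ x ∈ Finset.Ico (0 : ℤ) N, ∑ x' ∈ Finset.Ico (0 : ℤ) N,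
        if x = x' then 0 else EG L c2 C2 b N W k N (full N) x x') ≤
        (k : ℝ) ^ 2 * Real.exp (C2 - 1 / (64 * L ^ 4 * c2 ^ 2) * k) := by
      have h1 : ∀ x ∈ Finset.Ico (0 : ℤ) N, ∀ x' ∈ Finset.Ico (0 : ℤ) N,
          (if x = x' then 0 else EG L c2 C2 b N W k N (full N) x x') ≤
          ((k : ℝ) / N) ^ 2 * Real.exp (C2 - k / (64 * L ^ 4 * c2 ^ 2)) := by
        intro x hx x' hx'
        split_ifs with hxx
        · positivity
        · exact eg_start hL hc2 hC2 hR hk1 hkm.2 hN (hB2 k hkm.1 hkm.2) (Finset.mem_Ico.1 hx)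
            (Finset.mem_Ico.1 hx')
      calc (∑ x ∈ Finset.Ico (0 : ℤ) N, ∑ x' ∈ Finset.Ico (0 : ℤ) N,
        if x = x' then 0 else EG L c2 C2 b N W k N (full N) x x') ≤
          ∑ x ∈ Finset.Ico (0 : ℤ) N, ∑ x' ∈ Finset.Ico (0 : ℤ) N,
            ((k : ℝ) / N) ^ 2 * Real.exp (C2 - k / (64 * L ^ 4 * c2 ^ 2)) :=
            Finset.sum_le_sum fun x hx => Finset.sum_le_sum fun x' hx' => h1 x hx x' hx'
        _ = (k : ℝ) ^ 2 * Real.exp (C2 - k / (64 * L ^ 4 * c2 ^ 2)) := by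
            simp only [Finset.sum_const, Int.card_Ico, nsmul_eq_mul, sub_zero, Int.toNat_natCast]
            field_simp
        _ = _ := by
            congr 2
            ring
    have e3 : (∑ l ∈ full N, if ¬ rc l ∧ m1 < k then EN Cn1 N k N (full N) l else 0) ≤
        (if m1 < k then 4 * (N : ℝ) * (Real.exp Cn1 * (1 / 4) ^ Nat.sqrt k) else 0) := by
      have h1 := sum_rc (N := N) hN1 (a := 0)
        (b := if m1 < k then (Real.exp Cn1 * (1 / 4) ^ Nat.sqrt k) else 0) le_rfl (by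
          split_ifs
          · positivity
          · exact le_rfl)
        (fun l => if ¬ rc l ∧ m1 < k then EN Cn1 N k N (full N) l else 0) (by
          intro l hl hrc
          rw [if_neg (fun h => h.1 hrc)]) (by
          intro l hl hrc
          by_cases hm : m1 < k
          · rw [if_pos ⟨hrc, hm⟩, if_pos hm]
            exact en_start hn1 hk1 hkm.2 hl
          · rw [if_neg (fun h => hm h.2), if_neg hm])
      refine h1.trans (le_of_eq ?_)
      by_cases hm : m1 < k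
      · rw [if_pos hm, if_pos hm]
        ring
      · rw [if_neg hm, if_neg hm]
        ring
    have e4 : (if k ≤ m1 then EP Cn2 N k N (full N) else 0) ≤
        (if k ≤ m1 then 4 * Real.exp Cn2 * (k : ℝ) ^ 4 / N else 0) := by
      by_cases hm : k ≤ m1
      · rw [if_pos hm, if_pos hm]
        exact ep_start hn2 hk1 hkm.2
      · rw [if_neg hm, if_neg hm]
    exact add_le_add (add_le_add (add_le_add e1 e2) e3) e4
  have hΨ : Psi L c1 C1 c2 C2 Cn1 Cn2 t1 γ b m0 m1 N W N (full N) ≤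
      ∑ k ∈ Finset.Icc m0 N, (4 * ((k : ℝ) * E1 k) + 8 * (if t1 * N ≤ (k : ℝ) then (N : ℝ) * E1 k else 0) +
        (k : ℝ) ^ 2 * Real.exp (C2 - 1 / (64 * L ^ 4 * c2 ^ 2) * k) +
        (if m1 < k then 4 * (N : ℝ) * (Real.exp Cn1 * (1 / 4) ^ Nat.sqrt k) else 0) +
        (if k ≤ m1 then 4 * Real.exp Cn2 * (k : ℝ) ^ 4 / N else 0)) := by
    unfold Psi
    refine Finset.sum_le_sum fun k hkk => ?_
    exact hk k hkk
  refine hΨ.trans ?_
  rw [Finset.sum_add_distrib, Finset.sum_add_distrib, Finset.sum_add_distrib, Finset.sum_add_distrib,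
    ← Finset.mul_sum, ← Finset.mul_sum, ← Finset.sum_filter]
  have t4 : ∑ k ∈ Finset.Icc m0 N, (if m1 < k then 4 * (N : ℝ) * (Real.exp Cn1 * (1 / 4) ^ Nat.sqrt k) else 0)
      ≤ η := by
    rw [← Finset.sum_filter]
    refine le_trans (Finset.sum_le_sum_of_subset_of_nonneg ?_ ?_) s4
    · intro k hkk
      rw [Finset.mem_filter, Finset.mem_Icc] at hkk
      rw [Finset.mem_Ioc]
      exact ⟨hkk.2, hkk.1.2⟩
    · intro k _ _
      positivity
  have t5 : ∑ k ∈ Finset.Icc m0 N, (if k ≤ m1 then 4 * Real.exp Cn2 * (k : ℝ) ^ 4 / N else 0)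
      ≤ η := by
    rw [← Finset.sum_filter]
    refine le_trans (Finset.sum_le_sum_of_subset_of_nonneg ?_ ?_) s5
    · intro k hkk
      rw [Finset.mem_filter, Finset.mem_Icc] at hkk
      rw [Finset.mem_Icc]
      exact ⟨h0.trans hkk.1.1, hkk.2⟩
    · intro k _ _
      positivity
  simp only [hE1] at *
  linarith

end Pool.Agent.NQF
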