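import Pool.Agent.NQF.RDef
import Pool.Agent.NQF.RPsI
import Pool.Agent.NQF.RCreg
import Pool.Agent.NQL.ABas
import Pool.Agent.NQL.BNom
import Pool.Agent.NQL.BFul
import Pool.Agent.NQL.CFam
import Pool.Agent.NQL.CGam
import Pool.Agent.NQL.CBin
import Pool.Agent.NQL.CPar
import Pool.Agent.NQL.CSeq
import Pool.Agent.NQL.CTail
import Pool.Agent.NQL.CPsD
import Pool.Agent.NQL.CPsV

/-!
# NQF-RPsi: existence of the supermartingale function with small initial value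

PLAN. Copy the proof of `NQL.exists_psi` (NQL/CPsi.lean) with `η = ε/15` instead of `1/100` (in `seqs`, `tail_exp`, `tail_bin`, `tail_par`), `psi_init2` instead of `psi_init`, `glo_reg2` instead of `glo_reg`.
-/

set_option autoImplicit false

open Finset

namespace Pool.Agent.NQF

open Pool.Agent.NQ (board dsum F Ent Dg phi ln Q Qset QS NonAtt bern)
open Pool.Agent.NQR (Adm Opt Bd Rf hS hD hh InR)
open Pool.Agent.NQL

theorem exists_psi2 (L Cp : ℝ) (hL : 1 ≤ L) (hCp : 0 ≤ Cp) (ε : ℝ) (hε : 0 < ε) (mX : ℕ) :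
    ∃ (t1 : ℝ) (m0 N0 : ℕ) (γ dd : ℕ → ℕ → ℝ), 0 < t1 ∧ mX ≤ m0 ∧ 2 ≤ m0 ∧ (∀ N m, 0 ≤ dd N m) ∧
    ∀ N : ℕ, N0 ≤ N → ∀ (W : ℤ × ℤ → ℝ) (A B : ℤ → ℝ), Rf L N W A B →
      ∀ m1 : ℕ, m1 ^ 6 ≤ N → N < (m1 + 1) ^ 6 → m0 ≤ m1 ∧ m0 < N ∧ GLo L t1 (γ N) m1 N N W (full N) ∧
      ∃ Ψ : ℕ → Finset Li → ℝ,
        (∀ m I, 0 ≤ Ψ m I) ∧
        (∀ m I, m0 ≤ m → m ≤ N → Vd N m I → ¬ GLo L t1 (γ N) m1 N m W I → 1 ≤ Ψ m I) ∧
        (∀ m I z π, m0 < m → m ≤ N → GLo L t1 (γ N) m1 N m W I → Reg (32 * L ^ 3) (1 / (3200 * L ^ 3)) N m I z →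
          Cl (dd N m) N m W I z → Tp Cp N m I z π → ∑ e ∈ Sq N I, π e * Ψ (m - 1) (rm I e) ≤ Ψ m I) ∧
        Ψ N (full N) ≤ ε ∧
        (∀ m I, m0 ≤ m → m ≤ N → GLo L t1 (γ N) m1 N m W I → ∃ z : Li → ℝ,
          Reg (32 * L ^ 3) (1 / (3200 * L ^ 3)) N m I z ∧ Cl (dd N m) N m W I z ∧
          ∀ e ∈ Sq N I, Wn N W m e / 2 ≤ wt z e) := by
  have hη : 0 < ε / 15 := by positivity
  have e15 : 15 * (ε / 15) = ε := by ring
  have hL3 : (1 : ℝ) ≤ L ^ 3 := one_le_pow₀ hL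
  have hL2 : (1 : ℝ) ≤ L ^ 2 := one_le_pow₀ hL
  have hK : (1 : ℝ) ≤ 32 * L ^ 3 := by linarith
  obtain ⟨c1, C1, c2, C2, hc1, hC1, hc2, hC2, HS⟩ := psi_step L (32 * L ^ 3) Cp hL hK hCp
  obtain ⟨εg, t1s, hεg, hεg4, ht1s, ht1s4, HG⟩ := glo_reg2 L hL
  obtain ⟨e0, he0def⟩ : ∃ e0 : ℝ, e0 = min εg (1 / (2 * L ^ 2 * c2)) := ⟨_, rfl⟩
  have he0 : 0 < e0 := by rw [he0def]; exact lt_min hεg (by positivity)
  have he0g : e0 ≤ εg := by rw [he0def]; exact min_le_left _ _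
  have he0c : e0 ≤ 1 / (2 * L ^ 2 * c2) := by rw [he0def]; exact min_le_right _ _
  obtain ⟨t1, ht1, ht1s', HQ⟩ := seqs L c1 C1 (7 + c1) e0 t1s hL hc1 hC1 (by linarith) he0 (by linarith) ht1s ht1s4
  obtain ⟨CB, ε'g, m0g, hCB, hε'g, hε'gε, hm0g, HR⟩ := HG t1 ht1 ht1s'
  obtain ⟨m02, γ, b, hm02, hγ, hb1, hb2, HN⟩ := HQ CB (min ε'g e0) (ε / 15) hCB (lt_min hε'g he0)
    (min_le_right _ _) hη
  obtain ⟨m03, hm03⟩ := tail_exp C2 (1 / (64 * L ^ 4 * c2 ^ 2)) (ε / 15) (by positivity) hη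
  obtain ⟨m0, hm0⟩ : ∃ m0 : ℕ, m0 = max (max mX m02) (max m0g m03) := ⟨_, rfl⟩
  have hm0X : mX ≤ m0 := by omega
  have hm02' : m02 ≤ m0 := by omega
  have hm0g' : m0g ≤ m0 := by omega
  have hm03' : m03 ≤ m0 := by omega
  have hm0two : 2 ≤ m0 := by omega
  obtain ⟨N1, HN1⟩ := HN m0 hm02'
  obtain ⟨N2, HN2⟩ := tail_bin (4 * (Cp + 32 * L ^ 3) + 2) (ε / 15) hη
  obtain ⟨N3, HN3⟩ := tail_par (16 * (Cp + 32 * L ^ 3) + 4) (ε / 15) hη
  obtain ⟨dd, hdd⟩ : ∃ dd : ℕ → ℕ → ℝ, dd = fun (N m : ℕ) => if t1 * (N : ℝ) ≤ (m : ℝ) then CB * γ N m else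
    16 * L ^ 3 * ((m : ℝ) / N + (m : ℝ) ^ (-(1 / 4) : ℝ)) := ⟨_, rfl⟩
  have hmac : ∀ N m : ℕ, t1 * N ≤ m → dd N m = CB * γ N m := by
    intro N m h
    rw [hdd]
    exact if_pos h
  have hmic : ∀ N m : ℕ, ¬ t1 * N ≤ m → dd N m = 16 * L ^ 3 * ((m : ℝ) / N + (m : ℝ) ^ (-(1 / 4) : ℝ)) := by
    intro N m h
    rw [hdd]
    exact if_neg h
  have hdd0 : ∀ N m, 0 ≤ dd N m := by
    intro N m
    by_cases h : t1 * N ≤ m
    · rw [hmac N m h]
      exact mul_nonneg (by linarith) (hγ N m).1.le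
    · rw [hmic N m h]
      positivity
  refine ⟨t1, m0, max (max N1 N2) (max N3 ((m0 + 1) ^ 6 + 2)), γ, dd, ht1, hm0X, hm0two, hdd0, ?_⟩
  intro N hN W A B hR m1 hm1 hm1'
  have hNN1 : N1 ≤ N := by omega
  have hNN2 : N2 ≤ N := by omega
  have hNN3 : N3 ≤ N := by omega
  have hNN4 : (m0 + 1) ^ 6 + 2 ≤ N := by omega
  have hm01 : m0 ≤ m1 := by
    by_contra h
    have h1 : m1 + 1 ≤ m0 + 1 := by omega
    have h2 : (m1 + 1) ^ 6 ≤ (m0 + 1) ^ 6 := Nat.pow_le_pow_left h1 6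
    omega
  have hm0N : m0 < N := by
    have h1 : m0 + 1 ≤ (m0 + 1) ^ 6 := Nat.le_self_pow (by norm_num) _
    omega
  have hm1N : m1 < N := by
    have h1 : m1 < m1 ^ 6 := by
      calc m1 = m1 ^ 1 := (pow_one _).symm
        _ < m1 ^ 6 := Nat.pow_lt_pow_right (by omega) (by norm_num)
    omega
  have hN2 : 2 ≤ N := by omega
  obtain ⟨_, _, hY, hC⟩ := full_st hL hN2 hR
  have hNpos : (0 : ℝ) < N := by
    have : 0 < N := by omega
    exact_mod_cast this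
  have hvf : Vd N N (full N) := vd_full (by omega)
  have hGf : GLo L t1 (γ N) m1 N N W (full N) := by
    refine ⟨hvf, ?_, ?_, ?_, ?_, ?_⟩
    · intro l hl hrc
      rw [hY l hl, tt_rc hrc]
      simpa using (hγ N N).1.le
    · intro _ l hl _
      rw [hY l hl]
      simpa using (hγ N N).1.le
    · intro _ l hl _
      have h1 := Sl_card hvf hl
      have h2 : ((Sl N (full N) l).card : ℝ) ≤ N := by exact_mod_cast h1
      have h3 : (N : ℝ) ^ 2 / N = N := by field_simp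
      have h4 : (0 : ℝ) ≤ (N : ℝ) ^ (3 / 4 : ℝ) := Real.rpow_nonneg hNpos.le _
      rw [h3]
      linarith
    · intro h
      omega
    · intro x x' hx hx' _
      obtain ⟨e, he, h⟩ := mem_full.1 hx
      obtain ⟨e', he', h'⟩ := mem_full.1 hx'
      rw [Pool.Agent.NQ.mem_board] at he he'
      simp only [Pool.Agent.NQ.ln_zero] at h h'
      have h3 := hC x x' (by omega) (by omega) (by omega) (by omega)
      refine le_trans ?_ h3
      apply one_div_le_one_div_of_le (by positivity)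
      linarith
  have hγ4 : ∀ k, 0 < γ N k ∧ γ N k ≤ 1 / 4 := by
    intro k
    exact ⟨(hγ N k).1, (hγ N k).2.1.trans (by linarith)⟩
  refine ⟨hm01, hm0N, hGf, Psi L c1 C1 c2 C2 (4 * (Cp + 32 * L ^ 3) + 2) (16 * (Cp + 32 * L ^ 3) + 4) t1
    (γ N) (b N) m0 m1 N W, ?_, ?_, ?_, ?_, ?_⟩
  · intro m I
    exact psi_nonneg _ _ _ _ _ _ _ _ _ _ _ _ _ _ _ _
  · intro m I hm hmN hv hG
    exact psi_viol hL hc1 hc2 (by omega) hm (fun k => (hγ N k).1) hv hG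
  · intro m I z π hm hmN hG hReg hCl hTp
    have hmpos : (0 : ℝ) < m := by
      have : 0 < m := by omega
      exact_mod_cast this
    have hbb : (7 + c1) * (dd N m + 1 / m) / m ≤ b N m := by
      by_cases h : t1 * N ≤ m
      · rw [hmac N m h]
        exact hb1 N m (by omega) hmN h
      · rw [hmic N m h]
        exact hb2 N m (by omega) hmN h
    have hd0 := hdd0 N m
    have h1m : 0 < 1 / (m : ℝ) := by positivity
    refine HS t1 (γ N) (b N) m0 m1 N m I W A B z π (dd N m) (by omega) hm hmN hR hG.vd hReg.st hReg.up hTp hCl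
      hγ4 hG.lrc hG.ldg ?_ ?_
    · refine le_trans ?_ hbb
      have hif : (if t1 * N ≤ m then γ N m else 0) ≤ dd N m := by
        by_cases h : t1 * N ≤ m
        · rw [if_pos h, hmac N m h]
          have := (hγ N m).1
          nlinarith
        · rw [if_neg h]
          exact hd0
      have e1 : c1 / (m : ℝ) ^ 2 = c1 * (1 / m) / m := by
        field_simp
      rw [e1, ← add_div]
      apply div_le_div_of_nonneg_right _ hmpos.le
      nlinarith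
    · refine le_trans ?_ hbb
      apply div_le_div_of_nonneg_right _ hmpos.le
      nlinarith
  · obtain ⟨H1, H2, H3⟩ := HN1 N hNN1
    refine (psi_init2 hL hc1 hC1 hc2 hC2 (by positivity) (by positivity) hR (by omega) hN2
      (fun k => (hγ N k).1) H1 ?_ H2 ?_ (hm03 m0 N hm03') (HN2 N m1 hNN2 hm1') (HN3 N m1 hNN3 hm1)
      hm1N.le).trans e15.le
    · intro k hk hkN
      have h1 := H1 k hk hkN
      have h2 := (hγ N k).2.1
      have h3 : Bs (b N) N - Bs (b N) k ≤ e0 / 2 := by linarith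
      calc c2 * (Bs (b N) N - Bs (b N) k) ≤ c2 * (e0 / 2) := mul_le_mul_of_nonneg_left h3 (by linarith)
        _ ≤ c2 * (1 / (2 * L ^ 2 * c2) / 2) := by
            apply mul_le_mul_of_nonneg_left _ (by linarith)
            linarith
        _ = 1 / (4 * L ^ 2) := by
            field_simp
            ring
    · convert H3 using 2
  · intro m I hm hmN hG
    obtain ⟨z, hz1, hz2, hz3⟩ := HR (γ N) m1 N m I W A B (by omega) hmN hR ((hγ N m).2.1.trans he0g)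
      (fun h => ⟨(hγ N m).1.le, ((hγ N m).2.2 h).trans (min_le_left _ _)⟩) hG
    refine ⟨z, hz1, ?_, hz3⟩
    rw [hdd]
    convert hz2 using 2

end Pool.Agent.NQF
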