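import Pool.Agent.NQF.RDef
import Pool.Agent.NQF.RTra
import Pool.Agent.NQF.RTrb
import Pool.Agent.NQF.RTrc
import Pool.Agent.NQF.RUnq
import Pool.Agent.NQF.RPsi
import Pool.Agent.NQL.ABas
import Pool.Agent.NQL.BNom

/-!
# NQF-RPair: the supermartingale function for the board and its transposition (assembly)

PLAN. `exists_psi2` with `ε/2`; `m1` = sixth root of `N` (`Nat.find`, see `li_root` in NQL/CInd.lean). `Ψ1` for `(W, A, B)`, `Ψ2` for `(tW W, B, A)` (`rf_tr`); `t1, m0, γ, dd` are the same. `G m I = GLo .. W I ∧ GLo .. (tW W) (tI I)`, `Ψ m I = Ψ1 m I + Ψ2 m (tI I)`, `full_tI`, `vd_tI`. Step: `z` from the last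
part for `W`; `reg_tr`, `cl_tr`, `tp_tr`; `∑_{e ∈ Sq N I} π e * Ψ2 (m-1) (tI (rm I e)) = ∑_{e' ∈ Sq N (tI I)} π (te e') * Ψ2 (m-1) (rm (tI I) e')` (`sq_tI_sum`, `rm_tI`, `te_te`). Last part: `sma` (`m0 ≤ m1`); `z'` from `exists_psi2` has the same weights as `z` (`st_uniq`), so `Wn/2 ≤ wt z` and
`∑ wt wt ≥ (1/4) ∑ Wn Wn = Cg/(4 m0) ≥ 1/(8 L² m0)`; columns: `Cg N (tW W) m0 (tI I) y y'` with `wn_tr`, `sq_tI`.
-/

set_option autoImplicit false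

open Finset

namespace Pool.Agent.NQF

open Pool.Agent.NQ (board dsum F Ent Dg phi ln Q Qset QS NonAtt bern)
open Pool.Agent.NQR (Adm Opt Bd Rf hS hD hh InR)
open Pool.Agent.NQL

private theorem rp_root (N : ℕ) : ∃ m1 : ℕ, m1 ^ 6 ≤ N ∧ N < (m1 + 1) ^ 6 := by
  have h : ∃ k : ℕ, N < k ^ 6 := ⟨N + 1, by
    calc N < N + 1 := Nat.lt_succ_self N
      _ = (N + 1) ^ 1 := (pow_one _).symm
      _ ≤ (N + 1) ^ 6 := Nat.pow_le_pow_right (Nat.succ_pos N) (by norm_num)⟩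
  classical
  have h1 := Nat.find_spec h
  have h2 : Nat.find h ≠ 0 := by
    intro h0
    rw [h0] at h1
    simp at h1
  obtain ⟨k, hk⟩ := Nat.exists_eq_succ_of_ne_zero h2
  refine ⟨k, ?_, ?_⟩
  · have h3 := Nat.find_min h (m := k) (by omega)
    exact not_lt.1 h3
  · rw [hk] at h1
    exact h1

private theorem rp_row {L : ℝ} (hL : 1 ≤ L) {N m0 : ℕ} {W : ℤ × ℤ → ℝ} {A B : ℤ → ℝ} (hR : Rf L N W A B)
    (h1 : 1 ≤ m0) (h2 : m0 ≤ N) {I : Finset Li} {w : ℤ × ℤ → ℝ} (hw : ∀ e ∈ Sq N I, Wn N W m0 e / 2 ≤ w e)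
    {x x' : ℤ} (hc : 1 / (2 * L ^ 2) ≤ Cg N W m0 I x x') :
    1 / (8 * L ^ 2) / m0 ≤ ∑ y ∈ Finset.Ico (0 : ℤ) N,
      if (x, y) ∈ Sq N I ∧ (x', y) ∈ Sq N I then w (x, y) * w (x', y) else 0 := by
  have hm : (0 : ℝ) < m0 := by exact_mod_cast h1
  have h3 : Cg N W m0 I x x' / (4 * m0) ≤ ∑ y ∈ Finset.Ico (0 : ℤ) N,
      if (x, y) ∈ Sq N I ∧ (x', y) ∈ Sq N I then w (x, y) * w (x', y) else 0 := by
    unfold Cg
    have e1 : ∀ S : ℝ, (m0 : ℝ) * S / (4 * m0) = 1 / 4 * S := by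
      intro S
      field_simp
    rw [e1, mul_sum]
    refine sum_le_sum fun y _ => ?_
    by_cases h : (x, y) ∈ Sq N I ∧ (x', y) ∈ Sq N I
    · rw [if_pos h, if_pos h]
      have hp : ∀ e ∈ Sq N I, 0 ≤ Wn N W m0 e := fun e he =>
        le_trans (by positivity) (wn_bd hL hR h1 h2 (mem_Sq.1 he).1).1
      have h4 := hp _ h.1
      have h5 := hp _ h.2
      have h6 := hw _ h.1
      have h7 := hw _ h.2
      calc 1 / 4 * (Wn N W m0 (x, y) * Wn N W m0 (x', y))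
          = (Wn N W m0 (x, y) / 2) * (Wn N W m0 (x', y) / 2) := by ring
        _ ≤ w (x, y) * w (x', y) := mul_le_mul h6 h7 (by linarith) (by linarith)
    · rw [if_neg h, if_neg h, mul_zero]
  refine le_trans ?_ h3
  have hL0 : (0 : ℝ) < L := by linarith
  rw [div_div, div_le_div_iff₀ (by positivity) (by positivity)]
  rw [div_le_iff₀ (by positivity)] at hc
  nlinarith

theorem psi_pair (L Cp : ℝ) (hL : 1 ≤ L) (hCp : 0 ≤ Cp) (ε : ℝ) (hε : 0 < ε) (mX : ℕ) :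
    ∃ m0 N0 : ℕ, mX ≤ m0 ∧ 2 ≤ m0 ∧ ∀ N : ℕ, N0 ≤ N → ∀ (W : ℤ × ℤ → ℝ) (A B : ℤ → ℝ), Rf L N W A B →
      m0 < N ∧ ∃ (G : ℕ → Finset Li → Prop) (Ψ : ℕ → Finset Li → ℝ), G N (full N) ∧ (∀ m I, 0 ≤ Ψ m I) ∧
        (∀ m I, m0 ≤ m → m ≤ N → Vd N m I → ¬ G m I → 1 ≤ Ψ m I) ∧
        (∀ m I, m0 ≤ m → m ≤ N → G m I → Vd N m I ∧ ∃ z : Li → ℝ,
          Reg (32 * L ^ 3) (1 / (3200 * L ^ 3)) N m I z ∧
          ∀ π : ℤ × ℤ → ℝ, m0 < m → Tp Cp N m I z π → ∑ e ∈ Sq N I, π e * Ψ (m - 1) (rm I e) ≤ Ψ m I) ∧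
        Ψ N (full N) ≤ ε ∧
        ∀ I z, G m0 I → Reg (32 * L ^ 3) (1 / (3200 * L ^ 3)) N m0 I z →
          Lk (32 * L ^ 3) (1 / (3200 * L ^ 3)) (1 / (8 * L ^ 2)) N m0 I z := by
  obtain ⟨t1, m0, N0, γ, dd, ht1, hmX, hm02, hdd, hpsi⟩ :=
    exists_psi2 L Cp hL hCp (ε / 2) (by linarith) mX
  refine ⟨m0, N0, hmX, hm02, ?_⟩
  intro N hN W A B hR
  obtain ⟨m1, hm1, hm1'⟩ := rp_root N
  obtain ⟨hm01, hm0N, hG1, Ψ1, p0, p1, p2, p3, p4⟩ := hpsi N hN W A B hR m1 hm1 hm1'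
  have hR' := rf_tr hR
  obtain ⟨-, -, hG2, Ψ2, q0, q1, q2, q3, q4⟩ := hpsi N hN (tW W) B A hR' m1 hm1 hm1'
  refine ⟨hm0N, fun m I => GLo L t1 (γ N) m1 N m W I ∧ GLo L t1 (γ N) m1 N m (tW W) (tI I),
    fun m I => Ψ1 m I + Ψ2 m (tI I), ⟨hG1, ?_⟩, ?_, ?_, ?_, ?_, ?_⟩
  · rw [full_tI]
    exact hG2
  · intro m I
    exact add_nonneg (p0 _ _) (q0 _ _)
  · intro m I h1 h2 hv hn
    have a1 := p0 m I
    have a2 := q0 m (tI I)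
    show 1 ≤ Ψ1 m I + Ψ2 m (tI I)
    by_cases h : GLo L t1 (γ N) m1 N m W I
    · have h3 : ¬ GLo L t1 (γ N) m1 N m (tW W) (tI I) := fun h' => hn ⟨h, h'⟩
      have h4 := q1 m (tI I) h1 h2 (vd_tI hv) h3
      linarith
    · have h4 := p1 m I h1 h2 hv h
      linarith
  · rintro m I h1 h2 ⟨g1, g2⟩
    refine ⟨g1.vd, ?_⟩
    obtain ⟨z, hz, hcl, -⟩ := p4 m I h1 h2 g1
    refine ⟨z, hz, ?_⟩
    intro π hm hπ
    show ∑ e ∈ Sq N I, π e * (Ψ1 (m - 1) (rm I e) + Ψ2 (m - 1) (tI (rm I e))) ≤ Ψ1 m I + Ψ2 m (tI I)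
    have s1 := p2 m I z π hm h2 g1 hz hcl hπ
    have s2 := q2 m (tI I) (fun l => z (tl l)) (fun e => π (te e)) hm h2 g2 (reg_tr hz) (cl_tr hcl) (tp_tr hπ)
    rw [sq_tI_sum (fun e => π (te e) * Ψ2 (m - 1) (rm (tI I) e))] at s2
    have s3 : ∑ e ∈ Sq N I, π e * Ψ2 (m - 1) (tI (rm I e)) ≤ Ψ2 m (tI I) := by
      refine le_trans (le_of_eq ?_) s2
      refine sum_congr rfl fun e _ => ?_
      rw [te_te, rm_tI]
    calc ∑ e ∈ Sq N I, π e * (Ψ1 (m - 1) (rm I e) + Ψ2 (m - 1) (tI (rm I e)))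
        = ∑ e ∈ Sq N I, π e * Ψ1 (m - 1) (rm I e) + ∑ e ∈ Sq N I, π e * Ψ2 (m - 1) (tI (rm I e)) := by
          rw [← sum_add_distrib]
          exact sum_congr rfl fun e _ => by ring
      _ ≤ _ := add_le_add s1 s3
  · show Ψ1 N (full N) + Ψ2 N (tI (full N)) ≤ ε
    rw [full_tI]
    linarith
  · rintro I z ⟨g1, g2⟩ hz
    have hm1 : 1 ≤ m0 := by omega
    obtain ⟨z', hz', -, hw'⟩ := p4 m0 I le_rfl hm0N.le g1
    obtain ⟨z2, hz2, -, hw2⟩ := q4 m0 (tI I) le_rfl hm0N.le g2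
    have u1 := (st_uniq hz.st hz'.st).1
    have u2 := (st_uniq (st_tr hz.st) hz2.st).1
    have w1 : ∀ e ∈ Sq N I, Wn N W m0 e / 2 ≤ wt z e := fun e he => by
      rw [← u1 e he]
      exact hw' e he
    have w2 : ∀ e ∈ Sq N (tI I), Wn N (tW W) m0 e / 2 ≤ wt z (te e) := fun e he => by
      rw [← wt_tr, ← u2 e he]
      exact hw2 e he
    refine ⟨g1.vd, hz, g1.sma hm01, ?_, ?_⟩
    · intro x x' hx hx' hne
      refine (rp_row hL hR hm1 hm0N.le w1 (g1.cg x x' hx hx' hne)).trans (le_of_eq ?_)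
      exact sum_congr rfl fun y _ => by congr 1
    · intro y y' hy hy' hne
      have hy0 : ((0, y) : Li) ∈ tI I := mem_tI.2 hy
      have hy0' : ((0, y') : Li) ∈ tI I := mem_tI.2 hy'
      refine (rp_row hL hR' hm1 hm0N.le w2 (g2.cg y y' hy0 hy0' hne)).trans (le_of_eq ?_)
      refine sum_congr rfl fun x _ => ?_
      have e1 : ((y, x) : ℤ × ℤ) ∈ Sq N (tI I) ↔ ((x, y) : ℤ × ℤ) ∈ Sq N I := sq_tI
      have e2 : ((y', x) : ℤ × ℤ) ∈ Sq N (tI I) ↔ ((x, y') : ℤ × ℤ) ∈ Sq N I := sq_tI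
      by_cases h : ((x, y) : ℤ × ℤ) ∈ Sq N I ∧ ((x, y') : ℤ × ℤ) ∈ Sq N I
      · rw [if_pos h, if_pos ⟨e1.2 h.1, e2.2 h.2⟩]
        rfl
      · rw [if_neg h, if_neg (fun h' => h ⟨e1.1 h'.1, e2.1 h'.2⟩)]

end Pool.Agent.NQF
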