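import Pool.Agent.NQF.RDef
import Pool.Agent.NQF.RUnq
import Pool.Agent.NQF.RNor
import Pool.Agent.NQF.RIndL
import Pool.Agent.NQF.RIndU
import Pool.Agent.NQF.RPair
import Pool.Agent.NQF.RGood
import Pool.Agent.NQF.RLink
import Pool.Agent.NQL.DCnt
import Pool.Agent.NQL.BFul
import Pool.Agent.NQL.ABas

/-!
# NQF-RAsm: asymptotics of the number of configurations (assembly of block R)
-/

set_option autoImplicit false

open Finset

namespace Pool.Agent.NQF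

open Pool.Agent.NQ (board dsum F Ent Dg phi ln Q Qset QS NonAtt bern)
open Pool.Agent.NQR (Adm Opt Bd Rf hS hD hh InR)
open Pool.Agent.NQL

private theorem rasm_log {x : ℝ} (h0 : 0 < x) (h : x ≤ 1 / 2) : -(2 * x) ≤ Real.log (1 - x) := by
  have h1 : 0 < 1 - x := by linarith
  have h2 := Real.one_sub_inv_le_log_of_pos h1
  refine le_trans ?_ h2
  have h3 : 1 - (1 - x)⁻¹ = -x / (1 - x) := by
    field_simp
    ring
  rw [h3, le_div_iff₀ h1]
  nlinarith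

theorem board_asym (hP : PermAsym) (hD : DsLs) (hS : Scal) (L : ℝ) (hL : 1 ≤ L) : ∀ ε : ℝ, 0 < ε →
    ∃ N0 : ℕ, ∀ N : ℕ, N0 ≤ N → ∀ (W : ℤ × ℤ → ℝ) (A B : ℤ → ℝ), Rf L N W A B → 0 < Q N ∧
      |Real.log (Q N) - (F N W - N + Real.log (4 * Real.pi * N) / 2 -
        LD (full N) (AA L4 (board N) W ga N) / 2 - 3 / 2 * ∑ e ∈ board N, W e ^ 2)| ≤ ε := by
  intro ε hε
  obtain ⟨ε2, hε2, hε2a, hε2b⟩ : ∃ ε2 : ℝ, 0 < ε2 ∧ ε2 ≤ 1 / 2 ∧ 3 * ε2 ≤ ε := by
    refine ⟨min ε 1 / 8, by positivity, ?_, ?_⟩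
    · have := min_le_right ε 1
      linarith
    · have := min_le_left ε 1
      linarith
  have hL0 : 0 < L := by linarith
  have hL3 : 1 ≤ L ^ 3 := one_le_pow₀ hL
  have hK : (1 : ℝ) ≤ 32 * L ^ 3 := by linarith
  have hlam : 0 < 1 / (3200 * L ^ 3) := by positivity
  have hlam1 : 1 / (3200 * L ^ 3) ≤ 1 := by
    rw [div_le_one (by positivity)]
    linarith
  have hc : 0 < 1 / (8 * L ^ 2) := by positivity
  obtain ⟨C, Cp, mX1, hC, hCp, hmX1, hlow⟩ := ind_low (32 * L ^ 3) (1 / (3200 * L ^ 3)) hK hlam hlam1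
  obtain ⟨C', mX2, hC', hmX2, hup⟩ := ind_up (32 * L ^ 3) (1 / (3200 * L ^ 3)) hK hlam hlam1
  obtain ⟨CL, mB, hCL, hmB, hlink⟩ := link hP hD hS (32 * L ^ 3) (1 / (3200 * L ^ 3))
    (1 / (8 * L ^ 2)) hK hlam hlam1 hc
  obtain ⟨mX, hmX⟩ : ∃ mX : ℕ, mX = max (max mX1 mX2) (max mB ⌈(C + C' + CL) / ε2⌉₊) := ⟨_, rfl⟩
  have q1 : mX1 ≤ mX := by rw [hmX]; exact (le_max_left _ _).trans (le_max_left _ _)
  have q2 : mX2 ≤ mX := by rw [hmX]; exact (le_max_right _ _).trans (le_max_left _ _)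
  have q3 : mB ≤ mX := by rw [hmX]; exact (le_max_left _ _).trans (le_max_right _ _)
  have q4 : ⌈(C + C' + CL) / ε2⌉₊ ≤ mX := by
    rw [hmX]; exact (le_max_right _ _).trans (le_max_right _ _)
  have small : ∀ m0 : ℕ, mX ≤ m0 → 2 ≤ m0 → (C + C' + CL) / m0 ≤ ε2 := by
    intro m0 h1 h2
    have h3 : (C + C' + CL) / ε2 ≤ m0 :=
      (Nat.le_ceil _).trans (by exact_mod_cast q4.trans h1)
    have h4 : (0 : ℝ) < m0 := by exact_mod_cast (by omega : 0 < m0)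
    rw [div_le_iff₀ hε2] at h3
    rw [div_le_iff₀ h4]
    linarith
  obtain ⟨m0, N0, hm0X, hm02, hpsi⟩ := psi_pair L Cp hL hCp ε2 hε2 mX
  obtain ⟨m0', N0', hm0X', hm02', hupp⟩ := up_pair L hL ε2 hε2 mX
  refine ⟨max (max N0 N0') 2, ?_⟩
  intro N hN W A B hR
  have hN0 : N0 ≤ N := ((le_max_left _ _).trans (le_max_left _ _)).trans hN
  have hN0' : N0' ≤ N := ((le_max_right _ _).trans (le_max_left _ _)).trans hN
  have hN2 : 2 ≤ N := (le_max_right _ _).trans hN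
  obtain ⟨hm0N, G, Ψ, hGN, hΨ0, hΨ1, hG, hΨN, hLk⟩ := hpsi N hN0 W A B hR
  obtain ⟨hm0N', G', hGN', hG', hLk', hQ⟩ := hupp N hN0' W A B hR
  obtain ⟨S, hSd⟩ : ∃ S : ℝ, S = F N W - N + Real.log (4 * Real.pi * N) / 2 -
        LD (full N) (AA L4 (board N) W ga N) / 2 - 3 / 2 * ∑ e ∈ board N, W e ^ 2 := ⟨_, rfl⟩
  rw [← hSd]
  -- bounds of sums
  have hsum : ∀ (D : ℝ) (m : ℕ), 0 ≤ D → 2 ≤ m →
      D * ∑ j ∈ Finset.Ioc m N, 1 / (j : ℝ) ^ 2 ≤ D / m := by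
    intro D m hD0 hm
    have h1 := mul_le_mul_of_nonneg_left (sum_inv_sq (m0 := m) (by omega) N) hD0
    refine h1.trans (le_of_eq ?_)
    ring
  -- lower bound
  have hlow1 : (1 - ε2) * Real.exp (S - ε2) ≤ Q N := by
    obtain ⟨hvd, z, hz, _⟩ := hG N (full N) hm0N.le le_rfl hGN
    have h1 := hlow m0 N G Ψ (CL / m0) (q1.trans hm0X) hΨ0 hΨ1 hG (by
      intro I z1 hI hz1
      obtain ⟨h2, h3⟩ := hlink N m0 I z1 (q3.trans hm0X) (hLk I z1 hI hz1)
      have h4 := (abs_le.1 h3).1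
      rw [← Real.le_log_iff_exp_le h2]
      linarith) N hm0N.le le_rfl (full N) z hGN hz.st
    rw [zz_full, v2_full hL hN2 hR hz.st, ← hSd] at h1
    refine le_trans ?_ h1
    have h5 := hsum C m0 (by linarith) hm02
    have h6 := small m0 hm0X hm02
    have h7 : (C + C' + CL) / (m0 : ℝ) = C / m0 + C' / m0 + CL / m0 := by ring
    have h8 : 0 ≤ C' / (m0 : ℝ) := by positivity
    have h9 : Real.exp (S - ε2) ≤
        Real.exp (S - C * ∑ j ∈ Finset.Ioc m0 N, 1 / (j : ℝ) ^ 2 - CL / m0) := by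
      apply Real.exp_le_exp.2
      linarith
    refine mul_le_mul ?_ h9 (Real.exp_pos _).le ?_
    · linarith
    · linarith
  have hpos : (0 : ℝ) < Q N := by
    refine lt_of_lt_of_le ?_ hlow1
    exact mul_pos (by linarith) (Real.exp_pos _)
  -- upper bound
  have hup1 : (1 - ε2) * Q N ≤ Real.exp (S + ε2) := by
    obtain ⟨hvd, z, hz⟩ := hG' N (full N) hm0N'.le le_rfl hGN'
    have h1 := hup m0' N G' (CL / m0') (q2.trans hm0X') hG' (by
      intro I z1 hI hz1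
      obtain ⟨h2, h3⟩ := hlink N m0' I z1 (q3.trans hm0X') (hLk' I z1 hI hz1)
      have h4 := (abs_le.1 h3).2
      rw [← Real.log_le_iff_le_exp h2]
      linarith) N hm0N'.le le_rfl (full N) z hGN' hz.st
    rw [v2_full hL hN2 hR hz.st, ← hSd] at h1
    have h5 := hsum C' m0' (by linarith) hm02'
    have h6 := small m0' hm0X' hm02'
    have h7 : (C + C' + CL) / (m0' : ℝ) = C / m0' + C' / m0' + CL / m0' := by ring
    have h8 : 0 ≤ C / (m0' : ℝ) := by positivity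
    have h9 : Real.exp (S + C' * ∑ j ∈ Finset.Ioc m0' N, 1 / (j : ℝ) ^ 2 + CL / m0') ≤
        Real.exp (S + ε2) := by
      apply Real.exp_le_exp.2
      linarith
    linarith
  have hlg := rasm_log hε2 hε2a
  refine ⟨by exact_mod_cast hpos, ?_⟩
  rw [abs_le]
  constructor
  · have h1 : Real.log ((1 - ε2) * Real.exp (S - ε2)) ≤ Real.log (Q N) :=
      Real.log_le_log (mul_pos (by linarith) (Real.exp_pos _)) hlow1
    rw [Real.log_mul (by linarith) (Real.exp_ne_zero _), Real.log_exp] at h1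
    linarith
  · have h1 : Real.log ((1 - ε2) * Q N) ≤ S + ε2 := by
      rw [Real.log_le_iff_le_exp (mul_pos (by linarith) hpos)]
      exact hup1
    rw [Real.log_mul (by linarith) hpos.ne'] at h1
    linarith

end Pool.Agent.NQF
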