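import Mathlib

/-!
# MP_6ea1bd_co: definitions of the statement
-/

set_option autoImplicit false

open MeasureTheory

namespace Pool.Agent.NQF.Stmt

/-! ### The number of configurations -/

/-- the squares `e` and `f` are in the same row, column or diagonal -/
def Attack (e f : ℕ × ℕ) : Prop :=
  e.1 = f.1 ∨ e.2 = f.2 ∨ (e.1 : ℤ) - e.2 = f.1 - f.2 ∨ e.1 + e.2 = f.1 + f.2

open Classical in
/-- the number of sets of `n` squares of the `n × n` board no two of which attack each other -/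
noncomputable def Q (n : ℕ) : ℕ :=
  ((Finset.Icc 1 n ×ˢ Finset.Icc 1 n).powerset.filter
    (fun S => S.card = n ∧ ∀ e ∈ S, ∀ f ∈ S, e ≠ f → ¬ Attack e f)).card

/-! ### The first problem: entropy of queenons -/

/-- `φ(u) = u + (1 - u) log (1 - u)` -/
noncomputable def phi (u : ℝ) : ℝ := u + (1 - u) * Real.log (1 - u)

/-- density of the diagonal `x + y = s` -/
noncomputable def DS (v : ℝ × ℝ → ℝ) (s : ℝ) : ℝ := ∫ x, v (x, s - x)

/-- density of the diagonal `x - y = d` -/
noncomputable def DD (v : ℝ × ℝ → ℝ) (d : ℝ) : ℝ := ∫ x, v (x, x - d)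

/-- queenons of finite entropy: densities on `[0,1)²` with marginals one whose diagonal densities are at most one -/
structure Queenon (v : ℝ × ℝ → ℝ) : Prop where
  meas : Measurable v
  nn : ∀ p, 0 ≤ v p
  out : ∀ p, p ∉ Set.Ico (0 : ℝ) 1 ×ˢ Set.Ico (0 : ℝ) 1 → v p = 0
  int : Integrable v
  ent : Integrable (fun p => v p * Real.log (v p))
  row : ∀ᵐ x : ℝ, x ∈ Set.Ico (0 : ℝ) 1 → ∫ y, v (x, y) = 1
  col : ∀ᵐ y : ℝ, y ∈ Set.Ico (0 : ℝ) 1 → ∫ x, v (x, y) = 1
  sd : ∀ᵐ s : ℝ, DS v s ≤ 1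
  dd : ∀ᵐ d : ℝ, DD v d ≤ 1

/-- the functional -/
noncomputable def Phi (v : ℝ × ℝ → ℝ) : ℝ :=
  -(∫ p, v p * Real.log (v p)) - (∫ s, phi (DS v s)) - ∫ d, phi (DD v d)

/-! ### The second problem: entropy of Gaussian vectors indexed by the lines of a board -/

/-- the set of the lines of the board of size `m`: type (`0` row, `1` column, `2` and `3` diagonals) and number -/
noncomputable def Lines (m : ℕ) : Finset (Fin 4 × ℤ) :=
  (({0, 1} : Finset (Fin 4)) ×ˢ Finset.Ico (0 : ℤ) m) ∪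
    (({2, 3} : Finset (Fin 4)) ×ˢ Finset.Ico (-(2 * (m : ℤ))) (2 * m))

/-- the type of the lines of the board of size `m` -/
def Line (m : ℕ) : Type := {l : Fin 4 × ℤ // l ∈ Lines m}

instance (m : ℕ) : DecidableEq (Line m) := inferInstanceAs (DecidableEq {l : Fin 4 × ℤ // l ∈ Lines m})

noncomputable instance (m : ℕ) : Fintype (Line m) := inferInstanceAs (Fintype {l : Fin 4 × ℤ // l ∈ Lines m})

/-- the number of the line of type `k` through the point `p`; the diagonals have the parity `e` -/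
noncomputable def num (m : ℕ) (e : ℤ) (p : ℝ × ℝ) (k : Fin 4) : ℤ :=
  ![⌊m * p.1⌋, ⌊m * p.2⌋, 2 * ⌊m * ((p.1 + p.2) / 2)⌋ + e, 2 * ⌊m * ((p.1 - p.2) / 2)⌋ + e] k

/-- mass of `v` on the points which lie on both lines, mean over the two parities -/
noncomputable def mass (m : ℕ) (v : ℝ × ℝ → ℝ) (l l' : Fin 4 × ℤ) : ℝ :=
  ((∫ p in {p | num m 0 p l.1 = l.2 ∧ num m 0 p l'.1 = l'.2}, v p) +
    ∫ p in {p | num m 1 p l.1 = l.2 ∧ num m 1 p l'.1 = l'.2}, v p) / 2

/-- `1` on the rows, `-1` on the columns, `0` on the diagonals -/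
noncomputable def g (l : Fin 4 × ℤ) : ℝ := if l.1 = 0 then 1 else if l.1 = 1 then -1 else 0

/-- the matrix of the energy -/
noncomputable def A (v : ℝ × ℝ → ℝ) (m : ℕ) : Matrix (Line m) (Line m) ℝ :=
  Matrix.of fun i j => (if i = j then 1 else m * mass m v i.1 j.1) + g i.1 * g j.1 / (2 * m)

/-- entropy minus energy of the Gaussian vector with covariance matrix `X`, minus `(3/2) ∫ v²` -/
noncomputable def K (v : ℝ × ℝ → ℝ) (m : ℕ) (X : Matrix (Line m) (Line m) ℝ) : ℝ :=
  (Real.log X.det - (A v m * X).trace + (Lines m).card) / 2 - 3 / 2 * ∫ p, v p ^ 2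

/-- densities on the line with finite entropy and second moment -/
structure Dens (f : ℝ → ℝ) : Prop where
  meas : Measurable f
  nn : ∀ x, 0 ≤ f x
  int : Integrable f
  one : ∫ x, f x = 1
  ent : Integrable (fun x => f x * Real.log (f x))
  sec : Integrable (fun x => x ^ 2 * f x)

end Pool.Agent.NQF.Stmt
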