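import Pool.Agent.NQF.VDefs
import Pool.Agent.NQF.LLJJ

/-!
# NQF-VStr: lines of a point

PLAN. (1) `lnr`, `fi` unfold: rows: `⌊m k x⌋/k = ⌊m x⌋` (`Int.floor_div_natCast`-type lemma or `Int.le_floor`, `Int.ediv`), diagonals: `s = 2 ⌊m k u⌋ + e`, `s/2 = ⌊m k u⌋`, `s % 2 = e` (`e = 0, 1`), so
`fi k (2, s) = (2, 2 (⌊m k u⌋/k) + e) = (2, 2 ⌊m u⌋ + e)`. (2) measurable: `lnr` is built from floors of linear functions (`Int.measurable_floor`). (3) trivial. (4) if `i ≥ 2` then `s % 2 = e` for the points of the strip.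
-/

set_option autoImplicit false

open Finset MeasureTheory

namespace Pool.Agent.NQF

open Pool.Agent.NQ (board dsum F Ent Dg phi ln Q Qset QS NonAtt bern)
open Pool.Agent.NQR (Adm Opt Bd Rf hS hD hh InR)
open Pool.Agent.NQL

private theorem vs_floor {m k : ℕ} (hk : 1 ≤ k) (x : ℝ) : ⌊((m * k : ℕ) : ℝ) * x⌋ / (k : ℤ) = ⌊(m : ℝ) * x⌋ := by
  have hk' : (0 : ℤ) < k := by exact_mod_cast hk
  have hk2 : (0 : ℝ) < k := by exact_mod_cast hk
  refine eq_of_forall_le_iff fun a => ?_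
  rw [Int.le_ediv_iff_mul_le hk', Int.le_floor, Int.le_floor]
  push_cast
  have h1 : (m : ℝ) * k * x = m * x * k := by ring
  rw [h1]
  exact mul_le_mul_iff_left₀ hk2

private theorem vs_lnr (m : ℕ) (e : ℤ) (p : ℝ × ℝ) :
    lnr m e p 0 = ⌊m * p.1⌋ ∧ lnr m e p 1 = ⌊m * p.2⌋ ∧
      lnr m e p 2 = 2 * ⌊m * ((p.1 + p.2) / 2)⌋ + e ∧ lnr m e p 3 = 2 * ⌊m * ((p.1 - p.2) / 2)⌋ + e :=
  ⟨rfl, rfl, rfl, rfl⟩

private theorem vs_par (m : ℕ) (e : ℤ) (he : e = 0 ∨ e = 1) (p : ℝ × ℝ) (i : Fin 4) (hi : 2 ≤ (i : ℕ)) :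
    lnr m e p i % 2 = e := by
  obtain ⟨-, -, h2, h3⟩ := vs_lnr m e p
  fin_cases i
  · simp at hi
  · simp at hi
  · show lnr m e p 2 % 2 = e
    rw [h2]
    omega
  · show lnr m e p 3 % 2 = e
    rw [h3]
    omega

theorem lnr_fi {m k : ℕ} (hk : 1 ≤ k) {e : ℤ} (he : e = 0 ∨ e = 1) (p : ℝ × ℝ) (i : Fin 4) :
    fi k (i, lnr (m * k) e p i) = (i, lnr m e p i) := by
  obtain ⟨h0, h1, h2, h3⟩ := vs_lnr m e p
  obtain ⟨k0, k1, k2, k3⟩ := vs_lnr (m * k) e p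
  have hd : ∀ x : ℝ, 2 * ((2 * ⌊((m * k : ℕ) : ℝ) * x⌋ + e) / 2 / (k : ℤ)) + (2 * ⌊((m * k : ℕ) : ℝ) * x⌋ + e) % 2 =
      2 * ⌊(m : ℝ) * x⌋ + e := by
    intro x
    have e1 : (2 * ⌊((m * k : ℕ) : ℝ) * x⌋ + e) / 2 = ⌊((m * k : ℕ) : ℝ) * x⌋ := by omega
    have e2 : (2 * ⌊((m * k : ℕ) : ℝ) * x⌋ + e) % 2 = e := by omega
    rw [e1, e2, vs_floor hk]
  fin_cases i
  · show fi k (0, lnr (m * k) e p 0) = (0, lnr m e p 0)
    rw [h0, k0]
    have hr : rc ((0, ⌊((m * k : ℕ) : ℝ) * p.1⌋) : Li) := by unfold rc; norm_num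
    rw [fi, if_pos hr]
    exact Prod.ext rfl (vs_floor hk _)
  · show fi k (1, lnr (m * k) e p 1) = (1, lnr m e p 1)
    rw [h1, k1]
    have hr : rc ((1, ⌊((m * k : ℕ) : ℝ) * p.2⌋) : Li) := by unfold rc; norm_num
    rw [fi, if_pos hr]
    exact Prod.ext rfl (vs_floor hk _)
  · show fi k (2, lnr (m * k) e p 2) = (2, lnr m e p 2)
    rw [h2, k2]
    have hr : ¬ rc ((2, 2 * ⌊((m * k : ℕ) : ℝ) * ((p.1 + p.2) / 2)⌋ + e) : Li) := by unfold rc; norm_num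
    rw [fi, if_neg hr]
    exact Prod.ext rfl (hd _)
  · show fi k (3, lnr (m * k) e p 3) = (3, lnr m e p 3)
    rw [h3, k3]
    have hr : ¬ rc ((3, 2 * ⌊((m * k : ℕ) : ℝ) * ((p.1 - p.2) / 2)⌋ + e) : Li) := by unfold rc; norm_num
    rw [fi, if_neg hr]
    exact Prod.ext rfl (hd _)

private theorem vs_meas (m : ℕ) (e : ℤ) (i : Fin 4) : Measurable fun p : ℝ × ℝ => lnr m e p i := by
  fin_cases i
  · show Measurable fun p : ℝ × ℝ => ⌊(m : ℝ) * p.1⌋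
    exact Int.measurable_floor.comp (measurable_fst.const_mul _)
  · show Measurable fun p : ℝ × ℝ => ⌊(m : ℝ) * p.2⌋
    exact Int.measurable_floor.comp (measurable_snd.const_mul _)
  · show Measurable fun p : ℝ × ℝ => 2 * ⌊(m : ℝ) * ((p.1 + p.2) / 2)⌋ + e
    have h1 : Measurable fun p : ℝ × ℝ => ⌊(m : ℝ) * ((p.1 + p.2) / 2)⌋ :=
      Int.measurable_floor.comp (((measurable_fst.add measurable_snd).div_const _).const_mul _)
    exact (measurable_of_countable (fun z : ℤ => 2 * z + e)).comp h1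
  · show Measurable fun p : ℝ × ℝ => 2 * ⌊(m : ℝ) * ((p.1 - p.2) / 2)⌋ + e
    have h1 : Measurable fun p : ℝ × ℝ => ⌊(m : ℝ) * ((p.1 - p.2) / 2)⌋ :=
      Int.measurable_floor.comp (((measurable_fst.sub measurable_snd).div_const _).const_mul _)
    exact (measurable_of_countable (fun z : ℤ => 2 * z + e)).comp h1

theorem strip_meas (m : ℕ) (e : ℤ) (l : Li) : MeasurableSet (strip m e l) :=
  vs_meas m e l.1 (measurableSet_singleton l.2)

theorem strip_disj {m : ℕ} {e : ℤ} {l l' : Li} (h : l ≠ l') (h1 : l.1 = l'.1) : strip m e l ∩ strip m e l' = ∅ := by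
  ext p
  constructor
  · rintro ⟨h2, h3⟩
    have h4 : lnr m e p l.1 = l.2 := h2
    have h5 : lnr m e p l'.1 = l'.2 := h3
    rw [h1, h5] at h4
    exact h (Prod.ext h1 h4.symm)
  · intro h2
    exact h2.elim

theorem strip_pr {m : ℕ} {e : ℤ} (he : e = 0 ∨ e = 1) {i j : Fin 4} {s t : ℤ} (h : ¬ pr i j s t) :
    strip m e (i, s) ∩ strip m e (j, t) = ∅ := by
  ext p
  constructor
  · rintro ⟨h2, h3⟩
    apply h
    intro hi hj
    have h4 : lnr m e p i = s := h2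
    have h5 : lnr m e p j = t := h3
    have h6 := vs_par m e he p i hi
    have h7 := vs_par m e he p j hj
    rw [h4] at h6
    rw [h5] at h7
    omega
  · intro h2
    exact h2.elim

theorem strip_one {m : ℕ} {i : Fin 4} {s : ℤ} (hi : 2 ≤ (i : ℕ)) {e : ℤ} (he : e = 0 ∨ e = 1) (h : s % 2 ≠ e) :
    strip m e (i, s) = ∅ := by
  ext p
  constructor
  · intro h2
    have h4 : lnr m e p i = s := h2
    have h6 := vs_par m e he p i hi
    rw [h4] at h6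
    exact h h6
  · intro h2
    exact h2.elim

end Pool.Agent.NQF
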