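import Pool.Agent.NQF.VDefs
import Pool.Agent.NQF.VStr

/-!
# NQF-VArea: areas of intersections of strips

The intersection of two strips is the preimage of a unit square under a linear map.
-/

set_option autoImplicit false

open Finset MeasureTheory

namespace Pool.Agent.NQF

open Pool.Agent.NQ (board dsum F Ent Dg phi ln Q Qset QS NonAtt bern)
open Pool.Agent.NQR (Adm Opt Bd Rf hS hD hh InR)
open Pool.Agent.NQL

private noncomputable def cA (m : ℕ) (k : Fin 4) : ℝ := ![(m : ℝ), 0, m / 2, m / 2] k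

private noncomputable def cB (m : ℕ) (k : Fin 4) : ℝ := ![0, (m : ℝ), m / 2, -(m / 2)] k

private theorem vol_lin (α β γ δ : ℝ) (hD : α * δ - β * γ ≠ 0) (a b : ℤ) :
    volume ({p : ℝ × ℝ | ⌊α * p.1 + β * p.2⌋ = a} ∩ {p : ℝ × ℝ | ⌊γ * p.1 + δ * p.2⌋ = b}) =
      ENNReal.ofReal |(α * δ - β * γ)⁻¹| := by
  obtain ⟨f, hf⟩ : ∃ f : (ℝ × ℝ) →ₗ[ℝ] (ℝ × ℝ),
      f = Matrix.toLin (Module.Basis.finTwoProd ℝ) (Module.Basis.finTwoProd ℝ) !![α, β; γ, δ] := ⟨_, rfl⟩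
  have hdet : LinearMap.det f = α * δ - β * γ := by
    rw [hf, LinearMap.det_toLin, Matrix.det_fin_two_of]
  have hap : ∀ p : ℝ × ℝ, f p = (α * p.1 + β * p.2, γ * p.1 + δ * p.2) := by
    intro p
    rw [hf, Matrix.toLin_finTwoProd_apply]
  have hset : ({p : ℝ × ℝ | ⌊α * p.1 + β * p.2⌋ = a} ∩ {p : ℝ × ℝ | ⌊γ * p.1 + δ * p.2⌋ = b}) =
      f ⁻¹' (Set.Ico (a : ℝ) (a + 1) ×ˢ Set.Ico (b : ℝ) (b + 1)) := by
    ext p
    rw [Set.mem_preimage, hap, Set.mem_prod, Set.mem_inter_iff]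
    show ⌊α * p.1 + β * p.2⌋ = a ∧ ⌊γ * p.1 + δ * p.2⌋ = b ↔ _
    rw [Int.floor_eq_iff, Int.floor_eq_iff]
    rfl
  have hbox : (volume : Measure (ℝ × ℝ)) (Set.Ico (a : ℝ) (a + 1) ×ˢ Set.Ico (b : ℝ) (b + 1)) = 1 := by
    rw [Measure.volume_eq_prod, Measure.prod_prod, Real.volume_Ico, Real.volume_Ico]
    simp
  rw [hset, Measure.addHaar_preimage_linearMap _ (by rw [hdet]; exact hD), hbox, mul_one, hdet]

private theorem strip_eq (m : ℕ) {e : ℤ} (he : e = 0 ∨ e = 1) (k : Fin 4) (s : ℤ)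
    (h : 2 ≤ (k : ℕ) → s % 2 = e) :
    ∃ a : ℤ, strip m e (k, s) = {p : ℝ × ℝ | ⌊cA m k * p.1 + cB m k * p.2⌋ = a} := by
  fin_cases k
  · refine ⟨s, ?_⟩
    ext p
    show ⌊(m : ℝ) * p.1⌋ = s ↔ ⌊(m : ℝ) * p.1 + 0 * p.2⌋ = s
    rw [zero_mul, add_zero]
  · refine ⟨s, ?_⟩
    ext p
    show ⌊(m : ℝ) * p.2⌋ = s ↔ ⌊0 * p.1 + (m : ℝ) * p.2⌋ = s
    rw [zero_mul, zero_add]
  · refine ⟨s / 2, ?_⟩
    have h1 : s % 2 = e := h (le_refl 2)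
    ext p
    show 2 * ⌊(m : ℝ) * ((p.1 + p.2) / 2)⌋ + e = s ↔ ⌊(m / 2 : ℝ) * p.1 + (m / 2 : ℝ) * p.2⌋ = s / 2
    have e1 : (m : ℝ) * ((p.1 + p.2) / 2) = (m / 2 : ℝ) * p.1 + (m / 2 : ℝ) * p.2 := by ring
    rw [e1]
    omega
  · refine ⟨s / 2, ?_⟩
    have h1 : s % 2 = e := h (by show 2 ≤ 3; norm_num)
    ext p
    show 2 * ⌊(m : ℝ) * ((p.1 - p.2) / 2)⌋ + e = s ↔ ⌊(m / 2 : ℝ) * p.1 + -(m / 2 : ℝ) * p.2⌋ = s / 2
    have e1 : (m : ℝ) * ((p.1 - p.2) / 2) = (m / 2 : ℝ) * p.1 + -(m / 2 : ℝ) * p.2 := by ring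
    rw [e1]
    omega

private theorem det_val {m : ℕ} (hm : 1 ≤ m) {i j : Fin 4} (h : i ≠ j) :
    cA m i * cB m j - cB m i * cA m j ≠ 0 ∧ |(cA m i * cB m j - cB m i * cA m j)⁻¹| =
      if (i : ℕ) < 2 ∧ (j : ℕ) < 2 then 1 / (m : ℝ) ^ 2 else 2 / (m : ℝ) ^ 2 := by
  have hm0 : (0 : ℝ) < m := by exact_mod_cast hm
  have hm2 : (0 : ℝ) < (m : ℝ) ^ 2 := by positivity
  have key1 : ∀ D : ℝ, (D = (m : ℝ) ^ 2 ∨ D = -(m : ℝ) ^ 2) → D ≠ 0 ∧ |D⁻¹| = 1 / (m : ℝ) ^ 2 := by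
    intro D hD
    have h1 : |D| = (m : ℝ) ^ 2 := by
      rcases hD with rfl | rfl
      · exact abs_of_pos hm2
      · rw [abs_neg]; exact abs_of_pos hm2
    refine ⟨fun h0 => ?_, ?_⟩
    · rw [h0, abs_zero] at h1
      linarith
    · rw [abs_inv, h1, one_div]
  have key2 : ∀ D : ℝ, (D = (m : ℝ) ^ 2 / 2 ∨ D = -((m : ℝ) ^ 2 / 2)) → D ≠ 0 ∧ |D⁻¹| = 2 / (m : ℝ) ^ 2 := by
    intro D hD
    have h1 : |D| = (m : ℝ) ^ 2 / 2 := by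
      rcases hD with rfl | rfl
      · exact abs_of_pos (by linarith)
      · rw [abs_neg]; exact abs_of_pos (by linarith)
    refine ⟨fun h0 => ?_, ?_⟩
    · rw [h0, abs_zero] at h1
      linarith
    · rw [abs_inv, h1, inv_div]
  have t01 : ((0 : Fin 4) : ℕ) < 2 := by decide
  have t11 : ((1 : Fin 4) : ℕ) < 2 := by decide
  have t21 : ¬ ((2 : Fin 4) : ℕ) < 2 := by decide
  have t31 : ¬ ((3 : Fin 4) : ℕ) < 2 := by decide
  have a0 : cA m 0 = m := rfl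
  have a1 : cA m 1 = 0 := rfl
  have a2 : cA m 2 = m / 2 := rfl
  have a3 : cA m 3 = m / 2 := rfl
  have b0 : cB m 0 = 0 := rfl
  have b1 : cB m 1 = m := rfl
  have b2 : cB m 2 = m / 2 := rfl
  have b3 : cB m 3 = -(m / 2) := rfl
  have hcase : (i = 0 ∨ i = 1 ∨ i = 2 ∨ i = 3) ∧ (j = 0 ∨ j = 1 ∨ j = 2 ∨ j = 3) := by
    constructor
    · fin_cases i <;> simp
    · fin_cases j <;> simp
  rcases hcase with ⟨rfl | rfl | rfl | rfl, rfl | rfl | rfl | rfl⟩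
  · exact absurd rfl h
  · rw [if_pos ⟨t01, t11⟩, a0, a1, b0, b1]
    exact key1 _ (Or.inl (by ring))
  · rw [if_neg (fun hh => t21 hh.2), a0, a2, b0, b2]
    exact key2 _ (Or.inl (by ring))
  · rw [if_neg (fun hh => t31 hh.2), a0, a3, b0, b3]
    exact key2 _ (Or.inr (by ring))
  · rw [if_pos ⟨t11, t01⟩, a0, a1, b0, b1]
    exact key1 _ (Or.inr (by ring))
  · exact absurd rfl h
  · rw [if_neg (fun hh => t21 hh.2), a1, a2, b1, b2]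
    exact key2 _ (Or.inr (by ring))
  · rw [if_neg (fun hh => t31 hh.2), a1, a3, b1, b3]
    exact key2 _ (Or.inr (by ring))
  · rw [if_neg (fun hh => t21 hh.1), a0, a2, b0, b2]
    exact key2 _ (Or.inr (by ring))
  · rw [if_neg (fun hh => t21 hh.1), a1, a2, b1, b2]
    exact key2 _ (Or.inl (by ring))
  · exact absurd rfl h
  · rw [if_neg (fun hh => t21 hh.1), a2, a3, b2, b3]
    exact key2 _ (Or.inr (by ring))
  · rw [if_neg (fun hh => t31 hh.1), a0, a3, b0, b3]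
    exact key2 _ (Or.inl (by ring))
  · rw [if_neg (fun hh => t31 hh.1), a1, a3, b1, b3]
    exact key2 _ (Or.inl (by ring))
  · rw [if_neg (fun hh => t31 hh.1), a2, a3, b2, b3]
    exact key2 _ (Or.inl (by ring))
  · exact absurd rfl h

private theorem vol_pos {m : ℕ} (hm : 1 ≤ m) {i j : Fin 4} (h : i ≠ j) (s t : ℤ) {e : ℤ}
    (he : e = 0 ∨ e = 1) (hs : 2 ≤ (i : ℕ) → s % 2 = e) (ht : 2 ≤ (j : ℕ) → t % 2 = e) :
    volume (strip m e (i, s) ∩ strip m e (j, t)) = ENNReal.ofReal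
      (if (i : ℕ) < 2 ∧ (j : ℕ) < 2 then 1 / (m : ℝ) ^ 2 else 2 / (m : ℝ) ^ 2) := by
  obtain ⟨a, ha⟩ := strip_eq m he i s hs
  obtain ⟨b, hb⟩ := strip_eq m he j t ht
  rw [ha, hb, vol_lin _ _ _ _ (det_val hm h).1, (det_val hm h).2]

private theorem vol_zero {m : ℕ} {i j : Fin 4} (s t : ℤ) {e : ℤ} (he : e = 0 ∨ e = 1)
    (hst : (2 ≤ (i : ℕ) ∧ s % 2 ≠ e) ∨ (2 ≤ (j : ℕ) ∧ t % 2 ≠ e)) :
    volume (strip m e (i, s) ∩ strip m e (j, t)) = 0 := by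
  rcases hst with ⟨h1, h2⟩ | ⟨h1, h2⟩
  · rw [strip_one h1 he h2, Set.empty_inter, measure_empty]
  · rw [strip_one h1 he h2, Set.inter_empty, measure_empty]

theorem strip_fin {m : ℕ} (hm : 1 ≤ m) {i j : Fin 4} (h : i ≠ j) (s t : ℤ) {e : ℤ} (he : e = 0 ∨ e = 1) :
    volume (strip m e (i, s) ∩ strip m e (j, t)) ≠ ⊤ := by
  by_cases h1 : 2 ≤ (i : ℕ) ∧ s % 2 ≠ e
  · rw [vol_zero s t he (Or.inl h1)]
    exact ENNReal.zero_ne_top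
  by_cases h2 : 2 ≤ (j : ℕ) ∧ t % 2 ≠ e
  · rw [vol_zero s t he (Or.inr h2)]
    exact ENNReal.zero_ne_top
  rw [vol_pos hm h s t he (fun hi => by_contra fun hc => h1 ⟨hi, hc⟩)
    (fun hj => by_contra fun hc => h2 ⟨hj, hc⟩)]
  exact ENNReal.ofReal_ne_top

theorem strip_area {m : ℕ} (hm : 1 ≤ m) {i j : Fin 4} (h : i ≠ j) {s t : ℤ} (hp : pr i j s t) :
    ((volume (strip m 0 (i, s) ∩ strip m 0 (j, t))).toReal +
      (volume (strip m 1 (i, s) ∩ strip m 1 (j, t))).toReal) / 2 = 1 / (m : ℝ) ^ 2 := by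
  have hm0 : (0 : ℝ) < m := by exact_mod_cast hm
  have h1n : 0 ≤ 1 / (m : ℝ) ^ 2 := by positivity
  have h2n : 0 ≤ 2 / (m : ℝ) ^ 2 := by positivity
  by_cases hij : (i : ℕ) < 2 ∧ (j : ℕ) < 2
  · rw [vol_pos hm h s t (Or.inl rfl) (fun hi => by omega) (fun hj => by omega),
      vol_pos hm h s t (Or.inr rfl) (fun hi => by omega) (fun hj => by omega), if_pos hij,
      ENNReal.toReal_ofReal h1n]
    ring
  · have hex : ((2 ≤ (i : ℕ) → s % 2 = 0) ∧ (2 ≤ (j : ℕ) → t % 2 = 0) ∧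
        ((2 ≤ (i : ℕ) ∧ s % 2 ≠ 1) ∨ (2 ≤ (j : ℕ) ∧ t % 2 ≠ 1))) ∨
        ((2 ≤ (i : ℕ) → s % 2 = 1) ∧ (2 ≤ (j : ℕ) → t % 2 = 1) ∧
        ((2 ≤ (i : ℕ) ∧ s % 2 ≠ 0) ∨ (2 ≤ (j : ℕ) ∧ t % 2 ≠ 0))) := by
      unfold pr at hp
      by_cases hi : 2 ≤ (i : ℕ)
      · by_cases hj : 2 ≤ (j : ℕ)
        · have := hp hi hj
          omega
        · omega
      · omega
    rcases hex with ⟨h1, h2, h3⟩ | ⟨h1, h2, h3⟩
    · rw [vol_pos hm h s t (Or.inl rfl) h1 h2, vol_zero s t (Or.inr rfl) h3, if_neg hij,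
        ENNReal.toReal_ofReal h2n, ENNReal.toReal_zero]
      ring
    · rw [vol_pos hm h s t (Or.inr rfl) h1 h2, vol_zero s t (Or.inl rfl) h3, if_neg hij,
        ENNReal.toReal_ofReal h2n, ENNReal.toReal_zero]
      ring

end Pool.Agent.NQF
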