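import Pool.Agent.NQF.VDefs

/-!
# NQF-VPtA: a Lipschitz function on the board that is small in the quadratic mean is small
-/

set_option autoImplicit false

open Finset MeasureTheory

namespace Pool.Agent.NQF

open Pool.Agent.NQ (board dsum F Ent Dg phi ln Q Qset QS NonAtt bern)
open Pool.Agent.NQR (Adm Opt Bd Rf hS hD hh InR)
open Pool.Agent.NQL

/-- the estimate from a square block of side `m` -/
private theorem vpt_blk {C1 C0 : ℝ} (hC1 : 0 ≤ C1) (hC0 : 0 ≤ C0) {n m : ℕ} {D : ℤ × ℤ → ℝ} (hm : 1 ≤ m)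
    (hmn : m ≤ n)
    (hD : ∀ e ∈ board n, ∀ f ∈ board n,
      |D e - D f| ≤ C1 * ((|e.1 - f.1| + |e.2 - f.2| : ℤ) : ℝ) / (n : ℝ) ^ 2)
    (hs : ∑ e ∈ board n, D e ^ 2 ≤ C0 / (n : ℝ) ^ 2) {e : ℤ × ℤ} (he : e ∈ board n)
    (hq : (m : ℝ) ≤ |D e| * (n : ℝ) ^ 2 / (4 * (C1 + 1))) :
    (m : ℝ) * |D e| ≤ 2 * Real.sqrt C0 / n := by
  have hn0 : (0 : ℝ) < n := by exact_mod_cast (by omega : 0 < n)
  unfold board at he
  obtain ⟨h1, h2⟩ := Finset.mem_product.1 he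
  rw [Finset.mem_Ico] at h1 h2
  obtain ⟨a, ha⟩ : ∃ a : ℤ, a = min e.1 ((n : ℤ) - m) := ⟨_, rfl⟩
  obtain ⟨b, hb⟩ : ∃ b : ℤ, b = min e.2 ((n : ℤ) - m) := ⟨_, rfl⟩
  have hsub : (Finset.Ico a (a + m) ×ˢ Finset.Ico b (b + m)) ⊆ board n := by
    intro f hf
    obtain ⟨k1, k2⟩ := Finset.mem_product.1 hf
    rw [Finset.mem_Ico] at k1 k2
    unfold board
    rw [Finset.mem_product, Finset.mem_Ico, Finset.mem_Ico]
    refine ⟨⟨?_, ?_⟩, ?_, ?_⟩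
    · omega
    · omega
    · omega
    · omega
  have hlow : ∀ f ∈ (Finset.Ico a (a + m) ×ˢ Finset.Ico b (b + m)), (|D e| / 2) ^ 2 ≤ D f ^ 2 := by
    intro f hf
    have h3 := hD e (by unfold board; exact he) f (hsub hf)
    obtain ⟨k1, k2⟩ := Finset.mem_product.1 hf
    rw [Finset.mem_Ico] at k1 k2
    have h4 : (|e.1 - f.1| + |e.2 - f.2| : ℤ) ≤ 2 * m := by
      have a1 : |e.1 - f.1| ≤ m := by
        rw [abs_le]
        constructor <;> omega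
      have a2 : |e.2 - f.2| ≤ m := by
        rw [abs_le]
        constructor <;> omega
      omega
    have h5 : ((|e.1 - f.1| + |e.2 - f.2| : ℤ) : ℝ) ≤ 2 * m := by exact_mod_cast h4
    have h6 : C1 * ((|e.1 - f.1| + |e.2 - f.2| : ℤ) : ℝ) / (n : ℝ) ^ 2 ≤ |D e| / 2 := by
      rw [le_div_iff₀ (by positivity : (0 : ℝ) < 4 * (C1 + 1))] at hq
      rw [div_le_iff₀ (by positivity)]
      have h7 : C1 * ((|e.1 - f.1| + |e.2 - f.2| : ℤ) : ℝ) ≤ C1 * (2 * m) := mul_le_mul_of_nonneg_left h5 hC1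
      have h8 : (0 : ℝ) ≤ m := Nat.cast_nonneg m
      linarith [h7, hq, h8, show (m : ℝ) * (4 * (C1 + 1)) = 2 * (C1 * (2 * m)) + 4 * m by ring,
        show |D e| / 2 * (n : ℝ) ^ 2 = (|D e| * (n : ℝ) ^ 2) / 2 by ring]
    have h7 : |D e| ≤ |D f| + |D e - D f| := by
      have h8 := abs_add_le (D f) (D e - D f)
      rwa [add_sub_cancel] at h8
    have h8 : |D e| / 2 ≤ |D f| := by linarith
    rw [← sq_abs (D f)]
    exact pow_le_pow_left₀ (by positivity) h8 2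
  have hsum : (m : ℝ) * m * (|D e| / 2) ^ 2 ≤ C0 / (n : ℝ) ^ 2 := by
    have h3 : ∑ f ∈ (Finset.Ico a (a + m) ×ˢ Finset.Ico b (b + m)), (|D e| / 2) ^ 2 ≤
        ∑ f ∈ (Finset.Ico a (a + m) ×ˢ Finset.Ico b (b + m)), D f ^ 2 := Finset.sum_le_sum hlow
    have h4 : ∑ f ∈ (Finset.Ico a (a + m) ×ˢ Finset.Ico b (b + m)), D f ^ 2 ≤ ∑ f ∈ board n, D f ^ 2 :=
      Finset.sum_le_sum_of_subset_of_nonneg hsub fun f _ _ => sq_nonneg _
    have h5 : ((Finset.Ico a (a + m) ×ˢ Finset.Ico b (b + m)).card : ℝ) = (m : ℝ) * m := by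
      rw [Finset.card_product, Int.card_Ico, Int.card_Ico, add_sub_cancel_left, add_sub_cancel_left,
        Int.toNat_natCast]
      push_cast
      ring
    rw [Finset.sum_const, nsmul_eq_mul, h5] at h3
    exact (h3.trans h4).trans hs
  have h9 : ((m : ℝ) * |D e|) ^ 2 ≤ (2 * Real.sqrt C0 / n) ^ 2 := by
    have e1 : ((m : ℝ) * |D e|) ^ 2 = 4 * ((m : ℝ) * m * (|D e| / 2) ^ 2) := by ring
    have e2 : (2 * Real.sqrt C0 / n) ^ 2 = 4 * (C0 / (n : ℝ) ^ 2) := by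
      rw [div_pow, mul_pow, Real.sq_sqrt hC0]
      ring
    rw [e1, e2]
    linarith
  exact le_of_sq_le_sq h9 (by positivity)

theorem pt_of_l2 {C1 C0 : ℝ} (hC1 : 0 ≤ C1) (hC0 : 0 ≤ C0) : ∃ C2 : ℝ, 0 ≤ C2 ∧ ∀ (n : ℕ) (D : ℤ × ℤ → ℝ), 1 ≤ n →
    (∀ e ∈ board n, ∀ f ∈ board n, |D e - D f| ≤ C1 * ((|e.1 - f.1| + |e.2 - f.2| : ℤ) : ℝ) / (n : ℝ) ^ 2) →
    ∑ e ∈ board n, D e ^ 2 ≤ C0 / (n : ℝ) ^ 2 → ∀ e ∈ board n, |D e| ≤ C2 / (n * Real.sqrt n) := by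
  refine ⟨4 * (C1 + 1) + 4 * Real.sqrt C0 + Real.sqrt (16 * (C1 + 1) * Real.sqrt C0), by positivity, ?_⟩
  intro n D hn hD hs e he
  have hn1 : (1 : ℝ) ≤ n := by exact_mod_cast hn
  have hn0 : (0 : ℝ) < n := by linarith
  have hs1 : 1 ≤ Real.sqrt n := by rw [Real.one_le_sqrt]; exact hn1
  have hss : Real.sqrt n ^ 2 = n := Real.sq_sqrt hn0.le
  have hsn : Real.sqrt n ≤ n := by nlinarith
  have hP : (0 : ℝ) < n * Real.sqrt n := by positivity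
  have hP2 : (n : ℝ) * Real.sqrt n ≤ (n : ℝ) ^ 2 := by
    rw [pow_two]
    exact mul_le_mul_of_nonneg_left hsn hn0.le
  have c1 : 0 ≤ 4 * (C1 + 1) := by positivity
  have c2 : 0 ≤ 4 * Real.sqrt C0 := by positivity
  have c3 : 0 ≤ Real.sqrt (16 * (C1 + 1) * Real.sqrt C0) := Real.sqrt_nonneg _
  have hδ := abs_nonneg (D e)
  rw [le_div_iff₀ hP]
  have hK : (0 : ℝ) < 4 * (C1 + 1) := by positivity
  have hδP : |D e| * (n * Real.sqrt n) ≤ |D e| * (n : ℝ) ^ 2 := mul_le_mul_of_nonneg_left hP2 hδ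
  obtain ⟨q, hq⟩ : ∃ q : ℝ, q = |D e| * (n : ℝ) ^ 2 / (4 * (C1 + 1)) := ⟨_, rfl⟩
  have hq' : q * (4 * (C1 + 1)) = |D e| * (n : ℝ) ^ 2 := by
    rw [hq]
    exact div_mul_cancel₀ _ hK.ne'
  rcases lt_or_ge q 1 with h | h
  · have h1 : |D e| * (n : ℝ) ^ 2 ≤ 4 * (C1 + 1) := by
      rw [← hq']
      have h2 := mul_le_mul_of_nonneg_right h.le hK.le
      rwa [one_mul] at h2
    linarith
  · obtain ⟨μ, hμ⟩ : ∃ μ : ℝ, μ = min (n : ℝ) q := ⟨_, rfl⟩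
    have hμ1 : 1 ≤ μ := by
      rw [hμ]
      exact le_min hn1 h
    have hm1 : 1 ≤ ⌊μ⌋₊ := Nat.le_floor (by push_cast; exact hμ1)
    have hm2 : (⌊μ⌋₊ : ℝ) ≤ μ := Nat.floor_le (by linarith)
    have hm3 : ⌊μ⌋₊ ≤ n := by
      have h1 : (⌊μ⌋₊ : ℝ) ≤ n := hm2.trans (by rw [hμ]; exact min_le_left _ _)
      exact_mod_cast h1
    have hm4 : (⌊μ⌋₊ : ℝ) ≤ q := hm2.trans (by rw [hμ]; exact min_le_right _ _)
    have hm5 : μ ≤ 2 * (⌊μ⌋₊ : ℝ) := by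
      have h1 := Nat.lt_floor_add_one μ
      have h2 : (1 : ℝ) ≤ (⌊μ⌋₊ : ℝ) := by exact_mod_cast hm1
      linarith
    have hb := vpt_blk hC1 hC0 hm1 hm3 hD hs he (by rw [← hq]; exact hm4)
    have hb2 : μ * |D e| ≤ 4 * Real.sqrt C0 / n := by
      have h1 := mul_le_mul_of_nonneg_right hm5 hδ
      calc μ * |D e| ≤ 2 * (⌊μ⌋₊ : ℝ) * |D e| := h1
        _ = 2 * ((⌊μ⌋₊ : ℝ) * |D e|) := by ring
        _ ≤ 2 * (2 * Real.sqrt C0 / n) := mul_le_mul_of_nonneg_left hb (by norm_num)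
        _ = 4 * Real.sqrt C0 / n := by ring
    rw [le_div_iff₀ hn0] at hb2
    rcases min_choice (n : ℝ) q with h1 | h1
    · rw [hμ, h1] at hb2
      have h2 : |D e| * (n : ℝ) ^ 2 = n * |D e| * n := by ring
      linarith
    · rw [hμ, h1] at hb2
      have h3 : (|D e| * (n * Real.sqrt n)) ^ 2 ≤ 16 * (C1 + 1) * Real.sqrt C0 := by
        calc (|D e| * (n * Real.sqrt n)) ^ 2 = |D e| * (n : ℝ) ^ 2 * (|D e| * Real.sqrt n ^ 2) := by ring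
          _ = q * (4 * (C1 + 1)) * (|D e| * n) := by rw [hss, hq']
          _ = (4 * (C1 + 1)) * (q * |D e| * n) := by ring
          _ ≤ (4 * (C1 + 1)) * (4 * Real.sqrt C0) := mul_le_mul_of_nonneg_left hb2 hK.le
          _ = 16 * (C1 + 1) * Real.sqrt C0 := by ring
      have h4 := Real.le_sqrt_of_sq_le h3
      linarith

end Pool.Agent.NQF
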