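import Pool.Agent.NQF.VDefs
import Pool.Agent.NQF.VPtA
import Pool.Agent.NQF.FW
import Pool.Agent.NQF.FBlk
import Pool.Agent.NQF.LLNea

/-!
# NQF-VPt: the weights of the boards `n` and `n k` are close pointwise
-/

set_option autoImplicit false

open Finset MeasureTheory

namespace Pool.Agent.NQF

open Pool.Agent.NQ (board dsum F Ent Dg phi ln Q Qset QS NonAtt bern)
open Pool.Agent.NQR (Adm Opt Bd Rf hS hD hh InR)
open Pool.Agent.NQL

theorem v_pt {L C : ℝ} (hL : 1 ≤ L) (hC : 0 ≤ C) : ∃ (C1 : ℝ) (n0 : ℕ), 0 ≤ C1 ∧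
    ∀ (n k : ℕ) (W W' : ℤ × ℤ → ℝ) (A B A' B' : ℤ → ℝ), n0 ≤ n → 1 ≤ n → 1 ≤ k → Opt n W → Rf L n W A B → Lp C n W A B →
      Opt (n * k) W' → Rf L (n * k) W' A' B' → Lp C (n * k) W' A' B' →
      ∀ e ∈ board n, ∀ a b : ℤ, 0 ≤ a → a < k → 0 ≤ b → b < k →
        |(n : ℝ) * k * W' (k * e.1 + a, k * e.2 + b) - n * W e| ≤ C1 / Real.sqrt n := by
  obtain ⟨C0, n0, hC0, hnear⟩ := cz_near hL hC
  obtain ⟨Cw, hCw, hw⟩ := w_lip hL hC
  obtain ⟨Cb, hCb, hbk⟩ := f_blk hL hC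
  obtain ⟨C2, hC2, hpt⟩ := pt_of_l2 (add_nonneg hCb hCw) hC0
  refine ⟨Cb + C2, n0, add_nonneg hCb hC2, ?_⟩
  intro n k W W' A B A' B' hn0 hn hk hO hR hLp hO' hR' hLp' e he a b ha hak hb hbk'
  have hn1 : (1 : ℝ) ≤ n := by exact_mod_cast hn
  have hnp : (0 : ℝ) < n := by linarith
  have hkp : (0 : ℝ) < k := by exact_mod_cast hk
  have hs1 : 1 ≤ Real.sqrt n := by rw [Real.one_le_sqrt]; exact hn1
  have hss : Real.sqrt n ^ 2 = n := Real.sq_sqrt hnp.le
  have hsn : Real.sqrt n ≤ n := by nlinarith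
  have hsp : (0 : ℝ) < Real.sqrt n := by linarith
  obtain ⟨f1, f2⟩ := hbk n k W' A' B' hn hk hR' hLp'
  have g1 := f1 e he a b ha hak hb hbk'
  have g2 := hpt n (fun e => cz n k W' e - W e) hn (by
    intro e he f hf
    have h1 := f2 e he f hf
    have h2 := hw n W A B hn hR hLp e he f hf
    have h3 : cz n k W' e - W e - (cz n k W' f - W f) = (cz n k W' e - cz n k W' f) - (W e - W f) := by ring
    show |cz n k W' e - W e - (cz n k W' f - W f)| ≤ _
    rw [h3, add_mul, add_div]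
    exact (abs_sub _ _).trans (add_le_add h1 h2))
    (hnear n k W W' A B A' B' hn0 hn hk hO hR hO' hR' hLp') e he
  have e1 : (n : ℝ) * k * W' (k * e.1 + a, k * e.2 + b) - n * W e =
      n * k * (W' (k * e.1 + a, k * e.2 + b) - cz n k W' e / k) + n * (cz n k W' e - W e) := by
    field_simp
    ring
  rw [e1]
  have hnk : (0 : ℝ) ≤ n * k := by positivity
  refine (abs_add_le _ _).trans ?_
  rw [abs_mul ((n : ℝ) * k), abs_mul (n : ℝ) (cz n k W' e - W e), abs_of_nonneg hnk, abs_of_nonneg hnp.le, add_div]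
  refine add_le_add ?_ ?_
  · calc (n : ℝ) * k * |W' (k * e.1 + a, k * e.2 + b) - cz n k W' e / k| ≤ n * k * (Cb / ((n : ℝ) ^ 2 * k)) :=
          mul_le_mul_of_nonneg_left g1 hnk
      _ = Cb / n := by
          field_simp
      _ ≤ Cb / Real.sqrt n := div_le_div_of_nonneg_left hCb hsp hsn
  · calc (n : ℝ) * |cz n k W' e - W e| ≤ n * (C2 / (n * Real.sqrt n)) := mul_le_mul_of_nonneg_left g2 hnp.le
      _ = C2 / Real.sqrt n := by
          field_simp

end Pool.Agent.NQF
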