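import Pool.Agent.NQF.VDefs
import Pool.Agent.NQF.VPt
import Pool.Agent.NQF.FLip
import Pool.Agent.NQF.FW
import Pool.Agent.NQR.PRef

/-!
# NQF-VCau: maximisers of the boards `n` and `n k` at the same point of the unit square
-/

set_option autoImplicit false

open Finset MeasureTheory

namespace Pool.Agent.NQF

open Pool.Agent.NQ (board dsum F Ent Dg phi ln Q Qset QS NonAtt bern)
open Pool.Agent.NQR (Adm Opt Bd Rf hS hD hh InR)
open Pool.Agent.NQL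

private theorem vcau_mono {C C' : ℝ} {N : ℕ} {W : ℤ × ℤ → ℝ} {A B : ℤ → ℝ} (h : C ≤ C') (hL : Lp C N W A B) :
    Lp C' N W A B := by
  have h1 : C / N ≤ C' / N := div_le_div_of_nonneg_right h (Nat.cast_nonneg N)
  exact ⟨fun x a b => (hL.A x a b).trans h1, fun x a b => (hL.B x a b).trans h1, fun s => (hL.s s).trans h1,
    fun s => (hL.d s).trans h1⟩

private theorem vcau_fl {n k : ℕ} (x : ℝ) :
    0 ≤ ⌊((n * k : ℕ) : ℝ) * x⌋ - k * ⌊(n : ℝ) * x⌋ ∧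
      (1 ≤ k → ⌊((n * k : ℕ) : ℝ) * x⌋ - k * ⌊(n : ℝ) * x⌋ < k) := by
  have h1 := Int.floor_le ((n : ℝ) * x)
  have h2 := Int.lt_floor_add_one ((n : ℝ) * x)
  constructor
  · have h3 : (k : ℤ) * ⌊(n : ℝ) * x⌋ ≤ ⌊((n * k : ℕ) : ℝ) * x⌋ := by
      rw [Int.le_floor]
      push_cast
      have h4 := mul_le_mul_of_nonneg_left h1 (Nat.cast_nonneg (α := ℝ) k)
      linarith [h4, show (n : ℝ) * k * x = k * (n * x) by ring]
    omega
  · intro hk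
    have hk0 : (0 : ℝ) < k := by exact_mod_cast hk
    have h3 : ⌊((n * k : ℕ) : ℝ) * x⌋ < (k : ℤ) * ⌊(n : ℝ) * x⌋ + k := by
      rw [Int.floor_lt]
      push_cast
      have h4 := mul_lt_mul_of_pos_left h2 hk0
      linarith [h4, show (n : ℝ) * k * x = k * (n * x) by ring,
        show (k : ℝ) * ((⌊(n : ℝ) * x⌋ : ℝ) + 1) = k * (⌊(n : ℝ) * x⌋ : ℝ) + k by ring]
    omega

theorem v_cau : ∃ (L C : ℝ) (n0 : ℕ), 1 ≤ L ∧ 1 ≤ C ∧ 1000 ≤ n0 ∧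
    (∀ n : ℕ, n0 ≤ n → ∀ W : ℤ × ℤ → ℝ, Opt n W → ∃ A B : ℤ → ℝ, Rf L n W A B ∧ Lp C n W A B ∧
      ∀ e ∈ board n, ∀ f ∈ board n, |W e - W f| ≤ C * ((|e.1 - f.1| + |e.2 - f.2| : ℤ) : ℝ) / (n : ℝ) ^ 2) ∧
    ∀ n k : ℕ, n0 ≤ n → 1 ≤ k → ∀ W W' : ℤ × ℤ → ℝ, Opt n W → Opt (n * k) W' → ∀ p ∈ SQ,
      |((n * k : ℕ) : ℝ) * W' (⌊((n * k : ℕ) : ℝ) * p.1⌋, ⌊((n * k : ℕ) : ℝ) * p.2⌋) - n * W (⌊n * p.1⌋, ⌊n * p.2⌋)| ≤
        C / Real.sqrt n := by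
  obtain ⟨L, hL, href⟩ := Pool.Agent.NQR.exists_ref
  obtain ⟨Ca, Na, hCa, hlip⟩ := lip L hL
  obtain ⟨Cb, hCb, hw⟩ := w_lip hL hCa
  obtain ⟨Cc, Nc, hCc, hpt⟩ := v_pt hL hCa
  refine ⟨L, max (max 1 Ca) (max Cb Cc), max (max 1000 Na) Nc, hL, (le_max_left _ _).trans (le_max_left _ _),
    (le_max_left _ _).trans (le_max_left _ _), ?_, ?_⟩
  · intro n hn W hW
    have h1 : 1000 ≤ n := ((le_max_left _ _).trans (le_max_left _ _)).trans hn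
    have h2 : Na ≤ n := ((le_max_right _ _).trans (le_max_left _ _)).trans hn
    obtain ⟨A, B, hR⟩ := href n h1 W hW
    have hLp := hlip n W A B h2 hR
    refine ⟨A, B, hR, vcau_mono ((le_max_right _ _).trans (le_max_left _ _)) hLp, ?_⟩
    intro e he f hf
    refine (hw n W A B (by omega) hR hLp e he f hf).trans ?_
    refine div_le_div_of_nonneg_right (mul_le_mul_of_nonneg_right ((le_max_left _ _).trans (le_max_right _ _)) ?_)
      (by positivity)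
    have h3 : (0 : ℤ) ≤ |e.1 - f.1| + |e.2 - f.2| := add_nonneg (abs_nonneg _) (abs_nonneg _)
    exact_mod_cast h3
  · intro n k hn hk W W' hW hW' p hp
    have h1 : 1000 ≤ n := ((le_max_left _ _).trans (le_max_left _ _)).trans hn
    have h2 : Na ≤ n := ((le_max_right _ _).trans (le_max_left _ _)).trans hn
    have h3 : Nc ≤ n := (le_max_right _ _).trans hn
    have hnk : n ≤ n * k := Nat.le_mul_of_pos_right n hk
    have hn1 : 1 ≤ n := by omega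
    obtain ⟨A, B, hR⟩ := href n h1 W hW
    obtain ⟨A', B', hR'⟩ := href (n * k) (h1.trans hnk) W' hW'
    have hLp := hlip n W A B h2 hR
    have hLp' := hlip (n * k) W' A' B' (h2.trans hnk) hR'
    have hn0 : (0 : ℝ) < n := by exact_mod_cast hn1
    have hq1 : p.1 ∈ Set.Ico (0 : ℝ) 1 := hp.1
    have hq2 : p.2 ∈ Set.Ico (0 : ℝ) 1 := hp.2
    have hfl : ∀ x : ℝ, x ∈ Set.Ico (0 : ℝ) 1 → ⌊(n : ℝ) * x⌋ ∈ Finset.Ico (0 : ℤ) n := by
      intro x hx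
      rw [Finset.mem_Ico]
      constructor
      · exact Int.floor_nonneg.2 (mul_nonneg hn0.le hx.1)
      · rw [Int.floor_lt]
        push_cast
        have h4 := mul_lt_mul_of_pos_left hx.2 hn0
        linarith
    have he : ((⌊(n : ℝ) * p.1⌋, ⌊(n : ℝ) * p.2⌋) : ℤ × ℤ) ∈ board n := by
      unfold board
      exact Finset.mem_product.2 ⟨hfl _ hq1, hfl _ hq2⟩
    have key := hpt n k W W' A B A' B' h3 hn1 hk hW hR hLp hW' hR' hLp' _ he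
      (⌊((n * k : ℕ) : ℝ) * p.1⌋ - k * ⌊(n : ℝ) * p.1⌋) (⌊((n * k : ℕ) : ℝ) * p.2⌋ - k * ⌊(n : ℝ) * p.2⌋)
      (vcau_fl p.1).1 ((vcau_fl p.1).2 hk) (vcau_fl p.2).1 ((vcau_fl p.2).2 hk)
    have e1 : ∀ x : ℝ, (k : ℤ) * ⌊(n : ℝ) * x⌋ + (⌊((n * k : ℕ) : ℝ) * x⌋ - k * ⌊(n : ℝ) * x⌋) =
        ⌊((n * k : ℕ) : ℝ) * x⌋ := fun x => by ring
    have e2 : (n : ℝ) * k = ((n * k : ℕ) : ℝ) := by push_cast; ring
    have key2 : |((n * k : ℕ) : ℝ) * W' (⌊((n * k : ℕ) : ℝ) * p.1⌋, ⌊((n * k : ℕ) : ℝ) * p.2⌋) -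
        n * W (⌊n * p.1⌋, ⌊n * p.2⌋)| ≤ Cc / Real.sqrt n := by
      have key3 := key
      simp only [e1] at key3
      rw [← e2]
      rw [← e2] at key3
      exact key3
    exact key2.trans (div_le_div_of_nonneg_right ((le_max_right _ _).trans (le_max_right _ _)) (Real.sqrt_nonneg _))

end Pool.Agent.NQF
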