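import Pool.Agent.NQF.VDefs

/-!
# NQF-VMeas: measurability and integrability of regular densities

PLAN. `SQ` is a product of half open intervals. `w` is continuous on `SQ` (`lip`: `ContinuousOn`; e.g. `LipschitzOnWith` or directly by `Metric.continuousOn_iff`) and `0` outside: `w = SQ.indicator w`;
measurable: `ContinuousOn.measurable_piecewise` or `measurable_of_restrict_of_restrict_compl`. Integrable: measurable, bounded by `L`, `0` outside of a set of volume one
(`Measure.integrableOn_of_bounded` on `SQ`, `IntegrableOn` to `Integrable` with the indicator). Sections: measurable (composition with the measurable maps `y ↦ (x,y)`, `x ↦ (x, s - x)`), bounded by `L`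
(`0 ≤ w ≤ L`, here `1 ≤ L`), `0` for `y ∉ [0,1)` resp. `x ∉ [0,1)`. `DS w`, `DD w` measurable: `StronglyMeasurable.integral_prod_right'`/`_left` for `(s, x) ↦ w (x, s - x)`.
Zeros: no `x ∈ [0,1)` has `s - x ∈ [0,1)` if `s < 0` or `2 ≤ s`; `x - d ∈ [0,1)` if `d ≤ -1` or `1 ≤ d`.
-/

set_option autoImplicit false

open Finset MeasureTheory

namespace Pool.Agent.NQF

open Pool.Agent.NQ (board dsum F Ent Dg phi ln Q Qset QS NonAtt bern)
open Pool.Agent.NQR (Adm Opt Bd Rf hS hD hh InR)
open Pool.Agent.NQL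

theorem sq_meas : MeasurableSet SQ := measurableSet_Ico.prod measurableSet_Ico

theorem sq_vol : volume SQ = 1 := by
  unfold SQ
  rw [Measure.volume_eq_prod, Measure.prod_prod, Real.volume_Ico]
  simp

theorem ql_bd {L C : ℝ} {w : ℝ × ℝ → ℝ} (hL : 1 ≤ L) (h : QL L C w) (p : ℝ × ℝ) : 0 ≤ w p ∧ w p ≤ L := by
  by_cases hp : p ∈ SQ
  · have h1 := h.lo p hp
    have h2 : 0 < 1 / L := by positivity
    exact ⟨by linarith, h.hi p hp⟩
  · rw [h.out p hp]
    exact ⟨le_refl _, by linarith⟩

private theorem vm_cont {L C : ℝ} {w : ℝ × ℝ → ℝ} (h : QL L C w) : ContinuousOn w SQ := by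
  rw [Metric.continuousOn_iff]
  intro b hb ε hε
  refine ⟨ε / (2 * |C| + 1), by positivity, ?_⟩
  intro a ha hab
  rw [Real.dist_eq]
  have h1 := h.lip a ha b hb
  have h2 : |a.1 - b.1| ≤ dist a b := by
    rw [← Real.dist_eq]
    exact le_max_left _ _
  have h3 : |a.2 - b.2| ≤ dist a b := by
    rw [← Real.dist_eq]
    exact le_max_right _ _
  have h4 : C * (|a.1 - b.1| + |a.2 - b.2|) ≤ |C| * (2 * dist a b) := by
    have h5 : 0 ≤ |a.1 - b.1| + |a.2 - b.2| := by positivity
    calc C * (|a.1 - b.1| + |a.2 - b.2|) ≤ |C| * (|a.1 - b.1| + |a.2 - b.2|) :=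
          mul_le_mul_of_nonneg_right (le_abs_self C) h5
      _ ≤ |C| * (2 * dist a b) := mul_le_mul_of_nonneg_left (by linarith) (abs_nonneg C)
  have h6 : (2 * |C| + 1) * dist a b < ε := by
    rw [lt_div_iff₀ (by positivity)] at hab
    linarith
  have h7 : 0 ≤ dist a b := dist_nonneg
  nlinarith

theorem ql_meas {L C : ℝ} {w : ℝ × ℝ → ℝ} (h : QL L C w) : Measurable w := by
  classical
  have h1 : Measurable (SQ.piecewise w (fun _ => (0 : ℝ))) :=
    (vm_cont h).measurable_piecewise continuousOn_const sq_meas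
  have h2 : SQ.piecewise w (fun _ => (0 : ℝ)) = w := by
    funext p
    by_cases hp : p ∈ SQ
    · simp [Set.piecewise, hp]
    · simp [Set.piecewise, hp, h.out p hp]
  rwa [h2] at h1

theorem ql_int {L C : ℝ} {w : ℝ × ℝ → ℝ} (hL : 1 ≤ L) (h : QL L C w) : Integrable w := by
  have h1 : IntegrableOn w SQ volume := by
    refine Measure.integrableOn_of_bounded (M := L) ?_ (ql_meas h).aestronglyMeasurable ?_
    · rw [sq_vol]
      exact ENNReal.one_ne_top
    · refine Filter.Eventually.of_forall fun p => ?_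
      have := ql_bd hL h p
      rw [Real.norm_eq_abs, abs_of_nonneg this.1]
      exact this.2
  refine (integrableOn_iff_integrable_of_support_subset ?_).1 h1
  intro p hp
  by_contra hq
  exact hp (h.out p hq)

private theorem vm_one {L : ℝ} {f : ℝ → ℝ} (hf : Measurable f) (h0 : ∀ x, 0 ≤ f x ∧ f x ≤ L) {a b : ℝ}
    (ho : ∀ x, x ∉ Set.Ico a b → f x = 0) : Integrable f := by
  have h1 : IntegrableOn f (Set.Ico a b) volume := by
    refine Measure.integrableOn_of_bounded (M := L) ?_ hf.aestronglyMeasurable ?_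
    · rw [Real.volume_Ico]
      exact ENNReal.ofReal_ne_top
    · refine Filter.Eventually.of_forall fun p => ?_
      rw [Real.norm_eq_abs, abs_of_nonneg (h0 p).1]
      exact (h0 p).2
  refine (integrableOn_iff_integrable_of_support_subset ?_).1 h1
  intro p hp
  by_contra hq
  exact hp (ho p hq)

theorem ql_sec {L C : ℝ} {w : ℝ × ℝ → ℝ} (hL : 1 ≤ L) (h : QL L C w) :
    (∀ x, Integrable (fun y => w (x, y))) ∧ (∀ y, Integrable (fun x => w (x, y))) ∧
    (∀ s, Integrable (fun x => w (x, s - x))) ∧ ∀ d, Integrable (fun x => w (x, x - d)) := by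
  have hm := ql_meas h
  refine ⟨fun x => ?_, fun y => ?_, fun s => ?_, fun d => ?_⟩
  · refine vm_one (a := 0) (b := 1) (hm.comp (measurable_const.prodMk measurable_id)) (fun y => ql_bd hL h (x, y)) ?_
    intro y hy
    exact h.out _ fun hp => hy hp.2
  · refine vm_one (a := 0) (b := 1) (hm.comp (measurable_id.prodMk measurable_const)) (fun x => ql_bd hL h (x, y)) ?_
    intro x hx
    exact h.out _ fun hp => hx hp.1
  · refine vm_one (a := 0) (b := 1) (hm.comp (measurable_id.prodMk (measurable_const.sub measurable_id)))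
      (fun x => ql_bd hL h (x, s - x)) ?_
    intro x hx
    exact h.out _ fun hp => hx hp.1
  · refine vm_one (a := 0) (b := 1) (hm.comp (measurable_id.prodMk (measurable_id.sub measurable_const)))
      (fun x => ql_bd hL h (x, x - d)) ?_
    intro x hx
    exact h.out _ fun hp => hx hp.1

theorem ql_ds {L C : ℝ} {w : ℝ × ℝ → ℝ} (h : QL L C w) :
    Measurable (DS w) ∧ Measurable (DD w) ∧ (∀ s, s < 0 ∨ 2 ≤ s → DS w s = 0) ∧
    ∀ d, d ≤ -1 ∨ 1 ≤ d → DD w d = 0 := by
  have hm := ql_meas h
  refine ⟨?_, ?_, ?_, ?_⟩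
  · have h1 : Measurable (fun q : ℝ × ℝ => w (q.2, q.1 - q.2)) :=
      hm.comp (measurable_snd.prodMk (measurable_fst.sub measurable_snd))
    exact (h1.stronglyMeasurable.integral_prod_right' (ν := volume)).measurable
  · have h1 : Measurable (fun q : ℝ × ℝ => w (q.2, q.2 - q.1)) :=
      hm.comp (measurable_snd.prodMk (measurable_snd.sub measurable_fst))
    exact (h1.stronglyMeasurable.integral_prod_right' (ν := volume)).measurable
  · intro s hs
    unfold DS
    have h1 : (fun x => w (x, s - x)) = fun _ => (0 : ℝ) := by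
      funext x
      refine h.out _ fun hp => ?_
      obtain ⟨⟨h1, h2⟩, h3, h4⟩ := hp
      simp only at h1 h2 h3 h4
      rcases hs with hs | hs <;> linarith
    rw [h1]
    simp
  · intro d hd
    unfold DD
    have h1 : (fun x => w (x, x - d)) = fun _ => (0 : ℝ) := by
      funext x
      refine h.out _ fun hp => ?_
      obtain ⟨⟨h1, h2⟩, h3, h4⟩ := hp
      simp only at h1 h2 h3 h4
      rcases hd with hd | hd <;> linarith
    rw [h1]
    simp

end Pool.Agent.NQF
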