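import Pool.Agent.NQF.VDefs
import Pool.Agent.NQF.VMeas

/-!
# NQF-VCel: cells

PLAN. One dimension: for integers `a ≤ b` the sets `{x | ⌊n x⌋ = i}`, `n a ≤ i < n b`, are the intervals `[i/n, (i+1)/n)` (`Int.floor_eq_iff`), pairwise disjoint with union `[a, b)`:
`integral_finset_biUnion` (or `MeasureTheory.integral_biUnion_finset`). Volume `1/n` (`Real.volume_Ico`). Two dimensions: the cells are products of the intervals, `volume` of `ℝ × ℝ` is the product measure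
(`Measure.volume_eq_prod`, `Measure.prod_prod`); union over `board n` (`mem_board`) is `SQ`.
-/

set_option autoImplicit false

open Finset MeasureTheory

namespace Pool.Agent.NQF

open Pool.Agent.NQ (board dsum F Ent Dg phi ln Q Qset QS NonAtt bern)
open Pool.Agent.NQR (Adm Opt Bd Rf hS hD hh InR)
open Pool.Agent.NQL

private theorem vc_n {n : ℕ} (hn : 1 ≤ n) : (0 : ℝ) < n := by exact_mod_cast hn

private theorem vc_set {n : ℕ} (hn : 1 ≤ n) (i : ℤ) :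
    {x : ℝ | ⌊n * x⌋ = i} = Set.Ico ((i : ℝ) / n) (((i : ℝ) + 1) / n) := by
  have hn0 := vc_n hn
  ext x
  rw [Set.mem_setOf_eq, Int.floor_eq_iff, Set.mem_Ico, div_le_iff₀ hn0, lt_div_iff₀ hn0, mul_comm x]

theorem cel_one_vol {n : ℕ} (hn : 1 ≤ n) (i : ℤ) : MeasurableSet {x : ℝ | ⌊n * x⌋ = i} ∧
    volume {x : ℝ | ⌊n * x⌋ = i} = ENNReal.ofReal (1 / n) := by
  rw [vc_set hn]
  refine ⟨measurableSet_Ico, ?_⟩
  rw [Real.volume_Ico]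
  congr 1
  ring

private theorem vc_lt {n : ℕ} (hn : 1 ≤ n) (x : ℝ) (b : ℤ) : ⌊n * x⌋ < n * b ↔ x < b := by
  have hn0 := vc_n hn
  rw [Int.floor_lt]
  push_cast
  exact mul_lt_mul_iff_right₀ hn0

private theorem vc_le {n : ℕ} (hn : 1 ≤ n) (x : ℝ) (a : ℤ) : n * a ≤ ⌊n * x⌋ ↔ (a : ℝ) ≤ x := by
  rw [← not_lt, vc_lt hn, not_lt]

theorem cel_one {f : ℝ → ℝ} {a b : ℤ} (hab : a ≤ b) (hf : IntegrableOn f (Set.Ico (a : ℝ) b)) {n : ℕ} (hn : 1 ≤ n) :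
    ∫ x in Set.Ico (a : ℝ) b, f x = ∑ i ∈ Finset.Ico (n * a) (n * b), ∫ x in {x : ℝ | ⌊n * x⌋ = i}, f x := by
  have h1 : Set.Ico (a : ℝ) b = ⋃ i ∈ Finset.Ico (n * a) (n * b), {x : ℝ | ⌊n * x⌋ = i} := by
    ext x
    simp only [Set.mem_iUnion, Set.mem_setOf_eq, Finset.mem_Ico, Set.mem_Ico, exists_prop]
    constructor
    · rintro ⟨h1, h2⟩
      exact ⟨⌊n * x⌋, ⟨(vc_le hn x a).2 h1, (vc_lt hn x b).2 h2⟩, rfl⟩
    · rintro ⟨i, ⟨h1, h2⟩, rfl⟩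
      exact ⟨(vc_le hn x a).1 h1, (vc_lt hn x b).1 h2⟩
  have h2 : ∀ i ∈ Finset.Ico (n * a) (n * b), IntegrableOn f {x : ℝ | ⌊n * x⌋ = i} := by
    intro i hi
    refine hf.mono_set ?_
    rw [h1]
    exact Set.subset_biUnion_of_mem (u := fun i : ℤ => {x : ℝ | ⌊n * x⌋ = i}) hi
  conv_lhs => rw [h1]
  refine integral_biUnion_finset _ (fun i _ => (cel_one_vol hn i).1) ?_ h2
  intro i _ j _ hij
  refine Set.disjoint_left.2 fun x hx hy => hij ?_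
  exact (show ⌊n * x⌋ = i from hx).symm.trans hy

theorem cel_mem {n : ℕ} (hn : 1 ≤ n) (p : ℝ × ℝ) : (⌊n * p.1⌋, ⌊n * p.2⌋) ∈ board n ↔ p ∈ SQ := by
  rw [Pool.Agent.NQ.mem_board]
  have h0 : ∀ x : ℝ, 0 ≤ ⌊n * x⌋ ↔ 0 ≤ x := by
    intro x
    have h := vc_le hn x 0
    rw [mul_zero, Int.cast_zero] at h
    exact h
  have h1 : ∀ x : ℝ, ⌊n * x⌋ < n ↔ x < 1 := by
    intro x
    have h := vc_lt hn x 1
    rw [mul_one, Int.cast_one] at h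
    exact h
  show (0 ≤ ⌊n * p.1⌋ ∧ ⌊n * p.1⌋ < n) ∧ 0 ≤ ⌊n * p.2⌋ ∧ ⌊n * p.2⌋ < n ↔ _
  rw [h0, h1, h0, h1]
  unfold SQ
  rw [Set.mem_prod, Set.mem_Ico, Set.mem_Ico]

private theorem vc_set2 {n : ℕ} (hn : 1 ≤ n) (e : ℤ × ℤ) :
    {p : ℝ × ℝ | (⌊n * p.1⌋, ⌊n * p.2⌋) = e} =
      Set.Ico ((e.1 : ℝ) / n) (((e.1 : ℝ) + 1) / n) ×ˢ Set.Ico ((e.2 : ℝ) / n) (((e.2 : ℝ) + 1) / n) := by
  rw [← vc_set hn, ← vc_set hn]
  ext p
  rw [Set.mem_prod, Set.mem_setOf_eq, Set.mem_setOf_eq, Set.mem_setOf_eq]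
  exact Prod.ext_iff

theorem cel_two_vol {n : ℕ} (hn : 1 ≤ n) (e : ℤ × ℤ) : MeasurableSet {p : ℝ × ℝ | (⌊n * p.1⌋, ⌊n * p.2⌋) = e} ∧
    volume {p : ℝ × ℝ | (⌊n * p.1⌋, ⌊n * p.2⌋) = e} = ENNReal.ofReal (1 / (n : ℝ) ^ 2) := by
  rw [vc_set2 hn]
  have hn0 := vc_n hn
  refine ⟨measurableSet_Ico.prod measurableSet_Ico, ?_⟩
  rw [Measure.volume_eq_prod, Measure.prod_prod, Real.volume_Ico, Real.volume_Ico]
  have h1 : ∀ i : ℤ, ((i : ℝ) + 1) / n - (i : ℝ) / n = 1 / n := fun i => by ring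
  rw [h1, h1, ← ENNReal.ofReal_mul (by positivity)]
  congr 1
  field_simp

theorem cel_two {f : ℝ × ℝ → ℝ} (hf : IntegrableOn f SQ) {n : ℕ} (hn : 1 ≤ n) :
    ∫ p in SQ, f p = ∑ e ∈ board n, ∫ p in {p : ℝ × ℝ | (⌊n * p.1⌋, ⌊n * p.2⌋) = e}, f p := by
  have h1 : SQ = ⋃ e ∈ board n, {p : ℝ × ℝ | (⌊n * p.1⌋, ⌊n * p.2⌋) = e} := by
    ext p
    simp only [Set.mem_iUnion, Set.mem_setOf_eq, exists_prop]
    rw [← cel_mem hn]
    constructor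
    · intro h
      exact ⟨_, h, rfl⟩
    · rintro ⟨e, he, h⟩
      rw [h]
      exact he
  have h2 : ∀ e ∈ board n, IntegrableOn f {p : ℝ × ℝ | (⌊n * p.1⌋, ⌊n * p.2⌋) = e} := by
    intro e he
    refine hf.mono_set ?_
    rw [h1]
    exact Set.subset_biUnion_of_mem (u := fun e : ℤ × ℤ => {p : ℝ × ℝ | (⌊n * p.1⌋, ⌊n * p.2⌋) = e}) he
  conv_lhs => rw [h1]
  refine integral_biUnion_finset _ (fun e _ => (cel_two_vol hn e).1) ?_ h2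
  intro i _ j _ hij
  refine Set.disjoint_left.2 fun x hx hy => hij ?_
  exact (show (⌊n * x.1⌋, ⌊n * x.2⌋) = i from hx).symm.trans hy

end Pool.Agent.NQF
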