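import Pool.Agent.NQF.VDefs
import Pool.Agent.NQF.VMeas
import Pool.Agent.NQF.VCel

/-!
# NQF-VRie: Riemann sums

Riemann sums of a Lipschitz function of the density.
-/

set_option autoImplicit false

open Finset MeasureTheory

namespace Pool.Agent.NQF

open Pool.Agent.NQ (board dsum F Ent Dg phi ln Q Qset QS NonAtt bern)
open Pool.Agent.NQR (Adm Opt Bd Rf hS hD hh InR)
open Pool.Agent.NQL

theorem v_rie {L C : ℝ} {n0 : ℕ} {w : ℝ × ℝ → ℝ} (h : Lm L C n0 w) {H : ℝ → ℝ} {K : ℝ} (hK : 0 ≤ K)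
    (hH : ∀ s ∈ Set.Icc (1 / L) L, ∀ t ∈ Set.Icc (1 / L) L, |H s - H t| ≤ K * |s - t|) {n : ℕ} (hn : n0 ≤ n)
    {W : ℤ × ℤ → ℝ} {A B : ℤ → ℝ} (hW : Nr L C n w W A B) :
    |(∑ e ∈ board n, H (n * W e)) / (n : ℝ) ^ 2 - ∫ p in SQ, H (w p)| ≤ K * C / Real.sqrt n := by
  have hL1 := h.L1
  have hL0 : 0 < L := by linarith
  have hC0 : 0 ≤ C := by linarith [h.C1]
  have hn1 : 1 ≤ n := by
    have := h.n1
    omega
  have hnr : (0 : ℝ) < n := by exact_mod_cast hn1
  have hwI : ∀ p ∈ SQ, w p ∈ Set.Icc (1 / L) L := fun p hp => ⟨h.ql.lo p hp, h.ql.hi p hp⟩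
  have hLI : L ∈ Set.Icc (1 / L) L := by
    refine ⟨?_, le_refl L⟩
    rw [div_le_iff₀ hL0]
    nlinarith
  have hWI : ∀ e ∈ board n, (n : ℝ) * W e ∈ Set.Icc (1 / L) L := by
    intro e he
    have h1 := hW.rf.bd.lo e he
    have h2 := hW.rf.bd.hi e he
    constructor
    · rw [div_le_iff₀ (by positivity)] at h1
      rw [div_le_iff₀ hL0]
      linarith
    · rw [le_div_iff₀ hnr] at h2
      linarith
  -- integrability
  have hlip : ∀ p ∈ SQ, ∀ q ∈ SQ, |H (w p) - H (w q)| ≤ K * (C * (|p.1 - q.1| + |p.2 - q.2|)) := by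
    intro p hp q hq
    exact (hH _ (hwI p hp) _ (hwI q hq)).trans (mul_le_mul_of_nonneg_left (h.ql.lip p hp q hq) hK)
  have hcont : ContinuousOn (fun p => H (w p)) SQ := by
    have h1 : LipschitzOnWith (2 * (K * C)).toNNReal (fun p => H (w p)) SQ := by
      apply LipschitzOnWith.of_dist_le_mul
      intro p hp q hq
      rw [Real.coe_toNNReal _ (by positivity), Real.dist_eq]
      refine (hlip p hp q hq).trans ?_
      have h2 : |p.1 - q.1| ≤ dist p q := by
        rw [Prod.dist_eq, ← Real.dist_eq]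
        exact le_max_left _ _
      have h3 : |p.2 - q.2| ≤ dist p q := by
        rw [Prod.dist_eq, ← Real.dist_eq]
        exact le_max_right _ _
      calc K * (C * (|p.1 - q.1| + |p.2 - q.2|)) ≤ K * (C * (dist p q + dist p q)) :=
            mul_le_mul_of_nonneg_left (mul_le_mul_of_nonneg_left (add_le_add h2 h3) hC0) hK
        _ = 2 * (K * C) * dist p q := by ring
    exact h1.continuousOn
  have hfin : volume SQ < ⊤ := by
    rw [sq_vol]
    exact ENNReal.one_lt_top
  have hint : IntegrableOn (fun p => H (w p)) SQ := by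
    refine IntegrableOn.of_bound hfin (hcont.aestronglyMeasurable sq_meas) (|H L| + K * L) ?_
    refine (ae_restrict_iff' sq_meas).mpr (Filter.Eventually.of_forall fun p hp => ?_)
    rw [Real.norm_eq_abs]
    have h1 := hH _ (hwI p hp) _ hLI
    have h2 := hwI p hp
    have h3 : |w p - L| ≤ L := by
      rw [abs_le]
      have : 0 < 1 / L := by positivity
      constructor
      · linarith [h2.1]
      · linarith [h2.2]
    have h4 := mul_le_mul_of_nonneg_left h3 hK
    have h5 : |H (w p)| ≤ |H (w p) - H L| + |H L| := by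
      have := abs_add_le (H (w p) - H L) (H L)
      rwa [sub_add_cancel] at this
    linarith
  rw [cel_two hint hn1, Finset.sum_div, ← Finset.sum_sub_distrib]
  have hcell : ∀ e ∈ board n, |H (n * W e) / (n : ℝ) ^ 2 -
      ∫ p in {p : ℝ × ℝ | (⌊n * p.1⌋, ⌊n * p.2⌋) = e}, H (w p)| ≤ K * C / Real.sqrt n * (1 / (n : ℝ) ^ 2) := by
    intro e he
    obtain ⟨hm, hv⟩ := cel_two_vol hn1 e
    obtain ⟨S, hS⟩ : ∃ S : Set (ℝ × ℝ), S = {p : ℝ × ℝ | (⌊n * p.1⌋, ⌊n * p.2⌋) = e} := ⟨_, rfl⟩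
    rw [← hS] at hm hv ⊢
    have hsub : S ⊆ SQ := by
      intro p hp
      rw [hS] at hp
      have hp' : (⌊n * p.1⌋, ⌊n * p.2⌋) = e := hp
      rw [← cel_mem hn1, hp']
      exact he
    have hr : volume.real S = 1 / (n : ℝ) ^ 2 := by
      rw [Measure.real, hv, ENNReal.toReal_ofReal (by positivity)]
    have hSfin : volume S < ⊤ := by
      rw [hv]
      exact ENNReal.ofReal_lt_top
    have hint1 : IntegrableOn (fun p => H (w p)) S := hint.mono_set hsub
    have hint2 : IntegrableOn (fun _ : ℝ × ℝ => H (n * W e)) S := by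
      apply integrableOn_const hSfin.ne
    have h1 : H (n * W e) / (n : ℝ) ^ 2 - ∫ p in S, H (w p) = ∫ p in S, (H (n * W e) - H (w p)) := by
      rw [integral_sub hint2 hint1, setIntegral_const, hr, smul_eq_mul]
      ring
    rw [h1, ← Real.norm_eq_abs, ← hr]
    apply norm_setIntegral_le_of_norm_le_const hSfin
    intro p hp
    have hpQ := hsub hp
    rw [hS] at hp
    have hp' : (⌊n * p.1⌋, ⌊n * p.2⌋) = e := hp
    rw [Real.norm_eq_abs]
    have h2 := hW.nr p hpQ
    rw [hp'] at h2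
    calc |H (n * W e) - H (w p)| ≤ K * |n * W e - w p| := hH _ (hWI e he) _ (hwI p hpQ)
      _ ≤ K * (C / Real.sqrt n) := mul_le_mul_of_nonneg_left h2 hK
      _ = K * C / Real.sqrt n := by ring
  refine (Finset.abs_sum_le_sum_abs _ _).trans ((Finset.sum_le_sum hcell).trans ?_)
  rw [Finset.sum_const, nsmul_eq_mul]
  have hcard : ((board n).card : ℝ) = (n : ℝ) ^ 2 := by
    unfold NQ.board
    rw [Finset.card_product, Int.card_Ico]
    simp [sq]
  rw [hcard]
  apply le_of_eq
  field_simp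

end Pool.Agent.NQF
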