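import Pool.Agent.NQF.VDefs
import Pool.Agent.NQF.VRie
import Pool.Agent.NQF.VMeas
import Pool.Agent.NQR.PFoc

/-!
# NQF-VEnt: the entropy of the maximisers and the sum of the squares

PLAN. (1) `H t = -(t log t)`, Lipschitz on `[1/L, L]` with the constant `1 + log L` (mean value theorem, derivative `-(log t + 1)`). `Ent n W = ∑ -W log W`, `W = (n W)/n`: `-W log W = (1/n) H (n W) + W log n`, `∑ W = n`
(`Pool.Agent.NQR.adm_mass` in NQR/PFoc or rows), so `Ent n W/n - log n = (1/n²) ∑ H (n W)`; `v_rie`; `∫_{SQ} H (w p) = -∫ p, w p log (w p)` (`w = 0` off `SQ`). (2) `H t = t²`, constant `2 L`: `∑ W² = (1/n²) ∑ (n W)²`.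
-/

set_option autoImplicit false

open Finset MeasureTheory

namespace Pool.Agent.NQF

open Pool.Agent.NQ (board dsum F Ent Dg phi ln Q Qset QS NonAtt bern)
open Pool.Agent.NQR (Adm Opt Bd Rf hS hD hh InR)
open Pool.Agent.NQL

private theorem lipH {L : ℝ} (hL : 1 ≤ L) : ∀ s ∈ Set.Icc (1 / L) L, ∀ t ∈ Set.Icc (1 / L) L,
    |Real.negMulLog s - Real.negMulLog t| ≤ (1 + Real.log L) * |s - t| := by
  have hL0 : 0 < L := by linarith
  have hpos : ∀ x ∈ Set.Icc (1 / L) L, 0 < x := fun x hx => lt_of_lt_of_le (by positivity) hx.1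
  intro s hs t ht
  have h1 := Convex.norm_image_sub_le_of_norm_hasDerivWithin_le (f := Real.negMulLog)
    (f' := fun x => -Real.log x - 1) (C := 1 + Real.log L) (s := Set.Icc (1 / L) L) (x := t) (y := s)
    (fun x hx => (Real.hasDerivAt_negMulLog (hpos x hx).ne').hasDerivWithinAt)
    (fun x hx => by
      rw [Real.norm_eq_abs]
      have h2 : Real.log x ≤ Real.log L := Real.log_le_log (hpos x hx) hx.2
      have h3 : -Real.log L ≤ Real.log x := by
        rw [← Real.log_inv, ← one_div]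
        exact Real.log_le_log (by positivity) hx.1
      rw [abs_le]
      constructor <;> linarith [Real.log_nonneg hL])
    (convex_Icc _ _) ht hs
  rw [Real.norm_eq_abs, Real.norm_eq_abs] at h1
  exact h1

private theorem lipS {L : ℝ} (hL : 1 ≤ L) : ∀ s ∈ Set.Icc (1 / L) L, ∀ t ∈ Set.Icc (1 / L) L,
    |s ^ 2 - t ^ 2| ≤ 2 * L * |s - t| := by
  intro s hs t ht
  have h0 : 0 ≤ 1 / L := by positivity
  have h1 : s ^ 2 - t ^ 2 = (s + t) * (s - t) := by ring
  rw [h1, abs_mul, abs_of_nonneg (by linarith [hs.1, ht.1])]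
  exact mul_le_mul_of_nonneg_right (by linarith [hs.2, ht.2]) (abs_nonneg _)

theorem v_ent {L C : ℝ} {n0 : ℕ} {w : ℝ × ℝ → ℝ} (h : Lm L C n0 w) : ∃ C1 : ℝ, 0 ≤ C1 ∧ ∀ n : ℕ, n0 ≤ n →
    ∀ (W : ℤ × ℤ → ℝ) (A B : ℤ → ℝ), Nr L C n w W A B →
      |Ent n W / n - Real.log n + ∫ p, w p * Real.log (w p)| ≤ C1 / Real.sqrt n ∧
      |∑ e ∈ board n, W e ^ 2 - ∫ p, w p ^ 2| ≤ C1 / Real.sqrt n := by
  have hL := h.L1
  have hC := h.C1
  have hlL : 0 ≤ Real.log L := Real.log_nonneg hL
  have k1 : 0 ≤ (1 + Real.log L) * C := by nlinarith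
  have k2 : 0 ≤ 2 * L * C := by nlinarith
  refine ⟨(1 + Real.log L) * C + 2 * L * C, add_nonneg k1 k2, fun n hn W A B hNr => ?_⟩
  have hn1 : 1000 ≤ n := h.n1.trans hn
  have hn0 : (0 : ℝ) < n := by exact_mod_cast (by omega : 0 < n)
  have hpos : ∀ e ∈ board n, 0 < W e := fun e he =>
    lt_of_lt_of_le (by positivity) (hNr.rf.bd.lo e he)
  have hs0 : 0 ≤ Real.sqrt n := Real.sqrt_nonneg _
  constructor
  · have h1 := v_rie h (H := Real.negMulLog) (K := 1 + Real.log L) (by linarith) (lipH hL) hn hNr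
    have h2 : ∫ p in SQ, Real.negMulLog (w p) = -∫ p, w p * Real.log (w p) := by
      rw [setIntegral_eq_integral_of_forall_compl_eq_zero (fun p hp => by
        rw [h.ql.out p hp, Real.negMulLog_zero]), ← integral_neg]
      refine integral_congr_ae (Filter.Eventually.of_forall fun p => ?_)
      show Real.negMulLog (w p) = -(w p * Real.log (w p))
      unfold Real.negMulLog
      ring
    have h3 : Ent n W / n - Real.log n = (∑ e ∈ board n, Real.negMulLog (n * W e)) / (n : ℝ) ^ 2 := by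
      have h4 : ∀ e ∈ board n, Real.negMulLog (n * W e) = n * Real.negMulLog (W e) - n * Real.log n * W e := by
        intro e he
        unfold Real.negMulLog
        rw [Real.log_mul hn0.ne' (hpos e he).ne']
        ring
      rw [sum_congr rfl h4, sum_sub_distrib, ← mul_sum, ← mul_sum, Pool.Agent.NQR.adm_mass hNr.rf.adm]
      unfold Ent
      field_simp
    rw [h3]
    rw [h2] at h1
    have h5 : ∀ a b : ℝ, |a - -b| ≤ (1 + Real.log L) * C / Real.sqrt n →
        |a + b| ≤ ((1 + Real.log L) * C + 2 * L * C) / Real.sqrt n := by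
      intro a b hab
      rw [sub_neg_eq_add] at hab
      exact hab.trans (div_le_div_of_nonneg_right (by linarith) hs0)
    exact h5 _ _ h1
  · have h1 := v_rie h (H := fun t => t ^ 2) (K := 2 * L) (by linarith) (lipS hL) hn hNr
    have h2 : ∫ p in SQ, w p ^ 2 = ∫ p, w p ^ 2 :=
      setIntegral_eq_integral_of_forall_compl_eq_zero (fun p hp => by
        rw [h.ql.out p hp]
        norm_num)
    have h3 : (∑ e ∈ board n, (n * W e) ^ 2) / (n : ℝ) ^ 2 = ∑ e ∈ board n, W e ^ 2 := by
      rw [sum_div]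
      refine sum_congr rfl fun e _ => ?_
      field_simp
    simp only [h2, h3] at h1
    exact h1.trans (div_le_div_of_nonneg_right (by linarith) hs0)

end Pool.Agent.NQF
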