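import Pool.Agent.NQF.VDefs

/-!
# NQF-VGeo: points of two lines are close to the crossing

PLAN. 12 cases `i ≠ j` (`fin_cases i <;> fin_cases j`), `lnr`, `cr` unfold. `X = m p.1`, `Y = m p.2`, `e ∈ {0,1}`. Rows: `s ≤ X < s+1`. Sum diagonals: `s = 2 T + e`, `2 T ≤ X + Y < 2 T + 2`. Difference diagonals: `t = 2 T' + e`,
`2 T' ≤ X - Y < 2 T' + 2` (`m ((p.1 + p.2)/2) = (X + Y)/2`, `Int.floor_eq_iff`). All claims are linear: e.g. `(0,2)`: `cr = (s, t - s)`, `Y - (t - s) ∈ (-1 - e, 2 - e)`; `(1,3)`: `cr = (t + s, s)`, `X - (t+s) ∈ [-e, 3 - e)`;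
`(2,3)`: `cr = ((s+t)/2, (s-t)/2) = (T + T' + e, T - T')`, `X - .. ∈ [-e, 2 - e)`, `Y - .. ∈ (-1, 1)`. Integer division by `2` of `2 (..)`: `omega` before casting.
-/

set_option autoImplicit false

open Finset MeasureTheory

namespace Pool.Agent.NQF

open Pool.Agent.NQ (board dsum F Ent Dg phi ln Q Qset QS NonAtt bern)
open Pool.Agent.NQR (Adm Opt Bd Rf hS hD hh InR)
open Pool.Agent.NQL

theorem strip_cr {m : ℕ} {i j : Fin 4} (h : i ≠ j) {s t : ℤ} {e : ℤ} (he : e = 0 ∨ e = 1) {p : ℝ × ℝ}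
    (h1 : p ∈ strip m e (i, s)) (h2 : p ∈ strip m e (j, t)) :
    |m * p.1 - ((cr i j s t).1 : ℝ)| ≤ 3 ∧ |m * p.2 - ((cr i j s t).2 : ℝ)| ≤ 3 := by
  have h1' : lnr m e p i = s := h1
  have h2' : lnr m e p j = t := h2
  obtain ⟨A, hA⟩ : ∃ A : ℤ, A = ⌊m * p.1⌋ := ⟨_, rfl⟩
  obtain ⟨B, hB⟩ : ∃ B : ℤ, B = ⌊m * p.2⌋ := ⟨_, rfl⟩
  obtain ⟨T, hT⟩ : ∃ T : ℤ, T = ⌊m * ((p.1 + p.2) / 2)⌋ := ⟨_, rfl⟩
  obtain ⟨U, hU⟩ : ∃ U : ℤ, U = ⌊m * ((p.1 - p.2) / 2)⌋ := ⟨_, rfl⟩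
  have l0 : lnr m e p 0 = A := hA.symm
  have l1 : lnr m e p 1 = B := hB.symm
  have l2 : lnr m e p 2 = 2 * T + e := by rw [hT]; rfl
  have l3 : lnr m e p 3 = 2 * U + e := by rw [hU]; rfl
  have a1 := Int.floor_le ((m : ℝ) * p.1)
  have a2 := Int.lt_floor_add_one ((m : ℝ) * p.1)
  have b1 := Int.floor_le ((m : ℝ) * p.2)
  have b2 := Int.lt_floor_add_one ((m : ℝ) * p.2)
  have t1 := Int.floor_le ((m : ℝ) * ((p.1 + p.2) / 2))
  have t2 := Int.lt_floor_add_one ((m : ℝ) * ((p.1 + p.2) / 2))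
  have u1 := Int.floor_le ((m : ℝ) * ((p.1 - p.2) / 2))
  have u2 := Int.lt_floor_add_one ((m : ℝ) * ((p.1 - p.2) / 2))
  rw [← hA] at a1 a2
  rw [← hB] at b1 b2
  rw [← hT] at t1 t2
  rw [← hU] at u1 u2
  have r1 : (m : ℝ) * ((p.1 + p.2) / 2) = (m * p.1 + m * p.2) / 2 := by ring
  have r2 : (m : ℝ) * ((p.1 - p.2) / 2) = (m * p.1 - m * p.2) / 2 := by ring
  rw [r1] at t1 t2
  rw [r2] at u1 u2
  have he0 : (0 : ℝ) ≤ e := by rcases he with rfl | rfl <;> simp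
  have he1 : (e : ℝ) ≤ 1 := by rcases he with rfl | rfl <;> simp
  generalize (m : ℝ) * p.1 = X at a1 a2 t1 t2 u1 u2 ⊢
  generalize (m : ℝ) * p.2 = Y at b1 b2 t1 t2 u1 u2 ⊢
  have d1 : (2 * T + e + (2 * U + e)) / 2 = T + U + e := by omega
  have d2 : (2 * T + e - (2 * U + e)) / 2 = T - U := by omega
  have d3 : (2 * U + e + (2 * T + e)) / 2 = T + U + e := by omega
  fin_cases i <;> fin_cases j <;>
    first
    | exact absurd rfl h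
    | (simp only [Fin.zero_eta, Fin.mk_one, Fin.reduceFinMk] at h1' h2'
       simp only [l0, l1, l2, l3] at h1' h2'
       subst h1'
       subst h2'
       simp only [cr, Fin.zero_eta, Fin.mk_one, Fin.reduceFinMk, Matrix.cons_val_zero, Matrix.cons_val_one,
         Matrix.cons_val, d1, d2, d3]
       push_cast
       rw [abs_le, abs_le]
       refine ⟨⟨?_, ?_⟩, ?_, ?_⟩ <;> linarith)

end Pool.Agent.NQF
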