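import Pool.Agent.NQF.VDefs
import Pool.Agent.NQF.VArea
import Pool.Agent.NQF.VGeo
import Pool.Agent.NQF.VMeas
import Pool.Agent.NQF.VCel

/-!
# NQF-VEst: masses of pairs of lines

PLAN. `mass = (I_0 + I_1)/2`, `I_e = ∫ over strip_e ∩ strip_e' of w`, areas `(a_0 + a_1)/2 = 1/n²` (`strip_area`, `strip_fin`). (all) `0 ≤ w ≤ L`: `0 ≤ mass ≤ L/n²`. (out) by `strip_cr` a point `p` of the intersection has `n p.1 < 0` or `n p.1 > n` ..., so it is not in
`SQ`, `w p = 0` (`setIntegral_eq_zero`). (deep) `p` in the intersection: `0 ≤ n p.1 < n` etc., so `p ∈ SQ`, `|w p - n W (⌊n p.1⌋, ⌊n p.2⌋)| ≤ C/√n`, `|⌊n p.1⌋ - E.1| ≤ 4`, so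
`|n W (..) - n W E| ≤ 8 C/n ≤ 8 C/√n` (`wl`): `|w p - n W E| ≤ 9 C/√n` on the intersections; integrate (area `1/n²` in the mean): `|mass - n W E/n²| ≤ 9 C/(√n n²)`, times `n`.
-/

set_option autoImplicit false

open Finset MeasureTheory

namespace Pool.Agent.NQF

open Pool.Agent.NQ (board dsum F Ent Dg phi ln Q Qset QS NonAtt bern)
open Pool.Agent.NQR (Adm Opt Bd Rf hS hD hh InR)
open Pool.Agent.NQL

/-- estimate of one integral -/
private theorem ve_one {L C : ℝ} {w : ℝ × ℝ → ℝ} (hL : 1 ≤ L) (h : QL L C w) {S : Set (ℝ × ℝ)} (hS : volume S ≠ ⊤) {c η : ℝ}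
    (hb : ∀ p ∈ S, |w p - c| ≤ η) :
    |(∫ p in S, w p) - c * (volume S).toReal| ≤ η * (volume S).toReal := by
  have h1 : IntegrableOn w S := (ql_int hL h).integrableOn
  have h2 : IntegrableOn (fun _ : ℝ × ℝ => c) S := integrableOn_const hS
  have h3 : ∫ p in S, (w p - c) = (∫ p in S, w p) - c * (volume S).toReal := by
    rw [integral_sub h1 h2, setIntegral_const, smul_eq_mul, mul_comm c]
    rfl
  have h4 : ‖∫ p in S, (w p - c)‖ ≤ η * volume.real S := by
    apply norm_setIntegral_le_of_norm_le_const (lt_of_le_of_ne le_top hS)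
    intro p hp
    rw [Real.norm_eq_abs]
    exact hb p hp
  rw [h3, Real.norm_eq_abs] at h4
  exact h4

private theorem ve_mean {i0 i1 a0 a1 c η A : ℝ} (hA : (a0 + a1) / 2 = A) (h0 : |i0 - c * a0| ≤ η * a0)
    (h1 : |i1 - c * a1| ≤ η * a1) : |(i0 + i1) / 2 - c * A| ≤ η * A := by
  rw [abs_le] at *
  subst hA
  constructor
  · nlinarith [h0.1, h1.1]
  · nlinarith [h0.2, h1.2]

theorem v_est {L C : ℝ} {n0 : ℕ} {w : ℝ × ℝ → ℝ} (h : Lm L C n0 w) {n : ℕ} (hn : n0 ≤ n) {W : ℤ × ℤ → ℝ} {A B : ℤ → ℝ}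
    (hW : Nr L C n w W A B) {i j : Fin 4} (hij : i ≠ j) {s t : ℤ} (hp : pr i j s t) :
    (0 ≤ mass n w (i, s) (j, t) ∧ n * mass n w (i, s) (j, t) ≤ L / n) ∧
    ((cr i j s t).1 < -3 ∨ n + 3 < (cr i j s t).1 ∨ (cr i j s t).2 < -3 ∨ n + 3 < (cr i j s t).2 →
      mass n w (i, s) (j, t) = 0) ∧
    (3 ≤ (cr i j s t).1 → (cr i j s t).1 + 3 < n → 3 ≤ (cr i j s t).2 → (cr i j s t).2 + 3 < n →
      |n * mass n w (i, s) (j, t) - W (cr i j s t)| ≤ 9 * C / (n * Real.sqrt n)) := by
  have hn1 : 1 ≤ n := by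
    have := h.n1
    omega
  have hnR : (1 : ℝ) ≤ n := by exact_mod_cast hn1
  have hn0 : (0 : ℝ) < n := by linarith
  have hL := h.L1
  have hC := h.C1
  have hql := h.ql
  have hf0 := strip_fin hn1 hij s t (e := 0) (Or.inl rfl)
  have hf1 := strip_fin hn1 hij s t (e := 1) (Or.inr rfl)
  have har := strip_area hn1 hij hp
  have key : ∀ c η : ℝ, (∀ p : ℝ × ℝ, |n * p.1 - ((cr i j s t).1 : ℝ)| ≤ 3 → |n * p.2 - ((cr i j s t).2 : ℝ)| ≤ 3 →
      |w p - c| ≤ η) → |mass n w (i, s) (j, t) - c * (1 / (n : ℝ) ^ 2)| ≤ η * (1 / (n : ℝ) ^ 2) := by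
    intro c η hb
    unfold mass
    apply ve_mean har
    · apply ve_one hL hql hf0
      intro p hpp
      have := strip_cr hij (Or.inl rfl) hpp.1 hpp.2
      exact hb p this.1 this.2
    · apply ve_one hL hql hf1
      intro p hpp
      have := strip_cr hij (Or.inr rfl) hpp.1 hpp.2
      exact hb p this.1 this.2
  refine ⟨?_, ?_, ?_⟩
  · have h1 := key (L / 2) (L / 2) (by
      intro p _ _
      obtain ⟨h1, h2⟩ := ql_bd hL hql p
      rw [abs_le]
      constructor
      · linarith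
      · linarith)
    rw [abs_le] at h1
    have hn2 : (0 : ℝ) < (n : ℝ) ^ 2 := by positivity
    constructor
    · linarith [h1.1]
    · have h2 : mass n w (i, s) (j, t) ≤ L * (1 / (n : ℝ) ^ 2) := by
        have := h1.2
        linarith
      calc (n : ℝ) * mass n w (i, s) (j, t) ≤ n * (L * (1 / (n : ℝ) ^ 2)) :=
            mul_le_mul_of_nonneg_left h2 hn0.le
        _ = L / n := by
            field_simp
  · intro ho
    have h1 := key 0 0 (by
      intro p h1 h2
      rw [abs_le] at h1 h2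
      have h3 : p ∉ SQ := by
        intro hSQ
        unfold SQ at hSQ
        rw [Set.mem_prod, Set.mem_Ico, Set.mem_Ico] at hSQ
        obtain ⟨⟨g1, g2⟩, g3, g4⟩ := hSQ
        have k1 : 0 ≤ (n : ℝ) * p.1 := mul_nonneg hn0.le g1
        have k2 : (n : ℝ) * p.1 ≤ n := by
          nlinarith
        have k3 : 0 ≤ (n : ℝ) * p.2 := mul_nonneg hn0.le g3
        have k4 : (n : ℝ) * p.2 ≤ n := by
          nlinarith
        rcases ho with ho | ho | ho | ho
        · have : ((cr i j s t).1 : ℝ) < -3 := by exact_mod_cast ho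
          linarith [h1.2]
        · have : (n : ℝ) + 3 < ((cr i j s t).1 : ℝ) := by exact_mod_cast ho
          linarith [h1.1]
        · have : ((cr i j s t).2 : ℝ) < -3 := by exact_mod_cast ho
          linarith [h2.2]
        · have : (n : ℝ) + 3 < ((cr i j s t).2 : ℝ) := by exact_mod_cast ho
          linarith [h2.1]
      rw [hql.out p h3]
      simp)
    rw [zero_mul, sub_zero] at h1
    exact abs_nonpos_iff.mp h1
  · intro a1 a2 a3 a4
    have b1 : (3 : ℝ) ≤ ((cr i j s t).1 : ℝ) := by exact_mod_cast a1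
    have b2 : ((cr i j s t).1 : ℝ) + 3 < n := by exact_mod_cast a2
    have b3 : (3 : ℝ) ≤ ((cr i j s t).2 : ℝ) := by exact_mod_cast a3
    have b4 : ((cr i j s t).2 : ℝ) + 3 < n := by exact_mod_cast a4
    have hs0 : 0 < Real.sqrt n := Real.sqrt_pos.mpr hn0
    have hs1 : Real.sqrt n ≤ n := by
      rw [Real.sqrt_le_left hn0.le]
      nlinarith
    have hcb : cr i j s t ∈ board n := by
      rw [NQ.mem_board]
      refine ⟨⟨by omega, by omega⟩, by omega, by omega⟩
    have h1 := key (n * W (cr i j s t)) (9 * C / Real.sqrt n) (by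
      intro p h1 h2
      rw [abs_le] at h1 h2
      have x0 : 0 ≤ (n : ℝ) * p.1 := by linarith [h1.1]
      have x1 : (n : ℝ) * p.1 < n := by linarith [h1.2]
      have y0 : 0 ≤ (n : ℝ) * p.2 := by linarith [h2.1]
      have y1 : (n : ℝ) * p.2 < n := by linarith [h2.2]
      have hSQ : p ∈ SQ := by
        unfold SQ
        rw [Set.mem_prod, Set.mem_Ico, Set.mem_Ico]
        refine ⟨⟨?_, ?_⟩, ?_, ?_⟩
        · by_contra hc
          push Not at hc
          nlinarith
        · by_contra hc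
          push Not at hc
          nlinarith
        · by_contra hc
          push Not at hc
          nlinarith
        · by_contra hc
          push Not at hc
          nlinarith
      have f1 := Int.floor_le ((n : ℝ) * p.1)
      have f2 := Int.lt_floor_add_one ((n : ℝ) * p.1)
      have f3 := Int.floor_le ((n : ℝ) * p.2)
      have f4 := Int.lt_floor_add_one ((n : ℝ) * p.2)
      have hfb : ((⌊(n : ℝ) * p.1⌋, ⌊(n : ℝ) * p.2⌋) : ℤ × ℤ) ∈ board n := by
        rw [NQ.mem_board]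
        refine ⟨⟨Int.floor_nonneg.mpr x0, Int.floor_lt.mpr (by exact_mod_cast x1)⟩,
          Int.floor_nonneg.mpr y0, Int.floor_lt.mpr (by exact_mod_cast y1)⟩
      have e1 := hW.nr p hSQ
      have e2 := hW.wl _ hfb _ hcb
      have e3 : |⌊(n : ℝ) * p.1⌋ - (cr i j s t).1| + |⌊(n : ℝ) * p.2⌋ - (cr i j s t).2| ≤ (8 : ℤ) := by
        have g1 : |⌊(n : ℝ) * p.1⌋ - (cr i j s t).1| ≤ (4 : ℤ) := by
          rw [abs_le]
          constructor
          · have : (-(4 : ℝ)) ≤ ((⌊(n : ℝ) * p.1⌋ - (cr i j s t).1 : ℤ) : ℝ) := by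
              push_cast
              linarith [h1.1]
            exact_mod_cast this
          · have : ((⌊(n : ℝ) * p.1⌋ - (cr i j s t).1 : ℤ) : ℝ) ≤ 4 := by
              push_cast
              linarith [h1.2]
            exact_mod_cast this
        have g2 : |⌊(n : ℝ) * p.2⌋ - (cr i j s t).2| ≤ (4 : ℤ) := by
          rw [abs_le]
          constructor
          · have : (-(4 : ℝ)) ≤ ((⌊(n : ℝ) * p.2⌋ - (cr i j s t).2 : ℤ) : ℝ) := by
              push_cast
              linarith [h2.1]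
            exact_mod_cast this
          · have : ((⌊(n : ℝ) * p.2⌋ - (cr i j s t).2 : ℤ) : ℝ) ≤ 4 := by
              push_cast
              linarith [h2.2]
            exact_mod_cast this
        linarith
      have e4 : ((|⌊(n : ℝ) * p.1⌋ - (cr i j s t).1| + |⌊(n : ℝ) * p.2⌋ - (cr i j s t).2| : ℤ) : ℝ) ≤ 8 := by
        exact_mod_cast e3
      have e5 : |W (⌊(n : ℝ) * p.1⌋, ⌊(n : ℝ) * p.2⌋) - W (cr i j s t)| ≤ C * 8 / (n : ℝ) ^ 2 := by
        refine le_trans e2 ?_
        apply div_le_div_of_nonneg_right _ (by positivity)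
        exact mul_le_mul_of_nonneg_left e4 (by linarith)
      have e6 : |n * W (⌊(n : ℝ) * p.1⌋, ⌊(n : ℝ) * p.2⌋) - n * W (cr i j s t)| ≤ 8 * (C / Real.sqrt n) := by
        rw [← mul_sub, abs_mul, abs_of_pos hn0]
        calc (n : ℝ) * |W (⌊(n : ℝ) * p.1⌋, ⌊(n : ℝ) * p.2⌋) - W (cr i j s t)|
            ≤ n * (C * 8 / (n : ℝ) ^ 2) := mul_le_mul_of_nonneg_left e5 hn0.le
          _ = 8 * (C / n) := by
              field_simp
          _ ≤ 8 * (C / Real.sqrt n) := by
              have : C / n ≤ C / Real.sqrt n := div_le_div_of_nonneg_left (by linarith) hs0 hs1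
              linarith
      have e7 : w p - n * W (cr i j s t) = -(n * W (⌊(n : ℝ) * p.1⌋, ⌊(n : ℝ) * p.2⌋) - w p) +
          (n * W (⌊(n : ℝ) * p.1⌋, ⌊(n : ℝ) * p.2⌋) - n * W (cr i j s t)) := by ring
      rw [e7]
      refine le_trans (abs_add_le _ _) ?_
      rw [abs_neg]
      have e8 : 9 * C / Real.sqrt n = C / Real.sqrt n + 8 * (C / Real.sqrt n) := by ring
      rw [e8]
      exact add_le_add e1 e6)
    have h2 : (n : ℝ) * mass n w (i, s) (j, t) - W (cr i j s t) =
        n * (mass n w (i, s) (j, t) - n * W (cr i j s t) * (1 / (n : ℝ) ^ 2)) := by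
      field_simp
    rw [h2, abs_mul, abs_of_pos hn0]
    calc (n : ℝ) * |mass n w (i, s) (j, t) - n * W (cr i j s t) * (1 / (n : ℝ) ^ 2)|
        ≤ n * (9 * C / Real.sqrt n * (1 / (n : ℝ) ^ 2)) := mul_le_mul_of_nonneg_left h1 hn0.le
      _ = 9 * C / (n * Real.sqrt n) := by
          field_simp

end Pool.Agent.NQF
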