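import Pool.Agent.NQF.VDefs
import Pool.Agent.NQF.VEst
import Pool.Agent.NQF.VStr
import Pool.Agent.NQF.LLCr
import Pool.Agent.NQF.LLJJ
import Pool.Agent.NQF.LLFul

/-!
# NQF-VHSs: the discrete matrix is close to the continuous one

PLAN. `AA l l' - AW l l' = (if l = l' then 0 else MM l l' - n mass l l')` (`MM l l = 0`, gauge terms equal). For `l ≠ l'` of the same type both vanish (`mm_cr`, `strip_disj`); if `pr` fails both vanish (`mm_cr`, `strip_pr`).
Else with `E = cr ..`, `MM = W E` (`mm_cr`, `hW.rf.adm.out`; `W ≤ L/n`) and `v_est`: (a) `E` deep (`3 ≤ E.1`, `E.1 + 3 < n`, ..): square `≤ 81 C²/n³`. (b) `E ∈ [-3, n+3]²` not deep: square `≤ (L/n)²` (both in `[0, L/n]`), at most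
`4 * 7 * (n + 7) ≤ 56 n` such `E`. (c) otherwise `0` (`W E = 0` off the board). Each `E` is the crossing of at most 16 pairs: the pairs `(l,l') ∈ JJ n × JJ n` with `l.1 ≠ l'.1`, `pr`, `cr = E` are `((i, ln i E), (j, ln j E))` (`cr_iff`).
So the sum is `≤ 16 n² 81 C²/n³ + 16 * 56 n (L/n)² ≤ (1296 C² + 896 L²)/n`.
-/

set_option autoImplicit false

open Finset MeasureTheory

namespace Pool.Agent.NQF

open Pool.Agent.NQ (board dsum F Ent Dg phi ln Q Qset QS NonAtt bern)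
open Pool.Agent.NQR (Adm Opt Bd Rf hS hD hh InR)
open Pool.Agent.NQL

private noncomputable def vBox (n : ℕ) : Finset (ℤ × ℤ) :=
  Finset.Icc (-3 : ℤ) (n + 3) ×ˢ Finset.Icc (-3 : ℤ) (n + 3)

private noncomputable def vDp (n : ℕ) : Finset (ℤ × ℤ) :=
  Finset.Icc (3 : ℤ) (n - 4) ×ˢ Finset.Icc (3 : ℤ) (n - 4)

private noncomputable def vG (a b : ℝ) (n : ℕ) (E : ℤ × ℤ) : ℝ :=
  if E ∈ vDp n then a else if E ∈ vBox n then b else 0

private theorem vG_nn {a b : ℝ} (ha : 0 ≤ a) (hb : 0 ≤ b) (n : ℕ) (E : ℤ × ℤ) : 0 ≤ vG a b n E := by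
  unfold vG
  split_ifs
  · exact ha
  · exact hb
  · exact le_rfl

private theorem vG_sum {a b : ℝ} (ha : 0 ≤ a) (hb : 0 ≤ b) {n : ℕ} (hn : 1000 ≤ n) :
    ∑ E ∈ vBox n, vG a b n E ≤ (n : ℝ) ^ 2 * a + 27 * n * b := by
  have h1 : vDp n ⊆ vBox n := by
    intro E hE
    unfold vDp at hE
    unfold vBox
    rw [mem_product, mem_Icc, mem_Icc] at hE ⊢
    omega
  have h2 : (vDp n).card = (n - 6) * (n - 6) := by
    unfold vDp
    rw [card_product, Int.card_Icc]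
    congr 1 <;> omega
  have h3 : (vBox n).card = (n + 7) * (n + 7) := by
    unfold vBox
    rw [card_product, Int.card_Icc]
    congr 1 <;> omega
  rw [← sum_sdiff h1]
  have h4 : ∑ E ∈ vBox n \ vDp n, vG a b n E = ((vBox n \ vDp n).card : ℝ) * b := by
    rw [← nsmul_eq_mul, ← sum_const]
    refine sum_congr rfl fun E hE => ?_
    rw [mem_sdiff] at hE
    unfold vG
    rw [if_neg hE.2, if_pos hE.1]
  have h5 : ∑ E ∈ vDp n, vG a b n E = ((vDp n).card : ℝ) * a := by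
    rw [← nsmul_eq_mul, ← sum_const]
    refine sum_congr rfl fun E hE => ?_
    unfold vG
    rw [if_pos hE]
  rw [h4, h5]
  have h6 : (vBox n \ vDp n).card + (vDp n).card = (vBox n).card := by
    rw [card_sdiff_add_card_eq_card h1]
  have h7 : ((vBox n \ vDp n).card : ℝ) ≤ 27 * n := by
    obtain ⟨k, rfl⟩ : ∃ k, n = k + 6 := ⟨n - 6, by omega⟩
    rw [h2, h3, Nat.add_sub_cancel] at h6
    have h8 : (vBox (k + 6) \ vDp (k + 6)).card ≤ 27 * (k + 6) := by
      have h9 : (k + 6 + 7) * (k + 6 + 7) = k * k + 26 * k + 169 := by ring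
      rw [h9] at h6
      generalize k * k = kk at h6
      omega
    exact_mod_cast h8
  have h8 : ((vDp n).card : ℝ) ≤ (n : ℝ) ^ 2 := by
    have : (vDp n).card ≤ n ^ 2 := by
      rw [h2, sq]
      exact Nat.mul_le_mul (by omega) (by omega)
    exact_mod_cast this
  have h9 := mul_le_mul_of_nonneg_right h7 hb
  have h10 := mul_le_mul_of_nonneg_right h8 ha
  linarith

private theorem v_cnt {n : ℕ} {a b : ℝ} (ha : 0 ≤ a) (hb : 0 ≤ b) (S : Finset Li) :
    ∑ l ∈ S, ∑ l' ∈ S, (if l.1 ≠ l'.1 ∧ pr l.1 l'.1 l.2 l'.2 then vG a b n (cr l.1 l'.1 l.2 l'.2) else 0) ≤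
      16 * ∑ E ∈ vBox n, vG a b n E := by
  classical
  rw [← sum_product', ← sum_filter]
  let φ : Li × Li → (Fin 4 × Fin 4) × (ℤ × ℤ) := fun p => ((p.1.1, p.2.1), cr p.1.1 p.2.1 p.1.2 p.2.2)
  have hinj : Set.InjOn φ ((S ×ˢ S).filter
      (fun p => p.1.1 ≠ p.2.1 ∧ pr p.1.1 p.2.1 p.1.2 p.2.2) : Finset (Li × Li)) := by
    rintro ⟨⟨i, s⟩, ⟨j, t⟩⟩ h ⟨⟨i', s'⟩, ⟨j', t'⟩⟩ h' he
    rw [mem_coe, mem_filter] at h h'
    simp only [φ, Prod.mk.injEq] at he h h'
    obtain ⟨⟨rfl, rfl⟩, he⟩ := he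
    have h1 := (cr_iff h.2.1).2 ⟨h.2.2, rfl⟩
    have h2 := (cr_iff h'.2.1).2 ⟨h'.2.2, rfl⟩
    rw [he] at h1
    rw [← h1.1, ← h1.2, h2.1, h2.2]
  have h1 : ∑ p ∈ (S ×ˢ S).filter (fun p => p.1.1 ≠ p.2.1 ∧ pr p.1.1 p.2.1 p.1.2 p.2.2),
      vG a b n (cr p.1.1 p.2.1 p.1.2 p.2.2) =
      ∑ q ∈ ((S ×ˢ S).filter (fun p => p.1.1 ≠ p.2.1 ∧ pr p.1.1 p.2.1 p.1.2 p.2.2)).image φ,
        vG a b n q.2 := by
    rw [sum_image hinj]
  rw [h1]
  have h2 : ∑ q ∈ ((S ×ˢ S).filter (fun p => p.1.1 ≠ p.2.1 ∧ pr p.1.1 p.2.1 p.1.2 p.2.2)).image φ,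
      vG a b n q.2 ≤ ∑ q ∈ (univ : Finset (Fin 4 × Fin 4)) ×ˢ vBox n, vG a b n q.2 := by
    rw [← sum_filter_of_ne (p := fun q : (Fin 4 × Fin 4) × (ℤ × ℤ) => q.2 ∈ vBox n)]
    · refine sum_le_sum_of_subset_of_nonneg ?_ fun q _ _ => vG_nn ha hb n _
      intro q hq
      rw [mem_product]
      exact ⟨mem_univ _, (mem_filter.1 hq).2⟩
    · intro q _ hq
      by_contra hc
      apply hq
      unfold vG
      rw [if_neg, if_neg hc]
      intro hd
      apply hc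
      unfold vDp at hd
      unfold vBox
      rw [mem_product, mem_Icc, mem_Icc] at hd ⊢
      omega
  refine h2.trans (le_of_eq ?_)
  rw [sum_product]
  simp

theorem v_hs {L C : ℝ} {n0 : ℕ} {w : ℝ × ℝ → ℝ} (h : Lm L C n0 w) : ∃ C1 : ℝ, 0 ≤ C1 ∧ ∀ n : ℕ, n0 ≤ n →
    ∀ (W : ℤ × ℤ → ℝ) (A B : ℤ → ℝ), Nr L C n w W A B →
      ∑ l ∈ JJ n, ∑ l' ∈ JJ n, (AA L4 (board n) W ga n l l' - AW w n l l') ^ 2 ≤ C1 / n := by
  refine ⟨1296 * C ^ 2 + 432 * L ^ 2, by positivity, ?_⟩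
  intro n hn W A B hW
  have hn1 : 1000 ≤ n := h.n1.trans hn
  have hn0 : (0 : ℝ) < n := by exact_mod_cast (by omega : 0 < n)
  have hL := h.L1
  have hLn : 0 ≤ L / n := div_nonneg (by linarith) hn0.le
  have hWb : ∀ e, 0 ≤ W e ∧ W e ≤ L / n := by
    intro e
    refine ⟨hW.rf.adm.nn e, ?_⟩
    by_cases he : e ∈ board n
    · exact hW.rf.bd.hi e he
    · rw [hW.rf.adm.out e he]
      exact hLn
  have ha : (0 : ℝ) ≤ 81 * C ^ 2 / n ^ 3 := by positivity
  have hb : (0 : ℝ) ≤ (L / n) ^ 2 := by positivity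
  have key : ∀ l l' : Li, (AA L4 (board n) W ga n l l' - AW w n l l') ^ 2 ≤
      if l.1 ≠ l'.1 ∧ pr l.1 l'.1 l.2 l'.2 then
        vG (81 * C ^ 2 / n ^ 3) ((L / n) ^ 2) n (cr l.1 l'.1 l.2 l'.2) else 0 := by
    intro l l'
    by_cases hll : l = l'
    · subst hll
      rw [if_neg (fun h => h.1 rfl)]
      apply le_of_eq
      unfold AA AW MM
      rw [if_pos rfl, if_pos rfl, if_pos rfl]
      ring
    have e1 : AA L4 (board n) W ga n l l' - AW w n l l' = MM L4 (board n) W l l' - n * mass n w l l' := by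
      unfold AA AW
      rw [if_neg hll, if_neg hll]
      ring
    rw [e1, mm_cr hW.rf.adm.out]
    by_cases h1 : l.1 = l'.1
    · rw [if_neg (fun h => h.1 h1), if_neg (fun h => h.1 h1)]
      have h2 : mass n w l l' = 0 := by
        unfold mass
        rw [strip_disj hll h1, strip_disj hll h1]
        simp
      rw [h2]
      simp
    by_cases h2 : pr l.1 l'.1 l.2 l'.2
    · rw [if_pos (show l.1 ≠ l'.1 ∧ pr l.1 l'.1 l.2 l'.2 from ⟨h1, h2⟩),
        if_pos (show l.1 ≠ l'.1 ∧ pr l.1 l'.1 l.2 l'.2 from ⟨h1, h2⟩)]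
      obtain ⟨⟨h3, h4⟩, h5, h6⟩ := v_est h hn hW h1 h2
      have h3' : 0 ≤ mass n w l l' := h3
      have h4' : n * mass n w l l' ≤ L / n := h4
      obtain ⟨E, hE⟩ : ∃ E, E = cr l.1 l'.1 l.2 l'.2 := ⟨_, rfl⟩
      rw [← hE] at h5 h6 ⊢
      have hWE := hWb E
      unfold vG
      by_cases h7 : E ∈ vDp n
      · rw [if_pos h7]
        unfold vDp at h7
        rw [mem_product, mem_Icc, mem_Icc] at h7
        have h8 : |n * mass n w l l' - W E| ≤ 9 * C / (n * Real.sqrt n) :=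
          h6 (by omega) (by omega) (by omega) (by omega)
        have h9 : (W E - n * mass n w l l') ^ 2 = |n * mass n w l l' - W E| ^ 2 := by
          rw [sq_abs]
          ring
        rw [h9]
        have h10 : (9 * C / (n * Real.sqrt n)) ^ 2 = 81 * C ^ 2 / n ^ 3 := by
          rw [div_pow, mul_pow (n : ℝ), Real.sq_sqrt hn0.le, mul_pow]
          norm_num
          congr 1
        rw [← h10]
        exact pow_le_pow_left₀ (abs_nonneg _) h8 2
      rw [if_neg h7]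
      by_cases h8 : E ∈ vBox n
      · rw [if_pos h8]
        have h9 : 0 ≤ n * mass n w l l' := mul_nonneg hn0.le h3'
        rw [← sq_abs]
        refine pow_le_pow_left₀ (abs_nonneg _) ?_ 2
        rw [abs_le]
        constructor <;> linarith [hWE.1, hWE.2]
      · rw [if_neg h8]
        have h9 : W E = 0 := by
          apply hW.rf.adm.out
          intro hb
          apply h8
          have hb' := Pool.Agent.NQ.mem_board.1 hb
          unfold vBox
          rw [mem_product, mem_Icc, mem_Icc]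
          omega
        have h10 : mass n w l l' = 0 := by
          apply h5
          unfold vBox at h8
          rw [mem_product, mem_Icc, mem_Icc] at h8
          omega
        rw [h9, h10]
        simp
    · rw [if_neg (fun h => h2 h.2), if_neg (fun h => h2 h.2)]
      have h3 : mass n w l l' = 0 := by
        have e2 : strip n 0 l ∩ strip n 0 l' = ∅ := strip_pr (Or.inl rfl) h2
        have e3 : strip n 1 l ∩ strip n 1 l' = ∅ := strip_pr (Or.inr rfl) h2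
        unfold mass
        rw [e2, e3]
        simp
      rw [h3]
      simp
  calc ∑ l ∈ JJ n, ∑ l' ∈ JJ n, (AA L4 (board n) W ga n l l' - AW w n l l') ^ 2
      ≤ ∑ l ∈ JJ n, ∑ l' ∈ JJ n, (if l.1 ≠ l'.1 ∧ pr l.1 l'.1 l.2 l'.2 then
        vG (81 * C ^ 2 / n ^ 3) ((L / n) ^ 2) n (cr l.1 l'.1 l.2 l'.2) else 0) :=
        sum_le_sum fun l _ => sum_le_sum fun l' _ => key l l'
    _ ≤ 16 * ∑ E ∈ vBox n, vG (81 * C ^ 2 / n ^ 3) ((L / n) ^ 2) n E := v_cnt ha hb _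
    _ ≤ 16 * ((n : ℝ) ^ 2 * (81 * C ^ 2 / n ^ 3) + 27 * n * (L / n) ^ 2) := by
        have := vG_sum ha hb hn1
        linarith
    _ = (1296 * C ^ 2 + 432 * L ^ 2) / n := by
        field_simp
        ring

end Pool.Agent.NQF
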