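import Pool.Agent.NQF.VDefs
import Pool.Agent.NQF.VStr
import Pool.Agent.NQF.LLJJ

/-!
# NQF-VRef: refinement of the lines: the energy matrices are compressions of each other

PLAN. Let `P = (JJ (m k)).filter (fi k x = l)`, `P'` for `l'`, both of cardinality `k` (`fi_card`). `strip m e l = ⋃_{x ∈ P} strip (m k) e x` for `e = 0, 1` (`lnr_fi`; `x = (l.1, lnr (m k) e p l.1)` is in `JJ (m k)` by `fi_mem`), pairwise disjoint
(`strip_disj`: `x`, `x'` in `P` have the same type, `fi_fst`). So for `w` integrable `∫_{strip l ∩ strip l'} w = ∑_{x,x'} ∫_{strip x ∩ strip x'} w` (`integral_finset_biUnion`), `mass m w l l' = ∑_{x,x'} mass (m k) w x x'`.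
`l ≠ l'`: then `x ≠ x'` always, `∑∑ AW = m k mass m w l l' + k² ga ga'/(2 m k) = k AW m l l'` (`fi_fst`: `ga x = ga l`). `l = l'`: `x = x'` gives `1`, `x ≠ x'` gives mass `0` (`strip_disj`), sum `k + k² ga²/(2 m k) = k AW m l l`.
-/

set_option autoImplicit false

open Finset MeasureTheory

namespace Pool.Agent.NQF

open Pool.Agent.NQ (board dsum F Ent Dg phi ln Q Qset QS NonAtt bern)
open Pool.Agent.NQR (Adm Opt Bd Rf hS hD hh InR)
open Pool.Agent.NQL

private theorem strip_un {m k : ℕ} (hk : 1 ≤ k) {e : ℤ} (he : e = 0 ∨ e = 1) {l : Li} (hl : l ∈ JJ m) :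
    strip m e l = ⋃ x ∈ (JJ (m * k)).filter (fun x => fi k x = l), strip (m * k) e x := by
  ext p
  simp only [Set.mem_iUnion, exists_prop, mem_filter]
  constructor
  · intro hp
    have hp' : lnr m e p l.1 = l.2 := hp
    have h1 := lnr_fi hk he (m := m) p l.1
    rw [hp'] at h1
    have h2 : fi k (l.1, lnr (m * k) e p l.1) = l := h1
    refine ⟨(l.1, lnr (m * k) e p l.1), ⟨(fi_mem hk).2 ?_, h2⟩, rfl⟩
    rw [h2]
    exact hl
  · rintro ⟨x, ⟨_, hx⟩, hp⟩
    have hp' : lnr (m * k) e p x.1 = x.2 := hp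
    have h1 := lnr_fi hk he (m := m) p x.1
    rw [hp'] at h1
    have h2 : fi k x = (x.1, lnr m e p x.1) := h1
    rw [hx] at h2
    show lnr m e p l.1 = l.2
    rw [h2]

private theorem int_strip {w : ℝ × ℝ → ℝ} (hw : Integrable w) {m k : ℕ} (hk : 1 ≤ k) {e : ℤ} (he : e = 0 ∨ e = 1)
    {l : Li} (hl : l ∈ JJ m) {T : Set (ℝ × ℝ)} (hT : MeasurableSet T) :
    ∫ p in strip m e l ∩ T, w p =
      ∑ x ∈ (JJ (m * k)).filter (fun x => fi k x = l), ∫ p in strip (m * k) e x ∩ T, w p := by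
  rw [strip_un hk he hl, Set.iUnion₂_inter]
  refine integral_biUnion_finset _ (fun x _ => (strip_meas _ _ _).inter hT) ?_ (fun x _ => hw.integrableOn)
  intro x hx x' hx' hne
  have h1 := (mem_filter.1 (mem_coe.1 hx)).2
  have h2 := (mem_filter.1 (mem_coe.1 hx')).2
  have h3 : x.1 = x'.1 := by
    rw [← (fi_fst (k := k) x).1, ← (fi_fst (k := k) x').1, h1, h2]
  have h4 := strip_disj (m := m * k) (e := e) hne h3
  show Disjoint (strip (m * k) e x ∩ T) (strip (m * k) e x' ∩ T)
  rw [Set.disjoint_iff_inter_eq_empty]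
  refine Set.eq_empty_of_subset_empty fun p hp => ?_
  have h5 : p ∈ strip (m * k) e x ∩ strip (m * k) e x' := ⟨hp.1.1, hp.2.1⟩
  rw [h4] at h5
  exact h5

private theorem int_two {w : ℝ × ℝ → ℝ} (hw : Integrable w) {m k : ℕ} (hk : 1 ≤ k) {e : ℤ} (he : e = 0 ∨ e = 1)
    {l l' : Li} (hl : l ∈ JJ m) (hl' : l' ∈ JJ m) :
    ∫ p in strip m e l ∩ strip m e l', w p =
      ∑ x ∈ (JJ (m * k)).filter (fun x => fi k x = l), ∑ x' ∈ (JJ (m * k)).filter (fun x' => fi k x' = l'),
        ∫ p in strip (m * k) e x ∩ strip (m * k) e x', w p := by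
  rw [int_strip hw hk he hl (strip_meas _ _ _)]
  refine sum_congr rfl fun x _ => ?_
  rw [Set.inter_comm, int_strip hw hk he hl' (strip_meas _ _ _)]
  exact sum_congr rfl fun x' _ => by rw [Set.inter_comm]

private theorem mass_ref {w : ℝ × ℝ → ℝ} (hw : Integrable w) {m k : ℕ} (hk : 1 ≤ k) {l l' : Li} (hl : l ∈ JJ m)
    (hl' : l' ∈ JJ m) :
    mass m w l l' = ∑ x ∈ (JJ (m * k)).filter (fun x => fi k x = l),
      ∑ x' ∈ (JJ (m * k)).filter (fun x' => fi k x' = l'), mass (m * k) w x x' := by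
  unfold mass
  rw [int_two hw hk (Or.inl rfl) hl hl', int_two hw hk (Or.inr rfl) hl hl', ← sum_add_distrib, sum_div]
  refine sum_congr rfl fun x _ => ?_
  rw [← sum_add_distrib, sum_div]

private theorem mass_zero {w : ℝ × ℝ → ℝ} {m : ℕ} {l l' : Li} (h : l ≠ l') (h1 : l.1 = l'.1) : mass m w l l' = 0 := by
  unfold mass
  rw [strip_disj h h1, strip_disj h h1]
  simp

theorem aw_ref {w : ℝ × ℝ → ℝ} (hw : Integrable w) {m k : ℕ} (hm : 1 ≤ m) (hk : 1 ≤ k) {l l' : Li} (hl : l ∈ JJ m)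
    (hl' : l' ∈ JJ m) :
    ∑ x ∈ (JJ (m * k)).filter (fun x => fi k x = l), ∑ x' ∈ (JJ (m * k)).filter (fun x' => fi k x' = l'),
      AW w (m * k) x x' = k * AW w m l l' := by
  classical
  have hm0 : (0 : ℝ) < m := by exact_mod_cast hm
  have hk0 : (0 : ℝ) < k := by exact_mod_cast hk
  have hga : ∑ x ∈ (JJ (m * k)).filter (fun x => fi k x = l), ∑ x' ∈ (JJ (m * k)).filter (fun x' => fi k x' = l'),
      ga x * ga x' / (2 * ((m * k : ℕ) : ℝ)) = k * (ga l * ga l' / (2 * m)) := by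
    have h1 : ∀ x ∈ (JJ (m * k)).filter (fun x => fi k x = l),
        ∀ x' ∈ (JJ (m * k)).filter (fun x' => fi k x' = l'),
        ga x * ga x' / (2 * ((m * k : ℕ) : ℝ)) = ga l * ga l' / (2 * ((m * k : ℕ) : ℝ)) := by
      intro x hx x' hx'
      have h2 := (fi_fst (k := k) x).2
      have h3 := (fi_fst (k := k) x').2
      rw [(mem_filter.1 hx).2] at h2
      rw [(mem_filter.1 hx').2] at h3
      rw [h2, h3]
    rw [sum_congr rfl fun x hx => sum_congr rfl fun x' hx' => h1 x hx x' hx']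
    rw [sum_const, sum_const, fi_card hk hl, fi_card hk hl', nsmul_eq_mul, nsmul_eq_mul]
    push_cast
    field_simp
  unfold AW
  simp only [sum_add_distrib]
  rw [hga]
  by_cases hll : l = l'
  · subst hll
    have h1 : ∑ x ∈ (JJ (m * k)).filter (fun x => fi k x = l), ∑ x' ∈ (JJ (m * k)).filter (fun x' => fi k x' = l),
        (if x = x' then 1 else ((m * k : ℕ) : ℝ) * mass (m * k) w x x') = k := by
      have h2 : ∀ x ∈ (JJ (m * k)).filter (fun x => fi k x = l),
          ∑ x' ∈ (JJ (m * k)).filter (fun x' => fi k x' = l),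
            (if x = x' then 1 else ((m * k : ℕ) : ℝ) * mass (m * k) w x x') = 1 := by
        intro x hx
        rw [sum_eq_single_of_mem x hx]
        · rw [if_pos rfl]
        · intro x' hx' hne
          rw [if_neg hne.symm]
          have h3 : x.1 = x'.1 := by
            rw [← (fi_fst (k := k) x).1, ← (fi_fst (k := k) x').1, (mem_filter.1 hx).2, (mem_filter.1 hx').2]
          rw [mass_zero hne.symm h3, mul_zero]
      rw [sum_congr rfl h2, sum_const, fi_card hk hl, nsmul_eq_mul, mul_one]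
    rw [h1, if_pos rfl]
    ring
  · have h1 : ∑ x ∈ (JJ (m * k)).filter (fun x => fi k x = l), ∑ x' ∈ (JJ (m * k)).filter (fun x' => fi k x' = l'),
        (if x = x' then 1 else ((m * k : ℕ) : ℝ) * mass (m * k) w x x') = ((m * k : ℕ) : ℝ) * mass m w l l' := by
      rw [mass_ref hw hk hl hl', mul_sum]
      refine sum_congr rfl fun x hx => ?_
      rw [mul_sum]
      refine sum_congr rfl fun x' hx' => ?_
      rw [if_neg]
      rintro rfl
      exact hll ((mem_filter.1 hx).2.symm.trans (mem_filter.1 hx').2)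
    rw [h1, if_neg hll]
    push_cast
    ring

end Pool.Agent.NQF
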