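import Pool.Agent.NQF.VDefs
import Pool.Agent.NQF.LLJJ

/-!
# NQF-VSym: simple properties of the energy matrix

Symmetry, number of lines, trace.
-/

set_option autoImplicit false

open Finset MeasureTheory

namespace Pool.Agent.NQF

open Pool.Agent.NQ (board dsum F Ent Dg phi ln Q Qset QS NonAtt bern)
open Pool.Agent.NQR (Adm Opt Bd Rf hS hD hh InR)
open Pool.Agent.NQL

theorem aw_symm (w : ℝ × ℝ → ℝ) (m : ℕ) (l l' : Li) : AW w m l l' = AW w m l' l := by
  unfold AW mass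
  rw [Set.inter_comm (strip m 0 l), Set.inter_comm (strip m 1 l), mul_comm (ga l)]
  congr 1
  by_cases h : l = l'
  · rw [if_pos h, if_pos h.symm]
  · rw [if_neg h, if_neg (Ne.symm h)]

private theorem vsym_disj (m : ℕ) : Disjoint (({0, 1} : Finset (Fin 4)) ×ˢ Finset.Ico (0 : ℤ) m)
    (({2, 3} : Finset (Fin 4)) ×ˢ Finset.Ico (-(2 * (m : ℤ))) (2 * m)) := by
  rw [Finset.disjoint_left]
  rintro ⟨i, s⟩ h1 h2
  rw [mem_product] at h1 h2
  have h3 : Disjoint ({0, 1} : Finset (Fin 4)) {2, 3} := by decide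
  exact Finset.disjoint_left.1 h3 h1.1 h2.1

theorem jj_card (m : ℕ) : (JJ m).card = 10 * m := by
  unfold JJ
  rw [card_union_of_disjoint (vsym_disj m), card_product, card_product, Int.card_Ico, Int.card_Ico]
  have h1 : ({0, 1} : Finset (Fin 4)).card = 2 := by decide
  have h2 : ({2, 3} : Finset (Fin 4)).card = 2 := by decide
  rw [h1, h2]
  omega

theorem jj_ga (m : ℕ) : ∑ l ∈ JJ m, ga l ^ 2 = 2 * m := by
  unfold JJ
  rw [sum_union (vsym_disj m), sum_product, sum_product]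
  have h1 : ∀ x : ℤ, ga ((0, x) : Li) ^ 2 = 1 := fun x => by
    unfold ga
    norm_num
  have h2 : ∀ x : ℤ, ga ((1, x) : Li) ^ 2 = 1 := fun x => by
    unfold ga
    norm_num
  have h3 : ∀ x : ℤ, ga ((2, x) : Li) ^ 2 = 0 := fun x => by
    unfold ga
    norm_num [Fin.ext_iff]
  have h4 : ∀ x : ℤ, ga ((3, x) : Li) ^ 2 = 0 := fun x => by
    unfold ga
    norm_num [Fin.ext_iff]
  rw [sum_pair (by decide), sum_pair (by decide)]
  simp only [h1, h2, h3, h4, sum_const, Int.card_Ico, nsmul_eq_mul, mul_one, mul_zero, add_zero]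
  rw [sub_zero, Int.toNat_natCast]
  ring

theorem aw_trace (w : ℝ × ℝ → ℝ) {m : ℕ} (hm : 1 ≤ m) : ∑ l ∈ JJ m, AW w m l l = 10 * m + 1 := by
  have h1 : ∀ l ∈ JJ m, AW w m l l = 1 + ga l ^ 2 / (2 * m) := by
    intro l _
    unfold AW
    rw [if_pos rfl, sq]
  have hm0 : (m : ℝ) ≠ 0 := Nat.cast_ne_zero.2 (by omega)
  rw [sum_congr rfl h1, sum_add_distrib, ← sum_div, jj_ga, sum_const, jj_card, nsmul_eq_mul, mul_one,
    div_self (mul_ne_zero two_ne_zero hm0)]
  push_cast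
  ring

end Pool.Agent.NQF
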