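import Pool.Agent.NQF.VDefs
import Pool.Agent.NQF.VHSs
import Pool.Agent.NQF.VRef
import Pool.Agent.NQF.VSym
import Pool.Agent.NQF.LLPos
import Pool.Agent.NQF.VMeas
import Pool.Agent.NQR.PMax

/-!
# NQF-VPos: coercivity of the energy matrices

PLAN. `lam0`, `N0` from `aa_pos L` (LLPos). `C1` from `v_hs`. `n1 = max n0, N0` and so large that `√(C1/n) ≤ lam0/2` for `n ≥ n1`. For `n ≥ n1` (a maximiser exists: `NQR.exists_opt`, `h.nr`): `|∑∑ (AA - AW) u u'| ≤ √(∑∑ (AA - AW)²) √(∑∑ u² u'²) ≤ (lam0/2) ∑ u²`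
(Cauchy-Schwarz on pairs): `AW ≥ lam0/2`. For arbitrary `m ≥ 1` take `k = n1`, `m k ≥ n1`, `u' x = u (fi k x)` for `x ∈ JJ (m k)`: `∑ u'² = k ∑ u²` (`fi_card`, `Finset.sum_fiberwise_of_maps_to`), `∑∑ AW (m k) x x' u' x u' x' =
k ∑∑ AW m l l' u l u l'` (`aw_ref`). Divide by `k`. `lam = lam0/2`.
-/

set_option autoImplicit false

open Finset MeasureTheory

namespace Pool.Agent.NQF

open Pool.Agent.NQ (board dsum F Ent Dg phi ln Q Qset QS NonAtt bern)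
open Pool.Agent.NQR (Adm Opt Bd Rf hS hD hh InR)
open Pool.Agent.NQL

private theorem cs_pair {J : Finset Li} (D : Li → Li → ℝ) (u : Li → ℝ) {a : ℝ} (ha : 0 ≤ a)
    (hD : ∑ l ∈ J, ∑ l' ∈ J, D l l' ^ 2 ≤ a ^ 2) :
    ∑ l ∈ J, ∑ l' ∈ J, D l l' * u l * u l' ≤ a * ∑ l ∈ J, u l ^ 2 := by
  have hS : 0 ≤ ∑ l ∈ J, u l ^ 2 := sum_nonneg fun _ _ => sq_nonneg _
  have h1 : (∑ l ∈ J, ∑ l' ∈ J, D l l' * u l * u l') ^ 2 ≤
      (∑ l ∈ J, ∑ l' ∈ J, D l l' ^ 2) * (∑ l ∈ J, ∑ l' ∈ J, (u l * u l') ^ 2) := by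
    rw [← sum_product', ← sum_product', ← sum_product']
    have h2 := sum_mul_sq_le_sq_mul_sq (J ×ˢ J) (fun p => D p.1 p.2) (fun p => u p.1 * u p.2)
    refine le_trans (le_of_eq ?_) h2
    congr 1
    exact sum_congr rfl fun p _ => by ring
  have h2 : ∑ l ∈ J, ∑ l' ∈ J, (u l * u l') ^ 2 = (∑ l ∈ J, u l ^ 2) ^ 2 := by
    rw [sq (∑ l ∈ J, u l ^ 2), sum_mul_sum]
    exact sum_congr rfl fun l _ => sum_congr rfl fun l' _ => by ring
  rw [h2] at h1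
  have h3 : (∑ l ∈ J, ∑ l' ∈ J, D l l' * u l * u l') ^ 2 ≤ (a * ∑ l ∈ J, u l ^ 2) ^ 2 := by
    rw [mul_pow]
    exact h1.trans (mul_le_mul_of_nonneg_right hD (sq_nonneg _))
  exact le_trans (le_abs_self _) (abs_le_of_sq_le_sq h3 (mul_nonneg ha hS))

theorem v_pos {L C : ℝ} {n0 : ℕ} {w : ℝ × ℝ → ℝ} (h : Lm L C n0 w) : ∃ lam : ℝ, 0 < lam ∧ lam ≤ 1 ∧ ∀ m : ℕ, 1 ≤ m →
    ∀ u : Li → ℝ, lam * ∑ l ∈ JJ m, u l ^ 2 ≤ ∑ l ∈ JJ m, ∑ l' ∈ JJ m, AW w m l l' * u l * u l' := by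
  classical
  obtain ⟨lam0, N0, hl0, hl1, hN0, haa⟩ := aa_pos L h.L1
  obtain ⟨C1, hC1, hhs⟩ := v_hs h
  obtain ⟨n2, hn2⟩ := exists_nat_ge (4 * C1 / lam0 ^ 2)
  set n1 : ℕ := max (max n0 N0) n2 with hn1
  have hn1n0 : n0 ≤ n1 := (le_max_left _ _).trans (le_max_left _ _)
  have hn1N0 : N0 ≤ n1 := (le_max_right _ _).trans (le_max_left _ _)
  have hn1n2 : n2 ≤ n1 := le_max_right _ _
  have hbig : ∀ n : ℕ, n1 ≤ n → ∀ u : Li → ℝ, lam0 / 2 * ∑ l ∈ JJ n, u l ^ 2 ≤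
      ∑ l ∈ JJ n, ∑ l' ∈ JJ n, AW w n l l' * u l * u l' := by
    intro n hn u
    obtain ⟨W, hW⟩ := Pool.Agent.NQR.exists_opt (N := n) (by omega)
    obtain ⟨A, B, hNr⟩ := h.nr n (hn1n0.trans hn) W hW
    have e1 := haa n W A B (hn1N0.trans hn) hNr.rf u
    have e2 := hhs n (hn1n0.trans hn) W A B hNr
    have hn0 : (0 : ℝ) < n := by exact_mod_cast (by omega : 0 < n)
    have e3 : C1 / n ≤ (lam0 / 2) ^ 2 := by
      have h1 : 4 * C1 / lam0 ^ 2 ≤ n := hn2.trans (by exact_mod_cast (hn1n2.trans hn))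
      rw [div_le_iff₀ (by positivity)] at h1
      rw [div_le_iff₀ hn0]
      nlinarith
    have e4 := cs_pair (J := JJ n) (fun l l' => AA L4 (board n) W ga n l l' - AW w n l l') u
      (half_pos hl0).le (e2.trans e3)
    have e5 : ∑ l ∈ JJ n, ∑ l' ∈ JJ n, (AA L4 (board n) W ga n l l' - AW w n l l') * u l * u l' =
        ∑ l ∈ JJ n, ∑ l' ∈ JJ n, AA L4 (board n) W ga n l l' * u l * u l' -
          ∑ l ∈ JJ n, ∑ l' ∈ JJ n, AW w n l l' * u l * u l' := by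
      rw [← sum_sub_distrib]
      refine sum_congr rfl fun l _ => ?_
      rw [← sum_sub_distrib]
      exact sum_congr rfl fun l' _ => by ring
    rw [e5] at e4
    linarith
  refine ⟨lam0 / 2, half_pos hl0, by linarith, fun m hm u => ?_⟩
  have hk : 1 ≤ n1 := by omega
  have hk0 : (0 : ℝ) < n1 := by exact_mod_cast hk
  have h1 := hbig (m * n1) (Nat.le_mul_of_pos_left n1 hm) (fun x => u (fi n1 x))
  have hmap : ∀ x ∈ JJ (m * n1), fi n1 x ∈ JJ m := fun x hx => (fi_mem hk).1 hx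
  have h2 : ∑ x ∈ JJ (m * n1), u (fi n1 x) ^ 2 = n1 * ∑ l ∈ JJ m, u l ^ 2 := by
    rw [← sum_fiberwise_of_maps_to hmap, mul_sum]
    refine sum_congr rfl fun l hl => ?_
    rw [sum_congr rfl (fun x hx => by rw [(mem_filter.1 hx).2] :
      ∀ x ∈ (JJ (m * n1)).filter (fun x => fi n1 x = l), u (fi n1 x) ^ 2 = u l ^ 2)]
    rw [sum_const, fi_card hk hl, nsmul_eq_mul]
  have h3 : ∑ x ∈ JJ (m * n1), ∑ x' ∈ JJ (m * n1), AW w (m * n1) x x' * u (fi n1 x) * u (fi n1 x') =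
      n1 * ∑ l ∈ JJ m, ∑ l' ∈ JJ m, AW w m l l' * u l * u l' := by
    rw [← sum_fiberwise_of_maps_to hmap, mul_sum]
    refine sum_congr rfl fun l hl => ?_
    have h4 : ∀ x ∈ (JJ (m * n1)).filter (fun x => fi n1 x = l),
        ∑ x' ∈ JJ (m * n1), AW w (m * n1) x x' * u (fi n1 x) * u (fi n1 x') =
        ∑ l' ∈ JJ m, (∑ x' ∈ (JJ (m * n1)).filter (fun x' => fi n1 x' = l'), AW w (m * n1) x x') * (u l * u l') := by
      intro x hx
      rw [← sum_fiberwise_of_maps_to hmap]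
      refine sum_congr rfl fun l' hl' => ?_
      rw [sum_mul]
      refine sum_congr rfl fun x' hx' => ?_
      rw [(mem_filter.1 hx).2, (mem_filter.1 hx').2]
      ring
    rw [sum_congr rfl h4, sum_comm, mul_sum]
    refine sum_congr rfl fun l' hl' => ?_
    rw [← sum_mul, aw_ref (ql_int h.L1 h.ql) hm hk hl hl']
    ring
  rw [h2, h3] at h1
  have h5 : (n1 : ℝ) * (lam0 / 2 * ∑ l ∈ JJ m, u l ^ 2) ≤
      n1 * ∑ l ∈ JJ m, ∑ l' ∈ JJ m, AW w m l l' * u l * u l' := by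
    linarith
  exact le_of_mul_le_mul_left h5 hk0

end Pool.Agent.NQF
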