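import Pool.Agent.NQF.VDefs
import Pool.Agent.NQF.VHSs
import Pool.Agent.NQF.VPos
import Pool.Agent.NQF.VEnt
import Pool.Agent.NQF.VSym
import Pool.Agent.NQF.LLDif
import Pool.Agent.NQF.LLFul
import Pool.Agent.NQF.LLPos
import Pool.Agent.NQF.LLHS
import Pool.Agent.NQR.PMax

/-!
# NQF-VCon: convergence of the determinants

PLAN. For `n ≥ max n0 N0 n1` take a maximiser `W` and `Nr`. `cn n W = log (4 π)/2 - LD (full n) (AA ..)/2 - 3/2 ∑ W²`, `LD (full n) (AA ..) = LD (JJ n) (AA ..)` (`ld_full`). `ld_diff` (LLDif) with `A = AA L4 (board n) W ga n`, `B = AW w n`,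
`lam = min` of the constants of `aa_pos` and `v_pos`: symmetric (`MM` symmetric; `aw_symm`), equal diagonals (`MM l l = 0`), `√(∑∑ (AA - δ)²) ≤ √(32 L² + 2)` (`aa_hs`), `√(∑∑ (AW - δ)²) ≤ √(2 (32 L² + 2) + 2 C1/n)`, `√(∑∑ (AA - AW)²) ≤ √(C1/n)`
(`v_hs`): the difference of the `LD` tends to `0`. `∑ W² → ∫ w²` (`v_ent`). So `-(LD (JJ n) (AW w n))/2 - 3/2 ∫ w² = cn n W - log (4 π)/2 + o(1) → c - log (4 π)/2`.
-/

set_option autoImplicit false

open Finset MeasureTheory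

namespace Pool.Agent.NQF

open Pool.Agent.NQ (board dsum F Ent Dg phi ln Q Qset QS NonAtt bern)
open Pool.Agent.NQR (Adm Opt Bd Rf hS hD hh InR)
open Pool.Agent.NQL

private theorem mm_symm (W : ℤ × ℤ → ℝ) (n : ℕ) (l l' : Li) :
    MM L4 (board n) W l l' = MM L4 (board n) W l' l := by
  unfold MM
  by_cases h : l = l'
  · rw [if_pos h, if_pos h.symm]
  · rw [if_neg h, if_neg (fun h' => h h'.symm)]
    exact sum_congr (filter_congr fun e _ => and_comm) fun _ _ => rfl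

private theorem aa_symm (W : ℤ × ℤ → ℝ) (n : ℕ) (l l' : Li) :
    AA L4 (board n) W ga n l l' = AA L4 (board n) W ga n l' l := by
  unfold AA
  rw [mm_symm W n l l', mul_comm (ga l)]
  by_cases h : l = l'
  · rw [if_pos h, if_pos h.symm]
  · rw [if_neg h, if_neg (fun h' => h h'.symm)]

private theorem aa_sub (W : ℤ × ℤ → ℝ) (n : ℕ) (l l' : Li) :
    AA L4 (board n) W ga n l l' - (if l = l' then 1 else 0) = MM L4 (board n) W l l' + ga l * ga l' / (2 * n) := by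
  unfold AA
  ring

private theorem tend (K C1 C2 : ℝ) :
    Filter.Tendsto (fun n : ℕ => K * Real.sqrt (C1 / n) / 2 + 3 / 2 * (C2 / Real.sqrt n)) Filter.atTop (nhds 0) := by
  have h1 : Filter.Tendsto (fun n : ℕ => Real.sqrt (C1 / n)) Filter.atTop (nhds 0) := by
    have h2 := (Real.continuous_sqrt.tendsto 0).comp (tendsto_const_div_atTop_nhds_zero_nat C1)
    rw [Real.sqrt_zero] at h2
    exact h2
  have h3 : Filter.Tendsto (fun n : ℕ => C2 / Real.sqrt n) Filter.atTop (nhds 0) :=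
    (Real.tendsto_sqrt_atTop.comp tendsto_natCast_atTop_atTop).const_div_atTop C2
  have h4 := ((h1.const_mul K).div_const 2).add (h3.const_mul (3 / 2))
  simpa using h4

theorem v_con {L C : ℝ} {n0 : ℕ} {w : ℝ × ℝ → ℝ} (h : Lm L C n0 w) {c : ℝ}
    (hc : ∀ ε : ℝ, 0 < ε → ∃ n1 : ℕ, ∀ n : ℕ, n1 ≤ n → ∀ W : ℤ × ℤ → ℝ, Opt n W → |cn n W - c| ≤ ε) :
    Filter.Tendsto (fun m : ℕ => -(LD (JJ m) (AW w m)) / 2 - 3 / 2 * ∫ p, w p ^ 2) Filter.atTop
      (nhds (c - Real.log (4 * Real.pi) / 2)) := by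
  obtain ⟨lam1, N0, hl1, -, hN0, haa⟩ := aa_pos L h.L1
  obtain ⟨lam2, hl2, -, haw⟩ := v_pos h
  obtain ⟨C1, hC1, hhs⟩ := v_hs h
  obtain ⟨C2, -, hent⟩ := v_ent h
  set lam : ℝ := min lam1 lam2 with hlam
  have hl0 : 0 < lam := lt_min hl1 hl2
  set H : ℝ := 32 * L ^ 2 + 2 with hH
  have hH0 : 0 ≤ H := by positivity
  set K : ℝ := (Real.sqrt H + Real.sqrt (2 * H + 2 * C1)) / lam with hK
  have key : ∀ n : ℕ, n0 ≤ n → N0 ≤ n → ∀ W : ℤ × ℤ → ℝ, Opt n W →
      |(-(LD (JJ n) (AW w n)) / 2 - 3 / 2 * ∫ p, w p ^ 2) - (cn n W - Real.log (4 * Real.pi) / 2)| ≤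
        K * Real.sqrt (C1 / n) / 2 + 3 / 2 * (C2 / Real.sqrt n) := by
    intro n hn hn' W hW
    obtain ⟨A, B, hNr⟩ := h.nr n hn W hW
    have hn1 : 1 ≤ n := by omega
    have hnr : (1 : ℝ) ≤ n := by exact_mod_cast hn1
    have e1 := (hent n hn W A B hNr).2
    have e2 := hhs n hn W A B hNr
    have e3 := aa_hs h.L1 hn1 hNr.rf
    have hd : C1 / n ≤ C1 := div_le_self hC1 hnr
    have s1 : ∑ l ∈ JJ n, ∑ l' ∈ JJ n, (AA L4 (board n) W ga n l l' - if l = l' then 1 else 0) ^ 2 ≤ H := by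
      refine le_trans (le_of_eq ?_) e3
      exact sum_congr rfl fun l _ => sum_congr rfl fun l' _ => by rw [aa_sub]
    have s2 : ∑ l ∈ JJ n, ∑ l' ∈ JJ n, (AW w n l l' - if l = l' then 1 else 0) ^ 2 ≤ 2 * H + 2 * C1 := by
      have t1 : ∑ l ∈ JJ n, ∑ l' ∈ JJ n, (AW w n l l' - if l = l' then 1 else 0) ^ 2 ≤
          2 * (∑ l ∈ JJ n, ∑ l' ∈ JJ n, (AA L4 (board n) W ga n l l' - if l = l' then 1 else 0) ^ 2) +
          2 * ∑ l ∈ JJ n, ∑ l' ∈ JJ n, (AA L4 (board n) W ga n l l' - AW w n l l') ^ 2 := by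
        rw [mul_sum, mul_sum, ← sum_add_distrib]
        refine sum_le_sum fun l _ => ?_
        rw [mul_sum, mul_sum, ← sum_add_distrib]
        refine sum_le_sum fun l' _ => ?_
        nlinarith [sq_nonneg ((AA L4 (board n) W ga n l l' - if l = l' then (1 : ℝ) else 0) +
          (AA L4 (board n) W ga n l l' - AW w n l l'))]
      linarith
    have hld := ld_diff (J := JJ n) (A := AA L4 (board n) W ga n) (B := AW w n) hl0
      (fun l _ l' _ => aa_symm W n l l') (fun l _ l' _ => aw_symm w n l l')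
      (fun u => le_trans (mul_le_mul_of_nonneg_right (min_le_left _ _) (sum_nonneg fun _ _ => sq_nonneg _))
        (haa n W A B hn' hNr.rf u))
      (fun u => le_trans (mul_le_mul_of_nonneg_right (min_le_right _ _) (sum_nonneg fun _ _ => sq_nonneg _))
        (haw n hn1 u))
      (fun l _ => by
        unfold AA AW MM
        rw [if_pos rfl, if_pos rfl, if_pos rfl, add_zero])
    have hld2 : |LD (JJ n) (AA L4 (board n) W ga n) - LD (JJ n) (AW w n)| ≤ K * Real.sqrt (C1 / n) := by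
      refine hld.trans ?_
      rw [hK, div_mul_eq_mul_div]
      refine div_le_div_of_nonneg_right ?_ hl0.le
      refine mul_le_mul (add_le_add (Real.sqrt_le_sqrt s1) (Real.sqrt_le_sqrt s2)) (Real.sqrt_le_sqrt e2)
        (Real.sqrt_nonneg _) (by positivity)
    have hcn : cn n W = Real.log (4 * Real.pi) / 2 - LD (JJ n) (AA L4 (board n) W ga n) / 2 -
        3 / 2 * ∑ e ∈ board n, W e ^ 2 := by
      unfold cn
      rw [ld_full hn1]
    rw [hcn]
    have e4 : (-(LD (JJ n) (AW w n)) / 2 - 3 / 2 * ∫ p, w p ^ 2) -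
        (Real.log (4 * Real.pi) / 2 - LD (JJ n) (AA L4 (board n) W ga n) / 2 -
          3 / 2 * ∑ e ∈ board n, W e ^ 2 - Real.log (4 * Real.pi) / 2) =
        (LD (JJ n) (AA L4 (board n) W ga n) - LD (JJ n) (AW w n)) / 2 +
          3 / 2 * (∑ e ∈ board n, W e ^ 2 - ∫ p, w p ^ 2) := by ring
    rw [e4]
    refine (abs_add_le _ _).trans (add_le_add ?_ ?_)
    · rw [abs_div, abs_of_pos (by norm_num : (0 : ℝ) < 2)]
      exact div_le_div_of_nonneg_right hld2 (by norm_num)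
    · rw [abs_mul, abs_of_pos (by norm_num : (0 : ℝ) < 3 / 2)]
      exact mul_le_mul_of_nonneg_left e1 (by norm_num)
  rw [Metric.tendsto_atTop]
  intro ε hε
  obtain ⟨n1, hn1⟩ := hc (ε / 2) (half_pos hε)
  obtain ⟨n2, hn2⟩ := (Metric.tendsto_atTop.1 (tend K C1 C2)) (ε / 2) (half_pos hε)
  refine ⟨max (max n0 N0) (max n1 n2), fun n hn => ?_⟩
  have a1 : n0 ≤ n := ((le_max_left _ _).trans (le_max_left _ _)).trans hn
  have a2 : N0 ≤ n := ((le_max_right _ _).trans (le_max_left _ _)).trans hn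
  have a3 : n1 ≤ n := ((le_max_left _ _).trans (le_max_right _ _)).trans hn
  have a4 : n2 ≤ n := ((le_max_right _ _).trans (le_max_right _ _)).trans hn
  obtain ⟨W, hW⟩ := Pool.Agent.NQR.exists_opt (N := n) (by omega)
  have b1 := key n a1 a2 W hW
  have b2 := hn1 n a3 W hW
  have b3 := hn2 n a4
  rw [Real.dist_eq, sub_zero] at b3
  have b4 := (le_abs_self _).trans_lt b3
  rw [Real.dist_eq]
  have b5 : (-(LD (JJ n) (AW w n)) / 2 - 3 / 2 * ∫ p, w p ^ 2) - (c - Real.log (4 * Real.pi) / 2) =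
      ((-(LD (JJ n) (AW w n)) / 2 - 3 / 2 * ∫ p, w p ^ 2) - (cn n W - Real.log (4 * Real.pi) / 2)) + (cn n W - c) := by
    ring
  rw [b5]
  refine (abs_add_le _ _).trans_lt ?_
  linarith

end Pool.Agent.NQF
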