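import Pool.Agent.NQF.VDefs
import Pool.Agent.NQF.VMeas
import Pool.Agent.NQF.VCel

/-!
# NQF-VDgD: the difference diagonals

PLAN. `D = ⌊n d⌋`. `DD w d = ∫ x in [0,1), w (x, x - d) = ∑_{i<n} ∫ x in cell i` (`cel_one`, `a = 0`, `b = 1`, `ql_sec`). `dsum n W 3 D = ∑_{i<n} W (i, i - D)` (`W = 0` off the board). For `x` in the
cell `i`: `n (x - d) ∈ (i - D - 1, i - D + 1)`, so `⌊n (x - d)⌋ ∈ {i - D - 1, i - D}`.
(a) `1 ≤ i - D ≤ n - 1`: both are in `[0,n)`, `(x, x - d) ∈ SQ`; `|w (x,x-d) - n W (i, ⌊n (x-d)⌋)| ≤ C/√n` (`nr`) and `|n W (i, ⌊..⌋) - n W (i, i - D)| ≤ C/n` (`wl`): the integral over the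
cell differs from `W (i, i-D)` by at most `2 C/(n √n)`. (b) `i - D = 0` or `i - D = n`: at most two `i`; integral and `W` are in `[0, L/n]`. (c) else both vanish.
Total `2 C/√n + 4 L/n ≤ (2 C + 4 L)/√n`.
-/

set_option autoImplicit false

open Finset MeasureTheory

namespace Pool.Agent.NQF

open Pool.Agent.NQ (board dsum F Ent Dg phi ln Q Qset QS NonAtt bern)
open Pool.Agent.NQR (Adm Opt Bd Rf hS hD hh InR)
open Pool.Agent.NQL

private theorem vdd_mem {n : ℕ} {e : ℤ × ℤ} : e ∈ board n ↔ (0 ≤ e.1 ∧ e.1 < n) ∧ (0 ≤ e.2 ∧ e.2 < n) := by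
  unfold board
  rw [Finset.mem_product, Finset.mem_Ico, Finset.mem_Ico]

private theorem vdd_dsum {n : ℕ} {W : ℤ × ℤ → ℝ} (hW : Adm n W) (D : ℤ) :
    dsum n W 3 D = ∑ i ∈ Finset.Ico (0 : ℤ) n, W (i, i - D) := by
  unfold dsum board
  rw [Finset.sum_filter, Finset.sum_product]
  refine Finset.sum_congr rfl fun i hi => ?_
  have e : ∀ j ∈ Finset.Ico (0 : ℤ) n, (if ln 3 (i, j) = D then W (i, j) else 0) =
      if j = i - D then W (i, j) else 0 := by
    intro j _
    have h1 : ln 3 (i, j) = i - j := rfl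
    rw [h1]
    by_cases h2 : i - j = D
    · rw [if_pos h2, if_pos (by omega)]
    · rw [if_neg h2, if_neg (by omega)]
  rw [Finset.sum_congr rfl e, Finset.sum_ite_eq']
  split_ifs with h
  · rfl
  · symm
    apply hW.out
    intro hc
    rw [vdd_mem] at hc
    exact h (Finset.mem_Ico.2 hc.2)

/-- a cell -/
private def vddc (n : ℕ) (i : ℤ) : Set ℝ := {x : ℝ | ⌊n * x⌋ = i}

private theorem vdd_cell {n : ℕ} (hn : 1 ≤ n) {f : ℝ → ℝ} (hf : Integrable f) (i : ℤ) {a K : ℝ}
    (h : ∀ x ∈ vddc n i, |f x - n * a| ≤ K) : |(∫ x in vddc n i, f x) - a| ≤ K / n := by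
  obtain ⟨hm, hv⟩ := cel_one_vol hn i
  have hn0 : (0 : ℝ) < n := by exact_mod_cast hn
  have hv' : volume.real (vddc n i) = 1 / n := by
    show (volume {x : ℝ | ⌊n * x⌋ = i}).toReal = _
    rw [hv, ENNReal.toReal_ofReal (by positivity)]
  have hfin : volume (vddc n i) < ⊤ := by
    show volume {x : ℝ | ⌊n * x⌋ = i} < ⊤
    rw [hv]
    exact ENNReal.ofReal_lt_top
  have h1 : ∫ x in vddc n i, (n * a : ℝ) = a := by
    rw [setIntegral_const, hv', smul_eq_mul]
    field_simp
  have h2 : (∫ x in vddc n i, f x) - a = ∫ x in vddc n i, (f x - n * a) := by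
    rw [integral_sub hf.integrableOn (integrableOn_const (hs := hfin.ne)), h1]
  rw [h2]
  have h3 := norm_setIntegral_le_of_norm_le_const (μ := volume) (f := fun x => f x - n * a) hfin h
  rw [hv'] at h3
  rw [Real.norm_eq_abs] at h3
  calc _ ≤ K * (1 / n) := h3
    _ = K / n := by ring

theorem v_dd {L C : ℝ} {n0 : ℕ} {w : ℝ × ℝ → ℝ} (h : Lm L C n0 w) {n : ℕ} (hn : n0 ≤ n) {W : ℤ × ℤ → ℝ} {A B : ℤ → ℝ}
    (hW : Nr L C n w W A B) (d : ℝ) : |DD w d - dsum n W 3 ⌊n * d⌋| ≤ (2 * C + 4 * L) / Real.sqrt n := by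
  have hL := h.L1
  have hC := h.C1
  have hn1 : 1 ≤ n := le_trans (by have := h.n1; omega) hn
  have hn0 : (0 : ℝ) < n := by exact_mod_cast hn1
  have hnr1 : (1 : ℝ) ≤ n := by exact_mod_cast hn1
  have hsq0 : 0 < Real.sqrt n := Real.sqrt_pos.2 hn0
  have hsqn : Real.sqrt n ≤ n := by
    rw [Real.sqrt_le_left hn0.le]
    nlinarith
  have hsec := (ql_sec hL h.ql).2.2.2 d
  have hbd := ql_bd hL h.ql
  obtain ⟨D, hD⟩ : ∃ D : ℤ, D = ⌊n * d⌋ := ⟨_, rfl⟩
  rw [← hD, vdd_dsum hW.rf.adm]
  -- the integral as a sum over cells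
  have hI : DD w d = ∑ i ∈ Finset.Ico (0 : ℤ) n, ∫ x in vddc n i, w (x, x - d) := by
    have h1 : DD w d = ∫ x in Set.Ico ((0 : ℤ) : ℝ) ((1 : ℤ) : ℝ), w (x, x - d) := by
      symm
      apply setIntegral_eq_integral_of_forall_compl_eq_zero
      intro x hx
      apply h.ql.out
      intro hc
      apply hx
      have := hc.1
      simpa using this
    rw [h1, cel_one (by norm_num) hsec.integrableOn hn1, mul_zero, mul_one]
    rfl
  rw [hI, ← Finset.sum_sub_distrib]
  refine (Finset.abs_sum_le_sum_abs _ _).trans ?_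
  have hfl : ∀ i x, x ∈ vddc n i → ⌊n * (x - d)⌋ = i - D ∨ ⌊n * (x - d)⌋ = i - D - 1 := by
    intro i x hx
    have hx' : ⌊n * x⌋ = i := hx
    have a1 := Int.floor_le ((n : ℝ) * x)
    have a2 := Int.lt_floor_add_one ((n : ℝ) * x)
    have b1 := Int.floor_le ((n : ℝ) * d)
    have b2 := Int.lt_floor_add_one ((n : ℝ) * d)
    rw [hx'] at a1 a2
    rw [← hD] at b1 b2
    have c1 := Int.floor_le ((n : ℝ) * (x - d))
    have c2 := Int.lt_floor_add_one ((n : ℝ) * (x - d))
    have e : (n : ℝ) * (x - d) = n * x - n * d := by ring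
    have d1 : ((i - D - 1 : ℤ) : ℝ) < (⌊(n : ℝ) * (x - d)⌋ : ℝ) + 1 := by push_cast; linarith
    have d2 : (⌊(n : ℝ) * (x - d)⌋ : ℝ) < ((i - D + 1 : ℤ) : ℝ) := by push_cast; linarith
    have d3 : (i - D - 1 : ℤ) < ⌊(n : ℝ) * (x - d)⌋ + 1 := by exact_mod_cast d1
    have d4 : ⌊(n : ℝ) * (x - d)⌋ < i - D + 1 := by exact_mod_cast d2
    omega
  have hcell : ∀ i ∈ Finset.Ico (0 : ℤ) n, |(∫ x in vddc n i, w (x, x - d)) - W (i, i - D)| ≤
      2 * C / Real.sqrt n / n + ((if i = D then L / n else 0) + (if i = n + D then L / n else 0)) := by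
    intro i hi
    rw [Finset.mem_Ico] at hi
    have hLn : 0 ≤ L / n := by positivity
    have hCn : 0 ≤ 2 * C / Real.sqrt n / n := by positivity
    have i1 : (0 : ℝ) ≤ if i = D then L / n else 0 := by split_ifs <;> first | exact hLn | exact le_rfl
    have i2 : (0 : ℝ) ≤ if i = n + D then L / n else 0 := by split_ifs <;> first | exact hLn | exact le_rfl
    by_cases hj : 1 ≤ i - D ∧ i - D ≤ n - 1
    · refine (vdd_cell hn1 hsec i (K := 2 * C / Real.sqrt n) ?_).trans (by linarith)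
      intro x hx
      have hx' : ⌊n * x⌋ = i := hx
      have hm := hfl i x hx
      obtain ⟨m, hmd⟩ : ∃ m : ℤ, m = ⌊n * (x - d)⌋ := ⟨_, rfl⟩
      rw [← hmd] at hm
      have hmb : 0 ≤ m ∧ m < n := by omega
      have hSQ : (x, x - d) ∈ SQ := by
        rw [← cel_mem hn1, vdd_mem]
        show (0 ≤ ⌊n * x⌋ ∧ ⌊n * x⌋ < n) ∧ (0 ≤ ⌊n * (x - d)⌋ ∧ ⌊n * (x - d)⌋ < n)
        rw [hx', ← hmd]
        exact ⟨hi, hmb⟩
      have h1 : |n * W (⌊n * x⌋, ⌊n * (x - d)⌋) - w (x, x - d)| ≤ C / Real.sqrt n := hW.nr _ hSQ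
      rw [hx', ← hmd] at h1
      have h2 : |W (i, m) - W (i, i - D)| ≤ C * ((|i - i| + |m - (i - D)| : ℤ) : ℝ) / (n : ℝ) ^ 2 :=
        hW.wl (i, m) (vdd_mem.2 ⟨hi, hmb⟩) (i, i - D) (vdd_mem.2 ⟨hi, by show 0 ≤ i - D; omega, by show i - D < n; omega⟩)
      have h3 : (|i - i| + |m - (i - D)| : ℤ) ≤ 1 := by
        rcases hm with hm | hm
        · rw [hm]; simp
        · rw [hm]
          have : i - D - 1 - (i - D) = -1 := by ring
          rw [this]; simp
      have h4 : |W (i, m) - W (i, i - D)| ≤ C / (n : ℝ) ^ 2 := by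
        refine h2.trans ?_
        apply div_le_div_of_nonneg_right _ (by positivity)
        have h3' : (((|i - i| + |m - (i - D)| : ℤ)) : ℝ) ≤ 1 := by exact_mod_cast h3
        nlinarith
      have h5 : |n * W (i, m) - n * W (i, i - D)| ≤ C / Real.sqrt n := by
        rw [← mul_sub, abs_mul, abs_of_pos hn0]
        calc (n : ℝ) * |W (i, m) - W (i, i - D)| ≤ n * (C / (n : ℝ) ^ 2) := by
              apply mul_le_mul_of_nonneg_left h4 hn0.le
          _ = C / n := by field_simp
          _ ≤ C / Real.sqrt n := by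
              apply div_le_div_of_nonneg_left (by linarith) hsq0 hsqn
      have h6 : w (x, x - d) - n * W (i, i - D) = -(n * W (i, m) - w (x, x - d)) + (n * W (i, m) - n * W (i, i - D)) := by
        ring
      rw [h6]
      refine (abs_add_le _ _).trans ?_
      rw [abs_neg]
      have h7 : 2 * C / Real.sqrt n = C / Real.sqrt n + C / Real.sqrt n := by ring
      rw [h7]
      exact add_le_add h1 h5
    · by_cases hj2 : i - D = 0 ∨ i - D = n
      · have hK : |(∫ x in vddc n i, w (x, x - d)) - L / 2 / n| ≤ L / 2 / n := by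
          apply vdd_cell hn1 hsec i
          intro x _
          have h1 := hbd (x, x - d)
          have h2 : (n : ℝ) * (L / 2 / n) = L / 2 := by field_simp
          rw [h2, abs_le]
          constructor
          · linarith [h1.1]
          · linarith [h1.2]
        have hWb : 0 ≤ W (i, i - D) ∧ W (i, i - D) ≤ L / n := by
          refine ⟨hW.rf.adm.nn _, ?_⟩
          by_cases hb : (i, i - D) ∈ board n
          · exact hW.rf.bd.hi _ hb
          · rw [hW.rf.adm.out _ hb]
            exact hLn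
        have hor : L / n ≤ (if i = D then L / n else 0) + (if i = n + D then L / n else 0) := by
          rcases hj2 with hj2 | hj2
          · rw [if_pos (by omega : i = D)]
            linarith
          · rw [if_pos (by omega : i = n + D)]
            linarith
        have h3 : L / n = L / 2 / n + L / 2 / n := by ring
        have h4 : |(∫ x in vddc n i, w (x, x - d)) - W (i, i - D)| ≤ L / n := by
          rw [abs_le] at hK ⊢
          constructor
          · linarith [hK.1, hWb.2]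
          · linarith [hK.2, hWb.1]
        linarith
      · have hW0 : W (i, i - D) = 0 := by
          apply hW.rf.adm.out
          intro hc
          rw [vdd_mem] at hc
          have h1 : 0 ≤ i - D ∧ i - D < n := hc.2
          omega
        have hw0 : ∫ x in vddc n i, w (x, x - d) = 0 := by
          apply setIntegral_eq_zero_of_forall_eq_zero
          intro x hx
          apply h.ql.out
          intro hc
          rw [← cel_mem hn1, vdd_mem] at hc
          have h1 : 0 ≤ ⌊n * (x - d)⌋ ∧ ⌊n * (x - d)⌋ < n := hc.2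
          have h2 := hfl i x hx
          omega
        rw [hW0, hw0, sub_zero, abs_zero]
        linarith
  refine (Finset.sum_le_sum hcell).trans ?_
  rw [Finset.sum_add_distrib, Finset.sum_add_distrib, Finset.sum_const, Finset.sum_ite_eq', Finset.sum_ite_eq']
  have hcard : (Finset.Ico (0 : ℤ) n).card = n := by
    rw [Int.card_Ico]
    omega
  rw [hcard, nsmul_eq_mul]
  have hLn : 0 ≤ L / n := by positivity
  have i1 : (if D ∈ Finset.Ico (0 : ℤ) n then L / n else (0 : ℝ)) ≤ L / n := by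
    split_ifs <;> first | exact le_rfl | exact hLn
  have i2 : (if (n : ℤ) + D ∈ Finset.Ico (0 : ℤ) n then L / n else (0 : ℝ)) ≤ L / n := by
    split_ifs <;> first | exact le_rfl | exact hLn
  have h1 : (n : ℝ) * (2 * C / Real.sqrt n / n) = 2 * C / Real.sqrt n := by field_simp
  have h2 : L / n ≤ L / Real.sqrt n := div_le_div_of_nonneg_left (by linarith) hsq0 hsqn
  have h3 : (2 * C + 4 * L) / Real.sqrt n = 2 * C / Real.sqrt n + 4 * (L / Real.sqrt n) := by ring
  have h4 : 0 ≤ L / Real.sqrt n := by positivity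
  rw [h1, h3]
  linarith

end Pool.Agent.NQF
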