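import Pool.Agent.NQF.VDefs
import Pool.Agent.NQF.VMeas
import Pool.Agent.NQF.VCel

/-!
# NQF-VDgS: the sum diagonals

PLAN. `S = ⌊n s⌋`. `DS w s = ∫ x in [0,1), w (x, s - x) = ∑_{i<n} ∫ x in cell i, w (x, s - x)` (`cel_one`, `a = 0`, `b = 1`, `ql_sec`). `dsum n W 2 S = ∑_{i<n} W (i, S - i)` (`W = 0` off the board,
`hR.adm.out`; reindex by the first coordinate). For `x` in the cell `i`: `n (s - x) ∈ (S - i - 1, S - i + 1)`, so `⌊n (s - x)⌋ ∈ {S - i - 1, S - i}`.
(a) `1 ≤ S - i ≤ n - 1`: both are in `[0,n)`, `(x, s - x) ∈ SQ`; `|w (x,s-x) - n W (i, ⌊n (s-x)⌋)| ≤ C/√n` (`nr`) and `|n W (i, ⌊..⌋) - n W (i, S - i)| ≤ C/n` (`wl`): the integral over the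
cell differs from `W (i, S-i)` by at most `2 C/(n √n)`. (b) `S - i = 0` or `S - i = n`: at most two `i`; integral and `W` are in `[0, L/n]`. (c) else both vanish.
Total `2 C/√n + 4 L/n ≤ (2 C + 4 L)/√n`.
-/

set_option autoImplicit false

open Finset MeasureTheory

namespace Pool.Agent.NQF

open Pool.Agent.NQ (board dsum F Ent Dg phi ln Q Qset QS NonAtt bern)
open Pool.Agent.NQR (Adm Opt Bd Rf hS hD hh InR)
open Pool.Agent.NQL

private theorem dsum_two {n : ℕ} {W : ℤ × ℤ → ℝ} (hout : ∀ e, e ∉ board n → W e = 0) (S : ℤ) :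
    dsum n W 2 S = ∑ i ∈ Finset.Ico (0 : ℤ) n, W (i, S - i) := by
  unfold dsum
  rw [Finset.sum_filter]
  unfold board
  rw [Finset.sum_product]
  refine Finset.sum_congr rfl fun i hi => ?_
  have h1 : ∀ y ∈ Finset.Ico (0 : ℤ) n, (if Pool.Agent.NQ.ln 2 (i, y) = S then W (i, y) else 0) =
      if y = S - i then W (i, y) else 0 := by
    intro y _
    have h2 : (Pool.Agent.NQ.ln 2 (i, y) = S) ↔ (y = S - i) := by
      change (i + y = S) ↔ (y = S - i)
      omega
    simp only [h2]
  rw [Finset.sum_congr rfl h1, Finset.sum_ite_eq']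
  split_ifs with h
  · rfl
  · rw [hout]
    intro hb
    rw [Pool.Agent.NQ.mem_board] at hb
    exact h (Finset.mem_Ico.2 ⟨hb.2.1, hb.2.2⟩)

private theorem cell_bound {n : ℕ} (hn : 1 ≤ n) {g : ℝ → ℝ} {i : ℤ} {c D : ℝ}
    (hg : Integrable g) (hD : ∀ x, ⌊(n : ℝ) * x⌋ = i → |g x - n * c| ≤ D) :
    |(∫ x in {x : ℝ | ⌊n * x⌋ = i}, g x) - c| ≤ D / n := by
  obtain ⟨hm, hv⟩ := cel_one_vol hn i
  have hN : (0 : ℝ) < n := by exact_mod_cast hn
  have hreal : volume.real {x : ℝ | ⌊n * x⌋ = i} = 1 / n := by
    rw [Measure.real, hv, ENNReal.toReal_ofReal (by positivity)]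
  have h1 : ∫ x in {x : ℝ | ⌊n * x⌋ = i}, (n * c : ℝ) = c := by
    rw [setIntegral_const, hreal, smul_eq_mul]
    field_simp
  have h2 : (∫ x in {x : ℝ | ⌊n * x⌋ = i}, g x) - c =
      ∫ x in {x : ℝ | ⌊n * x⌋ = i}, (g x - n * c) := by
    haveI : IsFiniteMeasure (volume.restrict {x : ℝ | ⌊n * x⌋ = i}) :=
      ⟨by rw [Measure.restrict_apply_univ, hv]; exact ENNReal.ofReal_lt_top⟩
    rw [integral_sub hg.integrableOn (integrable_const _), h1]
  rw [h2]
  have h3 := norm_setIntegral_le_of_norm_le_const (μ := volume) (s := {x : ℝ | ⌊n * x⌋ = i})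
    (f := fun x => g x - n * c) (C := D) (by rw [hv]; exact ENNReal.ofReal_lt_top)
    (fun x hx => hD x hx)
  rw [Real.norm_eq_abs, hreal] at h3
  calc _ ≤ D * (1 / n) := h3
    _ = D / n := by ring

theorem v_ds {L C : ℝ} {n0 : ℕ} {w : ℝ × ℝ → ℝ} (h : Lm L C n0 w) {n : ℕ} (hn : n0 ≤ n) {W : ℤ × ℤ → ℝ} {A B : ℤ → ℝ}
    (hW : Nr L C n w W A B) (s : ℝ) : |DS w s - dsum n W 2 ⌊n * s⌋| ≤ (2 * C + 4 * L) / Real.sqrt n := by
  have hn1 : 1 ≤ n := by have := h.n1; omega
  have hN : (0 : ℝ) < n := by exact_mod_cast hn1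
  have hN1 : (1 : ℝ) ≤ n := by exact_mod_cast hn1
  have hL := h.L1
  have hC := h.C1
  have hsq : (0 : ℝ) < Real.sqrt n := Real.sqrt_pos.2 hN
  have hsq1 : (1 : ℝ) ≤ Real.sqrt n := Real.one_le_sqrt.2 hN1
  have hss : Real.sqrt n * Real.sqrt n = n := Real.mul_self_sqrt hN.le
  have hsn : Real.sqrt n ≤ n := by nlinarith
  have hout := hW.rf.adm.out
  set S := ⌊(n : ℝ) * s⌋ with hS
  set g : ℝ → ℝ := fun x => w (x, s - x) with hg
  have hgi : Integrable g := (ql_sec hL h.ql).2.2.1 s
  have hS1 : (S : ℝ) ≤ n * s := Int.floor_le _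
  have hS2 : (n : ℝ) * s < S + 1 := Int.lt_floor_add_one _
  -- the integral as a sum over the cells
  have e1 : DS w s = ∑ i ∈ Finset.Ico (0 : ℤ) n, ∫ x in {x : ℝ | ⌊n * x⌋ = i}, g x := by
    have h1 : DS w s = ∫ x in Set.Ico (0 : ℝ) 1, g x := by
      unfold DS
      rw [setIntegral_eq_integral_of_forall_compl_eq_zero]
      intro x hx
      apply h.ql.out
      intro hp
      exact hx hp.1
    have h2 := cel_one (f := g) (a := 0) (b := 1) (by norm_num) hgi.integrableOn hn1
    rw [Int.cast_zero, Int.cast_one, mul_zero, mul_one] at h2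
    rw [h1, h2]
  rw [e1, dsum_two hout S, ← Finset.sum_sub_distrib]
  have key : ∀ i ∈ Finset.Ico (0 : ℤ) n,
      |(∫ x in {x : ℝ | ⌊n * x⌋ = i}, g x) - W (i, S - i)| ≤
        2 * C / Real.sqrt n / n + (if i = S then L / n else 0) +
          (if i = S - n then L / n else 0) := by
    intro i hi
    rw [Finset.mem_Ico] at hi
    have hx : ∀ x : ℝ, ⌊(n : ℝ) * x⌋ = i → (i : ℝ) ≤ n * x ∧ (n : ℝ) * x < i + 1 ∧
        0 ≤ x ∧ x < 1 := by
      intro x hx
      have h1 := Int.floor_eq_iff.1 hx
      have h2 : (0 : ℝ) ≤ i := by exact_mod_cast hi.1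
      have h3 : (i : ℝ) + 1 ≤ n := by exact_mod_cast hi.2
      refine ⟨h1.1, h1.2, ?_, ?_⟩
      · by_contra hc
        push Not at hc
        nlinarith
      · by_contra hc
        push Not at hc
        nlinarith
    have hb0 : 0 ≤ 2 * C / Real.sqrt n / n := by positivity
    have hi1 : 0 ≤ (if i = S then L / n else (0 : ℝ)) := by split_ifs <;> positivity
    have hi2 : 0 ≤ (if i = S - n then L / n else (0 : ℝ)) := by split_ifs <;> positivity
    rcases lt_or_ge (S - i) 0 with hc | hc
    · -- both vanish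
      have h1 : W (i, S - i) = 0 := by
        apply hout
        intro hb
        rw [Pool.Agent.NQ.mem_board] at hb
        have := hb.2.1
        simp only at this
        omega
      have h2 := cell_bound (g := g) (i := i) (c := W (i, S - i)) (D := 0) hn1 hgi (by
        intro x hxi
        obtain ⟨hx1, hx2, hx3, hx4⟩ := hx x hxi
        have h3 : (S : ℝ) - i + 1 ≤ 0 := by
          have : S - i + 1 ≤ 0 := by omega
          exact_mod_cast this
        have h4 : s - x < 0 := by
          by_contra hcc
          push Not at hcc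
          nlinarith
        have h5 : g x = 0 := by
          apply h.ql.out
          intro hp
          have := hp.2.1
          simp only at this
          linarith
        rw [h5, h1]
        simp)
      rw [zero_div] at h2
      linarith
    rcases lt_or_ge (n : ℤ) (S - i) with hc' | hc'
    · have h1 : W (i, S - i) = 0 := by
        apply hout
        intro hb
        rw [Pool.Agent.NQ.mem_board] at hb
        have := hb.2.2
        simp only at this
        omega
      have h2 := cell_bound (g := g) (i := i) (c := W (i, S - i)) (D := 0) hn1 hgi (by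
        intro x hxi
        obtain ⟨hx1, hx2, hx3, hx4⟩ := hx x hxi
        have h3 : (n : ℝ) + 1 ≤ S - i := by
          have : (n : ℤ) + 1 ≤ S - i := by omega
          exact_mod_cast this
        have h4 : 1 ≤ s - x := by
          by_contra hcc
          push Not at hcc
          nlinarith
        have h5 : g x = 0 := by
          apply h.ql.out
          intro hp
          have := hp.2.2
          simp only at this
          linarith
        rw [h5, h1]
        simp)
      rw [zero_div] at h2
      linarith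
    by_cases hb : S - i = 0 ∨ S - i = n
    · -- boundary cells
      have hif : L / n ≤ (if i = S then L / n else (0 : ℝ)) +
          (if i = S - n then L / n else (0 : ℝ)) := by
        rcases hb with hb | hb
        · rw [if_pos (by omega : i = S)]
          linarith
        · rw [if_pos (by omega : i = S - n)]
          linarith
      have hLn : (0 : ℝ) ≤ L / n := by positivity
      have hW0 : 0 ≤ W (i, S - i) ∧ W (i, S - i) ≤ L / n := by
        refine ⟨hW.rf.adm.nn _, ?_⟩
        by_cases hbb : (i, S - i) ∈ board n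
        · exact hW.rf.bd.hi _ hbb
        · rw [hout _ hbb]; exact hLn
      have hI : 0 ≤ (∫ x in {x : ℝ | ⌊n * x⌋ = i}, g x) ∧
          (∫ x in {x : ℝ | ⌊n * x⌋ = i}, g x) ≤ L / n := by
        constructor
        · exact integral_nonneg fun x => (ql_bd hL h.ql _).1
        · have h2 := cell_bound (g := g) (i := i) (c := 0) (D := L) hn1 hgi (by
            intro x _
            rw [mul_zero, sub_zero, abs_of_nonneg (ql_bd hL h.ql _).1]
            exact (ql_bd hL h.ql _).2)
          rw [sub_zero] at h2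
          exact (le_abs_self _).trans h2
      have h3 : |(∫ x in {x : ℝ | ⌊n * x⌋ = i}, g x) - W (i, S - i)| ≤ L / n := by
        rw [abs_le]
        constructor <;> linarith [hI.1, hI.2, hW0.1, hW0.2]
      linarith
    · push Not at hb
      have hbd : (i, S - i) ∈ board n := by
        rw [Pool.Agent.NQ.mem_board]
        refine ⟨⟨hi.1, hi.2⟩, ?_, ?_⟩ <;> simp only <;> omega
      have h2 := cell_bound (g := g) (i := i) (c := W (i, S - i)) (D := 2 * C / Real.sqrt n)
        hn1 hgi (by
        intro x hxi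
        obtain ⟨hx1, hx2, hx3, hx4⟩ := hx x hxi
        set j := ⌊(n : ℝ) * (s - x)⌋ with hj
        have hj1 : (j : ℝ) ≤ n * (s - x) := Int.floor_le _
        have hj2 : (n : ℝ) * (s - x) < j + 1 := Int.lt_floor_add_one _
        have hj3 : j ≤ S - i := by
          have : (j : ℝ) < S - i + 1 := by nlinarith
          have : j < S - i + 1 := by exact_mod_cast this
          omega
        have hj4 : S - i - 1 ≤ j := by
          have : (S : ℝ) - i - 1 < j + 1 := by nlinarith
          have : S - i - 1 < j + 1 := by exact_mod_cast this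
          omega
        have hj5 : 0 ≤ j := by omega
        have hj6 : j < n := by omega
        have hy0 : 0 ≤ s - x := by
          by_contra hcc
          push Not at hcc
          have : (0 : ℝ) ≤ j := by exact_mod_cast hj5
          nlinarith
        have hy1 : s - x < 1 := by
          by_contra hcc
          push Not at hcc
          have : (j : ℝ) + 1 ≤ n := by exact_mod_cast hj6
          nlinarith
        have hp : (x, s - x) ∈ SQ := ⟨⟨hx3, hx4⟩, ⟨hy0, hy1⟩⟩
        have h3 := hW.nr _ hp
        simp only at h3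
        rw [hxi, ← hj] at h3
        have hbj : (i, j) ∈ board n := by
          rw [Pool.Agent.NQ.mem_board]
          exact ⟨⟨hi.1, hi.2⟩, hj5, hj6⟩
        have h4 := hW.wl (i, j) hbj (i, S - i) hbd
        simp only [sub_self, abs_zero, zero_add] at h4
        have h5 : ((|j - (S - i)| : ℤ) : ℝ) ≤ 1 := by
          have : |j - (S - i)| ≤ 1 := by
            rw [abs_le]; constructor <;> omega
          exact_mod_cast this
        have h6 : |W (i, j) - W (i, S - i)| ≤ C / (n : ℝ) ^ 2 := by
          refine h4.trans ?_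
          apply div_le_div_of_nonneg_right _ (by positivity)
          nlinarith
        have h7 : |n * W (i, j) - n * W (i, S - i)| ≤ C / Real.sqrt n := by
          rw [← mul_sub, abs_mul, abs_of_pos hN]
          calc (n : ℝ) * |W (i, j) - W (i, S - i)| ≤ n * (C / (n : ℝ) ^ 2) :=
                mul_le_mul_of_nonneg_left h6 hN.le
            _ = C / n := by field_simp
            _ ≤ C / Real.sqrt n := div_le_div_of_nonneg_left (by linarith) hsq hsn
        have h8 : |g x - n * W (i, j)| ≤ C / Real.sqrt n := by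
          rw [abs_sub_comm]; exact h3
        calc |g x - n * W (i, S - i)| = |(g x - n * W (i, j)) + (n * W (i, j) - n * W (i, S - i))| := by
              congr 1; ring
          _ ≤ |g x - n * W (i, j)| + |n * W (i, j) - n * W (i, S - i)| := abs_add_le _ _
          _ ≤ C / Real.sqrt n + C / Real.sqrt n := add_le_add h8 h7
          _ = 2 * C / Real.sqrt n := by ring)
      linarith
  calc |∑ i ∈ Finset.Ico (0 : ℤ) n, ((∫ x in {x : ℝ | ⌊n * x⌋ = i}, g x) - W (i, S - i))|
      ≤ ∑ i ∈ Finset.Ico (0 : ℤ) n, |(∫ x in {x : ℝ | ⌊n * x⌋ = i}, g x) - W (i, S - i)| :=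
        Finset.abs_sum_le_sum_abs _ _
    _ ≤ ∑ i ∈ Finset.Ico (0 : ℤ) n, (2 * C / Real.sqrt n / n + (if i = S then L / n else 0) +
          (if i = S - n then L / n else 0)) := Finset.sum_le_sum key
    _ ≤ 2 * C / Real.sqrt n + L / n + L / n := by
        rw [Finset.sum_add_distrib, Finset.sum_add_distrib, Finset.sum_const, Int.card_Ico,
          Finset.sum_ite_eq', Finset.sum_ite_eq', sub_zero, Int.toNat_natCast, nsmul_eq_mul]
        have h1 : (n : ℝ) * (2 * C / Real.sqrt n / n) = 2 * C / Real.sqrt n := by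
          field_simp
        have hLn : (0 : ℝ) ≤ L / n := by positivity
        rw [h1]
        split_ifs <;> linarith
    _ ≤ (2 * C + 4 * L) / Real.sqrt n := by
        have h1 : L / (n : ℝ) ≤ L / Real.sqrt n :=
          div_le_div_of_nonneg_left (by linarith) hsq hsn
        have h2 : (0 : ℝ) ≤ L / Real.sqrt n := by positivity
        have h3 : (2 * C + 4 * L) / Real.sqrt n = 2 * C / Real.sqrt n + 4 * (L / Real.sqrt n) := by
          ring
        rw [h3]
        linarith

end Pool.Agent.NQF
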