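import Pool.Agent.NQF.VDefs
import Pool.Agent.NQF.VDgS
import Pool.Agent.NQF.VDgD
import Pool.Agent.NQR.PMax

/-!
# NQF-VDb: bounds of the diagonal densities

PLAN. `0 ≤ DS w`: integral of a nonnegative function (`ql_bd`). Upper bound: for `n ≥ n0` a maximiser `W` (`NQR.exists_opt`), `Nr` from `h.nr`; `dsum n W 2 S = 1 - hS n W S ≤ 1 - 1/L` (`hW.rf.bd.sd`), `v_ds`, `n → ∞`. Same for `DD`.
-/

set_option autoImplicit false

open Finset MeasureTheory

namespace Pool.Agent.NQF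

open Pool.Agent.NQ (board dsum F Ent Dg phi ln Q Qset QS NonAtt bern)
open Pool.Agent.NQR (Adm Opt Bd Rf hS hD hh InR)
open Pool.Agent.NQL

private theorem lim_le {x K b : ℝ} {n0 : ℕ} (h : ∀ n : ℕ, n0 ≤ n → x ≤ b + K / Real.sqrt n) : x ≤ b := by
  have h1 : Filter.Tendsto (fun n : ℕ => b + K / Real.sqrt n) Filter.atTop (nhds (b + 0)) := by
    refine Filter.Tendsto.const_add b ?_
    have h2 : Filter.Tendsto (fun n : ℕ => Real.sqrt n) Filter.atTop Filter.atTop :=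
      Real.tendsto_sqrt_atTop.comp tendsto_natCast_atTop_atTop
    exact h2.const_div_atTop K
  rw [add_zero] at h1
  exact ge_of_tendsto h1 (Filter.eventually_atTop.2 ⟨n0, fun n hn => h n hn⟩)

theorem v_db {L C : ℝ} {n0 : ℕ} {w : ℝ × ℝ → ℝ} (h : Lm L C n0 w) (s : ℝ) :
    (0 ≤ DS w s ∧ DS w s ≤ 1 - 1 / L) ∧ 0 ≤ DD w s ∧ DD w s ≤ 1 - 1 / L := by
  have key : ∀ n : ℕ, n0 ≤ n → DS w s ≤ 1 - 1 / L + (2 * C + 4 * L) / Real.sqrt n ∧
      DD w s ≤ 1 - 1 / L + (2 * C + 4 * L) / Real.sqrt n := by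
    intro n hn
    have hn0 : 0 < n := lt_of_lt_of_le (by have := h.n1; omega) hn
    obtain ⟨W, hW⟩ := Pool.Agent.NQR.exists_opt hn0
    obtain ⟨A, B, hN⟩ := h.nr n hn W hW
    have h1 := (abs_le.1 (v_ds h hn hN s)).2
    have h2 := (abs_le.1 (v_dd h hn hN s)).2
    have h3 := hN.rf.bd.sd ⌊n * s⌋
    have h4 := hN.rf.bd.dd ⌊n * s⌋
    unfold hS at h3
    unfold hD at h4
    exact ⟨by linarith, by linarith⟩
  refine ⟨⟨integral_nonneg fun x => (ql_bd h.L1 h.ql _).1, lim_le fun n hn => (key n hn).1⟩,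
    integral_nonneg fun x => (ql_bd h.L1 h.ql _).1, lim_le fun n hn => (key n hn).2⟩

end Pool.Agent.NQF
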