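import Pool.Agent.NQF.FDefs

/-!
# NQF, block V: the constant as an optimal value, definitions

Blueprint: /team-store/nqv.md. The limit of the maximisers `W_n` is a density `w` on the unit square `[0,1)²` (a queenon), the
maximiser of the continuous functional `Phi`; the constant of the asymptotic formula is `log (4 π)/2` + the supremum of `Kv w m X` over
`m ≥ 1` and positive definite `X`.
-/

set_option autoImplicit false

open Finset MeasureTheory

namespace Pool.Agent.NQF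

open Pool.Agent.NQ (board dsum F Ent Dg phi ln Q Qset QS NonAtt bern)
open Pool.Agent.NQR (Adm Opt Bd Rf hS hD hh InR)
open Pool.Agent.NQL

/-! ### The continuous functional -/

/-- the unit square `[0,1)²` -/
def SQ : Set (ℝ × ℝ) := Set.Ico 0 1 ×ˢ Set.Ico 0 1

/-- density of the sum diagonal `x + y = s` -/
noncomputable def DS (v : ℝ × ℝ → ℝ) (s : ℝ) : ℝ := ∫ x, v (x, s - x)

/-- density of the difference diagonal `x - y = d` -/
noncomputable def DD (v : ℝ × ℝ → ℝ) (d : ℝ) : ℝ := ∫ x, v (x, x - d)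

/-- densities on the unit square with marginals one whose diagonal densities are at most one -/
structure Queenon (v : ℝ × ℝ → ℝ) : Prop where
  meas : Measurable v
  nn : ∀ p, 0 ≤ v p
  out : ∀ p, p ∉ SQ → v p = 0
  int : Integrable v
  row : ∀ᵐ x : ℝ, x ∈ Set.Ico (0 : ℝ) 1 → ∫ y, v (x, y) = 1
  col : ∀ᵐ y : ℝ, y ∈ Set.Ico (0 : ℝ) 1 → ∫ x, v (x, y) = 1
  sd : ∀ᵐ s : ℝ, DS v s ≤ 1
  dd : ∀ᵐ d : ℝ, DD v d ≤ 1

/-- the functional -/
noncomputable def Phi (v : ℝ × ℝ → ℝ) : ℝ :=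
  -(∫ p, v p * Real.log (v p)) - (∫ s, phi (DS v s)) - ∫ d, phi (DD v d)

/-! ### The second problem -/

/-- the numbers of the four lines of the point `p` of parity `e`, board of size `m` -/
noncomputable def lnr (m : ℕ) (e : ℤ) (p : ℝ × ℝ) (k : Fin 4) : ℤ :=
  ![⌊m * p.1⌋, ⌊m * p.2⌋, 2 * ⌊m * ((p.1 + p.2) / 2)⌋ + e, 2 * ⌊m * ((p.1 - p.2) / 2)⌋ + e] k

/-- the points of parity `e` on the line `l` -/
def strip (m : ℕ) (e : ℤ) (l : Li) : Set (ℝ × ℝ) := {p | lnr m e p l.1 = l.2}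

/-- mass of `w` on two lines, mean over the two parities -/
noncomputable def mass (m : ℕ) (w : ℝ × ℝ → ℝ) (l l' : Li) : ℝ :=
  ((∫ p in strip m 0 l ∩ strip m 0 l', w p) + ∫ p in strip m 1 l ∩ strip m 1 l', w p) / 2

/-- the matrix of the energy -/
noncomputable def AW (w : ℝ × ℝ → ℝ) (m : ℕ) (l l' : Li) : ℝ :=
  (if l = l' then 1 else m * mass m w l l') + ga l * ga l' / (2 * m)

/-- entropy minus energy of the Gaussian vector on the lines `JJ m` with covariance matrix `X` -/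
noncomputable def Kv (w : ℝ × ℝ → ℝ) (m : ℕ) (X : Matrix (JJ m) (JJ m) ℝ) : ℝ :=
  Real.log X.det / 2 - (Matrix.of (fun i j : JJ m => AW w m i j) * X).trace / 2 + 5 * m - 3 / 2 * ∫ p, w p ^ 2

/-! ### Properties of the limit density -/

/-- regular densities on the unit square -/
structure QL (L C : ℝ) (w : ℝ × ℝ → ℝ) : Prop where
  out : ∀ p, p ∉ SQ → w p = 0
  lo : ∀ p ∈ SQ, 1 / L ≤ w p
  hi : ∀ p ∈ SQ, w p ≤ L
  lip : ∀ p ∈ SQ, ∀ q ∈ SQ, |w p - w q| ≤ C * (|p.1 - q.1| + |p.2 - q.2|)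

/-- the weights `W` on the board of size `n` are close to the density `w` -/
structure Nr (L C : ℝ) (n : ℕ) (w : ℝ × ℝ → ℝ) (W : ℤ × ℤ → ℝ) (A B : ℤ → ℝ) : Prop where
  rf : Rf L n W A B
  lp : Lp C n W A B
  wl : ∀ e ∈ board n, ∀ f ∈ board n, |W e - W f| ≤ C * ((|e.1 - f.1| + |e.2 - f.2| : ℤ) : ℝ) / (n : ℝ) ^ 2
  nr : ∀ p ∈ SQ, |n * W (⌊n * p.1⌋, ⌊n * p.2⌋) - w p| ≤ C / Real.sqrt n

/-- `w` is the limit of the maximisers -/
structure Lm (L C : ℝ) (n0 : ℕ) (w : ℝ × ℝ → ℝ) : Prop where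
  L1 : 1 ≤ L
  C1 : 1 ≤ C
  n1 : 1000 ≤ n0
  ql : QL L C w
  nr : ∀ n : ℕ, n0 ≤ n → ∀ W : ℤ × ℤ → ℝ, Opt n W → ∃ A B : ℤ → ℝ, Nr L C n w W A B

end Pool.Agent.NQF
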