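import Pool.Agent.NQF.VDefs
import Pool.Agent.NQ.APhi

/-!
# NQF-VPhi: inequalities for entropy and phi

PLAN. (1) `v = 0`: `0 ≤ w`. `v > 0`: `log (w/v) ≤ w/v - 1`, times `v`; equality only if `w/v = 1` (`Real.log_lt_sub_one_of_pos`). (2) `phi u = u + (1-u) log (1-u)`; with `s = 1-u > 0`, `r = 1-t ≥ 0`:
`-t - r log r ≤ -u - s log s + log s (t - u)`, i.e. `r log s - r log r ≤ s - r` (as `t - u = s - r`): this is (1) with `v = r`, `w = s`. (Model: `pkl_phi` in NQR/PKl.lean.)
(3) on `[0,1]`: `phi 1 = 1` (`Real.log 0 = 0`); `phi ≥ 0` from (2) with `u = 0`... (`-phi t ≤ 0`: `u = 0`: `-phi 0 + 0`), `phi t ≤ t ≤ 1` as `(1-t) log (1-t) ≤ 0`.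
(4) by (2) twice: `phi t - phi u ≤ -log (1-t) (t-u)` and `phi t - phi u ≥ -log (1-u) (t - u)`, with `0 ≤ -log (1-t), -log (1-u) ≤ -log r`.
-/

set_option autoImplicit false

open Finset MeasureTheory

namespace Pool.Agent.NQF

open Pool.Agent.NQ (board dsum F Ent Dg phi ln Q Qset QS NonAtt bern)
open Pool.Agent.NQR (Adm Opt Bd Rf hS hD hh InR)
open Pool.Agent.NQL

theorem ent_tan {v w : ℝ} (hv : 0 ≤ v) (hw : 0 < w) : -(v * Real.log v) ≤ -(v * Real.log w) + w - v := by
  rcases hv.eq_or_lt with h | h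
  · rw [← h]
    simp
    exact hw.le
  · have h1 : Real.log w - Real.log v ≤ w / v - 1 := by
      rw [← Real.log_div hw.ne' h.ne']
      exact Real.log_le_sub_one_of_pos (div_pos hw h)
    have h2 : v * (Real.log w - Real.log v) ≤ v * (w / v - 1) := mul_le_mul_of_nonneg_left h1 hv
    have h3 : v * (w / v - 1) = w - v := by
      field_simp
    linarith

theorem ent_eq {v w : ℝ} (hv : 0 ≤ v) (hw : 0 < w) (h : -(v * Real.log v) = -(v * Real.log w) + w - v) : v = w := by
  rcases hv.eq_or_lt with h0 | h0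
  · rw [← h0] at h
    exfalso
    simp at h
    linarith
  · by_contra hne
    have h4 : w / v ≠ 1 := by
      intro h5
      rw [div_eq_one_iff_eq h0.ne'] at h5
      exact hne h5.symm
    have h1 : Real.log w - Real.log v < w / v - 1 := by
      rw [← Real.log_div hw.ne' h0.ne']
      exact Real.log_lt_sub_one_of_pos (div_pos hw h0) h4
    have h2 : v * (Real.log w - Real.log v) < v * (w / v - 1) := mul_lt_mul_of_pos_left h1 h0
    have h3 : v * (w / v - 1) = w - v := by
      field_simp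
    linarith

theorem phi_tan {t u : ℝ} (hu : u < 1) (ht : t ≤ 1) : -phi t ≤ -phi u + Real.log (1 - u) * (t - u) := by
  have h := ent_tan (v := 1 - t) (w := 1 - u) (by linarith) (by linarith)
  unfold phi
  nlinarith [h]

theorem phi_bd {t : ℝ} (h0 : 0 ≤ t) (h1 : t ≤ 1) : 0 ≤ phi t ∧ phi t ≤ 1 :=
  ⟨Pool.Agent.NQ.phi_nonneg h0 h1, Pool.Agent.NQ.phi_le_one h0 h1⟩

theorem phi_lip {r t u : ℝ} (hr : 0 < r) (h0 : 0 ≤ t) (h1 : t ≤ 1 - r) (h2 : 0 ≤ u) (h3 : u ≤ 1 - r) :
    |phi t - phi u| ≤ -Real.log r * |t - u| := by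
  have a1 := phi_tan (t := t) (u := u) (by linarith) (by linarith)
  have a2 := phi_tan (t := u) (u := t) (by linarith) (by linarith)
  have b1 : Real.log r ≤ Real.log (1 - u) := Real.log_le_log hr (by linarith)
  have b2 : Real.log r ≤ Real.log (1 - t) := Real.log_le_log hr (by linarith)
  have c1 : Real.log (1 - u) ≤ 0 := Real.log_nonpos (by linarith) (by linarith)
  have c2 : Real.log (1 - t) ≤ 0 := Real.log_nonpos (by linarith) (by linarith)
  have d1 : |Real.log (1 - u) * (t - u)| ≤ -Real.log r * |t - u| := by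
    rw [abs_mul, abs_of_nonpos c1]
    exact mul_le_mul_of_nonneg_right (by linarith) (abs_nonneg _)
  have d2 : |Real.log (1 - t) * (u - t)| ≤ -Real.log r * |t - u| := by
    rw [abs_mul, abs_of_nonpos c2, abs_sub_comm u t]
    exact mul_le_mul_of_nonneg_right (by linarith) (abs_nonneg _)
  rw [abs_le] at d1 d2 ⊢
  constructor <;> linarith [d1.1, d1.2, d2.1, d2.2]

theorem phi_meas : Measurable phi := by
  unfold phi
  exact measurable_id.add ((measurable_const.sub measurable_id).mul
    (Real.measurable_log.comp (measurable_const.sub measurable_id)))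

end Pool.Agent.NQF
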