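import Pool.Agent.NQF.VDefs
import Pool.Agent.NQF.VDgS
import Pool.Agent.NQF.VDgD
import Pool.Agent.NQF.VDb
import Pool.Agent.NQF.VPhi
import Pool.Agent.NQF.VCel

/-!
# NQF-VDgv: the diagonal part of the functional

PLAN. `∫ s, phi (DS w s) = ∫ s in [0,2), ..` (`ql_ds`: zero outside, `phi 0 = 0`) `= ∑_{S ∈ [0,2n)} ∫_{cell S} phi (DS w s)` (`cel_one`, `a = 0`, `b = 2`), on the cell `⌊n s⌋ = S`: `|phi (DS w s) - phi (dsum n W 2 S)| ≤ log L (2 C + 4 L)/√n`
(`phi_lip` with `r = 1/L`, `v_ds`, `v_db`; `0 ≤ dsum ≤ 1 - 1/L`: `hW.rf.bd.sd`, `adm.nn`), cell volume `1/n`, `2 n` cells. Difference diagonals: `[-1,1)`, cells `-n ≤ D < n` (`a = -1`, `b = 1`), `Ioo (-n) n` in `Dg`: the extra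
term `D = -n` is `phi 0 = 0` (`dsum n W 3 (-n) = 0`: no square of the board).
-/

set_option autoImplicit false

open Finset MeasureTheory

namespace Pool.Agent.NQF

open Pool.Agent.NQ (board dsum F Ent Dg phi ln Q Qset QS NonAtt bern)
open Pool.Agent.NQR (Adm Opt Bd Rf hS hD hh InR)
open Pool.Agent.NQL

private theorem vg_gen {f : ℝ → ℝ} {g : ℤ → ℝ} {n : ℕ} (hn : 1 ≤ n) {a b : ℤ} (hab : a ≤ b)
    (hf : IntegrableOn f (Set.Ico (a : ℝ) b)) (h0 : ∀ s, s ∉ Set.Ico (a : ℝ) b → f s = 0) {K : ℝ}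
    (hK : ∀ s, |f s - g ⌊n * s⌋| ≤ K) :
    |(∑ i ∈ Finset.Ico (n * a) (n * b), g i) / n - ∫ s, f s| ≤ (b - a) * K := by
  have hn0 : (0 : ℝ) < n := by exact_mod_cast hn
  have h1 : ∫ s, f s = ∫ s in Set.Ico (a : ℝ) b, f s :=
    (setIntegral_eq_integral_of_forall_compl_eq_zero h0).symm
  have hsub : ∀ i ∈ Finset.Ico ((n : ℤ) * a) (n * b), {x : ℝ | ⌊n * x⌋ = i} ⊆ Set.Ico (a : ℝ) b := by
    intro i hi x hx
    have hx' : ⌊n * x⌋ = i := hx
    rw [Finset.mem_Ico] at hi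
    rw [← hx'] at hi
    have h2 := Int.le_floor.1 hi.1
    have h3 := Int.floor_lt.1 hi.2
    push_cast at h2 h3
    exact ⟨le_of_mul_le_mul_left h2 hn0, lt_of_mul_lt_mul_left h3 hn0.le⟩
  have h2 : ∀ i ∈ Finset.Ico ((n : ℤ) * a) (n * b), |g i / n - ∫ x in {x : ℝ | ⌊n * x⌋ = i}, f x| ≤ K / n := by
    intro i hi
    obtain ⟨hm, hv⟩ := cel_one_vol hn i
    have hv' : volume.real {x : ℝ | ⌊n * x⌋ = i} = 1 / n := by
      show (volume {x : ℝ | ⌊n * x⌋ = i}).toReal = _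
      rw [hv, ENNReal.toReal_ofReal (by positivity)]
    have hfin : volume {x : ℝ | ⌊n * x⌋ = i} < ⊤ := by
      rw [hv]
      exact ENNReal.ofReal_lt_top
    have h3 : ∫ x in {x : ℝ | ⌊n * x⌋ = i}, g i = g i / n := by
      rw [setIntegral_const, hv', smul_eq_mul]
      ring
    have hfi : IntegrableOn f {x : ℝ | ⌊n * x⌋ = i} := hf.mono_set (hsub i hi)
    have hgi : IntegrableOn (fun _ : ℝ => g i) {x : ℝ | ⌊n * x⌋ = i} := integrableOn_const (hs := hfin.ne)
    rw [← h3, ← integral_sub hgi hfi]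
    have h4 := norm_setIntegral_le_of_norm_le_const (μ := volume) (f := fun x => g i - f x) (C := K) hfin
      (fun x hx => by
        have hx' : ⌊n * x⌋ = i := hx
        rw [Real.norm_eq_abs, abs_sub_comm, ← hx']
        exact hK x)
    rw [hv', Real.norm_eq_abs] at h4
    calc _ ≤ K * (1 / n) := h4
      _ = K / n := by ring
  rw [h1, cel_one hab hf hn, Finset.sum_div, ← Finset.sum_sub_distrib]
  refine (Finset.abs_sum_le_sum_abs _ _).trans ?_
  refine (Finset.sum_le_sum h2).trans (le_of_eq ?_)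
  rw [Finset.sum_const, Int.card_Ico, nsmul_eq_mul]
  have h5 : (((n : ℤ) * b - n * a).toNat : ℝ) = n * (b - a) := by
    have h6 : (((n : ℤ) * b - n * a).toNat : ℤ) = n * (b - a) := by
      rw [Int.toNat_of_nonneg]
      · ring
      · have : 0 ≤ (n : ℤ) * (b - a) := mul_nonneg (by positivity) (by linarith)
        linarith
    have h7 : ((((n : ℤ) * b - n * a).toNat : ℤ) : ℝ) = ((n * (b - a) : ℤ) : ℝ) := by rw [h6]
    push_cast at h7
    exact_mod_cast h7
  rw [h5]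
  field_simp

private theorem vg_phi0 : phi 0 = 0 := by
  unfold phi
  simp

private theorem vg_int {F : ℝ → ℝ} (hF : Measurable F) {L : ℝ} (hL : 1 ≤ L)
    (hb : ∀ s, 0 ≤ F s ∧ F s ≤ 1 - 1 / L) (a b : ℝ) : IntegrableOn (fun s => phi (F s)) (Set.Ico a b) := by
  refine Measure.integrableOn_of_bounded (M := 1) ?_ ?_ ?_
  · rw [Real.volume_Ico]
    exact ENNReal.ofReal_ne_top
  · exact (phi_meas.comp hF).aestronglyMeasurable
  · refine Filter.Eventually.of_forall fun s => ?_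
    have h1 := hb s
    have h2 : 0 ≤ 1 / L := by positivity
    have h3 := phi_bd h1.1 (by linarith)
    rw [Real.norm_eq_abs, abs_of_nonneg h3.1]
    exact h3.2

theorem v_dg {L C : ℝ} {n0 : ℕ} {w : ℝ × ℝ → ℝ} (h : Lm L C n0 w) : ∃ C1 : ℝ, 0 ≤ C1 ∧ ∀ n : ℕ, n0 ≤ n →
    ∀ (W : ℤ × ℤ → ℝ) (A B : ℤ → ℝ), Nr L C n w W A B →
      |Dg n W / n - (∫ s, phi (DS w s)) - ∫ d, phi (DD w d)| ≤ C1 / Real.sqrt n := by
  have hL := h.L1
  have hC := h.C1
  have hlog : 0 ≤ Real.log L := Real.log_nonneg hL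
  refine ⟨4 * (Real.log L * (2 * C + 4 * L)), by positivity, ?_⟩
  intro n hn W A B hW
  have hn1 : 1 ≤ n := by
    have := h.n1
    omega
  have hn0 : (0 : ℝ) < n := by exact_mod_cast hn1
  obtain ⟨m1, m2, z1, z2⟩ := ql_ds h.ql
  have hr : (0 : ℝ) < 1 / L := by positivity
  have hlr : -Real.log (1 / L) = Real.log L := by
    rw [Real.log_div one_ne_zero (by linarith), Real.log_one]
    ring
  have nnk : ∀ k s, 0 ≤ dsum n W k s := fun k s => by
    unfold dsum
    exact Finset.sum_nonneg fun e _ => hW.rf.adm.nn e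
  have u2 : ∀ s, dsum n W 2 s ≤ 1 - 1 / L := fun s => by
    have := hW.rf.bd.sd s
    unfold hS at this
    linarith
  have u3 : ∀ s, dsum n W 3 s ≤ 1 - 1 / L := fun s => by
    have := hW.rf.bd.dd s
    unfold hD at this
    linarith
  have k1 : ∀ s : ℝ, |phi (DS w s) - phi (dsum n W 2 ⌊n * s⌋)| ≤ Real.log L * ((2 * C + 4 * L) / Real.sqrt n) := by
    intro s
    obtain ⟨⟨b1, b2⟩, -⟩ := v_db h s
    refine (phi_lip hr b1 b2 (nnk _ _) (u2 _)).trans ?_
    rw [hlr]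
    exact mul_le_mul_of_nonneg_left (v_ds h hn hW s) hlog
  have k2 : ∀ s : ℝ, |phi (DD w s) - phi (dsum n W 3 ⌊n * s⌋)| ≤ Real.log L * ((2 * C + 4 * L) / Real.sqrt n) := by
    intro s
    obtain ⟨-, b1, b2⟩ := v_db h s
    refine (phi_lip hr b1 b2 (nnk _ _) (u3 _)).trans ?_
    rw [hlr]
    exact mul_le_mul_of_nonneg_left (v_dd h hn hW s) hlog
  have g1 := vg_gen (f := fun s => phi (DS w s)) (g := fun i => phi (dsum n W 2 i)) hn1
    (show (0 : ℤ) ≤ 2 by norm_num) (vg_int m1 hL (fun s => (v_db h s).1) _ _)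
    (fun s hs => by
      rw [z1 s ?_]
      · exact vg_phi0
      · by_contra hc
        apply hs
        push Not at hc
        push_cast
        exact hc) k1
  have g2 := vg_gen (f := fun s => phi (DD w s)) (g := fun i => phi (dsum n W 3 i)) hn1
    (show (-1 : ℤ) ≤ 1 by norm_num) (vg_int m2 hL (fun s => (v_db h s).2) _ _)
    (fun s hs => by
      by_cases hs1 : s = -1
      · rw [z2 s (Or.inl hs1.le)]
        exact vg_phi0
      rw [z2 s ?_]
      · exact vg_phi0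
      · by_contra hc
        apply hs
        push Not at hc
        push_cast
        exact ⟨hc.1.le, hc.2⟩) k2
  have e1 : Finset.Ico ((n : ℤ) * 0) (n * 2) = Finset.Ico (0 : ℤ) (2 * n) := by
    rw [mul_zero, mul_comm]
  have e2 : ∑ i ∈ Finset.Ico ((n : ℤ) * (-1)) (n * 1), phi (dsum n W 3 i) =
      ∑ s ∈ Finset.Ioo (-(n : ℤ)) n, phi (dsum n W 3 s) := by
    rw [mul_one, mul_neg, mul_one]
    have h1 : Finset.Ico (-(n : ℤ)) n = insert (-(n : ℤ)) (Finset.Ioo (-(n : ℤ)) n) :=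
      (Finset.Ioo_insert_left (by omega)).symm
    rw [h1, Finset.sum_insert Finset.left_notMem_Ioo]
    have h2 : dsum n W 3 (-(n : ℤ)) = 0 := by
      unfold dsum
      refine Finset.sum_eq_zero fun e he => ?_
      exfalso
      rw [Finset.mem_filter, Pool.Agent.NQ.mem_board] at he
      have h3 : e.1 - e.2 = -(n : ℤ) := he.2
      omega
    rw [h2, vg_phi0, zero_add]
  rw [e1] at g1
  rw [e2] at g2
  unfold Dg
  rw [add_div]
  rw [abs_le] at g1 g2 ⊢
  push_cast at g1 g2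
  have e3 : 4 * (Real.log L * (2 * C + 4 * L)) / Real.sqrt n =
      4 * (Real.log L * ((2 * C + 4 * L) / Real.sqrt n)) := by ring
  rw [e3]
  constructor
  · linarith [g1.1, g2.1]
  · linarith [g1.2, g2.2]

end Pool.Agent.NQF
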