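import Pool.Agent.NQF.VDefs
import Pool.Agent.NQF.VCau
import Pool.Agent.NQR.PMax

/-!
# NQF-VLim: the limit density
-/

set_option autoImplicit false

open Finset MeasureTheory

namespace Pool.Agent.NQF

open Pool.Agent.NQ (board dsum F Ent Dg phi ln Q Qset QS NonAtt bern)
open Pool.Agent.NQR (Adm Opt Bd Rf hS hD hh InR)
open Pool.Agent.NQL

private theorem vl_small (C : ℝ) (n0 : ℕ) {ε : ℝ} (hε : 0 < ε) :
    ∃ n : ℕ, n0 ≤ n ∧ 1 ≤ n ∧ C / Real.sqrt n ≤ ε := by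
  obtain ⟨m, hm⟩ := exists_nat_ge ((C / ε) ^ 2)
  refine ⟨max (max n0 1) m, (le_max_left _ _).trans (le_max_left _ _), (le_max_right _ _).trans (le_max_left _ _), ?_⟩
  have h1 : (1 : ℝ) ≤ ((max (max n0 1) m : ℕ) : ℝ) := by
    exact_mod_cast (le_max_right n0 1).trans (le_max_left _ _)
  have h2 : (C / ε) ^ 2 ≤ ((max (max n0 1) m : ℕ) : ℝ) := by
    refine hm.trans ?_
    exact_mod_cast le_max_right (max n0 1) m
  have h3 : C / ε ≤ Real.sqrt ((max (max n0 1) m : ℕ) : ℝ) := Real.le_sqrt_of_sq_le h2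
  have h4 : 0 < Real.sqrt ((max (max n0 1) m : ℕ) : ℝ) := Real.sqrt_pos.2 (by linarith)
  rw [div_le_iff₀ h4]
  rw [div_le_iff₀ hε] at h3
  linarith [mul_comm ε (Real.sqrt ((max (max n0 1) m : ℕ) : ℝ))]

private theorem vl_mem {n : ℕ} (hn : 1 ≤ n) {p : ℝ × ℝ} (hp : p ∈ SQ) :
    ((⌊n * p.1⌋, ⌊n * p.2⌋) : ℤ × ℤ) ∈ board n := by
  have hn' : (0 : ℝ) < n := by exact_mod_cast hn
  obtain ⟨⟨h1, h2⟩, h3, h4⟩ := hp
  unfold board
  rw [Finset.mem_product, Finset.mem_Ico, Finset.mem_Ico]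
  refine ⟨⟨Int.floor_nonneg.2 (mul_nonneg hn'.le h1), ?_⟩, Int.floor_nonneg.2 (mul_nonneg hn'.le h3), ?_⟩
  · rw [Int.floor_lt]
    push_cast
    nlinarith
  · rw [Int.floor_lt]
    push_cast
    nlinarith

private theorem vl_floor (a b : ℝ) : |((⌊a⌋ - ⌊b⌋ : ℤ) : ℝ)| ≤ |a - b| + 1 := by
  push_cast
  have h1 := Int.floor_le a
  have h2 := Int.lt_floor_add_one a
  have h3 := Int.floor_le b
  have h4 := Int.lt_floor_add_one b
  rw [abs_le]
  have h5 := le_abs_self (a - b)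
  have h6 := neg_abs_le (a - b)
  constructor <;> linarith

theorem v_lim : ∃ (L C : ℝ) (n0 : ℕ) (w : ℝ × ℝ → ℝ), Lm L C n0 w := by
  classical
  obtain ⟨L, C, n0, hL, hC, hn0, h1, h2⟩ := v_cau
  have hC0 : 0 < C := by linarith
  -- comparison of two maximisers
  have hcmp : ∀ n n' : ℕ, n0 ≤ n → n0 ≤ n' → ∀ W W' : ℤ × ℤ → ℝ, Opt n W → Opt n' W' → ∀ p ∈ SQ,
      n * W (⌊n * p.1⌋, ⌊n * p.2⌋) - C / Real.sqrt n ≤ n' * W' (⌊n' * p.1⌋, ⌊n' * p.2⌋) + C / Real.sqrt n' := by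
    intro n n' hn hn' W W' hW hW' p hp
    have hnn : 1 ≤ n * n' := Nat.one_le_iff_ne_zero.2 (Nat.mul_ne_zero (by omega) (by omega))
    obtain ⟨V, hV⟩ := Pool.Agent.NQR.exists_opt hnn
    have e1 := h2 n n' hn (by omega) W V hW hV p hp
    have hV' : Opt (n' * n) V := by rw [mul_comm]; exact hV
    have e2 := h2 n' n hn' (by omega) W' V hW' hV' p hp
    rw [show n' * n = n * n' from mul_comm _ _] at e2
    rw [abs_le] at e1 e2
    linarith [e1.1, e1.2, e2.1, e2.2]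
  let Sp : ℝ × ℝ → Set ℝ := fun p => {x | ∃ n : ℕ, n0 ≤ n ∧ ∃ W : ℤ × ℤ → ℝ, Opt n W ∧
    x = n * W (⌊n * p.1⌋, ⌊n * p.2⌋) - C / Real.sqrt n}
  let w : ℝ × ℝ → ℝ := fun p => if p ∈ SQ then sSup (Sp p) else 0
  have hw : ∀ p ∈ SQ, w p = sSup (Sp p) := fun p hp => if_pos hp
  have hnr : ∀ n : ℕ, n0 ≤ n → ∀ W : ℤ × ℤ → ℝ, Opt n W → ∀ p ∈ SQ,
      |n * W (⌊n * p.1⌋, ⌊n * p.2⌋) - w p| ≤ C / Real.sqrt n := by
    intro n hn W hW p hp
    rw [hw p hp]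
    have hub : ∀ x ∈ Sp p, x ≤ n * W (⌊n * p.1⌋, ⌊n * p.2⌋) + C / Real.sqrt n := by
      rintro x ⟨n', hn', W', hW', rfl⟩
      exact hcmp n' n hn' hn W' W hW' hW p hp
    have hmem : n * W (⌊n * p.1⌋, ⌊n * p.2⌋) - C / Real.sqrt n ∈ Sp p := ⟨n, hn, W, hW, rfl⟩
    have e1 := le_csSup ⟨_, hub⟩ hmem
    have e2 := csSup_le ⟨_, hmem⟩ hub
    rw [abs_le]
    constructor <;> linarith
  refine ⟨L, C, n0, w, ⟨hL, hC, hn0, ⟨?_, ?_, ?_, ?_⟩, ?_⟩⟩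
  · intro p hp
    exact if_neg hp
  · intro p hp
    refine le_of_forall_pos_le_add fun ε hε => ?_
    obtain ⟨n, hn, hn1, hnε⟩ := vl_small C n0 hε
    obtain ⟨W, hW⟩ := Pool.Agent.NQR.exists_opt hn1
    obtain ⟨A, B, hR, -, -⟩ := h1 n hn W hW
    have e1 := hnr n hn W hW p hp
    have e2 := hR.bd.lo _ (vl_mem hn1 hp)
    have hn' : (0 : ℝ) < n := by exact_mod_cast hn1
    have e3 : 1 / L ≤ n * W (⌊n * p.1⌋, ⌊n * p.2⌋) := by
      have e4 := mul_le_mul_of_nonneg_left e2 hn'.le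
      have e5 : (n : ℝ) * (1 / (L * n)) = 1 / L := by
        field_simp
      rw [e5] at e4
      exact e4
    rw [abs_le] at e1
    linarith [e1.1, e1.2]
  · intro p hp
    refine le_of_forall_pos_le_add fun ε hε => ?_
    obtain ⟨n, hn, hn1, hnε⟩ := vl_small C n0 hε
    obtain ⟨W, hW⟩ := Pool.Agent.NQR.exists_opt hn1
    obtain ⟨A, B, hR, -, -⟩ := h1 n hn W hW
    have e1 := hnr n hn W hW p hp
    have e2 := hR.bd.hi _ (vl_mem hn1 hp)
    have hn' : (0 : ℝ) < n := by exact_mod_cast hn1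
    have e3 : n * W (⌊n * p.1⌋, ⌊n * p.2⌋) ≤ L := by
      have e4 := mul_le_mul_of_nonneg_left e2 hn'.le
      have e5 : (n : ℝ) * (L / n) = L := by
        field_simp
      rw [e5] at e4
      exact e4
    rw [abs_le] at e1
    linarith [e1.1, e1.2]
  · intro p hp q hq
    refine le_of_forall_pos_le_add fun ε hε => ?_
    obtain ⟨n, hn, hn1, hnε⟩ := vl_small C n0 (show 0 < ε / 4 by linarith)
    obtain ⟨W, hW⟩ := Pool.Agent.NQR.exists_opt hn1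
    obtain ⟨A, B, -, -, hwl⟩ := h1 n hn W hW
    have e1 := hnr n hn W hW p hp
    have e2 := hnr n hn W hW q hq
    have e3 := hwl _ (vl_mem hn1 hp) _ (vl_mem hn1 hq)
    have hn' : (0 : ℝ) < n := by exact_mod_cast hn1
    have hn1' : (1 : ℝ) ≤ n := by exact_mod_cast hn1
    have f1 := vl_floor (n * p.1) (n * q.1)
    have f2 := vl_floor (n * p.2) (n * q.2)
    have g1 : |(n : ℝ) * p.1 - n * q.1| = n * |p.1 - q.1| := by
      rw [← mul_sub, abs_mul, abs_of_pos hn']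
    have g2 : |(n : ℝ) * p.2 - n * q.2| = n * |p.2 - q.2| := by
      rw [← mul_sub, abs_mul, abs_of_pos hn']
    rw [g1] at f1
    rw [g2] at f2
    have e4 : |n * W (⌊n * p.1⌋, ⌊n * p.2⌋) - n * W (⌊n * q.1⌋, ⌊n * q.2⌋)| ≤
        C * (|p.1 - q.1| + |p.2 - q.2|) + 2 * (C / Real.sqrt n) := by
      rw [← mul_sub, abs_mul, abs_of_pos hn']
      have k1 : (((|(⌊n * p.1⌋ : ℤ) - ⌊n * q.1⌋| + |(⌊n * p.2⌋ : ℤ) - ⌊n * q.2⌋| : ℤ)) : ℝ) ≤
          n * |p.1 - q.1| + n * |p.2 - q.2| + 2 := by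
        rw [Int.cast_add, Int.cast_abs, Int.cast_abs]
        linarith
      have k2 : (n : ℝ) * |W (⌊n * p.1⌋, ⌊n * p.2⌋) - W (⌊n * q.1⌋, ⌊n * q.2⌋)| ≤
          n * (C * (n * |p.1 - q.1| + n * |p.2 - q.2| + 2) / (n : ℝ) ^ 2) := by
        refine mul_le_mul_of_nonneg_left (e3.trans ?_) hn'.le
        gcongr
      refine k2.trans ?_
      have k3 : (n : ℝ) * (C * (n * |p.1 - q.1| + n * |p.2 - q.2| + 2) / (n : ℝ) ^ 2) =
          C * (|p.1 - q.1| + |p.2 - q.2|) + 2 * (C / n) := by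
        field_simp
      rw [k3]
      have k4 : C / n ≤ C / Real.sqrt n := by
        apply div_le_div_of_nonneg_left hC0.le (Real.sqrt_pos.2 hn')
        rw [Real.sqrt_le_left hn'.le]
        nlinarith
      linarith
    rw [abs_le] at e1 e2 e4 ⊢
    constructor
    · linarith [e1.1, e1.2, e2.1, e2.2, e4.1, e4.2]
    · linarith [e1.1, e1.2, e2.1, e2.2, e4.1, e4.2]
  · intro n hn W hW
    obtain ⟨A, B, hR, hLp, hwl⟩ := h1 n hn W hW
    exact ⟨A, B, hR, hLp, hwl, hnr n hn W hW⟩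

end Pool.Agent.NQF
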