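import Pool.Agent.NQF.VDefs
import Pool.Agent.NQF.LLCvx

/-!
# NQF-VGib: finite dimensional Gibbs principle

PLAN. `logdet_le` with `A := X`, `B := A⁻¹` (`Matrix.PosDef.inv`), `(A⁻¹)⁻¹ = A`: `log det X ≤ log det A⁻¹ + tr (A (X - A⁻¹)) = -log det A + tr (A X) - card` (`Matrix.det_nonsing_inv`, `Real.log_inv`-type, `Matrix.mul_nonsing_inv`).
Equality at `X = A⁻¹`: `log det A⁻¹ = -log det A`, `tr (A A⁻¹) = card`.
-/

set_option autoImplicit false

open Finset MeasureTheory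

namespace Pool.Agent.NQF

open Pool.Agent.NQ (board dsum F Ent Dg phi ln Q Qset QS NonAtt bern)
open Pool.Agent.NQR (Adm Opt Bd Rf hS hD hh InR)
open Pool.Agent.NQL

theorem gibbs {ι : Type} [Fintype ι] [DecidableEq ι] {A X : Matrix ι ι ℝ} (hA : A.PosDef) (hX : X.PosDef) :
    Real.log X.det / 2 - (A * X).trace / 2 + (Fintype.card ι : ℝ) / 2 ≤ -(Real.log A.det / 2) := by
  have hd : IsUnit A.det := hA.det_pos.ne'.isUnit
  have h1 := logdet_le hX hA.inv
  have h2 : (A⁻¹)⁻¹ = A := Matrix.nonsing_inv_nonsing_inv A hd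
  have h3 : Real.log (A⁻¹).det = -Real.log A.det := by
    rw [Matrix.det_nonsing_inv, Ring.inverse_eq_inv', Real.log_inv]
  rw [h2, h3, Matrix.mul_sub, Matrix.trace_sub, Matrix.mul_nonsing_inv A hd, Matrix.trace_one] at h1
  linarith

theorem gibbs_eq {ι : Type} [Fintype ι] [DecidableEq ι] {A : Matrix ι ι ℝ} (hA : A.PosDef) :
    A⁻¹.PosDef ∧ Real.log A⁻¹.det / 2 - (A * A⁻¹).trace / 2 + (Fintype.card ι : ℝ) / 2 = -(Real.log A.det / 2) := by
  have hd : IsUnit A.det := hA.det_pos.ne'.isUnit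
  have h3 : Real.log (A⁻¹).det = -Real.log A.det := by
    rw [Matrix.det_nonsing_inv, Ring.inverse_eq_inv', Real.log_inv]
  refine ⟨hA.inv, ?_⟩
  rw [h3, Matrix.mul_nonsing_inv A hd, Matrix.trace_one]
  ring

end Pool.Agent.NQF
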