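import Pool.Agent.NQF.VDefs
import Pool.Agent.NQF.VPos
import Pool.Agent.NQF.VRef
import Pool.Agent.NQF.VSym
import Pool.Agent.NQF.VMeas
import Pool.Agent.NQF.LLCvx
import Pool.Agent.NQF.LLSyl
import Pool.Agent.NQF.LLJJ

/-!
# NQF-VMon: the determinants decrease under refinement

PLAN. `A' = AW w (m k)` on `J' = JJ (m k)`, `A = AW w m = δ + X` on `J = JJ m`, `B' x x' = δ + X (fi k x) (fi k x')/k`: `LD J' B' = LD J A` (`ld_pull`, `fi_mem`, `fi_card`). `A'` and `B'` are positive definite matrices on the subtype `J'` (`v_pos`, `pull_pos` or directly).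
`logdet_le`: `log det A' ≤ log det B' + tr (B'⁻¹ (A' - B'))`. `B'⁻¹ = δ + Z (fi k x) (fi k x')/k` with `δ + Z = A⁻¹` on `J` (check `B' * (..) = 1`: `U Uᵀ`-calculus, `∑_{x'} X (fi x) (fi x') Z (fi x') (fi x'')= k ∑_{l'} X Z`). So
`tr (B'⁻¹ (A' - B')) = (tr A' - tr B') + (1/k) ∑_{l,l' ∈ J} Z l l' ∑_{fi x' = l', fi x = l} (A' - B') x' x`. `tr A' = 10 m k + 1` (`aw_trace`), `tr B' = 10 m k + (1/k) k ∑_l X l l = 10 m k + 1`. The inner sums: `∑∑ A' = k AW m l' l`
(`aw_ref`), `∑∑ B' = k δ + k² X/k = k AW m l' l`. So the trace is `0`.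
-/

set_option autoImplicit false

open Finset MeasureTheory

namespace Pool.Agent.NQF

open Pool.Agent.NQ (board dsum F Ent Dg phi ln Q Qset QS NonAtt bern)
open Pool.Agent.NQR (Adm Opt Bd Rf hS hD hh InR)
open Pool.Agent.NQL

section mat

open Matrix

private theorem vm_core {ι κ : Type} [Fintype ι] [DecidableEq ι] [Fintype κ] [DecidableEq κ]
    {A' : Matrix ι ι ℝ} {A : Matrix κ κ ℝ} {U : Matrix ι κ ℝ} {k : ℝ} (hk : 0 < k)
    (hA' : A'.PosDef) (hA : A.PosDef) (hU : Uᵀ * U = k • (1 : Matrix κ κ ℝ)) (hR : Uᵀ * A' * U = k • A)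
    (ht : A'.trace - (Fintype.card ι : ℝ) = A.trace - Fintype.card κ) :
    Real.log A'.det ≤ Real.log A.det := by
  have hk1 : 1 / k * k = 1 := one_div_mul_cancel hk.ne'
  obtain ⟨B, hB⟩ : ∃ B : Matrix ι ι ℝ, B = 1 + (1 / k) • (U * (A - 1) * Uᵀ) := ⟨_, rfl⟩
  have hdet : B.det = A.det := by
    have h1 : B = 1 + U * ((1 / k) • ((A - 1) * Uᵀ)) := by
      rw [hB, Matrix.mul_smul, ← Matrix.mul_assoc]
    rw [h1, Matrix.det_one_add_mul_comm, Matrix.smul_mul, Matrix.mul_assoc, hU, Matrix.mul_smul,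
      Matrix.mul_one, smul_smul, hk1, one_smul, add_sub_cancel]
  have hPos : B.PosDef := by
    obtain ⟨P, hP⟩ : ∃ P : Matrix ι ι ℝ, P = 1 - (1 / k) • (U * Uᵀ) := ⟨_, rfl⟩
    have hPP : Pᴴ * P = P := by
      have h1 : Pᴴ = P := by
        rw [conjTranspose_eq_transpose_of_trivial, hP, transpose_sub, transpose_one, transpose_smul,
          transpose_mul, transpose_transpose]
      have h2 : U * Uᵀ * (U * Uᵀ) = k • (U * Uᵀ) := by
        rw [Matrix.mul_assoc, ← Matrix.mul_assoc Uᵀ, hU, Matrix.smul_mul, Matrix.one_mul,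
          Matrix.mul_smul]
      rw [h1, hP, Matrix.mul_sub, Matrix.sub_mul, Matrix.sub_mul, Matrix.mul_one, Matrix.one_mul,
        Matrix.smul_mul, Matrix.mul_smul, Matrix.mul_one, Matrix.smul_mul, h2, smul_smul (1 / k) k, hk1,
        one_smul]
      abel
    have h1 : P.PosSemidef := by
      rw [← hPP]
      exact posSemidef_conjTranspose_mul_self P
    have h2 : ((1 / k) • (U * A * Uᵀ)).PosSemidef := by
      have h3 := hA.posSemidef.mul_mul_conjTranspose_same U
      rw [conjTranspose_eq_transpose_of_trivial] at h3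
      exact h3.smul (by positivity)
    have h3 : B = P + (1 / k) • (U * A * Uᵀ) := by
      rw [hB, hP, Matrix.mul_sub, Matrix.sub_mul, Matrix.mul_one, smul_sub]
      abel
    have h4 : B.PosSemidef := by
      rw [h3]
      exact h1.add h2
    have h5 : IsUnit B := by
      rw [Matrix.isUnit_iff_isUnit_det, hdet, ← Matrix.isUnit_iff_isUnit_det]
      exact hA.isUnit
    exact (h4.posDef_iff_isUnit).2 h5
  have hinv : B⁻¹ = 1 + (1 / k) • (U * (A⁻¹ - 1) * Uᵀ) := by
    apply Matrix.inv_eq_right_inv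
    have hAA : A * A⁻¹ = 1 := Matrix.mul_nonsing_inv _ ((Matrix.isUnit_iff_isUnit_det _).1 hA.isUnit)
    have h1 : U * (A - 1) * Uᵀ * (U * (A⁻¹ - 1) * Uᵀ) = k • (U * ((A - 1) * (A⁻¹ - 1)) * Uᵀ) := by
      calc U * (A - 1) * Uᵀ * (U * (A⁻¹ - 1) * Uᵀ) = U * (A - 1) * (Uᵀ * U) * (A⁻¹ - 1) * Uᵀ := by
            simp only [Matrix.mul_assoc]
        _ = _ := by
            rw [hU, Matrix.mul_smul, Matrix.mul_one, Matrix.smul_mul, Matrix.smul_mul]
            simp only [Matrix.mul_assoc]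
    have h2 : (A - 1) * (A⁻¹ - 1) = -(A - 1) - (A⁻¹ - 1) := by
      rw [Matrix.mul_sub, Matrix.sub_mul, Matrix.sub_mul, hAA]
      simp only [Matrix.mul_one, Matrix.one_mul]
      abel
    rw [hB, Matrix.mul_add, Matrix.mul_one, Matrix.add_mul, Matrix.one_mul, Matrix.smul_mul,
      Matrix.mul_smul, h1, smul_smul (1 / k) k, hk1, one_smul, h2]
    have h3 : U * (-(A - 1) - (A⁻¹ - 1)) * Uᵀ = -(U * (A - 1) * Uᵀ) - U * (A⁻¹ - 1) * Uᵀ := by
      rw [Matrix.mul_sub, Matrix.mul_neg, Matrix.sub_mul, Matrix.neg_mul]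
    rw [h3, smul_sub, smul_neg]
    abel
  have htr : (B⁻¹ * (A' - B)).trace = 0 := by
    have h1 : Uᵀ * B * U = k • A := by
      rw [hB, Matrix.mul_add, Matrix.add_mul, Matrix.mul_one, hU, Matrix.mul_smul, Matrix.smul_mul]
      have h2 : Uᵀ * (U * (A - 1) * Uᵀ) * U = (Uᵀ * U) * (A - 1) * (Uᵀ * U) := by
        simp only [Matrix.mul_assoc]
      rw [h2, hU, Matrix.smul_mul, Matrix.one_mul, Matrix.smul_mul, Matrix.mul_smul, Matrix.mul_one,
        smul_smul (1 / k) k, hk1, one_smul, ← smul_add, add_sub_cancel]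
    have h2 : Uᵀ * (A' - B) * U = 0 := by
      rw [Matrix.mul_sub, Matrix.sub_mul, hR, h1, sub_self]
    have h3 : (U * (A⁻¹ - 1) * Uᵀ * (A' - B)).trace = 0 := by
      have h4 : U * (A⁻¹ - 1) * Uᵀ * (A' - B) = U * ((A⁻¹ - 1) * (Uᵀ * (A' - B))) := by
        simp only [Matrix.mul_assoc]
      rw [h4, Matrix.trace_mul_comm, Matrix.mul_assoc, h2, Matrix.mul_zero, Matrix.trace_zero]
    have h5 : B.trace = Fintype.card ι + (A.trace - Fintype.card κ) := by
      rw [hB, Matrix.trace_add, Matrix.trace_one, Matrix.trace_smul, Matrix.mul_assoc,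
        Matrix.trace_mul_comm, Matrix.mul_assoc, hU, Matrix.mul_smul, Matrix.mul_one,
        Matrix.trace_smul, Matrix.trace_sub, Matrix.trace_one, smul_smul, hk1, one_smul]
    rw [hinv, Matrix.add_mul, Matrix.one_mul, Matrix.trace_add, Matrix.smul_mul, Matrix.trace_smul, h3,
      smul_zero, add_zero, Matrix.trace_sub, h5]
    linarith
  have h := logdet_le hA' hPos
  rw [htr, hdet, add_zero] at h
  exact h

end mat

private theorem vm_pos {w : ℝ × ℝ → ℝ} {lam : ℝ} {m : ℕ} (hl : 0 < lam)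
    (h : ∀ u : Li → ℝ, lam * ∑ l ∈ JJ m, u l ^ 2 ≤ ∑ l ∈ JJ m, ∑ l' ∈ JJ m, AW w m l l' * u l * u l') :
    (Matrix.of (fun i j : JJ m => AW w m i j)).PosDef := by
  refine Matrix.PosDef.of_dotProduct_mulVec_pos ?_ ?_
  · ext i j
    rw [Matrix.conjTranspose_apply, Matrix.of_apply, Matrix.of_apply, star_trivial, aw_symm]
  · intro v hv
    rw [star_trivial]
    obtain ⟨u, hu⟩ : ∃ u : Li → ℝ, u = fun l => if hl : l ∈ JJ m then v ⟨l, hl⟩ else 0 := ⟨_, rfl⟩
    have hui : ∀ i : JJ m, u i = v i := fun i => by rw [hu]; simp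
    have h1 := h u
    have h2 : ∑ l ∈ JJ m, ∑ l' ∈ JJ m, AW w m l l' * u l * u l' =
        v ⬝ᵥ (Matrix.of (fun i j : JJ m => AW w m i j)).mulVec v := by
      rw [← sum_coe_sort (JJ m)]
      unfold dotProduct
      refine sum_congr rfl fun i _ => ?_
      unfold Matrix.mulVec dotProduct
      rw [← sum_coe_sort (JJ m), mul_sum]
      refine sum_congr rfl fun j _ => ?_
      rw [hui, hui]
      show _ = v i * (AW w m i j * v j)
      ring
    have h3 : 0 < ∑ l ∈ JJ m, u l ^ 2 := by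
      rw [← sum_coe_sort (JJ m)]
      obtain ⟨i, hi⟩ : ∃ i, v i ≠ 0 := by
        by_contra hc
        push Not at hc
        exact hv (funext hc)
      refine sum_pos' (fun j _ => sq_nonneg _) ⟨i, mem_univ _, ?_⟩
      rw [hui]
      positivity
    rw [h2] at h1
    exact lt_of_lt_of_le (mul_pos hl h3) h1

theorem v_mon {L C : ℝ} {n0 : ℕ} {w : ℝ × ℝ → ℝ} (h : Lm L C n0 w) {m k : ℕ} (hm : 1 ≤ m) (hk : 1 ≤ k) :
    LD (JJ (m * k)) (AW w (m * k)) ≤ LD (JJ m) (AW w m) := by
  obtain ⟨lam, hl, -, hp⟩ := v_pos h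
  have hmk : 1 ≤ m * k := Nat.mul_pos hm hk
  have hi := ql_int h.L1 h.ql
  have hk0 : (0 : ℝ) < k := by exact_mod_cast hk
  have hU : ∀ (L L' : JJ m) (f : Li → Li → ℝ),
      ∑ l' : JJ (m * k), (∑ l : JJ (m * k), (if fi k l = (L : Li) then (1 : ℝ) else 0) * f l l') *
        (if fi k l' = (L' : Li) then (1 : ℝ) else 0) =
      ∑ x ∈ (JJ (m * k)).filter (fun x => fi k x = L), ∑ x' ∈ (JJ (m * k)).filter (fun x' => fi k x' = L'),
        f x x' := by
    intro L L' f
    rw [sum_comm]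
    have h1 : ∀ l' : JJ (m * k), (∑ l : JJ (m * k), (if fi k l = (L : Li) then (1 : ℝ) else 0) * f l l') *
        (if fi k l' = (L' : Li) then (1 : ℝ) else 0) =
        (fun x' : Li => if fi k x' = (L' : Li) then
          ∑ x ∈ (JJ (m * k)).filter (fun x => fi k x = (L : Li)), f x x' else 0) l' := by
      intro l'
      have h2 : ∑ l : JJ (m * k), (if fi k l = (L : Li) then (1 : ℝ) else 0) * f l l' =
          ∑ x ∈ (JJ (m * k)).filter (fun x => fi k x = (L : Li)), f x l' := by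
        rw [sum_coe_sort (JJ (m * k)) (fun x => (if fi k x = (L : Li) then (1 : ℝ) else 0) * f x l'),
          sum_filter]
        refine sum_congr rfl fun x _ => ?_
        split_ifs <;> ring
      rw [h2]
      simp only
      split_ifs <;> ring
    rw [sum_congr rfl fun l' _ => h1 l', sum_coe_sort (JJ (m * k)) (fun x' : Li => if fi k x' = (L' : Li) then
          ∑ x ∈ (JJ (m * k)).filter (fun x => fi k x = (L : Li)), f x x' else 0), ← sum_filter]
  unfold LD
  refine vm_core (U := Matrix.of fun (l : JJ (m * k)) (L : JJ m) => if fi k l = (L : Li) then (1 : ℝ) else 0)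
    hk0 (vm_pos hl (hp _ hmk)) (vm_pos hl (hp _ hm)) ?_ ?_ ?_
  · ext L L'
    rw [Matrix.mul_apply, Matrix.smul_apply, Matrix.one_apply, smul_eq_mul]
    simp only [Matrix.transpose_apply, Matrix.of_apply]
    have h1 : ∀ l : JJ (m * k), (if fi k l = (L : Li) then (1 : ℝ) else 0) *
        (if fi k l = (L' : Li) then (1 : ℝ) else 0) =
        (fun x : Li => if fi k x = (L : Li) then (if L = L' then (1 : ℝ) else 0) else 0) l := by
      intro l
      by_cases h2 : fi k l = (L : Li)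
      · by_cases h3 : L = L'
        · subst h3
          simp only [h2, if_true, mul_one]
        · have h4 : ¬ fi k l = (L' : Li) := fun h4 => h3 (Subtype.ext (h2.symm.trans h4))
          simp only [h2, if_true, if_neg h3]
          rw [← h2, if_neg h4, mul_zero]
      · simp only [h2, if_false, zero_mul]
    rw [sum_congr rfl fun l _ => h1 l, sum_coe_sort (JJ (m * k)) (fun x : Li => if fi k x = (L : Li) then
      (if L = L' then (1 : ℝ) else 0) else 0), ← sum_filter, sum_const, fi_card hk L.2, nsmul_eq_mul]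
  · ext L L'
    rw [Matrix.mul_apply, Matrix.smul_apply, Matrix.of_apply, smul_eq_mul, ← aw_ref hi hm hk L.2 L'.2,
      ← hU L L' (AW w (m * k))]
    refine sum_congr rfl fun l' _ => ?_
    rw [Matrix.mul_apply]
    rfl
  · have h1 : ∀ n : ℕ, (Matrix.of (fun i j : JJ n => AW w n i j)).trace = ∑ l ∈ JJ n, AW w n l l := by
      intro n
      unfold Matrix.trace
      rw [← sum_coe_sort (JJ n)]
      rfl
    rw [h1, h1, aw_trace w hmk, aw_trace w hm, Fintype.card_coe, Fintype.card_coe, jj_card, jj_card]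
    push_cast
    ring

end Pool.Agent.NQF
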