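import Pool.Agent.NQF.VDefs
import Pool.Agent.NQF.VGib
import Pool.Agent.NQF.VMon
import Pool.Agent.NQF.VPos
import Pool.Agent.NQF.VSym

/-!
# NQF-VLub: the supremum

PLAN. `A_m = Matrix.of (AW w m)` on the subtype `JJ m` is positive definite (`v_pos` with `u` extended by `0`, `aw_symm`), `card = 10 m` (`jj_card`), `LD (JJ m) (AW w m) = log det A_m` (definition). Upper bound: `t = Kv w m X ≤ -LD (JJ m) (AW w m)/2 - 3/2 ∫ w² ≤
-LD (JJ (m k)) .. /2 - 3/2 ∫ w²` for all `k ≥ 1` (`gibbs`, `v_mon`), `k → ∞`: `≤ c0` (`m k → ∞`). Least: for every `m ≥ 1` the value `-LD/2 - 3/2 ∫ w²` is in the set (`gibbs_eq`, `X = A_m⁻¹`), and these values tend to `c0`.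
-/

set_option autoImplicit false

open Finset MeasureTheory

namespace Pool.Agent.NQF

open Pool.Agent.NQ (board dsum F Ent Dg phi ln Q Qset QS NonAtt bern)
open Pool.Agent.NQR (Adm Opt Bd Rf hS hD hh InR)
open Pool.Agent.NQL

private theorem pd {w : ℝ × ℝ → ℝ} {lam : ℝ} {m : ℕ} (hl : 0 < lam)
    (h : ∀ u : Li → ℝ, lam * ∑ l ∈ JJ m, u l ^ 2 ≤ ∑ l ∈ JJ m, ∑ l' ∈ JJ m, AW w m l l' * u l * u l') :
    (Matrix.of (fun i j : JJ m => AW w m i j)).PosDef := by
  refine Matrix.PosDef.of_dotProduct_mulVec_pos ?_ ?_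
  · ext i j
    rw [Matrix.conjTranspose_apply, Matrix.of_apply, Matrix.of_apply, star_trivial, aw_symm]
  · intro v hv
    rw [star_trivial]
    obtain ⟨u, hu⟩ : ∃ u : Li → ℝ, u = fun l => if hl : l ∈ JJ m then v ⟨l, hl⟩ else 0 := ⟨_, rfl⟩
    have hui : ∀ i : JJ m, u i = v i := fun i => by rw [hu]; simp
    have h1 := h u
    have h2 : ∑ l ∈ JJ m, ∑ l' ∈ JJ m, AW w m l l' * u l * u l' =
        dotProduct v ((Matrix.of (fun i j : JJ m => AW w m i j)).mulVec v) := by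
      rw [← sum_coe_sort (JJ m)]
      unfold dotProduct
      refine sum_congr rfl fun i _ => ?_
      unfold Matrix.mulVec dotProduct
      rw [← sum_coe_sort (JJ m), mul_sum]
      refine sum_congr rfl fun j _ => ?_
      rw [hui, hui]
      show _ = v i * (AW w m i j * v j)
      ring
    have h3 : 0 < ∑ l ∈ JJ m, u l ^ 2 := by
      rw [← sum_coe_sort (JJ m)]
      obtain ⟨i, hi⟩ : ∃ i, v i ≠ 0 := by
        by_contra hc
        push Not at hc
        exact hv (funext hc)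
      refine sum_pos' (fun j _ => sq_nonneg _) ⟨i, mem_univ _, ?_⟩
      rw [hui]
      positivity
    rw [h2] at h1
    exact lt_of_lt_of_le (mul_pos hl h3) h1

private theorem crd (m : ℕ) : (Fintype.card (JJ m) : ℝ) / 2 = 5 * m := by
  rw [Fintype.card_coe, jj_card]
  push_cast
  ring

theorem v_lub {L C : ℝ} {n0 : ℕ} {w : ℝ × ℝ → ℝ} (h : Lm L C n0 w) {c0 : ℝ}
    (hc : Filter.Tendsto (fun m : ℕ => -(LD (JJ m) (AW w m)) / 2 - 3 / 2 * ∫ p, w p ^ 2) Filter.atTop (nhds c0)) :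
    IsLUB {t : ℝ | ∃ m : ℕ, 1 ≤ m ∧ ∃ X : Matrix (JJ m) (JJ m) ℝ, X.PosDef ∧ t = Kv w m X} c0 := by
  classical
  obtain ⟨lam, hl, -, hp⟩ := v_pos h
  constructor
  · rintro t ⟨m, hm, X, hX, rfl⟩
    have h1 : ∀ k : ℕ, Kv w m X ≤ -(LD (JJ (m * (k + 1))) (AW w (m * (k + 1)))) / 2 - 3 / 2 * ∫ p, w p ^ 2 := by
      intro k
      have h2 := gibbs (pd hl (hp m hm)) hX
      have h3 := v_mon h hm (k := k + 1) (by omega)
      rw [crd] at h2
      have h4 : LD (JJ m) (AW w m) = Real.log (Matrix.of (fun i j : JJ m => AW w m i j)).det := rfl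
      rw [← h4] at h2
      unfold Kv
      linarith
    have h5 : Filter.Tendsto (fun k : ℕ => m * (k + 1)) Filter.atTop Filter.atTop :=
      Filter.tendsto_atTop_mono (fun k => (Nat.le_succ k).trans (Nat.le_mul_of_pos_left (k + 1) hm)) Filter.tendsto_id
    exact ge_of_tendsto' (hc.comp h5) h1
  · intro b hb
    refine le_of_tendsto hc ?_
    filter_upwards [Filter.eventually_ge_atTop 1] with m hm
    refine hb ⟨m, hm, _, (gibbs_eq (pd hl (hp m hm))).1, ?_⟩
    have h2 := (gibbs_eq (pd hl (hp m hm))).2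
    rw [crd] at h2
    have h4 : LD (JJ m) (AW w m) = Real.log (Matrix.of (fun i j : JJ m => AW w m i j)).det := rfl
    rw [← h4] at h2
    unfold Kv
    linarith

end Pool.Agent.NQF
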