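import Pool.Agent.NQF.VDefs

/-!
# NQF-VFubA: Fubini for the marginals

PLAN. `volume` on `ℝ × ℝ` is the product measure (`Measure.volume_eq_prod`); `p ↦ v p * a p.1` is integrable (`v` integrable, `a` bounded measurable: `Integrable.mul_bdd` or `Integrable.bdd_mul`); `integral_prod`:
`∫ x, ∫ y, v (x,y) * a x = ∫ x, a x * ∫ y, v (x,y)`; for `x ∉ [0,1)` the inner integral is `0` (`out`), for a.e. `x ∈ [0,1)` it is `1` (`row`): `integral_congr_ae`, `integral_indicator`. Columns: `integral_prod_symm`. Mass: `a = 1`.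
-/

set_option autoImplicit false

open Finset MeasureTheory

namespace Pool.Agent.NQF

open Pool.Agent.NQ (board dsum F Ent Dg phi ln Q Qset QS NonAtt bern)
open Pool.Agent.NQR (Adm Opt Bd Rf hS hD hh InR)
open Pool.Agent.NQL

private theorem ind_eq {f g : ℝ → ℝ} (h0 : ∀ x, x ∉ Set.Ico (0 : ℝ) 1 → g x = 0)
    (h1 : ∀ᵐ x : ℝ, x ∈ Set.Ico (0 : ℝ) 1 → g x = f x) : ∫ x, g x = ∫ x in Set.Ico (0 : ℝ) 1, f x := by
  rw [← integral_indicator measurableSet_Ico]
  refine integral_congr_ae ?_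
  filter_upwards [h1] with x hx
  by_cases h : x ∈ Set.Ico (0 : ℝ) 1
  · rw [Set.indicator_of_mem h, hx h]
  · rw [Set.indicator_of_notMem h, h0 x h]

theorem q_row {v : ℝ × ℝ → ℝ} (hv : Queenon v) {a : ℝ → ℝ} (ha : Measurable a) {K : ℝ} (hK : ∀ x, |a x| ≤ K) :
    Integrable (fun p => v p * a p.1) ∧ ∫ p, v p * a p.1 = ∫ x in Set.Ico (0 : ℝ) 1, a x := by
  have hF : Integrable (fun p : ℝ × ℝ => v p * a p.1) := by
    refine hv.int.mul_bdd (c := K) (ha.comp measurable_fst).aestronglyMeasurable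
      (Filter.Eventually.of_forall fun p => ?_)
    rw [Real.norm_eq_abs]
    exact hK _
  refine ⟨hF, ?_⟩
  have hF' : Integrable (fun p : ℝ × ℝ => v p * a p.1) ((volume : Measure ℝ).prod volume) := hF
  have h1 : ∫ p : ℝ × ℝ, v p * a p.1 = ∫ x, ∫ y, v (x, y) * a x := integral_prod _ hF'
  rw [h1]
  have h2 : ∀ x, ∫ y, v (x, y) * a x = (∫ y, v (x, y)) * a x := fun x => integral_mul_const _ _
  simp only [h2]
  refine ind_eq (fun x hx => ?_) ?_
  · have h3 : ∀ y, v (x, y) = 0 := fun y => hv.out _ (fun h => hx h.1)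
    simp [h3]
  · filter_upwards [hv.row] with x hx h
    rw [hx h, one_mul]

theorem q_col {v : ℝ × ℝ → ℝ} (hv : Queenon v) {b : ℝ → ℝ} (hb : Measurable b) {K : ℝ} (hK : ∀ x, |b x| ≤ K) :
    Integrable (fun p => v p * b p.2) ∧ ∫ p, v p * b p.2 = ∫ y in Set.Ico (0 : ℝ) 1, b y := by
  have hF : Integrable (fun p : ℝ × ℝ => v p * b p.2) := by
    refine hv.int.mul_bdd (c := K) (hb.comp measurable_snd).aestronglyMeasurable
      (Filter.Eventually.of_forall fun p => ?_)
    rw [Real.norm_eq_abs]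
    exact hK _
  refine ⟨hF, ?_⟩
  have hF' : Integrable (fun p : ℝ × ℝ => v p * b p.2) ((volume : Measure ℝ).prod volume) := hF
  have h1 : ∫ p : ℝ × ℝ, v p * b p.2 = ∫ y, ∫ x, v (x, y) * b y := integral_prod_symm _ hF'
  rw [h1]
  have h2 : ∀ y, ∫ x, v (x, y) * b y = (∫ x, v (x, y)) * b y := fun y => integral_mul_const _ _
  simp only [h2]
  refine ind_eq (fun y hy => ?_) ?_
  · have h3 : ∀ x, v (x, y) = 0 := fun x => hv.out _ (fun h => hy h.2)
    simp [h3]
  · filter_upwards [hv.col] with y hy h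
    rw [hy h, one_mul]

theorem q_mass {v : ℝ × ℝ → ℝ} (hv : Queenon v) : ∫ p, v p = 1 := by
  have h := (q_row hv (a := fun _ => 1) measurable_const (K := 1) (fun _ => by simp)).2
  simpa using h

end Pool.Agent.NQF
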