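import Pool.Agent.NQF.VDefs

/-!
# NQF-VFubB: Fubini for the diagonals

PLAN. The maps `(x, s) ↦ (x, s - x)` and `(x, d) ↦ (x, x - d)` of `ℝ × ℝ` preserve the measure (shear composed with a reflection; e.g. `measurePreserving_prod_sub`-type lemmas, or
`MeasurePreserving.skew_product`, or `integral_prod` twice and `integral_sub_left_eq_self` in the inner integral: `∫ x, ∫ y, v (x,y) f (x+y) = ∫ x, ∫ s, v (x, s - x) f s` and then `integral_integral_swap`,
for which `(x, s) ↦ v (x, s - x) f s` must be integrable: `Integrable.comp` with the measure preserving map). `f` bounded measurable, `v` integrable. So `DS v s = ∫ x, v (x, s - x)` is integrable in `s`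
(`Integrable.integral_prod_right`). Nonnegative: `integral_nonneg`.
-/

set_option autoImplicit false

open Finset MeasureTheory

namespace Pool.Agent.NQF

open Pool.Agent.NQ (board dsum F Ent Dg phi ln Q Qset QS NonAtt bern)
open Pool.Agent.NQR (Adm Opt Bd Rf hS hD hh InR)
open Pool.Agent.NQL

private theorem fub_gen {v : ℝ × ℝ → ℝ} (hi : Integrable v) {T : ℝ × ℝ → ℝ × ℝ}
    (hT : MeasurePreserving T (volume : Measure (ℝ × ℝ)) volume) {ψ : ℝ × ℝ → ℝ} (hψm : Measurable ψ)
    (hψ : ∀ q : ℝ × ℝ, ψ (T q) = q.2) {f : ℝ → ℝ} (hf : Measurable f) {K : ℝ} (hK : ∀ x, |f x| ≤ K) :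
    Integrable (fun s => ∫ x, v (T (x, s))) ∧ Integrable (fun p : ℝ × ℝ => v p * f (ψ p)) ∧
      Integrable (fun s => (∫ x, v (T (x, s))) * f s) ∧
      ∫ p : ℝ × ℝ, v p * f (ψ p) = ∫ s, (∫ x, v (T (x, s))) * f s := by
  have hG : Integrable (fun q : ℝ × ℝ => v (T q)) := hT.integrable_comp_of_integrable hi
  have hF : Integrable (fun p : ℝ × ℝ => v p * f (ψ p)) := by
    refine hi.mul_bdd (c := K) (hf.comp hψm).aestronglyMeasurable (Filter.Eventually.of_forall fun p => ?_)
    rw [Real.norm_eq_abs]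
    exact hK _
  have hGf : Integrable (fun q : ℝ × ℝ => v (T q) * f q.2) := by
    have h1 : Integrable (fun q : ℝ × ℝ => (fun p : ℝ × ℝ => v p * f (ψ p)) (T q)) :=
      hT.integrable_comp_of_integrable hF
    have h2 : (fun q : ℝ × ℝ => (fun p : ℝ × ℝ => v p * f (ψ p)) (T q)) = fun q : ℝ × ℝ => v (T q) * f q.2 := by
      funext q
      simp only [hψ]
    rwa [h2] at h1
  have hint : ∫ p : ℝ × ℝ, v p * f (ψ p) = ∫ q : ℝ × ℝ, v (T q) * f q.2 := by
    have h1 : ∫ p, v p * f (ψ p) ∂(Measure.map T (volume : Measure (ℝ × ℝ))) =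
        ∫ q : ℝ × ℝ, v (T q) * f (ψ (T q)) := by
      rw [integral_map hT.measurable.aemeasurable]
      rw [hT.map_eq]
      exact hF.aestronglyMeasurable
    rw [hT.map_eq] at h1
    rw [h1]
    simp only [hψ]
  have hG' : Integrable (fun q : ℝ × ℝ => v (T q)) ((volume : Measure ℝ).prod volume) := hG
  have hGf' : Integrable (fun q : ℝ × ℝ => v (T q) * f q.2) ((volume : Measure ℝ).prod volume) := hGf
  have hpull : ∀ s, ∫ x, v (T (x, s)) * f s = (∫ x, v (T (x, s))) * f s := fun s => integral_mul_const _ _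
  refine ⟨hG'.integral_prod_right, hF, ?_, ?_⟩
  · have h1 := hGf'.integral_prod_right
    refine h1.congr (Filter.Eventually.of_forall fun s => ?_)
    exact hpull s
  · rw [hint]
    have h1 : ∫ q : ℝ × ℝ, v (T q) * f q.2 = ∫ s, ∫ x, v (T (x, s)) * f s := integral_prod_symm _ hGf'
    rw [h1]
    exact integral_congr_ae (Filter.Eventually.of_forall fun s => hpull s)

theorem q_ds {v : ℝ × ℝ → ℝ} (hi : Integrable v) {f : ℝ → ℝ} (hf : Measurable f) {K : ℝ} (hK : ∀ x, |f x| ≤ K) :
    Integrable (DS v) ∧ Integrable (fun p : ℝ × ℝ => v p * f (p.1 + p.2)) ∧ Integrable (fun s => DS v s * f s) ∧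
      ∫ p : ℝ × ℝ, v p * f (p.1 + p.2) = ∫ s, DS v s * f s := by
  have hT : MeasurePreserving (fun z : ℝ × ℝ => (z.1, z.2 - z.1)) (volume : Measure (ℝ × ℝ)) volume :=
    measurePreserving_prod_sub volume volume
  exact fub_gen hi hT (ψ := fun p => p.1 + p.2) (measurable_fst.add measurable_snd) (fun q => by simp) hf hK

theorem q_dd {v : ℝ × ℝ → ℝ} (hi : Integrable v) {f : ℝ → ℝ} (hf : Measurable f) {K : ℝ} (hK : ∀ x, |f x| ≤ K) :
    Integrable (DD v) ∧ Integrable (fun p : ℝ × ℝ => v p * f (p.1 - p.2)) ∧ Integrable (fun s => DD v s * f s) ∧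
      ∫ p : ℝ × ℝ, v p * f (p.1 - p.2) = ∫ s, DD v s * f s := by
  have h1 : MeasurePreserving (fun z : ℝ × ℝ => (z.1, z.1 + z.2)) (volume : Measure (ℝ × ℝ)) volume :=
    measurePreserving_prod_add volume volume
  have h2 : MeasurePreserving (Prod.map (id : ℝ → ℝ) (Neg.neg : ℝ → ℝ)) (volume : Measure (ℝ × ℝ)) volume :=
    (MeasurePreserving.id volume).prod (Measure.measurePreserving_neg volume)
  have hT : MeasurePreserving (fun z : ℝ × ℝ => (z.1, z.1 - z.2)) (volume : Measure (ℝ × ℝ)) volume := by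
    have h3 := h1.comp h2
    have h4 : (fun z : ℝ × ℝ => (z.1, z.1 + z.2)) ∘ Prod.map (id : ℝ → ℝ) (Neg.neg : ℝ → ℝ) =
        fun z : ℝ × ℝ => (z.1, z.1 - z.2) := by
      funext z
      simp [sub_eq_add_neg]
    rwa [h4] at h3
  exact fub_gen hi hT (ψ := fun p => p.1 - p.2) (measurable_fst.sub measurable_snd) (fun q => by simp) hf hK

end Pool.Agent.NQF
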