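import Pool.Agent.NQF.VDefs
import Pool.Agent.NQF.VFubB
import Pool.Agent.NQF.VPhi

/-!
# NQF-VPin: integrability of phi of the diagonal densities

PLAN. `DS v` is integrable (`q_ds` with `f = 0`), so a.e. strongly measurable, `phi` measurable (`phi_meas`): `phi ∘ DS v` is a.e. strongly measurable; `0 ≤ DS v` everywhere (`hv.nn`, `integral_nonneg`), `DS v ≤ 1` a.e.
(`hv.sd`), so `|phi (DS v s)| ≤ 1` a.e. (`phi_bd`); for `s ∉ [0,2)` the integrand of `DS v s` vanishes (`hv.out`: `x ∈ [0,1)` and `s - x ∈ [0,1)` impossible), `DS v s = 0`, `phi 0 = 0`. So it is integrable (bounded on a set of finite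
measure: `Measure.integrableOn_of_bounded` and the indicator). Same for `DD v` and `[-1,1)`.
-/

set_option autoImplicit false

open Finset MeasureTheory

namespace Pool.Agent.NQF

open Pool.Agent.NQ (board dsum F Ent Dg phi ln Q Qset QS NonAtt bern)
open Pool.Agent.NQR (Adm Opt Bd Rf hS hD hh InR)
open Pool.Agent.NQL

private theorem pin_gen {D : ℝ → ℝ} (hD : Integrable D) (h0 : ∀ s, 0 ≤ D s) (h1 : ∀ᵐ s : ℝ, D s ≤ 1)
    (hz : ∀ s, s ∉ Set.Icc (-1 : ℝ) 2 → D s = 0) : Integrable (fun s => phi (D s)) := by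
  have hm : AEStronglyMeasurable (fun s => phi (D s)) volume :=
    (phi_meas.comp_aemeasurable hD.aestronglyMeasurable.aemeasurable).aestronglyMeasurable
  have hdom : Integrable ((Set.Icc (-1 : ℝ) 2).indicator (fun _ => (1 : ℝ))) := by
    rw [integrable_indicator_iff measurableSet_Icc]
    exact integrableOn_const (by rw [Real.volume_Icc]; exact ENNReal.ofReal_ne_top)
  refine hdom.mono' hm ?_
  filter_upwards [h1] with s hs
  by_cases h : s ∈ Set.Icc (-1 : ℝ) 2
  · rw [Set.indicator_of_mem h, Real.norm_eq_abs]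
    obtain ⟨h2, h3⟩ := phi_bd (h0 s) hs
    rw [abs_of_nonneg h2]
    exact h3
  · rw [Set.indicator_of_notMem h, hz s h]
    simp [phi]

theorem phi_int {v : ℝ × ℝ → ℝ} (hv : Queenon v) : Integrable (fun s => phi (DS v s)) ∧ Integrable (fun s => phi (DD v s)) ∧
    (∀ s, 0 ≤ DS v s) ∧ ∀ s, 0 ≤ DD v s := by
  have hS : ∀ s, 0 ≤ DS v s := fun s => integral_nonneg fun x => hv.nn _
  have hD : ∀ s, 0 ≤ DD v s := fun s => integral_nonneg fun x => hv.nn _
  have iS := (q_ds hv.int (f := fun _ => 0) measurable_const (K := 0) (fun _ => by simp)).1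
  have iD := (q_dd hv.int (f := fun _ => 0) measurable_const (K := 0) (fun _ => by simp)).1
  refine ⟨pin_gen iS hS hv.sd ?_, pin_gen iD hD hv.dd ?_, hS, hD⟩
  · intro s hs
    unfold DS
    have : ∀ x, v (x, s - x) = 0 := by
      intro x
      refine hv.out _ fun hx => hs ?_
      have h1 : x ∈ Set.Ico (0 : ℝ) 1 := hx.1
      have h2 : s - x ∈ Set.Ico (0 : ℝ) 1 := hx.2
      rw [Set.mem_Ico] at h1 h2
      rw [Set.mem_Icc]
      constructor <;> linarith
    simp [this]
  · intro s hs
    unfold DD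
    have : ∀ x, v (x, x - s) = 0 := by
      intro x
      refine hv.out _ fun hx => hs ?_
      have h1 : x ∈ Set.Ico (0 : ℝ) 1 := hx.1
      have h2 : x - s ∈ Set.Ico (0 : ℝ) 1 := hx.2
      rw [Set.mem_Ico] at h1 h2
      rw [Set.mem_Icc]
      constructor <;> linarith
    simp [this]

end Pool.Agent.NQF
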