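import Pool.Agent.NQF.VDefs
import Pool.Agent.NQF.VDgS
import Pool.Agent.NQF.VDgD
import Pool.Agent.NQF.VDb
import Pool.Agent.NQF.VCel
import Pool.Agent.NQR.PMax

/-!
# NQF-VPrd: product form of the limit density

PLAN. For `n ≥ n0` take `W`, `A`, `B`, `Nr`. `G n x y := n W (i,j)/(hS n W (i+j) * hD n W (i-j))` with `i = ⌊n x⌋`, `j = ⌊n y⌋`; by `hR.el` (`hh = hS hD`, `hh ≥ 1/L² > 0`) `G n x y = n A i B j`, so
`G n x y * G n x' y' = G n x y' * G n x' y`. `G n x y → gg w x y`: `n W (i,j) → w (x,y)` (`nr`); `⌊n (x+y)⌋ - (i+j) ∈ {0,1}`, so `|hS n W (i+j) - hS n W ⌊n (x+y)⌋| ≤ C/n` (`lp.s`) and `hS = 1 - dsum`,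
`v_ds`: `hS n W (i+j) → 1 - DS w (x+y)`; `(i-j) - ⌊n (x-y)⌋ ∈ {0,1}`, `lp.d`, `v_dd`; limits `≥ 1/L > 0` (`v_db`). Uniqueness of limits.
-/

set_option autoImplicit false

open Finset MeasureTheory

namespace Pool.Agent.NQF

open Pool.Agent.NQ (board dsum F Ent Dg phi ln Q Qset QS NonAtt bern)
open Pool.Agent.NQR (Adm Opt Bd Rf hS hD hh InR)
open Pool.Agent.NQL

/-- `w` divided by the diagonal factors -/
noncomputable def gg (w : ℝ × ℝ → ℝ) (x y : ℝ) : ℝ := w (x, y) / ((1 - DS w (x + y)) * (1 - DD w (x - y)))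

private theorem vp_hS {L C : ℝ} {n : ℕ} {w : ℝ × ℝ → ℝ} {W : ℤ × ℤ → ℝ} {A B : ℤ → ℝ}
    (hW : Nr L C n w W A B) (hC : 0 ≤ C) (a b : ℝ) :
    |hS n W (⌊a⌋ + ⌊b⌋) - hS n W ⌊a + b⌋| ≤ C / n := by
  have hCn : 0 ≤ C / n := by positivity
  have h1 : ⌊a + b⌋ = ⌊a⌋ + ⌊b⌋ ∨ ⌊a + b⌋ = ⌊a⌋ + ⌊b⌋ + 1 := by
    have h2 := Int.le_floor_add a b
    have h3 := Int.le_floor_add_floor a b
    omega
  rcases h1 with h1 | h1
  · rw [h1, sub_self, abs_zero]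
    exact hCn
  · rw [h1, abs_sub_comm]
    exact hW.lp.s _

private theorem vp_hD {L C : ℝ} {n : ℕ} {w : ℝ × ℝ → ℝ} {W : ℤ × ℤ → ℝ} {A B : ℤ → ℝ}
    (hW : Nr L C n w W A B) (hC : 0 ≤ C) (a b : ℝ) :
    |hD n W (⌊a⌋ - ⌊b⌋) - hD n W ⌊a - b⌋| ≤ C / n := by
  have hCn : 0 ≤ C / n := by positivity
  have h1 : ⌊a⌋ - ⌊b⌋ = ⌊a - b⌋ ∨ ⌊a⌋ - ⌊b⌋ = ⌊a - b⌋ + 1 := by
    have h2 := Int.le_floor_add (a - b) b
    have h3 := Int.le_floor_add_floor (a - b) b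
    rw [sub_add_cancel] at h2 h3
    omega
  rcases h1 with h1 | h1
  · rw [h1, sub_self, abs_zero]
    exact hCn
  · rw [h1]
    exact hW.lp.d _

open Filter Topology in
private theorem vp_lim {L C : ℝ} {n0 : ℕ} {w : ℝ × ℝ → ℝ} (h : Lm L C n0 w) {W : ℕ → ℤ × ℤ → ℝ} {A B : ℕ → ℤ → ℝ}
    (hW : ∀ n, n0 ≤ n → Nr L C n w (W n) (A n) (B n)) {x y : ℝ} (hx : x ∈ Set.Ico (0 : ℝ) 1)
    (hy : y ∈ Set.Ico (0 : ℝ) 1) :
    Tendsto (fun n : ℕ => n * W n (⌊n * x⌋, ⌊n * y⌋) / (hS n (W n) (⌊n * x⌋ + ⌊n * y⌋) *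
      hD n (W n) (⌊n * x⌋ - ⌊n * y⌋))) atTop (𝓝 (gg w x y)) := by
  have hL := h.L1
  have hC := h.C1
  have hL0 : 0 < L := by linarith
  have hsq : Tendsto (fun n : ℕ => Real.sqrt n) atTop atTop :=
    Real.tendsto_sqrt_atTop.comp tendsto_natCast_atTop_atTop
  have hdiv : ∀ K : ℝ, Tendsto (fun n : ℕ => K / Real.sqrt n) atTop (𝓝 0) := fun K =>
    hsq.const_div_atTop K
  have key : ∀ (f : ℕ → ℝ) (l K : ℝ), (∀ n, n0 ≤ n → |f n - l| ≤ K / Real.sqrt n) →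
      Tendsto f atTop (𝓝 l) := by
    intro f l K hf
    rw [tendsto_iff_norm_sub_tendsto_zero]
    refine squeeze_zero' (Eventually.of_forall fun n => norm_nonneg _) ?_ (hdiv K)
    filter_upwards [eventually_ge_atTop n0] with n hn
    exact hf n hn
  have hn1 : ∀ n, n0 ≤ n → (1 : ℝ) ≤ n := by
    intro n hn
    have h1 := h.n1
    exact_mod_cast (by omega : 1 ≤ n)
  have hCn : ∀ n, n0 ≤ n → C / n ≤ C / Real.sqrt n := by
    intro n hn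
    have h1 := hn1 n hn
    have h2 : 0 < Real.sqrt n := Real.sqrt_pos.2 (by linarith)
    apply div_le_div_of_nonneg_left (by linarith) h2
    rw [Real.sqrt_le_left (by linarith)]
    nlinarith
  have t1 : Tendsto (fun n : ℕ => n * W n (⌊n * x⌋, ⌊n * y⌋)) atTop (𝓝 (w (x, y))) := by
    refine key _ _ C fun n hn => ?_
    exact (hW n hn).nr (x, y) ⟨hx, hy⟩
  have t2 : Tendsto (fun n : ℕ => hS n (W n) (⌊n * x⌋ + ⌊n * y⌋)) atTop (𝓝 (1 - DS w (x + y))) := by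
    refine key _ _ (C + (2 * C + 4 * L)) fun n hn => ?_
    have h1 := vp_hS (hW n hn) (by linarith) (n * x) (n * y)
    have h2 := v_ds h hn (hW n hn) (x + y)
    rw [mul_add] at h2
    have h3 : hS n (W n) (⌊n * x⌋ + ⌊n * y⌋) - (1 - DS w (x + y)) =
        (hS n (W n) (⌊n * x⌋ + ⌊n * y⌋) - hS n (W n) ⌊n * x + n * y⌋) +
        (DS w (x + y) - dsum n (W n) 2 ⌊n * x + n * y⌋) := by
      unfold hS
      ring
    rw [h3, add_div]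
    refine (abs_add_le _ _).trans (add_le_add (h1.trans (hCn n hn)) h2)
  have t3 : Tendsto (fun n : ℕ => hD n (W n) (⌊n * x⌋ - ⌊n * y⌋)) atTop (𝓝 (1 - DD w (x - y))) := by
    refine key _ _ (C + (2 * C + 4 * L)) fun n hn => ?_
    have h1 := vp_hD (hW n hn) (by linarith) (n * x) (n * y)
    have h2 := v_dd h hn (hW n hn) (x - y)
    rw [mul_sub] at h2
    have h3 : hD n (W n) (⌊n * x⌋ - ⌊n * y⌋) - (1 - DD w (x - y)) =
        (hD n (W n) (⌊n * x⌋ - ⌊n * y⌋) - hD n (W n) ⌊n * x - n * y⌋) +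
        (DD w (x - y) - dsum n (W n) 3 ⌊n * x - n * y⌋) := by
      unfold hD
      ring
    rw [h3, add_div]
    refine (abs_add_le _ _).trans (add_le_add (h1.trans (hCn n hn)) h2)
  have hd1 := (v_db h (x + y)).1.2
  have hd2 := (v_db h (x - y)).2.2
  have hLi : 0 < 1 / L := by positivity
  exact t1.div (t2.mul t3) (mul_ne_zero (by linarith) (by linarith))

private theorem vp_prod {L C : ℝ} {n0 : ℕ} {w : ℝ × ℝ → ℝ} (h : Lm L C n0 w) {n : ℕ} (hn : n0 ≤ n)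
    {W : ℤ × ℤ → ℝ} {A B : ℤ → ℝ} (hW : Nr L C n w W A B) {x y : ℝ} (hx : x ∈ Set.Ico (0 : ℝ) 1)
    (hy : y ∈ Set.Ico (0 : ℝ) 1) :
    n * W (⌊n * x⌋, ⌊n * y⌋) / (hS n W (⌊n * x⌋ + ⌊n * y⌋) * hD n W (⌊n * x⌋ - ⌊n * y⌋)) =
      n * (A ⌊n * x⌋ * B ⌊n * y⌋) := by
  have hL := h.L1
  have hn1 : 1 ≤ n := le_trans (by have := h.n1; omega) hn
  have he : (⌊n * x⌋, ⌊n * y⌋) ∈ board n := (cel_mem hn1 (x, y)).2 ⟨hx, hy⟩
  have h1 := hW.rf.el _ he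
  have h2 : 0 < 1 / L := by positivity
  have h3 := lt_of_lt_of_le h2 (hW.rf.bd.sd (⌊n * x⌋ + ⌊n * y⌋))
  have h4 := lt_of_lt_of_le h2 (hW.rf.bd.dd (⌊n * x⌋ - ⌊n * y⌋))
  rw [h1]
  unfold hh
  simp only
  field_simp

theorem v_prd {L C : ℝ} {n0 : ℕ} {w : ℝ × ℝ → ℝ} (h : Lm L C n0 w) :
    ∀ x ∈ Set.Ico (0 : ℝ) 1, ∀ x' ∈ Set.Ico (0 : ℝ) 1, ∀ y ∈ Set.Ico (0 : ℝ) 1, ∀ y' ∈ Set.Ico (0 : ℝ) 1,
      gg w x y * gg w x' y' = gg w x y' * gg w x' y := by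
  intro x hx x' hx' y hy y' hy'
  have h0 : ∀ n : ℕ, ∃ (W : ℤ × ℤ → ℝ) (A B : ℤ → ℝ), n0 ≤ n → Nr L C n w W A B := by
    intro n
    by_cases hn : n0 ≤ n
    · obtain ⟨W, hW⟩ := NQR.exists_opt (N := n) (by have := h.n1; omega)
      obtain ⟨A, B, hAB⟩ := h.nr n hn W hW
      exact ⟨W, A, B, fun _ => hAB⟩
    · exact ⟨0, 0, 0, fun h1 => absurd h1 hn⟩
  choose W A B hW using h0
  have t1 := (vp_lim h hW hx hy).mul (vp_lim h hW hx' hy')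
  have t2 := (vp_lim h hW hx hy').mul (vp_lim h hW hx' hy)
  refine tendsto_nhds_unique_of_eventuallyEq t1 t2 ?_
  filter_upwards [Filter.eventually_ge_atTop n0] with n hn
  rw [vp_prod h hn (hW n hn) hx hy, vp_prod h hn (hW n hn) hx' hy', vp_prod h hn (hW n hn) hx hy',
    vp_prod h hn (hW n hn) hx' hy]
  ring

end Pool.Agent.NQF
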