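import Pool.Agent.NQF.VDefs
import Pool.Agent.NQF.VPrd
import Pool.Agent.NQF.VMeas
import Pool.Agent.NQF.VDb

/-!
# NQF-VPot: the potentials

PLAN. `a x = log (gg w x 0)` for `x ∈ [0,1)`, `0` otherwise; `b y = log (gg w 0 y) - log (gg w 0 0)` for `y ∈ [0,1)`, `0` otherwise. On `SQ` `gg w` is in `[1/L, L³]` (`w ∈ [1/L, L]`, `1 - DS`, `1 - DD ∈ [1/L, 1]` by `v_db`):
positive, logarithms bounded by `3 log L`, so `|a| ≤ 3 log L`, `|b| ≤ 6 log L`. Measurable: `ql_meas`, `ql_ds` (compositions), `Measurable.ite`. Identity: `v_prd` with `x' = 0`, `y' = 0`: `gg x y * gg 0 0 = gg x 0 * gg 0 y`; take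
logarithms; `w = gg * (1 - DS) * (1 - DD)`.
-/

set_option autoImplicit false

open Finset MeasureTheory

namespace Pool.Agent.NQF

open Pool.Agent.NQ (board dsum F Ent Dg phi ln Q Qset QS NonAtt bern)
open Pool.Agent.NQR (Adm Opt Bd Rf hS hD hh InR)
open Pool.Agent.NQL

private theorem gg_bd {L C : ℝ} {n0 : ℕ} {w : ℝ × ℝ → ℝ} (h : Lm L C n0 w) {x y : ℝ}
    (hx : x ∈ Set.Ico (0 : ℝ) 1) (hy : y ∈ Set.Ico (0 : ℝ) 1) :
    0 < gg w x y ∧ |Real.log (gg w x y)| ≤ 3 * Real.log L := by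
  have hL := h.L1
  have hL0 : 0 < L := by linarith
  have hp : (x, y) ∈ SQ := ⟨hx, hy⟩
  have h1 := h.ql.lo _ hp
  have h2 := h.ql.hi _ hp
  obtain ⟨⟨h3, h4⟩, _, _⟩ := v_db h (x + y)
  obtain ⟨_, h5, h6⟩ := v_db h (x - y)
  have hLi : 0 < 1 / L := by positivity
  have h7 : 1 / L ≤ 1 - DS w (x + y) := by linarith
  have h8 : 1 / L ≤ 1 - DD w (x - y) := by linarith
  have h9 : 0 < (1 - DS w (x + y)) * (1 - DD w (x - y)) := by
    apply mul_pos <;> linarith
  have hg0 : 0 < gg w x y := by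
    unfold gg
    exact div_pos (by linarith) h9
  have hlog : 0 ≤ Real.log L := Real.log_nonneg hL
  have hlo : 1 / L ≤ gg w x y := by
    unfold gg
    rw [le_div_iff₀ h9]
    have h10 : (1 - DS w (x + y)) * (1 - DD w (x - y)) ≤ 1 := by nlinarith
    nlinarith
  have hhi : gg w x y ≤ L ^ 3 := by
    unfold gg
    rw [div_le_iff₀ h9]
    have h10 : 1 / L * (1 / L) ≤ (1 - DS w (x + y)) * (1 - DD w (x - y)) :=
      mul_le_mul h7 h8 hLi.le (by linarith)
    calc w (x, y) ≤ L := h2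
      _ = L ^ 3 * (1 / L * (1 / L)) := by field_simp
      _ ≤ _ := mul_le_mul_of_nonneg_left h10 (by positivity)
  refine ⟨hg0, ?_⟩
  rw [abs_le]
  constructor
  · have h11 := Real.log_le_log hLi hlo
    rw [one_div, Real.log_inv] at h11
    linarith
  · have h11 := Real.log_le_log hg0 hhi
    rw [Real.log_pow] at h11
    exact_mod_cast h11

theorem v_pot {L C : ℝ} {n0 : ℕ} {w : ℝ × ℝ → ℝ} (h : Lm L C n0 w) : ∃ a b : ℝ → ℝ, Measurable a ∧ Measurable b ∧
    (∃ K : ℝ, ∀ x, |a x| ≤ K ∧ |b x| ≤ K) ∧ ∀ p ∈ SQ, Real.log (w p) =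
      a p.1 + b p.2 + Real.log (1 - DS w (p.1 + p.2)) + Real.log (1 - DD w (p.1 - p.2)) := by
  classical
  have hL := h.L1
  have hL0 : 0 < L := by linarith
  have hlog : 0 ≤ Real.log L := Real.log_nonneg hL
  have h00 : (0 : ℝ) ∈ Set.Ico (0 : ℝ) 1 := ⟨le_refl _, one_pos⟩
  have hmw := ql_meas h.ql
  obtain ⟨hmS, hmD, _, _⟩ := ql_ds h.ql
  have hgx : Measurable fun x : ℝ => gg w x 0 := by
    unfold gg
    refine (hmw.comp (measurable_id.prodMk measurable_const)).div ?_
    exact (measurable_const.sub (hmS.comp (measurable_id.add measurable_const))).mul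
      (measurable_const.sub (hmD.comp (measurable_id.sub measurable_const)))
  have hgy : Measurable fun y : ℝ => gg w 0 y := by
    unfold gg
    refine (hmw.comp (measurable_const.prodMk measurable_id)).div ?_
    exact (measurable_const.sub (hmS.comp (measurable_const.add measurable_id))).mul
      (measurable_const.sub (hmD.comp (measurable_const.sub measurable_id)))
  refine ⟨fun x => if x ∈ Set.Ico (0 : ℝ) 1 then Real.log (gg w x 0) else 0,
    fun y => if y ∈ Set.Ico (0 : ℝ) 1 then Real.log (gg w 0 y) - Real.log (gg w 0 0) else 0,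
    Measurable.ite measurableSet_Ico (Real.measurable_log.comp hgx) measurable_const,
    Measurable.ite measurableSet_Ico ((Real.measurable_log.comp hgy).sub measurable_const)
      measurable_const, ⟨6 * Real.log L, fun x => ⟨?_, ?_⟩⟩, ?_⟩
  · simp only
    split_ifs with hx
    · exact (gg_bd h hx h00).2.trans (by linarith)
    · rw [abs_zero]; linarith
  · simp only
    split_ifs with hx
    · have h1 := (gg_bd h h00 hx).2
      have h2 := (gg_bd h h00 h00).2
      have h3 := abs_sub (Real.log (gg w 0 x)) (Real.log (gg w 0 0))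
      linarith
    · rw [abs_zero]; linarith
  · rintro ⟨x, y⟩ hp
    have hx : x ∈ Set.Ico (0 : ℝ) 1 := hp.1
    have hy : y ∈ Set.Ico (0 : ℝ) 1 := hp.2
    simp only
    rw [if_pos hx, if_pos hy]
    have h1 : gg w x y * gg w 0 0 = gg w x 0 * gg w 0 y :=
      v_prd h x hx 0 h00 y hy 0 h00
    have g1 := (gg_bd h hx hy).1
    have g2 := (gg_bd h h00 h00).1
    have g3 := (gg_bd h hx h00).1
    have g4 := (gg_bd h h00 hy).1
    have h2 := congrArg Real.log h1
    rw [Real.log_mul g1.ne' g2.ne', Real.log_mul g3.ne' g4.ne'] at h2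
    have hLi : 0 < 1 / L := by positivity
    have p1 : 0 < 1 - DS w (x + y) := by linarith [(v_db h (x + y)).1.2]
    have p2 : 0 < 1 - DD w (x - y) := by linarith [(v_db h (x - y)).2.2]
    have h3 : w (x, y) = gg w x y * (1 - DS w (x + y)) * (1 - DD w (x - y)) := by
      unfold gg
      field_simp
    rw [h3, Real.log_mul (mul_pos g1 p1).ne' p2.ne', Real.log_mul g1.ne' p1.ne']
    linarith

end Pool.Agent.NQF
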