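import Pool.Agent.NQF.VDefs
import Pool.Agent.NQF.VMeas
import Pool.Agent.NQF.VCel
import Pool.Agent.NQR.PMax

/-!
# NQF-VRow: marginals of the limit density

Riemann sums along a row or a column and uniqueness of limits.
-/

set_option autoImplicit false

open Finset MeasureTheory

namespace Pool.Agent.NQF

open Pool.Agent.NQ (board dsum F Ent Dg phi ln Q Qset QS NonAtt bern)
open Pool.Agent.NQR (Adm Opt Bd Rf hS hD hh InR)
open Pool.Agent.NQL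

private theorem sec_sum {C : ℝ} (g : ℝ → ℝ) (hg : Integrable g)
    (hout : ∀ y, y ∉ Set.Ico (0 : ℝ) 1 → g y = 0) (V : ℤ → ℝ) {n : ℕ} (hn : 1 ≤ n)
    (hV : ∀ y ∈ Set.Ico (0 : ℝ) 1, |n * V ⌊n * y⌋ - g y| ≤ C / Real.sqrt n) :
    |∑ j ∈ Finset.Ico (0 : ℤ) n, V j - ∫ y, g y| ≤ C / Real.sqrt n := by
  have hnr : (0 : ℝ) < n := by exact_mod_cast hn
  have h1 : ∫ y, g y = ∫ y in Set.Ico ((0 : ℤ) : ℝ) ((1 : ℤ) : ℝ), g y := by
    rw [Int.cast_zero, Int.cast_one]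
    exact (setIntegral_eq_integral_of_forall_compl_eq_zero hout).symm
  rw [h1, cel_one (by norm_num : (0 : ℤ) ≤ 1) hg.integrableOn hn, mul_zero, mul_one,
    ← Finset.sum_sub_distrib]
  have hcell : ∀ i ∈ Finset.Ico (0 : ℤ) n, |V i - ∫ x in {x : ℝ | ⌊n * x⌋ = i}, g x| ≤
      C / Real.sqrt n * (1 / n) := by
    intro i hi
    obtain ⟨hi0, hi1⟩ := Finset.mem_Ico.mp hi
    obtain ⟨hm, hv⟩ := cel_one_vol hn i
    obtain ⟨S, hS⟩ : ∃ S : Set ℝ, S = {x : ℝ | ⌊n * x⌋ = i} := ⟨_, rfl⟩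
    rw [← hS] at hm hv ⊢
    have hr : volume.real S = 1 / n := by
      rw [Measure.real, hv, ENNReal.toReal_ofReal (by positivity)]
    have hSfin : volume S < ⊤ := by
      rw [hv]
      exact ENNReal.ofReal_lt_top
    have hint2 : IntegrableOn (fun _ : ℝ => (n : ℝ) * V i) S := by
      apply integrableOn_const hSfin.ne
    have h2 : V i - ∫ x in S, g x = ∫ x in S, ((n : ℝ) * V i - g x) := by
      rw [integral_sub hint2 hg.integrableOn, setIntegral_const, hr, smul_eq_mul]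
      field_simp
    rw [h2, ← Real.norm_eq_abs, ← hr]
    apply norm_setIntegral_le_of_norm_le_const hSfin
    intro y hy
    rw [hS] at hy
    have hy' : ⌊n * y⌋ = i := hy
    have hy2 := Int.floor_eq_iff.mp hy'
    rw [Real.norm_eq_abs]
    have hyI : y ∈ Set.Ico (0 : ℝ) 1 := by
      have hi0' : (0 : ℝ) ≤ i := by exact_mod_cast hi0
      have hi1' : (i : ℝ) + 1 ≤ n := by exact_mod_cast hi1
      constructor
      · by_contra hc
        rw [not_le] at hc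
        have := mul_neg_of_pos_of_neg hnr hc
        linarith [hy2.1]
      · have h5 : (n : ℝ) * y < n * 1 := by
          rw [mul_one]
          linarith [hy2.2]
        exact lt_of_mul_lt_mul_left h5 hnr.le
    have h3 := hV y hyI
    rw [hy'] at h3
    exact h3
  refine (Finset.abs_sum_le_sum_abs _ _).trans ((Finset.sum_le_sum hcell).trans ?_)
  rw [Finset.sum_const, nsmul_eq_mul, Int.card_Ico, sub_zero, Int.toNat_natCast]
  apply le_of_eq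
  field_simp

private theorem lim_eq {C I : ℝ} {n0 : ℕ} (hC : 0 ≤ C)
    (h : ∀ n : ℕ, n0 ≤ n → 1 ≤ n → |1 - I| ≤ C / Real.sqrt n) : I = 1 := by
  have h0 : |1 - I| ≤ 0 := le_of_forall_pos_le_add (fun ε hε => by
    rw [zero_add]
    obtain ⟨n, hn⟩ : ∃ n : ℕ, n = max n0 (⌈(C / ε) ^ 2⌉₊ + 1) := ⟨_, rfl⟩
    have hn0 : n0 ≤ n := by
      rw [hn]
      exact le_max_left _ _
    have hn1 : ⌈(C / ε) ^ 2⌉₊ + 1 ≤ n := by
      rw [hn]
      exact le_max_right _ _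
    have hnpos : 1 ≤ n := by omega
    have hnr : (0 : ℝ) < n := by exact_mod_cast hnpos
    refine (h n hn0 hnpos).trans ?_
    have hsq : 0 < Real.sqrt n := Real.sqrt_pos.mpr hnr
    have h1 : (C / ε) ^ 2 ≤ n := by
      calc (C / ε) ^ 2 ≤ (⌈(C / ε) ^ 2⌉₊ : ℝ) := Nat.le_ceil _
        _ ≤ n := by exact_mod_cast (by omega : ⌈(C / ε) ^ 2⌉₊ ≤ n)
    have h2 : C / ε ≤ Real.sqrt n := Real.le_sqrt_of_sq_le h1
    rw [div_le_iff₀ hsq]
    rw [div_le_iff₀ hε] at h2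
    linarith)
  have h00 : 1 - I = 0 := abs_eq_zero.mp (le_antisymm h0 (abs_nonneg _))
  linarith

private theorem row_sum {n : ℕ} (W : ℤ × ℤ → ℝ) {x : ℤ} (h0 : 0 ≤ x) (h1 : x < n) :
    dsum n W 0 x = ∑ j ∈ Finset.Ico (0 : ℤ) n, W (x, j) := by
  have e : (board n).filter (fun e => ln 0 e = x) = (Finset.Ico (0 : ℤ) n).image fun y => (x, y) := by
    ext ⟨a, b⟩
    rw [Finset.mem_filter, NQ.mem_board, NQ.ln_zero, Finset.mem_image]
    constructor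
    · rintro ⟨⟨_, h⟩, rfl⟩
      exact ⟨b, Finset.mem_Ico.2 h, rfl⟩
    · rintro ⟨y, hy, hxy⟩
      obtain ⟨rfl, rfl⟩ := Prod.mk.inj hxy
      exact ⟨⟨⟨h0, h1⟩, Finset.mem_Ico.1 hy⟩, rfl⟩
  unfold NQ.dsum
  rw [e, Finset.sum_image (fun a _ b _ h => (Prod.mk.inj h).2)]

private theorem col_sum {n : ℕ} (W : ℤ × ℤ → ℝ) {y : ℤ} (h0 : 0 ≤ y) (h1 : y < n) :
    dsum n W 1 y = ∑ j ∈ Finset.Ico (0 : ℤ) n, W (j, y) := by
  have e : (board n).filter (fun e => ln 1 e = y) = (Finset.Ico (0 : ℤ) n).image fun x => (x, y) := by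
    ext ⟨a, b⟩
    rw [Finset.mem_filter, NQ.mem_board, NQ.ln_one, Finset.mem_image]
    constructor
    · rintro ⟨⟨h, _⟩, rfl⟩
      exact ⟨a, Finset.mem_Ico.2 h, rfl⟩
    · rintro ⟨x, hx, hxy⟩
      obtain ⟨rfl, rfl⟩ := Prod.mk.inj hxy
      exact ⟨⟨Finset.mem_Ico.1 hx, ⟨h0, h1⟩⟩, rfl⟩
  unfold NQ.dsum
  rw [e, Finset.sum_image (fun a _ b _ h => (Prod.mk.inj h).1)]

private theorem fl_mem {n : ℕ} (hn : 1 ≤ n) {x : ℝ} (hx : x ∈ Set.Ico (0 : ℝ) 1) :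
    0 ≤ ⌊n * x⌋ ∧ ⌊n * x⌋ < (n : ℤ) := by
  have hnr : (0 : ℝ) < n := by exact_mod_cast hn
  constructor
  · exact Int.floor_nonneg.mpr (mul_nonneg hnr.le hx.1)
  · rw [Int.floor_lt]
    have := mul_lt_mul_of_pos_left hx.2 hnr
    push_cast
    linarith

theorem v_row {L C : ℝ} {n0 : ℕ} {w : ℝ × ℝ → ℝ} (h : Lm L C n0 w) : ∀ x ∈ Set.Ico (0 : ℝ) 1, ∫ y, w (x, y) = 1 := by
  intro x hx
  have hC0 : 0 ≤ C := by linarith [h.C1]
  apply lim_eq (n0 := n0) hC0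
  intro n hn0 hn1
  obtain ⟨W, hW⟩ := Pool.Agent.NQR.exists_opt (N := n) hn1
  obtain ⟨A, B, hAB⟩ := h.nr n hn0 W hW
  obtain ⟨hf0, hf1⟩ := fl_mem hn1 hx
  have h1 := sec_sum (C := C) (fun y => w (x, y)) ((ql_sec h.L1 h.ql).1 x)
    (fun y hy => h.ql.out _ (fun hp => hy hp.2)) (fun j => W (⌊n * x⌋, j)) hn1
    (fun y hy => hAB.nr (x, y) ⟨hx, hy⟩)
  rw [← row_sum W hf0 hf1, hAB.rf.adm.row _ hf0 hf1] at h1
  exact h1

theorem v_col {L C : ℝ} {n0 : ℕ} {w : ℝ × ℝ → ℝ} (h : Lm L C n0 w) : ∀ y ∈ Set.Ico (0 : ℝ) 1, ∫ x, w (x, y) = 1 := by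
  intro y hy
  have hC0 : 0 ≤ C := by linarith [h.C1]
  apply lim_eq (n0 := n0) hC0
  intro n hn0 hn1
  obtain ⟨W, hW⟩ := Pool.Agent.NQR.exists_opt (N := n) hn1
  obtain ⟨A, B, hAB⟩ := h.nr n hn0 W hW
  obtain ⟨hf0, hf1⟩ := fl_mem hn1 hy
  have h1 := sec_sum (C := C) (fun x => w (x, y)) ((ql_sec h.L1 h.ql).2.1 y)
    (fun x hx => h.ql.out _ (fun hp => hx hp.1)) (fun j => W (j, ⌊n * y⌋)) hn1
    (fun x hx => hAB.nr (x, y) ⟨hx, hy⟩)
  rw [← col_sum W hf0 hf1, hAB.rf.adm.col _ hf0 hf1] at h1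
  exact h1

end Pool.Agent.NQF
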