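import Pool.Agent.NQF.VDefs
import Pool.Agent.NQF.VMeas
import Pool.Agent.NQF.VRow
import Pool.Agent.NQF.VDb
import Pool.Agent.NQF.VPhi

/-!
# NQF-VQu: the limit density is a queenon

PLAN. `Queenon w`: `ql_meas`, `ql_bd`, `out`, `ql_int`, `v_row`, `v_col` (all `x`), `v_db` (`1 - 1/L ≤ 1`). `w log w`: measurable, bounded (`w ∈ [1/L, L]` or `0`), zero outside of `SQ` (volume one).
`phi ∘ DS w`: measurable, in `[0,1]`, zero outside `[0,2)`. For a queenon `v`: `DS v` is integrable (`q_ds` is not needed: a.e. strongly measurable), `0 ≤ DS v ≤ 1` a.e., zero outside `[0,2)`, so `phi (DS v)` is integrable;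
same for `DD v`.
-/

set_option autoImplicit false

open Finset MeasureTheory

namespace Pool.Agent.NQF

open Pool.Agent.NQ (board dsum F Ent Dg phi ln Q Qset QS NonAtt bern)
open Pool.Agent.NQR (Adm Opt Bd Rf hS hD hh InR)
open Pool.Agent.NQL

theorem v_qu {L C : ℝ} {n0 : ℕ} {w : ℝ × ℝ → ℝ} (h : Lm L C n0 w) : Queenon w ∧
    Integrable (fun p => w p * Real.log (w p)) := by
  have hL : 0 < L := lt_of_lt_of_le one_pos h.L1
  have hm := ql_meas h.ql
  have hi := ql_int h.L1 h.ql
  refine ⟨⟨hm, fun p => (ql_bd h.L1 h.ql p).1, h.ql.out, hi, Filter.Eventually.of_forall fun x hx => v_row h x hx,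
    Filter.Eventually.of_forall fun y hy => v_col h y hy, Filter.Eventually.of_forall fun s => ?_,
    Filter.Eventually.of_forall fun s => ?_⟩, ?_⟩
  · have h1 := (v_db h s).1.2
    have h2 : 0 < 1 / L := by positivity
    linarith
  · have h1 := (v_db h s).2.2
    have h2 : 0 < 1 / L := by positivity
    linarith
  · refine (hi.const_mul (Real.log L)).mono' (hm.mul hm.log).aestronglyMeasurable
      (Filter.Eventually.of_forall fun p => ?_)
    obtain ⟨h1, h2⟩ := ql_bd h.L1 h.ql p
    rw [Real.norm_eq_abs, abs_mul, abs_of_nonneg h1, mul_comm]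
    refine mul_le_mul_of_nonneg_right ?_ h1
    by_cases hp : p ∈ SQ
    · have h3 := h.ql.lo p hp
      have h4 : 0 < 1 / L := by positivity
      have h5 := Real.log_le_log h4 h3
      rw [one_div, Real.log_inv] at h5
      have h6 := Real.log_le_log (lt_of_lt_of_le h4 h3) h2
      rw [abs_le]
      exact ⟨h5, h6⟩
    · rw [h.ql.out p hp]
      simp [Real.log_nonneg h.L1]

end Pool.Agent.NQF
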