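import Pool.Agent.NQF.VDefs
import Pool.Agent.NQF.VFubA
import Pool.Agent.NQF.VFubB
import Pool.Agent.NQF.VPot
import Pool.Agent.NQF.VPin
import Pool.Agent.NQF.VQu
import Pool.Agent.NQF.VDb
import Pool.Agent.NQF.VMeas

/-!
# NQF-VOptR: the dual value does not depend on the queenon

PLAN. `a`, `b`, `K` from `v_pot`; `f s = log (1 - DS w s)`, `g d = log (1 - DD w d)`: measurable (`ql_ds`), `|f|, |g| ≤ log L` (`v_db`). For a queenon `v` (`v = 0` off `SQ`):
`∫ v log w = ∫ v a(x) + ∫ v b(y) + ∫ v f(x+y) + ∫ v g(x-y) = ∫_{[0,1)} a + ∫_{[0,1)} b + ∫ DS v f + ∫ DD v g` (`q_row`, `q_col`, `q_ds`, `q_dd`). So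
`Rv v = -∫_{[0,1)} a - ∫_{[0,1)} b + (1 - 1) - ∫ phi (DS w) - ∫ phi (DD w) - ∫ f DS w - ∫ g DD w` (`q_mass` for `v` and `w`; `∫ f (DS v - DS w)` splits): the same number for `v` and for `w`.
`Rv w = Phi w` by definition (all corrections vanish: `w - w`, `DS w - DS w`). The integrability statements: `p ↦ v p log (w p)` is a.e. equal (in fact everywhere, as `v = 0` off `SQ`) to the sum of the four integrable functions.
-/

set_option autoImplicit false

open Finset MeasureTheory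

namespace Pool.Agent.NQF

open Pool.Agent.NQ (board dsum F Ent Dg phi ln Q Qset QS NonAtt bern)
open Pool.Agent.NQR (Adm Opt Bd Rf hS hD hh InR)
open Pool.Agent.NQL

/-- the tangent functional -/
noncomputable def Rv (w v : ℝ × ℝ → ℝ) : ℝ :=
  (∫ p, (-(v p * Real.log (w p)) + w p - v p)) +
    (∫ s, (-phi (DS w s) + Real.log (1 - DS w s) * (DS v s - DS w s))) +
    ∫ d, (-phi (DD w d) + Real.log (1 - DD w d) * (DD v d - DD w d))

private theorem log_bd {L x : ℝ} (hL : 1 ≤ L) (h0 : 0 ≤ x) (h1 : x ≤ 1 - 1 / L) : |Real.log (1 - x)| ≤ Real.log L := by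
  have hL0 : 0 < L := by linarith
  have h2 : 1 / L ≤ 1 - x := by linarith
  have h3 : 0 < 1 / L := by positivity
  have h4 := Real.log_le_log h3 h2
  rw [one_div, Real.log_inv] at h4
  have h5 : Real.log (1 - x) ≤ 0 := Real.log_nonpos (by linarith) (by linarith)
  rw [abs_le]
  constructor
  · linarith
  · have := Real.log_nonneg hL
    linarith

private structure Pt (w : ℝ × ℝ → ℝ) (a b : ℝ → ℝ) : Prop where
  ha : Measurable a
  hb : Measurable b
  hK : ∃ K : ℝ, ∀ x, |a x| ≤ K ∧ |b x| ≤ K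
  hw : Queenon w
  eq : ∀ p ∈ SQ, Real.log (w p) = a p.1 + b p.2 + Real.log (1 - DS w (p.1 + p.2)) + Real.log (1 - DD w (p.1 - p.2))
  mS : Measurable fun s => Real.log (1 - DS w s)
  mD : Measurable fun s => Real.log (1 - DD w s)
  bS : ∃ K : ℝ, ∀ s, |Real.log (1 - DS w s)| ≤ K
  bD : ∃ K : ℝ, ∀ s, |Real.log (1 - DD w s)| ≤ K

private theorem pt_ex {L C : ℝ} {n0 : ℕ} {w : ℝ × ℝ → ℝ} (h : Lm L C n0 w) : ∃ a b, Pt w a b := by
  obtain ⟨a, b, ha, hb, hK, he⟩ := v_pot h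
  have hm := ql_ds h.ql
  exact ⟨a, b, ha, hb, hK, (v_qu h).1, he, (measurable_const.sub hm.1).log, (measurable_const.sub hm.2.1).log,
    ⟨Real.log L, fun s => log_bd h.L1 (v_db h s).1.1 (v_db h s).1.2⟩,
    ⟨Real.log L, fun s => log_bd h.L1 (v_db h s).2.1 (v_db h s).2.2⟩⟩

private theorem pt_main {w : ℝ × ℝ → ℝ} {a b : ℝ → ℝ} (P : Pt w a b) {v : ℝ × ℝ → ℝ} (hv : Queenon v) :
    Integrable (fun p => v p * Real.log (w p)) ∧
    Integrable (fun s => DS v s * Real.log (1 - DS w s)) ∧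
    Integrable (fun s => DD v s * Real.log (1 - DD w s)) ∧
    ∫ p, v p * Real.log (w p) = (∫ x in Set.Ico (0 : ℝ) 1, a x) + (∫ x in Set.Ico (0 : ℝ) 1, b x) +
      (∫ s, DS v s * Real.log (1 - DS w s)) + ∫ s, DD v s * Real.log (1 - DD w s) := by
  obtain ⟨K, hK⟩ := P.hK
  obtain ⟨K1, hK1⟩ := P.bS
  obtain ⟨K2, hK2⟩ := P.bD
  obtain ⟨i1, e1⟩ := q_row hv P.ha (fun x => (hK x).1)
  obtain ⟨i2, e2⟩ := q_col hv P.hb (fun x => (hK x).2)
  obtain ⟨-, i3, j3, e3⟩ := q_ds hv.int P.mS hK1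
  obtain ⟨-, i4, j4, e4⟩ := q_dd hv.int P.mD hK2
  have hpt : (fun p => v p * Real.log (w p)) = fun p : ℝ × ℝ => v p * a p.1 + v p * b p.2 +
      v p * Real.log (1 - DS w (p.1 + p.2)) + v p * Real.log (1 - DD w (p.1 - p.2)) := by
    funext p
    by_cases hp : p ∈ SQ
    · rw [P.eq p hp]; ring
    · rw [hv.out p hp]; ring
  have i12 : Integrable (fun p : ℝ × ℝ => v p * a p.1 + v p * b p.2) := i1.add i2
  have i123 : Integrable (fun p : ℝ × ℝ => v p * a p.1 + v p * b p.2 + v p * Real.log (1 - DS w (p.1 + p.2))) :=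
    i12.add i3
  refine ⟨?_, j3, j4, ?_⟩
  · rw [hpt]
    exact i123.add i4
  · rw [hpt, integral_add i123 i4, integral_add i12 i3, integral_add i1 i2, e1, e2, e3, e4]

theorem rv_int {L C : ℝ} {n0 : ℕ} {w : ℝ × ℝ → ℝ} (h : Lm L C n0 w) {v : ℝ × ℝ → ℝ} (hv : Queenon v) :
    Integrable (fun p => -(v p * Real.log (w p)) + w p - v p) ∧
    Integrable (fun s => -phi (DS w s) + Real.log (1 - DS w s) * (DS v s - DS w s)) ∧
    Integrable (fun d => -phi (DD w d) + Real.log (1 - DD w d) * (DD v d - DD w d)) := by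
  obtain ⟨a, b, P⟩ := pt_ex h
  obtain ⟨i1, i2, i3, -⟩ := pt_main P hv
  obtain ⟨-, j2, j3, -⟩ := pt_main P P.hw
  obtain ⟨p2, p3, -, -⟩ := phi_int P.hw
  refine ⟨(i1.neg.add P.hw.int).sub hv.int, ?_, ?_⟩
  · refine (p2.neg.add (i2.sub j2)).congr (Filter.Eventually.of_forall fun s => ?_)
    simp only [Pi.add_apply, Pi.neg_apply, Pi.sub_apply]
    ring
  · refine (p3.neg.add (i3.sub j3)).congr (Filter.Eventually.of_forall fun s => ?_)
    simp only [Pi.add_apply, Pi.neg_apply, Pi.sub_apply]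
    ring

theorem rv_const {L C : ℝ} {n0 : ℕ} {w : ℝ × ℝ → ℝ} (h : Lm L C n0 w) {v : ℝ × ℝ → ℝ} (hv : Queenon v) :
    Rv w v = Phi w := by
  obtain ⟨a, b, P⟩ := pt_ex h
  obtain ⟨i1, i2, i3, e1⟩ := pt_main P hv
  obtain ⟨j1, j2, j3, e2⟩ := pt_main P P.hw
  obtain ⟨p2, p3, -, -⟩ := phi_int P.hw
  have m1 := q_mass hv
  have m2 := q_mass P.hw
  have r1 : ∫ p, (-(v p * Real.log (w p)) + w p - v p) = -(∫ p, v p * Real.log (w p)) := by
    have h1 : ∫ p, (-(v p * Real.log (w p)) + w p - v p) =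
        (∫ p, (-(v p * Real.log (w p)) + w p)) - ∫ p, v p := integral_sub (i1.neg.add P.hw.int) hv.int
    have h2 : ∫ p, (-(v p * Real.log (w p)) + w p) = (∫ p, -(v p * Real.log (w p))) + ∫ p, w p :=
      integral_add i1.neg P.hw.int
    rw [h1, h2, integral_neg, m1, m2]
    ring
  have r2 : ∫ s, (-phi (DS w s) + Real.log (1 - DS w s) * (DS v s - DS w s)) =
      -(∫ s, phi (DS w s)) + ((∫ s, DS v s * Real.log (1 - DS w s)) - ∫ s, DS w s * Real.log (1 - DS w s)) := by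
    have h1 : ∀ s, -phi (DS w s) + Real.log (1 - DS w s) * (DS v s - DS w s) =
        -phi (DS w s) + (DS v s * Real.log (1 - DS w s) - DS w s * Real.log (1 - DS w s)) := fun s => by ring
    simp only [h1]
    have h2 : ∫ s, (-phi (DS w s) + (DS v s * Real.log (1 - DS w s) - DS w s * Real.log (1 - DS w s))) =
        (∫ s, -phi (DS w s)) + ∫ s, (DS v s * Real.log (1 - DS w s) - DS w s * Real.log (1 - DS w s)) :=
      integral_add p2.neg (i2.sub j2)
    rw [h2, integral_neg, integral_sub i2 j2]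
  have r3 : ∫ s, (-phi (DD w s) + Real.log (1 - DD w s) * (DD v s - DD w s)) =
      -(∫ s, phi (DD w s)) + ((∫ s, DD v s * Real.log (1 - DD w s)) - ∫ s, DD w s * Real.log (1 - DD w s)) := by
    have h1 : ∀ s, -phi (DD w s) + Real.log (1 - DD w s) * (DD v s - DD w s) =
        -phi (DD w s) + (DD v s * Real.log (1 - DD w s) - DD w s * Real.log (1 - DD w s)) := fun s => by ring
    simp only [h1]
    have h2 : ∫ s, (-phi (DD w s) + (DD v s * Real.log (1 - DD w s) - DD w s * Real.log (1 - DD w s))) =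
        (∫ s, -phi (DD w s)) + ∫ s, (DD v s * Real.log (1 - DD w s) - DD w s * Real.log (1 - DD w s)) :=
      integral_add p3.neg (i3.sub j3)
    rw [h2, integral_neg, integral_sub i3 j3]
  unfold Rv Phi
  rw [r1, r2, r3, e1, e2]
  ring

end Pool.Agent.NQF
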