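import Pool.Agent.NQF.VDefs
import Pool.Agent.NQF.VPin
import Pool.Agent.NQF.VPhi
import Pool.Agent.NQF.VOptR

/-!
# NQF-VOpt: the limit density is the unique maximiser

PLAN. `Phi v ≤ Rv w v`: three integral inequalities (`integral_mono_ae`, `rv_int`, `phi_int`): `-(v log v) ≤ -(v log w) + w - v` pointwise (`ent_tan` on `SQ` where `w > 0`; off `SQ` both sides are `0`: `v = w = 0`);
`-phi (DS v) ≤ -phi (DS w) + log (1 - DS w) (DS v - DS w)` for a.e. `s` (`phi_tan`, `DS w < 1` by `v_db`, `DS v ≤ 1` a.e.); same for `DD`. With `rv_const`: `Phi v ≤ Phi w`. Equality: then the three differences, which are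
`≥ 0`, have integral `0`; the first: `-(v log w) + w - v + v log v = 0` a.e. (`integral_eq_zero_iff_of_nonneg_ae`), so `v = w` a.e. by `ent_eq` (on `SQ`; off `SQ` both are `0`).
-/

set_option autoImplicit false

open Finset MeasureTheory

namespace Pool.Agent.NQF

open Pool.Agent.NQ (board dsum F Ent Dg phi ln Q Qset QS NonAtt bern)
open Pool.Agent.NQR (Adm Opt Bd Rf hS hD hh InR)
open Pool.Agent.NQL

theorem v_opt {L C : ℝ} {n0 : ℕ} {w : ℝ × ℝ → ℝ} (h : Lm L C n0 w) {v : ℝ × ℝ → ℝ} (hv : Queenon v)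
    (hi : Integrable (fun p => v p * Real.log (v p))) : Phi v ≤ Phi w ∧ (Phi v = Phi w → v =ᵐ[volume] w) := by
  have hL : 0 < L := lt_of_lt_of_le one_pos h.L1
  have hw := (v_qu h).1
  have hpos : ∀ p ∈ SQ, 0 < w p := fun p hp => lt_of_lt_of_le (by positivity) (h.ql.lo p hp)
  obtain ⟨r1, r2, r3⟩ := rv_int h hv
  obtain ⟨p1, p2, -, -⟩ := phi_int hv
  have hlt : ∀ s, DS w s < 1 ∧ DD w s < 1 := by
    intro s
    obtain ⟨⟨-, h1⟩, -, h2⟩ := v_db h s
    have h3 : 0 < 1 / L := by positivity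
    exact ⟨by linarith, by linarith⟩
  have hpt : ∀ p, -(v p * Real.log (v p)) ≤ -(v p * Real.log (w p)) + w p - v p := by
    intro p
    by_cases hp : p ∈ SQ
    · exact ent_tan (hv.nn p) (hpos p hp)
    · rw [hv.out p hp, h.ql.out p hp]; simp
  have a1 : -(∫ p, v p * Real.log (v p)) ≤ ∫ p, (-(v p * Real.log (w p)) + w p - v p) := by
    rw [← integral_neg]
    exact integral_mono hi.neg r1 hpt
  have a2 : -(∫ s, phi (DS v s)) ≤ ∫ s, (-phi (DS w s) + Real.log (1 - DS w s) * (DS v s - DS w s)) := by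
    rw [← integral_neg]
    refine integral_mono_ae p1.neg r2 ?_
    filter_upwards [hv.sd] with s hs
    exact phi_tan (hlt s).1 hs
  have a3 : -(∫ s, phi (DD v s)) ≤ ∫ s, (-phi (DD w s) + Real.log (1 - DD w s) * (DD v s - DD w s)) := by
    rw [← integral_neg]
    refine integral_mono_ae p2.neg r3 ?_
    filter_upwards [hv.dd] with s hs
    exact phi_tan (hlt s).2 hs
  have hR := rv_const h hv
  unfold Rv at hR
  have hPv : Phi v = -(∫ p, v p * Real.log (v p)) - (∫ s, phi (DS v s)) - ∫ d, phi (DD v d) := rfl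
  refine ⟨by linarith, fun heq => ?_⟩
  have b1 : -(∫ p, v p * Real.log (v p)) = ∫ p, (-(v p * Real.log (w p)) + w p - v p) := by linarith
  have hg : ∫ p, (-(v p * Real.log (w p)) + w p - v p + v p * Real.log (v p)) = 0 := by
    have h1 : ∫ p, (-(v p * Real.log (w p)) + w p - v p + v p * Real.log (v p)) =
        (∫ p, (-(v p * Real.log (w p)) + w p - v p)) + ∫ p, v p * Real.log (v p) := integral_add r1 hi
    rw [h1]
    linarith
  have hnn : 0 ≤ᵐ[volume] fun p => -(v p * Real.log (w p)) + w p - v p + v p * Real.log (v p) :=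
    Filter.Eventually.of_forall fun p => by
      have := hpt p
      show (0 : ℝ) ≤ -(v p * Real.log (w p)) + w p - v p + v p * Real.log (v p)
      linarith
  have hae := (integral_eq_zero_iff_of_nonneg_ae hnn (r1.add hi)).1 hg
  filter_upwards [hae] with p hp
  by_cases hps : p ∈ SQ
  · refine ent_eq (hv.nn p) (hpos p hps) ?_
    have hp' : -(v p * Real.log (w p)) + w p - v p + v p * Real.log (v p) = 0 := hp
    linarith
  · rw [hv.out p hps, h.ql.out p hps]

end Pool.Agent.NQF
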