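import Pool.Agent.NQF.VDefs
import Pool.Agent.NQF.VEnt
import Pool.Agent.NQF.VDgv
import Pool.Agent.NQR.PMax

/-!
# NQF-VVal: the value

Uniqueness of the limit of `F n W / n - log n`.
-/

set_option autoImplicit false

open Finset MeasureTheory

namespace Pool.Agent.NQF

open Pool.Agent.NQ (board dsum F Ent Dg phi ln Q Qset QS NonAtt bern)
open Pool.Agent.NQR (Adm Opt Bd Rf hS hD hh InR)
open Pool.Agent.NQL

theorem v_val {L C : ℝ} {n0 : ℕ} {w : ℝ × ℝ → ℝ} (h : Lm L C n0 w) {α : ℝ}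
    (hα : ∀ ε : ℝ, 0 < ε → ∃ n1 : ℕ, ∀ n : ℕ, n1 ≤ n → ∀ W : ℤ × ℤ → ℝ, Opt n W →
      |F n W / n - Real.log n - (1 - α)| ≤ ε) : α = 1 - Phi w := by
  obtain ⟨C1, hC1, h1⟩ := v_ent h
  obtain ⟨C2, hC2, h2⟩ := v_dg h
  have key : ∀ ε : ℝ, 0 < ε → |Phi w - (1 - α)| ≤ ε := by
    intro ε hε
    obtain ⟨n1, hn1⟩ := hα (ε / 2) (by linarith)
    obtain ⟨M, hM⟩ : ∃ M : ℝ, M = 2 * (C1 + C2) / ε := ⟨_, rfl⟩
    obtain ⟨n, hn⟩ : ∃ n : ℕ, n = max (max n0 n1) (⌈M ^ 2⌉₊ + 1) := ⟨_, rfl⟩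
    have hn0 : n0 ≤ n := by
      rw [hn]
      exact (le_max_left _ _).trans (le_max_left _ _)
    have hn1' : n1 ≤ n := by
      rw [hn]
      exact (le_max_right _ _).trans (le_max_left _ _)
    have hnM : ⌈M ^ 2⌉₊ + 1 ≤ n := by
      rw [hn]
      exact le_max_right _ _
    have hn1000 := h.n1
    have hnpos : 0 < n := by omega
    have hnr : (0 : ℝ) < n := by exact_mod_cast hnpos
    obtain ⟨W, hW⟩ := Pool.Agent.NQR.exists_opt hnpos
    obtain ⟨A, B, hAB⟩ := h.nr n hn0 W hW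
    have e1 := (h1 n hn0 W A B hAB).1
    have e2 := h2 n hn0 W A B hAB
    have e3 := hn1 n hn1' W hW
    have hsq : 0 < Real.sqrt n := Real.sqrt_pos.mpr hnr
    have hMn : M ^ 2 ≤ n := by
      calc M ^ 2 ≤ (⌈M ^ 2⌉₊ : ℝ) := Nat.le_ceil _
        _ ≤ n := by exact_mod_cast (by omega : ⌈M ^ 2⌉₊ ≤ n)
    have hMs : M ≤ Real.sqrt n := Real.le_sqrt_of_sq_le hMn
    have e4 : C1 / Real.sqrt n + C2 / Real.sqrt n ≤ ε / 2 := by
      rw [← add_div, div_le_iff₀ hsq]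
      have h5 : M * ε = 2 * (C1 + C2) := by
        rw [hM]
        field_simp
      nlinarith
    have hF : F n W / n - Real.log n - Phi w =
        (Ent n W / n - Real.log n + ∫ p, w p * Real.log (w p)) -
          (Dg n W / n - (∫ s, phi (DS w s)) - ∫ d, phi (DD w d)) := by
      unfold Phi F
      ring
    have e5 : |F n W / n - Real.log n - Phi w| ≤ ε / 2 := by
      rw [hF]
      exact (abs_sub _ _).trans ((add_le_add e1 e2).trans e4)
    have e6 : Phi w - (1 - α) = (F n W / n - Real.log n - (1 - α)) -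
        (F n W / n - Real.log n - Phi w) := by ring
    rw [e6]
    refine (abs_sub _ _).trans ?_
    linarith
  have h0 : |Phi w - (1 - α)| ≤ 0 := le_of_forall_pos_le_add (fun ε hε => by
    rw [zero_add]
    exact key ε hε)
  have h00 : Phi w - (1 - α) = 0 := abs_eq_zero.mp (le_antisymm h0 (abs_nonneg _))
  linarith

end Pool.Agent.NQF
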