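import Pool.Agent.NQF.VDefs
import Pool.Agent.NQF.VLim
import Pool.Agent.NQF.VQu
import Pool.Agent.NQF.VOpt
import Pool.Agent.NQF.VVal
import Pool.Agent.NQF.VCon
import Pool.Agent.NQF.VLub

/-!
# NQF-VFin: the constants as optimal values

PLAN. Assembly: `v_lim`, `v_qu`, `v_opt`, `v_val`, `v_con`, `v_lub`.
-/

set_option autoImplicit false

open Finset MeasureTheory

namespace Pool.Agent.NQF

open Pool.Agent.NQ (board dsum F Ent Dg phi ln Q Qset QS NonAtt bern)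
open Pool.Agent.NQR (Adm Opt Bd Rf hS hD hh InR)
open Pool.Agent.NQL

theorem v_fin {α c : ℝ}
    (hα : ∀ ε : ℝ, 0 < ε → ∃ n1 : ℕ, ∀ n : ℕ, n1 ≤ n → ∀ W : ℤ × ℤ → ℝ, Opt n W →
      |F n W / n - Real.log n - (1 - α)| ≤ ε)
    (hc : ∀ ε : ℝ, 0 < ε → ∃ n1 : ℕ, ∀ n : ℕ, n1 ≤ n → ∀ W : ℤ × ℤ → ℝ, Opt n W → |cn n W - c| ≤ ε) :
    ∃ w : ℝ × ℝ → ℝ, Queenon w ∧ Integrable (fun p => w p * Real.log (w p)) ∧
      (∀ v : ℝ × ℝ → ℝ, Queenon v → Integrable (fun p => v p * Real.log (v p)) →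
        Phi v ≤ Phi w ∧ (Phi v = Phi w → v =ᵐ[volume] w)) ∧
      α = 1 - Phi w ∧
      IsLUB {t : ℝ | ∃ m : ℕ, 1 ≤ m ∧ ∃ X : Matrix (JJ m) (JJ m) ℝ, X.PosDef ∧ t = Kv w m X}
        (c - Real.log (4 * Real.pi) / 2) := by
  obtain ⟨L, C, n0, w, h⟩ := v_lim
  exact ⟨w, (v_qu h).1, (v_qu h).2, fun v hv hi => v_opt h hv hi, v_val h hα, v_lub h (v_con h hc)⟩

end Pool.Agent.NQF
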